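import Pool.Agent.Lib.E2.MB

/-!
Block ABS0: analyticity and crude bounds for the spectral sums.
-/

namespace Pool.Agent.Lib.E2

open Complex MeasureTheory Set Filter Topology
open scoped Real

namespace ABS0

variable {ι : Type} {k : ι → ℝ} {B : ι → ℂ}

theorem str_open : IsOpen Str :=
  isOpen_lt (continuous_abs.comp continuous_im) continuous_const

theorem summ (hD : Disc k B) {e : ℝ} (he : e ∈ Ioc (0 : ℝ) 1) {F : ℝ → ℂ} {M : ℝ}
    (hF : ∀ t, ‖F t‖ ≤ Real.exp ((π / 2 - e) * |t|) * M) : Summable (fun i => B i * F (k i)) := by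
  obtain ⟨C, n, h, _⟩ := hD
  refine Summable.of_norm_bounded ((h e he).1.mul_right M) fun i => ?_
  rw [norm_mul, mul_assoc]
  gcongr
  exact hF _

theorem integ (hB : ContB) {e : ℝ} (he : e ∈ Ioc (0 : ℝ) 1) {F : ℝ → ℂ} {M : ℝ}
    (hc : Continuous F) (hF : ∀ t, ‖F t‖ ≤ Real.exp ((π / 2 - e) * |t|) * M) :
    Integrable (fun t => Bc t * F t) := by
  obtain ⟨hm, C, h⟩ := hB
  refine ((h e he).1.mul_const M).mono' (hm.mul hc.measurable).aestronglyMeasurable
    (ae_of_all _ fun t => ?_)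
  rw [norm_mul, mul_assoc]
  gcongr
  exact hF _

theorem bound (hD : Disc k B) (hB : ContB) : ∃ (C : ℝ) (n : ℕ), 0 ≤ C ∧ ∀ e ∈ Ioc (0 : ℝ) 1,
    ∀ (F : ℝ → ℂ) (M : ℝ), 0 ≤ M → (∀ t, ‖F t‖ ≤ Real.exp ((π / 2 - e) * |t|) * M) →
    ‖∑' i, B i * F (k i) + ∫ t : ℝ, Bc t * F t‖ ≤ C / e ^ n * M := by
  obtain ⟨C1, n, hD, _⟩ := hD
  obtain ⟨_, C2, hB⟩ := hB
  refine ⟨|C1| + |C2|, n + 1, by positivity, fun e he F M hM0 hF => ?_⟩
  have he0 := he.1
  have h1 := MB.sum_bound hM0 (hD e he).1 fun i => hF (k i)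
  have h2 : ‖∫ t : ℝ, Bc t * F t‖ ≤ (∫ t : ℝ, ‖Bc t‖ * Real.exp ((π / 2 - e) * |t|)) * M := by
    rw [← integral_mul_const]
    refine norm_integral_le_of_norm_le ((hB e he).1.mul_const M) (ae_of_all _ fun t => ?_)
    rw [norm_mul, mul_assoc]
    gcongr
    exact hF t
  have h3 : C1 / e ^ n ≤ |C1| / e ^ (n + 1) := by
    calc C1 / e ^ n ≤ |C1| / e ^ n := by gcongr; exact le_abs_self C1
      _ ≤ |C1| / e ^ (n + 1) :=
        div_le_div_of_nonneg_left (abs_nonneg _) (by positivity)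
          (pow_le_pow_of_le_one he0.le he.2 (Nat.le_succ n))
  have h4 : C2 * e ^ (-(3 / 4) : ℝ) ≤ |C2| / e ^ (n + 1) := by
    calc C2 * e ^ (-(3 / 4) : ℝ) ≤ |C2| * e ^ (-(3 / 4) : ℝ) := by
          gcongr; exact le_abs_self C2
      _ ≤ |C2| * e ^ (-((n + 1 : ℕ) : ℝ)) := by
          apply mul_le_mul_of_nonneg_left _ (abs_nonneg _)
          apply Real.rpow_le_rpow_of_exponent_ge he.1 he.2
          push_cast
          linarith [(Nat.cast_nonneg n : (0 : ℝ) ≤ n)]
      _ = |C2| / e ^ (n + 1) := by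
          rw [Real.rpow_neg he0.le, Real.rpow_natCast, div_eq_mul_inv]
  calc _ ≤ ‖∑' i, B i * F (k i)‖ + ‖∫ t : ℝ, Bc t * F t‖ := norm_add_le _ _
    _ ≤ |C1| / e ^ (n + 1) * M + |C2| / e ^ (n + 1) * M := by
        refine add_le_add (h1.trans ?_) (h2.trans ?_)
        · exact mul_le_mul_of_nonneg_right ((hD e he).2.trans h3) hM0
        · exact mul_le_mul_of_nonneg_right ((hB e he).2.trans h4) hM0
    _ = _ := by ring

theorem near {z : ℂ} (hz : z ∈ Str) : ∃ e ∈ Ioc (0 : ℝ) 1, ∀ w : ℂ, ‖w - z‖ < e →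
    e ≤ π / 2 - |w.im| ∧ -(|z.re| + 1) ≤ w.re := by
  have hz' : |z.im| < π / 2 := hz
  refine ⟨min 1 ((π / 2 - |z.im|) / 2), ⟨lt_min one_pos (by linarith), min_le_left _ _⟩,
    fun w hw => ?_⟩
  have h1 := min_le_left 1 ((π / 2 - |z.im|) / 2)
  have h2 := min_le_right 1 ((π / 2 - |z.im|) / 2)
  have h3 := abs_im_le_norm (w - z)
  have h4 := abs_re_le_norm (w - z)
  rw [sub_im] at h3
  rw [sub_re] at h4
  have h5 := abs_sub_abs_le_abs_sub w.im z.im
  have h6 := neg_abs_le (w.re - z.re)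
  have h7 := neg_abs_le z.re
  constructor <;> linarith

theorem diff (hP : St_PAR) (hD : Disc k B) (hB : ContB) {F : ℝ → ℂ → ℂ}
    (h1 : ∀ t, DifferentiableOn ℂ (F t) Str) (h2 : ∀ r ∈ Str, Continuous fun t => F t r)
    (h3 : ∀ e ∈ Ioc (0 : ℝ) 1, ∀ R : ℝ, ∃ M : ℝ, ∀ r : ℂ, e ≤ π / 2 - |r.im| → -R ≤ r.re →
      ∀ t, ‖F t r‖ ≤ Real.exp ((π / 2 - e) * |t|) * M) :
    DifferentiableOn ℂ (fun r => ∑' i, B i * F (k i) r + ∫ t : ℝ, Bc t * F t r) Str ∧
    ∀ r ∈ Str, Summable (fun i => deriv (fun w => B i * F (k i) w) r) ∧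
      Integrable (fun t : ℝ => deriv (fun w => Bc t * F t w) r) ∧
      deriv (fun r => ∑' i, B i * F (k i) r + ∫ t : ℝ, Bc t * F t r) r =
        ∑' i, deriv (fun w => B i * F (k i) w) r + ∫ t : ℝ, deriv (fun w => Bc t * F t w) r := by
  have hB' := hB
  obtain ⟨C1, n, hD1, _⟩ := hD
  obtain ⟨hm, C2, hB1⟩ := hB'
  obtain ⟨a1, a2⟩ := hP.1 ℝ volume (fun r t => Bc t * F t r) Str str_open
    (fun z hz => (hm.mul (h2 z hz).measurable).aestronglyMeasurable)
    (ae_of_all _ fun t => (h1 t).const_mul _)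
    (fun z hz => by
      obtain ⟨e, he, hw⟩ := near hz
      obtain ⟨M, hM⟩ := h3 e he (|z.re| + 1)
      refine ⟨e, he.1, _, (hB1 e he).1.mul_const M, ae_of_all _ fun t w _ hwz => ?_⟩
      rw [norm_mul, mul_assoc]
      gcongr
      exact hM w (hw w hwz).1 (hw w hwz).2 t)
  have b : ∀ z ∈ Str, DifferentiableAt ℂ (fun r => ∑' i, B i * F (k i) r) z ∧
      HasSum (fun i => deriv (fun w => B i * F (k i) w) z)
        (deriv (fun r => ∑' i, B i * F (k i) r) z) := fun z hz => by
    obtain ⟨e, he, hw⟩ := near hz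
    obtain ⟨M, hM⟩ := h3 e he (|z.re| + 1)
    have hsub : Metric.ball z e ⊆ Str := fun w hw' => by
      have := (hw w (by simpa [dist_eq_norm] using hw')).1
      show |w.im| < π / 2
      linarith [he.1]
    have hle : ∀ (i : ι) (w : ℂ), w ∈ Metric.ball z e → ‖B i * F (k i) w‖ ≤
        ‖B i‖ * Real.exp ((π / 2 - e) * |k i|) * M := fun i w hw' => by
      have := hw w (by simpa [dist_eq_norm] using hw')
      rw [norm_mul, mul_assoc]
      gcongr
      exact hM w this.1 this.2 _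
    have hs := (hD1 e he).1.mul_right M
    have hd : ∀ i, DifferentiableOn ℂ (fun w => B i * F (k i) w) (Metric.ball z e) := fun i =>
      ((h1 (k i)).mono hsub).const_mul _
    exact ⟨(differentiableOn_tsum_of_summable_norm hs hd Metric.isOpen_ball hle).differentiableAt
        (Metric.ball_mem_nhds z he.1),
      hasSum_deriv_of_summable_norm hs hd Metric.isOpen_ball hle (Metric.mem_ball_self he.1)⟩
  refine ⟨fun z hz => (b z hz).1.differentiableWithinAt.add (a1 z hz), fun z hz =>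
    ⟨(b z hz).2.summable, (a2 z hz).1, ?_⟩⟩
  rw [(b z hz).2.tsum_eq, ← (a2 z hz).2]
  exact deriv_fun_add (b z hz).1 (a1.differentiableAt (str_open.mem_nhds hz))

theorem exp_le {e : ℝ} {r : ℂ} (hr : e ≤ π / 2 - |r.im|) (t : ℝ) :
    Real.exp (t * r.im) ≤ Real.exp ((π / 2 - e) * |t|) := by
  apply Real.exp_le_exp.2
  calc t * r.im ≤ |t * r.im| := le_abs_self _
    _ = |r.im| * |t| := by rw [abs_mul, mul_comm]
    _ ≤ (π / 2 - e) * |t| := by gcongr; linarith

theorem norm_ex {e : ℝ} {r : ℂ} (hr : e ≤ π / 2 - |r.im|) (t : ℝ) :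
    ‖exp (-I * t * r)‖ ≤ Real.exp ((π / 2 - e) * |t|) := by
  rw [norm_exp]
  have : (-I * t * r).re = t * r.im := by simp
  rw [this]
  exact exp_le hr t

theorem sk_re (t : ℝ) : (sk t).re = 1 / 2 := by simp [sk]

theorem sk_cont : Continuous sk := by unfold sk; fun_prop

theorem bet_facts (hT : St_BET) : Continuous (fun t : ℝ => bet (sk t)) ∧
    ∃ C : ℝ, 0 ≤ C ∧ ∀ t : ℝ, ‖2 * bet (sk t)‖ ≤ C := by
  obtain ⟨_, h1, ⟨C, hC⟩, _⟩ := hT
  refine ⟨h1.continuousOn.comp_continuous sk_cont fun t => ?_, 2 * |C|, by positivity,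
    fun t => ?_⟩
  · show 0 < (sk t).re
    rw [sk_re]; norm_num
  · have a1 := hC (sk t) (by rw [sk_re]; norm_num) (by rw [sk_re]; norm_num)
    have a2 : (1 + |(sk t).im|) ^ (-(1 / 2) : ℝ) ≤ 1 :=
      Real.rpow_le_one_of_one_le_of_nonpos (by linarith [abs_nonneg (sk t).im]) (by norm_num)
    have a3 : C * (1 + |(sk t).im|) ^ (-(1 / 2) : ℝ) ≤ |C| * 1 := by
      gcongr
      exact le_abs_self C
    have a4 : ‖(2 : ℂ)‖ = 2 := by simp
    rw [norm_mul, a4]; linarith

theorem sk_le {e : ℝ} (he : e ∈ Ioc (0 : ℝ) 1) (t : ℝ) :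
    ‖sk t‖ ≤ 3 / e * Real.exp (e / 2 * |t|) := by
  have he0 := he.1
  have h1 : ‖sk t‖ ≤ 1 / 2 + |t| := by
    unfold sk
    refine (norm_add_le _ _).trans ?_
    simp
  have h2 := Real.add_one_le_exp (e / 2 * |t|)
  have h3 := abs_nonneg t
  rw [div_mul_eq_mul_div, le_div_iff₀ he0]
  nlinarith [he.2, mul_nonneg he0.le h3]

end ABS0

open ABS0 in
theorem t_abs0 : T_ABS0 := by
  intro hP hT hJ ι k B hD hB
  obtain ⟨bc, Cb, Cb0, hCb⟩ := bet_facts hT
  obtain ⟨CJ, CJ0, hCJ⟩ := MB.jf_bound hJ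
  obtain ⟨C, n, C0, hC⟩ := bound hD hB
  obtain ⟨C5, hC5⟩ := hJ.2.2.2.2
  have hDS : ∀ (t : ℝ) (r : ℂ), r ∈ Str → (sk t, r) ∈ DS := fun t r hr =>
    ⟨by show 0 < (sk t).re; rw [sk_re]; norm_num, hr⟩
  have jc : ∀ r ∈ Str, Continuous fun t : ℝ => Jf (sk t) r := fun r hr =>
    hJ.2.1.comp_continuous (f := fun t : ℝ => (sk t, r)) (sk_cont.prodMk continuous_const)
      fun t => hDS t r hr
  have gc : ∀ r : ℂ, Continuous fun t : ℝ => 2 * bet (sk t) * exp (-I * t * r) := fun r =>
    (continuous_const.mul bc).mul (by fun_prop)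
  have gb : ∀ {e : ℝ} {r : ℂ}, e ≤ π / 2 - |r.im| → ∀ t : ℝ,
      ‖2 * bet (sk t) * exp (-I * t * r)‖ ≤ Real.exp ((π / 2 - e) * |t|) * Cb := fun hr t => by
    rw [norm_mul, mul_comm]
    gcongr
    · exact norm_ex hr t
    · exact hCb t
  have dM := diff hP hD hB (F := fun t r => Jf (sk t) r)
    (fun t => hJ.2.2.1 Str (fun _ => sk t) (fun r => r) str_open (differentiableOn_const _)
      differentiableOn_id (hDS t)) jc
    (fun e he R => ⟨CJ / e * Real.exp (R / 2), fun r hr hR t => (hCJ e he r hr t).trans (by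
      have := he.1
      gcongr
      linarith)⟩)
  have dG := diff hP hD hB (F := fun t r => 2 * bet (sk t) * exp (-I * t * r))
    (fun t => by fun_prop) (fun r _ => gc r) (fun e he R => ⟨Cb, fun r hr _ t => gb hr t⟩)
  have dH := diff hP hD hB (F := fun t r => exp (-I * t * r))
    (fun t => by fun_prop) (fun r _ => by fun_prop)
    (fun e he R => ⟨1, fun r hr _ t => by rw [mul_one]; exact norm_ex hr t⟩)
  have der : ∀ (b : ℂ) (t : ℝ) (r : ℂ), deriv (fun w => b * (2 * bet (sk t) * exp (-I * t * w))) r =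
      b * (2 * bet (sk t) * exp (-I * t * r)) * (-I * t) := fun b t r => by
    have := ((((hasDerivAt_id r).const_mul (-I * t)).cexp.const_mul (2 * bet (sk t))).const_mul
      b).deriv
    simp only [id, mul_one] at this
    rw [this]; ring
  have form : ∀ r ∈ Str, Gs k B r / 2 - deriv (Gs k B) r =
      ∑' i, B i * (sk (k i) * (2 * bet (sk (k i))) * exp (-I * k i * r)) +
        ∫ t : ℝ, Bc t * (sk t * (2 * bet (sk t)) * exp (-I * t * r)) := fun r hr => by
    obtain ⟨e, he, hw⟩ := near hr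
    have hre := (hw r (by simpa using he.1)).1
    obtain ⟨s1, s2, s3⟩ := dG.2 r hr
    have s4 := summ hD he (gb hre)
    have s5 := integ hB he (gc r) (gb hre)
    have s6 : deriv (Gs k B) r = _ := s3
    have s7 : ∑' i, B i * (sk (k i) * (2 * bet (sk (k i))) * exp (-I * k i * r)) =
        (∑' i, B i * (2 * bet (sk (k i)) * exp (-I * k i * r))) / 2 -
        ∑' i, deriv (fun w => B i * (2 * bet (sk (k i)) * exp (-I * k i * w))) r := by
      rw [← tsum_div_const, ← (s4.div_const 2).tsum_sub s1]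
      refine tsum_congr fun i => ?_
      rw [der]; unfold sk; ring
    have s8 : (∫ t : ℝ, Bc t * (sk t * (2 * bet (sk t)) * exp (-I * t * r))) =
        (∫ t : ℝ, Bc t * (2 * bet (sk t) * exp (-I * t * r))) / 2 -
        ∫ t : ℝ, deriv (fun w => Bc t * (2 * bet (sk t) * exp (-I * t * w))) r := by
      rw [← integral_div, ← integral_sub (s5.div_const 2) s2]
      refine integral_congr_ae (ae_of_all _ fun t => ?_)
      simp only
      rw [der]; unfold sk; ring
    rw [s6, s7, s8]; unfold Gs; ring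
  refine ⟨dM.1, dG.1, dH.1, form, ?_, ?_⟩
  · obtain ⟨C', n', h'⟩ := t_mb hJ ι k B hD hB
    refine ⟨C', fun r hr => ?_⟩
    have := h' 1 ⟨one_pos, le_rfl⟩ r (by simp; linarith [Real.pi_gt_three])
    simpa using this
  · refine ⟨C * (2 ^ n * (3 * Cb) + 1 + |C5|), n + 1, fun e he r hr => ?_⟩
    have he0 := he.1
    have hr' : r ∈ Str := by show |r.im| < π / 2; linarith
    have p1 : 0 ≤ 2 ^ n * (3 * Cb) := by positivity
    have p2 := abs_nonneg C5
    have p3 : C / e ^ n ≤ C / e ^ (n + 1) :=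
      div_le_div_of_nonneg_left C0 (by positivity)
        (pow_le_pow_of_le_one he0.le he.2 (Nat.le_succ n))
    refine ⟨?_, ?_, fun h1 => ?_⟩
    · rw [form r hr']
      have := hC (e / 2) ⟨by positivity, by linarith [he.2]⟩
        (fun t => sk t * (2 * bet (sk t)) * exp (-I * t * r)) (3 / e * Cb) (by positivity)
        fun t => by
          rw [mul_assoc, norm_mul]
          calc _ ≤ 3 / e * Real.exp (e / 2 * |t|) * (Real.exp ((π / 2 - e) * |t|) * Cb) := by
                gcongr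
                · exact sk_le he t
                · exact gb hr t
            _ = Real.exp (e / 2 * |t|) * Real.exp ((π / 2 - e) * |t|) * (3 / e * Cb) := by ring
            _ = _ := by rw [← Real.exp_add]; congr 2; ring
      refine this.trans ?_
      calc C / (e / 2) ^ n * (3 / e * Cb) = C * (2 ^ n * (3 * Cb)) / e ^ (n + 1) := by
            rw [div_pow]; field_simp; ring
        _ ≤ _ := by gcongr; linarith
    · have := hC e he (fun t => exp (-I * t * r)) 1 zero_le_one
        fun t => by rw [mul_one]; exact norm_ex hr t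
      refine this.trans ?_
      calc C / e ^ n * 1 ≤ C * 1 / e ^ (n + 1) := by simpa using p3
        _ ≤ _ := by gcongr; linarith
    · have := hC e he (fun t => exp (r / 2) * Jf (sk t) r - 2 * bet (sk t) * exp (-I * t * r))
        (|C5| * Real.exp (-2 * r.re)) (by positivity) fun t => by
          calc _ ≤ _ := hC5 t r hr' h1
            _ = C5 * (Real.exp (t * r.im) * Real.exp (-2 * r.re)) := by
                rw [← Real.exp_add]; congr 2; ring
            _ ≤ |C5| * (Real.exp ((π / 2 - e) * |t|) * Real.exp (-2 * r.re)) := by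
                exact mul_le_mul (le_abs_self _)
                  (mul_le_mul_of_nonneg_right (exp_le hr t) (Real.exp_pos _).le)
                  (by positivity) p2
            _ = _ := by ring
      have s1 := summ hD he (hCJ e he r hr)
      have s2 := integ hB he (jc r hr') (hCJ e he r hr)
      have s4 := summ hD he (gb hr)
      have s5 := integ hB he (gc r) (gb hr)
      have s6 : exp (r / 2) * Msum k B r - Gs k B r =
          ∑' i, B i * (exp (r / 2) * Jf (sk (k i)) r - 2 * bet (sk (k i)) * exp (-I * k i * r)) +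
          ∫ t : ℝ, Bc t * (exp (r / 2) * Jf (sk t) r - 2 * bet (sk t) * exp (-I * t * r)) := by
        have s7 : ∑' i, B i * (exp (r / 2) * Jf (sk (k i)) r -
            2 * bet (sk (k i)) * exp (-I * k i * r)) = exp (r / 2) * ∑' i, B i * Jf (sk (k i)) r -
            ∑' i, B i * (2 * bet (sk (k i)) * exp (-I * k i * r)) := by
          rw [← tsum_mul_left, ← (s1.mul_left _).tsum_sub s4]
          exact tsum_congr fun i => by ring
        have s8 : (∫ t : ℝ, Bc t * (exp (r / 2) * Jf (sk t) r -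
            2 * bet (sk t) * exp (-I * t * r))) = exp (r / 2) * (∫ t : ℝ, Bc t * Jf (sk t) r) -
            ∫ t : ℝ, Bc t * (2 * bet (sk t) * exp (-I * t * r)) := by
          rw [← integral_const_mul, ← integral_sub (s2.const_mul _) s5]
          exact integral_congr_ae (ae_of_all _ fun t => by ring)
        rw [s7, s8]; unfold Msum Gs; ring
      rw [s6]
      refine this.trans ?_
      calc C / e ^ n * (|C5| * Real.exp (-2 * r.re))
          ≤ C / e ^ (n + 1) * (|C5| * Real.exp (-2 * r.re)) := by gcongr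
        _ = C * |C5| / e ^ (n + 1) * Real.exp (-2 * r.re) := by ring
        _ ≤ _ := by gcongr; linarith

end Pool.Agent.Lib.E2
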