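import Pool.Agent.Lib.E2.Blue

/-! Block ABS1: integral representations of the spectral sums. -/

namespace Pool.Agent.Lib.E2

noncomputable section

open Complex MeasureTheory Set Filter Topology
open scoped Real

namespace ABS1

theorem integrableOn_wt {w : ℝ → ℂ} (hc : ContinuousOn w (Ioi 0)) {C : ℝ}
    (h1 : ∀ t : ℝ, 0 < t → ‖w t‖ ≤ C * t ^ (-(1 / 2) : ℝ))
    (h2 : ∀ t : ℝ, 0 < t → ‖w t‖ ≤ C * t ^ (-(3 / 2) : ℝ)) : IntegrableOn w (Ioi 0) := by
  rw [← Ioc_union_Ioi_eq_Ioi (zero_le_one' ℝ)]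
  refine IntegrableOn.union ?_ ?_
  · have hi : IntegrableOn (fun t : ℝ => t ^ (-(1 / 2) : ℝ)) (Ioc 0 1) :=
      (intervalIntegral.intervalIntegrable_rpow' (a := 0) (b := 1) (by norm_num)).1
    refine Integrable.mono' (hi.const_mul C)
      ((hc.mono Ioc_subset_Ioi_self).aestronglyMeasurable measurableSet_Ioc) ?_
    exact (ae_restrict_iff' measurableSet_Ioc).2 (ae_of_all _ fun t ht => h1 t ht.1)
  · have hi : IntegrableOn (fun t : ℝ => t ^ (-(3 / 2) : ℝ)) (Ioi 1) :=
      integrableOn_Ioi_rpow_of_lt (by norm_num) one_pos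
    refine Integrable.mono' (hi.const_mul C)
      ((hc.mono (Ioi_subset_Ioi zero_le_one)).aestronglyMeasurable measurableSet_Ioi) ?_
    exact (ae_restrict_iff' measurableSet_Ioi).2
      (ae_of_all _ fun t ht => h2 t (lt_trans one_pos ht))

theorem swap {ι : Type} {k : ι → ℝ} {B : ι → ℂ} (hD : Disc k B) (hC : ContB) {e : ℝ}
    (he : e ∈ Ioc (0 : ℝ) 1) {K : ℝ → ℝ → ℂ} (hK : Measurable (Function.uncurry K)) {A : ℝ}
    (hb : ∀ s t : ℝ, 0 < t → ‖K s t‖ ≤ A * Real.exp ((π / 2 - e) * |s|)) {w : ℝ → ℂ}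
    (hw : IntegrableOn w (Ioi 0)) :
    ∫ t in Ioi (0 : ℝ), (∑' i, B i * K (k i) t + ∫ s : ℝ, Bc s * K s t) * w t =
      ∑' i, B i * (∫ t in Ioi (0 : ℝ), K (k i) t * w t) +
        ∫ s : ℝ, Bc s * ∫ t in Ioi (0 : ℝ), K s t * w t := by
  have := hD.countable
  obtain ⟨C, n, hD1, -⟩ := hD
  obtain ⟨hsum, -⟩ := hD1 e he
  obtain ⟨hBm, C', hC1⟩ := hC
  obtain ⟨hint, -⟩ := hC1 e he
  have hKs : ∀ s, Measurable (K s) := fun s => hK.comp measurable_prodMk_left
  have hwn : Integrable (fun t => ‖w t‖) (volume.restrict (Ioi (0 : ℝ))) := hw.norm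
  have hbd : ∀ i (t : ℝ), 0 < t →
      ‖B i * K (k i) t‖ ≤ A * (‖B i‖ * Real.exp ((π / 2 - e) * |k i|)) := fun i t ht => by
    rw [norm_mul, mul_left_comm]
    exact mul_le_mul_of_nonneg_left (hb _ t ht) (norm_nonneg _)
  have hF : ∀ i, Integrable (fun t => B i * K (k i) t * w t) (volume.restrict (Ioi (0 : ℝ))) :=
    fun i => Integrable.bdd_mul hw ((hKs _).const_mul _).aestronglyMeasurable
      ((ae_restrict_iff' measurableSet_Ioi).2 (ae_of_all _ fun t ht => hbd i t ht))
  have hFs : Summable fun i => ∫ t in Ioi (0 : ℝ), ‖B i * K (k i) t * w t‖ := by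
    refine Summable.of_nonneg_of_le (fun i => integral_nonneg fun _ => norm_nonneg _)
      (fun i => ?_) ((hsum.mul_left A).mul_right (∫ t in Ioi (0 : ℝ), ‖w t‖))
    rw [← integral_const_mul]
    refine setIntegral_mono_on (hF i).norm (hwn.const_mul _) measurableSet_Ioi fun t ht => ?_
    rw [norm_mul]
    exact mul_le_mul_of_nonneg_right (hbd i t ht) (norm_nonneg _)
  have h1 := (hasSum_integral_of_summable_integral_norm hF hFs).tsum_eq
  have hI1 : Integrable (fun t => (∑' i, B i * K (k i) t) * w t)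
      (volume.restrict (Ioi (0 : ℝ))) := by
    refine Integrable.bdd_mul (c := ∑' i, A * (‖B i‖ * Real.exp ((π / 2 - e) * |k i|))) hw
      (Measurable.tsum fun i => (hKs _).const_mul _).aestronglyMeasurable
      ((ae_restrict_iff' measurableSet_Ioi).2 (ae_of_all _ fun t ht => ?_))
    exact tsum_of_norm_bounded (hsum.mul_left A).hasSum fun i => hbd i t ht
  have hP : Integrable (Function.uncurry fun s t : ℝ => Bc s * K s t * w t)
      (volume.prod (volume.restrict (Ioi (0 : ℝ)))) := by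
    refine Integrable.mono' ((hint.const_mul A).mul_prod hwn) ?_ ?_
    · exact (((hBm.comp measurable_fst).mul hK).aestronglyMeasurable).mul
        hw.aestronglyMeasurable.comp_snd
    · have h3 : ∀ᵐ p : ℝ × ℝ ∂(volume.prod (volume.restrict (Ioi (0 : ℝ)))), p.2 ∈ Ioi (0 : ℝ) :=
        Measure.quasiMeasurePreserving_snd.ae (ae_restrict_mem measurableSet_Ioi)
      filter_upwards [h3] with p hp
      change ‖Bc p.1 * K p.1 p.2 * w p.2‖ ≤ _
      rw [norm_mul, norm_mul, mul_left_comm A]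
      exact mul_le_mul_of_nonneg_right
        (mul_le_mul_of_nonneg_left (hb _ _ hp) (norm_nonneg _)) (norm_nonneg _)
  have h2 := integral_integral_swap hP
  have hI2 : Integrable (fun t => (∫ s : ℝ, Bc s * K s t) * w t)
      (volume.restrict (Ioi (0 : ℝ))) := by
    refine hP.integral_prod_right.congr (ae_of_all _ fun t => ?_)
    exact integral_mul_const (w t) fun s : ℝ => Bc s * K s t
  simp only [add_mul]
  rw [integral_add hI1 hI2]
  refine congrArg₂ (· + ·) ?_ ?_
  · simp only [← tsum_mul_right]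
    rw [← h1]
    exact tsum_congr fun i => by simp only [mul_assoc, integral_const_mul]
  · simp only [← integral_mul_const]
    rw [← h2]
    exact integral_congr_ae (ae_of_all _ fun s => by simp only [mul_assoc, integral_const_mul])

theorem meas_xs : Measurable xs := by
  unfold xs
  exact Complex.measurable_log.comp (by fun_prop)

theorem meas_ex (r : ℂ) :
    Measurable (Function.uncurry fun s t : ℝ => exp (-I * s * (r + xs t))) := by
  have h := meas_xs.comp (measurable_snd : Measurable fun p : ℝ × ℝ => p.2)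
  refine Complex.measurable_exp.comp ?_
  exact (measurable_const.mul (Complex.measurable_ofReal.comp measurable_fst)).mul
    (measurable_const.add h)

theorem meas_mul {a : ℝ → ℂ} {K : ℝ → ℝ → ℂ} (ha : Measurable a)
    (hK : Measurable (Function.uncurry K)) :
    Measurable (Function.uncurry fun s t : ℝ => a s * K s t) :=
  (ha.comp measurable_fst).mul hK

theorem norm_ex (s : ℝ) (z : ℂ) {b : ℝ} (h : |z.im| ≤ b) :
    ‖exp (-I * s * z)‖ ≤ Real.exp (b * |s|) := by
  rw [Complex.norm_exp]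
  refine Real.exp_le_exp.2 ?_
  have h1 : (-I * s * z).re = z.im * s := by simp; ring
  rw [h1]
  calc z.im * s ≤ |z.im * s| := le_abs_self _
    _ = |z.im| * |s| := abs_mul _ _
    _ ≤ b * |s| := mul_le_mul_of_nonneg_right h (abs_nonneg _)

theorem sk_re (s : ℝ) : (sk s).re = 1 / 2 := by simp [sk]

theorem sk_im (s : ℝ) : (sk s).im = s := by simp [sk]

theorem cont_sk : Continuous sk := by
  unfold sk
  fun_prop

theorem norm_sk (s : ℝ) : ‖sk s‖ ≤ 1 + |s| := by
  have := Complex.norm_le_abs_re_add_abs_im (sk s)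
  rw [sk_re, sk_im, abs_of_pos (by norm_num : (0 : ℝ) < 1 / 2)] at this
  linarith

theorem one_add_le {e : ℝ} (he : 0 < e) (x : ℝ) (hx : 0 ≤ x) :
    1 + x ≤ (1 + 1 / e) * Real.exp (e * x) := by
  have h1 := Real.add_one_le_exp (e * x)
  have h2 : (1 + 1 / e) * (e * x + 1) = 1 + x + (e * x + 1 / e) := by
    field_simp
    ring
  have h3 : 0 ≤ e * x + 1 / e := by positivity
  have h4 : (1 + 1 / e) * (e * x + 1) ≤ (1 + 1 / e) * Real.exp (e * x) :=
    mul_le_mul_of_nonneg_left h1 (by positivity)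
  linarith

theorem rpow_le_one' {x a : ℝ} (hx : 1 ≤ x) (ha : a ≤ 0) : x ^ a ≤ 1 :=
  Real.rpow_le_one_of_one_le_of_nonpos hx ha

end ABS1

open ABS1 in
theorem t_abs1 : T_ABS1 := by
  intro hBET hJ hA ι k B hD hC
  obtain ⟨-, hdiff, ⟨C, hbet⟩, -⟩ := hBET
  obtain ⟨hJ1, hJ2, hxs, -, hcH, hcJ, hwH, hwJ⟩ := hJ
  obtain ⟨-, -, -, hG, -⟩ := hA ι k B hD hC
  have hpi := Real.pi_gt_three
  have hpi' := Real.pi_lt_four
  have him : ∀ t : ℝ, 0 < t → -(1 / 4) ≤ (xs t).im ∧ (xs t).im ≤ 0 := fun t ht => by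
    obtain ⟨h1, h2, -⟩ := hxs t ht
    have : 0 < min t 1 := lt_min ht one_pos
    exact ⟨h1, by linarith⟩
  constructor
  · intro r hr1 hr2
    have hcb : Continuous fun s : ℝ => bet (sk s) :=
      hdiff.continuousOn.comp_continuous cont_sk fun s => by
        change 0 < (sk s).re
        rw [sk_re]; norm_num
    set e : ℝ := (π / 2 - r.im) / 2 with he
    have he0 : 0 < e := by rw [he]; linarith
    have he1 : e ≤ 1 := by rw [he]; linarith
    have habs : ∀ t : ℝ, 0 < t → |(r + xs t).im| ≤ r.im := fun t ht => by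
      obtain ⟨h1, h2⟩ := him t ht
      rw [add_im, abs_le]
      constructor <;> linarith
    have hw : IntegrableOn wH (Ioi 0) := by
      refine integrableOn_wt hcH (C := 3) (fun t ht => (hwH t ht).trans ?_)
        (fun t ht => (hwH t ht).trans ?_)
      · refine mul_le_mul_of_nonneg_right ?_ (Real.rpow_nonneg ht.le _)
        have := rpow_le_one' (x := 1 + t) (a := -(3 / 2)) (by linarith) (by norm_num)
        linarith
      · have h1 : (1 + t) ^ (-(3 / 2) : ℝ) ≤ t ^ (-1 : ℝ) :=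
          (Real.rpow_le_rpow_of_exponent_le (by linarith) (by norm_num)).trans
            (Real.rpow_le_rpow_of_nonpos ht (by linarith) (by norm_num))
        have h2 : t ^ (-(3 / 2) : ℝ) = t ^ (-1 : ℝ) * t ^ (-(1 / 2) : ℝ) := by
          rw [← Real.rpow_add ht]; norm_num
        rw [h2, mul_assoc]
        exact mul_le_mul_of_nonneg_left
          (mul_le_mul_of_nonneg_right h1 (Real.rpow_nonneg ht.le _)) (by norm_num)
    have hm1 : Measurable fun s : ℝ => sk s * (2 * bet (sk s)) :=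
      (cont_sk.mul (continuous_const.mul hcb)).measurable
    have hsw := swap hD hC ⟨he0, he1⟩
      (K := fun s t => sk s * (2 * bet (sk s)) * exp (-I * s * (r + xs t)))
      (meas_mul hm1 (meas_ex r))
      (A := 2 * |C| * (1 + 1 / e)) (fun s t ht => by
        have h1 := hbet (sk s) (by rw [sk_re]; norm_num) (by rw [sk_re]; norm_num)
        have h2 := rpow_le_one' (x := 1 + |(sk s).im|) (a := -(1 / 2))
          (by linarith [abs_nonneg (sk s).im]) (by norm_num)
        have h3 : ‖bet (sk s)‖ ≤ |C| := h1.trans ((mul_le_mul_of_nonneg_right (le_abs_self C)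
          (Real.rpow_nonneg (by positivity) _)).trans (mul_le_of_le_one_right (abs_nonneg _) h2))
        have h4 := (norm_sk s).trans (one_add_le he0 _ (abs_nonneg s))
        have h5 := norm_ex s _ (habs t ht)
        have h6 : Real.exp ((π / 2 - e) * |s|) =
            Real.exp (e * |s|) * Real.exp (r.im * |s|) := by
          rw [← Real.exp_add, he]
          exact congrArg _ (by ring)
        rw [norm_mul, norm_mul, norm_mul, h6, Complex.norm_two]
        calc ‖sk s‖ * (2 * ‖bet (sk s)‖) * ‖exp (-I * s * (r + xs t))‖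
            ≤ (1 + 1 / e) * Real.exp (e * |s|) * (2 * |C|) * Real.exp (r.im * |s|) := by
              gcongr
          _ = _ := by ring) hw
    have hset : ∫ t in Ioi (0 : ℝ), (Gs k B (r + xs t) / 2 - deriv (Gs k B) (r + xs t)) * wH t =
        ∫ t in Ioi (0 : ℝ),
          (∑' i, B i * (sk (k i) * (2 * bet (sk (k i))) * exp (-I * k i * (r + xs t))) +
          ∫ s : ℝ, Bc s * (sk s * (2 * bet (sk s)) * exp (-I * s * (r + xs t)))) * wH t :=
      setIntegral_congr_fun measurableSet_Ioi fun t ht => by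
        beta_reduce
        rw [hG (r + xs t) ((habs t ht).trans_lt hr2)]
    rw [hset, hsw, mul_add, ← tsum_mul_left, ← integral_const_mul, Hs]
    refine congrArg₂ (· + ·) (tsum_congr fun i => ?_) (integral_congr_ae (ae_of_all _ fun s => ?_))
    · rw [hJ2 (k i) r, mul_left_comm]
    · beta_reduce
      rw [hJ2 s r, mul_left_comm]
  · intro e he
    have habs : ∀ t : ℝ, 0 < t → |(rh e + xs t).im| ≤ π / 2 - e := fun t ht => by
      obtain ⟨h1, h2⟩ := him t ht
      have h3 : (rh e).im = π / 2 - e := by simp [rh]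
      rw [add_im, h3, abs_le]
      constructor <;> linarith [he.2]
    have hw : IntegrableOn (wJ (rh e)) (Ioi 0) := by
      have hE : 1 ≤ e ^ (-(1 / 2) : ℝ) :=
        Real.one_le_rpow_of_pos_of_le_one_of_nonpos he.1 (by linarith [he.2]) (by norm_num)
      refine integrableOn_wt (hcJ e he) (C := 3 * e ^ (-(1 / 2) : ℝ))
        (fun t ht => (hwJ e he t ht).trans ?_) (fun t ht => (hwJ e he t ht).trans ?_)
      · refine mul_le_mul_of_nonneg_right ?_ (Real.rpow_nonneg ht.le _)
        have h1 := rpow_le_one' (x := 1 + t) (a := -(1 / 2)) (by linarith) (by norm_num)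
        have h2 : (e + t) ^ (-(1 / 2) : ℝ) ≤ e ^ (-(1 / 2) : ℝ) :=
          Real.rpow_le_rpow_of_nonpos he.1 (by linarith) (by norm_num)
        have h3 : 0 ≤ (e + t) ^ (-(1 / 2) : ℝ) := Real.rpow_nonneg (by linarith [he.1]) _
        exact mul_le_mul (by linarith) h2 h3 (by norm_num)
      · have h1 : (1 + t) ^ (-(1 / 2) : ℝ) ≤ t ^ (-(1 / 2) : ℝ) :=
          Real.rpow_le_rpow_of_nonpos ht (by linarith) (by norm_num)
        have h2 : (e + t) ^ (-(1 / 2) : ℝ) ≤ t ^ (-(1 / 2) : ℝ) :=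
          Real.rpow_le_rpow_of_nonpos ht (by linarith [he.1]) (by norm_num)
        have h3 : 0 ≤ (e + t) ^ (-(1 / 2) : ℝ) := Real.rpow_nonneg (by linarith [he.1]) _
        have h4 : 0 ≤ t ^ (-(1 / 2) : ℝ) := Real.rpow_nonneg ht.le _
        have h5 : t ^ (-(3 / 2) : ℝ) =
            t ^ (-(1 / 2) : ℝ) * t ^ (-(1 / 2) : ℝ) * t ^ (-(1 / 2) : ℝ) := by
          rw [← Real.rpow_add ht, ← Real.rpow_add ht]; norm_num
        rw [h5]
        calc 3 * (1 + t) ^ (-(1 / 2) : ℝ) * (e + t) ^ (-(1 / 2) : ℝ) * t ^ (-(1 / 2) : ℝ)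
            ≤ 3 * t ^ (-(1 / 2) : ℝ) * t ^ (-(1 / 2) : ℝ) * t ^ (-(1 / 2) : ℝ) := by gcongr
          _ = 3 * 1 * (t ^ (-(1 / 2) : ℝ) * t ^ (-(1 / 2) : ℝ) * t ^ (-(1 / 2) : ℝ)) := by ring
          _ ≤ _ := by gcongr
    have hsw := swap hD hC ⟨he.1, by linarith [he.2]⟩
      (K := fun s t => exp (-I * s * (rh e + xs t))) (meas_ex (rh e)) (A := 1)
      (fun s t ht => by rw [one_mul]; exact norm_ex s _ (habs t ht)) hw
    simp only [Hs]
    rw [hsw, mul_add, ← tsum_mul_left, ← integral_const_mul, Msum]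
    refine congrArg₂ (· + ·) (tsum_congr fun i => ?_) (integral_congr_ae (ae_of_all _ fun s => ?_))
    · rw [hJ1 (k i) e he, mul_left_comm]
    · beta_reduce
      rw [hJ1 s e he, mul_left_comm]

end

end Pool.Agent.Lib.E2
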