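import Pool.Agent.Lib.E2.Blue

/-!
Block ABS2: almost periodicity of the Fourier transform of the spectral measure.
-/

namespace Pool.Agent.Lib.E2

open Complex MeasureTheory Set Filter Topology
open scoped Real

namespace ABS2

theorem norm_e (t : ℝ) (r : ℂ) : ‖exp (-I * t * r)‖ ≤ Real.exp (|r.im| * |t|) := by
  rw [norm_exp]
  refine Real.exp_le_exp.2 ?_
  have : (-I * t * r).re = r.im * t := by simp [mul_comm]
  rw [this, ← abs_mul]; exact le_abs_self _

theorem cont_part (hB : ContB) : ∃ C : ℝ, 0 ≤ C ∧ ∀ r : ℂ, 0 < π / 2 - |r.im| →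
    π / 2 - |r.im| ≤ 1 → ‖∫ t : ℝ, Bc t * exp (-I * t * r)‖ ≤ C / (π / 2 - |r.im|) := by
  obtain ⟨-, C, hC⟩ := hB
  refine ⟨|C|, abs_nonneg _, fun r h0 h1 => ?_⟩
  obtain ⟨a, b⟩ := hC _ ⟨h0, h1⟩
  rw [sub_sub_cancel] at a b
  refine (norm_integral_le_of_norm_le a (ae_of_all _ fun t => ?_)).trans (b.trans ?_)
  · rw [norm_mul]; gcongr; exact norm_e t r
  · calc C * (π / 2 - |r.im|) ^ (-(3 / 4) : ℝ) ≤ |C| * (π / 2 - |r.im|) ^ (-(3 / 4) : ℝ) := by
          gcongr; exact le_abs_self C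
      _ ≤ |C| * (π / 2 - |r.im|) ^ (-1 : ℝ) :=
          mul_le_mul_of_nonneg_left (Real.rpow_le_rpow_of_exponent_ge h0 h1 (by norm_num))
            (abs_nonneg _)
      _ = _ := by rw [Real.rpow_neg_one, div_eq_mul_inv |C|]

theorem disc_part {ι : Type} {k : ι → ℝ} {B : ι → ℂ} {η K M u : ℝ} (hη : 0 ≤ η)
    (hs : Summable fun i => ‖B i‖ * Real.exp ((π / 2 - η) * |k i|))
    (h1 : ∀ i, |k i| ≤ K → ‖exp (-I * k i * u) - 1‖ ≤ M) (h2 : 2 * Real.exp (-(K * η)) ≤ M)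
    {r : ℂ} (hr : 2 * η ≤ π / 2 - |r.im|) :
    ‖∑' i, B i * exp (-I * k i * r) - ∑' i, B i * exp (-I * k i * (r + u))‖ ≤
      (∑' i, ‖B i‖ * Real.exp ((π / 2 - η) * |k i|)) * M := by
  have e1 : ∀ (z : ℂ), z.im = r.im → ∀ i, ‖exp (-I * k i * z)‖ ≤
      Real.exp ((π / 2 - η) * |k i|) * Real.exp (-(|k i| * η)) := fun z hz i => by
    rw [← Real.exp_add]
    refine (norm_e _ z).trans (Real.exp_le_exp.2 ?_)
    rw [hz]; nlinarith [abs_nonneg (k i)]
  have e2 : ∀ i, Real.exp (-(|k i| * η)) ≤ 1 := fun i =>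
    Real.exp_le_one_iff.2 (neg_nonpos.2 (by positivity))
  have s1 : ∀ (z : ℂ), z.im = r.im → Summable fun i => B i * exp (-I * k i * z) := fun z hz =>
    hs.of_norm_bounded fun i => by
      rw [norm_mul]; gcongr
      exact (e1 z hz i).trans (mul_le_of_le_one_right (by positivity) (e2 i))
  have hM : 0 ≤ M := le_trans (by positivity) h2
  rw [← (s1 r rfl).tsum_sub (s1 (r + u) (by simp)), ← tsum_mul_right]
  refine tsum_of_norm_bounded (hs.mul_right M).hasSum fun i => ?_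
  have e3 : B i * exp (-I * k i * r) - B i * exp (-I * k i * (r + u)) =
      -(B i * (exp (-I * k i * r) * (exp (-I * k i * u) - 1))) := by
    rw [mul_add, exp_add]; ring
  rw [e3, norm_neg, norm_mul, norm_mul, mul_assoc ‖B i‖]
  refine mul_le_mul_of_nonneg_left ?_ (norm_nonneg _)
  have e4 : Real.exp (-(|k i| * η)) * ‖exp (-I * k i * u) - 1‖ ≤ M := by
    rcases le_total |k i| K with h | h
    · exact (mul_le_of_le_one_left (norm_nonneg _) (e2 i)).trans (h1 i h)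
    · have a1 : ‖exp (-I * k i * u) - 1‖ ≤ 2 := by
        have := norm_e (k i) u
        rw [ofReal_im, abs_zero, zero_mul, Real.exp_zero] at this
        refine (norm_sub_le _ _).trans ?_
        rw [norm_one]; linarith
      have a2 : Real.exp (-(|k i| * η)) ≤ Real.exp (-(K * η)) :=
        Real.exp_le_exp.2 (neg_le_neg (by gcongr))
      calc _ ≤ Real.exp (-(K * η)) * 2 := by gcongr
        _ ≤ M := by linarith
  calc _ ≤ Real.exp ((π / 2 - η) * |k i|) * Real.exp (-(|k i| * η)) *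
        ‖exp (-I * k i * u) - 1‖ := mul_le_mul_of_nonneg_right (e1 r rfl i) (norm_nonneg _)
    _ ≤ _ := by rw [mul_assoc]; exact mul_le_mul_of_nonneg_left e4 (Real.exp_pos _).le

theorem tail {η : ℝ} (hη : 0 < η) (n : ℕ) :
    2 * Real.exp (-((n + 1) / η ^ 2 * η)) ≤ 7 * η ^ n := by
  have a1 : 1 / η ≤ Real.exp (1 / η) := by linarith [Real.add_one_le_exp (1 / η)]
  have a2 : (1 / η) ^ n ≤ Real.exp ((n + 1) / η ^ 2 * η) :=
    calc (1 / η) ^ n ≤ Real.exp (1 / η) ^ n := by gcongr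
      _ = Real.exp (n * (1 / η)) := (Real.exp_nat_mul _ _).symm
      _ ≤ _ := Real.exp_le_exp.2 (by
          have : ((n : ℝ) + 1) / η ^ 2 * η = (n + 1) * (1 / η) := by field_simp
          rw [this]; gcongr; linarith)
  have a3 : Real.exp (-((n + 1) / η ^ 2 * η)) ≤ η ^ n := by
    rw [Real.exp_neg]
    refine (inv_anti₀ (by positivity) a2).trans_eq ?_
    rw [one_div, inv_pow, inv_inv]
  have : 0 ≤ η ^ n := by positivity
  linarith

theorem size {e D : ℝ} {n q Q N : ℕ} (he : 0 < e) (hD : 0 ≤ D) (h1 : e < 1 / (D + 6))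
    (hq : q ≤ Q ^ N) (h2 : (Q : ℝ) * N ≤ D / e ^ (3 * n)) :
    (q : ℝ) * (3 / e) ≤ Real.exp (1 / e ^ (3 * n + 2)) / 2 := by
  have h3 : e * (D + 6) ≤ 1 := ((lt_div_iff₀ (by positivity)).1 h1).le
  have he1 : e ≤ 1 := by nlinarith
  have a1 : (q : ℝ) ≤ Real.exp (D / e ^ (3 * n)) :=
    calc (q : ℝ) ≤ (Q : ℝ) ^ N := by exact_mod_cast hq
      _ ≤ Real.exp Q ^ N := by gcongr; linarith [Real.add_one_le_exp (Q : ℝ)]
      _ = Real.exp (N * Q) := (Real.exp_nat_mul _ _).symm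
      _ ≤ _ := Real.exp_le_exp.2 (by rw [mul_comm]; exact h2)
  have a2 : 6 / e ≤ Real.exp (6 / e) := by linarith [Real.add_one_le_exp (6 / e)]
  have a3 : D / e ^ (3 * n) + 6 / e ≤ 1 / e ^ (3 * n + 2) := by
    have b1 : D / e ^ (3 * n) ≤ D / e ^ (3 * n + 1) :=
      div_le_div_of_nonneg_left hD (by positivity) (pow_le_pow_of_le_one he.le he1 (by omega))
    have b2 : 6 / e ≤ 6 / e ^ (3 * n + 1) :=
      div_le_div_of_nonneg_left (by norm_num) (by positivity)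
        (by simpa using pow_le_pow_of_le_one he.le he1 (show 1 ≤ 3 * n + 1 by omega))
    have b3 : (D + 6) / e ^ (3 * n + 1) ≤ 1 / e ^ (3 * n + 2) := by
      rw [div_le_div_iff₀ (by positivity) (by positivity), pow_succ e (3 * n + 1)]
      nlinarith [pow_pos he (3 * n + 1)]
    rw [add_div] at b3
    linarith
  calc (q : ℝ) * (3 / e) = q * (6 / e) / 2 := by ring
    _ ≤ Real.exp (D / e ^ (3 * n)) * Real.exp (6 / e) / 2 := by gcongr
    _ ≤ _ := by rw [← Real.exp_add]; gcongr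

end ABS2

theorem t_abs2 : T_ABS2 := by
  classical
  intro hP ι k B ⟨C1, n, hD, hN⟩ hB
  obtain ⟨C2, hC2, hc⟩ := ABS2.cont_part hB
  set D : ℝ := 2 * |C1| * (n + 1) ^ n * 8 ^ n with hDd
  have hD0 : 0 ≤ D := by positivity
  refine ⟨7 * |C1| + 2 * C2, 3 * n + 2, 1 / (D + 6), by positivity, fun e he => ?_⟩
  have he0 := he.1
  have he1 : e ≤ 1 := he.2.le.trans ((div_le_one (by positivity)).2 (by linarith))
  obtain ⟨η, rfl⟩ : ∃ η, e = 2 * η := ⟨e / 2, by ring⟩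
  have hη : 0 < η := by linarith
  have hη1 : η ≤ 1 := by linarith
  have hK : (1 : ℝ) ≤ (n + 1) / η ^ 2 := by
    rw [le_div_iff₀ (by positivity)]
    nlinarith [(Nat.cast_nonneg n : (0 : ℝ) ≤ n)]
  obtain ⟨hf, hcard⟩ := hN _ hK
  have hp : 1 ≤ 1 / η ^ n := (one_le_div (by positivity)).2 (pow_le_one₀ hη.le hη1)
  have hQ1 : 1 / η ^ n ≤ (⌈1 / η ^ n⌉₊ : ℝ) := Nat.le_ceil _
  have hQ2 : (⌈1 / η ^ n⌉₊ : ℝ) ≤ 2 * (1 / η ^ n) := by
    linarith [Nat.ceil_lt_add_one (zero_le_one.trans hp)]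
  obtain ⟨q, q1, q2, q3⟩ := hP.2.2.2 (hf.toFinset.image k) (3 / (2 * η)) ⌈1 / η ^ n⌉₊
    (Nat.ceil_pos.2 (by positivity))
  refine ⟨q * (3 / (2 * η)), le_mul_of_one_le_left (by positivity) (by exact_mod_cast q1),
    ABS2.size he0 hD0 he.2 q2 ?_, fun r h1 h2 => ?_⟩
  · have a1 : ((hf.toFinset.image k).card : ℝ) ≤ |C1| * ((n + 1) / η ^ 2) ^ n := by
      calc ((hf.toFinset.image k).card : ℝ) ≤ hf.toFinset.card := by
            exact_mod_cast Finset.card_image_le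
        _ = _ := by rw [ncard_eq_toFinset_card _ hf]
        _ ≤ _ := hcard
        _ ≤ _ := by gcongr; exact le_abs_self _
    calc _ ≤ 2 * (1 / η ^ n) * (|C1| * ((n + 1) / η ^ 2) ^ n) := by gcongr
      _ = _ := by
        rw [hDd, mul_pow 2 η, pow_mul 2, pow_mul η, div_pow, ← pow_mul η 2, ← pow_mul η 3]
        norm_num
        field_simp
        ring
  have h0 : 0 < π / 2 - |r.im| := he0.trans_le h1
  obtain ⟨s1, s2⟩ := hD η ⟨hη, hη1⟩
  have d1 := ABS2.disc_part hη.le s1 (K := (n + 1) / η ^ 2) (M := 7 * η ^ n)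
    (u := q * (3 / (2 * η))) (fun i hi => (q3 (k i) (Finset.mem_image_of_mem k
      (hf.mem_toFinset.2 hi))).trans (by
        calc 2 * π / (⌈1 / η ^ n⌉₊ : ℝ) ≤ 7 / (1 / η ^ n) := by
              gcongr; linarith [Real.pi_lt_d2]
          _ = _ := by field_simp)) (ABS2.tail hη n) h1
  have d2 : (∑' i, ‖B i‖ * Real.exp ((π / 2 - η) * |k i|)) * (7 * η ^ n) ≤
      7 * |C1| / (π / 2 - |r.im|) :=
    calc _ ≤ |C1| / η ^ n * (7 * η ^ n) := by
          gcongr; exact s2.trans (by gcongr; exact le_abs_self _)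
      _ = 7 * |C1| := by field_simp
      _ ≤ _ := le_div_self (by positivity) h0 h2
  have c1 := hc r h0 h2
  have him : (r + ((q * (3 / (2 * η)) : ℝ) : ℂ)).im = r.im := by rw [add_im, ofReal_im, add_zero]
  have c2 := hc (r + ((q * (3 / (2 * η)) : ℝ) : ℂ)) (by rwa [him]) (by rwa [him])
  rw [him] at c2
  unfold Hs
  rw [add_sub_add_comm]
  refine (norm_add_le _ _).trans ((add_le_add (d1.trans d2)
    ((norm_sub_le _ _).trans (add_le_add c1 c2))).trans_eq ?_)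
  ring

end Pool.Agent.Lib.E2
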