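import Pool.Agent.Lib.E2.Blue

namespace Pool.Agent.Lib.E2

open Complex MeasureTheory Set Filter Topology
open scoped Real

theorem abs3_int1 {a : ℝ} (ha : 1 / 2 < a) :
    IntegrableOn (fun t : ℝ => (1 + t) ^ (-a) * t ^ (-(1 / 2) : ℝ)) (Ioi 0) := by
  have hc : ContinuousOn (fun t : ℝ => (1 + t) ^ (-a) * t ^ (-(1 / 2) : ℝ)) (Ioi 0) :=
    ((continuousOn_const.add continuousOn_id).rpow_const fun t ht =>
      Or.inl (add_pos one_pos ht).ne').mul
      (continuousOn_id.rpow_const fun t ht => Or.inl (ne_of_gt ht))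
  rw [← Ioc_union_Ioi_eq_Ioi (zero_le_one (α := ℝ))]
  refine IntegrableOn.union ?_ ?_
  · have h1 : IntegrableOn (fun t : ℝ => t ^ (-(1 / 2) : ℝ)) (Ioc 0 1) :=
      (intervalIntegrable_iff_integrableOn_Ioc_of_le zero_le_one).1
        (intervalIntegral.intervalIntegrable_rpow' (by norm_num))
    refine h1.mono' ((hc.mono Ioc_subset_Ioi_self).aestronglyMeasurable measurableSet_Ioc) ?_
    filter_upwards [ae_restrict_mem measurableSet_Ioc] with t ht
    have h0 := ht.1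
    rw [Real.norm_of_nonneg (by positivity)]
    exact mul_le_of_le_one_left (by positivity)
      (Real.rpow_le_one_of_one_le_of_nonpos (by linarith) (by linarith))
  · have h1 := integrableOn_Ioi_rpow_of_lt (a := -a + -(1 / 2)) (by linarith) one_pos
    refine h1.mono' ((hc.mono (Ioi_subset_Ioi zero_le_one)).aestronglyMeasurable
      measurableSet_Ioi) ?_
    filter_upwards [ae_restrict_mem measurableSet_Ioi] with t ht
    have h0 : 0 < t := lt_trans one_pos ht
    rw [Real.norm_of_nonneg (by positivity), Real.rpow_add h0]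
    exact mul_le_mul_of_nonneg_right
      (Real.rpow_le_rpow_of_nonpos h0 (by linarith) (by linarith)) (by positivity)

theorem abs3_int {a : ℝ} (ha : 1 / 2 < a) : ∃ c : ℝ, 0 ≤ c ∧ ∀ d : ℝ, 0 < d →
    IntegrableOn (fun t : ℝ => (d + t) ^ (-a) * t ^ (-(1 / 2) : ℝ)) (Ioi 0) ∧
    ∫ t in Ioi (0 : ℝ), (d + t) ^ (-a) * t ^ (-(1 / 2) : ℝ) = c * d ^ (1 / 2 - a) := by
  set f : ℝ → ℝ := fun t => (1 + t) ^ (-a) * t ^ (-(1 / 2) : ℝ) with hf
  refine ⟨∫ t in Ioi (0 : ℝ), f t, setIntegral_nonneg measurableSet_Ioi fun t ht => by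
    have : 0 < t := ht
    positivity, fun d hd => ?_⟩
  have key : EqOn (fun t : ℝ => d ^ (-a + -(1 / 2)) * f (d⁻¹ * t))
      (fun t : ℝ => (d + t) ^ (-a) * t ^ (-(1 / 2) : ℝ)) (Ioi 0) := fun t ht => by
    have h0 : 0 < t := ht
    have e1 : d + t = d * (1 + d⁻¹ * t) := by field_simp
    have e2 : t = d * (d⁻¹ * t) := by field_simp
    simp only [hf]
    rw [e1, Real.mul_rpow hd.le (by positivity), Real.rpow_add hd]
    conv_rhs => rw [e2, Real.mul_rpow hd.le (by positivity), ← e2]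
    ring
  have hi : IntegrableOn (fun t : ℝ => f (d⁻¹ * t)) (Ioi 0) := by
    rw [integrableOn_Ioi_comp_mul_left_iff f 0 (inv_pos.2 hd), mul_zero]
    exact abs3_int1 ha
  refine ⟨IntegrableOn.congr_fun (hi.const_mul _) key measurableSet_Ioi, ?_⟩
  rw [← setIntegral_congr_fun measurableSet_Ioi key, integral_const_mul,
    integral_comp_mul_left_Ioi f 0 (inv_pos.2 hd), mul_zero, inv_inv, smul_eq_mul,
    show 1 / 2 - a = -a + -(1 / 2) + 1 by ring, Real.rpow_add hd (-a + -(1 / 2)), Real.rpow_one]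
  ring

theorem abs3_pow (m : ℕ) {x : ℝ} (hx : 0 ≤ x) {c : ℝ} (hc : 0 < c) :
    x ^ m ≤ c ^ m * m.factorial * Real.exp (x / c) := by
  have h2 := Real.pow_div_factorial_le_exp (x / c) (by positivity) m
  have hk : (0 : ℝ) < m.factorial := by positivity
  rw [div_le_iff₀ hk] at h2
  calc x ^ m = c ^ m * (x / c) ^ m := by rw [← mul_pow]; congr 1; field_simp
    _ ≤ c ^ m * (Real.exp (x / c) * m.factorial) := by gcongr
    _ = _ := by ring

/-- step A: Cauchy estimate -/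
theorem abs3_A {G : ℂ → ℂ} (hG : DifferentiableOn ℂ G Str) {e R B : ℝ} (he : 0 < e) (hB : 0 ≤ B)
    (h : ∀ r : ℂ, 1 / e ≤ r.re → r.re ≤ R → e / 2 ≤ π / 2 - r.im → π / 2 - r.im ≤ 1 →
      ‖G r‖ ≤ B / √(π / 2 - r.im)) {r : ℂ} (r1 : 1 / e + 1 ≤ r.re) (r2 : r.re ≤ R - 1)
    (r3 : e ≤ π / 2 - r.im) (r4 : π / 2 - r.im ≤ 3 / 4) :
    ‖G r / 2 - deriv G r‖ ≤ 9 * B * (π / 2 - r.im) ^ (-(3 / 2) : ℝ) := by
  set d := π / 2 - r.im with hd
  have hd0 : 0 < d := by linarith
  have hp := Real.pi_gt_three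
  have s0 : 0 < √d := Real.sqrt_pos.2 hd0
  have near : ∀ z : ℂ, ‖z - r‖ ≤ d / 4 → |z.re - r.re| ≤ d / 4 ∧ |z.im - r.im| ≤ d / 4 :=
    fun z hz => ⟨by simpa using (abs_re_le_norm (z - r)).trans hz,
      by simpa using (abs_im_le_norm (z - r)).trans hz⟩
  have h1 : ‖deriv G r‖ ≤ 2 * B / √d / (d / 4) := by
    refine Complex.norm_deriv_le_of_forall_mem_sphere_norm_le (by positivity) ?_ fun z hz => ?_
    · apply DifferentiableOn.diffContOnCl
      rw [closure_ball r (by positivity)]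
      refine hG.mono fun z hz => ?_
      have := abs_le.1 (near z (mem_closedBall_iff_norm.1 hz)).2
      show |z.im| < π / 2
      rw [abs_lt]; constructor <;> linarith [this.1, this.2]
    · obtain ⟨a, b⟩ := near z (mem_sphere_iff_norm.1 hz).le
      rw [abs_le] at a b
      refine (h z (by linarith [a.1]) (by linarith [a.2]) (by linarith [b.2])
        (by linarith [b.1])).trans ?_
      have : √d / 2 ≤ √(π / 2 - z.im) := by
        rw [Real.le_sqrt (by positivity) (by linarith [b.2]), div_pow, Real.sq_sqrt hd0.le]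
        linarith [b.2]
      refine (div_le_div_of_nonneg_left hB (by positivity) this).trans (le_of_eq ?_)
      field_simp
  have h2 := h r (by linarith) (by linarith) (by linarith) (by linarith)
  have e1 : d ^ (-(3 / 2) : ℝ) = 1 / (d * √d) := by
    rw [Real.rpow_neg hd0.le, show (3 / 2 : ℝ) = 1 + 1 / 2 by norm_num, Real.rpow_add hd0,
      Real.rpow_one, Real.sqrt_eq_rpow, one_div (d * _)]
  have h3 : B / √d ≤ B * (1 / (d * √d)) := by
    rw [mul_one_div]
    exact div_le_div_of_nonneg_left hB (by positivity) (mul_le_of_le_one_left s0.le (by linarith))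
  have e2 : 2 * B / √d / (d / 4) = 8 * (B * (1 / (d * √d))) := by field_simp; ring
  have h4 : 0 ≤ B / √d := by positivity
  rw [e1]
  refine (norm_sub_le _ _).trans ?_
  rw [norm_div, Complex.norm_ofNat]
  linarith

theorem abs3_min {d t D : ℝ} (hd : 0 < d) (ht : 0 < t) (h : d + min t 1 / 20 ≤ D) :
    (d + t) / 20 ≤ D * (1 + t) := by
  have h1 : t ≤ min t 1 * (1 + t) := by
    rcases le_total t 1 with h | h
    · rw [min_eq_left h]; nlinarith
    · rw [min_eq_right h]; linarith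
  have := mul_le_mul_of_nonneg_right h (show 0 ≤ 1 + t by linarith)
  nlinarith

theorem abs3_tail {e t C : ℝ} (m : ℕ) (he : 0 < e) (ht : 0 < t) (hC : 0 ≤ C)
    (h : 1 / e < Real.log (1 + t)) :
    C / e ^ m ≤ C * (4 ^ m * m.factorial) * (1 + t) ^ (1 / 4 : ℝ) := by
  have h1 := abs3_pow m (one_div_pos.2 he).le (show (0 : ℝ) < 4 by norm_num)
  have h2 : Real.exp (1 / e / 4) ≤ (1 + t) ^ (1 / 4 : ℝ) := by
    rw [Real.rpow_def_of_pos (by linarith)]
    exact Real.exp_le_exp.2 (by linarith)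
  rw [div_eq_mul_one_div, ← one_div_pow, mul_assoc]
  refine mul_le_mul_of_nonneg_left (h1.trans ?_) hC
  gcongr

/-- step B -/
theorem abs3_B (hJ : St_JB3) : ∃ c : ℝ, 0 ≤ c ∧ ∀ (F : ℂ → ℂ) (e R B K : ℝ) (z : ℂ), 0 < e →
    0 ≤ B → 0 ≤ K → e ≤ π / 2 - z.im → π / 2 - z.im ≤ 1 / 2 → 1 / e + 1 ≤ z.re →
    z.re + 1 / e ≤ R →
    (∀ r : ℂ, 1 / e + 1 ≤ r.re → r.re ≤ R → e ≤ π / 2 - r.im → π / 2 - r.im ≤ 3 / 4 →
      ‖F r‖ ≤ B * (π / 2 - r.im) ^ (-(3 / 2) : ℝ)) →
    (∀ t : ℝ, 0 < t → 1 / e < Real.log (1 + t) → ‖F (z + xs t)‖ ≤ K * (1 + t) ^ (1 / 4 : ℝ)) →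
    ‖∫ t in Ioi (0 : ℝ), F (z + xs t) * wH t‖ ≤ c * (B + K) / (π / 2 - z.im) := by
  obtain ⟨c1, hc1, h1⟩ := abs3_int (a := 3 / 2) (by norm_num)
  obtain ⟨c2, hc2, h2⟩ := abs3_int (a := 5 / 4) (by norm_num)
  refine ⟨300 * c1 + 3 * c2, by positivity, fun F e R B K z he hB hK z1 z2 z3 z4 hF hT => ?_⟩
  set d := π / 2 - z.im with hd
  have hd0 : 0 < d := by linarith
  obtain ⟨i1, j1⟩ := h1 d hd0
  obtain ⟨i2, j2⟩ := h2 1 one_pos
  have hb := norm_integral_le_of_norm_le ((i1.const_mul (300 * B)).add (i2.const_mul (3 * K)))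
    (f := fun t : ℝ => F (z + xs t) * wH t) (by
      filter_upwards [ae_restrict_mem measurableSet_Ioi] with t ht
      have t0 : 0 < t := ht
      obtain ⟨x1, x2, x3, x4⟩ := hJ.2.2.1 t t0
      have w := hJ.2.2.2.2.2.2.1 t t0
      have m0 : 0 ≤ min t 1 := le_min t0.le zero_le_one
      simp only [Pi.add_apply]
      rw [norm_mul]
      have p1 : 0 ≤ 300 * B * ((d + t) ^ (-(3 / 2) : ℝ) * t ^ (-(1 / 2) : ℝ)) := by positivity
      have p2 : 0 ≤ 3 * K * ((1 + t) ^ (-(5 / 4) : ℝ) * t ^ (-(1 / 2) : ℝ)) := by positivity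
      rcases le_or_gt (Real.log (1 + t)) (1 / e) with hl | hl
      · have a := hF (z + xs t) (by rw [add_re]; linarith) (by rw [add_re]; linarith)
          (by rw [add_im]; linarith) (by rw [add_im]; linarith)
        set D := π / 2 - (z + xs t).im with hD
        have hD1 : d + min t 1 / 20 ≤ D := by rw [hD, add_im]; linarith
        have hD0 : 0 < D := by linarith
        have b : D ^ (-(3 / 2) : ℝ) * (1 + t) ^ (-(3 / 2) : ℝ) ≤
            100 * (d + t) ^ (-(3 / 2) : ℝ) := by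
          rw [← Real.mul_rpow hD0.le (by linarith)]
          refine (Real.rpow_le_rpow_of_nonpos (by positivity) (abs3_min hd0 t0 hD1)
            (by norm_num)).trans ?_
          rw [div_eq_mul_inv, Real.mul_rpow (by positivity) (by norm_num), mul_comm]
          refine mul_le_mul_of_nonneg_right ?_ (by positivity)
          rw [Real.inv_rpow (by norm_num), ← Real.rpow_neg (by norm_num), neg_neg,
            show (3 / 2 : ℝ) = 1 + 1 / 2 by norm_num, Real.rpow_add (by norm_num), Real.rpow_one,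
            ← Real.sqrt_eq_rpow]
          have : √20 ≤ 5 := by rw [Real.sqrt_le_left (by norm_num)]; norm_num
          linarith
        calc ‖F (z + xs t)‖ * ‖wH t‖
            ≤ B * D ^ (-(3 / 2) : ℝ) * (3 * (1 + t) ^ (-(3 / 2) : ℝ) * t ^ (-(1 / 2) : ℝ)) := by
              gcongr
          _ = 3 * B * (D ^ (-(3 / 2) : ℝ) * (1 + t) ^ (-(3 / 2) : ℝ)) * t ^ (-(1 / 2) : ℝ) := by
              ring
          _ ≤ 3 * B * (100 * (d + t) ^ (-(3 / 2) : ℝ)) * t ^ (-(1 / 2) : ℝ) := by gcongr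
          _ ≤ _ := by linarith
      · have e1 : (1 + t) ^ (-(5 / 4) : ℝ) = (1 + t) ^ (1 / 4 : ℝ) * (1 + t) ^ (-(3 / 2) : ℝ) := by
          rw [← Real.rpow_add (by linarith)]; norm_num
        calc ‖F (z + xs t)‖ * ‖wH t‖
            ≤ K * (1 + t) ^ (1 / 4 : ℝ) *
              (3 * (1 + t) ^ (-(3 / 2) : ℝ) * t ^ (-(1 / 2) : ℝ)) := by
              gcongr
              exact hT t t0 hl
          _ = 3 * K * ((1 + t) ^ (-(5 / 4) : ℝ) * t ^ (-(1 / 2) : ℝ)) := by rw [e1]; ring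
          _ ≤ _ := by linarith)
  refine hb.trans ?_
  simp only [Pi.add_apply]
  rw [integral_add (i1.const_mul _) (i2.const_mul _), integral_const_mul, integral_const_mul, j1,
    j2, Real.one_rpow, show (1 / 2 - 3 / 2 : ℝ) = -1 by norm_num, Real.rpow_neg_one,
    le_div_iff₀ hd0]
  have e2 : (300 * B * (c1 * d⁻¹) + 3 * K * (c2 * 1)) * d = 300 * B * c1 + 3 * K * c2 * d := by
    field_simp
  have : 3 * K * c2 * d ≤ 3 * K * c2 * 1 := by gcongr; linarith
  have : 0 ≤ c1 * K := by positivity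
  have : 0 ≤ c2 * B := by positivity
  rw [e2]
  nlinarith

/-- step D -/
theorem abs3_D (hJ : St_JB3) : ∃ c : ℝ, 0 ≤ c ∧ ∀ (H : ℂ → ℂ) (e B K : ℝ), 0 < e → e ≤ 1 / 4 →
    0 ≤ B → 0 ≤ K →
    (∀ r : ℂ, 0 ≤ r.re → r.re ≤ 1 / e → e ≤ π / 2 - r.im → π / 2 - r.im ≤ 1 / 2 →
      ‖H r‖ ≤ B / (π / 2 - r.im)) →
    (∀ t : ℝ, 0 < t → 1 / e < Real.log (1 + t) → ‖H (rh e + xs t)‖ ≤ K * (1 + t) ^ (1 / 4 : ℝ)) →
    ‖∫ t in Ioi (0 : ℝ), H (rh e + xs t) * wJ (rh e) t‖ ≤ c * (B + K) / e := by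
  obtain ⟨c1, hc1, h1⟩ := abs3_int (a := 3 / 2) (by norm_num)
  obtain ⟨c2, hc2, h2⟩ := abs3_int (a := 1) (by norm_num)
  obtain ⟨c3, hc3, h3⟩ := abs3_int (a := 3 / 4) (by norm_num)
  refine ⟨60 * c1 + 60 * c2 + 6 * c3, by positivity, fun H e B K he he4 hB hK hF hT => ?_⟩
  obtain ⟨i1, j1⟩ := h1 e he
  obtain ⟨i2, j2⟩ := h2 e he
  obtain ⟨i3, j3⟩ := h3 1 one_pos
  have r1 : (rh e).re = 0 := by simp [rh]
  have r2 : (rh e).im = π / 2 - e := by simp [rh]
  have hb := norm_integral_le_of_norm_le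
    (((i1.const_mul (60 * B)).add (i2.const_mul (60 * B))).add (i3.const_mul (6 * K)))
    (f := fun t : ℝ => H (rh e + xs t) * wJ (rh e) t) (by
      filter_upwards [ae_restrict_mem measurableSet_Ioi] with t ht
      have t0 : 0 < t := ht
      obtain ⟨x1, x2, x3, x4⟩ := hJ.2.2.1 t t0
      have w := hJ.2.2.2.2.2.2.2 e ⟨he, he4⟩ t t0
      have m0 : 0 ≤ min t 1 := le_min t0.le zero_le_one
      have et : 0 < e + t := by linarith
      simp only [Pi.add_apply]
      rw [norm_mul]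
      have p1 : 0 ≤ 60 * B * ((e + t) ^ (-(3 / 2) : ℝ) * t ^ (-(1 / 2) : ℝ)) := by positivity
      have p2 : 0 ≤ 60 * B * ((e + t) ^ (-1 : ℝ) * t ^ (-(1 / 2) : ℝ)) := by positivity
      have p3 : 0 ≤ 6 * K * ((1 + t) ^ (-(3 / 4) : ℝ) * t ^ (-(1 / 2) : ℝ)) := by positivity
      rcases le_or_gt (Real.log (1 + t)) (1 / e) with hl | hl
      · have a := hF (rh e + xs t) (by rw [add_re]; linarith) (by rw [add_re]; linarith)
          (by rw [add_im]; linarith) (by rw [add_im]; linarith)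
        set D := π / 2 - (rh e + xs t).im with hD
        have hD1 : e + min t 1 / 20 ≤ D := by rw [hD, add_im]; linarith
        have hD0 : 0 < D := by linarith
        have b1 : B / D ≤ 20 * B * (1 + t) / (e + t) := by
          rw [div_le_div_iff₀ hD0 et]
          have := mul_le_mul_of_nonneg_left (abs3_min he t0 hD1) hB
          linarith
        have b2 : (1 + t) * (1 + t) ^ (-(1 / 2) : ℝ) ≤ 1 + (e + t) ^ (1 / 2 : ℝ) := by
          have : (1 + t) * (1 + t) ^ (-(1 / 2) : ℝ) = √(1 + t) := by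
            rw [Real.sqrt_eq_rpow, ← Real.rpow_one_add' (by linarith) (by norm_num)]; norm_num
          rw [this, ← Real.sqrt_eq_rpow, Real.sqrt_le_left (by positivity)]
          nlinarith [Real.sq_sqrt et.le, Real.sqrt_nonneg (e + t)]
        have e1 : (e + t) ^ (-(3 / 2) : ℝ) = (e + t)⁻¹ * (e + t) ^ (-(1 / 2) : ℝ) := by
          rw [← Real.rpow_neg_one, ← Real.rpow_add et]; norm_num
        have e2 : (e + t) ^ (1 / 2 : ℝ) * (e + t) ^ (-(1 / 2) : ℝ) = 1 := by
          rw [← Real.rpow_add et]; norm_num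
        calc ‖H (rh e + xs t)‖ * ‖wJ (rh e) t‖
            ≤ 20 * B * (1 + t) / (e + t) * (3 * (1 + t) ^ (-(1 / 2) : ℝ) *
              (e + t) ^ (-(1 / 2) : ℝ) * t ^ (-(1 / 2) : ℝ)) := by
              gcongr
              exact a.trans b1
          _ = 60 * B * (e + t)⁻¹ * ((1 + t) * (1 + t) ^ (-(1 / 2) : ℝ)) *
              (e + t) ^ (-(1 / 2) : ℝ) * t ^ (-(1 / 2) : ℝ) := by ring
          _ ≤ 60 * B * (e + t)⁻¹ * (1 + (e + t) ^ (1 / 2 : ℝ)) *
              (e + t) ^ (-(1 / 2) : ℝ) * t ^ (-(1 / 2) : ℝ) := by gcongr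
          _ = 60 * B * ((e + t) ^ (-(3 / 2) : ℝ) * t ^ (-(1 / 2) : ℝ)) +
              60 * B * ((e + t)⁻¹ * ((e + t) ^ (1 / 2 : ℝ) * (e + t) ^ (-(1 / 2) : ℝ)) *
                t ^ (-(1 / 2) : ℝ)) := by rw [e1]; ring
          _ ≤ _ := by rw [e2, mul_one, ← Real.rpow_neg_one]; linarith
      · have t1 : 1 ≤ t := by
          have := Real.log_le_sub_one_of_pos (show 0 < 1 + t by linarith)
          have : 1 ≤ 1 / e := by rw [le_div_iff₀ he]; linarith
          linarith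
        have b : (e + t) ^ (-(1 / 2) : ℝ) ≤ 2 * (1 + t) ^ (-(1 / 2) : ℝ) := by
          refine (Real.rpow_le_rpow_of_nonpos (x := 4⁻¹ * (1 + t)) (by positivity) (by linarith)
            (by norm_num)).trans (le_of_eq ?_)
          rw [Real.mul_rpow (by norm_num) (by linarith), Real.inv_rpow (by norm_num),
            ← Real.rpow_neg (by norm_num), neg_neg, ← Real.sqrt_eq_rpow,
            show (4 : ℝ) = 2 ^ 2 by norm_num, Real.sqrt_sq (by norm_num)]
        have e1 : (1 + t) ^ (-(3 / 4) : ℝ) =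
            (1 + t) ^ (1 / 4 : ℝ) * (1 + t) ^ (-(1 / 2) : ℝ) * (1 + t) ^ (-(1 / 2) : ℝ) := by
          rw [← Real.rpow_add (by linarith), ← Real.rpow_add (by linarith)]; norm_num
        calc ‖H (rh e + xs t)‖ * ‖wJ (rh e) t‖
            ≤ K * (1 + t) ^ (1 / 4 : ℝ) * (3 * (1 + t) ^ (-(1 / 2) : ℝ) *
              (2 * (1 + t) ^ (-(1 / 2) : ℝ)) * t ^ (-(1 / 2) : ℝ)) := by
              refine mul_le_mul (hT t t0 hl) (w.trans ?_) (norm_nonneg _) (by positivity)
              gcongr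
          _ = 6 * K * ((1 + t) ^ (-(3 / 4) : ℝ) * t ^ (-(1 / 2) : ℝ)) := by rw [e1]; ring
          _ ≤ _ := by linarith)
  refine hb.trans ?_
  rw [integral_add' ((i1.const_mul _).add (i2.const_mul _)) (i3.const_mul _),
    integral_add' (i1.const_mul _) (i2.const_mul _), integral_const_mul, integral_const_mul,
    integral_const_mul, j1, j2, j3, Real.one_rpow, show (1 / 2 - 3 / 2 : ℝ) = -1 by norm_num]
  have q1 : e ^ (1 / 2 - 1 : ℝ) ≤ e ^ (-1 : ℝ) :=
    Real.rpow_le_rpow_of_exponent_ge he (by linarith) (by norm_num)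
  have q2 : 1 ≤ e ^ (-1 : ℝ) :=
    Real.one_le_rpow_of_pos_of_le_one_of_nonpos he (by linarith) (by norm_num)
  rw [div_eq_mul_inv _ e, ← Real.rpow_neg_one e]
  set y := e ^ (-1 : ℝ)
  have a1 : 60 * B * (c2 * e ^ (1 / 2 - 1 : ℝ)) ≤ 60 * B * (c2 * y) := by gcongr
  have a2 : 6 * K * (c3 * 1) ≤ 6 * K * (c3 * y) := by gcongr
  have a3 : 0 ≤ (60 * c1 * K + 60 * c2 * K + 6 * c3 * B) * y := by positivity
  linarith

theorem t_abs3 : T_ABS3 := by
  intro hJ h0 h1 h2 ι k B hD hC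
  obtain ⟨-, hG, -, -, -, C0, m, h0⟩ := h0 ι k B hD hC
  obtain ⟨h1, h1'⟩ := h1 ι k B hD hC
  obtain ⟨C2, n, e0, he0, h2⟩ := h2 ι k B hD hC
  obtain ⟨cB, hcB, hB⟩ := abs3_B hJ
  obtain ⟨cD, hcD, hDD⟩ := abs3_D hJ
  have hp := Real.pi_gt_three
  set K1 : ℝ := 1 + |C0| * m.factorial with hK1
  set K2 : ℝ := |C0| * (4 ^ m * m.factorial) with hK2
  have k1 : 0 ≤ K1 := by positivity
  have k2 : 0 ≤ K2 := by positivity
  set K3 : ℝ := cB * (9 * K1 + K2) + |C2| with hK3
  have k3 : 0 ≤ K3 := by positivity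
  refine ⟨2 * (cD * (K3 + K2)), n, min e0 (1 / 4), by positivity, fun e he A hA hyp => ?_⟩
  have e0' : 0 < e := he.1
  have e4 : e ≤ 1 / 4 := (he.2.trans_le (min_le_right _ _)).le
  have ie : 4 ≤ 1 / e := by rw [le_div_iff₀ e0']; linarith
  obtain ⟨u, u1, u2, h2⟩ := h2 e ⟨e0', he.2.trans_le (min_le_left _ _)⟩
  set R := Real.exp (1 / e ^ n) with hR
  have u3 : 3 / e = 3 * (1 / e) := by ring
  have sA : ∀ r : ℂ, 1 / e ≤ r.re → r.re ≤ R → e / 2 ≤ π / 2 - r.im → π / 2 - r.im ≤ 1 →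
      ‖Gs k B r‖ ≤ A * K1 / √(π / 2 - r.im) := by
    intro r r1 r2 r3 r4
    have a := (h0 (e / 2) ⟨by linarith, by linarith⟩ r
      (by rw [abs_of_pos (by linarith)]; exact r3)).2.2 (by linarith)
    have b := hyp r r1 r2 r3 r4
    have s0 : 0 < √(π / 2 - r.im) := Real.sqrt_pos.2 (by linarith)
    have s1 : √(π / 2 - r.im) ≤ 1 := Real.sqrt_le_one.2 r4
    have c : ‖exp (r / 2) * Msum k B r‖ ≤ A / √(π / 2 - r.im) := by
      rw [norm_mul, Complex.norm_exp, div_ofNat_re]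
      refine (mul_le_mul_of_nonneg_left b (Real.exp_pos _).le).trans (le_of_eq ?_)
      rw [neg_div, Real.exp_neg]
      field_simp
    have d : C0 / (e / 2) ^ m * Real.exp (-2 * r.re) ≤ |C0| * m.factorial := by
      have d1 := abs3_pow m (show 0 ≤ 1 / (e / 2) by positivity) one_pos
      have d2 : Real.exp (1 / (e / 2) / 1) * Real.exp (-2 * r.re) ≤ 1 := by
        rw [← Real.exp_add, Real.exp_le_one_iff]
        have : 1 / (e / 2) / 1 = 2 * (1 / e) := by field_simp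
        linarith
      rw [div_eq_mul_one_div, ← one_div_pow]
      calc C0 * (1 / (e / 2)) ^ m * Real.exp (-2 * r.re)
          ≤ |C0| * (1 ^ m * m.factorial * Real.exp (1 / (e / 2) / 1)) * Real.exp (-2 * r.re) := by
            gcongr
            exact le_abs_self _
        _ = |C0| * m.factorial * (Real.exp (1 / (e / 2) / 1) * Real.exp (-2 * r.re)) := by ring
        _ ≤ |C0| * m.factorial * 1 := by gcongr
        _ = _ := mul_one _
    have f : |C0| * m.factorial ≤ A * (|C0| * m.factorial) / √(π / 2 - r.im) := by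
      rw [le_div_iff₀ s0, mul_comm A]
      gcongr
      linarith
    rw [show Gs k B r = exp (r / 2) * Msum k B r - (exp (r / 2) * Msum k B r - Gs k B r) by ring,
      hK1, mul_add, add_div, mul_one]
    refine (norm_sub_le _ _).trans ?_
    linarith
  have tail : ∀ (z : ℂ) (t : ℝ), e ≤ π / 2 - z.im → π / 2 - z.im ≤ 1 / 2 → 0 < t →
      1 / e < Real.log (1 + t) → e ≤ π / 2 - |(z + xs t).im| ∧
        C0 / e ^ m ≤ K2 * (1 + t) ^ (1 / 4 : ℝ) := by
    intro z t z1 z2 t0 hl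
    obtain ⟨x1, x2, -⟩ := hJ.2.2.1 t t0
    have m0 : 0 ≤ min t 1 := le_min t0.le zero_le_one
    refine ⟨?_, le_trans ?_ (abs3_tail m e0' t0 (abs_nonneg C0) hl)⟩
    · rw [add_im, abs_of_pos (by linarith)]; linarith
    · gcongr
      exact le_abs_self _
  have sC : ∀ r : ℂ, 0 ≤ r.re → r.re ≤ 1 / e → e ≤ π / 2 - r.im → π / 2 - r.im ≤ 1 / 2 →
      ‖Hs k B r‖ ≤ A * K3 / (π / 2 - r.im) := by
    intro r r1 r2 r3 r4
    have d0 : 0 < π / 2 - r.im := by linarith
    have a := h2 r (by rw [abs_of_pos (by linarith)]; exact r3)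
      (by rw [abs_of_pos (by linarith)]; linarith)
    rw [abs_of_pos (show 0 < r.im by linarith)] at a
    have zi : (r + u).im = r.im := by simp
    have zr : (r + u).re = r.re + u := by simp
    have b := hB (fun r => Gs k B r / 2 - deriv (Gs k B) r) e (R - 1) (9 * (A * K1)) K2 (r + u)
      e0' (by positivity) k2 (by rw [zi]; exact r3) (by rw [zi]; exact r4) (by rw [zr]; linarith)
      (by rw [zr]; linarith)
      (fun r a b c d => abs3_A hG e0' (by positivity) sA a b c d)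
      (fun t t0 hl => by
        obtain ⟨p, q⟩ := tail (r + u) t (by rw [zi]; exact r3) (by rw [zi]; exact r4) t0 hl
        exact (h0 e ⟨e0', by linarith⟩ _ p).1.trans q)
    have c : ‖Hs k B (r + u)‖ ≤ cB * (9 * (A * K1) + K2) / (π / 2 - r.im) := by
      rw [h1 (r + u) (by rw [zi]; linarith) (by rw [zi]; linarith), norm_mul, ← zi]
      refine (mul_le_of_le_one_left (norm_nonneg _) ?_).trans b
      rw [norm_div, norm_one, norm_mul, Complex.norm_ofNat, norm_real,
        Real.norm_of_nonneg Real.pi_pos.le, div_le_one (by positivity)]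
      linarith
    rw [show Hs k B r = (Hs k B r - Hs k B (r + u)) + Hs k B (r + u) by ring]
    refine (norm_add_le _ _).trans ((add_le_add a c).trans ?_)
    rw [← add_div, div_le_div_iff_of_pos_right d0, hK3]
    have := le_abs_self C2
    have q1 : |C2| * 1 ≤ |C2| * A := by gcongr
    have q2 : cB * K2 * 1 ≤ cB * K2 * A := by gcongr
    linarith
  have r2 : (rh e).im = π / 2 - e := by simp [rh]
  have sD := hDD (Hs k B) e (A * K3) K2 e0' e4 (by positivity) k2 sC fun t t0 hl => by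
    obtain ⟨p, q⟩ := tail (rh e) t (by rw [r2]; linarith) (by rw [r2]; linarith) t0 hl
    exact (h0 e ⟨e0', by linarith⟩ _ p).2.1.trans q
  rw [h1' e ⟨e0', e4⟩, norm_mul, norm_mul, Complex.norm_exp, Complex.norm_ofNat]
  have z : (-rh e / 2).re = 0 := by simp [rh]
  rw [z, Real.exp_zero, mul_one, mul_assoc, mul_div_assoc]
  refine mul_le_mul_of_nonneg_left (sD.trans ?_) (by norm_num)
  rw [div_le_div_iff_of_pos_right e0']
  have q2 : cD * K2 * 1 ≤ cD * K2 * A := by gcongr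
  linarith

end Pool.Agent.Lib.E2
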