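import Pool.Agent.Lib.E2.Blue

/-! The complexified polar coordinates stay admissible. -/

namespace Pool.Agent.Lib.E2

noncomputable section

open Complex MeasureTheory Set Filter Topology
open scoped Real UpperHalfPlane ComplexConjugate

namespace ADM

lemma add_ne {s u : ℂ} {N : ℝ} (hN : 0 < N) (h1 : N ≤ ‖s‖ ^ 2 - ‖u‖ ^ 2) : s + u ≠ 0 := by
  intro h
  have : s = -u := by linear_combination h
  rw [this, norm_neg] at h1
  linarith

lemma re_ge {s u : ℂ} {N : ℝ} (hN : 0 < N) (h1 : N ≤ ‖s‖ ^ 2 - ‖u‖ ^ 2)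
    (h2 : ‖s‖ ^ 2 + ‖u‖ ^ 2 ≤ 2) : N / 4 ≤ ((s - u) / (s + u)).re := by
  have hne := add_ne hN h1
  have hp : 0 < normSq (s + u) := normSq_pos.2 hne
  rw [div_re, ← add_div, le_div_iff₀ hp]
  rw [Complex.sq_norm, Complex.sq_norm, normSq_apply, normSq_apply] at h1 h2
  have h3 : normSq (s + u) ≤ 4 := by
    rw [normSq_apply, add_re, add_im]
    nlinarith [sq_nonneg (s.re - u.re), sq_nonneg (s.im - u.im)]
  simp only [add_re, add_im, sub_re, sub_im]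
  nlinarith

lemma norm_le {s u : ℂ} {N : ℝ} (hN : 0 < N) (h1 : N ≤ ‖s‖ ^ 2 - ‖u‖ ^ 2)
    (h2 : ‖s‖ ^ 2 + ‖u‖ ^ 2 ≤ 2) : ‖(s - u) / (s + u)‖ ≤ (N / 4)⁻¹ := by
  have h3 := re_ge (s := s) (u := -u) hN (by rwa [norm_neg]) (by rwa [norm_neg])
  have h4 := h3.trans (re_le_norm _)
  have h5 : (s - u) / (s + u) = ((s - -u) / (s + -u))⁻¹ := by
    rw [inv_div]; ring_nf
  rw [h5, norm_inv]
  exact inv_anti₀ (by positivity) h4

lemma slit {c : ℂ} (hc : ‖c‖ ^ 2 < 1 / 2) : 1 + c ^ 2 ∈ slitPlane := by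
  left
  have h1 := (abs_le.1 (abs_re_le_norm (c ^ 2))).1
  rw [norm_pow] at h1
  rw [add_re, one_re]
  linarith

lemma sq_s {c : ℂ} (hc : ‖c‖ ^ 2 < 1 / 2) : ((1 + c ^ 2) ^ (1 / 2 : ℂ)) ^ 2 = 1 + c ^ 2 := by
  rw [sq, ← cpow_add _ _ (slitPlane_ne_zero (slit hc))]
  norm_num

lemma norms {c u : ℂ} (hc : ‖c‖ ^ 2 < 1 / 2) (hu : ‖u‖ = ‖c‖) :
    1 - 2 * ‖c‖ ^ 2 ≤ ‖(1 + c ^ 2) ^ (1 / 2 : ℂ)‖ ^ 2 - ‖u‖ ^ 2 ∧
      ‖(1 + c ^ 2) ^ (1 / 2 : ℂ)‖ ^ 2 + ‖u‖ ^ 2 ≤ 2 := by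
  rw [← norm_pow ((1 + c ^ 2) ^ (1 / 2 : ℂ)), sq_s hc, hu]
  have h1 : ‖1 + c ^ 2‖ ≤ 1 + ‖c‖ ^ 2 := by
    have := norm_add_le (1 : ℂ) (c ^ 2)
    rwa [norm_one, norm_pow] at this
  have h2 : 1 - ‖c‖ ^ 2 ≤ ‖1 + c ^ 2‖ := by
    have := norm_sub_norm_le (1 : ℂ) (-(c ^ 2))
    simpa using this
  constructor <;> linarith

lemma cos_eq (b : ℝ) : 2 * ((Real.cos b : ℝ) : ℂ) = exp (b * I) + exp (-b * I) := by
  rw [ofReal_cos, two_cos]

lemma sin_eq (b : ℝ) : 2 * ((Real.sin b : ℝ) : ℂ) = (exp (-b * I) - exp (b * I)) * I := by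
  rw [ofReal_sin, two_sin]

lemma ee (b : ℝ) : exp (b * I) * exp (-b * I) = 1 := by
  rw [← exp_add]; simp

lemma nE (c : ℂ) (b : ℝ) : ‖c * exp (b * I)‖ = ‖c‖ ∧ ‖c * exp (-b * I)‖ = ‖c‖ := by
  constructor
  · rw [norm_mul, norm_exp_ofReal_mul_I, mul_one]
  · have := norm_exp_ofReal_mul_I (-b)
    rw [ofReal_neg] at this
    rw [norm_mul, this, mul_one]

lemma den_eq {c : ℂ} (hc : ‖c‖ ^ 2 < 1 / 2) (b : ℝ) :
    den c b = ((1 + c ^ 2) ^ (1 / 2 : ℂ) + c * exp (b * I)) *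
      ((1 + c ^ 2) ^ (1 / 2 : ℂ) + c * exp (-b * I)) := by
  have h1 := sq_s hc
  have h2 := cos_eq b
  have h3 := ee b
  rw [den]
  linear_combination (-1) * h1 + c * (1 + c ^ 2) ^ (1 / 2 : ℂ) * h2 - c ^ 2 * h3

lemma den_ne {c : ℂ} (hc : ‖c‖ ^ 2 < 1 / 2) (b : ℝ) : den c b ≠ 0 := by
  have hN : 0 < 1 - 2 * ‖c‖ ^ 2 := by linarith
  rw [den_eq hc]
  exact mul_ne_zero (add_ne hN (norms hc (nE c b).1).1) (add_ne hN (norms hc (nE c b).2).1)

lemma adm (z : ℍ) (c : ℂ) (b : ℝ) (hc : ‖c‖ ^ 2 < 1 / 2) :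
    Adm ((1 - 2 * ‖c‖ ^ 2) / 4) z.im (px z c b) (py z c b) := by
  have hN : 0 < 1 - 2 * ‖c‖ ^ 2 := by linarith
  obtain ⟨a1, a2⟩ := norms hc (nE c b).1
  obtain ⟨b1, b2⟩ := norms hc (nE c b).2
  have n1 := add_ne hN a1
  have n2 := add_ne hN b1
  have h1 := sq_s hc
  have h2 := sin_eq b
  have h3 := ee b
  have hd := den_eq hc b
  have r1 := re_ge hN a1 a2
  have r2 := re_ge hN b1 b2
  have m1 := norm_le hN a1 a2
  have m2 := norm_le hN b1 b2
  set s : ℂ := (1 + c ^ 2) ^ (1 / 2 : ℂ) with hs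
  set E : ℂ := exp (b * I)
  set F : ℂ := exp (-b * I)
  set P : ℂ := (s - c * E) / (s + c * E) with hP
  set Q : ℂ := (s - c * F) / (s + c * F) with hQ
  have hh : 0 < z.im := z.im_pos
  have e1 : py z c b = z.im * ((P + Q) / 2) := by
    rw [py, hd, hP, hQ]
    field_simp
    linear_combination (-2) * (z.im : ℂ) * h1 + 2 * (z.im : ℂ) * c ^ 2 * h3
  have e2 : px z c b = z.re + z.im * (I * (P - Q) / 2) := by
    rw [px, hd, hP, hQ, ← hs]
    field_simp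
    linear_combination 2 * (z.im : ℂ) * c * s * h2
  refine ⟨?_, ?_⟩
  · rw [e1, norm_mul, norm_real, Real.norm_of_nonneg hh.le, norm_div, div_eq_mul_inv z.im]
    refine mul_le_mul_of_nonneg_left ?_ hh.le
    have := norm_add_le P Q
    rw [Complex.norm_two]
    linarith
  · have f1 : (py z c b).re = z.im * ((P.re + Q.re) / 2) := by
      rw [e1, re_ofReal_mul]; simp
    have f2 : (px z c b).im = z.im * ((P.re - Q.re) / 2) := by
      rw [e2, add_im, im_ofReal_mul]; simp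
    rw [f1, f2]
    have g1 := mul_le_mul_of_nonneg_left r1 hh.le
    have g2 := mul_le_mul_of_nonneg_left r2 hh.le
    rcases abs_cases (z.im * ((P.re - Q.re) / 2)) with h | h <;> rw [h.1] <;> linarith

lemma diff_s : DifferentiableOn ℂ (fun c : ℂ => (1 + c ^ 2) ^ (1 / 2 : ℂ))
    {c | ‖c‖ ^ 2 < 1 / 2} :=
  DifferentiableOn.cpow_const (by fun_prop) (fun _ hc => slit hc)

lemma diff_den (b : ℝ) : DifferentiableOn ℂ (fun c => den c b) {c | ‖c‖ ^ 2 < 1 / 2} := by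
  have := diff_s
  unfold den
  exact (DifferentiableOn.add (by fun_prop) (DifferentiableOn.mul_const
    (DifferentiableOn.mul (by fun_prop) this) _))

lemma cont_s : ContinuousOn (fun p : ℍ × ℂ × ℝ => (1 + p.2.1 ^ 2) ^ (1 / 2 : ℂ))
    {p | ‖p.2.1‖ ^ 2 < 1 / 2} :=
  ContinuousOn.cpow_const (by fun_prop) (fun _ hc => slit hc)

lemma cont_den : ContinuousOn (fun p : ℍ × ℂ × ℝ => den p.2.1 p.2.2)
    {p | ‖p.2.1‖ ^ 2 < 1 / 2} := by
  have := cont_s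
  unfold den
  exact (ContinuousOn.add (by fun_prop) (ContinuousOn.mul
    (ContinuousOn.mul (by fun_prop) this) (by fun_prop)))

end ADM

open ADM in
theorem t_adm : T_ADM := by
  refine ⟨adm, fun z b => ⟨?_, ?_⟩, ?_⟩
  · unfold px
    refine DifferentiableOn.add (by fun_prop) (DifferentiableOn.div ?_ (diff_den b)
      (fun c hc => den_ne hc b))
    exact DifferentiableOn.const_mul (DifferentiableOn.mul_const
      (DifferentiableOn.mul (by fun_prop) diff_s) _) _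
  · unfold py
    exact DifferentiableOn.div (by fun_prop) (diff_den b) (fun c hc => den_ne hc b)
  · have hre : Continuous (fun p : ℍ × ℂ × ℝ => ((p.1.re : ℝ) : ℂ)) :=
      continuous_ofReal.comp (UpperHalfPlane.continuous_re.comp continuous_fst)
    have him : Continuous (fun p : ℍ × ℂ × ℝ => ((p.1.im : ℝ) : ℂ)) :=
      continuous_ofReal.comp (UpperHalfPlane.continuous_im.comp continuous_fst)
    refine ContinuousOn.prodMk ?_ ?_
    · unfold px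
      refine ContinuousOn.add hre.continuousOn (ContinuousOn.div ?_ cont_den
        (fun p hp => den_ne hp _))
      exact ContinuousOn.mul him.continuousOn (ContinuousOn.mul
        (ContinuousOn.mul (by fun_prop) cont_s) (by fun_prop))
    · unfold py
      exact ContinuousOn.div him.continuousOn cont_den (fun p hp => den_ne hp _)

end

end Pool.Agent.Lib.E2
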