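import Pool.Agent.Lib.E2.Blue

/-! The operators `sin a * Lop a` form an approximate identity. -/

namespace Pool.Agent.Lib.E2

noncomputable section

open Complex MeasureTheory Set Filter Topology
open scoped Real UpperHalfPlane

namespace AI

lemma kint {c : ℝ} (hc : c < 1) :
    IntegrableOn (fun q : ℝ => (q - c) ^ (-(3 / 2) : ℝ)) (Ioi 1) ∧
      ∫ q in Ioi (1 : ℝ), (q - c) ^ (-(3 / 2) : ℝ) = 2 * (1 - c) ^ (-(1 / 2) : ℝ) := by
  have h1 : IntegrableOn (fun q : ℝ => (q - c) ^ (-(3 / 2) : ℝ)) (Ioi 1) := by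
    simpa [sub_eq_add_neg] using
      integrableOn_add_rpow_Ioi_of_lt (a := -(3 / 2)) (c := 1) (m := -c) (by norm_num) (by linarith)
  refine ⟨h1, ?_⟩
  have h2 : ∀ x ∈ Ici (1 : ℝ), HasDerivAt (fun q : ℝ => -2 * (q - c) ^ (-(1 / 2) : ℝ))
      ((x - c) ^ (-(3 / 2) : ℝ)) x := fun x hx => by
    have h0 : x - c ≠ 0 := by have : (1 : ℝ) ≤ x := hx; linarith [sub_pos.2 (hc.trans_le this)]
    have := (((hasDerivAt_id x).sub_const c).rpow_const (p := -(1 / 2)) (Or.inl h0)).const_mul (-2)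
    refine this.congr_deriv ?_
    rw [show (-(1 / 2) : ℝ) - 1 = -(3 / 2) by norm_num]
    simp
  have h3 : Tendsto (fun q : ℝ => -2 * (q - c) ^ (-(1 / 2) : ℝ)) atTop (𝓝 0) := by
    simpa [sub_eq_add_neg] using ((tendsto_rpow_neg_atTop (y := 1 / 2) (by norm_num)).comp
      (tendsto_atTop_add_const_right _ (-c) tendsto_id)).const_mul (-2)
  rw [integral_Ioi_of_hasDerivAt_of_tendsto' h2 h1 h3]
  ring

lemma mass (hP : St_POLAR) (z : ℍ) {a : ℝ} (hc : Real.cos a < 1) :
    Integrable (fun w => ka a (qd z w)) ∧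
      ∫ w, ka a (qd z w) = 4 * π * (1 - Real.cos a) ^ (-(1 / 2) : ℝ) := by
  obtain ⟨h1, h2⟩ := hP.2.2.2.2 z (ka a) (by unfold ka; fun_prop) (kint hc).1
  refine ⟨h1, h2.trans ?_⟩
  unfold ka
  rw [(kint hc).2]
  ring

lemma sin_mul {a : ℝ} (h0 : 0 < a) (h1 : a < π) :
    Real.cos a < 1 ∧ Real.sin a * (1 - Real.cos a) ^ (-(1 / 2) : ℝ) = √(1 + Real.cos a) := by
  have hs := Real.sin_pos_of_pos_of_lt_pi h0 h1
  have h2 := Real.sin_sq_add_cos_sq a
  have hc : Real.cos a < 1 := by nlinarith [Real.cos_le_one a]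
  refine ⟨hc, ?_⟩
  have h3 : 0 < √(1 - Real.cos a) := Real.sqrt_pos.2 (by linarith)
  rw [Real.rpow_neg (by linarith), ← Real.sqrt_eq_rpow, ← div_eq_mul_inv, div_eq_iff h3.ne',
    ← Real.sqrt_mul (by linarith [Real.neg_one_le_cos a]), eq_comm, Real.sqrt_eq_iff_mul_self_eq
      (mul_nonneg (by linarith [Real.neg_one_le_cos a]) (by linarith)) hs.le]
  nlinarith

end AI

open AI in
theorem t_ai : T_AI := by
  intro hG hP hK f z hf hc
  have hq1 : ∀ w, 1 ≤ qd z w := fun w => (hG.2.1 z w).1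
  have hka : ∀ a w, 0 ≤ ka a (qd z w) := fun a w =>
    Real.rpow_nonneg (by linarith [hq1 w, Real.cos_le_one a]) _
  have hcn : ∀ a, Real.cos a < 1 → Integrable fun w => (ka a (qd z w) : ℂ) * f z :=
    fun a ha => (mass hP z ha).1.ofReal.mul_const _
  have hin : ∀ a, Real.cos a < 1 → Integrable fun w => (ka a (qd z w) : ℂ) * (f w - f z) :=
    fun a ha => ((hK.2.2.1 f hf a ha z).sub (hcn a ha)).congr
      (Eventually.of_forall fun w => (mul_sub _ _ _).symm)
  have hev : ∀ᶠ a in 𝓝[>] (0 : ℝ), 0 < a ∧ a < π := Ioo_mem_nhdsGT Real.pi_pos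
  have hA : Tendsto (fun a : ℝ => ((4 * π * √(1 + Real.cos a) : ℝ) : ℂ) * f z) (𝓝[>] 0)
      (𝓝 ((4 * √2 * π : ℝ) * f z)) := by
    have h1 : Continuous fun a : ℝ => ((4 * π * √(1 + Real.cos a) : ℝ) : ℂ) * f z := by fun_prop
    have h2 := (h1.tendsto 0).mono_left (nhdsWithin_le_nhds (s := Ioi 0))
    rwa [Real.cos_zero, one_add_one_eq_two, mul_right_comm 4 π] at h2
  have hB : Tendsto (fun a : ℝ => (Real.sin a : ℂ) * ∫ w, (ka a (qd z w) : ℂ) * (f w - f z))
      (𝓝[>] 0) (𝓝 0) := by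
    rw [NormedAddGroup.tendsto_nhds_zero]
    intro ε hε
    obtain ⟨δ, hδ, hd⟩ := Metric.continuousAt_iff.1 hc (ε / 100) (by positivity)
    have hQ : 1 < Real.cosh δ := Real.one_lt_cosh.2 hδ.ne'
    set c : ℝ := (1 - (Real.cosh δ)⁻¹) ^ (-(3 / 2) : ℝ) with hcd
    have hQ' : 0 < 1 - (Real.cosh δ)⁻¹ := sub_pos.2 (inv_lt_one_of_one_lt₀ hQ)
    have hc0 : 0 ≤ c := Real.rpow_nonneg hQ'.le _
    have hG0 := (hin (π / 2) (by simp)).norm
    set G : ℝ := ∫ w, ‖(ka (π / 2) (qd z w) : ℂ) * (f w - f z)‖ with hGd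
    have hT : Tendsto (fun a : ℝ => Real.sin a * (c * G)) (𝓝[>] 0) (𝓝 0) := by
      have h1 : Continuous fun a : ℝ => Real.sin a * (c * G) := by fun_prop
      simpa using (h1.tendsto 0).mono_left (nhdsWithin_le_nhds (s := Ioi 0))
    filter_upwards [hev, hT.eventually (gt_mem_nhds (half_pos hε))] with a ha h2
    obtain ⟨ha1, ha2⟩ := sin_mul ha.1 ha.2
    have hs := Real.sin_pos_of_pos_of_lt_pi ha.1 ha.2
    obtain ⟨m1, m2⟩ := mass hP z ha1
    have h3 : ‖∫ w, (ka a (qd z w) : ℂ) * (f w - f z)‖ ≤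
        ∫ w, (ε / 100 * ka a (qd z w) + c * ‖(ka (π / 2) (qd z w) : ℂ) * (f w - f z)‖) := by
      refine norm_integral_le_of_norm_le ((m1.const_mul _).add (hG0.const_mul _))
        (Eventually.of_forall fun w => ?_)
      rw [norm_mul, norm_mul, norm_real, norm_real, Real.norm_of_nonneg (hka _ _),
        Real.norm_of_nonneg (hka _ _)]
      have k0 := hka a w
      have k1 := hka (π / 2) w
      have k2 := norm_nonneg (f w - f z)
      rcases lt_or_ge (dist w z) δ with h | h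
      · have := (hd h).le
        rw [dist_eq_norm] at this
        nlinarith [mul_nonneg hc0 (mul_nonneg k1 k2), mul_le_mul_of_nonneg_left this k0]
      · have k3 : Real.cosh δ ≤ qd z w := by
          rw [qd, Real.cosh_le_cosh, abs_of_pos hδ, abs_of_nonneg dist_nonneg, dist_comm]
          exact h
        have k4 : ka a (qd z w) ≤ c * ka (π / 2) (qd z w) := by
          rw [ka, ka, Real.cos_pi_div_two, sub_zero, hcd,
            ← Real.mul_rpow hQ'.le (by linarith [hq1 w])]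
          refine Real.rpow_le_rpow_of_nonpos (mul_pos hQ' (by linarith [hq1 w])) ?_ (by norm_num)
          have k5 : 1 ≤ (Real.cosh δ)⁻¹ * qd z w := by
            rw [← div_eq_inv_mul, one_le_div (by linarith)]; exact k3
          nlinarith
        nlinarith [mul_le_mul_of_nonneg_right k4 k2, mul_nonneg hε.le k0]
    rw [integral_add (m1.const_mul _) (hG0.const_mul _), integral_const_mul, integral_const_mul,
      m2] at h3
    rw [norm_mul, norm_real, Real.norm_of_nonneg hs.le]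
    have h4 : √(1 + Real.cos a) ≤ 2 := Real.sqrt_le_iff.2 ⟨by norm_num, by linarith⟩
    have h5 := mul_le_mul_of_nonneg_left h3 hs.le
    have h6 : Real.sin a * (ε / 100 * (4 * π * (1 - Real.cos a) ^ (-(1 / 2) : ℝ)) + c * G) =
        ε / 100 * (4 * π * √(1 + Real.cos a)) + Real.sin a * (c * G) := by rw [← ha2]; ring
    have h7 : 4 * π * √(1 + Real.cos a) ≤ 4 * 4 * 2 := by
      have := Real.pi_le_four
      gcongr
    nlinarith
  have hS := hA.add hB
  rw [add_zero] at hS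
  refine hS.congr' ?_
  filter_upwards [hev] with a ha
  obtain ⟨ha1, ha2⟩ := sin_mul ha.1 ha.2
  obtain ⟨m1, m2⟩ := mass hP z ha1
  simp only [mul_sub]
  rw [integral_sub (hK.2.2.1 f hf a ha1 z) (hcn a ha1), integral_mul_const,
    integral_complex_ofReal, m2, ← ha2, Lop, Rop]
  push_cast
  ring

end

end Pool.Agent.Lib.E2
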