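import Pool.Agent.Lib.E2.Blue

namespace Pool.Agent.Lib.E2

noncomputable section

open Complex MeasureTheory Set Filter Topology
open scoped Real ComplexConjugate

theorem an_arg_pos {w : ℂ} (h : 0 < w.im) : arg w = π / 2 - Real.arctan (w.re / w.im) := by
  have hs : 0 < √(1 + (w.re / w.im) ^ 2) := Real.sqrt_pos.2 (by positivity)
  have h1 := Real.arctan_lt_pi_div_two (w.re / w.im)
  have h2 := Real.neg_pi_div_two_lt_arctan (w.re / w.im)
  have key := arg_mul_cos_add_sin_mul_I (r := w.im * √(1 + (w.re / w.im) ^ 2))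
    (θ := π / 2 - Real.arctan (w.re / w.im)) (mul_pos h hs)
    ⟨by linarith [Real.pi_pos], by linarith⟩
  rw [← key]
  refine congrArg arg ?_
  rw [← ofReal_cos, ← ofReal_sin, Real.cos_pi_div_two_sub, Real.sin_pi_div_two_sub,
    Real.sin_arctan, Real.cos_arctan]
  apply Complex.ext
  · simp only [mul_re, ofReal_re, ofReal_im, add_re, add_im, mul_im, I_re, I_im]
    field_simp
    ring
  · simp only [mul_re, ofReal_re, ofReal_im, add_re, add_im, mul_im, I_re, I_im]
    field_simp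
    ring

theorem an_arg_neg {w : ℂ} (h : w.im < 0) : arg w = -(π / 2 - Real.arctan (w.re / -w.im)) := by
  have h1 := an_arg_pos (w := conj w) (by simpa using h)
  have h2 : arg w ≠ π := fun e => h.ne (arg_eq_pi_iff.1 e).2
  rw [arg_conj, if_neg h2, conj_re, conj_im] at h1
  linarith

theorem an_key {p q : ℂ} (hp : p ∈ slitPlane) (hq : q ∈ slitPlane) (h : p + q = 2)
    (h0 : 0 ≤ p.im) : arg q ≤ arg p ∧ arg p - arg q < π ∧ ∀ d : ℝ, 0 ≤ d →
      arg q ≤ arg (d + p) ∧ arg (d + p) ≤ arg p ∧ arg q ≤ arg (d + q) ∧ arg (d + q) ≤ arg p := by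
  have hi : q.im = -p.im := by
    have := congrArg Complex.im h
    simp at this; linarith
  have hr : p.re + q.re = 2 := by simpa using congrArg Complex.re h
  rcases h0.eq_or_lt with h0 | h0
  · have p0 : 0 < p.re := hp.resolve_right (by simp [← h0])
    have q0 : 0 < q.re := hq.resolve_right (by simp [hi, ← h0])
    have a1 : arg p = 0 := arg_eq_zero_iff.2 ⟨p0.le, h0.symm⟩
    have a2 : arg q = 0 := arg_eq_zero_iff.2 ⟨q0.le, by rw [hi, ← h0, neg_zero]⟩
    refine ⟨by rw [a1, a2], by rw [a1, a2]; simpa using Real.pi_pos, fun d hd => ?_⟩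
    have a3 : arg (d + p) = 0 := arg_eq_zero_iff.2 ⟨by simp; linarith, by simp [← h0]⟩
    have a4 : arg (d + q) = 0 := arg_eq_zero_iff.2 ⟨by simp; linarith, by simp [hi, ← h0]⟩
    simp [a1, a2, a3, a4]
  · have e1 : ∀ d : ℝ, arg (d + p) = π / 2 - Real.arctan ((d + p.re) / p.im) := fun d => by
      rw [an_arg_pos (by simpa using h0)]; simp
    have e2 : ∀ d : ℝ, arg (d + q) = -(π / 2 - Real.arctan ((d + q.re) / p.im)) := fun d => by
      rw [an_arg_neg (by simp [hi, h0])]; simp [hi]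
    have a1 := e1 0
    have a2 := e2 0
    simp only [ofReal_zero, zero_add] at a1 a2
    have b1 := Real.arctan_lt_pi_div_two (p.re / p.im)
    have b2 := Real.arctan_lt_pi_div_two (q.re / p.im)
    refine ⟨by linarith, ?_, fun d hd => ?_⟩
    · have : Real.arctan (-(p.re / p.im)) < Real.arctan (q.re / p.im) := by
        refine Real.arctan_strictMono ?_
        rw [← neg_div]
        exact div_lt_div_of_pos_right (by linarith) h0
      rw [Real.arctan_neg] at this
      linarith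
    · have c1 := Real.arctan_lt_pi_div_two ((d + p.re) / p.im)
      have c2 := Real.arctan_lt_pi_div_two ((d + q.re) / p.im)
      have c3 : Real.arctan (p.re / p.im) ≤ Real.arctan ((d + p.re) / p.im) :=
        Real.arctan_strictMono.monotone (div_le_div_of_nonneg_right (by linarith) h0.le)
      have c4 : Real.arctan (q.re / p.im) ≤ Real.arctan ((d + q.re) / p.im) :=
        Real.arctan_strictMono.monotone (div_le_div_of_nonneg_right (by linarith) h0.le)
      rw [e1, e2, a1, a2]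
      exact ⟨by linarith, by linarith, by linarith, by linarith⟩

theorem an_between {a b x t : ℝ} (h1 : a ≤ x) (h2 : x ≤ b) : t * x ≤ max (t * a) (t * b) := by
  rcases le_total 0 t with h | h
  · exact (mul_le_mul_of_nonneg_left h2 h).trans (le_max_right _ _)
  · exact (mul_le_mul_of_nonpos_left h1 h).trans (le_max_left _ _)

theorem an_key2 {p q : ℂ} (hp : p ∈ slitPlane) (hq : q ∈ slitPlane) (h : p + q = 2) :
    |arg p - arg q| < π ∧ ∀ d t : ℝ, 0 ≤ d →
      t * arg (d + p) ≤ max (t * arg p) (t * arg q) ∧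
      t * arg (d + q) ≤ max (t * arg p) (t * arg q) := by
  rcases le_total 0 p.im with h0 | h0
  · obtain ⟨a1, a2, a3⟩ := an_key hp hq h h0
    refine ⟨by rwa [abs_of_nonneg (by linarith)], fun d t hd => ?_⟩
    obtain ⟨b1, b2, b3, b4⟩ := a3 d hd
    rw [max_comm]
    exact ⟨an_between b1 b2, an_between b3 b4⟩
  · have hi : 0 ≤ q.im := by
      have := congrArg Complex.im h
      simp at this; linarith
    obtain ⟨a1, a2, a3⟩ := an_key hq hp (by rw [add_comm, h]) hi
    refine ⟨by rw [abs_of_nonpos (by linarith)]; linarith, fun d t hd => ?_⟩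
    obtain ⟨b1, b2, b3, b4⟩ := a3 d hd
    exact ⟨an_between b3 b4, an_between b1 b2⟩

theorem an_max (a b t : ℝ) : max (t * a) (t * b) + max (-t * a) (-t * b) ≤ |t| * |a - b| := by
  rw [← abs_mul]
  have h1 := le_abs_self (t * (a - b))
  have h2 := neg_abs_le (t * (a - b))
  have h3 := abs_nonneg (t * (a - b))
  rcases le_total (t * a) (t * b) with c | c
  · rw [max_eq_right c, max_eq_left (by linarith)]; linarith
  · rw [max_eq_left c, max_eq_right (by linarith)]; linarith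

theorem an_open : IsOpen Str := isOpen_lt (by fun_prop) continuous_const

theorem an_cos {r : ℂ} (hr : r ∈ Str) : 0 < Real.cos r.im :=
  Real.cos_pos_of_mem_Ioo (abs_lt.1 hr)

theorem an_cosh {r : ℂ} (hr : r ∈ Str) : cosh r ∈ slitPlane := by
  left
  have e : cosh r = cosh ((r.re : ℂ) + r.im * I) := by rw [re_add_im]
  rw [e, cosh_add, cosh_mul_I, sinh_mul_I, ← ofReal_cosh, ← ofReal_sinh, ← ofReal_cos,
    ← ofReal_sin]
  simp only [add_re, mul_re, ofReal_re, ofReal_im, mul_im, I_re, I_im]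
  have := mul_pos (Real.cosh_pos r.re) (an_cos hr)
  linarith

theorem an_sk (t : ℝ) : (sk t).re = 1 / 2 ∧ (sk t).im = t := by simp [sk]

theorem an_term {w : ℂ} {c b t E : ℝ} (hc : 0 < c) (hb : 0 < b) (h : b ^ 2 / 9 * c ≤ ‖w‖)
    (hE : t * arg w ≤ E) : ‖w ^ (-sk t)‖ ≤ 3 / b * Real.exp E * c ^ (-(1 / 2) : ℝ) := by
  have h0 : 0 < b ^ 2 / 9 * c := by positivity
  have hw : w ≠ 0 := norm_pos_iff.1 (h0.trans_le h)
  rw [norm_cpow_of_ne_zero hw, neg_re, neg_im, (an_sk t).1, (an_sk t).2, div_eq_mul_inv,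
    ← Real.exp_neg]
  have h1 : ‖w‖ ^ (-(1 / 2) : ℝ) ≤ (b ^ 2 / 9 * c) ^ (-(1 / 2) : ℝ) :=
    Real.rpow_le_rpow_of_nonpos h0 h (by norm_num)
  have h2 : (b ^ 2 / 9 * c) ^ (-(1 / 2) : ℝ) = 3 / b * c ^ (-(1 / 2) : ℝ) := by
    rw [Real.mul_rpow (by positivity) hc.le, show b ^ 2 / 9 = (b / 3) ^ (2 : ℝ) by
      rw [Real.rpow_two]; ring, ← Real.rpow_mul (by positivity)]
    norm_num [Real.rpow_neg_one]
  have h3 : Real.exp (-(arg w * -t)) ≤ Real.exp E := Real.exp_le_exp.2 (by linarith)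
  calc _ ≤ 3 / b * c ^ (-(1 / 2) : ℝ) * Real.exp E :=
        mul_le_mul (h1.trans_eq h2) h3 (Real.exp_pos _).le (by positivity)
    _ = _ := by ring

theorem an_int (hN : St_NB) : Integrable fun v : ℝ => Real.cosh v ^ (-(1 / 2) : ℝ) := by
  have h := (hN.1 (1 / 2) 0 (by norm_num) (by simp [Str, Real.pi_pos])).1.norm
  refine h.congr (ae_of_all _ fun v => ?_)
  simp only [sinh_zero, mul_zero, add_zero]
  rw [norm_cpow_eq_rpow_re_of_pos (Real.cosh_pos v)]
  norm_num

theorem an_N (hN : St_NB) {r : ℂ} (hr : r ∈ Str) (t : ℝ) :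
    ‖Nf (sk t) r‖ ≤ 6 / Real.cos r.im * (∫ v : ℝ, Real.cosh v ^ (-(1 / 2) : ℝ)) *
      Real.exp (max (t * arg (1 + I * sinh r)) (t * arg (1 - I * sinh r))) := by
  have h1 := hN.2.2.2.1 r hr 1 le_rfl
  rw [ofReal_one] at h1
  have k := (an_key2 h1.1 h1.2.1 (by ring)).2
  have hb := an_cos hr
  refine (norm_integral_le_of_norm_le ((an_int hN).const_mul (6 / Real.cos r.im *
    Real.exp (max (t * arg (1 + I * sinh r)) (t * arg (1 - I * sinh r)))))
    (ae_of_all _ fun v => ?_)).trans_eq ?_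
  · have c1 := Real.one_le_cosh v
    have h2 := hN.2.2.2.1 r hr _ c1
    have k2 := k (Real.cosh v - 1) t (by linarith)
    have e1 : ((Real.cosh v - 1 : ℝ) : ℂ) + (1 + I * sinh r) = Real.cosh v + I * sinh r := by
      rw [ofReal_sub, ofReal_one]; ring
    have e2 : ((Real.cosh v - 1 : ℝ) : ℂ) + (1 - I * sinh r) = Real.cosh v - I * sinh r := by
      rw [ofReal_sub, ofReal_one]; ring
    rw [e1, e2] at k2
    have m : Real.cos r.im ^ 2 / 9 * Real.cosh v ≤
        Real.cos r.im ^ 2 / 9 * (Real.cosh v + ‖sinh r‖) :=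
      mul_le_mul_of_nonneg_left (by linarith [norm_nonneg (sinh r)]) (by positivity)
    have t1 := an_term (Real.cosh_pos v) hb (m.trans h2.2.2.1) k2.1
    have t2 := an_term (Real.cosh_pos v) hb (m.trans h2.2.2.2) k2.2
    refine (norm_add_le _ _).trans ((add_le_add t1 t2).trans_eq ?_)
    ring
  · rw [integral_const_mul]; ring

theorem an_wf (hN : St_NB) {r : ℂ} (hr : r ∈ Str) (t : ℝ) :
    ‖wf r t‖ ≤ (6 / Real.cos r.im * (∫ v : ℝ, Real.cosh v ^ (-(1 / 2) : ℝ))) ^ 2 *
      Real.exp (-(π - |arg (1 + I * sinh r) - arg (1 - I * sinh r)|) * |t|) := by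
  have h1 := an_N hN hr t
  have h2 := an_N hN hr (-t)
  have h3 := an_max (arg (1 + I * sinh r)) (arg (1 - I * sinh r)) t
  have h4 : Real.exp (π * |t|) ≤ 2 * Real.cosh (π * t) := by
    rw [← Real.cosh_abs, abs_mul, abs_of_pos Real.pi_pos, Real.cosh_eq]
    linarith [Real.exp_pos (-(π * |t|))]
  have h5 : 0 < 2 * Real.cosh (π * t) := by linarith [Real.cosh_pos (π * t)]
  have hK : 0 ≤ 6 / Real.cos r.im * (∫ v : ℝ, Real.cosh v ^ (-(1 / 2) : ℝ)) :=
    mul_nonneg (div_nonneg (by norm_num) (an_cos hr).le)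
      (integral_nonneg fun v => Real.rpow_nonneg (Real.cosh_pos v).le _)
  generalize 6 / Real.cos r.im * (∫ v : ℝ, Real.cosh v ^ (-(1 / 2) : ℝ)) = K at h1 h2 hK ⊢
  rw [wf, norm_div, norm_mul, norm_real, Real.norm_of_nonneg h5.le, div_le_iff₀ h5]
  refine (mul_le_mul h1 h2 (norm_nonneg _) (by positivity)).trans ?_
  calc _ = K ^ 2 * Real.exp (max (t * arg (1 + I * sinh r)) (t * arg (1 - I * sinh r)) +
          max (-t * arg (1 + I * sinh r)) (-t * arg (1 - I * sinh r))) := by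
        rw [Real.exp_add]; ring
    _ ≤ K ^ 2 * (Real.exp (-(π - |arg (1 + I * sinh r) - arg (1 - I * sinh r)|) * |t|) *
          Real.exp (π * |t|)) := by
        rw [← Real.exp_add]
        exact mul_le_mul_of_nonneg_left (Real.exp_le_exp.2 (by linarith)) (by positivity)
    _ ≤ _ := by
        rw [← mul_assoc]
        exact mul_le_mul_of_nonneg_left h4 (by positivity)

theorem an_dec {d : ℝ} (hd : 0 < d) : ∃ C : ℝ, ∀ t : ℝ,
    (1 + |t|) ^ 2 * Real.exp (-d * |t|) ≤ C * (1 + t ^ 2)⁻¹ := by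
  have hm : 0 < min 1 (d / 4) := lt_min one_pos (by positivity)
  refine ⟨(min 1 (d / 4) ^ 4)⁻¹, fun t => ?_⟩
  have h0 := abs_nonneg t
  have h1 : min 1 (d / 4) * (1 + |t|) ≤ Real.exp (d * |t| / 4) := by
    have a := min_le_left 1 (d / 4)
    have b := mul_le_mul_of_nonneg_right (min_le_right 1 (d / 4)) h0
    have c := Real.add_one_le_exp (d * |t| / 4)
    linarith
  have h2 : (min 1 (d / 4) * (1 + |t|)) ^ 4 ≤ Real.exp (d * |t|) := by
    refine (pow_le_pow_left₀ (by positivity) h1 4).trans_eq ?_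
    rw [← Real.exp_nat_mul]; congr 1; push_cast; ring
  have h3 : 1 + t ^ 2 ≤ (1 + |t|) ^ 2 := by nlinarith [sq_abs t]
  rw [neg_mul, Real.exp_neg, ← div_eq_mul_inv, ← mul_inv, ← one_div,
    div_le_div_iff₀ (Real.exp_pos _) (by positivity), one_mul]
  refine le_trans ?_ h2
  calc (1 + |t|) ^ 2 * (min 1 (d / 4) ^ 4 * (1 + t ^ 2))
      ≤ (1 + |t|) ^ 2 * (min 1 (d / 4) ^ 4 * (1 + |t|) ^ 2) := by gcongr
    _ = _ := by ring

theorem an_FF (hP : St_PAR) (hN : St_NB) (hZ : St_ZB1) : DifferentiableOn ℂ FF Str := by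
  obtain ⟨-, -, -, -, -, -, -, -, -, -, -, zc, z0, -, -, C, zC⟩ := hZ
  have hsk : ∀ t : ℝ, 0 < (sk t).re := fun t => by rw [(an_sk t).1]; norm_num
  have csk : Continuous sk := by unfold sk; fun_prop
  refine DifferentiableOn.const_mul (hP.1 ℝ volume (fun r t => (z4 t : ℂ) * wf r t) Str an_open
    (fun r hr => Continuous.aestronglyMeasurable ?_) (ae_of_all _ fun t => ?_) fun r hr => ?_).1 _
  · have c1 : Continuous fun t : ℝ => Nf (sk t) r :=
      hN.2.1.comp_continuous (f := fun t : ℝ => (sk t, r)) (by fun_prop) fun t => ⟨hsk t, hr⟩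
    refine (continuous_ofReal.comp zc).mul ((c1.mul (c1.comp continuous_neg)).div (by fun_prop)
      fun t => ofReal_ne_zero.2 ?_)
    linarith [Real.cosh_pos (π * t)]
  · have d1 : ∀ t : ℝ, DifferentiableOn ℂ (fun r => Nf (sk t) r) Str := fun t =>
      hN.2.2.1 Str (fun _ => sk t) id an_open (differentiableOn_const _) differentiableOn_id
        fun r hr => ⟨hsk t, hr⟩
    exact (((d1 t).mul (d1 (-t))).div_const _).const_mul _
  · have h1 := hN.2.2.2.1 r hr 1 le_rfl
    rw [ofReal_one] at h1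
    have k := (an_key2 h1.1 h1.2.1 (by ring)).1
    have c1 : ContinuousAt (fun w : ℂ => |arg (1 + I * sinh w) - arg (1 - I * sinh w)|) r :=
      ((ContinuousAt.comp (f := fun w : ℂ => 1 + I * sinh w) (continuousAt_arg h1.1)
        (by fun_prop)).sub (ContinuousAt.comp (f := fun w : ℂ => 1 - I * sinh w)
          (continuousAt_arg h1.2.1) (by fun_prop))).abs
    have c2 : ContinuousAt (fun w : ℂ => Real.cos w.im) r := by fun_prop
    have hb := an_cos hr
    set f := |arg (1 + I * sinh r) - arg (1 - I * sinh r)| with hf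
    obtain ⟨e, he, hb'⟩ := Metric.eventually_nhds_iff.1
      ((c1.eventually (gt_mem_nhds (show _ < (f + π) / 2 by linarith))).and
        (c2.eventually (lt_mem_nhds (show Real.cos r.im / 2 < _ by linarith))))
    obtain ⟨D, hD⟩ := an_dec (d := (π - f) / 2) (by linarith)
    have hI : 0 ≤ ∫ v : ℝ, Real.cosh v ^ (-(1 / 2) : ℝ) :=
      integral_nonneg fun v => Real.rpow_nonneg (Real.cosh_pos v).le _
    have hC : 0 ≤ C := by simpa using (z0 0).trans (zC 0)
    refine ⟨e, he, fun t => C * (12 / Real.cos r.im * ∫ v : ℝ, Real.cosh v ^ (-(1 / 2) : ℝ)) ^ 2 *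
      (D * (1 + t ^ 2)⁻¹), (integrable_inv_one_add_sq.const_mul _).const_mul _,
      ae_of_all _ fun t w hw hwe => ?_⟩
    obtain ⟨a1, a2⟩ := hb' (show dist w r < e by rwa [dist_eq_norm])
    have b1 : 6 / Real.cos w.im ≤ 12 / Real.cos r.im := by
      rw [div_le_div_iff₀ (an_cos hw) hb]; linarith
    have b2 : ‖wf w t‖ ≤ (12 / Real.cos r.im * ∫ v : ℝ, Real.cosh v ^ (-(1 / 2) : ℝ)) ^ 2 *
        Real.exp (-((π - f) / 2) * |t|) := by
      refine (an_wf hN hw t).trans (mul_le_mul (pow_le_pow_left₀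
        (mul_nonneg (div_nonneg (by norm_num) (an_cos hw).le) hI)
        (mul_le_mul_of_nonneg_right b1 hI) 2) (Real.exp_le_exp.2
          (mul_le_mul_of_nonneg_right (by linarith) (abs_nonneg t))) (Real.exp_pos _).le
        (by positivity))
    rw [norm_mul, norm_real, Real.norm_of_nonneg (z0 t)]
    refine (mul_le_mul (zC t) b2 (norm_nonneg _) (by positivity)).trans ?_
    calc _ = C * (12 / Real.cos r.im * ∫ v : ℝ, Real.cosh v ^ (-(1 / 2) : ℝ)) ^ 2 *
          ((1 + |t|) ^ 2 * Real.exp (-((π - f) / 2) * |t|)) := by ring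
      _ ≤ _ := mul_le_mul_of_nonneg_left (hD t) (by positivity)

theorem an_near {s : ℂ} (h : ‖s - 1‖ = dl) :
    0 < s.re ∧ s ≠ 1 ∧ ContinuousAt Gamma s ∧ ContinuousAt riemannZeta s := by
  have h1 : 0 < s.re := by
    have a := (abs_le.1 ((abs_re_le_norm (s - 1)).trans (h.le.trans dl_le))).1
    rw [sub_re, one_re] at a
    linarith
  have h2 : s ≠ 1 := fun e => by
    rw [e, sub_self, norm_zero] at h
    exact dl_pos.ne h
  refine ⟨h1, h2, (differentiableAt_Gamma s fun m e => ?_).continuousAt,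
    (differentiableAt_riemannZeta h2).continuousAt⟩
  rw [e, neg_re, natCast_re] at h1
  linarith [(Nat.cast_nonneg m : (0 : ℝ) ≤ m)]

theorem an_tp : (2 * π : ℂ) ≠ 0 := mul_ne_zero two_ne_zero (ofReal_ne_zero.2 Real.pi_ne_zero)

theorem an_T2 (hP : St_PAR) (hN : St_NB) : DifferentiableOn ℂ T2 Str := by
  have n1 : ∀ u ∈ Metric.sphere (0 : ℂ) dl, ‖1 + u - 1‖ = dl := fun u hu => by simpa using hu
  have n2 : ∀ u ∈ Metric.sphere (0 : ℂ) dl, u ≠ 0 := fun u hu e => (an_near (n1 u hu)).2.1 (by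
    rw [e, add_zero])
  have dl' : DifferentiableOn ℂ (fun r => log (cosh r)) Str := fun r hr =>
    (differentiable_cosh.differentiableAt.clog (an_cosh hr)).differentiableWithinAt
  refine DifferentiableOn.const_mul (hP.2.1 (fun r u => exp (u * log (cosh r)) *
    (2 * π : ℂ) ^ (-1 - u) * Gamma (1 + u) * riemannZeta (1 + u) ^ 2 * Nf (1 + u) r *
    ((c0 - log (cosh r)) / u + 1 / u ^ 2)) Str 0 dl an_open dl_pos ?_ fun u hu => ?_) _
  · have c1 : ContinuousOn (fun p : ℂ × ℂ => log (cosh p.1)) (Str ×ˢ Metric.sphere (0 : ℂ) dl) :=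
      dl'.continuousOn.comp continuousOn_fst fun p hp => hp.1
    have c2 : ContinuousOn (fun p : ℂ × ℂ => Gamma (1 + p.2)) (Str ×ˢ Metric.sphere (0 : ℂ) dl) :=
      fun p hp => (ContinuousAt.comp (f := fun p : ℂ × ℂ => 1 + p.2) (an_near (n1 _ hp.2)).2.2.1
        (by fun_prop)).continuousWithinAt
    have c3 : ContinuousOn (fun p : ℂ × ℂ => riemannZeta (1 + p.2))
        (Str ×ˢ Metric.sphere (0 : ℂ) dl) :=
      fun p hp => (ContinuousAt.comp (f := fun p : ℂ × ℂ => 1 + p.2) (an_near (n1 _ hp.2)).2.2.2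
        (by fun_prop)).continuousWithinAt
    have c4 : ContinuousOn (fun p : ℂ × ℂ => Nf (1 + p.2) p.1) (Str ×ˢ Metric.sphere (0 : ℂ) dl) :=
      hN.2.1.comp (f := fun p : ℂ × ℂ => (1 + p.2, p.1)) (by fun_prop)
        fun p hp => ⟨(an_near (n1 _ hp.2)).1, hp.1⟩
    have c5 : Continuous fun p : ℂ × ℂ => (2 * π : ℂ) ^ (-1 - p.2) :=
      Continuous.const_cpow (by fun_prop) (Or.inl an_tp)
    exact ((((((continuousOn_snd.mul c1).cexp.mul c5.continuousOn).mul c2).mul (c3.pow 2)).mul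
      c4).mul (((continuousOn_const.sub c1).div continuousOn_snd fun p hp => n2 _ hp.2).add
        (continuousOn_const.div (continuousOn_snd.pow 2) fun p hp => pow_ne_zero 2 (n2 _ hp.2))))
  · have d1 : DifferentiableOn ℂ (fun r => Nf (1 + u) r) Str :=
      hN.2.2.1 Str (fun _ => 1 + u) id an_open (differentiableOn_const _) differentiableOn_id
        fun r hr => ⟨(an_near (n1 _ hu)).1, hr⟩
    exact ((((((dl'.const_mul u).cexp.mul_const _).mul_const _).mul_const _).mul d1).mul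
      (((dl'.const_sub _).div_const _).add_const _))

theorem an_T3 (hP : St_PAR) (hJ : St_JB1) (hZ : St_ZB3) : DifferentiableOn ℂ T3 Str := by
  have n1 : ∀ s ∈ Metric.sphere (1 : ℂ) dl, ‖s - 1‖ = dl := fun s hs => by
    rwa [mem_sphere_iff_norm] at hs
  have ng : ∀ r ∈ Str, -r ∈ Str := fun r hr => by simpa [Str] using hr
  refine DifferentiableOn.const_mul (hP.2.1 (fun r s => coef s * Pif s r) Str 1 dl an_open dl_pos
    ?_ fun s hs => ?_) _
  · have c1 : ContinuousOn (fun p : ℂ × ℂ => coef p.2) (Str ×ˢ Metric.sphere (1 : ℂ) dl) :=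
      hZ.2.2.2.1.comp continuousOn_snd fun p hp => hp.2
    have c2 : ContinuousOn (fun p : ℂ × ℂ => Gamma p.2) (Str ×ˢ Metric.sphere (1 : ℂ) dl) :=
      fun p hp => (ContinuousAt.comp (f := fun p : ℂ × ℂ => p.2) (an_near (n1 _ hp.2)).2.2.1
        (by fun_prop)).continuousWithinAt
    have c3 : ContinuousOn (fun p : ℂ × ℂ => riemannZeta p.2) (Str ×ˢ Metric.sphere (1 : ℂ) dl) :=
      fun p hp => (ContinuousAt.comp (f := fun p : ℂ × ℂ => p.2) (an_near (n1 _ hp.2)).2.2.2
        (by fun_prop)).continuousWithinAt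
    have c4 : ContinuousOn (fun p : ℂ × ℂ => Jf p.2 p.1) (Str ×ˢ Metric.sphere (1 : ℂ) dl) :=
      hJ.2.1.comp (f := fun p : ℂ × ℂ => (p.2, p.1)) (by fun_prop)
        fun p hp => ⟨(an_near (n1 _ hp.2)).1, hp.1⟩
    have c4' : ContinuousOn (fun p : ℂ × ℂ => Jf p.2 (-p.1)) (Str ×ˢ Metric.sphere (1 : ℂ) dl) :=
      hJ.2.1.comp (f := fun p : ℂ × ℂ => (p.2, -p.1)) (by fun_prop)
        fun p hp => ⟨(an_near (n1 _ hp.2)).1, ng _ hp.1⟩
    have c5 : Continuous fun p : ℂ × ℂ => (2 * π : ℂ) ^ (-p.2) :=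
      Continuous.const_cpow (by fun_prop) (Or.inl an_tp)
    exact c1.mul (((c5.continuousOn.mul c2).mul (c3.pow 2)).mul (c4.add c4'))
  · have d1 : DifferentiableOn ℂ (fun r => Jf s r) Str :=
      hJ.2.2.1 Str (fun _ => s) id an_open (differentiableOn_const _) differentiableOn_id
        fun r hr => ⟨(an_near (n1 _ hs)).1, hr⟩
    have d2 : DifferentiableOn ℂ (fun r => Jf s (-r)) Str :=
      hJ.2.2.1 Str (fun _ => s) (fun r => -r) an_open (differentiableOn_const _)
        differentiableOn_id.neg fun r hr => ⟨(an_near (n1 _ hs)).1, ng _ hr⟩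
    exact ((d1.add d2).const_mul _).const_mul _

theorem t_an : T_AN := fun hP hJ hN h1 h3 =>
  ((an_FF hP hN h1).add (an_T2 hP hN)).sub (an_T3 hP hJ h3)

end

end Pool.Agent.Lib.E2
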