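import Pool.Agent.Lib.E2.Blue

namespace Pool.Agent.Lib.E2

noncomputable section

open Complex MeasureTheory Set Filter Topology
open scoped Real UpperHalfPlane MatrixGroups ComplexConjugate Modular

theorem asy_even (f : ℝ → ℂ) (he : ∀ t, f (-t) = f t) (hf : IntegrableOn f (Ioi 0)) :
    ∫ t, f t = 2 * ∫ t in Ioi (0 : ℝ), f t := by
  have h1 : IntegrableOn f (Ici (-0)) := by
    rw [neg_zero]
    exact Iff.mpr integrableOn_Ici_iff_integrableOn_Ioi hf
  have h2 := h1.comp_neg_Iic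
  simp only [he] at h2
  have h3 := integral_comp_neg_Ioi 0 f
  simp only [he, neg_zero] at h3
  rw [← intervalIntegral.integral_Iic_add_Ioi h2 hf, ← h3, two_mul]

theorem asy_poly (Q : Polynomial ℂ) : ∃ C : ℝ, 0 ≤ C ∧ ∀ z : ℂ, ‖Q.eval z‖ ≤ C * Real.exp ‖z‖ := by
  induction Q using Polynomial.induction_on' with
  | add p q hp hq =>
    obtain ⟨A, a0, a1⟩ := hp
    obtain ⟨B, b0, b1⟩ := hq
    refine ⟨A + B, by positivity, fun z => ?_⟩
    rw [Polynomial.eval_add, add_mul]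
    exact (norm_add_le _ _).trans (add_le_add (a1 z) (b1 z))
  | monomial n a =>
    refine ⟨‖a‖ * n.factorial, by positivity, fun z => ?_⟩
    have h1 := Real.pow_div_factorial_le_exp _ (norm_nonneg z) n
    rw [div_le_iff₀ (by positivity)] at h1
    rw [Polynomial.eval_monomial, norm_mul, norm_pow, mul_assoc, mul_comm (n.factorial : ℝ)]
    exact mul_le_mul_of_nonneg_left h1 (norm_nonneg _)

theorem asy_lip (Q : Polynomial ℂ) : ∃ C : ℝ, 0 ≤ C ∧ ∀ (R : ℝ) (a b : ℂ), ‖a‖ ≤ R → ‖b‖ ≤ R →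
    ‖Q.eval a - Q.eval b‖ ≤ C * Real.exp R * ‖a - b‖ := by
  obtain ⟨C, c0, hC⟩ := asy_poly Q.derivative
  refine ⟨C, c0, fun R a b ha hb => ?_⟩
  refine (convex_closedBall (0 : ℂ) R).norm_image_sub_le_of_norm_deriv_le
    (f := fun z => Q.eval z) (fun x _ => Q.differentiableAt) (fun x hx => ?_)
    (mem_closedBall_zero_iff.2 hb) (mem_closedBall_zero_iff.2 ha)
  rw [Polynomial.deriv]
  exact (hC x).trans (mul_le_mul_of_nonneg_left
    (Real.exp_le_exp.2 (mem_closedBall_zero_iff.1 hx)) c0)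

theorem asy_div {C e : ℝ} {k K : ℕ} (he : e ∈ Ioc (0 : ℝ) 1) (h : k ≤ K) :
    C / e ^ k ≤ |C| / e ^ K :=
  div_le_div₀ (abs_nonneg C) (le_abs_self C) (pow_pos he.1 K)
    (pow_le_pow_of_le_one he.1.le he.2 h)

theorem t_asy : T_ASY := by
  intro hNB hZ hDY hTH hI2 hI3 hFW hWP h9 P
  obtain ⟨C2, k2, h2⟩ := hI2
  obtain ⟨Q3, C3, k3, h3⟩ := hI3
  obtain ⟨C1, k1, h1⟩ := hFW
  obtain ⟨Q1, hQ1⟩ := (hWP P).1
  obtain ⟨CL, cl0, hL⟩ := asy_lip Q1
  have hz4 : Continuous z4 := hZ.2.2.2.2.2.2.2.2.2.2.2.1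
  have hz0 : ∀ t, 0 ≤ z4 t := hZ.2.2.2.2.2.2.2.2.2.2.2.2.1
  have hze : ∀ t, z4 (-t) = z4 t := hZ.2.2.2.2.2.2.2.2.2.2.2.2.2.1
  have hI := hDY.2.2.1 h9
  obtain ⟨I0, hI0⟩ : ∃ I0 : ℝ, I0 = ∫ t in Ioi (0 : ℝ),
    z4 t * (t ^ (-(1 / 2) : ℝ) * (1 + t) ^ (-(3 / 4) : ℝ)) := ⟨_, rfl⟩
  refine ⟨Polynomial.C (1 / π : ℂ) * Q1.comp (Polynomial.C (Real.log 2 : ℂ) - Polynomial.X) - Q3,
    |C1| * (3 * |I0|) + |CL * (2 * Real.exp 5)| + |C2| + |C3|, k1 + k2 + k3, fun e he r hr => ?_⟩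
  obtain ⟨t1, t2, t3, t4, t5, t6, t7, -⟩ := hTH e he r hr
  have hre : 0 < (th r).re := lt_of_lt_of_le (mul_pos (by linarith [he.1]) t3) t2
  obtain ⟨w1, w2⟩ := hQ1 (th r) hre
  have hsk : Continuous sk := by unfold sk; fun_prop
  have hN : Continuous fun t : ℝ => Nf (sk t) r :=
    hNB.2.1.comp_continuous (f := fun t : ℝ => (sk t, r)) (hsk.prodMk continuous_const)
      fun t => ⟨by simp [sk], t1⟩
  have hw : Continuous fun t : ℝ => (z4 t : ℂ) * wf r t := by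
    refine (continuous_ofReal.comp hz4).mul ((hN.mul (hN.comp continuous_neg)).div
      (by fun_prop) fun t => ?_)
    have := Real.cosh_pos (π * t)
    exact_mod_cast (by positivity : (2 * Real.cosh (π * t)) ≠ 0)
  obtain ⟨A, hA⟩ : ∃ A : ℝ, A = C1 / e ^ k1 * ‖th r‖ ^ (3 / 4 : ℝ) := ⟨_, rfl⟩
  have hb : ∀ᵐ t ∂(volume.restrict (Ioi (0 : ℝ))),
      ‖(z4 t : ℂ) * wf r t - (z4 t : ℂ) * (th r * Wf (th r * t))‖ ≤
        A * (z4 t * (t ^ (-(1 / 2) : ℝ) * (1 + t) ^ (-(3 / 4) : ℝ))) := by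
    filter_upwards [ae_restrict_mem measurableSet_Ioi] with t ht
    rw [← mul_sub, norm_mul, Complex.norm_of_nonneg (hz0 t), mul_left_comm, hA]
    exact mul_le_mul_of_nonneg_left (h1 e he r hr t ht) (hz0 t)
  have hd : IntegrableOn
      (fun t : ℝ => (z4 t : ℂ) * wf r t - (z4 t : ℂ) * (th r * Wf (th r * t))) (Ioi 0) :=
    Integrable.mono' (hI.const_mul A) (hw.aestronglyMeasurable.sub w1.aestronglyMeasurable) hb
  have hd2 := norm_integral_le_of_norm_le (hI.const_mul A) hb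
  rw [integral_const_mul, ← hI0] at hd2
  have hwi : IntegrableOn (fun t : ℝ => (z4 t : ℂ) * wf r t) (Ioi 0) := by
    have h4 := hd.add w1
    refine h4.congr (Eventually.of_forall fun t => ?_)
    simp
  have hev := asy_even (fun t : ℝ => (z4 t : ℂ) * wf r t) (fun t => by
    simp only [wf, hze, neg_neg, mul_neg, Real.cosh_neg, mul_comm (Nf (sk (-t)) r)]) hwi
  rw [integral_sub hwi w1, w2] at hd2
  have hpi : (π : ℂ) ≠ 0 := by exact_mod_cast Real.pi_ne_zero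
  have key : RR r + ET P (th r) / π - (Polynomial.C (1 / π : ℂ) *
      Q1.comp (Polynomial.C (Real.log 2 : ℂ) - Polynomial.X) - Q3).eval r =
      (1 / π : ℂ) * ((∫ t in Ioi (0 : ℝ), (z4 t : ℂ) * wf r t) -
        (-ET P (th r) + Q1.eval (log (th r)))) +
      (1 / π : ℂ) * (Q1.eval (log (th r)) - Q1.eval (Real.log 2 - r)) + T2 r -
        (T3 r - Q3.eval r) := by
    simp only [RR, FF, hev, Polynomial.eval_sub, Polynomial.eval_mul, Polynomial.eval_C,
      Polynomial.eval_comp, Polynomial.eval_X]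
    field_simp
    ring
  have hp1 : ‖(1 / π : ℂ)‖ ≤ 1 := by
    rw [norm_div, norm_one, Complex.norm_of_nonneg Real.pi_pos.le]
    exact div_le_one_of_le₀ (by linarith [Real.pi_gt_three]) Real.pi_pos.le
  obtain ⟨X, hX⟩ : ∃ X : ℝ, X = Real.exp (-(3 / 5) * r.re) := ⟨_, rfl⟩
  have hX0 : 0 < X := hX ▸ Real.exp_pos _
  have hr1 := hr.1
  have e1 : ‖th r‖ ^ (3 / 4 : ℝ) ≤ 3 * X := by
    refine (Real.rpow_le_rpow t3.le t6 (by norm_num)).trans ?_
    rw [Real.mul_rpow (by norm_num) (Real.exp_pos _).le, ← Real.exp_mul, hX]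
    refine mul_le_mul ?_ (Real.exp_le_exp.2 (by linarith)) (Real.exp_pos _).le (by norm_num)
    exact (Real.rpow_le_rpow_of_exponent_le (by norm_num) (by norm_num : (3 / 4 : ℝ) ≤ 1)).trans
      (Real.rpow_one 3).le
  have b1 : A * I0 ≤ |C1| * (3 * |I0|) / e ^ (k1 + k2 + k3) * X := by
    have a1 : C1 / e ^ k1 ≤ |C1| / e ^ (k1 + k2 + k3) := asy_div he (by omega)
    have a2 : 0 ≤ |C1| / e ^ (k1 + k2 + k3) := div_nonneg (abs_nonneg _) (pow_pos he.1 _).le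
    have a3 : A ≤ |C1| / e ^ (k1 + k2 + k3) * (3 * X) :=
      hA ▸ mul_le_mul a1 e1 (Real.rpow_nonneg t3.le _) a2
    have a4 : 0 ≤ I0 := hI0 ▸ setIntegral_nonneg measurableSet_Ioi fun t ht =>
      mul_nonneg (hz0 t) (mul_nonneg (Real.rpow_nonneg (le_of_lt ht) _)
        (Real.rpow_nonneg (by linarith [mem_Ioi.1 ht]) _))
    rw [abs_of_nonneg a4]
    refine (mul_le_mul_of_nonneg_right a3 a4).trans (le_of_eq ?_)
    ring
  have b2 : ‖Q1.eval (log (th r)) - Q1.eval (Real.log 2 - r)‖ ≤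
      |CL * (2 * Real.exp 5)| / e ^ (k1 + k2 + k3) * X := by
    have a1 : ‖(Real.log 2 : ℂ) - r‖ ≤ r.re + 3 := by
      refine (norm_sub_le _ _).trans ?_
      have a2 := Complex.norm_le_abs_re_add_abs_im r
      rw [abs_of_nonneg (by linarith), abs_of_nonneg hr.2.1] at a2
      rw [Complex.norm_of_nonneg (Real.log_nonneg one_le_two)]
      linarith [Real.log_two_lt_d9, hr.2.2, Real.pi_lt_four, he.1]
    have a2 : Real.exp (-2 * r.re) ≤ 1 := Real.exp_le_one_iff.2 (by linarith)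
    have a3 : ‖log (th r)‖ ≤ r.re + 5 := by
      have a4 := norm_le_norm_sub_add (log (th r)) ((Real.log 2 : ℂ) - r)
      linarith
    refine (hL (r.re + 5) _ _ a3 (by linarith)).trans ?_
    refine (mul_le_mul_of_nonneg_left t7 (by positivity)).trans ?_
    have a5 : CL * (2 * Real.exp 5) / e ^ 0 ≤ |CL * (2 * Real.exp 5)| / e ^ (k1 + k2 + k3) :=
      asy_div he (by omega)
    rw [pow_zero, div_one] at a5
    refine le_trans ?_ (mul_le_mul_of_nonneg_right a5 hX0.le)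
    have a6 : Real.exp (r.re + 5) * Real.exp (-2 * r.re) ≤ Real.exp 5 * X := by
      rw [hX, ← Real.exp_add, ← Real.exp_add]
      exact Real.exp_le_exp.2 (by linarith)
    nlinarith [mul_le_mul_of_nonneg_left a6 cl0]
  have b3 : ‖T2 r‖ ≤ |C2| / e ^ (k1 + k2 + k3) * X :=
    (h2 e he r hr).trans (by
      rw [← hX]; exact mul_le_mul_of_nonneg_right (asy_div he (by omega)) hX0.le)
  have b4 : ‖T3 r - Q3.eval r‖ ≤ |C3| / e ^ (k1 + k2 + k3) * X :=
    (h3 e he r hr).trans (by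
      rw [← hX]; exact mul_le_mul_of_nonneg_right (asy_div he (by omega)) hX0.le)
  rw [key, ← hX, add_div, add_div, add_div, add_mul, add_mul, add_mul]
  refine (norm_sub_le _ _).trans (add_le_add ((norm_add_le _ _).trans (add_le_add
    ((norm_add_le _ _).trans (add_le_add ?_ ?_)) b3)) b4)
  · rw [norm_mul]
    exact (mul_le_of_le_one_left (norm_nonneg _) hp1).trans (hd2.trans b1)
  · rw [norm_mul]
    exact (mul_le_of_le_one_left (norm_nonneg _) hp1).trans b2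

end

end Pool.Agent.Lib.E2
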