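import Pool.Agent.Lib.E2.Blue2

/-! The operators `Aop` and `Dop` preserve the sector asymptotics. -/

namespace Pool.Agent.Lib.E2

open Complex MeasureTheory Set Filter Topology
open scoped Real

theorem avg1_open : IsOpen RH := isOpen_lt continuous_const continuous_re

theorem avg1_ne {z : ℂ} (hz : z ∈ RH) : z ≠ 0 := fun h => by
  have : 0 < z.re := hz
  rw [h, zero_re] at this
  exact lt_irrefl _ this

theorem avg1_slit {z : ℂ} (hz : z ∈ RH) : z ∈ slitPlane := Or.inl hz

theorem avg1_main (Q : Polynomial ℂ) {z : ℂ} (hz : z ∈ RH) :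
    HasDerivAt (fun w => Q.eval (log w) / w)
      ((Q.derivative.eval (log z) * z⁻¹ * z - Q.eval (log z) * 1) / z ^ 2) z :=
  ((Q.hasDerivAt (log z)).comp z (hasDerivAt_log (avg1_slit hz))).fun_div (hasDerivAt_id z)
    (avg1_ne hz)

theorem avg1_rem {f : ℂ → ℂ} (hf : DifferentiableOn ℂ f RH) (Q : Polynomial ℂ) :
    DifferentiableOn ℂ (fun w => f w - Q.eval (log w) / w) RH :=
  hf.fun_sub fun _ hz => (avg1_main Q hz).differentiableAt.differentiableWithinAt

theorem avg1_int : Integrable fun a : ℝ => 1 / Real.cosh a := by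
  refine (integrable_inv_one_add_sq.const_mul 2).mono' (Continuous.aestronglyMeasurable ?_)
    (Eventually.of_forall fun a => ?_)
  · exact continuous_const.div Real.continuous_cosh fun a => (Real.cosh_pos a).ne'
  · have h1 := Real.cosh_pos a
    have h4 : 1 + a ^ 2 ≤ 2 * Real.cosh a := by
      have a3 := Real.cosh_two_mul (a / 2)
      have a4 := Real.cosh_sq (a / 2)
      have a5 : (a / 2) ^ 2 ≤ Real.sinh (a / 2) ^ 2 := by
        rw [sq_le_sq, Real.abs_sinh]
        exact Real.self_le_sinh_iff.2 (abs_nonneg _)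
      rw [show 2 * (a / 2) = a by ring] at a3
      linarith
    rw [Real.norm_of_nonneg (by positivity), ← div_eq_mul_inv,
      div_le_div_iff₀ h1 (by positivity)]
    linarith

theorem avg1_logpow (j : ℕ) :
    Integrable fun a : ℝ => ((Real.log (Real.cosh a) : ℂ)) ^ j / (Real.cosh a : ℂ) ^ 2 := by
  have hc : ∀ a : ℝ, (Real.cosh a : ℂ) ≠ 0 := fun a => ofReal_ne_zero.2 (Real.cosh_pos a).ne'
  refine (avg1_int.const_mul j.factorial).mono' (Continuous.aestronglyMeasurable ?_)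
    (Eventually.of_forall fun a => ?_)
  · refine Continuous.div (Continuous.pow (continuous_ofReal.comp ?_) j)
      ((continuous_ofReal.comp Real.continuous_cosh).pow 2) fun a => pow_ne_zero 2 (hc a)
    exact Real.continuous_cosh.log fun a => (Real.cosh_pos a).ne'
  · have h1 := Real.cosh_pos a
    have h2 : 0 ≤ Real.log (Real.cosh a) := Real.log_nonneg (Real.one_le_cosh a)
    have h3 := Real.pow_div_factorial_le_exp _ h2 j
    rw [Real.exp_log h1, div_le_iff₀ (by positivity)] at h3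
    rw [norm_div, norm_pow, norm_pow, norm_real, norm_real, Real.norm_of_nonneg h2,
      Real.norm_of_nonneg h1.le, div_le_iff₀ (by positivity)]
    refine h3.trans (le_of_eq ?_)
    field_simp

theorem avg1_poly (Q : Polynomial ℂ) : ∃ Q' : Polynomial ℂ, ∀ y : ℂ,
    Integrable (fun a : ℝ => Q.eval ((Real.log (Real.cosh a) : ℂ) + y) / (Real.cosh a : ℂ) ^ 2) ∧
    ∫ a : ℝ, Q.eval ((Real.log (Real.cosh a) : ℂ) + y) / (Real.cosh a : ℂ) ^ 2 = Q'.eval y := by
  refine ⟨∑ j ∈ Finset.range (Q.natDegree + 1), Polynomial.hasseDeriv j Q *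
    Polynomial.C (∫ a : ℝ, ((Real.log (Real.cosh a) : ℂ)) ^ j / (Real.cosh a : ℂ) ^ 2),
    fun y => ?_⟩
  have e : (fun a : ℝ => Q.eval ((Real.log (Real.cosh a) : ℂ) + y) / (Real.cosh a : ℂ) ^ 2) =
      fun a : ℝ => ∑ j ∈ Finset.range (Q.natDegree + 1), (Polynomial.hasseDeriv j Q).eval y *
        (((Real.log (Real.cosh a) : ℂ)) ^ j / (Real.cosh a : ℂ) ^ 2) := by
    funext a
    rw [← Polynomial.taylor_eval, Polynomial.eval_eq_sum_range, Polynomial.natDegree_taylor,
      Finset.sum_div]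
    refine Finset.sum_congr rfl fun j _ => ?_
    rw [Polynomial.taylor_coeff, mul_div_assoc]
  rw [e]
  refine ⟨integrable_finsetSum _ fun j _ => (avg1_logpow j).const_mul _, ?_⟩
  rw [integral_finsetSum _ fun j _ => (avg1_logpow j).const_mul _, Polynomial.eval_finsetSum]
  refine Finset.sum_congr rfl fun j _ => ?_
  rw [integral_const_mul, Polynomial.eval_mul, Polynomial.eval_C]

theorem avg1_mem {z : ℂ} (hz : z ∈ RH) (a : ℝ) : z * Real.cosh a ∈ RH := by
  show 0 < (z * Real.cosh a).re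
  rw [re_mul_ofReal]
  exact mul_pos hz (Real.cosh_pos a)

theorem avg1_bd {R : ℂ → ℂ} {C : ℝ} {k : ℕ} (hC : 0 ≤ C)
    (h : ∀ e ∈ Ioc (0 : ℝ) 1, ∀ z ∈ RH, e * ‖z‖ ≤ z.re → ‖R z‖ ≤ C / e ^ k * ‖z‖ ^ (-(1 / 2) : ℝ))
    {e : ℝ} (he : e ∈ Ioc (0 : ℝ) 1) {z : ℂ} (hz : z ∈ RH) (hez : e * ‖z‖ ≤ z.re) (a : ℝ) :
    ‖R (z * Real.cosh a) / Real.cosh a‖ ≤
      C / e ^ k * ‖z‖ ^ (-(1 / 2) : ℝ) * (1 / Real.cosh a) := by
  have h1 := Real.cosh_pos a
  have h0 := he.1
  have hn : ‖z * Real.cosh a‖ = ‖z‖ * Real.cosh a := by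
    rw [norm_mul, norm_real, Real.norm_of_nonneg h1.le]
  have h2 := h e he _ (avg1_mem hz a) (by
    rw [hn, re_mul_ofReal, ← mul_assoc]
    exact mul_le_mul_of_nonneg_right hez h1.le)
  have h3 : ‖z * Real.cosh a‖ ^ (-(1 / 2) : ℝ) ≤ ‖z‖ ^ (-(1 / 2) : ℝ) := by
    refine Real.rpow_le_rpow_of_nonpos (norm_pos_iff.2 (avg1_ne hz)) ?_ (by norm_num)
    rw [hn]
    exact le_mul_of_one_le_right (norm_nonneg _) (Real.one_le_cosh a)
  rw [norm_div, norm_real, Real.norm_of_nonneg h1.le, mul_one_div]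
  exact div_le_div_of_nonneg_right (h2.trans (mul_le_mul_of_nonneg_left h3 (by positivity))) h1.le

theorem avg1_cont {R : ℂ → ℂ} (hR : DifferentiableOn ℂ R RH) {z : ℂ} (hz : z ∈ RH) :
    Continuous fun a : ℝ => R (z * Real.cosh a) / Real.cosh a :=
  (hR.continuousOn.comp_continuous (by fun_prop) (avg1_mem hz)).div (by fun_prop)
    fun a => ofReal_ne_zero.2 (Real.cosh_pos a).ne'

theorem avg1_nonneg {R : ℂ → ℂ} {C : ℝ} {k : ℕ}
    (h : ∀ e ∈ Ioc (0 : ℝ) 1, ∀ z ∈ RH, e * ‖z‖ ≤ z.re → ‖R z‖ ≤ C / e ^ k * ‖z‖ ^ (-(1 / 2) : ℝ)) :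
    0 ≤ C := by
  have := h 1 ⟨one_pos, le_rfl⟩ 1 (show 0 < (1 : ℂ).re by simp) (by simp)
  simp only [one_pow, div_one, norm_one, Real.one_rpow, mul_one] at this
  exact (norm_nonneg _).trans this

theorem avg1_loc {z : ℂ} (hz : z ∈ RH) : ∃ e ∈ Ioc (0 : ℝ) 1, ∀ w : ℂ, ‖w - z‖ < z.re / 2 →
    e * ‖w‖ ≤ w.re ∧ z.re / 2 ≤ w.re := by
  have h0 : 0 < z.re := hz
  have h1 := re_le_norm z
  refine ⟨z.re / (4 * ‖z‖), ⟨div_pos h0 (by linarith), (div_le_one (by linarith)).2 (by linarith)⟩,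
    fun w hw => ?_⟩
  have h2 := (abs_re_le_norm (w - z)).trans hw.le
  rw [sub_re, abs_le] at h2
  have h3 := norm_sub_norm_le w z
  refine ⟨?_, by linarith [h2.1]⟩
  rw [div_mul_eq_mul_div, div_le_iff₀ (by linarith)]
  nlinarith [h2.1]

theorem avg1_aop (hP : St_PAR) {f : ℂ → ℂ} (hf : Sec f) : Sec (Aop f) := by
  obtain ⟨hd, Q, C, k, h⟩ := hf
  have hC := avg1_nonneg (R := fun w => f w - Q.eval (log w) / w) h
  have hR := avg1_rem hd Q
  obtain ⟨Q', hQ⟩ := avg1_poly Q
  have hi : ∀ z ∈ RH, Integrable fun a : ℝ =>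
      (fun w => f w - Q.eval (log w) / w) (z * Real.cosh a) / Real.cosh a := fun z hz => by
    obtain ⟨e, he, h1⟩ := avg1_loc hz
    exact (avg1_int.const_mul _).mono' (avg1_cont hR hz).aestronglyMeasurable
      (Eventually.of_forall (avg1_bd hC h he hz (h1 z (by
        rw [sub_self, norm_zero]; exact half_pos hz)).1))
  have key : ∀ z ∈ RH, Aop f z = Q'.eval (log z) / z +
      Aop (fun w => f w - Q.eval (log w) / w) z := fun z hz => by
    rw [← (hQ (log z)).2, ← integral_div, Aop, Aop,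
      ← integral_add ((hQ (log z)).1.div_const z) (hi z hz)]
    refine integral_congr_ae (Eventually.of_forall fun a => ?_)
    have h1 := Real.cosh_pos a
    have h2 : (Real.cosh a : ℂ) ≠ 0 := ofReal_ne_zero.2 h1.ne'
    have h3 := avg1_ne hz
    simp only []
    rw [log_mul_ofReal _ h1 _ h3]
    field_simp
    ring
  have hd' : DifferentiableOn ℂ (Aop fun w => f w - Q.eval (log w) / w) RH := by
    refine (hP.1 ℝ volume (fun z a => (fun w => f w - Q.eval (log w) / w) (z * Real.cosh a) /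
      Real.cosh a) RH avg1_open (fun z hz => (avg1_cont hR hz).aestronglyMeasurable)
      (Eventually.of_forall fun a => ?_) fun z hz => ?_).1
    · exact (hR.comp (differentiableOn_id.mul_const _) fun z hz => avg1_mem hz a).div_const _
    · obtain ⟨e, he, h1⟩ := avg1_loc hz
      have h0 : 0 < z.re := hz
      refine ⟨z.re / 2, by linarith, _,
        avg1_int.const_mul (C / e ^ k * (z.re / 2) ^ (-(1 / 2) : ℝ)),
        Eventually.of_forall fun a w hw hw' => (avg1_bd hC h he hw (h1 w hw').1 a).trans ?_⟩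
      have h2 := Real.cosh_pos a
      have h3 := he.1
      refine mul_le_mul_of_nonneg_right (mul_le_mul_of_nonneg_left ?_ (by positivity))
        (by positivity)
      exact Real.rpow_le_rpow_of_nonpos (by linarith) ((h1 w hw').2.trans (re_le_norm w))
        (by norm_num)
  refine ⟨DifferentiableOn.congr (DifferentiableOn.fun_add
    (fun _ hz => (avg1_main Q' hz).differentiableAt.differentiableWithinAt) hd') key,
    Q', C * ∫ a : ℝ, 1 / Real.cosh a, k, fun e he z hz hez => ?_⟩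
  rw [key z hz, add_sub_cancel_left, Aop]
  refine (norm_integral_le_of_norm_le (avg1_int.const_mul _)
    (Eventually.of_forall (avg1_bd hC h he hz hez))).trans (le_of_eq ?_)
  rw [integral_const_mul]
  ring

theorem avg1_dop {f : ℂ → ℂ} (hf : Sec f) : Sec (Dop f) := by
  obtain ⟨hd, Q, C, k, h⟩ := hf
  have hC := avg1_nonneg (R := fun w => f w - Q.eval (log w) / w) h
  have hR := avg1_rem hd Q
  refine ⟨differentiableOn_id.neg.mul (hd.deriv avg1_open), Q - Q.derivative, 8 * 2 ^ k * C, k + 1,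
    fun e he z hz hez => ?_⟩
  have h0 := he.1
  have h1 := he.2
  have z0 := avg1_ne hz
  have zp : 0 < ‖z‖ := norm_pos_iff.2 z0
  have e1 : Dop f z - (Q - Q.derivative).eval (log z) / z =
      -z * deriv (fun w => f w - Q.eval (log w) / w) z := by
    rw [((hd.differentiableAt (avg1_open.mem_nhds hz)).hasDerivAt.fun_sub (avg1_main Q hz)).deriv,
      Dop, Polynomial.eval_sub]
    field_simp
    ring
  have hb : ∀ w ∈ Metric.closedBall z (e * ‖z‖ / 4),
      w ∈ RH ∧ e / 2 * ‖w‖ ≤ w.re ∧ ‖z‖ / 4 ≤ ‖w‖ := fun w hw => by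
    have a1 := mem_closedBall_iff_norm.1 hw
    have a2 := (abs_re_le_norm (w - z)).trans a1
    rw [sub_re, abs_le] at a2
    have a3 := norm_sub_norm_le w z
    have a4 := norm_sub_norm_le z w
    rw [norm_sub_rev] at a4
    have a5 : e * ‖z‖ ≤ ‖z‖ := mul_le_of_le_one_left zp.le h1
    have a6 : 0 < e * ‖z‖ := by positivity
    refine ⟨show 0 < w.re by linarith [a2.1], ?_, by linarith⟩
    have : e * ‖w‖ ≤ e * (5 / 4 * ‖z‖) := mul_le_mul_of_nonneg_left (by linarith) h0.le
    linarith [a2.1]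
  have hρ : 0 < e * ‖z‖ / 4 := by positivity
  have a1 := norm_deriv_le_of_forall_mem_sphere_norm_le (f := fun w => f w - Q.eval (log w) / w)
    (C := C / (e / 2) ^ k * (2 * ‖z‖ ^ (-(1 / 2) : ℝ))) hρ
    (DifferentiableOn.diffContOnCl (by
      rw [closure_ball z hρ.ne']
      exact hR.mono fun w hw => (hb w hw).1)) fun w hw => by
      obtain ⟨b1, b2, b3⟩ := hb w (Metric.sphere_subset_closedBall hw)
      refine (h (e / 2) ⟨by linarith, by linarith⟩ w b1 b2).trans
        (mul_le_mul_of_nonneg_left ?_ (by positivity))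
      refine (Real.rpow_le_rpow_of_nonpos (by positivity) b3 (by norm_num)).trans (le_of_eq ?_)
      rw [Real.div_rpow zp.le (by norm_num), show (4 : ℝ) = 2 ^ (2 : ℝ) by norm_num,
        ← Real.rpow_mul (by norm_num)]
      norm_num
      ring
  rw [e1, norm_mul, norm_neg]
  refine (mul_le_mul_of_nonneg_left a1 zp.le).trans (le_of_eq ?_)
  rw [div_pow]
  field_simp
  ring

theorem t_avg1 : T_AVG1 := by
  intro hP f hf
  refine ⟨avg1_aop hP hf, avg1_dop hf, fun g c hg => ?_⟩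
  obtain ⟨hd, Q, C, k, h⟩ := hf
  refine ⟨(hd.const_mul c).congr hg, Polynomial.C c * Q, ‖c‖ * C, k, fun e he z hz hez => ?_⟩
  rw [hg z hz, Polynomial.eval_mul, Polynomial.eval_C, mul_div_assoc, ← mul_sub, norm_mul,
    mul_div_assoc, mul_assoc]
  exact mul_le_mul_of_nonneg_left (h e he z hz hez) (norm_nonneg c)

end Pool.Agent.Lib.E2
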