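import Pool.Agent.Lib.E2.Blue2

/-! Block AVG2: inversion of the averaging operator. -/

namespace Pool.Agent.Lib.E2

noncomputable section

open Complex MeasureTheory Set Filter Topology
open scoped Real

namespace AVG2

lemma open_RH : IsOpen RH := isOpen_lt continuous_const continuous_re

lemma mul_RH {z : ℂ} (hz : z ∈ RH) {t : ℝ} (ht : 0 < t) : z * t ∈ RH := by
  show 0 < (z * t).re
  rw [re_mul_ofReal]
  exact mul_pos hz ht

lemma int_cosh (hB : St_BET) : Integrable fun a : ℝ => Real.cosh a ^ (-(1 / 2) : ℝ) := by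
  refine (hB.1 (1 / 4) (by norm_num)).2.2.2.2.2.1.norm.congr (ae_of_all _ fun a => ?_)
  beta_reduce
  rw [norm_cpow_eq_rpow_re_of_pos (Real.cosh_pos a)]
  norm_num

/-- bound near a ray -/
lemma loc {f : ℂ → ℂ} (hf : Dec f) {z : ℂ} (hz : z ∈ RH) : ∃ K : ℝ, 0 ≤ K ∧ ∀ t : ℝ, 1 ≤ t →
    ∀ v : ℂ, ‖v - z * t‖ ≤ z.re / 2 * t → v ∈ RH ∧ ‖f v‖ ≤ K * t ^ (-(1 / 2) : ℝ) := by
  have x0 : 0 < z.re := hz
  have xn : z.re ≤ ‖z‖ := re_le_norm z
  have n0 : 0 < ‖z‖ := x0.trans_le xn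
  obtain ⟨C, hC⟩ := hf.2 (z.re / (4 * ‖z‖)) (z.re / 2) (by positivity) (by positivity)
  refine ⟨|C| * (z.re / 2) ^ (-(1 / 2) : ℝ), by positivity, fun t ht v hv => ?_⟩
  have t0 : 0 < t := by linarith
  have h1 : z.re / 2 * t ≤ v.re := by
    have k := (abs_le.1 ((abs_re_le_norm (v - z * t)).trans hv)).1
    rw [sub_re, re_mul_ofReal] at k
    linarith
  have h2 : ‖v‖ ≤ 2 * ‖z‖ * t := by
    have k : ‖v‖ ≤ ‖v - z * t‖ + ‖z * t‖ := by simpa using norm_add_le (v - z * t) (z * t)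
    rw [norm_mul, norm_real, Real.norm_of_nonneg t0.le] at k
    nlinarith
  have h3 : 0 < z.re / 2 * t := by positivity
  have h4 : z.re / 2 * t ≤ ‖v‖ := h1.trans (re_le_norm v)
  refine ⟨h3.trans_le h1, (hC v ?_ (le_trans (by nlinarith) h4)).trans ?_⟩
  · refine le_trans ?_ h1
    rw [div_mul_eq_mul_div, div_le_iff₀ (by positivity)]
    nlinarith
  · rw [mul_assoc, ← Real.mul_rpow (by positivity) t0.le]
    exact mul_le_mul (le_abs_self C) (Real.rpow_le_rpow_of_nonpos h3 h4 (by norm_num))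
      (by positivity) (abs_nonneg C)

lemma ray {f : ℂ → ℂ} (hf : Dec f) {z : ℂ} (hz : z ∈ RH) : ∃ K : ℝ, 0 ≤ K ∧ ∀ t : ℝ, 1 ≤ t →
    ‖deriv f (z * t)‖ ≤ K * t ^ (-(3 / 2) : ℝ) := by
  have x0 : 0 < z.re := hz
  obtain ⟨K, K0, hK⟩ := loc hf hz
  refine ⟨K / (z.re / 2), by positivity, fun t ht => ?_⟩
  have t0 : 0 < t := by linarith
  have h := norm_deriv_le_of_forall_mem_sphere_norm_le (c := z * t) (R := z.re / 2 * t) (f := f)
    (C := K * t ^ (-(1 / 2) : ℝ)) (by positivity)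
    (DifferentiableOn.diffContOnCl (hf.1.mono fun v hv =>
      (hK t ht v (mem_closedBall_iff_norm.1 (Metric.closure_ball_subset_closedBall hv))).1))
    fun v hv => (hK t ht v (mem_sphere_iff_norm.1 hv).le).2
  refine h.trans (le_of_eq ?_)
  rw [show (-(3 / 2) : ℝ) = -(1 / 2) - 1 by norm_num, Real.rpow_sub_one t0.ne']
  field_simp

/-- weighted averages -/
lemma avg (hP : St_PAR) (hB : St_BET) {f : ℂ → ℂ} (hf : Dec f) {W : ℝ → ℂ} (hW : Continuous W)
    (hW1 : ∀ a, ‖W a‖ ≤ 1) : Dec (fun z => ∫ a : ℝ, f (z * Real.cosh a) * W a) ∧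
    ∀ z ∈ RH, deriv (fun z => ∫ a : ℝ, f (z * Real.cosh a) * W a) z =
      ∫ a : ℝ, deriv f (z * Real.cosh a) * Real.cosh a * W a := by
  have hI := int_cosh hB
  have hd : ∀ (a : ℝ), ∀ z ∈ RH, HasDerivAt (fun z => f (z * Real.cosh a) * W a)
      (deriv f (z * Real.cosh a) * Real.cosh a * W a) z := fun a z hz =>
    (((hf.1.differentiableAt (open_RH.mem_nhds (mul_RH hz (Real.cosh_pos a)))).hasDerivAt.comp z
      (hasDerivAt_mul_const (Real.cosh a : ℂ)))).mul_const (W a)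
  obtain ⟨h1, h2⟩ := hP.1 ℝ volume (fun z a => f (z * Real.cosh a) * W a) RH open_RH
    (fun z hz => ((hf.1.continuousOn.comp_continuous (by fun_prop)
      fun a => mul_RH hz (Real.cosh_pos a)).mul hW).aestronglyMeasurable)
    (ae_of_all _ fun a z hz => (hd a z hz).differentiableAt.differentiableWithinAt)
    fun z hz => by
      obtain ⟨K, K0, hK⟩ := loc hf hz
      have x0 : 0 < z.re := hz
      refine ⟨z.re / 2, by positivity, _, hI.const_mul K, ae_of_all _ fun a w _ hw => ?_⟩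
      rw [norm_mul]
      refine (mul_le_of_le_one_right (norm_nonneg _) (hW1 a)).trans
        (hK _ (Real.one_le_cosh a) _ ?_).2
      rw [← sub_mul, norm_mul, norm_real, Real.norm_of_nonneg (Real.cosh_pos a).le]
      exact mul_le_mul_of_nonneg_right hw.le (Real.cosh_pos a).le
  refine ⟨⟨h1, fun e d he hd0 => ?_⟩, fun z hz => (h2 z hz).2.trans ?_⟩
  · obtain ⟨C, hC⟩ := hf.2 e d he hd0
    refine ⟨C * ∫ a : ℝ, Real.cosh a ^ (-(1 / 2) : ℝ), fun z h3 h4 => ?_⟩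
    rw [mul_right_comm, ← integral_const_mul]
    refine norm_integral_le_of_norm_le (hI.const_mul _) (ae_of_all _ fun a => ?_)
    have c1 := Real.one_le_cosh a
    have c0 := Real.cosh_pos a
    have e1 : ‖z * Real.cosh a‖ = ‖z‖ * Real.cosh a := by
      rw [norm_mul, norm_real, Real.norm_of_nonneg c0.le]
    rw [norm_mul]
    refine (mul_le_of_le_one_right (norm_nonneg _) (hW1 a)).trans ((hC _ ?_ ?_).trans (le_of_eq ?_))
    · rw [e1, re_mul_ofReal, ← mul_assoc]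
      exact mul_le_mul_of_nonneg_right h3 c0.le
    · rw [e1]
      nlinarith
    · rw [e1, Real.mul_rpow (norm_nonneg _) c0.le, mul_assoc]
  · exact integral_congr_ae (ae_of_all _ fun a => (hd a z hz).deriv)

/-- Fermi coordinates -/
def Φ (p : ℝ × ℝ) : ℝ × ℝ := (Real.sinh p.1 * Real.cosh p.2, Real.sinh p.2)

def DΦ (p : ℝ × ℝ) : ℝ × ℝ →L[ℝ] ℝ × ℝ :=
  (Matrix.toLin (.finTwoProd ℝ) (.finTwoProd ℝ)
    !![Real.cosh p.1 * Real.cosh p.2, Real.sinh p.1 * Real.sinh p.2;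
      0, Real.cosh p.2]).toContinuousLinearMap

lemma hasF (p : ℝ × ℝ) : HasFDerivAt Φ (DΦ p) p := by
  have h1 := ((Real.hasDerivAt_sinh p.1).comp_hasFDerivAt p (hasFDerivAt_fst (𝕜 := ℝ))).mul
    ((Real.hasDerivAt_cosh p.2).comp_hasFDerivAt p (hasFDerivAt_snd (𝕜 := ℝ)))
  have h2 := (Real.hasDerivAt_sinh p.2).comp_hasFDerivAt p (hasFDerivAt_snd (𝕜 := ℝ))
  refine (h1.prodMk h2).congr_fderiv ?_
  unfold DΦ
  rw [Matrix.toLin_finTwoProd_toContinuousLinearMap]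
  ext <;> simp [mul_comm]

lemma det_D (p : ℝ × ℝ) : (DΦ p).det = Real.cosh p.1 * Real.cosh p.2 * Real.cosh p.2 := by
  unfold DΦ
  simp only [LinearMap.det_toContinuousLinearMap, LinearMap.det_toLin, Matrix.det_fin_two_of]
  ring

lemma inj : Function.Injective Φ := fun p q h => by
  have h2 : p.2 = q.2 := Real.sinh_injective (congrArg Prod.snd h)
  have h1 : Real.sinh p.1 * Real.cosh p.2 = Real.sinh q.1 * Real.cosh q.2 := congrArg Prod.fst h
  rw [h2] at h1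
  exact Prod.ext (Real.sinh_injective (mul_right_cancel₀ (Real.cosh_pos _).ne' h1)) h2

lemma surj : Φ '' univ = univ := by
  refine eq_univ_of_forall fun q => ⟨(Real.arsinh (q.1 / Real.cosh (Real.arsinh q.2)),
    Real.arsinh q.2), mem_univ _, ?_⟩
  simp only [Φ, Real.sinh_arsinh, div_mul_cancel₀ _ (Real.cosh_pos _).ne']

lemma hyp (hB : St_BET) {G : ℝ → ℂ} (hG : ContinuousOn G (Ici 1)) {K : ℝ} (K0 : 0 ≤ K)
    (hK : ∀ t, 1 ≤ t → ‖G t‖ ≤ K * t ^ (-(3 / 2) : ℝ)) :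
    ∫ a : ℝ, ∫ b : ℝ, G (Real.cosh a * Real.cosh b) * Real.cosh b =
      (∫ ρ in Ioi (0 : ℝ), G √(1 + ρ ^ 2) * ((ρ / √(1 + ρ ^ 2) : ℝ) : ℂ)) * (2 * π) := by
  have hI := int_cosh hB
  have c1 : ∀ p : ℝ × ℝ, 1 ≤ Real.cosh p.1 * Real.cosh p.2 := fun p =>
    one_le_mul_of_one_le_of_one_le (Real.one_le_cosh _) (Real.one_le_cosh _)
  have h1 : Integrable (fun p : ℝ × ℝ => G (Real.cosh p.1 * Real.cosh p.2) * Real.cosh p.2)
      (volume.prod volume) := by
    refine ((hI.mul_prod hI).const_mul K).mono'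
      ((hG.comp_continuous (by fun_prop) c1).mul (by fun_prop)).aestronglyMeasurable
      (ae_of_all _ fun p => ?_)
    have a0 := Real.cosh_pos p.1
    have b0 := Real.cosh_pos p.2
    rw [norm_mul, norm_real, Real.norm_of_nonneg b0.le]
    refine (mul_le_mul_of_nonneg_right (hK _ (c1 p)) b0.le).trans ?_
    rw [Real.mul_rpow a0.le b0.le, mul_assoc, mul_assoc, ← Real.rpow_add_one b0.ne',
      show (-(3 / 2) + 1 : ℝ) = -(1 / 2) by norm_num]
    refine mul_le_mul_of_nonneg_left (mul_le_mul_of_nonneg_right ?_ (by positivity)) K0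
    exact Real.rpow_le_rpow_of_exponent_le (Real.one_le_cosh _) (by norm_num)
  have h2 := integral_image_eq_integral_abs_det_fderiv_smul volume MeasurableSet.univ
    (fun p _ => (hasF p).hasFDerivWithinAt) inj.injOn
    fun q : ℝ × ℝ => G √(1 + (q.1 ^ 2 + q.2 ^ 2)) * ((1 / √(1 + (q.1 ^ 2 + q.2 ^ 2)) : ℝ) : ℂ)
  rw [surj, Measure.restrict_univ, ← integral_comp_polarCoord_symm] at h2
  rw [← integral_prod _ h1, ← Measure.volume_eq_prod]
  calc _ = _ := integral_congr_ae (ae_of_all _ fun p => ?_)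
    _ = _ := h2.symm
    _ = ∫ p in Ioi (0 : ℝ) ×ˢ Ioo (-π) π,
        (G √(1 + p.1 ^ 2) * ((p.1 / √(1 + p.1 ^ 2) : ℝ) : ℂ)) * (fun _ => (1 : ℂ)) p.2 :=
      integral_congr_ae (ae_of_all _ fun p => ?_)
    _ = _ := ?_
  · have a0 := Real.cosh_pos p.1
    have b0 := Real.cosh_pos p.2
    have e : √(1 + ((Φ p).1 ^ 2 + (Φ p).2 ^ 2)) = Real.cosh p.1 * Real.cosh p.2 := by
      rw [Real.sqrt_eq_iff_mul_self_eq (by positivity) (by positivity)]
      simp only [Φ]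
      linear_combination (-(Real.cosh p.2 ^ 2)) * Real.cosh_sq p.1 - Real.cosh_sq p.2
    rw [e, det_D, abs_of_pos (by positivity), real_smul, mul_left_comm, ← ofReal_mul]
    congr 2
    field_simp
  · have e : (polarCoord.symm p).1 ^ 2 + (polarCoord.symm p).2 ^ 2 = p.1 ^ 2 := by
      simp only [polarCoord_symm_apply]
      linear_combination p.1 ^ 2 * Real.cos_sq_add_sin_sq p.2
    beta_reduce
    rw [e, real_smul, mul_left_comm, ← ofReal_mul, mul_one, mul_one_div]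
  · rw [Measure.volume_eq_prod, setIntegral_prod_mul
      (fun ρ : ℝ => G √(1 + ρ ^ 2) * ((ρ / √(1 + ρ ^ 2) : ℝ) : ℂ)) fun _ : ℝ => (1 : ℂ)]
    congr 1
    rw [setIntegral_const, Real.volume_real_Ioo_of_le (by linarith [Real.pi_pos]), real_smul]
    push_cast
    ring

lemma ftc {f : ℂ → ℂ} (hf : Dec f) {z : ℂ} (hz : z ∈ RH) :
    z * ∫ ρ in Ioi (0 : ℝ), deriv f (z * √(1 + ρ ^ 2)) * ((ρ / √(1 + ρ ^ 2) : ℝ) : ℂ) = -f z := by
  obtain ⟨K, K0, hK⟩ := ray hf hz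
  obtain ⟨L, L0, hL⟩ := loc hf hz
  have x0 : 0 < z.re := hz
  have s1 : ∀ ρ : ℝ, 1 ≤ √(1 + ρ ^ 2) := fun ρ => Real.one_le_sqrt.2 (by nlinarith [sq_nonneg ρ])
  have s0 : ∀ ρ : ℝ, 0 < √(1 + ρ ^ 2) := fun ρ => one_pos.trans_le (s1 ρ)
  have hd : ∀ ρ : ℝ, HasDerivAt (fun ρ : ℝ => f (z * √(1 + ρ ^ 2)))
      (z * (deriv f (z * √(1 + ρ ^ 2)) * ((ρ / √(1 + ρ ^ 2) : ℝ) : ℂ))) ρ := fun ρ => by
    have h1 : HasDerivAt (fun ρ : ℝ => √(1 + ρ ^ 2)) (ρ / √(1 + ρ ^ 2)) ρ := by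
      refine (((hasDerivAt_pow 2 ρ).const_add 1).sqrt (by positivity)).congr_deriv ?_
      have := (s0 ρ).ne'
      field_simp
      norm_num
    have h2 := (hf.1.differentiableAt (open_RH.mem_nhds (mul_RH hz (s0 ρ)))).hasDerivAt
    refine (h2.scomp ρ (h1.ofReal_comp.const_mul z)).congr_deriv ?_
    rw [smul_eq_mul]
    ring
  have hI : Integrable fun ρ : ℝ =>
      deriv f (z * √(1 + ρ ^ 2)) * ((ρ / √(1 + ρ ^ 2) : ℝ) : ℂ) := by
    refine ((integrable_rpow_neg_one_add_norm_sq (E := ℝ) (μ := volume) (r := 3 / 2)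
      (by simp; norm_num)).const_mul K).mono' (Continuous.aestronglyMeasurable ?_)
      (ae_of_all _ fun ρ => ?_)
    · refine ((hf.1.deriv open_RH).continuousOn.comp_continuous (by fun_prop)
        fun ρ => mul_RH hz (s0 ρ)).mul (continuous_ofReal.comp ?_)
      exact continuous_id.div (by fun_prop) fun ρ => (s0 ρ).ne'
    · have k : ‖((ρ / √(1 + ρ ^ 2) : ℝ) : ℂ)‖ ≤ 1 := by
        rw [norm_real, norm_div, Real.norm_of_nonneg (s0 ρ).le, div_le_one (s0 ρ)]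
        exact Real.abs_le_sqrt (by linarith)
      rw [norm_mul]
      refine (mul_le_of_le_one_right (norm_nonneg _) k).trans ((hK _ (s1 ρ)).trans (le_of_eq ?_))
      rw [Real.sqrt_eq_rpow, ← Real.rpow_mul (by positivity), Real.norm_eq_abs, sq_abs]
      norm_num
  have hT : Tendsto (fun ρ : ℝ => f (z * √(1 + ρ ^ 2))) atTop (𝓝 0) := by
    have t1 : Tendsto (fun ρ : ℝ => √(1 + ρ ^ 2)) atTop atTop :=
      Real.tendsto_sqrt_atTop.comp (tendsto_atTop_add_const_left _ _ (tendsto_pow_atTop two_ne_zero))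
    have t2 := ((tendsto_rpow_neg_atTop (y := 1 / 2) (by norm_num)).comp t1).const_mul L
    rw [mul_zero] at t2
    exact squeeze_zero_norm (fun ρ => (hL _ (s1 ρ) _ (by
      rw [sub_self, norm_zero]
      exact mul_nonneg (by positivity) (s0 ρ).le)).2) t2
  rw [← integral_const_mul, integral_Ioi_of_hasDerivAt_of_tendsto' (fun ρ _ => hd ρ)
    (hI.const_mul z).integrableOn hT]
  simp

end AVG2

open AVG2

theorem t_avg2 : T_AVG2 := by
  intro hP hB f hf
  have e1 : Bop f = fun z => ∫ a : ℝ, f (z * Real.cosh a) * (fun _ => (1 : ℂ)) a := by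
    funext z
    simp only [Bop, mul_one]
  obtain ⟨h1, h2⟩ := avg hP hB hf (W := fun _ => 1) continuous_const fun _ => norm_one.le
  rw [← e1] at h1 h2
  refine ⟨h1, fun z hz => ?_⟩
  have c0 : ∀ a : ℝ, (Real.cosh a : ℂ) ≠ 0 := fun a => ofReal_ne_zero.2 (Real.cosh_pos a).ne'
  have e2 : Aop (Bop f) = fun z => ∫ a : ℝ, Bop f (z * Real.cosh a) *
      (fun a : ℝ => (Real.cosh a : ℂ)⁻¹) a := by
    funext z
    simp only [Aop, div_eq_mul_inv]
  obtain ⟨-, h3⟩ := avg hP hB h1 (W := fun a : ℝ => (Real.cosh a : ℂ)⁻¹)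
    (Continuous.inv₀ (by fun_prop) c0) fun a => by
      rw [norm_inv, norm_real, Real.norm_of_nonneg (Real.cosh_pos a).le]
      exact inv_le_one_of_one_le₀ (Real.one_le_cosh a)
  obtain ⟨K, K0, hK⟩ := AVG2.ray hf hz
  have h4 := hyp hB (G := fun t => deriv f (z * t)) ((hf.1.deriv open_RH).continuousOn.comp
    (by fun_prop) fun t ht => mul_RH hz (one_pos.trans_le ht)) K0 hK
  have h5 : deriv (Aop (Bop f)) z = ∫ a : ℝ, ∫ b : ℝ,
      deriv f (z * ((Real.cosh a * Real.cosh b : ℝ) : ℂ)) * Real.cosh b := by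
    rw [e2, h3 z hz]
    refine integral_congr_ae (ae_of_all _ fun a => ?_)
    beta_reduce
    rw [mul_inv_cancel_right₀ (c0 a), h2 _ (mul_RH hz (Real.cosh_pos a))]
    simp only [mul_one, ofReal_mul, mul_assoc]
  rw [Dop, h5, h4]
  linear_combination (-(2 * π : ℂ)) * ftc hf hz

end

end Pool.Agent.Lib.E2
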