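import Pool.Agent.Lib.E2.Blue2

namespace Pool.Agent.Lib.E2

noncomputable section

open Complex MeasureTheory Set Filter Topology
open scoped Real

namespace AVG3

theorem polyK {x : ℝ} (hx : 0 < x) : ∃ K : ℝ, 0 ≤ K ∧ ∀ t : ℝ, 0 ≤ t →
    (1 + t) ^ 2 ≤ K * Real.exp (x * t) := by
  refine ⟨(1 + 2 / x) ^ 2, by positivity, fun t ht => ?_⟩
  have h1 : Real.exp (x * t) = Real.exp (x * t / 2) ^ 2 := by
    rw [← Real.exp_nat_mul]; congr 1; push_cast; ring
  have h2 := Real.add_one_le_exp (x * t / 2)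
  have h3 : 1 + t ≤ (1 + 2 / x) * (x * t / 2 + 1) := by
    have : (1 + 2 / x) * (x * t / 2 + 1) = 1 + t + (x * t / 2 + 2 / x) := by field_simp; ring
    rw [this]
    have : 0 ≤ x * t / 2 + 2 / x := by positivity
    linarith
  rw [h1, ← mul_pow]
  exact pow_le_pow_left₀ (by linarith) (h3.trans (by gcongr)) 2

def lt (w : ℂ) (t : ℝ) : ℂ := (z4 t : ℂ) * exp (-2 * w * t)

theorem ptw (hZ : St_ZB1) {x : ℝ} (hx : 0 < x) : ∃ K : ℝ, 0 ≤ K ∧ ∀ w : ℂ, x ≤ w.re →
    ∀ t : ℝ, 0 < t → ‖lt w t‖ ≤ K * Real.exp (-w.re * t) := by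
  obtain ⟨-, -, -, -, -, -, -, -, -, -, -, -, h0, -, -, C, hC⟩ := hZ
  obtain ⟨K, K0, hK⟩ := polyK hx
  have C0 : 0 ≤ C := by simpa using (h0 0).trans (hC 0)
  refine ⟨C * K, by positivity, fun w hw t ht => ?_⟩
  have h1 := hC t
  rw [abs_of_pos ht] at h1
  have h2 : (-2 * w * t : ℂ).re = -w.re * t + -(w.re * t) := by simp; ring
  rw [lt, norm_mul, norm_real, Real.norm_of_nonneg (h0 t), norm_exp, h2, Real.exp_add]
  have h3 : z4 t ≤ C * K * Real.exp (w.re * t) := by
    refine h1.trans ?_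
    rw [mul_assoc]
    exact mul_le_mul_of_nonneg_left ((hK t ht.le).trans (by gcongr)) C0
  calc _ ≤ C * K * Real.exp (w.re * t) * (Real.exp (-w.re * t) * Real.exp (-(w.re * t))) := by
        gcongr
    _ = _ := by rw [Real.exp_neg (w.re * t)]; field_simp

theorem lt_cont (hZ : St_ZB1) : Continuous fun p : ℂ × ℝ => lt p.1 p.2 := by
  have := hZ.2.2.2.2.2.2.2.2.2.2.2.1
  unfold lt; fun_prop

theorem bnd (hZ : St_ZB1) {x : ℝ} (hx : 0 < x) : ∃ K : ℝ, 0 ≤ K ∧ ∀ w : ℂ, x ≤ w.re →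
    IntegrableOn (lt w) (Ioi 0) ∧ ∫ t in Ioi (0 : ℝ), ‖lt w t‖ ≤ K / w.re := by
  obtain ⟨K, K0, hK⟩ := ptw hZ hx
  refine ⟨K, K0, fun w hw => ?_⟩
  have w0 : 0 < w.re := hx.trans_le hw
  have i1 : IntegrableOn (fun t => K * Real.exp (-w.re * t)) (Ioi 0) :=
    (exp_neg_integrableOn_Ioi 0 w0).const_mul K
  have le : ∀ᵐ t ∂(volume.restrict (Ioi (0 : ℝ))), ‖lt w t‖ ≤ K * Real.exp (-w.re * t) :=
    (ae_restrict_mem measurableSet_Ioi).mono fun t ht => hK w hw t ht
  have i2 : IntegrableOn (lt w) (Ioi 0) :=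
    i1.mono' ((lt_cont hZ).comp (Continuous.prodMk_right w)).aestronglyMeasurable le
  refine ⟨i2, (integral_mono_ae i2.norm i1 le).trans (le_of_eq ?_)⟩
  rw [integral_const_mul, integral_exp_mul_Ioi (by linarith)]
  simp [div_eq_mul_inv]

theorem dec (hP : St_PAR) (hZ : St_ZB1) : Dec Lf := by
  have hopen : IsOpen RH := isOpen_lt continuous_const continuous_re
  refine ⟨(hP.1 ℝ (volume.restrict (Ioi 0)) lt RH hopen (fun z _ =>
    ((lt_cont hZ).comp (Continuous.prodMk_right z)).aestronglyMeasurable)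
    (Eventually.of_forall fun t => Differentiable.differentiableOn (by unfold lt; fun_prop))
    fun z hz => ?_).1, fun e d he hd => ?_⟩
  · have hz' : 0 < z.re / 2 := half_pos hz
    obtain ⟨K, K0, hK⟩ := ptw hZ hz'
    refine ⟨z.re / 2, hz', fun t => K * Real.exp (-(z.re / 2) * t),
      (exp_neg_integrableOn_Ioi 0 hz').const_mul K,
      (ae_restrict_mem measurableSet_Ioi).mono fun t ht w _ hw => ?_⟩
    have h1 : z.re / 2 ≤ w.re := by
      have := (abs_le.1 ((abs_re_le_norm (w - z)).trans hw.le)).1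
      rw [sub_re] at this; linarith
    refine (hK w h1 t ht).trans ?_
    have : (0 : ℝ) < t := ht
    exact mul_le_mul_of_nonneg_left (Real.exp_le_exp.2 (by nlinarith)) K0
  · obtain ⟨K, K0, hK⟩ := bnd hZ (mul_pos he hd)
    refine ⟨K / e * d ^ (-(1 / 2) : ℝ), fun z h1 h2 => ?_⟩
    have z0 : 0 < ‖z‖ := hd.trans_le h2
    have h3 := (hK z ((mul_le_mul_of_nonneg_left h2 he.le).trans h1)).2
    have h4 : ‖z‖⁻¹ = ‖z‖ ^ (-(1 / 2) : ℝ) * ‖z‖ ^ (-(1 / 2) : ℝ) := by
      rw [← Real.rpow_add z0, ← Real.rpow_neg_one]; norm_num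
    calc ‖Lf z‖ ≤ ∫ t in Ioi (0 : ℝ), ‖lt z t‖ := norm_integral_le_integral_norm _
      _ ≤ K / (e * ‖z‖) := h3.trans (div_le_div_of_nonneg_left K0 (by positivity) h1)
      _ = K / e * (‖z‖ ^ (-(1 / 2) : ℝ) * ‖z‖ ^ (-(1 / 2) : ℝ)) := by rw [← h4]; field_simp
      _ ≤ _ := by
        rw [← mul_assoc]
        gcongr K / e * ?_ * _
        exact Real.rpow_le_rpow_of_nonpos hd h2 (by norm_num)

theorem shear (hV : St_VB1) {u : ℂ} (hu : 0 < u.re) :
    Wf u = 2 * ∫ a : ℝ, ∫ b : ℝ, exp (-2 * u * Real.cosh a * Real.cosh b) := by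
  obtain ⟨f, hf⟩ : ∃ f : ℝ → ℂ, f = fun v => exp (-u * Real.cosh v) := ⟨_, rfl⟩
  have i1 : Integrable f := by simpa [hf] using hV.1 u 0 hu
  have c1 : Continuous f := by rw [hf]; fun_prop
  have k1 : Kb u 0 = ∫ v, f v := by simp [Kb, hf]
  have s1 : ∀ {G : Type} [NormedAddCommGroup G] [NormedSpace ℝ G] (g : ℝ → G) (v : ℝ),
      ∫ b, g (v + 2 * b) = (1 / 2 : ℝ) • ∫ x, g x := by
    intro G _ _ g v
    rw [Measure.integral_comp_mul_left (fun x => g (v + x)) 2, integral_add_left_eq_self g v]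
    norm_num
  have i2 : ∀ v, Integrable fun b => f (v + 2 * b) := fun v =>
    (i1.comp_add_left v).comp_mul_left' two_ne_zero
  have i3 : Integrable (Function.uncurry fun v b => f v * f (v + 2 * b)) (volume.prod volume) := by
    refine (integrable_prod_iff (Continuous.aestronglyMeasurable (by fun_prop))).2
      ⟨Eventually.of_forall fun v => (i2 v).const_mul (f v), ?_⟩
    simp only [Function.uncurry, norm_mul, integral_const_mul, s1 fun x => ‖f x‖]
    exact i1.norm.mul_const _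
  have e1 : ∫ v, ∫ b, f v * f (v + 2 * b) = (1 / 2 : ℂ) * (∫ v, f v) ^ 2 := by
    simp only [integral_const_mul, s1 f, integral_mul_const]
    rw [real_smul]; push_cast; ring
  have e2 : ∀ b, ∫ v, f v * f (v + 2 * b) = ∫ a : ℝ, exp (-2 * u * Real.cosh b * Real.cosh a) := by
    intro b
    rw [← integral_sub_right_eq_self (fun v => f v * f (v + 2 * b)) b]
    refine integral_congr_ae (Eventually.of_forall fun a => ?_)
    have : a - b + 2 * b = a + b := by ring
    simp only [hf, this]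
    rw [← exp_add, Real.cosh_sub, Real.cosh_add]
    congr 1
    simp only [ofReal_sub, ofReal_add, ofReal_mul]
    ring
  rw [integral_integral_swap i3] at e1
  simp only [e2] at e1
  rw [Wf, k1, e1]; ring

end AVG3

open AVG3

theorem t_avg3 : T_AVG3 := by
  intro hP hB hZ hV
  refine ⟨dec hP hZ, fun z hz => ?_⟩
  have hz' : 0 < z.re := hz
  obtain ⟨K, K0, hK⟩ := bnd hZ hz'
  have ic : Integrable fun v : ℝ => (Real.cosh v)⁻¹ := by
    refine ((hB.1 (1 / 2) (by norm_num)).2.2.2.2.2.1.norm).congr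
      (Eventually.of_forall fun v => ?_)
    dsimp only
    rw [norm_cpow_eq_rpow_re_of_pos (Real.cosh_pos v), ← Real.rpow_neg_one]
    norm_num
  have re1 : ∀ p : ℝ × ℝ, (z * Real.cosh p.1 * Real.cosh p.2 : ℂ).re =
      z.re * Real.cosh p.1 * Real.cosh p.2 := fun p => by
    rw [re_mul_ofReal, re_mul_ofReal]
  have re2 : ∀ p : ℝ × ℝ, z.re ≤ (z * Real.cosh p.1 * Real.cosh p.2 : ℂ).re := fun p => by
    rw [re1, mul_assoc]
    exact le_mul_of_one_le_right hz'.le
      (one_le_mul_of_one_le_of_one_le (Real.one_le_cosh _) (Real.one_le_cosh _))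
  have cF : Continuous (Function.uncurry fun (p : ℝ × ℝ) (t : ℝ) =>
      lt (z * Real.cosh p.1 * Real.cosh p.2) t) :=
    (lt_cont hZ).comp (f := fun q : (ℝ × ℝ) × ℝ =>
      ((z * Real.cosh q.1.1 * Real.cosh q.1.2 : ℂ), q.2)) (by fun_prop)
  have iF : Integrable (Function.uncurry fun (p : ℝ × ℝ) (t : ℝ) =>
      lt (z * Real.cosh p.1 * Real.cosh p.2) t)
      ((volume.prod volume).prod (volume.restrict (Ioi 0))) := by
    refine (integrable_prod_iff cF.aestronglyMeasurable).2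
      ⟨Eventually.of_forall fun p => (hK _ (re2 p)).1, ?_⟩
    refine ((ic.mul_prod ic).const_mul (K / z.re)).mono'
      cF.aestronglyMeasurable.norm.integral_prod_right' (Eventually.of_forall fun p => ?_)
    rw [Real.norm_of_nonneg (integral_nonneg fun t => norm_nonneg _)]
    refine (hK _ (re2 p)).2.trans (le_of_eq ?_)
    rw [re1]
    have := Real.cosh_pos p.1
    have := Real.cosh_pos p.2
    field_simp
  have e1 : Bop (Bop Lf) z = ∫ p : ℝ × ℝ, (∫ t in Ioi (0 : ℝ),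
      lt (z * Real.cosh p.1 * Real.cosh p.2) t) ∂(volume.prod volume) := by
    exact (integral_prod _ iF.integral_prod_left).symm
  rw [e1, integral_integral_swap iF, Sf, ← integral_const_mul]
  refine integral_congr_ae ?_
  filter_upwards [iF.prod_left_ae, ae_restrict_mem measurableSet_Ioi] with t i1 ht
  have ht' : (0 : ℝ) < t := ht
  rw [integral_prod (fun p : ℝ × ℝ => lt (z * Real.cosh p.1 * Real.cosh p.2) t) i1,
    shear hV (u := z * t) (by rw [re_mul_ofReal]; positivity)]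
  simp only [lt, integral_const_mul]
  rw [mul_left_comm]
  congr 3
  funext a
  congr 1
  funext b
  congr 1
  ring

end

end Pool.Agent.Lib.E2
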