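import Pool.Agent.Lib.E2.Blue

/-!
Block BES: Bessel inequality, counting of eigenvalues and uniform bounds for eigenfunctions.
-/

namespace Pool.Agent.Lib.E2

noncomputable section

open Complex MeasureTheory Set Filter Topology
open scoped Real UpperHalfPlane MatrixGroups ComplexConjugate Modular

theorem bes_hf {k a : ℝ} (hk : 1 / 10 ≤ k) (ha : 0 ≤ a) (ha1 : a ≤ 1) (hka : k * a ≤ 1) :
    1 / 2 ≤ hf k a := by
  have hpi := Real.pi_gt_three
  have hx : 1 / 5 ≤ k * (π - a) := by nlinarith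
  have hs : k * (π - a) ≤ Real.sinh (k * (π - a)) := Real.self_le_sinh_iff.2 (by linarith)
  have hd : 0 ≤ k * a := by positivity
  have h3 : Real.exp (k * a) ≤ 3 :=
    (Real.exp_le_exp.2 hka).trans (by linarith [Real.exp_one_lt_d9])
  have h4 := Real.cosh_add_sinh (k * a)
  have h5 : 0 ≤ Real.sinh (k * a) := Real.sinh_nonneg_iff.2 hd
  have h6 := Real.cosh_pos (k * a)
  have h7 := Real.cosh_sub_sinh (k * (π - a))
  have h8 : Real.exp (-(k * (π - a))) ≤ 1 := Real.exp_le_one_iff.2 (by linarith)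
  have h9 : Real.sinh (k * π) ≤ 21 * Real.sinh (k * (π - a)) := by
    rw [show k * π = k * (π - a) + k * a by ring, Real.sinh_add]
    have e1 : Real.sinh (k * (π - a)) * Real.cosh (k * a) ≤ Real.sinh (k * (π - a)) * 3 :=
      mul_le_mul_of_nonneg_left (by linarith) (by linarith)
    have e2 : Real.cosh (k * (π - a)) * Real.sinh (k * a) ≤ 6 * Real.sinh (k * (π - a)) * 3 :=
      mul_le_mul (by linarith) (by linarith) h5 (by linarith)
    linarith
  have h10 : 0 < Real.sinh (k * π) := Real.sinh_pos_iff.2 (by positivity)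
  have h11 : (1 : ℝ) ≤ √2 := Real.one_le_sqrt.2 (by norm_num)
  have h12 : 12 ≤ 4 * √2 * π := by nlinarith
  rw [hf, le_div_iff₀ h10]
  nlinarith

theorem bes_bb {y : ℝ} (hy : 0 < y) : 0 ≤ bb y := by
  unfold bb
  positivity

theorem bes_sum (h2 : St_KER2) (hL : St_LIN) (h3 : St_KER3) {ι : Type} {φ : ι → ℍ → ℂ}
    {k : ι → ℝ} (h : EBasis φ k) {K : ℝ} (hK : 1 ≤ K) (s : Finset ι) (hs : ∀ i ∈ s, k i ≤ K)
    (z : ℍ) : ∑ i ∈ s, ‖φ i z‖ ^ 2 ≤ 16384 * K ^ 4 * bb z.im := by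
  obtain ⟨⟨b1, b2, -⟩, b3⟩ := h
  obtain ⟨-, -, l3, -, -, l6, -, -, l9⟩ := hL
  have hpi := Real.pi_gt_three
  have hK0 : 0 < K := by linarith
  have ha0 : 0 < K⁻¹ := inv_pos.2 hK0
  have ha1 : K⁻¹ ≤ 1 := inv_le_one_of_one_le₀ hK
  have hc := Real.cos_le_one_sub_mul_cos_sq (x := K⁻¹) (by rw [abs_of_pos ha0]; linarith)
  have hc1 : (K⁻¹) ^ 2 / 8 ≤ 1 - Real.cos K⁻¹ := by
    have e : 1 / 8 ≤ 2 / π ^ 2 := by
      rw [div_le_div_iff₀ (by norm_num) (by positivity)]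
      nlinarith [Real.pi_le_four]
    nlinarith [sq_nonneg K⁻¹]
  have hc2 : 0 < 1 - Real.cos K⁻¹ := lt_of_lt_of_le (by positivity) hc1
  have hA : 2 / (1 - Real.cos K⁻¹) ≤ 16 * K ^ 2 := by
    rw [div_le_iff₀ hc2]
    have e : K ^ 2 * (K⁻¹) ^ 2 = 1 := by field_simp
    nlinarith [sq_nonneg K]
  set c : ι → ℂ := fun i => conj ((hf (k i) K⁻¹ : ℂ) * φ i z) with hcdef
  set S : ℝ := ∑ i ∈ s, ‖c i‖ ^ 2 with hS
  have hS0 : 0 ≤ S := Finset.sum_nonneg fun _ _ => sq_nonneg _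
  have e1 := (h3 _ (l3 ι s c φ fun i _ => (b1 i).1) K⁻¹ (by linarith)).1 z
  rw [(l9 ι s φ (fun i _ => ⟨(b1 i).1.1.2.2, (b1 i).2.2⟩) fun i _ j _ => b2 i j).1 c,
    l6 ι s c φ (fun i _ => h2.2.1 _ (b1 i).1.1) _ (by linarith)] at e1
  have e2 : (Real.sin K⁻¹ : ℂ) * ∑ i ∈ s, c i * Lop K⁻¹ (φ i) z = (S : ℂ) := by
    rw [Finset.mul_sum, hS, ofReal_sum]
    refine Finset.sum_congr rfl fun i _ => ?_
    rw [mul_left_comm, (b3 i).2 _ ⟨ha0, by linarith⟩ z, hcdef]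
    simp only [RCLike.norm_conj, ofReal_pow]
    exact conj_mul' _
  have hsin : |Real.sin K⁻¹| ≤ K⁻¹ := Real.abs_sin_le_abs.trans (abs_of_pos ha0).le
  have hb := bes_bb z.im_pos
  have e3 : S ^ 2 ≤ (4096 * K ^ 4 * bb z.im) * S := by
    have e4 := congrArg norm e2
    rw [norm_mul, norm_real, norm_real, Real.norm_eq_abs, Real.norm_of_nonneg hS0] at e4
    rw [← e4, mul_pow, e4]
    have e5 : (2 / (1 - Real.cos K⁻¹)) ^ 3 * bb z.im * S ≤ (16 * K ^ 2) ^ 3 * bb z.im * S := by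
      gcongr
    refine (mul_le_mul (pow_le_pow_left₀ (abs_nonneg _) hsin 2) (e1.trans e5) (by positivity)
      (by positivity)).trans (le_of_eq ?_)
    field_simp
    ring
  have e6 : S ≤ 4096 * K ^ 4 * bb z.im := by
    rcases hS0.eq_or_lt with e | e
    · rw [← e]
      positivity
    · exact le_of_mul_le_mul_right (by rwa [← sq]) e
  have e7 : ∑ i ∈ s, ‖φ i z‖ ^ 2 ≤ 4 * S := by
    rw [hS, Finset.mul_sum]
    refine Finset.sum_le_sum fun i hi => ?_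
    have e8 := bes_hf (b3 i).1 ha0.le ha1 (by rw [← div_eq_mul_inv, div_le_one hK0]; exact hs i hi)
    rw [hcdef]
    simp only [RCLike.norm_conj, norm_mul, norm_real, Real.norm_eq_abs, mul_pow, sq_abs]
    have e9 : 1 / 4 ≤ hf (k i) K⁻¹ ^ 2 := by nlinarith
    nlinarith [sq_nonneg ‖φ i z‖]
  linarith

theorem bes_card (h2 : St_KER2) (hL : St_LIN) (h3 : St_KER3) {ι : Type} {φ : ι → ℍ → ℂ}
    {k : ι → ℝ} (h : EBasis φ k) {K : ℝ} (hK : 1 ≤ K) (s : Finset ι) (hs : ∀ i ∈ s, k i ≤ K) :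
    (s.card : ℝ) ≤ 16384 * 27 * K ^ 4 := by
  have i1 : ∀ i ∈ s, Integrable (fun z => ‖φ i z‖ ^ 2) muD := fun i _ =>
    (h.1.1 i).1.1.2.2.integrable_norm_pow two_ne_zero
  have e1 := integral_mono (integrable_finsetSum s i1) (h2.2.2.2.1.const_mul (16384 * K ^ 4))
    (bes_sum h2 hL h3 h hK s hs)
  rw [integral_finsetSum s i1, integral_const_mul] at e1
  have e2 : ∀ i ∈ s, ∫ z, ‖φ i z‖ ^ 2 ∂muD = 1 := fun i _ => by
    have e3 := (hL.2.2.2.2.2.2.1 (φ i) (φ i)).2.1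
    rw [(h.1.1 i).2.2] at e3
    exact_mod_cast e3.symm
  rw [Finset.sum_congr rfl e2] at e1
  simp only [Finset.sum_const, nsmul_eq_mul, mul_one] at e1
  have e4 := mul_le_mul_of_nonneg_left h2.2.2.2.2 (by positivity : 0 ≤ 16384 * K ^ 4)
  linarith

theorem bes_bb1 {y : ℝ} (hy : 1 / 2 ≤ y) : bb y ≤ 429 := by
  have h1 : (1 / 8 : ℝ) ≤ y ^ (5 / 2 : ℝ) := by
    refine le_trans ?_ (Real.rpow_le_rpow (by norm_num) hy (by norm_num))
    refine le_trans (le_of_eq ?_) (Real.rpow_le_rpow_of_exponent_ge (x := 1 / 2) (y := (3 : ℕ))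
      (by norm_num) (by norm_num) (by norm_num))
    rw [Real.rpow_natCast]
    norm_num
  have h2 : 5 / (2 * y) ≤ 5 := by
    rw [div_le_iff₀ (by linarith)]
    linarith
  have h3 : 53 / y ^ (5 / 2 : ℝ) ≤ 424 := by
    rw [div_le_iff₀ (by linarith)]
    linarith
  unfold bb
  linarith

theorem bes_bb2 {y : ℝ} (hy : 1 ≤ y) : bb y ≤ 56 * (y ^ (-(1 / 4) : ℝ)) ^ 2 := by
  have hy0 : 0 < y := by linarith
  have h0 : (y ^ (-(1 / 4) : ℝ)) ^ 2 = y ^ (-(1 / 2) : ℝ) := by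
    rw [← Real.rpow_natCast, ← Real.rpow_mul hy0.le]
    norm_num
  have h1 : y⁻¹ ≤ y ^ (-(1 / 2) : ℝ) := by
    rw [← Real.rpow_neg_one]
    exact Real.rpow_le_rpow_of_exponent_le hy (by norm_num)
  have h2 : (y ^ (5 / 2 : ℝ))⁻¹ ≤ y ^ (-(1 / 2) : ℝ) := by
    rw [← Real.rpow_neg hy0.le]
    exact Real.rpow_le_rpow_of_exponent_le hy (by norm_num)
  have h3 : 5 / (2 * y) = 5 / 2 * y⁻¹ := by field_simp
  have h4 : 0 < y⁻¹ := inv_pos.2 hy0
  rw [h0, bb, h3, div_eq_mul_inv 53]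
  linarith

theorem t_bes : T_BES := by
  intro _ h2 hL h3 ι φ k h
  refine ⟨16384 * 27, fun K hK => ?_, fun i => ?_⟩
  · have hf : {i | k i ≤ K}.Finite := by
      by_contra hinf
      obtain ⟨m, hm⟩ := exists_nat_gt (16384 * 27 * K ^ 4)
      obtain ⟨T, hT, hc⟩ := Set.Infinite.exists_subset_card_eq hinf m
      have := bes_card h2 hL h3 h hK T fun i hi => hT hi
      rw [hc] at this
      linarith
    refine ⟨hf, ?_⟩
    rw [Set.ncard_eq_toFinset_card _ hf]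
    exact bes_card h2 hL h3 h hK _ fun i hi => hf.mem_toFinset.1 hi
  have hk := (h.2 i).1
  have e1 : ∀ z : ℍ, ‖φ i z‖ ^ 2 ≤ 16384 * (1 + k i) ^ 4 * bb z.im := fun z => by
    simpa using bes_sum h2 hL h3 h (K := 1 + k i) (by linarith) {i} (by simp) z
  have hp : 0 < (1 + k i) ^ 4 := by positivity
  have e2 : ∀ z : ℍ, ‖φ i z‖ ≤ 16384 * 27 * (1 + k i) ^ 2 := fun z => by
    obtain ⟨g, hg⟩ := ModularGroup.exists_smul_mem_fd z
    have e3 := ModularGroup.three_le_four_mul_im_sq_of_mem_fd hg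
    have e4 := bes_bb1 (y := (g • z).im) (by nlinarith [(g • z).im_pos])
    have e5 := e1 (g • z)
    rw [(h.1.1 i).1.1.2.1 g z] at e5
    refine (pow_le_pow_iff_left₀ (norm_nonneg _) (by positivity) two_ne_zero).1 ?_
    nlinarith
  refine fun z => ⟨e2 z, ?_⟩
  have hy := Real.rpow_pos_of_pos z.im_pos (-(1 / 4) : ℝ)
  rcases le_total z.im 1 with c | c
  · exact (e2 z).trans (le_mul_of_one_le_right (by positivity)
      (Real.one_le_rpow_of_pos_of_le_one_of_nonpos z.im_pos c (by norm_num)))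
  · have e3 := mul_le_mul_of_nonneg_left (bes_bb2 c) (by positivity : 0 ≤ 16384 * (1 + k i) ^ 4)
    refine (pow_le_pow_iff_left₀ (norm_nonneg _) (by positivity) two_ne_zero).1
      ((e1 z).trans (e3.trans ?_))
    have := mul_pos hp (pow_pos hy 2)
    nlinarith

end

end Pool.Agent.Lib.E2
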