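import Pool.Agent.Lib.E2.Blue

/-! The function `bet` and bounds for the Gamma function. -/

namespace Pool.Agent.Lib.E2

noncomputable section

open Complex MeasureTheory Set Filter Topology
open scoped Real ComplexConjugate

namespace BET

lemma cp {x : ℝ} (hx : 0 < x) (w : ℂ) : (x : ℂ) ^ w = exp ((Real.log x : ℝ) * w) := by
  rw [Complex.cpow_def_of_ne_zero (by exact_mod_cast hx.ne'), Complex.ofReal_log hx.le]

lemma ce {x : ℝ} (hx : 0 < x) : (x : ℂ) = exp ((Real.log x : ℝ) : ℂ) := by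
  rw [← Complex.ofReal_exp, Real.exp_log hx]

/-- integrand in `u` -/
def fu (z : ℂ) (u : ℝ) : ℂ := ((1 + u ^ 2 : ℝ) : ℂ) ^ (-z - 1 / 2)

/-- integrand in `t` -/
def ft (z : ℂ) (t : ℝ) : ℂ := (1 + t : ℂ) ^ (-z - 1 / 2) * (t : ℂ) ^ (-(1 / 2) : ℂ)

/-- integrand in `x` -/
def fx (z : ℂ) (x : ℝ) : ℂ := (x : ℂ) ^ (z - 1) * (1 - (x : ℂ)) ^ ((1 / 2 : ℂ) - 1)

lemma img1 : (fun t : ℝ => (1 + t)⁻¹) '' Ioi 0 = Ioo 0 1 := by
  ext x
  constructor
  · rintro ⟨t, ht, rfl⟩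
    have ht' : 0 < t := ht
    exact ⟨by positivity, inv_lt_one_of_one_lt₀ (by linarith)⟩
  · rintro ⟨h0, h1⟩
    refine ⟨x⁻¹ - 1, ?_, ?_⟩
    · have : 1 < x⁻¹ := (one_lt_inv₀ h0).2 h1
      show 0 < x⁻¹ - 1
      linarith
    · simp

lemma der1 (t : ℝ) (ht : t ∈ Ioi (0 : ℝ)) :
    HasDerivWithinAt (fun t : ℝ => (1 + t)⁻¹) (-1 / (1 + t) ^ 2) (Ioi 0) t := by
  have ht' : 0 < t := ht
  exact (((hasDerivAt_id t).const_add 1).inv (by simp only [id]; positivity)).hasDerivWithinAt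

lemma inj1 : InjOn (fun t : ℝ => (1 + t)⁻¹) (Ioi 0) := by
  intro a _ b _ h
  have : 1 + a = 1 + b := inv_injective h
  linarith

lemma sub1 (z : ℂ) (t : ℝ) (ht : t ∈ Ioi (0 : ℝ)) :
    |-1 / (1 + t) ^ 2| • fx z (1 + t)⁻¹ = ft z t := by
  have ht' : 0 < t := ht
  have h1 : 0 < 1 + t := by linarith
  have e1 : (1 - (((1 + t)⁻¹ : ℝ) : ℂ)) = ((t / (1 + t) : ℝ) : ℂ) := by
    have : (1 - (1 + t)⁻¹ : ℝ) = t / (1 + t) := by field_simp; ring
    rw [← this]; push_cast; ring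
  have e2 : |-1 / (1 + t) ^ 2| = ((1 + t) ^ 2)⁻¹ := by
    rw [abs_div, abs_neg, abs_one, abs_of_pos (by positivity), one_div]
  have e3 : (1 + t : ℂ) = ((1 + t : ℝ) : ℂ) := by push_cast; ring
  unfold fx ft
  rw [e1, e2, e3, real_smul, ce (x := ((1 + t) ^ 2)⁻¹) (by positivity),
    cp (x := (1 + t)⁻¹) (by positivity), cp (x := t / (1 + t)) (by positivity), cp h1, cp ht',
    ← exp_add, ← exp_add, ← exp_add, Real.log_inv, Real.log_inv, Real.log_pow,
    Real.log_div ht'.ne' h1.ne']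
  congr 1
  push_cast
  ring

lemma sub2 (z : ℂ) (u : ℝ) (hu : u ∈ Ioi (0 : ℝ)) :
    (|(2 : ℝ)| * u ^ ((2 : ℝ) - 1)) • ft z (u ^ (2 : ℝ)) = 2 * fu z u := by
  have hu' : 0 < u := hu
  have e1 : u ^ (2 : ℝ) = u ^ 2 := by exact_mod_cast Real.rpow_natCast u 2
  have e2 : u ^ ((2 : ℝ) - 1) = u := by norm_num
  have e3 : (1 + ((u ^ 2 : ℝ) : ℂ)) = ((1 + u ^ 2 : ℝ) : ℂ) := by push_cast; ring
  have e4 : (u : ℂ) * ((u ^ 2 : ℝ) : ℂ) ^ (-(1 / 2) : ℂ) = 1 := by
    rw [cp (x := u ^ 2) (by positivity), Real.log_pow]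
    nth_rewrite 1 [ce hu']
    rw [← exp_add]
    refine Eq.trans ?_ exp_zero
    congr 1
    push_cast
    ring
  unfold ft fu
  rw [e1, e2, e3, real_smul, abs_two]
  push_cast at e4 ⊢
  linear_combination 2 * (1 + (u : ℂ) ^ 2) ^ (-z - 1 / 2) * e4

lemma sub3 (z : ℂ) (v : ℝ) :
    |Real.cosh v| • fu z (Real.sinh v) = (Real.cosh v : ℂ) ^ (-(2 * z)) := by
  have h := Real.cosh_pos v
  have e1 : 1 + Real.sinh v ^ 2 = Real.cosh v ^ 2 := by rw [Real.cosh_sq]; ring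
  unfold fu
  rw [e1, abs_of_pos h, real_smul, cp (x := Real.cosh v ^ 2) (by positivity), cp h, Real.log_pow]
  nth_rewrite 1 [ce h]
  rw [← exp_add]
  congr 1
  push_cast
  ring

lemma int_fx {z : ℂ} (hz : 0 < z.re) : IntegrableOn (fx z) (Ioo 0 1) := by
  have := betaIntegral_convergent hz (v := 1 / 2) (by norm_num)
  rw [intervalIntegrable_iff_integrableOn_Ioo_of_le zero_le_one] at this
  exact this

lemma int_ft {z : ℂ} (hz : 0 < z.re) : IntegrableOn (ft z) (Ioi 0) := by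
  have := int_fx hz
  rw [← img1, integrableOn_image_iff_integrableOn_abs_deriv_smul measurableSet_Ioi der1 inj1] at this
  exact this.congr_fun (sub1 z) measurableSet_Ioi

lemma val_ft (z : ℂ) : ∫ t in Ioi (0 : ℝ), ft z t = betaIntegral z (1 / 2) := by
  have : betaIntegral z (1 / 2) = ∫ x in Ioo (0 : ℝ) 1, fx z x := by
    rw [betaIntegral, intervalIntegral.integral_of_le zero_le_one, integral_Ioc_eq_integral_Ioo]
    rfl
  rw [this, ← img1, integral_image_eq_integral_abs_deriv_smul measurableSet_Ioi der1 inj1]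
  exact (setIntegral_congr_fun measurableSet_Ioi (sub1 z)).symm

lemma int_fu0 {z : ℂ} (hz : 0 < z.re) : IntegrableOn (fu z) (Ioi 0) := by
  have := (integrableOn_Ioi_comp_rpow_iff (ft z) (p := 2) two_ne_zero).2 (int_ft hz)
  have h2 := (this.congr_fun (sub2 z) measurableSet_Ioi).const_mul (1 / 2)
  refine IntegrableOn.congr_fun h2 (fun u _ => ?_) measurableSet_Ioi
  ring

lemma fu_neg (z : ℂ) (u : ℝ) : fu z (-u) = fu z u := by
  unfold fu
  rw [neg_sq]

lemma int_fu1 {z : ℂ} (hz : 0 < z.re) : IntegrableOn (fu z) (Iic 0) := by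
  rw [← Measure.map_neg_eq_self (volume : Measure ℝ)]
  let m : MeasurableEmbedding fun x : ℝ => -x := (Homeomorph.neg ℝ).measurableEmbedding
  rw [m.integrableOn_map_iff]
  simp_rw [Function.comp_def, fu_neg, neg_preimage, neg_Iic, neg_zero]
  exact Iff.mpr integrableOn_Ici_iff_integrableOn_Ioi (int_fu0 hz)

lemma int_fu {z : ℂ} (hz : 0 < z.re) : Integrable (fu z) := by
  rw [← integrableOn_univ, ← Iic_union_Ioi (a := (0 : ℝ))]
  exact (int_fu1 hz).union (int_fu0 hz)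

lemma bet_ft {z : ℂ} (hz : 0 < z.re) : ∫ t in Ioi (0 : ℝ), ft z t = bet z := by
  have h1 : bet z = ∫ u, fu z u := rfl
  have h2 : ∫ u in Iic (0 : ℝ), fu z u = ∫ u in Ioi (0 : ℝ), fu z u := by
    have := integral_comp_neg_Iic (0 : ℝ) (fu z)
    simp_rw [fu_neg, neg_zero] at this
    exact this
  rw [h1, ← intervalIntegral.integral_Iic_add_Ioi (int_fu1 hz) (int_fu0 hz), h2,
    ← integral_comp_rpow_Ioi (ft z) (p := 2) two_ne_zero,
    setIntegral_congr_fun measurableSet_Ioi (sub2 z), integral_const_mul]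
  ring

lemma bet_eq {z : ℂ} (hz : 0 < z.re) : bet z = (√π : ℝ) * Gamma z / Gamma (z + 1 / 2) := by
  rw [← bet_ft hz, val_ft, betaIntegral_eq_Gamma_mul_div z (1 / 2) hz (by norm_num),
    Gamma_one_half_eq, Real.sqrt_eq_rpow, Complex.ofReal_cpow Real.pi_pos.le]
  push_cast
  ring

lemma img3 : Real.sinh '' univ = univ := by
  rw [image_univ]
  exact Real.sinh_surjective.range_eq

lemma der3 (v : ℝ) (_ : v ∈ (univ : Set ℝ)) : HasDerivWithinAt Real.sinh (Real.cosh v) univ v :=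
  (Real.hasDerivAt_sinh v).hasDerivWithinAt

lemma int_cosh {z : ℂ} (hz : 0 < z.re) :
    Integrable (fun v : ℝ => (Real.cosh v : ℂ) ^ (-(2 * z))) := by
  have := int_fu hz
  rw [← integrableOn_univ, ← img3, integrableOn_image_iff_integrableOn_abs_deriv_smul
    MeasurableSet.univ der3 Real.sinh_injective.injOn, integrableOn_univ] at this
  simp_rw [sub3] at this
  exact this

lemma val_cosh (z : ℂ) : ∫ v : ℝ, (Real.cosh v : ℂ) ^ (-(2 * z)) = bet z := by
  have := integral_image_eq_integral_abs_deriv_smul MeasurableSet.univ der3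
    Real.sinh_injective.injOn (fu z)
  rw [img3] at this
  simp_rw [sub3, Measure.restrict_univ] at this
  exact this.symm

lemma re_half {z : ℂ} (hz : 0 < z.re) : 0 < (z + 1 / 2).re := by
  have : (z + 1 / 2).re = z.re + 1 / 2 := by simp
  rw [this]; linarith

lemma sq_pi : ((√π : ℝ) : ℂ) * ((√π : ℝ) : ℂ) = π := by
  rw [← ofReal_mul, Real.mul_self_sqrt Real.pi_pos.le]

lemma sqrt_ne : ((√π : ℝ) : ℂ) ≠ 0 := by
  exact_mod_cast (Real.sqrt_pos.2 Real.pi_pos).ne'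

lemma bet_ne {z : ℂ} (hz : 0 < z.re) : bet z ≠ 0 := by
  rw [bet_eq hz]
  exact div_ne_zero (mul_ne_zero sqrt_ne (Gamma_ne_zero_of_re_pos hz))
    (Gamma_ne_zero_of_re_pos (re_half hz))

lemma ne_of_re {z : ℂ} (hz : 0 < z.re) : z ≠ 0 := by
  rintro rfl
  simp at hz

lemma bet_mul {z : ℂ} (hz : 0 < z.re) : bet z * bet (z + 1 / 2) = π / z := by
  have e : z + 1 / 2 + 1 / 2 = z + 1 := by ring
  have h0 := ne_of_re hz
  have h1 := Gamma_ne_zero_of_re_pos hz
  have h2 := Gamma_ne_zero_of_re_pos (re_half hz)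
  rw [bet_eq hz, bet_eq (re_half hz), e, Gamma_add_one z h0, ← sq_pi]
  generalize Gamma (z + 1 / 2) = G at h2 ⊢
  field_simp

lemma bet_dup {z : ℂ} (hz : 0 < z.re) :
    Gamma z ^ 2 = 2 ^ (1 - 2 * z) * Gamma (2 * z) * bet z := by
  have h2 := Gamma_ne_zero_of_re_pos (re_half hz)
  have h := Gamma_mul_Gamma_add_half z
  rw [bet_eq hz, ← mul_div_assoc, eq_div_iff h2]
  linear_combination Gamma z * h

lemma dG {z : ℂ} (hz : 0 < z.re) : DifferentiableAt ℂ Gamma z := by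
  refine differentiableAt_Gamma z fun m h => ?_
  rw [h] at hz
  simp only [neg_re, natCast_re] at hz
  have : (0 : ℝ) ≤ m := Nat.cast_nonneg m
  linarith

lemma bet_diff : DifferentiableOn ℂ bet {z | 0 < z.re} := by
  have : DifferentiableOn ℂ (fun z => ((√π : ℝ) : ℂ) * Gamma z / Gamma (z + 1 / 2))
      {z | 0 < z.re} := by
    intro z hz
    have h2 : DifferentiableAt ℂ (fun z : ℂ => Gamma (z + 1 / 2)) z :=
      DifferentiableAt.comp (g := Gamma) (f := fun z : ℂ => z + 1 / 2) z (dG (re_half hz))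
        (differentiableAt_id.add_const _)
    exact (((dG hz).const_mul _).div h2
      (Gamma_ne_zero_of_re_pos (re_half hz))).differentiableWithinAt
  exact this.congr fun z hz => bet_eq hz

/-! ### comparison of values of Gamma -/

/-- the denominator of `GammaSeq` -/
def pr (a : ℂ) (n : ℕ) : ℝ := ∏ j ∈ Finset.range (n + 1), ‖a + j‖

lemma pr_pos {a : ℂ} (ha : 0 < a.re) (n : ℕ) : 0 < pr a n := by
  refine Finset.prod_pos fun j _ => norm_pos_iff.2 (ne_of_re ?_)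
  simp only [add_re, natCast_re]
  have : (0 : ℝ) ≤ j := Nat.cast_nonneg j
  linarith

lemma norm_seq (a : ℂ) {n : ℕ} (hn : 0 < n) :
    ‖GammaSeq a n‖ = (n : ℝ) ^ a.re * n.factorial / pr a n := by
  rw [GammaSeq, norm_div, norm_mul, norm_prod, Complex.norm_natCast_cpow_of_pos hn, norm_natCast]
  rfl

lemma cmp {a b c d : ℂ} {K : ℝ} (ha : 0 < a.re) (hb : 0 < b.re) (hc : 0 < c.re) (hd : 0 < d.re)
    (hre : a.re + b.re = c.re + d.re) (h : ∀ n, pr c n * pr d n ≤ K * (pr a n * pr b n)) :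
    ‖Gamma a‖ * ‖Gamma b‖ ≤ K * (‖Gamma c‖ * ‖Gamma d‖) := by
  have t1 := ((GammaSeq_tendsto_Gamma a).norm).mul (GammaSeq_tendsto_Gamma b).norm
  have t2 := (((GammaSeq_tendsto_Gamma c).norm).mul (GammaSeq_tendsto_Gamma d).norm).const_mul K
  refine le_of_tendsto_of_tendsto t1 t2 ?_
  filter_upwards [eventually_gt_atTop 0] with n hn
  have hn' : (0 : ℝ) < n := by exact_mod_cast hn
  have pa := pr_pos ha n
  have pb := pr_pos hb n
  have pc := pr_pos hc n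
  have pd := pr_pos hd n
  have e : (n : ℝ) ^ a.re * (n : ℝ) ^ b.re = (n : ℝ) ^ c.re * (n : ℝ) ^ d.re := by
    rw [← Real.rpow_add hn', ← Real.rpow_add hn', hre]
  rw [norm_seq a hn, norm_seq b hn, norm_seq c hn, norm_seq d hn, div_mul_div_comm,
    div_mul_div_comm, ← mul_div_assoc, div_le_div_iff₀ (by positivity) (by positivity)]
  have hM : 0 ≤ (n : ℝ) ^ c.re * (n : ℝ) ^ d.re * (n.factorial * n.factorial) := by positivity
  have := mul_le_mul_of_nonneg_left (h n) hM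
  calc _ = (n : ℝ) ^ a.re * (n : ℝ) ^ b.re * (n.factorial * n.factorial) * (pr c n * pr d n) := by
        ring
    _ = (n : ℝ) ^ c.re * (n : ℝ) ^ d.re * (n.factorial * n.factorial) * (pr c n * pr d n) := by
        rw [e]
    _ ≤ _ := this
    _ = _ := by ring

lemma re_le (z : ℂ) (x : ℝ) : z.re + x ≤ ‖z + x‖ := by
  have := re_le_norm (z + x)
  simpa using this

lemma step1 {z : ℂ} (hz : 0 < z.re) (j : ℕ) :
    ‖z + 1 / 2 + j‖ * ‖z + 1 / 2 + j‖ ≤
      Real.exp (1 / 4 * (1 / (z.re + j) - 1 / (z.re + j + 1))) * (‖z + j‖ * ‖z + 1 + j‖) := by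
  have hj : (0 : ℝ) ≤ j := Nat.cast_nonneg j
  have h1 : z.re + j ≤ ‖z + j‖ := by exact_mod_cast re_le z j
  have h2 : z.re + j + 1 ≤ ‖z + 1 + j‖ := by
    have := re_le z (j + 1)
    have e : z + ((j + 1 : ℝ) : ℂ) = z + 1 + j := by push_cast; ring
    rw [e] at this
    linarith
  have e : (z + 1 / 2 + j) * (z + 1 / 2 + j) = (z + j) * (z + 1 + j) + 1 / 4 := by ring
  have h3 : ‖z + 1 / 2 + j‖ * ‖z + 1 / 2 + j‖ ≤ ‖z + j‖ * ‖z + 1 + j‖ + 1 / 4 := by
    rw [← norm_mul, e, ← norm_mul]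
    refine (norm_add_le _ _).trans (le_of_eq ?_)
    norm_num
  have hp : 0 < z.re + j := by linarith
  have e2 : 1 / 4 * (1 / (z.re + j) - 1 / (z.re + j + 1)) =
      1 / 4 / ((z.re + j) * (z.re + j + 1)) := by
    field_simp
    ring
  have h4 := Real.add_one_le_exp (1 / 4 * (1 / (z.re + j) - 1 / (z.re + j + 1)))
  have h5 : (z.re + j) * (z.re + j + 1) ≤ ‖z + j‖ * ‖z + 1 + j‖ :=
    mul_le_mul h1 h2 (by linarith) (norm_nonneg _)
  have hq : 0 < (z.re + j) * (z.re + j + 1) := by positivity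
  have h6 : 1 / 4 ≤ 1 / 4 / ((z.re + j) * (z.re + j + 1)) * (‖z + j‖ * ‖z + 1 + j‖) := by
    rw [div_mul_eq_mul_div, le_div_iff₀ hq]
    linarith
  refine h3.trans (le_trans ?_ (mul_le_mul_of_nonneg_right h4 (by positivity)))
  rw [e2]
  linarith

lemma prod1 {z : ℂ} (hz : 0 < z.re) (n : ℕ) :
    pr (z + 1 / 2) n * pr (z + 1 / 2) n ≤
      Real.exp (1 / 4 * (1 / z.re - 1 / (z.re + n + 1))) * (pr z n * pr (z + 1) n) := by
  induction n with
  | zero => simpa [pr] using step1 hz 0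
  | succ n ih =>
    have hs := step1 hz (n + 1)
    have e : ∀ a : ℂ, pr a (n + 1) = pr a n * ‖a + ((n + 1 : ℕ) : ℂ)‖ := fun a =>
      Finset.prod_range_succ _ _
    have := mul_le_mul ih hs (by positivity) (by
      have := pr_pos hz n
      have : 0 < pr (z + 1) n := pr_pos (by simp; linarith) n
      positivity)
    have e2 : Real.exp (1 / 4 * (1 / z.re - 1 / (z.re + ((n + 1 : ℕ) : ℝ) + 1))) =
        Real.exp (1 / 4 * (1 / z.re - 1 / (z.re + n + 1))) *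
        Real.exp (1 / 4 * (1 / (z.re + ((n + 1 : ℕ) : ℝ)) - 1 / (z.re + ((n + 1 : ℕ) : ℝ) + 1))) := by
      rw [← Real.exp_add]
      congr 1
      push_cast
      ring
    rw [e, e, e, e2]
    calc _ = pr (z + 1 / 2) n * pr (z + 1 / 2) n *
          (‖z + 1 / 2 + ((n + 1 : ℕ) : ℂ)‖ * ‖z + 1 / 2 + ((n + 1 : ℕ) : ℂ)‖) := by ring
      _ ≤ _ := this
      _ = _ := by ring

lemma bet_sq {z : ℂ} (hz : 1 / 4 ≤ z.re) : ‖bet z‖ ^ 2 * ‖z‖ ≤ 12 := by
  have h0 : 0 < z.re := by linarith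
  have h1 : 0 < (z + 1).re := by simp; linarith
  have h := cmp (K := 3) h0 h1 (re_half h0) (re_half h0) (by simp; ring) (fun n => by
    refine (prod1 h0 n).trans (mul_le_mul_of_nonneg_right ?_ ?_)
    · refine le_trans (Real.exp_le_exp.2 ?_) Real.exp_one_lt_three.le
      have a1 : 1 / z.re ≤ 4 := by rw [div_le_iff₀ h0]; linarith
      have a2 : 0 ≤ 1 / (z.re + n + 1) := by positivity
      linarith
    · exact (mul_pos (pr_pos h0 n) (pr_pos h1 n)).le)
  have hg : 0 < ‖Gamma (z + 1 / 2)‖ := norm_pos_iff.2 (Gamma_ne_zero_of_re_pos (re_half h0))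
  rw [Gamma_add_one z (ne_of_re h0), norm_mul] at h
  rw [bet_eq h0, norm_div, norm_mul, norm_real, Real.norm_eq_abs, div_pow, mul_pow, sq_abs,
    Real.sq_sqrt Real.pi_pos.le, div_mul_eq_mul_div, div_le_iff₀ (by positivity)]
  have hp : π ≤ 4 := Real.pi_le_four
  have : 0 ≤ ‖Gamma z‖ * (‖z‖ * ‖Gamma z‖) := by positivity
  nlinarith

lemma le_of_sq {a b : ℝ} (hb : 0 ≤ b) (h : a ^ 2 ≤ b ^ 2) : a ≤ b := by
  exact le_trans (le_abs_self a) (abs_le_of_sq_le_sq' h hb |> fun h => abs_le.2 h)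

lemma bet_dec (z : ℂ) (hz : 1 / 4 ≤ z.re) : ‖bet z‖ ≤ 8 * (1 + |z.im|) ^ (-(1 / 2) : ℝ) := by
  have hp : 0 < 1 + |z.im| := by positivity
  refine le_of_sq (by positivity) ?_
  have e : ((1 + |z.im|) ^ (-(1 / 2) : ℝ)) ^ 2 = (1 + |z.im|)⁻¹ := by
    rw [← Real.rpow_natCast, ← Real.rpow_mul hp.le, ← Real.rpow_neg_one]
    norm_num
  rw [mul_pow, e, ← div_eq_mul_inv, le_div_iff₀ hp]
  have h1 := bet_sq hz
  have h2 := re_le_norm z
  have h3 := abs_im_le_norm z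
  have h4 : 1 + |z.im| ≤ 5 * ‖z‖ := by linarith
  have := mul_le_mul_of_nonneg_left h4 (sq_nonneg ‖bet z‖)
  nlinarith

lemma bet_low {z : ℂ} (hz : 0 < z.re) : 1 ≤ 2 * (‖bet z‖ ^ 2 * ‖z‖) := by
  have h := congrArg norm (bet_mul hz)
  have h0 : 0 < ‖z‖ := norm_pos_iff.2 (ne_of_re hz)
  rw [norm_mul, norm_div, norm_real, Real.norm_eq_abs, abs_of_pos Real.pi_pos, eq_div_iff h0.ne'] at h
  have h1 := bet_sq (z := z + 1 / 2) (by simp; linarith)
  have h2 : ‖z‖ ≤ ‖z + 1 / 2‖ := by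
    refine le_of_sq (norm_nonneg _) ?_
    rw [Complex.sq_norm, Complex.sq_norm, normSq_apply, normSq_apply]
    simp
    nlinarith
  have h3 : ‖bet (z + 1 / 2)‖ ^ 2 * ‖z‖ ≤ 12 :=
    le_trans (mul_le_mul_of_nonneg_left h2 (sq_nonneg _)) h1
  have h4 : (‖bet z‖ ^ 2 * ‖z‖) * (‖bet (z + 1 / 2)‖ ^ 2 * ‖z‖) = π ^ 2 := by rw [← h]; ring
  have h5 : 3 < π := Real.pi_gt_three
  have h6 : 0 ≤ ‖bet z‖ ^ 2 * ‖z‖ := by positivity
  have := mul_le_mul_of_nonneg_left h3 h6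
  nlinarith

lemma sk_re (k : ℝ) : (sk k).re = 1 / 2 := by simp [sk]

lemma sk_im (k : ℝ) : (sk k).im = k := by simp [sk]

lemma sk_neg (k : ℝ) : sk (-k) = 1 - sk k := by
  unfold sk
  push_cast
  ring

lemma sk_conj (k : ℝ) : conj (sk k) = sk (-k) := by
  apply Complex.ext
  · rw [conj_re, sk_re, sk_re]
  · rw [conj_im, sk_im, sk_im]

lemma sk_norm (k : ℝ) : ‖1 - sk k‖ = ‖sk k‖ := by
  rw [← sk_neg, ← sk_conj, norm_conj]

lemma cf_bound (k : ℝ) : ‖Cf k‖ * |k| ≤ 4 * (1 + |k|) ^ (3 / 2 : ℝ) := by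
  have hp : 0 < 1 + |k| := by positivity
  rcases eq_or_ne k 0 with rfl | hk
  · simp
  have hk' : 0 < |k| := abs_pos.2 hk
  refine le_of_sq (by positivity) ?_
  have e : ((1 + |k|) ^ (3 / 2 : ℝ)) ^ 2 = (1 + |k|) ^ 3 := by
    rw [← Real.rpow_natCast, ← Real.rpow_mul hp.le, ← Real.rpow_natCast]
    norm_num
  have r1 : 0 < (sk k).re := by rw [sk_re]; norm_num
  have r2 : 0 < (1 - sk k).re := by rw [← sk_neg, sk_re]; norm_num
  have l1 := bet_low r1
  have l2 := bet_low r2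
  rw [sk_norm] at l2
  have u1 := bet_sq (z := (2 - sk k) / 2) (by simp [sk]; norm_num)
  have n1 : ‖sk k‖ ≤ 2 * ‖(2 - sk k) / 2‖ := by
    rw [norm_div, Complex.norm_two, mul_div_cancel₀ _ two_ne_zero]
    refine le_of_sq (norm_nonneg _) ?_
    rw [Complex.sq_norm, Complex.sq_norm, normSq_apply, normSq_apply]
    simp [sk]
    norm_num
  have n2 : ‖sk k‖ ≤ 1 + |k| := by
    have := norm_le_abs_re_add_abs_im (sk k)
    rw [sk_re, sk_im, abs_of_pos (by norm_num)] at this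
    linarith
  have n3 : ‖2 * sk k - 1‖ = 2 * |k| := by
    have : 2 * sk k - 1 = 2 * (k * I) := by unfold sk; ring
    rw [this, norm_mul, norm_mul, Complex.norm_two, norm_I, norm_real, Real.norm_eq_abs, mul_one]
  have b1 : 0 < ‖bet (sk k)‖ := norm_pos_iff.2 (bet_ne r1)
  have b2 : 0 < ‖bet (1 - sk k)‖ := norm_pos_iff.2 (bet_ne r2)
  have e2 : ‖Cf k‖ * |k| =
      ‖sk k‖ * ‖bet ((2 - sk k) / 2)‖ / (4 * ‖bet (sk k)‖ * ‖bet (1 - sk k)‖) := by
    rw [Cf, norm_div, norm_mul, norm_mul, norm_mul, norm_mul, norm_neg, sk_norm, n3,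
      Complex.norm_two]
    field_simp
    ring
  rw [mul_pow (4 : ℝ), e, e2, div_pow, div_le_iff₀ (by positivity)]
  set N := ‖sk k‖
  set A := ‖bet (sk k)‖
  set B := ‖bet (1 - sk k)‖
  set D := ‖bet ((2 - sk k) / 2)‖
  have hN : 0 < N := norm_pos_iff.2 (ne_of_re r1)
  have u2 : D ^ 2 * N ≤ 24 := by
    have := mul_le_mul_of_nonneg_left n1 (sq_nonneg D)
    linarith
  have l3 : 1 ≤ 4 * (A ^ 2 * B ^ 2 * N ^ 2) := by
    have := mul_le_mul l1 l2 zero_le_one (by positivity)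
    linarith
  have n4 : N ^ 3 ≤ (1 + |k|) ^ 3 := pow_le_pow_left₀ hN.le n2 3
  calc (N * D) ^ 2 = D ^ 2 * N * N * 1 := by ring
    _ ≤ 24 * N * (4 * (A ^ 2 * B ^ 2 * N ^ 2)) :=
        mul_le_mul (mul_le_mul_of_nonneg_right u2 hN.le) l3 zero_le_one (by positivity)
    _ = 96 * (A ^ 2 * B ^ 2) * N ^ 3 := by ring
    _ ≤ 256 * (A ^ 2 * B ^ 2) * (1 + |k|) ^ 3 :=
        mul_le_mul (mul_le_mul_of_nonneg_right (by norm_num) (by positivity)) n4 (by positivity)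
          (by positivity)
    _ = _ := by ring

lemma cont_bet {f : ℝ → ℂ} (hf : Continuous f) (h : ∀ k, 0 < (f k).re) :
    Continuous fun k => bet (f k) :=
  bet_diff.continuousOn.comp_continuous hf h

lemma cf_meas : Measurable Cf := by
  have hs : Continuous sk := by unfold sk; fun_prop
  have c1 := cont_bet hs fun k => by rw [sk_re]; norm_num
  have c2 := cont_bet (f := fun k => 1 - sk k) (by fun_prop) fun k => by
    rw [← sk_neg, sk_re]; norm_num
  have c3 := cont_bet (f := fun k => (2 - sk k) / 2) (by fun_prop) fun k => by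
    simp [sk]; norm_num
  refine Measurable.div (Continuous.measurable ?_) (Continuous.measurable ?_)
  · fun_prop
  · fun_prop

lemma gam_mul (t : ℝ) : Gamma (sk t) * Gamma (sk (-t)) = (π / Real.cosh (π * t) : ℝ) := by
  have e : π * sk t = ((π * t : ℝ) : ℂ) * I + π / 2 := by unfold sk; push_cast; ring
  rw [sk_neg, Gamma_mul_Gamma_one_sub, e, Complex.sin_add_pi_div_two, Complex.cos_mul_I]
  push_cast
  rfl

lemma gam_sq (t : ℝ) : ‖Gamma (sk t)‖ ^ 2 = π / Real.cosh (π * t) := by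
  have h := gam_mul t
  rw [← sk_conj, Gamma_conj, Complex.mul_conj, Complex.normSq_eq_norm_sq] at h
  exact_mod_cast h

lemma gam_half (t : ℝ) : ‖Gamma (sk t)‖ ≤ 3 * Real.exp (-(π / 2) * |t|) := by
  refine le_of_sq (by positivity) ?_
  have hc := Real.cosh_pos (π * t)
  have h1 : Real.exp (π * |t|) ≤ 2 * Real.cosh (π * t) := by
    have a := Real.exp_pos (π * t)
    have b := Real.exp_pos (-(π * t))
    rw [Real.cosh_eq]
    rcases abs_cases t with h | h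
    · rw [h.1]; linarith
    · rw [h.1, mul_neg]; linarith
  have h2 : Real.exp (-(π / 2) * |t|) ^ 2 * Real.exp (π * |t|) = 1 := by
    rw [← Real.exp_nat_mul, ← Real.exp_add, ← Real.exp_zero]
    congr 1
    push_cast
    ring
  have hp : π ≤ 4 := Real.pi_le_four
  rw [gam_sq, div_le_iff₀ hc, mul_pow]
  have := mul_le_mul_of_nonneg_left h1 (sq_nonneg (Real.exp (-(π / 2) * |t|)))
  nlinarith

lemma sk_add (t x : ℝ) (h0 : 0 ≤ x) (h2 : x ≤ 2) : ‖sk t + x‖ ≤ 3 * (1 + |t|) := by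
  have := norm_le_abs_re_add_abs_im (sk t + x)
  rw [add_re, add_im, sk_re, sk_im, ofReal_re, ofReal_im, add_zero,
    abs_of_pos (by linarith)] at this
  have := abs_nonneg t
  linarith

lemma gam_seven (t : ℝ) :
    ‖Gamma (sk t + 3)‖ ≤ 81 * ((1 + |t|) ^ 3 * Real.exp (-(π / 2) * |t|)) := by
  have r : ∀ x : ℝ, 0 ≤ x → sk t + x ≠ 0 := fun x hx => ne_of_re (by
    rw [add_re, sk_re, ofReal_re]; linarith)
  have e : Gamma (sk t + 3) =
      (sk t + (2 : ℝ)) * ((sk t + (1 : ℝ)) * ((sk t + (0 : ℝ)) * Gamma (sk t + (0 : ℝ)))) := by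
    rw [← Gamma_add_one _ (r 0 le_rfl),
      show sk t + ((0 : ℝ) : ℂ) + 1 = sk t + (1 : ℝ) by push_cast; ring,
      ← Gamma_add_one _ (r 1 zero_le_one),
      show sk t + ((1 : ℝ) : ℂ) + 1 = sk t + (2 : ℝ) by push_cast; ring,
      ← Gamma_add_one _ (r 2 zero_le_two)]
    congr 1
    push_cast
    ring
  have h : ‖Gamma (sk t + (0 : ℝ))‖ ≤ 3 * Real.exp (-(π / 2) * |t|) := by
    simpa using gam_half t
  rw [e, norm_mul, norm_mul, norm_mul]
  calc _ ≤ 3 * (1 + |t|) * (3 * (1 + |t|) * (3 * (1 + |t|) * (3 * Real.exp (-(π / 2) * |t|)))) := by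
        gcongr
        · exact sk_add t 2 zero_le_two le_rfl
        · exact sk_add t 1 zero_le_one one_le_two
        · exact sk_add t 0 le_rfl zero_le_two
    _ = _ := by ring

lemma step2 {s : ℂ} (h0 : 0 < s.re) (h3 : s.re ≤ 3) (j : ℕ) :
    ‖(s.re : ℂ) + j‖ * ‖sk s.im + 3 + j‖ ≤ ‖s + j‖ * ‖((7 / 2 : ℝ) : ℂ) + j‖ := by
  have hj : (0 : ℝ) ≤ j := Nat.cast_nonneg j
  refine le_of_sq (by positivity) ?_
  rw [mul_pow, mul_pow, Complex.sq_norm, Complex.sq_norm, Complex.sq_norm, Complex.sq_norm,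
    normSq_apply, normSq_apply, normSq_apply, normSq_apply]
  simp only [add_re, add_im, sk_re, sk_im, ofReal_re, ofReal_im, natCast_re, natCast_im, re_ofNat,
    im_ofNat, add_zero, mul_zero]
  have h1 : (s.re + j) * (s.re + j) ≤ (7 / 2 + j) * (7 / 2 + j) :=
    mul_self_le_mul_self (by linarith) (by linarith)
  have := mul_le_mul_of_nonneg_right h1 (mul_self_nonneg s.im)
  nlinarith

lemma gam_bound : ∃ C : ℝ, ∀ s : ℂ, 1 / 4 ≤ s.re → s.re ≤ 3 →
    ‖Gamma s‖ ≤ C * (1 + |s.im|) ^ 3 * Real.exp (-(π / 2) * |s.im|) := by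
  have hc : ContinuousOn (fun x : ℝ => Gamma (x : ℂ)) (Icc (1 / 4) 3) := fun x hx =>
    (ContinuousAt.comp (g := Gamma) (f := fun x : ℝ => (x : ℂ))
      (dG (by rw [ofReal_re]; linarith [hx.1])).continuousAt
      continuous_ofReal.continuousAt).continuousWithinAt
  obtain ⟨M, hM⟩ := isCompact_Icc.exists_bound_of_continuousOn hc
  have r7 : 0 < ((7 / 2 : ℝ) : ℂ).re := by rw [ofReal_re]; norm_num
  have g7 : 0 < ‖Gamma ((7 / 2 : ℝ) : ℂ)‖ := norm_pos_iff.2 (Gamma_ne_zero_of_re_pos r7)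
  refine ⟨M * 81 / ‖Gamma ((7 / 2 : ℝ) : ℂ)‖, fun s h1 h3 => ?_⟩
  have h0 : 0 < s.re := by linarith
  have h := cmp (K := 1) (c := (s.re : ℂ)) (d := sk s.im + 3) h0 r7 (by rwa [ofReal_re])
    (by rw [add_re, sk_re]; norm_num) (by rw [add_re, sk_re, ofReal_re, ofReal_re]; norm_num)
    (fun n => by
      unfold pr
      rw [one_mul, ← Finset.prod_mul_distrib, ← Finset.prod_mul_distrib]
      exact Finset.prod_le_prod (fun j _ => by positivity) fun j _ => step2 h0 h3 j)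
  have hm := hM s.re ⟨h1, h3⟩
  have := mul_le_mul hm (gam_seven s.im) (norm_nonneg _) ((norm_nonneg _).trans hm)
  rw [mul_assoc, div_mul_eq_mul_div, le_div_iff₀ g7]
  linarith

end BET

open BET in
theorem t_bet : T_BET :=
  ⟨fun z hz => ⟨int_fu hz, bet_eq hz, bet_ne hz, bet_mul hz, bet_dup hz, int_cosh hz, val_cosh z,
      bet_ft hz⟩, bet_diff, ⟨8, fun z h _ => bet_dec z h⟩, ⟨4, cf_bound⟩, cf_meas, gam_bound,
    fun t => ⟨gam_mul t, gam_sq t⟩⟩

end

end Pool.Agent.Lib.E2
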