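import Pool.Agent.Lib.E2.Defs

/-!
Blueprint: every block `X` proves `theorem t_x : T_X` in the file `Lib/E2/X.lean`.
The paper is `/team-store/e2_PAPER.md`.
-/

namespace Pool.Agent.Lib.E2

noncomputable section

open Complex MeasureTheory Set Filter Topology
open scoped Real UpperHalfPlane MatrixGroups ComplexConjugate Modular ENNReal InnerProductSpace

/-! ### tools -/

def St_SHIFT : Prop :=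
  (∀ (f : ℂ → ℂ) (a b : ℝ) (g : ℝ → ℝ), a ≤ b →
    DifferentiableOn ℂ f {z | a < z.im ∧ z.im < b} → ContinuousOn f {z | a ≤ z.im ∧ z.im ≤ b} →
    Integrable g → (∀ z : ℂ, a ≤ z.im → z.im ≤ b → ‖f z‖ ≤ g z.re) →
    ∫ x : ℝ, f (x + a * I) = ∫ x : ℝ, f (x + b * I)) ∧
  (∀ (f : ℂ → ℂ) (a b : ℝ) (g : ℝ → ℝ), a ≤ b →
    DifferentiableOn ℂ f {z | a < z.re ∧ z.re < b} → ContinuousOn f {z | a ≤ z.re ∧ z.re ≤ b} →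
    Integrable g → (∀ z : ℂ, a ≤ z.re → z.re ≤ b → ‖f z‖ ≤ g z.im) →
    ∫ y : ℝ, f (a + y * I) = ∫ y : ℝ, f (b + y * I)) ∧
  ∀ (f : ℂ → ℂ) (p C a b : ℝ), a < 1 → 1 < a + b →
    (∀ t u : ℝ, 0 < t → u ∈ uIcc 0 p → DifferentiableAt ℂ f (t * exp (u * I))) →
    (∀ t u : ℝ, 0 < t → u ∈ uIcc 0 p → ‖f (t * exp (u * I))‖ ≤ C * t ^ (-a) * (1 + t) ^ (-b)) →
    ∫ t in Ioi (0 : ℝ), f t = ∫ t in Ioi (0 : ℝ), f (t * exp (p * I)) * exp (p * I)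

def St_SHP : Prop :=
  (∀ (h f : ℂ → ℂ) (n : ℕ) (a b c d : ℝ) (g : ℝ → ℝ), 0 < d → a < c - d → c + d < b →
    DifferentiableOn ℂ f {z | a < z.re ∧ z.re < b} → ContinuousOn f {z | a ≤ z.re ∧ z.re ≤ b} →
    (∀ z : ℂ, a ≤ z.re → z.re ≤ b → z ≠ c → h z = f z / (z - c) ^ n) →
    Integrable g → (∀ z : ℂ, a ≤ z.re → z.re ≤ b → 1 ≤ |z.im| → ‖h z‖ ≤ g z.im) →
    Integrable (fun y : ℝ => h (a + y * I)) ∧ Integrable (fun y : ℝ => h (b + y * I)) ∧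
    I * (∫ y : ℝ, h (b + y * I)) - I * (∫ y : ℝ, h (a + y * I)) = ∮ z in C(c, d), h z) ∧
  ∀ (h f : ℂ → ℂ) (n : ℕ) (c : ℂ) (d : ℝ), 0 < d →
    (∀ z ∈ Metric.closedBall c d, DifferentiableAt ℂ f z) →
    (∀ z ∈ Metric.sphere c d, h z = f z / (z - c) ^ n) →
    ∃ Q : Polynomial ℂ, ∀ r : ℂ, (∮ z in C(c, d), h z * exp ((z - c) * r)) = Q.eval r

def St_PAR : Prop :=
  (∀ (X : Type) [MeasurableSpace X] (μ : Measure X) (F : ℂ → X → ℂ) (U : Set ℂ), IsOpen U →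
    (∀ z ∈ U, AEStronglyMeasurable (F z) μ) →
    (∀ᵐ x ∂μ, DifferentiableOn ℂ (fun z => F z x) U) →
    (∀ z ∈ U, ∃ r : ℝ, 0 < r ∧ ∃ g : X → ℝ, Integrable g μ ∧
      ∀ᵐ x ∂μ, ∀ w ∈ U, ‖w - z‖ < r → ‖F w x‖ ≤ g x) →
    DifferentiableOn ℂ (fun z => ∫ x, F z x ∂μ) U ∧
    ∀ z ∈ U, Integrable (fun x => deriv (fun w => F w x) z) μ ∧
      deriv (fun z => ∫ x, F z x ∂μ) z = ∫ x, deriv (fun w => F w x) z ∂μ) ∧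
  (∀ (F : ℂ → ℂ → ℂ) (U : Set ℂ) (c : ℂ) (d : ℝ), IsOpen U → 0 < d →
    ContinuousOn (fun p : ℂ × ℂ => F p.1 p.2) (U ×ˢ Metric.sphere c d) →
    (∀ w ∈ Metric.sphere c d, DifferentiableOn ℂ (fun z => F z w) U) →
    DifferentiableOn ℂ (fun z => ∮ w in C(c, d), F z w) U) ∧
  (∀ (f g : ℂ → ℂ) (U : Set ℂ) (a b : ℝ), IsOpen U → IsPreconnected U →
    DifferentiableOn ℂ f U → DifferentiableOn ℂ g U → a < b →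
    (∀ x ∈ Ioo a b, (x : ℂ) ∈ U ∧ f x = g x) → EqOn f g U) ∧
  ∀ (s : Finset ℝ) (t0 : ℝ) (Q : ℕ), 0 < Q → ∃ q : ℕ, 1 ≤ q ∧ q ≤ Q ^ s.card ∧
    ∀ k ∈ s, ‖exp (-I * k * ((q : ℝ) * t0 : ℝ)) - 1‖ ≤ 2 * π / Q

/-! ### special functions -/

def St_BET : Prop :=
  (∀ z : ℂ, 0 < z.re →
    Integrable (fun u : ℝ => ((1 + u ^ 2 : ℝ) : ℂ) ^ (-z - 1 / 2)) ∧
    bet z = (√π : ℝ) * Gamma z / Gamma (z + 1 / 2) ∧ bet z ≠ 0 ∧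
    bet z * bet (z + 1 / 2) = π / z ∧
    Gamma z ^ 2 = 2 ^ (1 - 2 * z) * Gamma (2 * z) * bet z ∧
    Integrable (fun v : ℝ => (Real.cosh v : ℂ) ^ (-(2 * z))) ∧
    ∫ v : ℝ, (Real.cosh v : ℂ) ^ (-(2 * z)) = bet z ∧
    ∫ t in Ioi (0 : ℝ), (1 + t : ℂ) ^ (-z - 1 / 2) * (t : ℂ) ^ (-(1 / 2) : ℂ) = bet z) ∧
  DifferentiableOn ℂ bet {z | 0 < z.re} ∧
  (∃ C : ℝ, ∀ z : ℂ, 1 / 4 ≤ z.re → z.re ≤ 2 → ‖bet z‖ ≤ C * (1 + |z.im|) ^ (-(1 / 2) : ℝ)) ∧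
  (∃ C : ℝ, ∀ k : ℝ, ‖Cf k‖ * |k| ≤ C * (1 + |k|) ^ (3 / 2 : ℝ)) ∧ Measurable Cf ∧
  (∃ C : ℝ, ∀ s : ℂ, 1 / 4 ≤ s.re → s.re ≤ 3 →
    ‖Gamma s‖ ≤ C * (1 + |s.im|) ^ 3 * Real.exp (-(π / 2) * |s.im|)) ∧
  ∀ t : ℝ, Gamma (sk t) * Gamma (sk (-t)) = (π / Real.cosh (π * t) : ℝ) ∧
    ‖Gamma (sk t)‖ ^ 2 = π / Real.cosh (π * t)

def St_JB1 : Prop :=
  (∀ s r : ℂ, 0 < s.re → r ∈ Str → Integrable (fun u : ℝ =>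
    ((1 + u ^ 2 : ℝ) : ℂ) ^ (-s) * (1 + exp (-2 * r) + (u : ℂ) ^ 2) ^ (-(1 / 2) : ℂ))) ∧
  ContinuousOn (fun p : ℂ × ℂ => Jf p.1 p.2) DS ∧ CurveAn Jf DS ∧
  (∃ C : ℝ, ∀ s r : ℂ, 1 / 4 ≤ s.re → s.re ≤ 2 → r ∈ Str →
    ‖Jf s r‖ ≤ C * Real.exp (s.im * r.im - s.re * r.re) * (π / 2 - |r.im|) ^ (-(1 / 2) : ℝ)) ∧
  ∃ C : ℝ, ∀ (k : ℝ) (r : ℂ), r ∈ Str → 1 ≤ r.re →
    ‖exp (r / 2) * Jf (sk k) r - 2 * bet (sk k) * exp (-I * k * r)‖ ≤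
      C * Real.exp (k * r.im - 2 * r.re)

def St_JB2 : Prop := ∀ s : ℂ, 0 < s.re →
  (∀ r : ℝ,
    Integrable (fun v : ℝ => ((Real.cosh v * Real.cosh r + Real.sinh r : ℝ) : ℂ) ^ (-s)) ∧
    Jf s r = ∫ v : ℝ, ((Real.cosh v * Real.cosh r + Real.sinh r : ℝ) : ℂ) ^ (-s)) ∧
  Ode (fun r : ℝ => Jf s r) (s * (1 - s)) ∧ Jf s 0 = bet (s / 2) ∧
  HasDerivAt (fun r : ℝ => Jf s r) (-s * bet ((s + 1) / 2)) 0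

def St_JB3 : Prop :=
  (∀ (k : ℝ), ∀ e ∈ Ioc (0 : ℝ) (1 / 4), Jf (sk k) (rh e) = 2 * exp (-rh e / 2) *
    ∫ t in Ioi (0 : ℝ), exp (-I * k * (rh e + xs t)) * wJ (rh e) t) ∧
  (∀ (k : ℝ) (r : ℂ), exp (-I * k * r) = (1 / (2 * π) : ℂ) *
    ∫ t in Ioi (0 : ℝ), sk k * (2 * bet (sk k)) * exp (-I * k * (r + xs t)) * wH t) ∧
  (∀ t : ℝ, 0 < t → -(1 / 4) ≤ (xs t).im ∧ (xs t).im ≤ -(min t 1 / 20) ∧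
    0 ≤ (xs t).re ∧ (xs t).re ≤ Real.log (1 + t)) ∧
  ContinuousOn xs (Ioi 0) ∧ ContinuousOn wH (Ioi 0) ∧
  (∀ e ∈ Ioc (0 : ℝ) (1 / 4), ContinuousOn (wJ (rh e)) (Ioi 0)) ∧
  (∀ t : ℝ, 0 < t → ‖wH t‖ ≤ 3 * (1 + t) ^ (-(3 / 2) : ℝ) * t ^ (-(1 / 2) : ℝ)) ∧
  ∀ e ∈ Ioc (0 : ℝ) (1 / 4), ∀ t : ℝ, 0 < t →
    ‖wJ (rh e) t‖ ≤ 3 * (1 + t) ^ (-(1 / 2) : ℝ) * (e + t) ^ (-(1 / 2) : ℝ) * t ^ (-(1 / 2) : ℝ)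

def St_ODE : Prop := ∀ k : ℝ, k ≠ 0 → ∀ U : ℝ → ℂ, Ode U (1 / 4 + k ^ 2) →
  ∀ r : ℝ, U r + U (-r) = 2 * U 0 * pf k r

def St_KB : Prop :=
  DifferentiableOn ℂ (fun z => Kb z 0) {z | 0 < z.re} ∧ DifferentiableOn ℂ Wf {z | 0 < z.re} ∧
  (∀ a ∈ Ioc (0 : ℝ) (1 / 2), ∃ C : ℝ, ∀ z : ℂ, 0 < z.re →
    ‖Kb z 0‖ ≤ C * ‖z‖ ^ (-a) * Real.exp (-z.re)) ∧
  (∃ C : ℝ, ∀ z : ℂ, 0 < z.re →
    ‖deriv Wf z‖ ≤ C * (‖z‖ ^ (-1 : ℝ) + ‖z‖ ^ (-(5 / 4) : ℝ)) * Real.exp (-2 * z.re)) ∧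
  ∀ x : ℝ, 0 < x → (deriv Wf x).im = 0 ∧ (deriv Wf x).re < 0

def St_NB : Prop :=
  (∀ s r : ℂ, 0 < s.re → r ∈ Str →
    Integrable (fun v : ℝ => ((Real.cosh v : ℂ) + I * sinh r) ^ (-s)) ∧
    Integrable (fun v : ℝ => ((Real.cosh v : ℂ) - I * sinh r) ^ (-s))) ∧
  ContinuousOn (fun p : ℂ × ℂ => Nf p.1 p.2) DS ∧ CurveAn Nf DS ∧
  (∀ r ∈ Str, ∀ c : ℝ, 1 ≤ c →
    (c : ℂ) + I * sinh r ∈ slitPlane ∧ (c : ℂ) - I * sinh r ∈ slitPlane ∧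
    Real.cos r.im ^ 2 / 9 * (c + ‖sinh r‖) ≤ ‖(c : ℂ) + I * sinh r‖ ∧
    Real.cos r.im ^ 2 / 9 * (c + ‖sinh r‖) ≤ ‖(c : ℂ) - I * sinh r‖) ∧
  (∃ C : ℝ, ∀ s r : ℂ, 1 / 4 ≤ s.re → s.re ≤ 2 → r ∈ Str →
    ‖Nf s r‖ ≤ C / (π / 2 - |r.im|) ^ 4 * Real.exp (π * |s.im|) *
      (1 + ‖sinh r‖) ^ (1 / 8 - s.re)) ∧
  ∀ r : ℝ, ∃ C a : ℝ, a < π / 2 ∧ ∀ s : ℂ, 1 / 4 ≤ s.re → s.re ≤ 2 →
    ‖Nf s r‖ ≤ C * Real.exp (a * |s.im|)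

/-! ### the abstract recurrence argument -/

def St_ABS0 : Prop := ∀ (ι : Type) (k : ι → ℝ) (B : ι → ℂ), Disc k B → ContB →
  DifferentiableOn ℂ (Msum k B) Str ∧ DifferentiableOn ℂ (Gs k B) Str ∧
  DifferentiableOn ℂ (Hs k B) Str ∧
  (∀ r ∈ Str, Gs k B r / 2 - deriv (Gs k B) r =
    ∑' i, B i * (sk (k i) * (2 * bet (sk (k i))) * exp (-I * k i * r)) +
      ∫ t : ℝ, Bc t * (sk t * (2 * bet (sk t)) * exp (-I * t * r))) ∧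
  (∃ C : ℝ, ∀ r : ℝ, 0 ≤ r → ‖Msum k B r‖ ≤ C * Real.exp (-r / 2)) ∧
  ∃ (C : ℝ) (n : ℕ), ∀ e ∈ Ioc (0 : ℝ) 1, ∀ r : ℂ, e ≤ π / 2 - |r.im| →
    ‖Gs k B r / 2 - deriv (Gs k B) r‖ ≤ C / e ^ n ∧ ‖Hs k B r‖ ≤ C / e ^ n ∧
    (1 ≤ r.re → ‖exp (r / 2) * Msum k B r - Gs k B r‖ ≤ C / e ^ n * Real.exp (-2 * r.re))

def St_ABS1 : Prop := ∀ (ι : Type) (k : ι → ℝ) (B : ι → ℂ), Disc k B → ContB →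
  (∀ r : ℂ, 1 / 4 ≤ r.im → r.im < π / 2 → Hs k B r = (1 / (2 * π) : ℂ) *
    ∫ t in Ioi (0 : ℝ), (Gs k B (r + xs t) / 2 - deriv (Gs k B) (r + xs t)) * wH t) ∧
  ∀ e ∈ Ioc (0 : ℝ) (1 / 4), Msum k B (rh e) = 2 * exp (-rh e / 2) *
    ∫ t in Ioi (0 : ℝ), Hs k B (rh e + xs t) * wJ (rh e) t

def St_ABS2 : Prop := ∀ (ι : Type) (k : ι → ℝ) (B : ι → ℂ), Disc k B → ContB →
  ∃ (C : ℝ) (n : ℕ) (e0 : ℝ), 0 < e0 ∧ ∀ e ∈ Ioo (0 : ℝ) e0, ∃ u : ℝ,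
    3 / e ≤ u ∧ u ≤ Real.exp (1 / e ^ n) / 2 ∧
    ∀ r : ℂ, e ≤ π / 2 - |r.im| → π / 2 - |r.im| ≤ 1 →
      ‖Hs k B r - Hs k B (r + u)‖ ≤ C / (π / 2 - |r.im|)

def St_ABS3 : Prop := ∀ (ι : Type) (k : ι → ℝ) (B : ι → ℂ), Disc k B → ContB →
  ∃ (C : ℝ) (n : ℕ) (e0 : ℝ), 0 < e0 ∧ ∀ e ∈ Ioo (0 : ℝ) e0, ∀ A : ℝ, 1 ≤ A →
    (∀ r : ℂ, 1 / e ≤ r.re → r.re ≤ Real.exp (1 / e ^ n) → e / 2 ≤ π / 2 - r.im →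
      π / 2 - r.im ≤ 1 → ‖Msum k B r‖ ≤ A * Real.exp (-r.re / 2) / √(π / 2 - r.im)) →
    ‖Msum k B (rh e)‖ ≤ C * A / e

/-! ### bounds for zeta -/

def St_ZB1 : Prop :=
  (∀ s : ℂ, s ≠ 0 → s ≠ 1 → xi s = s * (s - 1) * Lam s) ∧ (∀ s : ℂ, xi (1 - s) = xi s) ∧
  (∀ s : ℂ, Lam (1 - s) = Lam s) ∧ (∀ s : ℂ, 1 ≤ s.re → xi s ≠ 0) ∧
  (∀ s : ℂ, s.re ≤ 0 → xi s ≠ 0) ∧
  (∀ s : ℂ, 0 < s.re → Lam s = (π : ℂ) ^ (-s / 2) * Gamma (s / 2) * riemannZeta s) ∧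
  (∀ s : ℂ, coef (1 - s) = coef s) ∧
  (∀ s : ℂ, s ≠ 1 / 2 → s ≠ 1 → xi (2 * s - 1) ≠ 0 → coef s * Lam (2 * s - 1) = Rf s) ∧
  (∀ s : ℂ, s ≠ 0 → s ≠ 1 / 2 → xi (2 * s) ≠ 0 → coef s * Lam (2 * s) = Rf (1 - s)) ∧
  (∀ e ∈ Ioc (0 : ℝ) (1 / 2), ∃ C : ℝ, ∀ s : ℂ, 1 - e ≤ s.re → s ≠ 1 →
    ‖(s - 1) * riemannZeta s‖ ≤ C * (1 + ‖s‖) ^ (1 + e)) ∧
  (∃ c : ℝ, 0 < c ∧ ∀ s : ℂ, 1 ≤ s.re → s.re ≤ 4 → s ≠ 1 →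
    c * (1 + |s.im|) ^ (63 / 64 : ℝ) ≤ ‖(s - 1) * riemannZeta s‖) ∧
  Continuous z4 ∧ (∀ t, 0 ≤ z4 t) ∧ (∀ t, z4 (-t) = z4 t) ∧
  (∀ t : ℝ, riemannZeta (sk t) ^ 2 * riemannZeta (sk (-t)) ^ 2 = z4 t) ∧
  ∃ C : ℝ, ∀ t, z4 t ≤ C * (1 + |t|) ^ 2

def St_ZB2 : Prop := ∀ e : ℝ, 0 < e → ∃ C : ℝ, ∀ r : ℝ,
  ‖Lam (sk r)‖ ≤ C * (1 + |r|) ^ e * Real.exp (-(π / 4) * |r|)

def St_DY : Prop :=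
  (∀ P, IsMain P → Mom9) ∧
  (Mom9 → ∀ a ∈ Icc (0 : ℝ) 1, ∃ C : ℝ, ∀ e ∈ Ioc (0 : ℝ) 1,
    Integrable (fun t : ℝ => z4 t * (1 + |t|) ^ (-a) * Real.exp (-e * |t|)) ∧
    ∫ t : ℝ, z4 t * (1 + |t|) ^ (-a) * Real.exp (-e * |t|) ≤ C * e ^ (a - 9 / 8)) ∧
  (Mom9 → IntegrableOn (fun t : ℝ => z4 t * (t ^ (-(1 / 2) : ℝ) * (1 + t) ^ (-(3 / 4) : ℝ)))
    (Ioi 0)) ∧
  (∀ t, HasDerivAt mom (z4 t) t) ∧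
  ∀ P, ContinuousOn (err P) (Ioi 0) ∧
    (∃ C : ℝ, ∀ t ∈ Ioc (0 : ℝ) 1, |err P t| ≤ C * t ^ (3 / 4 : ℝ)) ∧
    (∃ C : ℝ, ∀ t : ℝ, 1 ≤ t → |err P t| ≤ C * t ^ 3) ∧
    (IsMain P → ∃ C : ℝ, ∀ t : ℝ, 1 ≤ t → |err P t| ≤ C * t)

def St_ZB3 : Prop :=
  (∃ C : ℝ, ∀ s : ℂ, 1 / 2 ≤ s.re → s.re ≤ 2 → 1 ≤ |s.im| → ‖Rf s‖ ≤ C * Real.exp (-|s.im|)) ∧
  (∃ f : ℂ → ℂ, (∀ s : ℂ, 1 / 2 ≤ s.re → DifferentiableAt ℂ f s) ∧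
    ∀ s : ℂ, 1 / 2 ≤ s.re → s ≠ 1 → Rf s = f s / (s - 1) ^ 4) ∧
  (∃ f : ℂ → ℂ, (∀ s ∈ Metric.closedBall (1 : ℂ) dl, DifferentiableAt ℂ f s) ∧
    ∀ s ∈ Metric.closedBall (1 : ℂ) dl, s ≠ 1 → coef s = f s / (s - 1) ^ 3) ∧
  ContinuousOn coef (Metric.sphere 1 dl) ∧
  Continuous (fun t : ℝ => coef (sk t)) ∧
  (∃ C : ℝ, ∀ t : ℝ, ‖coef (sk t)‖ ≤ C * (1 + |t|) ^ 3) ∧
  (∀ s : ℂ, 0 < s.re → Pif s 0 = Lam s ^ 2) ∧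
  (∃ C : ℝ, ∀ t u : ℝ, |u| = |t| → ‖coef (sk t) * Pif (sk t) 0 * Cf u‖ ≤
    C * (z4 t * (1 + |t|) ^ (-(3 / 8) : ℝ) * Real.exp (-(π / 2) * |t|))) ∧
  (Mom9 → ContB)

def St_CJ : Prop := ∀ r : ℝ, cont r = ∫ t : ℝ, Bc t * Jf (sk t) r

/-! ### Eisenstein series -/

def St_VB1 : Prop :=
  (∀ z n : ℂ, 0 < z.re → Integrable (fun v : ℝ => exp (-z * Real.cosh v + n * v))) ∧
  ContinuousOn (fun p : ℂ × ℂ => Kb p.1 p.2) {p | 0 < p.1.re} ∧ CurveAn Kb {p | 0 < p.1.re} ∧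
  ∀ M : ℝ, ∃ (C : ℝ) (k : ℕ), ∀ (z n : ℂ) (u a b : ℝ), 0 ≤ u → u ≤ 1 → 0 < a → 0 ≤ b →
    a + b ≤ z.re * Real.cos u - |z.im| * Real.sin u → |n.re| ≤ M →
    ‖Kb z n‖ ≤ C * (1 + 1 / a) ^ k * Real.exp (-b - a / 2 - u * |n.im|)

def St_VB2 : Prop :=
  (∀ x y s : ℂ, |x.im| < y.re → Summable (fun p => ‖Vt x y s p‖)) ∧
  ContinuousOn (fun p : ℂ × ℂ × ℂ => Vf p.1 p.2.1 p.2.2) {p | |p.1.im| < p.2.1.re} ∧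
  (∀ (U : Set ℂ) (X Y S : ℂ → ℂ), IsOpen U → DifferentiableOn ℂ X U → DifferentiableOn ℂ Y U →
    DifferentiableOn ℂ S U → (∀ c ∈ U, |(X c).im| < (Y c).re) →
    DifferentiableOn ℂ (fun c => Vf (X c) (Y c) (S c)) U) ∧
  (∀ M : ℝ, ∃ (C : ℝ) (k : ℕ), ∀ m ∈ Ioc (0 : ℝ) 1, ∀ h : ℝ, 0 < h → ∀ x y s : ℂ, Adm m h x y →
    |s.re - 1 / 2| ≤ M →
    ‖Vf x y s‖ ≤ C * (1 + 1 / h) ^ k / m ^ k * Real.exp (-(m * h) - m ^ 2 * |s.im| / 4)) ∧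
  (∀ x y s : ℂ, Vf (-x) y s = Vf x y s ∧ Vf (x + 1) y s = Vf x y s) ∧
  ∀ y s : ℂ, 0 < y.re → ∫ x in (0 : ℝ)..1, Vf x y s = 0

def St_EIS1 : Prop := ∀ (z : ℍ) (s : ℂ), 1 < s.re →
  Summable (fun p => ‖lat z s p‖) ∧
  Es z s = (π : ℂ) ^ (-s) * Gamma s / 2 * ∑' p : ℤ × ℤ, lat z s p

def St_EIS2 : Prop :=
  (∀ s : ℂ, s ≠ 0 → s ≠ 1 / 2 → s ≠ 1 → Inv (fun z => Es z s)) ∧ Inv E0 ∧
  ∀ r y : ℝ, 0 < y →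
    (∀ s : ℂ, s ≠ 0 → s ≠ 1 / 2 → s ≠ 1 → Vr r (1 / y) s =
      Vr r y s + Ct (y / Real.cosh r) s - Ct (1 / (y * Real.cosh r)) s) ∧
    Vr r (1 / y) (1 / 2) = Vr r y (1 / 2) + Cp r y - Cm r y

def St_RAM1 : Prop := ∀ s : ℂ, 1 < s.re →
  Summable (fun n : ℕ => ‖(((n + 1).divisors.card : ℕ) : ℂ) ^ 2 * ((n : ℂ) + 1) ^ (-s)‖) ∧
  riemannZeta (2 * s) * ∑' n : ℕ, (((n + 1).divisors.card : ℕ) : ℂ) ^ 2 * ((n : ℂ) + 1) ^ (-s) =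
    riemannZeta s ^ 4

def St_RAM2 : Prop :=
  ContinuousOn (fun y : ℝ => Dd y) (Ioi 0) ∧
  ∀ s : ℂ, 1 < s.re → MellinConvergent (fun y : ℝ => Dd y / y) s ∧
    mellin (fun y : ℝ => Dd y / y) s = Rf s

def St_CONST : Prop := ∀ y : ℝ, 0 < y →
  Cc y ^ 2 = (2 * π * I : ℂ)⁻¹ * (∮ s in C(1, dl), Rf (1 - s) * (y : ℂ) ^ s) ∧
  Dd y = (1 / (2 * π) : ℂ) * (∫ t : ℝ, Rf (2 + t * I) * (y : ℂ) ^ (1 - (2 + t * I))) ∧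
  CircleIntegrable (fun s => coef s * Ct y s) 1 dl ∧
  Integrable (fun t : ℝ => coef (sk t) * Ct y (sk t)) ∧
  Cc y ^ 2 + Dd y = (2 * π * I : ℂ)⁻¹ * (∮ s in C(1, dl), coef s * Ct y s) +
    (1 / (4 * π) : ℂ) * ∫ t : ℝ, coef (sk t) * Ct y (sk t)

def St_CONST2 : Prop := ∀ a : ℝ, 0 < a →
  CircleIntegrable (fun s => coef s * Zf a s) 1 dl ∧
  Integrable (fun t : ℝ => coef (sk t) * Zf a (sk t)) ∧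
  2 * (∫ y in Ioi (1 : ℝ), Dd (y * a : ℝ) / y) +
    (2 * π * I : ℂ)⁻¹ * (∮ s in C(1, dl), coef s * Zf a s) +
    (1 / (4 * π) : ℂ) * (∫ t : ℝ, coef (sk t) * Zf a (sk t)) =
    2 * a * (el a ^ 2 - 2 * el a + 2)

def St_FC1 : Prop :=
  ContinuousOn (fun p : ℂ × ℂ => Ft p.1 p.2) Om ∧ CurveAn Ft Om ∧
  (∃ (C : ℝ) (k : ℕ), ∀ m ∈ Ioc (0 : ℝ) 1, ∀ h : ℝ, 1 / 2 ≤ h → ∀ x y : ℂ, Adm m h x y →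
    ‖Ft x y‖ ≤ C / m ^ k * Real.exp (-(m * h) / 2)) ∧
  (∀ x y : ℂ, Ft (-x) y = Ft x y) ∧
  (∀ y : ℝ, 0 < y → ∫ x in (0 : ℝ)..1, Ft x y = 0) ∧ Continuous Fc

def St_FC2 : Prop := Cusp Fc ∧ ∃ C : ℝ, ∀ z, ‖Fc z‖ ≤ C

def St_PI : Prop := ∀ (r : ℝ) (s : ℂ), 0 < s.re → s ≠ 1 / 2 → s ≠ 1 →
  PIl r s = Pif s r + Zf (1 / Real.cosh r) s

def St_LW : Prop := ∀ (r : ℝ) (w : ℂ), -(1 / 2) < w.re → w ≠ 1 / 2 →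
  ∫ y in Ioi (1 : ℝ), Vr r y (1 / 2) * ((y : ℂ) ^ w + (y : ℂ) ^ (-w)) / y =
    Lw r w + (√(1 / Real.cosh r) : ℝ) *
      (el (1 / Real.cosh r) / (1 / 2 - w) - 1 / (1 / 2 - w) ^ 2 +
        el (1 / Real.cosh r) / (1 / 2 + w) - 1 / (1 / 2 + w) ^ 2)

def St_PL : Prop := ∀ r : ℝ,
  2 * ∫ y in Ioi (1 : ℝ), (Vr r y (1 / 2) - Cm r y) ^ 2 / y = FF r

def St_T2I : Prop := ∀ r : ℝ,
  IntegrableOn (fun y : ℝ => Vr r y (1 / 2) * Cp r y / y) (Ioi 1) ∧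
  IntegrableOn (fun y : ℝ => Vr r y (1 / 2) * Cm r y / y) (Ioi 1) ∧
  IntegrableOn (fun y : ℝ => Vr r y (1 / 2) ^ 2 / y) (Ioi 1) ∧
  IntegrableOn (fun y : ℝ => Cm r y ^ 2 / y) (Ioi 1) ∧
  ∫ y in Ioi (1 : ℝ), Cm r y ^ 2 / y = (1 / Real.cosh r : ℝ) *
    (el (1 / Real.cosh r) ^ 2 - 2 * el (1 / Real.cosh r) + 2) ∧
  4 * ∫ y in Ioi (1 : ℝ), Vr r y (1 / 2) * (Cp r y + Cm r y) / y = T2 r + 4 * (1 / Real.cosh r : ℝ) *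
    (el (1 / Real.cosh r) ^ 2 - 2 * el (1 / Real.cosh r) + 2)

def St_MA1 : Prop := ∀ r : ℝ,
  Md r = per Fc (ray r) ∧ Md (-r) = Md r ∧
  CircleIntegrable (fun s => coef s * PIl r s) 1 dl ∧
  Integrable (fun t : ℝ => coef (sk t) * PIl r (sk t)) ∧
  Md r = 2 * (∫ y in Ioi (1 : ℝ), (2 * Cp r y * Vr r y (1 / 2) + Vr r y (1 / 2) ^ 2) / y) -
    2 * (∫ y in Ioi (1 : ℝ), Dd (y * (1 / Real.cosh r) : ℝ) / y) -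
    (2 * π * I : ℂ)⁻¹ * (∮ s in C(1, dl), coef s * PIl r s) -
    (1 / (4 * π) : ℂ) * ∫ t : ℝ, coef (sk t) * PIl r (sk t)

def St_MAINR : Prop := ∀ r : ℝ, Md r + cont r = RR r

/-! ### geometry of the upper half plane -/

def St_GEO : Prop :=
  (∀ z w : ℍ, qd z w = 1 + ((z.re - w.re) ^ 2 + (z.im - w.im) ^ 2) / (2 * z.im * w.im)) ∧
  (∀ z w : ℍ, 1 ≤ qd z w ∧ qd z w = qd w z) ∧ Continuous (fun p : ℍ × ℍ => qd p.1 p.2) ∧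
  (∀ z u w : ℍ, qd z w ≤ 2 * qd z u * qd u w) ∧
  (∀ g : SL(2, ℝ), (∀ z w : ℍ, qd (g • z) (g • w) = qd z w) ∧
    MeasurePreserving (fun w : ℍ => g • w) volume volume ∧
    ∀ f : ℍ → ℂ, (∫ w, f (g • w) = ∫ w, f w) ∧ (Integrable (fun w => f (g • w)) ↔ Integrable f)) ∧
  (∀ g : SL(2, ℤ), (∀ z w : ℍ, qd (g • z) (g • w) = qd z w) ∧
    MeasurePreserving (fun w : ℍ => g • w) volume volume ∧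
    ∀ f : ℍ → ℂ, (∫ w, f (g • w) = ∫ w, f w) ∧ (Integrable (fun w => f (g • w)) ↔ Integrable f)) ∧
  (∀ z : ℍ, ∃ g : SL(2, ℝ), g • UpperHalfPlane.I = z ∧
    ∀ w : ℍ, (g • w).re = z.re + z.im * w.re ∧ (g • w).im = z.im * w.im) ∧
  ∀ z w : ℍ, ∃ g : SL(2, ℝ), g • z = w ∧ g • w = z

def St_UNF1 : Prop :=
  (∀ x y : ℝ, 0 < y → (pt x y).re = x ∧ (pt x y).im = y) ∧ (∀ z : ℍ, pt z.re z.im = z) ∧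
  ContinuousOn (fun p : ℝ × ℝ => pt p.1 p.2) (univ ×ˢ Ioi 0) ∧
  Measurable (fun p : ℝ × ℝ => pt p.1 p.2) ∧
  (∀ F : ℍ → ℝ≥0∞, Measurable F →
    ∫⁻ w, F w = ∫⁻ y in Ioi (0 : ℝ), ∫⁻ x : ℝ, F (pt x y) * ENNReal.ofReal (1 / y ^ 2)) ∧
  (∀ f : ℍ → ℂ,
    (Integrable f ↔ IntegrableOn (fun p : ℝ × ℝ => ((1 / p.2 ^ 2 : ℝ) : ℂ) * f (pt p.1 p.2))
      (univ ×ˢ Ioi 0)) ∧
    ∫ w, f w = ∫ p in (univ ×ˢ Ioi 0 : Set (ℝ × ℝ)), ((1 / p.2 ^ 2 : ℝ) : ℂ) * f (pt p.1 p.2)) ∧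
  MeasurableSet strip ∧
  (∀ f : ℍ → ℂ, IntegrableOn f strip → ∫ w in strip, f w =
    ∫ y in Ioi (0 : ℝ), ((1 / y ^ 2 : ℝ) : ℂ) * ∫ x in (0 : ℝ)..1, f (pt x y)) ∧
  (∀ u : ℝ → ℝ≥0∞, Measurable u →
    ∫⁻ w in strip, u w.im = ∫⁻ y in Ioi (0 : ℝ), u y * ENNReal.ofReal (1 / y ^ 2) ∧
    ∫⁻ w, u w.im ∂muD ≤ ∫⁻ y in Ici (√3 / 2 : ℝ), u y * ENNReal.ofReal (1 / y ^ 2)) ∧
  IsFiniteMeasure muD ∧ (volume : Measure ℍ).IsOpenPosMeasure ∧ (volume : Measure ℍ) (𝒟 \ 𝒟ᵒ) = 0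

def St_UNF2 : Prop :=
  (∀ F : ℍ → ℝ≥0∞, Measurable F →
    2 * ∫⁻ w, F w = ∑' g : SL(2, ℤ), ∫⁻ z, F (g • z) ∂muD) ∧
  (∀ f : ℍ → ℂ, Integrable f →
    HasSum (fun g : SL(2, ℤ) => ∫ z, f (g • z) ∂muD) (2 * ∫ w, f w)) ∧
  (∀ F : ℍ → ℝ≥0∞, Measurable F →
    ∫⁻ w, F w = ∫⁻ w in strip, ∑' n : ℤ, F ((n : ℝ) +ᵥ w)) ∧
  (∀ f : ℍ → ℂ, Integrable f →
    IntegrableOn (fun w => ∑' n : ℤ, f ((n : ℝ) +ᵥ w)) strip ∧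
    ∫ w, f w = ∫ w in strip, ∑' n : ℤ, f ((n : ℝ) +ᵥ w)) ∧
  (∀ f : ℍ → ℂ, Inv f → ∀ (n : ℤ) (w : ℍ), f ((n : ℝ) +ᵥ w) = f w) ∧
  (∀ f : ℍ → ℂ, MemLp f 2 muD → ∃ g, Aut g ∧ g =ᵐ[muD] f) ∧
  ∀ f g : ℍ → ℂ, Inv f → Inv g → f =ᵐ[muD] g →
    f =ᵐ[volume] g ∧ (Continuous f → Continuous g → f = g)

def St_POLAR : Prop :=
  (∀ (z : ℍ) (c b : ℝ), px z c b = ((ppt z c b).re : ℂ) ∧ py z c b = ((ppt z c b).im : ℂ) ∧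
    qd z (ppt z c b) = 1 + 2 * c ^ 2) ∧
  (∀ z : ℍ, Continuous (fun p : ℝ × ℝ => ppt z p.1 p.2)) ∧
  (∀ (z : ℍ) (f : ℍ → ℂ),
    (Integrable f ↔ IntegrableOn (fun p : ℝ × ℝ => ((4 * p.1 : ℝ) : ℂ) * f (ppt z p.1 p.2))
      (Ioi 0 ×ˢ Ioo (-π) π)) ∧
    ∫ w, f w = ∫ p in (Ioi 0 ×ˢ Ioo (-π) π : Set (ℝ × ℝ)),
      ((4 * p.1 : ℝ) : ℂ) * f (ppt z p.1 p.2)) ∧
  (∀ (z : ℍ) (k : ℝ → ℝ≥0∞), Measurable k →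
    ∫⁻ w, k (qd z w) = ENNReal.ofReal (2 * π) * ∫⁻ q in Ioi (1 : ℝ), k q) ∧
  ∀ (z : ℍ) (k : ℝ → ℝ), Measurable k → IntegrableOn k (Ioi 1) →
    Integrable (fun w => k (qd z w)) ∧ ∫ w, k (qd z w) = 2 * π * ∫ q in Ioi (1 : ℝ), k q

/-! ### integral operators on automorphic functions -/

def St_KER1 : Prop :=
  (∀ (g : ℝ → ℝ) (x0 x : ℝ), (∀ t, 0 ≤ g t) → Integrable g → MonotoneOn g (Iic x0) →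
    AntitoneOn g (Ici x0) →
    Summable (fun n : ℤ => g (x + n)) ∧ |∑' n : ℤ, g (x + n) - ∫ t, g t| ≤ g x0) ∧
  ∀ f : ℍ → ℂ, Aut f →
    IntegrableOn (fun w : ℍ => min 1 (w.im ^ (3 / 2 : ℝ)) * ‖f w‖ ^ 2) strip ∧
    ∫ w in strip, min 1 (w.im ^ (3 / 2 : ℝ)) * ‖f w‖ ^ 2 ≤ 31 / 5 * n2 f

def St_KER2 : Prop :=
  (∀ f : ℍ → ℂ, Aut f → ∀ (C : ℝ) (u : ℝ → ℂ), Tst C u →
    IntegrableOn (fun w : ℍ => u w.im * f w) strip ∧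
    ‖∫ w in strip, u w.im * f w‖ ^ 2 ≤ 20 * C ^ 2 * n2 f) ∧
  (∀ f : ℍ → ℂ, Aut f → Cls f) ∧
  (∀ f : ℍ → ℂ, Cls f → ∀ a : ℝ, Real.cos a < 1 → ∀ z : ℍ,
    Integrable (fun w : ℍ => (ka a (qd z w) : ℂ) * f w)) ∧
  Integrable (fun z : ℍ => bb z.im) muD ∧ ∫ z, bb z.im ∂muD ≤ 27

def St_LIN : Prop :=
  (∀ f g : ℍ → ℂ, ∀ c : ℂ, Aut f → Aut g → Aut (fun z => f z + c * g z)) ∧
  (∀ f g : ℍ → ℂ, ∀ c : ℂ, Cusp f → Cusp g → Cusp (fun z => f z + c * g z)) ∧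
  (∀ (ι : Type) (s : Finset ι) (c : ι → ℂ) (f : ι → ℍ → ℂ), (∀ i ∈ s, Cusp (f i)) →
    Cusp (fun z => ∑ i ∈ s, c i * f i z)) ∧
  (∀ f : ℍ → ℂ, Continuous f → Inv f → (∃ C : ℝ, ∀ z, ‖f z‖ ≤ C) → Aut f) ∧
  (∀ f g : ℍ → ℂ, ∀ c : ℂ, Cls f → Cls g → Cls (fun z => f z + c * g z) ∧
    ∀ a : ℝ, Real.cos a < 1 → ∀ z, Lop a (fun z => f z + c * g z) z = Lop a f z + c * Lop a g z) ∧
  (∀ (ι : Type) (s : Finset ι) (c : ι → ℂ) (f : ι → ℍ → ℂ), (∀ i ∈ s, Cls (f i)) →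
    ∀ a : ℝ, Real.cos a < 1 → ∀ z,
      Lop a (fun z => ∑ i ∈ s, c i * f i z) z = ∑ i ∈ s, c i * Lop a (f i) z) ∧
  (∀ f g : ℍ → ℂ, ip g f = conj (ip f g) ∧ ip f f = n2 f ∧ 0 ≤ n2 f ∧
    ∀ c : ℂ, ip f (fun z => c * g z) = c * ip f g ∧ ip (fun z => c * f z) g = conj c * ip f g ∧
      n2 (fun z => c * f z) = ‖c‖ ^ 2 * n2 f) ∧
  (∀ f g h : ℍ → ℂ, ∀ c : ℂ, MemLp f 2 muD → MemLp g 2 muD → MemLp h 2 muD →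
    ip f (fun z => g z + c * h z) = ip f g + c * ip f h) ∧
  ∀ (ι : Type) (s : Finset ι) (φ : ι → ℍ → ℂ), (∀ i ∈ s, MemLp (φ i) 2 muD ∧ ip (φ i) (φ i) = 1) →
    (∀ i ∈ s, ∀ j ∈ s, i ≠ j → ip (φ i) (φ j) = 0) →
    (∀ c : ι → ℂ, n2 (fun z => ∑ i ∈ s, c i * φ i z) = ∑ i ∈ s, ‖c i‖ ^ 2) ∧
    ∀ g : ℍ → ℂ, MemLp g 2 muD → ∑ i ∈ s, ‖ip (φ i) g‖ ^ 2 ≤ n2 g

def St_SYM : Prop :=
  (∀ k : ℝ → ℝ, Measurable k → IntegrableOn k (Ioi 1) → ∀ f : ℍ → ℂ, Aut f →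
    Aut (Rop k f) ∧ ∀ g : ℍ → ℂ, Aut g → ip g (Rop k f) = ip (Rop k g) f) ∧
  (∀ a : ℝ, Real.cos a < 1 → Measurable (ka a) ∧ IntegrableOn (ka a) (Ioi 1)) ∧
  (∀ S : ℝ, Measurable (kw S) ∧ IntegrableOn (kw S) (Ioi 1)) ∧
  (∀ f g : ℍ → ℂ, Inv f → Inv g → f =ᵐ[muD] g → ∀ k z, Rop k f z = Rop k g z) ∧
  ∀ a b : ℝ, Real.cos a < 1 → Real.cos b < 1 → ∀ f : ℍ → ℂ, Aut f →
    Lop a (Lop b f) = Lop b (Lop a f)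

def St_KER3 : Prop := ∀ f : ℍ → ℂ, Cusp f → ∀ a : ℝ, Real.cos a < 1 →
  (∀ z : ℍ, ‖Lop a f z‖ ^ 2 ≤ (2 / (1 - Real.cos a)) ^ 3 * bb z.im * n2 f) ∧ Cusp (Lop a f)

def St_PDE : Prop := ∀ f : ℍ → ℂ, Cls f →
  (∀ a : ℝ, Real.cos a < 1 → Continuous (Lop a f)) ∧
  ∃ Fa Faa Fx Fxx Fy Fyy : ℝ → ℝ → ℝ → ℂ, ∀ a ∈ Ioo (0 : ℝ) (2 * π), ∀ x y : ℝ, 0 < y →
    HasDerivAt (fun a : ℝ => (Real.sin a : ℂ) * Lop a f (pt x y)) (Fa a x y) a ∧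
    HasDerivAt (fun a : ℝ => Fa a x y) (Faa a x y) a ∧
    HasDerivAt (fun x : ℝ => (Real.sin a : ℂ) * Lop a f (pt x y)) (Fx a x y) x ∧
    HasDerivAt (fun x : ℝ => Fx a x y) (Fxx a x y) x ∧
    HasDerivAt (fun y : ℝ => (Real.sin a : ℂ) * Lop a f (pt x y)) (Fy a x y) y ∧
    HasDerivAt (fun y : ℝ => Fy a x y) (Fyy a x y) y ∧
    Faa a x y + (y : ℂ) ^ 2 * (Fxx a x y + Fyy a x y) + (Real.sin a : ℂ) * Lop a f (pt x y) / 4 = 0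

def St_AI : Prop := ∀ (f : ℍ → ℂ) (z : ℍ), Cls f → ContinuousAt f z →
  Tendsto (fun a : ℝ => (Real.sin a : ℂ) * Lop a f z) (𝓝[>] 0) (𝓝 ((4 * √2 * π : ℝ) * f z))

def St_EIG0 : Prop :=
  (∀ (f : ℍ → ℂ) (lam : ℝ → ℂ), Continuous f → Cls f → (∃ z, f z ≠ 0) →
    (∀ a ∈ Ioc (0 : ℝ) π, ∀ z, Lop a f z = lam a * f z) →
    ∃ n c : ℂ, LapEig f (n ^ 2) ∧ (∀ a ∈ Ioo (0 : ℝ) π, Real.sin a * lam a = c * sh n (π - a)) ∧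
      c * sh n π = (4 * √2 * π : ℝ) ∧ ((∀ a ∈ Ioc (0 : ℝ) π, (lam a).im = 0) → (n ^ 2).im = 0)) ∧
  (∀ (n : ℂ) (k t : ℝ), 0 < k → n ^ 2 = k ^ 2 → sh n t = (Real.sinh (k * t) / k : ℝ)) ∧
  ∀ (f : ℍ → ℂ) (k : ℝ), 0 < k → Cls f → Eig f k → LapEig f (k ^ 2)

def St_YS : Prop := ∀ k : ℝ, 0 < k → Continuous (Ys k) ∧ Cls (Ys k) ∧ Eig (Ys k) k ∧
  ∀ (u : ℝ → ℝ) (z : ℍ), Rop u (Ys k) z = Rop u (Ys k) UpperHalfPlane.I * Ys k z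

def St_MOM : Prop := ∀ (f : ℍ → ℂ) (z : ℍ), Cls f → (∀ a ∈ Ioo (0 : ℝ) π, Lop a f z = 0) →
  ∀ k : ℝ → ℝ, Measurable k → Integrable (fun w => (k (qd z w) : ℂ) * f w) → Rop k f z = 0

def St_HILB : Prop :=
  ∀ (H : Type) [NormedAddCommGroup H] [InnerProductSpace ℂ H] [CompleteSpace H] (A : Type)
    (T : A → H →L[ℂ] H), (∀ a x y, ⟪T a x, y⟫_ℂ = ⟪x, T a y⟫_ℂ) →
    (∀ a b x, T a (T b x) = T b (T a x)) →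
    (∀ a, ∃ M : ℝ, ∀ (n : ℕ) (e : Fin n → H), Orthonormal ℂ e → ∑ i, ‖T a (e i)‖ ^ 2 ≤ M) →
    ∃ s : Set H, Orthonormal ℂ (fun v : s => (v : H)) ∧
      (∀ v ∈ s, (∀ a, ∃ l : ℂ, T a v = l • v) ∧ ∃ a, T a v ≠ 0) ∧
      ∀ v : H, (∀ w ∈ s, ⟪w, v⟫_ℂ = 0) → ∀ a, T a v = 0

def St_OPS : Prop := ∃ (ι : Type) (φ : ι → ℍ → ℂ), IsBasis φ ∧
  ∀ i, ∃ lam : ℝ → ℂ, ∀ a ∈ Ioc (0 : ℝ) π, ∀ z, Lop a (φ i) z = lam a * φ i z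

def St_EIG : Prop := ∀ (f : ℍ → ℂ) (lam : ℝ → ℂ), Cusp f → Continuous f → ip f f = 1 →
  (∀ a ∈ Ioc (0 : ℝ) π, ∀ z, Lop a f z = lam a * f z) → ∃ k : ℝ, 1 / 10 ≤ k ∧ Eig f k

def St_WAVE1 : Prop :=
  (∀ (f : ℍ → ℂ) (k S : ℝ) (z : ℍ), 0 < k → Continuous f → Cls f → Eig f k → 0 < S →
    S * Uop S f z = (π * Real.sin (2 * k * Real.arsinh S) / k : ℝ) * f z) ∧
  ∀ (f g : ℍ → ℂ) (S : ℝ), Aut f → Aut g → Continuous f → Continuous g → 0 < S →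
    ip g (Uop S f) = ip (Uop S g) f

def St_ADM : Prop :=
  (∀ (z : ℍ) (c : ℂ) (b : ℝ), ‖c‖ ^ 2 < 1 / 2 →
    Adm ((1 - 2 * ‖c‖ ^ 2) / 4) z.im (px z c b) (py z c b)) ∧
  (∀ (z : ℍ) (b : ℝ), DifferentiableOn ℂ (fun c => px z c b) {c | ‖c‖ ^ 2 < 1 / 2} ∧
    DifferentiableOn ℂ (fun c => py z c b) {c | ‖c‖ ^ 2 < 1 / 2}) ∧
  ContinuousOn (fun p : ℍ × ℂ × ℝ => (px p.1 p.2.1 p.2.2, py p.1 p.2.1 p.2.2))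
    {p | ‖p.2.1‖ ^ 2 < 1 / 2}

def St_WAVE2 : Prop := ∃ (C : ℝ) (n : ℕ), ∀ e ∈ Ioc (0 : ℝ) 1, ∃ g : ℍ → ℂ,
  MemLp g 2 muD ∧ n2 g ≤ C / e ^ n ∧
  ∀ (f : ℍ → ℂ) (k : ℝ), 0 < k → Aut f → Continuous f → Eig f k →
    ‖ip f Fc‖ * (Real.sinh (k * (π / 2 - e)) / k) ≤ ‖ip f g‖

def St_RAY : Prop := ∀ (f : ℍ → ℂ) (k A : ℝ), 0 < k → Continuous f → Inv f → Eig f k →
  (∀ z, ‖f z‖ ≤ A * z.im ^ (-(1 / 4) : ℝ)) →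
  Ode (fun r => per f (ray r)) (1 / 4 + k ^ 2) ∧
  ∀ r : ℝ, IntegrableOn (fun y : ℝ => f (pt (y * (ray r).re) (y * (ray r).im)) / y) (Ioi 0) ∧
    ∫ y in Ioi (0 : ℝ), ‖f (pt (y * (ray r).re) (y * (ray r).im)) / y‖ ≤
      8 * A * Real.cosh r ^ (1 / 4 : ℝ)

def St_BES : Prop := ∀ (ι : Type) (φ : ι → ℍ → ℂ) (k : ι → ℝ), EBasis φ k → ∃ C : ℝ,
  (∀ K : ℝ, 1 ≤ K → {i | k i ≤ K}.Finite ∧ ({i | k i ≤ K}.ncard : ℝ) ≤ C * K ^ 4) ∧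
  ∀ i z, ‖φ i z‖ ≤ C * (1 + k i) ^ 2 ∧ ‖φ i z‖ ≤ C * (1 + k i) ^ 2 * z.im ^ (-(1 / 4) : ℝ)

def St_COEF : Prop := ∀ (ι : Type) (φ : ι → ℍ → ℂ) (k : ι → ℝ), EBasis φ k →
  ∃ (C : ℝ) (n : ℕ), ∀ e ∈ Ioc (0 : ℝ) 1,
    Summable (fun i => ‖ip (φ i) Fc‖ * (1 + k i) ^ 3 * Real.exp ((π / 2 - e) * k i)) ∧
    ∑' i, ‖ip (φ i) Fc‖ * (1 + k i) ^ 3 * Real.exp ((π / 2 - e) * k i) ≤ C / e ^ n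

def St_EXP : Prop := ∀ (ι : Type) (φ : ι → ℍ → ℂ) (k : ι → ℝ), EBasis φ k →
  ∀ z, HasSum (fun i => ip (φ i) Fc * φ i z) (Fc z)

def St_SPEC : Prop := ∃ (ι : Type) (k : ι → ℝ) (B : ι → ℂ), Disc k B ∧
  ∀ r : ℝ, Md r = ∑' i, B i * Jf (sk (k i)) r

/-! ### asymptotics -/

def St_AN : Prop := DifferentiableOn ℂ RR Str

def St_TH : Prop := ∀ e ∈ Ioc (0 : ℝ) 1, ∀ r : ℂ, Reg e r →
  r ∈ Str ∧ e / 4 * ‖th r‖ ≤ (th r).re ∧ 0 < ‖th r‖ ∧ ‖th r‖ ≤ 1 ∧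
  Real.exp (-r.re) ≤ ‖th r‖ ∧ ‖th r‖ ≤ 3 * Real.exp (-r.re) ∧
  ‖log (th r) - (Real.log 2 - r)‖ ≤ 2 * Real.exp (-2 * r.re) ∧
  0 < (sinh r).re ∧ 0 ≤ (sinh r).im ∧
  Real.exp r.re / 3 ≤ ‖cosh r‖ ∧ ‖cosh r‖ ≤ Real.exp r.re ∧ ‖log (cosh r)‖ ≤ r.re + 4

def St_INF2 : Prop := ∃ (C : ℝ) (k : ℕ), ∀ e ∈ Ioc (0 : ℝ) 1, ∀ r : ℂ, Reg e r →
  ‖T2 r‖ ≤ C / e ^ k * Real.exp (-(3 / 5) * r.re)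

def St_INF3 : Prop := ∃ (Q : Polynomial ℂ) (C : ℝ) (k : ℕ), ∀ e ∈ Ioc (0 : ℝ) 1, ∀ r : ℂ,
  Reg e r → ‖T3 r - Q.eval r‖ ≤ C / e ^ k * Real.exp (-(3 / 5) * r.re)

def St_FWA : Prop := ∃ (C : ℝ) (k : ℕ), ∀ e ∈ Ioc (0 : ℝ) 1, ∀ (z : ℂ) (t u : ℝ),
  u = 1 ∨ u = -1 → e * ‖z‖ ≤ z.re → 0 < ‖z‖ → ‖z‖ ≤ 1 → 0 < t →
  ‖(∫ v : ℝ, (1 - u * I * z * Real.cosh v) ^ (-sk (u * t))) - Kb (z * t) 0‖ ≤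
    C / e ^ k * (t ^ (-(1 / 8) : ℝ) * (1 + t) ^ (-(7 / 8) : ℝ))

def St_FWB : Prop := ∃ (C : ℝ) (k : ℕ), ∀ e ∈ Ioc (0 : ℝ) 1, ∀ r : ℂ, Reg e r →
  ∀ t : ℝ, 0 < t → ‖wf r t - th r * Wf (th r * t)‖ ≤
    C / e ^ k * ‖th r‖ ^ (3 / 4 : ℝ) * (t ^ (-(1 / 2) : ℝ) * (1 + t) ^ (-(3 / 4) : ℝ))

def St_WP : Prop := ∀ P : Polynomial ℝ,
  (∃ Q : Polynomial ℂ, ∀ z : ℂ, 0 < z.re →
    IntegrableOn (fun t : ℝ => (z4 t : ℂ) * (z * Wf (z * t))) (Ioi 0) ∧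
    ∫ t in Ioi (0 : ℝ), (z4 t : ℂ) * (z * Wf (z * t)) = -ET P z + Q.eval (log z)) ∧
  (IsMain P → Tendsto (fun x : ℝ => ET P x) (𝓝[>] 0) (𝓝 0))

def St_ASY : Prop := Mom9 → ∀ P : Polynomial ℝ, ∃ (Q : Polynomial ℂ) (C : ℝ) (k : ℕ),
  ∀ e ∈ Ioc (0 : ℝ) 1, ∀ r : ℂ, Reg e r →
    ‖RR r + ET P (th r) / π - Q.eval r‖ ≤ C / e ^ k * Real.exp (-(3 / 5) * r.re)

def St_SING1 : Prop := ∃ C : ℝ, ∀ e ∈ Ioc (0 : ℝ) 1, ‖FF (rh e)‖ ≤ C / e ∧ ‖T3 (rh e)‖ ≤ C / e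

def St_SING2 : Prop := ∃ e0 : ℝ, 0 < e0 ∧ ∀ e ∈ Ioo (0 : ℝ) e0,
  Real.log (1 / e) ^ 3 / e ≤ ‖T2 (rh e)‖

def St_TWO : Prop := ∀ (P : Polynomial ℝ) (u : ℝ), IsMain P → u = 1 ∨ u = -1 →
  (∃ C x0 : ℝ, 0 < x0 ∧ ∀ x : ℝ, 0 < x → x ≤ x0 → ‖ET P x‖ ≤ C * √x) →
  ∃ C : ℝ, ∀ (A T1 e : ℝ) (z : ℂ), 1 ≤ A → 1 ≤ T1 →
    (∀ T : ℝ, 1 ≤ T → T ≤ T1 → ∫ t in T..2 * T, max (u * err P t) 0 ≤ A * T ^ (3 / 2 : ℝ)) →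
    0 < e → e ≤ 1 → T1 ^ (-(1 / 8) : ℝ) ≤ ‖z‖ → ‖z‖ ≤ e → e * ‖z‖ ≤ z.re →
    ‖ET P z‖ ≤ C * A * √‖z‖ / √e

def St_GLUE : Prop := Mom9 → ∃ (ι : Type) (k : ι → ℝ) (B : ι → ℂ), Disc k B ∧
  ∀ r ∈ Str, Msum k B r = RR r

/-! ### block types -/

def T_SHIFT : Prop := St_SHIFT
def T_SHP : Prop := St_SHIFT → St_SHP
def T_PAR : Prop := St_PAR
def T_BET : Prop := St_BET
def T_JB1 : Prop := St_PAR → St_BET → St_JB1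
def T_JB2 : Prop := St_BET → St_JB2
def T_JB3 : Prop := St_SHIFT → St_BET → St_JB3
def T_ODE : Prop := St_BET → St_JB1 → St_JB2 → St_ODE
def T_KB : Prop := St_SHIFT → St_PAR → St_KB
def T_NB : Prop := St_PAR → St_BET → St_NB
def T_ABS0 : Prop := St_PAR → St_BET → St_JB1 → St_ABS0
def T_ABS1 : Prop := St_BET → St_JB3 → St_ABS0 → St_ABS1
def T_ABS2 : Prop := St_PAR → St_ABS2
def T_ABS3 : Prop := St_JB3 → St_ABS0 → St_ABS1 → St_ABS2 → St_ABS3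
def T_ZB1 : Prop := St_ZB1
def T_ZB2 : Prop := St_BET → St_ZB1 → St_ZB2
def T_DY : Prop := St_ZB1 → St_DY
def T_ZB3 : Prop := St_BET → St_JB2 → St_ZB1 → St_ZB2 → St_DY → St_ZB3
def T_CJ : Prop := St_BET → St_JB1 → St_JB2 → St_ODE → St_ZB1 → St_ZB3 → St_CJ
def T_VB1 : Prop := St_SHIFT → St_PAR → St_VB1
def T_VB2 : Prop := St_VB1 → St_VB2
def T_EIS1 : Prop := St_ZB1 → St_VB1 → St_VB2 → St_EIS1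
def T_EIS2 : Prop := St_PAR → St_ZB1 → St_VB2 → St_UNF1 → St_EIS1 → St_EIS2
def T_RAM1 : Prop := St_RAM1
def T_RAM2 : Prop := St_BET → St_KB → St_ZB1 → St_VB1 → St_VB2 → St_RAM1 → St_RAM2
def T_CONST : Prop := St_SHP → St_ZB1 → St_ZB3 → St_RAM2 → St_CONST
def T_CONST2 : Prop := St_SHP → St_ZB1 → St_ZB3 → St_CONST → St_CONST2
def T_FC1 : Prop := St_PAR → St_ZB3 → St_VB2 → St_FC1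
def T_FC2 : Prop := St_ZB3 → St_VB2 → St_EIS2 → St_CONST → St_FC1 → St_UNF1 → St_FC2
def T_PI : Prop := St_PAR → St_JB1 → St_JB2 → St_ZB1 → St_VB2 → St_UNF1 → St_EIS1 → St_EIS2 → St_PI
def T_LW : Prop := St_PAR → St_NB → St_ZB1 → St_VB1 → St_VB2 → St_EIS2 → St_LW
def T_PL : Prop := St_BET → St_NB → St_ZB1 → St_VB2 → St_EIS2 → St_LW → St_PL
def T_T2I : Prop := St_PAR → St_NB → St_VB2 → St_LW → St_T2I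
def T_MA1 : Prop := St_ZB3 → St_VB2 → St_UNF1 → St_FC1 → St_FC2 → St_MA1
def T_MAINR : Prop := St_CONST2 → St_PI → St_PL → St_T2I → St_MA1 → St_MAINR
def T_GEO : Prop := St_GEO
def T_UNF1 : Prop := St_UNF1
def T_UNF2 : Prop := St_GEO → St_UNF1 → St_UNF2
def T_POLAR : Prop := St_GEO → St_UNF1 → St_POLAR
def T_KER1 : Prop := St_UNF1 → St_UNF2 → St_KER1
def T_KER2 : Prop := St_GEO → St_UNF1 → St_UNF2 → St_KER1 → St_KER2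
def T_LIN : Prop := St_UNF1 → St_KER2 → St_LIN
def T_SYM : Prop := St_GEO → St_UNF1 → St_UNF2 → St_POLAR → St_KER2 → St_SYM
def T_KER3 : Prop := St_GEO → St_UNF1 → St_UNF2 → St_KER1 → St_KER2 → St_SYM → St_KER3
def T_PDE : Prop := St_GEO → St_UNF1 → St_KER2 → St_PDE
def T_AI : Prop := St_GEO → St_POLAR → St_KER2 → St_AI
def T_EIG0 : Prop := St_UNF1 → St_PDE → St_AI → St_EIG0
def T_YS : Prop := St_GEO → St_UNF1 → St_EIG0 → St_YS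
def T_MOM : Prop := St_GEO → St_POLAR → St_KER2 → St_MOM
def T_HILB : Prop := St_HILB
def T_OPS : Prop := St_UNF1 → St_UNF2 → St_KER2 → St_LIN → St_SYM → St_KER3 → St_PDE → St_HILB →
  St_OPS
def T_EIG : Prop := St_KER2 → St_LIN → St_SYM → St_KER3 → St_EIG0 → St_EIG
def T_WAVE1 : Prop := St_GEO → St_UNF1 → St_POLAR → St_LIN → St_SYM → St_YS → St_MOM → St_WAVE1
def T_ADM : Prop := St_ADM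
def T_WAVE2 : Prop := St_PAR → St_FC1 → St_FC2 → St_UNF1 → St_POLAR → St_KER2 → St_LIN →
  St_WAVE1 → St_ADM → St_WAVE2
def T_RAY : Prop := St_GEO → St_UNF1 → St_POLAR → St_EIG0 → St_RAY
def T_BES : Prop := St_UNF1 → St_KER2 → St_LIN → St_KER3 → St_BES
def T_COEF : Prop := St_LIN → St_WAVE2 → St_BES → St_COEF
def T_EXP : Prop := St_FC1 → St_FC2 → St_UNF1 → St_KER2 → St_LIN → St_AI → St_BES → St_COEF →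
  St_EXP
def T_SPEC : Prop := St_BET → St_JB1 → St_ODE → St_MA1 → St_UNF1 → St_OPS → St_EIG → St_RAY →
  St_BES → St_COEF → St_EXP → St_SPEC
def T_AN : Prop := St_PAR → St_JB1 → St_NB → St_ZB1 → St_ZB3 → St_AN
def T_TH : Prop := St_TH
def T_INF2 : Prop := St_NB → St_TH → St_INF2
def T_INF3 : Prop := St_SHP → St_BET → St_JB1 → St_ZB3 → St_INF3
def T_FWA : Prop := St_BET → St_VB1 → St_FWA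
def T_FWB : Prop := St_KB → St_NB → St_TH → St_FWA → St_FWB
def T_WP : Prop := St_PAR → St_KB → St_ZB1 → St_DY → St_WP
def T_ASY : Prop := St_NB → St_ZB1 → St_DY → St_TH → St_INF2 → St_INF3 → St_FWB → St_WP → St_ASY
def T_SING1 : Prop := St_BET → St_JB1 → St_NB → St_ZB1 → St_ZB3 → St_SING1
def T_SING2 : Prop := St_BET → St_NB → St_SING2
def T_TWO : Prop := St_KB → St_DY → St_TWO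
def T_GLUE : Prop := St_PAR → St_ABS0 → St_ZB3 → St_CJ → St_MAINR → St_SPEC → St_AN → St_GLUE
def T_FIN : Prop := St_ABS0 → St_ABS3 → St_DY → St_ZB3 → St_TH → St_WP → St_ASY → St_SING1 →
  St_SING2 → St_TWO → St_GLUE → Core

/-! ### assembly -/

theorem core_of
    (hSHIFT : T_SHIFT) (hSHP : T_SHP) (hPAR : T_PAR) (hBET : T_BET) (hJB1 : T_JB1) (hJB2 : T_JB2)
    (hJB3 : T_JB3) (hODE : T_ODE) (hKB : T_KB) (hNB : T_NB) (hABS0 : T_ABS0) (hABS1 : T_ABS1)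
    (hABS2 : T_ABS2) (hABS3 : T_ABS3) (hZB1 : T_ZB1) (hZB2 : T_ZB2) (hDY : T_DY) (hZB3 : T_ZB3)
    (hCJ : T_CJ) (hVB1 : T_VB1) (hVB2 : T_VB2) (hEIS1 : T_EIS1) (hEIS2 : T_EIS2) (hRAM1 : T_RAM1)
    (hRAM2 : T_RAM2) (hCONST : T_CONST) (hCONST2 : T_CONST2) (hFC1 : T_FC1) (hFC2 : T_FC2)
    (hPI : T_PI) (hLW : T_LW) (hPL : T_PL) (hT2I : T_T2I) (hMA1 : T_MA1) (hMAINR : T_MAINR)
    (hGEO : T_GEO) (hUNF1 : T_UNF1) (hUNF2 : T_UNF2) (hPOLAR : T_POLAR) (hKER1 : T_KER1)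
    (hKER2 : T_KER2) (hLIN : T_LIN) (hSYM : T_SYM) (hKER3 : T_KER3) (hPDE : T_PDE) (hAI : T_AI)
    (hEIG0 : T_EIG0) (hYS : T_YS) (hMOM : T_MOM) (hHILB : T_HILB) (hOPS : T_OPS) (hEIG : T_EIG)
    (hWAVE1 : T_WAVE1) (hADM : T_ADM) (hWAVE2 : T_WAVE2) (hRAY : T_RAY) (hBES : T_BES)
    (hCOEF : T_COEF) (hEXP : T_EXP) (hSPEC : T_SPEC) (hAN : T_AN) (hTH : T_TH) (hINF2 : T_INF2)
    (hINF3 : T_INF3) (hFWA : T_FWA) (hFWB : T_FWB) (hWP : T_WP) (hASY : T_ASY) (hSING1 : T_SING1)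
    (hSING2 : T_SING2) (hTWO : T_TWO) (hGLUE : T_GLUE) (hFIN : T_FIN) : Core := by
  have sSHIFT : St_SHIFT := hSHIFT
  have sSHP : St_SHP := hSHP sSHIFT
  have sPAR : St_PAR := hPAR
  have sBET : St_BET := hBET
  have sJB1 : St_JB1 := hJB1 sPAR sBET
  have sJB2 : St_JB2 := hJB2 sBET
  have sJB3 : St_JB3 := hJB3 sSHIFT sBET
  have sODE : St_ODE := hODE sBET sJB1 sJB2
  have sKB : St_KB := hKB sSHIFT sPAR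
  have sNB : St_NB := hNB sPAR sBET
  have sABS0 : St_ABS0 := hABS0 sPAR sBET sJB1
  have sABS1 : St_ABS1 := hABS1 sBET sJB3 sABS0
  have sABS2 : St_ABS2 := hABS2 sPAR
  have sABS3 : St_ABS3 := hABS3 sJB3 sABS0 sABS1 sABS2
  have sZB1 : St_ZB1 := hZB1
  have sZB2 : St_ZB2 := hZB2 sBET sZB1
  have sDY : St_DY := hDY sZB1
  have sZB3 : St_ZB3 := hZB3 sBET sJB2 sZB1 sZB2 sDY
  have sCJ : St_CJ := hCJ sBET sJB1 sJB2 sODE sZB1 sZB3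
  have sVB1 : St_VB1 := hVB1 sSHIFT sPAR
  have sVB2 : St_VB2 := hVB2 sVB1
  have sEIS1 : St_EIS1 := hEIS1 sZB1 sVB1 sVB2
  have sUNF1 : St_UNF1 := hUNF1
  have sEIS2 : St_EIS2 := hEIS2 sPAR sZB1 sVB2 sUNF1 sEIS1
  have sRAM1 : St_RAM1 := hRAM1
  have sRAM2 : St_RAM2 := hRAM2 sBET sKB sZB1 sVB1 sVB2 sRAM1
  have sCONST : St_CONST := hCONST sSHP sZB1 sZB3 sRAM2
  have sCONST2 : St_CONST2 := hCONST2 sSHP sZB1 sZB3 sCONST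
  have sFC1 : St_FC1 := hFC1 sPAR sZB3 sVB2
  have sFC2 : St_FC2 := hFC2 sZB3 sVB2 sEIS2 sCONST sFC1 sUNF1
  have sPI : St_PI := hPI sPAR sJB1 sJB2 sZB1 sVB2 sUNF1 sEIS1 sEIS2
  have sLW : St_LW := hLW sPAR sNB sZB1 sVB1 sVB2 sEIS2
  have sPL : St_PL := hPL sBET sNB sZB1 sVB2 sEIS2 sLW
  have sT2I : St_T2I := hT2I sPAR sNB sVB2 sLW
  have sMA1 : St_MA1 := hMA1 sZB3 sVB2 sUNF1 sFC1 sFC2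
  have sMAINR : St_MAINR := hMAINR sCONST2 sPI sPL sT2I sMA1
  have sGEO : St_GEO := hGEO
  have sUNF2 : St_UNF2 := hUNF2 sGEO sUNF1
  have sPOLAR : St_POLAR := hPOLAR sGEO sUNF1
  have sKER1 : St_KER1 := hKER1 sUNF1 sUNF2
  have sKER2 : St_KER2 := hKER2 sGEO sUNF1 sUNF2 sKER1
  have sLIN : St_LIN := hLIN sUNF1 sKER2
  have sSYM : St_SYM := hSYM sGEO sUNF1 sUNF2 sPOLAR sKER2
  have sKER3 : St_KER3 := hKER3 sGEO sUNF1 sUNF2 sKER1 sKER2 sSYM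
  have sPDE : St_PDE := hPDE sGEO sUNF1 sKER2
  have sAI : St_AI := hAI sGEO sPOLAR sKER2
  have sEIG0 : St_EIG0 := hEIG0 sUNF1 sPDE sAI
  have sYS : St_YS := hYS sGEO sUNF1 sEIG0
  have sMOM : St_MOM := hMOM sGEO sPOLAR sKER2
  have sHILB : St_HILB := hHILB
  have sOPS : St_OPS := hOPS sUNF1 sUNF2 sKER2 sLIN sSYM sKER3 sPDE sHILB
  have sEIG : St_EIG := hEIG sKER2 sLIN sSYM sKER3 sEIG0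
  have sWAVE1 : St_WAVE1 := hWAVE1 sGEO sUNF1 sPOLAR sLIN sSYM sYS sMOM
  have sADM : St_ADM := hADM
  have sWAVE2 : St_WAVE2 := hWAVE2 sPAR sFC1 sFC2 sUNF1 sPOLAR sKER2 sLIN sWAVE1 sADM
  have sRAY : St_RAY := hRAY sGEO sUNF1 sPOLAR sEIG0
  have sBES : St_BES := hBES sUNF1 sKER2 sLIN sKER3
  have sCOEF : St_COEF := hCOEF sLIN sWAVE2 sBES
  have sEXP : St_EXP := hEXP sFC1 sFC2 sUNF1 sKER2 sLIN sAI sBES sCOEF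
  have sSPEC : St_SPEC := hSPEC sBET sJB1 sODE sMA1 sUNF1 sOPS sEIG sRAY sBES sCOEF sEXP
  have sAN : St_AN := hAN sPAR sJB1 sNB sZB1 sZB3
  have sTH : St_TH := hTH
  have sINF2 : St_INF2 := hINF2 sNB sTH
  have sINF3 : St_INF3 := hINF3 sSHP sBET sJB1 sZB3
  have sFWA : St_FWA := hFWA sBET sVB1
  have sFWB : St_FWB := hFWB sKB sNB sTH sFWA
  have sWP : St_WP := hWP sPAR sKB sZB1 sDY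
  have sASY : St_ASY := hASY sNB sZB1 sDY sTH sINF2 sINF3 sFWB sWP
  have sSING1 : St_SING1 := hSING1 sBET sJB1 sNB sZB1 sZB3
  have sSING2 : St_SING2 := hSING2 sBET sNB
  have sTWO : St_TWO := hTWO sKB sDY
  have sGLUE : St_GLUE := hGLUE sPAR sABS0 sZB3 sCJ sMAINR sSPEC sAN
  exact hFIN sABS0 sABS3 sDY sZB3 sTH sWP sASY sSING1 sSING2 sTWO sGLUE

end

end Pool.Agent.Lib.E2
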