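import Pool.Agent.Lib.E2.Blue

/-!
Second blueprint: existence of the main term polynomial. Paper: section 8 of `e2_PAPER.md`.
-/

namespace Pool.Agent.Lib.E2

noncomputable section

open Complex MeasureTheory Set Filter Topology
open scoped Real

/-- the sharp upper bound for the fourth moment -/
def Mom4 : Prop := ∃ C : ℝ, ∀ T : ℝ, 2 ≤ T → mom T ≤ C * T * Real.log T ^ 4

/-- the right half plane -/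
def RH : Set ℂ := {z | 0 < z.re}

/-- transform of `z4` with kernel `W` -/
def Sf (z : ℂ) : ℂ := ∫ t in Ioi (0 : ℝ), (z4 t : ℂ) * Wf (z * t)

/-- Laplace transform of `z4` -/
def Lf (z : ℂ) : ℂ := ∫ t in Ioi (0 : ℝ), (z4 t : ℂ) * exp (-2 * z * t)

/-- Laplace transform of the error term -/
def LE (P : Polynomial ℝ) (z : ℂ) : ℂ := ∫ t in Ioi (0 : ℝ), (err P t : ℂ) * exp (-2 * z * t)

def Aop (f : ℂ → ℂ) (z : ℂ) : ℂ := ∫ a : ℝ, f (z * Real.cosh a) / Real.cosh a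

def Bop (f : ℂ → ℂ) (z : ℂ) : ℂ := ∫ a : ℝ, f (z * Real.cosh a)

def Dop (f : ℂ → ℂ) (z : ℂ) : ℂ := -z * deriv f z

/-- `f z = Q (log z) / z + O(e^(-k) |z|^(-1/2))` in the sectors `Re z >= e |z|` -/
def Sec (f : ℂ → ℂ) : Prop := DifferentiableOn ℂ f RH ∧
  ∃ (Q : Polynomial ℂ) (C : ℝ) (k : ℕ), ∀ e ∈ Ioc (0 : ℝ) 1, ∀ z ∈ RH, e * ‖z‖ ≤ z.re →
    ‖f z - Q.eval (log z) / z‖ ≤ C / e ^ k * ‖z‖ ^ (-(1 / 2) : ℝ)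

/-- decay at infinity in sectors -/
def Dec (f : ℂ → ℂ) : Prop := DifferentiableOn ℂ f RH ∧
  ∀ e d : ℝ, 0 < e → 0 < d → ∃ C : ℝ, ∀ z : ℂ, e * ‖z‖ ≤ z.re → d ≤ ‖z‖ →
    ‖f z‖ ≤ C * ‖z‖ ^ (-(1 / 2) : ℝ)

def St_T3B : Prop := ∃ C : ℝ, ∀ r : ℝ, 1 ≤ r → ‖T3 r‖ ≤ C * r ^ 4

def St_RB : Prop := ∃ C : ℝ, ∀ r : ℝ, 0 ≤ r → ‖RR r‖ ≤ C

def St_M4 : Prop := Mom4 ∧ Mom9

def St_MB : Prop := ∀ (ι : Type) (k : ι → ℝ) (B : ι → ℂ), Disc k B → ContB →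
  ∃ (C : ℝ) (n : ℕ), ∀ e ∈ Ioc (0 : ℝ) 1, ∀ r : ℂ, e ≤ π / 2 - |r.im| →
    ‖Msum k B r‖ ≤ C / e ^ n * Real.exp (-r.re / 2)

def St_SEC : Prop := Mom9 → Sec Sf

def St_AVG1 : Prop := ∀ f : ℂ → ℂ, Sec f → Sec (Aop f) ∧ Sec (Dop f) ∧
  ∀ (g : ℂ → ℂ) (c : ℂ), (∀ z ∈ RH, g z = c * f z) → Sec g

def St_AVG2 : Prop := ∀ f : ℂ → ℂ, Dec f → Dec (Bop f) ∧
  ∀ z ∈ RH, Dop (Aop (Bop f)) z = 2 * π * f z

def St_AVG3 : Prop := Dec Lf ∧ ∀ z ∈ RH, Sf z = 2 * Bop (Bop Lf) z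

def St_LAP : Prop := Sec Lf → ∃ (P : Polynomial ℝ) (C : ℝ) (k : ℕ), ∀ e ∈ Ioc (0 : ℝ) 1,
  ∀ z ∈ RH, e * ‖z‖ ≤ z.re → ‖LE P z‖ ≤ C / e ^ k * ‖z‖ ^ (-(3 / 2) : ℝ)

def St_GAU : Prop := ∀ (P : Polynomial ℝ) (C : ℝ) (k : ℕ),
  (∀ e ∈ Ioc (0 : ℝ) 1, ∀ z ∈ RH, e * ‖z‖ ≤ z.re → ‖LE P z‖ ≤ C / e ^ k * ‖z‖ ^ (-(3 / 2) : ℝ)) →
  ∃ K : ℝ, ∀ T H : ℝ, 0 < H → H ≤ T →
    |∫ t in Ioi (0 : ℝ), err P t * Real.exp (-((t - T) / H) ^ 2)| ≤ K * H * √T * (T / H) ^ (k + 1)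

def St_TAUB : Prop := ∀ (P : Polynomial ℝ) (K : ℝ) (k : ℕ),
  (∀ T H : ℝ, 0 < H → H ≤ T →
    |∫ t in Ioi (0 : ℝ), err P t * Real.exp (-((t - T) / H) ^ 2)| ≤ K * H * √T * (T / H) ^ (k + 1)) →
  IsMain P

/-- existence of the main term polynomial -/
def Exi : Prop := ∃ P : Polynomial ℝ, P.natDegree ≤ 4 ∧ IsMain P

def St_DEG : Prop := ∀ P : Polynomial ℝ, Mom4 → IsMain P → P.natDegree ≤ 4

def T_T3B : Prop := St_BET → St_JB1 → St_ZB3 → St_T3B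
def T_RB : Prop := St_JB1 → St_ZB1 → St_ZB3 → St_CJ → St_MAINR → St_SPEC → St_RB
def T_M4 : Prop := St_KB → St_NB → St_ZB1 → St_DY → St_VB1 → St_INF2 → St_FWB → St_T3B → St_RB →
  St_M4
def T_MB : Prop := St_JB1 → St_MB
def T_SEC : Prop := St_PAR → St_KB → St_ZB1 → St_ZB3 → St_TH → St_WP → St_ASY → St_GLUE → St_MB →
  St_SEC
def T_AVG1 : Prop := St_PAR → St_AVG1
def T_AVG2 : Prop := St_PAR → St_BET → St_AVG2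
def T_AVG3 : Prop := St_PAR → St_BET → St_ZB1 → St_VB1 → St_AVG3
def T_LAP : Prop := St_PAR → St_ZB1 → St_DY → St_LAP
def T_GAU : Prop := St_DY → St_GAU
def T_TAUB : Prop := St_ZB1 → St_DY → St_TAUB
def T_DEG : Prop := St_ZB1 → St_DEG

theorem exi_of (hM4 : St_M4) (hSEC : St_SEC) (h1 : St_AVG1) (h2 : St_AVG2) (h3 : St_AVG3)
    (hLAP : St_LAP) (hGAU : St_GAU) (hTAUB : St_TAUB) (hDEG : St_DEG) : Exi := by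
  have hp : (π : ℂ) ≠ 0 := ofReal_ne_zero.2 Real.pi_ne_zero
  have hopen : IsOpen RH := isOpen_lt continuous_const continuous_re
  have s0 : Sec (Bop (Bop Lf)) := (h1 Sf (hSEC hM4.2)).2.2 _ (1 / 2) fun z hz => by
    rw [h3.2 z hz]; ring
  have step : ∀ f, Dec f → Sec (Bop f) → Sec f := fun f hf hs =>
    (h1 _ (h1 _ (h1 _ hs).1).2.1).2.2 f (1 / (2 * π)) fun z hz => by
      rw [(h2 f hf).2 z hz]; field_simp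
  obtain ⟨P, C, k, h⟩ := hLAP (step _ h3.1 (step _ (h2 _ h3.1).1 s0))
  obtain ⟨K, hK⟩ := hGAU P C k h
  have hP := hTAUB P K k hK
  exact ⟨P, hDEG P hM4.1 hP, hP⟩

end

end Pool.Agent.Lib.E2
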