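import Pool.Agent.Lib.E2.Blue

/-!
Block CJ: the continuous part in terms of the Jost solutions.
-/

namespace Pool.Agent.Lib.E2

open Complex MeasureTheory Set Filter Topology
open scoped Real

namespace CJ

theorem poly_exp (t : ℝ) :
    (1 + |t|) ^ 2 * Real.exp (-(π / 2) * |t|) ≤ 256 * (1 + t ^ 2)⁻¹ := by
  have hx0 : 0 ≤ |t| := abs_nonneg t
  have h0 : Real.exp (-(π / 2) * |t|) ≤ Real.exp (-|t|) :=
    Real.exp_le_exp.2 (by nlinarith [Real.pi_gt_three])
  have h1 : 1 + |t| ≤ 4 * Real.exp (|t| / 4) := by linarith [Real.add_one_le_exp (|t| / 4)]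
  have h2 : (1 + |t|) ^ 4 ≤ (4 * Real.exp (|t| / 4)) ^ 4 := by gcongr
  have h3 : (4 * Real.exp (|t| / 4)) ^ 4 = 256 * Real.exp |t| := by
    rw [mul_pow, ← Real.exp_nat_mul]; congr 2 <;> norm_num; ring
  have h4 : 1 + t ^ 2 ≤ (1 + |t|) ^ 2 := by rw [← sq_abs t]; nlinarith
  have h5 : (1 + |t|) ^ 2 * (1 + t ^ 2) ≤ 256 * Real.exp |t| := by
    calc (1 + |t|) ^ 2 * (1 + t ^ 2) ≤ (1 + |t|) ^ 2 * (1 + |t|) ^ 2 := by gcongr
      _ = (1 + |t|) ^ 4 := by ring
      _ ≤ _ := h3 ▸ h2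
  refine (mul_le_mul_of_nonneg_left h0 (by positivity)).trans ?_
  rw [Real.exp_neg, ← div_eq_mul_inv, ← div_eq_mul_inv, div_le_div_iff₀ (Real.exp_pos _)
    (by positivity)]
  exact h5

theorem sk_re (t : ℝ) : (sk t).re = 1 / 2 := by simp [sk]

theorem sk_cont : Continuous sk := by unfold sk; fun_prop

theorem real_str (r : ℝ) : (r : ℂ) ∈ Str := by
  show |(r : ℂ).im| < π / 2
  rw [ofReal_im, abs_zero]; positivity

/-- the coefficient of the even solution -/
noncomputable def A (t : ℝ) : ℂ := coef (sk t) * Pif (sk t) 0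

theorem A_cont (h3 : St_ZB3) : Continuous A := by
  have e : A = fun t => coef (sk t) * Lam (sk t) ^ 2 := funext fun t => by
    rw [A, h3.2.2.2.2.2.2.1 (sk t) (by rw [sk_re]; norm_num)]
  rw [e]
  refine h3.2.2.2.2.1.mul (Continuous.pow (continuous_iff_continuousAt.2 fun t => ?_) 2)
  have h0 : sk t ≠ 0 := fun h => by have := sk_re t; rw [h] at this; norm_num at this
  have h1 : sk t ≠ 1 := fun h => by have := sk_re t; rw [h] at this; norm_num at this
  exact (differentiableAt_completedZeta h0 h1).continuousAt.comp sk_cont.continuousAt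

theorem J_cont (hJ : St_JB1) (r : ℝ) : Continuous fun t : ℝ => Jf (sk t) r :=
  hJ.2.1.comp_continuous (f := fun t : ℝ => ((sk t, (r : ℂ)) : ℂ × ℂ))
    (sk_cont.prodMk continuous_const) fun t => ⟨by show 0 < (sk t).re; rw [sk_re]; norm_num,
      real_str r⟩

theorem integ (hB : St_BET) (hJ : St_JB1) (hZ : St_ZB1) (h3 : St_ZB3) (r : ℝ) {σ : ℝ → ℝ}
    (hσ : Continuous σ) (ha : ∀ t, |σ t| = |t|) :
    Integrable fun t : ℝ => A (σ t) * Cf t * Jf (sk t) r := by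
  obtain ⟨C, hC⟩ := h3.2.2.2.2.2.2.2.1
  obtain ⟨_, hz0, -, _, D, hD⟩ := hZ.2.2.2.2.2.2.2.2.2.2.2
  obtain ⟨K, hK⟩ := hJ.2.2.2.1
  set K' : ℝ := K * Real.exp (-(1 / 2 * r)) * (π / 2) ^ (-(1 / 2) : ℝ)
  have hj : ∀ t : ℝ, ‖Jf (sk t) r‖ ≤ K' := fun t => by
    have := hK (sk t) r (by rw [sk_re]; norm_num) (by rw [sk_re]; norm_num) (real_str r)
    simpa [sk_re, K'] using this
  refine Integrable.mono' ((integrable_inv_one_add_sq.const_mul (|C| * |D| * 256)).mul_const K')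
    ?_ (Eventually.of_forall fun t => ?_)
  · exact ((((A_cont h3).comp hσ).measurable.mul hB.2.2.2.2.1).mul
      (J_cont hJ r).measurable).aestronglyMeasurable
  · have a1 := hC (σ t) t (ha t).symm
    have a2 : (1 + |σ t|) ^ (-(3 / 8) : ℝ) ≤ 1 :=
      Real.rpow_le_one_of_one_le_of_nonpos (by linarith [abs_nonneg (σ t)]) (by norm_num)
    have a3 : z4 (σ t) ≤ |D| * (1 + |σ t|) ^ 2 := (hD _).trans (by gcongr; exact le_abs_self D)
    have a4 := hz0 (σ t)
    have a5 : 0 ≤ (1 + |σ t|) ^ (-(3 / 8) : ℝ) := by positivity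
    have a6 : ‖A (σ t) * Cf t‖ ≤ |C| * |D| * 256 * (1 + t ^ 2)⁻¹ :=
      calc _ ≤ _ := a1
        _ ≤ |C| * (|D| * (1 + |σ t|) ^ 2 * 1 * Real.exp (-(π / 2) * |σ t|)) := by
          gcongr
          exact le_abs_self C
        _ = |C| * |D| * ((1 + |t|) ^ 2 * Real.exp (-(π / 2) * |t|)) := by rw [ha]; ring
        _ ≤ |C| * |D| * (256 * (1 + t ^ 2)⁻¹) :=
          mul_le_mul_of_nonneg_left (poly_exp t) (by positivity)
        _ = _ := by ring
    rw [norm_mul]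
    exact mul_le_mul a6 (hj t) (norm_nonneg _) (by positivity)

theorem split (h2 : St_JB2) (hO : St_ODE) (r : ℝ) {t : ℝ} (ht : t ≠ 0) :
    Pif (sk t) r = Pif (sk t) 0 * pf t r := by
  have hs : sk t * (1 - sk t) = 1 / 4 + (t : ℂ) ^ 2 := by
    unfold sk; linear_combination (-(t : ℂ) ^ 2) * I_mul_I
  have h := hO t ht _ (hs ▸ (h2 (sk t) (by rw [sk_re]; norm_num)).2.1) r
  simp only [ofReal_neg, ofReal_zero] at h
  unfold Pif
  rw [h, neg_zero]; ring

end CJ

theorem t_cj : T_CJ := by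
  intro hB hJ h2 hO hZ h3 r
  have i1 := CJ.integ hB hJ hZ h3 r continuous_id fun _ => rfl
  have i2 := CJ.integ hB hJ hZ h3 r continuous_neg abs_neg
  have i3 := i2.comp_neg
  simp only [neg_neg] at i3
  have e1 : ∫ t : ℝ, coef (sk t) * Pif (sk t) r =
      ∫ t : ℝ, (CJ.A t * Cf t * Jf (sk t) r + CJ.A t * Cf (-t) * Jf (sk (-t)) r) := by
    refine integral_congr_ae ?_
    filter_upwards [compl_mem_ae_iff.2 (measure_singleton (0 : ℝ))] with t ht
    rw [CJ.split h2 hO r ht, CJ.A, pf]; ring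
  have e2 : ∫ t : ℝ, CJ.A t * Cf (-t) * Jf (sk (-t)) r =
      ∫ t : ℝ, CJ.A (-t) * Cf t * Jf (sk t) r := by
    rw [← integral_neg_eq_self (fun t : ℝ => CJ.A (-t) * Cf t * Jf (sk t) r)]
    simp only [neg_neg]
  have i1' : Integrable fun t : ℝ => CJ.A t * Cf t * Jf (sk t) r := i1
  rw [cont, e1, integral_add i1' i3, e2, ← integral_add i1' i2, ← integral_const_mul]
  refine integral_congr_ae (Eventually.of_forall fun t => ?_)
  simp only [Bc, CJ.A]; ring

end Pool.Agent.Lib.E2
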