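import Pool.Agent.Lib.E2.Blue

namespace Pool.Agent.Lib.E2

noncomputable section

open Complex MeasureTheory Set Filter Topology
open scoped Real UpperHalfPlane MatrixGroups ComplexConjugate Modular

theorem coef_count {ι : Type} {k : ι → ℝ} {C : ℝ} (h0 : ∀ i, 0 ≤ k i)
    (h : ∀ K : ℝ, 1 ≤ K → {i | k i ≤ K}.Finite ∧ ({i | k i ≤ K}.ncard : ℝ) ≤ C * K ^ 4) :
    ∃ S : ℝ, ∀ s : Finset ι, ∑ i ∈ s, ((1 + k i) ^ 6)⁻¹ ≤ S := by
  classical
  have hC : 0 ≤ C := by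
    have := (h 1 le_rfl).2
    rw [one_pow, mul_one] at this
    exact (Nat.cast_nonneg _).trans this
  have hs : Summable fun m : ℕ => C * (((m : ℝ) + 1) ^ 2)⁻¹ := by
    have := (summable_nat_add_iff 1).2 (Real.summable_nat_pow_inv.2 (show 1 < 2 by norm_num))
    push_cast at this
    exact this.mul_left C
  refine ⟨∑' m : ℕ, C * (((m : ℝ) + 1) ^ 2)⁻¹, fun s => ?_⟩
  calc ∑ i ∈ s, ((1 + k i) ^ 6)⁻¹ ≤ ∑ i ∈ s, (fun m : ℕ => (((m : ℝ) + 1) ^ 6)⁻¹) ⌊k i⌋₊ := by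
        refine Finset.sum_le_sum fun i _ => inv_anti₀ (by positivity) ?_
        exact pow_le_pow_left₀ (by positivity) (by linarith [Nat.floor_le (h0 i)]) 6
    _ ≤ ∑ m ∈ s.image fun i => ⌊k i⌋₊, C * (((m : ℝ) + 1) ^ 2)⁻¹ := by
        rw [Finset.sum_comp (fun m : ℕ => (((m : ℝ) + 1) ^ 6)⁻¹) fun i => ⌊k i⌋₊]
        refine Finset.sum_le_sum fun m _ => ?_
        obtain ⟨a, b⟩ := h ((m : ℝ) + 1) (by linarith [(Nat.cast_nonneg m : (0 : ℝ) ≤ m)])
        have c : (s.filter fun i => ⌊k i⌋₊ = m).card ≤ {i | k i ≤ (m : ℝ) + 1}.ncard := by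
          rw [← Set.ncard_coe_finset]
          refine Set.ncard_le_ncard (fun i hi => ?_) a
          have := (Finset.mem_filter.1 hi).2
          show k i ≤ (m : ℝ) + 1
          rw [← this]; exact (Nat.lt_floor_add_one _).le
        rw [nsmul_eq_mul]
        calc _ ≤ C * ((m : ℝ) + 1) ^ 4 * (((m : ℝ) + 1) ^ 6)⁻¹ :=
              mul_le_mul_of_nonneg_right ((Nat.cast_le.2 c).trans b) (by positivity)
          _ = _ := by field_simp
    _ ≤ _ := hs.sum_le_tsum _ fun m _ => by positivity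

theorem coef_pt {c G k e : ℝ} (hc : 0 ≤ c) (hk : 1 / 10 ≤ k) (h0 : 0 < e) (h1 : e ≤ 1)
    (h : c * (Real.sinh (k * (π / 2 - e / 2)) / k) ≤ G) :
    c * (1 + k) ^ 3 * Real.exp ((π / 2 - e) * k) ≤
      6 * G ^ 2 + 6 * (3 * (14 : ℕ).factorial / e ^ 14) * ((1 + k) ^ 6)⁻¹ := by
  have hk0 : 0 < k := by linarith
  set x := k * (π / 2 - e / 2) with hx
  have a1 : 1 / 10 ≤ x := by rw [hx]; nlinarith [Real.pi_gt_three]
  have a2 : Real.exp x / 12 ≤ Real.sinh x := by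
    rw [Real.sinh_eq]
    have b1 : Real.exp x = Real.exp (-x) * Real.exp (2 * x) := by rw [← Real.exp_add]; congr 1; ring
    have b2 := Real.add_one_le_exp (2 * x)
    nlinarith [Real.exp_pos (-x)]
  have a3 : c * Real.exp x ≤ 12 * G * (1 + k) := by
    rw [← mul_div_assoc, div_le_iff₀ hk0] at h
    have b1 := mul_le_mul_of_nonneg_left a2 hc
    have b2 : 0 ≤ G := by
      by_contra b
      nlinarith [mul_nonneg hc (Real.exp_pos x).le]
    nlinarith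
  set y := Real.exp (-(e * k / 2)) with hy
  have hy0 : 0 < y := Real.exp_pos _
  have a4 : Real.exp ((π / 2 - e) * k) = Real.exp x * y := by
    rw [hy, ← Real.exp_add]; congr 1; rw [hx]; ring
  have a5 : ((1 + k) ^ 4 * y) ^ 2 ≤ 3 * (14 : ℕ).factorial / e ^ 14 * ((1 + k) ^ 6)⁻¹ := by
    have b1 := Real.pow_div_factorial_le_exp (e * (1 + k)) (by positivity) 14
    have b2 : Real.exp (e * (1 + k)) * y ^ 2 ≤ 3 := by
      rw [hy, ← Real.exp_nat_mul, ← Real.exp_add]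
      refine le_trans (Real.exp_le_exp.2 (show _ ≤ 1 by push_cast; linarith)) ?_
      linarith [Real.exp_one_lt_d9]
    have b3 := (mul_le_mul_of_nonneg_right b1 (sq_nonneg y)).trans b2
    rw [div_mul_eq_mul_div, div_le_iff₀ (by positivity)] at b3
    rw [← div_eq_mul_inv, le_div_iff₀ (by positivity), le_div_iff₀ (by positivity)]
    refine le_trans (le_of_eq ?_) b3
    ring
  calc c * (1 + k) ^ 3 * Real.exp ((π / 2 - e) * k) = c * Real.exp x * ((1 + k) ^ 3 * y) := by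
        rw [a4]; ring
    _ ≤ 12 * G * (1 + k) * ((1 + k) ^ 3 * y) := by gcongr
    _ ≤ 6 * G ^ 2 + 6 * ((1 + k) ^ 4 * y) ^ 2 := by nlinarith [sq_nonneg (G - (1 + k) ^ 4 * y)]
    _ ≤ _ := by linarith

theorem t_coef : T_COEF := by
  intro hL ⟨C1, n, hW⟩ hB ι φ k hE
  obtain ⟨C2, hc, -⟩ := hB ι φ k hE
  obtain ⟨⟨b1, b2, -⟩, b3⟩ := hE
  obtain ⟨S, hS⟩ := coef_count (fun i => by linarith [(b3 i).1]) hc
  have hS0 : 0 ≤ S := by simpa using hS ∅
  refine ⟨6 * (|C1| * 2 ^ n) + 6 * (3 * (14 : ℕ).factorial) * S, n + 14, fun e he => ?_⟩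
  obtain ⟨g, g1, g2, g3⟩ := hW (e / 2) ⟨by linarith [he.1], by linarith [he.2]⟩
  have h0 := he.1
  have key : ∀ s : Finset ι,
      ∑ i ∈ s, ‖ip (φ i) Fc‖ * (1 + k i) ^ 3 * Real.exp ((π / 2 - e) * k i) ≤
      (6 * (|C1| * 2 ^ n) + 6 * (3 * (14 : ℕ).factorial) * S) / e ^ (n + 14) := by
    intro s
    refine (Finset.sum_le_sum fun i _ => coef_pt (norm_nonneg _) (b3 i).1 he.1 he.2
      (g3 (φ i) (k i) (by linarith [(b3 i).1]) (b1 i).1.1 (b1 i).2.1 (b3 i).2)).trans ?_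
    rw [Finset.sum_add_distrib, ← Finset.mul_sum, ← Finset.mul_sum, add_div]
    have c1 := ((hL.2.2.2.2.2.2.2.2 ι s φ (fun i _ => ⟨(b1 i).1.1.2.2, (b1 i).2.2⟩)
      fun i _ j _ => b2 i j).2 g g1).trans g2
    have p1 : e ^ (n + 14) ≤ e ^ n := pow_le_pow_of_le_one h0.le he.2 (by omega)
    have p2 : e ^ (n + 14) ≤ e ^ 14 := pow_le_pow_of_le_one h0.le he.2 (by omega)
    refine add_le_add ?_ ?_
    · calc _ ≤ 6 * (|C1| / (e / 2) ^ n) := by
            gcongr; exact c1.trans (by gcongr; exact le_abs_self _)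
        _ = 6 * (|C1| * 2 ^ n) / e ^ n := by rw [div_pow]; field_simp
        _ ≤ _ := by gcongr
    · calc _ ≤ 6 * (3 * (14 : ℕ).factorial / e ^ 14) * S := by gcongr; exact hS s
        _ = 6 * (3 * (14 : ℕ).factorial) * S / e ^ 14 := by ring
        _ ≤ _ := by gcongr
  have hs := summable_of_sum_le (fun i => by
    have := (b3 i).1
    show 0 ≤ ‖ip (φ i) Fc‖ * (1 + k i) ^ 3 * Real.exp ((π / 2 - e) * k i)
    positivity) key
  exact ⟨hs, hs.tsum_le_of_sum_le key⟩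

end

end Pool.Agent.Lib.E2
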