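import Pool.Agent.Lib.E2.Blue

namespace Pool.Agent.Lib.E2

noncomputable section

open Complex MeasureTheory Set Filter Topology
open scoped Real

namespace CONST

theorem int_exp_abs : Integrable (fun t : ℝ => Real.exp (-|t|)) := by
  rw [← integrableOn_univ, ← Iic_union_Ioi (a := (0 : ℝ))]
  refine IntegrableOn.union ?_ ?_
  · exact (integrableOn_exp_Iic 0).congr_fun (fun x hx => by simp [abs_of_nonpos (mem_Iic.1 hx)]) measurableSet_Iic
  · exact (integrableOn_exp_neg_Ioi 0).congr_fun (fun x hx => by simp [abs_of_pos (mem_Ioi.1 hx)]) measurableSet_Ioi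

theorem ball_re {s : ℂ} (h : ‖s - 1‖ ≤ dl) : 9 / 10 ≤ s.re := by
  have h1 := (abs_le.1 ((abs_re_le_norm (s - 1)).trans (h.trans dl_le))).1
  rw [sub_re, one_re] at h1
  linarith

theorem ne_of_re {s w : ℂ} (h : s.re ≠ w.re) : s ≠ w := fun e => h (by rw [e])

theorem sph {s : ℂ} (h : s ∈ Metric.sphere (1 : ℂ) dl) : ‖s - 1‖ ≤ dl ∧ s ≠ 1 := by
  rw [mem_sphere_iff_norm] at h
  refine ⟨h.le, fun e => ?_⟩
  rw [e, sub_self, norm_zero] at h
  exact dl_pos.ne h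

theorem xi_one : xi 1 = 1 := by simp [xi]

theorem xi_deriv_one : deriv xi 1 = completedRiemannZeta₀ 1 := by
  have h := ((((hasDerivAt_id (1 : ℂ)).mul ((hasDerivAt_id (1 : ℂ)).sub_const 1)).mul
    (differentiable_completedZeta₀ 1).hasDerivAt).add_const 1)
  have h2 : HasDerivAt xi (completedRiemannZeta₀ 1) 1 := h.congr_deriv (by simp)
  exact h2.deriv

/-- regular part of `Rf (1 - s) y ^ s` -/
def ff (y : ℝ) (s : ℂ) : ℂ := 2 * xi s ^ 4 * (2 * s - 1) * (y : ℂ) ^ s / (s ^ 4 * xi (2 * s - 1))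

/-- logarithmic derivative of `xi s / s` -/
def psi (s : ℂ) : ℂ := deriv xi s / xi s - 1 / s

def LL (y : ℝ) (s : ℂ) : ℂ := 4 * psi s - 2 * psi (2 * s - 1) + log y

theorem ff_deriv {y : ℝ} (hy : 0 < y) {s : ℂ} (h0 : s ≠ 0) (h1 : 2 * s - 1 ≠ 0) (h2 : xi s ≠ 0)
    (h3 : xi (2 * s - 1) ≠ 0) : HasDerivAt (ff y) (ff y s * LL y s) s := by
  have hy0 : (y : ℂ) ≠ 0 := ofReal_ne_zero.2 hy.ne'
  have hl : HasDerivAt (fun s : ℂ => 2 * s - 1) 2 s := by
    simpa using ((hasDerivAt_id s).const_mul 2).sub_const 1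
  have a1 := (xi_diff s).hasDerivAt
  have a2 : HasDerivAt (fun s : ℂ => xi (2 * s - 1)) (deriv xi (2 * s - 1) * 2) s :=
    HasDerivAt.comp (h₂ := xi) (h := fun s : ℂ => 2 * s - 1) s (xi_diff (2 * s - 1)).hasDerivAt hl
  have a3 : HasDerivAt (fun s : ℂ => (y : ℂ) ^ s) ((y : ℂ) ^ s * log y * 1) s :=
    (hasDerivAt_id s).const_cpow (Or.inl hy0)
  have h := (((((a1.fun_pow 4).const_mul 2).fun_mul hl).fun_mul a3).fun_div
    (((hasDerivAt_id' s).fun_pow 4).fun_mul a2) (mul_ne_zero (pow_ne_zero _ h0) h3))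
  refine h.congr_deriv ?_
  simp only [ff, LL, psi]
  norm_num
  field_simp
  ring

theorem ff_diff {y : ℝ} (hy : 0 < y) {s : ℂ} (h : ‖s - 1‖ ≤ dl) : DifferentiableAt ℂ (ff y) s := by
  have hy0 : (y : ℂ) ≠ 0 := ofReal_ne_zero.2 hy.ne'
  have h0 : s ≠ 0 := ne_of_re (by have := ball_re h; simp; linarith)
  have := xi_diff
  have a3 : DifferentiableAt ℂ (fun s : ℂ => (y : ℂ) ^ s) s := differentiableAt_id.const_cpow (Or.inl hy0)
  unfold ff
  exact DifferentiableAt.div (by fun_prop) (by fun_prop) (mul_ne_zero (pow_ne_zero _ h0) (dl_ne h))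

theorem ff_two {y : ℝ} (hy : 0 < y) : iteratedDeriv 2 (ff y) 1 = 2 * Cc y ^ 2 := by
  have hy0 : (y : ℂ) ≠ 0 := ofReal_ne_zero.2 hy.ne'
  have e1 : (2 : ℂ) * 1 - 1 = 1 := by norm_num
  have hx : xi 1 ≠ 0 := by rw [xi_one]; exact one_ne_zero
  have hc := xi_diff.continuous
  have hev : deriv (ff y) =ᶠ[𝓝 1] fun s => ff y s * LL y s := by
    have b0 : ∀ᶠ s : ℂ in 𝓝 1, s ≠ 0 := eventually_ne_nhds one_ne_zero
    have b1 : ∀ᶠ s : ℂ in 𝓝 1, 2 * s - 1 ≠ 0 :=
      ContinuousAt.eventually_ne (g := fun s : ℂ => 2 * s - 1) (by fun_prop) (by norm_num)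
    have b2 : ∀ᶠ s : ℂ in 𝓝 1, xi s ≠ 0 := hc.continuousAt.eventually_ne hx
    have b3 : ∀ᶠ s : ℂ in 𝓝 1, xi (2 * s - 1) ≠ 0 :=
      ContinuousAt.eventually_ne (g := fun s : ℂ => xi (2 * s - 1)) (by fun_prop) (by rwa [e1])
    filter_upwards [b0, b1, b2, b3] with s h0 h1 h2 h3
    exact (ff_deriv hy h0 h1 h2 h3).deriv
  have hp : DifferentiableAt ℂ psi 1 := by
    unfold psi
    exact ((xi_diff.deriv 1).div (xi_diff 1) hx).sub
      ((differentiableAt_const _).div differentiableAt_id one_ne_zero)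
  have hl : HasDerivAt (fun s : ℂ => 2 * s - 1) 2 1 := by
    simpa using ((hasDerivAt_id (1 : ℂ)).const_mul 2).sub_const 1
  have hp2 : HasDerivAt (fun s : ℂ => psi (2 * s - 1)) (deriv psi 1 * 2) 1 :=
    HasDerivAt.comp (h₂ := psi) (h := fun s : ℂ => 2 * s - 1) (1 : ℂ) (by rw [e1]; exact hp.hasDerivAt) hl
  have hL : HasDerivAt (LL y) 0 1 :=
    (((hp.hasDerivAt.const_mul 4).fun_sub (hp2.const_mul 2)).add_const (log y)).congr_deriv (by ring)
  have hf := ff_deriv hy one_ne_zero (by norm_num) hx (by rwa [e1])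
  rw [iteratedDeriv_succ, iteratedDeriv_one, hev.deriv_eq, (hf.fun_mul hL).deriv]
  have e2 : ((y : ℂ) ^ (1 / 2 : ℂ)) ^ 2 = y := by
    rw [← cpow_nat_mul]; norm_num
  simp only [ff, LL, psi, Cc, c0, e1, xi_one, xi_deriv_one, cpow_one, mul_pow, e2]
  ring

theorem Rf_ff (hZ : St_ZB1) (y : ℝ) {s : ℂ} (h : s ∈ Metric.sphere (1 : ℂ) dl) :
    Rf (1 - s) * (y : ℂ) ^ s = (1 / (s - 1) ^ (2 + 1)) • ff y s := by
  obtain ⟨h1, h2⟩ := sph h
  have h0 : s ≠ 0 := ne_of_re (by have := ball_re h1; simp; linarith)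
  have h3 := dl_ne h1
  have h4 : s - 1 ≠ 0 := sub_ne_zero.2 h2
  have e : xi (2 * (1 - s)) = xi (2 * s - 1) := by
    rw [← hZ.2.1 (2 * s - 1)]; congr 1; ring
  rw [Rf, ff, hZ.2.2.1, e, hZ.1 s h0 h2, smul_eq_mul]
  field_simp
  ring

theorem part1 (hZ : St_ZB1) {y : ℝ} (hy : 0 < y) :
    CircleIntegrable (fun s => Rf (1 - s) * (y : ℂ) ^ s) 1 dl ∧
      Cc y ^ 2 = (2 * π * I : ℂ)⁻¹ * (∮ s in C(1, dl), Rf (1 - s) * (y : ℂ) ^ s) := by
  have hd : DifferentiableOn ℂ (ff y) (Metric.closedBall 1 dl) := fun s hs =>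
    (ff_diff hy (mem_closedBall_iff_norm.1 hs)).differentiableWithinAt
  constructor
  · refine ContinuousOn.circleIntegrable dl_pos.le (ContinuousOn.congr ?_ fun s hs => Rf_ff hZ y hs)
    refine ContinuousOn.smul (continuousOn_const.div (by fun_prop) fun s hs =>
      pow_ne_zero _ (sub_ne_zero.2 (sph hs).2)) (hd.continuousOn.mono Metric.sphere_subset_closedBall)
  · rw [circleIntegral.integral_congr dl_pos.le fun s hs => Rf_ff hZ y hs,
      hd.circleIntegral_one_div_sub_center_pow_smul dl_pos 2, ff_two hy, smul_eq_mul]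
    have : (π : ℂ) ≠ 0 := ofReal_ne_zero.2 Real.pi_ne_zero
    norm_num [Nat.factorial]
    field_simp
    rw [I_sq]
    ring

theorem shp (hS : St_SHP) (h3 : St_ZB3) {y : ℝ} (hy : 0 < y) :
    CircleIntegrable (fun s => Rf s * (y : ℂ) ^ (1 - s)) 1 dl ∧
    Integrable (fun t : ℝ => Rf (sk t) * (y : ℂ) ^ (1 - sk t)) ∧
    Integrable (fun t : ℝ => Rf (2 + t * I) * (y : ℂ) ^ (1 - (2 + t * I))) ∧
    I * (∫ t : ℝ, Rf (2 + t * I) * (y : ℂ) ^ (1 - (2 + t * I))) - I * (∫ t : ℝ, Rf (sk t) * (y : ℂ) ^ (1 - sk t)) =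
      ∮ s in C(1, dl), Rf s * (y : ℂ) ^ (1 - s) := by
  obtain ⟨⟨C, hC⟩, ⟨f, hf, hR⟩, -⟩ := h3
  have hy0 : (y : ℂ) ≠ 0 := ofReal_ne_zero.2 hy.ne'
  have a3 : Differentiable ℂ (fun s : ℂ => (y : ℂ) ^ (1 - s)) := fun s =>
    DifferentiableAt.const_cpow (by fun_prop) (Or.inl hy0)
  have hdl := dl_le
  constructor
  · refine ContinuousOn.circleIntegrable dl_pos.le (ContinuousOn.mul ?_ a3.continuous.continuousOn)
    have hre : ∀ s ∈ Metric.sphere (1 : ℂ) dl, 1 / 2 ≤ s.re := fun s hs => by linarith [ball_re (sph hs).1]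
    refine ContinuousOn.congr ?_ fun s hs => hR s (hre s hs) (sph hs).2
    exact ContinuousOn.div (fun s hs => (hf s (hre s hs)).continuousAt.continuousWithinAt) (by fun_prop)
      fun s hs => pow_ne_zero _ (sub_ne_zero.2 (sph hs).2)
  have key := hS.1 (fun s => Rf s * (y : ℂ) ^ (1 - s)) (fun s => f s * (y : ℂ) ^ (1 - s)) 4 (1 / 2) 2 1 dl
    (fun t => C * Real.exp (-|t|) * (y ^ (1 / 2 : ℝ) + y ^ (-1 : ℝ))) dl_pos (by linarith) (by linarith)
    (fun s hs => ((hf s hs.1.le).mul (a3 s)).differentiableWithinAt)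
    (fun s hs => ((hf s hs.1).mul (a3 s)).continuousAt.continuousWithinAt)
    (fun s h1 _ h2 => by
      rw [ofReal_one] at h2 ⊢
      simp only [hR s h1 h2]
      ring)
    ((int_exp_abs.const_mul C).mul_const _)
    (fun s h1 h2 h4 => by
      have h5 := hC s h1 h2 h4
      rw [norm_mul, norm_cpow_eq_rpow_re_of_pos hy, sub_re, one_re]
      refine mul_le_mul h5 ?_ (by positivity) ((norm_nonneg _).trans h5)
      rcases le_total 1 y with h | h
      · exact le_add_of_le_of_nonneg (Real.rpow_le_rpow_of_exponent_le h (by linarith)) (by positivity)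
      · exact le_add_of_nonneg_of_le (by positivity) (Real.rpow_le_rpow_of_exponent_ge hy h (by linarith)))
  have e1 : ∀ t : ℝ, ((1 / 2 : ℝ) : ℂ) + t * I = sk t := fun t => by rw [sk]; push_cast; rfl
  simpa only [e1, ofReal_ofNat, ofReal_one] using key

theorem part2 (hS : St_SHP) (h3 : St_ZB3) (hR : St_RAM2) {y : ℝ} (hy : 0 < y) :
    Dd y = (1 / (2 * π) : ℂ) * (∫ t : ℝ, Rf (2 + t * I) * (y : ℂ) ^ (1 - (2 + t * I))) := by
  have hy0 : (y : ℂ) ≠ 0 := ofReal_ne_zero.2 hy.ne'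
  have hm : ∀ t : ℝ, mellin (fun y : ℝ => Dd y / y) (((2 : ℝ) : ℂ) + t * I) = Rf (2 + t * I) := fun t => by
    rw [ofReal_ofNat]
    exact (hR.2 _ (by simp)).2
  have hv : VerticalIntegrable (mellin fun y : ℝ => Dd y / y) 2 := by
    have := (shp hS h3 one_pos).2.2.1
    simp only [ofReal_one, one_cpow, mul_one] at this
    simpa only [VerticalIntegrable, hm] using this
  have h := mellinInv_mellin_eq 2 (fun y : ℝ => Dd y / y) hy (hR.2 _ (by simp)).1 hv
    ((hR.1.continuousAt (Ioi_mem_nhds hy)).div continuous_ofReal.continuousAt hy0)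
  simp only [mellinInv, hm, smul_eq_mul, real_smul] at h
  rw [eq_div_iff hy0, mul_assoc, ← integral_mul_const] at h
  rw [← h]
  push_cast
  congr 1
  refine integral_congr_ae (Eventually.of_forall fun t => ?_)
  simp only
  rw [sub_eq_add_neg, cpow_add _ _ hy0, cpow_one]
  ring

theorem coef_Ct (hZ : St_ZB1) (y : ℝ) {s : ℂ} (h0 : s ≠ 0) (h1 : s ≠ 1 / 2) (h2 : s ≠ 1) (h3 : 1 / 2 ≤ s.re)
    (h4 : xi (2 * s - 1) ≠ 0) : coef s * Ct y s = Rf (1 - s) * (y : ℂ) ^ s + Rf s * (y : ℂ) ^ (1 - s) := by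
  have h5 : xi (2 * s) ≠ 0 := hZ.2.2.2.1 _ (by simp; linarith)
  rw [← hZ.2.2.2.2.2.2.2.1 s h1 h2 h4, ← hZ.2.2.2.2.2.2.2.2.1 s h0 h1 h5, Ct]
  ring

end CONST

open CONST in
theorem t_const : T_CONST := by
  intro hS hZ h3 hR y hy
  obtain ⟨a1, a2⟩ := part1 hZ hy
  obtain ⟨b1, b2, -, b4⟩ := shp hS h3 hy
  have c1 := part2 hS h3 hR hy
  have hsp : EqOn (fun s => coef s * Ct y s) (fun s => Rf (1 - s) * (y : ℂ) ^ s + Rf s * (y : ℂ) ^ (1 - s))
      (Metric.sphere 1 dl) := fun s hs => by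
    have := ball_re (sph hs).1
    exact coef_Ct hZ y (ne_of_re (by simp; linarith)) (ne_of_re (by norm_num; linarith)) (sph hs).2 (by linarith)
      (dl_ne (sph hs).1)
  have hline : (fun t : ℝ => coef (sk t) * Ct y (sk t)) =ᵐ[volume]
      fun t : ℝ => Rf (sk (-t)) * (y : ℂ) ^ (1 - sk (-t)) + Rf (sk t) * (y : ℂ) ^ (1 - sk t) := by
    filter_upwards [compl_mem_ae_iff.2 (measure_singleton (0 : ℝ))] with t ht
    have e1 : 1 - sk t = sk (-t) := by simp only [sk]; push_cast; ring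
    have e2 : 1 - sk (-t) = sk t := by simp only [sk]; push_cast; ring
    have hre : (sk t).re = 1 / 2 := by simp [sk]
    have hne : sk t ≠ 1 / 2 := fun e => ht (by simpa [sk] using e)
    rw [coef_Ct hZ y (ne_of_re (by rw [hre]; norm_num)) hne (ne_of_re (by rw [hre]; norm_num)) hre.ge
      (hZ.2.2.2.2.1 _ (by simp [hre])), e2, ← e1]
  have b5 := b2.comp_neg
  refine ⟨a2, c1, ?_, (b5.add b2).congr hline.symm, ?_⟩
  · refine IntervalIntegrable.congr (fun θ _ => ?_) (a1.add b1)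
    exact (hsp (circleMap_mem_sphere _ dl_pos.le θ)).symm
  · rw [circleIntegral.integral_congr dl_pos.le hsp, circleIntegral.integral_add a1 b1, integral_congr_ae hline,
      integral_add b5 b2, integral_neg_eq_self (fun t : ℝ => Rf (sk t) * (y : ℂ) ^ (1 - sk t)), ← b4, a2, c1]
    have : (π : ℂ) ≠ 0 := ofReal_ne_zero.2 Real.pi_ne_zero
    field_simp
    ring

end

end Pool.Agent.Lib.E2
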