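import Pool.Agent.Lib.E2.CONST

namespace Pool.Agent.Lib.E2

noncomputable section

open Complex MeasureTheory Set Filter Topology
open scoped Real

namespace CONST2

open CONST

theorem gg_two {y : ℝ} (hy : 0 < y) :
    iteratedDeriv 2 (fun s => ff y s / s) 1 = 2 * y * (el y ^ 2 - 2 * el y + 2) := by
  have e1 : (2 : ℂ) * 1 - 1 = 1 := by norm_num
  have hx : xi 1 ≠ 0 := by rw [xi_one]; exact one_ne_zero
  have hc := xi_diff.continuous
  have hev : deriv (fun s => ff y s / s) =ᶠ[𝓝 1] fun s => (ff y s * LL y s * s - ff y s * 1) / s ^ 2 := by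
    have b0 : ∀ᶠ s : ℂ in 𝓝 1, s ≠ 0 := eventually_ne_nhds one_ne_zero
    have b1 : ∀ᶠ s : ℂ in 𝓝 1, 2 * s - 1 ≠ 0 :=
      ContinuousAt.eventually_ne (g := fun s : ℂ => 2 * s - 1) (by fun_prop) (by norm_num)
    have b2 : ∀ᶠ s : ℂ in 𝓝 1, xi s ≠ 0 := hc.continuousAt.eventually_ne hx
    have b3 : ∀ᶠ s : ℂ in 𝓝 1, xi (2 * s - 1) ≠ 0 :=
      ContinuousAt.eventually_ne (g := fun s : ℂ => xi (2 * s - 1)) (by fun_prop) (by rwa [e1])
    filter_upwards [b0, b1, b2, b3] with s h0 h1 h2 h3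
    exact ((ff_deriv hy h0 h1 h2 h3).fun_div (hasDerivAt_id' s) h0).deriv
  have hp : DifferentiableAt ℂ psi 1 := by
    unfold psi
    exact ((xi_diff.deriv 1).div (xi_diff 1) hx).sub
      ((differentiableAt_const _).div differentiableAt_id one_ne_zero)
  have hl : HasDerivAt (fun s : ℂ => 2 * s - 1) 2 1 := by
    simpa using ((hasDerivAt_id (1 : ℂ)).const_mul 2).sub_const 1
  have hp2 : HasDerivAt (fun s : ℂ => psi (2 * s - 1)) (deriv psi 1 * 2) 1 :=
    HasDerivAt.comp (h₂ := psi) (h := fun s : ℂ => 2 * s - 1) (1 : ℂ) (by rw [e1]; exact hp.hasDerivAt) hl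
  have hL : HasDerivAt (LL y) 0 1 :=
    (((hp.hasDerivAt.const_mul 4).fun_sub (hp2.const_mul 2)).add_const (log y)).congr_deriv (by ring)
  have hf := ff_deriv hy one_ne_zero (by norm_num) hx (by rwa [e1])
  rw [iteratedDeriv_succ, iteratedDeriv_one, hev.deriv_eq,
    ((((hf.fun_mul hL).fun_mul (hasDerivAt_id' 1)).fun_sub (hf.mul_const 1)).fun_div
      ((hasDerivAt_id' (1 : ℂ)).fun_pow 2) (by norm_num)).deriv]
  simp only [ff, LL, psi, el, c0, e1, xi_one, xi_deriv_one, cpow_one, ofReal_log hy.le]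
  norm_num
  ring

theorem part1 (hZ : St_ZB1) {y : ℝ} (hy : 0 < y) :
    CircleIntegrable (fun s => 2 * Rf (1 - s) * (y : ℂ) ^ s / s) 1 dl ∧
      (2 * π * I : ℂ)⁻¹ * (∮ s in C(1, dl), 2 * Rf (1 - s) * (y : ℂ) ^ s / s) =
        2 * y * (el y ^ 2 - 2 * el y + 2) := by
  have h0 : ∀ s : ℂ, ‖s - 1‖ ≤ dl → s ≠ 0 := fun s h => ne_of_re (by have := ball_re h; simp; linarith)
  have hd : DifferentiableOn ℂ (fun s => ff y s / s) (Metric.closedBall 1 dl) := fun s hs =>
    ((ff_diff hy (mem_closedBall_iff_norm.1 hs)).div differentiableAt_id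
      (h0 s (mem_closedBall_iff_norm.1 hs))).differentiableWithinAt
  have he : EqOn (fun s => 2 * Rf (1 - s) * (y : ℂ) ^ s / s)
      (fun s => 2 * ((1 / (s - 1) ^ (2 + 1)) • (ff y s / s))) (Metric.sphere 1 dl) := fun s hs => by
    simp only [mul_assoc, Rf_ff hZ y hs, smul_eq_mul]
    ring
  constructor
  · refine ContinuousOn.circleIntegrable dl_pos.le (ContinuousOn.congr ?_ he)
    refine continuousOn_const.mul (ContinuousOn.smul (continuousOn_const.div (by fun_prop) fun s hs =>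
      pow_ne_zero _ (sub_ne_zero.2 (sph hs).2)) (hd.continuousOn.mono Metric.sphere_subset_closedBall))
  · rw [circleIntegral.integral_congr dl_pos.le he, circleIntegral.integral_const_mul,
      hd.circleIntegral_one_div_sub_center_pow_smul dl_pos 2, gg_two hy, smul_eq_mul]
    have : (π : ℂ) ≠ 0 := ofReal_ne_zero.2 Real.pi_ne_zero
    rw [show ((Nat.factorial 2 : ℕ) : ℂ) = 2 by norm_num]
    field_simp

/-- the shifted integrand -/
def hh (y : ℝ) (s : ℂ) : ℂ := 2 * Rf s * (y : ℂ) ^ (1 - s) / (1 - s)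

theorem shp2 (hS : St_SHP) (h3 : St_ZB3) {y : ℝ} (hy : 0 < y) :
    CircleIntegrable (hh y) 1 dl ∧ Integrable (fun t : ℝ => hh y (sk t)) ∧
    I * (∫ t : ℝ, hh y (2 + t * I)) - I * (∫ t : ℝ, hh y (sk t)) = ∮ s in C(1, dl), hh y s := by
  obtain ⟨⟨C, hC⟩, ⟨f, hf, hR⟩, -⟩ := h3
  have hy0 : (y : ℂ) ≠ 0 := ofReal_ne_zero.2 hy.ne'
  have a3 : Differentiable ℂ (fun s : ℂ => (y : ℂ) ^ (1 - s)) := fun s =>
    DifferentiableAt.const_cpow (by fun_prop) (Or.inl hy0)
  have hdl := dl_le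
  constructor
  · refine ContinuousOn.circleIntegrable dl_pos.le (ContinuousOn.div (ContinuousOn.mul (continuousOn_const.mul ?_)
      a3.continuous.continuousOn) (by fun_prop) fun s hs => sub_ne_zero.2 (sph hs).2.symm)
    have hre : ∀ s ∈ Metric.sphere (1 : ℂ) dl, 1 / 2 ≤ s.re := fun s hs => by linarith [ball_re (sph hs).1]
    refine ContinuousOn.congr ?_ fun s hs => hR s (hre s hs) (sph hs).2
    exact ContinuousOn.div (fun s hs => (hf s (hre s hs)).continuousAt.continuousWithinAt) (by fun_prop)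
      fun s hs => pow_ne_zero _ (sub_ne_zero.2 (sph hs).2)
  have key := hS.1 (hh y) (fun s => -2 * f s * (y : ℂ) ^ (1 - s)) 5 (1 / 2) 2 1 dl
    (fun t => 2 * (C * Real.exp (-|t|)) * (y ^ (1 / 2 : ℝ) + y ^ (-1 : ℝ))) dl_pos (by linarith) (by linarith)
    (fun s hs => (((hf s hs.1.le).const_mul _).mul (a3 s)).differentiableWithinAt)
    (fun s hs => (((hf s hs.1).const_mul _).mul (a3 s)).continuousAt.continuousWithinAt)
    (fun s h1 _ h2 => by
      rw [ofReal_one] at h2 ⊢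
      have h4 : s - 1 ≠ 0 := sub_ne_zero.2 h2
      rw [hh, hR s h1 h2, ← neg_sub s 1]
      field_simp)
    (((int_exp_abs.const_mul C).const_mul 2).mul_const _)
    (fun s h1 h2 h4 => by
      have h5 := hC s h1 h2 h4
      have h6 : 1 ≤ ‖1 - s‖ := by
        refine h4.trans (le_trans (le_of_eq ?_) (abs_im_le_norm _))
        rw [sub_im, one_im, zero_sub, abs_neg]
      rw [hh, norm_div]
      refine (div_le_self (norm_nonneg _) h6).trans ?_
      rw [norm_mul, norm_mul, Complex.norm_two, norm_cpow_eq_rpow_re_of_pos hy, sub_re, one_re]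
      refine mul_le_mul (by linarith) ?_ (by positivity) (by linarith [norm_nonneg (Rf s)])
      rcases le_total 1 y with h | h
      · exact le_add_of_le_of_nonneg (Real.rpow_le_rpow_of_exponent_le h (by linarith)) (by positivity)
      · exact le_add_of_nonneg_of_le (by positivity) (Real.rpow_le_rpow_of_exponent_ge hy h (by linarith)))
  have e1 : ∀ t : ℝ, ((1 / 2 : ℝ) : ℂ) + t * I = sk t := fun t => by rw [sk]; push_cast; rfl
  simp only [e1, ofReal_ofNat, ofReal_one] at key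
  exact ⟨key.1, key.2.2⟩

theorem fub (hS : St_SHP) (h3 : St_ZB3) (hC : St_CONST) {a : ℝ} (ha : 0 < a) :
    2 * (∫ y in Ioi (1 : ℝ), Dd (y * a : ℝ) / y) = -(1 / (2 * π) : ℂ) * ∫ t : ℝ, hh a (2 + t * I) := by
  have b3 := (shp hS h3 ha).2.2.1
  have e : ∀ y ∈ Ioi (1 : ℝ), Dd (y * a : ℝ) / y = (1 / (2 * π) : ℂ) *
      ∫ t : ℝ, Rf (2 + t * I) * (a : ℂ) ^ (1 - (2 + t * I)) * (y : ℂ) ^ (-(2 + t * I)) := fun y hy => by
    have hy' : 0 < y := one_pos.trans hy
    have hy0 : (y : ℂ) ≠ 0 := ofReal_ne_zero.2 hy'.ne'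
    rw [(hC _ (mul_pos hy' ha)).2.1, mul_div_assoc, ← integral_div]
    congr 1
    refine integral_congr_ae (Eventually.of_forall fun t => ?_)
    simp only
    rw [ofReal_mul, mul_cpow_ofReal_nonneg hy'.le ha.le, sub_eq_add_neg, cpow_add _ _ hy0, cpow_one]
    field_simp
  rw [setIntegral_congr_fun measurableSet_Ioi e, integral_const_mul, integral_integral_swap]
  · rw [neg_mul, ← mul_neg, ← integral_neg, mul_left_comm, ← integral_const_mul]
    congr 1
    refine integral_congr_ae (Eventually.of_forall fun t => ?_)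
    simp only
    have h1 : (1 : ℂ) - (2 + t * I) ≠ 0 := sub_ne_zero.2 (ne_of_re (by simp))
    rw [integral_const_mul, integral_Ioi_cpow_of_lt (by simp) one_pos, ofReal_one, one_cpow, hh, neg_add_eq_sub]
    field_simp
  · refine Integrable.mono' ((integrableOn_Ioi_rpow_of_lt (a := -2) (by norm_num) one_pos).mul_prod b3.norm)
      (b3.aestronglyMeasurable.comp_snd.mul (Measurable.aestronglyMeasurable (by fun_prop))) ?_
    filter_upwards [Measure.quasiMeasurePreserving_fst.ae (ae_restrict_mem measurableSet_Ioi)] with p hp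
    rw [Function.uncurry, norm_mul, norm_cpow_eq_rpow_re_of_pos (one_pos.trans hp), mul_comm]
    simp

end CONST2

open CONST CONST2 in
theorem t_const2 : T_CONST2 := by
  intro hS hZ h3 hC y hy
  obtain ⟨a1, a2⟩ := CONST2.part1 hZ hy
  obtain ⟨b1, b2, b4⟩ := shp2 hS h3 hy
  have c1 := fub hS h3 hC hy
  have hZf : ∀ s : ℂ, s ≠ 0 → s ≠ 1 / 2 → s ≠ 1 → 1 / 2 ≤ s.re → xi (2 * s - 1) ≠ 0 →
      coef s * Zf y s = 2 * Rf (1 - s) * (y : ℂ) ^ s / s + hh y s := fun s h0 h1 h2 h3 h4 => by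
    have h5 : xi (2 * s) ≠ 0 := hZ.2.2.2.1 _ (by simp; linarith)
    rw [hh, ← hZ.2.2.2.2.2.2.2.1 s h1 h2 h4, ← hZ.2.2.2.2.2.2.2.2.1 s h0 h1 h5, Zf]
    ring
  have hsp : EqOn (fun s => coef s * Zf y s) (fun s => 2 * Rf (1 - s) * (y : ℂ) ^ s / s + hh y s)
      (Metric.sphere 1 dl) := fun s hs => by
    have := ball_re (sph hs).1
    exact hZf s (ne_of_re (by simp; linarith)) (ne_of_re (by norm_num; linarith)) (sph hs).2 (by linarith)
      (dl_ne (sph hs).1)
  have hline : (fun t : ℝ => coef (sk t) * Zf y (sk t)) =ᵐ[volume] fun t : ℝ => hh y (sk (-t)) + hh y (sk t) := by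
    filter_upwards [compl_mem_ae_iff.2 (measure_singleton (0 : ℝ))] with t ht
    have e1 : 1 - sk t = sk (-t) := by simp only [sk]; push_cast; ring
    have e2 : 1 - sk (-t) = sk t := by simp only [sk]; push_cast; ring
    have hre : (sk t).re = 1 / 2 := by simp [sk]
    have hne : sk t ≠ 1 / 2 := fun e => ht (by simpa [sk] using e)
    rw [hZf _ (ne_of_re (by rw [hre]; norm_num)) hne (ne_of_re (by rw [hre]; norm_num)) hre.ge
      (hZ.2.2.2.2.1 _ (by simp [hre])), e1, hh.eq_def y (sk (-t)), e2]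
  have b5 := b2.comp_neg
  refine ⟨?_, (b5.add b2).congr hline.symm, ?_⟩
  · refine IntervalIntegrable.congr (fun θ _ => ?_) (a1.add b1)
    exact (hsp (circleMap_mem_sphere _ dl_pos.le θ)).symm
  · rw [circleIntegral.integral_congr dl_pos.le hsp, circleIntegral.integral_add a1 b1, integral_congr_ae hline,
      integral_add b5 b2, integral_neg_eq_self (fun t : ℝ => hh y (sk t)), ← b4, ← a2, c1]
    have : (π : ℂ) ≠ 0 := ofReal_ne_zero.2 Real.pi_ne_zero
    field_simp
    ring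

end

end Pool.Agent.Lib.E2
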