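import Pool.Agent.Lib.E2.Blue2

namespace Pool.Agent.Lib.E2

open Complex MeasureTheory Set Filter Topology
open scoped Real

theorem cor_lll : Tendsto lll atTop atTop :=
  Real.tendsto_log_atTop.comp (Real.tendsto_log_atTop.comp Real.tendsto_log_atTop)

theorem cor_double : ∀ᶠ T : ℝ in atTop, 2 ≤ T ∧ 1 ≤ lll T ∧
    ∀ t : ℝ, T ≤ t → t ≤ 2 * T → 0 ≤ lll t ∧ lll t ≤ 2 * lll T := by
  have l2 := Real.log_two_lt_d9
  filter_upwards [eventually_ge_atTop 2, Real.tendsto_log_atTop.eventually_ge_atTop 1,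
    (Real.tendsto_log_atTop.comp Real.tendsto_log_atTop).eventually_ge_atTop 1,
    cor_lll.eventually_ge_atTop 1] with T h0 h1 h2 h3
  refine ⟨h0, h3, fun t a b => ?_⟩
  have h2' : 1 ≤ Real.log (Real.log T) := h2
  have step : ∀ x y : ℝ, 0 < x → x ≤ y → y ≤ 2 * x → 1 ≤ Real.log x →
      Real.log x ≤ Real.log y ∧ Real.log y ≤ 2 * Real.log x := fun x y hx a b c => by
    refine ⟨Real.log_le_log hx a, (Real.log_le_log (by linarith) b).trans ?_⟩
    rw [Real.log_mul two_ne_zero hx.ne']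
    linarith
  obtain ⟨a1, b1⟩ := step T t (by linarith) a b h1
  obtain ⟨a2, b2⟩ := step _ _ (by linarith) a1 b1 h2'
  obtain ⟨a3, b3⟩ := step _ _ (by linarith) a2 b2 h3
  exact ⟨le_trans (le_trans zero_le_one h3) a3, b3⟩

theorem cor_freq {p : ℝ → Prop} (h : ∀ T0 : ℝ, ∃ T : ℝ, T0 ≤ T ∧ p T) : ∃ᶠ T in atTop, p T :=
  frequently_atTop.2 h

theorem cor_pow {T : ℝ} (hT : 0 < T) : T ^ (3 / 2 : ℝ) = T * √T := by
  rw [Real.sqrt_eq_rpow, ← Real.rpow_one_add' hT.le (by norm_num)]; norm_num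

theorem cor_omega (h : Core) (P : Polynomial ℝ) (hP : IsMain P) (u : ℝ) (hu : u = 1 ∨ u = -1) :
    ∃ c : ℝ, 0 < c ∧ ∃ᶠ T in atTop, c * √T * lll T ^ 3 ≤ u * err P T := by
  obtain ⟨c, hc, h⟩ := h P hP u hu
  refine ⟨c / 32, by positivity, cor_freq fun T0 => ?_⟩
  obtain ⟨T, ⟨h1, hT0⟩, h2, h3, h4⟩ :=
    (((cor_freq h).and_eventually (eventually_ge_atTop T0)).and_eventually cor_double).exists
  have T0' : 0 < T := by linarith
  have s0 : 0 < √T := Real.sqrt_pos.2 T0'
  by_contra hcon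
  push Not at hcon
  have b : ‖∫ t in T..2 * T, max (u * err P t) 0‖ ≤ (c / 2 * √T * lll T ^ 3) * |2 * T - T| := by
    refine intervalIntegral.norm_integral_le_of_norm_le_const fun t ht => ?_
    rw [uIoc_of_le (by linarith)] at ht
    obtain ⟨a1, a2⟩ := h4 t ht.1.le ht.2
    rw [Real.norm_of_nonneg (le_max_right _ _)]
    refine max_le ((hcon t (hT0.trans ht.1.le)).le.trans ?_) (by positivity)
    have a3 : √t ≤ 2 * √T := by
      rw [Real.sqrt_le_left (by positivity), mul_pow, Real.sq_sqrt T0'.le]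
      linarith [ht.2]
    calc c / 32 * √t * lll t ^ 3 ≤ c / 32 * (2 * √T) * (2 * lll T) ^ 3 := by gcongr
      _ = _ := by ring
  rw [abs_of_nonneg (show 0 ≤ 2 * T - T by linarith)] at b
  rw [cor_pow T0'] at h1
  have := h1.trans ((le_abs_self _).trans b)
  have p : 0 < c * (T * √T) * lll T ^ 3 := by positivity
  linarith

theorem cor_omega_pm (h : Core) (P : Polynomial ℝ) (hP : IsMain P) : ∃ c : ℝ, 0 < c ∧
    (∃ᶠ T in atTop, c * √T * lll T ^ 3 ≤ err P T) ∧
    ∃ᶠ T in atTop, err P T ≤ -(c * √T * lll T ^ 3) := by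
  obtain ⟨c1, h1, a1⟩ := cor_omega h P hP 1 (Or.inl rfl)
  obtain ⟨c2, h2, a2⟩ := cor_omega h P hP (-1) (Or.inr rfl)
  have m : ∀ {c : ℝ}, min c1 c2 ≤ c → ∀ T : ℝ, 1 ≤ lll T →
      min c1 c2 * √T * lll T ^ 3 ≤ c * √T * lll T ^ 3 := fun hc T hT => by gcongr
  refine ⟨min c1 c2, lt_min h1 h2, ?_, ?_⟩
  · refine (a1.and_eventually cor_double).mono fun T hT => ?_
    linarith [m (min_le_left _ _) T hT.2.2.1, hT.1]
  · refine (a2.and_eventually cor_double).mono fun T hT => ?_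
    linarith [m (min_le_right _ _) T hT.2.2.1, hT.1]

theorem cor_square (h : Core) (hDY : St_DY) (P : Polynomial ℝ) (hP : IsMain P) :
    ∃ c : ℝ, 0 < c ∧ ∃ᶠ T in atTop, c * T ^ 2 * lll T ^ 6 ≤ ∫ t in (0 : ℝ)..T, err P t ^ 2 := by
  obtain ⟨c, hc, h⟩ := h P hP 1 (Or.inl rfl)
  obtain ⟨cE, ⟨C, hC⟩, -⟩ := hDY.2.2.2.2 P
  have ii : ∀ {g : ℝ → ℝ}, ContinuousOn g (Ioi 0) → ∀ a b : ℝ, 0 < a → 0 < b →
      IntervalIntegrable g volume a b := fun hg a b ha hb =>
    (hg.mono fun _ ht => lt_of_lt_of_le (lt_min ha hb) ht.1).intervalIntegrable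
  have i0 : IntervalIntegrable (fun t => err P t ^ 2) volume 0 1 := by
    rw [intervalIntegrable_iff_integrableOn_Ioc_of_le zero_le_one]
    refine Measure.integrableOn_of_bounded (M := C ^ 2) (by simp) ?_ ?_
    · unfold err mom
      have : Continuous fun T : ℝ => ∫ t in (0 : ℝ)..T, z4 t :=
        continuous_iff_continuousAt.2 fun t => (hDY.2.2.2.1 t).continuousAt
      exact ((this.measurable.sub (measurable_id.mul
        (P.continuous.measurable.comp Real.measurable_log))).pow_const 2).aestronglyMeasurable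
    · filter_upwards [ae_restrict_mem measurableSet_Ioc] with t ht
      have a := hC t ht
      have b : t ^ (3 / 4 : ℝ) ≤ 1 := Real.rpow_le_one ht.1.le ht.2 (by norm_num)
      have c : C * t ^ (3 / 4 : ℝ) ≤ |C| * 1 :=
        mul_le_mul (le_abs_self _) b (Real.rpow_nonneg ht.1.le _) (abs_nonneg _)
      rw [Real.norm_of_nonneg (sq_nonneg _), sq_le_sq]
      linarith
  refine ⟨c ^ 2 / 256, by positivity, cor_freq fun T0 => ?_⟩
  obtain ⟨T, ⟨h1, hT0⟩, h2, h3, h4⟩ :=
    (((cor_freq h).and_eventually (eventually_ge_atTop T0)).and_eventually cor_double).exists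
  have T0' : 0 < T := by linarith
  refine ⟨2 * T, by linarith, ?_⟩
  obtain ⟨a1, a2⟩ := h4 (2 * T) (by linarith) le_rfl
  set a := c * √T * lll T ^ 3 with ha
  have a0 : 0 ≤ a := by positivity
  have i1 : IntervalIntegrable (fun t => err P t ^ 2) volume T (2 * T) :=
    ii (cE.pow 2) T (2 * T) T0' (by linarith)
  have i2 : IntervalIntegrable (fun t => max (1 * err P t) 0) volume T (2 * T) :=
    ii ((continuousOn_const.mul cE).sup continuousOn_const) T (2 * T) T0' (by linarith)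
  have b1 : ∫ t in T..2 * T, (2 * a * max (1 * err P t) 0 - a ^ 2) ≤
      ∫ t in T..2 * T, err P t ^ 2 := by
    refine intervalIntegral.integral_mono_on (by linarith)
      ((i2.const_mul _).sub intervalIntegrable_const) i1 fun t _ => ?_
    rcases le_total (1 * err P t) 0 with h | h
    · rw [max_eq_right h]; nlinarith [sq_nonneg a, sq_nonneg (err P t)]
    · rw [max_eq_left h]; nlinarith [sq_nonneg (a - err P t)]
  rw [intervalIntegral.integral_sub (i2.const_mul _) intervalIntegrable_const,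
    intervalIntegral.integral_const_mul, intervalIntegral.integral_const, smul_eq_mul] at b1
  have b2 : ∫ t in T..2 * T, err P t ^ 2 ≤ ∫ t in (0 : ℝ)..2 * T, err P t ^ 2 :=
    intervalIntegral.integral_mono_interval T0'.le (by linarith) le_rfl
      (ae_of_all _ fun t => sq_nonneg _) (i0.trans (ii (cE.pow 2) 1 _ one_pos (by linarith)))
  rw [cor_pow T0'] at h1
  have b3 : 2 * a * (T * a) ≤ 2 * a * ∫ t in T..2 * T, max (1 * err P t) 0 :=
    mul_le_mul_of_nonneg_left (by rw [ha]; linarith) (by positivity)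
  have b4 : T * a ^ 2 = c ^ 2 * T ^ 2 * lll T ^ 6 := by
    rw [ha, mul_pow, mul_pow, Real.sq_sqrt T0'.le]; ring
  have b5 : c ^ 2 / 256 * (2 * T) ^ 2 * lll (2 * T) ^ 6 ≤
      c ^ 2 / 256 * (2 * T) ^ 2 * (2 * lll T) ^ 6 := by gcongr
  linarith

end Pool.Agent.Lib.E2
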