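import Pool.Agent.Lib.E2.Blue2

/-!
Block DEG: the main term polynomial has degree at most four.
-/

namespace Pool.Agent.Lib.E2

open Complex MeasureTheory Set Filter Topology
open scoped Real

theorem t_deg : T_DEG := by
  intro hZ P ⟨C, hC⟩ hP
  have hz : ∀ t, 0 ≤ z4 t := hZ.2.2.2.2.2.2.2.2.2.2.2.2.1
  by_contra hlt
  push Not at hlt
  have hdeg : (Polynomial.X ^ 4 : Polynomial ℝ).degree < P.degree := by
    rw [Polynomial.degree_X_pow]
    exact Polynomial.coe_lt_degree.2 hlt
  have h1 := Polynomial.abs_div_tendsto_atTop_atTop_of_degree_gt P (Polynomial.X ^ 4) hdeg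
    (pow_ne_zero _ Polynomial.X_ne_zero)
  have h2 := (hP.comp Real.tendsto_exp_atTop).eventually (Metric.ball_mem_nhds (0 : ℝ) one_pos)
  obtain ⟨x, ⟨h3, h4⟩, h5⟩ := (((h1.eventually_gt_atTop (|C| + 1)).and h2).and
    (eventually_ge_atTop (1 : ℝ))).exists
  have hT : 2 ≤ Real.exp x := by linarith [Real.add_one_le_exp x]
  have hT0 : 0 < Real.exp x := Real.exp_pos x
  have h6 := hC _ hT
  have h7 : 0 ≤ mom (Real.exp x) := intervalIntegral.integral_nonneg hT0.le fun t _ => hz t
  rw [Real.log_exp] at h6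
  have h8 : |err P (Real.exp x) / Real.exp x| < 1 := by
    have := Metric.mem_ball.1 h4
    rwa [Real.dist_eq, sub_zero] at this
  have h9 : err P (Real.exp x) / Real.exp x = mom (Real.exp x) / Real.exp x - P.eval x := by
    unfold err; rw [Real.log_exp]; field_simp
  have hx4 : 1 ≤ x ^ 4 := one_le_pow₀ h5
  have h10 : mom (Real.exp x) / Real.exp x ≤ |C| * x ^ 4 := by
    rw [div_le_iff₀ hT0]
    have : C * Real.exp x * x ^ 4 ≤ |C| * Real.exp x * x ^ 4 := by gcongr; exact le_abs_self C
    linarith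
  have h11 : 0 ≤ mom (Real.exp x) / Real.exp x := by positivity
  rw [h9, abs_lt] at h8
  have h12 : |P.eval x| ≤ (|C| + 1) * x ^ 4 := by
    rw [abs_le]; constructor <;> nlinarith [abs_nonneg C]
  rw [Polynomial.eval_pow, Polynomial.eval_X, abs_div, abs_of_pos (by positivity : 0 < x ^ 4),
    lt_div_iff₀ (by positivity)] at h3
  linarith

end Pool.Agent.Lib.E2
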