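import Pool.Agent.Lib.E2.Blue

namespace Pool.Agent.Lib.E2

noncomputable section

open MeasureTheory Set Filter Topology

theorem dy_poly (P : Polynomial ℝ) (d : ℝ) (hd : 0 < d) :
    ∃ C : ℝ, 0 ≤ C ∧ ∀ x : ℝ, |P.eval x| ≤ C * Real.exp (d * |x|) := by
  induction P using Polynomial.induction_on' with
  | add p q hp hq =>
    obtain ⟨C, hC, h1⟩ := hp
    obtain ⟨D, hD, h2⟩ := hq
    refine ⟨C + D, by positivity, fun x => ?_⟩
    rw [Polynomial.eval_add, add_mul]
    exact (abs_add_le _ _).trans (add_le_add (h1 x) (h2 x))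
  | monomial n a =>
    refine ⟨|a| * ((n.factorial : ℝ) / d ^ n), by positivity, fun x => ?_⟩
    rw [Polynomial.eval_monomial, abs_mul, abs_pow, mul_assoc]
    refine mul_le_mul_of_nonneg_left ?_ (abs_nonneg _)
    have h := Real.pow_div_factorial_le_exp (d * |x|) (by positivity) n
    have hf : (0 : ℝ) < n.factorial := by positivity
    have hdn : 0 < d ^ n := by positivity
    rw [div_le_iff₀ hf, mul_pow] at h
    rw [div_mul_eq_mul_div, le_div_iff₀ hdn]
    linarith

theorem dy_hi (P : Polynomial ℝ) (d : ℝ) (hd : 0 < d) :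
    ∃ C : ℝ, 0 ≤ C ∧ ∀ t : ℝ, 1 ≤ t → |P.eval (Real.log t)| ≤ C * t ^ d := by
  obtain ⟨C, hC, h⟩ := dy_poly P d hd
  refine ⟨C, hC, fun t ht => ?_⟩
  have := h (Real.log t)
  rwa [abs_of_nonneg (Real.log_nonneg ht), mul_comm d,
    ← Real.rpow_def_of_pos (by linarith)] at this

theorem dy_lo (P : Polynomial ℝ) (d : ℝ) (hd : 0 < d) :
    ∃ C : ℝ, 0 ≤ C ∧ ∀ t : ℝ, 0 < t → t ≤ 1 → |P.eval (Real.log t)| ≤ C * t ^ (-d) := by
  obtain ⟨C, hC, h⟩ := dy_poly P d hd
  refine ⟨C, hC, fun t ht ht1 => ?_⟩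
  have := h (Real.log t)
  rwa [abs_of_nonpos (Real.log_nonpos ht.le ht1),
    show d * -Real.log t = Real.log t * (-d) by ring, ← Real.rpow_def_of_pos ht] at this

theorem dy_abs {f : ℝ → ℝ} (hf : IntegrableOn f (Ioi 0)) : Integrable (fun x => f |x|) := by
  have h1 : IntegrableOn (fun x => f |x|) (Ioi 0) :=
    hf.congr_fun (fun x hx => by simp only [abs_of_pos (show 0 < x from hx)]) measurableSet_Ioi
  have h2 : IntegrableOn (fun x => f |x|) (Iic 0) := by
    rw [← Measure.map_neg_eq_self (volume : Measure ℝ)]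
    have m : MeasurableEmbedding fun x : ℝ => -x := (Homeomorph.neg ℝ).measurableEmbedding
    rw [m.integrableOn_map_iff]
    simp_rw [Function.comp_def, abs_neg, neg_preimage, neg_Iic, neg_zero]
    exact Iff.mpr integrableOn_Ici_iff_integrableOn_Ioi h1
  rw [← integrableOn_univ, ← Iic_union_Ioi (a := (0 : ℝ))]
  exact h2.union h1

theorem dy_gam0 (c e : ℝ) (hc : -1 < c) (he : 0 < e) :
    IntegrableOn (fun t : ℝ => t ^ c * Real.exp (-e * t)) (Ioi 0) ∧
    ∫ t in Ioi (0 : ℝ), t ^ c * Real.exp (-e * t) = Real.Gamma (c + 1) * e ^ (-(c + 1)) := by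
  have h := Real.integral_rpow_mul_exp_neg_mul_Ioi (a := c + 1) (r := e) (by linarith) he
  simp only [add_sub_cancel_right, ← neg_mul] at h
  have h2 : (1 / e) ^ (c + 1) = e ^ (-(c + 1)) := by
    rw [one_div, Real.inv_rpow he.le, Real.rpow_neg he.le]
  rw [h2, mul_comm] at h
  have hG : 0 < Real.Gamma (c + 1) := Real.Gamma_pos_of_pos (by linarith)
  refine ⟨Integrable.of_integral_ne_zero ?_, h⟩
  rw [h]
  positivity

theorem dy_gam (c : ℝ) (hc : -1 < c) (hc1 : c ≤ 1) : ∃ C : ℝ, 0 ≤ C ∧ ∀ e ∈ Ioc (0 : ℝ) 1,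
    IntegrableOn (fun t : ℝ => (1 + t) ^ c * Real.exp (-e * t)) (Ioi 0) ∧
    ∫ t in Ioi (0 : ℝ), (1 + t) ^ c * Real.exp (-e * t) ≤ C * e ^ (-(c + 1)) := by
  have hG : 0 < Real.Gamma (c + 1) := Real.Gamma_pos_of_pos (by linarith)
  have key : ∀ (e : ℝ) (g : ℝ → ℝ), IntegrableOn g (Ioi 0) →
      (∀ t, 0 < t → (1 + t) ^ c * Real.exp (-e * t) ≤ g t) →
      IntegrableOn (fun t : ℝ => (1 + t) ^ c * Real.exp (-e * t)) (Ioi 0) ∧
      ∫ t in Ioi (0 : ℝ), (1 + t) ^ c * Real.exp (-e * t) ≤ ∫ t in Ioi (0 : ℝ), g t := by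
    intro e g hg hle
    have hi : IntegrableOn (fun t : ℝ => (1 + t) ^ c * Real.exp (-e * t)) (Ioi 0) := by
      refine Integrable.mono' hg (Measurable.aestronglyMeasurable (by fun_prop)) ?_
      filter_upwards [ae_restrict_mem measurableSet_Ioi] with t ht
      have ht' : 0 < t := ht
      rw [Real.norm_eq_abs, abs_of_nonneg (by positivity)]
      exact hle t ht
    exact ⟨hi, setIntegral_mono_on hi hg measurableSet_Ioi hle⟩
  rcases le_total c 0 with h0 | h0
  · refine ⟨Real.Gamma (c + 1), hG.le, fun e he => ?_⟩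
    obtain ⟨h1, h2⟩ := dy_gam0 c e hc he.1
    rw [← h2]
    refine key e _ h1 fun t ht => mul_le_mul_of_nonneg_right ?_ (Real.exp_pos _).le
    exact Real.rpow_le_rpow_of_nonpos ht (by linarith) h0
  · refine ⟨1 + Real.Gamma (c + 1), by positivity, fun e he => ?_⟩
    obtain ⟨h1, h2⟩ := dy_gam0 c e hc he.1
    obtain ⟨h3, h4⟩ := dy_gam0 0 e (by norm_num) he.1
    obtain ⟨h5, h6⟩ := key e (fun t => t ^ (0 : ℝ) * Real.exp (-e * t) + t ^ c * Real.exp (-e * t))
      (h3.add h1) (fun t ht => by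
        rw [← add_mul]
        refine mul_le_mul_of_nonneg_right ?_ (Real.exp_pos _).le
        have := Real.rpow_add_le_add_rpow zero_le_one ht.le h0 hc1
        rw [Real.one_rpow] at this
        rwa [Real.rpow_zero])
    refine ⟨h5, h6.trans ?_⟩
    rw [integral_add h3 h1, h2, h4, zero_add, Real.Gamma_one, add_mul]
    have : e ^ (-1 : ℝ) ≤ e ^ (-(c + 1)) :=
      Real.rpow_le_rpow_of_exponent_ge he.1 he.2 (by linarith)
    linarith

theorem dy_der (hc : Continuous z4) (t : ℝ) : HasDerivAt mom (z4 t) t :=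
  intervalIntegral.integral_hasDerivAt_right (hc.intervalIntegrable _ _)
    (hc.stronglyMeasurableAtFilter _ _) hc.continuousAt

theorem dy_mom (hn : ∀ t, 0 ≤ z4 t) (C : ℝ) (hC : ∀ t, z4 t ≤ C * (1 + |t|) ^ 2) (T : ℝ)
    (hT : 0 ≤ T) : |mom T| ≤ |C| * (1 + T) ^ 2 * T := by
  have h := intervalIntegral.norm_integral_le_of_norm_le_const (a := 0) (b := T) (f := z4)
    (C := |C| * (1 + T) ^ 2) (fun x hx => by
      rw [uIoc_of_le hT] at hx
      rw [Real.norm_eq_abs, abs_of_nonneg (hn x)]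
      refine (hC x).trans ?_
      rw [abs_of_pos hx.1]
      have h1 := hx.1
      have h2 := hx.2
      gcongr
      exact le_abs_self C)
  rwa [sub_zero, abs_of_nonneg hT, Real.norm_eq_abs] at h

theorem dy_ext (hn : ∀ t, 0 ≤ z4 t) (C : ℝ) (hC : ∀ t, z4 t ≤ C * (1 + |t|) ^ 2) (hM : Mom9) :
    ∃ D : ℝ, 0 ≤ D ∧ ∀ t, 0 ≤ t → mom t ≤ D * (1 + t) ^ (9 / 8 : ℝ) := by
  obtain ⟨B, hB⟩ := hM
  refine ⟨4 * |C| + |B|, by positivity, fun t ht => ?_⟩
  have h1 : (1 : ℝ) ≤ (1 + t) ^ (9 / 8 : ℝ) := Real.one_le_rpow (by linarith) (by norm_num)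
  have hC0 := abs_nonneg C
  have hB0 := abs_nonneg B
  rcases le_total t 1 with h | h
  · have h2 := (le_abs_self _).trans (dy_mom hn C hC t ht)
    have h3 : |C| * (1 + t) ^ 2 * t ≤ |C| * (1 + 1) ^ 2 * 1 := by gcongr
    nlinarith
  · have h2 := hB t h
    have h3 : B * t ^ (9 / 8 : ℝ) ≤ |B| * (1 + t) ^ (9 / 8 : ℝ) := by
      gcongr
      · exact le_abs_self B
      · linarith
    nlinarith

theorem dy_ibp (hc : Continuous z4) (hn : ∀ t, 0 ≤ z4 t) (D : ℝ) (hD0 : 0 ≤ D)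
    (hD : ∀ t, 0 ≤ t → mom t ≤ D * (1 + t) ^ (9 / 8 : ℝ)) (a e : ℝ) (ha : 0 ≤ a) (he : 0 ≤ e)
    (hi : IntegrableOn (fun t : ℝ => (1 + t) ^ (1 / 8 - a) * Real.exp (-e * t)) (Ioi 0)) :
    IntegrableOn (fun t : ℝ => z4 t * (1 + t) ^ (-a) * Real.exp (-e * t)) (Ioi 0) ∧
    ∫ t in Ioi (0 : ℝ), z4 t * (1 + t) ^ (-a) * Real.exp (-e * t) ≤
      D + 9 / 8 * D * ∫ t in Ioi (0 : ℝ), (1 + t) ^ (1 / 8 - a) * Real.exp (-e * t) := by
  have hp : ∀ (b T : ℝ), 0 ≤ T → ContinuousOn (fun t : ℝ => (1 + t) ^ b) (uIcc 0 T) := by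
    intro b T hT
    refine ContinuousOn.rpow_const (by fun_prop) fun x hx => Or.inl ?_
    rw [uIcc_of_le hT] at hx
    linarith [hx.1]
  have hx : ∀ s : Set ℝ, ContinuousOn (fun t : ℝ => Real.exp (-e * t)) s := fun s => by fun_prop
  have hf : ∀ T, 0 ≤ T → IntervalIntegrable
      (fun t : ℝ => z4 t * (1 + t) ^ (-a) * Real.exp (-e * t)) volume 0 T := fun T hT =>
    ((hc.continuousOn.mul (hp _ T hT)).mul (hx _)).intervalIntegrable
  have key : ∀ T, 0 ≤ T → ∫ t in (0 : ℝ)..T, z4 t * (1 + t) ^ (-a) * Real.exp (-e * t) ≤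
      D + 9 / 8 * D * ∫ t in Ioi (0 : ℝ), (1 + t) ^ (1 / 8 - a) * Real.exp (-e * t) := by
    intro T hT
    have hg : IntervalIntegrable
        (fun t : ℝ => (1 + t) ^ (1 / 8 - a) * Real.exp (-e * t)) volume 0 T :=
      ((hp _ T hT).mul (hx _)).intervalIntegrable
    have h := intervalIntegral.integral_mul_deriv_eq_deriv_mul (a := 0) (b := T)
      (u := fun t : ℝ => (1 + t) ^ (-a) * Real.exp (-e * t))
      (u' := fun t : ℝ => 1 * (-a) * (1 + t) ^ (-a - 1) * Real.exp (-e * t) +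
        (1 + t) ^ (-a) * (Real.exp (-e * t) * (-e * 1)))
      (v := fun t : ℝ => mom t - D * (1 + t) ^ (9 / 8 : ℝ))
      (v' := fun t : ℝ => z4 t - D * (1 * (9 / 8) * (1 + t) ^ (9 / 8 - 1 : ℝ)))
      (fun x hx => by
        rw [uIcc_of_le hT] at hx
        exact (((hasDerivAt_id x).const_add 1).rpow_const (Or.inl (by
          simp only [id]; linarith [hx.1]))).mul ((hasDerivAt_id x).const_mul (-e)).exp)
      (fun x hx => by
        rw [uIcc_of_le hT] at hx
        exact (dy_der hc x).sub ((((hasDerivAt_id x).const_add 1).rpow_const (Or.inl (by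
          simp only [id]; linarith [hx.1]))).const_mul D))
      (((continuousOn_const.mul (hp _ T hT)).mul (hx _)).add
        ((hp _ T hT).mul ((hx _).mul continuousOn_const))).intervalIntegrable
      (hc.continuousOn.sub (continuousOn_const.mul
        (continuousOn_const.mul (hp _ T hT)))).intervalIntegrable
    have h1 : ∫ t in (0 : ℝ)..T, (1 + t) ^ (-a) * Real.exp (-e * t) *
        (z4 t - D * (1 * (9 / 8) * (1 + t) ^ (9 / 8 - 1 : ℝ))) =
        (∫ t in (0 : ℝ)..T, z4 t * (1 + t) ^ (-a) * Real.exp (-e * t)) -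
          9 / 8 * D * ∫ t in (0 : ℝ)..T, (1 + t) ^ (1 / 8 - a) * Real.exp (-e * t) := by
      rw [← intervalIntegral.integral_const_mul,
        ← intervalIntegral.integral_sub (hf T hT) (hg.const_mul _)]
      refine intervalIntegral.integral_congr fun x hx => ?_
      rw [uIcc_of_le hT] at hx
      have h0 : 0 < 1 + x := by linarith [hx.1]
      rw [show (1 / 8 - a : ℝ) = (9 / 8 - 1) + -a by ring, Real.rpow_add h0]
      ring
    have h2 : 0 ≤ ∫ t in (0 : ℝ)..T, (1 * (-a) * (1 + t) ^ (-a - 1) * Real.exp (-e * t) +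
        (1 + t) ^ (-a) * (Real.exp (-e * t) * (-e * 1))) *
          (mom t - D * (1 + t) ^ (9 / 8 : ℝ)) := by
      refine intervalIntegral.integral_nonneg hT fun x hx => ?_
      have h0 : 0 < 1 + x := by linarith [hx.1]
      refine mul_nonneg_of_nonpos_of_nonpos ?_ (by linarith [hD x hx.1])
      have e1 : 0 ≤ a * (1 + x) ^ (-a - 1) * Real.exp (-e * x) := by positivity
      have e2 : 0 ≤ (1 + x) ^ (-a) * (Real.exp (-e * x) * e) := by positivity
      linarith
    have h3 : (1 + T) ^ (-a) * Real.exp (-e * T) * (mom T - D * (1 + T) ^ (9 / 8 : ℝ)) ≤ 0 :=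
      mul_nonpos_of_nonneg_of_nonpos (by positivity) (by linarith [hD T hT])
    have h4 : ∫ t in (0 : ℝ)..T, (1 + t) ^ (1 / 8 - a) * Real.exp (-e * t) ≤
        ∫ t in Ioi (0 : ℝ), (1 + t) ^ (1 / 8 - a) * Real.exp (-e * t) := by
      rw [intervalIntegral.integral_of_le hT]
      refine setIntegral_mono_set hi ?_ Ioc_subset_Ioi_self.eventuallyLE
      filter_upwards [ae_restrict_mem measurableSet_Ioi] with t ht
      have ht' : 0 < t := ht
      simp only [Pi.zero_apply]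
      positivity
    have h5 : mom 0 = 0 := by simp [mom]
    rw [h1, h5] at h
    simp only [add_zero, Real.one_rpow, mul_zero, Real.exp_zero, mul_one, one_mul,
      zero_sub] at h h2
    have h6 := mul_le_mul_of_nonneg_left h4 (show 0 ≤ 9 / 8 * D by positivity)
    linarith
  have hint : IntegrableOn (fun t : ℝ => z4 t * (1 + t) ^ (-a) * Real.exp (-e * t)) (Ioi 0) := by
    refine integrableOn_Ioi_of_intervalIntegral_norm_bounded (l := atTop) (b := fun n : ℕ => (n : ℝ))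
      (D + 9 / 8 * D * ∫ t in Ioi (0 : ℝ), (1 + t) ^ (1 / 8 - a) * Real.exp (-e * t)) 0
      (fun n => (hf n (Nat.cast_nonneg n)).1) tendsto_natCast_atTop_atTop
      (Eventually.of_forall fun n => ?_)
    refine le_trans (le_of_eq ?_) (key n (Nat.cast_nonneg n))
    refine intervalIntegral.integral_congr fun x hx => ?_
    rw [uIcc_of_le (Nat.cast_nonneg n)] at hx
    have h0 : 0 < 1 + x := by linarith [hx.1]
    have := hn x
    rw [Real.norm_eq_abs, abs_of_nonneg (by positivity)]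
  refine ⟨hint, le_of_tendsto (intervalIntegral_tendsto_integral_Ioi 0 hint tendsto_id) ?_⟩
  filter_upwards [eventually_ge_atTop (0 : ℝ)] with T hT
  exact key T hT

theorem dy_err (hc : Continuous z4) (P : Polynomial ℝ) : ContinuousOn (err P) (Ioi 0) := by
  have h1 : Continuous mom := continuous_iff_continuousAt.2 fun t => (dy_der hc t).continuousAt
  have h2 : ContinuousOn Real.log (Ioi 0) :=
    Real.continuousOn_log.mono fun x hx => ne_of_gt (show 0 < x from hx)
  exact h1.continuousOn.sub (continuousOn_id.mul (P.continuous.comp_continuousOn h2))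

theorem dy_lin (hc : Continuous z4) (P : Polynomial ℝ) (hP : IsMain P) :
    ∃ C : ℝ, ∀ t : ℝ, 1 ≤ t → |err P t| ≤ C * t := by
  have h := (Metric.tendsto_nhds.1 hP) 1 one_pos
  obtain ⟨T, hT⟩ := eventually_atTop.1 h
  obtain ⟨B, hB⟩ := (isCompact_Icc (a := (1 : ℝ)) (b := T)).exists_bound_of_continuousOn
    ((dy_err hc P).mono fun x hx => show 0 < x by linarith [hx.1])
  refine ⟨1 + |B|, fun t ht => ?_⟩
  have hB0 := abs_nonneg B
  rcases le_total t T with h1 | h1
  · have h2 := (hB t ⟨ht, h1⟩).trans (le_abs_self B)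
    rw [Real.norm_eq_abs] at h2
    nlinarith
  · have h2 := hT t h1
    rw [Real.dist_eq, sub_zero, abs_div, abs_of_pos (show 0 < t by linarith),
      div_lt_one (by linarith)] at h2
    nlinarith

theorem t_dy : T_DY := by
  intro hZ
  obtain ⟨-, -, -, -, -, -, -, -, -, -, -, hc, hn, hev, -, C, hC⟩ := hZ
  have habs : ∀ t, z4 |t| = z4 t := fun t => by
    rcases abs_choice t with h | h <;> rw [h]
    exact hev t
  have hC0 := abs_nonneg C
  refine ⟨fun P hP => ?_, fun hM a ha => ?_, fun hM => ?_, dy_der hc,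
    fun P => ⟨dy_err hc P, ?_, ?_, dy_lin hc P⟩⟩
  · obtain ⟨A, hA⟩ := dy_lin hc P hP
    obtain ⟨B, hB0, hB⟩ := dy_hi P (1 / 8) (by norm_num)
    refine ⟨|A| + B, fun T hT => ?_⟩
    have h0 : 0 < T := by linarith
    have h1 := (le_abs_self _).trans (hA T hT)
    have h2 := (le_abs_self _).trans (hB T hT)
    have h3 : T ^ (9 / 8 : ℝ) = T * T ^ (1 / 8 : ℝ) := by
      rw [show (9 / 8 : ℝ) = 1 + 1 / 8 by norm_num, Real.rpow_add h0, Real.rpow_one]
    have h4 : 1 ≤ T ^ (1 / 8 : ℝ) := Real.one_le_rpow hT (by norm_num)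
    have h5 := mul_le_mul_of_nonneg_left h2 h0.le
    have h6 : A * T ≤ |A| * (T * T ^ (1 / 8 : ℝ)) :=
      mul_le_mul (le_abs_self A) (le_mul_of_one_le_right h0.le h4) h0.le (abs_nonneg A)
    rw [h3]
    simp only [err] at h1
    linarith
  · obtain ⟨D, hD0, hD⟩ := dy_ext hn C hC hM
    obtain ⟨G, hG0, hG⟩ := dy_gam (1 / 8 - a) (by linarith [ha.2]) (by linarith [ha.1])
    refine ⟨2 * (D + 9 / 8 * D * G), fun e he => ?_⟩
    obtain ⟨h1, h2⟩ := hG e he
    obtain ⟨h3, h4⟩ := dy_ibp hc hn D hD0 hD a e ha.1 he.1.le h1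
    have h5 := dy_abs h3
    have h6 := integral_comp_abs (f := fun t : ℝ => z4 t * (1 + t) ^ (-a) * Real.exp (-e * t))
    simp only [habs] at h5 h6
    refine ⟨h5, ?_⟩
    rw [show -(1 / 8 - a + 1) = a - 9 / 8 by ring] at h2
    have h7 : 1 ≤ e ^ (a - 9 / 8) :=
      Real.one_le_rpow_of_pos_of_le_one_of_nonpos he.1 he.2 (by linarith [ha.2])
    have h8 := mul_le_mul_of_nonneg_left h2 (show 0 ≤ 9 / 8 * D by positivity)
    have h9 := le_mul_of_one_le_right hD0 h7
    rw [h6]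
    linarith
  · obtain ⟨D, hD0, hD⟩ := dy_ext hn C hC hM
    have h1 : IntegrableOn (fun t : ℝ => (1 + t) ^ (1 / 8 - 5 / 4 : ℝ) * Real.exp (-0 * t))
        (Ioi 0) := by
      have := integrableOn_add_rpow_Ioi_of_lt (a := 1 / 8 - 5 / 4) (c := 0) (m := 1)
        (by norm_num) (by norm_num)
      refine this.congr_fun (fun x _ => ?_) measurableSet_Ioi
      simp only [neg_zero, zero_mul, Real.exp_zero, mul_one, add_comm x]
    obtain ⟨h3, -⟩ := dy_ibp hc hn D hD0 hD (5 / 4) 0 (by norm_num) le_rfl h1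
    have hm : Measurable (fun t : ℝ => z4 t * (t ^ (-(1 / 2) : ℝ) * (1 + t) ^ (-(3 / 4) : ℝ))) :=
      hc.measurable.mul (by fun_prop)
    rw [← Ioc_union_Ioi_eq_Ioi zero_le_one]
    refine IntegrableOn.union ?_ ?_
    · have h4 : IntegrableOn (fun t : ℝ => 4 * |C| * t ^ (-(1 / 2) : ℝ)) (Ioc 0 1) :=
        ((intervalIntegral.intervalIntegrable_rpow' (a := 0) (b := 1) (r := -(1 / 2))
          (by norm_num)).1).const_mul _
      refine Integrable.mono' h4 hm.aestronglyMeasurable ?_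
      filter_upwards [ae_restrict_mem measurableSet_Ioc] with t ht
      have t0 := ht.1
      have t1 := ht.2
      have := hn t
      rw [Real.norm_eq_abs, abs_of_nonneg (by positivity)]
      have h5 : z4 t ≤ 4 * |C| := by
        refine (hC t).trans ?_
        rw [abs_of_pos t0]
        have : C * (1 + t) ^ 2 ≤ |C| * (1 + 1) ^ 2 := by
          gcongr
          exact le_abs_self C
        linarith
      have h6 : (1 + t) ^ (-(3 / 4) : ℝ) ≤ 1 :=
        Real.rpow_le_one_of_one_le_of_nonpos (by linarith) (by norm_num)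
      exact mul_le_mul h5 (mul_le_of_le_one_right (by positivity) h6) (by positivity)
        (by positivity)
    · have h4 := ((h3.mono_set (Ioi_subset_Ioi zero_le_one)).const_mul 2)
      refine Integrable.mono' h4 hm.aestronglyMeasurable ?_
      filter_upwards [ae_restrict_mem measurableSet_Ioi] with t ht
      have t1 : 1 < t := ht
      have t0 : 0 < t := by linarith
      have := hn t
      rw [Real.norm_eq_abs, abs_of_nonneg (by positivity)]
      have h5 : t ^ (-(1 / 2) : ℝ) ≤ 2 * (1 + t) ^ (-(1 / 2) : ℝ) := by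
        have e1 : (4 * t) ^ (-(1 / 2) : ℝ) ≤ (1 + t) ^ (-(1 / 2) : ℝ) :=
          Real.rpow_le_rpow_of_nonpos (by linarith) (by linarith) (by norm_num)
        have e2 : (4 : ℝ) ^ (-(1 / 2) : ℝ) = 1 / 2 := by
          rw [show (4 : ℝ) = 2 ^ (2 : ℝ) by norm_num, ← Real.rpow_mul (by norm_num)]
          norm_num
        rw [Real.mul_rpow (by norm_num) t0.le, e2] at e1
        linarith
      have h6 : (1 + t) ^ (-(5 / 4) : ℝ) = (1 + t) ^ (-(1 / 2) : ℝ) * (1 + t) ^ (-(3 / 4) : ℝ) := by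
        rw [← Real.rpow_add (by linarith)]
        norm_num
      simp only [neg_zero, zero_mul, Real.exp_zero, mul_one, h6]
      have h7 := mul_le_mul_of_nonneg_left h5
        (show 0 ≤ z4 t * (1 + t) ^ (-(3 / 4) : ℝ) by positivity)
      linarith
  · obtain ⟨B, hB0, hB⟩ := dy_lo P (1 / 4) (by norm_num)
    refine ⟨4 * |C| + B, fun t ht => ?_⟩
    have t0 := ht.1
    have t1 := ht.2
    have h1 := dy_mom hn C hC t t0.le
    have h2 : |C| * (1 + t) ^ 2 * t ≤ |C| * (1 + 1) ^ 2 * t ^ (3 / 4 : ℝ) := by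
      gcongr
      exact Real.self_le_rpow_of_le_one t0.le t1 (by norm_num)
    have h3 : t ^ (3 / 4 : ℝ) = t * t ^ (-(1 / 4) : ℝ) := by
      rw [show (3 / 4 : ℝ) = 1 + -(1 / 4) by norm_num, Real.rpow_add t0, Real.rpow_one]
    have h4 := mul_le_mul_of_nonneg_left (hB t t0 t1) t0.le
    have h5 : |err P t| ≤ |mom t| + t * |P.eval (Real.log t)| := by
      refine (abs_sub _ _).trans ?_
      rw [abs_mul, abs_of_pos t0]
    rw [h3] at h2 ⊢
    linarith
  · obtain ⟨B, hB0, hB⟩ := dy_hi P 2 (by norm_num)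
    refine ⟨4 * |C| + B, fun t ht => ?_⟩
    have t0 : 0 < t := by linarith
    have h1 := dy_mom hn C hC t t0.le
    have h2 : |C| * (1 + t) ^ 2 * t ≤ |C| * (t + t) ^ 2 * t := by gcongr
    have h4 := mul_le_mul_of_nonneg_left (hB t ht) t0.le
    rw [Real.rpow_two] at h4
    have h5 : |err P t| ≤ |mom t| + t * |P.eval (Real.log t)| := by
      refine (abs_sub _ _).trans ?_
      rw [abs_mul, abs_of_pos t0]
    linarith

end

end Pool.Agent.Lib.E2
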