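import Mathlib

/-!
Definitions for the omega theorem on the error term of the fourth moment of zeta.
-/

namespace Pool.Agent.Lib.E2

noncomputable section

open Complex MeasureTheory Set Filter Topology
open scoped Real UpperHalfPlane MatrixGroups ComplexConjugate Modular

/-! ### zeta side -/

/-- the point `1/2 + i k` -/
def sk (k : ℝ) : ℂ := 1 / 2 + k * I

/-- `|zeta(1/2+it)|^4` -/
def z4 (t : ℝ) : ℝ := ‖riemannZeta (sk t)‖ ^ 4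

/-- the fourth moment -/
def mom (T : ℝ) : ℝ := ∫ t in (0 : ℝ)..T, z4 t

/-- the error term for the polynomial `P` -/
def err (P : Polynomial ℝ) (T : ℝ) : ℝ := mom T - T * P.eval (Real.log T)

/-- `P` is the main term polynomial -/
def IsMain (P : Polynomial ℝ) : Prop := Tendsto (fun T => err P T / T) atTop (𝓝 0)

/-- crude bound for the fourth moment -/
def Mom9 : Prop := ∃ C : ℝ, ∀ T : ℝ, 1 ≤ T → mom T ≤ C * T ^ (9 / 8 : ℝ)

/-- completed zeta function -/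
def Lam (s : ℂ) : ℂ := completedRiemannZeta s

/-- the entire function `s (s-1) Lam s` -/
def xi (s : ℂ) : ℂ := s * (s - 1) * completedRiemannZeta₀ s + 1

/-- `c0 = gamma - log (4 pi)` -/
def c0 : ℂ := 2 * (completedRiemannZeta₀ 1 - 1)

/-- `Lam s ^ 4 / Lam (2 s)` -/
def Rf (s : ℂ) : ℂ := Lam s ^ 4 * (2 * s * (2 * s - 1)) / xi (2 * s)

/-- `Lam s ^ 4 / (Lam (2 s) Lam (2 s - 1))` -/
def coef (s : ℂ) : ℂ := Rf s * ((2 * s - 1) * (2 * s - 2)) / xi (2 * s - 1)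

theorem xi_diff : Differentiable ℂ xi := by
  unfold xi
  have := differentiable_completedZeta₀
  fun_prop

theorem exists_dl : ∃ d : ℝ, 0 < d ∧ d ≤ 1 / 10 ∧ ∀ s : ℂ, ‖s - 1‖ ≤ d → xi (2 * s - 1) ≠ 0 := by
  have hc : ContinuousAt (fun s : ℂ => xi (2 * s - 1)) 1 :=
    (xi_diff.continuous.comp (by fun_prop)).continuousAt
  have h1 : (fun s : ℂ => xi (2 * s - 1)) 1 ≠ 0 := by
    have : (2 : ℂ) * 1 - 1 = 1 := by norm_num
    simp only [this, xi]; simp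
  obtain ⟨e, he, h⟩ := Metric.eventually_nhds_iff.1 (hc.eventually_ne h1)
  refine ⟨min (e / 2) (1 / 10), by positivity, min_le_right _ _, fun s hs => h ?_⟩
  rw [dist_eq_norm]
  have := min_le_left (e / 2) (1 / 10)
  linarith

/-- radius of the small circles around the poles -/
def dl : ℝ := Classical.choose exists_dl

theorem dl_pos : 0 < dl := (Classical.choose_spec exists_dl).1
theorem dl_le : dl ≤ 1 / 10 := (Classical.choose_spec exists_dl).2.1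
theorem dl_ne {s : ℂ} (h : ‖s - 1‖ ≤ dl) : xi (2 * s - 1) ≠ 0 :=
  (Classical.choose_spec exists_dl).2.2 s h

/-! ### special functions -/

/-- `B(z, 1/2)` -/
def bet (z : ℂ) : ℂ := ∫ u : ℝ, ((1 + u ^ 2 : ℝ) : ℂ) ^ (-z - 1 / 2)

/-- the Jost solution `int (cosh v cosh r + sinh r)^(-s) dv` -/
def Jf (s r : ℂ) : ℂ := 2 * exp (-s * r) *
  ∫ u : ℝ, ((1 + u ^ 2 : ℝ) : ℂ) ^ (-s) * (1 + exp (-2 * r) + (u : ℂ) ^ 2) ^ (-(1 / 2) : ℂ)

/-- connection coefficient -/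
def Cf (k : ℝ) : ℂ := -(1 - sk k) * bet ((2 - sk k) / 2) /
  (2 * (2 * sk k - 1) * bet (sk k) * bet (1 - sk k))

/-- the even solution with value 1 at 0 -/
def pf (k : ℝ) (r : ℂ) : ℂ := Cf k * Jf (sk k) r + Cf (-k) * Jf (sk (-k)) r

def Nf (s r : ℂ) : ℂ :=
  ∫ v : ℝ, (((Real.cosh v : ℂ) + I * sinh r) ^ (-s) + ((Real.cosh v : ℂ) - I * sinh r) ^ (-s))

def Pif (s r : ℂ) : ℂ :=
  (2 * π : ℂ) ^ (-s) * Gamma s * riemannZeta s ^ 2 * (Jf s r + Jf s (-r))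

def wf (r : ℂ) (t : ℝ) : ℂ := Nf (sk t) r * Nf (sk (-t)) r / (2 * Real.cosh (π * t) : ℝ)

def FF (r : ℂ) : ℂ := (1 / (2 * π) : ℂ) * ∫ t : ℝ, (z4 t : ℂ) * wf r t

def T2 (r : ℂ) : ℂ := 4 * (2 * π * I : ℂ)⁻¹ * ∮ u in C(0, dl),
  exp (u * log (cosh r)) * (2 * π : ℂ) ^ (-1 - u) * Gamma (1 + u) * riemannZeta (1 + u) ^ 2 *
    Nf (1 + u) r * ((c0 - log (cosh r)) / u + 1 / u ^ 2)

def T3 (r : ℂ) : ℂ := (2 * π * I : ℂ)⁻¹ * ∮ s in C(1, dl), coef s * Pif s r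

def cont (r : ℂ) : ℂ := (1 / (4 * π) : ℂ) * ∫ t : ℝ, coef (sk t) * Pif (sk t) r

/-- density of the continuous part with respect to the Jost solutions -/
def Bc (t : ℝ) : ℂ := (1 / (4 * π) : ℂ) *
  (coef (sk t) * Pif (sk t) 0 + coef (sk (-t)) * Pif (sk (-t)) 0) * Cf t

/-- the strip `|Im r| < pi/2` -/
def Str : Set ℂ := {r | |r.im| < π / 2}

/-- the radial equation `U'' + tanh r U' + lam U = 0` -/
def Ode (U : ℝ → ℂ) (lam : ℂ) : Prop := ∃ U1 U2 : ℝ → ℂ, ∀ r : ℝ,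
  HasDerivAt U (U1 r) r ∧ HasDerivAt U1 (U2 r) r ∧ U2 r + Real.tanh r * U1 r + lam * U r = 0

/-- direction of the rotated ray -/
def eth : ℂ := exp (-(1 / 4 : ℂ) * I)

/-- the shift along the rotated ray -/
def xs (t : ℝ) : ℂ := log (1 + t * eth)

/-- weight in the representation of `Jf` -/
def wJ (r : ℂ) (t : ℝ) : ℂ := (1 + t * eth) ^ (-(1 / 2) : ℂ) *
  (1 + exp (-2 * r) + t * eth) ^ (-(1 / 2) : ℂ) * (t * eth) ^ (-(1 / 2) : ℂ) * eth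

/-- weight in the representation of the exponential -/
def wH (t : ℝ) : ℂ := (1 + t * eth) ^ (-(3 / 2) : ℂ) * (t * eth) ^ (-(1 / 2) : ℂ) * eth

/-- the point `i (pi/2 - e)` near the edge of the strip -/
def rh (e : ℝ) : ℂ := I * ((π / 2 - e : ℝ) : ℂ)

/-- the region `Re r >= 1`, `0 <= Im r <= pi/2 - e` -/
def Reg (e : ℝ) (r : ℂ) : Prop := 1 ≤ r.re ∧ 0 ≤ r.im ∧ r.im ≤ π / 2 - e

/-- `F` is holomorphic along holomorphic curves in `D` -/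
def CurveAn (F : ℂ → ℂ → ℂ) (D : Set (ℂ × ℂ)) : Prop :=
  ∀ (U : Set ℂ) (X Y : ℂ → ℂ), IsOpen U → DifferentiableOn ℂ X U → DifferentiableOn ℂ Y U →
    (∀ c ∈ U, (X c, Y c) ∈ D) → DifferentiableOn ℂ (fun c => F (X c) (Y c)) U

/-- the domain `Re s > 0`, `r` in the strip -/
def DS : Set (ℂ × ℂ) := {p | 0 < p.1.re ∧ p.2 ∈ Str}

/-- `theta = 1 / sinh r` -/
def th (r : ℂ) : ℂ := (sinh r)⁻¹

/-- twice the Bessel function `K_nu(z)` -/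
def Kb (z nu : ℂ) : ℂ := ∫ v : ℝ, exp (-z * Real.cosh v + nu * v)

/-- `W = (2 K_0)^2` -/
def Wf (z : ℂ) : ℂ := Kb z 0 ^ 2

/-- the transform of the error term -/
def ET (P : Polynomial ℝ) (th : ℂ) : ℂ :=
  ∫ t in Ioi (0 : ℝ), (err P t : ℂ) * (th ^ 2 * deriv Wf (th * t))

/-! ### Eisenstein series -/

/-- one term of the Fourier expansion, `m = p.1 + 1`, `n = p.2 + 1` -/
def Vt (x y s : ℂ) (p : ℕ × ℕ) : ℂ :=
  cos (2 * π * ((p.1 + 1) * (p.2 + 1)) * x) *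
    ((((p.2 : ℝ) + 1) / ((p.1 : ℝ) + 1) : ℝ) : ℂ) ^ (s - 1 / 2) *
    Kb (2 * π * ((p.1 + 1) * (p.2 + 1)) * y) (s - 1 / 2)

/-- non-constant part of the completed Eisenstein series, in complexified coordinates -/
def Vf (x y s : ℂ) : ℂ := 2 * y ^ (1 / 2 : ℂ) * ∑' p : ℕ × ℕ, Vt x y s p

/-- constant term at `s = 1/2` -/
def Cc (y : ℂ) : ℂ := y ^ (1 / 2 : ℂ) * (log y + c0)

/-- constant term of the square of the non-constant part -/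
def Dd (y : ℂ) : ℂ := ∫ x in (0 : ℝ)..1, Vf x y (1 / 2) ^ 2

/-- cuspidal part of the square of the Eisenstein series, complexified -/
def Ft (x y : ℂ) : ℂ := 2 * Cc y * Vf x y (1 / 2) + Vf x y (1 / 2) ^ 2 - Dd y
  - (2 * π * I : ℂ)⁻¹ * (∮ s in C(1, dl), coef s * Vf x y s)
  - (1 / (4 * π) : ℂ) * ∫ t : ℝ, coef (sk t) * Vf x y (sk t)

def Fc (z : ℍ) : ℂ := Ft z.re z.im

/-- completed Eisenstein series -/
def Es (z : ℍ) (s : ℂ) : ℂ :=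
  Lam (2 * s) * (z.im : ℂ) ^ s + Lam (2 * s - 1) * (z.im : ℂ) ^ (1 - s) + Vf z.re z.im s

/-- completed Eisenstein series at `s = 1/2` -/
def E0 (z : ℍ) : ℂ := Cc z.im + Vf z.re z.im (1 / 2)

/-- the complexified half plane -/
def Om : Set (ℂ × ℂ) := {p | |p.1.im| < p.2.re}

/-- quantitative version: height `h`, margin `m` -/
def Adm (m h : ℝ) (x y : ℂ) : Prop := ‖y‖ ≤ h / m ∧ m * h ≤ y.re - |x.im|

/-- the non-constant part along the ray with `sinh r = cot theta` -/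
def Vr (r y : ℝ) (s : ℂ) : ℂ := Vf (y * Real.tanh r : ℝ) (y / Real.cosh r : ℝ) s

/-- constant terms along the ray -/
def Cp (r y : ℝ) : ℂ := Cc (y / Real.cosh r : ℝ)

def Cm (r y : ℝ) : ℂ := Cc (1 / (y * Real.cosh r) : ℝ)

/-- `log sigma + c0` -/
def el (a : ℝ) : ℂ := (Real.log a : ℂ) + c0

/-- truncated period of the non-constant part -/
def PIl (r : ℝ) (s : ℂ) : ℂ := 2 * ∫ y in Ioi (1 : ℝ), Vr r y s / y

/-- polar terms of the period -/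
def Zf (a : ℝ) (s : ℂ) : ℂ :=
  2 * Lam (2 * s) * (a : ℂ) ^ s / s + 2 * Lam (2 * s - 1) * (a : ℂ) ^ (1 - s) / (1 - s)

/-- constant term of the completed Eisenstein series -/
def Ct (y : ℝ) (s : ℂ) : ℂ := Lam (2 * s) * (y : ℂ) ^ s + Lam (2 * s - 1) * (y : ℂ) ^ (1 - s)

/-- term of the lattice sum -/
def lat (z : ℍ) (s : ℂ) (p : ℤ × ℤ) : ℂ :=
  ((z.im / ‖(p.1 : ℂ) * (z : ℂ) + p.2‖ ^ 2 : ℝ) : ℂ) ^ s

/-- the period of `Fc` along the ray -/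
def Md (r : ℝ) : ℂ := ∫ y in Ioi (0 : ℝ), Ft (y * Real.tanh r : ℝ) (y / Real.cosh r : ℝ) / y

/-- Mellin transform of the Eisenstein series at `1/2` along the ray -/
def Lw (r : ℝ) (w : ℂ) : ℂ := riemannZeta (1 / 2 + w) ^ 2 * Gamma (1 / 2 + w) *
  (2 * π : ℂ) ^ (-(1 / 2 + w)) * (Real.cosh r : ℂ) ^ w * Nf (1 / 2 + w) r

/-! ### spectral theory -/

/-- the point `x + i y` -/
def pt (x y : ℝ) : ℍ := UpperHalfPlane.ofComplex (x + y * I)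

def qd (z w : ℍ) : ℝ := Real.cosh (dist z w)

/-- invariant integral operator with kernel `k (cosh d)` -/
def Rop (k : ℝ → ℝ) (f : ℍ → ℂ) (z : ℍ) : ℂ := ∫ w : ℍ, (k (qd z w) : ℂ) * f w

def ka (a q : ℝ) : ℝ := (q - Real.cos a) ^ (-(3 / 2) : ℝ)

def Lop (a : ℝ) (f : ℍ → ℂ) (z : ℍ) : ℂ := Rop (ka a) f z

/-- the measure on the fundamental domain -/
def muD : Measure ℍ := (volume : Measure ℍ).restrict 𝒟

def Inv (f : ℍ → ℂ) : Prop := ∀ (g : SL(2, ℤ)) (z : ℍ), f (g • z) = f z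

def Aut (f : ℍ → ℂ) : Prop := Measurable f ∧ Inv f ∧ MemLp f 2 muD

def strip : Set ℍ := {w | 0 ≤ w.re ∧ w.re < 1}

/-- test functions for the cusp condition -/
def Tst (C : ℝ) (u : ℝ → ℂ) : Prop :=
  Measurable u ∧ ∀ v : ℝ, 0 < v → ‖u v‖ ≤ C * (v / (1 + v)) ^ (3 / 2 : ℝ)

def Cusp (f : ℍ → ℂ) : Prop :=
  Aut f ∧ ∀ (C : ℝ) (u : ℝ → ℂ), Tst C u → ∫ w in strip, u w.im * f w = 0

def ip (f g : ℍ → ℂ) : ℂ := ∫ z, conj (f z) * g z ∂muD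

def n2 (f : ℍ → ℂ) : ℝ := ∫ z, ‖f z‖ ^ 2 ∂muD

def bb (y : ℝ) : ℝ := 5 / (2 * y) + 53 / y ^ (5 / 2 : ℝ)

/-- functions on which all `Lop a` converge -/
def Cls (f : ℍ → ℂ) : Prop :=
  Integrable (fun w : ℍ => ((qd UpperHalfPlane.I w ^ (-(3 / 2) : ℝ) : ℝ) : ℂ) * f w)

def hf (k a : ℝ) : ℝ := 4 * √2 * π * Real.sinh (k * (π - a)) / Real.sinh (k * π)

def Eig (f : ℍ → ℂ) (k : ℝ) : Prop :=
  ∀ a ∈ Ioo (0 : ℝ) π, ∀ z, (Real.sin a : ℂ) * Lop a f z = hf k a * f z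

/-- `Delta f = -(m + 1/4) f` in terms of iterated derivatives in `x` and `y` -/
def LapEig (f : ℍ → ℂ) (m : ℂ) : Prop :=
  ∃ fx fxx fy fyy : ℝ → ℝ → ℂ, ∀ x y : ℝ, 0 < y →
    HasDerivAt (fun x => f (pt x y)) (fx x y) x ∧ HasDerivAt (fun x => fx x y) (fxx x y) x ∧
    HasDerivAt (fun y => f (pt x y)) (fy x y) y ∧ HasDerivAt (fun y => fy x y) (fyy x y) y ∧
    (y : ℂ) ^ 2 * (fxx x y + fyy x y) = -(m + 1 / 4) * f (pt x y)

/-- `sinh (n t) / n` -/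
def sh (n : ℂ) (t : ℝ) : ℂ := ∫ u in (0 : ℝ)..t, cosh (n * u)

/-- the function `(Im w)^(1/2 + i k)` -/
def Ys (k : ℝ) (w : ℍ) : ℂ := (w.im : ℂ) ^ sk k

/-- complexified geodesic polar coordinates, `c = sinh (r/2)` -/
def den (c : ℂ) (b : ℝ) : ℂ := 1 + 2 * c ^ 2 + 2 * c * (1 + c ^ 2) ^ (1 / 2 : ℂ) * Real.cos b

def px (z : ℍ) (c : ℂ) (b : ℝ) : ℂ :=
  z.re + z.im * (2 * c * (1 + c ^ 2) ^ (1 / 2 : ℂ) * Real.sin b) / den c b

def py (z : ℍ) (c : ℂ) (b : ℝ) : ℂ := z.im / den c b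

def ppt (z : ℍ) (c b : ℝ) : ℍ := pt (px z c b).re (py z c b).re

/-- wave kernel -/
def kw (S q : ℝ) : ℝ := if q < 1 + 2 * S ^ 2 then (1 + 2 * S ^ 2 - q) ^ (-(1 / 2) : ℝ) else 0

/-- wave operator in polar coordinates -/
def Uop (S : ℝ) (f : ℍ → ℂ) (z : ℍ) : ℂ :=
  ∫ t in Ioo (0 : ℝ) 1, ∫ b in Ioo (-π) π, ((t / √(1 - t ^ 2) : ℝ) : ℂ) * f (ppt z (S * t) b)

/-- period along the ray through `z` -/
def per (f : ℍ → ℂ) (z : ℍ) : ℂ := ∫ y in Ioi (0 : ℝ), f (pt (y * z.re) (y * z.im)) / y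

/-- the point of modulus one on the ray with parameter `r` -/
def ray (r : ℝ) : ℍ := pt (Real.tanh r) (1 / Real.cosh r)

/-- an orthonormal family of cusp forms, complete up to the joint kernel of the `Lop a` -/
def IsBasis {ι : Type} (φ : ι → ℍ → ℂ) : Prop :=
  (∀ i, Cusp (φ i) ∧ Continuous (φ i) ∧ ip (φ i) (φ i) = 1) ∧
  (∀ i j, i ≠ j → ip (φ i) (φ j) = 0) ∧
  ∀ f, Cusp f → (∀ i, ip (φ i) f = 0) → ∀ a ∈ Ioo (0 : ℝ) π, ∀ z, Lop a f z = 0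

/-- a basis of eigenfunctions with spectral parameters `k` -/
def EBasis {ι : Type} (φ : ι → ℍ → ℂ) (k : ι → ℝ) : Prop :=
  IsBasis φ ∧ ∀ i, 1 / 10 ≤ k i ∧ Eig (φ i) (k i)

/-- the spectral sum -/
def Msum {ι : Type} (k : ι → ℝ) (B : ι → ℂ) (r : ℂ) : ℂ :=
  ∑' i, B i * Jf (sk (k i)) r + ∫ t : ℝ, Bc t * Jf (sk t) r

/-- the leading term of the spectral sum -/
def Gs {ι : Type} (k : ι → ℝ) (B : ι → ℂ) (r : ℂ) : ℂ :=
  ∑' i, B i * (2 * bet (sk (k i)) * exp (-I * k i * r)) +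
    ∫ t : ℝ, Bc t * (2 * bet (sk t) * exp (-I * t * r))

/-- the Fourier transform of the spectral measure -/
def Hs {ι : Type} (k : ι → ℝ) (B : ι → ℂ) (r : ℂ) : ℂ :=
  ∑' i, B i * exp (-I * k i * r) + ∫ t : ℝ, Bc t * exp (-I * t * r)

/-- growth and counting conditions on discrete data -/
def Disc {ι : Type} (k : ι → ℝ) (B : ι → ℂ) : Prop :=
  ∃ (C : ℝ) (n : ℕ), (∀ e ∈ Ioc (0 : ℝ) 1,
      Summable (fun i => ‖B i‖ * Real.exp ((π / 2 - e) * |k i|)) ∧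
      ∑' i, ‖B i‖ * Real.exp ((π / 2 - e) * |k i|) ≤ C / e ^ n) ∧
    ∀ K : ℝ, 1 ≤ K → {i | |k i| ≤ K}.Finite ∧ ({i | |k i| ≤ K}.ncard : ℝ) ≤ C * K ^ n

theorem Disc.countable {ι : Type} {k : ι → ℝ} {B : ι → ℂ} (h : Disc k B) : Countable ι := by
  obtain ⟨C, n, -, h⟩ := h
  have : (univ : Set ι) ⊆ ⋃ m : ℕ, {i | |k i| ≤ (m : ℝ) + 1} := fun i _ => by
    obtain ⟨m, hm⟩ := exists_nat_ge |k i|
    exact mem_iUnion.2 ⟨m, by show |k i| ≤ (m : ℝ) + 1; linarith⟩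
  exact countable_univ_iff.1 ((countable_iUnion fun m : ℕ =>
    (h ((m : ℝ) + 1) (by linarith [(Nat.cast_nonneg m : (0 : ℝ) ≤ m)])).1.countable).mono this)

/-- growth condition on the continuous density -/
def ContB : Prop :=
  Measurable Bc ∧ ∃ C : ℝ, ∀ e ∈ Ioc (0 : ℝ) 1,
    Integrable (fun t : ℝ => ‖Bc t‖ * Real.exp ((π / 2 - e) * |t|)) ∧
    ∫ t : ℝ, ‖Bc t‖ * Real.exp ((π / 2 - e) * |t|) ≤ C * e ^ (-(3 / 4) : ℝ)

/-- the right side of the main identity -/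
def RR (r : ℂ) : ℂ := FF r + T2 r - T3 r

/-- `log log log T` -/
def lll (T : ℝ) : ℝ := Real.log (Real.log (Real.log T))

/-- the core statement -/
def Core : Prop := ∀ P : Polynomial ℝ, IsMain P → ∀ u : ℝ, u = 1 ∨ u = -1 →
  ∃ c : ℝ, 0 < c ∧ ∀ T0 : ℝ, ∃ T : ℝ, T0 ≤ T ∧
    c * T ^ (3 / 2 : ℝ) * lll T ^ 3 ≤ ∫ t in T..2 * T, max (u * err P t) 0

end

end Pool.Agent.Lib.E2
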