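import Pool.Agent.Lib.E2.Blue

/-! The spectral parameter of a cuspidal joint eigenfunction is real and at least `1/10`. -/

namespace Pool.Agent.Lib.E2

noncomputable section

open Complex MeasureTheory Set Filter Topology
open scoped Real UpperHalfPlane ComplexConjugate

namespace EIG

lemma sh_deriv (n : ℂ) (t : ℝ) : HasDerivAt (sh n) (cosh (n * t)) t := by
  have hc : Continuous fun u : ℝ => cosh (n * u) := by fun_prop
  exact (hc.integral_hasStrictDerivAt 0 t).hasDerivAt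

lemma sh_zero (n : ℂ) : sh n 0 = 0 := by simp [sh]

lemma norm_cosh_le (z : ℂ) : ‖cosh z‖ ≤ Real.cosh z.re := by
  rw [Complex.cosh, Real.cosh_eq, norm_div]
  have h := norm_add_le (exp z) (exp (-z))
  rw [norm_exp, norm_exp, neg_re] at h
  have h2 : ‖(2 : ℂ)‖ = 2 := by simp
  rw [h2]
  linarith

lemma cosh_small {x : ℝ} (hx : |x| ≤ 2 / 5) : Real.cosh x ≤ 1087 / 1000 := by
  have h1 := Real.cosh_le_exp_half_sq x
  have h2 : x ^ 2 / 2 ≤ 2 / 25 := by
    have := sq_abs x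
    have := abs_nonneg x
    nlinarith
  have h3 := Real.add_one_le_exp (-(2 / 25) : ℝ)
  have h4 : Real.exp (2 / 25) * Real.exp (-(2 / 25)) = 1 := by rw [← Real.exp_add]; simp
  have h5 := Real.exp_le_exp.2 h2
  have h6 := Real.exp_pos (2 / 25 : ℝ)
  nlinarith

lemma sh_pi_le {n : ℂ} (h : |n.re| ≤ 1 / 10) : ‖sh n π‖ ≤ 1087 / 1000 * π := by
  have := intervalIntegral.norm_integral_le_of_norm_le_const (a := 0) (b := π)
    (f := fun u : ℝ => cosh (n * u)) (C := 1087 / 1000) (fun u hu => by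
      rw [uIoc_of_le Real.pi_pos.le] at hu
      refine (norm_cosh_le _).trans (cosh_small ?_)
      rw [mul_re, ofReal_re, ofReal_im, mul_zero, sub_zero, abs_mul, abs_of_pos hu.1]
      have := Real.pi_le_four
      have := abs_nonneg n.re
      nlinarith [hu.1, hu.2])
  rwa [sub_zero, abs_of_pos Real.pi_pos] at this

lemma cos_lt {a : ℝ} (ha : a ∈ Ioc (0 : ℝ) π) : Real.cos a < 1 := by
  have := Real.cos_lt_cos_of_nonneg_of_le_pi le_rfl ha.2 ha.1
  rwa [Real.cos_zero] at this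

lemma c_le {n c : ℂ} {lam : ℝ → ℂ}
    (h1 : ∀ a ∈ Ioo (0 : ℝ) π, Real.sin a * lam a = c * sh n (π - a))
    (h2 : ∀ a ∈ Ioo (0 : ℝ) π, ‖lam a‖ ^ 2 ≤ (2 / (1 - Real.cos a)) ^ 3 * 27) :
    ‖c‖ ^ 2 ≤ 27 := by
  have d := (sh_deriv n 0).tendsto_slope_zero_right
  simp only [zero_add, sh_zero, sub_zero, ofReal_zero, mul_zero, cosh_zero] at d
  have l1 : Tendsto (fun t : ℝ => ‖c‖ ^ 2 * ‖t⁻¹ • sh n t‖ ^ 2) (𝓝[>] 0)
      (𝓝 (‖c‖ ^ 2 * ‖(1 : ℂ)‖ ^ 2)) := (d.norm.pow 2).const_mul _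
  have l2 : Tendsto (fun t : ℝ => (2 / (1 + Real.cos t)) ^ 3 * 27) (𝓝[>] 0)
      (𝓝 ((2 / (1 + Real.cos 0)) ^ 3 * 27)) := by
    refine Tendsto.mono_left (ContinuousAt.tendsto ?_) nhdsWithin_le_nhds
    have : (1 : ℝ) + Real.cos 0 ≠ 0 := by simp
    fun_prop (disch := exact this)
  have := le_of_tendsto_of_tendsto l1 l2 (by
    filter_upwards [Ioo_mem_nhdsGT Real.pi_pos] with t ht
    have ha : π - t ∈ Ioo (0 : ℝ) π := ⟨by linarith [ht.2], by linarith [ht.1]⟩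
    have e1 := h1 _ ha
    have e2 := h2 _ ha
    rw [Real.cos_pi_sub, sub_neg_eq_add] at e2
    rw [Real.sin_pi_sub, sub_sub_cancel] at e1
    have e3 := congrArg norm e1
    rw [norm_mul, norm_mul, norm_real, Real.norm_of_nonneg
      (Real.sin_nonneg_of_nonneg_of_le_pi ht.1.le ht.2.le)] at e3
    have e4 : ‖c‖ * ‖t⁻¹ • sh n t‖ ≤ ‖lam (π - t)‖ := by
      rw [norm_smul, norm_inv, Real.norm_of_nonneg ht.1.le, mul_left_comm, ← e3, ← mul_assoc]
      refine mul_le_of_le_one_left (norm_nonneg _) ?_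
      rw [inv_mul_le_iff₀ ht.1, mul_one]
      exact Real.sin_le ht.1.le
    show ‖c‖ ^ 2 * ‖t⁻¹ • sh n t‖ ^ 2 ≤ _
    rw [← mul_pow]
    exact (pow_le_pow_left₀ (by positivity) e4 2).trans e2)
  norm_num at this
  exact this

lemma hf_eq (h0 : St_EIG0) {n c l : ℂ} {k a : ℝ} (hk : 0 < k) (hn : n ^ 2 = k ^ 2)
    (h1 : l = c * sh n (π - a)) (h2 : c * sh n π = (4 * √2 * π : ℝ)) : l = hf k a := by
  rw [h0.2.1 n k _ hk hn] at h1 h2
  have hs : 0 < Real.sinh (k * π) := Real.sinh_pos_iff.2 (mul_pos hk Real.pi_pos)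
  have hs' : ((Real.sinh (k * π) : ℝ) : ℂ) ≠ 0 := ofReal_ne_zero.2 hs.ne'
  have hk' : (k : ℂ) ≠ 0 := ofReal_ne_zero.2 hk.ne'
  rw [h1, hf, ofReal_div, ofReal_div, ofReal_mul (4 * √2 * π), ← h2, ofReal_div]
  field_simp

end EIG

open EIG in
theorem t_eig : T_EIG := by
  intro hK2 hL hS hK3 h0 f lam hc hcont h1 hl
  have hA : Aut f := hc.1
  have hL7 := hL.2.2.2.2.2.2.1
  have hn2 : n2 f = 1 := by
    have := (hL7 f f).2.1
    rw [h1] at this
    exact_mod_cast this.symm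
  have hne : ∃ z, f z ≠ 0 := by
    by_contra h
    push Not at h
    simp [ip, h] at h1
  have hL' : ∀ a ∈ Ioc (0 : ℝ) π, Lop a f = fun z => lam a * f z := fun a ha => funext (hl a ha)
  obtain ⟨n, c, -, e1, e2, e3⟩ := h0.1 f lam hcont (hK2.2.1 f hA) hne hl
  have hre : ∀ a ∈ Ioc (0 : ℝ) π, (lam a).im = 0 := fun a ha => by
    obtain ⟨m1, m2⟩ := hS.2.1 a (cos_lt ha)
    have := (hS.1 (ka a) m1 m2 f hA).2 f hA
    change ip f (Lop a f) = ip (Lop a f) f at this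
    rw [hL' a ha, ((hL7 f f).2.2.2 (lam a)).1, ((hL7 f f).2.2.2 (lam a)).2.1, h1, mul_one,
      mul_one] at this
    exact conj_eq_iff_im.1 this.symm
  have hb : ∀ a ∈ Ioo (0 : ℝ) π, ‖lam a‖ ^ 2 ≤ (2 / (1 - Real.cos a)) ^ 3 * 27 := fun a ha => by
    have ha' : a ∈ Ioc (0 : ℝ) π := ⟨ha.1, ha.2.le⟩
    have hcos := cos_lt ha'
    have q1 : n2 (Lop a f) = ‖lam a‖ ^ 2 := by
      rw [hL' a ha', ((hL7 f f).2.2.2 (lam a)).2.2, hn2, mul_one]
    have hp : 0 ≤ (2 / (1 - Real.cos a)) ^ 3 := by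
      have : 0 < 1 - Real.cos a := by linarith
      positivity
    have q2 : n2 (Lop a f) ≤ ∫ z : ℍ, (2 / (1 - Real.cos a)) ^ 3 * bb z.im ∂muD := by
      refine integral_mono_of_nonneg (Eventually.of_forall fun z => by positivity)
        (hK2.2.2.2.1.const_mul _) (Eventually.of_forall fun z => ?_)
      have := (hK3 f hc a hcos).1 z
      rwa [hn2, mul_one] at this
    rw [integral_const_mul] at q2
    rw [← q1]
    exact q2.trans (mul_le_mul_of_nonneg_left hK2.2.2.2.2 hp)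
  have hc27 := c_le e1 hb
  have him := e3 hre
  have hm : 1 / 100 ≤ (n ^ 2).re := by
    by_contra h
    push Not at h
    have hx : |n.re| ≤ 1 / 10 := by
      rw [sq, mul_im] at him
      rw [sq, mul_re] at h
      have : n.re * n.im = 0 := by linarith
      rcases mul_eq_zero.1 this with h' | h'
      · rw [h']; norm_num
      · rw [h'] at h
        exact abs_le.2 ⟨by nlinarith, by nlinarith⟩
    have q1 := sh_pi_le hx
    have q2 := congrArg norm e2
    rw [norm_mul, norm_real, Real.norm_of_nonneg (by positivity)] at q2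
    have q3 : (4 * √2 * π) ^ 2 = 32 * π ^ 2 := by
      rw [mul_pow, mul_pow, Real.sq_sqrt (by norm_num)]; ring
    have q4 : ‖sh n π‖ ^ 2 ≤ (1087 / 1000 * π) ^ 2 := pow_le_pow_left₀ (norm_nonneg _) q1 2
    have q5 : (4 * √2 * π) ^ 2 ≤ 27 * (1087 / 1000 * π) ^ 2 := by
      rw [← q2, mul_pow]
      exact mul_le_mul hc27 q4 (by positivity) (by norm_num)
    have := Real.pi_pos
    nlinarith
  have hk : 1 / 10 ≤ √(n ^ 2).re := Real.le_sqrt_of_sq_le (by linarith)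
  refine ⟨√(n ^ 2).re, hk, fun a ha z => ?_⟩
  have hn : n ^ 2 = ((√(n ^ 2).re : ℝ) : ℂ) ^ 2 := by
    rw [← ofReal_pow, Real.sq_sqrt (by linarith)]
    exact Complex.ext (by simp) (by simpa using him)
  rw [hl a ⟨ha.1, ha.2.le⟩, ← mul_assoc, hf_eq h0 (by linarith) hn (e1 a ha) e2]

end

end Pool.Agent.Lib.E2
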