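import Pool.Agent.Lib.E2.Blue

/-! Joint eigenfunctions of the operators `Lop a` are eigenfunctions of the Laplacian. -/

namespace Pool.Agent.Lib.E2

noncomputable section

open Complex MeasureTheory Set Filter Topology
open scoped Real UpperHalfPlane

lemma eig0_const (g : ℝ → ℂ) (a b : ℝ) (hab : a ≤ b) (h : ∀ t ∈ Icc a b, HasDerivAt g 0 t) :
    g a = g b :=
  (constant_of_has_deriv_right_zero (fun t ht => (h t ht).continuousAt.continuousWithinAt)
    (fun t ht => (h t (Ico_subset_Icc_self ht)).hasDerivWithinAt) b ⟨hab, le_rfl⟩).symm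

lemma eig0_lin (n z : ℂ) : HasDerivAt (fun u : ℂ => n * u) n z := by
  simpa using (hasDerivAt_id z).const_mul n

lemma eig0_sh_deriv (n : ℂ) (t : ℝ) : HasDerivAt (sh n) (cosh (n * t)) t := by
  have hc : Continuous fun u : ℝ => cosh (n * u) := by fun_prop
  exact (hc.integral_hasStrictDerivAt 0 t).hasDerivAt

lemma eig0_cosh_deriv (n : ℂ) (t : ℝ) :
    HasDerivAt (fun u : ℝ => cosh (n * u)) (sinh (n * t) * n) t :=
  (eig0_lin n t).ccosh.comp_ofReal

lemma eig0_sinh_deriv (n : ℂ) (t : ℝ) :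
    HasDerivAt (fun u : ℝ => sinh (n * u)) (cosh (n * t) * n) t :=
  (eig0_lin n t).csinh.comp_ofReal

lemma eig0_sh_mul (n : ℂ) (t : ℝ) : sh n t * n = sinh (n * t) := by
  have hc : Continuous fun u : ℝ => cosh (n * u) * n := by fun_prop
  have := intervalIntegral.integral_eq_sub_of_hasDerivAt (a := 0) (b := t)
    (fun u _ => eig0_sinh_deriv n u) (hc.intervalIntegrable _ _)
  rw [intervalIntegral.integral_mul_const] at this
  unfold sh
  rw [this]
  simp

lemma eig0_two (n : ℂ) (k t : ℝ) (hk : 0 < k) (h : n ^ 2 = k ^ 2) :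
    sh n t = (Real.sinh (k * t) / k : ℝ) := by
  have h1 : sh n t = sh k t := by
    rcases sq_eq_sq_iff_eq_or_eq_neg.mp h with h2 | h2
    · rw [h2]
    · unfold sh
      simp only [h2, neg_mul, Complex.cosh_neg]
  have h2 := eig0_sh_mul k t
  have h3 : (k : ℂ) ≠ 0 := Complex.ofReal_ne_zero.mpr hk.ne'
  rw [h1]
  push_cast
  rw [eq_div_iff h3, h2]

/-- solutions of `h'' = n^2 h` vanishing at `p` -/
lemma eig0_ode (h h1 : ℝ → ℂ) (n : ℂ) (a p : ℝ) (hap : a ≤ p)
    (d1 : ∀ t ∈ Icc a p, HasDerivAt h (h1 t) t) (d2 : ∀ t ∈ Icc a p, HasDerivAt h1 (n ^ 2 * h t) t)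
    (h0 : h p = 0) : h a = -h1 p * sh n (p - a) := by
  have l1 : ∀ t : ℝ, HasDerivAt (fun u : ℝ => p - u) (-1) t := fun t => by
    simpa using (hasDerivAt_id t).const_sub p
  have s1 : ∀ t : ℝ, HasDerivAt (fun u : ℝ => sh n (p - u)) (-cosh (n * (p - t : ℝ))) t := fun t => by
    have := (eig0_sh_deriv n (p - t)).scomp t (l1 t)
    rw [neg_smul, one_smul] at this
    exact this
  have s2 : ∀ t : ℝ, HasDerivAt (fun u : ℝ => cosh (n * (p - u : ℝ)))
      (-(sinh (n * (p - t : ℝ)) * n)) t := fun t => by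
    have := (eig0_cosh_deriv n (p - t)).scomp t (l1 t)
    rw [neg_smul, one_smul] at this
    exact this
  have ex : ∀ (m : ℂ) (t : ℝ), HasDerivAt (fun u : ℝ => exp (m * u)) (exp (m * t) * m) t :=
    fun m t => (eig0_lin m t).cexp.comp_ofReal
  set D : ℝ → ℂ := fun u => h u + h1 p * sh n (p - u) with hD
  set D1 : ℝ → ℂ := fun u => h1 u - h1 p * cosh (n * (p - u : ℝ)) with hD1
  have e1 : ∀ t ∈ Icc a p, HasDerivAt D (D1 t) t := fun t ht =>
    ((d1 t ht).add ((s1 t).const_mul (h1 p))).congr_deriv (by simp only [hD1]; ring)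
  have e2 : ∀ t ∈ Icc a p, HasDerivAt D1 (n ^ 2 * D t) t := fun t ht =>
    ((d2 t ht).sub ((s2 t).const_mul (h1 p))).congr_deriv (by
      simp only [hD]
      rw [← eig0_sh_mul n (p - t)]
      ring)
  have z0 : D p = 0 := by simp [hD, h0, sh]
  have z1 : D1 p = 0 := by simp [hD1]
  have k1 : ∀ t ∈ Icc a p, D1 t = n * D t := fun t ht => by
    have := eig0_const (fun u => (D1 u - n * D u) * exp (n * u)) t p ht.2 fun u hu => by
      have hu' : u ∈ Icc a p := ⟨ht.1.trans hu.1, hu.2⟩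
      exact (((e2 u hu').sub ((e1 u hu').const_mul n)).mul (ex n u)).congr_deriv (by
        simp only [Pi.sub_apply]
        ring)
    simp only [z0, z1, mul_zero, sub_zero, zero_mul] at this
    exact sub_eq_zero.mp ((mul_eq_zero.mp this).resolve_right (Complex.exp_ne_zero _))
  have k2 := eig0_const (fun u => D u * exp (-n * u)) a p hap fun u hu =>
    ((e1 u hu).mul (ex (-n) u)).congr_deriv (by rw [k1 u hu]; ring)
  simp only [z0, zero_mul] at k2
  have k3 : D a = 0 := (mul_eq_zero.mp k2).resolve_right (Complex.exp_ne_zero _)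
  simp only [hD] at k3
  linear_combination k3

/-- the statement of the differential equation for `sin a * Lop a f` -/
def Eig0P (f : ℍ → ℂ) (Fa Faa Fx Fxx Fy Fyy : ℝ → ℝ → ℝ → ℂ) : Prop :=
  ∀ a ∈ Ioo (0 : ℝ) (2 * π), ∀ x y : ℝ, 0 < y →
    HasDerivAt (fun a : ℝ => (Real.sin a : ℂ) * Lop a f (pt x y)) (Fa a x y) a ∧
    HasDerivAt (fun a : ℝ => Fa a x y) (Faa a x y) a ∧
    HasDerivAt (fun x : ℝ => (Real.sin a : ℂ) * Lop a f (pt x y)) (Fx a x y) x ∧
    HasDerivAt (fun x : ℝ => Fx a x y) (Fxx a x y) x ∧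
    HasDerivAt (fun y : ℝ => (Real.sin a : ℂ) * Lop a f (pt x y)) (Fy a x y) y ∧
    HasDerivAt (fun y : ℝ => Fy a x y) (Fyy a x y) y ∧
    Faa a x y + (y : ℂ) ^ 2 * (Fxx a x y + Fyy a x y) + (Real.sin a : ℂ) * Lop a f (pt x y) / 4 = 0

lemma eig0_lap {f : ℍ → ℂ} {Fa Faa Fx Fxx Fy Fyy : ℝ → ℝ → ℝ → ℂ}
    (H : Eig0P f Fa Faa Fx Fxx Fy Fyy) (h h1 : ℝ → ℂ) (m : ℂ) (a1 : ℝ) (ha : a1 ∈ Ioo 0 π)
    (he : ∀ a ∈ Ioo (0 : ℝ) π, ∀ z, (Real.sin a : ℂ) * Lop a f z = h a * f z) (hne : h a1 ≠ 0)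
    (d1 : ∀ a ∈ Ioo (0 : ℝ) π, HasDerivAt h (h1 a) a) (d2 : HasDerivAt h1 (m * h a1) a1) :
    LapEig f m := by
  have hpi := Real.pi_pos
  have hsub : ∀ a ∈ Ioo (0 : ℝ) π, a ∈ Ioo (0 : ℝ) (2 * π) := fun a h => ⟨h.1, by linarith [h.2]⟩
  have hf : ∀ z, f z = (Real.sin a1 : ℂ) * Lop a1 f z / h a1 := fun z => by
    rw [he a1 ha z]; field_simp
  refine ⟨fun x y => Fx a1 x y / h a1, fun x y => Fxx a1 x y / h a1, fun x y => Fy a1 x y / h a1,
    fun x y => Fyy a1 x y / h a1, fun x y hy => ?_⟩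
  obtain ⟨-, p2, p3, p4, p5, p6, p7⟩ := H a1 (hsub a1 ha) x y hy
  have q1 : ∀ a ∈ Ioo (0 : ℝ) π, Fa a x y = h1 a * f (pt x y) := fun a ha' => by
    refine (H a (hsub a ha') x y hy).1.unique (((d1 a ha').mul_const _).congr_of_eventuallyEq ?_)
    filter_upwards [isOpen_Ioo.mem_nhds ha'] with b hb using he b hb _
  have q2 : Faa a1 x y = m * h a1 * f (pt x y) := by
    refine p2.unique ((d2.mul_const _).congr_of_eventuallyEq ?_)
    filter_upwards [isOpen_Ioo.mem_nhds ha] with b hb using q1 b hb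
  refine ⟨?_, p4.div_const _, ?_, p6.div_const _, ?_⟩
  · exact (p3.div_const (h a1)).congr_of_eventuallyEq (Eventually.of_forall fun _ => hf _)
  · exact (p5.div_const (h a1)).congr_of_eventuallyEq (Eventually.of_forall fun _ => hf _)
  · rw [q2, he a1 ha] at p7
    field_simp
    linear_combination 4 * p7

lemma eig0_aa {f : ℍ → ℂ} {Fa Faa Fx Fxx Fy Fyy : ℝ → ℝ → ℝ → ℂ}
    (H : Eig0P f Fa Faa Fx Fxx Fy Fyy) (m c : ℂ) (hL : LapEig f m) (a : ℝ)
    (ha : a ∈ Ioo 0 (2 * π)) (he : ∀ z, (Real.sin a : ℂ) * Lop a f z = c * f z) (x y : ℝ)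
    (hy : 0 < y) : Faa a x y = m * (c * f (pt x y)) := by
  obtain ⟨fx, fxx, fy, fyy, hL⟩ := hL
  obtain ⟨-, -, -, p4, -, p6, p7⟩ := H a ha x y hy
  obtain ⟨-, r2, -, r4, r5⟩ := hL x y hy
  have q1 : ∀ u : ℝ, Fx a u y = c * fx u y := fun u =>
    (H a ha u y hy).2.2.1.unique (((hL u y hy).1.const_mul c).congr_of_eventuallyEq
      (Eventually.of_forall fun _ => he _))
  have q2 : Fxx a x y = c * fxx x y :=
    p4.unique ((r2.const_mul c).congr_of_eventuallyEq (Eventually.of_forall q1))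
  have q3 : ∀ u : ℝ, 0 < u → Fy a x u = c * fy x u := fun u hu =>
    (H a ha x u hu).2.2.2.2.1.unique (((hL x u hu).2.2.1.const_mul c).congr_of_eventuallyEq
      (Eventually.of_forall fun _ => he _))
  have q4 : Fyy a x y = c * fyy x y := by
    refine p6.unique ((r4.const_mul c).congr_of_eventuallyEq ?_)
    filter_upwards [Ioi_mem_nhds hy] with u hu using q3 u hu
  rw [q2, q4, he] at p7
  linear_combination p7 - c * r5

lemma eig0_im (h : ℝ → ℂ) (a : ℝ) (v : ℂ) (d : HasDerivAt h v a)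
    (hz : ∀ᶠ b in 𝓝 a, (h b).im = 0) : v.im = 0 := by
  have h2 : HasDerivAt (fun b => (h b).im) v.im a :=
    Complex.imCLM.hasFDerivAt.comp_hasDerivAt a d
  exact h2.unique ((hasDerivAt_const a (0 : ℝ)).congr_of_eventuallyEq hz)

theorem t_eig0 : T_EIG0 := by
  intro hU hP hA
  have hpi := Real.pi_pos
  refine ⟨fun f lam hc hcl ⟨z0, hz0⟩ hl => ?_, eig0_two, fun f k hk hcl he => ?_⟩
  · obtain ⟨-, Fa, Faa, Fx, Fxx, Fy, Fyy, H⟩ := hP f hcl
    have hz : pt z0.re z0.im = z0 := hU.2.1 z0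
    have hy : 0 < z0.im := z0.im_pos
    set h : ℝ → ℂ := fun a => (Real.sin a : ℂ) * Lop a f z0 / f z0 with hh
    set h1 : ℝ → ℂ := fun a => Fa a z0.re z0.im / f z0 with hh1
    have hsub : ∀ a ∈ Ioc (0 : ℝ) π, a ∈ Ioo (0 : ℝ) (2 * π) := fun a h => ⟨h.1, by linarith [h.2]⟩
    have e0 : ∀ a ∈ Ioc (0 : ℝ) π, h a = Real.sin a * lam a := fun a ha => by
      simp only [hh]
      rw [hl a ha]
      field_simp
    have e1 : ∀ a ∈ Ioc (0 : ℝ) π, ∀ z, (Real.sin a : ℂ) * Lop a f z = h a * f z := fun a ha z => by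
      rw [e0 a ha, hl a ha, mul_assoc]
    have d1 : ∀ a ∈ Ioc (0 : ℝ) π, HasDerivAt h (h1 a) a := fun a ha => by
      have := (H a (hsub a ha) z0.re _ hy).1.div_const (f z0)
      rw [hz] at this
      exact this
    have d2 : ∀ a ∈ Ioc (0 : ℝ) π, HasDerivAt h1 (Faa a z0.re z0.im / f z0) a := fun a ha =>
      (H a (hsub a ha) z0.re _ hy).2.1.div_const (f z0)
    have lim : Tendsto h (𝓝[>] 0) (𝓝 ((4 * √2 * π : ℝ) : ℂ)) := by
      have := (hA f z0 hcl hc.continuousAt).div_const (f z0)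
      rwa [mul_div_cancel_right₀ _ hz0] at this
    have hK : ((4 * √2 * π : ℝ) : ℂ) ≠ 0 := Complex.ofReal_ne_zero.mpr (by positivity)
    obtain ⟨a1, ha1, ha2⟩ := ((lim.eventually_ne hK).and (Ioo_mem_nhdsGT hpi)).exists
    obtain ⟨n, hn⟩ := IsAlgClosed.exists_pow_nat_eq (Faa a1 z0.re z0.im / f z0 / h a1)
      (by norm_num : 0 < 2)
    have hn1 : Faa a1 z0.re z0.im / f z0 = n ^ 2 * h a1 := by
      rw [hn, div_mul_cancel₀ _ ha1]
    have hL : LapEig f (n ^ 2) := eig0_lap H h h1 (n ^ 2) a1 ha2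
      (fun a ha => e1 a (Ioo_subset_Ioc_self ha)) ha1 (fun a ha => d1 a (Ioo_subset_Ioc_self ha))
      (hn1 ▸ d2 a1 (Ioo_subset_Ioc_self ha2))
    have d3 : ∀ a ∈ Ioc (0 : ℝ) π, HasDerivAt h1 (n ^ 2 * h a) a := fun a ha => by
      refine (d2 a ha).congr_deriv ?_
      rw [eig0_aa H (n ^ 2) (h a) hL a (hsub a ha) (e1 a ha) _ _ hy, hz]
      field_simp
    have sol : ∀ a ∈ Ioo (0 : ℝ) π, h a = -h1 π * sh n (π - a) := fun a ha =>
      eig0_ode h h1 n a π ha.2.le (fun t ht => d1 t ⟨ha.1.trans_le ht.1, ht.2⟩)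
        (fun t ht => d3 t ⟨ha.1.trans_le ht.1, ht.2⟩) (by simp [hh])
    refine ⟨n, -h1 π, hL, fun a ha => ?_, ?_, fun hre => ?_⟩
    · rw [← e0 a (Ioo_subset_Ioc_self ha), sol a ha]
    · have c1 : Continuous (sh n) := continuous_iff_continuousAt.mpr fun t =>
        (eig0_sh_deriv n t).continuousAt
      have c2 : Continuous fun a : ℝ => -h1 π * sh n (π - a) := by fun_prop
      have l2 := (c2.tendsto 0).mono_left (nhdsWithin_le_nhds (s := Ioi 0))
      rw [sub_zero] at l2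
      refine tendsto_nhds_unique_of_eventuallyEq l2 lim ?_
      filter_upwards [Ioo_mem_nhdsGT hpi] with a ha using (sol a ha).symm
    · have r0 : ∀ a ∈ Ioo (0 : ℝ) π, (h a).im = 0 := fun a ha => by
        rw [e0 a (Ioo_subset_Ioc_self ha), Complex.im_ofReal_mul, hre a (Ioo_subset_Ioc_self ha),
          mul_zero]
      have r1 : ∀ a ∈ Ioo (0 : ℝ) π, (h1 a).im = 0 := fun a ha =>
        eig0_im h a _ (d1 a (Ioo_subset_Ioc_self ha)) (by
          filter_upwards [isOpen_Ioo.mem_nhds ha] with b hb using r0 b hb)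
      have r2 := eig0_im h1 a1 _ (d3 a1 (Ioo_subset_Ioc_self ha2)) (by
          filter_upwards [isOpen_Ioo.mem_nhds ha2] with b hb using r1 b hb)
      rw [Complex.mul_im, r0 a1 ha2, mul_zero, zero_add] at r2
      refine (mul_eq_zero.mp r2).resolve_right fun r3 => ha1 ?_
      exact Complex.ext r3 (r0 a1 ha2)
  · obtain ⟨-, Fa, Faa, Fx, Fxx, Fy, Fyy, H⟩ := hP f hcl
    have hs : 0 < Real.sinh (k * π) := Real.sinh_pos_iff.mpr (by positivity)
    have l1 : ∀ t : ℝ, HasDerivAt (fun u : ℝ => k * (π - u)) (-k) t := fun t => by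
      simpa using ((hasDerivAt_id t).const_sub π).const_mul k
    have d1 : ∀ a : ℝ, HasDerivAt (hf k)
        (4 * √2 * π * (Real.cosh (k * (π - a)) * -k) / Real.sinh (k * π)) a := fun a =>
      (((l1 a).sinh).const_mul _).div_const _
    have d2 : ∀ a : ℝ, HasDerivAt
        (fun a => 4 * √2 * π * (Real.cosh (k * (π - a)) * -k) / Real.sinh (k * π))
        (k ^ 2 * hf k a) a := fun a =>
      (((((l1 a).cosh).mul_const _).const_mul _).div_const _).congr_deriv (by unfold hf; ring)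
    refine eig0_lap H (fun a => hf k a) _ (k ^ 2) (π / 2) ⟨by positivity, by linarith⟩ he ?_
      (fun a _ => (d1 a).ofReal_comp) (((d2 (π / 2)).ofReal_comp).congr_deriv (by push_cast; ring))
    refine Complex.ofReal_ne_zero.mpr (ne_of_gt ?_)
    unfold hf
    have : 0 < Real.sinh (k * (π - π / 2)) := Real.sinh_pos_iff.mpr (mul_pos hk (by linarith))
    positivity

end

end Pool.Agent.Lib.E2
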