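import Pool.Agent.Lib.E2.Blue

/-! Fourier expansion of the Eisenstein series. -/

namespace Pool.Agent.Lib.E2

noncomputable section

open Complex MeasureTheory Set Filter Topology
open scoped Real UpperHalfPlane FourierTransform

namespace EIS1

lemma cpe {r : ℝ} (hr : 0 < r) (w : ℂ) : (r : ℂ) ^ w = exp (w * (Real.log r : ℂ)) := by
  rw [cpow_def_of_ne_zero (ofReal_ne_zero.2 hr.ne'), ofReal_log hr.le, mul_comm]

/-- the normalised term -/
def G (y a : ℝ) (s : ℂ) (u : ℝ) : ℂ := (π : ℂ) ^ (-s) * Gamma s * ((y / (u ^ 2 + a ^ 2) : ℝ) : ℂ) ^ s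

lemma G_eq {y a : ℝ} (hy : 0 < y) (ha : 0 < a) {s : ℂ} (hs : 0 < s.re) (u : ℝ) :
    G y a s u = ∫ t in Ioi (0 : ℝ), (t : ℂ) ^ (s - 1) * exp (-(((π * ((u ^ 2 + a ^ 2) / y) : ℝ) : ℂ) * t)) := by
  have hB : 0 < u ^ 2 + a ^ 2 := by positivity
  have hr : 0 < π * ((u ^ 2 + a ^ 2) / y) := by positivity
  rw [integral_cpow_mul_exp_neg_mul_Ioi hs hr, G, ← ofReal_one, ← ofReal_div,
    cpe (one_div_pos.2 hr), cpe Real.pi_pos, cpe (div_pos hy hB), mul_right_comm, ← exp_add]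
  have e : Real.log (1 / (π * ((u ^ 2 + a ^ 2) / y))) = -Real.log π + Real.log (y / (u ^ 2 + a ^ 2)) := by
    rw [← Real.log_inv, ← Real.log_mul (by positivity) (by positivity)]
    congr 1
    field_simp
  rw [e]
  congr 2
  push_cast
  ring

/-- the integrand of the double integral -/
def FF2 (y a : ℝ) (s : ℂ) (k : ℝ) (u t : ℝ) : ℂ :=
  exp (((-2 * π * u * k : ℝ) : ℂ) * I) *
    ((t : ℂ) ^ (s - 1) * exp (-(((π * ((u ^ 2 + a ^ 2) / y) : ℝ) : ℂ) * t)))

lemma norm_FF2 (y a : ℝ) (s : ℂ) (k u : ℝ) {t : ℝ} (ht : 0 < t) :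
    ‖FF2 y a s k u t‖ = t ^ (s.re - 1) * Real.exp (-(π * a ^ 2 / y) * t) * Real.exp (-(π * t / y) * u ^ 2) := by
  rw [FF2, norm_mul, norm_mul, norm_exp_ofReal_mul_I, one_mul, norm_cpow_eq_rpow_re_of_pos ht, ← ofReal_mul,
    ← ofReal_neg, norm_exp_ofReal, mul_assoc (t ^ (s.re - 1)), ← Real.exp_add]
  simp only [sub_re, one_re]
  congr 2
  ring

lemma int_FF2 {y a : ℝ} (hy : 0 < y) (ha : 0 < a) {s : ℂ} (hs : 1 < s.re) (k : ℝ) :
    Integrable (Function.uncurry (FF2 y a s k)) (volume.prod (volume.restrict (Ioi 0))) := by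
  have hm : Measurable (Function.uncurry (FF2 y a s k)) := by
    unfold FF2 Function.uncurry
    fun_prop
  rw [integrable_prod_iff' hm.aestronglyMeasurable]
  constructor
  · refine (ae_restrict_iff' measurableSet_Ioi).2 (Eventually.of_forall fun t ht => ?_)
    have ht' : 0 < t := ht
    have hb : 0 < π * t / y := by positivity
    refine ((integrable_exp_neg_mul_sq hb).const_mul (t ^ (s.re - 1) * Real.exp (-(π * a ^ 2 / y) * t))).mono'
      (hm.comp measurable_prodMk_right).aestronglyMeasurable (Eventually.of_forall fun u => ?_)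
    exact (norm_FF2 y a s k u ht').le
  · have hc : 0 < π * a ^ 2 / y := by positivity
    have h := (integrableOn_rpow_mul_exp_neg_mul_rpow (s := s.re - 3 / 2) (by linarith) one_pos hc).const_mul √y
    refine (IntegrableOn.congr_fun h (fun t ht => ?_) measurableSet_Ioi)
    have ht' : 0 < t := ht
    simp only [Function.uncurry_apply_pair, norm_FF2 y a s k _ ht']
    rw [integral_const_mul, integral_gaussian, Real.rpow_one]
    have e : π / (π * t / y) = y / t := by field_simp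
    have e2 : t ^ (s.re - 1) = t ^ (s.re - 3 / 2) * √t := by
      rw [Real.sqrt_eq_rpow, ← Real.rpow_add ht']
      congr 1
      ring
    have hst : 0 < √t := Real.sqrt_pos.2 ht'
    rw [e, e2, Real.sqrt_div hy.le]
    field_simp

lemma inner_FF2 {y : ℝ} (hy : 0 < y) (a : ℝ) (s : ℂ) (k : ℝ) {t : ℝ} (ht : 0 < t) :
    ∫ u : ℝ, FF2 y a s k u t = (t : ℂ) ^ (s - 1) * ((y / t : ℝ) : ℂ) ^ (1 / 2 : ℂ) *
      exp (((-(π * a ^ 2 / y * t) - π * k ^ 2 * y / t : ℝ) : ℂ)) := by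
  have hb : 0 < (((π * t / y : ℝ) : ℂ)).re := by rw [ofReal_re]; positivity
  have h := fourierIntegral_gaussian hb ((-2 * π * k : ℝ) : ℂ)
  have e : ∀ u : ℝ, FF2 y a s k u t = (t : ℂ) ^ (s - 1) * exp (((-(π * a ^ 2 / y * t) : ℝ) : ℂ)) *
      (exp (I * ((-2 * π * k : ℝ) : ℂ) * u) * exp (-((π * t / y : ℝ) : ℂ) * (u : ℂ) ^ 2)) := by
    intro u
    rw [FF2, mul_left_comm, mul_assoc ((t : ℂ) ^ (s - 1)), ← exp_add, ← exp_add, ← exp_add]
    congr 2
    push_cast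
    ring
  simp only [e]
  rw [integral_const_mul, h]
  have hy' : (y : ℂ) ≠ 0 := ofReal_ne_zero.2 hy.ne'
  have ht' : (t : ℂ) ≠ 0 := ofReal_ne_zero.2 ht.ne'
  have hp : (π : ℂ) ≠ 0 := ofReal_ne_zero.2 Real.pi_ne_zero
  have e1 : (π : ℂ) / ((π * t / y : ℝ) : ℂ) = ((y / t : ℝ) : ℂ) := by
    push_cast
    field_simp
  rw [e1, mul_assoc ((t : ℂ) ^ (s - 1)), mul_assoc ((t : ℂ) ^ (s - 1)), mul_left_comm (exp _), ← exp_add]
  congr 3
  push_cast
  field_simp
  ring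

lemma FT {y a : ℝ} (hy : 0 < y) (ha : 0 < a) {s : ℂ} (hs : 1 < s.re) (k : ℝ) :
    𝓕 (G y a s) k = ∫ t in Ioi (0 : ℝ), (t : ℂ) ^ (s - 1) * ((y / t : ℝ) : ℂ) ^ (1 / 2 : ℂ) *
      exp (((-(π * a ^ 2 / y * t) - π * k ^ 2 * y / t : ℝ) : ℂ)) := by
  rw [Real.fourier_real_eq_integral_exp_smul]
  have e : ∀ u : ℝ, exp (((-2 * π * u * k : ℝ) : ℂ) * I) • G y a s u = ∫ t in Ioi (0 : ℝ), FF2 y a s k u t := by
    intro u
    rw [G_eq hy ha (by linarith) u, smul_eq_mul, ← integral_const_mul]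
    rfl
  simp only [e]
  rw [integral_integral_swap (int_FF2 hy ha hs k)]
  exact setIntegral_congr_fun measurableSet_Ioi fun t ht => inner_FF2 hy a s k ht

lemma FT0 {y m : ℝ} (hy : 0 < y) (hm : 0 < m) {s : ℂ} (hs : 1 < s.re) :
    𝓕 (G y (m * y) s) 0 = (π : ℂ) ^ (-(2 * s - 1) / 2) * Gamma ((2 * s - 1) / 2) * (y : ℂ) ^ (1 - s) *
      (1 / (m : ℂ) ^ (2 * s - 1)) := by
  have hr : 0 < π * (m * y) ^ 2 / y := by positivity
  have h := integral_cpow_mul_exp_neg_mul_Ioi (a := (2 * s - 1) / 2) (by simp; linarith) hr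
  rw [FT hy (by positivity) hs]
  have e : ∀ t ∈ Ioi (0 : ℝ), (t : ℂ) ^ (s - 1) * ((y / t : ℝ) : ℂ) ^ (1 / 2 : ℂ) *
      exp (((-(π * (m * y) ^ 2 / y * t) - π * 0 ^ 2 * y / t : ℝ) : ℂ)) = (y : ℂ) ^ (1 / 2 : ℂ) *
      ((t : ℂ) ^ ((2 * s - 1) / 2 - 1) * exp (-(((π * (m * y) ^ 2 / y : ℝ) : ℂ) * t))) := by
    intro t ht
    have ht' : 0 < t := ht
    rw [cpe ht', cpe ht', cpe hy, cpe (div_pos hy ht'), Real.log_div hy.ne' ht'.ne', ← exp_add, ← exp_add, ← exp_add,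
      ← exp_add]
    congr 1
    push_cast
    ring
  rw [setIntegral_congr_fun measurableSet_Ioi e, integral_const_mul, h, ← ofReal_one, ← ofReal_div,
    cpe (by positivity : 0 < 1 / (π * (m * y) ^ 2 / y)), cpe hy, cpe hy, cpe Real.pi_pos, cpe hm]
  have e2 : Real.log (1 / (π * (m * y) ^ 2 / y)) = -(Real.log π + 2 * Real.log m + Real.log y) := by
    have : 1 / (π * (m * y) ^ 2 / y) = (π * m ^ 2 * y)⁻¹ := by field_simp
    rw [this, Real.log_inv, Real.log_mul (by positivity) hy.ne', Real.log_mul Real.pi_ne_zero (by positivity),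
      Real.log_pow]
    push_cast
    ring
  rw [e2, ofReal_one, one_div (exp _), ← exp_neg, ← mul_assoc, ← exp_add, mul_right_comm _ (Gamma _),
    mul_right_comm _ (Gamma _), ← exp_add, ← exp_add]
  congr 2
  push_cast
  ring

lemma FTk {y m k : ℝ} (hy : 0 < y) (hm : 0 < m) {s : ℂ} (hs : 1 < s.re) {κ : ℝ} (hκ : 0 < κ) (hk : k ^ 2 = κ ^ 2) :
    𝓕 (G y (m * y) s) k = (y : ℂ) ^ (1 / 2 : ℂ) *
      (((κ / m : ℝ) : ℂ) ^ (s - 1 / 2) * Kb (2 * π * (m * κ) * y) (s - 1 / 2)) := by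
  rw [FT hy (by positivity) hs, hk]
  have hc : 0 < κ / m := by positivity
  have him : (fun v : ℝ => κ / m * Real.exp v) '' univ = Ioi 0 := by
    ext t
    simp only [image_univ, mem_range, mem_Ioi]
    constructor
    · rintro ⟨v, rfl⟩
      positivity
    · intro ht
      refine ⟨Real.log (t / (κ / m)), ?_⟩
      rw [Real.exp_log (by positivity)]
      field_simp
  have hinj : InjOn (fun v : ℝ => κ / m * Real.exp v) univ := fun a _ b _ h =>
    Real.exp_injective (mul_left_cancel₀ hc.ne' h)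
  rw [← him, integral_image_eq_integral_abs_deriv_smul MeasurableSet.univ
    (fun v _ => ((Real.hasDerivAt_exp v).const_mul (κ / m)).hasDerivWithinAt) hinj, Measure.restrict_univ, Kb,
    ← integral_const_mul, ← integral_const_mul]
  refine integral_congr_ae (Eventually.of_forall fun v => ?_)
  have hE : 0 < Real.exp v := Real.exp_pos v
  have ht : 0 < κ / m * Real.exp v := by positivity
  have hl : Real.log (κ / m * Real.exp v) = Real.log (κ / m) + v := by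
    rw [Real.log_mul hc.ne' hE.ne', Real.log_exp]
  have hx : -(π * (m * y) ^ 2 / y * (κ / m * Real.exp v)) - π * κ ^ 2 * y / (κ / m * Real.exp v) =
      -(2 * π * (m * κ) * y) * Real.cosh v := by
    rw [Real.cosh_eq, Real.exp_neg]
    field_simp
    ring
  have h1 : ((κ / m * Real.exp v : ℝ) : ℂ) = exp ((Real.log (κ / m) : ℂ) + v) := by
    rw [← ofReal_add, ← ofReal_exp, ← hl, Real.exp_log ht]
  simp only
  rw [abs_of_pos ht, real_smul, hx, cpe ht, cpe (div_pos hy ht), Real.log_div hy.ne' ht.ne', hl, cpe hy, cpe hc, h1,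
    ← exp_add, ← exp_add, ← exp_add, ← exp_add, ← exp_add]
  congr 1
  push_cast
  ring

lemma G_cont {y a : ℝ} (hy : 0 < y) (ha : 0 < a) (s : ℂ) : Continuous (G y a s) := by
  have hB : ∀ u : ℝ, 0 < u ^ 2 + a ^ 2 := fun u => by positivity
  refine continuous_const.mul (Continuous.cpow ?_ continuous_const fun u => ?_)
  · exact continuous_ofReal.comp (continuous_const.div (by fun_prop) fun u => (hB u).ne')
  · exact ofReal_mem_slitPlane.2 (div_pos hy (hB u))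

lemma G_decay {y a : ℝ} (hy : 0 < y) (ha : 0 < a) {s : ℂ} (hs : 0 < s.re) :
    Asymptotics.IsBigO (cocompact ℝ) (G y a s) fun u : ℝ => |u| ^ (-(2 * s.re)) := by
  refine Asymptotics.IsBigO.of_bound (‖(π : ℂ) ^ (-s) * Gamma s‖ * y ^ s.re) ?_
  filter_upwards [(isCompact_singleton (x := (0 : ℝ))).compl_mem_cocompact] with u hu
  have hu' : 0 < |u| := abs_pos.2 hu
  have hB : 0 < u ^ 2 + a ^ 2 := by positivity
  rw [G, norm_mul, norm_cpow_eq_rpow_re_of_pos (div_pos hy hB), Real.norm_of_nonneg (Real.rpow_nonneg hu'.le _),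
    mul_assoc]
  refine mul_le_mul_of_nonneg_left ?_ (norm_nonneg _)
  have e : |u| ^ (-(2 * s.re)) = ((|u| ^ 2)⁻¹) ^ s.re := by
    rw [Real.inv_rpow (by positivity), Real.rpow_neg hu'.le, Real.rpow_mul hu'.le, Real.rpow_two]
  rw [e, ← Real.mul_rpow hy.le (by positivity)]
  refine Real.rpow_le_rpow (by positivity) ?_ hs.le
  rw [← div_eq_mul_inv, sq_abs]
  have hu2 : 0 < u ^ 2 := by rw [← sq_abs]; positivity
  exact div_le_div_of_nonneg_left hy.le hu2 (by nlinarith [sq_nonneg a])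

lemma row (hV : St_VB2) (x : ℝ) {y : ℝ} (hy : 0 < y) {s : ℂ} (hs : 1 < s.re) (m : ℕ) :
    ∑' n : ℤ, G y (((m : ℝ) + 1) * y) s (((m : ℝ) + 1) * x + n) =
      (π : ℂ) ^ (-(2 * s - 1) / 2) * Gamma ((2 * s - 1) / 2) * (y : ℂ) ^ (1 - s) * (1 / ((m : ℂ) + 1) ^ (2 * s - 1)) +
      2 * (y : ℂ) ^ (1 / 2 : ℂ) * ∑' k : ℕ, Vt x y s (m, k) := by
  have hm : (0 : ℝ) < (m : ℝ) + 1 := by positivity
  have hS : Summable fun k : ℕ => (y : ℂ) ^ (1 / 2 : ℂ) * Vt 0 y s (m, k) :=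
    ((hV.1 0 y s (by simpa using hy)).of_norm.prod_factor m).mul_left _
  have hF : ∀ (k : ℕ) (j : ℝ), j ^ 2 = ((k : ℝ) + 1) ^ 2 →
      𝓕 (G y (((m : ℝ) + 1) * y) s) j = (y : ℂ) ^ (1 / 2 : ℂ) * Vt 0 y s (m, k) := by
    intro k j hj
    rw [FTk hy hm hs (by positivity : (0 : ℝ) < (k : ℝ) + 1) hj, Vt, mul_zero, Complex.cos_zero, one_mul]
    push_cast
    rfl
  have hp : ∀ k : ℕ, 𝓕 (G y (((m : ℝ) + 1) * y) s) (((k : ℤ) + 1 : ℤ) : ℝ) =
      (y : ℂ) ^ (1 / 2 : ℂ) * Vt 0 y s (m, k) := fun k => hF k _ (by push_cast; ring)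
  have hn : ∀ k : ℕ, 𝓕 (G y (((m : ℝ) + 1) * y) s) ((-((k : ℤ) + 1) : ℤ) : ℝ) =
      (y : ℂ) ^ (1 / 2 : ℂ) * Vt 0 y s (m, k) := fun k => hF k _ (by push_cast; ring)
  have hsum : Summable fun n : ℤ => 𝓕 (G y (((m : ℝ) + 1) * y) s) n :=
    Summable.of_add_one_of_neg_add_one (hS.congr fun k => (hp k).symm) (hS.congr fun k => (hn k).symm)
  rw [Real.tsum_eq_tsum_fourier_of_rpow_decay_of_summable (G_cont hy (by positivity) s) (by linarith : 1 < 2 * s.re)
    (G_decay hy (by positivity) (by linarith)) hsum]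
  have hb : ∀ (n : ℤ) (w : ℂ), ‖w * fourier n ((((m : ℝ) + 1) * x : ℝ) : UnitAddCircle)‖ ≤ ‖w‖ := fun n w => by
    rw [norm_mul, fourier_apply, Circle.norm_coe, mul_one]
  have h1 : Summable fun k : ℕ => 𝓕 (G y (((m : ℝ) + 1) * y) s) (((k : ℤ) + 1 : ℤ) : ℝ) *
      fourier ((k : ℤ) + 1) ((((m : ℝ) + 1) * x : ℝ) : UnitAddCircle) :=
    Summable.of_norm_bounded hS.norm fun k => by rw [← hp k]; exact hb _ _
  have h2 : Summable fun k : ℕ => 𝓕 (G y (((m : ℝ) + 1) * y) s) ((-((k : ℤ) + 1) : ℤ) : ℝ) *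
      fourier (-((k : ℤ) + 1)) ((((m : ℝ) + 1) * x : ℝ) : UnitAddCircle) :=
    Summable.of_norm_bounded hS.norm fun k => by rw [← hn k]; exact hb _ _
  rw [tsum_of_add_one_of_neg_add_one (f := fun n : ℤ => 𝓕 (G y (((m : ℝ) + 1) * y) s) n *
      fourier n ((((m : ℝ) + 1) * x : ℝ) : UnitAddCircle)) h1 h2, add_right_comm, ← h1.tsum_add h2, add_comm,
    ← tsum_mul_left]
  congr 1
  · rw [fourier_zero, mul_one, Int.cast_zero, FT0 hy hm hs]
    push_cast
    rfl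
  · refine tsum_congr fun k => ?_
    rw [hp k, hn k, ← mul_add, fourier_coe_apply, fourier_coe_apply, Vt, Vt, mul_zero, Complex.cos_zero, one_mul,
      Complex.cos]
    have e1 : 2 * (π : ℂ) * I * (((k : ℤ) + 1 : ℤ) : ℂ) * ((((m : ℝ) + 1) * x : ℝ) : ℂ) / ((1 : ℝ) : ℂ) =
        2 * π * (((m : ℂ) + 1) * ((k : ℂ) + 1)) * x * I := by
      push_cast
      ring
    have e2 : 2 * (π : ℂ) * I * ((-((k : ℤ) + 1) : ℤ) : ℂ) * ((((m : ℝ) + 1) * x : ℝ) : ℂ) / ((1 : ℝ) : ℂ) =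
        -(2 * π * (((m : ℂ) + 1) * ((k : ℂ) + 1)) * x) * I := by
      push_cast
      ring
    rw [e1, e2]
    ring

lemma lat_sum (z : ℍ) {s : ℂ} (hs : 1 < s.re) : Summable fun p => ‖lat z s p‖ := by
  have h := (EisensteinSeries.summable_one_div_norm_rpow (k := 2 * s.re) (by linarith)).mul_left
    (z.im ^ s.re * EisensteinSeries.r z ^ (-(2 * s.re)))
  rw [← (finTwoArrowEquiv ℤ).summable_iff]
  refine Summable.of_nonneg_of_le (fun v => norm_nonneg _) (fun v => ?_) h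
  have hb := EisensteinSeries.summand_bound z (k := 2 * s.re) (by linarith) v
  have hy := z.im_pos
  simp only [Function.comp_apply, lat, finTwoArrowEquiv_apply]
  rw [norm_cpow_eq_rpow_re_of_nonneg (by positivity) (by linarith), mul_assoc, div_eq_mul_inv,
    Real.mul_rpow hy.le (by positivity)]
  refine mul_le_mul_of_nonneg_left (le_of_eq_of_le ?_ hb) (by positivity)
  rw [Real.inv_rpow (by positivity), Real.rpow_neg (norm_nonneg _), Real.rpow_mul (norm_nonneg _), Real.rpow_two]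
  rfl

lemma lat_eq (z : ℍ) (s : ℂ) (m n : ℤ) :
    lat z s (m, n) = ((z.im / ((m * z.re + n) ^ 2 + (m * z.im) ^ 2) : ℝ) : ℂ) ^ s := by
  rw [lat, Complex.sq_norm, normSq_apply]
  simp only [add_re, mul_re, intCast_re, intCast_im, zero_mul, sub_zero, add_im, mul_im, add_zero,
    UpperHalfPlane.coe_re, UpperHalfPlane.coe_im, sq]

lemma row_neg (z : ℍ) (s : ℂ) (m : ℤ) : ∑' n : ℤ, lat z s (-m, n) = ∑' n : ℤ, lat z s (m, n) := by
  rw [← (Equiv.neg ℤ).tsum_eq]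
  refine tsum_congr fun n => ?_
  rw [lat_eq, lat_eq, Equiv.neg_apply]
  congr 3
  push_cast
  ring

lemma row_zero (z : ℍ) {s : ℂ} (hs : 1 < s.re) :
    ∑' n : ℤ, lat z s (0, n) = 2 * (z.im : ℂ) ^ s * riemannZeta (2 * s) := by
  have hy := z.im_pos
  have hS := (lat_sum z hs).of_norm.prod_factor 0
  have hk : ∀ (k : ℕ) (j : ℤ), (j : ℝ) ^ 2 = ((k : ℝ) + 1) ^ 2 →
      lat z s (0, j) = (z.im : ℂ) ^ s * (1 / ((k : ℂ) + 1) ^ (2 * s)) := by
    intro k j hj
    have hk : (0 : ℝ) < (k : ℝ) + 1 := by positivity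
    have e : ((k : ℂ) + 1) = (((k : ℝ) + 1 : ℝ) : ℂ) := by push_cast; rfl
    rw [lat_eq, Int.cast_zero, zero_mul, zero_mul, zero_add, hj, zero_pow two_ne_zero, add_zero, e,
      cpe (div_pos hy (pow_pos hk 2)), cpe hy, cpe hk, one_div, ← exp_neg, ← exp_add,
      Real.log_div hy.ne' (pow_pos hk 2).ne', Real.log_pow]
    congr 1
    push_cast
    ring
  have h0 : lat z s (0, 0) = 0 := by
    have : s ≠ 0 := fun h => by rw [h, zero_re] at hs; linarith
    rw [lat_eq]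
    simp [this]
  rw [tsum_of_add_one_of_neg_add_one (f := fun n : ℤ => lat z s (0, n))
    (hS.comp_injective fun a b h => by simpa using h) (hS.comp_injective fun a b h => by simpa using h), h0,
    add_zero, tsum_congr fun k : ℕ => hk k ((k : ℤ) + 1) (by push_cast; ring),
    tsum_congr fun k : ℕ => hk k (-((k : ℤ) + 1)) (by push_cast; ring), tsum_mul_left,
    ← zeta_eq_tsum_one_div_nat_add_one_cpow (by simp; linarith)]
  ring

end EIS1

open EIS1 in
theorem t_eis1 : T_EIS1 := by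
  intro hZ _ hV z s hs
  refine ⟨lat_sum z hs, ?_⟩
  have hy := z.im_pos
  have hS := (lat_sum z hs).of_norm
  have hR := hS.prod
  have hL := hZ.2.2.2.2.2.1
  have hVs := (hV.1 z.re z.im s (by simpa using hy)).of_norm
  have hz : Summable fun m : ℕ => 1 / ((m : ℂ) + 1) ^ (2 * s - 1) := by
    have := (summable_nat_add_iff 1).2 (summable_one_div_nat_cpow.2 (show 1 < (2 * s - 1).re by simp; linarith))
    simpa using this
  have hrow : ∀ m : ℕ, (π : ℂ) ^ (-s) * Gamma s * ∑' n : ℤ, lat z s ((m : ℤ) + 1, n) =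
      (π : ℂ) ^ (-(2 * s - 1) / 2) * Gamma ((2 * s - 1) / 2) * (z.im : ℂ) ^ (1 - s) *
        (1 / ((m : ℂ) + 1) ^ (2 * s - 1)) + 2 * (z.im : ℂ) ^ (1 / 2 : ℂ) * ∑' k : ℕ, Vt z.re z.im s (m, k) := by
    intro m
    rw [← row hV z.re hy hs m, ← tsum_mul_left]
    refine tsum_congr fun n => ?_
    rw [lat_eq, G]
    push_cast
    rfl
  have hT : (π : ℂ) ^ (-s) * Gamma s * ∑' m : ℕ, ∑' n : ℤ, lat z s ((m : ℤ) + 1, n) =
      Lam (2 * s - 1) * (z.im : ℂ) ^ (1 - s) + Vf z.re z.im s := by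
    rw [← tsum_mul_left, tsum_congr hrow, (hz.mul_left _).tsum_add (hVs.prod.mul_left _), tsum_mul_left,
      tsum_mul_left, ← zeta_eq_tsum_one_div_nat_add_one_cpow (by simp; linarith), Vf, hVs.tsum_prod,
      hL (2 * s - 1) (by simp; linarith)]
    ring
  rw [hS.tsum_prod, tsum_of_add_one_of_neg_add_one (f := fun m : ℤ => ∑' n : ℤ, lat z s (m, n))
    (hR.comp_injective fun a b h => by simpa using h) (hR.comp_injective fun a b h => by simpa using h),
    tsum_congr fun m : ℕ => row_neg z s ((m : ℤ) + 1), row_zero z hs, Es, add_assoc, ← hT,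
    hL (2 * s) (by simp; linarith)]
  have e1 : -(2 * s) / 2 = -s := by ring
  have e2 : 2 * s / 2 = s := by ring
  rw [e1, e2]
  ring

end

end Pool.Agent.Lib.E2
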