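import Pool.Agent.Lib.E2.Blue

/-! Invariance of the Eisenstein series. -/

namespace Pool.Agent.Lib.E2

noncomputable section

open Complex MeasureTheory Set Filter Topology
open scoped Real UpperHalfPlane MatrixGroups

namespace EIS2

/-- the action on the lattice -/
def eqv (g : SL(2, ℤ)) : ℤ × ℤ ≃ ℤ × ℤ where
  toFun p := (p.1 * g 0 0 + p.2 * g 1 0, p.1 * g 0 1 + p.2 * g 1 1)
  invFun p := (p.1 * g 1 1 - p.2 * g 1 0, -p.1 * g 0 1 + p.2 * g 0 0)
  left_inv p := by
    have h := g.det_coe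
    rw [Matrix.det_fin_two] at h
    ext
    · simp only
      linear_combination p.1 * h
    · simp only
      linear_combination p.2 * h
  right_inv p := by
    have h := g.det_coe
    rw [Matrix.det_fin_two] at h
    ext
    · simp only
      linear_combination p.1 * h
    · simp only
      linear_combination p.2 * h

lemma lat_smul (g : SL(2, ℤ)) (z : ℍ) (s : ℂ) (p : ℤ × ℤ) :
    lat (g • z) s p = lat z s (eqv g p) := by
  have hD : ((g 1 0 : ℤ) : ℂ) * z + (g 1 1 : ℤ) ≠ 0 := by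
    simpa [ModularGroup.denom_apply] using UpperHalfPlane.denom_ne_zero g z
  have h1 : (g • z).im = z.im / ‖((g 1 0 : ℤ) : ℂ) * z + (g 1 1 : ℤ)‖ ^ 2 := by
    rw [ModularGroup.im_smul_eq_div_normSq, ModularGroup.denom_apply, normSq_eq_norm_sq]
  have h2 : (p.1 : ℂ) * ((g • z : ℍ) : ℂ) + p.2 =
      (((eqv g p).1 : ℂ) * z + (eqv g p).2) / (((g 1 0 : ℤ) : ℂ) * z + (g 1 1 : ℤ)) := by
    rw [UpperHalfPlane.coe_specialLinearGroup_apply]
    simp only [eqv, Equiv.coe_fn_mk, eq_intCast, ofReal_intCast]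
    rw [eq_div_iff hD, add_mul, mul_assoc, div_mul_cancel₀ _ hD]
    push_cast
    ring
  rw [lat, lat, h1, h2, norm_div, div_pow,
    div_div_div_cancel_right₀ (pow_ne_zero 2 (norm_ne_zero_iff.2 hD))]

lemma inv_big (h : St_EIS1) {s : ℂ} (hs : 1 < s.re) : Inv fun z => Es z s := fun g z => by
  simp only [(h _ s hs).2, lat_smul]
  rw [(eqv g).tsum_eq (lat z s)]

/-- the entire version of the Eisenstein series -/
def G (z : ℍ) (s : ℂ) : ℂ := (2 * s - 2) * xi (2 * s) * (z.im : ℂ) ^ s +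
  2 * s * xi (2 * s - 1) * (z.im : ℂ) ^ (1 - s) +
  2 * s * (2 * s - 1) * (2 * s - 2) * Vf z.re z.im s

lemma G_eq (h : St_ZB1) (z : ℍ) {s : ℂ} (h0 : s ≠ 0) (h1 : s ≠ 1 / 2) (h2 : s ≠ 1) :
    G z s = 2 * s * (2 * s - 1) * (2 * s - 2) * Es z s := by
  have a1 : 2 * s ≠ 0 := mul_ne_zero two_ne_zero h0
  have a2 : 2 * s ≠ 1 := fun e => h1 (by linear_combination e / 2)
  have a3 : 2 * s - 1 ≠ 0 := sub_ne_zero.2 a2
  have a4 : 2 * s - 1 ≠ 1 := fun e => h2 (by linear_combination e / 2)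
  rw [G, Es, h.1 _ a1 a2, h.1 _ a3 a4]
  ring

lemma diff_V (h : St_VB2) (z : ℍ) : Differentiable ℂ fun s => Vf z.re z.im s :=
  differentiableOn_univ.1 (h.2.2.1 univ (fun _ => z.re) (fun _ => z.im) id isOpen_univ
    (differentiableOn_const _) (differentiableOn_const _) differentiableOn_id
    fun _ _ => by simpa using z.im_pos)

lemma diff_G (h : St_VB2) (z : ℍ) : Differentiable ℂ (G z) := by
  have h1 := diff_V h z
  have h2 := xi_diff
  have h3 : (z.im : ℂ) ≠ 0 := ofReal_ne_zero.2 z.im_ne_zero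
  have h4 : Differentiable ℂ fun s : ℂ => (z.im : ℂ) ^ s := differentiable_id.const_cpow (.inl h3)
  have h5 : Differentiable ℂ fun s : ℂ => (z.im : ℂ) ^ (1 - s) :=
    ((differentiable_const _).sub differentiable_id).const_cpow (.inl h3)
  unfold G
  fun_prop

lemma G_inv (hP : St_PAR) (hZ : St_ZB1) (hV : St_VB2) (hE : St_EIS1) (g : SL(2, ℤ)) (z : ℍ) :
    G (g • z) = G z := by
  have h := hP.2.2.1 (G (g • z)) (G z) univ 1 2 isOpen_univ isPreconnected_univ
    (diff_G hV _).differentiableOn (diff_G hV _).differentiableOn one_lt_two fun x hx => by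
      have a0 : (x : ℂ) ≠ 0 := fun e => by
        have := congrArg re e
        simp at this
        linarith [hx.1]
      have a1 : (x : ℂ) ≠ 1 / 2 := fun e => by
        have := congrArg re e
        simp at this
        linarith [hx.1]
      have a2 : (x : ℂ) ≠ 1 := fun e => by
        have := congrArg re e
        simp at this
        linarith [hx.1]
      refine ⟨trivial, ?_⟩
      rw [G_eq hZ _ a0 a1 a2, G_eq hZ _ a0 a1 a2]
      exact congrArg _ (inv_big hE (s := x) hx.1 g z)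
  exact funext fun s => h trivial

lemma xi_der (s : ℂ) : HasDerivAt xi ((2 * s - 1) * completedRiemannZeta₀ s +
    s * (s - 1) * deriv completedRiemannZeta₀ s) s := by
  have h := ((((hasDerivAt_id s).mul ((hasDerivAt_id s).sub_const 1)).mul
    (differentiable_completedZeta₀ s).hasDerivAt)).add_const 1
  refine h.congr_deriv ?_
  simp only [id, Pi.mul_apply]
  ring

lemma G_der (h : St_VB2) (z : ℍ) : HasDerivAt (G z) (-2 * E0 z) (1 / 2) := by
  have h3 : (z.im : ℂ) ≠ 0 := ofReal_ne_zero.2 z.im_ne_zero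
  have i1 : HasDerivAt (fun s : ℂ => 2 * s) 2 (1 / 2) := by
    simpa using (hasDerivAt_id (1 / 2 : ℂ)).const_mul 2
  have x1 : HasDerivAt (fun s : ℂ => xi (2 * s)) (completedRiemannZeta₀ 1 * 2) (1 / 2) := by
    have a := xi_der (2 * (1 / 2))
    have b := a.comp (1 / 2 : ℂ) i1
    refine b.congr_deriv ?_
    norm_num
  have x2 : HasDerivAt (fun s : ℂ => xi (2 * s - 1)) (-completedRiemannZeta₀ 1 * 2) (1 / 2) := by
    have a := xi_der (2 * (1 / 2) - 1)
    have b := a.comp (1 / 2 : ℂ) (i1.sub_const 1)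
    refine b.congr_deriv ?_
    have c := completedRiemannZeta₀_one_sub 0
    rw [sub_zero] at c
    rw [c]
    norm_num
  have y1 : HasDerivAt (fun s : ℂ => (z.im : ℂ) ^ s)
      ((z.im : ℂ) ^ (1 / 2 : ℂ) * log z.im * 1) (1 / 2) :=
    (hasDerivAt_id (1 / 2 : ℂ)).const_cpow (.inl h3)
  have y2 : HasDerivAt (fun s : ℂ => (z.im : ℂ) ^ (1 - s))
      ((z.im : ℂ) ^ (1 - 1 / 2 : ℂ) * log z.im * (-1)) (1 / 2) :=
    ((hasDerivAt_id (1 / 2 : ℂ)).const_sub 1).const_cpow (.inl h3)
  have v := (diff_V h z (1 / 2)).hasDerivAt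
  have t := ((((i1.sub_const 2).mul x1).mul y1).add ((i1.mul x2).mul y2)).add
    (((i1.mul (i1.sub_const 1)).mul (i1.sub_const 2)).mul v)
  refine t.congr_deriv ?_
  have e1 : (2 : ℂ) * (1 / 2) = 1 := by norm_num
  have e2 : (1 : ℂ) - 1 / 2 = 1 / 2 := by norm_num
  have e3 : xi 1 = 1 := by simp [xi]
  have e4 : xi 0 = 1 := by simp [xi]
  simp only [Pi.mul_apply, e1, e2, sub_self, e3, e4, E0, Cc, c0]
  ring

lemma S_ray (h : St_UNF1) (r : ℝ) {y : ℝ} (hy : 0 < y) :
    (ModularGroup.S • pt (y * Real.tanh r) (y / Real.cosh r)).re = -(1 / y * Real.tanh r) ∧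
    (ModularGroup.S • pt (y * Real.tanh r) (y / Real.cosh r)).im = 1 / y / Real.cosh r := by
  have hc := Real.cosh_pos r
  obtain ⟨h1, h2⟩ := h.1 (y * Real.tanh r) (y / Real.cosh r) (by positivity)
  have h3 : normSq ((pt (y * Real.tanh r) (y / Real.cosh r) : ℍ) : ℂ) = y ^ 2 := by
    rw [normSq_apply, UpperHalfPlane.coe_re, UpperHalfPlane.coe_im, h1, h2,
      Real.tanh_eq_sinh_div_cosh]
    field_simp
    rw [Real.cosh_sq]
  rw [UpperHalfPlane.modular_S_smul]
  simp only [UpperHalfPlane.mk_re, UpperHalfPlane.mk_im, inv_re, inv_im, neg_re, neg_im,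
    normSq_neg, UpperHalfPlane.coe_re, UpperHalfPlane.coe_im, h1, h2, h3]
  constructor <;> field_simp

end EIS2

open EIS2 in
theorem t_eis2 : T_EIS2 := by
  intro hP hZ hV hU hE
  have h1 : ∀ s : ℂ, s ≠ 0 → s ≠ 1 / 2 → s ≠ 1 → Inv (fun z => Es z s) := by
    intro s h0 h1 h2 g z
    have h3 := congrFun (G_inv hP hZ hV hE g z) s
    rw [G_eq hZ _ h0 h1 h2, G_eq hZ _ h0 h1 h2] at h3
    refine mul_left_cancel₀ (mul_ne_zero (mul_ne_zero (mul_ne_zero two_ne_zero h0) ?_) ?_) h3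
    · exact fun e => h1 (by linear_combination e / 2)
    · exact fun e => h2 (by linear_combination e / 2)
  have h2 : Inv E0 := fun g z => by
    have h3 := G_der hV (g • z)
    rw [G_inv hP hZ hV hE g z] at h3
    exact mul_left_cancel₀ (by norm_num) (h3.unique (G_der hV z))
  refine ⟨h1, h2, fun r y hy => ?_⟩
  have hc := Real.cosh_pos r
  obtain ⟨a1, a2⟩ := hU.1 (y * Real.tanh r) (y / Real.cosh r) (by positivity)
  obtain ⟨b1, b2⟩ := S_ray hU r hy
  have e : 1 / (y * Real.cosh r) = 1 / y / Real.cosh r := by field_simp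
  constructor
  · intro s h3 h4 h5
    have h6 := h1 s h3 h4 h5 ModularGroup.S (pt (y * Real.tanh r) (y / Real.cosh r))
    simp only [Es, a1, a2, b1, b2, ofReal_neg, (hV.2.2.2.2.1 _ _ _).1] at h6
    simp only [Vr, Ct, e]
    linear_combination h6
  · have h6 := h2 ModularGroup.S (pt (y * Real.tanh r) (y / Real.cosh r))
    simp only [E0, a1, a2, b1, b2, ofReal_neg, (hV.2.2.2.2.1 _ _ _).1] at h6
    simp only [Vr, Cp, Cm, e]
    linear_combination h6

end

end Pool.Agent.Lib.E2
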