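import Pool.Agent.Lib.E2.Blue

namespace Pool.Agent.Lib.E2

noncomputable section

open Complex MeasureTheory Set Filter Topology
open scoped Real UpperHalfPlane MatrixGroups ComplexConjugate Modular

theorem exp_count {ι : Type} {k : ι → ℝ} (h : ∀ K : ℝ, 1 ≤ K → {i | k i ≤ K}.Finite) :
    Countable ι := by
  have : (univ : Set ι) ⊆ ⋃ m : ℕ, {i | k i ≤ (m : ℝ) + 1} := fun i _ => by
    obtain ⟨m, hm⟩ := exists_nat_ge (k i)
    exact mem_iUnion.2 ⟨m, by show k i ≤ (m : ℝ) + 1; linarith⟩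
  exact countable_univ_iff.1 ((countable_iUnion fun m : ℕ =>
    (h ((m : ℝ) + 1) (by linarith [(Nat.cast_nonneg m : (0 : ℝ) ≤ m)])).countable).mono this)

theorem exp_swap {ι : Type} [Countable ι] (μ : Measure ℍ) (h : ℍ → ℂ) (hh : Integrable h μ)
    (F : ι → ℍ → ℂ) (hF : ∀ i, Continuous (F i)) (u : ι → ℝ) (hu : Summable u)
    (hb : ∀ i z, ‖F i z‖ ≤ u i) :
    HasSum (fun i => ∫ z, h z * F i z ∂μ) (∫ z, h z * ∑' i, F i z ∂μ) := by
  have hi : ∀ i, Integrable (fun z => h z * F i z) μ := fun i =>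
    hh.mul_bdd (hF i).aestronglyMeasurable (Eventually.of_forall (hb i))
  have hs : Summable fun i => ∫ z, ‖h z * F i z‖ ∂μ := by
    refine Summable.of_nonneg_of_le (fun i => integral_nonneg fun z => norm_nonneg _)
      (fun i => ?_) (hu.mul_left (∫ z, ‖h z‖ ∂μ))
    rw [← integral_mul_const]
    refine integral_mono (hi i).norm (hh.norm.mul_const _) fun z => ?_
    simp only [norm_mul]
    exact mul_le_mul_of_nonneg_left (hb i z) (norm_nonneg _)
  have h1 := hasSum_integral_of_summable_integral_norm hi hs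
  simp only [tsum_mul_left] at h1
  exact h1

theorem exp_sum {ι : Type} {c : ι → ℂ} {k : ι → ℝ} (hk : ∀ i, 0 ≤ k i)
    (h : Summable (fun i => ‖c i‖ * (1 + k i) ^ 3 * Real.exp ((π / 2 - 1) * k i))) :
    Summable (fun i => ‖c i‖ * (1 + k i) ^ 2) := by
  refine Summable.of_nonneg_of_le (fun i => by positivity) (fun i => ?_) h
  have h0 := hk i
  have h1 : 1 ≤ Real.exp ((π / 2 - 1) * k i) :=
    Real.one_le_exp (mul_nonneg (by linarith [Real.pi_gt_three]) h0)
  have h2 : (1 + k i) ^ 2 ≤ (1 + k i) ^ 3 := pow_le_pow_right₀ (by linarith) (by norm_num)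
  rw [mul_assoc]
  refine mul_le_mul_of_nonneg_left (h2.trans ?_) (norm_nonneg _)
  exact le_mul_of_one_le_right (by positivity) h1

theorem t_exp : T_EXP := by
  intro hFC1 hFC2 hU hK hL hAI hBES hCOEF ι φ k hE
  obtain ⟨C, hcnt, hbd⟩ := hBES ι φ k hE
  obtain ⟨C1, n, hco⟩ := hCOEF ι φ k hE
  obtain ⟨⟨b1, b2, b3⟩, hk⟩ := hE
  obtain ⟨-, L2, -, L4, -, -, L7, L8, -⟩ := hL
  have : Countable ι := exp_count fun K hK => (hcnt K hK).1
  have : IsFiniteMeasure muD := hU.2.2.2.2.2.2.2.2.2.1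
  have hs : Summable (fun i => ‖ip (φ i) Fc‖ * (1 + k i) ^ 2 * C) :=
    (exp_sum (fun i => by linarith [(hk i).1]) (hco 1 ⟨one_pos, le_rfl⟩).1).mul_right C
  have hb : ∀ i z, ‖ip (φ i) Fc * φ i z‖ ≤ ‖ip (φ i) Fc‖ * (1 + k i) ^ 2 * C := fun i z => by
    rw [norm_mul, mul_assoc, mul_comm _ C]
    exact mul_le_mul_of_nonneg_left (hbd i z).1 (norm_nonneg _)
  have hc : ∀ i, Continuous fun z => ip (φ i) Fc * φ i z := fun i =>
    continuous_const.mul (b1 i).2.1
  have hGc : Continuous fun z => ∑' i, ip (φ i) Fc * φ i z := continuous_tsum hc hs hb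
  have hGa : Aut fun z => ∑' i, ip (φ i) Fc * φ i z := by
    refine L4 _ hGc (fun g z => tsum_congr fun i => ?_) ⟨_, fun z => tsum_of_norm_bounded
      hs.hasSum fun i => hb i z⟩
    rw [(b1 i).1.1.2.1 g z]
  have h1a : Aut fun _ : ℍ => (1 : ℂ) :=
    L4 _ continuous_const (fun _ _ => rfl) ⟨1, fun _ => by simp⟩
  have hGu : Cusp fun z => ∑' i, ip (φ i) Fc * φ i z := by
    refine ⟨hGa, fun C' u hu => ?_⟩
    have h1 : Integrable (fun w : ℍ => u w.im) (volume.restrict strip) := by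
      have h2 := (hK.1 _ h1a C' u hu).1
      simp only [mul_one] at h2
      exact h2
    have h2 := exp_swap _ _ h1 _ hc _ hs hb
    have h3 : ∀ i, ∫ w in strip, u w.im * (ip (φ i) Fc * φ i w) = 0 := fun i => by
      simp only [mul_left_comm _ (ip (φ i) Fc)]
      rw [integral_const_mul, (b1 i).1.2 C' u hu, mul_zero]
    simp only [h3] at h2
    exact h2.unique hasSum_zero
  have hip : ∀ j, ip (φ j) (fun z => ∑' i, ip (φ i) Fc * φ i z) = ip (φ j) Fc := fun j => by
    have h1 : Integrable (fun z => conj (φ j z)) muD :=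
      Integrable.of_bound (continuous_conj.comp (b1 j).2.1).aestronglyMeasurable _
        (Eventually.of_forall fun z => by rw [Complex.norm_conj]; exact (hbd j z).1)
    have h2 : HasSum (fun i => ip (φ j) fun z => ip (φ i) Fc * φ i z)
        (ip (φ j) fun z => ∑' i, ip (φ i) Fc * φ i z) := exp_swap _ _ h1 _ hc _ hs hb
    have h3 := hasSum_single (f := fun i => ip (φ j) fun z => ip (φ i) Fc * φ i z) j
      fun i hi => by rw [((L7 (φ j) (φ i)).2.2.2 _).1, b2 j i (Ne.symm hi), mul_zero]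
    rw [h2.unique h3, ((L7 (φ j) (φ j)).2.2.2 _).1, (b1 j).2.2, mul_one]
  have hD : Cusp fun z => Fc z + (-1) * ∑' i, ip (φ i) Fc * φ i z := L2 _ _ _ hFC2.1 hGu
  have hD0 := b3 _ hD fun j => by
    rw [L8 _ _ _ _ (b1 j).1.1.2.2 hFC2.1.1.2.2 hGa.2.2, hip j]
    ring
  intro z
  have hDc : Continuous fun z => Fc z + (-1) * ∑' i, ip (φ i) Fc * φ i z :=
    hFC1.2.2.2.2.2.add (continuous_const.mul hGc)
  have h1 := hAI _ z (hK.2.1 _ hD.1) hDc.continuousAt
  have h2 : Tendsto (fun a : ℝ => (Real.sin a : ℂ) *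
      Lop a (fun z => Fc z + (-1) * ∑' i, ip (φ i) Fc * φ i z) z) (𝓝[>] 0) (𝓝 0) := by
    refine tendsto_const_nhds.congr' ?_
    filter_upwards [Ioo_mem_nhdsGT Real.pi_pos] with a ha
    rw [hD0 a ha z, mul_zero]
  have h3 := tendsto_nhds_unique h1 h2
  have h4 : ((4 * √2 * π : ℝ) : ℂ) ≠ 0 := by
    have : (0 : ℝ) < 4 * √2 * π := by positivity
    exact_mod_cast this.ne'
  have h5 := (mul_eq_zero.1 h3).resolve_left h4
  have h6 : Fc z = ∑' i, ip (φ i) Fc * φ i z := by linear_combination h5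
  rw [h6]
  exact (Summable.of_norm_bounded hs fun i => hb i z).hasSum

end

end Pool.Agent.Lib.E2
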