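import Pool.Agent.Lib.E2.Blue

namespace Pool.Agent.Lib.E2

noncomputable section

open Complex MeasureTheory Set Filter Topology
open scoped Real

namespace FC1

/-- bound with weight `c` -/
def Bd (F : ℂ → ℂ → ℂ) (C : ℝ) (k : ℕ) : Prop := ∀ m ∈ Ioc (0 : ℝ) 1, ∀ h : ℝ, 1 / 2 ≤ h → ∀ x y : ℂ,
  Adm m h x y → ‖F x y‖ ≤ C / m ^ k * Real.exp (-(m * h) / 2)

structure Good (F : ℂ → ℂ → ℂ) : Prop where
  cont : ContinuousOn (fun p : ℂ × ℂ => F p.1 p.2) Om
  an : CurveAn F Om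
  bd : ∃ (C : ℝ) (k : ℕ), 0 ≤ C ∧ Bd F C k

theorem om_open : IsOpen Om := isOpen_lt (by fun_prop) (by fun_prop)

theorem loc {p : ℂ × ℂ} (hp : p ∈ Om) : ∃ m ∈ Ioc (0 : ℝ) 1, ∀ᶠ q : ℂ × ℂ in 𝓝 p, Adm m 1 q.1 q.2 := by
  have h0 : 0 < p.2.re - |p.1.im| := sub_pos.2 hp
  have hn := norm_nonneg p.2
  refine ⟨min ((p.2.re - |p.1.im|) / 2) (1 / (‖p.2‖ + 1)), ⟨by positivity, (min_le_right _ _).trans ?_⟩, ?_⟩
  · rw [div_le_one (by linarith)]; linarith
  have h1 : ∀ᶠ q : ℂ × ℂ in 𝓝 p, ‖q.2‖ < ‖p.2‖ + 1 :=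
    ContinuousAt.eventually_lt (by fun_prop) continuousAt_const (by linarith)
  have h2 : ∀ᶠ q : ℂ × ℂ in 𝓝 p, (p.2.re - |p.1.im|) / 2 < q.2.re - |q.1.im| :=
    ContinuousAt.eventually_lt continuousAt_const (by fun_prop) (by linarith)
  filter_upwards [h1, h2] with q a b
  refine ⟨a.le.trans ?_, by rw [mul_one]; exact (min_le_left _ _).trans b.le⟩
  rw [le_div_iff₀ (by positivity), ← le_div_iff₀' (by positivity)]
  exact min_le_right _ _

theorem adm_re {m h : ℝ} {x y : ℂ} (H : Adm m h x y) (t : ℝ) : Adm m h t y :=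
  ⟨H.1, H.2.trans (by rw [ofReal_im, abs_zero]; linarith [abs_nonneg x.im])⟩

theorem pw {m C : ℝ} (hm : m ∈ Ioc (0 : ℝ) 1) (hC : 0 ≤ C) {j k : ℕ} (h : j ≤ k) : C / m ^ j ≤ C / m ^ k :=
  div_le_div_of_nonneg_left hC (pow_pos hm.1 _) (pow_le_pow_of_le_one hm.1.le hm.2 h)

theorem Good.add {F G : ℂ → ℂ → ℂ} (hF : Good F) (hG : Good G) : Good fun x y => F x y + G x y := by
  refine ⟨hF.cont.add hG.cont, fun U X Y a b c d => (hF.an U X Y a b c d).add (hG.an U X Y a b c d), ?_⟩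
  obtain ⟨C, k, hC, h⟩ := hF.bd
  obtain ⟨C', k', hC', h'⟩ := hG.bd
  refine ⟨C + C', k + k', by positivity, fun m hm r hr x y H => (norm_add_le _ _).trans ?_⟩
  rw [add_div, add_mul]
  exact add_le_add ((h m hm r hr x y H).trans (mul_le_mul_of_nonneg_right (pw hm hC (by omega)) (by positivity)))
    ((h' m hm r hr x y H).trans (mul_le_mul_of_nonneg_right (pw hm hC' (by omega)) (by positivity)))

theorem Good.cmul {F : ℂ → ℂ → ℂ} (hF : Good F) (c : ℂ) : Good fun x y => c * F x y := by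
  refine ⟨continuousOn_const.mul hF.cont, fun U X Y a b e d => (hF.an U X Y a b e d).const_mul c, ?_⟩
  obtain ⟨C, k, hC, h⟩ := hF.bd
  refine ⟨‖c‖ * C, k, by positivity, fun m hm r hr x y H => ?_⟩
  rw [norm_mul, mul_div_assoc, mul_assoc]
  exact mul_le_mul_of_nonneg_left (h m hm r hr x y H) (norm_nonneg _)

theorem Good.sub {F G : ℂ → ℂ → ℂ} (hF : Good F) (hG : Good G) : Good fun x y => F x y - G x y := by
  simpa only [neg_one_mul, ← sub_eq_add_neg] using hF.add (hG.cmul (-1))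

theorem Bd.sq {F : ℂ → ℂ → ℂ} {C : ℝ} {k : ℕ} (h : Bd F C k) : Bd (fun x y => F x y ^ 2) (C ^ 2) (k * 2) := by
  intro m hm r hr x y H
  have h1 : Real.exp (-(m * r) / 2) ≤ 1 := Real.exp_le_one_iff.2 (by have := mul_pos hm.1 (by linarith : 0 < r); linarith)
  rw [norm_pow, pow_mul, ← div_pow]
  refine (pow_le_pow_left₀ (norm_nonneg _) (h m hm r hr x y H) 2).trans ?_
  rw [mul_pow]
  exact mul_le_mul_of_nonneg_left (by nlinarith [Real.exp_pos (-(m * r) / 2)]) (by positivity)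

theorem Good.sq {F : ℂ → ℂ → ℂ} (hF : Good F) : Good fun x y => F x y ^ 2 := by
  obtain ⟨C, k, -, h⟩ := hF.bd
  exact ⟨hF.cont.pow 2, fun U X Y a b e d => (hF.an U X Y a b e d).pow 2, _, _, by positivity, h.sq⟩

/-- an admissible family -/
structure Fam (μ : Measure ℝ) (F : ℝ → ℂ → ℂ → ℂ) : Prop where
  cont : ContinuousOn (fun p : (ℂ × ℂ) × ℝ => F p.2 p.1.1 p.1.2) (Om ×ˢ univ)
  an : ∀ t, CurveAn (F t) Om
  bd : ∃ (C : ℝ) (k : ℕ) (g : ℝ → ℝ), 0 ≤ C ∧ Integrable g μ ∧ (∀ t, 0 ≤ g t) ∧ ∀ t, Bd (F t) (C * g t) k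

theorem Fam.cont_t {μ : Measure ℝ} {F : ℝ → ℂ → ℂ → ℂ} (hF : Fam μ F) {p : ℂ × ℂ} (hp : p ∈ Om) :
    Continuous fun t => F t p.1 p.2 :=
  hF.cont.comp_continuous (f := fun t : ℝ => (p, t)) (by fun_prop) fun _ => ⟨hp, trivial⟩

theorem Fam.good (hP : St_PAR) {μ : Measure ℝ} {F : ℝ → ℂ → ℂ → ℂ} (hF : Fam μ F) :
    Good fun x y => ∫ t, F t x y ∂μ := by
  obtain ⟨C, k, g, hC, hg, hg0, hb⟩ := hF.bd
  have hi : ∀ a b : ℝ, Integrable (fun t => C * g t / a * b) μ := fun a b =>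
    ((hg.const_mul C).div_const a).mul_const b
  refine ⟨fun p hp => ContinuousAt.continuousWithinAt ?_, fun U X Y hU hX hY hO => ?_, C * ∫ t, g t ∂μ, k,
    mul_nonneg hC (integral_nonneg hg0), fun m hm r hr x y H => ?_⟩
  · obtain ⟨m, hm, h⟩ := loc hp
    refine continuousAt_of_dominated (F := fun (q : ℂ × ℂ) t => F t q.1 q.2) ?_ ?_
      (hi (m ^ k) (Real.exp (-(m * 1) / 2))) ?_
    · filter_upwards [om_open.mem_nhds hp] with q hq using (hF.cont_t hq).aestronglyMeasurable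
    · filter_upwards [h] with q hq using Eventually.of_forall fun t => hb t m hm 1 (by norm_num) _ _ hq
    · refine Eventually.of_forall fun t => ?_
      exact (hF.cont.continuousAt ((om_open.prod isOpen_univ).mem_nhds ⟨hp, trivial⟩)).comp
        (f := fun q : ℂ × ℂ => (q, t)) (by fun_prop)
  · refine (hP.1 ℝ μ (fun c t => F t (X c) (Y c)) U hU (fun c hc => (hF.cont_t (hO c hc)).aestronglyMeasurable)
      (Eventually.of_forall fun t => hF.an t U X Y hU hX hY hO) fun c hc => ?_).1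
    obtain ⟨m, hm, h⟩ := loc (hO c hc)
    have hc2 : ContinuousAt (fun c => (X c, Y c)) c :=
      (hX.continuousOn.continuousAt (hU.mem_nhds hc)).prodMk (hY.continuousOn.continuousAt (hU.mem_nhds hc))
    obtain ⟨r, hr, h2⟩ := Metric.eventually_nhds_iff.1 (hc2.eventually h)
    exact ⟨r, hr, _, hi (m ^ k) _, Eventually.of_forall fun t w _ hw =>
      hb t m hm 1 (by norm_num) _ _ (h2 (by rwa [dist_eq_norm]))⟩
  · refine (norm_integral_le_of_norm_le (hi (m ^ k) _) (Eventually.of_forall fun t => hb t m hm r hr x y H)).trans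
      (le_of_eq ?_)
    rw [integral_mul_const, integral_div, integral_const_mul]

theorem om_re {y : ℝ} (hy : 0 < y) (x : ℝ) : ((x : ℂ), (y : ℂ)) ∈ Om := by simpa [Om] using hy

theorem Fam.zero {μ : Measure ℝ} [SFinite μ] {F : ℝ → ℂ → ℂ → ℂ} (hF : Fam μ F) {y : ℝ} (hy : 0 < y)
    (h0 : ∀ t, ∫ x in (0 : ℝ)..1, F t x y = 0) : ∫ x in (0 : ℝ)..1, ∫ t, F t x y ∂μ = 0 := by
  obtain ⟨C, k, g, hC, hg, hg0, hb⟩ := hF.bd
  obtain ⟨m, hm, h⟩ := loc (om_re hy 0)
  have hc : Continuous fun p : ℝ × ℝ => F p.2 p.1 y :=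
    hF.cont.comp_continuous (f := fun p : ℝ × ℝ => (((p.1 : ℂ), (y : ℂ)), p.2)) (by fun_prop)
      fun p => ⟨om_re hy _, trivial⟩
  rw [intervalIntegral_integral_swap (f := fun (x t : ℝ) => F t x y)]
  · simp only [h0, integral_zero]
  have : IsFiniteMeasure (volume.restrict (uIoc (0 : ℝ) 1)) := by rw [uIoc_of_le zero_le_one]; infer_instance
  refine Integrable.mono' ((integrable_const (1 : ℝ)).mul_prod
    (((hg.const_mul C).div_const (m ^ k)).mul_const (Real.exp (-(m * 1) / 2)))) hc.aestronglyMeasurable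
    (Eventually.of_forall fun p => ?_)
  rw [one_mul]
  exact hb p.2 m hm 1 (by norm_num) _ _ (adm_re h.self_of_nhds p.1)

theorem Good.intv {F : ℂ → ℂ → ℂ} (hF : Good F) {y : ℝ} (hy : 0 < y) :
    IntervalIntegrable (fun x : ℝ => F x y) volume 0 1 :=
  (hF.cont.comp_continuous (f := fun x : ℝ => ((x : ℂ), (y : ℂ))) (by fun_prop) (om_re hy)).intervalIntegrable _ _

theorem vb (hV : St_VB2) : ∃ (C : ℝ) (k : ℕ), 0 ≤ C ∧ ∀ m ∈ Ioc (0 : ℝ) 1, ∀ h : ℝ, 1 / 2 ≤ h → ∀ x y s : ℂ,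
    Adm m h x y → |s.re - 1 / 2| ≤ 1 →
      ‖Vf x y s‖ ≤ C / m ^ k * Real.exp (-(m * h)) * Real.exp (-(m ^ 2 / 4 * |s.im|)) := by
  obtain ⟨C, k, H⟩ := hV.2.2.2.1 1
  refine ⟨|C| * 3 ^ k, k, by positivity, fun m hm h hh x y s a b => (H m hm h (by linarith) x y s a b).trans ?_⟩
  have h0 : 0 < h := by linarith
  have h1 : 1 + 1 / h ≤ 3 := by
    have : 1 / h ≤ 2 := by rw [div_le_iff₀ h0]; linarith
    linarith
  have h2 := hm.1
  rw [mul_assoc, ← Real.exp_add, show -(m * h) + -(m ^ 2 / 4 * |s.im|) = -(m * h) - m ^ 2 * |s.im| / 4 by ring]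
  gcongr
  exact le_abs_self C

theorem half {m h : ℝ} (hm : m ∈ Ioc (0 : ℝ) 1) (hh : 1 / 2 ≤ h) (a : ℝ) :
    Real.exp (-(m * h)) * Real.exp (-(m ^ 2 / 4 * |a|)) ≤ Real.exp (-(m * h) / 2) := by
  rw [← Real.exp_add, Real.exp_le_exp]
  have := mul_pos hm.1 (by linarith : 0 < h)
  have : 0 ≤ m ^ 2 / 4 * |a| := by positivity
  linarith

theorem v_cont (hV : St_VB2) {σ : ℝ → ℂ} (hσ : Continuous σ) :
    ContinuousOn (fun p : (ℂ × ℂ) × ℝ => Vf p.1.1 p.1.2 (σ p.2)) (Om ×ˢ univ) :=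
  hV.2.1.comp (f := fun p : (ℂ × ℂ) × ℝ => (p.1.1, p.1.2, σ p.2)) (by fun_prop) fun _ hp => hp.1

theorem v_an (hV : St_VB2) (w s : ℂ) : CurveAn (fun x y => w * Vf x y s) Om := fun U X Y a b c d =>
  (hV.2.2.1 U X Y (fun _ => s) a b c (differentiableOn_const s) d).const_mul w

theorem v_bd (hV : St_VB2) : ∃ (C : ℝ) (k : ℕ), 0 ≤ C ∧ ∀ s : ℂ, |s.re - 1 / 2| ≤ 1 → Bd (fun x y => Vf x y s) C k := by
  obtain ⟨C, k, hC, H⟩ := vb hV
  refine ⟨C, k, hC, fun s hs m hm h hh x y a => (H m hm h hh x y s a hs).trans ?_⟩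
  have := hm.1
  rw [mul_assoc]
  exact mul_le_mul_of_nonneg_left (half hm hh _) (by positivity)

theorem v_cont0 (hV : St_VB2) : ContinuousOn (fun p : ℂ × ℂ => Vf p.1 p.2 (1 / 2)) Om :=
  hV.2.1.comp (f := fun p : ℂ × ℂ => (p.1, p.2, (1 / 2 : ℂ))) (by fun_prop) fun _ hp => hp

theorem v_good (hV : St_VB2) : Good fun x y => Vf x y (1 / 2) := by
  obtain ⟨C, k, hC, H⟩ := v_bd hV
  exact ⟨v_cont0 hV, by simpa only [one_mul] using v_an hV 1 (1 / 2), C, k, hC, H _ (by norm_num)⟩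

theorem slit {p : ℂ × ℂ} (hp : p ∈ Om) : p.2 ∈ slitPlane := Or.inl ((abs_nonneg _).trans_lt hp)

theorem cc_diff {y : ℂ} (hy : y ∈ slitPlane) : DifferentiableAt ℂ Cc y :=
  (differentiableAt_id.cpow_const hy).mul ((differentiableAt_log hy).add_const c0)

theorem cc_le {y : ℂ} (hy : y ≠ 0) : ‖Cc y‖ ≤ (2 + π + ‖c0‖) * (1 + ‖y‖) := by
  have h0 : 0 < ‖y‖ := norm_pos_iff.2 hy
  have h1 : ‖y ^ (1 / 2 : ℂ)‖ = √‖y‖ := by
    rw [show (1 / 2 : ℂ) = ((1 / 2 : ℝ) : ℂ) by push_cast; rfl, norm_cpow_real, Real.sqrt_eq_rpow]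
  have h2 : ‖log y‖ ≤ |Real.log ‖y‖| + π := by
    refine (norm_le_abs_re_add_abs_im _).trans ?_
    rw [log_re, log_im]
    linarith [abs_arg_le_pi y]
  obtain ⟨r, hr, e⟩ : ∃ r : ℝ, 0 < r ∧ ‖y‖ = r ^ 2 := ⟨√‖y‖, Real.sqrt_pos.2 h0, (Real.sq_sqrt h0.le).symm⟩
  have h3 : r * |Real.log r| ≤ 1 + r ^ 2 := by
    rcases le_total r 1 with h | h
    · have := Real.abs_log_mul_self_lt r hr h
      rw [abs_mul, abs_of_pos hr] at this
      nlinarith
    · rw [abs_of_nonneg (Real.log_nonneg h)]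
      nlinarith [Real.log_le_sub_one_of_pos hr]
  rw [Cc, norm_mul, h1]
  rw [e, Real.log_pow, abs_mul, Nat.cast_ofNat, abs_two] at h2
  rw [e, Real.sqrt_sq hr.le]
  have h4 : r ≤ 1 + r ^ 2 := by nlinarith
  have h5 := mul_le_mul_of_nonneg_left ((norm_add_le (log y) c0).trans (add_le_add_left h2 _)) hr.le
  have h6 := mul_le_mul_of_nonneg_right h4 (add_nonneg Real.pi_pos.le (norm_nonneg c0))
  linarith

theorem a_good (hV : St_VB2) : Good fun x y => 2 * Cc y * Vf x y (1 / 2) := by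
  refine ⟨(continuousOn_const.mul fun p hp => ?_).mul (v_cont0 hV), fun U X Y a b c d =>
    (DifferentiableOn.const_mul (fun z hz => ?_) 2).mul ((v_good hV).an U X Y a b c d), ?_⟩
  · exact ((cc_diff (slit hp)).continuousAt.comp continuousAt_snd).continuousWithinAt
  · exact (cc_diff (slit (d z hz))).comp_differentiableWithinAt z (c z hz)
  obtain ⟨C, k, hC, H⟩ := vb hV
  refine ⟨4 * (2 + π + ‖c0‖) * C, k + 2, by positivity, fun m hm h hh x y a => ?_⟩
  have h0 := hm.1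
  have h1 : 0 < m * h := mul_pos h0 (by linarith)
  have hy : y ≠ 0 := by
    rintro rfl
    have := a.2
    rw [zero_re] at this
    linarith [abs_nonneg x.im]
  have h2 := H m hm h hh x y (1 / 2) a (by norm_num)
  have h3 : 1 + ‖y‖ ≤ 2 * Real.exp (m * h / 2) / m ^ 2 := by
    have b1 := a.1
    rw [le_div_iff₀ h0] at b1
    have b2 := Real.add_one_le_exp (m * h / 2)
    have b3 : m ^ 2 ≤ 1 := pow_le_one₀ h0.le hm.2
    rw [le_div_iff₀ (by positivity)]
    nlinarith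
  have h4 := (cc_le hy).trans (mul_le_mul_of_nonneg_left h3 (by positivity))
  rw [show (1 / 2 : ℂ).im = 0 by norm_num, abs_zero, mul_zero, neg_zero, Real.exp_zero, mul_one] at h2
  rw [norm_mul, norm_mul, Complex.norm_two]
  refine (mul_le_mul (mul_le_mul_of_nonneg_left h4 zero_le_two) h2 (norm_nonneg _) (by positivity)).trans
    (le_of_eq ?_)
  rw [show -(m * h) / 2 = m * h / 2 + -(m * h) by ring, Real.exp_add]
  field_simp
  ring

theorem d_fam (hV : St_VB2) : Fam (volume.restrict (Ioc (0 : ℝ) 1)) fun t _ y => Vf t y (1 / 2) ^ 2 := by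
  obtain ⟨C, k, -, H⟩ := (v_good hV).sq.bd
  refine ⟨ContinuousOn.pow ?_ 2, fun t U X Y a b c d => DifferentiableOn.pow ?_ 2, |C|, k, fun _ => 1, abs_nonneg _,
    integrable_const _, fun _ => zero_le_one, fun t m hm h hh x y a => (H m hm h hh t y (adm_re a t)).trans ?_⟩
  · refine (v_cont0 hV).comp (f := fun p : (ℂ × ℂ) × ℝ => ((p.2 : ℂ), p.1.2)) (by fun_prop) fun p hp => ?_
    simpa [Om] using (abs_nonneg _).trans_lt hp.1
  · refine (v_good hV).an U (fun _ => t) Y a (differentiableOn_const _) c fun z hz => ?_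
    simpa [Om] using (abs_nonneg _).trans_lt (d z hz)
  · have := hm.1
    rw [mul_one]
    gcongr
    exact le_abs_self C

theorem e_fam (h3 : St_ZB3) (hV : St_VB2) : Fam (volume.restrict (Ioc (0 : ℝ) (2 * π))) fun t x y =>
    deriv (circleMap 1 dl) t * coef (circleMap 1 dl t) * Vf x y (circleMap 1 dl t) := by
  have hs := fun t => circleMap_mem_sphere (1 : ℂ) dl_pos.le t
  have hc : Continuous fun t => deriv (circleMap 1 dl) t * coef (circleMap 1 dl t) := by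
    refine Continuous.mul ?_ (h3.2.2.2.1.comp_continuous (continuous_circleMap _ _) hs)
    rw [show deriv (circleMap 1 dl) = fun t => circleMap 0 dl t * I from funext (deriv_circleMap _ _)]
    exact (continuous_circleMap _ _).mul continuous_const
  obtain ⟨C, k, hC, H⟩ := v_bd hV
  refine ⟨(hc.comp continuous_snd).continuousOn.mul (v_cont hV (continuous_circleMap _ _)), fun t => v_an hV _ _,
    C, k, _, hC, (hc.norm.integrableOn_Icc.mono_set Ioc_subset_Icc_self), fun _ => norm_nonneg _,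
    fun t m hm h hh x y a => ?_⟩
  have h1 := (abs_re_le_norm _).trans ((mem_sphere_iff_norm.1 (hs t)).le.trans dl_le)
  rw [sub_re, one_re, abs_le] at h1
  rw [norm_mul _ (Vf _ _ _), mul_comm C, mul_div_assoc, mul_assoc]
  exact mul_le_mul_of_nonneg_left (H _ (abs_le.2 ⟨by linarith [h1.1], by linarith [h1.2]⟩) m hm h hh x y a)
    (norm_nonneg _)

theorem dec {a : ℝ} (ha : 0 < a) (ha1 : a ≤ 1) (t : ℝ) :
    (1 + |t|) ^ 3 * Real.exp (-(a * |t|)) ≤ 360 / a ^ 5 * (1 + t ^ 2)⁻¹ := by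
  have h0 := abs_nonneg t
  have h1 := Real.pow_div_factorial_le_exp (a * (1 + |t|)) (by positivity) 5
  have h2 : Real.exp a ≤ 3 := (Real.exp_le_exp.2 ha1).trans (Real.exp_one_lt_d9.le.trans (by norm_num))
  have h3 : 1 + t ^ 2 ≤ (1 + |t|) ^ 2 := by nlinarith [sq_abs t]
  rw [mul_add, mul_one, Real.exp_add, ← mul_one_add, div_le_iff₀ (by positivity)] at h1
  have h4 := Real.exp_pos (a * |t|)
  rw [Real.exp_neg, ← div_eq_mul_inv, ← div_eq_mul_inv, div_div, div_le_div_iff₀ h4 (by positivity)]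
  calc _ ≤ (1 + |t|) ^ 3 * (a ^ 5 * (1 + |t|) ^ 2) := by gcongr
    _ = (a * (1 + |t|)) ^ 5 := by ring
    _ ≤ _ := h1.trans ?_
  norm_num [Nat.factorial]
  nlinarith

theorem g_fam (h3 : St_ZB3) (hV : St_VB2) : Fam volume fun t x y => coef (sk t) * Vf x y (sk t) := by
  obtain ⟨C, k, hC, H⟩ := vb hV
  obtain ⟨K, hK⟩ := h3.2.2.2.2.2.1
  refine ⟨(h3.2.2.2.2.1.comp continuous_snd).continuousOn.mul (v_cont hV (by unfold sk; fun_prop)),
    fun t => v_an hV _ _, |K| * C * (360 * 4 ^ 5), k + 10, _, by positivity, integrable_inv_one_add_sq,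
    fun _ => by positivity, fun t m hm h hh x y a => ?_⟩
  have h0 := hm.1
  have h1 := H m hm h hh x y (sk t) a (by simp [sk])
  have h2 := dec (a := m ^ 2 / 4) (by positivity) (by linarith [pow_le_one₀ (n := 2) h0.le hm.2]) t
  have h4 : Real.exp (-(m * h)) ≤ Real.exp (-(m * h) / 2) :=
    Real.exp_le_exp.2 (by linarith [mul_pos h0 (by linarith : 0 < h)])
  rw [show (sk t).im = t by simp [sk]] at h1
  rw [norm_mul]
  calc _ ≤ |K| * (1 + |t|) ^ 3 * (C / m ^ k * Real.exp (-(m * h)) * Real.exp (-(m ^ 2 / 4 * |t|))) :=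
        mul_le_mul ((hK t).trans (by gcongr; exact le_abs_self K)) h1 (norm_nonneg _) (by positivity)
    _ = |K| * (C / m ^ k) * Real.exp (-(m * h)) * ((1 + |t|) ^ 3 * Real.exp (-(m ^ 2 / 4 * |t|))) := by ring
    _ ≤ |K| * (C / m ^ k) * Real.exp (-(m * h) / 2) * (360 / (m ^ 2 / 4) ^ 5 * (1 + t ^ 2)⁻¹) := by gcongr
    _ = _ := by rw [pow_add]; field_simp

end FC1

open FC1 in
theorem t_fc1 : T_FC1 := by
  intro hP h3 hV
  have eD : ∀ y, Dd y = ∫ t in Ioc (0 : ℝ) 1, Vf t y (1 / 2) ^ 2 := fun y =>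
    intervalIntegral.integral_of_le zero_le_one
  have eE : ∀ x y, (∮ s in C(1, dl), coef s * Vf x y s) = ∫ t in Ioc (0 : ℝ) (2 * π),
      deriv (circleMap 1 dl) t * coef (circleMap 1 dl t) * Vf x y (circleMap 1 dl t) := fun x y => by
    simp only [circleIntegral, smul_eq_mul, mul_assoc]
    exact intervalIntegral.integral_of_le (by positivity)
  have gA := a_good hV
  have gB := (v_good hV).sq
  have gD := (d_fam hV).good hP
  have gE := ((e_fam h3 hV).good hP).cmul (2 * π * I : ℂ)⁻¹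
  have gG := ((g_fam h3 hV).good hP).cmul (1 / (4 * π) : ℂ)
  have hG : Good Ft := by
    have := (((gA.add gB).sub gD).sub gE).sub gG
    simp only [← eD, ← eE] at this
    exact this
  obtain ⟨C, k, -, hb⟩ := hG.bd
  refine ⟨hG.cont, hG.an, ⟨C, k, hb⟩, fun x y => by simp only [Ft, (hV.2.2.2.2.1 x y _).1], fun y hy => ?_, ?_⟩
  · have h0 : ∀ w s : ℂ, ∫ x in (0 : ℝ)..1, w * Vf x y s = 0 := fun w s => by
      rw [intervalIntegral.integral_const_mul, hV.2.2.2.2.2 y s (by simpa using hy), mul_zero]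
    simp only [Ft, eD, eE]
    rw [intervalIntegral.integral_sub ((((gA.add gB).sub gD).sub gE).intv hy) (gG.intv hy),
      intervalIntegral.integral_sub (((gA.add gB).sub gD).intv hy) (gE.intv hy),
      intervalIntegral.integral_sub ((gA.add gB).intv hy) (gD.intv hy),
      intervalIntegral.integral_add (gA.intv hy) (gB.intv hy), h0, intervalIntegral.integral_const_mul,
      intervalIntegral.integral_const_mul, (e_fam h3 hV).zero hy fun _ => h0 _ _,
      (g_fam h3 hV).zero hy fun _ => h0 _ _, intervalIntegral.integral_const,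
      intervalIntegral.integral_of_le zero_le_one]
    simp
  · exact hG.cont.comp_continuous (f := fun z : UpperHalfPlane => ((z.re : ℂ), (z.im : ℂ)))
      ((continuous_ofReal.comp UpperHalfPlane.continuous_re).prodMk
        (continuous_ofReal.comp UpperHalfPlane.continuous_im)) fun z => om_re z.im_pos _

end

end Pool.Agent.Lib.E2
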