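import Pool.Agent.Lib.E2.Blue

namespace Pool.Agent.Lib.E2

noncomputable section

open Complex MeasureTheory Set Filter Topology
open scoped Real UpperHalfPlane MatrixGroups Modular

theorem fc2_adm (z : ℍ) : Adm 1 z.im (z.re : ℂ) (z.im : ℂ) := by
  constructor
  · simp [abs_of_pos z.im_pos]
  · simp

theorem fc2_int (C : ℝ) :
    Integrable fun t : ℝ => C * ((1 + |t|) ^ 3 * Real.exp (-(|t| / 4))) := by
  refine Integrable.const_mul ?_ C
  have h : Integrable fun t : ℝ => (1 + ‖t‖) ^ (-(2 : ℝ)) :=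
    integrable_one_add_norm (by simp)
  refine (h.const_mul (120 * 4 ^ 5 * Real.exp (1 / 4))).mono' (by fun_prop) ?_
  refine Eventually.of_forall fun t => ?_
  have h0 : 0 < 1 + |t| := by positivity
  have h1 : ((1 + |t|) / 4) ^ 5 / (Nat.factorial 5 : ℝ) ≤ Real.exp ((1 + |t|) / 4) :=
    Real.pow_div_factorial_le_exp _ (by positivity) 5
  have h2 : Real.exp ((1 + |t|) / 4) * Real.exp (-(|t| / 4)) = Real.exp (1 / 4) := by
    rw [← Real.exp_add]; congr 1; ring
  have h3 := Real.exp_pos (-(|t| / 4))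
  rw [Real.norm_of_nonneg (by positivity), Real.norm_eq_abs, Real.rpow_neg h0.le, ← h2,
    Real.rpow_two, ← div_eq_mul_inv, le_div_iff₀ (by positivity)]
  have h4 : (Nat.factorial 5 : ℝ) = 120 := by norm_num [Nat.factorial]
  rw [h4, div_pow, div_div, div_le_iff₀ (by positivity)] at h1
  calc (1 + |t|) ^ 3 * Real.exp (-(|t| / 4)) * (1 + |t|) ^ 2
      = (1 + |t|) ^ 5 * Real.exp (-(|t| / 4)) := by ring
    _ ≤ Real.exp ((1 + |t|) / 4) * (4 ^ 5 * 120) * Real.exp (-(|t| / 4)) := by gcongr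
    _ = _ := by ring

theorem fc2_cont (hV : St_VB2) (z : ℍ) : Continuous fun s : ℂ => Vf z.re z.im s := by
  have h := hV.2.1.comp_continuous
    (f := fun s : ℂ => (((z.re : ℂ), (z.im : ℂ), s) : ℂ × ℂ × ℂ)) (by fun_prop)
    (fun s => by simpa using z.im_pos)
  exact h

theorem fc2_eq (hZ : St_ZB3) (hV : St_VB2) (hC : St_CONST) (z : ℍ) :
    Fc z = E0 z ^ 2 - (2 * π * I : ℂ)⁻¹ * (∮ s in C(1, dl), coef s * Es z s) -
      (1 / (4 * π) : ℂ) * ∫ t : ℝ, coef (sk t) * Es z (sk t) := by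
  obtain ⟨-, -, h1, h2, h3⟩ := hC z.im z.im_pos
  have hc := fc2_cont hV z
  have a1 : CircleIntegrable (fun s => coef s * Vf z.re z.im s) 1 dl :=
    ContinuousOn.circleIntegrable dl_pos.le (hZ.2.2.2.1.mul hc.continuousOn)
  have a2 : Integrable fun t : ℝ => coef (sk t) * Vf z.re z.im (sk t) := by
    obtain ⟨C, hC⟩ := hZ.2.2.2.2.2.1
    obtain ⟨C', k, hC'⟩ := hV.2.2.2.1 0
    have hs : Continuous sk := by unfold sk; fun_prop
    refine (fc2_int (C * (C' * (1 + 1 / z.im) ^ k / 1 ^ k * Real.exp (-(1 * z.im))))).mono'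
      (hZ.2.2.2.2.1.mul (hc.comp hs)).aestronglyMeasurable (Eventually.of_forall fun t => ?_)
    have b1 := hC' 1 ⟨one_pos, le_rfl⟩ z.im z.im_pos z.re z.im (sk t) (fc2_adm z) (by simp [sk])
    have b2 : (sk t).im = t := by simp [sk]
    rw [b2, Real.exp_sub, div_eq_mul_inv (Real.exp _), ← Real.exp_neg, one_pow 2, one_mul |t|]
      at b1
    rw [norm_mul]
    refine (mul_le_mul (hC t) b1 (norm_nonneg _) ((norm_nonneg _).trans (hC t))).trans_eq ?_
    ring
  have e1 : (∮ s in C(1, dl), coef s * Es z s) = (∮ s in C(1, dl), coef s * Ct z.im s) +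
      ∮ s in C(1, dl), coef s * Vf z.re z.im s := by
    rw [← circleIntegral.integral_add h1 a1]
    congr 1
    funext s
    simp only [Es, Ct]
    ring
  have e2 : ∫ t : ℝ, coef (sk t) * Es z (sk t) = (∫ t : ℝ, coef (sk t) * Ct z.im (sk t)) +
      ∫ t : ℝ, coef (sk t) * Vf z.re z.im (sk t) := by
    rw [← integral_add h2 a2]
    congr 1
    funext s
    simp only [Es, Ct]
    ring
  rw [e1, e2, Fc, Ft, E0]
  linear_combination (-1 : ℂ) * h3

theorem fc2_inv (hZ : St_ZB3) (hV : St_VB2) (hE : St_EIS2) (hC : St_CONST) : Inv Fc := by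
  intro g z
  rw [fc2_eq hZ hV hC, fc2_eq hZ hV hC, hE.2.1 g z]
  congr 2
  · congr 1
    refine circleIntegral.integral_congr dl_pos.le fun s hs => ?_
    have h1 : ‖s - 1‖ = dl := by simpa [dist_eq_norm] using hs
    have h2 := dl_pos
    have h3 := dl_le
    have h4 := hE.1 s ?_ ?_ ?_ g z
    · simp only at h4 ⊢
      rw [h4]
    · rintro rfl
      rw [zero_sub, norm_neg, norm_one] at h1
      linarith
    · rintro rfl
      have : ‖(1 / 2 : ℂ) - 1‖ = 1 / 2 := by norm_num
      linarith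
    · rintro rfl
      rw [sub_self, norm_zero] at h1
      linarith
  · refine integral_congr_ae ?_
    filter_upwards [(countable_singleton (0 : ℝ)).ae_notMem volume] with t ht
    have h4 := hE.1 (sk t) ?_ ?_ ?_ g z
    · simp only at h4 ⊢
      rw [h4]
    · intro h
      have := congrArg re h
      simp [sk] at this
    · intro h
      have := congrArg im h
      simp [sk] at this
      exact ht this
    · intro h
      have := congrArg re h
      simp [sk] at this

theorem t_fc2 : T_FC2 := by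
  intro hZ hV hE hC hF hU
  have hI := fc2_inv hZ hV hE hC
  obtain ⟨-, -, ⟨C, k, hb⟩, -, h0, hc⟩ := hF
  have hB : ∀ z, ‖Fc z‖ ≤ |C| := by
    intro z
    obtain ⟨g, hg⟩ := ModularGroup.exists_smul_mem_fd z
    rw [← hI g z]
    generalize g • z = w at hg
    have h1 := ModularGroup.three_le_four_mul_im_sq_of_mem_fd hg
    have h2 := w.im_pos
    have h3 : 1 / 2 ≤ w.im := by nlinarith
    refine (hb 1 ⟨one_pos, le_rfl⟩ w.im h3 _ _ (fc2_adm w)).trans ?_
    have h4 : Real.exp (-(1 * w.im) / 2) ≤ 1 := Real.exp_le_one_iff.2 (by linarith)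
    rw [one_pow, div_one]
    calc C * Real.exp (-(1 * w.im) / 2) ≤ |C| * Real.exp (-(1 * w.im) / 2) := by
          gcongr; exact le_abs_self C
      _ ≤ |C| * 1 := by gcongr
      _ = _ := mul_one _
  have hfin : IsFiniteMeasure muD := hU.2.2.2.2.2.2.2.2.2.1
  refine ⟨⟨⟨hc.measurable, hI, MemLp.of_bound hc.aestronglyMeasurable _
    (Eventually.of_forall hB)⟩, fun _ u _ => ?_⟩, _, hB⟩
  by_cases hi : IntegrableOn (fun w : ℍ => u w.im * Fc w) strip
  · rw [hU.2.2.2.2.2.2.2.1 _ hi]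
    refine setIntegral_eq_zero_of_forall_eq_zero fun y hy => ?_
    have h1 : ∀ x : ℝ, u (pt x y).im * Fc (pt x y) = u y * Ft x y := by
      intro x
      rw [Fc, (hU.1 x y hy).1, (hU.1 x y hy).2]
    simp only [h1]
    rw [intervalIntegral.integral_const_mul, h0 y hy, mul_zero, mul_zero]
  · exact integral_undef hi

end

end Pool.Agent.Lib.E2
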