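import Pool.Agent.Lib.E2.Blue

namespace Pool.Agent.Lib.E2

open Complex MeasureTheory Set Filter Topology
open scoped Real

theorem fin_reg {x : ℝ} (hx : 1 ≤ x) : Reg 1 x := by
  refine ⟨by simpa using hx, by simp, ?_⟩
  have := Real.pi_gt_three
  simp only [ofReal_im]; linarith

theorem fin_th (x : ℝ) : th x = ((Real.sinh x)⁻¹ : ℝ) := by simp [th]

theorem fin_poly {Q : Polynomial ℂ} (h : Tendsto (fun x : ℝ => ‖Q.eval (x : ℂ)‖) atTop (𝓝 0)) :
    Q = 0 := by
  rcases le_or_gt Q.degree 0 with hd | hd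
  · rw [Polynomial.eq_C_of_degree_le_zero hd] at h ⊢
    simp only [Polynomial.eval_C] at h
    rw [norm_eq_zero.1 (tendsto_nhds_unique tendsto_const_nhds h), map_zero]
  · have h2 : Tendsto (fun x : ℝ => ‖(x : ℂ)‖) atTop atTop := by
      simpa using tendsto_abs_atTop_atTop
    exact absurd h (not_tendsto_nhds_of_tendsto_atTop (Polynomial.tendsto_norm_atTop Q hd h2) 0)

theorem fin_exp {c : ℝ} (hc : 0 < c) : Tendsto (fun x : ℝ => Real.exp (-c * x)) atTop (𝓝 0) := by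
  refine Real.tendsto_exp_atBot.comp ?_
  exact tendsto_id.const_mul_atTop_of_neg (by linarith)

theorem fin_sinh : Tendsto (fun x : ℝ => (Real.sinh x)⁻¹) atTop (𝓝[>] 0) := by
  refine tendsto_inv_atTop_nhdsGT_zero.comp ?_
  refine tendsto_atTop_mono' _ ?_ tendsto_id
  filter_upwards [eventually_ge_atTop 0] with x hx
  exact Real.self_le_sinh_iff.2 hx

/-- the polynomial part vanishes, and the real axis bound for `ET` -/
theorem fin_zero {P : Polynomial ℝ} {Q : Polynomial ℂ} {C0 C1 : ℝ}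
    (h0 : ∀ r : ℝ, 0 ≤ r → ‖RR r‖ ≤ C0 * Real.exp (-r / 2))
    (h1 : ∀ r : ℝ, 1 ≤ r → ‖RR r + ET P (th r) / π - Q.eval (r : ℂ)‖ ≤
      C1 * Real.exp (-(3 / 5) * r))
    (h2 : Tendsto (fun x : ℝ => ET P x) (𝓝[>] 0) (𝓝 0)) : Q = 0 := by
  apply fin_poly
  have a1 : Tendsto (fun x : ℝ => C0 * Real.exp (-(1 / 2) * x)) atTop (𝓝 0) := by
    simpa using (fin_exp (c := 1 / 2) (by norm_num)).const_mul C0
  have a2 : Tendsto (fun x : ℝ => C1 * Real.exp (-(3 / 5) * x)) atTop (𝓝 0) := by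
    simpa using (fin_exp (c := 3 / 5) (by norm_num)).const_mul C1
  have a3 : Tendsto (fun x : ℝ => ‖ET P (th x) / π‖) atTop (𝓝 0) := by
    have := ((h2.comp fin_sinh).div_const (π : ℂ)).norm
    simp only [zero_div, norm_zero] at this
    refine this.congr fun x => ?_
    simp only [Function.comp, fin_th]
  have a4 := (a1.add a3).add a2
  simp only [add_zero] at a4
  refine squeeze_zero' (Eventually.of_forall fun x => norm_nonneg _) ?_ a4
  filter_upwards [eventually_ge_atTop 1] with x hx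
  have e : Q.eval (x : ℂ) = RR x + ET P (th x) / π - (RR x + ET P (th x) / π - Q.eval (x : ℂ)) := by
    ring
  have b0 := h0 x (by linarith)
  rw [show -x / 2 = -(1 / 2) * x by ring] at b0
  rw [e]
  refine (norm_sub_le _ _).trans (add_le_add ((norm_add_le _ _).trans ?_) (h1 x hx))
  linarith

theorem fin_real {P : Polynomial ℝ} {C0 C1 : ℝ} (hTH : St_TH)
    (h0 : ∀ r : ℝ, 0 ≤ r → ‖RR r‖ ≤ C0 * Real.exp (-r / 2))
    (h1 : ∀ r : ℝ, 1 ≤ r → ‖RR r + ET P (th r) / π‖ ≤ C1 * Real.exp (-(3 / 5) * r)) :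
    ∃ C x0 : ℝ, 0 < x0 ∧ ∀ x : ℝ, 0 < x → x ≤ x0 → ‖ET P x‖ ≤ C * √x := by
  have hs : 0 < Real.sinh 1 := Real.sinh_pos_iff.2 one_pos
  refine ⟨π * (|C0| + |C1|), (Real.sinh 1)⁻¹, by positivity, fun x hx hx0 => ?_⟩
  set r := Real.arsinh x⁻¹ with hr
  have hr1 : 1 ≤ r := by
    rw [hr, ← Real.arsinh_sinh 1, Real.arsinh_le_arsinh]
    exact (le_inv_comm₀ hx hs).1 hx0
  have ht : th r = x := by rw [fin_th, hr, Real.sinh_arsinh, inv_inv]
  have h3 := (hTH 1 ⟨one_pos, le_rfl⟩ r (fin_reg hr1)).2.2.2.2.1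
  rw [ht, norm_real, Real.norm_of_nonneg hx.le, ofReal_re] at h3
  have h4 : Real.exp (-r / 2) ≤ √x := by
    rw [Real.exp_half]
    exact Real.sqrt_le_sqrt h3
  have h5 : Real.exp (-(3 / 5) * r) ≤ √x :=
    (Real.exp_le_exp.2 (by linarith)).trans h4
  have a0 := h0 r (by linarith)
  have a1 := h1 r hr1
  rw [ht] at a1
  have e : ET P x = π * ((RR r + ET P x / π) - RR r) := by
    have : (π : ℂ) ≠ 0 := ofReal_ne_zero.2 Real.pi_ne_zero
    field_simp
    ring
  have b0 : C0 * Real.exp (-r / 2) ≤ |C0| * √x :=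
    mul_le_mul (le_abs_self _) h4 (Real.exp_pos _).le (abs_nonneg _)
  have b1 : C1 * Real.exp (-(3 / 5) * r) ≤ |C1| * √x :=
    mul_le_mul (le_abs_self _) h5 (Real.exp_pos _).le (abs_nonneg _)
  rw [e, norm_mul, norm_real, Real.norm_of_nonneg Real.pi_pos.le, mul_assoc]
  refine mul_le_mul_of_nonneg_left ((norm_sub_le _ _).trans ?_) Real.pi_pos.le
  linarith

theorem fin_small (C : ℝ) (k : ℕ) : ∃ K : ℝ, 0 ≤ K ∧ ∀ e d a : ℝ, 0 < e → e / 2 ≤ d → 1 / e ≤ a →
    C / d ^ k * Real.exp (-(3 / 5) * a) ≤ K * Real.exp (-a / 2) := by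
  refine ⟨|C| * (20 ^ k * k.factorial), by positivity, fun e d a he hd ha => ?_⟩
  have hd0 : 0 < d := by linarith
  have h1 : (1 / d) ^ k ≤ 20 ^ k * k.factorial * Real.exp (a / 10) := by
    have a0 : 0 ≤ a / 10 := by have := one_div_pos.2 he; linarith
    have h2 := Real.pow_div_factorial_le_exp (a / 10) a0 k
    have h3 : 1 / d ≤ 20 * (a / 10) := by
      have : 1 / d ≤ 1 / (e / 2) := one_div_le_one_div_of_le (by linarith) hd
      have e2 : 1 / (e / 2) = 2 * (1 / e) := by field_simp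
      linarith
    have hk : (0 : ℝ) < k.factorial := by positivity
    rw [div_le_iff₀ hk] at h2
    calc (1 / d) ^ k ≤ (20 * (a / 10)) ^ k := pow_le_pow_left₀ (by positivity) h3 k
      _ = 20 ^ k * (a / 10) ^ k := mul_pow _ _ _
      _ ≤ 20 ^ k * (Real.exp (a / 10) * k.factorial) := by gcongr
      _ = _ := by ring
  have h4 : Real.exp (a / 10) * Real.exp (-(3 / 5) * a) = Real.exp (-a / 2) := by
    rw [← Real.exp_add]; congr 1; ring
  calc C / d ^ k * Real.exp (-(3 / 5) * a) = C * (1 / d) ^ k * Real.exp (-(3 / 5) * a) := by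
        rw [one_div, inv_pow, div_eq_mul_inv]
    _ ≤ |C| * (20 ^ k * k.factorial * Real.exp (a / 10)) * Real.exp (-(3 / 5) * a) := by
        gcongr
        exact le_abs_self C
    _ = _ := by rw [← h4]; ring

theorem fin_lll {T T1 : ℝ} (h : 16 ≤ T) (h1 : T ≤ T1) : lll T ≤ lll T1 := by
  have a : 1 < Real.log T := by
    rw [Real.lt_log_iff_exp_lt (by linarith)]
    have := Real.exp_one_lt_d9
    linarith
  exact Real.log_le_log (Real.log_pos a)
    (Real.log_le_log (by linarith) (Real.log_le_log (by linarith) h1))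

theorem fin_lll1 {e : ℝ} (n : ℕ) (he : 0 < e) (he1 : e ≤ 1) (hL : 1 ≤ Real.log (1 / e)) :
    0 ≤ lll (Real.exp (8 * Real.exp (1 / e ^ n))) ∧
      lll (Real.exp (8 * Real.exp (1 / e ^ n))) ≤ (n + 3) * Real.log (1 / e) := by
  have h1 : 1 ≤ 1 / e ^ n := by
    rw [le_div_iff₀ (by positivity), one_mul]
    exact pow_le_one₀ he.le he1
  have h8 : 0 ≤ Real.log 8 := Real.log_nonneg (by norm_num)
  have h9 : Real.log 8 ≤ 7 := by linarith [Real.log_le_sub_one_of_pos (show (0 : ℝ) < 8 by norm_num)]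
  have e1 : lll (Real.exp (8 * Real.exp (1 / e ^ n))) = Real.log (Real.log 8 + 1 / e ^ n) := by
    rw [lll, Real.log_exp, Real.log_mul (by norm_num) (Real.exp_ne_zero _), Real.log_exp]
  rw [e1]
  refine ⟨Real.log_nonneg (by linarith), ?_⟩
  have h2 : Real.log (Real.log 8 + 1 / e ^ n) ≤ Real.log (8 * (1 / e) ^ n) := by
    refine Real.log_le_log (by linarith) ?_
    rw [one_div_pow]
    linarith
  rw [Real.log_mul (by norm_num) (by positivity), Real.log_pow] at h2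
  have h3 : Real.log 8 ≤ 3 := by
    rw [show (8 : ℝ) = 2 ^ 3 by norm_num, Real.log_pow]
    have := Real.log_two_lt_d9
    push_cast
    linarith
  nlinarith

theorem fin_block {P : Polynomial ℝ} {u C T T0 : ℝ} (hu : u = 1 ∨ u = -1)
    (h : ∀ t : ℝ, 1 ≤ t → |err P t| ≤ C * t) (hT : 1 ≤ T) (hT0 : T ≤ T0) :
    ∫ t in T..2 * T, max (u * err P t) 0 ≤ 2 * |C| * T0 ^ 2 := by
  have h1 : ‖∫ t in T..2 * T, max (u * err P t) 0‖ ≤ (|C| * (2 * T0)) * |2 * T - T| := by
    refine intervalIntegral.norm_integral_le_of_norm_le_const fun t ht => ?_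
    rw [uIoc_of_le (by linarith)] at ht
    have a := h t (by linarith [ht.1])
    have b : |u * err P t| = |err P t| := by rcases hu with rfl | rfl <;> simp
    have c : C * t ≤ |C| * (2 * T0) :=
      mul_le_mul (le_abs_self _) (by linarith [ht.2]) (by linarith [ht.1]) (abs_nonneg _)
    rw [Real.norm_of_nonneg (le_max_right _ _)]
    refine max_le ((le_abs_self _).trans ?_) (mul_nonneg (abs_nonneg _) (by linarith))
    linarith
  rw [abs_of_nonneg (show 0 ≤ 2 * T - T by linarith)] at h1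
  refine ((le_abs_self _).trans h1).trans ?_
  have := abs_nonneg C
  have : |C| * T0 * T ≤ |C| * T0 * T0 :=
    mul_le_mul_of_nonneg_left hT0 (mul_nonneg this (by linarith))
  linarith

theorem fin_exists {e0 e1 Y : ℝ} (h0 : 0 < e0) (h1 : 0 < e1) :
    ∃ e : ℝ, 0 < e ∧ e < e0 ∧ e < e1 ∧ e ≤ 1 / 48 ∧ 1 ≤ Real.log (1 / e) ∧
      Y < Real.log (1 / e) ^ 3 := by
  have a : Tendsto (fun e : ℝ => Real.log (1 / e)) (𝓝[>] 0) atTop := by
    simp only [one_div]
    exact Real.tendsto_log_atTop.comp tendsto_inv_nhdsGT_zero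
  have b : Tendsto (fun e : ℝ => Real.log (1 / e) ^ 3) (𝓝[>] 0) atTop :=
    (tendsto_pow_atTop (by norm_num)).comp a
  have c : ∀ᶠ e : ℝ in 𝓝[>] 0, 0 < e ∧ e < e0 ∧ e < e1 ∧ e ≤ 1 / 48 ∧ 1 ≤ Real.log (1 / e) ∧
      Y < Real.log (1 / e) ^ 3 := by
    filter_upwards [self_mem_nhdsWithin, Ioo_mem_nhdsGT h0, Ioo_mem_nhdsGT h1,
      Ioo_mem_nhdsGT (show (0 : ℝ) < 1 / 48 by norm_num), a.eventually_ge_atTop 1,
      b.eventually_gt_atTop Y] with e a1 a2 a3 a4 a5 a6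
    exact ⟨a1, a2.2, a3.2, a4.2.le, a5, a6⟩
  exact c.exists

theorem fin_tiny {e a : ℝ} (he : 0 < e) (h : e ≤ 1 / 48) (ha : 1 / e ≤ a) :
    3 * Real.exp (-a) ≤ e / 8 := by
  have h1 : 48 ≤ 1 / e := by rw [le_div_iff₀ he]; linarith
  have h2 := Real.quadratic_le_exp_of_nonneg (show 0 ≤ 1 / e by linarith)
  have h3 : 24 * (1 / e) ≤ Real.exp a := by
    have := Real.exp_le_exp.2 ha
    nlinarith
  rw [Real.exp_neg, ← div_eq_mul_inv, div_le_div_iff₀ (Real.exp_pos _) (by norm_num)]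
  have : e * (24 * (1 / e)) = 24 := by field_simp
  nlinarith

theorem t_fin : T_FIN := by
  intro hABS0 hABS3 hDY hZB3 hTH hWP hASY hS1 hS2 hTWO hGLUE P hP u hu
  have hM : Mom9 := hDY.1 P hP
  have hC : ContB := hZB3.2.2.2.2.2.2.2.2 hM
  obtain ⟨ι, k, B, hD, hG⟩ := hGLUE hM
  obtain ⟨C0, h0⟩ := (hABS0 ι k B hD hC).2.2.2.2.1
  obtain ⟨Q, C1, k1, h1⟩ := hASY hM P
  have hreal : ∀ r : ℝ, (r : ℂ) ∈ Str := fun r => by simp [Str, Real.pi_pos]
  have h0' : ∀ r : ℝ, 0 ≤ r → ‖RR r‖ ≤ C0 * Real.exp (-r / 2) := fun r hr => by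
    rw [← hG r (hreal r)]; exact h0 r hr
  have h1' : ∀ r : ℝ, 1 ≤ r → ‖RR r + ET P (th r) / π - Q.eval (r : ℂ)‖ ≤
      C1 * Real.exp (-(3 / 5) * r) := fun r hr => by
    simpa using h1 1 ⟨one_pos, le_rfl⟩ r (fin_reg hr)
  have hQ : Q = 0 := fin_zero h0' h1' ((hWP P).2 hP)
  subst hQ
  simp only [Polynomial.eval_zero, sub_zero] at h1 h1'
  obtain ⟨C2, h2⟩ := hTWO P u hP hu (fin_real hTH h0' h1')
  obtain ⟨C3, n, e0, he0, h3⟩ := hABS3 ι k B hD hC
  obtain ⟨C4, h4⟩ := hS1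
  obtain ⟨e1, he1, h5⟩ := hS2
  obtain ⟨C5, hC5, h6⟩ := fin_small C1 k1
  obtain ⟨C6, h7⟩ := (hDY.2.2.2.2 P).2.2.2 hP
  set K : ℝ := 4 * |C2| + C5 + 1 with hK
  have hK1 : 1 ≤ K := by have := abs_nonneg C2; linarith
  set D : ℝ := (|C3| + 1) * K with hDd
  have hD0 : 0 < D := by positivity
  by_contra hcon
  push Not at hcon
  obtain ⟨T0, hT0⟩ := hcon (1 / (2 * D * (n + 3) ^ 3)) (by positivity)
  set c : ℝ := 1 / (2 * D * (n + 3) ^ 3) with hc
  have hc0 : 0 < c := by positivity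
  set A0 : ℝ := 2 * |C6| * (max T0 16) ^ 2 + 1 with hA0
  have hA01 : 1 ≤ A0 := by have : 0 ≤ 2 * |C6| * (max T0 16) ^ 2 := by positivity
                           linarith
  obtain ⟨e, he, hee0, hee1, he48, hL, hY⟩ :=
    fin_exists (Y := 2 * (2 * C4 + D * A0)) he0 he1
  set L := Real.log (1 / e) with hLd
  set T1 := Real.exp (8 * Real.exp (1 / e ^ n)) with hT1
  obtain ⟨l0, l1⟩ := fin_lll1 n he (by linarith) hL
  rw [← hT1] at l0 l1
  set A : ℝ := A0 + c * lll T1 ^ 3 with hA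
  have hA1 : 1 ≤ A := by have : 0 ≤ c * lll T1 ^ 3 := by positivity
                         linarith
  have hT11 : 1 ≤ T1 := Real.one_le_exp (by positivity)
  have hblock : ∀ T : ℝ, 1 ≤ T → T ≤ T1 →
      ∫ t in T..2 * T, max (u * err P t) 0 ≤ A * T ^ (3 / 2 : ℝ) := by
    intro T hT hTT
    have p1 : 1 ≤ T ^ (3 / 2 : ℝ) := Real.one_le_rpow hT (by norm_num)
    rcases le_total T (max T0 16) with h | h
    · have q1 := fin_block hu h7 hT h
      have q2 : 0 ≤ c * lll T1 ^ 3 := by positivity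
      have q3 : A * 1 ≤ A * T ^ (3 / 2 : ℝ) := mul_le_mul_of_nonneg_left p1 (by linarith)
      linarith
    · have a := (hT0 T ((le_max_left _ _).trans h)).le
      have b : lll T ^ 3 ≤ lll T1 ^ 3 :=
        (Odd.pow_le_pow (by decide)).2 (fin_lll ((le_max_right _ _).trans h) hTT)
      have b' : c * T ^ (3 / 2 : ℝ) * lll T ^ 3 ≤ c * T ^ (3 / 2 : ℝ) * lll T1 ^ 3 :=
        mul_le_mul_of_nonneg_left b (by positivity)
      have b2 : 0 ≤ A0 * T ^ (3 / 2 : ℝ) := by positivity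
      rw [hA]
      linarith
  have hyp : ∀ r : ℂ, 1 / e ≤ r.re → r.re ≤ Real.exp (1 / e ^ n) → e / 2 ≤ π / 2 - r.im →
      π / 2 - r.im ≤ 1 → ‖Msum k B r‖ ≤ A * K * Real.exp (-r.re / 2) / √(π / 2 - r.im) := by
    intro r r1 r2 r3 r4
    set d := π / 2 - r.im with hd
    have hd0 : 0 < d := by linarith
    have e48 : 48 ≤ 1 / e := by rw [le_div_iff₀ he]; linarith
    have hreg : Reg d r := ⟨by linarith, by linarith [Real.pi_gt_three], by linarith⟩
    obtain ⟨t1, t2, t3, t4, t5, t6, -⟩ := hTH d ⟨hd0, r4⟩ r hreg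
    have t7 := fin_tiny he he48 r1
    have t8 : T1 ^ (-(1 / 8) : ℝ) ≤ ‖th r‖ := by
      rw [hT1, ← Real.exp_mul]
      exact (Real.exp_le_exp.2 (by linarith)).trans t5
    have a1 := h2 A T1 (d / 4) (th r) hA1 hT11 hblock (by linarith) (by linarith) t8
      (by linarith) t2
    have a2 := (h1 d ⟨hd0, r4⟩ r hreg).trans (h6 e d r.re he r3 r1)
    set X := Real.exp (-r.re / 2) with hX
    have hX0 : 0 < X := Real.exp_pos _
    have s0 : 0 < √d := Real.sqrt_pos.2 hd0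
    have s1 : √d ≤ 1 := Real.sqrt_le_one.2 r4
    have s2 : √(d / 4) = √d / 2 := by
      rw [Real.sqrt_div hd0.le, show (4 : ℝ) = 2 ^ 2 by norm_num, Real.sqrt_sq (by norm_num)]
    have s3 : √‖th r‖ ≤ 2 * X := by
      rw [Real.sqrt_le_left (by positivity), hX, Real.exp_half, mul_pow,
        Real.sq_sqrt (Real.exp_pos _).le]
      have := Real.exp_pos (-r.re)
      linarith
    have a3 : ‖ET P (th r)‖ ≤ 4 * |C2| * A * X / √d := by
      refine a1.trans ?_
      rw [s2, div_le_div_iff₀ (by positivity) s0]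
      have : C2 * A * √‖th r‖ ≤ |C2| * A * (2 * X) := by
        gcongr
        exact le_abs_self _
      have := mul_le_mul_of_nonneg_right this s0.le
      linarith
    have a4 : ‖ET P (th r) / π‖ ≤ ‖ET P (th r)‖ := by
      rw [norm_div, norm_real, Real.norm_of_nonneg Real.pi_pos.le]
      exact div_le_self (norm_nonneg _) (by linarith [Real.pi_gt_three])
    have a5 : C5 * X ≤ C5 * A * X / √d := by
      rw [le_div_iff₀ s0]
      have : C5 * X * √d ≤ C5 * X * A := by gcongr; linarith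
      linarith
    have a6 : A * K * X / √d = 4 * |C2| * A * X / √d + C5 * A * X / √d + A * X / √d := by
      rw [hK]; ring
    have a7 : 0 ≤ A * X / √d := by positivity
    rw [hG r t1, show RR r = (RR r + ET P (th r) / π) - ET P (th r) / π by ring]
    refine (norm_sub_le _ _).trans ?_
    linarith
  have b1 := h3 e ⟨he, hee0⟩ (A * K) (one_le_mul_of_one_le_of_one_le hA1 hK1) hyp
  have hrh : rh e ∈ Str := by
    have := Real.pi_gt_three
    simp only [Str, rh, mem_ofPred_eq, mul_im, I_re, ofReal_im, I_im, ofReal_re]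
    rw [abs_lt]; constructor <;> linarith
  rw [hG _ hrh] at b1
  obtain ⟨b2, b3⟩ := h4 e ⟨he, by linarith⟩
  have b4 := h5 e ⟨he, hee1⟩
  have b5 : ‖T2 (rh e)‖ ≤ ‖RR (rh e)‖ + ‖T3 (rh e)‖ + ‖FF (rh e)‖ := by
    rw [show T2 (rh e) = RR (rh e) + T3 (rh e) - FF (rh e) by rw [RR]; ring]
    exact (norm_sub_le _ _).trans (by linarith [norm_add_le (RR (rh e)) (T3 (rh e))])
  have b6 : L ^ 3 / e ≤ (C3 * (A * K) + 2 * C4) / e := by
    rw [add_div, mul_div_assoc 2]
    linarith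
  rw [div_le_div_iff_of_pos_right he] at b6
  have b7 : C3 * (A * K) ≤ D * A := by
    have : C3 * (A * K) ≤ (|C3| + 1) * (A * K) := by
      gcongr
      linarith [le_abs_self C3]
    rw [hDd]; linarith
  have b8 : lll T1 ^ 3 ≤ ((n + 3) * L) ^ 3 := pow_le_pow_left₀ l0 l1 3
  have b9 : D * (c * ((n + 3) * L) ^ 3) = L ^ 3 / 2 := by
    rw [hc]; field_simp
  have b10 : D * (c * lll T1 ^ 3) ≤ D * (c * ((n + 3) * L) ^ 3) := by gcongr
  have b11 : D * A = D * A0 + D * (c * lll T1 ^ 3) := by rw [hA]; ring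
  linarith

end Pool.Agent.Lib.E2
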