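import Pool.Agent.Lib.E2.Blue

/-! Block FWA: the Bessel approximation of the half kernels. -/

namespace Pool.Agent.Lib.E2

noncomputable section

open Complex MeasureTheory Set Filter Topology
open scoped Real

namespace FWA

theorem expb (n : ℕ) {d y c : ℝ} (h0 : 0 < d) (h1 : d ≤ 1) (hy : 0 ≤ y) (hc : n * (d * y) ≤ c) :
    (1 + y) ^ n * Real.exp (-c) ≤ (1 / d) ^ n := by
  have h2 : 1 + y ≤ 1 / d * Real.exp (d * y) := by
    rw [one_div, le_inv_mul_iff₀ h0]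
    nlinarith [Real.add_one_le_exp (d * y)]
  have h3 : (1 + y) ^ n ≤ (1 / d) ^ n * Real.exp c := by
    refine (pow_le_pow_left₀ (by positivity) h2 n).trans ?_
    rw [mul_pow, ← Real.exp_nat_mul]
    gcongr
  rwa [Real.exp_neg, ← div_eq_mul_inv, div_le_iff₀ (Real.exp_pos _)]

theorem root {a K X q : ℝ} (hK : 0 ≤ K) (hX : 0 < X) (hq : 0 ≤ q)
    (h : a ^ 8 * X ^ 9 ≤ K ^ 8 * q) : a ≤ K * (X ^ (-(9 / 8) : ℝ) * q ^ (1 / 8 : ℝ)) := by
  refine le_of_pow_le_pow_left₀ (n := 8) (by norm_num) (by positivity) ?_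
  rw [mul_pow, mul_pow, ← Real.rpow_natCast (X ^ _), ← Real.rpow_natCast (q ^ _),
    ← Real.rpow_mul hX.le, ← Real.rpow_mul hq]
  norm_num
  rw [show K ^ 8 * ((X ^ 9)⁻¹ * q) = K ^ 8 * q / X ^ 9 by ring, le_div_iff₀ (by positivity)]
  exact h

variable {e p t a : ℝ}

theorem cst (h0 : 0 < e) (h1 : e ≤ 1) {c : ℝ} {j : ℕ} (hc : c ≤ 10 ^ 16) (hj : j ≤ 40) :
    c * (1 / e) ^ j ≤ (100 / e ^ 5) ^ 8 := by
  have : (100 / e ^ 5) ^ 8 = 10 ^ 16 * (1 / e) ^ 40 := by field_simp; norm_num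
  rw [this]
  exact mul_le_mul hc (pow_le_pow_right₀ (one_le_one_div h0 h1) hj) (by positivity) (by positivity)

theorem realA (h0 : 0 < e) (h1 : e ≤ 1) (hp : 0 < p) (ht : 0 < t) (ha : 0 ≤ a) (hpe : p ≤ e / 4)
    (h : a ≤ 2 * p * (1 + t * p) * Real.exp (-(3 / 4 * e * (t * p)))) :
    a ^ 8 * (1 + (1 + t) * p) ^ 9 ≤ (100 / e ^ 5 * p) ^ 8 * ((1 + t) / t) := by
  have y0 : 0 < t * p := by positivity
  have b := expb 17 (d := e / 3) (y := t * p) (c := 8 * (3 / 4 * e * (t * p))) (by positivity)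
    (by linarith) y0.le (by push_cast; nlinarith [mul_pos h0 y0])
  have q : 1 ≤ (1 + t) / t := by rw [le_div_iff₀ ht]; linarith
  calc a ^ 8 * (1 + (1 + t) * p) ^ 9
      ≤ (2 * p * (1 + t * p) * Real.exp (-(3 / 4 * e * (t * p)))) ^ 8 * (2 * (1 + t * p)) ^ 9 := by
        gcongr
        nlinarith
    _ = 2 ^ 17 * ((1 + t * p) ^ 17 * Real.exp (-(8 * (3 / 4 * e * (t * p))))) * p ^ 8 := by
        rw [mul_pow, ← Real.exp_nat_mul]
        push_cast
        ring_nf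
    _ ≤ 2 ^ 17 * (1 / (e / 3)) ^ 17 * p ^ 8 := by gcongr
    _ = (2 ^ 17 * 3 ^ 17 * (1 / e) ^ 17) * p ^ 8 := by field_simp
    _ ≤ (100 / e ^ 5) ^ 8 * p ^ 8 := by
        gcongr
        exact cst h0 h1 (by norm_num) (by norm_num)
    _ ≤ _ := by rw [← mul_pow]; exact le_mul_of_one_le_right (by positivity) q

theorem Xle (h0 : 0 < e) (h1 : e ≤ 1) (hp : 0 < p) (ht : 0 < t) (hpe : e / 4 ≤ p) :
    1 + (1 + t) * p ≤ 5 / e * ((1 + t) * p) := by
  rw [div_mul_eq_mul_div, le_div_iff₀ h0]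
  nlinarith [mul_pos ht hp, mul_nonneg (sub_nonneg.2 h1) (mul_pos ht hp).le,
    mul_nonneg (sub_nonneg.2 h1) hp.le]

theorem realB (h0 : 0 < e) (h1 : e ≤ 1) (hp : 0 < p) (ht : 0 < t) (hpe : e / 4 ≤ p)
    (h : a ^ 2 ≤ (e * p)⁻¹ * Real.exp (-(2 / 5 * e ^ 2 * t))) :
    a ^ 8 * (1 + (1 + t) * p) ^ 9 ≤ (100 / e ^ 5 * p) ^ 8 * ((1 + t) / t) := by
  have b := expb 9 (d := e ^ 2 / 6) (y := t) (c := 4 * (2 / 5 * e ^ 2 * t)) (by positivity)
    (by nlinarith) ht.le (by push_cast; nlinarith [mul_pos (pow_pos h0 2) ht])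
  have q : 1 ≤ (1 + t) / t := by rw [le_div_iff₀ ht]; linarith
  have r : 1 / p ≤ 4 / e := by rw [div_le_div_iff₀ hp h0]; linarith
  calc a ^ 8 * (1 + (1 + t) * p) ^ 9 = (a ^ 2) ^ 4 * (1 + (1 + t) * p) ^ 9 := by ring
    _ ≤ ((e * p)⁻¹ * Real.exp (-(2 / 5 * e ^ 2 * t))) ^ 4 * (5 / e * ((1 + t) * p)) ^ 9 := by
        gcongr
        exact Xle h0 h1 hp ht hpe
    _ = 5 ^ 9 * (1 / e) ^ 13 * (1 / p) ^ 3 *
          ((1 + t) ^ 9 * Real.exp (-(4 * (2 / 5 * e ^ 2 * t)))) * p ^ 8 := by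
        rw [mul_pow, ← Real.exp_nat_mul]
        push_cast
        rw [mul_neg]
        field_simp
    _ ≤ 5 ^ 9 * (1 / e) ^ 13 * (4 / e) ^ 3 * (1 / (e ^ 2 / 6)) ^ 9 * p ^ 8 := by gcongr
    _ = (5 ^ 9 * 4 ^ 3 * 6 ^ 9 * (1 / e) ^ 34) * p ^ 8 := by field_simp
    _ ≤ (100 / e ^ 5) ^ 8 * p ^ 8 := by
        gcongr
        exact cst h0 h1 (by norm_num) (by norm_num)
    _ ≤ _ := by rw [← mul_pow]; exact le_mul_of_one_le_right (by positivity) q

theorem realC (h0 : 0 < e) (h1 : e ≤ 1) (hp : 0 < p) (ht : 0 < t) (ha : 0 ≤ a) (hpe : e / 4 ≤ p)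
    (h : a ≤ Real.exp (-(e * (t * p)))) :
    a ^ 8 * (1 + (1 + t) * p) ^ 9 ≤ (100 / e ^ 5 * p) ^ 8 * ((1 + t) / t) := by
  have y0 : 0 < t * p := by positivity
  have b := expb 9 (d := e / 2) (y := t * p) (c := 8 * (e * (t * p))) (by positivity)
    (by linarith) y0.le (by push_cast; nlinarith [mul_pos h0 y0])
  have r : 1 + t ≤ 4 / e * (1 + t * p) := by
    rw [div_mul_eq_mul_div, le_div_iff₀ h0]
    nlinarith [mul_nonneg ht.le (sub_nonneg.2 hpe)]
  calc a ^ 8 * (1 + (1 + t) * p) ^ 9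
      ≤ Real.exp (-(e * (t * p))) ^ 8 * (5 / e * ((1 + t) * p)) ^ 9 := by
        gcongr
        exact Xle h0 h1 hp ht hpe
    _ = (5 / e) ^ 9 * ((1 + t) ^ 8 * (t * p) * Real.exp (-(8 * (e * (t * p))))) *
          (p ^ 8 * ((1 + t) / t)) := by
        rw [← Real.exp_nat_mul]
        push_cast
        rw [mul_neg]
        field_simp
    _ ≤ (5 / e) ^ 9 * ((4 / e * (1 + t * p)) ^ 8 * (1 + t * p) *
          Real.exp (-(8 * (e * (t * p))))) * (p ^ 8 * ((1 + t) / t)) := by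
        gcongr
        linarith
    _ = (5 / e) ^ 9 * (4 / e) ^ 8 * ((1 + t * p) ^ 9 * Real.exp (-(8 * (e * (t * p))))) *
          (p ^ 8 * ((1 + t) / t)) := by ring
    _ ≤ (5 / e) ^ 9 * (4 / e) ^ 8 * (1 / (e / 2)) ^ 9 * (p ^ 8 * ((1 + t) / t)) := by gcongr
    _ = (5 ^ 9 * 4 ^ 8 * 2 ^ 9 * (1 / e) ^ 26) * (p ^ 8 * ((1 + t) / t)) := by field_simp
    _ ≤ (100 / e ^ 5) ^ 8 * (p ^ 8 * ((1 + t) / t)) := by
        gcongr
        exact cst h0 h1 (by norm_num) (by norm_num)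
    _ = _ := by rw [mul_pow, mul_assoc]

variable {u : ℝ} {x : ℂ}

theorem nrm (hu : u = 1 ∨ u = -1) : ‖-(u * I * x)‖ = ‖x‖ := by
  rcases hu with rfl | rfl <;> simp

theorem im_eq (u : ℝ) (x : ℂ) : (1 - u * I * x).im = -(u * x.re) := by simp

theorem small (hu : u = 1 ∨ u = -1) (h1 : e ≤ 1) (ht : 0 < t) (hx : e * ‖x‖ ≤ x.re)
    (hpe : ‖x‖ ≤ e / 4) :
    ‖(1 - u * I * x) ^ (-sk (u * t)) - exp (-(x * t))‖ ≤
      2 * ‖x‖ * (1 + t * ‖x‖) * Real.exp (-(3 / 4 * e * (t * ‖x‖))) := by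
  have n := nrm (x := x) hu
  have p0 := norm_nonneg x
  have w0 : 1 + -(u * I * x) ≠ 0 := fun h => by
    rw [eq_neg_of_add_eq_zero_right h] at n
    simp at n
    linarith
  have l1 := norm_log_one_add_half_le_self (z := -(u * I * x)) (by rw [n]; linarith)
  have l2 := norm_log_one_add_sub_self_le (z := -(u * I * x)) (by rw [n]; linarith)
  rw [n] at l1 l2
  have l3 : ‖x‖ ^ 2 * (1 - ‖x‖)⁻¹ / 2 ≤ ‖x‖ ^ 2 := by
    have : (1 - ‖x‖)⁻¹ ≤ 2 := by
      rw [inv_le_comm₀ (by linarith) two_pos]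
      linarith
    nlinarith [sq_nonneg ‖x‖]
  have uu : (u : ℂ) * u = 1 := by rcases hu with rfl | rfl <;> simp
  have ua : ‖(u : ℂ)‖ = 1 := by rcases hu with rfl | rfl <;> simp
  obtain ⟨D, hD⟩ : ∃ D, D = -(1 / 2 * log (1 + -(u * I * x))) -
      u * t * I * (log (1 + -(u * I * x)) - -(u * I * x)) := ⟨_, rfl⟩
  have d : ‖D‖ ≤ ‖x‖ * (1 + t * ‖x‖) := by
    rw [hD]
    refine (norm_sub_le _ _).trans ?_
    rw [norm_neg, norm_mul, norm_mul, norm_mul, norm_mul, ua, norm_I, norm_real, Real.norm_of_nonneg ht.le]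
    have : ‖(1 / 2 : ℂ)‖ = 1 / 2 := by simp
    rw [this]
    nlinarith [mul_le_mul_of_nonneg_left (l2.trans l3) ht.le]
  have e1 : (1 - u * I * x) ^ (-sk (u * t)) - exp (-(x * t)) = exp (-(x * t)) * (exp D - 1) := by
    rw [mul_sub, ← Complex.exp_add, mul_one, sub_eq_add_neg 1, cpow_def_of_ne_zero w0, hD, sk]
    congr 2
    push_cast
    linear_combination (x * t * u * u) * I_mul_I - (x * t) * uu
  have e2 := norm_exp_sub_sum_le_norm_mul_exp D 1
  simp only [Finset.range_one, Finset.sum_singleton, pow_zero, Nat.factorial_zero, Nat.cast_one,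
    div_one, pow_one] at e2
  have e3 : Real.exp (1 / 4) ≤ 2 := by
    have := Real.exp_bound_div_one_sub_of_interval (x := 1 / 4) (by norm_num) (by norm_num)
    linarith
  rw [e1, norm_mul, norm_exp]
  calc Real.exp (-(x * t)).re * ‖exp D - 1‖
      ≤ Real.exp (-(e * (t * ‖x‖))) *
          (‖x‖ * (1 + t * ‖x‖) * Real.exp (1 / 4 + 1 / 4 * e * (t * ‖x‖))) := by
        refine mul_le_mul (Real.exp_le_exp.2 ?_) (e2.trans ?_) (norm_nonneg _) (by positivity)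
        · simp only [neg_re, mul_re, ofReal_re, ofReal_im, mul_zero, sub_zero]
          nlinarith
        · refine mul_le_mul d (Real.exp_le_exp.2 (d.trans ?_)) (by positivity) (by positivity)
          nlinarith [mul_le_mul_of_nonneg_right hpe (mul_nonneg ht.le p0)]
    _ = Real.exp (1 / 4) * ‖x‖ * (1 + t * ‖x‖) * Real.exp (-(3 / 4 * e * (t * ‖x‖))) := by
        rw [Real.exp_add, show -(3 / 4 * e * (t * ‖x‖)) =
          -(e * (t * ‖x‖)) + 1 / 4 * e * (t * ‖x‖) by ring, Real.exp_add]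
        ring
    _ ≤ _ := by gcongr

theorem large (hu : u = 1 ∨ u = -1) (h0 : 0 < e) (h1 : e ≤ 1) (ht : 0 < t) (hx : e * ‖x‖ ≤ x.re)
    (hpe : e / 4 ≤ ‖x‖) :
    ‖(1 - u * I * x) ^ (-sk (u * t))‖ ^ 2 ≤ (e * ‖x‖)⁻¹ * Real.exp (-(2 / 5 * e ^ 2 * t)) := by
  obtain ⟨w, hw⟩ : ∃ w, w = 1 - u * I * x := ⟨_, rfl⟩
  have p0 : 0 < ‖x‖ := by linarith
  have ep : 0 < e * ‖x‖ := by positivity
  have i : w.im = -(u * x.re) := by rw [hw, im_eq]
  have w1 : e * ‖x‖ ≤ ‖w‖ := by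
    refine hx.trans ((le_abs_self _).trans (le_of_eq_of_le ?_ (abs_im_le_norm w)))
    rcases hu with rfl | rfl <;> simp [i]
  have w0 : 0 < ‖w‖ := ep.trans_le w1
  have w2 : ‖w‖ ≤ 1 + ‖x‖ := by
    rw [hw, sub_eq_add_neg]
    exact (norm_add_le _ _).trans (by rw [nrm hu, norm_one])
  have s := sin_arg w
  have a1 : u * arg w ≤ -(x.re / ‖w‖) := by
    rcases hu with rfl | rfl
    · have := Real.sin_le (x := -arg w) (neg_nonneg.2 (arg_neg_iff.2 (by rw [i]; linarith)).le)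
      rw [Real.sin_neg, s, i, one_mul, neg_div] at this
      linarith
    · have := Real.sin_le (arg_nonneg_iff.2 (show 0 ≤ w.im by rw [i]; linarith))
      rw [s, i, neg_one_mul, neg_neg] at this
      linarith
  have a2 : e ^ 2 / 5 ≤ x.re / ‖w‖ := by
    rw [div_le_div_iff₀ (by norm_num) w0]
    nlinarith [mul_le_mul_of_nonneg_left w2 (sq_nonneg e), mul_le_mul_of_nonneg_left hpe h0.le,
      mul_le_mul_of_nonneg_right h1 ep.le]
  have r : (-sk (u * t)).re = -(1 / 2) := by simp [sk]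
  have j : (-sk (u * t)).im = -(u * t) := by simp [sk]
  rw [← hw, norm_cpow_of_ne_zero (norm_pos_iff.1 w0), r, j, div_eq_mul_inv, ← Real.exp_neg, mul_pow,
    ← Real.exp_nat_mul, ← Real.rpow_natCast, ← Real.rpow_mul w0.le]
  refine mul_le_mul ?_ (Real.exp_le_exp.2 ?_) (by positivity) (by positivity)
  · rw [show -(1 / 2) * ((2 : ℕ) : ℝ) = -1 by norm_num, Real.rpow_neg_one]
    exact inv_anti₀ ep w1
  · push_cast
    nlinarith [mul_le_mul_of_nonneg_right (a1.trans (neg_le_neg a2)) ht.le]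

theorem point (hu : u = 1 ∨ u = -1) (h0 : 0 < e) (h1 : e ≤ 1) (ht : 0 < t) (hx : e * ‖x‖ ≤ x.re)
    (hp : 0 < ‖x‖) :
    ‖(1 - u * I * x) ^ (-sk (u * t)) - exp (-(x * t))‖ ≤
      2 * (100 / e ^ 5 * ‖x‖ *
        ((1 + (1 + t) * ‖x‖) ^ (-(9 / 8) : ℝ) * ((1 + t) / t) ^ (1 / 8 : ℝ))) := by
  rcases le_total ‖x‖ (e / 4) with h | h
  · refine (root (by positivity) (by positivity) (by positivity)
      (realA h0 h1 hp ht (norm_nonneg _) h (small hu h1 ht hx h))).trans ?_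
    exact le_mul_of_one_le_left (by positivity) one_le_two
  · rw [two_mul]
    refine (norm_sub_le _ _).trans (add_le_add
      (root (by positivity) (by positivity) (by positivity)
        (realB h0 h1 hp ht h (large hu h0 h1 ht hx h)))
      (root (by positivity) (by positivity) (by positivity)
        (realC h0 h1 hp ht (norm_nonneg _) h ?_)))
    rw [norm_exp, Real.exp_le_exp]
    simp only [neg_re, mul_re, ofReal_re, ofReal_im, mul_zero, sub_zero]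
    nlinarith

theorem subst {c : ℝ} (hc : 0 < c) :
    Integrable (fun v : ℝ => c * Real.cosh v * (1 + ‖c * Real.sinh v‖) ^ (-(9 / 8) : ℝ)) ∧
      ∫ v : ℝ, c * Real.cosh v * (1 + ‖c * Real.sinh v‖) ^ (-(9 / 8) : ℝ) =
        ∫ y : ℝ, (1 + ‖y‖) ^ (-(9 / 8) : ℝ) := by
  have d : ∀ v ∈ (univ : Set ℝ), HasDerivWithinAt (fun v => c * Real.sinh v) (c * Real.cosh v) univ v :=
    fun v _ => ((Real.hasDerivAt_sinh v).const_mul c).hasDerivWithinAt
  have i : InjOn (fun v => c * Real.sinh v) univ := fun a _ b _ h =>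
    Real.sinh_injective (mul_left_cancel₀ hc.ne' h)
  have s : (fun v => c * Real.sinh v) '' univ = univ := eq_univ_of_forall fun y =>
    ⟨Real.arsinh (y / c), trivial, by simp only [Real.sinh_arsinh]; field_simp⟩
  have ab : ∀ v, |c * Real.cosh v| = c * Real.cosh v := fun v =>
    abs_of_pos (mul_pos hc (Real.cosh_pos v))
  have h1 := integrableOn_image_iff_integrableOn_abs_deriv_smul MeasurableSet.univ d i
    fun y : ℝ => (1 + ‖y‖) ^ (-(9 / 8) : ℝ)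
  have h2 := integral_image_eq_integral_abs_deriv_smul MeasurableSet.univ d i
    fun y : ℝ => (1 + ‖y‖) ^ (-(9 / 8) : ℝ)
  simp only [s, ab, smul_eq_mul, integrableOn_univ, Measure.restrict_univ] at h1 h2
  exact ⟨h1.1 (integrable_one_add_norm (by norm_num)), h2.symm⟩

end FWA

theorem t_fwa : T_FWA := by
  intro _ hV
  refine ⟨200 * ∫ y : ℝ, (1 + ‖y‖) ^ (-(9 / 8) : ℝ), 5, ?_⟩
  rintro e ⟨h0, h1⟩ z t u hu hz z0 - ht
  have zr : 0 < z.re := (mul_pos h0 z0).trans_le hz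
  have t1 : 0 < 1 + t := by linarith
  obtain ⟨g1, g2⟩ := FWA.subst (c := (1 + t) * ‖z‖) (by positivity)
  have hE := hV.1 (z * t) 0 (by simpa using mul_pos zr ht)
  obtain ⟨K, hK⟩ : ∃ K : ℝ, K = 200 / e ^ 5 * (((1 + t) / t) ^ (1 / 8 : ℝ) / (1 + t)) := ⟨_, rfl⟩
  have bd : ∀ v : ℝ, ‖(1 - u * I * z * Real.cosh v) ^ (-sk (u * t)) -
      exp (-(z * t) * Real.cosh v + 0 * v)‖ ≤ K * ((1 + t) * ‖z‖ * Real.cosh v *
        (1 + ‖(1 + t) * ‖z‖ * Real.sinh v‖) ^ (-(9 / 8) : ℝ)) := fun v => by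
    have c0 := Real.cosh_pos v
    have n : ‖z * Real.cosh v‖ = ‖z‖ * Real.cosh v := by
      rw [norm_mul, norm_real, Real.norm_of_nonneg c0.le]
    have := FWA.point (x := z * Real.cosh v) hu h0 h1 ht (by
      rw [n, re_mul_ofReal, ← mul_assoc]
      gcongr) (by rw [n]; positivity)
    rw [n, ← mul_assoc, show -(z * Real.cosh v * t) = -(z * t) * Real.cosh v + 0 * v by ring] at this
    refine this.trans ?_
    have m : (1 + (1 + t) * (‖z‖ * Real.cosh v)) ^ (-(9 / 8) : ℝ) ≤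
        (1 + ‖(1 + t) * ‖z‖ * Real.sinh v‖) ^ (-(9 / 8) : ℝ) := by
      refine Real.rpow_le_rpow_of_nonpos (by positivity) ?_ (by norm_num)
      rw [norm_mul, Real.norm_of_nonneg (by positivity), Real.norm_eq_abs, Real.abs_sinh,
        ← Real.cosh_abs, mul_assoc]
      gcongr
      exact (Real.sinh_lt_cosh _).le
    calc _ = K * ((1 + t) * ‖z‖ * Real.cosh v *
          (1 + (1 + t) * (‖z‖ * Real.cosh v)) ^ (-(9 / 8) : ℝ)) := by rw [hK]; field_simp; norm_num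
      _ ≤ _ := by rw [hK]; gcongr
  have ct : Continuous fun v : ℝ => (1 - u * I * z * Real.cosh v) ^ (-sk (u * t)) := by
    refine Continuous.cpow (by fun_prop) continuous_const fun v => Or.inr ?_
    rw [mul_assoc, FWA.im_eq, re_mul_ofReal]
    have := mul_pos zr (Real.cosh_pos v)
    rcases hu with rfl | rfl <;> intro h <;> linarith
  have hG := (g1.const_mul K).mono' (ct.aestronglyMeasurable.sub hE.aestronglyMeasurable)
    (Eventually.of_forall bd)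
  have hF : Integrable fun v : ℝ => (1 - u * I * z * Real.cosh v) ^ (-sk (u * t)) := by
    simpa using hG.add hE
  rw [Kb, ← integral_sub hF hE]
  refine (norm_integral_le_of_norm_le (g1.const_mul K) (Eventually.of_forall bd)).trans_eq ?_
  rw [integral_const_mul, g2, hK, Real.div_rpow t1.le ht.le, Real.rpow_neg ht.le,
    show (-(7 / 8) : ℝ) = 1 / 8 - 1 by norm_num, Real.rpow_sub_one t1.ne']
  ring

end

end Pool.Agent.Lib.E2
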