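import Pool.Agent.Lib.E2.FWA

/-! Block FWB: the Bessel approximation of the weight `wf`. -/

namespace Pool.Agent.Lib.E2

noncomputable section

open Complex MeasureTheory Set Filter Topology
open scoped Real

namespace FWB

variable {u e k b : ℝ} {x z : ℂ}

theorem sgn (hu : u = 1 ∨ u = -1) (hx : 0 < x.re) : u * arg (1 - u * I * x) ≤ 0 := by
  have i := FWA.im_eq u x
  rcases hu with rfl | rfl
  · simpa using (arg_neg_iff.2 (show (1 - (1 : ℝ) * I * x).im < 0 by rw [i]; linarith)).le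
  · have := arg_nonneg_iff.2 (show 0 ≤ (1 - (-1 : ℝ) * I * x).im by rw [i]; linarith)
    linarith

theorem imabs (hu : u = 1 ∨ u = -1) (hx : 0 < x.re) : |(1 - u * I * x).im| = x.re := by
  rw [FWA.im_eq]
  rcases hu with rfl | rfl <;> simp [abs_of_pos hx]

theorem split (hu : u = 1 ∨ u = -1) {X : ℂ} (hX : 0 < X.re) (hY : 0 < X⁻¹.re) {c : ℝ} (hc : 0 < c)
    (s : ℂ) : ((c : ℂ) + u * I * X) ^ (-s) =
      exp (-s * (log X + (u * (π / 2) : ℝ) * I)) * (1 - u * I * X⁻¹ * c) ^ (-s) := by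
  have p : 0 < (X⁻¹ * c).re := by rw [re_mul_ofReal]; positivity
  have a := sgn hu p
  have w0 : 1 - u * I * (X⁻¹ * c) ≠ 0 := fun h => by
    have := imabs hu p
    rw [h] at this
    simp only [zero_im, abs_zero] at this
    linarith
  have X0 : X ≠ 0 := fun h => by simp [h] at hX
  have aX := abs_lt.1 (abs_arg_lt_pi_div_two_iff.2 (Or.inl hX))
  rw [mul_assoc (u * I : ℂ)]
  generalize hw : 1 - u * I * (X⁻¹ * c) = w at a w0
  have e1 : (c : ℂ) + u * I * X = exp (log X + (u * (π / 2) : ℝ) * I + log w) := by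
    rw [exp_add, exp_add, exp_log X0, exp_log w0, ← hw]
    rcases hu with rfl | rfl
    · simp only [ofReal_one, one_mul, ofReal_div, ofReal_ofNat, exp_pi_div_two_mul_I]
      field_simp
      linear_combination (c : ℂ) * I_mul_I
    · rw [show ((-1 * (π / 2) : ℝ) : ℂ) * I = -π / 2 * I by push_cast; ring, exp_neg_pi_div_two_mul_I]
      push_cast
      field_simp
      linear_combination (c : ℂ) * I_mul_I
  have a1 := neg_pi_lt_arg w
  have a2 := arg_le_pi w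
  have i : (log X + (u * (π / 2) : ℝ) * I + log w).im = arg X + u * (π / 2) + arg w := by
    rw [add_im, add_im, log_im, log_im, mul_I_im, ofReal_re]
  rw [e1, cpow_def_of_ne_zero (exp_ne_zero _), log_exp, cpow_def_of_ne_zero w0, ← exp_add]
  · congr 1
    ring
  · rw [i]
    rcases hu with rfl | rfl <;> linarith
  · rw [i]
    rcases hu with rfl | rfl <;> linarith

theorem argb (hu : u = 1 ∨ u = -1) (h0 : 0 < e) (h1 : e ≤ 1) (hx : e * ‖x‖ ≤ x.re) (hp : 0 < ‖x‖) :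
    |arg (1 - u * I * x)| ≤ π - e := by
  have p := (mul_pos h0 hp).trans_le hx
  have i := imabs hu p
  have n := FWA.nrm (x := x) hu
  generalize hy : -(u * I * x) = y at n
  rw [sub_eq_add_neg, hy] at i ⊢
  rcases le_or_gt 0 (1 + y).re with h | h
  · linarith [abs_arg_le_pi_div_two_iff.2 h, Real.pi_gt_three]
  · have w0 : 0 < ‖1 + y‖ := p.trans_le (i ▸ abs_im_le_norm _)
    have w1 : ‖1 + y‖ ≤ ‖x‖ := by
      refine abs_le_of_sq_le_sq' ?_ hp.le |>.2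
      rw [← n, ← normSq_eq_norm_sq, ← normSq_eq_norm_sq, normSq_apply, normSq_apply]
      simp only [add_re, one_re, add_im, one_im, zero_add] at h ⊢
      nlinarith
    have s := Real.sin_le (sub_nonneg.2 (abs_arg_le_pi (1 + y)))
    rw [Real.sin_pi_sub, ← Real.abs_sin_eq_sin_abs_of_abs_le_pi (abs_arg_le_pi _), sin_arg, abs_div, i,
      abs_of_pos w0] at s
    have : e ≤ x.re / ‖1 + y‖ := by
      rw [le_div_iff₀ w0]
      nlinarith
    linarith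

theorem pt (hu : u = 1 ∨ u = -1) (h0 : 0 < e) (h1 : e ≤ 1) (hx : e * ‖x‖ ≤ x.re) (hp : 0 < ‖x‖)
    (hb : arg (1 - u * I * x) * k ≤ b) :
    ‖(1 - u * I * x) ^ (-sk k)‖ ≤ (e / 2) ^ (-(1 / 2) : ℝ) * ‖x‖ ^ (-(1 / 8) : ℝ) * Real.exp b := by
  have p := (mul_pos h0 hp).trans_le hx
  have w1 : e * ‖x‖ ≤ ‖1 - u * I * x‖ := hx.trans (imabs hu p ▸ abs_im_le_norm _)
  have w2 : 1 - ‖x‖ ≤ ‖1 - u * I * x‖ := by
    have := norm_sub_norm_le 1 (u * I * x)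
    rwa [norm_one, ← norm_neg (u * I * x), FWA.nrm hu] at this
  generalize 1 - u * I * x = w at *
  have w0 : 0 < ‖w‖ := (mul_pos h0 hp).trans_le w1
  have w3 : (e / 2) ^ 4 * ‖x‖ ≤ ‖w‖ ^ 4 := by
    rcases le_total ‖x‖ (1 / 2) with h | h
    · calc (e / 2) ^ 4 * ‖x‖ ≤ (1 / 2) ^ 4 * 1 := by gcongr; linarith
        _ ≤ _ := by rw [mul_one]; gcongr; linarith
    · calc _ = e ^ 4 * ‖x‖ * (1 / 2) ^ 4 := by ring
        _ ≤ e ^ 4 * ‖x‖ * ‖x‖ ^ 3 := by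
          gcongr ?_ * ?_
          exact le_trans (by norm_num) (pow_le_pow_left₀ (by norm_num) h 3)
        _ = (e * ‖x‖) ^ 4 := by ring
        _ ≤ _ := by gcongr
  have r : (-sk k).re = -(1 / 2) := by simp [sk]
  have j : (-sk k).im = -k := by simp [sk]
  rw [norm_cpow_of_ne_zero (norm_pos_iff.1 w0), r, j, div_eq_mul_inv, ← Real.exp_neg, mul_neg, neg_neg]
  gcongr ?_ * Real.exp ?_
  have := Real.rpow_le_rpow_of_nonpos (by positivity) w3 (show (-(1 / 8) : ℝ) ≤ 0 by norm_num)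
  rw [Real.mul_rpow (by positivity) hp.le, ← Real.rpow_natCast, ← Real.rpow_natCast,
    ← Real.rpow_mul w0.le, ← Real.rpow_mul (by positivity)] at this
  norm_num at this ⊢
  exact this

/-- the half kernel -/
def P (u : ℝ) (z : ℂ) (k : ℝ) : ℂ := ∫ v : ℝ, (1 - u * I * z * Real.cosh v) ^ (-sk k)

theorem Pbd (hI : Integrable fun v : ℝ => Real.cosh v ^ (-(1 / 8) : ℝ)) (hu : u = 1 ∨ u = -1)
    (h0 : 0 < e) (h1 : e ≤ 1) (hz : e * ‖z‖ ≤ z.re) (z0 : 0 < ‖z‖)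
    (hb : ∀ a : ℝ, u * a ≤ 0 → |a| ≤ π - e → a * k ≤ b) :
    ‖P u z k‖ ≤ (e / 2) ^ (-(1 / 2) : ℝ) * ‖z‖ ^ (-(1 / 8) : ℝ) *
      (∫ v : ℝ, Real.cosh v ^ (-(1 / 8) : ℝ)) * Real.exp b := by
  refine (norm_integral_le_of_norm_le (hI.const_mul ((e / 2) ^ (-(1 / 2) : ℝ) *
    ‖z‖ ^ (-(1 / 8) : ℝ) * Real.exp b)) (Eventually.of_forall fun v => ?_)).trans_eq ?_
  · have c0 := Real.cosh_pos v
    have n : ‖z * Real.cosh v‖ = ‖z‖ * Real.cosh v := by
      rw [norm_mul, norm_real, Real.norm_of_nonneg c0.le]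
    have hx : e * ‖z * Real.cosh v‖ ≤ (z * Real.cosh v).re := by
      rw [n, re_mul_ofReal, ← mul_assoc]
      gcongr
    have hp : 0 < ‖z * Real.cosh v‖ := by rw [n]; positivity
    have := pt hu h0 h1 hx hp (hb _ (sgn hu ((mul_pos h0 hp).trans_le hx)) (argb hu h0 h1 hx hp))
    rw [n, Real.mul_rpow z0.le c0.le, ← mul_assoc] at this
    exact this.trans_eq (by ring)
  · rw [integral_const_mul]
    ring

theorem alg {A B A' B' K : ℂ} {J D q y G : ℝ} (a : ‖A‖ ≤ J) (a' : ‖A'‖ ≤ J) (b : ‖B‖ ≤ J * G)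
    (b' : ‖B'‖ ≤ J * G) (d : ‖A - K‖ ≤ D) (d' : ‖A' - K‖ ≤ D) (hK : ‖K‖ ≤ q) (y0 : 0 < y)
    (y1 : y * G ≤ 1) (G1 : 1 ≤ G) :
    ‖(A * A' / y + y * (B' * B) - I * (A * B) + I * (B' * A')) / (y⁻¹ + y : ℝ) - K ^ 2‖ ≤
      D ^ 2 + 2 * q * D + 4 * J ^ 2 * (y * G) := by
  have J0 := (norm_nonneg _).trans a
  have D0 := (norm_nonneg _).trans d
  have q0 := (norm_nonneg _).trans hK
  have y2 : (y : ℂ) ≠ 0 := ofReal_ne_zero.2 y0.ne'
  have y3 : (1 + y ^ 2 : ℂ) ≠ 0 := by exact_mod_cast (by positivity : (1 + y ^ 2 : ℝ) ≠ 0)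
  have y4 : y ≤ y * G := le_mul_of_one_le_right y0.le G1
  have e1 : (A * A' / y + y * (B' * B) - I * (A * B) + I * (B' * A')) / (y⁻¹ + y : ℝ) - K ^ 2 =
      (A - K) * (A' - K) + K * (A - K) + K * (A' - K) + (y / (1 + y ^ 2) : ℝ) *
        (y * (B' * B) - y * (A * A') - I * (A * B) + I * (B' * A')) := by
    push_cast
    field_simp
    ring
  have e2 : ‖y * (B' * B) - y * (A * A') - I * (A * B) + I * (B' * A')‖ ≤
      y * (J * G * (J * G)) + y * (J * J) + J * (J * G) + J * G * J := by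
    refine norm_add_le_of_le (norm_sub_le_of_le (norm_sub_le_of_le ?_ ?_) ?_) ?_ <;>
      simp only [norm_mul, norm_I, one_mul, norm_real, Real.norm_of_nonneg y0.le] <;> gcongr
  have e3 : ‖((y / (1 + y ^ 2) : ℝ) : ℂ)‖ ≤ y := by
    rw [norm_real, Real.norm_of_nonneg (by positivity)]
    exact div_le_self y0.le (by nlinarith)
  rw [e1]
  refine (norm_add_le_of_le (norm_add_le_of_le (norm_add_le_of_le (norm_mul_le_of_le d d')
    (norm_mul_le_of_le hK d)) (norm_mul_le_of_le hK d')) (norm_mul_le_of_le e3 e2)).trans ?_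
  have f1 : y * G * (y * G) ≤ y * G := mul_le_of_le_one_right (by positivity) y1
  have f2 : y * y ≤ y * G := by nlinarith
  nlinarith [mul_le_mul_of_nonneg_left f1 (sq_nonneg J), mul_le_mul_of_nonneg_left f2 (sq_nonneg J)]

theorem Nf_eq (hN : St_NB) {r : ℂ} (hr : r ∈ Str) (hX : 0 < (sinh r).re) (hY : 0 < (th r).re)
    (k : ℝ) : Nf (sk k) r = exp (-sk k * (log (sinh r) + π / 2 * I)) * P 1 (th r) k +
      exp (-sk k * (log (sinh r) - π / 2 * I)) * P (-1) (th r) k := by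
  obtain ⟨i1, i2⟩ := hN.1 (sk k) r (by simp [sk]) hr
  rw [Nf, integral_add i1 i2, P, P, ← integral_const_mul, ← integral_const_mul]
  congr 2 <;> ext v
  · simpa [th] using split (Or.inl rfl) hX hY (Real.cosh_pos v) (sk k)
  · simpa [th, sub_eq_add_neg] using split (Or.inr rfl) hX hY (Real.cosh_pos v) (sk k)

theorem wf_eq (hN : St_NB) {r : ℂ} (hr : r ∈ Str) (hX : 0 < (sinh r).re) (hY : 0 < (th r).re)
    (t : ℝ) : wf r t = th r * ((P 1 (th r) t * P (-1) (th r) (-t) / Real.exp (-(π * t)) +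
      Real.exp (-(π * t)) * (P (-1) (th r) t * P 1 (th r) (-t)) -
      I * (P 1 (th r) t * P 1 (th r) (-t)) + I * (P (-1) (th r) t * P (-1) (th r) (-t))) /
        ((Real.exp (-(π * t)))⁻¹ + Real.exp (-(π * t)) : ℝ)) := by
  have X0 : sinh r ≠ 0 := fun h => by simp [h] at hX
  have l : exp (-log (sinh r)) = th r := by rw [exp_neg, exp_log X0, th]
  have d : 2 * Real.cosh (π * t) = (Real.exp (-(π * t)))⁻¹ + Real.exp (-(π * t)) := by
    rw [Real.cosh_eq, ← Real.exp_neg, neg_neg]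
    ring
  rw [wf, Nf_eq hN hr hX hY, Nf_eq hN hr hX hY, d]
  generalize log (sinh r) = L at l
  have c1 : exp (-sk t * (L + π / 2 * I)) * exp (-sk (-t) * (L - π / 2 * I)) =
      th r / Real.exp (-(π * t)) := by
    rw [← exp_add, ← l, ofReal_exp, ← exp_sub, sk, sk]
    congr 1
    push_cast
    linear_combination (-(π * t) : ℂ) * I_mul_I
  have c2 : exp (-sk t * (L - π / 2 * I)) * exp (-sk (-t) * (L + π / 2 * I)) =
      th r * Real.exp (-(π * t)) := by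
    rw [← exp_add, ← l, ofReal_exp, ← exp_add, sk, sk]
    congr 1
    push_cast
    linear_combination (π * t : ℂ) * I_mul_I
  have c3 : exp (-sk t * (L + π / 2 * I)) * exp (-sk (-t) * (L + π / 2 * I)) = th r * -I := by
    rw [← exp_add, ← l, ← exp_neg_pi_div_two_mul_I, ← exp_add, sk, sk]
    congr 1
    push_cast
    ring
  have c4 : exp (-sk t * (L - π / 2 * I)) * exp (-sk (-t) * (L - π / 2 * I)) = th r * I := by
    rw [← exp_add, ← l]
    conv_rhs => rw [← exp_pi_div_two_mul_I]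
    rw [← exp_add, sk, sk]
    congr 1
    push_cast
    ring
  rw [← mul_div_assoc]
  congr 1
  linear_combination (P 1 (th r) t * P (-1) (th r) (-t)) * c1 +
    (P (-1) (th r) t * P 1 (th r) (-t)) * c2 + (P 1 (th r) t * P 1 (th r) (-t)) * c3 +
    (P (-1) (th r) t * P (-1) (th r) (-t)) * c4

theorem pw {x : ℝ} (hx : 0 < x) (n : ℕ) {c : ℝ} (h : c = n / 8) :
    x ^ (-c) = (x ^ (-(1 / 8) : ℝ)) ^ n := by
  rw [← Real.rpow_natCast, ← Real.rpow_mul hx.le, h]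
  congr 1
  ring

theorem fin {C Ck H L m a b : ℝ} (k : ℕ) (L1 : 1 ≤ L) (m1 : 1 ≤ m) (b0 : 0 ≤ b) (b1 : b ≤ 1)
    (ba : b ≤ a) (C0 : 0 ≤ C) (K0 : 0 ≤ Ck) :
    (C * L ^ k * (a * b ^ 7)) ^ 2 + 2 * (Ck * (m ^ 2 * a ^ 2)) * (C * L ^ k * (a * b ^ 7)) +
      4 * (2 * L * m ^ 2 * H ^ 2) * ((2 * L) ^ 2 * b ^ 16) ≤
      (C ^ 2 + 2 * Ck * C + 32 * H ^ 2) * L ^ (2 * k + 3) * (m ^ 2 * (a ^ 4 * b ^ 6)) := by
  have a0 := b0.trans ba
  have t1 : (C * L ^ k * (a * b ^ 7)) ^ 2 ≤ C ^ 2 * L ^ (2 * k + 3) * (m ^ 2 * (a ^ 4 * b ^ 6)) :=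
    calc _ = C ^ 2 * L ^ (2 * k) * (1 ^ 2 * (a ^ 2 * b ^ 2 * b ^ 6 * b ^ 6)) := by ring
      _ ≤ C ^ 2 * L ^ (2 * k + 3) * (m ^ 2 * (a ^ 2 * a ^ 2 * b ^ 6 * 1 ^ 6)) := by gcongr; omega
      _ = _ := by ring
  have t2 : 2 * (Ck * (m ^ 2 * a ^ 2)) * (C * L ^ k * (a * b ^ 7)) ≤
      2 * Ck * C * L ^ (2 * k + 3) * (m ^ 2 * (a ^ 4 * b ^ 6)) :=
    calc _ = 2 * Ck * C * L ^ k * (m ^ 2 * (a ^ 3 * b * b ^ 6)) := by ring
      _ ≤ 2 * Ck * C * L ^ (2 * k + 3) * (m ^ 2 * (a ^ 3 * a * b ^ 6)) := by gcongr; omega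
      _ = _ := by ring
  have t3 : 4 * (2 * L * m ^ 2 * H ^ 2) * ((2 * L) ^ 2 * b ^ 16) ≤
      32 * H ^ 2 * L ^ (2 * k + 3) * (m ^ 2 * (a ^ 4 * b ^ 6)) :=
    calc _ = 32 * H ^ 2 * L ^ 3 * (m ^ 2 * (b ^ 4 * b ^ 6 * b ^ 6)) := by ring
      _ ≤ 32 * H ^ 2 * L ^ (2 * k + 3) * (m ^ 2 * (a ^ 4 * b ^ 6 * 1 ^ 6)) := by gcongr; omega
      _ = _ := by ring
  linarith

end FWB

open FWB in
theorem t_fwb : T_FWB := by
  intro hK hN hT ⟨C, k, hA⟩
  obtain ⟨Ck, hk⟩ := hK.2.2.1 (1 / 4) ⟨by norm_num, by norm_num⟩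
  have hI : Integrable fun v : ℝ => Real.cosh v ^ (-(1 / 8) : ℝ) := by
    refine (hN.1 (1 / 8 : ℝ) 0 (by simp) (by simp [Str, Real.pi_pos])).1.norm.congr
      (Eventually.of_forall fun v => ?_)
    dsimp only
    rw [sinh_zero, mul_zero, add_zero, norm_cpow_eq_rpow_re_of_pos (Real.cosh_pos v), neg_re, ofReal_re]
  obtain ⟨H, hH⟩ : ∃ H, H = ∫ v : ℝ, Real.cosh v ^ (-(1 / 8) : ℝ) := ⟨_, rfl⟩
  refine ⟨(|C| ^ 2 + 2 * |Ck| * |C| + 32 * H ^ 2) * 4 ^ (2 * k + 3), 2 * k + 3, ?_⟩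
  rintro e ⟨h0, h1⟩ r hr t ht
  obtain ⟨s, hz, z0, z1, -, -, -, hX, -⟩ := hT e ⟨h0, h1⟩ r hr
  have e0 : 0 < e / 4 := by positivity
  have e1 : e / 4 ≤ 1 := by linarith
  have hY := (mul_pos e0 z0).trans_le hz
  have t1 : 0 < 1 + t := by linarith
  have D : ∀ u : ℝ, u = 1 ∨ u = -1 → ‖P u (th r) (u * t) - Kb (th r * t) 0‖ ≤ |C| * (4 / e) ^ k *
      (t ^ (-(1 / 8) : ℝ) * ((1 + t) ^ (-(1 / 8) : ℝ)) ^ 7) := fun u hu => by
    refine (hA _ ⟨e0, e1⟩ _ t u hu hz z0 z1 ht).trans ?_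
    rw [pw t1 7 (c := 7 / 8) (by norm_num), div_eq_mul_inv, ← inv_pow, inv_div]
    gcongr
    exact le_abs_self C
  have K : ‖Kb (th r * t) 0‖ ≤
      |Ck| * ((‖th r‖ ^ (-(1 / 8) : ℝ)) ^ 2 * (t ^ (-(1 / 8) : ℝ)) ^ 2) := by
    have p : 0 < (th r * t).re := by rw [re_mul_ofReal]; positivity
    refine (hk _ p).trans ?_
    rw [norm_mul, norm_real, Real.norm_of_nonneg ht.le, Real.mul_rpow z0.le ht.le,
      pw z0 2 (c := 1 / 4) (by norm_num), pw ht 2 (c := 1 / 4) (by norm_num)]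
    refine (mul_le_mul (mul_le_mul_of_nonneg_right (le_abs_self Ck) (by positivity))
      (Real.exp_le_one_iff.2 (by linarith)) (by positivity) (by positivity)).trans_eq (mul_one _)
  have A : ∀ u : ℝ, u = 1 ∨ u = -1 → ‖P u (th r) (u * t)‖ ≤
      (e / 4 / 2) ^ (-(1 / 2) : ℝ) * ‖th r‖ ^ (-(1 / 8) : ℝ) * H := fun u hu => by
    simpa only [Real.exp_zero, mul_one, hH] using Pbd (k := u * t) (b := 0) hI hu e0 e1 hz z0
      fun a ha _ => by nlinarith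
  have B : ∀ u : ℝ, u = 1 ∨ u = -1 → ∀ j : ℝ, |j| = t → ‖P u (th r) j‖ ≤
      (e / 4 / 2) ^ (-(1 / 2) : ℝ) * ‖th r‖ ^ (-(1 / 8) : ℝ) * H * Real.exp ((π - e / 4) * t) :=
    fun u hu j hj => hH ▸ Pbd hI hu e0 e1 hz z0 fun a _ ha =>
      (le_abs_self _).trans (by rw [abs_mul, hj]; gcongr)
  have g : Real.exp (-(π * t)) * Real.exp ((π - e / 4) * t) = Real.exp (-(e / 4 * t)) := by
    rw [← Real.exp_add]
    congr 1
    ring
  have M := alg (by simpa only [one_mul] using A 1 (Or.inl rfl))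
    (by simpa only [neg_one_mul] using A (-1) (Or.inr rfl))
    (B 1 (Or.inl rfl) (-t) (by rw [abs_neg, abs_of_pos ht])) (B (-1) (Or.inr rfl) t (abs_of_pos ht))
    (by simpa only [one_mul] using D 1 (Or.inl rfl))
    (by simpa only [neg_one_mul] using D (-1) (Or.inr rfl)) K (Real.exp_pos (-(π * t)))
    (by rw [g]; exact Real.exp_le_one_iff.2 (neg_nonpos.2 (by positivity)))
    (Real.one_le_exp (mul_nonneg (by linarith [Real.pi_gt_three]) ht.le))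
  have x : Real.exp (-(e / 4 * t)) ≤ (2 * (4 / e)) ^ 2 * ((1 + t) ^ (-(1 / 8) : ℝ)) ^ 16 := by
    have := FWA.expb 2 (d := e / 8) (y := t) (c := e / 4 * t) (by positivity) (by linarith) ht.le
      (by push_cast; linarith)
    rw [← pw t1 16 (c := 2) (by norm_num), Real.rpow_neg t1.le, Real.rpow_two, ← div_eq_mul_inv,
      le_div_iff₀' (by positivity)]
    exact this.trans_eq (by field_simp; norm_num)
  have j : ((e / 4 / 2) ^ (-(1 / 2) : ℝ) * ‖th r‖ ^ (-(1 / 8) : ℝ) * H) ^ 2 =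
      2 * (4 / e) * (‖th r‖ ^ (-(1 / 8) : ℝ)) ^ 2 * H ^ 2 := by
    rw [mul_pow, mul_pow, ← Real.rpow_natCast (_ ^ (-(1 / 2) : ℝ)), ← Real.rpow_mul (by positivity),
      show -(1 / 2) * ((2 : ℕ) : ℝ) = -1 by norm_num, Real.rpow_neg_one]
    field_simp
  rw [g, j] at M
  have F := fin (H := H) k (show 1 ≤ 4 / e by rw [le_div_iff₀ h0]; linarith)
    (Real.one_le_rpow_of_pos_of_le_one_of_nonpos z0 z1 (show (-(1 / 8) : ℝ) ≤ 0 by norm_num))
    (Real.rpow_nonneg t1.le (-(1 / 8)))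
    (Real.rpow_le_one_of_one_le_of_nonpos (by linarith) (by norm_num))
    (Real.rpow_le_rpow_of_nonpos ht (by linarith) (by norm_num)) (abs_nonneg C) (abs_nonneg Ck)
  have w : ‖th r‖ ^ (3 / 4 : ℝ) = ‖th r‖ * (‖th r‖ ^ (-(1 / 8) : ℝ)) ^ 2 := by
    rw [← pw z0 2 (c := 1 / 4) (by norm_num), mul_comm, ← Real.rpow_add_one z0.ne']
    norm_num
  rw [wf_eq hN s hX hY, Wf, ← mul_sub, norm_mul, w, pw ht 4 (c := 1 / 2) (by norm_num),
    pw t1 6 (c := 3 / 4) (by norm_num)]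
  refine (mul_le_mul_of_nonneg_left (M.trans (le_trans ?_ F)) z0.le).trans_eq ?_
  · gcongr
  · rw [div_pow]
    ring

end

end Pool.Agent.Lib.E2
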