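import Pool.Agent.Lib.E2.Blue2

namespace Pool.Agent.Lib.E2

noncomputable section

open Complex MeasureTheory Set Filter Topology
open scoped Real

namespace GAU

theorem err_int (hD : St_DY) (P : Polynomial ℝ) {s : ℝ} (hs : 0 < s) :
    IntegrableOn (fun t : ℝ => err P t * Real.exp (-s * t)) (Ioi 0) := by
  obtain ⟨hc, ⟨C1, h1⟩, ⟨C2, h2⟩, -⟩ := hD.2.2.2.2 P
  have i1 : IntegrableOn (fun t : ℝ => Real.exp (-s * t)) (Ioi 0) := exp_neg_integrableOn_Ioi 0 hs
  have i2 : IntegrableOn (fun t : ℝ => t ^ (3 : ℝ) * Real.exp (-s * t ^ (1 : ℝ))) (Ioi 0) :=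
    integrableOn_rpow_mul_exp_neg_mul_rpow (by norm_num) one_pos hs
  have i3 := (i1.const_mul |C1|).add (i2.const_mul |C2|)
  refine Integrable.mono' i3 ?_ ?_
  · exact (hc.mul (by fun_prop)).aestronglyMeasurable measurableSet_Ioi
  · refine (ae_restrict_iff' measurableSet_Ioi).2 (Eventually.of_forall fun t ht => ?_)
    have ht' : 0 < t := ht
    have he := Real.exp_pos (-s * t)
    simp only [Pi.add_apply, Real.rpow_one, norm_mul, Real.norm_eq_abs, abs_of_pos he]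
    have h3 : t ^ (3 : ℝ) = t ^ 3 := by exact_mod_cast Real.rpow_natCast t 3
    rw [h3]
    have h4 : |err P t| ≤ |C1| + |C2| * t ^ 3 := by
      rcases le_total t 1 with h | h
      · have a1 := h1 t ⟨ht', h⟩
        have a2 : t ^ (3 / 4 : ℝ) ≤ 1 := Real.rpow_le_one ht'.le h (by norm_num)
        have a3 : 0 ≤ t ^ (3 / 4 : ℝ) := by positivity
        have a4 : C1 * t ^ (3 / 4 : ℝ) ≤ |C1| * 1 :=
          (mul_le_mul_of_nonneg_right (le_abs_self _) a3).trans (by gcongr)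
        have a5 : 0 ≤ |C2| * t ^ 3 := by positivity
        linarith
      · have a1 := h2 t h
        have a4 : C2 * t ^ 3 ≤ |C2| * t ^ 3 :=
          mul_le_mul_of_nonneg_right (le_abs_self _) (by positivity)
        linarith [abs_nonneg C1]
    calc |err P t| * Real.exp (-s * t) ≤ (|C1| + |C2| * t ^ 3) * Real.exp (-s * t) := by gcongr
      _ = _ := by ring

/-- the point on the vertical line -/
def zz (T y : ℝ) : ℂ := ((1 / T : ℝ) : ℂ) + y * I

theorem zz_re (T y : ℝ) : (zz T y).re = 1 / T := by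
  simp only [zz, add_re, ofReal_re, mul_re, I_re, I_im, ofReal_im]
  ring

theorem zz_im (T y : ℝ) : (zz T y).im = y := by
  simp only [zz, add_im, ofReal_re, mul_im, I_re, I_im, ofReal_im]
  ring

theorem gauss {H : ℝ} (hH : 0 < H) (T t : ℝ) :
    ∫ y : ℝ, exp ((H : ℂ) ^ 2 * zz T y ^ 2 + 2 * zz T y * T) * exp (-2 * zz T y * t) =
      ((√(π / H ^ 2) * Real.exp (-((t - T) / H) ^ 2) : ℝ) : ℂ) := by
  have hH' : (H : ℂ) ≠ 0 := ofReal_ne_zero.2 hH.ne'
  have hb : (-(H : ℂ) ^ 2).re < 0 := by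
    rw [← ofReal_pow, ← ofReal_neg, ofReal_re]
    have := pow_pos hH 2
    linarith
  set a : ℂ := ((1 / T : ℝ) : ℂ) with ha
  have h := integral_cexp_quadratic hb (2 * I * ((H : ℂ) ^ 2 * a - (t - T)))
    ((H : ℂ) ^ 2 * a ^ 2 - 2 * a * (t - T))
  have e1 : ∀ y : ℝ, exp ((H : ℂ) ^ 2 * zz T y ^ 2 + 2 * zz T y * T) * exp (-2 * zz T y * t) =
      exp (-(H : ℂ) ^ 2 * y ^ 2 + 2 * I * ((H : ℂ) ^ 2 * a - (t - T)) * y +
        ((H : ℂ) ^ 2 * a ^ 2 - 2 * a * (t - T))) := fun y => by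
    rw [← exp_add]
    congr 1
    unfold zz
    rw [← ha]
    linear_combination ((H : ℂ) ^ 2 * y ^ 2) * I_sq
  simp_rw [e1]
  rw [h, ofReal_mul]
  congr 1
  · rw [Real.sqrt_eq_rpow, ofReal_cpow (by positivity)]
    push_cast
    rw [neg_neg]
  · push_cast
    congr 1
    field_simp
    linear_combination (4 * ((H : ℂ) ^ 2 * a - (t - T)) ^ 2) * I_sq

theorem nw {T H : ℝ} (hH : 0 < H) (hHT : H ≤ T) (y : ℝ) :
    ‖exp ((H : ℂ) ^ 2 * zz T y ^ 2 + 2 * zz T y * T)‖ ≤ Real.exp 3 * Real.exp (-H ^ 2 * y ^ 2) := by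
  have hT : 0 < T := hH.trans_le hHT
  rw [norm_exp, ← Real.exp_add, Real.exp_le_exp]
  have e1 : ((H : ℂ) ^ 2 * zz T y ^ 2 + 2 * zz T y * T).re =
      H ^ 2 * ((1 / T) ^ 2 - y ^ 2) + 2 * (1 / T) * T := by
    rw [← ofReal_pow, add_re, re_ofReal_mul, sq (zz T y), mul_re, re_mul_ofReal, zz_re, zz_im,
      show (2 : ℂ) = ((2 : ℝ) : ℂ) by norm_num, re_ofReal_mul, zz_re]
    ring
  have e2 : 2 * (1 / T) * T = 2 := by field_simp
  have e3 : H ^ 2 * (1 / T) ^ 2 ≤ 1 := by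
    rw [← mul_pow, mul_one_div]
    exact pow_le_one₀ (by positivity) ((div_le_one hT).2 hHT)
  rw [e1, e2]
  nlinarith

theorem swap (hD : St_DY) (P : Polynomial ℝ) {T H : ℝ} (hH : 0 < H) (hHT : H ≤ T) :
    ((√(π / H ^ 2) * ∫ t in Ioi (0 : ℝ), err P t * Real.exp (-((t - T) / H) ^ 2) : ℝ) : ℂ) =
      ∫ y : ℝ, exp ((H : ℂ) ^ 2 * zz T y ^ 2 + 2 * zz T y * T) * LE P (zz T y) := by
  have hT : 0 < T := hH.trans_le hHT
  have hc := (hD.2.2.2.2 P).1
  have hm : AEStronglyMeasurable (err P) (volume.restrict (Ioi (0 : ℝ))) :=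
    hc.aestronglyMeasurable measurableSet_Ioi
  have i1 := (err_int hD P (s := 2 * (1 / T)) (by positivity)).norm
  have i2 := (integrable_exp_neg_mul_sq (b := H ^ 2) (by positivity)).const_mul (Real.exp 3)
  have hI : Integrable (Function.uncurry fun (t y : ℝ) => (err P t : ℂ) *
      (exp ((H : ℂ) ^ 2 * zz T y ^ 2 + 2 * zz T y * T) * exp (-2 * zz T y * t)))
      ((volume.restrict (Ioi (0 : ℝ))).prod volume) := by
    refine (i1.mul_prod i2).mono' ?_ (Eventually.of_forall fun p => ?_)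
    · refine AEStronglyMeasurable.mul ?_ ?_
      · exact (continuous_ofReal.comp_aestronglyMeasurable hm).comp_fst
      · refine Continuous.aestronglyMeasurable ?_
        unfold zz
        fun_prop
    · obtain ⟨t, y⟩ := p
      have e1 : ‖exp (-2 * zz T y * t)‖ = Real.exp (-(2 * (1 / T)) * t) := by
        rw [norm_exp, re_mul_ofReal, show (-2 : ℂ) = ((-2 : ℝ) : ℂ) by norm_num, re_ofReal_mul,
          zz_re]
        congr 1
        ring
      simp only [Function.uncurry_apply_pair, norm_mul, e1, Complex.norm_real,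
        Real.norm_of_nonneg (Real.exp_pos _).le]
      have := nw hH hHT y
      calc ‖err P t‖ * (‖exp ((H : ℂ) ^ 2 * zz T y ^ 2 + 2 * zz T y * T)‖ *
            Real.exp (-(2 * (1 / T)) * t))
          ≤ ‖err P t‖ * (Real.exp 3 * Real.exp (-H ^ 2 * y ^ 2) *
            Real.exp (-(2 * (1 / T)) * t)) := by gcongr
        _ = _ := by ring
  have h := integral_integral_swap hI
  simp_rw [integral_const_mul, gauss hH] at h
  rw [← integral_const_mul, ← integral_complex_ofReal]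
  refine Eq.trans (integral_congr_ae (Eventually.of_forall fun t => ?_)) (h.trans ?_)
  · simp only
    push_cast
    ring
  · refine integral_congr_ae (Eventually.of_forall fun y => ?_)
    unfold LE
    simp only
    rw [← integral_const_mul]
    refine integral_congr_ae (Eventually.of_forall fun t => ?_)
    simp only
    ring

theorem pw (k : ℕ) {x : ℝ} (hx : 0 ≤ x) :
    (1 + x) ^ k ≤ Real.exp (k ^ 2 / 2) * Real.exp (x ^ 2 / 2) := by
  calc (1 + x) ^ k ≤ Real.exp x ^ k := by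
        gcongr
        linarith [Real.add_one_le_exp x]
    _ = Real.exp (k * x) := (Real.exp_nat_mul x k).symm
    _ ≤ _ := by
        rw [← Real.exp_add, Real.exp_le_exp]
        nlinarith [sq_nonneg ((k : ℝ) - x)]

theorem leb {P : Polynomial ℝ} {C : ℝ} {k : ℕ}
    (h : ∀ e ∈ Ioc (0 : ℝ) 1, ∀ z ∈ RH, e * ‖z‖ ≤ z.re →
      ‖LE P z‖ ≤ C / e ^ k * ‖z‖ ^ (-(3 / 2) : ℝ)) {T H : ℝ} (hH : 0 < H) (hHT : H ≤ T) (y : ℝ) :
    ‖LE P (zz T y)‖ ≤ |C| * (T / H) ^ k * (T * √T) *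
      (Real.exp (k ^ 2 / 2) * Real.exp (H ^ 2 * y ^ 2 / 2)) := by
  have hT : 0 < T := hH.trans_le hHT
  have h1 : 1 / T ≤ ‖zz T y‖ := by
    rw [← zz_re T y]
    exact re_le_norm _
  have h0 : 0 < 1 / T := by positivity
  have hz : 0 < ‖zz T y‖ := h0.trans_le h1
  have h2 : 1 ≤ T * ‖zz T y‖ := by
    rw [div_le_iff₀ hT] at h1
    linarith
  have h3 := h (1 / (T * ‖zz T y‖)) ⟨by positivity, (div_le_one (by positivity)).2 h2⟩ (zz T y)
    (by show 0 < (zz T y).re; rw [zz_re]; exact h0) (by rw [zz_re]; apply le_of_eq; field_simp)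
  refine h3.trans ?_
  have h4 : ‖zz T y‖ ^ (-(3 / 2) : ℝ) ≤ T * √T := by
    calc ‖zz T y‖ ^ (-(3 / 2) : ℝ) ≤ (1 / T) ^ (-(3 / 2) : ℝ) :=
          Real.rpow_le_rpow_of_nonpos h0 h1 (by norm_num)
      _ = T * √T := by
          rw [one_div, Real.inv_rpow hT.le, ← Real.rpow_neg hT.le, neg_neg, Real.sqrt_eq_rpow,
            show (3 / 2 : ℝ) = 1 + 1 / 2 by norm_num, Real.rpow_add hT, Real.rpow_one]
  have h5 : T * ‖zz T y‖ ≤ T / H * (1 + H * |y|) := by
    have a1 := norm_le_abs_re_add_abs_im (zz T y)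
    rw [zz_re, zz_im, abs_of_pos h0] at a1
    have a2 : 1 ≤ T / H := (one_le_div hH).2 hHT
    calc T * ‖zz T y‖ ≤ T * (1 / T + |y|) := by gcongr
      _ = 1 + T / H * (H * |y|) := by field_simp
      _ ≤ _ := by linarith
  have h6 := pw k (x := H * |y|) (by positivity)
  rw [mul_pow H, sq_abs] at h6
  have h7 : C / (1 / (T * ‖zz T y‖)) ^ k = C * (T * ‖zz T y‖) ^ k := by
    rw [one_div, inv_pow, div_inv_eq_mul]
  rw [h7]
  calc C * (T * ‖zz T y‖) ^ k * ‖zz T y‖ ^ (-(3 / 2) : ℝ)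
      ≤ |C| * (T * ‖zz T y‖) ^ k * ‖zz T y‖ ^ (-(3 / 2) : ℝ) := by
        gcongr
        exact le_abs_self C
    _ ≤ |C| * (T / H * (1 + H * |y|)) ^ k * (T * √T) := by gcongr
    _ = |C| * (T / H) ^ k * (T * √T) * (1 + H * |y|) ^ k := by rw [mul_pow]; ring
    _ ≤ _ := by gcongr

end GAU

open GAU in
theorem t_gau : T_GAU := by
  intro hD P C k h
  refine ⟨2 * Real.exp 3 * |C| * Real.exp (k ^ 2 / 2), fun T H hH hHT => ?_⟩
  have hT : 0 < T := hH.trans_le hHT
  have ha : 0 < √(π / H ^ 2) := Real.sqrt_pos.2 (by positivity)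
  set B : ℝ := Real.exp 3 * (|C| * (T / H) ^ k * (T * √T) * Real.exp (k ^ 2 / 2)) with hB
  have hB0 : 0 ≤ B := by positivity
  have h1 : ‖∫ y : ℝ, exp ((H : ℂ) ^ 2 * zz T y ^ 2 + 2 * zz T y * T) * LE P (zz T y)‖ ≤
      ∫ y : ℝ, B * Real.exp (-(H ^ 2 / 2) * y ^ 2) := by
    refine norm_integral_le_of_norm_le
      ((integrable_exp_neg_mul_sq (by positivity)).const_mul B) (Eventually.of_forall fun y => ?_)
    rw [norm_mul]
    have e1 : Real.exp (-H ^ 2 * y ^ 2) * Real.exp (H ^ 2 * y ^ 2 / 2) =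
        Real.exp (-(H ^ 2 / 2) * y ^ 2) := by
      rw [← Real.exp_add]
      congr 1
      ring
    calc _ ≤ Real.exp 3 * Real.exp (-H ^ 2 * y ^ 2) * (|C| * (T / H) ^ k * (T * √T) *
          (Real.exp (k ^ 2 / 2) * Real.exp (H ^ 2 * y ^ 2 / 2))) :=
          mul_le_mul (nw hH hHT y) (leb h hH hHT y) (norm_nonneg _) (by positivity)
      _ = _ := by rw [← e1, hB]; ring
  rw [← swap hD P hH hHT, integral_const_mul, integral_gaussian, Complex.norm_real,
    Real.norm_eq_abs, abs_mul, abs_of_pos ha] at h1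
  have h2 : √(π / (H ^ 2 / 2)) ≤ 2 * √(π / H ^ 2) := by
    rw [Real.sqrt_le_left (by positivity), mul_pow, Real.sq_sqrt (by positivity)]
    have : π / (H ^ 2 / 2) = 2 * (π / H ^ 2) := by field_simp
    have h3 : 0 < π / H ^ 2 := by positivity
    linarith
  have h3 : √(π / H ^ 2) * |∫ t in Ioi (0 : ℝ), err P t * Real.exp (-((t - T) / H) ^ 2)| ≤
      √(π / H ^ 2) * (2 * B) := by
    calc _ ≤ B * √(π / (H ^ 2 / 2)) := h1
      _ ≤ B * (2 * √(π / H ^ 2)) := by gcongr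
      _ = _ := by ring
  refine (le_of_mul_le_mul_left h3 ha).trans (le_of_eq ?_)
  rw [hB, pow_succ (T / H) k]
  field_simp

end

end Pool.Agent.Lib.E2
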