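import Pool.Agent.Lib.E2.Blue

namespace Pool.Agent.Lib.E2

noncomputable section

open Complex MeasureTheory Set Filter Topology
open scoped Real UpperHalfPlane MatrixGroups ComplexConjugate Modular ENNReal InnerProductSpace

namespace GEO

theorem qd_eq (z w : ℍ) :
    qd z w = 1 + ((z.re - w.re) ^ 2 + (z.im - w.im) ^ 2) / (2 * z.im * w.im) := by
  unfold qd
  rw [UpperHalfPlane.cosh_dist, Complex.dist_eq_re_im, Real.sq_sqrt (by positivity)]
  rfl

theorem qd_tri (z u w : ℍ) : qd z w ≤ 2 * qd z u * qd u w := by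
  unfold qd
  have h1 : Real.cosh (dist z w) ≤ Real.cosh (dist z u + dist u w) := by
    rw [Real.cosh_le_cosh, abs_of_nonneg dist_nonneg, abs_of_nonneg (by positivity)]
    exact dist_triangle z u w
  have h2 : ∀ x : ℝ, 0 ≤ x → 0 ≤ Real.sinh x := fun x hx => Real.sinh_nonneg_iff.2 hx
  have h3 : Real.sinh (dist z u) * Real.sinh (dist u w) ≤
      Real.cosh (dist z u) * Real.cosh (dist u w) :=
    mul_le_mul (Real.sinh_lt_cosh _).le (Real.sinh_lt_cosh _).le (h2 _ dist_nonneg)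
      (Real.cosh_pos _).le
  rw [Real.cosh_add] at h1
  linarith

theorem gl_pres (g : GL (Fin 2) ℝ) :
    MeasurePreserving (fun w : ℍ => g • w) volume volume ∧
    ∀ f : ℍ → ℂ, (∫ w, f (g • w) = ∫ w, f w) ∧
      (Integrable (fun w => f (g • w)) ↔ Integrable f) := by
  have h : MeasurePreserving (fun w : ℍ => g • w) volume volume := measurePreserving_smul g volume
  have he : MeasurableEmbedding (fun w : ℍ => g • w) := measurableEmbedding_const_smul g
  exact ⟨h, fun f => ⟨h.integral_comp he f, h.integrable_comp_emb he⟩⟩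

theorem sl_real (g : SL(2, ℝ)) : (∀ z w : ℍ, qd (g • z) (g • w) = qd z w) ∧
    MeasurePreserving (fun w : ℍ => g • w) volume volume ∧
    ∀ f : ℍ → ℂ, (∫ w, f (g • w) = ∫ w, f w) ∧
      (Integrable (fun w => f (g • w)) ↔ Integrable f) :=
  ⟨fun z w => by unfold qd; rw [dist_smul], gl_pres (Matrix.SpecialLinearGroup.mapGL ℝ g)⟩

theorem int_real (g : SL(2, ℤ)) : ∃ g' : SL(2, ℝ), ∀ z : ℍ, g • z = g' • z := by
  refine ⟨Matrix.SpecialLinearGroup.map (Int.castRingHom ℝ) g, fun z => ?_⟩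
  apply UpperHalfPlane.ext
  rw [UpperHalfPlane.coe_specialLinearGroup_apply, UpperHalfPlane.coe_specialLinearGroup_apply]
  simp

theorem aff (z : ℍ) : ∃ g : SL(2, ℝ), g • UpperHalfPlane.I = z ∧
    ∀ w : ℍ, (g • w).re = z.re + z.im * w.re ∧ (g • w).im = z.im * w.im := by
  refine ⟨z.toSL2R, z.toSL2R_smul_I, fun w => ?_⟩
  have hs : √z.im ≠ 0 := (Real.sqrt_pos.2 z.im_pos).ne'
  have hs' : ((√z.im : ℝ) : ℂ) ≠ 0 := by exact_mod_cast hs
  have hq : ((√z.im : ℝ) : ℂ) * (√z.im : ℝ) = (z.im : ℝ) := by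
    exact_mod_cast Real.mul_self_sqrt z.im_pos.le
  have h : ((z.toSL2R • w : ℍ) : ℂ) = (z.re : ℝ) + (z.im : ℝ) * (w : ℂ) := by
    rw [UpperHalfPlane.coe_specialLinearGroup_apply]
    simp only [UpperHalfPlane.coe_toSL2R]
    simp
    rw [← hq]
    field_simp
    ring
  constructor
  · rw [← UpperHalfPlane.coe_re, h]; simp
  · rw [← UpperHalfPlane.coe_im, h]; simp

/-- the half turn -/
def ht (p q : ℝ) (hq : q ≠ 0) : SL(2, ℝ) :=
  ⟨!![p / q, -(p ^ 2 + q ^ 2) / q; 1 / q, -p / q], by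
    rw [Matrix.det_fin_two_of]; field_simp; ring⟩

theorem ht_smul (p q : ℝ) (hq : q ≠ 0) (z w : ℍ)
    (h : ((w : ℂ) - p) * ((z : ℂ) - p) = -(q : ℂ) ^ 2) : ht p q hq • z = w := by
  apply UpperHalfPlane.ext
  have hq' : (q : ℂ) ≠ 0 := by exact_mod_cast hq
  have hz : (z : ℂ) - p ≠ 0 := by
    intro h0
    rw [h0, mul_zero] at h
    exact pow_ne_zero 2 hq' (neg_eq_zero.1 h.symm)
  rw [UpperHalfPlane.coe_specialLinearGroup_apply]
  simp only [ht]
  simp
  have e : (q : ℂ)⁻¹ * (z : ℂ) + -(p : ℂ) / q = ((z : ℂ) - p) / q := by field_simp; ring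
  rw [e, div_eq_iff (div_ne_zero hz hq')]
  field_simp
  linear_combination -h

theorem swap (z w : ℍ) : ∃ g : SL(2, ℝ), g • z = w ∧ g • w = z := by
  have hz := z.im_pos
  have hw := w.im_pos
  set p : ℝ := (z.im * w.re + w.im * z.re) / (z.im + w.im) with hp
  have h1 : w.im * (z.re - p) + z.im * (w.re - p) = 0 := by rw [hp]; field_simp; ring
  have h2 : 0 < z.im * w.im - (z.re - p) * (w.re - p) := by
    have : w.im * ((z.re - p) * (w.re - p)) = -(z.im * (w.re - p) ^ 2) := by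
      linear_combination (w.re - p) * h1
    have h3 : (z.re - p) * (w.re - p) ≤ 0 := by
      by_contra hc
      have := mul_pos hw (not_le.1 hc)
      have := mul_nonneg hz.le (sq_nonneg (w.re - p))
      linarith
    have := mul_pos hz hw
    linarith
  have hq : √(z.im * w.im - (z.re - p) * (w.re - p)) ≠ 0 := (Real.sqrt_pos.2 h2).ne'
  have hs := Real.sq_sqrt h2.le
  have h : ((w : ℂ) - p) * ((z : ℂ) - p) =
      -((√(z.im * w.im - (z.re - p) * (w.re - p)) : ℝ) : ℂ) ^ 2 := by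
    rw [← Complex.ofReal_pow, hs]
    apply Complex.ext
    · simp; ring
    · simp; linear_combination h1
  exact ⟨ht p _ hq, ht_smul p _ hq z w h, ht_smul p _ hq w z (by rw [mul_comm]; exact h)⟩

end GEO

theorem t_geo : T_GEO := by
  refine ⟨GEO.qd_eq, fun z w => ⟨Real.one_le_cosh _, by unfold qd; rw [dist_comm]⟩,
    Real.continuous_cosh.comp continuous_dist, GEO.qd_tri, GEO.sl_real, fun g => ?_, GEO.aff,
    GEO.swap⟩
  obtain ⟨g', hg⟩ := GEO.int_real g
  simp only [hg]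
  exact GEO.sl_real g'

end

end Pool.Agent.Lib.E2
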