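import Pool.Agent.Lib.E2.Blue

namespace Pool.Agent.Lib.E2

open Complex MeasureTheory Set Filter Topology
open scoped Real

theorem glue_open : IsOpen Str :=
  isOpen_lt (continuous_abs.comp continuous_im) continuous_const

theorem glue_conv : Convex ℝ Str := by
  have : Str = {z : ℂ | -(π / 2) < z.im} ∩ {z : ℂ | z.im < π / 2} := by
    ext z; simp [Str, abs_lt]
  rw [this]
  exact (convex_halfSpace_im_gt _).inter (convex_halfSpace_im_lt _)

theorem t_glue : T_GLUE := by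
  intro hPAR hABS0 hZB3 hCJ hMAINR hSPEC hAN hM
  obtain ⟨ι, k, B, hD, hS⟩ := hSPEC
  refine ⟨ι, k, B, hD, fun r hr => ?_⟩
  have hC : ContB := hZB3.2.2.2.2.2.2.2.2 hM
  refine hPAR.2.2.1 (Msum k B) RR Str 0 1 glue_open glue_conv.isPreconnected
    (hABS0 ι k B hD hC).1 hAN zero_lt_one (fun x _ => ⟨?_, ?_⟩) hr
  · simp [Str, Real.pi_pos]
  · rw [← hMAINR x, hS x, hCJ x, Msum]

end Pool.Agent.Lib.E2
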