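import Pool.Agent.Lib.E2.Blue

/-!
Joint diagonalisation of a commuting family of symmetric Hilbert-Schmidt operators.
-/

namespace Pool.Agent.Lib.E2

noncomputable section

open Complex Set Filter Topology Module.End
open scoped InnerProductSpace

namespace HILBx

variable {H : Type} [NormedAddCommGroup H] [InnerProductSpace ℂ H]

theorem exists_small (T : H →L[ℂ] H) (M : ℝ)
    (hM : ∀ (n : ℕ) (e : Fin n → H), Orthonormal ℂ e → ∑ i, ‖T (e i)‖ ^ 2 ≤ M) {ε : ℝ}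
    (hε : 0 < ε) : ∃ (n : ℕ) (e : Fin n → H), ∀ v : H, (∀ i, ⟪v, e i⟫_ℂ = 0) →
      ‖T v‖ ≤ ε * ‖v‖ := by
  let S : Set ℝ := {x | ∃ (n : ℕ) (e : Fin n → H), Orthonormal ℂ e ∧ ∑ i, ‖T (e i)‖ ^ 2 = x}
  have hb : BddAbove S := ⟨M, by rintro x ⟨n, e, he, rfl⟩; exact hM n e he⟩
  have hne : S.Nonempty := ⟨_, 0, Fin.elim0, by simp, rfl⟩
  obtain ⟨x, ⟨n, e, he, rfl⟩, hx⟩ :=
    exists_lt_of_lt_csSup hne (show sSup S - ε ^ 2 < sSup S by linarith [pow_pos hε 2])
  refine ⟨n, e, fun v hv => ?_⟩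
  rcases eq_or_ne v 0 with rfl | hv0
  · simp
  have hn : 0 < ‖v‖ := norm_pos_iff.2 hv0
  set u : H := ((‖v‖⁻¹ : ℝ) : ℂ) • v with hu
  have hu1 : ‖u‖ = 1 := by
    rw [hu, norm_smul, Complex.norm_real, norm_inv, norm_norm, inv_mul_cancel₀ hn.ne']
  have ho : Orthonormal ℂ (Matrix.vecCons u e) :=
    orthonormal_vecCons_iff.2 ⟨hu1, fun i => by rw [hu, inner_smul_left, hv i, mul_zero], he⟩
  have hle : ∑ i, ‖T (Matrix.vecCons u e i)‖ ^ 2 ≤ sSup S := le_csSup hb ⟨_, _, ho, rfl⟩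
  rw [Fin.sum_univ_succ] at hle
  simp only [Matrix.cons_val_zero, Matrix.cons_val_succ] at hle
  have h1 : ‖T u‖ ≤ ε := by
    apply le_of_sq_le_sq _ hε.le
    linarith
  have h2 : ‖T u‖ = ‖v‖⁻¹ * ‖T v‖ := by
    rw [hu, map_smul, norm_smul, Complex.norm_real, norm_inv, norm_norm]
  rw [h2, inv_mul_le_iff₀ hn] at h1
  linarith

theorem compact [CompleteSpace H] (T : H →L[ℂ] H) (M : ℝ)
    (hM : ∀ (n : ℕ) (e : Fin n → H), Orthonormal ℂ e → ∑ i, ‖T (e i)‖ ^ 2 ≤ M) :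
    IsCompactOperator T := by
  have hc : IsClosed {f : H →L[ℂ] H | IsCompactOperator f} := isClosed_setOfPred_isCompactOperator
  refine hc.closure_subset (Metric.mem_closure_iff.2 fun ε hε => ?_)
  obtain ⟨n, e, he⟩ := exists_small T M hM (half_pos hε)
  let K : Submodule ℂ H := Submodule.span ℂ (range e)
  haveI : FiniteDimensional ℂ K := FiniteDimensional.span_of_finite ℂ (finite_range e)
  haveI : ProperSpace K := FiniteDimensional.proper ℂ K
  refine ⟨(T.comp K.subtypeL).comp K.orthogonalProjection, ?_, ?_⟩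
  · exact (isCompactOperator_of_locallyCompactSpace_rng (T.comp K.subtypeL)).comp_clm
      K.orthogonalProjection
  · rw [dist_eq_norm]
    refine lt_of_le_of_lt (ContinuousLinearMap.opNorm_le_bound _ (half_pos hε).le fun v => ?_)
      (half_lt_self hε)
    have h1 : (T - (T.comp K.subtypeL).comp K.orthogonalProjection) v =
        T (v - K.starProjection v) := by
      simp [map_sub]
    rw [h1]
    have h2 : v - K.starProjection v ∈ Kᗮ := K.sub_starProjection_mem_orthogonal v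
    refine (he _ fun i => ?_).trans (mul_le_mul_of_nonneg_left ?_ (half_pos hε).le)
    · exact Submodule.inner_left_of_mem_orthogonal (Submodule.subset_span (mem_range_self i)) h2
    · rw [← Submodule.starProjection_orthogonal_val]
      exact Kᗮ.norm_starProjection_apply_le v

theorem joint {A : Type} (T : A → H →L[ℂ] H) (hs : ∀ a x y, ⟪T a x, y⟫_ℂ = ⟪x, T a y⟫_ℂ)
    (hc : ∀ a b x, T a (T b x) = T b (T a x)) (V : Submodule ℂ H) [FiniteDimensional ℂ V]
    (hV : V ≠ ⊥) (hi : ∀ a, ∀ v ∈ V, T a v ∈ V) :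
    ∃ u ∈ V, u ≠ 0 ∧ ∀ a, ∃ l : ℂ, T a u = l • u := by
  let S : A → V →ₗ[ℂ] V := fun a => (T a : H →ₗ[ℂ] H).restrict (hi a)
  have hS : ∀ a, (S a).IsSymmetric := fun a x y => hs a x y
  have hC : Pairwise (Function.onFun Commute S) := fun a b _ =>
    LinearMap.ext fun x => Subtype.ext (hc a b x)
  have htop := LinearMap.IsSymmetric.iSup_iInf_eq_top_of_commute hS hC
  haveI : Nontrivial V := Submodule.nontrivial_iff_ne_bot.2 hV
  obtain ⟨χ, hχ⟩ : ∃ χ : A → ℂ, ⨅ i, eigenspace (S i) (χ i) ≠ ⊥ := by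
    by_contra h
    push Not at h
    rw [iSup_eq_bot.2 h] at htop
    exact bot_ne_top htop
  obtain ⟨u, hu, hu0⟩ := Submodule.exists_mem_ne_zero_of_ne_bot hχ
  refine ⟨u, u.2, fun h => hu0 (Subtype.ext h), fun a => ⟨χ a, ?_⟩⟩
  have := mem_eigenspace_iff.1 ((Submodule.mem_iInf _).1 hu a)
  exact congrArg Subtype.val this

end HILBx

open HILBx in
theorem t_hilb : T_HILB := by
  intro H _ _ _ A T hs hc hM
  let G : H → Prop := fun v => (∀ a, ∃ l : ℂ, T a v = l • v) ∧ ∃ a, T a v ≠ 0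
  obtain ⟨s, hmax⟩ := zorn_subset
    {s : Set H | Orthonormal ℂ (fun v : s => (v : H)) ∧ ∀ v ∈ s, G v} fun c hc' cc =>
      ⟨⋃₀ c, ⟨orthonormal_sUnion_of_directed cc.directedOn fun x xc => (hc' xc).1,
        fun v ⟨t, ht, hv⟩ => (hc' ht).2 v hv⟩, fun _ => subset_sUnion_of_mem⟩
  obtain ⟨ho, hG⟩ := hmax.prop
  refine ⟨s, ho, hG, fun v0 hv0 a0 => ?_⟩
  by_contra hne
  let W : Submodule ℂ H := (Submodule.span ℂ s)ᗮ
  have hW : ∀ v, v ∈ W ↔ ∀ w ∈ s, ⟪w, v⟫_ℂ = 0 := fun v =>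
    ⟨fun h w hw => h w (Submodule.subset_span hw), fun h u hu => by
      induction hu using Submodule.span_induction with
      | mem x hx => exact h x hx
      | zero => simp
      | add x y _ _ hx hy => rw [inner_add_left, hx, hy, add_zero]
      | smul c x _ hx => rw [inner_smul_left, hx, mul_zero]⟩
  have hi : ∀ a, ∀ v ∈ W, T a v ∈ W := fun a v hv => (hW _).2 fun w hw => by
    obtain ⟨l, hl⟩ := (hG w hw).1 a
    rw [← hs, hl, inner_smul_left, (hW v).1 hv w hw, mul_zero]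
  obtain ⟨M, hM0⟩ := hM a0
  have hK : IsCompactOperator (T a0) := compact (T a0) M hM0
  let S : W →L[ℂ] W := (T a0).restrict (hi a0)
  have hSK : IsCompactOperator S := hK.restrict' (hi a0)
  have hSs : S.IsSymmetric := fun x y => hs a0 x y
  have hS0 : S ≠ 0 := fun h => hne (congrArg Subtype.val (congrArg (fun f : W →L[ℂ] W =>
    f ⟨v0, (hW v0).2 hv0⟩) h))
  obtain ⟨μ, hμ, hμ0⟩ : ∃ μ, HasEigenvalue (S : Module.End ℂ W) μ ∧ μ ≠ 0 := by
    by_contra h
    push Not at h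
    exact hS0 ((ContinuousLinearMap.eq_zero_of_forall_hasEigenvalue_eq_zero hSK hSs).1 h)
  obtain ⟨x, hx, hx0⟩ := hμ.exists_hasEigenvector
  have hx' : T a0 x = μ • (x : H) := congrArg Subtype.val (mem_eigenspace_iff.1 hx)
  let E : Submodule ℂ H := eigenspace (T a0).toLinearMap μ
  haveI : FiniteDimensional ℂ E := ContinuousLinearMap.finite_dimensional_eigenspace hK μ hμ0
  have hE : ∀ v, v ∈ E ↔ T a0 v = μ • v := fun v => mem_eigenspace_iff
  obtain ⟨u, hu, hu0, hul⟩ := joint T hs hc (E ⊓ W)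
    ((Submodule.ne_bot_iff _).2 ⟨x, ⟨(hE _).2 hx', x.2⟩, fun h => hx0 (Subtype.ext h)⟩)
    fun a v hv => ⟨(hE _).2 (by rw [hc, (hE v).1 hv.1, map_smul]), hi a v hv.2⟩
  have hn : 0 < ‖u‖ := norm_pos_iff.2 hu0
  set y : H := ((‖u‖⁻¹ : ℝ) : ℂ) • u with hy
  have hy1 : ‖y‖ = 1 := by
    rw [hy, norm_smul, Complex.norm_real, norm_inv, norm_norm, inv_mul_cancel₀ hn.ne']
  have hy0 : y ≠ 0 := norm_ne_zero_iff.1 (by rw [hy1]; exact one_ne_zero)
  have hyW : ∀ w ∈ s, ⟪w, y⟫_ℂ = 0 := (hW y).1 (W.smul_mem _ hu.2)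
  have hyG : G y := by
    refine ⟨fun a => ?_, a0, ?_⟩
    · obtain ⟨l, hl⟩ := hul a
      exact ⟨l, by rw [hy, map_smul, hl, smul_comm]⟩
    · rw [(hE y).1 (E.smul_mem _ hu.1)]
      exact smul_ne_zero hμ0 hy0
  have hins : Orthonormal ℂ (fun v : (insert y s : Set H) => (v : H)) := by
    refine ⟨?_, ?_⟩
    · rintro ⟨v, rfl | hv⟩
      · exact hy1
      · exact ho.1 ⟨v, hv⟩
    · rintro ⟨v, hv⟩ ⟨w, hw⟩ hvw
      have hvw' : v ≠ w := fun h => hvw (Subtype.ext h)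
      rcases hv with rfl | hv <;> rcases hw with rfl | hw
      · exact absurd rfl hvw'
      · exact inner_eq_zero_symm.1 (hyW w hw)
      · exact hyW v hv
      · exact ho.2 (i := ⟨v, hv⟩) (j := ⟨w, hw⟩) fun h => hvw' (congrArg Subtype.val h)
  have hys : y ∈ s := hmax.le_of_ge (y := insert y s)
    ⟨hins, by rintro v (rfl | hv); exacts [hyG, hG v hv]⟩ (subset_insert y s) (mem_insert y s)
  exact hy0 (inner_self_eq_zero.1 (hyW y hys))

end

end Pool.Agent.Lib.E2
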