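import Pool.Agent.Lib.E2.Blue

/-!
Block INF2: the residue term `T2` is exponentially small for `Re r` large.
-/

namespace Pool.Agent.Lib.E2

open Complex MeasureTheory Set Filter Topology Metric
open scoped Real

namespace INF2

theorem A_bound : ∃ M : ℝ, 0 ≤ M ∧ ∀ u ∈ sphere (0 : ℂ) dl,
    ‖(2 * π : ℂ) ^ (-1 - u) * Gamma (1 + u) * riemannZeta (1 + u) ^ 2‖ ≤ M := by
  have hc : ContinuousOn
      (fun u : ℂ => (2 * π : ℂ) ^ (-1 - u) * Gamma (1 + u) * riemannZeta (1 + u) ^ 2)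
      (sphere (0 : ℂ) dl) := by
    intro u hu
    have hn : ‖u‖ = dl := by simpa using hu
    have hu0 : u ≠ 0 := by
      intro h
      rw [h, norm_zero] at hn
      exact dl_pos.ne hn
    have hre : 0 < (1 + u).re := by
      have := abs_re_le_norm u
      have h2 := dl_le
      have h3 := neg_abs_le u.re
      simp only [add_re, one_re]
      linarith
    apply ContinuousAt.continuousWithinAt
    have h1 : ContinuousAt (fun u : ℂ => (2 * π : ℂ) ^ (-1 - u)) u := by
      have hp : (2 * π : ℂ) ≠ 0 := by simp [Real.pi_ne_zero]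
      exact ContinuousAt.const_cpow (by fun_prop) (Or.inl hp)
    have h2 : ContinuousAt (fun u : ℂ => Gamma (1 + u)) u := by
      have hd : DifferentiableAt ℂ Gamma (1 + u) := differentiableAt_Gamma _ fun m hm => by
        rw [hm] at hre
        simp at hre
        linarith [(Nat.cast_nonneg m : (0 : ℝ) ≤ m)]
      exact hd.continuousAt.comp (f := fun u : ℂ => 1 + u) (by fun_prop)
    have h3 : ContinuousAt (fun u : ℂ => riemannZeta (1 + u)) u := by
      have hd : DifferentiableAt ℂ riemannZeta (1 + u) :=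
        differentiableAt_riemannZeta (by simpa using hu0)
      exact hd.continuousAt.comp (f := fun u : ℂ => 1 + u) (by fun_prop)
    exact (h1.mul h2).mul (h3.pow 2)
  obtain ⟨M, hM⟩ := (isCompact_sphere (0 : ℂ) dl).exists_bound_of_continuousOn hc
  exact ⟨max M 0, le_max_right _ _, fun u hu => (hM u hu).trans (le_max_left _ _)⟩

theorem pow_bound {x S a : ℝ} (h : Real.exp x / 3 ≤ S) (ha : a ≤ -(31 / 40)) :
    (1 + S) ^ a ≤ 3 * Real.exp (-(31 / 40) * x) := by
  have h0 : 0 < Real.exp x / 3 := by positivity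
  calc (1 + S) ^ a ≤ (1 + S) ^ (-(31 / 40) : ℝ) :=
        Real.rpow_le_rpow_of_exponent_le (by linarith) ha
    _ ≤ (Real.exp x / 3) ^ (-(31 / 40) : ℝ) :=
        Real.rpow_le_rpow_of_nonpos h0 (by linarith) (by norm_num)
    _ = Real.exp (-(31 / 40) * x) * (3 : ℝ) ^ (31 / 40 : ℝ) := by
        rw [Real.div_rpow (Real.exp_pos x).le (by norm_num), ← Real.exp_mul, div_eq_mul_inv,
          ← Real.rpow_neg (by norm_num : (0 : ℝ) ≤ 3), neg_neg, mul_comm x]
    _ ≤ Real.exp (-(31 / 40) * x) * 3 := by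
        gcongr
        calc (3 : ℝ) ^ (31 / 40 : ℝ) ≤ (3 : ℝ) ^ (1 : ℝ) :=
              Real.rpow_le_rpow_of_exponent_le (by norm_num) (by norm_num)
          _ = 3 := Real.rpow_one 3
    _ = _ := mul_comm _ _

theorem lin_bound {x : ℝ} (hx : 0 ≤ x) {L u : ℂ} (hL : ‖L‖ ≤ x + 4) (hu : ‖u‖ = dl) :
    ‖(c0 - L) / u + 1 / u ^ 2‖ ≤
      ((‖c0‖ + 18) / dl + 1 / dl ^ 2) * Real.exp (3 / 40 * x) := by
  have hd := dl_pos
  have h1 : 1 ≤ Real.exp (3 / 40 * x) := Real.one_le_exp (by positivity)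
  have h2 : x ≤ 14 * Real.exp (3 / 40 * x) := by
    have := Real.add_one_le_exp (3 / 40 * x)
    linarith
  have h3 : ‖c0 - L‖ ≤ (‖c0‖ + 18) * Real.exp (3 / 40 * x) := by
    have := norm_sub_le c0 L
    have h4 : ‖c0‖ ≤ ‖c0‖ * Real.exp (3 / 40 * x) := le_mul_of_one_le_right (norm_nonneg _) h1
    nlinarith
  calc ‖(c0 - L) / u + 1 / u ^ 2‖ ≤ ‖(c0 - L) / u‖ + ‖1 / u ^ 2‖ := norm_add_le _ _
    _ = ‖c0 - L‖ / dl + 1 / dl ^ 2 := by
        rw [norm_div, norm_div, norm_pow, hu, norm_one]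
    _ ≤ (‖c0‖ + 18) * Real.exp (3 / 40 * x) / dl + 1 / dl ^ 2 * Real.exp (3 / 40 * x) := by
        gcongr
        exact le_mul_of_one_le_right (by positivity) h1
    _ = _ := by ring

end INF2

open INF2 in
theorem t_inf2 : T_INF2 := by
  intro hNB hTH
  obtain ⟨-, -, -, -, ⟨C, hC⟩, -⟩ := hNB
  obtain ⟨M, hM0, hM⟩ := A_bound
  have hd := dl_pos
  have hd1 := dl_le
  set K : ℝ := (‖c0‖ + 18) / dl + 1 / dl ^ 2 with hK
  have hK0 : 0 ≤ K := by positivity
  refine ⟨4 * (dl * (Real.exp (2 / 5) * M * (|C| * Real.exp π * 3) * K)), 4, ?_⟩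
  intro e he r hr
  obtain ⟨hS, -, hth0, -, -, hth, -, -, -, -, -, hL⟩ := hTH e he r hr
  obtain ⟨hr1, hr2, hr3⟩ := hr
  have he0 := he.1
  have hsinh : Real.exp r.re / 3 ≤ ‖sinh r‖ := by
    have h1 : ‖th r‖ = ‖sinh r‖⁻¹ := by simp [th]
    rw [h1] at hth hth0
    have h2 : 0 < ‖sinh r‖ := inv_pos.1 hth0
    rw [Real.exp_neg, inv_le_iff_one_le_mul₀ h2] at hth
    have h3 := Real.exp_pos r.re
    rw [div_le_iff₀ (by norm_num)]
    have h4 : Real.exp r.re * (3 * (Real.exp r.re)⁻¹ * ‖sinh r‖) = ‖sinh r‖ * 3 := by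
      field_simp
    calc Real.exp r.re = Real.exp r.re * 1 := (mul_one _).symm
      _ ≤ Real.exp r.re * (3 * (Real.exp r.re)⁻¹ * ‖sinh r‖) := by gcongr
      _ = _ := h4
  have key : ∀ u ∈ sphere (0 : ℂ) dl,
      ‖exp (u * log (cosh r)) * (2 * π : ℂ) ^ (-1 - u) * Gamma (1 + u) * riemannZeta (1 + u) ^ 2 *
        Nf (1 + u) r * ((c0 - log (cosh r)) / u + 1 / u ^ 2)‖ ≤
      Real.exp (2 / 5) * M * (|C| * Real.exp π * 3) * K / e ^ 4 *
        Real.exp (-(3 / 5) * r.re) := by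
    intro u hu
    have hn : ‖u‖ = dl := by simpa using hu
    have hre := abs_le.1 ((abs_re_le_norm u).trans hn.le)
    have him : |u.im| ≤ dl := (abs_im_le_norm u).trans hn.le
    have b1 : ‖exp (u * log (cosh r))‖ ≤ Real.exp (2 / 5) * Real.exp (1 / 10 * r.re) := by
      rw [← Real.exp_add]
      refine (norm_exp_le_exp_norm _).trans (Real.exp_le_exp.2 ?_)
      rw [norm_mul, hn]
      calc dl * ‖log (cosh r)‖ ≤ 1 / 10 * (r.re + 4) := by gcongr
        _ = _ := by ring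
    have b2 := hM u hu
    have b3 : ‖Nf (1 + u) r‖ ≤ |C| * Real.exp π * 3 / e ^ 4 * Real.exp (-(31 / 40) * r.re) := by
      have h1 := hC (1 + u) r (by simp only [add_re, one_re]; linarith)
        (by simp only [add_re, one_re]; linarith) hS
      have h2 : (1 + ‖sinh r‖) ^ (1 / 8 - (1 + u).re) ≤ 3 * Real.exp (-(31 / 40) * r.re) :=
        pow_bound hsinh (by simp only [add_re, one_re]; linarith)
      have h3 : Real.exp (π * |(1 + u).im|) ≤ Real.exp π := by
        apply Real.exp_le_exp.2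
        have : |(1 + u).im| ≤ 1 := by simp only [add_im, one_im, zero_add]; linarith
        exact mul_le_of_le_one_right Real.pi_pos.le this
      have h4 : C / (π / 2 - |r.im|) ^ 4 ≤ |C| / e ^ 4 := by
        have h5 : e ≤ π / 2 - |r.im| := by rw [abs_of_nonneg hr2]; linarith
        calc C / (π / 2 - |r.im|) ^ 4 ≤ |C| / (π / 2 - |r.im|) ^ 4 := by
              gcongr
              exact le_abs_self C
          _ ≤ |C| / e ^ 4 := by gcongr
      calc ‖Nf (1 + u) r‖ ≤ _ := h1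
        _ ≤ |C| / e ^ 4 * Real.exp π * (3 * Real.exp (-(31 / 40) * r.re)) := by gcongr
        _ = _ := by ring
    have b4 := lin_bound (by linarith : 0 ≤ r.re) hL hn
    have e1 : exp (u * log (cosh r)) * (2 * π : ℂ) ^ (-1 - u) * Gamma (1 + u) *
        riemannZeta (1 + u) ^ 2 * Nf (1 + u) r * ((c0 - log (cosh r)) / u + 1 / u ^ 2) =
        exp (u * log (cosh r)) * ((2 * π : ℂ) ^ (-1 - u) * Gamma (1 + u) *
        riemannZeta (1 + u) ^ 2) * Nf (1 + u) r * ((c0 - log (cosh r)) / u + 1 / u ^ 2) := by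
      ring
    have e2 : Real.exp (-(3 / 5) * r.re) =
        Real.exp (1 / 10 * r.re) * Real.exp (-(31 / 40) * r.re) * Real.exp (3 / 40 * r.re) := by
      rw [← Real.exp_add, ← Real.exp_add]
      congr 1
      ring
    rw [e1, norm_mul, norm_mul, norm_mul, e2]
    calc _ ≤ Real.exp (2 / 5) * Real.exp (1 / 10 * r.re) * M *
          (|C| * Real.exp π * 3 / e ^ 4 * Real.exp (-(31 / 40) * r.re)) *
          (K * Real.exp (3 / 40 * r.re)) := by gcongr
      _ = _ := by ring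
  have hI := circleIntegral.norm_two_pi_i_inv_smul_integral_le_of_norm_le_const hd.le key
  rw [smul_eq_mul] at hI
  unfold T2
  rw [mul_assoc, norm_mul]
  have h4 : ‖(4 : ℂ)‖ = 4 := by simp
  rw [h4]
  calc _ ≤ 4 * (dl * (Real.exp (2 / 5) * M * (|C| * Real.exp π * 3) * K / e ^ 4 *
        Real.exp (-(3 / 5) * r.re))) := by gcongr
    _ = _ := by ring

end Pool.Agent.Lib.E2
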