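import Pool.Agent.Lib.E2.JB1

/-! Asymptotics of the residue at the pole of the continuous spectrum. -/

namespace Pool.Agent.Lib.E2

noncomputable section

open Complex MeasureTheory Set Filter Topology
open scoped Real

namespace INF3

open JB1

lemma frac_le {t : ℝ} (ht : 0 ≤ t) : t / (1 + t) ≤ t ^ (3 / 8 : ℝ) := by
  rcases le_total t 1 with h | h
  · exact (div_le_self ht (by linarith)).trans (Real.self_le_rpow_of_le_one ht h (by norm_num))
  · exact (div_le_one_of_le₀ (by linarith) (by linarith)).trans (Real.one_le_rpow h (by norm_num))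

lemma reg_str {e : ℝ} (he : e ∈ Ioc (0 : ℝ) 1) {r : ℂ} (hr : Reg e r) : r ∈ Str ∧ -r ∈ Str := by
  have h : |r.im| < π / 2 := by
    rw [abs_of_nonneg hr.2.1]
    linarith [hr.2.2, he.1]
  exact ⟨h, by simpa [Str] using h⟩

lemma cos_ge {e : ℝ} (he : e ∈ Ioc (0 : ℝ) 1) {r : ℂ} (hr : Reg e r) : e / 2 ≤ Real.cos r.im := by
  have hb : 0 ≤ π / 2 - r.im := by linarith [hr.2.2, he.1]
  have h := Real.mul_le_sin hb (by linarith [hr.2.1])
  rw [Real.sin_pi_div_two_sub] at h
  refine le_trans ?_ h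
  have h2 : 1 / 2 ≤ 2 / π := by
    rw [div_le_div_iff₀ two_pos Real.pi_pos]
    linarith [Real.pi_le_four]
  nlinarith [hr.2.2, he.1]

lemma z_bound {e : ℝ} (he : e ∈ Ioc (0 : ℝ) 1) {r : ℂ} (hr : Reg e r) (u : ℝ) :
    ‖bs (-r) u ^ (-(1 / 2) : ℂ) * exp r - 1‖ ≤
      (1 + u ^ 2) ^ (3 / 8 : ℝ) * (Real.exp (-(3 / 4) * r.re) * (2 / e)) := by
  have hs := (reg_str he hr).2
  have hc := cos_ge he hr
  have he0 := he.1
  have h0 : bs (-r) u ≠ 0 := slitPlane_ne_zero (bs_slit hs u)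
  have ha0 : (0 : ℝ) < 1 + u ^ 2 := by positivity
  set z := bs (-r) u ^ (-(1 / 2) : ℂ) * exp r with hz
  have hb : bs (-r) u = ((1 + u ^ 2 : ℝ) : ℂ) + exp (2 * r) := by
    rw [bs]; push_cast; ring_nf
  have h1 : 0 ≤ z.re := by
    rw [hz, cpow_def_of_ne_zero h0, ← exp_add, exp_re]
    refine mul_nonneg (Real.exp_pos _).le (Real.cos_nonneg_of_mem_Icc ?_)
    have h2 : (log (bs (-r) u) * (-(1 / 2) : ℂ) + r).im = -(arg (bs (-r) u) / 2) + r.im := by
      simp [log_im]
      ring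
    have h3 : 0 ≤ arg (bs (-r) u) := by
      rw [arg_nonneg_iff, hb, add_im, ofReal_im, zero_add, exp_im]
      refine mul_nonneg (Real.exp_pos _).le (Real.sin_nonneg_of_nonneg_of_le_pi ?_ ?_)
      · simpa using hr.2.1
      · have := hr.2.2
        simp only [mul_im, re_ofNat, im_ofNat, zero_mul, add_zero]
        linarith
    have h4 := arg_le_pi (bs (-r) u)
    rw [h2]
    constructor <;> linarith [hr.2.1, hr.2.2]
  have h2 : z ^ 2 - 1 = -((1 + u ^ 2 : ℝ) : ℂ) / bs (-r) u := by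
    have h3 : (bs (-r) u ^ (-(1 / 2) : ℂ)) ^ 2 = (bs (-r) u)⁻¹ := by
      rw [← cpow_nat_mul, ← cpow_neg_one]
      norm_num
    rw [hz, mul_pow, h3, ← exp_nat_mul, eq_div_iff h0, sub_mul, mul_right_comm,
      inv_mul_cancel₀ h0, hb]
    push_cast
    ring
  have h3 : ‖z - 1‖ ≤ ‖z ^ 2 - 1‖ := by
    have h4 : 1 ≤ ‖z + 1‖ := le_trans (by simpa using h1) (re_le_norm (z + 1))
    rw [show z ^ 2 - 1 = (z - 1) * (z + 1) by ring, norm_mul]
    exact le_mul_of_one_le_right (norm_nonneg _) h4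
  have h4 : (1 + u ^ 2 + Real.exp (2 * r.re)) * (e / 2) ≤ ‖bs (-r) u‖ := by
    have h := re_le_norm (bs (-r) u * exp ((-r).im * I))
    rw [rot, norm_mul, norm_exp_ofReal_mul_I, mul_one, neg_im, Real.cos_neg, neg_re,
      neg_mul_neg] at h
    exact (mul_le_mul_of_nonneg_left hc (by positivity)).trans h
  have hE := Real.exp_pos (2 * r.re)
  have h5 := frac_le (t := (1 + u ^ 2) / Real.exp (2 * r.re)) (by positivity)
  rw [Real.div_rpow ha0.le hE.le, ← Real.exp_mul, div_eq_mul_inv (_ ^ _), ← Real.exp_neg,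
    show -(2 * r.re * (3 / 8)) = -(3 / 4) * r.re by ring] at h5
  refine h3.trans ?_
  rw [h2, norm_div, norm_neg, norm_real, Real.norm_of_nonneg ha0.le, ← mul_assoc]
  refine (div_le_div_of_nonneg_left ha0.le (by positivity) h4).trans
    (le_trans (le_of_eq ?_) (mul_le_mul_of_nonneg_right h5 (by positivity)))
  field_simp
  ring

lemma sph {s : ℂ} (hs : s ∈ Metric.closedBall (1 : ℂ) dl) :
    9 / 10 ≤ s.re ∧ s.re ≤ 11 / 10 ∧ |s.im| ≤ 1 / 10 := by
  rw [mem_closedBall_iff_norm] at hs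
  have h1 := abs_le.1 ((abs_re_le_norm (s - 1)).trans (hs.trans dl_le))
  have h2 := (abs_im_le_norm (s - 1)).trans (hs.trans dl_le)
  simp only [sub_re, one_re, sub_im, one_im, sub_zero] at h1 h2
  exact ⟨by linarith [h1.1], by linarith [h1.2], h2⟩

/-- the constant in the bound -/
def K0 : ℝ := ∫ u : ℝ, (1 + u ^ 2) ^ (-(1 / 40) - 1 / 2 : ℝ)

lemma J_neg (hB : St_BET) {e : ℝ} (he : e ∈ Ioc (0 : ℝ) 1) {r : ℂ} (hr : Reg e r) {s : ℂ}
    (hs : s ∈ Metric.closedBall (1 : ℂ) dl) :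
    ‖Jf s (-r) - 2 * bet (s - 1 / 2) * exp ((s - 1) * r)‖ ≤
      4 * Real.exp 1 * K0 / e * Real.exp (-(3 / 5) * r.re) := by
  obtain ⟨h1, h2, h3⟩ := sph hs
  have hs' := (reg_str he hr).2
  have he0 := he.1
  have hi := (hB.1 (s - 1 / 2) (by simp; linarith)).1
  have e1 : -(s - 1 / 2) - 1 / 2 = -s := by ring
  rw [e1] at hi
  have e2 : Jf s (-r) - 2 * bet (s - 1 / 2) * exp ((s - 1) * r) = 2 * exp ((s - 1) * r) *
      ∫ u : ℝ, (ig s (-r) u * exp r - ((1 + u ^ 2 : ℝ) : ℂ) ^ (-s)) := by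
    have : exp (-s * -r) = exp ((s - 1) * r) * exp r := by
      rw [← exp_add]; congr 1; ring
    rw [integral_sub ((ig_int (by linarith) hs').mul_const _) hi, Jf_eq, bet, e1, this,
      integral_mul_const]
    ring
  have h := norm_integral_le_of_norm_le
    (f := fun u : ℝ => ig s (-r) u * exp r - ((1 + u ^ 2 : ℝ) : ℂ) ^ (-s))
    ((int_a (σ := 1 / 40) (by norm_num)).mul_const (Real.exp (-(3 / 4) * r.re) * (2 / e)))
    (Eventually.of_forall fun u => by
      have ha : (1 : ℝ) ≤ 1 + u ^ 2 := by nlinarith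
      have ha0 : (0 : ℝ) < 1 + u ^ 2 := by positivity
      rw [ig, mul_assoc, ← mul_sub_one, norm_mul, norm_cpow_eq_rpow_re_of_pos ha0]
      refine (mul_le_mul_of_nonneg_left (z_bound he hr u) (by positivity)).trans ?_
      rw [← mul_assoc, ← Real.rpow_add ha0]
      refine mul_le_mul_of_nonneg_right (Real.rpow_le_rpow_of_exponent_le ha ?_) (by positivity)
      rw [neg_re]
      linarith)
  rw [integral_mul_const] at h
  have hK : 0 ≤ K0 := integral_nonneg fun u => by positivity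
  have h4 : ‖exp ((s - 1) * r)‖ * Real.exp (-(3 / 4) * r.re) ≤
      Real.exp 1 * Real.exp (-(3 / 5) * r.re) := by
    rw [norm_exp, ← Real.exp_add, ← Real.exp_add, Real.exp_le_exp]
    simp only [mul_re, sub_re, one_re, sub_im, one_im, sub_zero]
    have h5 := abs_le.1 h3
    nlinarith [hr.1, hr.2.1, hr.2.2, Real.pi_le_four]
  rw [e2, norm_mul, norm_mul, Complex.norm_two]
  refine (mul_le_mul_of_nonneg_left h (by positivity)).trans ?_
  have h5 := mul_le_mul_of_nonneg_left h4 (show 0 ≤ 4 * K0 / e by positivity)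
  refine le_trans (le_of_eq ?_) (h5.trans (le_of_eq ?_))
  · rw [K0]; ring
  · ring

lemma J_pos {C : ℝ} (hC : ∀ s r : ℂ, 1 / 4 ≤ s.re → s.re ≤ 2 → r ∈ Str →
    ‖Jf s r‖ ≤ C * Real.exp (s.im * r.im - s.re * r.re) * (π / 2 - |r.im|) ^ (-(1 / 2) : ℝ))
    {e : ℝ} (he : e ∈ Ioc (0 : ℝ) 1) {r : ℂ} (hr : Reg e r) {s : ℂ}
    (hs : s ∈ Metric.closedBall (1 : ℂ) dl) :
    ‖Jf s r‖ ≤ |C| * Real.exp 1 / e * Real.exp (-(3 / 5) * r.re) := by
  obtain ⟨h1, h2, h3⟩ := sph hs
  have he0 := he.1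
  have h4 : Real.exp (s.im * r.im - s.re * r.re) ≤ Real.exp 1 * Real.exp (-(3 / 5) * r.re) := by
    rw [← Real.exp_add, Real.exp_le_exp]
    have h5 := abs_le.1 h3
    nlinarith [hr.1, hr.2.1, hr.2.2, Real.pi_le_four]
  have h5 : (π / 2 - |r.im|) ^ (-(1 / 2) : ℝ) ≤ e⁻¹ := by
    rw [abs_of_nonneg hr.2.1, ← Real.rpow_neg_one]
    exact (Real.rpow_le_rpow_of_nonpos he0 (by linarith [hr.2.2]) (by norm_num)).trans
      (Real.rpow_le_rpow_of_exponent_ge he0 he.2 (by norm_num))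
  have h6 : 0 ≤ π / 2 - |r.im| := (sub_pos.2 (reg_str he hr).1).le
  refine (hC s r (by linarith) (by linarith) (reg_str he hr).1).trans
    (le_trans (mul_le_mul (mul_le_mul (le_abs_self C) h4 (by positivity) (by positivity)) h5
      (by positivity) (by positivity)) (le_of_eq ?_))
  ring

/-- the factor independent of `r` -/
def Af (s : ℂ) : ℂ := coef s * ((2 * π : ℂ) ^ (-s) * Gamma s * riemannZeta s ^ 2)

lemma Af_eq (hZ : St_ZB3) : ∃ f : ℂ → ℂ, (∀ s ∈ Metric.closedBall (1 : ℂ) dl,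
    DifferentiableAt ℂ f s) ∧ ∀ s ∈ Metric.sphere (1 : ℂ) dl, Af s = f s / (s - 1) ^ 5 := by
  obtain ⟨f, h1, h2⟩ := hZ.2.2.1
  refine ⟨fun s => f s * ((2 * π : ℂ) ^ (-s) * Gamma s *
    (((s - 1) * completedRiemannZeta₀ s - (s - 1) / s + 1) * (Gammaℝ s)⁻¹) ^ 2),
    fun s hs => ?_, fun s hs => ?_⟩
  · have h3 := (sph hs).1
    have h0 : s ≠ 0 := by rintro rfl; norm_num at h3
    have a1 := h1 s hs
    have a2 : DifferentiableAt ℂ (fun s : ℂ => (2 * π : ℂ) ^ (-s)) s :=
      differentiableAt_id.neg.const_cpow (.inl (by simp))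
    have a3 : DifferentiableAt ℂ Gamma s := differentiableAt_Gamma s fun m hm => by
      rw [hm] at h3
      simp only [neg_re, natCast_re] at h3
      linarith [(Nat.cast_nonneg m : (0 : ℝ) ≤ m)]
    have a4 := differentiable_completedZeta₀ s
    have a5 := differentiable_Gammaℝ_inv s
    fun_prop (disch := assumption)
  · have h3 := (sph (Metric.sphere_subset_closedBall hs)).1
    have h0 : s ≠ 0 := by rintro rfl; norm_num at h3
    have h4 : s ≠ 1 := by
      rintro rfl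
      exact dl_pos.ne (by simpa using hs)
    have h5 : s - 1 ≠ 0 := sub_ne_zero.2 h4
    have h6 : 1 - s ≠ 0 := sub_ne_zero.2 h4.symm
    have h7 : riemannZeta s =
        ((s - 1) * completedRiemannZeta₀ s - (s - 1) / s + 1) * (Gammaℝ s)⁻¹ / (s - 1) := by
      rw [riemannZeta_def_of_ne_zero h0, completedRiemannZeta_eq, div_eq_mul_inv _ (Gammaℝ s),
        mul_div_right_comm]
      congr 1
      field_simp
      ring
    rw [Af, h2 s (Metric.sphere_subset_closedBall hs) h4]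
    simp only
    rw [h7]
    field_simp

end INF3

open INF3 in
theorem t_inf3 : T_INF3 := by
  intro hS hB hJ hZ
  obtain ⟨f, h1, h2⟩ := Af_eq hZ
  have hne : ∀ s ∈ Metric.sphere (1 : ℂ) dl, s - 1 ≠ 0 := fun s hs h => by
    rw [mem_sphere_iff_norm, h, norm_zero] at hs
    exact dl_pos.ne hs
  have hb : ∀ s ∈ Metric.closedBall (1 : ℂ) dl,
      DifferentiableAt ℂ (fun s => bet (s - 1 / 2)) s := fun s hs => by
    have h3 := (sph hs).1
    refine (hB.2.1.differentiableAt ((isOpen_lt continuous_const continuous_re).mem_nhds ?_)).comp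
      s (differentiableAt_id.sub_const _)
    simp only [id, sub_re, mem_ofPred_eq]
    norm_num
    linarith
  have hA : ContinuousOn Af (Metric.sphere 1 dl) := by
    refine ContinuousOn.congr (ContinuousOn.div (fun s hs =>
      (h1 s (Metric.sphere_subset_closedBall hs)).continuousAt.continuousWithinAt) (by fun_prop)
      fun s hs => pow_ne_zero 5 (hne s hs)) h2
  obtain ⟨M, hM⟩ := (isCompact_sphere (1 : ℂ) dl).exists_bound_of_continuousOn hA
  obtain ⟨Q, hQ⟩ := hS.2 (fun s => Af s * (2 * bet (s - 1 / 2)))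
    (fun s => f s * (2 * bet (s - 1 / 2))) 5 1 dl dl_pos
    (fun s hs => (h1 s hs).mul ((hb s hs).const_mul 2)) fun s hs => by rw [h2 s hs]; ring
  obtain ⟨C, hC⟩ := hJ.2.2.2.1
  refine ⟨Polynomial.C (2 * π * I : ℂ)⁻¹ * Q,
    dl * (|M| * (|C| * Real.exp 1 + 4 * Real.exp 1 * K0)), 1, fun e he r hr => ?_⟩
  have hJc : ∀ r ∈ Str, ContinuousOn (fun s => Jf s r) (Metric.sphere 1 dl) := fun r hr =>
    hJ.2.1.comp (f := fun s : ℂ => (s, r)) (by fun_prop) fun s hs =>
      ⟨by linarith [(sph (Metric.sphere_subset_closedBall hs)).1], hr⟩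
  have i1 : CircleIntegrable (fun s => coef s * Pif s r) 1 dl := by
    refine ContinuousOn.circleIntegrable dl_pos.le (ContinuousOn.congr
      (hA.mul ((hJc r (reg_str he hr).1).add (hJc _ (reg_str he hr).2))) fun s _ => ?_)
    simp only [Af, Pif, Pi.mul_apply, Pi.add_apply]
    ring
  have i2 : CircleIntegrable (fun s => Af s * (2 * bet (s - 1 / 2)) * exp ((s - 1) * r)) 1 dl :=
    ContinuousOn.circleIntegrable dl_pos.le ((hA.mul (ContinuousOn.const_mul (fun s hs =>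
      (hb s (Metric.sphere_subset_closedBall hs)).continuousAt.continuousWithinAt) 2)).mul
        (by fun_prop))
  rw [Polynomial.eval_mul, Polynomial.eval_C, ← hQ r, T3, ← mul_sub,
    ← circleIntegral.integral_sub i1 i2, ← smul_eq_mul]
  refine (circleIntegral.norm_two_pi_i_inv_smul_integral_le_of_norm_le_const dl_pos.le
    (C := |M| * ((|C| * Real.exp 1 + 4 * Real.exp 1 * K0) / e * Real.exp (-(3 / 5) * r.re)))
    fun s hs => ?_).trans (le_of_eq (by ring))
  have hs' := Metric.sphere_subset_closedBall hs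
  have e1 : coef s * Pif s r - Af s * (2 * bet (s - 1 / 2)) * exp ((s - 1) * r) =
      Af s * (Jf s r + (Jf s (-r) - 2 * bet (s - 1 / 2) * exp ((s - 1) * r))) := by
    rw [Af, Pif]; ring
  rw [e1, norm_mul]
  refine mul_le_mul ((hM s hs).trans (le_abs_self M)) ((norm_add_le _ _).trans
    ((add_le_add (J_pos hC he hr hs') (J_neg hB he hr hs')).trans (le_of_eq (by ring))))
    (norm_nonneg _) (abs_nonneg _)

end

end Pool.Agent.Lib.E2
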