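import Pool.Agent.Lib.E2.Blue

namespace Pool.Agent.Lib.E2

noncomputable section

open Complex MeasureTheory Set Filter Topology
open scoped Real

namespace JB1

/-- the base `1 + exp (-2 r) + u ^ 2` -/
def bs (r : ℂ) (u : ℝ) : ℂ := 1 + exp (-2 * r) + (u : ℂ) ^ 2

/-- the integrand -/
def ig (s r : ℂ) (u : ℝ) : ℂ := ((1 + u ^ 2 : ℝ) : ℂ) ^ (-s) * bs r u ^ (-(1 / 2) : ℂ)

theorem cos_pos {r : ℂ} (hr : r ∈ Str) : 0 < Real.cos r.im :=
  Real.cos_pos_of_mem_Ioo (abs_lt.1 (show |r.im| < π / 2 from hr))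

theorem rot (r : ℂ) (u : ℝ) :
    (bs r u * exp (r.im * I)).re = (1 + u ^ 2 + Real.exp (-2 * r.re)) * Real.cos r.im := by
  have h : bs r u * exp (r.im * I) =
      ((1 + u ^ 2 : ℝ) : ℂ) * exp (r.im * I) + exp (-2 * r + r.im * I) := by
    rw [bs, exp_add]; push_cast; ring
  rw [h, add_re, re_ofReal_mul, exp_ofReal_mul_I_re, exp_re]
  have e1 : (-2 * r + r.im * I).re = -2 * r.re := by simp
  have e2 : (-2 * r + r.im * I).im = -r.im := by simp; ring
  rw [e1, e2, Real.cos_neg]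
  ring

theorem bs_norm {r : ℂ} (hr : r ∈ Str) (u : ℝ) : (1 + u ^ 2) * Real.cos r.im ≤ ‖bs r u‖ := by
  have h := re_le_norm (bs r u * exp (r.im * I))
  rw [rot, norm_mul, norm_exp_ofReal_mul_I, mul_one] at h
  have := mul_pos (Real.exp_pos (-2 * r.re)) (cos_pos hr)
  linarith

theorem bs_slit {r : ℂ} (hr : r ∈ Str) (u : ℝ) : bs r u ∈ slitPlane := by
  by_contra h
  rw [mem_slitPlane_iff, not_or, not_lt, not_not] at h
  have h1 := rot r u
  rw [mul_re, h.2, zero_mul, sub_zero, exp_ofReal_mul_I_re] at h1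
  have h2 := mul_right_cancel₀ (cos_pos hr).ne' h1
  have := Real.exp_pos (-2 * r.re)
  nlinarith [h.1]

theorem a_slit (u : ℝ) : ((1 + u ^ 2 : ℝ) : ℂ) ∈ slitPlane := ofReal_mem_slitPlane.2 (by positivity)

theorem half_cast : (-(1 / 2) : ℂ) = ((-(1 / 2) : ℝ) : ℂ) := by push_cast; rfl

theorem ig_le {s r : ℂ} {σ c : ℝ} (hr : r ∈ Str) (hs : σ ≤ s.re) (hc : 0 < c) (h : c ≤ Real.cos r.im) (u : ℝ) :
    ‖ig s r u‖ ≤ (1 + u ^ 2) ^ (-σ - 1 / 2) * c ^ (-(1 / 2) : ℝ) := by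
  have ha : (1 : ℝ) ≤ 1 + u ^ 2 := by nlinarith
  have ha0 : (0 : ℝ) < 1 + u ^ 2 := by positivity
  rw [ig, norm_mul, norm_cpow_eq_rpow_re_of_pos ha0, half_cast, norm_cpow_real, neg_re, sub_eq_add_neg,
    Real.rpow_add ha0, mul_assoc, ← Real.mul_rpow ha0.le hc.le]
  refine mul_le_mul (Real.rpow_le_rpow_of_exponent_le ha (by linarith)) ?_ (by positivity) (by positivity)
  exact Real.rpow_le_rpow_of_nonpos (by positivity)
    ((mul_le_mul_of_nonneg_left h ha0.le).trans (bs_norm hr u)) (by norm_num)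

theorem int_a {σ : ℝ} (h : 0 < σ) : Integrable (fun u : ℝ => (1 + u ^ 2) ^ (-σ - 1 / 2)) := by
  have := integrable_rpow_neg_one_add_norm_sq (E := ℝ) (μ := volume) (r := 2 * σ + 1) (by simpa using h)
  simpa only [Real.norm_eq_abs, sq_abs, show -(2 * σ + 1) / 2 = -σ - 1 / 2 by ring] using this

theorem ig_cont : ContinuousOn (fun p : (ℂ × ℂ) × ℝ => ig p.1.1 p.1.2 p.2) {p | p.1.2 ∈ Str} := by
  refine ContinuousOn.mul (Continuous.continuousOn ?_) (ContinuousOn.cpow_const ?_ fun p hp => bs_slit hp _)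
  · exact Continuous.cpow (by fun_prop) (by fun_prop) fun p => a_slit _
  · unfold bs; fun_prop

theorem ig_cont_u (s : ℂ) {r : ℂ} (hr : r ∈ Str) : Continuous (ig s r) :=
  ig_cont.comp_continuous (f := fun u : ℝ => ((s, r), u)) (by fun_prop) fun _ => hr

theorem ig_int {s r : ℂ} (hs : 0 < s.re) (hr : r ∈ Str) : Integrable (ig s r) :=
  ((int_a hs).mul_const _).mono' (ig_cont_u s hr).aestronglyMeasurable
    (Eventually.of_forall (ig_le hr le_rfl (cos_pos hr) le_rfl))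

theorem str_open : IsOpen Str := isOpen_lt (by fun_prop) continuous_const

theorem loc {p : ℂ × ℂ} (hp : p ∈ DS) : ∃ g : ℝ → ℝ, Integrable g ∧
    ∀ᶠ q : ℂ × ℂ in 𝓝 p, q.2 ∈ Str ∧ ∀ u, ‖ig q.1 q.2 u‖ ≤ g u := by
  have h0 := hp.1
  have hc := cos_pos hp.2
  refine ⟨_, (int_a (half_pos h0)).mul_const ((Real.cos p.2.im / 2) ^ (-(1 / 2) : ℝ)), ?_⟩
  have h1 : ∀ᶠ q : ℂ × ℂ in 𝓝 p, q.2 ∈ Str := continuousAt_snd.eventually (str_open.mem_nhds hp.2)
  have h2 : ∀ᶠ q : ℂ × ℂ in 𝓝 p, p.1.re / 2 < q.1.re :=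
    ContinuousAt.eventually_lt continuousAt_const (by fun_prop) (by linarith)
  have h3 : ∀ᶠ q : ℂ × ℂ in 𝓝 p, Real.cos p.2.im / 2 < Real.cos q.2.im :=
    ContinuousAt.eventually_lt continuousAt_const (by fun_prop) (by linarith)
  filter_upwards [h1, h2, h3] with q a b c using ⟨a, ig_le a b.le (half_pos hc) c.le⟩

theorem Jf_eq (s r : ℂ) : Jf s r = 2 * exp (-s * r) * ∫ u, ig s r u := rfl

theorem mvt {a : ℝ} (ha : 1 ≤ a) {w : ℂ} (hw : ‖w‖ ≤ 1 / 2) :
    ‖((a : ℂ) + w) ^ (-(1 / 2) : ℂ) - (a : ℂ) ^ (-(1 / 2) : ℂ)‖ ≤ 2 * a ^ (-(1 / 2) : ℝ) * ‖w‖ := by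
  have ha0 : 0 < a := by linarith
  have h := Convex.norm_image_sub_le_of_norm_hasDerivWithin_le (f := fun z : ℂ => z ^ (-(1 / 2) : ℂ))
    (s := {z : ℂ | a / 2 ≤ z.re}) (C := 2 * a ^ (-(1 / 2) : ℝ)) (x := (a : ℂ)) (y := a + w)
    (fun z hz => (hasStrictDerivAt_cpow_const (Or.inl (lt_of_lt_of_le (half_pos ha0) hz))).hasDerivAt.hasDerivWithinAt)
    (fun z hz => ?_) (convex_halfSpace_re_ge _) (by simp; linarith) ?_
  · rwa [add_sub_cancel_left] at h
  · have h1 : a / 2 ≤ ‖z‖ := le_trans hz (re_le_norm z)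
    have h2 : ‖z‖ ^ (-(1 / 2) : ℝ) ≤ (a / 4) ^ (-(1 / 2) : ℝ) :=
      Real.rpow_le_rpow_of_nonpos (by positivity) (by linarith) (by norm_num)
    have h3 : ‖z‖⁻¹ ≤ 2 := by
      rw [inv_le_comm₀ (by linarith) two_pos]; linarith
    have h4 : (4 : ℝ) ^ (-(1 / 2) : ℝ) = 1 / 2 := by
      rw [show (4 : ℝ) = 2 ^ (2 : ℝ) by norm_num, ← Real.rpow_mul zero_le_two]; norm_num
    rw [Real.div_rpow ha0.le (by norm_num), h4] at h2
    rw [norm_mul, show (-(1 / 2) - 1 : ℂ) = ((-(1 / 2) + -1 : ℝ) : ℂ) by push_cast; ring, norm_cpow_real,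
      Real.rpow_add (by linarith), Real.rpow_neg_one, norm_neg]
    have h5 := mul_le_mul h2 h3 (by positivity) (by positivity)
    norm_num at h5 ⊢
    linarith
  · have := (abs_le.1 ((abs_re_le_norm w).trans hw)).1
    simp only [mem_ofPred_eq, add_re, ofReal_re]
    linarith

end JB1

open JB1 in
theorem t_jb1 : T_JB1 := by
  intro hP hB
  refine ⟨fun s r hs hr => ig_int hs hr, fun p hp => ContinuousAt.continuousWithinAt ?_,
    fun U X Y hU hX hY hO => ?_, ⟨2 * (∫ u : ℝ, (1 + u ^ 2) ^ (-(1 / 4) - 1 / 2 : ℝ)) * (1 / 2) ^ (-(1 / 2) : ℝ),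
      fun s r hs _ hr => ?_⟩, ⟨4 * π, fun k r hr h1 => ?_⟩⟩
  · simp only [Jf_eq]
    refine ContinuousAt.mul (by fun_prop) ?_
    obtain ⟨g, hg, h⟩ := loc hp
    refine continuousAt_of_dominated (F := fun (q : ℂ × ℂ) u => ig q.1 q.2 u) ?_ ?_ hg ?_
    · filter_upwards [h] with q hq using (ig_cont_u _ hq.1).aestronglyMeasurable
    · filter_upwards [h] with q hq using Eventually.of_forall hq.2
    · refine Eventually.of_forall fun u => ?_
      exact (ig_cont.continuousAt ((str_open.preimage (by fun_prop)).mem_nhds hp.2)).comp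
        (f := fun q : ℂ × ℂ => (q, u)) (by fun_prop)
  · simp only [Jf_eq]
    refine DifferentiableOn.mul (by fun_prop) ?_
    refine (hP.1 ℝ volume (fun c u => ig (X c) (Y c) u) U hU
      (fun c hc => (ig_cont_u _ (hO c hc).2).aestronglyMeasurable) (Eventually.of_forall fun u => ?_)
      fun c hc => ?_).1
    · refine (hX.neg.const_cpow (Or.inl (slitPlane_ne_zero (a_slit u)))).mul
        (DifferentiableOn.cpow_const ?_ fun c hc => bs_slit (hO c hc).2 u)
      unfold bs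
      fun_prop
    · obtain ⟨g, hg, h⟩ := loc (hO c hc)
      have hc2 : ContinuousAt (fun c => (X c, Y c)) c :=
        (hX.continuousOn.continuousAt (hU.mem_nhds hc)).prodMk (hY.continuousOn.continuousAt (hU.mem_nhds hc))
      obtain ⟨r, hr, h2⟩ := Metric.eventually_nhds_iff.1 (hc2.eventually h)
      exact ⟨r, hr, g, hg, Eventually.of_forall fun t w _ hw => (h2 (by rwa [dist_eq_norm])).2 t⟩
  · have hb : 0 < π / 2 - |r.im| := sub_pos.2 hr
    have hc : 1 / 2 * (π / 2 - |r.im|) ≤ Real.cos r.im := by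
      have h := Real.mul_le_sin hb.le (by linarith [abs_nonneg r.im])
      rw [Real.sin_pi_div_two_sub, Real.cos_abs] at h
      refine le_trans (mul_le_mul_of_nonneg_right ?_ hb.le) h
      rw [div_le_div_iff₀ two_pos Real.pi_pos]
      linarith [Real.pi_le_four]
    have h := norm_integral_le_of_norm_le ((int_a (σ := 1 / 4) (by norm_num)).mul_const _)
      (Eventually.of_forall (ig_le hr hs (by positivity) hc))
    rw [integral_mul_const, Real.mul_rpow (by norm_num) hb.le] at h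
    rw [Jf_eq, norm_mul, norm_mul, norm_exp, Complex.norm_two,
      show (-s * r).re = s.im * r.im - s.re * r.re by simp]
    refine (mul_le_mul_of_nonneg_left h (by positivity)).trans (le_of_eq ?_)
    ring
  · have hk : 0 < (sk k).re := by simp [sk]
    have hw : ‖exp (-2 * r)‖ = Real.exp (-2 * r.re) := by rw [norm_exp]; simp
    have hw2 : ‖exp (-2 * r)‖ ≤ 1 / 2 := by
      rw [hw, le_div_iff₀ two_pos]
      have h2 := Real.add_one_le_exp (2 * r.re)
      have h3 : Real.exp (-2 * r.re) * Real.exp (2 * r.re) = 1 := by rw [← Real.exp_add]; simp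
      nlinarith [Real.exp_pos (-2 * r.re)]
    have e : exp (r / 2) * Jf (sk k) r - 2 * bet (sk k) * exp (-I * k * r) = 2 * exp (-I * k * r) *
        ∫ u : ℝ, (ig (sk k) r u - ((1 + u ^ 2 : ℝ) : ℂ) ^ (-sk k - 1 / 2)) := by
      have : exp (r / 2) * exp (-sk k * r) = exp (-I * k * r) := by
        rw [← exp_add, sk]; congr 1; ring
      rw [integral_sub (ig_int hk hr) (hB.1 _ hk).1, Jf_eq, bet, ← this]
      ring
    have h := norm_integral_le_of_norm_le (f := fun u : ℝ => ig (sk k) r u - ((1 + u ^ 2 : ℝ) : ℂ) ^ (-sk k - 1 / 2))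
      ((integrable_inv_one_add_sq.const_mul 2).mul_const (Real.exp (-2 * r.re))) (Eventually.of_forall fun u => by
        have ha0 : (0 : ℝ) < 1 + u ^ 2 := by positivity
        have h2 := mvt (a := 1 + u ^ 2) (by nlinarith) hw2
        have e2 : bs r u = ((1 + u ^ 2 : ℝ) : ℂ) + exp (-2 * r) := by rw [bs]; push_cast; ring
        rw [ig, e2, sub_eq_add_neg (-sk k), cpow_add _ _ (slitPlane_ne_zero (a_slit u)), ← mul_sub, norm_mul,
          norm_cpow_eq_rpow_re_of_pos ha0, show (-sk k).re = -(1 / 2) by simp [sk]]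
        refine (mul_le_mul_of_nonneg_left h2 (by positivity)).trans (le_of_eq ?_)
        rw [hw, ← Real.rpow_neg_one, show (-1 : ℝ) = -(1 / 2) + -(1 / 2) by norm_num, Real.rpow_add ha0]
        ring)
    rw [integral_mul_const, integral_const_mul, integral_univ_inv_one_add_sq] at h
    rw [e, norm_mul, norm_mul, norm_exp, Complex.norm_two, show (-I * k * r).re = k * r.im by simp,
      sub_eq_add_neg (k * r.im), Real.exp_add, ← neg_mul]
    refine (mul_le_mul_of_nonneg_left h (by positivity)).trans (le_of_eq ?_)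
    ring

end

end Pool.Agent.Lib.E2
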