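import Pool.Agent.Lib.E2.Blue

namespace Pool.Agent.Lib.E2

noncomputable section

open Complex MeasureTheory Set Filter Topology
open scoped Real

namespace JB2

def pp (r v : ℝ) : ℝ := Real.cosh v * Real.cosh r + Real.sinh r

def pq (r v : ℝ) : ℝ := (Real.cosh v * Real.sinh r + Real.cosh r) / pp r v

def f0 (s : ℂ) (r v : ℝ) : ℂ := (pp r v : ℂ) ^ (-s)

def f1 (s : ℂ) (r v : ℝ) : ℂ := -s * pq r v * f0 s r v

def f2 (s : ℂ) (r v : ℝ) : ℂ := (-s * (1 - (pq r v : ℂ) ^ 2) + s ^ 2 * (pq r v : ℂ) ^ 2) * f0 s r v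

theorem pp_ge (r v : ℝ) : Real.cosh v * Real.exp (-|r|) ≤ pp r v := by
  have h1 := Real.one_le_cosh v
  have h2 : Real.exp (-|r|) = Real.cosh r - |Real.sinh r| := by
    rw [Real.abs_sinh, ← Real.cosh_abs r, Real.cosh_sub_sinh]
  have h3 := neg_abs_le (Real.sinh r)
  have h4 := abs_nonneg (Real.sinh r)
  rw [h2, pp]
  nlinarith

theorem pp_pos (r v : ℝ) : 0 < pp r v :=
  (mul_pos (Real.cosh_pos v) (Real.exp_pos _)).trans_le (pp_ge r v)

theorem pq_le (r v : ℝ) : |pq r v| ≤ 1 := by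
  have h1 := Real.one_le_cosh v
  have h2 : 0 < Real.cosh r - Real.sinh r := by rw [Real.cosh_sub_sinh]; exact Real.exp_pos _
  have h3 : 0 < Real.cosh r + Real.sinh r := by rw [Real.cosh_add_sinh]; exact Real.exp_pos _
  rw [pq, abs_div, abs_of_pos (pp_pos r v), div_le_one (pp_pos r v), abs_le, pp]
  constructor <;> nlinarith

theorem dcp {P : ℝ → ℝ} {P' x : ℝ} (h : HasDerivAt P P' x) (hp : 0 < P x) (s : ℂ) :
    HasDerivAt (fun y => (P y : ℂ) ^ (-s)) (-s * (P' / P x : ℝ) * (P x : ℂ) ^ (-s)) x := by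
  have h1 := (hasStrictDerivAt_cpow_const (c := -s) (ofReal_mem_slitPlane.2 hp)).hasDerivAt
  have h2 := HasDerivAt.comp (h₂ := fun z : ℂ => z ^ (-s)) x h1 h.ofReal_comp
  have h0 : (P x : ℂ) ≠ 0 := ofReal_ne_zero.2 hp.ne'
  have e : -s * (P' / P x : ℝ) * (P x : ℂ) ^ (-s) = -s * (P x : ℂ) ^ (-s - 1) * P' := by
    rw [cpow_sub _ _ h0, cpow_one]; push_cast; field_simp
  rw [e]
  exact h2

theorem d_pp (r v : ℝ) :
    HasDerivAt (fun r => pp r v) (Real.cosh v * Real.sinh r + Real.cosh r) r :=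
  ((Real.hasDerivAt_cosh r).const_mul _).add (Real.hasDerivAt_sinh r)

theorem d_pq (r v : ℝ) : HasDerivAt (fun r => pq r v) (1 - pq r v ^ 2) r := by
  have h1 : HasDerivAt (fun r => Real.cosh v * Real.sinh r + Real.cosh r) (pp r v) r :=
    ((Real.hasDerivAt_sinh r).const_mul _).add (Real.hasDerivAt_cosh r)
  have h2 := h1.div (d_pp r v) (pp_pos r v).ne'
  have h0 := (pp_pos r v).ne'
  have e : 1 - pq r v ^ 2 = (pp r v * pp r v - (Real.cosh v * Real.sinh r + Real.cosh r) *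
      (Real.cosh v * Real.sinh r + Real.cosh r)) / pp r v ^ 2 := by
    rw [pq]; field_simp
  rw [e]
  exact h2

theorem d_f0 (s : ℂ) (r v : ℝ) : HasDerivAt (fun r => f0 s r v) (f1 s r v) r :=
  dcp (d_pp r v) (pp_pos r v) s

theorem d_f1 (s : ℂ) (r v : ℝ) : HasDerivAt (fun r => f1 s r v) (f2 s r v) r := by
  have h := (((d_pq r v).ofReal_comp).const_mul (-s)).mul (d_f0 s r v)
  have e : f2 s r v = -s * ((1 - pq r v ^ 2 : ℝ) : ℂ) * f0 s r v + -s * pq r v * f1 s r v := by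
    rw [f2, f1]; push_cast; ring
  rw [e]
  exact h

theorem c_pp (r : ℝ) : Continuous (pp r) := by unfold pp; fun_prop

theorem c_pq (r : ℝ) : Continuous (pq r) :=
  Continuous.div (by fun_prop) (c_pp r) fun v => (pp_pos r v).ne'

theorem c_f0 (s : ℂ) (r : ℝ) : Continuous (f0 s r) :=
  (continuous_ofReal.comp (c_pp r)).cpow continuous_const
    fun v => ofReal_mem_slitPlane.2 (pp_pos r v)

theorem c_f1 (s : ℂ) (r : ℝ) : Continuous (f1 s r) := by
  have := c_pq r
  have := c_f0 s r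
  unfold f1; fun_prop

theorem c_f2 (s : ℂ) (r : ℝ) : Continuous (f2 s r) := by
  have := c_pq r
  have := c_f0 s r
  unfold f2; fun_prop

theorem n_f0 {s : ℂ} (hs : 0 < s.re) {r R : ℝ} (hr : |r| ≤ R) (v : ℝ) :
    ‖f0 s r v‖ ≤ Real.exp (s.re * R) * Real.cosh v ^ (-s.re) := by
  rw [f0, norm_cpow_eq_rpow_re_of_pos (pp_pos r v), neg_re]
  have h1 : Real.cosh v * Real.exp (-R) ≤ pp r v :=
    (mul_le_mul_of_nonneg_left (Real.exp_le_exp.2 (by linarith)) (Real.cosh_pos v).le).trans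
      (pp_ge r v)
  refine (Real.rpow_le_rpow_of_nonpos (by have := Real.cosh_pos v; positivity) h1
    (by linarith)).trans (le_of_eq ?_)
  rw [Real.mul_rpow (Real.cosh_pos v).le (Real.exp_pos _).le, ← Real.exp_mul, mul_comm]
  congr 2; ring

theorem n_pq (r v : ℝ) : ‖(pq r v : ℂ)‖ ≤ 1 := by rw [norm_real]; exact pq_le r v

theorem n_f1 (s : ℂ) (r v : ℝ) : ‖f1 s r v‖ ≤ ‖s‖ * ‖f0 s r v‖ := by
  rw [f1, norm_mul, norm_mul, norm_neg]
  have := n_pq r v
  gcongr
  exact mul_le_of_le_one_right (norm_nonneg _) this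

theorem n_f2 (s : ℂ) (r v : ℝ) : ‖f2 s r v‖ ≤ (‖s‖ * 2 + ‖s‖ ^ 2) * ‖f0 s r v‖ := by
  rw [f2, norm_mul]
  have h1 : ‖(pq r v : ℂ) ^ 2‖ ≤ 1 := by
    rw [norm_pow]; exact pow_le_one₀ (norm_nonneg _) (n_pq r v)
  have h2 : ‖1 - (pq r v : ℂ) ^ 2‖ ≤ 2 := (norm_sub_le _ _).trans (by rw [norm_one]; linarith)
  gcongr
  refine (norm_add_le _ _).trans (add_le_add ?_ ?_)
  · rw [norm_mul, norm_neg]; gcongr
  · rw [norm_mul, norm_pow]; exact mul_le_of_le_one_right (by positivity) h1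

theorem subst (s : ℂ) (r : ℝ) : Jf s r = ∫ v, f0 s r v := by
  obtain ⟨c, hc⟩ : ∃ c : ℝ, c = √(1 + Real.exp (-2 * r)) := ⟨_, rfl⟩
  have c0 : 0 < c := by rw [hc]; positivity
  have c2 : c ^ 2 = 1 + Real.exp (-2 * r) := by rw [hc, Real.sq_sqrt (by positivity)]
  have im : (fun v : ℝ => c * Real.sinh (v / 2)) '' univ = univ := by
    refine eq_univ_of_forall fun u => ⟨2 * Real.arsinh (u / c), mem_univ _, ?_⟩
    show c * Real.sinh (2 * Real.arsinh (u / c) / 2) = u
    rw [mul_div_cancel_left₀ _ two_ne_zero, Real.sinh_arsinh]; field_simp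
  have de : ∀ v ∈ (univ : Set ℝ), HasDerivWithinAt (fun v : ℝ => c * Real.sinh (v / 2))
      (c * (Real.cosh (v / 2) * (1 / 2))) univ v := fun v _ =>
    (((hasDerivAt_id v).div_const 2).sinh.const_mul c).hasDerivWithinAt
  have inj : InjOn (fun v : ℝ => c * Real.sinh (v / 2)) univ := fun a _ b _ h => by
    have := Real.sinh_injective (mul_left_cancel₀ c0.ne' h)
    linarith
  have h := integral_image_eq_integral_abs_deriv_smul MeasurableSet.univ de inj
    fun u : ℝ => ((1 + u ^ 2 : ℝ) : ℂ) ^ (-s) * (1 + exp (-2 * r) + (u : ℂ) ^ 2) ^ (-(1 / 2) : ℂ)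
  rw [im, Measure.restrict_univ] at h
  rw [Jf, h, ← integral_const_mul]
  refine integral_congr_ae (Eventually.of_forall fun v => ?_)
  have k0 := Real.cosh_pos (v / 2)
  have k1 : Real.cosh (v / 2) ^ 2 = Real.sinh (v / 2) ^ 2 + 1 := Real.cosh_sq _
  have k2 : Real.cosh v = 2 * Real.sinh (v / 2) ^ 2 + 1 := by
    have := Real.cosh_two_mul (v / 2)
    rw [mul_div_cancel₀ _ two_ne_zero] at this
    linarith
  have k3 : Real.exp (-2 * r) * Real.exp r = Real.exp (-r) := by rw [← Real.exp_add]; congr 1; ring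
  have e1 : pp r v = Real.exp r * (1 + (c * Real.sinh (v / 2)) ^ 2) := by
    rw [pp, k2, mul_pow, c2, Real.cosh_eq r, Real.sinh_eq r]
    linear_combination (-Real.sinh (v / 2) ^ 2) * k3
  have e2 : (1 + exp (-2 * r) + ((c * Real.sinh (v / 2) : ℝ) : ℂ) ^ 2) =
      (((c * Real.cosh (v / 2)) ^ 2 : ℝ) : ℂ) := by
    have : (c * Real.cosh (v / 2)) ^ 2 = 1 + Real.exp (-2 * r) + (c * Real.sinh (v / 2)) ^ 2 := by
      rw [← c2, mul_pow, k1]; ring
    rw [this]; push_cast; ring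
  have e3 : ((((c * Real.cosh (v / 2)) ^ 2 : ℝ) : ℂ)) ^ (-(1 / 2) : ℂ) =
      ((c * Real.cosh (v / 2))⁻¹ : ℝ) := by
    have : (-(1 / 2) : ℂ) = ((-(1 / 2) : ℝ) : ℂ) := by push_cast; rfl
    rw [this, ← ofReal_cpow (by positivity), ← Real.rpow_natCast, ← Real.rpow_mul (by positivity),
      ← Real.rpow_neg_one]
    norm_num
  have e4 : ((Real.exp r : ℝ) : ℂ) ^ (-s) = exp (-s * r) := by
    rw [ofReal_exp, cpow_def_of_ne_zero (exp_ne_zero _), log_exp (by simp [Real.pi_pos])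
      (by simp [Real.pi_pos.le]), mul_comm]
  dsimp only
  rw [e2, e3, f0, e1, ofReal_mul, mul_cpow_ofReal_nonneg (Real.exp_pos _).le (by positivity), e4,
    abs_of_pos (by positivity), real_smul]
  have c1 : (c : ℂ) ≠ 0 := ofReal_ne_zero.2 c0.ne'
  have k4 : ((Real.cosh (v / 2) : ℝ) : ℂ) ≠ 0 := ofReal_ne_zero.2 k0.ne'
  rw [ofReal_inv, ofReal_mul, ofReal_mul, ofReal_mul]
  generalize ((Real.cosh (v / 2) : ℝ) : ℂ) = A at *
  push_cast
  field_simp

theorem d_v (s : ℂ) (r v : ℝ) :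
    HasDerivAt (fun v => s / Real.cosh r * ((Real.sinh v / pp r v : ℝ) * f0 s r v))
      (f2 s r v + Real.tanh r * f1 s r v + s * (1 - s) * f0 s r v) v := by
  have h1 : HasDerivAt (fun v => pp r v) (Real.sinh v * Real.cosh r) v :=
    ((Real.hasDerivAt_cosh v).mul_const _).add_const _
  have h2 := ((Real.hasDerivAt_sinh v).div h1 (pp_pos r v).ne').ofReal_comp
  have h3 := (h2.mul (dcp h1 (pp_pos r v) s)).const_mul (s / Real.cosh r)
  refine h3.congr_deriv ?_
  have p0 : (pp r v : ℂ) ≠ 0 := ofReal_ne_zero.2 (pp_pos r v).ne'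
  have c0 : ((Real.cosh r : ℝ) : ℂ) ≠ 0 := ofReal_ne_zero.2 (Real.cosh_pos r).ne'
  have a1 : ((Real.cosh r : ℝ) : ℂ) ^ 2 = (Real.sinh r : ℝ) ^ 2 + 1 := by
    exact_mod_cast congrArg ofReal (Real.cosh_sq r)
  have a2 : ((Real.cosh v : ℝ) : ℂ) ^ 2 = (Real.sinh v : ℝ) ^ 2 + 1 := by
    exact_mod_cast congrArg ofReal (Real.cosh_sq v)
  have a3 : (pp r v : ℂ) = (Real.cosh v : ℝ) * (Real.cosh r : ℝ) + (Real.sinh r : ℝ) := by
    rw [pp, ofReal_add, ofReal_mul]
  simp only [f2, f1, f0, pq, Real.tanh_eq_sinh_div_cosh, Pi.div_apply, ofReal_div, ofReal_sub,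
    ofReal_mul, ofReal_add, ofReal_pow]
  generalize (pp r v : ℂ) ^ (-s) = F
  generalize (pp r v : ℂ) = P at *
  generalize ((Real.cosh r : ℝ) : ℂ) = C at *
  generalize ((Real.sinh r : ℝ) : ℂ) = S at *
  generalize ((Real.cosh v : ℝ) : ℂ) = c at *
  generalize ((Real.sinh v : ℝ) : ℂ) = t at *
  have b1 : (c * S + C) ^ 2 = P ^ 2 - t ^ 2 := by
    rw [a3]; linear_combination (1 - c ^ 2) * a1 - a2
  have b2 : P * C - (c * S + C) * S = c := by rw [a3]; linear_combination c * a1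
  field_simp
  linear_combination (-(s * F * C * (s + 1))) * b1 - s * F * P * b2

end JB2

open JB2

theorem t_jb2 : T_JB2 := by
  intro hB s hs
  have ic : Integrable fun v : ℝ => Real.cosh v ^ (-s.re) := by
    refine ((hB.1 (s / 2) (by simpa using hs)).2.2.2.2.2.1.norm).congr
      (Eventually.of_forall fun v => ?_)
    dsimp only
    rw [norm_cpow_eq_rpow_re_of_pos (Real.cosh_pos v), mul_div_cancel₀ _ two_ne_zero, neg_re]
  have i0 : ∀ r, Integrable (f0 s r) := fun r =>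
    (ic.const_mul _).mono' (c_f0 s r).aestronglyMeasurable
      (Eventually.of_forall fun v => n_f0 hs le_rfl v)
  have bl : ∀ r x : ℝ, x ∈ Metric.ball r 1 → |x| ≤ |r| + 1 := fun r x hx => by
    have h1 := abs_sub_abs_le_abs_sub x r
    rw [Metric.mem_ball, Real.dist_eq] at hx
    linarith
  have D0 : ∀ r, Integrable (f1 s r) ∧ HasDerivAt (fun r => ∫ v, f0 s r v) (∫ v, f1 s r v) r :=
    fun r => hasDerivAt_integral_of_dominated_loc_of_deriv_le (Metric.ball_mem_nhds r one_pos)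
      (Eventually.of_forall fun x => (c_f0 s x).aestronglyMeasurable) (i0 r)
      (c_f1 s r).aestronglyMeasurable
      (Eventually.of_forall fun v x hx => (n_f1 s x v).trans
        (mul_le_mul_of_nonneg_left (n_f0 hs (bl r x hx) v) (norm_nonneg _)))
      ((ic.const_mul _).const_mul _) (Eventually.of_forall fun v x _ => d_f0 s x v)
  have D1 : ∀ r, Integrable (f2 s r) ∧ HasDerivAt (fun r => ∫ v, f1 s r v) (∫ v, f2 s r v) r :=
    fun r => hasDerivAt_integral_of_dominated_loc_of_deriv_le (Metric.ball_mem_nhds r one_pos)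
      (Eventually.of_forall fun x => (c_f1 s x).aestronglyMeasurable) (D0 r).1
      (c_f2 s r).aestronglyMeasurable
      (Eventually.of_forall fun v x hx => (n_f2 s x v).trans
        (mul_le_mul_of_nonneg_left (n_f0 hs (bl r x hx) v) (by positivity)))
      ((ic.const_mul _).const_mul _) (Eventually.of_forall fun v x _ => d_f1 s x v)
  have eJ : (fun r : ℝ => Jf s r) = fun r => ∫ v, f0 s r v := funext (subst s)
  have p0 : ∀ v, pp 0 v = Real.cosh v := fun v => by simp [pp]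
  refine ⟨fun r => ⟨i0 r, subst s r⟩, ?_, ?_, ?_⟩
  · rw [eJ]
    refine ⟨fun r => ∫ v, f1 s r v, fun r => ∫ v, f2 s r v, fun r => ⟨(D0 r).2, (D1 r).2, ?_⟩⟩
    have j1 := (D0 r).1.const_mul (Real.tanh r : ℂ)
    have j0 := (i0 r).const_mul (s * (1 - s))
    have j2 : Integrable fun v => f2 s r v + Real.tanh r * f1 s r v := (D1 r).1.add j1
    have ig : Integrable fun v => (Real.sinh v / pp r v : ℝ) * f0 s r v := by
      refine (i0 r).bdd_mul (c := Real.exp |r|) (Continuous.aestronglyMeasurable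
        (continuous_ofReal.comp (Continuous.div (by fun_prop) (c_pp r) fun v => (pp_pos r v).ne')))
        (Eventually.of_forall fun v => ?_)
      rw [norm_real, Real.norm_eq_abs, abs_div, abs_of_pos (pp_pos r v), div_le_iff₀ (pp_pos r v)]
      have h1 := mul_le_mul_of_nonneg_left (pp_ge r v) (Real.exp_pos |r|).le
      have h2 : Real.exp |r| * Real.exp (-|r|) = 1 := by rw [← Real.exp_add]; simp
      have h3 : |Real.sinh v| ≤ Real.cosh v := by
        rw [Real.abs_sinh, ← Real.cosh_abs v]; exact (Real.sinh_lt_cosh _).le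
      rw [mul_left_comm, h2, mul_one] at h1
      exact h3.trans h1
    have z := integral_eq_zero_of_hasDerivAt_of_integrable (d_v s r) (j2.add j0) (ig.const_mul _)
    rwa [integral_add j2 j0, integral_add (D1 r).1 j1, integral_const_mul, integral_const_mul] at z
  · have := subst s 0
    rw [ofReal_zero] at this
    rw [this, ← (hB.1 (s / 2) (by simpa using hs)).2.2.2.2.2.2.1, mul_div_cancel₀ _ two_ne_zero]
    simp only [f0, p0]
  · rw [eJ]
    refine (D0 0).2.congr_deriv ?_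
    rw [← (hB.1 ((s + 1) / 2) (by simp; linarith)).2.2.2.2.2.2.1, mul_div_cancel₀ _ two_ne_zero,
      ← integral_const_mul]
    refine integral_congr_ae (Eventually.of_forall fun v => ?_)
    have c0 : ((Real.cosh v : ℝ) : ℂ) ≠ 0 := ofReal_ne_zero.2 (Real.cosh_pos v).ne'
    simp only [f1, f0, pq, p0, Real.sinh_zero, Real.cosh_zero, mul_zero, zero_add]
    rw [neg_add, cpow_add _ _ c0, cpow_neg_one, ofReal_div, ofReal_one]
    ring

end

end Pool.Agent.Lib.E2
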