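import Pool.Agent.Lib.E2.Blue

/-! Representations along the rotated ray. -/

namespace Pool.Agent.Lib.E2

noncomputable section

open Complex MeasureTheory Set Filter Topology
open scoped Real

namespace JB3

theorem even_int (g : ℝ → ℂ) (h : ∀ u, g (-u) = g u) :
    ∫ u, g u = 2 * ∫ u in Ioi (0 : ℝ), g u := by
  by_cases hi : IntegrableOn g (Ioi 0)
  · have h1 : IntegrableOn g (Iic 0) := by
      rw [← Measure.map_neg_eq_self (volume : Measure ℝ)]
      have m : MeasurableEmbedding fun x : ℝ => -x := (Homeomorph.neg ℝ).measurableEmbedding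
      rw [m.integrableOn_map_iff]
      simp_rw [Function.comp_def, h, neg_preimage, neg_Iic, neg_zero]
      exact Iff.mpr integrableOn_Ici_iff_integrableOn_Ioi hi
    have h2 := integral_comp_neg_Iic (0 : ℝ) g
    simp only [h, neg_zero] at h2
    rw [← intervalIntegral.integral_Iic_add_Ioi h1 hi, h2, two_mul]
  · rw [integral_undef hi, integral_undef fun h' => hi h'.integrableOn, mul_zero]

theorem sq_int (G : ℝ → ℂ) :
    ∫ u : ℝ, G (u ^ 2) = ∫ t in Ioi (0 : ℝ), G t * (t : ℂ) ^ (-(1 / 2) : ℂ) := by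
  rw [even_int _ fun u => by rw [neg_sq], ← integral_const_mul,
    ← integral_comp_rpow_Ioi (fun t => G t * (t : ℂ) ^ (-(1 / 2) : ℂ)) (p := 2) two_ne_zero]
  refine setIntegral_congr_fun measurableSet_Ioi fun u hu => ?_
  have hu' : (0 : ℝ) < u := hu
  have e1 : ((u ^ (2 : ℝ) : ℝ) : ℂ) ^ (-(1 / 2) : ℂ) = (u : ℂ)⁻¹ := by
    have : (-(1 / 2) : ℂ) = ((-(1 / 2) : ℝ) : ℂ) := by push_cast; ring
    rw [this, ← ofReal_cpow (by positivity), ← Real.rpow_mul hu'.le]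
    norm_num [Real.rpow_neg_one]
  have e2 : (u : ℂ) ≠ 0 := by exact_mod_cast hu'.ne'
  simp only [e1]
  rw [Real.rpow_two]
  norm_num
  field_simp

theorem cos_ge {u : ℝ} (hu : u ∈ uIcc 0 (-(1 / 4) : ℝ)) : 1 / 2 ≤ Real.cos u := by
  rw [uIcc_of_ge (by norm_num)] at hu
  nlinarith [Real.one_sub_sq_div_two_le_cos (x := u), hu.1, hu.2]

theorem sin_le {u : ℝ} (hu : u ∈ uIcc 0 (-(1 / 4) : ℝ)) : Real.sin u ≤ 0 := by
  rw [uIcc_of_ge (by norm_num)] at hu
  exact Real.sin_nonpos_of_nonpos_of_neg_pi_le hu.2 (by linarith [hu.1, Real.pi_gt_three])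

theorem re_ray (t u : ℝ) : ((t : ℂ) * exp (u * I)).re = t * Real.cos u := by
  simp [exp_ofReal_mul_I_re]

theorem im_ray (t u : ℝ) : ((t : ℂ) * exp (u * I)).im = t * Real.sin u := by
  simp [exp_ofReal_mul_I_im]

theorem norm_ray {t : ℝ} (ht : 0 < t) (u : ℝ) : ‖(t : ℂ) * exp (u * I)‖ = t := by
  simp [abs_of_pos ht]

theorem eth_eq : eth = exp (((-(1 / 4) : ℝ) : ℂ) * I) := by
  unfold eth
  push_cast
  rfl

theorem mem4 : (-(1 / 4) : ℝ) ∈ uIcc 0 (-(1 / 4) : ℝ) := right_mem_uIcc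

theorem cc (e : ℝ) : 1 + exp (-2 * rh e) = ((1 - Real.cos (2 * e) : ℝ) : ℂ) -
    (Real.sin (2 * e) : ℝ) * I := by
  have : -2 * rh e = ((2 * e : ℝ) : ℂ) * I - π * I := by
    unfold rh
    push_cast
    ring
  rw [this, exp_sub, exp_pi_mul_I, exp_mul_I]
  push_cast
  ring

section ray

variable {t u e : ℝ} (ht : 0 < t) (hu : u ∈ uIcc 0 (-(1 / 4) : ℝ))
include ht hu

theorem p0 : (t : ℂ) * exp (u * I) ∈ slitPlane :=
  Or.inl (by rw [re_ray]; nlinarith [cos_ge hu])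

theorem r1 : (1 + t) / 2 ≤ (1 + (t : ℂ) * exp (u * I)).re := by
  rw [add_re, one_re, re_ray]
  nlinarith [cos_ge hu]

theorem p1 : 1 + (t : ℂ) * exp (u * I) ∈ slitPlane := Or.inl (by linarith [r1 ht hu])

theorem r2 (e : ℝ) : t / 2 ≤ (1 + exp (-2 * rh e) + (t : ℂ) * exp (u * I)).re := by
  rw [cc, add_re, re_ray]
  simp only [sub_re, ofReal_re, mul_re, I_re, mul_zero, ofReal_im, I_im, zero_mul, sub_zero]
  nlinarith [cos_ge hu, Real.cos_le_one (2 * e)]

theorem p2 (e : ℝ) : 1 + exp (-2 * rh e) + (t : ℂ) * exp (u * I) ∈ slitPlane :=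
  Or.inl (by linarith [r2 ht hu e])

theorem n2 (he : e ∈ Ioc (0 : ℝ) (1 / 4)) :
    (e + t) / 4 ≤ ‖1 + exp (-2 * rh e) + (t : ℂ) * exp (u * I)‖ := by
  have a1 := (r2 ht hu e).trans (re_le_norm _)
  have a2 : e ≤ ‖1 + exp (-2 * rh e) + (t : ℂ) * exp (u * I)‖ := by
    refine le_trans ?_ ((neg_le_abs _).trans (abs_im_le_norm _))
    rw [cc, add_im, im_ray]
    simp only [sub_im, ofReal_re, mul_im, I_re, mul_zero, ofReal_im, I_im, mul_one, add_zero]
    have b1 := Real.sin_gt_sub_cube (x := 2 * e) (by linarith [he.1])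
    have b2 : e ^ 2 ≤ 1 / 16 := by nlinarith [he.1, he.2]
    nlinarith [sin_le hu, he.1]
  linarith

end ray

theorem nrp {z : ℂ} {x : ℝ} (c a : ℝ) (hx : 0 < x) (hc : 0 < c) (ha : 0 ≤ a) (h : x / c ≤ ‖z‖) :
    ‖z ^ (-(a : ℂ))‖ ≤ c ^ a * x ^ (-a) := by
  rw [← ofReal_neg, norm_cpow_real]
  calc ‖z‖ ^ (-a) ≤ (x / c) ^ (-a) := Real.rpow_le_rpow_of_nonpos (by positivity) h (by linarith)
    _ = _ := by
        rw [Real.div_rpow hx.le hc.le, Real.rpow_neg hc.le, div_inv_eq_mul, mul_comm]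

theorem h12 : (-(1 / 2) : ℂ) = -((1 / 2 : ℝ) : ℂ) := by push_cast; rfl

theorem h32 : (-(3 / 2) : ℂ) = -((3 / 2 : ℝ) : ℂ) := by push_cast; rfl

theorem s2 : (2 : ℝ) ^ (1 / 2 : ℝ) ≤ 3 / 2 := by
  rw [← Real.sqrt_eq_rpow]
  exact Real.sqrt_le_iff.2 (by norm_num)

theorem s4 : (4 : ℝ) ^ (1 / 2 : ℝ) = 2 := by
  rw [← Real.sqrt_eq_rpow, show (4 : ℝ) = 2 ^ 2 by norm_num, Real.sqrt_sq (by norm_num)]

theorem s8 : (2 : ℝ) ^ (3 / 2 : ℝ) ≤ 3 := by
  rw [show (3 / 2 : ℝ) = 1 + 1 / 2 by norm_num, Real.rpow_add two_pos, Real.rpow_one]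
  linarith [s2]

section bounds

variable {t u e : ℝ} (ht : 0 < t) (hu : u ∈ uIcc 0 (-(1 / 4) : ℝ))
include ht

theorem b0 (u : ℝ) : ‖((t : ℂ) * exp (u * I)) ^ (-(1 / 2) : ℂ)‖ = t ^ (-(1 / 2) : ℝ) := by
  rw [h12, ← ofReal_neg, norm_cpow_real, norm_ray ht]

include hu

theorem b1 : ‖(1 + (t : ℂ) * exp (u * I)) ^ (-(1 / 2) : ℂ)‖ ≤
    3 / 2 * (1 + t) ^ (-(1 / 2) : ℝ) := by
  rw [h12]
  refine (nrp 2 _ (by positivity) two_pos (by norm_num)
    ((r1 ht hu).trans (re_le_norm _))).trans ?_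
  gcongr
  exact s2

theorem b3 : ‖(1 + (t : ℂ) * exp (u * I)) ^ (-(3 / 2) : ℂ)‖ ≤ 3 * (1 + t) ^ (-(3 / 2) : ℝ) := by
  rw [h32]
  refine (nrp 2 _ (by positivity) two_pos (by norm_num)
    ((r1 ht hu).trans (re_le_norm _))).trans ?_
  gcongr
  exact s8

theorem b2 (he : e ∈ Ioc (0 : ℝ) (1 / 4)) :
    ‖(1 + exp (-2 * rh e) + (t : ℂ) * exp (u * I)) ^ (-(1 / 2) : ℂ)‖ ≤
      2 * (e + t) ^ (-(1 / 2) : ℝ) := by
  rw [h12]
  have := nrp 4 (1 / 2) (add_pos he.1 ht) four_pos (by norm_num) (n2 ht hu he)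
  rwa [s4] at this

end bounds

theorem split {z : ℂ} (hz : z ≠ 0) (a : ℂ) (k : ℝ) :
    z ^ (a - k * I) = exp (-I * k * log z) * z ^ a := by
  rw [cpow_def_of_ne_zero hz, cpow_def_of_ne_zero hz, ← exp_add]
  congr 1
  ring

theorem norm_osc (z : ℂ) (k : ℝ) : ‖exp (-I * k * log z)‖ ≤ Real.exp (|k| * π) := by
  rw [norm_exp]
  refine Real.exp_le_exp.2 ?_
  have : (-I * k * log z).re = k * arg z := by simp [log_im]
  rw [this]
  calc k * arg z ≤ |k * arg z| := le_abs_self _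
    _ ≤ |k| * π := by rw [abs_mul]; gcongr; exact abs_arg_le_pi z

theorem first (hS : St_SHIFT) (k e : ℝ) (he : e ∈ Ioc (0 : ℝ) (1 / 4)) :
    Jf (sk k) (rh e) = 2 * exp (-rh e / 2) *
      ∫ t in Ioi (0 : ℝ), exp (-I * k * (rh e + xs t)) * wJ (rh e) t := by
  have hs : -sk k = -(1 / 2) - k * I := by unfold sk; ring
  set f : ℂ → ℂ := fun z => (1 + z) ^ (-sk k) * (1 + exp (-2 * rh e) + z) ^ (-(1 / 2) : ℂ) *
    z ^ (-(1 / 2) : ℂ) with hf
  have h1 := sq_int fun t => (1 + t : ℂ) ^ (-sk k) *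
    (1 + exp (-2 * rh e) + t) ^ (-(1 / 2) : ℂ)
  have h2 := hS.2.2 f (-(1 / 4)) (Real.exp (|k| * π) * 3 * e ^ (-(1 / 2) : ℝ)) (1 / 2) 1
    (by norm_num) (by norm_num) (fun t u ht hu => by
      refine (DifferentiableAt.mul ?_ ?_).mul ?_
      · exact (differentiableAt_id.const_add _).cpow_const (p1 ht hu)
      · exact (differentiableAt_id.const_add _).cpow_const (p2 ht hu e)
      · exact differentiableAt_id.cpow_const (p0 ht hu))
    (fun t u ht hu => by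
      simp only [hf]
      rw [hs, split (slitPlane_ne_zero (p1 ht hu)), norm_mul, norm_mul, norm_mul, b0 ht]
      have a1 : (e + t) ^ (-(1 / 2) : ℝ) ≤ e ^ (-(1 / 2) : ℝ) * (1 + t) ^ (-(1 / 2) : ℝ) := by
        rw [← Real.mul_rpow he.1.le (by positivity)]
        exact Real.rpow_le_rpow_of_nonpos (mul_pos he.1 (by positivity))
          (by nlinarith [he.2]) (by norm_num)
      have a2 : (1 + t) ^ (-(1 : ℝ)) = (1 + t) ^ (-(1 / 2) : ℝ) * (1 + t) ^ (-(1 / 2) : ℝ) := by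
        rw [← Real.rpow_add (by positivity)]
        norm_num
      calc _ ≤ Real.exp (|k| * π) * (3 / 2 * (1 + t) ^ (-(1 / 2) : ℝ)) *
            (2 * (e ^ (-(1 / 2) : ℝ) * (1 + t) ^ (-(1 / 2) : ℝ))) * t ^ (-(1 / 2) : ℝ) := by
            gcongr
            · exact norm_osc _ k
            · exact b1 ht hu
            · exact (b2 ht hu he).trans (by gcongr)
        _ = _ := by rw [a2]; ring)
  unfold Jf
  push_cast at h1 ⊢
  rw [h1]
  simp only [hf] at h2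
  rw [h2, ← eth_eq, mul_assoc, mul_assoc, ← integral_const_mul, ← integral_const_mul,
    ← integral_const_mul, ← integral_const_mul]
  refine setIntegral_congr_fun measurableSet_Ioi fun t ht => ?_
  have hz := slitPlane_ne_zero (p1 (mem_Ioi.1 ht) mem4)
  rw [← eth_eq] at hz
  have e1 : exp ((-(1 / 2) - k * I) * rh e) = exp (-rh e / 2) * exp (-I * k * rh e) := by
    rw [← exp_add]
    congr 1
    ring
  simp only [wJ, xs]
  rw [hs, split hz, e1, mul_add (-I * k), exp_add]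
  ring

theorem second (hS : St_SHIFT) (hB : St_BET) (k : ℝ) (r : ℂ) :
    exp (-I * k * r) = (1 / (2 * π) : ℂ) *
      ∫ t in Ioi (0 : ℝ), sk k * (2 * bet (sk k)) * exp (-I * k * (r + xs t)) * wH t := by
  have hs : -(sk k + 1 / 2) - 1 / 2 = -(3 / 2) - k * I := by unfold sk; ring
  have hre : 0 < (sk k).re := by simp [sk]
  have h1 := (hB.1 (sk k + 1 / 2) (by simp [sk])).2.2.2.2.2.2.2
  have h3 := (hB.1 (sk k) hre).2.2.2.1
  set f : ℂ → ℂ := fun z => (1 + z) ^ (-(sk k + 1 / 2) - 1 / 2) * z ^ (-(1 / 2) : ℂ) with hf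
  have h2 := hS.2.2 f (-(1 / 4)) (Real.exp (|k| * π) * 3) (1 / 2) (3 / 2)
    (by norm_num) (by norm_num) (fun t u ht hu => by
      refine DifferentiableAt.mul ?_ ?_
      · exact (differentiableAt_id.const_add _).cpow_const (p1 ht hu)
      · exact differentiableAt_id.cpow_const (p0 ht hu))
    (fun t u ht hu => by
      simp only [hf]
      rw [hs, split (slitPlane_ne_zero (p1 ht hu)), norm_mul, norm_mul, b0 ht]
      calc _ ≤ Real.exp (|k| * π) * (3 * (1 + t) ^ (-(3 / 2) : ℝ)) * t ^ (-(1 / 2) : ℝ) := by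
            gcongr
            · exact norm_osc _ k
            · exact b3 ht hu
        _ = _ := by ring)
  simp only [hf] at h2
  rw [h1, ← eth_eq] at h2
  have e1 : ∫ t in Ioi (0 : ℝ), sk k * (2 * bet (sk k)) * exp (-I * k * (r + xs t)) * wH t =
      sk k * (2 * bet (sk k)) * exp (-I * k * r) * bet (sk k + 1 / 2) := by
    rw [h2, ← integral_const_mul]
    refine setIntegral_congr_fun measurableSet_Ioi fun t ht => ?_
    have hz := slitPlane_ne_zero (p1 (mem_Ioi.1 ht) mem4)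
    rw [← eth_eq] at hz
    simp only [wH, xs]
    rw [hs, split hz, mul_add (-I * k), exp_add]
    ring
  have s0 : sk k ≠ 0 := fun h => by simp [h] at hre
  have hπ : (π : ℂ) ≠ 0 := by exact_mod_cast Real.pi_ne_zero
  rw [e1]
  calc exp (-I * k * r) = 1 / (2 * π) * (sk k * 2 * exp (-I * k * r) * (π / sk k)) := by
        field_simp
    _ = _ := by rw [← h3]; ring

theorem third (t : ℝ) (ht : 0 < t) : -(1 / 4) ≤ (xs t).im ∧ (xs t).im ≤ -(min t 1 / 20) ∧
    0 ≤ (xs t).re ∧ (xs t).re ≤ Real.log (1 + t) := by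
  unfold xs
  rw [eth_eq, log_im, log_re]
  set z : ℂ := 1 + (t : ℂ) * exp (((-(1 / 4) : ℝ) : ℂ) * I) with hz
  have hc := cos_ge mem4
  have hre : z.re = 1 + t * Real.cos (-(1 / 4)) := by rw [hz, add_re, one_re, re_ray]
  have him : z.im = -(t * Real.sin (1 / 4)) := by
    rw [hz, add_im, one_im, im_ray, Real.sin_neg]
    ring
  have n1 : 1 ≤ ‖z‖ := le_trans (by rw [hre]; nlinarith) (re_le_norm z)
  have n3 : ‖z‖ ≤ 1 + t := by
    refine (norm_add_le _ _).trans ?_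
    rw [norm_one, norm_ray ht]
  have n4 : t ≤ ‖z‖ := by
    refine le_of_pow_le_pow_left₀ two_ne_zero (norm_nonneg _) ?_
    rw [Complex.sq_norm, normSq_apply, hre, him, Real.cos_neg]
    rw [Real.cos_neg] at hc
    nlinarith [Real.sin_sq_add_cos_sq (1 / 4 : ℝ), sq_nonneg t]
  have hs : 1 / 5 ≤ Real.sin (1 / 4) := by
    have := Real.sin_gt_sub_cube (x := 1 / 4) (by norm_num)
    linarith
  have hy : t * Real.sin (1 / 4) / ‖z‖ ≤ Real.sin (1 / 4) := by
    rw [div_le_iff₀ (by linarith)]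
    nlinarith
  have hy0 : 0 ≤ t * Real.sin (1 / 4) / ‖z‖ := by positivity
  rw [arg_of_re_nonneg (by rw [hre]; nlinarith), him, neg_div, Real.arcsin_neg]
  refine ⟨neg_le_neg ?_, neg_le_neg ?_, Real.log_nonneg n1, Real.log_le_log (by linarith) n3⟩
  · calc _ ≤ Real.arcsin (Real.sin (1 / 4)) := Real.arcsin_le_arcsin hy
      _ = 1 / 4 := Real.arcsin_sin (by linarith [Real.pi_gt_three])
          (by linarith [Real.pi_gt_three])
  · have a1 := Real.sin_le (Real.arcsin_nonneg.2 hy0)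
    rw [Real.sin_arcsin (by linarith) (hy.trans (Real.sin_le_one _))] at a1
    refine le_trans ?_ a1
    rw [le_div_iff₀ (by linarith)]
    have a2 : min t 1 * (1 + t) ≤ 2 * t := by
      rcases le_total t 1 with h | h
      · rw [min_eq_left h]; nlinarith
      · rw [min_eq_right h]; nlinarith
    have a3 : 0 ≤ min t 1 := le_min ht.le zero_le_one
    nlinarith

end JB3

open JB3 in
theorem t_jb3 : T_JB3 := by
  intro hS hB
  have q0 : ∀ t ∈ Ioi (0 : ℝ), (t : ℂ) * eth ∈ slitPlane := fun t ht => by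
    rw [eth_eq]; exact p0 ht mem4
  have q1 : ∀ t ∈ Ioi (0 : ℝ), 1 + (t : ℂ) * eth ∈ slitPlane := fun t ht => by
    rw [eth_eq]; exact p1 ht mem4
  have q2 : ∀ e : ℝ, ∀ t ∈ Ioi (0 : ℝ), 1 + exp (-2 * rh e) + (t : ℂ) * eth ∈ slitPlane :=
    fun e t ht => by rw [eth_eq]; exact p2 ht mem4 e
  have c0 : ∀ c : ℂ, ContinuousOn (fun t : ℝ => c + (t : ℂ) * eth) (Ioi 0) := fun c => by
    fun_prop
  have c1 : ContinuousOn (fun t : ℝ => (t : ℂ) * eth) (Ioi 0) := by fun_prop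
  have ne : ‖eth‖ = 1 := by rw [eth_eq, norm_exp_ofReal_mul_I]
  refine ⟨first hS, second hS hB, third, (c0 1).clog q1,
    (((c0 1).cpow_const q1).mul (c1.cpow_const q0)).mul continuousOn_const, fun e _ =>
    ((((c0 1).cpow_const q1).mul ((c0 _).cpow_const (q2 e))).mul (c1.cpow_const q0)).mul
      continuousOn_const, fun t ht => ?_, fun e he t ht => ?_⟩
  · unfold wH
    rw [norm_mul, norm_mul, ne, mul_one, eth_eq, b0 ht]
    gcongr
    exact b3 ht mem4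
  · unfold wJ
    rw [norm_mul, norm_mul, norm_mul, ne, mul_one, eth_eq, b0 ht]
    calc _ ≤ 3 / 2 * (1 + t) ^ (-(1 / 2) : ℝ) * (2 * (e + t) ^ (-(1 / 2) : ℝ)) *
          t ^ (-(1 / 2) : ℝ) := by
          gcongr
          · exact b1 ht mem4
          · exact b2 ht mem4 he
      _ = _ := by ring

end

end Pool.Agent.Lib.E2
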