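import Pool.Agent.Lib.E2.Blue

namespace Pool.Agent.Lib.E2

noncomputable section

open Complex MeasureTheory Set Filter Topology
open scoped Real

/-- the real weight `e^(-u) u^(-1/2)` -/
def kb_w (u : ℝ) : ℝ := Real.exp (-u) * u ^ (-(1 / 2) : ℝ)

/-- the integrand of the rotated representation -/
def kb_f (s z : ℂ) (u : ℝ) : ℂ := (kb_w u : ℂ) * (2 * z + u) ^ (-s)

/-- the rotated integral -/
def kb_G (s z : ℂ) : ℂ := ∫ u in Ioi (0 : ℝ), kb_f s z u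

theorem kb_open : IsOpen {z : ℂ | 0 < z.re} := isOpen_lt continuous_const continuous_re

theorem kb_cosh (v : ℝ) : v ^ 2 / 4 ≤ Real.cosh v := by
  have h1 := Real.quadratic_le_exp_of_nonneg (abs_nonneg v)
  rw [← Real.cosh_abs, Real.cosh_eq]
  have h2 := Real.exp_pos (-|v|)
  have h3 := abs_nonneg v
  rw [sq_abs] at h1
  linarith

theorem kb_int {a : ℝ} (ha : 0 < a) : Integrable fun v : ℝ => Real.exp (-a * Real.cosh v) := by
  refine (integrable_exp_neg_mul_sq (b := a / 4) (by positivity)).mono' (by fun_prop)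
    (Eventually.of_forall fun v => ?_)
  rw [Real.norm_eq_abs, abs_of_pos (Real.exp_pos _), Real.exp_le_exp]
  have := kb_cosh v
  nlinarith

theorem kb_diffK (hP : St_PAR) : DifferentiableOn ℂ (fun z => Kb z 0) {z | 0 < z.re} := by
  refine (hP.1 ℝ volume (fun z v => exp (-z * Real.cosh v + 0 * v)) _ kb_open
    (fun z _ => by fun_prop) (Eventually.of_forall fun v => by fun_prop) fun z hz => ?_).1
  have hz' : 0 < z.re := hz
  refine ⟨z.re / 2, by positivity, _, kb_int (a := z.re / 2) (by positivity),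
    Eventually.of_forall fun v w _ hw => ?_⟩
  rw [norm_exp, Real.exp_le_exp]
  have h1 : |(w - z).re| ≤ ‖w - z‖ := abs_re_le_norm _
  have h2 := (abs_le.1 h1).1
  rw [sub_re] at h2
  have h3 := Real.cosh_pos v
  simp only [zero_mul, add_zero, neg_mul, neg_re, mul_re, ofReal_re, ofReal_im, mul_zero, sub_zero]
  nlinarith

theorem kb_slit {z : ℂ} (hz : 0 < z.re) {u : ℝ} (hu : 0 < u) : 2 * z + u ∈ slitPlane := by
  left
  simp only [add_re, mul_re, re_ofNat, im_ofNat, zero_mul, sub_zero, ofReal_re]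
  linarith

theorem kb_low {z : ℂ} (hz : 0 < z.re) {u : ℝ} (hu : 0 < u) :
    ‖z‖ ≤ ‖2 * z + u‖ ∧ u ≤ ‖2 * z + u‖ := by
  have h1 : ‖2 * z + u‖ ^ 2 = (2 * z.re + u) ^ 2 + (2 * z.im) ^ 2 := by
    rw [Complex.sq_norm, normSq_apply]
    simp
    ring
  have h2 : ‖z‖ ^ 2 = z.re ^ 2 + z.im ^ 2 := by
    rw [Complex.sq_norm, normSq_apply]; ring
  constructor
  · refine abs_le_of_sq_le_sq' ?_ (norm_nonneg _) |>.2
    rw [h1, h2]; nlinarith [sq_nonneg z.im, mul_pos hz hu]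
  · refine abs_le_of_sq_le_sq' ?_ (norm_nonneg _) |>.2
    rw [h1]; nlinarith [sq_nonneg z.im, mul_pos hz hu]

theorem kb_w_pos {u : ℝ} (hu : 0 < u) : 0 < kb_w u := by unfold kb_w; positivity

theorem kb_norm {z : ℂ} (hz : 0 < z.re) {u : ℝ} (hu : 0 < u) {a b : ℝ} (ha : 0 ≤ a)
    (hb : 0 ≤ b) : ‖kb_f ((a + b : ℝ) : ℂ) z u‖ ≤
      ‖z‖ ^ (-a) * (Real.exp (-u) * u ^ ((1 / 2 - b) - 1)) := by
  obtain ⟨h1, h2⟩ := kb_low hz hu
  have hz0 : 0 < ‖z‖ := norm_pos_iff.2 fun e => by rw [e] at hz; simp at hz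
  have hn : 0 < ‖2 * z + (u : ℂ)‖ := hu.trans_le h2
  unfold kb_f
  rw [norm_mul, norm_real, Real.norm_eq_abs, abs_of_pos (kb_w_pos hu), ← ofReal_neg,
    norm_cpow_real, neg_add, Real.rpow_add hn]
  have e1 : ‖2 * z + (u : ℂ)‖ ^ (-a) ≤ ‖z‖ ^ (-a) :=
    Real.rpow_le_rpow_of_nonpos hz0 h1 (by linarith)
  have e2 : ‖2 * z + (u : ℂ)‖ ^ (-b) ≤ u ^ (-b) :=
    Real.rpow_le_rpow_of_nonpos hu h2 (by linarith)
  have e3 : u ^ ((1 / 2 - b) - 1) = u ^ (-(1 / 2) : ℝ) * u ^ (-b) := by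
    rw [← Real.rpow_add hu]; congr 1; ring
  have hw := kb_w_pos hu
  calc kb_w u * (‖2 * z + (u : ℂ)‖ ^ (-a) * ‖2 * z + (u : ℂ)‖ ^ (-b))
      ≤ kb_w u * (‖z‖ ^ (-a) * u ^ (-b)) := by gcongr
    _ = _ := by rw [e3]; unfold kb_w; ring

theorem kb_normG {z : ℂ} (hz : 0 < z.re) {a b : ℝ} (ha : 0 ≤ a) (hb : 0 ≤ b) (hb' : b < 1 / 2) :
    ‖kb_G ((a + b : ℝ) : ℂ) z‖ ≤ Real.Gamma (1 / 2 - b) * ‖z‖ ^ (-a) := by
  have h0 : 0 < 1 / 2 - b := by linarith
  rw [Real.Gamma_eq_integral h0, mul_comm, ← integral_const_mul]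
  refine norm_integral_le_of_norm_le ((Real.GammaIntegral_convergent h0).const_mul _) ?_
  filter_upwards [ae_restrict_mem measurableSet_Ioi] with u hu
  exact kb_norm hz hu ha hb

theorem kb_hasDeriv {z : ℂ} (hz : 0 < z.re) {u : ℝ} (hu : 0 < u) :
    HasDerivAt (fun w => kb_f (1 / 2) w u) (-kb_f (3 / 2) z u) z := by
  have h1 : HasDerivAt (fun w : ℂ => 2 * w + u) 2 z := by
    simpa using ((hasDerivAt_id z).const_mul 2).add_const (u : ℂ)
  have h2 := (h1.cpow_const (c := -(1 / 2)) (kb_slit hz hu)).const_mul (kb_w u : ℂ)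
  unfold kb_f
  have e : (-(1 / 2) - 1 : ℂ) = -(3 / 2) := by norm_num
  rw [e] at h2
  refine h2.congr_deriv ?_
  ring

theorem kb_diffG (hP : St_PAR) : DifferentiableOn ℂ (kb_G (1 / 2)) {z | 0 < z.re} ∧
    ∀ z : ℂ, 0 < z.re → deriv (kb_G (1 / 2)) z = -kb_G (3 / 2) z := by
  obtain ⟨h1, h2⟩ := hP.1 ℝ (volume.restrict (Ioi 0)) (fun z u => kb_f (1 / 2) z u) _ kb_open
    (fun z _ => by
      refine Measurable.aestronglyMeasurable ?_
      unfold kb_f kb_w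
      fun_prop)
    (by
      filter_upwards [ae_restrict_mem measurableSet_Ioi] with u hu z hz
      exact (kb_hasDeriv hz hu).differentiableAt.differentiableWithinAt)
    (fun z hz => by
      have hz' : 0 < z.re := hz
      have hz0 : 0 < ‖z‖ := norm_pos_iff.2 fun e => by rw [e] at hz'; simp at hz'
      refine ⟨‖z‖ / 2, by positivity, _, (Real.GammaIntegral_convergent (s := 1 / 2 - 0)
        (by norm_num)).const_mul ((‖z‖ / 2) ^ (-(1 / 2) : ℝ)), ?_⟩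
      filter_upwards [ae_restrict_mem measurableSet_Ioi] with u hu w hw hwz
      have h3 := kb_norm hw hu (a := 1 / 2) (b := 0) (by norm_num) le_rfl
      have e : ((1 / 2 + 0 : ℝ) : ℂ) = 1 / 2 := by push_cast; ring
      rw [e] at h3
      refine h3.trans ?_
      have h4 : ‖z‖ / 2 ≤ ‖w‖ := by
        have := norm_sub_norm_le z w
        rw [norm_sub_rev] at this
        linarith
      have hu' : (0 : ℝ) < u := hu
      have h5 : ‖w‖ ^ (-(1 / 2) : ℝ) ≤ (‖z‖ / 2) ^ (-(1 / 2) : ℝ) :=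
        Real.rpow_le_rpow_of_nonpos (by positivity) h4 (by norm_num)
      gcongr)
  refine ⟨h1, fun z hz => ?_⟩
  have h3 := (h2 z hz).2
  unfold kb_G
  rw [h3, ← integral_neg]
  refine integral_congr_ae ?_
  filter_upwards [ae_restrict_mem measurableSet_Ioi] with u hu
  exact (kb_hasDeriv hz hu).deriv

theorem kb_K_real (x : ℝ) : Kb x 0 = ((∫ v : ℝ, Real.exp (-x * Real.cosh v) : ℝ) : ℂ) := by
  unfold Kb
  rw [← integral_complex_ofReal]
  congr 1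
  funext v
  push_cast
  simp

theorem kb_G_real {x : ℝ} (hx : 0 < x) (s : ℝ) :
    kb_G s x = ((∫ u in Ioi (0 : ℝ), kb_w u * (2 * x + u) ^ (-s) : ℝ) : ℂ) := by
  unfold kb_G
  rw [← integral_complex_ofReal]
  refine integral_congr_ae ?_
  filter_upwards [ae_restrict_mem measurableSet_Ioi] with u hu
  have hu' : (0 : ℝ) < u := hu
  unfold kb_f
  rw [ofReal_mul, ofReal_cpow (by positivity)]
  push_cast
  rfl

theorem kb_subst {x : ℝ} (hx : 0 < x) :
    ∫ u in Ioi (0 : ℝ), kb_w u * (2 * x + u) ^ (-(1 / 2) : ℝ) =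
      ∫ v in Ioi (0 : ℝ), Real.exp x * Real.exp (-x * Real.cosh v) := by
  have him : (fun v : ℝ => x * (Real.cosh v - 1)) '' Ioi 0 = Ioi 0 := by
    ext u
    constructor
    · rintro ⟨v, hv, rfl⟩
      have : 1 < Real.cosh v := Real.one_lt_cosh.2 (ne_of_gt hv)
      exact mul_pos hx (by linarith)
    · intro hu
      have hu' : (0 : ℝ) < u := hu
      have h1 : 1 < 1 + u / x := by have := div_pos hu' hx; linarith
      refine ⟨Real.arcosh (1 + u / x), Real.arcosh_pos h1, ?_⟩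
      simp only
      rw [Real.cosh_arcosh h1.le]
      field_simp
      ring
  have hd : ∀ v ∈ Ioi (0 : ℝ), HasDerivWithinAt (fun v : ℝ => x * (Real.cosh v - 1))
      (x * Real.sinh v) (Ioi 0) v := fun v _ =>
    (((Real.hasDerivAt_cosh v).sub_const 1).const_mul x).hasDerivWithinAt
  have hi : InjOn (fun v : ℝ => x * (Real.cosh v - 1)) (Ioi 0) := fun v hv w hw e => by
    have e' : Real.cosh v = Real.cosh w := by
      have := mul_left_cancel₀ hx.ne' e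
      linarith
    exact Real.cosh_strictMonoOn.injOn (mem_Ici.2 (le_of_lt hv)) (mem_Ici.2 (le_of_lt hw)) e'
  have h := integral_image_eq_integral_abs_deriv_smul measurableSet_Ioi hd hi
    fun u => kb_w u * (2 * x + u) ^ (-(1 / 2) : ℝ)
  rw [him] at h
  rw [h]
  refine setIntegral_congr_fun measurableSet_Ioi fun v hv => ?_
  have hs : 0 < Real.sinh v := Real.sinh_pos_iff.2 hv
  have hc : 1 < Real.cosh v := Real.one_lt_cosh.2 (ne_of_gt hv)
  have hu : 0 < x * (Real.cosh v - 1) := mul_pos hx (by linarith)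
  have e1 : (x * (Real.cosh v - 1)) ^ (-(1 / 2) : ℝ) *
      (2 * x + x * (Real.cosh v - 1)) ^ (-(1 / 2) : ℝ) = (x * Real.sinh v)⁻¹ := by
    rw [← Real.mul_rpow hu.le (by positivity)]
    have e2 : x * (Real.cosh v - 1) * (2 * x + x * (Real.cosh v - 1)) = (x * Real.sinh v) ^ 2 := by
      rw [mul_pow, Real.sinh_sq]; ring
    rw [e2, ← Real.rpow_natCast, ← Real.rpow_mul (by positivity), ← Real.rpow_neg_one]
    norm_num
  simp only [smul_eq_mul]
  unfold kb_w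
  rw [abs_of_pos (by positivity), mul_assoc (Real.exp _), e1, ← Real.exp_add]
  have e3 : x + -x * Real.cosh v = -(x * (Real.cosh v - 1)) := by ring
  rw [e3]
  field_simp

theorem kb_eq_real {x : ℝ} (hx : 0 < x) : Kb x 0 = 2 * exp (-(x : ℂ)) * kb_G (1 / 2) x := by
  have e : (1 / 2 : ℂ) = ((1 / 2 : ℝ) : ℂ) := by push_cast; rfl
  rw [e, kb_G_real hx, kb_subst hx, kb_K_real, integral_const_mul]
  have h1 := integral_comp_abs (f := fun v : ℝ => Real.exp (-x * Real.cosh v))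
  simp only [Real.cosh_abs] at h1
  rw [h1]
  push_cast
  rw [mul_assoc, ← mul_assoc (exp _), ← exp_add]
  simp

theorem kb_eq (hP : St_PAR) {z : ℂ} (hz : 0 < z.re) :
    Kb z 0 = 2 * exp (-z) * kb_G (1 / 2) z := by
  refine hP.2.2.1 (fun z => Kb z 0) (fun z => 2 * exp (-z) * kb_G (1 / 2) z) _ 0 1 kb_open
    (convex_halfSpace_re_gt 0).isPreconnected (kb_diffK hP)
    (DifferentiableOn.mul (by fun_prop) (kb_diffG hP).1) one_pos (fun x hx => ?_) hz
  exact ⟨by simpa using hx.1, kb_eq_real hx.1⟩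

theorem kb_derivW (hP : St_PAR) {z : ℂ} (hz : 0 < z.re) :
    deriv Wf z = -2 * Kb z 0 ^ 2 - 4 * exp (-z) * Kb z 0 * kb_G (3 / 2) z := by
  have h0 : {z : ℂ | 0 < z.re} ∈ 𝓝 z := kb_open.mem_nhds hz
  have h1 : HasDerivAt (kb_G (1 / 2)) (-kb_G (3 / 2) z) z := by
    rw [← (kb_diffG hP).2 z hz]
    exact ((kb_diffG hP).1.differentiableAt h0).hasDerivAt
  have h2 : HasDerivAt (fun z : ℂ => 2 * exp (-z)) (2 * (exp (-z) * -1)) z :=
    ((hasDerivAt_neg z).cexp).const_mul 2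
  have h3 := (h2.mul h1).pow 2
  have h4 : Wf =ᶠ[𝓝 z] ((fun z : ℂ => 2 * exp (-z)) * kb_G (1 / 2)) ^ 2 := by
    filter_upwards [h0] with w hw
    simp only [Wf, Pi.pow_apply, Pi.mul_apply]
    rw [kb_eq hP hw]
  rw [(h3.congr_of_eventuallyEq h4).deriv, kb_eq hP hz]
  simp only [Pi.mul_apply]
  push_cast
  ring

theorem kb_bound (hP : St_PAR) {a : ℝ} (ha : 0 < a) (ha' : a ≤ 1 / 2) {z : ℂ} (hz : 0 < z.re) :
    ‖Kb z 0‖ ≤ 2 * Real.Gamma a * ‖z‖ ^ (-a) * Real.exp (-z.re) := by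
  have h := kb_normG hz (a := a) (b := 1 / 2 - a) ha.le (by linarith) (by linarith)
  have e : ((a + (1 / 2 - a) : ℝ) : ℂ) = 1 / 2 := by push_cast; ring
  rw [e, sub_sub_cancel] at h
  rw [kb_eq hP hz, norm_mul, norm_mul, norm_exp, neg_re, Complex.norm_two]
  have := Real.exp_pos (-z.re)
  calc 2 * Real.exp (-z.re) * ‖kb_G (1 / 2) z‖
      ≤ 2 * Real.exp (-z.re) * (Real.Gamma a * ‖z‖ ^ (-a)) := by gcongr
    _ = _ := by ring

theorem kb_boundW (hP : St_PAR) {z : ℂ} (hz : 0 < z.re) :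
    ‖deriv Wf z‖ ≤ (8 * Real.Gamma (1 / 2) ^ 2 + 8 * Real.Gamma (1 / 8) ^ 2) *
      (‖z‖ ^ (-1 : ℝ) + ‖z‖ ^ (-(5 / 4) : ℝ)) * Real.exp (-2 * z.re) := by
  have hz0 : 0 < ‖z‖ := norm_pos_iff.2 fun e => by rw [e] at hz; simp at hz
  have h1 := kb_bound hP (a := 1 / 2) (by norm_num) le_rfl hz
  have h2 := kb_bound hP (a := 1 / 8) (by norm_num) (by norm_num) hz
  have h3 := kb_normG hz (a := 9 / 8) (b := 3 / 8) (by norm_num) (by norm_num) (by norm_num)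
  have e : ((9 / 8 + 3 / 8 : ℝ) : ℂ) = 3 / 2 := by push_cast; ring
  have e' : (1 / 2 - 3 / 8 : ℝ) = 1 / 8 := by norm_num
  rw [e, e'] at h3
  have g1 : 0 < Real.Gamma (1 / 2) := Real.Gamma_pos_of_pos (by norm_num)
  have g2 : 0 < Real.Gamma (1 / 8) := Real.Gamma_pos_of_pos (by norm_num)
  have e1 : ‖z‖ ^ (-1 : ℝ) = (‖z‖ ^ (-(1 / 2) : ℝ)) ^ 2 := by
    rw [sq, ← Real.rpow_add hz0]; norm_num
  have e2 : ‖z‖ ^ (-(5 / 4) : ℝ) = ‖z‖ ^ (-(1 / 8) : ℝ) * ‖z‖ ^ (-(9 / 8) : ℝ) := by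
    rw [← Real.rpow_add hz0]; norm_num
  have e3 : Real.exp (-2 * z.re) = Real.exp (-z.re) ^ 2 := by
    rw [sq, ← Real.exp_add]; congr 1; ring
  rw [kb_derivW hP hz, e1, e2, e3]
  refine (norm_sub_le _ _).trans ?_
  rw [norm_mul, norm_mul, norm_mul, norm_mul, norm_pow, norm_exp, neg_re, norm_neg,
    Complex.norm_two, Complex.norm_ofNat]
  have p1 := Real.rpow_pos_of_pos hz0 (-(1 / 2))
  have p2 := Real.rpow_pos_of_pos hz0 (-(1 / 8))
  have p3 := Real.rpow_pos_of_pos hz0 (-(9 / 8))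
  have p4 := Real.exp_pos (-z.re)
  set A := ‖z‖ ^ (-(1 / 2) : ℝ)
  set B := ‖z‖ ^ (-(1 / 8) : ℝ)
  set D := ‖z‖ ^ (-(9 / 8) : ℝ)
  set E := Real.exp (-z.re)
  set g := Real.Gamma (1 / 2)
  set g' := Real.Gamma (1 / 8)
  calc 2 * ‖Kb z 0‖ ^ 2 + 4 * E * ‖Kb z 0‖ * ‖kb_G (3 / 2) z‖
      ≤ 2 * (2 * g * A * E) ^ 2 + 4 * E * (2 * g' * B * E) * (g' * D) := by gcongr
    _ = (8 * g ^ 2 * A ^ 2 + 8 * g' ^ 2 * (B * D)) * E ^ 2 := by ring
    _ ≤ _ := by
      refine mul_le_mul_of_nonneg_right ?_ (by positivity)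
      have q1 : 0 ≤ 8 * g ^ 2 * (B * D) := by positivity
      have q2 : 0 ≤ 8 * g' ^ 2 * A ^ 2 := by positivity
      nlinarith

theorem kb_sign (hP : St_PAR) {x : ℝ} (hx : 0 < x) :
    (deriv Wf x).im = 0 ∧ (deriv Wf x).re < 0 := by
  have e : (3 / 2 : ℂ) = ((3 / 2 : ℝ) : ℂ) := by push_cast; rfl
  have h1 : 0 < ∫ v : ℝ, Real.exp (-x * Real.cosh v) := integral_exp_pos (kb_int hx)
  have h2 : 0 ≤ ∫ u in Ioi (0 : ℝ), kb_w u * (2 * x + u) ^ (-(3 / 2) : ℝ) :=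
    setIntegral_nonneg measurableSet_Ioi fun u hu => by
      have hu' : (0 : ℝ) < u := hu
      have := kb_w_pos hu'
      positivity
  rw [kb_derivW hP (by simpa using hx), e, kb_G_real hx, kb_K_real]
  set K := ∫ v : ℝ, Real.exp (-x * Real.cosh v)
  set G := ∫ u in Ioi (0 : ℝ), kb_w u * (2 * x + u) ^ (-(3 / 2) : ℝ)
  have e1 : -2 * (K : ℂ) ^ 2 - 4 * exp (-(x : ℂ)) * K * G =
      ((-2 * K ^ 2 - 4 * Real.exp (-x) * K * G : ℝ) : ℂ) := by push_cast; rfl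
  rw [e1, ofReal_im, ofReal_re]
  refine ⟨rfl, ?_⟩
  have p1 : 0 < K ^ 2 := by positivity
  have p2 : 0 ≤ 4 * Real.exp (-x) * K * G := by positivity
  linarith

theorem t_kb : T_KB := by
  intro _ hP
  exact ⟨kb_diffK hP, (kb_diffK hP).pow 2, fun a ha => ⟨_, fun z hz => kb_bound hP ha.1 ha.2 hz⟩,
    ⟨_, fun z hz => kb_boundW hP hz⟩, fun x hx => kb_sign hP hx⟩

end

end Pool.Agent.Lib.E2
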