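import Pool.Agent.Lib.E2.Blue

namespace Pool.Agent.Lib.E2

noncomputable section

open Complex MeasureTheory Set Filter Topology
open scoped Real UpperHalfPlane MatrixGroups ComplexConjugate Modular ENNReal InnerProductSpace

namespace KER1

theorem int_le {g : ℝ → ℝ} (hg : Integrable g) {a c : ℝ} (h : ∀ t ∈ Icc a (a + 1), g t ≤ c) :
    ∫ t in a..a + 1, g t ≤ c := by
  have := intervalIntegral.integral_mono_on (μ := volume) (by linarith : a ≤ a + 1)
    hg.intervalIntegrable (intervalIntegrable_const (c := c)) h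
  simpa using this

theorem le_int {g : ℝ → ℝ} (hg : Integrable g) {a c : ℝ} (h : ∀ t ∈ Icc a (a + 1), c ≤ g t) :
    c ≤ ∫ t in a..a + 1, g t := by
  have := intervalIntegral.integral_mono_on (μ := volume) (by linarith : a ≤ a + 1)
    (intervalIntegrable_const (c := c)) hg.intervalIntegrable h
  simpa using this

theorem abs_seq (a J : ℤ → ℝ) (S M : ℝ) (ha : ∀ n, 0 ≤ a n) (hJ : HasSum J S)
    (h1 : ∀ k : ℕ, a ((k + 1 : ℕ) + 1) ≤ J (k + 1)) (h2 : ∀ k : ℕ, J (k + 1) ≤ a (k + 1))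
    (h3 : ∀ k : ℕ, a (-(k + 1)) ≤ J (-(k + 1))) (h4 : ∀ k : ℕ, J (-(k + 1)) ≤ a (-k))
    (h5 : J 0 ≤ M) (h6 : a 0 + a 1 ≤ J 0 + M) : Summable a ∧ |∑' n, a n - S| ≤ M := by
  have sJ1 : Summable fun k : ℕ => J (k + 1) :=
    hJ.summable.comp_injective (i := fun k : ℕ => (k : ℤ) + 1) fun x y h => by simpa using h
  have sJ2 : Summable fun k : ℕ => J (-(k + 1)) :=
    hJ.summable.comp_injective (i := fun k : ℕ => -((k : ℤ) + 1)) fun x y h => by simpa using h
  have s1 : Summable fun k : ℕ => a ((k + 1 : ℕ) + 1) :=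
    Summable.of_nonneg_of_le (fun _ => ha _) h1 sJ1
  have s2 : Summable fun k : ℕ => a (k + 1) := (summable_nat_add_iff 1).1 s1
  have s3 : Summable fun k : ℕ => a (-(k + 1)) := Summable.of_nonneg_of_le (fun _ => ha _) h3 sJ2
  have s4 : Summable fun k : ℕ => a (-k) := (summable_nat_add_iff 1).1 (by simpa using s3)
  have e1 := tsum_of_add_one_of_neg_add_one s2 s3
  have e2 := tsum_of_add_one_of_neg_add_one sJ1 sJ2
  rw [hJ.tsum_eq] at e2
  have e3 := s2.tsum_eq_zero_add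
  have e4 := s4.tsum_eq_zero_add
  simp only [Nat.cast_zero, zero_add, neg_zero] at e3 e4
  have e5 : ∑' k : ℕ, a (-((k + 1 : ℕ) : ℤ)) = ∑' k : ℕ, a (-(k + 1)) := by simp
  have i1 := s1.tsum_le_tsum h1 sJ1
  have i2 := sJ1.tsum_le_tsum h2 s2
  have i3 := s3.tsum_le_tsum h3 sJ2
  have i4 := sJ2.tsum_le_tsum h4 s4
  refine ⟨Summable.of_add_one_of_neg_add_one s2 s3, abs_le.2 ⟨?_, ?_⟩⟩ <;> linarith

theorem part1 (g : ℝ → ℝ) (x0 x : ℝ) (h0 : ∀ t, 0 ≤ g t) (hg : Integrable g)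
    (hm : MonotoneOn g (Iic x0)) (ha : AntitoneOn g (Ici x0)) :
    Summable (fun n : ℤ => g (x + n)) ∧ |∑' n : ℤ, g (x + n) - ∫ t, g t| ≤ g x0 := by
  obtain ⟨y, n0, hy, hy1, hy2⟩ : ∃ (y : ℝ) (n0 : ℤ), y = x + n0 ∧ y ≤ x0 ∧ x0 < y + 1 :=
    ⟨_, ⌊x0 - x⌋, rfl, by linarith [Int.floor_le (x0 - x)], by
      linarith [Int.lt_floor_add_one (x0 - x)]⟩
  have hmax : ∀ t, g t ≤ g x0 := fun t => by
    rcases le_total t x0 with h | h
    · exact hm h (mem_Iic.2 le_rfl) h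
    · exact ha (mem_Ici.2 le_rfl) h h
  have key := abs_seq (fun n => g (y + n)) (fun n => ∫ t in y + n..y + n + 1, g t) (∫ t, g t)
    (g x0) (fun _ => h0 _) (hg.hasSum_intervalIntegral y)
    (fun k => le_int hg fun t ht => by
      have hk : (0 : ℝ) ≤ k := k.cast_nonneg
      push_cast at ht ⊢
      exact ha (mem_Ici.2 (by linarith [ht.1])) (mem_Ici.2 (by linarith)) (by linarith [ht.2]))
    (fun k => int_le hg fun t ht => by
      have hk : (0 : ℝ) ≤ k := k.cast_nonneg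
      push_cast at ht ⊢
      exact ha (mem_Ici.2 (by linarith)) (mem_Ici.2 (by linarith [ht.1])) ht.1)
    (fun k => le_int hg fun t ht => by
      have hk : (0 : ℝ) ≤ k := k.cast_nonneg
      push_cast at ht ⊢
      exact hm (mem_Iic.2 (by linarith)) (mem_Iic.2 (by linarith [ht.2])) ht.1)
    (fun k => int_le hg fun t ht => by
      have hk : (0 : ℝ) ≤ k := k.cast_nonneg
      push_cast at ht ⊢
      exact hm (mem_Iic.2 (by linarith [ht.2])) (mem_Iic.2 (by linarith)) (by linarith [ht.2]))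
    (int_le hg fun t _ => hmax t)
    (by
      have : min (g y) (g (y + 1)) ≤ ∫ t in y..y + 1, g t := le_int hg fun t ht => by
        rcases le_total t x0 with h | h
        · exact (min_le_left _ _).trans (hm hy1 h ht.1)
        · exact (min_le_right _ _).trans (ha h hy2.le ht.2)
      have h1 := hmax y
      have h2 := hmax (y + 1)
      simp only [Int.cast_zero, add_zero, Int.cast_one]
      rcases min_choice (g y) (g (y + 1)) with h | h <;> rw [h] at this <;> linarith)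
  have e : (fun n : ℤ => g (y + n)) = (fun n : ℤ => g (x + n)) ∘ Equiv.addLeft n0 := by
    funext n
    simp [hy, add_assoc]
  rw [e] at key
  refine ⟨(Equiv.summable_iff _).1 key.1, ?_⟩
  rw [← (Equiv.addLeft n0).tsum_eq]
  exact key.2

/-- the kernel `(t^2+A)^(-3/2)` -/
def gA (A t : ℝ) : ℝ := ((t ^ 2 + A) * √(t ^ 2 + A))⁻¹

theorem gA_nonneg {A : ℝ} (hA : 0 < A) (t : ℝ) : 0 ≤ gA A t := by unfold gA; positivity

theorem gA_le {A : ℝ} (hA : 0 < A) {s t : ℝ} (h : s ^ 2 ≤ t ^ 2) : gA A t ≤ gA A s := by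
  unfold gA
  gcongr

theorem gA_int {A : ℝ} (hA : 0 < A) : Integrable (gA A) := by
  have hc : Continuous (gA A) := by
    unfold gA
    exact Continuous.inv₀ (by fun_prop) fun t => by positivity
  refine (integrable_inv_one_add_sq.const_mul ((min 1 A * √A)⁻¹)).mono' hc.aestronglyMeasurable
    (Eventually.of_forall fun t => ?_)
  rw [Real.norm_of_nonneg (gA_nonneg hA t), gA, ← mul_inv]
  have hm : 0 < min 1 A := lt_min one_pos hA
  refine inv_anti₀ (by positivity) ?_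
  have h1 : min 1 A * (1 + t ^ 2) ≤ t ^ 2 + A := by
    have := mul_le_mul_of_nonneg_right (min_le_left 1 A) (sq_nonneg t)
    have := min_le_right 1 A
    linarith
  have h2 : √A ≤ √(t ^ 2 + A) := Real.sqrt_le_sqrt (by linarith [sq_nonneg t])
  calc min 1 A * √A * (1 + t ^ 2) = min 1 A * (1 + t ^ 2) * √A := by ring
    _ ≤ _ := by gcongr

theorem tend_top {A : ℝ} (hA : 0 < A) : Tendsto (fun t : ℝ => t / √(t ^ 2 + A)) atTop (𝓝 1) := by
  have h1 : Tendsto (fun t : ℝ => (√(1 + A * (t⁻¹) ^ 2))⁻¹) atTop (𝓝 (√(1 + A * 0 ^ 2))⁻¹) :=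
    (((tendsto_inv_atTop_zero.pow 2).const_mul A).const_add 1).sqrt.inv₀ (by simp)
  simp only [ne_eq, OfNat.ofNat_ne_zero, not_false_eq_true, zero_pow, mul_zero, add_zero,
    Real.sqrt_one, inv_one] at h1
  refine h1.congr' ((eventually_gt_atTop 0).mono fun t ht => ?_)
  have : t ^ 2 + A = t ^ 2 * (1 + A * (t⁻¹) ^ 2) := by field_simp
  simp only
  rw [this, Real.sqrt_mul (sq_nonneg t), Real.sqrt_sq ht.le]
  field_simp

theorem gA_integral {A : ℝ} (hA : 0 < A) : ∫ t, gA A t = 2 / A := by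
  have hd : ∀ t, HasDerivAt (fun t : ℝ => A⁻¹ * (t / √(t ^ 2 + A))) (gA A t) t := fun t => by
    have hp : 0 < t ^ 2 + A := by positivity
    have hs : 0 < √(t ^ 2 + A) := Real.sqrt_pos.2 hp
    have h1 : HasDerivAt (fun t : ℝ => t ^ 2 + A) (2 * t) t := by
      simpa using (hasDerivAt_pow 2 t).add_const A
    have h2 := ((hasDerivAt_id' t).div (h1.sqrt hp.ne') hs.ne').const_mul A⁻¹
    refine h2.congr_deriv ?_
    have hq := Real.sq_sqrt hp.le
    unfold gA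
    generalize √(t ^ 2 + A) = s at hs hq ⊢
    rw [← hq]
    field_simp
    linarith
  have hb : Tendsto (fun t : ℝ => t / √(t ^ 2 + A)) atBot (𝓝 (-1)) := by
    refine ((tend_top hA).comp tendsto_neg_atBot_atTop).neg.congr fun t => ?_
    simp [neg_div]
  rw [integral_of_hasDerivAt_of_tendsto hd (gA_int hA) (hb.const_mul _)
    ((tend_top hA).const_mul _)]
  ring

theorem gA_sum {A : ℝ} (hA : 0 < A) (x : ℝ) : Summable (fun n : ℤ => gA A (x + n)) ∧
    ∑' n : ℤ, gA A (x + n) ≤ 2 / A + (A * √A)⁻¹ := by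
  have h := part1 (gA A) 0 x (gA_nonneg hA) (gA_int hA)
    (fun s hs t ht hst => gA_le hA (by nlinarith [mem_Iic.1 hs, mem_Iic.1 ht]))
    (fun s hs t ht hst => gA_le hA (by nlinarith [mem_Ici.1 hs, mem_Ici.1 ht]))
  refine ⟨h.1, ?_⟩
  have h2 := (abs_le.1 h.2).2
  rw [gA_integral hA] at h2
  have : gA A 0 = (A * √A)⁻¹ := by simp [gA]
  linarith

/-- majorant attached to a bottom row -/
def U (z : ℍ) (p : ℤ × ℤ) : ℝ :=
  if p.1 = 0 then (if p.2 = 1 then 1 else 0) + (if p.2 = -1 then 1 else 0)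
  else z.im * √z.im * gA ((p.1 * z.im) ^ 2) (p.1 * z.re + p.2)

/-- majorant of the row sums -/
def B (c : ℤ) : ℝ :=
  27727 / 10000 * (1 / (c : ℝ) ^ 2) + (if c = 0 then 2 else 0) +
    (if c = 1 then 6217 / 10000 else 0) + (if c = -1 then 6217 / 10000 else 0)

theorem B_nonneg (c : ℤ) : 0 ≤ B c := by unfold B; positivity

theorem B_sum : ∑' c : ℤ, ENNReal.ofReal (B c) ≤ ENNReal.ofReal (62 / 5) := by
  have h1 : HasSum (fun c : ℤ => 1 / (c : ℝ) ^ 2) (π ^ 2 / 6 + π ^ 2 / 6 - 1 / ((0 : ℤ) : ℝ) ^ 2) :=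
    HasSum.of_nat_of_neg (f := fun c : ℤ => 1 / (c : ℝ) ^ 2) (by simpa using hasSum_zeta_two)
      (by simpa using hasSum_zeta_two)
  have h2 : HasSum B _ := (((h1.mul_left (27727 / 10000)).add (hasSum_ite_eq 0 2)).add
    (hasSum_ite_eq 1 (6217 / 10000))).add (hasSum_ite_eq (-1) (6217 / 10000))
  rw [← ENNReal.ofReal_tsum_of_nonneg B_nonneg h2.summable, h2.tsum_eq]
  refine ENNReal.ofReal_le_ofReal ?_
  have := Real.pi_lt_d4
  have := Real.pi_pos
  have : π ^ 2 ≤ 987 / 100 := by nlinarith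
  simp only [Int.cast_zero, ne_eq, OfNat.ofNat_ne_zero, not_false_eq_true, zero_pow, div_zero]
  linarith

theorem U_nonneg (z : ℍ) (p : ℤ × ℤ) : 0 ≤ U z p := by
  have := z.im_pos
  unfold U gA
  positivity

theorem num_bd {s a : ℝ} (hs : 93 / 100 ≤ s) (ha : 1 ≤ a) :
    s ^ 2 * s * (2 / (a * s ^ 2) ^ 2 + ((a * s ^ 2) ^ 2 * (a * s ^ 2))⁻¹) ≤
      2151 / 1000 * (1 / a ^ 2) + 12434 / 10000 * (1 / a ^ 3) := by
  have hs0 : 0 < s := by linarith
  have ha0 : 0 < a := by linarith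
  have e : s ^ 2 * s * (2 / (a * s ^ 2) ^ 2 + ((a * s ^ 2) ^ 2 * (a * s ^ 2))⁻¹) =
      2 / s * (1 / a ^ 2) + 1 / s ^ 3 * (1 / a ^ 3) := by field_simp
  rw [e]
  have h1 : 2 / s ≤ 2151 / 1000 := by rw [div_le_iff₀ hs0]; linarith
  have h2 : 1 / s ^ 3 ≤ 12434 / 10000 := by
    have : (93 / 100 : ℝ) ^ 3 ≤ s ^ 3 := by gcongr
    rw [div_le_iff₀ (by positivity)]; norm_num at this ⊢; linarith
  gcongr

theorem U_row {z : ℍ} (hz : z ∈ 𝒟) (c : ℤ) :
    ∑' d : ℤ, ENNReal.ofReal (U z (c, d)) ≤ ENNReal.ofReal (B c) := by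
  have hy := z.im_pos
  by_cases hc : c = 0
  · subst hc
    have h : HasSum (fun d : ℤ => U z (0, d)) (1 + 1) := by
      simpa [U] using (hasSum_ite_eq (1 : ℤ) (1 : ℝ)).add (hasSum_ite_eq (-1 : ℤ) (1 : ℝ))
    rw [← ENNReal.ofReal_tsum_of_nonneg (fun d => U_nonneg z _) h.summable, h.tsum_eq]
    refine ENNReal.ofReal_le_ofReal ?_
    simp [B]; norm_num
  have hc' : (c : ℝ) ≠ 0 := by exact_mod_cast hc
  have hA : 0 < ((c : ℝ) * z.im) ^ 2 := by positivity
  obtain ⟨h1, h2⟩ := gA_sum hA (c * z.re)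
  have e : (fun d : ℤ => U z (c, d)) =
      fun d : ℤ => z.im * √z.im * gA ((c * z.im) ^ 2) (c * z.re + d) := by
    funext d; simp [U, hc]
  have h3 : Summable fun d : ℤ => U z (c, d) := by rw [e]; exact h1.mul_left _
  rw [← ENNReal.ofReal_tsum_of_nonneg (fun d => U_nonneg z _) h3, e, tsum_mul_left]
  refine ENNReal.ofReal_le_ofReal ?_
  have h4 := ModularGroup.three_le_four_mul_im_sq_of_mem_fd hz
  have hs : 93 / 100 ≤ √z.im := Real.le_sqrt_of_sq_le (by nlinarith)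
  have ha : (1 : ℝ) ≤ |(c : ℝ)| := by exact_mod_cast Int.one_le_abs hc
  have h5 := num_bd hs ha
  rw [Real.sq_sqrt hy.le] at h5
  have e2 : ((c : ℝ) * z.im) ^ 2 = (|(c : ℝ)| * z.im) ^ 2 := by rw [mul_pow, mul_pow, sq_abs]
  have h6 : z.im * √z.im * ∑' d : ℤ, gA ((c * z.im) ^ 2) (c * z.re + d) ≤
      2151 / 1000 * (1 / |(c : ℝ)| ^ 2) + 12434 / 10000 * (1 / |(c : ℝ)| ^ 3) := by
    refine le_trans (mul_le_mul_of_nonneg_left h2 (by positivity)) ?_
    rw [e2, Real.sqrt_sq (by positivity)]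
    exact h5
  refine h6.trans ?_
  rw [sq_abs]
  unfold B
  by_cases p1 : c = 1
  · subst p1; norm_num
  by_cases p2 : c = -1
  · subst p2; norm_num
  have ha2 : (2 : ℝ) ≤ |(c : ℝ)| := by
    have : (2 : ℤ) ≤ |c| := by rcases abs_cases c with h | h <;> omega
    exact_mod_cast this
  have h7 : 1 / |(c : ℝ)| ^ 3 ≤ 1 / 2 * (1 / (c : ℝ) ^ 2) := by
    rw [← sq_abs, one_div_mul_one_div]
    refine one_div_le_one_div_of_le (by positivity) ?_
    nlinarith [sq_nonneg |(c : ℝ)|]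
  rw [if_neg hc, if_neg p1, if_neg p2]
  linarith

theorem U_sum {z : ℍ} (hz : z ∈ 𝒟) :
    ∑' p : ℤ × ℤ, ENNReal.ofReal (U z p) ≤ ENNReal.ofReal (62 / 5) := by
  rw [ENNReal.tsum_prod']
  exact (ENNReal.tsum_le_tsum (U_row hz)).trans B_sum

theorem le_U (z : ℍ) (g : SL(2, ℤ)) :
    min 1 ((g • z).im ^ (3 / 2 : ℝ)) ≤ U z (g 1 0, g 1 1) := by
  have hdet : g 0 0 * g 1 1 - g 0 1 * g 1 0 = 1 := by
    have := g.det_coe
    rwa [Matrix.det_fin_two] at this
  by_cases hc : g 1 0 = 0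
  · refine (min_le_left _ _).trans ?_
    rw [hc, mul_zero, sub_zero] at hdet
    rcases Int.eq_one_or_neg_one_of_mul_eq_one' hdet with h | h <;> simp [U, hc, h.2]
  · refine (min_le_right _ _).trans (le_of_eq ?_)
    have hy := z.im_pos
    have hN : Complex.normSq (UpperHalfPlane.denom g z) =
        ((g 1 0 : ℤ) * z.re + (g 1 1 : ℤ)) ^ 2 + ((g 1 0 : ℤ) * z.im) ^ 2 := by
      rw [ModularGroup.denom_apply, Complex.normSq_apply]
      simp; ring
    have e : ∀ v : ℝ, 0 < v → v ^ (3 / 2 : ℝ) = v * √v := fun v hv => by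
      rw [Real.sqrt_eq_rpow, ← Real.rpow_one_add' hv.le (by norm_num)]; norm_num
    rw [e _ (g • z).im_pos, ModularGroup.im_smul_eq_div_normSq, hN, Real.sqrt_div hy.le]
    simp only [U, if_neg hc, gA]
    rw [div_mul_div_comm, div_eq_mul_inv]

theorem row_inj {z : ℍ} {g g' : SL(2, ℤ)} (h1 : g • z ∈ strip) (h2 : g' • z ∈ strip)
    (hc : g 1 0 = g' 1 0) (hd : g 1 1 = g' 1 1) : g = g' := by
  have hdet : g 0 0 * g 1 1 - g 0 1 * g 1 0 = 1 := by
    have := g.det_coe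
    rwa [Matrix.det_fin_two] at this
  have hdet' : g' 0 0 * g' 1 1 - g' 0 1 * g' 1 0 = 1 := by
    have := g'.det_coe
    rwa [Matrix.det_fin_two] at this
  rw [← hc, ← hd] at hdet'
  obtain ⟨n, ha, hb⟩ : ∃ n : ℤ, g' 0 0 = g 0 0 + n * g 1 0 ∧ g' 0 1 = g 0 1 + n * g 1 1 :=
    ⟨g 0 0 * g' 0 1 - g' 0 0 * g 0 1, by linear_combination g 0 0 * hdet' - g' 0 0 * hdet,
      by linear_combination g 0 1 * hdet' - g' 0 1 * hdet⟩
  have e : ((g' • z : ℍ) : ℂ) = ((g • z : ℍ) : ℂ) + n := by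
    have h0 := UpperHalfPlane.denom_ne_zero g z
    rw [ModularGroup.denom_apply] at h0
    rw [UpperHalfPlane.coe_specialLinearGroup_apply, UpperHalfPlane.coe_specialLinearGroup_apply,
      ← hc, ← hd, ha, hb]
    simp only [eq_intCast, ofReal_intCast] at h0 ⊢
    rw [div_add' _ _ _ h0]
    congr 1
    push_cast
    ring
  have e2 : (g' • z).re = (g • z).re + n := by
    rw [← UpperHalfPlane.coe_re, e]; simp
  have hn : n = 0 := by
    have a1 : (n : ℝ) < 1 := by linarith [h1.1, h2.2]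
    have a2 : (-1 : ℝ) < n := by linarith [h1.2, h2.1]
    have a3 : n < 1 := by exact_mod_cast a1
    have a4 : -1 < n := by exact_mod_cast a2
    omega
  rw [hn, zero_mul, add_zero] at ha hb
  ext i j
  fin_cases i <;> fin_cases j
  exacts [ha.symm, hb.symm, hc, hd]

theorem orbit_sum {z : ℍ} (hz : z ∈ 𝒟) :
    ∑' g : SL(2, ℤ), strip.indicator
      (fun w : ℍ => ENNReal.ofReal (min 1 (w.im ^ (3 / 2 : ℝ)))) (g • z) ≤
      ENNReal.ofReal (62 / 5) := by
  have e : ∀ g : SL(2, ℤ), strip.indicator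
      (fun w : ℍ => ENNReal.ofReal (min 1 (w.im ^ (3 / 2 : ℝ)))) (g • z) =
      {g : SL(2, ℤ) | g • z ∈ strip}.indicator
        (fun g => ENNReal.ofReal (min 1 ((g • z).im ^ (3 / 2 : ℝ)))) g := fun g => rfl
  simp only [e]
  rw [← tsum_subtype]
  refine le_trans ?_ (U_sum hz)
  refine le_trans (ENNReal.tsum_le_tsum fun g => ENNReal.ofReal_le_ofReal (le_U z g.1)) ?_
  exact ENNReal.tsum_comp_le_tsum_of_injective
    (f := fun g : {g : SL(2, ℤ) | g • z ∈ strip} => (g.1 1 0, g.1 1 1))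
    (fun g g' h => Subtype.ext (row_inj g.2 g'.2 (congrArg Prod.fst h) (congrArg Prod.snd h)))
    fun p => ENNReal.ofReal (U z p)

end KER1

open KER1 in
theorem t_ker1 : T_KER1 := by
  intro hU1 hU2
  refine ⟨part1, fun f hf => ?_⟩
  have hst : MeasurableSet strip := hU1.2.2.2.2.2.2.1
  have hu : Measurable fun w : ℍ => min 1 (w.im ^ (3 / 2 : ℝ)) :=
    measurable_const.min (UpperHalfPlane.continuous_im.measurable.pow_const _)
  have hu0 : ∀ w : ℍ, 0 ≤ min 1 (w.im ^ (3 / 2 : ℝ)) := fun w =>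
    le_min zero_le_one (Real.rpow_nonneg w.im_pos.le _)
  have hn : Measurable fun w : ℍ => ‖f w‖ ^ 2 := hf.1.norm.pow_const 2
  have hi : Integrable (fun w => ‖f w‖ ^ 2) muD :=
    (memLp_two_iff_integrable_sq_norm hf.2.2.1).1 hf.2.2
  set G : ℍ → ℝ≥0∞ := strip.indicator fun w => ENNReal.ofReal (min 1 (w.im ^ (3 / 2 : ℝ))) with hG
  have hGm : Measurable G := hu.ennreal_ofReal.indicator hst
  have hFm : Measurable fun w => G w * ENNReal.ofReal (‖f w‖ ^ 2) := hGm.mul hn.ennreal_ofReal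
  have h1 := hU2.1 _ hFm
  have hsm : ∀ g : SL(2, ℤ), Measurable fun z : ℍ => g • z := fun g =>
    (continuous_const_smul (Matrix.SpecialLinearGroup.mapGL ℝ g)).measurable
  have hcM : Countable (Matrix (Fin 2) (Fin 2) ℤ) :=
    inferInstanceAs (Countable (Fin 2 → Fin 2 → ℤ))
  have hcS : Countable SL(2, ℤ) :=
    inferInstanceAs (Countable {A : Matrix (Fin 2) (Fin 2) ℤ // A.det = 1})
  rw [← lintegral_tsum (f := fun (g : SL(2, ℤ)) (z : ℍ) =>
    G (g • z) * ENNReal.ofReal (‖f (g • z)‖ ^ 2)) fun g => (hFm.comp (hsm g)).aemeasurable] at h1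
  have h2 : ∫⁻ z, ∑' g : SL(2, ℤ), G (g • z) * ENNReal.ofReal (‖f (g • z)‖ ^ 2) ∂muD ≤
      ∫⁻ z, ENNReal.ofReal (62 / 5) * ENNReal.ofReal (‖f z‖ ^ 2) ∂muD := by
    refine lintegral_mono_ae ((ae_restrict_mem ModularGroup.isClosed_fd.measurableSet).mono
      fun z hz => ?_)
    simp only [hf.2.1 _ z]
    rw [ENNReal.tsum_mul_right]
    exact mul_le_mul_left (orbit_sum hz) _
  rw [lintegral_const_mul _ hn.ennreal_ofReal, ← ofReal_integral_eq_lintegral_ofReal hi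
    (Eventually.of_forall fun z => by positivity)] at h2
  have h3 : ∫⁻ w, G w * ENNReal.ofReal (‖f w‖ ^ 2) =
      ∫⁻ w in strip, ENNReal.ofReal (min 1 (w.im ^ (3 / 2 : ℝ)) * ‖f w‖ ^ 2) := by
    rw [← lintegral_indicator hst]
    refine lintegral_congr fun w => ?_
    by_cases hw : w ∈ strip
    · rw [hG, indicator_of_mem hw, indicator_of_mem hw, ENNReal.ofReal_mul (hu0 w)]
    · rw [hG, indicator_of_notMem hw, indicator_of_notMem hw, zero_mul]
  have hn2 : 0 ≤ n2 f := integral_nonneg fun z => by positivity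
  have h4 : ∫⁻ w in strip, ENNReal.ofReal (min 1 (w.im ^ (3 / 2 : ℝ)) * ‖f w‖ ^ 2) ≤
      ENNReal.ofReal (31 / 5 * n2 f) := by
    rw [← h3, ← ENNReal.mul_le_mul_iff_right (a := 2) (by simp) (by simp), h1]
    refine h2.trans (le_of_eq ?_)
    rw [← ENNReal.ofReal_mul (by norm_num), ← ENNReal.ofReal_ofNat,
      ← ENNReal.ofReal_mul (by norm_num)]
    congr 1
    unfold n2
    ring
  have h5 : ∀ w : ℍ, 0 ≤ min 1 (w.im ^ (3 / 2 : ℝ)) * ‖f w‖ ^ 2 := fun w =>
    mul_nonneg (hu0 w) (by positivity)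
  have h6 : IntegrableOn (fun w : ℍ => min 1 (w.im ^ (3 / 2 : ℝ)) * ‖f w‖ ^ 2) strip :=
    ⟨(hu.mul hn).aestronglyMeasurable, (hasFiniteIntegral_iff_ofReal
      (Eventually.of_forall h5)).2 (h4.trans_lt ENNReal.ofReal_lt_top)⟩
  refine ⟨h6, ?_⟩
  rw [← ofReal_integral_eq_lintegral_ofReal h6 (Eventually.of_forall h5)] at h4
  exact (ENNReal.ofReal_le_ofReal_iff (by positivity)).1 h4

end

end Pool.Agent.Lib.E2
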