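import Pool.Agent.Lib.E2.KER1

namespace Pool.Agent.Lib.E2

noncomputable section

open Complex MeasureTheory Set Filter Topology
open scoped Real UpperHalfPlane MatrixGroups ComplexConjugate Modular ENNReal InnerProductSpace

namespace KER2

theorem of_lint {α : Type*} [MeasurableSpace α] {μ : Measure α} {g : α → ℝ} {c : ℝ}
    (hm : AEStronglyMeasurable g μ) (h0 : ∀ x, 0 ≤ g x) (hc : 0 ≤ c)
    (h : ∫⁻ x, ENNReal.ofReal (g x) ∂μ ≤ ENNReal.ofReal c) : Integrable g μ ∧ ∫ x, g x ∂μ ≤ c := by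
  have h6 : Integrable g μ := ⟨hm, (hasFiniteIntegral_iff_ofReal
    (Eventually.of_forall h0)).2 (h.trans_lt ENNReal.ofReal_lt_top)⟩
  refine ⟨h6, ?_⟩
  rw [← ofReal_integral_eq_lintegral_ofReal h6 (Eventually.of_forall h0)] at h
  exact (ENNReal.ofReal_le_ofReal_iff hc).1 h

theorem lint_le {s : Set ℝ} (hs : MeasurableSet s) {g : ℝ → ℝ≥0∞} {m : ℝ → ℝ} {c : ℝ}
    (hm : IntegrableOn m s) (h0 : ∀ y ∈ s, 0 ≤ m y) (h : ∀ y ∈ s, g y ≤ ENNReal.ofReal (m y))
    (hc : ∫ y in s, m y ≤ c) : ∫⁻ y in s, g y ≤ ENNReal.ofReal c := by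
  refine (setLIntegral_mono' hs h).trans ?_
  rw [← ofReal_integral_eq_lintegral_ofReal hm ((ae_restrict_mem hs).mono h0)]
  exact ENNReal.ofReal_le_ofReal hc

theorem wcs {α : Type*} [MeasurableSpace α] {μ : Measure α} {w h : α → ℝ} (h0 : ∀ x, 0 ≤ w x)
    (hw : Integrable w μ) (hh : AEStronglyMeasurable h μ) (hh0 : ∀ x, 0 ≤ h x)
    (h2 : Integrable (fun x => w x * h x ^ 2) μ) : Integrable (fun x => w x * h x) μ ∧
      (∫ x, w x * h x ∂μ) ^ 2 ≤ (∫ x, w x ∂μ) * ∫ x, w x * h x ^ 2 ∂μ := by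
  have h1 : Integrable (fun x => w x * h x) μ := by
    refine (hw.add h2).mono' (hw.1.mul hh) (Eventually.of_forall fun x => ?_)
    rw [Real.norm_of_nonneg (mul_nonneg (h0 x) (hh0 x)), Pi.add_apply]
    nlinarith [mul_nonneg (h0 x) (sq_nonneg (h x - 1)), mul_nonneg (h0 x) (hh0 x)]
  refine ⟨h1, ?_⟩
  have := discrim_le_zero (a := ∫ x, w x ∂μ) (b := -2 * ∫ x, w x * h x ∂μ)
    (c := ∫ x, w x * h x ^ 2 ∂μ) fun t => by
      have i1 := hw.mul_const (t * t)
      have i2 := (h1.const_mul (-2)).mul_const t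
      rw [← integral_mul_const, ← integral_const_mul, ← integral_mul_const, ← integral_add i1 i2,
        ← integral_add (f := fun x => w x * (t * t) + -2 * (w x * h x) * t) (i1.add i2) h2]
      refine integral_nonneg fun x => ?_
      have := mul_nonneg (h0 x) (sq_nonneg (t - h x))
      simp only [Pi.zero_apply]
      nlinarith
  rw [discrim] at this
  nlinarith

theorem r32 {v : ℝ} (hv : 0 < v) : v ^ (3 / 2 : ℝ) = v * √v := by
  rw [Real.sqrt_eq_rpow, ← Real.rpow_one_add' hv.le (by norm_num)]; norm_num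

theorem om_meas : Measurable fun w : ℍ => min 1 (w.im ^ (3 / 2 : ℝ)) :=
  measurable_const.min (UpperHalfPlane.continuous_im.measurable.pow_const _)

theorem om_nonneg (w : ℍ) : 0 ≤ min 1 (w.im ^ (3 / 2 : ℝ)) :=
  le_min zero_le_one (Real.rpow_nonneg w.im_pos.le _)

theorem om_int (hU : St_UNF1) : IntegrableOn (fun w : ℍ => min 1 (w.im ^ (3 / 2 : ℝ))) strip ∧
    ∫ w in strip, min 1 (w.im ^ (3 / 2 : ℝ)) ≤ 3 := by
  refine of_lint om_meas.aestronglyMeasurable om_nonneg (by norm_num) ?_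
  rw [(hU.2.2.2.2.2.2.2.2.1 (fun v => ENNReal.ofReal (min 1 (v ^ (3 / 2 : ℝ))))
    (measurable_const.min (measurable_id.pow_const _)).ennreal_ofReal).1,
    ← Ioc_union_Ioi_eq_Ioi zero_le_one]
  refine (lintegral_union_le _ _ _).trans ?_
  rw [show ENNReal.ofReal 3 = ENNReal.ofReal 2 + ENNReal.ofReal 1 by
    rw [← ENNReal.ofReal_add (by norm_num) (by norm_num)]; norm_num]
  refine add_le_add (lint_le measurableSet_Ioc (m := fun y => y ^ (-(1 / 2) : ℝ))
    (intervalIntegral.intervalIntegrable_rpow' (by norm_num)).1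
    (fun y hy => Real.rpow_nonneg hy.1.le _) (fun y hy => ?_) ?_)
    (lint_le measurableSet_Ioi (m := fun y => y ^ (-2 : ℝ))
      (integrableOn_Ioi_rpow_of_lt (by norm_num) one_pos)
      (fun y hy => Real.rpow_nonneg (zero_le_one.trans (le_of_lt hy)) _) (fun y hy => ?_) ?_)
  · rw [← ENNReal.ofReal_mul' (by positivity)]
    refine ENNReal.ofReal_le_ofReal ?_
    have e : y ^ (-(1 / 2) : ℝ) = y ^ (3 / 2 : ℝ) * (1 / y ^ 2) := by
      rw [mul_one_div, ← Real.rpow_natCast, ← Real.rpow_sub hy.1]; norm_num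
    rw [e]
    exact mul_le_mul_of_nonneg_right (min_le_right _ _) (by positivity)
  · rw [← intervalIntegral.integral_of_le zero_le_one, integral_rpow (Or.inl (by norm_num))]
    norm_num
  · rw [← ENNReal.ofReal_mul' (by positivity)]
    refine ENNReal.ofReal_le_ofReal ?_
    have hy0 : 0 < y := one_pos.trans hy
    have e : y ^ (-2 : ℝ) = 1 * (1 / y ^ 2) := by
      rw [Real.rpow_neg hy0.le, one_mul, one_div]; norm_num
    rw [e]
    exact mul_le_mul_of_nonneg_right (min_le_left _ _) (by positivity)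
  · rw [integral_Ioi_rpow_of_lt (by norm_num) one_pos]
    norm_num

theorem ker_sum (hG : St_GEO) (w : ℍ) :
    ∑' n : ℤ, ENNReal.ofReal (qd UpperHalfPlane.I ((n : ℝ) +ᵥ w) ^ (-(3 / 2) : ℝ)) ≤
      ENNReal.ofReal (9 * min 1 (w.im ^ (3 / 2 : ℝ))) := by
  have hv := w.im_pos
  have hA : 0 < 1 + w.im ^ 2 := by positivity
  obtain ⟨s1, s2⟩ := KER1.gA_sum hA w.re
  have e : (fun n : ℤ => qd UpperHalfPlane.I ((n : ℝ) +ᵥ w) ^ (-(3 / 2) : ℝ)) =
      fun n : ℤ => 2 * w.im * √(2 * w.im) * KER1.gA (1 + w.im ^ 2) (w.re + n) := by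
    funext n
    have e1 : qd UpperHalfPlane.I ((n : ℝ) +ᵥ w) =
        ((w.re + n) ^ 2 + (1 + w.im ^ 2)) / (2 * w.im) := by
      rw [hG.1]
      simp only [UpperHalfPlane.vadd_re, UpperHalfPlane.vadd_im, UpperHalfPlane.I_re,
        UpperHalfPlane.I_im]
      field_simp
      ring
    rw [e1, Real.rpow_neg (by positivity), r32 (by positivity), Real.sqrt_div (by positivity),
      div_mul_div_comm, inv_div, KER1.gA, div_eq_mul_inv]
  have s3 : Summable fun n : ℤ => qd UpperHalfPlane.I ((n : ℝ) +ᵥ w) ^ (-(3 / 2) : ℝ) := by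
    rw [e]; exact s1.mul_left _
  rw [← ENNReal.ofReal_tsum_of_nonneg
    (fun n => Real.rpow_nonneg (zero_le_one.trans (hG.2.1 _ _).1) _) s3, e, tsum_mul_left]
  refine ENNReal.ofReal_le_ofReal ?_
  have h1 : 1 ≤ √(1 + w.im ^ 2) := Real.one_le_sqrt.2 (by nlinarith)
  have h2 : ((1 + w.im ^ 2) * √(1 + w.im ^ 2))⁻¹ ≤ 1 / (1 + w.im ^ 2) := by
    rw [one_div]
    exact inv_anti₀ hA (le_mul_of_one_le_right hA.le h1)
  have h3 : √(2 * w.im) ≤ 3 / 2 * √w.im := by
    rw [Real.sqrt_mul (by norm_num)]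
    exact mul_le_mul_of_nonneg_right (Real.sqrt_le_iff.2 ⟨by norm_num, by norm_num⟩)
      (Real.sqrt_nonneg _)
  have h4 : w.im * √w.im / (1 + w.im ^ 2) ≤ min 1 (w.im ^ (3 / 2 : ℝ)) := by
    rw [r32 hv]
    refine le_min ((div_le_one hA).2 ?_) (div_le_self (by positivity) (by nlinarith))
    have hs := Real.sq_sqrt hv.le
    have hs0 := Real.sqrt_nonneg w.im
    generalize √w.im = s at hs hs0 ⊢
    rw [← hs]
    nlinarith [sq_nonneg (s ^ 2 - s), sq_nonneg (s ^ 2 - 1), sq_nonneg s, sq_nonneg (s - 1)]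
  calc 2 * w.im * √(2 * w.im) * ∑' n : ℤ, KER1.gA (1 + w.im ^ 2) (w.re + n)
      ≤ 2 * w.im * (3 / 2 * √w.im) * (2 / (1 + w.im ^ 2) + 1 / (1 + w.im ^ 2)) := by
        refine mul_le_mul (by gcongr) (by linarith) (tsum_nonneg fun n => KER1.gA_nonneg hA _)
          (by positivity)
    _ = 9 * (w.im * √w.im / (1 + w.im ^ 2)) := by ring
    _ ≤ _ := by linarith

theorem bb_nonneg {y : ℝ} (hy : 0 < y) : 0 ≤ bb y := by unfold bb; positivity

theorem bb_int (hU : St_UNF1) :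
    Integrable (fun z : ℍ => bb z.im) muD ∧ ∫ z, bb z.im ∂muD ≤ 27 := by
  have hm : Measurable bb := by unfold bb; fun_prop
  refine of_lint (hm.comp UpperHalfPlane.continuous_im.measurable).aestronglyMeasurable
    (fun z => bb_nonneg z.im_pos) (by norm_num) ?_
  refine (hU.2.2.2.2.2.2.2.2.1 (fun v => ENNReal.ofReal (bb v)) hm.ennreal_ofReal).2.trans ?_
  have ha : (0 : ℝ) < (93 / 100) ^ 2 := by norm_num
  have hsub : Ici (√3 / 2 : ℝ) ⊆ Ioi ((93 / 100) ^ 2) := fun y hy => by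
    have : (173 / 100 : ℝ) ≤ √3 := Real.le_sqrt_of_sq_le (by norm_num)
    have := mem_Ici.1 hy
    rw [mem_Ioi]
    linarith
  refine (lintegral_mono_set hsub).trans ?_
  have i1 := (integrableOn_Ioi_rpow_of_lt (a := -3) (by norm_num) ha).const_mul (5 / 2)
  have i2 := (integrableOn_Ioi_rpow_of_lt (a := -(9 / 2)) (by norm_num) ha).const_mul 53
  refine lint_le measurableSet_Ioi (m := fun y => 5 / 2 * y ^ (-3 : ℝ) + 53 * y ^ (-(9 / 2) : ℝ))
    (i1.add i2) (fun y hy => by have := ha.trans hy; positivity) (fun y hy => ?_) ?_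
  · have hy0 : 0 < y := ha.trans hy
    rw [← ENNReal.ofReal_mul' (by positivity)]
    refine ENNReal.ofReal_le_ofReal (le_of_eq ?_)
    have e1 : y ^ (-3 : ℝ) = 1 / y ^ 3 := by rw [Real.rpow_neg hy0.le, one_div]; norm_num
    have e2 : y ^ (-(9 / 2) : ℝ) = 1 / (y ^ (5 / 2 : ℝ) * y ^ 2) := by
      rw [Real.rpow_neg hy0.le, one_div, ← Real.rpow_natCast, ← Real.rpow_add hy0]; norm_num
    have : 0 < y ^ (5 / 2 : ℝ) := by positivity
    rw [e1, e2, bb]
    field_simp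
  · rw [integral_add i1 i2, integral_const_mul, integral_const_mul,
      integral_Ioi_rpow_of_lt (by norm_num) ha, integral_Ioi_rpow_of_lt (by norm_num) ha]
    have e1 : (((93 / 100 : ℝ) ^ 2) ^ (-3 + 1 : ℝ)) = ((93 / 100) ^ 4)⁻¹ := by
      rw [← Real.rpow_natCast, ← Real.rpow_mul (by norm_num), ← Real.rpow_natCast,
        ← Real.rpow_neg (by norm_num)]
      norm_num
    have e2 : (((93 / 100 : ℝ) ^ 2) ^ (-(9 / 2) + 1 : ℝ)) = ((93 / 100) ^ 7)⁻¹ := by
      rw [← Real.rpow_natCast, ← Real.rpow_mul (by norm_num), ← Real.rpow_natCast,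
        ← Real.rpow_neg (by norm_num)]
      norm_num
    rw [e1, e2]
    norm_num

theorem base (hU1 : St_UNF1) (hK : St_KER1) {f : ℍ → ℂ} (hf : Aut f) :
    IntegrableOn (fun w : ℍ => min 1 (w.im ^ (3 / 2 : ℝ)) * ‖f w‖) strip ∧
    (∫ w in strip, min 1 (w.im ^ (3 / 2 : ℝ)) * ‖f w‖) ^ 2 ≤ 20 * n2 f := by
  obtain ⟨k1, k2⟩ := hK.2 f hf
  obtain ⟨o1, o2⟩ := om_int hU1
  obtain ⟨w1, w2⟩ := wcs om_nonneg o1 hf.1.norm.aestronglyMeasurable (fun _ => norm_nonneg _) k1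
  refine ⟨w1, w2.trans ((mul_le_mul o2 k2 (integral_nonneg fun w =>
    mul_nonneg (om_nonneg w) (sq_nonneg _)) (by norm_num)).trans ?_)⟩
  have : 0 ≤ n2 f := integral_nonneg fun z => by positivity
  linarith

theorem part1 (hU1 : St_UNF1) (hK : St_KER1) (f : ℍ → ℂ) (hf : Aut f) (C : ℝ) (u : ℝ → ℂ)
    (hu : Tst C u) : IntegrableOn (fun w : ℍ => u w.im * f w) strip ∧
    ‖∫ w in strip, u w.im * f w‖ ^ 2 ≤ 20 * C ^ 2 * n2 f := by
  obtain ⟨b1, b2⟩ := base hU1 hK hf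
  have hC : 0 ≤ C := by
    have := (norm_nonneg _).trans (hu.2 1 one_pos)
    exact nonneg_of_mul_nonneg_left this (by positivity)
  have hb : ∀ w : ℍ, ‖u w.im * f w‖ ≤ C * (min 1 (w.im ^ (3 / 2 : ℝ)) * ‖f w‖) := fun w => by
    have hv := w.im_pos
    rw [norm_mul, ← mul_assoc]
    refine mul_le_mul_of_nonneg_right ((hu.2 _ hv).trans
      (mul_le_mul_of_nonneg_left (le_min ?_ ?_) hC)) (norm_nonneg _)
    · exact Real.rpow_le_one (by positivity) ((div_le_one (by positivity)).2 (by linarith))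
        (by norm_num)
    · exact Real.rpow_le_rpow (by positivity) (div_le_self hv.le (by linarith)) (by norm_num)
  have hm : Measurable fun w : ℍ => u w.im * f w :=
    (hu.1.comp UpperHalfPlane.continuous_im.measurable).mul hf.1
  refine ⟨(b1.const_mul C).mono' hm.aestronglyMeasurable (Eventually.of_forall hb), ?_⟩
  have h1 := norm_integral_le_of_norm_le (b1.const_mul C) (Eventually.of_forall hb)
  rw [integral_const_mul] at h1
  calc _ ≤ (C * ∫ w in strip, min 1 (w.im ^ (3 / 2 : ℝ)) * ‖f w‖) ^ 2 :=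
        pow_le_pow_left₀ (norm_nonneg _) h1 2
    _ ≤ C ^ 2 * (20 * n2 f) := by
        rw [mul_pow]; exact mul_le_mul_of_nonneg_left b2 (sq_nonneg _)
    _ = _ := by ring

theorem qd_meas (z : ℍ) : Measurable fun w => qd z w := by
  have : Continuous fun w => qd z w := Real.continuous_cosh.comp (continuous_const.dist continuous_id)
  exact this.measurable

theorem qd_pos (z w : ℍ) : 0 < qd z w := Real.cosh_pos _

theorem part2 (hG : St_GEO) (hU1 : St_UNF1) (hU2 : St_UNF2) (hK : St_KER1) (f : ℍ → ℂ)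
    (hf : Aut f) : Cls f := by
  have hm : Measurable fun w : ℍ => qd UpperHalfPlane.I w ^ (-(3 / 2) : ℝ) :=
    (qd_meas _).pow_const _
  have h1 := hU2.2.2.1 (fun w => ENNReal.ofReal (qd UpperHalfPlane.I w ^ (-(3 / 2) : ℝ)) *
    ENNReal.ofReal ‖f w‖) (hm.ennreal_ofReal.mul hf.1.norm.ennreal_ofReal)
  have hm2 : Measurable fun w : ℍ => ((qd UpperHalfPlane.I w ^ (-(3 / 2) : ℝ) : ℝ) : ℂ) * f w :=
    (Complex.measurable_ofReal.comp hm).mul hf.1
  refine ⟨hm2.aestronglyMeasurable, ?_⟩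
  rw [hasFiniteIntegral_iff_norm]
  have e : ∀ w : ℍ, ENNReal.ofReal ‖((qd UpperHalfPlane.I w ^ (-(3 / 2) : ℝ) : ℝ) : ℂ) * f w‖ =
      ENNReal.ofReal (qd UpperHalfPlane.I w ^ (-(3 / 2) : ℝ)) * ENNReal.ofReal ‖f w‖ := fun w => by
    have := Real.rpow_nonneg (qd_pos UpperHalfPlane.I w).le (-(3 / 2) : ℝ)
    rw [norm_mul, Complex.norm_real, Real.norm_of_nonneg this, ENNReal.ofReal_mul this]
  simp only [e]
  rw [h1]
  have h2 := (hasFiniteIntegral_iff_ofReal (Eventually.of_forall fun w =>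
    mul_nonneg (by norm_num : (0 : ℝ) ≤ 9) (mul_nonneg (om_nonneg w) (norm_nonneg (f w))))).1
    ((base hU1 hK hf).1.const_mul 9).2
  refine lt_of_le_of_lt (lintegral_mono fun w => ?_) h2
  simp only [hU2.2.2.2.2.1 f hf.2.1]
  rw [ENNReal.tsum_mul_right, ← mul_assoc,
    ENNReal.ofReal_mul (mul_nonneg (by norm_num) (om_nonneg w))]
  exact mul_le_mul_left (ker_sum hG w) _

theorem part3 (hG : St_GEO) (f : ℍ → ℂ) (hf : Cls f) (a : ℝ) (ha : Real.cos a < 1) (z : ℍ) :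
    Integrable (fun w : ℍ => (ka a (qd z w) : ℂ) * f w) := by
  have hp : ∀ w, 0 < qd z w - Real.cos a := fun w => by linarith [(hG.2.1 z w).1]
  have hm : 0 < (1 - Real.cos a) / (4 * qd UpperHalfPlane.I z) :=
    div_pos (by linarith) (by linarith [qd_pos UpperHalfPlane.I z])
  have hm1 : Measurable fun w : ℍ =>
      ((qd z w - Real.cos a) / qd UpperHalfPlane.I w) ^ (-(3 / 2) : ℝ) :=
    (((qd_meas z).sub_const _).div (qd_meas _)).pow_const _
  have hm2 : Measurable fun w : ℍ =>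
      ((((qd z w - Real.cos a) / qd UpperHalfPlane.I w) ^ (-(3 / 2) : ℝ) : ℝ) : ℂ) :=
    Complex.measurable_ofReal.comp hm1
  have hb : ∀ w : ℍ,
      ‖((((qd z w - Real.cos a) / qd UpperHalfPlane.I w) ^ (-(3 / 2) : ℝ) : ℝ) : ℂ)‖ ≤
      ((1 - Real.cos a) / (4 * qd UpperHalfPlane.I z)) ^ (-(3 / 2) : ℝ) := fun w => by
    have h0 := qd_pos UpperHalfPlane.I w
    have h0' := qd_pos UpperHalfPlane.I z
    rw [Complex.norm_real, Real.norm_of_nonneg (Real.rpow_nonneg (div_pos (hp w) h0).le _)]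
    refine Real.rpow_le_rpow_of_nonpos hm ?_ (by norm_num)
    rw [div_le_div_iff₀ (by linarith) h0]
    have t1 := hG.2.2.2.1 UpperHalfPlane.I z w
    have t2 := (hG.2.1 z w).1
    have t3 := Real.neg_one_le_cos a
    have t4 : (1 - Real.cos a) * qd z w ≤ 2 * (qd z w - Real.cos a) := by nlinarith
    have t5 := mul_le_mul_of_nonneg_left t1 (sub_pos.2 ha).le
    have t6 := mul_le_mul_of_nonneg_left t4 h0'.le
    linarith
  refine (Integrable.bdd_mul hf hm2.aestronglyMeasurable (Eventually.of_forall hb)).congr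
    (Eventually.of_forall fun w => ?_)
  have h0 := qd_pos UpperHalfPlane.I w
  simp only
  rw [← mul_assoc, ← Complex.ofReal_mul, ← Real.mul_rpow (div_pos (hp w) h0).le h0.le,
    div_mul_cancel₀ _ h0.ne', ka]

end KER2

theorem t_ker2 : T_KER2 := fun hG hU1 hU2 hK =>
  ⟨KER2.part1 hU1 hK, KER2.part2 hG hU1 hU2 hK, KER2.part3 hG, KER2.bb_int hU1⟩

end

end Pool.Agent.Lib.E2
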