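import Pool.Agent.Lib.E2.KER1

/-! The operators `Lop a` on cusp forms: pointwise bound and the cusp condition. -/

namespace Pool.Agent.Lib.E2

noncomputable section

open Complex MeasureTheory Set Filter Topology
open scoped Real UpperHalfPlane MatrixGroups ComplexConjugate Modular ENNReal

namespace KER3

open KER1 (gA gA_nonneg gA_int gA_integral tend_top)

/-- `x ^ (3/2)` -/
def pp (x : ℝ) : ℝ := x * √x

theorem pp_pos {x : ℝ} (h : 0 < x) : 0 < pp x := mul_pos h (Real.sqrt_pos.2 h)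

theorem pp_mono {x y : ℝ} (h0 : 0 ≤ x) (h : x ≤ y) : pp x ≤ pp y := by
  unfold pp; gcongr; exact h0.trans h

theorem pp_mul {x : ℝ} (h : 0 ≤ x) (y : ℝ) : pp (x * y) = pp x * pp y := by
  unfold pp; rw [Real.sqrt_mul h]; ring

theorem pp_sq {x : ℝ} (h : 0 ≤ x) : pp x ^ 2 = x ^ 3 := by
  unfold pp; rw [mul_pow, Real.sq_sqrt h]; ring

theorem rpow_eq {x : ℝ} (h : 0 ≤ x) : x ^ (3 / 2 : ℝ) = pp x := by
  rw [pp, Real.sqrt_eq_rpow, show (3 / 2 : ℝ) = 1 + 1 / 2 by norm_num,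
    Real.rpow_add' h (by norm_num), Real.rpow_one]

theorem rpow_neg_eq {x : ℝ} (h : 0 ≤ x) : x ^ (-(3 / 2) : ℝ) = (pp x)⁻¹ := by
  rw [Real.rpow_neg h, rpow_eq h]

theorem meas_pp : Measurable pp := by unfold pp; fun_prop

/-- the kernel in coordinates -/
def gg (a y v t : ℝ) : ℝ := ka a (1 + (t ^ 2 + (y - v) ^ 2) / (2 * y * v))

/-- its average over horocycles -/
def u0 (a y v : ℝ) : ℝ := ∫ t, gg a y v t

def kap (a y v : ℝ) : ℝ := pp (4 * y * v / (1 - Real.cos a))

def MM (a y v : ℝ) : ℝ := kap a y v / (y + v) ^ 3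

variable {a y v : ℝ}

theorem ka_eq (hG : St_GEO) (a : ℝ) (z w : ℍ) : ka a (qd z w) = gg a z.im w.im (z.re - w.re) := by
  rw [hG.1]; rfl

theorem gg_even (t : ℝ) : gg a y v (-t) = gg a y v t := by simp [gg]

theorem base_pos (ha : Real.cos a < 1) (hy : 0 < y) (hv : 0 < v) (t : ℝ) :
    0 < 1 + (t ^ 2 + (y - v) ^ 2) / (2 * y * v) - Real.cos a := by
  have : 0 ≤ (t ^ 2 + (y - v) ^ 2) / (2 * y * v) := by positivity
  linarith

theorem gg_nonneg (ha : Real.cos a < 1) (hy : 0 < y) (hv : 0 < v) (t : ℝ) : 0 ≤ gg a y v t :=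
  Real.rpow_nonneg (base_pos ha hy hv t).le _

theorem gg_anti (ha : Real.cos a < 1) (hy : 0 < y) (hv : 0 < v) {s t : ℝ} (h : s ^ 2 ≤ t ^ 2) :
    gg a y v t ≤ gg a y v s :=
  Real.rpow_le_rpow_of_nonpos (base_pos ha hy hv s) (by gcongr) (by norm_num)

theorem gg_le (ha : Real.cos a < 1) (hy : 0 < y) (hv : 0 < v) (t : ℝ) :
    gg a y v t ≤ kap a y v * gA ((y + v) ^ 2) t := by
  have h0 := base_pos ha hy hv t
  have hc : 0 < 1 - Real.cos a := by linarith
  have h1 : t ^ 2 + (y + v) ^ 2 ≤ 4 * y * v / (1 - Real.cos a) *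
      (1 + (t ^ 2 + (y - v) ^ 2) / (2 * y * v) - Real.cos a) := by
    have e : 4 * y * v / (1 - Real.cos a) * (1 + (t ^ 2 + (y - v) ^ 2) / (2 * y * v) - Real.cos a) =
        4 * y * v + 2 * (t ^ 2 + (y - v) ^ 2) / (1 - Real.cos a) := by field_simp; ring
    have h2 : t ^ 2 + (y - v) ^ 2 ≤ 2 * (t ^ 2 + (y - v) ^ 2) / (1 - Real.cos a) := by
      rw [le_div_iff₀ hc]
      nlinarith [Real.neg_one_le_cos a, sq_nonneg t, sq_nonneg (y - v)]
    rw [e]; nlinarith
  have h3 := pp_mono (by positivity) h1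
  rw [pp_mul (by positivity)] at h3
  have h4 : 0 < pp (t ^ 2 + (y + v) ^ 2) := pp_pos (by positivity)
  show _ ^ (-(3 / 2) : ℝ) ≤ kap a y v * (pp (t ^ 2 + (y + v) ^ 2))⁻¹
  rw [rpow_neg_eq h0.le, ← div_eq_mul_inv, inv_eq_one_div, div_le_div_iff₀ (pp_pos h0) h4, one_mul]
  exact h3

theorem meas_gg (a y : ℝ) : Measurable fun p : ℝ × ℝ => gg a y p.1 p.2 := by
  unfold gg ka; fun_prop

theorem gg_int (ha : Real.cos a < 1) (hy : 0 < y) (hv : 0 < v) : Integrable (gg a y v) :=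
  ((gA_int (by positivity : 0 < (y + v) ^ 2)).const_mul (kap a y v)).mono'
    ((meas_gg a y).comp measurable_prodMk_left).aestronglyMeasurable
    (Eventually.of_forall fun t => by
      rw [Real.norm_of_nonneg (gg_nonneg ha hy hv t)]; exact gg_le ha hy hv t)

theorem gg_sum (hK : St_KER1) (ha : Real.cos a < 1) (hy : 0 < y) (hv : 0 < v) (x : ℝ) :
    |∑' n : ℤ, gg a y v (x + n) - u0 a y v| ≤ MM a y v := by
  have h := (hK.1 (gg a y v) 0 x (gg_nonneg ha hy hv) (gg_int ha hy hv)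
    (fun s hs t ht hst => gg_anti ha hy hv (by nlinarith [mem_Iic.1 hs, mem_Iic.1 ht]))
    (fun s hs t ht hst => gg_anti ha hy hv (by nlinarith [mem_Ici.1 hs, mem_Ici.1 ht]))).2
  refine h.trans ((gg_le ha hy hv 0).trans (le_of_eq ?_))
  have : 0 < y + v := by positivity
  simp only [gA, MM, ne_eq, OfNat.ofNat_ne_zero, not_false_eq_true, zero_pow, zero_add,
    Real.sqrt_sq this.le]
  field_simp

theorem tst_u0 (ha : Real.cos a < 1) (hy : 0 < y) :
    ∃ C : ℝ, Tst C fun v => (u0 a y v : ℂ) := by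
  have hc : 0 < 1 - Real.cos a := by linarith
  refine ⟨pp (4 * y / (1 - Real.cos a)) * (2 * pp (1 + 1 / y) / √y), measurable_ofReal.comp
    (StronglyMeasurable.integral_prod_right' (meas_gg a y).stronglyMeasurable).measurable,
    fun v hv => ?_⟩
  have hs : 0 < y + v := by positivity
  have h1 : u0 a y v ≤ kap a y v * (2 / (y + v) ^ 2) := by
    rw [← gA_integral (by positivity), ← integral_const_mul]
    exact integral_mono (gg_int ha hy hv) ((gA_int (by positivity)).const_mul _) (gg_le ha hy hv)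
  have h0 : 0 ≤ u0 a y v := integral_nonneg (gg_nonneg ha hy hv)
  rw [norm_real, Real.norm_of_nonneg h0, rpow_eq (by positivity)]
  refine h1.trans ?_
  have h2 : kap a y v = pp (4 * y / (1 - Real.cos a)) * (pp (v / (1 + v)) * pp (1 + v)) := by
    rw [← pp_mul (by positivity), ← pp_mul (by positivity), kap]
    congr 1
    field_simp
  have h3 : pp (1 + v) ≤ pp (1 + 1 / y) * pp (y + v) := by
    rw [← pp_mul (by positivity)]
    refine pp_mono (by positivity) ?_
    have e : (1 + 1 / y) * (y + v) = 1 + v + (y + v / y) := by field_simp; ring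
    have : 0 < y + v / y := by positivity
    linarith
  have h4 : pp (y + v) * √y ≤ (y + v) ^ 2 := by
    have : √(y + v) * √y ≤ √(y + v) * √(y + v) := by gcongr; linarith
    rw [Real.mul_self_sqrt hs.le] at this
    unfold pp; nlinarith
  have h5 : 0 < √y := Real.sqrt_pos.2 hy
  have h6 : pp (1 + v) * (2 / (y + v) ^ 2) ≤ 2 * pp (1 + 1 / y) / √y := by
    rw [← mul_div_assoc, div_le_div_iff₀ (by positivity) h5]
    have h7 : 0 < pp (1 + 1 / y) := pp_pos (by positivity)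
    nlinarith [mul_le_mul_of_nonneg_right h3 h5.le, mul_le_mul_of_nonneg_left h4 h7.le]
  have h8 : 0 < pp (4 * y / (1 - Real.cos a)) := pp_pos (by positivity)
  have h9 : 0 < pp (v / (1 + v)) := pp_pos (by positivity)
  rw [h2]
  nlinarith [mul_le_mul_of_nonneg_left h6 (mul_pos h8 h9).le]

/-- the majorant and its integral -/
def hh (y v : ℝ) : ℝ :=
  8 * y ^ 3 * (v / (y + v) ^ 6) + 1 / (y * √y) / (√v * pp (v + y / 4))

theorem hh_int (hy : 0 < y) : IntegrableOn (hh y) (Ioi 0) ∧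
    ∫ v in Ioi (0 : ℝ), hh y v = 2 / (5 * y) + 8 / (y ^ 2 * √y) := by
  have hs : 0 < √y := Real.sqrt_pos.2 hy
  set H : ℝ → ℝ := fun v => 8 * y ^ 3 * (y / 5 * ((y + v)⁻¹) ^ 5 - 1 / 4 * ((y + v)⁻¹) ^ 4) +
    8 / (y ^ 2 * √y) * (√v / √(v + y / 4)) with hH
  have hd : ∀ v ∈ Ioi (0 : ℝ), HasDerivAt H (hh y v) v := fun v hv => by
    have hv' : 0 < v := hv
    have h0 : 0 < y + v := by positivity
    have h1 : HasDerivAt (fun v : ℝ => (y + v)⁻¹) (-1 / (y + v) ^ 2) v :=
      ((hasDerivAt_id' v).const_add y).inv h0.ne'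
    have h2 : 0 < v + y / 4 := by positivity
    have h3 := (Real.hasDerivAt_sqrt hv'.ne').div (((hasDerivAt_id' v).add_const (y / 4)).sqrt h2.ne')
      (Real.sqrt_pos.2 h2).ne'
    refine (((((h1.pow 5).const_mul (y / 5)).sub ((h1.pow 4).const_mul (1 / 4))).const_mul
      (8 * y ^ 3)).add (h3.const_mul (8 / (y ^ 2 * √y)))).congr_deriv ?_
    have q1 := Real.sq_sqrt hv'.le
    have q2 := Real.sq_sqrt h2.le
    have p1 := Real.sqrt_pos.2 hv'
    have p2 := Real.sqrt_pos.2 h2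
    unfold hh pp
    congr 1
    · push_cast; field_simp; ring
    · generalize √v = r at q1 p1 ⊢
      generalize √(v + y / 4) = s at q2 p2 ⊢
      rw [← q2]
      field_simp
      linarith
  have hc : ContinuousWithinAt H (Ici 0) 0 := by
    refine ContinuousAt.continuousWithinAt ?_
    have h1 : y + 0 ≠ 0 := by positivity
    have h2 : √(0 + y / 4) ≠ 0 := by positivity
    rw [hH]
    fun_prop (disch := assumption)
  have hp : ∀ v ∈ Ioi (0 : ℝ), 0 ≤ hh y v := fun v hv => by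
    have hv' : 0 < v := hv
    have := pp_pos (by positivity : 0 < v + y / 4)
    unfold hh; positivity
  have ht : Tendsto H atTop (𝓝 (8 * y ^ 3 * (y / 5 * 0 ^ 5 - 1 / 4 * 0 ^ 4) + 8 / (y ^ 2 * √y) * 1)) := by
    have h1 : Tendsto (fun v : ℝ => (y + v)⁻¹) atTop (𝓝 0) :=
      tendsto_inv_atTop_zero.comp (tendsto_atTop_add_const_left _ _ tendsto_id)
    have h2 : Tendsto (fun v : ℝ => √v / √(v + y / 4)) atTop (𝓝 1) :=
      ((tend_top (by positivity : 0 < y / 4)).comp Real.tendsto_sqrt_atTop).congr'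
        ((eventually_ge_atTop 0).mono fun v hv => by simp only [Function.comp, Real.sq_sqrt hv])
    exact ((((h1.pow 5).const_mul _).sub ((h1.pow 4).const_mul _)).const_mul _).add (h2.const_mul _)
  refine ⟨integrableOn_Ioi_deriv_of_nonneg hc hd hp ht, ?_⟩
  rw [integral_Ioi_of_hasDerivAt_of_nonneg hc hd hp ht, hH]
  simp only [Real.sqrt_zero, add_zero, zero_div]
  field_simp
  ring

theorem MM_sq (ha : Real.cos a < 1) (hy : 0 < y) (hv : 0 < v) :
    MM a y v ^ 2 / min 1 (v ^ (3 / 2 : ℝ)) * (1 / v ^ 2) ≤ (2 / (1 - Real.cos a)) ^ 3 * hh y v := by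
  have hc : 0 < 1 - Real.cos a := by linarith
  have hs : 0 < y + v := by positivity
  have p1 := Real.sqrt_pos.2 hv
  have p2 := Real.sqrt_pos.2 hy
  have p3 := pp_pos hv
  have p4 := pp_pos (by positivity : 0 < v + y / 4)
  have h1 : 1 / min 1 (pp v) ≤ 1 + 1 / pp v := by
    rcases min_choice 1 (pp v) with h | h <;> rw [h]
    · have : 0 < 1 / pp v := by positivity
      linarith
    · linarith
  have h2 : MM a y v ^ 2 * (1 / v ^ 2) = (2 / (1 - Real.cos a)) ^ 3 * (8 * y ^ 3 * (v / (y + v) ^ 6)) := by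
    rw [MM, div_pow, kap, pp_sq (by positivity)]
    field_simp
    norm_num
  have h3 : 8 * y ^ 3 * (v / (y + v) ^ 6) * (1 / pp v) ≤ 1 / (y * √y) / (√v * pp (v + y / 4)) := by
    have h4 : pp (y ^ 3 * (4 * (v + y / 4))) ≤ pp ((y + v) ^ 4) := by
      refine pp_mono (by positivity) ?_
      have e : (y + v) ^ 4 = y ^ 3 * (4 * (v + y / 4)) + v ^ 2 * (6 * y ^ 2 + 4 * y * v + v ^ 2) := by
        ring
      rw [e]; exact le_add_of_nonneg_right (by positivity)
    have e1 : pp ((y + v) ^ 4) = (y + v) ^ 6 := by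
      rw [pp, show (y + v) ^ 4 = ((y + v) ^ 2) ^ 2 by ring, Real.sqrt_sq (by positivity)]; ring
    have e2 : pp (y ^ 3) = y ^ 4 * √y := by
      rw [pp, show y ^ 3 = y ^ 2 * y by ring, Real.sqrt_mul (by positivity), Real.sqrt_sq hy.le]; ring
    have e3 : pp 4 = 8 := by
      rw [pp, show (4 : ℝ) = 2 ^ 2 by norm_num, Real.sqrt_sq (by norm_num)]; norm_num
    rw [pp_mul (by positivity), pp_mul (by positivity), e1, e2, e3] at h4
    have e4 : 8 * y ^ 3 * (v / (y + v) ^ 6) * (1 / pp v) = 8 * y ^ 3 / ((y + v) ^ 6 * √v) := by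
      unfold pp; field_simp
    rw [e4, div_div, div_le_div_iff₀ (by positivity) (by positivity)]
    nlinarith [mul_le_mul_of_nonneg_right h4 p1.le]
  rw [rpow_eq hv.le, div_eq_mul_one_div, mul_right_comm, h2, mul_assoc]
  refine mul_le_mul_of_nonneg_left ?_ (by positivity)
  refine (mul_le_mul_of_nonneg_left h1 (by positivity)).trans ?_
  unfold hh
  linarith

theorem strip_int (hU : St_UNF1) {u h : ℝ → ℝ} (hu : Measurable u) (h0 : ∀ v, 0 < v → 0 ≤ u v)
    (hi : IntegrableOn h (Ioi 0)) (hle : ∀ v, 0 < v → u v * (1 / v ^ 2) ≤ h v) :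
    IntegrableOn (fun w : ℍ => u w.im) strip ∧ ∫ w in strip, u w.im ≤ ∫ v in Ioi (0 : ℝ), h v := by
  have hm : Measurable fun w : ℍ => u w.im := hu.comp UpperHalfPlane.continuous_im.measurable
  have hn : ∀ w : ℍ, 0 ≤ u w.im := fun w => h0 _ w.im_pos
  have hp : 0 ≤ᵐ[volume.restrict (Ioi 0)] h :=
    (ae_restrict_mem measurableSet_Ioi).mono fun v hv =>
      (mul_nonneg (h0 v hv) (by positivity)).trans (hle v hv)
  have h1 : ∫⁻ w in strip, ENNReal.ofReal (u w.im) ≤ ENNReal.ofReal (∫ v in Ioi (0 : ℝ), h v) := by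
    rw [(hU.2.2.2.2.2.2.2.2.1 (fun v => ENNReal.ofReal (u v)) hu.ennreal_ofReal).1,
      ofReal_integral_eq_lintegral_ofReal hi hp]
    refine setLIntegral_mono' measurableSet_Ioi fun v hv => ?_
    rw [← ENNReal.ofReal_mul (h0 v hv)]
    exact ENNReal.ofReal_le_ofReal (hle v hv)
  have h2 : IntegrableOn (fun w : ℍ => u w.im) strip :=
    (lintegral_ofReal_ne_top_iff_integrable hm.aestronglyMeasurable (Eventually.of_forall hn)).1
      (h1.trans_lt ENNReal.ofReal_lt_top).ne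
  rw [← ofReal_integral_eq_lintegral_ofReal h2 (Eventually.of_forall hn)] at h1
  exact ⟨h2, (ENNReal.ofReal_le_ofReal_iff (integral_nonneg_of_ae hp)).1 h1⟩

theorem bound (hG : St_GEO) (hU : St_UNF1) (hV : St_UNF2) (h1 : St_KER1) (h2 : St_KER2)
    {f : ℍ → ℂ} (hf : Cusp f) (ha : Real.cos a < 1) (z : ℍ) :
    ‖Lop a f z‖ ^ 2 ≤ (2 / (1 - Real.cos a)) ^ 3 * bb z.im * n2 f := by
  have hy := z.im_pos
  have hc : 0 < 1 - Real.cos a := by linarith
  obtain ⟨C, hC⟩ := tst_u0 ha hy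
  obtain ⟨i1, e1⟩ := hV.2.2.2.1 _ (h2.2.2.1 f (h2.2.1 f hf.1) a ha z)
  have e2 : ∀ w : ℍ, ∑' n : ℤ, (ka a (qd z ((n : ℝ) +ᵥ w)) : ℂ) * f ((n : ℝ) +ᵥ w) =
      (∑' n : ℤ, gg a z.im w.im (w.re - z.re + n) : ℝ) * f w := fun w => by
    rw [ofReal_tsum, ← tsum_mul_right]
    refine tsum_congr fun n => ?_
    rw [hV.2.2.2.2.1 f hf.1.2.1, ka_eq hG, UpperHalfPlane.vadd_re, UpperHalfPlane.vadd_im,
      ← gg_even]
    congr 3
    ring
  simp only [e2] at i1 e1
  have e3 : Lop a f z = ∫ w in strip,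
      ((∑' n : ℤ, gg a z.im w.im (w.re - z.re + n) - u0 a z.im w.im : ℝ) : ℂ) * f w := by
    simp only [ofReal_sub, sub_mul]
    rw [integral_sub i1 (h2.1 f hf.1 C _ hC).1, hf.2 C _ hC, sub_zero]
    exact e1
  obtain ⟨i2, b2⟩ := strip_int hU (u := fun v => MM a z.im v ^ 2 / min 1 (v ^ (3 / 2 : ℝ)))
    (by unfold MM kap pp; fun_prop) (fun v hv => by positivity)
    ((hh_int hy).1.const_mul ((2 / (1 - Real.cos a)) ^ 3)) fun v hv => MM_sq ha hy hv
  rw [integral_const_mul, (hh_int hy).2] at b2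
  obtain ⟨i3, b3⟩ := h1.2 f hf.1
  have hs := Real.sqrt_pos.2 hy
  set X := (2 / (1 - Real.cos a)) ^ 3 * (2 / (5 * z.im) + 8 / (z.im ^ 2 * √z.im)) with hX
  have hX0 : 0 < X := by positivity
  have hn : 0 ≤ n2 f := integral_nonneg fun _ => by positivity
  have key : ∀ l : ℝ, 0 < l → ‖Lop a f z‖ ≤ l / 2 * X + 1 / (2 * l) * (31 / 5 * n2 f) := by
    intro l hl
    rw [e3]
    refine (norm_integral_le_of_norm_le ((i2.const_mul (l / 2)).add (i3.const_mul (1 / (2 * l))))
      (Eventually.of_forall fun w => ?_)).trans ?_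
    · have h3 := gg_sum h1 ha hy w.im_pos (w.re - z.re)
      have h4 : 0 < min 1 (w.im ^ (3 / 2 : ℝ)) := lt_min one_pos (Real.rpow_pos_of_pos w.im_pos _)
      rw [norm_mul, norm_real, Real.norm_eq_abs]
      refine (mul_le_mul_of_nonneg_right h3 (norm_nonneg _)).trans ?_
      simp only [Pi.add_apply]
      generalize min 1 (w.im ^ (3 / 2 : ℝ)) = o at h4
      generalize MM a z.im w.im = M
      rw [← sub_nonneg]
      have : l / 2 * (M ^ 2 / o) + 1 / (2 * l) * (o * ‖f w‖ ^ 2) - M * ‖f w‖ =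
          (l * M - o * ‖f w‖) ^ 2 / (2 * l * o) := by field_simp; ring
      rw [this]; positivity
    · simp only [Pi.add_apply]
      rw [integral_add (i2.const_mul _) (i3.const_mul _), integral_const_mul, integral_const_mul]
      gcongr
  have h5 : ‖Lop a f z‖ ^ 2 ≤ X * (31 / 5 * n2 f) := by
    rcases (norm_nonneg (Lop a f z)).eq_or_lt with h | h
    · rw [← h]; simpa using by positivity
    · have h6 := key (‖Lop a f z‖ / X) (by positivity)
      have e4 : ‖Lop a f z‖ / X / 2 * X + 1 / (2 * (‖Lop a f z‖ / X)) * (31 / 5 * n2 f) =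
          (‖Lop a f z‖ ^ 2 + X * (31 / 5 * n2 f)) / (2 * ‖Lop a f z‖) := by field_simp
      rw [e4, le_div_iff₀ (by positivity)] at h6
      nlinarith
  refine h5.trans ?_
  have e5 : z.im ^ (5 / 2 : ℝ) = z.im ^ 2 * √z.im := by
    rw [Real.sqrt_eq_rpow, ← Real.rpow_two, ← Real.rpow_add hy]; norm_num
  have h7 : (2 / (5 * z.im) + 8 / (z.im ^ 2 * √z.im)) * (31 / 5) ≤ bb z.im := by
    rw [bb, e5]
    have e6 : 5 / (2 * z.im) + 53 / (z.im ^ 2 * √z.im) -
        (2 / (5 * z.im) + 8 / (z.im ^ 2 * √z.im)) * (31 / 5) =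
        1 / (50 * z.im) + 17 / 5 / (z.im ^ 2 * √z.im) := by field_simp; ring
    rw [← sub_nonneg, e6]; positivity
  calc X * (31 / 5 * n2 f) = (2 / (1 - Real.cos a)) ^ 3 *
        ((2 / (5 * z.im) + 8 / (z.im ^ 2 * √z.im)) * (31 / 5)) * n2 f := by rw [hX]; ring
    _ ≤ _ := by gcongr

theorem horo (hG : St_GEO) (hU : St_UNF1) (hV : St_UNF2) (h2 : St_KER2)
    {f : ℍ → ℂ} (hf : Cusp f) (ha : Real.cos a < 1) (hy : 0 < y) :
    ∫ x in (0 : ℝ)..1, Lop a f (pt x y) = 0 := by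
  have hc : 0 < 1 - Real.cos a := by linarith
  have e0 : ∀ (x : ℝ) (w : ℍ), ka a (qd (pt x y) w) = gg a y w.im (x - w.re) := fun x w => by
    rw [ka_eq hG, (hU.1 x y hy).1, (hU.1 x y hy).2]
  have hm : Measurable fun p : ℝ × ℍ => (gg a y p.2.im (p.1 - p.2.re) : ℂ) * f p.2 :=
    (measurable_ofReal.comp ((meas_gg a y).comp
      ((UpperHalfPlane.continuous_im.measurable.comp measurable_snd).prodMk (measurable_fst.sub
        (UpperHalfPlane.continuous_re.measurable.comp measurable_snd))))).mul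
      (hf.1.1.comp measurable_snd)
  set B : ℝ := 2 * (1 + (1 + (1 - y) ^ 2) / (2 * 1 * y)) with hB
  have hB0 : 0 < B := by positivity
  have hi : Integrable (fun p : ℝ × ℍ => (gg a y p.2.im (p.1 - p.2.re) : ℂ) * f p.2)
      ((volume.restrict (Ioc (0 : ℝ) 1)).prod volume) := by
    refine (((h2.2.1 f hf.1).norm.const_mul (pp (B / (1 - Real.cos a) + B))).comp_snd _).mono'
      hm.aestronglyMeasurable ?_
    rw [← Measure.restrict_univ (μ := (volume : Measure ℍ)), Measure.prod_restrict]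
    filter_upwards [ae_restrict_mem (measurableSet_Ioc.prod MeasurableSet.univ)] with p hp
    obtain ⟨x, w⟩ := p
    have hx : x ∈ Ioc (0 : ℝ) 1 := hp.1
    have q1 := (hG.2.1 UpperHalfPlane.I w).1
    have q2 := (hG.2.1 (pt x y) w).1
    have q3 := hG.2.2.2.1 UpperHalfPlane.I (pt x y) w
    have q4 : 2 * qd UpperHalfPlane.I (pt x y) ≤ B := by
      rw [hG.1, (hU.1 x y hy).1, (hU.1 x y hy).2, UpperHalfPlane.I_re, UpperHalfPlane.I_im, hB]
      gcongr
      nlinarith [hx.1, hx.2]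
    have q5 : qd UpperHalfPlane.I w ≤
        (B / (1 - Real.cos a) + B) * (qd (pt x y) w - Real.cos a) := by
      have e : (B / (1 - Real.cos a) + B) * (qd (pt x y) w - Real.cos a) =
          B * qd (pt x y) w + B * ((1 - Real.cos a) + (qd (pt x y) w - 1) / (1 - Real.cos a)) := by
        field_simp; ring
      have : 0 ≤ B * ((1 - Real.cos a) + (qd (pt x y) w - 1) / (1 - Real.cos a)) := by
        have : 0 ≤ qd (pt x y) w - 1 := by linarith
        positivity
      rw [e]; nlinarith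
    have q6 := pp_mono (by linarith) q5
    have q7 : 0 < qd (pt x y) w - Real.cos a := by linarith
    rw [pp_mul (by positivity)] at q6
    simp only [norm_mul, norm_real, ← e0, ← mul_assoc]
    refine mul_le_mul_of_nonneg_right ?_ (norm_nonneg _)
    rw [ka, rpow_neg_eq q7.le, rpow_neg_eq (by linarith),
      Real.norm_of_nonneg (inv_pos.2 (pp_pos q7)).le,
      Real.norm_of_nonneg (inv_pos.2 (pp_pos (by linarith))).le, ← div_eq_mul_inv, inv_eq_one_div,
      div_le_div_iff₀ (pp_pos q7) (pp_pos (by linarith)), one_mul]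
    exact q6
  obtain ⟨C, hC⟩ := tst_u0 ha hy
  rw [intervalIntegral.integral_of_le zero_le_one, ← hf.2 C _ hC]
  simp only [Lop, Rop, e0]
  rw [integral_integral_swap (f := fun (x : ℝ) (w : ℍ) => (gg a y w.im (x - w.re) : ℂ) * f w) hi,
    (hV.2.2.2.1 _ hi.integral_prod_right).2]
  refine integral_congr_ae (Eventually.of_forall fun w => ?_)
  have h3 := ((gg_int ha hy w.im_pos).comp_sub_right w.re).hasSum_intervalIntegral_comp_add_int
  rw [integral_sub_right_eq_self (gg a y w.im) w.re] at h3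
  simp only [hV.2.2.2.2.1 f hf.1.2.1, integral_mul_const, tsum_mul_right,
    UpperHalfPlane.vadd_re, UpperHalfPlane.vadd_im]
  rw [u0, ← h3.tsum_eq, ← (Equiv.neg ℤ).tsum_eq, ofReal_tsum]
  congr 1
  refine tsum_congr fun n => ?_
  rw [intervalIntegral.integral_of_le zero_le_one, ← integral_complex_ofReal]
  refine integral_congr_ae (Eventually.of_forall fun x => ?_)
  simp only [Equiv.neg_apply, Int.cast_neg]
  congr 2
  ring

end KER3

open KER3 in
theorem t_ker3 : T_KER3 := by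
  intro hG hU hV h1 h2 hS f hf a ha
  have hA : Aut (Lop a f) := (hS.1 _ (hS.2.1 a ha).1 (hS.2.1 a ha).2 f hf.1).1
  refine ⟨bound hG hU hV h1 h2 hf ha, hA, fun C u hu => ?_⟩
  rw [hU.2.2.2.2.2.2.2.1 _ (h2.1 _ hA C u hu).1]
  refine setIntegral_eq_zero_of_forall_eq_zero fun y hy => ?_
  simp only [fun x => (hU.1 x y hy).2]
  rw [intervalIntegral.integral_const_mul, horo hG hU hV h2 hf ha hy, mul_zero, mul_zero]

end

end Pool.Agent.Lib.E2
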