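import Pool.Agent.Lib.E2.Blue2

namespace Pool.Agent.Lib.E2

noncomputable section

open Complex MeasureTheory Set Filter Topology
open scoped Real

namespace LAP

/-- continuous functions of polynomial growth on the half line -/
def Gr (g : ℝ → ℝ) : Prop :=
  ContinuousOn g (Ioi 0) ∧ ∃ C : ℝ, 0 ≤ C ∧ ∀ t : ℝ, 0 < t → |g t| ≤ C * (1 + t) ^ 3

theorem ib {x : ℝ} (hx : 0 < x) :
    IntegrableOn (fun t : ℝ => (1 + t) ^ 3 * Real.exp (-x * t)) (Ioi 0) := by
  refine ((exp_neg_integrableOn_Ioi 0 (half_pos hx)).const_mul ((1 + 6 / x) ^ 3)).mono'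
    (Continuous.aestronglyMeasurable (by fun_prop))
    ((ae_restrict_mem measurableSet_Ioi).mono fun t ht => ?_)
  have ht' : (0 : ℝ) < t := ht
  have h1 : Real.exp (-(x / 2) * t) = Real.exp (x * t / 6) ^ 3 * Real.exp (-x * t) := by
    rw [← Real.exp_nat_mul, ← Real.exp_add]; congr 1; push_cast; ring
  have h2 := Real.add_one_le_exp (x * t / 6)
  have h3 : 1 + t ≤ (1 + 6 / x) * (x * t / 6 + 1) := by
    have : (1 + 6 / x) * (x * t / 6 + 1) = 1 + t + (x * t / 6 + 6 / x) := by field_simp; ring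
    rw [this]
    have : 0 ≤ x * t / 6 + 6 / x := by positivity
    linarith
  rw [Real.norm_of_nonneg (by positivity), h1, ← mul_assoc, ← mul_pow]
  gcongr
  exact h3.trans (by gcongr)

def lt (g : ℝ → ℝ) (w : ℂ) (t : ℝ) : ℂ := (g t : ℂ) * exp (-2 * w * t)

theorem lt_meas {g : ℝ → ℝ} (hg : Gr g) (w : ℂ) :
    AEStronglyMeasurable (lt g w) (volume.restrict (Ioi 0)) :=
  ContinuousOn.aestronglyMeasurable ((continuous_ofReal.comp_continuousOn hg.1).mul
    (Continuous.continuousOn (by fun_prop))) measurableSet_Ioi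

theorem lt_le {g : ℝ → ℝ} {C x t : ℝ} {w : ℂ} (h : |g t| ≤ C * (1 + t) ^ 3) (ht : 0 < t)
    (hx : 0 < x) (hw : x ≤ w.re) : ‖lt g w t‖ ≤ C * ((1 + t) ^ 3 * Real.exp (-x * t)) := by
  have h2 : (-2 * w * t : ℂ).re = -2 * w.re * t := by simp
  rw [lt, norm_mul, norm_real, Real.norm_eq_abs, norm_exp, h2, ← mul_assoc]
  exact mul_le_mul h (Real.exp_le_exp.2 (by nlinarith)) (Real.exp_pos _).le
    ((abs_nonneg _).trans h)

theorem lt_int {g : ℝ → ℝ} (hg : Gr g) {w : ℂ} (hw : 0 < w.re) : IntegrableOn (lt g w) (Ioi 0) := by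
  obtain ⟨C, -, hC⟩ := hg.2
  exact ((ib hw).const_mul C).mono' (lt_meas hg w)
    ((ae_restrict_mem measurableSet_Ioi).mono fun t ht => lt_le (hC t ht) ht hw le_rfl)

theorem re_int {g : ℝ → ℝ} (hg : Gr g) :
    IntegrableOn (fun t => g t * Real.exp (-t)) (Ioi 0) := by
  refine ((lt_int hg (w := 1 / 2) (by norm_num)).re).congr (Eventually.of_forall fun t => ?_)
  have : (-2 * (1 / 2) * t : ℂ) = ((-t : ℝ) : ℂ) := by push_cast; ring
  simp only [lt, this, ← ofReal_exp, ← ofReal_mul, RCLike.re_to_complex, ofReal_re]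

theorem lt_diff (hP : St_PAR) {g : ℝ → ℝ} (hg : Gr g) :
    DifferentiableOn ℂ (fun z => ∫ t in Ioi (0 : ℝ), lt g z t) RH := by
  have hopen : IsOpen RH := isOpen_lt continuous_const continuous_re
  obtain ⟨C, -, hC⟩ := hg.2
  refine (hP.1 ℝ (volume.restrict (Ioi 0)) (lt g) RH hopen (fun z _ => lt_meas hg z)
    (Eventually.of_forall fun t => Differentiable.differentiableOn (by unfold lt; fun_prop))
    fun z hz => ?_).1
  have hz' : 0 < z.re / 2 := half_pos hz
  refine ⟨z.re / 2, hz', _, (ib hz').const_mul C,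
    (ae_restrict_mem measurableSet_Ioi).mono fun t ht w _ hw => lt_le (hC t ht) ht hz' ?_⟩
  have := (abs_le.1 ((abs_re_le_norm (w - z)).trans hw.le)).1
  rw [sub_re] at this; linarith

theorem gr_err (hD : St_DY) (P : Polynomial ℝ) : Gr (err P) := by
  obtain ⟨c, ⟨C1, h1⟩, ⟨C2, h2⟩, -⟩ := hD.2.2.2.2 P
  refine ⟨c, |C1| + |C2|, by positivity, fun t ht => ?_⟩
  have a1 : 1 ≤ (1 + t) ^ 3 := one_le_pow₀ (by linarith)
  have a2 := abs_nonneg C1
  have a3 := abs_nonneg C2
  rcases le_total t 1 with h | h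
  · have b1 : t ^ (3 / 4 : ℝ) ≤ 1 := Real.rpow_le_one ht.le h (by norm_num)
    have b2 : C1 * t ^ (3 / 4 : ℝ) ≤ |C1| * 1 :=
      mul_le_mul (le_abs_self _) b1 (by positivity) a2
    nlinarith [h1 t ⟨ht, h⟩]
  · have b1 : t ^ 3 ≤ (1 + t) ^ 3 := by gcongr; linarith
    have b2 : C2 * t ^ 3 ≤ |C2| * (1 + t) ^ 3 :=
      mul_le_mul (le_abs_self _) b1 (by positivity) a3
    nlinarith [h2 t h]

theorem gr_mom (hD : St_DY) : Gr mom := by
  have : mom = err 0 := by funext t; simp [err]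
  rw [this]; exact gr_err hD 0

theorem gr_pol (hD : St_DY) (P : Polynomial ℝ) : Gr fun t => t * P.eval (Real.log t) := by
  obtain ⟨c1, C1, a1, h1⟩ := gr_mom hD
  obtain ⟨c2, C2, a2, h2⟩ := gr_err hD P
  have e : (fun t => t * P.eval (Real.log t)) = fun t => mom t - err P t := by
    funext t; simp [err]
  rw [e]
  exact ⟨c1.sub c2, C1 + C2, by positivity, fun t ht =>
    (abs_sub _ _).trans (by linarith [h1 t ht, h2 t ht])⟩

theorem parts (hZ : St_ZB1) (hD : St_DY) {z : ℂ} (hz : 0 < z.re) :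
    2 * z * ∫ t in Ioi (0 : ℝ), lt mom z t = Lf z := by
  obtain ⟨-, -, -, -, -, -, -, -, -, -, -, hc, h0, -, -, C, hC⟩ := hZ
  have C0 : 0 ≤ C := by simpa using (h0 0).trans (hC 0)
  have gz : Gr z4 := ⟨hc.continuousOn, C, C0, fun t ht => by
    have h1 := hC t
    rw [abs_of_pos ht] at h1
    rw [abs_of_nonneg (h0 t)]
    exact h1.trans (mul_le_mul_of_nonneg_left (pow_le_pow_right₀ (by linarith) (by norm_num)) C0)⟩
  have d : ∀ t : ℝ, HasDerivAt (lt mom z) (lt z4 z t - 2 * z * lt mom z t) t := fun t => by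
    have h1 : HasDerivAt (fun t : ℝ => exp (-2 * z * t)) (exp (-2 * z * t) * (-2 * z * 1)) t :=
      ((hasDerivAt_id (t : ℂ)).const_mul (-2 * z)).cexp.comp_ofReal
    refine ((hD.2.2.2.1 t).ofReal_comp.mul h1).congr_deriv ?_
    simp only [lt]; ring
  have i1 := lt_int gz hz
  have i2 := lt_int (gr_mom hD) hz
  have i3 : IntegrableOn (fun t => lt z4 z t - 2 * z * lt mom z t) (Ioi 0) :=
    i1.sub (i2.const_mul _)
  have h := integral_Ioi_of_hasDerivAt_of_tendsto' (fun t _ => d t) i3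
    (tendsto_zero_of_hasDerivAt_of_integrableOn_Ioi (fun t _ => d t) i3 i2)
  rw [integral_sub i1 (i2.const_mul _), integral_const_mul] at h
  have m0 : lt mom z 0 = 0 := by simp [lt, mom]
  rw [m0, sub_zero, sub_eq_zero] at h
  exact h.symm

def ph (P : Polynomial ℝ) (y : ℝ) : ℝ :=
  ∫ u in Ioi (0 : ℝ), u * P.eval (Real.log u - (Real.log 2 + y)) * Real.exp (-u)

theorem ph_int (hD : St_DY) (P : Polynomial ℝ) (c : ℝ) :
    IntegrableOn (fun u => u * P.eval (Real.log u - c) * Real.exp (-u)) (Ioi 0) := by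
  refine (re_int (gr_pol hD (P.comp (Polynomial.X - Polynomial.C c)))).congr
    (Eventually.of_forall fun u => ?_)
  beta_reduce
  rw [Polynomial.eval_comp, Polynomial.eval_sub, Polynomial.eval_X, Polynomial.eval_C]

/-- the functions in the range of `ph` -/
def Rg (f : ℝ → ℝ) : Prop := ∃ P, ∀ y, ph P y = f y

theorem rg_add (hD : St_DY) {f g : ℝ → ℝ} (hf : Rg f) (hg : Rg g) : Rg fun y => f y + g y := by
  obtain ⟨P, hP⟩ := hf
  obtain ⟨Q, hQ⟩ := hg
  refine ⟨P + Q, fun y => ?_⟩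
  beta_reduce
  rw [← hP, ← hQ, ph, ph, ph, ← integral_add (ph_int hD _ _) (ph_int hD _ _)]
  simp only [Polynomial.eval_add, mul_add, add_mul]

theorem rg_mul (c : ℝ) {f : ℝ → ℝ} (hf : Rg f) : Rg fun y => c * f y := by
  obtain ⟨P, hP⟩ := hf
  refine ⟨Polynomial.C c * P, fun y => ?_⟩
  beta_reduce
  rw [← hP, ph, ph, ← integral_const_mul]
  simp only [Polynomial.eval_mul, Polynomial.eval_C, mul_assoc, mul_left_comm]

theorem rg_sum (hD : St_DY) (n : ℕ) {f : ℕ → ℝ → ℝ} (hf : ∀ m < n, Rg (f m)) :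
    Rg fun y => ∑ m ∈ Finset.range n, f m y := by
  induction n with
  | zero => exact ⟨0, fun y => by simp [ph]⟩
  | succ n ih =>
    simp only [Finset.sum_range_succ]
    exact rg_add hD (ih fun m hm => hf m (by omega)) (hf n (by omega))

theorem rg_pow (hD : St_DY) (n : ℕ) : Rg fun y => (-y) ^ n := by
  induction n using Nat.strong_induction_on with
  | _ n ih =>
    obtain ⟨a, ha⟩ : ∃ a : ℕ → ℝ, ∀ j, a j =
      ∫ u in Ioi (0 : ℝ), u * (Real.log u - Real.log 2) ^ j * Real.exp (-u) := ⟨_, fun _ => rfl⟩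
    have a0 : a 0 = 1 := by
      have := Real.integral_rpow_mul_exp_neg_mul_Ioi (a := 2) (r := 1) two_pos one_pos
      norm_num at this
      simpa [ha] using this
    have ia : ∀ j, IntegrableOn
        (fun u => u * (Real.log u - Real.log 2) ^ j * Real.exp (-u)) (Ioi 0) := fun j => by
      simpa using ph_int hD (Polynomial.X ^ j) (Real.log 2)
    have e : ∀ y, ph (Polynomial.X ^ n) y =
        ∑ m ∈ Finset.range (n + 1), (n.choose m * a (n - m)) * (-y) ^ m := fun y => by
      simp only [ha, ← integral_const_mul, ← integral_mul_const]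
      rw [← integral_finsetSum _ fun m _ => ((ia _).const_mul _).mul_const _, ph]
      refine integral_congr_ae (Eventually.of_forall fun u => ?_)
      have : Real.log u - (Real.log 2 + y) = -y + (Real.log u - Real.log 2) := by ring
      simp only [Polynomial.eval_pow, Polynomial.eval_X, this, add_pow, Finset.mul_sum,
        Finset.sum_mul]
      exact Finset.sum_congr rfl fun m _ => by ring
    obtain ⟨P, hP⟩ := rg_add hD (f := ph (Polynomial.X ^ n)) ⟨_, fun _ => rfl⟩
      (rg_mul (-1) (rg_sum hD n fun m hm => rg_mul (n.choose m * a (n - m)) (ih m hm)))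
    refine ⟨P, fun y => ?_⟩
    rw [hP]
    beta_reduce
    rw [e, Finset.sum_range_succ, Nat.sub_self, a0, Nat.choose_self]
    push_cast; ring

theorem rg_pol (hD : St_DY) (R : Polynomial ℝ) : Rg fun y => R.eval y := by
  induction R using Polynomial.induction_on' with
  | add p q hp hq => simpa using rg_add hD hp hq
  | monomial n a =>
    obtain ⟨P, hP⟩ := rg_mul (a * (-1) ^ n) (rg_pow hD n)
    refine ⟨P, fun y => ?_⟩
    rw [hP]
    beta_reduce
    rw [Polynomial.eval_monomial, mul_assoc, ← mul_pow]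
    simp

theorem scal (P : Polynomial ℝ) {x : ℝ} (hx : 0 < x) :
    2 * (x : ℂ) * ∫ t in Ioi (0 : ℝ), lt (fun t => t * P.eval (Real.log t)) x t =
      (ph P (Real.log x) / (2 * x) : ℝ) := by
  have h := integral_comp_mul_left_Ioi
    (fun u => u * P.eval (Real.log u - (Real.log 2 + Real.log x)) * Real.exp (-u)) 0
    (b := 2 * x) (by positivity)
  rw [mul_zero, smul_eq_mul, ← div_eq_inv_mul] at h
  rw [ph, ← h, ← integral_const_mul, ← integral_complex_ofReal]
  refine setIntegral_congr_fun measurableSet_Ioi fun t ht => ?_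
  have ht' : (0 : ℝ) < t := ht
  have : Real.log (2 * x * t) - (Real.log 2 + Real.log x) = Real.log t := by
    rw [Real.log_mul (by positivity) ht'.ne', Real.log_mul two_ne_zero hx.ne']; ring
  simp only [lt, this]
  show _ = ((_ : ℝ) : ℂ)
  push_cast
  ring_nf

theorem split (Q : Polynomial ℂ) : ∃ R S : Polynomial ℝ, ∀ w : ℂ,
    Q.eval w = Polynomial.aeval w R + I * Polynomial.aeval w S := by
  induction Q using Polynomial.induction_on' with
  | add p q hp hq =>
    obtain ⟨R, S, h⟩ := hp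
    obtain ⟨R', S', h'⟩ := hq
    exact ⟨R + R', S + S', fun w => by rw [Polynomial.eval_add, h, h', map_add, map_add]; ring⟩
  | monomial n a =>
    refine ⟨Polynomial.monomial n a.re, Polynomial.monomial n a.im, fun w => ?_⟩
    rw [Polynomial.eval_monomial, Polynomial.aeval_monomial, Polynomial.aeval_monomial]
    nth_rw 1 [← re_add_im a]
    simp only [coe_algebraMap]
    ring

theorem aeval_re (R : Polynomial ℝ) (y : ℝ) :
    Polynomial.aeval (y : ℂ) R = ((R.eval y : ℝ) : ℂ) :=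
  Polynomial.aeval_algebraMap_apply_eq_algebraMap_eval (A := ℂ) y R

theorem pol_zero {S : Polynomial ℝ} {C : ℝ} (h : ∀ y, |S.eval y| ≤ C * Real.exp (y / 2)) :
    S = 0 := by
  have h1 : Tendsto (fun y : ℝ => C * Real.exp (-y / 2)) atTop (𝓝 (C * 0)) :=
    (Real.tendsto_exp_atBot.comp (tendsto_neg_atTop_atBot.atBot_div_const two_pos)).const_mul C
  rw [mul_zero] at h1
  have h2 : Tendsto (fun y : ℝ => (S.comp (-Polynomial.X)).eval y) atTop (𝓝 0) :=
    squeeze_zero_norm (fun y => by simpa using h (-y)) h1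
  have h3 := Polynomial.leadingCoeff_eq_zero.1 ((Polynomial.tendsto_nhds_iff _).1 h2).1
  refine Polynomial.funext fun y => ?_
  simpa using congrArg (Polynomial.eval (-y)) h3

end LAP

open LAP

theorem t_lap : T_LAP := by
  intro hP hZ hD ⟨_, Q, C, k, hQ⟩
  obtain ⟨R, S, hRS⟩ := split Q
  have S0 : S = 0 := by
    refine pol_zero (C := C) fun y => ?_
    have x0 := Real.exp_pos y
    have nx : ‖((Real.exp y : ℝ) : ℂ)‖ = Real.exp y := by rw [norm_real, Real.norm_of_nonneg x0.le]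
    have h1 := hQ 1 ⟨one_pos, le_rfl⟩ (Real.exp y : ℝ) x0 (by rw [nx, one_mul, ofReal_re])
    have h2 : (Lf (Real.exp y : ℝ)).im = 0 := by
      have : Lf (Real.exp y : ℝ) =
          ((∫ t in Ioi (0 : ℝ), z4 t * Real.exp (-2 * Real.exp y * t) : ℝ) : ℂ) := by
        rw [Lf, ← integral_complex_ofReal]
        refine integral_congr_ae (Eventually.of_forall fun t => ?_)
        show _ = ((_ : ℝ) : ℂ)
        push_cast; rfl
      rw [this, ofReal_im]
    rw [← ofReal_log x0.le, Real.log_exp, hRS, aeval_re, aeval_re, nx, one_pow, div_one,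
      ← Real.exp_mul] at h1
    have h3 := (abs_im_le_norm _).trans h1
    rw [sub_im, h2, zero_sub, abs_neg, div_ofReal_im, abs_div, abs_of_pos x0, div_le_iff₀ x0,
      mul_assoc, ← Real.exp_add] at h3
    have h4 : y * -(1 / 2) + y = y / 2 := by ring
    rw [h4] at h3
    simpa using h3
  obtain ⟨P, hPR⟩ := rg_mul 2 (rg_pol hD R)
  have hopen : IsOpen RH := isOpen_lt continuous_const continuous_re
  have key := hP.2.2.1
    (fun z => 2 * z * ∫ t in Ioi (0 : ℝ), lt (fun t => t * P.eval (Real.log t)) z t)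
    (fun z => Q.eval (log z) / z) RH 0 1 hopen (convex_halfSpace_re_gt 0).isPreconnected
    (DifferentiableOn.mul (by fun_prop) (lt_diff hP (gr_pol hD P)))
    (fun z hz => ((Q.differentiableAt.comp z (differentiableAt_log (Or.inl hz))).div
      differentiableAt_id fun g => by simp [RH, show z = 0 from g] at hz).differentiableWithinAt)
    one_pos fun x hx => ⟨hx.1, by
      have : (x : ℂ) ≠ 0 := ofReal_ne_zero.2 hx.1.ne'
      rw [scal P hx.1, hPR, ← ofReal_log hx.1.le, hRS, S0, map_zero, aeval_re]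
      push_cast; field_simp; ring⟩
  refine ⟨P, C / 2, k, fun e he z hz hze => ?_⟩
  have z0 : z ≠ 0 := fun g => by simp [RH, g] at hz
  have n0 : 0 < ‖z‖ := norm_pos_iff.2 z0
  have e1 : 2 * z * LE P z = Lf z - Q.eval (log z) / z := by
    have k1 := key hz
    dsimp only at k1
    rw [← parts hZ hD hz, ← k1, ← mul_sub,
      ← integral_sub (lt_int (gr_mom hD) hz) (lt_int (gr_pol hD P) hz), LE]
    congr 2
    funext t
    simp only [lt, err]
    push_cast; ring
  have h1 := hQ e he z hz hze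
  rw [← e1, norm_mul, norm_mul, Complex.norm_two] at h1
  have h2 : ‖z‖ ^ (-(1 / 2) : ℝ) = ‖z‖ * ‖z‖ ^ (-(3 / 2) : ℝ) := by
    nth_rw 2 [← Real.rpow_one ‖z‖]
    rw [← Real.rpow_add n0]; norm_num
  rw [h2] at h1
  refine le_of_mul_le_mul_left (h1.trans (le_of_eq ?_)) (by positivity : 0 < 2 * ‖z‖)
  ring

end

end Pool.Agent.Lib.E2
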