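import Pool.Agent.Lib.E2.Blue

/-! Block LIN: linearity, orthonormal families and Bessel's inequality. -/

namespace Pool.Agent.Lib.E2

open Complex MeasureTheory Set Filter Topology
open scoped Real UpperHalfPlane ComplexConjugate InnerProductSpace

namespace LIN

theorem ip_eq {f g : ℍ → ℂ} (hf : MemLp f 2 muD) (hg : MemLp g 2 muD) :
    ip f g = ⟪hf.toLp f, hg.toLp g⟫_ℂ := by
  rw [L2.inner_def, ip]
  refine integral_congr_ae ?_
  filter_upwards [hf.coeFn_toLp, hg.coeFn_toLp] with z h1 h2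
  rw [h1, h2, RCLike.inner_apply, mul_comm]

theorem ip_self (f : ℍ → ℂ) : ip f f = n2 f := by
  rw [ip, n2, ← integral_complex_ofReal]
  refine integral_congr_ae (Eventually.of_forall fun z => ?_)
  simp only [conj_mul', ofReal_pow]

theorem n2_eq {f : ℍ → ℂ} (hf : MemLp f 2 muD) : n2 f = ‖hf.toLp f‖ ^ 2 := by
  have h := ip_eq hf hf
  rw [ip_self, inner_self_eq_norm_sq_to_K] at h
  exact ofReal_injective (h.trans (ofReal_pow _ _).symm)

theorem ip_int {f g : ℍ → ℂ} (hf : MemLp f 2 muD) (hg : MemLp g 2 muD) :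
    Integrable (fun z => conj (f z) * g z) muD :=
  MemLp.integrable_mul (f := fun z => conj (f z)) hf.star hg

theorem aut_add {f g : ℍ → ℂ} (c : ℂ) (hf : Aut f) (hg : Aut g) : Aut fun z => f z + c * g z :=
  ⟨hf.1.add (hg.1.const_mul c), fun γ z => by simp only [hf.2.1 γ z, hg.2.1 γ z],
    hf.2.2.add (hg.2.2.const_mul c)⟩

theorem cusp_add (hK : St_KER2) {f g : ℍ → ℂ} (c : ℂ) (hf : Cusp f) (hg : Cusp g) :
    Cusp fun z => f z + c * g z := by
  refine ⟨aut_add c hf.1 hg.1, fun C u hu => ?_⟩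
  have h : ∀ w : ℍ, u w.im * (f w + c * g w) = u w.im * f w + c * (u w.im * g w) := fun w => by
    ring
  simp only [h]
  rw [integral_add (hK.1 f hf.1 C u hu).1 ((hK.1 g hg.1 C u hu).1.const_mul c), integral_const_mul,
    hf.2 C u hu, hg.2 C u hu, mul_zero, add_zero]

theorem cusp_zero : Cusp fun _ => 0 :=
  ⟨⟨measurable_const, fun _ _ => rfl, MemLp.zero⟩, fun C u _ => by simp⟩

theorem cls_add {f g : ℍ → ℂ} (c : ℂ) (hf : Cls f) (hg : Cls g) : Cls fun z => f z + c * g z := by
  refine (Integrable.add hf (Integrable.const_mul hg c)).congr (Eventually.of_forall fun w => ?_)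
  simp only [Pi.add_apply]
  ring

theorem lop_add (hK : St_KER2) {f g : ℍ → ℂ} (c : ℂ) (hf : Cls f) (hg : Cls g) {a : ℝ}
    (ha : Real.cos a < 1) (z : ℍ) :
    Lop a (fun z => f z + c * g z) z = Lop a f z + c * Lop a g z := by
  have h : ∀ w : ℍ, (ka a (qd z w) : ℂ) * (f w + c * g w) =
      ka a (qd z w) * f w + c * (ka a (qd z w) * g w) := fun w => by ring
  simp only [Lop, Rop, h]
  rw [integral_add (hK.2.2.1 f hf a ha z) ((hK.2.2.1 g hg a ha z).const_mul c), integral_const_mul]

theorem sum_ins {ι : Type} [DecidableEq ι] {s : Finset ι} {i : ι} (hi : i ∉ s) (c : ι → ℂ)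
    (f : ι → ℍ → ℂ) :
    (fun z => ∑ j ∈ insert i s, c j * f j z) = fun z => ∑ j ∈ s, c j * f j z + c i * f i z :=
  funext fun z => by rw [Finset.sum_insert hi, add_comm]

theorem lop_sum (hK : St_KER2) {ι : Type} (s : Finset ι) (c : ι → ℂ) (f : ι → ℍ → ℂ)
    (h : ∀ i ∈ s, Cls (f i)) : Cls (fun z => ∑ i ∈ s, c i * f i z) ∧
      ∀ a : ℝ, Real.cos a < 1 → ∀ z,
        Lop a (fun z => ∑ i ∈ s, c i * f i z) z = ∑ i ∈ s, c i * Lop a (f i) z := by
  classical
  induction s using Finset.induction_on with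
  | empty => exact ⟨by simp [Cls], fun a _ z => by simp [Lop, Rop]⟩
  | insert i s hi ih =>
    obtain ⟨h1, h2⟩ := ih fun j hj => h j (Finset.mem_insert_of_mem hj)
    have h3 := h i (Finset.mem_insert_self _ _)
    rw [sum_ins hi]
    exact ⟨cls_add _ h1 h3, fun a ha z => by
      rw [lop_add hK _ h1 h3 ha, h2 a ha, Finset.sum_insert hi, add_comm]⟩

theorem ip_conj (f g : ℍ → ℂ) : ip g f = conj (ip f g) := by
  rw [ip, ip, ← integral_conj]
  refine integral_congr_ae (Eventually.of_forall fun z => ?_)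
  simp only [map_mul, conj_conj, mul_comm]

theorem ip_mul (f g : ℍ → ℂ) (c : ℂ) : ip f (fun z => c * g z) = c * ip f g := by
  rw [ip, ip, ← integral_const_mul]
  refine integral_congr_ae (Eventually.of_forall fun z => ?_)
  simp only [mul_left_comm]

theorem mul_ip (f g : ℍ → ℂ) (c : ℂ) : ip (fun z => c * f z) g = conj c * ip f g := by
  rw [ip, ip, ← integral_const_mul]
  refine integral_congr_ae (Eventually.of_forall fun z => ?_)
  simp only [map_mul, mul_assoc]

theorem ip_sum {ι : Type} (s : Finset ι) (c : ι → ℂ) {f : ℍ → ℂ} {φ : ι → ℍ → ℂ}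
    (hf : MemLp f 2 muD) (h : ∀ i ∈ s, MemLp (φ i) 2 muD) :
    ip f (fun z => ∑ i ∈ s, c i * φ i z) = ∑ i ∈ s, c i * ip f (φ i) := by
  simp only [← ip_mul]
  simp only [ip, Finset.mul_sum]
  exact integral_finsetSum s fun i hi => ip_int hf ((h i hi).const_mul (c i))

end LIN

open LIN in
theorem t_lin : T_LIN := by
  intro hU hK
  refine ⟨fun f g c => aut_add c, fun f g c => cusp_add hK c, fun ι s c f h => ?_,
    fun f hf hi hb => ?_, fun f g c hf hg => ⟨cls_add c hf hg, fun a ha => lop_add hK c hf hg ha⟩,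
    fun ι s c f h => (lop_sum hK s c f h).2,
    fun f g => ⟨ip_conj f g, ip_self f, integral_nonneg fun z => by positivity,
      fun c => ⟨ip_mul f g c, mul_ip f g c, ?_⟩⟩, fun f g h c hf hg hh => ?_,
    fun ι s φ h1 h2 => ⟨fun c => ?_, fun g hg => ?_⟩⟩
  · classical
    induction s using Finset.induction_on with
    | empty => simpa using cusp_zero
    | insert i s hi ih =>
      rw [sum_ins hi]
      exact cusp_add hK _ (ih fun j hj => h j (Finset.mem_insert_of_mem hj))
        (h i (Finset.mem_insert_self _ _))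
  · obtain ⟨C, hC⟩ := hb
    have := hU.2.2.2.2.2.2.2.2.2.1
    exact ⟨hf.measurable, hi, MemLp.of_bound hf.aestronglyMeasurable C (Eventually.of_forall hC)⟩
  · rw [n2, n2, ← integral_const_mul]
    refine integral_congr_ae (Eventually.of_forall fun z => ?_)
    simp only [norm_mul, mul_pow]
  · rw [← ip_mul]
    simp only [ip, mul_add]
    exact integral_add (ip_int hf hg) (ip_int hf (hh.const_mul c))
  · have h3 : MemLp (fun z => ∑ i ∈ s, c i * φ i z) 2 muD :=
      memLp_finsetSum s fun i hi => (h1 i hi).1.const_mul (c i)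
    have h4 := ip_self fun z => ∑ i ∈ s, c i * φ i z
    rw [ip_sum s c h3 fun i hi => (h1 i hi).1] at h4
    refine ofReal_injective ?_
    rw [← h4, ofReal_sum]
    refine Finset.sum_congr rfl fun i hi => ?_
    rw [ip_conj, ip_sum s c (h1 i hi).1 fun j hj => (h1 j hj).1, Finset.sum_eq_single_of_mem i hi
      fun j hj hne => by rw [h2 i hi j hj hne.symm, mul_zero], (h1 i hi).2, mul_one, mul_conj',
      ofReal_pow]
  · classical
    have ho : Orthonormal ℂ fun i : s => (h1 i i.2).1.toLp (φ i) := by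
      rw [orthonormal_iff_ite]
      intro i j
      rw [← ip_eq]
      split_ifs with hij
      · rw [← hij]; exact (h1 i i.2).2
      · exact h2 i i.2 j j.2 fun e => hij (Subtype.ext e)
    have h3 := ho.sum_inner_products_le (s := Finset.univ) (hg.toLp g)
    simp only [← ip_eq] at h3
    rwa [← n2_eq, Finset.sum_coe_sort s fun i => ‖ip (φ i) g‖ ^ 2] at h3

end Pool.Agent.Lib.E2
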