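import Pool.Agent.Lib.E2.LW1

/-! The truncated Mellin transform along a ray, continued to the left. -/

namespace Pool.Agent.Lib.E2

noncomputable section

open Complex MeasureTheory Set Filter Topology
open scoped Real

namespace LW

lemma inv_split (g : ℝ → ℂ) (h1 : IntegrableOn g (Ioi 1))
    (h2 : IntegrableOn (fun y : ℝ => (y ^ 2)⁻¹ • g y⁻¹) (Ioi 1)) :
    ∫ y in Ioi (0 : ℝ), g y = (∫ y in Ioi (1 : ℝ), g y) +
      ∫ y in Ioi (1 : ℝ), (y ^ 2)⁻¹ • g y⁻¹ := by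
  have him : (fun y : ℝ => y⁻¹) '' Ioi 1 = Ioo 0 1 := by
    ext x
    constructor
    · rintro ⟨y, hy, rfl⟩
      have : (1 : ℝ) < y := hy
      exact ⟨inv_pos.2 (by linarith), inv_lt_one_of_one_lt₀ this⟩
    · intro hx
      exact ⟨x⁻¹, (one_lt_inv₀ hx.1).2 hx.2, inv_inv x⟩
  have hd : ∀ y ∈ Ioi (1 : ℝ), HasDerivWithinAt (fun y : ℝ => y⁻¹) (-(y ^ 2)⁻¹) (Ioi 1) y :=
    fun y hy => (hasDerivAt_inv (by
      have : (1 : ℝ) < y := hy
      exact ne_of_gt (by linarith))).hasDerivWithinAt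
  have hinj : InjOn (fun y : ℝ => y⁻¹) (Ioi 1) := inv_injective.injOn
  have ea : ∀ y : ℝ, |-(y ^ 2)⁻¹| = (y ^ 2)⁻¹ := fun y => by
    rw [abs_neg, abs_of_nonneg (by positivity)]
  have a1 := integrableOn_image_iff_integrableOn_abs_deriv_smul measurableSet_Ioi hd hinj g
  have a2 := integral_image_eq_integral_abs_deriv_smul measurableSet_Ioi hd hinj g
  simp only [ea, him] at a1 a2
  have a3 : IntegrableOn g (Ioc 0 1) := (integrableOn_Ioc_iff_integrableOn_Ioo).2 (a1.2 h2)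
  rw [← a2, ← integral_Ioc_eq_integral_Ioo, add_comm,
    ← setIntegral_union Ioc_disjoint_Ioi_same measurableSet_Ioi a3 h1,
    Ioc_union_Ioi_eq_Ioi zero_le_one]

lemma lin (hP : St_PAR) (l e : ℂ) {b : ℝ} (hb : 0 < b) :
    IntegrableOn (fun x : ℝ => (l + e * x) * exp (-(b * x))) (Ioi 0) ∧
    ∫ x in Ioi (0 : ℝ), (l + e * x) * exp (-(b * x)) = l / b + e / b ^ 2 := by
  have hb' : 0 < (b : ℂ).re := by simpa using hb
  have i1 := lap_cint one_pos hb'
  have i2 := lap_cint two_pos hb'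
  have v1 := lap hP one_pos hb'
  have v2 := lap hP two_pos hb'
  have e2 : ((2 : ℝ) : ℂ) - 1 = 1 := by push_cast; ring
  have g2 : Gamma ((2 : ℝ) : ℂ) = 1 := by
    rw [Gamma_ofReal, Real.Gamma_two, ofReal_one]
  have c2 : (b : ℂ) ^ (-((2 : ℝ) : ℂ)) = 1 / b ^ 2 := by
    rw [cpow_neg, ofReal_ofNat, cpow_ofNat, one_div]
  simp only [ofReal_one, sub_self, cpow_zero, one_mul, Gamma_one, mul_one, cpow_neg_one] at i1 v1
  simp only [e2, cpow_one, g2, c2, mul_one] at i2 v2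
  have e3 : (fun x : ℝ => (l + e * x) * exp (-(b * x))) =
      fun x : ℝ => l * exp (-(b * x)) + e * (x * exp (-(b * x))) := by
    funext x
    ring
  rw [e3]
  refine ⟨(i1.const_mul l).add (i2.const_mul e), ?_⟩
  rw [integral_add (i1.const_mul l) (i2.const_mul e), integral_const_mul, integral_const_mul,
    v1, v2]
  ring

lemma cpart (hP : St_PAR) (r : ℝ) {w : ℝ} (hw : 1 / 2 < w) :
    IntegrableOn (fun y : ℝ => (Cp r y - Cm r y) * (y : ℂ) ^ (-(w : ℂ)) / y) (Ioi 1) ∧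
    ∫ y in Ioi (1 : ℝ), (Cp r y - Cm r y) * (y : ℂ) ^ (-(w : ℂ)) / y =
      -(T2I.sq r * (el (1 / Real.cosh r) / (1 / 2 - w) - 1 / (1 / 2 - w) ^ 2 +
        el (1 / Real.cosh r) / (1 / 2 + w) - 1 / (1 / 2 + w) ^ 2)) := by
  set l := el (1 / Real.cosh r) with hl
  obtain ⟨i1, v1⟩ := lin hP l 1 (b := w - 1 / 2) (by linarith)
  obtain ⟨i2, v2⟩ := lin hP l (-1) (b := w + 1 / 2) (by linarith)
  have e : ∀ x : ℝ, Real.exp x • ((Cp r (Real.exp x) - Cm r (Real.exp x)) *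
      ((Real.exp x : ℝ) : ℂ) ^ (-(w : ℂ)) / (Real.exp x : ℝ)) =
      T2I.sq r * ((l + 1 * x) * exp (-((w - 1 / 2 : ℝ) * x)) -
        (l + -1 * x) * exp (-((w + 1 / 2 : ℝ) * x))) := fun x => by
    have h0 : ((Real.exp x : ℝ) : ℂ) ≠ 0 := ofReal_ne_zero.2 (Real.exp_pos x).ne'
    have a1 : exp (-(((w - 1 / 2 : ℝ) : ℂ) * x)) = exp ((x : ℂ) / 2) * exp (x * -(w : ℂ)) := by
      rw [← exp_add]
      congr 1
      push_cast
      ring
    have a2 : exp (-(((w + 1 / 2 : ℝ) : ℂ) * x)) =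
        exp (-((x : ℂ) / 2)) * exp (x * -(w : ℂ)) := by
      rw [← exp_add]
      congr 1
      push_cast
      ring
    rw [real_smul, mul_div_cancel₀ _ h0, T2I.cp_eq r (Real.exp_pos x),
      T2I.cm_eq r (Real.exp_pos x), pi_cp (Real.exp_pos x), T2I.lg, Real.log_exp, a1, a2, ← hl]
    ring
  have j1 := integrableOn_comp_exp_Ioi
    (fun y : ℝ => (Cp r y - Cm r y) * (y : ℂ) ^ (-(w : ℂ)) / y) 0
  have j2 := integral_comp_exp_Ioi
    (fun y : ℝ => (Cp r y - Cm r y) * (y : ℂ) ^ (-(w : ℂ)) / y) 0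
  simp only [e, Real.exp_zero] at j1 j2
  refine ⟨j1.1 ((i1.sub i2).const_mul _), ?_⟩
  rw [← j2, integral_const_mul, integral_sub i1 i2, v1, v2]
  have n1 : (1 / 2 - w : ℂ) ≠ 0 := by
    have : ((1 / 2 - w : ℝ) : ℂ) ≠ 0 := ofReal_ne_zero.2 (by linarith)
    simpa using this
  have b1 : ((w - 1 / 2 : ℝ) : ℂ) = -(1 / 2 - w) := by push_cast; ring
  have b2 : ((w + 1 / 2 : ℝ) : ℂ) = 1 / 2 + w := by push_cast; ring
  rw [b1, b2, neg_sq, div_neg]
  ring

lemma pw_meas (w : ℂ) : Measurable fun y : ℝ => (y : ℂ) ^ w :=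
  Complex.measurable_ofReal.pow_const _

lemma maj (r K M : ℝ) (hM : 0 ≤ M) :
    IntegrableOn (fun y : ℝ => K * Real.exp (-(Real.cosh r)⁻¹ * y) * y ^ M) (Ioi 1) := by
  have h := ((lap_int (a := M + 1) (by linarith)
    (inv_pos.2 (Real.cosh_pos r))).mono_set (Ioi_subset_Ioi zero_le_one)).const_mul K
  refine IntegrableOn.congr_fun h (fun y _ => ?_) measurableSet_Ioi
  simp only [add_sub_cancel_right, neg_mul]
  ring

lemma pw_le {y M : ℝ} (hy : 1 < y) {w : ℂ} (hw : w.re ≤ M) : ‖(y : ℂ) ^ w‖ ≤ y ^ M := by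
  rw [norm_cpow_eq_rpow_re_of_pos (by linarith)]
  exact Real.rpow_le_rpow_of_exponent_le hy.le hw

lemma v_int (hV : St_VB2) (r : ℝ) (w : ℂ) :
    IntegrableOn (fun y : ℝ => Vr r y (1 / 2) * (y : ℂ) ^ w / y) (Ioi 1) := by
  obtain ⟨K, hK, hb⟩ := T2I.w_bd hV r
  simp only [mul_div_right_comm]
  refine Integrable.mono' (maj r K |w.re| (abs_nonneg _))
    ((pi_vr_meas hV r _).mul (pw_meas w).aestronglyMeasurable) ?_
  filter_upwards [ae_restrict_mem measurableSet_Ioi] with y hy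
  rw [norm_mul]
  exact mul_le_mul (hb y (le_of_lt hy)) (pw_le hy (le_abs_self _)) (norm_nonneg _)
    (by positivity)

lemma right (hP : St_PAR) (hV : St_VB2) (hE : St_EIS2) (r : ℝ) {w : ℝ} (hw : 1 / 2 < w) :
    ∫ y in Ioi (1 : ℝ), Vr r y (1 / 2) * ((y : ℂ) ^ (w : ℂ) + (y : ℂ) ^ (-(w : ℂ))) / y =
      Lw r w + T2I.sq r * (el (1 / Real.cosh r) / (1 / 2 - w) - 1 / (1 / 2 - w) ^ 2 +
        el (1 / Real.cosh r) / (1 / 2 + w) - 1 / (1 / 2 + w) ^ 2) := by
  obtain ⟨i3, v3⟩ := cpart hP r hw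
  have i1 := v_int hV r w
  have i2 := v_int hV r (-w)
  have e : EqOn (fun y : ℝ => (y ^ 2)⁻¹ • (Vr r y⁻¹ (1 / 2) * ((y⁻¹ : ℝ) : ℂ) ^ (w : ℂ) /
      ((y⁻¹ : ℝ) : ℂ))) (fun y : ℝ => Vr r y (1 / 2) * (y : ℂ) ^ (-(w : ℂ)) / y +
        (Cp r y - Cm r y) * (y : ℂ) ^ (-(w : ℂ)) / y) (Ioi 1) := fun y hy => by
    have hy0 : 0 < y := lt_trans one_pos hy
    have h0 : (y : ℂ) ≠ 0 := ofReal_ne_zero.2 hy0.ne'
    have h1 := (hE.2.2 r y hy0).2
    rw [one_div y] at h1
    have h2 : ((y⁻¹ : ℝ) : ℂ) ^ (w : ℂ) = (y : ℂ) ^ (-(w : ℂ)) := by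
      rw [pi_cp (inv_pos.2 hy0), pi_cp hy0, Real.log_inv]
      congr 1
      push_cast
      ring
    simp only
    rw [h1, h2, real_smul]
    push_cast
    field_simp
    ring
  have h := inv_split (fun y : ℝ => Vr r y (1 / 2) * (y : ℂ) ^ (w : ℂ) / y) i1
    (IntegrableOn.congr_fun (i2.add i3) e.symm measurableSet_Ioi)
  rw [full hP r hw, setIntegral_congr_fun measurableSet_Ioi e, integral_add i2 i3, v3] at h
  simp only [mul_add, add_div]
  rw [integral_add i1 i2]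
  linear_combination -h

lemma lhs_diff (hP : St_PAR) (hV : St_VB2) (r : ℝ) : DifferentiableOn ℂ
    (fun w : ℂ => ∫ y in Ioi (1 : ℝ), Vr r y (1 / 2) * ((y : ℂ) ^ w + (y : ℂ) ^ (-w)) / y)
    univ := by
  refine (hP.1 ℝ (volume.restrict (Ioi 1))
    (fun w y => Vr r y (1 / 2) * ((y : ℂ) ^ w + (y : ℂ) ^ (-w)) / y) univ isOpen_univ
    (fun w _ => ?_) ?_ ?_).1
  · simp only [mul_div_right_comm]
    exact (pi_vr_meas hV r _).mul ((pw_meas w).add (pw_meas (-w))).aestronglyMeasurable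
  · filter_upwards [ae_restrict_mem measurableSet_Ioi] with y hy
    have h0 : (y : ℂ) ≠ 0 := ofReal_ne_zero.2 (lt_trans one_pos hy).ne'
    exact (((differentiable_id.const_cpow (Or.inl h0)).add
      (differentiable_neg.const_cpow (Or.inl h0))).const_mul _).div_const _ |>.differentiableOn
  · intro z _
    obtain ⟨K, hK, hb⟩ := T2I.w_bd hV r
    refine ⟨1, one_pos, _, maj r (K * 2) (|z.re| + 1) (by positivity), ?_⟩
    filter_upwards [ae_restrict_mem measurableSet_Ioi] with y hy w _ hw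
    have h1 := abs_lt.1 ((abs_re_le_norm _).trans_lt hw)
    rw [sub_re] at h1
    have e1 := pw_le hy (w := w) (M := |z.re| + 1) (by linarith [h1.2, le_abs_self z.re])
    have e2 := pw_le hy (w := -w) (M := |z.re| + 1)
      (by rw [neg_re]; linarith [h1.1, neg_abs_le z.re])
    rw [mul_div_right_comm, norm_mul]
    calc _ ≤ K * Real.exp (-(Real.cosh r)⁻¹ * y) * (y ^ (|z.re| + 1) + y ^ (|z.re| + 1)) :=
          mul_le_mul (hb y (le_of_lt hy)) ((norm_add_le _ _).trans (add_le_add e1 e2))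
            (norm_nonneg _) (by positivity)
      _ = _ := by ring

/-- the half plane without `1/2` -/
def UU : Set ℂ := {w | -(1 / 2) < w.re ∧ w ≠ 1 / 2}

lemma uu_open : IsOpen UU := (isOpen_lt continuous_const continuous_re).inter isOpen_ne

lemma uu_conn : IsPreconnected UU := by
  have hA : IsPreconnected ({s : ℂ | -(1 / 2) < s.re} ∩ {s : ℂ | 0 < s.im}) :=
    ((convex_halfSpace_re_gt _).inter (convex_halfSpace_im_gt 0)).isPreconnected
  have hB : IsPreconnected ({s : ℂ | -(1 / 2) < s.re} ∩ {s : ℂ | s.im < 0}) :=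
    ((convex_halfSpace_re_gt _).inter (convex_halfSpace_im_lt 0)).isPreconnected
  have h1 : IsPreconnected ({s : ℂ | -(1 / 2) < s.re} ∩ {s : ℂ | s.re < 1 / 2}) :=
    ((convex_halfSpace_re_gt _).inter (convex_halfSpace_re_lt _)).isPreconnected
  have h3 : IsPreconnected {s : ℂ | 1 / 2 < s.re} := (convex_halfSpace_re_gt _).isPreconnected
  have u1 := IsPreconnected.union (1 + I) (by constructor <;> norm_num) (by norm_num) hA h3
  have u2 := IsPreconnected.union (1 - I) (Or.inr (by norm_num))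
    (by constructor <;> norm_num) u1 hB
  have u3 := IsPreconnected.union I (Or.inl (Or.inl (by constructor <;> norm_num)))
    (by constructor <;> norm_num) u2 h1
  have e : UU = (({s : ℂ | -(1 / 2) < s.re} ∩ {s : ℂ | 0 < s.im} ∪ {s : ℂ | 1 / 2 < s.re}) ∪
      {s : ℂ | -(1 / 2) < s.re} ∩ {s : ℂ | s.im < 0}) ∪
      {s : ℂ | -(1 / 2) < s.re} ∩ {s : ℂ | s.re < 1 / 2} := by
    ext s
    simp only [UU, mem_ofPred_eq, mem_union, mem_inter_iff]
    constructor
    · rintro ⟨a, b⟩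
      rcases lt_trichotomy 0 s.im with h | h | h
      · exact Or.inl (Or.inl (Or.inl ⟨a, h⟩))
      · have b' : s.re ≠ 1 / 2 := fun hb => b (Complex.ext (by rw [hb]; norm_num) (by simp [← h]))
        rcases lt_or_gt_of_ne b' with h1 | h1
        · exact Or.inr ⟨a, h1⟩
        · exact Or.inl (Or.inl (Or.inr h1))
      · exact Or.inl (Or.inr ⟨a, h⟩)
    · intro h
      refine ⟨?_, ?_⟩
      · rcases h with ((h | h) | h) | h
        · exact h.1
        · linarith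
        · exact h.1
        · exact h.1
      · rintro rfl
        norm_num at h
  rw [e]
  exact u3

lemma rhs_diff (hN : St_NB) (r : ℝ) (s l : ℂ) : DifferentiableOn ℂ
    (fun w : ℂ => Lw r w + s * (l / (1 / 2 - w) - 1 / (1 / 2 - w) ^ 2 +
      l / (1 / 2 + w) - 1 / (1 / 2 + w) ^ 2)) UU := by
  have hre : ∀ w ∈ UU, 0 < (1 / 2 + w : ℂ).re := fun w hw => by
    have := hw.1
    simp only [add_re, div_ofNat_re, one_re]
    linarith
  have n1 : ∀ w ∈ UU, (1 / 2 - w : ℂ) ≠ 0 := fun w hw => sub_ne_zero.2 hw.2.symm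
  have n2 : ∀ w ∈ UU, (1 / 2 + w : ℂ) ≠ 0 := fun w hw h => by
    have := hre w hw
    rw [h] at this
    simp at this
  have hN' : DifferentiableOn ℂ (fun w : ℂ => Nf (1 / 2 + w) r) UU :=
    hN.2.2.1 UU (fun w => 1 / 2 + w) (fun _ => (r : ℂ)) uu_open (by fun_prop)
      (differentiableOn_const _) fun w hw => ⟨hre w hw, pi_str r⟩
  have hG : DifferentiableOn ℂ (fun w : ℂ => Gamma (1 / 2 + w)) UU := fun w hw =>
    ((differentiableAt_Gamma _ fun m hm => by
      have h := hre w hw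
      rw [hm] at h
      simp only [neg_re, natCast_re] at h
      linarith [Nat.cast_nonneg (α := ℝ) m]).comp w
        (by fun_prop : DifferentiableAt ℂ (fun w : ℂ => 1 / 2 + w) w)).differentiableWithinAt
  have hz : DifferentiableOn ℂ (fun w : ℂ => riemannZeta (1 / 2 + w)) UU := fun w hw =>
    ((differentiableAt_riemannZeta fun h => hw.2 (by linear_combination h)).comp w
      (by fun_prop : DifferentiableAt ℂ (fun w : ℂ => 1 / 2 + w) w)).differentiableWithinAt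
  have hp : ∀ c : ℂ, c ≠ 0 → ∀ f : ℂ → ℂ, Differentiable ℂ f →
      DifferentiableOn ℂ (fun s => c ^ f s) UU := fun c hc f hf =>
    (hf.const_cpow (Or.inl hc)).differentiableOn
  have hc : ((Real.cosh r : ℝ) : ℂ) ≠ 0 := ofReal_ne_zero.2 (Real.cosh_pos r).ne'
  have h2p : (2 * π : ℂ) ≠ 0 := mul_ne_zero two_ne_zero (ofReal_ne_zero.2 Real.pi_pos.ne')
  have d1 : DifferentiableOn ℂ (fun w : ℂ => 1 / 2 - w) UU := by fun_prop
  have d2 : DifferentiableOn ℂ (fun w : ℂ => 1 / 2 + w) UU := by fun_prop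
  unfold Lw
  refine (((((hz.pow 2).mul hG).mul (hp _ h2p _ (by fun_prop))).mul
    (hp _ hc _ differentiable_id)).mul hN').add (DifferentiableOn.const_mul ?_ s)
  exact ((((differentiableOn_const l).div d1 n1).sub ((differentiableOn_const 1).div (d1.pow 2)
    fun w hw => pow_ne_zero 2 (n1 w hw))).add ((differentiableOn_const l).div d2 n2)).sub
    ((differentiableOn_const 1).div (d2.pow 2) fun w hw => pow_ne_zero 2 (n2 w hw))

end LW

theorem t_lw : T_LW := by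
  intro hP hN _ _ hV hE r w h0 h1
  refine hP.2.2.1 _ _ LW.UU 1 2 LW.uu_open LW.uu_conn
    ((LW.lhs_diff hP hV r).mono (subset_univ _))
    (LW.rhs_diff hN r (T2I.sq r) (el (1 / Real.cosh r))) one_lt_two (fun x hx => ?_) ⟨h0, h1⟩
  have hx1 : 1 / 2 < x := by linarith [hx.1]
  refine ⟨⟨by rw [ofReal_re]; linarith, fun h => ?_⟩, LW.right hP hV hE r hx1⟩
  have := congrArg re h
  norm_num at this
  linarith

end

end Pool.Agent.Lib.E2
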