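import Pool.Agent.Lib.E2.Blue2

namespace Pool.Agent.Lib.E2

open Complex MeasureTheory Set Filter Topology
open scoped Real ComplexConjugate

theorem m4_conj (r t : ℝ) : Nf (sk (-t)) r = conj (Nf (sk t) r) := by
  have hs : -sk (-t) = conj (-sk t) := by
    apply Complex.ext <;> simp [sk]
  have key : ∀ (c x : ℝ), 0 < c →
      conj (((c : ℂ) + I * x) ^ (-sk t)) = ((c : ℂ) - I * x) ^ (-sk (-t)) := by
    intro c x hc
    have e : (c : ℂ) - I * x = conj ((c : ℂ) + I * x) := by apply Complex.ext <;> simp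
    rw [hs, e, Complex.conj_cpow, Complex.conj_conj]
    exact Complex.slitPlane_arg_ne_pi (Or.inl (by simpa using hc))
  rw [Nf, Nf, ← integral_conj]
  refine integral_congr_ae (ae_of_all _ fun v => ?_)
  have a := key (Real.cosh v) (Real.sinh r) (Real.cosh_pos v)
  have b := key (Real.cosh v) (-Real.sinh r) (Real.cosh_pos v)
  simp only [ofReal_neg, mul_neg, sub_neg_eq_add, ← sub_eq_add_neg, ofReal_sinh] at a b
  simp only [map_add]
  rw [a, b, add_comm]

theorem m4_wf (r t : ℝ) :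
    wf r t = ((‖Nf (sk t) r‖ ^ 2 / (2 * Real.cosh (π * t)) : ℝ) : ℂ) := by
  rw [wf, m4_conj, Complex.mul_conj, Complex.normSq_eq_norm_sq, ← ofReal_div]

theorem m4_int (hNB : St_NB) (hZ : St_ZB1) (r : ℝ) :
    Integrable (fun t : ℝ => z4 t * (‖Nf (sk t) r‖ ^ 2 / (2 * Real.cosh (π * t)))) := by
  obtain ⟨C, a, ha, h⟩ := hNB.2.2.2.2.2 r
  obtain ⟨hc, h0, -, -, Cz, hz⟩ := hZ.2.2.2.2.2.2.2.2.2.2.2
  have cN : Continuous fun t : ℝ => Nf (sk t) r :=
    hNB.2.1.comp_continuous (f := fun t : ℝ => (sk t, (r : ℂ))) (by unfold sk; fun_prop)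
      fun t => ⟨by simp [sk], by simp [Str, Real.pi_pos]⟩
  set d := π - 2 * a with hd
  have d0 : 0 < d := by linarith
  have hi : Integrable (fun t : ℝ => ((1 + |t|) ^ 2)⁻¹) := by
    have := integrable_one_add_norm (E := ℝ) (μ := volume) (r := 2) (by simp)
    refine this.congr (ae_of_all _ fun t => ?_)
    simp only [Real.norm_eq_abs]
    rw [Real.rpow_neg (by positivity), Real.rpow_two]
  refine (hi.const_mul (|Cz| * C ^ 2 * (24 * Real.exp d / d ^ 4))).mono'
    ((hc.mul ((cN.norm.pow 2).div (by fun_prop) fun t => by positivity)).aestronglyMeasurable)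
    (ae_of_all _ fun t => ?_)
  have a1 := h (sk t) (by simp [sk]; norm_num) (by simp [sk]; norm_num)
  have a2 : (sk t).im = t := by simp [sk]
  rw [a2] at a1
  have a3 : ‖Nf (sk t) r‖ ^ 2 ≤ C ^ 2 * Real.exp (2 * (a * |t|)) := by
    refine (pow_le_pow_left₀ (norm_nonneg _) a1 2).trans (le_of_eq ?_)
    rw [mul_pow, ← Real.exp_nat_mul]; norm_num
  have a4 : Real.exp (π * |t|) ≤ 2 * Real.cosh (π * t) := by
    rw [← Real.cosh_abs, abs_mul, abs_of_pos Real.pi_pos, Real.cosh_eq]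
    linarith [Real.exp_pos (-(π * |t|))]
  have a5 : ‖Nf (sk t) r‖ ^ 2 / (2 * Real.cosh (π * t)) ≤ C ^ 2 * Real.exp (-(d * |t|)) := by
    refine (div_le_div₀ (by positivity) a3 (Real.exp_pos _) a4).trans (le_of_eq ?_)
    rw [mul_div_assoc, ← Real.exp_sub]
    congr 2; rw [hd]; ring
  have a6 : Real.exp (-(d * |t|)) ≤ 24 * Real.exp d / d ^ 4 / (1 + |t|) ^ 4 := by
    have := Real.pow_div_factorial_le_exp (d * (1 + |t|)) (by positivity) 4
    rw [mul_add, mul_one, Real.exp_add, ← mul_one_add, mul_pow] at this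
    rw [Real.exp_neg, div_div, inv_eq_one_div, div_le_div_iff₀ (Real.exp_pos _) (by positivity)]
    norm_num [Nat.factorial] at this
    linarith
  rw [Real.norm_of_nonneg (mul_nonneg (h0 t) (by positivity))]
  calc _ ≤ (|Cz| * (1 + |t|) ^ 2) * (C ^ 2 * (24 * Real.exp d / d ^ 4 / (1 + |t|) ^ 4)) := by
        refine mul_le_mul ((hz t).trans ?_) (a5.trans ?_) (by positivity) (by positivity)
        · gcongr; exact le_abs_self _
        · gcongr
    _ = _ := by field_simp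

theorem m4_W (hV : St_VB1) : ∃ w : ℝ, 0 < w ∧ ∀ x ∈ Icc (1 : ℝ) 2, w ≤ (Wf x).re := by
  have e : ∀ x : ℝ, Kb x 0 = ((∫ v : ℝ, Real.exp (-x * Real.cosh v) : ℝ) : ℂ) := fun x => by
    rw [Kb, ← integral_complex_ofReal]
    simp
  have i : ∀ x : ℝ, 0 < x → Integrable fun v : ℝ => Real.exp (-x * Real.cosh v) := fun x hx => by
    refine (hV.1 x 0 (by simpa using hx)).norm.congr (ae_of_all _ fun v => ?_)
    simp only [Complex.norm_exp]
    simp [Complex.cosh_ofReal_re]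
  have p : 0 < ∫ v : ℝ, Real.exp (-2 * Real.cosh v) := integral_exp_pos (i 2 two_pos)
  refine ⟨(∫ v : ℝ, Real.exp (-2 * Real.cosh v)) ^ 2, by positivity, fun x hx => ?_⟩
  rw [Wf, e, ← ofReal_pow, ofReal_re]
  refine pow_le_pow_left₀ p.le (integral_mono (i 2 two_pos) (i x (by linarith [hx.1]))
    fun v => Real.exp_le_exp.2 ?_) 2
  nlinarith [Real.cosh_pos v, hx.2]

theorem m4_block (hNB : St_NB) (hZ : St_ZB1) (hV : St_VB1) (hI : St_INF2) (hF : St_FWB)
    (hT : St_T3B) (hR : St_RB) : ∃ C T0 : ℝ, 0 ≤ C ∧ 3 ≤ T0 ∧ ∀ T : ℝ, T0 ≤ T →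
      ∫ t in T..2 * T, z4 t ≤ C * T * Real.log T ^ 4 := by
  obtain ⟨C2, k2, h2⟩ := hI
  obtain ⟨C3, h3⟩ := hT
  obtain ⟨C4, h4⟩ := hR
  obtain ⟨C5, k5, h5⟩ := hF
  obtain ⟨w, hw, hW⟩ := m4_W hV
  obtain ⟨hc, h0, -⟩ := hZ.2.2.2.2.2.2.2.2.2.2.2
  set D := |C2| + |C3| + |C4| with hD
  refine ⟨2 / w * (2 * π * D * 16), max 3 (2 * |C5| / w), by positivity, le_max_left _ _,
    fun T hT => ?_⟩
  have T3' : 3 ≤ T := (le_max_left _ _).trans hT
  have T0 : 0 < T := by linarith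
  have T5 : 2 * |C5| ≤ w * T := by
    have := (le_max_right _ _).trans hT
    rw [div_le_iff₀ hw] at this; linarith
  set r := Real.arsinh T with hr
  have r1 : 1 ≤ r := by
    rw [hr, ← Real.arsinh_sinh 1, Real.arsinh_le_arsinh, Real.sinh_eq]
    linarith [Real.exp_one_lt_d9, Real.exp_pos (-1)]
  have r2 : r ≤ 2 * Real.log T := by
    rw [hr, Real.arsinh, show 2 * Real.log T = Real.log (T ^ 2) by rw [Real.log_pow]; norm_num]
    have : √(1 + T ^ 2) ≤ 2 * T := by rw [Real.sqrt_le_left (by linarith)]; nlinarith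
    exact Real.log_le_log (by positivity) (by nlinarith)
  have reg : Reg 1 r := ⟨by simpa using r1, by simp, by
    have := Real.pi_gt_three
    simp only [ofReal_im]; linarith⟩
  have hth : th r = ((T⁻¹ : ℝ) : ℂ) := by
    rw [th, ← ofReal_sinh, hr, Real.sinh_arsinh, ofReal_inv]
  have r4 : 1 ≤ r ^ 4 := one_le_pow₀ r1
  have bF : ‖FF r‖ ≤ D * r ^ 4 := by
    have a := h2 1 ⟨one_pos, le_rfl⟩ r reg
    rw [one_pow, div_one, ofReal_re] at a
    have a' : C2 * Real.exp (-(3 / 5) * r) ≤ |C2| * r ^ 4 :=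
      mul_le_mul (le_abs_self _) ((Real.exp_le_one_iff.2 (by linarith)).trans r4)
        (Real.exp_pos _).le (abs_nonneg _)
    have b := (h3 r r1).trans (mul_le_mul_of_nonneg_right (le_abs_self C3) (by positivity))
    have c := (h4 r (by linarith)).trans (le_abs_self C4)
    have c' : |C4| * 1 ≤ |C4| * r ^ 4 := by gcongr
    rw [show FF r = RR r + T3 r - T2 r by rw [RR]; ring, hD]
    refine (norm_sub_le _ _).trans ?_
    linarith [norm_add_le (RR r) (T3 r)]
  set om : ℝ → ℝ := fun t => ‖Nf (sk t) r‖ ^ 2 / (2 * Real.cosh (π * t)) with hom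
  have om0 : ∀ t, 0 ≤ om t := fun t => by simp only [hom]; positivity
  have iF : Integrable fun t => z4 t * om t := m4_int hNB hZ r
  have eF : FF r = ((1 / (2 * π) * ∫ t, z4 t * om t : ℝ) : ℂ) := by
    rw [FF, ofReal_mul, ← integral_complex_ofReal]
    simp only [m4_wf, hom, ofReal_mul (z4 _)]
    congr 1
    push_cast
    rfl
  have b1 : ∫ t, z4 t * om t ≤ 2 * π * (D * r ^ 4) := by
    rw [eF, norm_real] at bF
    have := (le_abs_self _).trans bF
    rwa [one_div, inv_mul_le_iff₀ (by positivity)] at this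
  have low : ∀ t ∈ Ioc T (2 * T), w / (2 * T) ≤ om t := by
    intro t ht
    have t0 : 0 < t := T0.trans ht.1
    have a := h5 1 ⟨one_pos, le_rfl⟩ r reg t t0
    rw [m4_wf, hth, one_pow, div_one, norm_real, Real.norm_of_nonneg (by positivity),
      ← ofReal_mul] at a
    have b := hW (T⁻¹ * t) ⟨by rw [le_inv_mul_iff₀ T0]; linarith [ht.1],
      by rw [inv_mul_le_iff₀ T0]; linarith [ht.2]⟩
    have c := (abs_le.1 ((abs_re_le_norm _).trans a)).1
    rw [sub_re, ofReal_re, re_ofReal_mul] at c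
    have d : T⁻¹ ^ (3 / 4 : ℝ) * (t ^ (-(1 / 2) : ℝ) * (1 + t) ^ (-(3 / 4) : ℝ)) ≤ T⁻¹ * T⁻¹ := by
      have d1 : t ^ (-(1 / 2) : ℝ) ≤ T ^ (-(1 / 2) : ℝ) :=
        Real.rpow_le_rpow_of_nonpos T0 ht.1.le (by norm_num)
      have d2 : (1 + t) ^ (-(3 / 4) : ℝ) ≤ T ^ (-(3 / 4) : ℝ) :=
        Real.rpow_le_rpow_of_nonpos T0 (by linarith [ht.1]) (by norm_num)
      refine (mul_le_mul_of_nonneg_left (mul_le_mul d1 d2 (by positivity) (by positivity))
        (by positivity)).trans (le_of_eq ?_)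
      rw [Real.inv_rpow T0.le, ← Real.rpow_neg T0.le, ← Real.rpow_add T0, ← Real.rpow_add T0,
        ← Real.rpow_neg_one, ← Real.rpow_add T0]
      norm_num
    have e : C5 * T⁻¹ ^ (3 / 4 : ℝ) * (t ^ (-(1 / 2) : ℝ) * (1 + t) ^ (-(3 / 4) : ℝ)) ≤
        |C5| * (T⁻¹ * T⁻¹) := by
      rw [mul_assoc]
      exact mul_le_mul (le_abs_self _) d (by positivity) (abs_nonneg _)
    have f : T⁻¹ * w ≤ T⁻¹ * (Wf ((T⁻¹ * t : ℝ) : ℂ)).re := by gcongr
    have g : |C5| * (T⁻¹ * T⁻¹) ≤ w * T / 2 * (T⁻¹ * T⁻¹) := by gcongr; linarith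
    have g2 : w * T / 2 * (T⁻¹ * T⁻¹) = w / (2 * T) := by field_simp
    have g3 : T⁻¹ * w = 2 * (w / (2 * T)) := by field_simp
    show _ ≤ ‖Nf (sk t) r‖ ^ 2 / (2 * Real.cosh (π * t))
    linarith
  have b2 : w / (2 * T) * ∫ t in T..2 * T, z4 t ≤ ∫ t, z4 t * om t := by
    rw [← intervalIntegral.integral_const_mul, intervalIntegral.integral_of_le (by linarith)]
    refine le_trans (setIntegral_mono_on ?_ iF.integrableOn measurableSet_Ioc fun t ht => ?_)
      (setIntegral_le_integral iF (ae_of_all _ fun t => mul_nonneg (h0 t) (om0 t)))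
    · exact ((hc.intervalIntegrable _ _).const_mul _).1
    · rw [mul_comm]; exact mul_le_mul_of_nonneg_left (low t ht) (h0 t)
  have b3 : r ^ 4 ≤ (2 * Real.log T) ^ 4 := pow_le_pow_left₀ (by linarith) r2 4
  have b4 : 2 * π * (D * r ^ 4) ≤ 2 * π * (D * (2 * Real.log T) ^ 4) := by gcongr
  have b5 := b2.trans (b1.trans b4)
  rw [← le_div_iff₀' (by positivity)] at b5
  refine b5.trans (le_of_eq ?_)
  field_simp
  ring

theorem t_m4 : T_M4 := by
  intro _ hNB hZ _ hV hI hF hT hR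
  obtain ⟨C, T0, hC, hT0, h⟩ := m4_block hNB hZ hV hI hF hT hR
  obtain ⟨hc, h0, -⟩ := hZ.2.2.2.2.2.2.2.2.2.2.2
  have add : ∀ a b : ℝ, mom b = mom a + ∫ t in a..b, z4 t := fun a b =>
    (intervalIntegral.integral_add_adjacent_intervals (hc.intervalIntegrable _ _)
      (hc.intervalIntegrable _ _)).symm
  have mono : ∀ a b : ℝ, a ≤ b → mom a ≤ mom b := fun a b hab => by
    rw [add a b]
    exact le_add_of_nonneg_right (intervalIntegral.integral_nonneg hab fun t _ => h0 t)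
  have m0 : ∀ a : ℝ, 0 ≤ a → 0 ≤ mom a := fun a ha =>
    intervalIntegral.integral_nonneg ha fun t _ => h0 t
  set K := C + 8 * mom (2 * T0) with hK
  have mT := m0 (2 * T0) (by linarith)
  have base : ∀ T : ℝ, 2 ≤ T → T ≤ 2 * T0 → mom T ≤ K * T * Real.log T ^ 4 := by
    intro T h1 h2
    have a : 1 / 2 ≤ Real.log T :=
      le_trans (by linarith [Real.log_two_gt_d9]) (Real.log_le_log two_pos h1)
    have b : (1 / 2 : ℝ) ^ 4 ≤ Real.log T ^ 4 := pow_le_pow_left₀ (by norm_num) a 4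
    have c : 8 * mom (2 * T0) * 2 * (1 / 2) ^ 4 ≤ K * T * Real.log T ^ 4 := by
      gcongr
      linarith
    linarith [mono T _ h2]
  have key : ∀ n : ℕ, ∀ T : ℝ, 2 ≤ T → T ≤ 2 ^ n → mom T ≤ K * T * Real.log T ^ 4 := by
    intro n
    induction n with
    | zero => exact fun T h1 h2 => base T h1 (by norm_num at h2; linarith)
    | succ n ih =>
      intro T h1 h2
      rcases le_total T (2 * T0) with h3 | h3
      · exact base T h1 h3
      · have a := ih (T / 2) (by linarith) (by rw [pow_succ] at h2; linarith)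
        have b := h (T / 2) (by linarith)
        rw [show 2 * (T / 2) = T by ring] at b
        have c : Real.log (T / 2) ^ 4 ≤ Real.log T ^ 4 :=
          pow_le_pow_left₀ (Real.log_nonneg (by linarith))
            (Real.log_le_log (by linarith) (by linarith)) 4
        have d : K * (T / 2) * Real.log (T / 2) ^ 4 ≤ K * (T / 2) * Real.log T ^ 4 := by gcongr
        have e : C * (T / 2) * Real.log (T / 2) ^ 4 ≤ K * (T / 2) * Real.log T ^ 4 := by
          gcongr
          linarith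
        rw [add (T / 2) T]
        linarith
  have h4 : ∀ T : ℝ, 2 ≤ T → mom T ≤ K * T * Real.log T ^ 4 := fun T hT => by
    obtain ⟨n, hn⟩ := pow_unbounded_of_one_lt T (one_lt_two (α := ℝ))
    exact key n T hT hn.le
  refine ⟨⟨K, h4⟩, K * 32 ^ 4 + mom 2, fun T hT => ?_⟩
  have T0' : 0 < T := by linarith
  have p1 : 1 ≤ T ^ (9 / 8 : ℝ) := Real.one_le_rpow hT (by norm_num)
  have m2 := m0 2 two_pos.le
  have K0 : 0 ≤ K := by positivity
  rcases le_total T 2 with h2 | h2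
  · have : mom 2 * 1 ≤ mom 2 * T ^ (9 / 8 : ℝ) := by gcongr
    have : 0 ≤ K * 32 ^ 4 * T ^ (9 / 8 : ℝ) := by positivity
    linarith [mono T 2 h2]
  · have a : Real.log T ≤ 32 * T ^ (1 / 32 : ℝ) := by
      have := Real.log_le_rpow_div T0'.le (show (0 : ℝ) < 1 / 32 by norm_num)
      linarith
    have b : Real.log T ^ 4 ≤ (32 * T ^ (1 / 32 : ℝ)) ^ 4 :=
      pow_le_pow_left₀ (Real.log_nonneg hT) a 4
    have c : T * (T ^ (1 / 32 : ℝ)) ^ 4 = T ^ (9 / 8 : ℝ) := by
      rw [← Real.rpow_natCast, ← Real.rpow_mul T0'.le, ← Real.rpow_one_add' T0'.le (by norm_num)]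
      norm_num
    have d : K * T * Real.log T ^ 4 ≤ K * T * (32 * T ^ (1 / 32 : ℝ)) ^ 4 := by gcongr
    have e : K * T * (32 * T ^ (1 / 32 : ℝ)) ^ 4 = K * 32 ^ 4 * T ^ (9 / 8 : ℝ) := by
      rw [← c]; ring
    have : 0 ≤ mom 2 * T ^ (9 / 8 : ℝ) := by positivity
    linarith [h4 T h2]

end Pool.Agent.Lib.E2
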