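import Pool.Agent.Lib.E2.FC1

/-!
The period of the cuspidal part along a ray, folded and split into its terms.
-/

namespace Pool.Agent.Lib.E2

noncomputable section

open Complex MeasureTheory Set Filter Topology
open scoped Real UpperHalfPlane MatrixGroups Modular

namespace MA1

open FC1

theorem fold {Φ : ℝ → ℂ} (h : ∀ y : ℝ, 0 < y → Φ (1 / y) = Φ y)
    (hi : IntegrableOn (fun y : ℝ => Φ y / y) (Ioi 1)) :
    ∫ y in Ioi (0 : ℝ), Φ y / y = 2 * ∫ y in Ioi (1 : ℝ), Φ y / y := by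
  have hd : ∀ x ∈ Ioi (1 : ℝ), HasDerivWithinAt (fun y : ℝ => y⁻¹) (-(x ^ 2)⁻¹) (Ioi 1) x :=
    fun x hx => (hasDerivAt_inv (ne_of_gt (lt_trans one_pos hx))).hasDerivWithinAt
  have hj : InjOn (fun y : ℝ => y⁻¹) (Ioi 1) := inv_injective.injOn
  have him : (fun y : ℝ => y⁻¹) '' Ioi 1 = Ioo 0 1 := by
    ext y
    constructor
    · rintro ⟨x, hx, rfl⟩
      exact ⟨inv_pos.2 (lt_trans one_pos hx), inv_lt_one_of_one_lt₀ hx⟩
    · intro hy
      exact ⟨y⁻¹, (one_lt_inv₀ hy.1).2 hy.2, inv_inv y⟩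
  have he : EqOn (fun x : ℝ => |-(x ^ 2)⁻¹| • (Φ x⁻¹ / (x⁻¹ : ℝ))) (fun y : ℝ => Φ y / y) (Ioi 1) := by
    intro x hx
    have h0 : 0 < x := lt_trans one_pos hx
    have h1 : (x : ℂ) ≠ 0 := ofReal_ne_zero.2 h0.ne'
    have h2 := h x h0
    rw [one_div] at h2
    simp only [h2, abs_neg, abs_of_pos (inv_pos.2 (pow_pos h0 2)), Complex.real_smul]
    push_cast
    field_simp
  have a1 := integral_image_eq_integral_abs_deriv_smul measurableSet_Ioi hd hj fun y : ℝ => Φ y / y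
  have a2 := integrableOn_image_iff_integrableOn_abs_deriv_smul measurableSet_Ioi hd hj
    fun y : ℝ => Φ y / y
  rw [him] at a1 a2
  rw [setIntegral_congr_fun measurableSet_Ioi he] at a1
  have a3 := a2.2 (hi.congr_fun he.symm measurableSet_Ioi)
  rw [← Ioc_union_Ioi_eq_Ioi (zero_le_one' ℝ), setIntegral_union (Ioc_disjoint_Ioi le_rfl)
    measurableSet_Ioi ((integrableOn_Ioc_iff_integrableOn_Ioo).2 a3) hi,
    integral_Ioc_eq_integral_Ioo, a1, two_mul]

theorem sig (r : ℝ) : 1 / Real.cosh r ∈ Ioc (0 : ℝ) 1 :=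
  ⟨one_div_pos.2 (Real.cosh_pos r), (div_le_one (Real.cosh_pos r)).2 (Real.one_le_cosh r)⟩

theorem adm (r : ℝ) {y : ℝ} (hy : 0 < y) :
    Adm (1 / Real.cosh r) y ((y * Real.tanh r : ℝ) : ℂ) ((y / Real.cosh r : ℝ) : ℂ) := by
  have hc := Real.cosh_pos r
  have h1 := Real.one_le_cosh r
  constructor
  · rw [Complex.norm_real, Real.norm_of_nonneg (div_pos hy hc).le, div_div_eq_mul_div, div_one,
      div_le_iff₀ hc]
    nlinarith [mul_le_mul h1 h1 zero_le_one hc.le]
  · rw [ofReal_re, ofReal_im, abs_zero, sub_zero]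
    exact le_of_eq (by ring)

theorem exp_int (r : ℝ) :
    Integrable (fun y : ℝ => Real.exp (-(1 / Real.cosh r * y) / 2)) (volume.restrict (Ioi 1)) := by
  have := exp_neg_integrableOn_Ioi 1 (half_pos (sig r).1)
  refine IntegrableOn.congr_fun this (fun y _ => ?_) measurableSet_Ioi
  congr 1
  ring

theorem fam_int {μ : Measure ℝ} [SFinite μ] {F : ℝ → ℂ → ℂ → ℂ} (hF : Fam μ F) (r : ℝ) :
    Integrable (fun p : ℝ × ℝ => F p.2 (p.1 * Real.tanh r : ℝ) (p.1 / Real.cosh r : ℝ) / p.1)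
      ((volume.restrict (Ioi 1)).prod μ) := by
  obtain ⟨C, k, g, hC, hg, hg0, hb⟩ := hF.bd
  have hm : MeasurableSet (Ioi (1 : ℝ) ×ˢ (univ : Set ℝ)) := measurableSet_Ioi.prod MeasurableSet.univ
  have e : (volume.restrict (Ioi (1 : ℝ))).prod μ = (volume.prod μ).restrict (Ioi 1 ×ˢ univ) := by
    rw [← Measure.prod_restrict, Measure.restrict_univ]
  refine Integrable.mono' ((exp_int r).mul_prod
    ((hg.const_mul C).div_const ((1 / Real.cosh r) ^ k))) ?_ ?_
  · rw [e]
    refine ContinuousOn.aestronglyMeasurable (ContinuousOn.div ?_ (by fun_prop) fun p hp =>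
      ofReal_ne_zero.2 (ne_of_gt (lt_trans one_pos hp.1))) hm
    exact hF.cont.comp (f := fun p : ℝ × ℝ => ((((p.1 * Real.tanh r : ℝ) : ℂ),
      ((p.1 / Real.cosh r : ℝ) : ℂ)), p.2)) (by fun_prop) fun p hp =>
        ⟨om_re (div_pos (lt_trans one_pos hp.1) (Real.cosh_pos r)) _, trivial⟩
  · rw [e]
    filter_upwards [ae_restrict_mem hm] with p hp
    have h1 : (1 : ℝ) < p.1 := hp.1
    rw [norm_div, Complex.norm_real, Real.norm_of_nonneg (by linarith), mul_comm (Real.exp _)]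
    exact (div_le_self (norm_nonneg _) h1.le).trans
      (hb p.2 _ (sig r) p.1 (by linarith) _ _ (adm r (by linarith)))

theorem good_int {F : ℂ → ℂ → ℂ} (hF : Good F) (r : ℝ) :
    Integrable (fun y : ℝ => F (y * Real.tanh r : ℝ) (y / Real.cosh r : ℝ) / y)
      (volume.restrict (Ioi 1)) := by
  obtain ⟨C, k, hC, hb⟩ := hF.bd
  refine Integrable.mono' ((exp_int r).const_mul (C / (1 / Real.cosh r) ^ k)) ?_ ?_
  · refine ContinuousOn.aestronglyMeasurable (ContinuousOn.div ?_ (by fun_prop) fun p hp =>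
      ofReal_ne_zero.2 (ne_of_gt (lt_trans one_pos hp))) measurableSet_Ioi
    exact hF.cont.comp (f := fun p : ℝ => (((p * Real.tanh r : ℝ) : ℂ),
      ((p / Real.cosh r : ℝ) : ℂ))) (by fun_prop) fun p hp =>
        om_re (div_pos (lt_trans one_pos hp) (Real.cosh_pos r)) _
  · filter_upwards [ae_restrict_mem measurableSet_Ioi] with p hp
    have h1 : (1 : ℝ) < p := hp
    rw [norm_div, Complex.norm_real, Real.norm_of_nonneg (by linarith)]
    exact (div_le_self (norm_nonneg _) h1.le).trans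
      (hb _ (sig r) p (by linarith) _ _ (adm r (by linarith)))

/-- swapping the integrals for a family of multiples of `Vf` -/
theorem swap {μ : Measure ℝ} [SFinite μ] {w σ : ℝ → ℂ} (hF : Fam μ fun t x y => w t * Vf x y (σ t))
    (r : ℝ) :
    Integrable (fun y : ℝ => (∫ t, w t * Vr r y (σ t) ∂μ) / y) (volume.restrict (Ioi 1)) ∧
    Integrable (fun t => w t * PIl r (σ t)) μ ∧
    2 * ∫ y in Ioi (1 : ℝ), (∫ t, w t * Vr r y (σ t) ∂μ) / y = ∫ t, w t * PIl r (σ t) ∂μ := by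
  have h : Integrable (fun p : ℝ × ℝ => w p.2 * Vr r p.1 (σ p.2) / p.1)
    ((volume.restrict (Ioi 1)).prod μ) := fam_int hF r
  have e : ∀ t, w t * PIl r (σ t) = 2 * ∫ y in Ioi (1 : ℝ), w t * Vr r y (σ t) / y := fun t => by
    simp only [PIl, mul_div_assoc, integral_const_mul]
    ring
  refine ⟨by simpa only [integral_div] using h.integral_prod_left, ?_, ?_⟩
  · simp only [e]
    exact h.integral_prod_right.const_mul 2
  · simp only [e, integral_const_mul, ← integral_div]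
    rw [integral_integral_swap (f := fun (y t : ℝ) => w t * Vr r y (σ t) / y) h]

theorem inv (hU : St_UNF1) (h1 : St_FC1) (h2 : St_FC2) (r : ℝ) {y : ℝ} (hy : 0 < y) :
    Ft (1 / y * Real.tanh r : ℝ) (1 / y / Real.cosh r : ℝ) =
      Ft (y * Real.tanh r : ℝ) (y / Real.cosh r : ℝ) := by
  have hc := Real.cosh_pos r
  obtain ⟨a1, a2⟩ := hU.1 (y * Real.tanh r) (y / Real.cosh r) (div_pos hy hc)
  have h := h2.1.1.2.1 ModularGroup.S (pt (y * Real.tanh r) (y / Real.cosh r))
  have hn : normSq ((pt (y * Real.tanh r) (y / Real.cosh r) : ℍ) : ℂ) = y ^ 2 := by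
    rw [normSq_apply, UpperHalfPlane.coe_re, UpperHalfPlane.coe_im, a1, a2, Real.tanh_eq_sinh_div_cosh]
    field_simp
    rw [Real.cosh_sq]
  have b1 : (ModularGroup.S • pt (y * Real.tanh r) (y / Real.cosh r)).re = -(1 / y * Real.tanh r) := by
    rw [UpperHalfPlane.modular_S_smul, UpperHalfPlane.mk_re, inv_re, normSq_neg, hn, neg_re,
      UpperHalfPlane.coe_re, a1]
    field_simp
  have b2 : (ModularGroup.S • pt (y * Real.tanh r) (y / Real.cosh r)).im = 1 / y / Real.cosh r := by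
    rw [UpperHalfPlane.modular_S_smul, UpperHalfPlane.mk_im, inv_im, normSq_neg, hn, neg_im,
      UpperHalfPlane.coe_im, a2]
    field_simp
  unfold Fc at h
  rw [a1, a2, b1, b2, ofReal_neg, h1.2.2.2.1] at h
  exact h

end MA1

open FC1 MA1 in
theorem t_ma1 : T_MA1 := by
  intro h3 hV hU h1 h2 r
  have hc := Real.cosh_pos r
  have eD : ∀ y, Dd y = ∫ t in Ioc (0 : ℝ) 1, Vf t y (1 / 2) ^ 2 := fun y =>
    intervalIntegral.integral_of_le zero_le_one
  have eE : ∀ f : ℂ → ℂ, (∮ s in C(1, dl), coef s * f s) = ∫ t in Ioc (0 : ℝ) (2 * π),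
      deriv (circleMap 1 dl) t * coef (circleMap 1 dl t) * f (circleMap 1 dl t) := fun f => by
    simp only [circleIntegral, smul_eq_mul, mul_assoc]
    exact intervalIntegral.integral_of_le (by positivity)
  obtain ⟨e1, e2, e3⟩ := swap (e_fam h3 hV) r
  obtain ⟨g1, g2, g3⟩ := swap (g_fam h3 hV) r
  have iA : Integrable (fun y : ℝ => (2 * Cp r y * Vr r y (1 / 2) + Vr r y (1 / 2) ^ 2) / y)
      (volume.restrict (Ioi 1)) := good_int ((a_good hV).add (v_good hV).sq) r
  have iD : Integrable (fun y : ℝ => Dd (y * (1 / Real.cosh r) : ℝ) / y) (volume.restrict (Ioi 1)) := by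
    simpa only [eD, integral_div, mul_one_div] using (fam_int (d_fam hV) r).integral_prod_left
  have eF : ∀ y : ℝ, Ft (y * Real.tanh r : ℝ) (y / Real.cosh r : ℝ) / y =
      (2 * Cp r y * Vr r y (1 / 2) + Vr r y (1 / 2) ^ 2) / y - Dd (y * (1 / Real.cosh r) : ℝ) / y -
      (2 * π * I : ℂ)⁻¹ * ((∫ t in Ioc (0 : ℝ) (2 * π), deriv (circleMap 1 dl) t *
        coef (circleMap 1 dl t) * Vr r y (circleMap 1 dl t)) / y) -
      (1 / (4 * π) : ℂ) * ((∫ t : ℝ, coef (sk t) * Vr r y (sk t)) / y) := fun y => by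
    rw [Ft, eE, mul_one_div]
    simp only [Cp, Vr]
    ring
  have sb : ∀ {f g : ℝ → ℂ}, Integrable f (volume.restrict (Ioi 1)) →
      Integrable g (volume.restrict (Ioi 1)) →
      Integrable (fun y => f y - g y) (volume.restrict (Ioi 1)) := fun a b => a.sub b
  have i2 := sb iA iD
  have i3 := sb i2 (e1.const_mul (2 * π * I : ℂ)⁻¹)
  have i4 := sb i3 (g1.const_mul (1 / (4 * π) : ℂ))
  refine ⟨?_, ?_, ?_, g2, ?_⟩
  · obtain ⟨a1, a2⟩ := hU.1 (Real.tanh r) (1 / Real.cosh r) (one_div_pos.2 hc)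
    refine setIntegral_congr_fun measurableSet_Ioi fun y hy => ?_
    obtain ⟨b1, b2⟩ := hU.1 (y * Real.tanh r) (y * (1 / Real.cosh r)) (mul_pos hy (one_div_pos.2 hc))
    simp only [Fc, ray]
    rw [a1, a2, b1, b2, mul_one_div]
  · simp only [Md, Real.tanh_neg, Real.cosh_neg, mul_neg, ofReal_neg, h1.2.2.2.1]
  · rw [circleIntegrable_iff, intervalIntegrable_iff_integrableOn_Ioc_of_le (by positivity)]
    simpa only [smul_eq_mul, mul_assoc, IntegrableOn] using e2
  · rw [Md, fold (Φ := fun y : ℝ => Ft (y * Real.tanh r : ℝ) (y / Real.cosh r : ℝ))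
      (fun y hy => inv hU h1 h2 r hy) (by simp only [eF]; exact i4)]
    simp only [eF]
    rw [integral_sub i3 (g1.const_mul _), integral_sub i2 (e1.const_mul _), integral_sub iA iD,
      integral_const_mul, integral_const_mul, eE, ← e3, ← g3]
    ring

end

end Pool.Agent.Lib.E2
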