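import Pool.Agent.Lib.E2.Blue

/-!
Block MAINR: the main identity on the real axis.
-/

namespace Pool.Agent.Lib.E2

open Complex MeasureTheory Set Filter Topology
open scoped Real

theorem t_mainr : T_MAINR := by
  intro hC hPI hPL hT hM r
  have ha : 0 < 1 / Real.cosh r := by have := Real.cosh_pos r; positivity
  obtain ⟨c1, c2, c3⟩ := hC _ ha
  obtain ⟨_, _, m1, m2, m3⟩ := hM r
  obtain ⟨t1, t2, t3, t4, t5, t6⟩ := hT r
  have p1 := hPL r
  have e1 : (∮ s in C(1, dl), coef s * Pif s r) = (∮ s in C(1, dl), coef s * PIl r s) -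
      ∮ s in C(1, dl), coef s * Zf (1 / Real.cosh r) s := by
    rw [← circleIntegral.integral_sub m1 c1]
    refine circleIntegral.integral_congr dl_pos.le fun s hs => ?_
    have h1 : ‖s - 1‖ = dl := by simpa [dist_eq_norm] using hs
    have h2 : |(s - 1).re| ≤ 1 / 10 := (abs_re_le_norm _).trans (h1 ▸ dl_le)
    rw [sub_re, one_re, abs_le] at h2
    have h3 : s ≠ 1 / 2 := fun h => by
      have : s.re = 1 / 2 := by rw [h]; simp
      linarith [h2.1]
    have h4 : s ≠ 1 := fun h => by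
      rw [h, sub_self, norm_zero] at h1
      exact dl_pos.ne h1
    show coef s * Pif s r = coef s * PIl r s - coef s * Zf (1 / Real.cosh r) s
    rw [hPI r s (by linarith [h2.1]) h3 h4]; ring
  have e2 : (∫ t : ℝ, coef (sk t) * Pif (sk t) r) = (∫ t : ℝ, coef (sk t) * PIl r (sk t)) -
      ∫ t : ℝ, coef (sk t) * Zf (1 / Real.cosh r) (sk t) := by
    rw [← integral_sub m2 c2]
    refine integral_congr_ae ?_
    have : ∀ᵐ t : ℝ, t ≠ 0 := by simp [ae_iff]
    filter_upwards [this] with t ht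
    have h1 : (sk t).re = 1 / 2 := by simp [sk]
    have h2 : (sk t).im = t := by simp [sk]
    have h3 : sk t ≠ 1 / 2 := fun h => ht (by rw [← h2, h]; simp)
    have h4 : sk t ≠ 1 := fun h => by rw [h] at h1; norm_num at h1
    rw [hPI r _ (by rw [h1]; norm_num) h3 h4]; ring
  have i1 : IntegrableOn (fun y : ℝ => (Vr r y (1 / 2) - Cm r y) ^ 2 / y) (Ioi 1) := by
    refine ((t3.sub (t2.const_mul 2)).add t4).congr (ae_of_all _ fun y => ?_)
    simp only [Pi.add_apply, Pi.sub_apply]; ring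
  have i2 : IntegrableOn (fun y : ℝ => Vr r y (1 / 2) * (Cp r y + Cm r y) / y) (Ioi 1) := by
    refine (t1.add t2).congr (ae_of_all _ fun y => ?_)
    simp only [Pi.add_apply]; ring
  have e3 : (∫ y in Ioi (1 : ℝ), (2 * Cp r y * Vr r y (1 / 2) + Vr r y (1 / 2) ^ 2) / y) =
      (∫ y in Ioi (1 : ℝ), (Vr r y (1 / 2) - Cm r y) ^ 2 / y) +
      2 * (∫ y in Ioi (1 : ℝ), Vr r y (1 / 2) * (Cp r y + Cm r y) / y) -
      ∫ y in Ioi (1 : ℝ), Cm r y ^ 2 / y := by
    have i3 : IntegrableOn (fun y : ℝ => (Vr r y (1 / 2) - Cm r y) ^ 2 / y +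
        2 * (Vr r y (1 / 2) * (Cp r y + Cm r y) / y)) (Ioi 1) := i1.add (i2.const_mul 2)
    rw [← integral_const_mul, ← integral_add i1 (i2.const_mul 2), ← integral_sub i3 t4]
    refine integral_congr_ae (ae_of_all _ fun y => ?_)
    ring
  unfold RR cont T3
  rw [m3, e1, e2, e3, t5, ← p1]
  linear_combination t6 - c3

end Pool.Agent.Lib.E2
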