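import Pool.Agent.Lib.E2.Blue2

/-!
Block MB: bound for the spectral sum in the whole strip.
-/

namespace Pool.Agent.Lib.E2

open Complex MeasureTheory Set Filter Topology
open scoped Real

namespace MB

theorem jf_bound (hJ : St_JB1) : ∃ C : ℝ, 0 ≤ C ∧ ∀ e ∈ Ioc (0 : ℝ) 1, ∀ r : ℂ,
    e ≤ π / 2 - |r.im| → ∀ k : ℝ,
    ‖Jf (sk k) r‖ ≤ Real.exp ((π / 2 - e) * |k|) * (C / e * Real.exp (-r.re / 2)) := by
  obtain ⟨C, hC⟩ := hJ.2.2.2.1
  refine ⟨|C|, abs_nonneg C, fun e he r hr k => ?_⟩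
  have h1 : (sk k).re = 1 / 2 := by simp [sk]
  have h2 : (sk k).im = k := by simp [sk]
  have h3 := hC (sk k) r (by rw [h1]; norm_num) (by rw [h1]; norm_num)
    (by show |r.im| < π / 2; linarith [he.1])
  rw [h1, h2] at h3
  have h4 : (π / 2 - |r.im|) ^ (-(1 / 2) : ℝ) ≤ 1 / e := by
    calc (π / 2 - |r.im|) ^ (-(1 / 2) : ℝ) ≤ e ^ (-(1 / 2) : ℝ) :=
          Real.rpow_le_rpow_of_nonpos he.1 hr (by norm_num)
      _ ≤ e ^ (-1 : ℝ) := Real.rpow_le_rpow_of_exponent_ge he.1 he.2 (by norm_num)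
      _ = 1 / e := by rw [Real.rpow_neg_one, one_div]
  have h5 : k * r.im ≤ (π / 2 - e) * |k| := by
    calc k * r.im ≤ |k * r.im| := le_abs_self _
      _ = |r.im| * |k| := by rw [abs_mul, mul_comm]
      _ ≤ (π / 2 - e) * |k| := by gcongr; linarith
  have h6 : Real.exp (k * r.im - 1 / 2 * r.re) ≤
      Real.exp ((π / 2 - e) * |k|) * Real.exp (-r.re / 2) := by
    rw [← Real.exp_add]; apply Real.exp_le_exp.2; linarith
  have h7 : 0 ≤ (π / 2 - |r.im|) ^ (-(1 / 2) : ℝ) := Real.rpow_nonneg (by linarith [he.1]) _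
  calc ‖Jf (sk k) r‖ ≤ _ := h3
    _ ≤ |C| * (Real.exp ((π / 2 - e) * |k|) * Real.exp (-r.re / 2)) * (1 / e) := by
        gcongr
        exact le_abs_self C
    _ = _ := by ring

theorem sum_bound {ι : Type} {k : ι → ℝ} {B : ι → ℂ} {a M : ℝ} {J : ι → ℂ} (hM : 0 ≤ M)
    (hs : Summable (fun i => ‖B i‖ * Real.exp (a * |k i|)))
    (hJ : ∀ i, ‖J i‖ ≤ Real.exp (a * |k i|) * M) :
    ‖∑' i, B i * J i‖ ≤ (∑' i, ‖B i‖ * Real.exp (a * |k i|)) * M := by
  rw [← tsum_mul_right]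
  refine tsum_of_norm_bounded (hs.mul_right M).hasSum fun i => ?_
  rw [norm_mul, mul_assoc]
  gcongr
  exact hJ i

end MB

theorem t_mb : T_MB := by
  intro hJ ι k B ⟨C1, n, hD, _⟩ ⟨_, C2, hB⟩
  obtain ⟨C, hC0, hC⟩ := MB.jf_bound hJ
  refine ⟨(|C1| + |C2|) * C, n + 2, fun e he r hr => ?_⟩
  have he0 := he.1
  set M : ℝ := C / e * Real.exp (-r.re / 2) with hM
  have hM0 : 0 ≤ M := by positivity
  have h1 := MB.sum_bound hM0 (hD e he).1 fun i => hC e he r hr (k i)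
  have h2 : ‖∫ t : ℝ, Bc t * Jf (sk t) r‖ ≤
      (∫ t : ℝ, ‖Bc t‖ * Real.exp ((π / 2 - e) * |t|)) * M := by
    rw [← integral_mul_const]
    refine norm_integral_le_of_norm_le ((hB e he).1.mul_const M) (ae_of_all _ fun t => ?_)
    rw [norm_mul, mul_assoc]
    gcongr
    exact hC e he r hr t
  have h3 : C1 / e ^ n ≤ |C1| / e ^ (n + 1) := by
    calc C1 / e ^ n ≤ |C1| / e ^ n := by gcongr; exact le_abs_self C1
      _ ≤ |C1| / e ^ (n + 1) :=
        div_le_div_of_nonneg_left (abs_nonneg _) (by positivity)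
          (pow_le_pow_of_le_one he0.le he.2 (Nat.le_succ n))
  have h4 : C2 * e ^ (-(3 / 4) : ℝ) ≤ |C2| / e ^ (n + 1) := by
    calc C2 * e ^ (-(3 / 4) : ℝ) ≤ |C2| * e ^ (-(3 / 4) : ℝ) := by
          gcongr; exact le_abs_self C2
      _ ≤ |C2| * e ^ (-((n + 1 : ℕ) : ℝ)) := by
          apply mul_le_mul_of_nonneg_left _ (abs_nonneg _)
          apply Real.rpow_le_rpow_of_exponent_ge he.1 he.2
          push_cast
          linarith [(Nat.cast_nonneg n : (0 : ℝ) ≤ n)]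
      _ = |C2| / e ^ (n + 1) := by
          rw [Real.rpow_neg he0.le, Real.rpow_natCast, div_eq_mul_inv]
  calc ‖Msum k B r‖ ≤ ‖∑' i, B i * Jf (sk (k i)) r‖ + ‖∫ t : ℝ, Bc t * Jf (sk t) r‖ :=
        norm_add_le _ _
    _ ≤ |C1| / e ^ (n + 1) * M + |C2| / e ^ (n + 1) * M := by
        refine add_le_add (h1.trans ?_) (h2.trans ?_)
        · exact mul_le_mul_of_nonneg_right ((hD e he).2.trans h3) hM0
        · exact mul_le_mul_of_nonneg_right ((hB e he).2.trans h4) hM0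
    _ = _ := by rw [hM]; field_simp; ring

end Pool.Agent.Lib.E2
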