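import Pool.Agent.Lib.E2.Blue

/-! Block MOM: a function killed by all `Lop a` at `z` is killed by every invariant kernel. -/

namespace Pool.Agent.Lib.E2

open Complex MeasureTheory Set Filter Topology
open scoped Real UpperHalfPlane

section abstract

variable {X : Type*} [MeasurableSpace X] {μ : Measure X} {t h : X → ℝ}

theorem mom_int (hh : Integrable h μ) {u : X → ℝ} (hu : Measurable u) (C : ℝ)
    (hb : ∀ w, |u w| ≤ C) : Integrable (fun w => u w * h w) μ :=
  hh.bdd_mul hu.aestronglyMeasurable (Eventually.of_forall hb)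

theorem mom_map (ht : Measurable t) (hh : AEMeasurable h μ) {K : ℝ → ℝ} (hK : Measurable K) :
    ∫ x, K x ∂((μ.withDensity fun w => ENNReal.ofReal (h w)).map t) =
      ∫ w, K (t w) * max (h w) 0 ∂μ := by
  rw [integral_map ht.aemeasurable hK.aestronglyMeasurable]
  have := integral_withDensity_eq_integral_smul₀ (μ := μ) (f := fun w => Real.toNNReal (h w))
    hh.real_toNNReal (fun w => K (t w))
  refine this.trans (integral_congr_ae (Eventually.of_forall fun w => ?_))
  simp only [NNReal.smul_def, Real.coe_toNNReal', smul_eq_mul, mul_comm]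

theorem mom_split (ht : Measurable t) (hh : AEMeasurable h μ) {K : ℝ → ℝ} (hK : Measurable K)
    (hi : Integrable (fun w => K (t w) * h w) μ) :
    ∫ w, K (t w) * h w ∂μ =
      ∫ x, K x ∂((μ.withDensity fun w => ENNReal.ofReal (h w)).map t) -
      ∫ x, K x ∂((μ.withDensity fun w => ENNReal.ofReal (-h w)).map t) := by
  have key : ∀ g : X → ℝ, AEMeasurable g μ → (∀ w, |g w| = |h w|) →
      Integrable (fun w => K (t w) * max (g w) 0) μ := fun g hg e => by
    refine hi.mono ((hK.comp ht).aemeasurable.mul (hg.max aemeasurable_const)).aestronglyMeasurable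
      (Eventually.of_forall fun w => ?_)
    rw [Real.norm_eq_abs, Real.norm_eq_abs, abs_mul, abs_mul, ← e w]
    refine mul_le_mul_of_nonneg_left ?_ (abs_nonneg _)
    rw [abs_of_nonneg (le_max_right _ _)]
    exact max_le (le_abs_self _) (abs_nonneg _)
  rw [mom_map ht hh hK, mom_map (h := fun w => -h w) ht hh.neg hK,
    ← integral_sub (key h hh fun _ => rfl) (key (fun w => -h w) hh.neg fun _ => abs_neg _)]
  refine integral_congr_ae (Eventually.of_forall fun w => ?_)
  show K (t w) * h w = K (t w) * max (h w) 0 - K (t w) * max (-h w) 0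
  rw [← mul_sub, max_zero_sub_max_neg_zero_eq_self]

/-- from continuous to measurable test functions -/
theorem mom_meas (ht : Measurable t) (hh : Integrable h μ)
    (H : ∀ g : ℝ → ℝ, Continuous g → ∫ w, g (t w) * h w ∂μ = 0) {K : ℝ → ℝ} (hK : Measurable K)
    (hi : Integrable (fun w => K (t w) * h w) μ) : ∫ w, K (t w) * h w ∂μ = 0 := by
  have h1 := isFiniteMeasure_withDensity_ofReal hh.2
  have h2 : IsFiniteMeasure (μ.withDensity fun w => ENNReal.ofReal (-h w)) :=
    isFiniteMeasure_withDensity_ofReal hh.neg.2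
  have e : (μ.withDensity fun w => ENNReal.ofReal (h w)).map t =
      (μ.withDensity fun w => ENNReal.ofReal (-h w)).map t := by
    refine ext_of_forall_integral_eq_of_IsFiniteMeasure fun g => ?_
    have hg : Measurable g := g.continuous.measurable
    have := mom_split ht hh.aemeasurable hg
      (mom_int hh (hg.comp ht) ‖g‖ fun w => g.norm_coe_le_norm (t w))
    rw [H g g.continuous] at this
    exact sub_eq_zero.1 this.symm
  rw [mom_split ht hh.aemeasurable hK hi, e, sub_self]

/-- from moments to continuous test functions -/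
theorem mom_cont (ht : Measurable t) (h01 : ∀ w, t w ∈ Icc (0 : ℝ) 1) (hh : Integrable h μ)
    (H : ∀ n : ℕ, ∫ w, t w ^ n * h w ∂μ = 0) (g : ℝ → ℝ) (hg : Continuous g) :
    ∫ w, g (t w) * h w ∂μ = 0 := by
  have hint : ∀ g : ℝ → ℝ, Continuous g → Integrable (fun w => g (t w) * h w) μ := fun g hg => by
    obtain ⟨C, hC⟩ := isCompact_Icc.exists_bound_of_continuousOn (s := Icc (0 : ℝ) 1) hg.continuousOn
    exact mom_int hh (hg.measurable.comp ht) C fun w => hC _ (h01 w)
  have hp : ∀ p : Polynomial ℝ, ∫ w, p.eval (t w) * h w ∂μ = 0 := fun p => by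
    induction p using Polynomial.induction_on' with
    | add p q hp hq =>
      simp only [Polynomial.eval_add, add_mul]
      rw [integral_add (hint _ p.continuous) (hint _ q.continuous), hp, hq, add_zero]
    | monomial n a =>
      simp only [Polynomial.eval_monomial, mul_assoc]
      rw [integral_const_mul, H n, mul_zero]
  have hA : 0 ≤ ∫ w, |h w| ∂μ := integral_nonneg fun _ => abs_nonneg _
  have hle : ∀ ε : ℝ, 0 < ε → |∫ w, g (t w) * h w ∂μ| ≤ ε * ∫ w, |h w| ∂μ := fun ε hε => by
    obtain ⟨p, hpε⟩ := exists_polynomial_near_of_continuousOn 0 1 g hg.continuousOn ε hε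
    have e : ∫ w, g (t w) * h w ∂μ = ∫ w, (g (t w) * h w - p.eval (t w) * h w) ∂μ := by
      rw [integral_sub (hint g hg) (hint _ p.continuous), hp, sub_zero]
    rw [e, ← integral_const_mul, ← Real.norm_eq_abs]
    refine norm_integral_le_of_norm_le (hh.abs.const_mul ε) (Eventually.of_forall fun w => ?_)
    rw [← sub_mul, Real.norm_eq_abs, abs_mul, abs_sub_comm]
    exact mul_le_mul_of_nonneg_right (hpε _ (h01 w)).le (abs_nonneg _)
  refine abs_nonpos_iff.1 (le_of_forall_pos_le_add fun δ hδ => ?_)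
  refine (hle (δ / (∫ w, |h w| ∂μ + 1)) (by positivity)).trans ?_
  rw [zero_add, div_mul_eq_mul_div, div_le_iff₀ (by positivity)]
  nlinarith

theorem mom_base {x s : ℝ} (hx : x ∈ Ioo (-(1 / 2) : ℝ) (1 / 2)) (hs : s ∈ Icc (0 : ℝ) 1) :
    1 / 2 ≤ 1 - x * s := by
  nlinarith [hx.1, hx.2, hs.1, hs.2]

theorem mom_bd {x s : ℝ} (hx : x ∈ Ioo (-(1 / 2) : ℝ) (1 / 2)) (hs : s ∈ Icc (0 : ℝ) 1) (n : ℕ)
    {p : ℝ} (hp : p ≤ 0) : |s ^ n * (1 - x * s) ^ p| ≤ (1 / 2) ^ p := by
  have h1 := mom_base hx hs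
  have h2 : (1 - x * s) ^ p ≤ (1 / 2 : ℝ) ^ p := Real.rpow_le_rpow_of_nonpos (by norm_num) h1 hp
  have h3 : 0 ≤ (1 - x * s) ^ p := Real.rpow_nonneg (by linarith) _
  have h4 : s ^ n ≤ 1 := pow_le_one₀ hs.1 hs.2
  have h5 : 0 ≤ s ^ n := pow_nonneg hs.1 _
  rw [abs_of_nonneg (mul_nonneg h5 h3)]
  nlinarith

/-- vanishing of the moments -/
theorem mom_pow (ht : Measurable t) (h01 : ∀ w, t w ∈ Icc (0 : ℝ) 1) (hh : Integrable h μ)
    (H : ∀ x ∈ Ioo (-(1 / 2) : ℝ) (1 / 2), ∫ w, (1 - x * t w) ^ (-(3 / 2) : ℝ) * h w ∂μ = 0)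
    (n : ℕ) : ∫ w, t w ^ n * h w ∂μ = 0 := by
  have hm : ∀ (n : ℕ) (x p : ℝ), Measurable fun w => t w ^ n * (1 - x * t w) ^ p := fun n x p => by
    fun_prop
  have key : ∀ n : ℕ, ∀ x ∈ Ioo (-(1 / 2) : ℝ) (1 / 2),
      ∫ w, t w ^ n * (1 - x * t w) ^ (-(3 / 2) - n : ℝ) * h w ∂μ = 0 := by
    intro n
    induction n with
    | zero => intro x hx; simpa using H x hx
    | succ n ih =>
      intro x hx
      have hn : (0 : ℝ) ≤ n := Nat.cast_nonneg n
      have hs : Ioo (-(1 / 2) : ℝ) (1 / 2) ∈ 𝓝 x := Ioo_mem_nhds hx.1 hx.2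
      have hi : ∀ (m : ℕ) (p : ℝ), p ≤ 0 → ∀ y ∈ Ioo (-(1 / 2) : ℝ) (1 / 2),
          Integrable (fun w => t w ^ m * (1 - y * t w) ^ p * h w) μ := fun m p hp y hy =>
        mom_int hh (hm m y p) _ fun w => mom_bd hy (h01 w) m hp
      have hD := (hasDerivAt_integral_of_dominated_loc_of_deriv_le (μ := μ)
        (F := fun y w => t w ^ n * (1 - y * t w) ^ (-(3 / 2) - n : ℝ) * h w)
        (F' := fun y w => (3 / 2 + n) *
          (t w ^ (n + 1) * (1 - y * t w) ^ (-(3 / 2) - (n + 1 : ℕ) : ℝ) * h w))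
        (bound := fun w => (3 / 2 + n) * ((1 / 2) ^ (-(3 / 2) - (n + 1 : ℕ) : ℝ) * |h w|)) hs
        (by filter_upwards [hs] with y hy using (hi n _ (by linarith) y hy).1)
        (hi n _ (by linarith) x hx)
        ((hi (n + 1) _ (by push_cast; linarith) x hx).const_mul _).1
        (Eventually.of_forall fun w y hy => by
          rw [Real.norm_eq_abs, abs_mul, abs_mul, abs_of_nonneg (by linarith : (0 : ℝ) ≤ 3 / 2 + n)]
          refine mul_le_mul_of_nonneg_left (mul_le_mul_of_nonneg_right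
            (mom_bd hy (h01 w) _ (by push_cast; linarith)) (abs_nonneg _)) (by linarith))
        ((hh.abs.const_mul _).const_mul _)
        (Eventually.of_forall fun w y hy => by
          have h1 := mom_base hy (h01 w)
          have h2 : HasDerivAt (fun y : ℝ => 1 - y * t w) (-t w) y := by
            simpa using ((hasDerivAt_id y).mul_const (t w)).const_sub 1
          have h3 := ((h2.rpow_const (p := -(3 / 2) - n) (Or.inl (by linarith))).const_mul
            (t w ^ n)).mul_const (h w)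
          refine h3.congr_deriv ?_
          have e : (-(3 / 2) - n - 1 : ℝ) = -(3 / 2) - (n + 1 : ℕ) := by push_cast; ring
          rw [e]
          ring)).2
      have h0 : HasDerivAt (fun y => ∫ w, t w ^ n * (1 - y * t w) ^ (-(3 / 2) - n : ℝ) * h w ∂μ)
          0 x := by
        refine (hasDerivAt_const x (0 : ℝ)).congr_of_eventuallyEq ?_
        filter_upwards [hs] with y hy using ih y hy
      have h1 := hD.unique h0
      rw [integral_const_mul] at h1
      exact (mul_eq_zero.1 h1).resolve_left (by linarith)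
  simpa using key n 0 ⟨by norm_num, by norm_num⟩

/-- the complex valued version -/
theorem mom_cx {F : X → ℂ} (ht : Measurable t) (h01 : ∀ w, t w ∈ Icc (0 : ℝ) 1)
    (hF : Integrable F μ)
    (H : ∀ x ∈ Ioo (-(1 / 2) : ℝ) (1 / 2),
      ∫ w, (((1 - x * t w) ^ (-(3 / 2) : ℝ) : ℝ) : ℂ) * F w ∂μ = 0)
    {K : ℝ → ℝ} (hK : Measurable K) (hi : Integrable (fun w => (K (t w) : ℂ) * F w) μ) :
    ∫ w, (K (t w) : ℂ) * F w ∂μ = 0 := by
  have key : ∀ L : ℂ →L[ℝ] ℝ, L (∫ w, (K (t w) : ℂ) * F w ∂μ) = 0 := fun L => by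
    have e : ∀ (r : ℝ) (c : ℂ), L ((r : ℂ) * c) = r * L c := fun r c => by
      rw [← Complex.real_smul, map_smul, smul_eq_mul]
    have hh : Integrable (fun w => L (F w)) μ := L.integrable_comp hF
    have h1 := mom_pow ht h01 hh fun x hx => by
      have hi' : Integrable (fun w => (((1 - x * t w) ^ (-(3 / 2) : ℝ) : ℝ) : ℂ) * F w) μ := by
        refine hF.bdd_mul (c := (1 / 2) ^ (-(3 / 2) : ℝ))
          (Measurable.aestronglyMeasurable (Complex.measurable_ofReal.comp (by fun_prop)))
          (Eventually.of_forall fun w => ?_)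
        rw [Complex.norm_real, Real.norm_eq_abs]
        simpa using mom_bd hx (h01 w) 0 (p := -(3 / 2)) (by norm_num)
      have := L.integral_comp_comm hi'
      rw [H x hx, map_zero] at this
      simpa only [e] using this
    have h2 := mom_meas ht hh (mom_cont ht h01 hh h1) hK
      (by simpa only [e, Function.comp_def] using L.integrable_comp hi)
    rw [← L.integral_comp_comm hi]
    simpa only [e] using h2
  exact Complex.ext (key Complex.reCLM) (key Complex.imCLM)

end abstract

theorem t_mom : T_MOM := by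
  intro hG _ hK f z hf hL k hk hi
  have hq1 : ∀ w, 1 ≤ qd z w := fun w => (hG.2.1 z w).1
  have hq0 : ∀ w, 0 < qd z w := fun w => one_pos.trans_le (hq1 w)
  have hqm : Measurable fun w => qd z w :=
    (hG.2.2.1.comp (continuous_const.prodMk continuous_id)).measurable
  have hF : Integrable fun w : ℍ => ((qd z w ^ (-(3 / 2) : ℝ) : ℝ) : ℂ) * f w := by
    simpa [ka] using hK.2.2.1 f hf (π / 2) (by simp) z
  have e : ∀ w, ((k ((qd z w)⁻¹)⁻¹ * ((qd z w)⁻¹)⁻¹ ^ (3 / 2 : ℝ) : ℝ) : ℂ) *
      (((qd z w ^ (-(3 / 2) : ℝ) : ℝ) : ℂ) * f w) = (k (qd z w) : ℂ) * f w := fun w => by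
    rw [inv_inv, ← mul_assoc, ← Complex.ofReal_mul, mul_assoc, ← Real.rpow_add (hq0 w)]
    simp
  have := mom_cx (μ := volume) (t := fun w => (qd z w)⁻¹) hqm.inv
    (fun w => ⟨(inv_pos.2 (hq0 w)).le, inv_le_one_of_one_le₀ (hq1 w)⟩) hF
    (fun x hx => by
      have h1 : Real.cos (Real.arccos x) = x :=
        Real.cos_arccos (by linarith [hx.1]) (by linarith [hx.2])
      have h2 := hL (Real.arccos x) ⟨Real.arccos_pos.2 (by linarith [hx.2]),
        Real.arccos_lt_pi.2 (by linarith [hx.1])⟩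
      rw [← h2]
      refine integral_congr_ae (Eventually.of_forall fun w => ?_)
      have h3 : 0 ≤ 1 - x * (qd z w)⁻¹ := by
        linarith [mom_base hx ⟨(inv_pos.2 (hq0 w)).le, inv_le_one_of_one_le₀ (hq1 w)⟩]
      have h4 : (1 - x * (qd z w)⁻¹) * qd z w = qd z w - x := by
        field_simp [(hq0 w).ne']
      show _ = ((ka (Real.arccos x) (qd z w) : ℝ) : ℂ) * f w
      beta_reduce
      rw [← mul_assoc, ← Complex.ofReal_mul, ← Real.mul_rpow h3 (hq0 w).le, h4, ka, h1])
    (K := fun s => k s⁻¹ * s⁻¹ ^ (3 / 2 : ℝ)) (by fun_prop) (by simpa only [e] using hi)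
  simpa only [e, Rop] using this

end Pool.Agent.Lib.E2
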