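import Pool.Agent.Lib.E2.Blue

/-! Block NB: the kernel `Nf`. -/

namespace Pool.Agent.Lib.E2

noncomputable section

open Complex MeasureTheory Set Filter Topology
open scoped Real

namespace NB

theorem sinh_eq (r : ℂ) : sinh r =
    (Real.sinh r.re * Real.cos r.im : ℝ) + (Real.cosh r.re * Real.sin r.im : ℝ) * I := by
  conv_lhs => rw [← re_add_im r, sinh_add, cosh_mul_I, sinh_mul_I]
  push_cast
  ring

theorem cos_pos {r : ℂ} (h : r ∈ Str) : 0 < Real.cos r.im :=
  Real.cos_pos_of_mem_Ioo (abs_lt.1 h)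

theorem neg_mem {r : ℂ} (h : r ∈ Str) : -r ∈ Str := by simpa [Str] using h

theorem key {a b s q x : ℝ} (ha : 1 ≤ a) (hb : a ≤ b) (q1 : q ≤ 1) (q2 : q ≤ 2 * (1 - s))
    (hx : x ≤ 2 * b) (q0 : 0 ≤ q) : q / 9 * x ≤ b - a * s := by
  have := mul_le_mul_of_nonneg_left hx q0
  rcases le_total 0 s with h | h
  · nlinarith [mul_le_mul_of_nonneg_right hb h, mul_le_mul_of_nonneg_right q2 (show 0 ≤ b by linarith)]
  · nlinarith [mul_le_mul_of_nonneg_right q1 (show 0 ≤ b by linarith)]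

theorem low {r : ℂ} (h : r ∈ Str) {c : ℝ} (hc : 1 ≤ c) : (c : ℂ) + I * sinh r ∈ slitPlane ∧
    Real.cos r.im ^ 2 / 9 * (c + ‖sinh r‖) ≤ ‖(c : ℂ) + I * sinh r‖ := by
  have b := cos_pos h
  have t := Real.sin_sq_add_cos_sq r.im
  have a := Real.one_le_cosh r.re
  have q := Real.cosh_sq r.re
  have s1 := Real.sin_le_one r.im
  have e1 : ((c : ℂ) + I * sinh r).re = c - Real.cosh r.re * Real.sin r.im := by
    rw [sinh_eq]; simp only [add_re, mul_re, ofReal_re, ofReal_im, I_re, I_im, add_im, mul_im]; ring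
  have e2 : ((c : ℂ) + I * sinh r).im = Real.sinh r.re * Real.cos r.im := by
    rw [sinh_eq]; simp only [add_re, mul_re, ofReal_re, ofReal_im, I_re, I_im, add_im, mul_im]; ring
  have x : ‖sinh r‖ ≤ Real.cosh r.re := by
    refine abs_le_of_sq_le_sq' ?_ (by linarith) |>.2
    rw [sinh_eq, ← normSq_eq_norm_sq, normSq_add_mul_I]
    nlinarith [sq_nonneg (Real.cos r.im)]
  have n : ‖(c : ℂ) + I * sinh r‖ ^ 2 = (c - Real.cosh r.re * Real.sin r.im) ^ 2 +
      (Real.sinh r.re * Real.cos r.im) ^ 2 := by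
    rw [← normSq_eq_norm_sq, normSq_apply, e1, e2]; ring
  have u : Real.cos r.im ^ 2 ≤ 2 * (1 - Real.sin r.im) := by nlinarith [sq_nonneg (1 - Real.sin r.im)]
  have x0 := norm_nonneg (sinh r)
  refine ⟨?_, ?_⟩
  · rw [mem_slitPlane_iff, e1, e2]
    by_cases s0 : Real.sinh r.re = 0
    · have : Real.cosh r.re = 1 := by nlinarith
      left
      nlinarith [pow_pos b 2]
    · exact Or.inr (mul_ne_zero s0 b.ne')
  · have b1 : Real.cos r.im ^ 2 ≤ 1 := Real.cos_sq_le_one _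
    rcases le_total (Real.cosh r.re) c with k | k
    · exact (key a k b1 u (by linarith) (sq_nonneg _)).trans (e1 ▸ re_le_norm _)
    · refine (key hc k b1 u (by linarith) (sq_nonneg _)).trans (abs_le_of_sq_le_sq' ?_ (norm_nonneg _)).2
      rw [n]
      nlinarith [mul_nonneg (sq_nonneg (Real.cos r.im)) (show 0 ≤ c ^ 2 - 1 by nlinarith)]

theorem low' {r : ℂ} (h : r ∈ Str) {c : ℝ} (hc : 1 ≤ c) : (c : ℂ) - I * sinh r ∈ slitPlane ∧
    Real.cos r.im ^ 2 / 9 * (c + ‖sinh r‖) ≤ ‖(c : ℂ) - I * sinh r‖ := by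
  simpa [sub_eq_add_neg] using low (neg_mem h) hc

theorem nb {w s : ℂ} (hw : w ∈ slitPlane) {a l : ℝ} (ha : |arg w| ≤ a) (l0 : 0 < l) (hl : l ≤ ‖w‖)
    (hs : 0 ≤ s.re) : ‖w ^ (-s)‖ ≤ l ^ (-s.re) * Real.exp (a * |s.im|) := by
  rw [norm_cpow_of_ne_zero (slitPlane_ne_zero hw), div_eq_mul_inv, ← Real.exp_neg, neg_re, neg_im,
    mul_neg, neg_neg]
  refine mul_le_mul (Real.rpow_le_rpow_of_nonpos l0 hl (by linarith)) (Real.exp_le_exp.2 ?_)
    (by positivity) (by positivity)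
  exact (le_abs_self _).trans (by rw [abs_mul]; gcongr)

theorem hI (hB : St_BET) {a : ℝ} (ha : 0 < a) : Integrable fun v : ℝ => Real.cosh v ^ (-a) := by
  refine ((hB.1 (a / 2 : ℝ) (by simpa using ha)).2.2.2.2.2.1.norm).congr
    (Eventually.of_forall fun v => ?_)
  dsimp only
  rw [norm_cpow_eq_rpow_re_of_pos (Real.cosh_pos v)]
  congr 1
  simp
  ring

/-- the bound on compact parameter sets -/
theorem bd {w s : ℂ} (hw : w ∈ slitPlane) {k c x m M T : ℝ} (k0 : 0 < k) (k1 : k ≤ 1) (hc : 1 ≤ c)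
    (hx : 0 ≤ x) (hl : k * (c + x) ≤ ‖w‖) (m0 : 0 ≤ m) (h1 : m ≤ s.re) (h2 : s.re ≤ M)
    (h3 : |s.im| ≤ T) :
    ‖w ^ (-s)‖ ≤ k ^ (-M) * Real.exp (π * T) * (1 + x) ^ (m - s.re) * c ^ (-m) := by
  have cx : 0 < c + x := by linarith
  refine (nb hw (abs_arg_le_pi w) (by positivity) hl (by linarith)).trans ?_
  rw [Real.mul_rpow k0.le cx.le, show -s.re = (m - s.re) + -m by ring, Real.rpow_add cx,
    show m - s.re + -m = -s.re by ring]
  calc _ ≤ k ^ (-M) * ((1 + x) ^ (m - s.re) * c ^ (-m)) * Real.exp (π * T) := by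
        gcongr ?_ * (?_ * ?_) * Real.exp (π * ?_)
        · exact Real.rpow_le_rpow_of_exponent_ge k0 k1 (by linarith)
        · exact Real.rpow_le_rpow_of_nonpos (by linarith) (by linarith) (by linarith)
        · exact Real.rpow_le_rpow_of_nonpos (by linarith) (by linarith) (by linarith)
    _ = _ := by ring

/-- the integrand -/
def G (s r : ℂ) (v : ℝ) : ℂ :=
  ((Real.cosh v : ℂ) + I * sinh r) ^ (-s) + ((Real.cosh v : ℂ) - I * sinh r) ^ (-s)

theorem Gbd {s r : ℂ} (hr : r ∈ Str) {k m M T : ℝ} (k0 : 0 < k) (k1 : k ≤ Real.cos r.im ^ 2 / 9)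
    (m0 : 0 ≤ m) (h1 : m ≤ s.re) (h2 : s.re ≤ M) (h3 : |s.im| ≤ T) (v : ℝ) :
    ‖G s r v‖ ≤ 2 * (k ^ (-M) * Real.exp (π * T) * (1 + ‖sinh r‖) ^ (m - s.re)) *
      Real.cosh v ^ (-m) := by
  have c := Real.one_le_cosh v
  have k2 : k ≤ 1 := by linarith [Real.cos_sq_le_one r.im]
  have l : k * (Real.cosh v + ‖sinh r‖) ≤ Real.cos r.im ^ 2 / 9 * (Real.cosh v + ‖sinh r‖) := by
    gcongr
  have a := bd (low hr c).1 k0 k2 c (norm_nonneg _) (l.trans (low hr c).2) m0 h1 h2 h3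
  have b := bd (low' hr c).1 k0 k2 c (norm_nonneg _) (l.trans (low' hr c).2) m0 h1 h2 h3
  exact (norm_add_le _ _).trans (by linarith)

theorem cont {r : ℂ} (hr : r ∈ Str) (s : ℂ) :
    Continuous fun v : ℝ => ((Real.cosh v : ℂ) + I * sinh r) ^ (-s) :=
  Continuous.cpow (by fun_prop) continuous_const fun v => (low hr (Real.one_le_cosh v)).1

theorem Gcont {r : ℂ} (hr : r ∈ Str) (s : ℂ) : Continuous (G s r) :=
  (cont hr s).add
    (Continuous.cpow (by fun_prop) continuous_const fun v => (low' hr (Real.one_le_cosh v)).1)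

theorem int (hB : St_BET) {s r : ℂ} (hs : 0 < s.re) (hr : r ∈ Str) :
    Integrable fun v : ℝ => ((Real.cosh v : ℂ) + I * sinh r) ^ (-s) :=
  ((hI hB hs).const_mul _).mono' (cont hr s).aestronglyMeasurable (Eventually.of_forall fun v =>
    bd (low hr (Real.one_le_cosh v)).1 (by have := cos_pos hr; positivity)
      (by linarith [Real.cos_sq_le_one r.im]) (Real.one_le_cosh v) (norm_nonneg _)
      (low hr (Real.one_le_cosh v)).2 hs.le le_rfl le_rfl le_rfl)

theorem loc (hB : St_BET) {p : ℂ × ℂ} (hp : p ∈ DS) : ∃ g : ℝ → ℝ, Integrable g ∧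
    ∀ᶠ q in 𝓝 p, q ∈ DS ∧ ∀ v, ‖G q.1 q.2 v‖ ≤ g v := by
  have s0 : 0 < p.1.re := hp.1
  have b := cos_pos hp.2
  refine ⟨_, (hI hB (half_pos s0)).const_mul (2 * ((Real.cos p.2.im ^ 2 / 10) ^ (-(p.1.re + 1)) *
    Real.exp (π * (|p.1.im| + 1)))), ?_⟩
  have e1 : ∀ᶠ q : ℂ × ℂ in 𝓝 p, p.1.re / 2 < q.1.re :=
    (by fun_prop : ContinuousAt (fun q : ℂ × ℂ => q.1.re) p).eventually_const_lt (half_lt_self s0)
  have e2 : ∀ᶠ q : ℂ × ℂ in 𝓝 p, q.1.re < p.1.re + 1 :=
    (by fun_prop : ContinuousAt (fun q : ℂ × ℂ => q.1.re) p).eventually_lt_const (lt_add_one _)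
  have e3 : ∀ᶠ q : ℂ × ℂ in 𝓝 p, |q.1.im| < |p.1.im| + 1 :=
    (by fun_prop : ContinuousAt (fun q : ℂ × ℂ => |q.1.im|) p).eventually_lt_const (lt_add_one _)
  have e4 : ∀ᶠ q : ℂ × ℂ in 𝓝 p, |q.2.im| < π / 2 :=
    (by fun_prop : ContinuousAt (fun q : ℂ × ℂ => |q.2.im|) p).eventually_lt_const hp.2
  have e5 : ∀ᶠ q : ℂ × ℂ in 𝓝 p, Real.cos p.2.im ^ 2 / 10 < Real.cos q.2.im ^ 2 / 9 :=
    (by fun_prop : ContinuousAt (fun q : ℂ × ℂ => Real.cos q.2.im ^ 2 / 9) p).eventually_const_lt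
      (by linarith [pow_pos b 2])
  filter_upwards [e1, e2, e3, e4, e5] with q q1 q2 q3 q4 q5
  refine ⟨⟨by linarith, q4⟩, fun v => (Gbd q4 (by positivity) q5.le (half_pos s0).le q1.le q2.le
    q3.le v).trans ?_⟩
  have := Real.cosh_pos v
  refine mul_le_mul_of_nonneg_right (mul_le_mul_of_nonneg_left ?_ two_pos.le) (by positivity)
  exact mul_le_of_le_one_right (by positivity)
    (Real.rpow_le_one_of_one_le_of_nonpos (le_add_of_nonneg_right (norm_nonneg _))
      (sub_nonpos.2 q1.le))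

end NB

open NB in
theorem t_nb : T_NB := by
  intro hP hB
  refine ⟨fun s r hs hr => ⟨int hB hs hr, by simpa [sub_eq_add_neg] using int hB hs (neg_mem hr)⟩,
    fun p hp => ?_, fun U X Y hU hX hY h => ?_,
    fun r hr c hc => ⟨(low hr hc).1, (low' hr hc).1, (low hr hc).2, (low' hr hc).2⟩,
    ⟨2 * 36 ^ 2 * ∫ v, Real.cosh v ^ (-(1 / 8 : ℝ)), fun s r h1 h2 hr => ?_⟩, fun r => ?_⟩
  · obtain ⟨g, g1, g2⟩ := loc hB hp
    refine (continuousAt_of_dominated (F := fun q : ℂ × ℂ => G q.1 q.2)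
      (g2.mono fun q hq => (Gcont hq.1.2 _).aestronglyMeasurable)
      (g2.mono fun q hq => Eventually.of_forall hq.2) g1
      (Eventually.of_forall fun v => ?_)).continuousWithinAt
    exact (ContinuousAt.cpow (f := fun q : ℂ × ℂ => (Real.cosh v : ℂ) + I * sinh q.2)
      (g := fun q => -q.1) (by fun_prop) (by fun_prop) (low hp.2 (Real.one_le_cosh v)).1).add
      (ContinuousAt.cpow (f := fun q : ℂ × ℂ => (Real.cosh v : ℂ) - I * sinh q.2)
        (g := fun q => -q.1) (by fun_prop) (by fun_prop) (low' hp.2 (Real.one_le_cosh v)).1)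
  · refine (hP.1 ℝ volume (fun c v => G (X c) (Y c) v) U hU
      (fun z hz => (Gcont (h z hz).2 _).aestronglyMeasurable) (Eventually.of_forall fun v => ?_)
      fun z hz => ?_).1
    · have d : DifferentiableOn ℂ (fun c => I * sinh (Y c)) U := hY.csinh.const_mul I
      exact ((d.const_add _).cpow hX.neg fun c hc => (low (h c hc).2 (Real.one_le_cosh v)).1).add
        ((d.const_sub _).cpow hX.neg fun c hc => (low' (h c hc).2 (Real.one_le_cosh v)).1)
    · obtain ⟨g, g1, g2⟩ := loc hB (h z hz)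
      obtain ⟨d, d0, hd⟩ := Metric.eventually_nhds_iff.1
        (((hX.continuousOn.continuousAt (hU.mem_nhds hz)).prodMk
          (hY.continuousOn.continuousAt (hU.mem_nhds hz))).eventually g2)
      exact ⟨d, d0, g, g1, Eventually.of_forall fun v w _ hw => (hd (by rwa [dist_eq_norm])).2 v⟩
  · have d0 : 0 < π / 2 - |r.im| := sub_pos.2 hr
    have c := Real.one_sub_mul_le_cos (abs_nonneg r.im) hr.le
    rw [Real.cos_abs] at c
    have c2 : (π / 2 - |r.im|) / 2 ≤ Real.cos r.im := by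
      refine le_trans ?_ c
      rw [show 1 - 2 / π * |r.im| = (π / 2 - |r.im|) / (π / 2) by field_simp]
      gcongr
      linarith [Real.pi_le_four]
    refine (norm_integral_le_of_norm_le ((hI hB (by norm_num)).const_mul _)
      (Eventually.of_forall (Gbd (k := (π / 2 - |r.im|) ^ 2 / 36) (m := 1 / 8) hr (by positivity)
        (by nlinarith [pow_le_pow_left₀ (by positivity) c2 2]) (by norm_num) (by linarith) h2
        le_rfl))).trans_eq ?_
    rw [integral_const_mul, Real.rpow_neg (by positivity), Real.rpow_two]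
    field_simp
  · refine ⟨2 * ∫ v, Real.cosh v ^ (-(1 / 4 : ℝ)), Real.arcsin (|Real.sinh r| / Real.cosh r),
      Real.arcsin_lt_pi_div_two.2 ((div_lt_one (Real.cosh_pos r)).2 ?_), fun s h1 h2 => ?_⟩
    · rw [Real.abs_sinh, ← Real.cosh_abs]
      exact Real.sinh_lt_cosh _
    have k : ∀ (v : ℝ) (w : ℂ), w.re = Real.cosh v → |w.im| = |Real.sinh r| → ‖w ^ (-s)‖ ≤
        Real.exp (Real.arcsin (|Real.sinh r| / Real.cosh r) * |s.im|) *
          Real.cosh v ^ (-(1 / 4 : ℝ)) := fun v w e1 e2 => by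
      have c := Real.one_le_cosh v
      have n : Real.cosh r ≤ ‖w‖ := by
        refine (abs_le_of_sq_le_sq' ?_ (norm_nonneg _)).2
        rw [← normSq_eq_norm_sq, normSq_apply, e1, Real.cosh_sq, ← sq_abs, ← e2, sq_abs]
        nlinarith
      have q : |w.im / ‖w‖| ≤ |Real.sinh r| / Real.cosh r := by
        rw [abs_div, e2, abs_norm]
        gcongr
      have a : |arg w| ≤ Real.arcsin (|Real.sinh r| / Real.cosh r) := by
        rw [arg_of_re_nonneg (by linarith), abs_le, ← Real.arcsin_neg]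
        exact ⟨Real.monotone_arcsin (abs_le.1 q).1, Real.monotone_arcsin (abs_le.1 q).2⟩
      refine (nb (Or.inl (by linarith)) a (Real.cosh_pos v) (e1 ▸ re_le_norm w) (by linarith)).trans ?_
      rw [mul_comm]
      gcongr ?_ * ?_
      exact Real.rpow_le_rpow_of_exponent_le c (by linarith)
    refine (norm_integral_le_of_norm_le ((hI hB (a := 1 / 4) (by norm_num)).const_mul
      (2 * Real.exp (Real.arcsin (|Real.sinh r| / Real.cosh r) * |s.im|)))
      (Eventually.of_forall fun v => (norm_add_le _ _).trans ?_)).trans_eq ?_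
    · have a := k v (Real.cosh v + I * sinh r) (by simp [cosh_ofReal_re]) (by simp [sinh_ofReal_re])
      have b := k v (Real.cosh v - I * sinh r) (by simp [cosh_ofReal_re]) (by simp [sinh_ofReal_re])
      linarith
    · rw [integral_const_mul]
      ring

end

end Pool.Agent.Lib.E2
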