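import Pool.Agent.Lib.E2.Blue

namespace Pool.Agent.Lib.E2

noncomputable section

open Complex MeasureTheory Set Filter Topology
open scoped Real

namespace ODEx

/-- `U` with its two derivatives solves the radial equation -/
def Sol (U U1 U2 : ℝ → ℂ) (lam : ℂ) : Prop := ∀ r : ℝ,
  HasDerivAt U (U1 r) r ∧ HasDerivAt U1 (U2 r) r ∧ U2 r + Real.tanh r * U1 r + lam * U r = 0

theorem wr {A A1 A2 B B1 B2 : ℝ → ℂ} {lam : ℂ} (hA : Sol A A1 A2 lam) (hB : Sol B B1 B2 lam)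
    (r : ℝ) : (Real.cosh r : ℂ) * (A r * B1 r - A1 r * B r) = A 0 * B1 0 - A1 0 * B 0 := by
  have d : ∀ r, HasDerivAt (fun r => (Real.cosh r : ℂ) * (A r * B1 r - A1 r * B r)) 0 r := by
    intro r
    obtain ⟨a1, a2, a3⟩ := hA r
    obtain ⟨b1, b2, b3⟩ := hB r
    refine ((Real.hasDerivAt_cosh r).ofReal_comp.mul ((a1.mul b2).sub (a2.mul b1))).congr_deriv ?_
    have c0 : ((Real.cosh r : ℝ) : ℂ) ≠ 0 := ofReal_ne_zero.2 (Real.cosh_pos r).ne'
    have t : ((Real.sinh r : ℝ) : ℂ) = (Real.cosh r : ℝ) * (Real.tanh r : ℝ) := by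
      rw [Real.tanh_eq_sinh_div_cosh, ofReal_div]; field_simp
    simp only [Pi.sub_apply, Pi.mul_apply]
    rw [t]
    linear_combination (Real.cosh r : ℂ) * A r * b3 - (Real.cosh r : ℂ) * B r * a3
  have := is_const_of_deriv_eq_zero (fun r => (d r).differentiableAt) (fun r => (d r).deriv) r 0
  simpa using this

theorem wval (hB : St_BET) {s : ℂ} (h0 : 0 < s.re) (h1 : s.re < 1) (h : s - 1 / 2 ≠ 0)
    (hs : sin (π * (s - 1 / 2)) ≠ 0) :
    bet (s / 2) * (-(1 - s) * bet ((1 - s + 1) / 2)) - -s * bet ((s + 1) / 2) * bet ((1 - s) / 2) =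
      2 * (2 * s - 1) * bet s * bet (1 - s) := by
  have e := fun z hz => (hB.1 z hz).2.1
  have s0 : s ≠ 0 := fun g => by simp [g] at h0
  have s1 : 1 - s ≠ 0 := fun g => by
    have := congrArg re g
    simp at this; linarith
  have g := fun (z : ℂ) (hz : 0 < z.re) => Gamma_ne_zero_of_re_pos hz
  rw [e (s / 2) (by simpa using h0), e ((1 - s + 1) / 2) (by simp; linarith),
    e ((s + 1) / 2) (by simp; linarith), e ((1 - s) / 2) (by simp; linarith), e s h0,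
    e (1 - s) (by simp; linarith)]
  have r1 := Gamma_mul_Gamma_one_sub (s / 2)
  have r2 := Gamma_mul_Gamma_one_sub ((1 - s) / 2)
  have r3 := Gamma_mul_Gamma_one_sub s
  have r4 := Gamma_mul_Gamma_one_sub (s - 1 / 2)
  have a1 : (1 - s + 1) / 2 = 1 - s / 2 := by ring
  have a2 : s / 2 + 1 / 2 = 1 - (1 - s) / 2 := by ring
  have a3 : (s + 1) / 2 = 1 - (1 - s) / 2 := by ring
  have a4 : Gamma (1 - s / 2 + 1 / 2) = (1 - s) / 2 * Gamma ((1 - s) / 2) := by
    rw [← Gamma_add_one _ (div_ne_zero s1 two_ne_zero)]; congr 1; ring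
  have a5 : Gamma (1 - (1 - s) / 2 + 1 / 2) = s / 2 * Gamma (s / 2) := by
    rw [← Gamma_add_one _ (div_ne_zero s0 two_ne_zero)]; congr 1; ring
  have a6 : (1 - s) / 2 + 1 / 2 = 1 - s / 2 := by ring
  have a7 : Gamma (s + 1 / 2) = (s - 1 / 2) * Gamma (s - 1 / 2) := by
    rw [← Gamma_add_one _ h]; congr 1; ring
  have a8 : 1 - s + 1 / 2 = 1 - (s - 1 / 2) := by ring
  rw [a1, a2, a3, a4, a5, a6, a7, a8]
  have g1 := g (s / 2) (by simpa using h0)
  have g2 := g (1 - s / 2) (by simp; linarith)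
  have g3 := g ((1 - s) / 2) (by simp; linarith)
  have g4 := g (1 - (1 - s) / 2) (by simp; linarith)
  have g5 := g s h0
  have g6 := g (1 - s) (by simp; linarith)
  have g8 := g (1 - (s - 1 / 2)) (by simp; linarith)
  have p0 : (π : ℂ) ≠ 0 := ofReal_ne_zero.2 Real.pi_ne_zero
  have g7 : Gamma (s - 1 / 2) ≠ 0 := fun z => by
    rw [z, zero_mul] at r4
    exact div_ne_zero p0 hs r4.symm
  have t1 : sin (π * ((1 - s) / 2)) = cos (π * (s / 2)) := by
    rw [← sin_pi_div_two_sub]; congr 1; ring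
  have t2 : sin (π * s) = 2 * sin (π * (s / 2)) * cos (π * (s / 2)) := by
    rw [← sin_two_mul]; congr 1; ring
  have t3 : sin (π * (s - 1 / 2)) = sin (π * (s / 2)) ^ 2 - cos (π * (s / 2)) ^ 2 := by
    have : (π : ℂ) * (s - 1 / 2) = 2 * (π * (s / 2)) - π / 2 := by ring
    rw [this, sin_sub_pi_div_two, cos_two_mul']; ring
  rw [t3] at hs
  rw [t1] at r2
  rw [t2] at r3
  rw [t3] at r4
  have n1 : sin (π * (s / 2)) ≠ 0 := fun z => by
    rw [z, div_zero] at r1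
    exact mul_ne_zero g1 g2 r1
  have n2 : cos (π * (s / 2)) ≠ 0 := fun z => by
    rw [z, div_zero] at r2
    exact mul_ne_zero g3 g4 r2
  generalize sin (π * (s / 2)) = S at *
  generalize cos (π * (s / 2)) = C at *
  have u1 : Gamma (1 - s / 2) = π / S / Gamma (s / 2) := by rw [← r1]; field_simp
  have u2 : Gamma (1 - (1 - s) / 2) = π / C / Gamma ((1 - s) / 2) := by rw [← r2]; field_simp
  have u3 : Gamma (1 - s) = π / (2 * S * C) / Gamma s := by rw [← r3]; field_simp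
  have u4 : Gamma (1 - (s - 1 / 2)) = π / (S ^ 2 - C ^ 2) / Gamma (s - 1 / 2) := by
    rw [← r4, mul_div_cancel_left₀ _ g7]
  rw [u1, u2, u3, u4]
  have v : 2 * s - 1 = 2 * (s - 1 / 2) := by ring
  rw [v]
  generalize s - 1 / 2 = w at *
  field_simp
  ring

end ODEx

open ODEx

theorem t_ode : T_ODE := by
  intro hB _ hJ k hk U ⟨U1, U2, hU⟩ r
  have e1 : sk (-k) = 1 - sk k := by simp only [sk]; push_cast; ring
  have re1 : (sk k).re = 1 / 2 := by simp [sk]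
  have l1 : sk k * (1 - sk k) = 1 / 4 + k ^ 2 := by
    simp only [sk]; linear_combination (-(k : ℂ) ^ 2) * I_sq
  have l2 : (1 - sk k) * (1 - (1 - sk k)) = 1 / 4 + k ^ 2 := by rw [← l1]; ring
  have q1 : 0 < (sk k).re := by rw [re1]; norm_num
  have q2 : 0 < (1 - sk k).re := by rw [sub_re, re1]; norm_num
  obtain ⟨-, ⟨A1, A2, hA⟩, a0, a1⟩ := hJ (sk k) q1
  obtain ⟨-, ⟨B1, B2, hB'⟩, b0, b1⟩ := hJ (1 - sk k) q2
  rw [l1] at hA
  rw [l2] at hB'
  have a2 := (hA 0).1.unique a1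
  have b2 := (hB' 0).1.unique b1
  have k0 : sk k - 1 / 2 = k * I := by simp [sk]
  have kI : (k : ℂ) * I ≠ 0 := mul_ne_zero (ofReal_ne_zero.2 hk) I_ne_zero
  have hs : sin (π * (sk k - 1 / 2)) ≠ 0 := by
    rw [k0, ← mul_assoc, sin_mul_I, ← ofReal_mul, ← ofReal_sinh]
    refine mul_ne_zero (ofReal_ne_zero.2 ?_) I_ne_zero
    rw [ne_eq, Real.sinh_eq_zero]
    exact mul_ne_zero Real.pi_ne_zero hk
  have hW := wval hB q1 (by rw [re1]; norm_num) (k0 ▸ kI) hs
  have W0 : 2 * (2 * sk k - 1) * bet (sk k) * bet (1 - sk k) ≠ 0 := by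
    have : 2 * sk k - 1 = 2 * (k * I) := by rw [← k0]; ring
    rw [this]
    exact mul_ne_zero (mul_ne_zero (mul_ne_zero two_ne_zero (mul_ne_zero two_ne_zero kI))
      (hB.1 _ q1).2.2.1) (hB.1 _ q2).2.2.1
  obtain ⟨W, hWd⟩ : ∃ W, W = 2 * (2 * sk k - 1) * bet (sk k) * bet (1 - sk k) := ⟨_, rfl⟩
  have c1 : Cf k = B1 0 / W := by
    rw [b2, Cf, hWd]; congr 3; ring
  have c2 : Cf (-k) = -A1 0 / W := by
    have x1 : (2 - (1 - sk k)) / 2 = (sk k + 1) / 2 := by ring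
    have x2 : 2 * (2 * (1 - sk k) - 1) * bet (1 - sk k) * bet (sk k) = -W := by rw [hWd]; ring
    rw [a2, Cf, e1, sub_sub_cancel, x1, x2, div_neg, neg_div]
  rw [← hWd, ← a2, ← b2, ← a0, ← b0] at hW
  rw [← hWd] at W0
  have sD : Sol (fun r => U r + U (-r) - 2 * U 0 * (Cf k * Jf (sk k) r + Cf (-k) * Jf (1 - sk k) r))
      (fun r => U1 r - U1 (-r) - 2 * U 0 * (Cf k * A1 r + Cf (-k) * B1 r))
      (fun r => U2 r + U2 (-r) - 2 * U 0 * (Cf k * A2 r + Cf (-k) * B2 r)) (1 / 4 + k ^ 2) := by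
    intro r
    obtain ⟨u1, u2, u3⟩ := hU r
    obtain ⟨v1, v2, v3⟩ := hU (-r)
    obtain ⟨x1, x2, x3⟩ := hA r
    obtain ⟨y1, y2, y3⟩ := hB' r
    have w1 := v1.scomp r (hasDerivAt_neg r)
    have w2 := v2.scomp r (hasDerivAt_neg r)
    refine ⟨((u1.add w1).sub (((x1.const_mul _).add (y1.const_mul _)).const_mul _)).congr_deriv ?_,
      ((u2.sub w2).sub (((x2.const_mul _).add (y2.const_mul _)).const_mul _)).congr_deriv ?_, ?_⟩
    · simp [sub_eq_add_neg]
    · simp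
    · rw [Real.tanh_neg, ofReal_neg] at v3
      linear_combination u3 + v3 - 2 * U 0 * Cf k * x3 - 2 * U 0 * Cf (-k) * y3
  have z1 := wr sD hA r
  have z2 := wr sD hB' r
  have z3 := wr hA hB' r
  simp only [neg_zero, ofReal_zero] at z1 z2 z3
  have p1 : Cf k * Jf (sk k) 0 + Cf (-k) * Jf (1 - sk k) 0 = 1 := by
    rw [c1, c2]; field_simp; linear_combination hW
  have p2 : Cf k * A1 0 + Cf (-k) * B1 0 = 0 := by
    rw [c1, c2]; field_simp; ring
  rw [p1, p2] at z1 z2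
  rw [hW] at z3
  rw [pf, e1, ← sub_eq_zero]
  refine (mul_eq_zero.1 ?_).resolve_right W0
  rw [← z3]
  linear_combination Jf (sk k) r * z2 - Jf (1 - sk k) r * z1

end

end Pool.Agent.Lib.E2
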