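import Pool.Agent.Lib.E2.Blue

/-! Block PAR: parametric integrals, identity theorem, Dirichlet approximation. -/

namespace Pool.Agent.Lib.E2

noncomputable section

open Complex MeasureTheory Set Filter Topology
open scoped Real

namespace PAR

theorem part1 (X : Type) [MeasurableSpace X] (μ : Measure X) (F : ℂ → X → ℂ) (U : Set ℂ)
    (hU : IsOpen U) (hm : ∀ z ∈ U, AEStronglyMeasurable (F z) μ)
    (hd : ∀ᵐ x ∂μ, DifferentiableOn ℂ (fun z => F z x) U)
    (hb : ∀ z ∈ U, ∃ r : ℝ, 0 < r ∧ ∃ g : X → ℝ, Integrable g μ ∧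
      ∀ᵐ x ∂μ, ∀ w ∈ U, ‖w - z‖ < r → ‖F w x‖ ≤ g x) (z : ℂ) (hz : z ∈ U) :
    Integrable (fun x => deriv (fun w => F w x) z) μ ∧
      HasDerivAt (fun z => ∫ x, F z x ∂μ) (∫ x, deriv (fun w => F w x) z ∂μ) z := by
  obtain ⟨r, hr, g, hg, hgb⟩ := hb z hz
  obtain ⟨e, he, hball⟩ := Metric.isOpen_iff.1 hU z hz
  set ρ : ℝ := min r e / 3 with hρ
  have hρ0 : 0 < ρ := by positivity
  have hρr : 2 * ρ < r := by have := min_le_left r e; linarith
  have hρe : 2 * ρ < e := by have := min_le_right r e; linarith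
  have hsub : ∀ w ∈ Metric.ball z ρ, ∀ v ∈ Metric.closedBall w ρ, v ∈ U ∧ ‖v - z‖ < r := by
    intro w hw v hv
    have h1 : dist v z < 2 * ρ := by
      have := dist_triangle v w z
      have h2 := Metric.mem_ball.1 hw
      have h3 := Metric.mem_closedBall.1 hv
      linarith
    refine ⟨hball (Metric.mem_ball.2 (by linarith)), ?_⟩
    rw [← dist_eq_norm]; linarith
  have hmemU : ∀ w ∈ Metric.ball z ρ, w ∈ U := fun w hw =>
    (hsub w hw w (Metric.mem_closedBall_self hρ0.le)).1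
  have hmeas : AEStronglyMeasurable (fun x => deriv (fun w => F w x) z) μ := by
    set h : ℕ → ℂ := fun n => ((ρ / 2 * (1 / ((n : ℝ) + 1)) : ℝ) : ℂ) with hh
    have hpos : ∀ n : ℕ, 0 < ρ / 2 * (1 / ((n : ℝ) + 1)) := fun n => by positivity
    have hle : ∀ n : ℕ, ρ / 2 * (1 / ((n : ℝ) + 1)) < ρ := fun n => by
      have : 1 / ((n : ℝ) + 1) ≤ 1 := by
        rw [div_le_one (by positivity)]; linarith [Nat.cast_nonneg (α := ℝ) n]
      nlinarith
    have hlim : Tendsto h atTop (𝓝[≠] 0) := by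
      refine tendsto_nhdsWithin_iff.2 ⟨?_, Eventually.of_forall fun n => ?_⟩
      · have h1 : Tendsto (fun n : ℕ => ρ / 2 * (1 / ((n : ℝ) + 1))) atTop (𝓝 (ρ / 2 * 0)) :=
          tendsto_one_div_add_atTop_nhds_zero_nat.const_mul _
        have h2 := (continuous_ofReal.tendsto _).comp h1
        simpa [hh, Function.comp_def] using h2
      · simp only [hh, mem_compl_iff, mem_singleton_iff, ofReal_eq_zero]
        exact (hpos n).ne'
    refine aestronglyMeasurable_of_tendsto_ae (f := fun n x => (h n)⁻¹ • (F (z + h n) x - F z x))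
      atTop (fun n => ?_) ?_
    · have h1 : z + h n ∈ U := by
        apply hmemU
        rw [Metric.mem_ball, dist_eq_norm, add_sub_cancel_left, hh]
        simp only [norm_real, Real.norm_eq_abs]
        rw [abs_of_pos (hpos n)]; exact hle n
      exact ((hm _ h1).sub (hm z hz)).const_smul ((h n)⁻¹ : ℂ)
    · filter_upwards [hd] with x hx
      have h1 : HasDerivAt (fun w => F w x) (deriv (fun w => F w x) z) z :=
        (hx.differentiableAt (hU.mem_nhds hz)).hasDerivAt
      exact (h1.tendsto_slope_zero).comp hlim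
  refine hasDerivAt_integral_of_dominated_loc_of_deriv_le (s := Metric.ball z ρ)
    (F' := fun w x => deriv (fun v => F v x) w) (bound := fun x => g x / ρ)
    (Metric.ball_mem_nhds z hρ0) ?_ ?_ hmeas ?_ (hg.div_const ρ) ?_
  · filter_upwards [hU.mem_nhds hz] with w hw using hm w hw
  · refine hg.mono' (hm z hz) ?_
    filter_upwards [hgb] with x hx using hx z hz (by simpa using hr)
  · filter_upwards [hd, hgb] with x hx hx2 w hw
    refine norm_deriv_le_of_forall_mem_sphere_norm_le hρ0 ?_ fun v hv => ?_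
    · refine DifferentiableOn.diffContOnCl ?_
      rw [closure_ball w hρ0.ne']
      exact hx.mono fun v hv => (hsub w hw v hv).1
    · have := hsub w hw v (Metric.sphere_subset_closedBall hv)
      exact hx2 v this.1 this.2
  · filter_upwards [hd] with x hx w hw
    exact (hx.differentiableAt (hU.mem_nhds (hmemU w hw))).hasDerivAt

theorem part2 (F : ℂ → ℂ → ℂ) (U : Set ℂ) (c : ℂ) (d : ℝ) (hU : IsOpen U) (hd : 0 < d)
    (hc : ContinuousOn (fun p : ℂ × ℂ => F p.1 p.2) (U ×ˢ Metric.sphere c d))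
    (hF : ∀ w ∈ Metric.sphere c d, DifferentiableOn ℂ (fun z => F z w) U) :
    DifferentiableOn ℂ (fun z => ∮ w in C(c, d), F z w) U := by
  have hs : ∀ θ : ℝ, circleMap c d θ ∈ Metric.sphere c d := fun θ => circleMap_mem_sphere c hd.le θ
  have key : ∀ z, (∮ w in C(c, d), F z w) =
      ∫ θ, deriv (circleMap c d) θ * F z (circleMap c d θ) ∂(volume.restrict (Ioc 0 (2 * π))) := by
    intro z
    rw [circleIntegral, intervalIntegral.integral_of_le (by positivity)]
    rfl
  simp only [key]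
  intro z hz
  refine (part1 ℝ (volume.restrict (Ioc 0 (2 * π)))
    (fun z θ => deriv (circleMap c d) θ * F z (circleMap c d θ)) U hU ?_ ?_ ?_ z
      hz).2.differentiableAt.differentiableWithinAt
  · intro z hz
    have h1 : Continuous fun θ : ℝ => F z (circleMap c d θ) :=
      hc.comp_continuous (f := fun θ : ℝ => (z, circleMap c d θ))
        (continuous_const.prodMk (continuous_circleMap c d)) fun θ => ⟨hz, hs θ⟩
    have h2 : Continuous fun θ : ℝ => deriv (circleMap c d) θ := by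
      simp only [deriv_circleMap]
      exact (continuous_circleMap 0 d).mul continuous_const
    exact (h2.mul h1).aestronglyMeasurable
  · exact Eventually.of_forall fun θ => (hF _ (hs θ)).const_mul _
  · intro z hz
    obtain ⟨e, he, hball⟩ := Metric.isOpen_iff.1 hU z hz
    have hK : IsCompact (Metric.closedBall z (e / 2) ×ˢ Metric.sphere c d) :=
      (isCompact_closedBall _ _).prod (isCompact_sphere _ _)
    have hsub : Metric.closedBall z (e / 2) ×ˢ Metric.sphere c d ⊆ U ×ˢ Metric.sphere c d :=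
      prod_mono (fun v hv => hball (Metric.closedBall_subset_ball (by linarith) hv)) le_rfl
    obtain ⟨B, hB⟩ := hK.exists_bound_of_continuousOn (hc.mono hsub)
    refine ⟨e / 2, by positivity, fun _ => d * B, integrable_const _, Eventually.of_forall ?_⟩
    intro θ w _ hw
    have h1 := hB (w, circleMap c d θ)
      ⟨Metric.mem_closedBall.2 (by rw [dist_eq_norm]; exact hw.le), hs θ⟩
    rw [norm_mul, deriv_circleMap, norm_mul, norm_I, mul_one, norm_circleMap_zero, abs_of_pos hd]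
    exact mul_le_mul_of_nonneg_left h1 hd.le

theorem part3 (f g : ℂ → ℂ) (U : Set ℂ) (a b : ℝ) (hU : IsOpen U) (hc : IsPreconnected U)
    (hf : DifferentiableOn ℂ f U) (hg : DifferentiableOn ℂ g U) (hab : a < b)
    (h : ∀ x ∈ Ioo a b, (x : ℂ) ∈ U ∧ f x = g x) : EqOn f g U := by
  set m : ℝ := (a + b) / 2 with hm
  have hmem : m ∈ Ioo a b := ⟨by linarith, by linarith⟩
  refine (hf.analyticOnNhd hU).eqOn_of_preconnected_of_frequently_eq (hg.analyticOnNhd hU) hc
    (h m hmem).1 ?_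
  have h1 : Tendsto (fun x : ℝ => (x : ℂ)) (𝓝[≠] m) (𝓝[≠] (m : ℂ)) := by
    refine tendsto_nhdsWithin_iff.2 ⟨(continuous_ofReal.tendsto m).mono_left nhdsWithin_le_nhds, ?_⟩
    filter_upwards [self_mem_nhdsWithin] with x hx
    simpa using hx
  refine h1.frequently (Eventually.frequently ?_)
  filter_upwards [nhdsWithin_le_nhds (isOpen_Ioo.mem_nhds hmem)] with x hx using (h x hx).2

theorem part4 (s : Finset ℝ) (t0 : ℝ) (Q : ℕ) (hQ : 0 < Q) : ∃ q : ℕ, 1 ≤ q ∧ q ≤ Q ^ s.card ∧
    ∀ k ∈ s, ‖exp (-I * k * ((q : ℝ) * t0 : ℝ)) - 1‖ ≤ 2 * π / Q := by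
  classical
  have hQ' : (0 : ℝ) < Q := by exact_mod_cast hQ
  set α : ℝ → ℝ := fun k => k * t0 / (2 * π) with hα
  have hlt : ∀ x : ℝ, ⌊(Q : ℝ) * Int.fract x⌋₊ < Q := fun x => by
    rw [Nat.floor_lt (mul_nonneg hQ'.le (Int.fract_nonneg x))]
    have := Int.fract_lt_one x
    nlinarith
  set φ : ℕ → (s → Fin Q) := fun q k => ⟨⌊(Q : ℝ) * Int.fract (q * α k)⌋₊, hlt _⟩ with hφ
  have main : ∀ q1 q2 : ℕ, q1 < q2 → q2 ≤ Q ^ s.card → φ q1 = φ q2 →
      ∃ q : ℕ, 1 ≤ q ∧ q ≤ Q ^ s.card ∧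
        ∀ k ∈ s, ‖exp (-I * k * ((q : ℝ) * t0 : ℝ)) - 1‖ ≤ 2 * π / Q := by
    intro q1 q2 h12 h2 he
    refine ⟨q2 - q1, by omega, by omega, fun k hk => ?_⟩
    have h1 : ⌊(Q : ℝ) * Int.fract (q1 * α k)⌋₊ = ⌊(Q : ℝ) * Int.fract (q2 * α k)⌋₊ := by
      have := congrFun he ⟨k, hk⟩
      simpa [hφ] using this
    set x := Int.fract (q1 * α k) with hx
    set y := Int.fract (q2 * α k) with hy
    have hx0 : 0 ≤ (Q : ℝ) * x := mul_nonneg hQ'.le (Int.fract_nonneg _)
    have hy0 : 0 ≤ (Q : ℝ) * y := mul_nonneg hQ'.le (Int.fract_nonneg _)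
    have a1 := Nat.floor_le hx0
    have a2 := Nat.lt_floor_add_one ((Q : ℝ) * x)
    have a3 := Nat.floor_le hy0
    have a4 := Nat.lt_floor_add_one ((Q : ℝ) * y)
    rw [← h1] at a3 a4
    have hxy : |x - y| ≤ 1 / Q := by
      rw [abs_le]
      constructor
      · rw [neg_le, le_div_iff₀ hQ']; nlinarith
      · rw [le_div_iff₀ hQ']; nlinarith
    set n : ℤ := ⌊q1 * α k⌋ - ⌊q2 * α k⌋ with hn
    have e1 : -(k * (((q2 - q1 : ℕ) : ℝ) * t0)) = 2 * π * (x - y) + n * (2 * π) := by
      rw [Nat.cast_sub h12.le, hx, hy, hn, Int.fract, Int.fract, hα]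
      push_cast
      have : π ≠ 0 := Real.pi_ne_zero
      field_simp
      ring
    have e2 : -I * k * ((((q2 - q1 : ℕ) : ℝ) * t0 : ℝ) : ℂ) =
        I * ((2 * π * (x - y) : ℝ) : ℂ) + n * (2 * π * I) := by
      have := congrArg (fun t : ℝ => (t : ℂ) * I) e1
      simp only [ofReal_neg, ofReal_mul, ofReal_add, ofReal_intCast, ofReal_ofNat] at this ⊢
      linear_combination this
    rw [e2, exp_add, exp_int_mul_two_pi_mul_I, mul_one]
    refine Real.norm_exp_I_mul_ofReal_sub_one_le.trans ?_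
    rw [Real.norm_eq_abs, abs_mul, abs_of_pos (by positivity : (0 : ℝ) < 2 * π), div_eq_mul_one_div]
    exact mul_le_mul_of_nonneg_left hxy (by positivity)
  have hcard : (Finset.univ : Finset (s → Fin Q)).card < (Finset.range (Q ^ s.card + 1)).card := by
    simp
  obtain ⟨q1, h1, q2, h2, hne, he⟩ := Finset.exists_ne_map_eq_of_card_lt_of_maps_to hcard
    (f := φ) (fun _ _ => Finset.mem_coe.2 (Finset.mem_univ _))
  rw [Finset.mem_range] at h1 h2
  rcases lt_or_gt_of_ne hne with h | h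
  · exact main q1 q2 h (by omega) he
  · exact main q2 q1 h (by omega) he.symm

end PAR

theorem t_par : T_PAR := by
  refine ⟨fun X _ μ F U hU hm hd hb => ⟨fun z hz => ?_, fun z hz => ?_⟩, PAR.part2, PAR.part3,
    PAR.part4⟩
  · exact (PAR.part1 X μ F U hU hm hd hb z hz).2.differentiableAt.differentiableWithinAt
  · exact ⟨(PAR.part1 X μ F U hU hm hd hb z hz).1, (PAR.part1 X μ F U hU hm hd hb z hz).2.deriv⟩

end

end Pool.Agent.Lib.E2
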