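import Pool.Agent.Lib.E2.PDE1

/-! Block PDE: the kernel `sin a (q - cos a) ^ (-3/2)` solves the elliptic equation. -/

namespace Pool.Agent.Lib.E2

noncomputable section

open Complex MeasureTheory Set Filter Topology
open scoped Real UpperHalfPlane

def pde_Q (x y : ℝ) (w : ℍ) : ℝ := ((x - w.re) ^ 2 + y ^ 2 + w.im ^ 2) / (2 * y * w.im)

def pde_Qx (x y : ℝ) (w : ℍ) : ℝ := (x - w.re) / (y * w.im)

def pde_Qxx (y : ℝ) (w : ℍ) : ℝ := 1 / (y * w.im)

def pde_Qy (x y : ℝ) (w : ℍ) : ℝ := 1 / w.im - pde_Q x y w / y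

def pde_Qyy (x y : ℝ) (w : ℍ) : ℝ := 2 * pde_Q x y w / y ^ 2 - 1 / (y * w.im)

def pde_k (a : ℝ) : ℝ := 1 + 1 / (1 - Real.cos a)

theorem pde_Q_eq (hG : St_GEO) (hU : St_UNF1) (x : ℝ) {y : ℝ} (hy : 0 < y) (w : ℍ) :
    qd (pt x y) w = pde_Q x y w := by
  have hv := w.im_pos
  rw [hG.1, (hU.1 x y hy).1, (hU.1 x y hy).2, pde_Q]
  field_simp
  ring

theorem pde_sq (x : ℝ) {y : ℝ} (hy : 0 < y) (w : ℍ) :
    y ^ 2 * (pde_Qx x y w ^ 2 + pde_Qy x y w ^ 2) = pde_Q x y w ^ 2 - 1 := by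
  have hv := w.im_pos
  unfold pde_Qx pde_Qy pde_Q
  field_simp
  ring

theorem pde_lap (x : ℝ) {y : ℝ} (hy : 0 < y) (w : ℍ) :
    y ^ 2 * (pde_Qxx y w + pde_Qyy x y w) = 2 * pde_Q x y w := by
  have hv := w.im_pos
  unfold pde_Qxx pde_Qyy
  field_simp
  ring

theorem pde_dx (x : ℝ) {y : ℝ} (hy : 0 < y) (w : ℍ) :
    HasDerivAt (fun x => pde_Q x y w) (pde_Qx x y w) x ∧ HasDerivAt (fun x => pde_Qx x y w) (pde_Qxx y w) x := by
  have hv := w.im_pos
  have h1 : HasDerivAt (fun x : ℝ => x - w.re) 1 x := (hasDerivAt_id x).sub_const _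
  refine ⟨((((h1.pow 2).add_const (y ^ 2)).add_const (w.im ^ 2)).div_const (2 * y * w.im)).congr_deriv ?_,
    h1.div_const _⟩
  unfold pde_Qx
  field_simp
  ring

theorem pde_dy (x : ℝ) {y : ℝ} (hy : 0 < y) (w : ℍ) :
    HasDerivAt (fun y => pde_Q x y w) (pde_Qy x y w) y ∧ HasDerivAt (fun y => pde_Qy x y w) (pde_Qyy x y w) y := by
  have hv := w.im_pos
  have h1 : HasDerivAt (fun y => pde_Q x y w) (pde_Qy x y w) y := by
    have h2 := ((((hasDerivAt_id y).pow 2).const_add ((x - w.re) ^ 2)).add_const (w.im ^ 2)).div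
      (((hasDerivAt_id y).const_mul 2).mul_const w.im) (by simp only [id]; positivity)
    refine h2.congr_deriv ?_
    unfold pde_Qy pde_Q
    simp only [id, Pi.pow_apply]
    field_simp
    ring
  refine ⟨h1, ((h1.div (hasDerivAt_id y) hy.ne').const_sub (1 / w.im)).congr_deriv ?_⟩
  unfold pde_Qyy pde_Qy
  simp only [id]
  field_simp
  ring

theorem pde_cw (x : ℝ) {y : ℝ} (hy : 0 < y) : Continuous (pde_Q x y) ∧ Continuous (pde_Qx x y) ∧
    Continuous (pde_Qxx y) ∧ Continuous (pde_Qy x y) ∧ Continuous (pde_Qyy x y) := by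
  have hr := UpperHalfPlane.continuous_re
  have hi := UpperHalfPlane.continuous_im
  have n1 : ∀ w : ℍ, y * w.im ≠ 0 := fun w => (mul_pos hy w.im_pos).ne'
  have c1 : Continuous (pde_Q x y) := Continuous.div (by fun_prop) (by fun_prop) fun w => by
    have := w.im_pos
    positivity
  have c2 : Continuous fun w : ℍ => 1 / (y * w.im) := continuous_const.div (by fun_prop) n1
  exact ⟨c1, Continuous.div (by fun_prop) (by fun_prop) n1, c2,
    (continuous_const.div hi fun w => w.im_pos.ne').sub (c1.div_const _),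
    ((continuous_const.mul c1).div_const _).sub c2⟩

theorem pde_bds (x : ℝ) {y : ℝ} (hy : 0 < y) (w : ℍ) (h1 : 1 ≤ pde_Q x y w) :
    |pde_Qx x y w| ≤ (1 / y + 2 / y ^ 2) * pde_Q x y w ∧ |pde_Qxx y w| ≤ (1 / y + 2 / y ^ 2) * pde_Q x y w ∧
    |pde_Qy x y w| ≤ (1 / y + 2 / y ^ 2) * pde_Q x y w ∧ |pde_Qyy x y w| ≤ (1 / y + 2 / y ^ 2) * pde_Q x y w := by
  have hv := w.im_pos
  have hs := pde_sq x hy w
  have e1 : 0 ≤ 1 / y * pde_Q x y w := by positivity
  have e2 : 0 ≤ 2 / y ^ 2 * pde_Q x y w := by positivity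
  have g : ∀ X : ℝ, y ^ 2 * X ^ 2 ≤ pde_Q x y w ^ 2 → |X| ≤ (1 / y + 2 / y ^ 2) * pde_Q x y w := fun X hX => by
    have : |X| ≤ 1 / y * pde_Q x y w := by
      refine abs_le_of_sq_le_sq' ?_ e1 |> fun h => abs_le.2 h
      rw [mul_pow, one_div, inv_pow, ← div_eq_inv_mul, le_div_iff₀ (by positivity)]
      linarith
    linarith
  have p1 : 0 < 1 / (y * w.im) := by positivity
  have p2 : 1 / (y * w.im) ≤ 2 / y ^ 2 * pde_Q x y w := by
    have : 2 / y ^ 2 * pde_Q x y w - 1 / (y * w.im) = ((x - w.re) ^ 2 + w.im ^ 2) / (y ^ 3 * w.im) := by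
      unfold pde_Q
      field_simp
      ring
    have h3 : 0 ≤ ((x - w.re) ^ 2 + w.im ^ 2) / (y ^ 3 * w.im) := by positivity
    linarith
  refine ⟨g _ (by nlinarith [mul_nonneg (sq_nonneg y) (sq_nonneg (pde_Qy x y w))]), ?_,
    g _ (by nlinarith [mul_nonneg (sq_nonneg y) (sq_nonneg (pde_Qx x y w))]), ?_⟩
  · unfold pde_Qxx
    rw [abs_of_pos p1]
    linarith
  · have e3 : 2 * pde_Q x y w / y ^ 2 = 2 / y ^ 2 * pde_Q x y w := by ring
    unfold pde_Qyy
    rw [e3, abs_of_nonneg (by linarith)]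
    linarith

theorem pde_D {a Q : ℝ} (ha : Real.cos a < 1) (hQ : 1 ≤ Q) :
    0 < Q - Real.cos a ∧ Q ≤ pde_k a * (Q - Real.cos a) ∧ 0 < pde_k a := by
  have h0 : 0 < 1 - Real.cos a := by linarith
  have h1 : 1 ≤ 1 / (1 - Real.cos a) * (Q - Real.cos a) := by
    rw [one_div, ← div_eq_inv_mul, le_div_iff₀ h0]
    linarith
  refine ⟨by linarith, ?_, by unfold pde_k; positivity⟩
  unfold pde_k
  linarith

theorem pde_m (hG : St_GEO) {a : ℝ} (ha : Real.cos a < 1) (z w : ℍ) :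
    qd UpperHalfPlane.I w ≤ 2 * qd UpperHalfPlane.I z * pde_k a * (qd z w - Real.cos a) := by
  have h1 := hG.2.2.2.1 UpperHalfPlane.I z w
  have h2 := (pde_D ha (pde_q_one z w)).2.1
  have h3 := pde_q_one UpperHalfPlane.I z
  rw [mul_assoc (2 * qd UpperHalfPlane.I z)]
  exact h1.trans (mul_le_mul_of_nonneg_left h2 (by linarith))

theorem pde_m' (hG : St_GEO) (hU : St_UNF1) {a : ℝ} (ha : Real.cos a < 1) (x : ℝ) {y : ℝ} (hy : 0 < y) (w : ℍ) :
    1 ≤ pde_Q x y w ∧ qd UpperHalfPlane.I w ≤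
      2 * pde_Q x y UpperHalfPlane.I * pde_k a * (pde_Q x y w - Real.cos a) := by
  have h := pde_m hG ha (pt x y) w
  rw [(hG.2.1 UpperHalfPlane.I (pt x y)).2, pde_Q_eq hG hU x hy, pde_Q_eq hG hU x hy] at h
  exact ⟨pde_Q_eq hG hU x hy w ▸ pde_q_one _ _, h⟩

theorem pde_cont (hG : St_GEO) {f : ℍ → ℂ} (hf : Cls f) {a : ℝ} (ha : Real.cos a < 1) : Continuous (Lop a f) := by
  refine continuous_iff_continuousAt.2 fun z => ?_
  have hc : Continuous fun z : ℍ => |2 * qd UpperHalfPlane.I z * pde_k a| ^ (3 / 2 : ℝ) :=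
    ((continuous_const.mul (pde_q_cont _)).mul continuous_const).abs.rpow_const fun _ => Or.inr (by norm_num)
  have hk : ∀ z : ℍ, Continuous fun w => ka a (qd z w) := fun z =>
    ((pde_q_cont z).sub continuous_const).rpow_const fun w => Or.inl (pde_D ha (pde_q_one z w)).1.ne'
  refine continuousAt_of_dominated (F := fun z w => (ka a (qd z w) : ℂ) * f w)
    (Eventually.of_forall fun z => pde_km hf (hk z)) ?_
    (pde_bint hf (|2 * qd UpperHalfPlane.I z * pde_k a| ^ (3 / 2 : ℝ) + 1))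
    (Eventually.of_forall fun w => ?_)
  · filter_upwards [hc.continuousAt.eventually (gt_mem_nhds (lt_add_one _))] with u hu
    refine Eventually.of_forall fun w => pde_nb ?_
    have h0 := (pde_D ha (pde_q_one u w)).1
    rw [ka, abs_of_nonneg (Real.rpow_nonneg h0.le _)]
    exact (pde_pow_le h0 (pde_m hG ha u w)).trans (mul_le_mul_of_nonneg_right hu.le (pde_w_pos w).le)
  · refine ((continuous_ofReal.comp ((hk w).congr fun u => ?_)).mul continuous_const).continuousAt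
    rw [(hG.2.1 w u).2]

theorem pde_F (hG : St_GEO) (hU : St_UNF1) (f : ℍ → ℂ) (a x : ℝ) {y : ℝ} (hy : 0 < y) :
    (Real.sin a : ℂ) * Lop a f (pt x y) = ∫ w, (pde_K0 (pde_Q x y w - Real.cos a) (Real.sin a) : ℂ) * f w := by
  rw [Lop, Rop, ← integral_const_mul]
  refine integral_congr_ae (Eventually.of_forall fun w => ?_)
  simp only [pde_K0, ka, pde_Q_eq hG hU x hy, ofReal_mul]
  ring

theorem pde_id {a Q Qx Qy Qxx Qyy y : ℝ} (hD : 0 < Q - Real.cos a) (h1 : y ^ 2 * (Qx ^ 2 + Qy ^ 2) = Q ^ 2 - 1)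
    (h2 : y ^ 2 * (Qxx + Qyy) = 2 * Q) :
    pde_K2 (Q - Real.cos a) (Real.sin a) (Real.cos a) (Real.sin a) (Real.cos a) (-Real.sin a) +
      y ^ 2 * (pde_K2 (Q - Real.cos a) Qx Qxx (Real.sin a) 0 0 + pde_K2 (Q - Real.cos a) Qy Qyy (Real.sin a) 0 0) +
      pde_K0 (Q - Real.cos a) (Real.sin a) / 4 = 0 := by
  have h3 := Real.sin_sq_add_cos_sq a
  unfold pde_K2 pde_K0
  generalize (Q - Real.cos a) ^ (-(3 / 2) : ℝ) = E
  obtain ⟨D, rfl⟩ : ∃ D, Q = D + Real.cos a := ⟨Q - Real.cos a, by ring⟩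
  simp only [add_sub_cancel_right] at hD ⊢
  field_simp
  linear_combination (30 * E * Real.sin a) * h1 - (12 * E * Real.sin a * D) * h2 + (30 * E * Real.sin a) * h3

theorem pde_sum {A B C D : ℍ → ℂ} (hA : Integrable A) (hB : Integrable B) (hC : Integrable C) (hD : Integrable D)
    (c : ℂ) (h : ∀ w, A w + c * (B w + C w) + D w / 4 = 0) :
    (∫ w, A w) + c * ((∫ w, B w) + ∫ w, C w) + (∫ w, D w) / 4 = 0 := by
  have h1 : Integrable fun w => c * (B w + C w) := (hB.add hC).const_mul c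
  have h2 : Integrable fun w => A w + c * (B w + C w) := hA.add h1
  rw [← integral_add hB hC, ← integral_const_mul, ← integral_div, ← integral_add hA h1,
    ← integral_add h2 (hD.div_const 4)]
  simp only [h, integral_zero]

theorem t_pde : T_PDE := by
  intro hG hU _ f hf
  refine ⟨fun a ha => pde_cont hG hf ha,
    fun a x y => ∫ w, (pde_K1 (pde_Q x y w - Real.cos a) (Real.sin a) (Real.sin a) (Real.cos a) : ℂ) * f w,
    fun a x y => ∫ w, (pde_K2 (pde_Q x y w - Real.cos a) (Real.sin a) (Real.cos a) (Real.sin a) (Real.cos a)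
      (-Real.sin a) : ℂ) * f w,
    fun a x y => ∫ w, (pde_K1 (pde_Q x y w - Real.cos a) (pde_Qx x y w) (Real.sin a) 0 : ℂ) * f w,
    fun a x y => ∫ w, (pde_K2 (pde_Q x y w - Real.cos a) (pde_Qx x y w) (pde_Qxx y w) (Real.sin a) 0 0 : ℂ) * f w,
    fun a x y => ∫ w, (pde_K1 (pde_Q x y w - Real.cos a) (pde_Qy x y w) (Real.sin a) 0 : ℂ) * f w,
    fun a x y => ∫ w, (pde_K2 (pde_Q x y w - Real.cos a) (pde_Qy x y w) (pde_Qyy x y w) (Real.sin a) 0 0 : ℂ) * f w,
    fun a ha x y hy => ?_⟩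
  have hcos : ∀ a ∈ Ioo (0 : ℝ) (2 * π), Real.cos a < 1 := fun a ha =>
    (Real.cos_le_one a).lt_of_ne fun h =>
      ha.1.ne' ((Real.cos_eq_one_iff_of_lt_of_lt (by linarith [ha.1, Real.pi_pos]) ha.2).1 h)
  have hca := hcos a ha
  have ck : ContinuousOn pde_k (Ioo (0 : ℝ) (2 * π)) :=
    continuousOn_const.add (continuousOn_const.div (by fun_prop) fun t ht => by linarith [hcos t ht])
  have hmul : ∀ {X B Q : ℝ}, 0 ≤ B → 1 ≤ Q → |X| ≤ B * Q → |X| ≤ B * pde_k a * (Q - Real.cos a) :=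
    fun hB hQ h => h.trans (by
      rw [mul_assoc]
      exact mul_le_mul_of_nonneg_left (pde_D hca hQ).2.1 hB)
  have hconst : ∀ t : ℝ, HasDerivAt (fun _ : ℝ => Real.sin a) 0 t ∧ HasDerivAt (fun _ : ℝ => (0 : ℝ)) 0 t :=
    fun t => ⟨hasDerivAt_const _ _, hasDerivAt_const _ _⟩
  obtain ⟨a1, a2, a3, a4⟩ := pde_two hf (D := fun a w => pde_Q x y w - Real.cos a) (D1 := fun a _ => Real.sin a)
    (D2 := fun a _ => Real.cos a) (S := Real.sin) (S1 := Real.cos) (S2 := fun a => -Real.sin a) (b := pde_k)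
    (m := fun a => 2 * pde_Q x y UpperHalfPlane.I * pde_k a) isOpen_Ioo ck (continuousOn_const.mul ck)
    (by fun_prop) (fun t _ => ⟨Real.hasDerivAt_sin t, Real.hasDerivAt_cos t⟩)
    (fun t _ => ⟨(pde_cw x hy).1.sub continuous_const, continuous_const, continuous_const⟩)
    (fun t ht w => by
      obtain ⟨q1, q2⟩ := pde_m' hG hU (hcos t ht) x hy w
      obtain ⟨d1, d2, -⟩ := pde_D (hcos t ht) q1
      exact ⟨d1, ((Real.hasDerivAt_cos t).const_sub _).congr_deriv (neg_neg _), Real.hasDerivAt_sin t,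
        (Real.abs_sin_le_one t).trans (q1.trans d2), (Real.abs_cos_le_one t).trans (q1.trans d2), q2⟩) ha
  obtain ⟨x1, x2, -, x4⟩ := pde_two hf (D := fun x w => pde_Q x y w - Real.cos a) (D1 := fun x w => pde_Qx x y w)
    (D2 := fun _ w => pde_Qxx y w) (S := fun _ => Real.sin a) (S1 := fun _ => 0) (S2 := fun _ => 0)
    (b := fun _ => (1 / y + 2 / y ^ 2) * pde_k a) (m := fun x => 2 * pde_Q x y UpperHalfPlane.I * pde_k a)
    isOpen_univ continuousOn_const
    ((continuousOn_const.mul fun t _ => (pde_dx t hy _).1.continuousAt.continuousWithinAt).mul continuousOn_const)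
    continuousOn_const (fun t _ => hconst t)
    (fun t _ => ⟨(pde_cw t hy).1.sub continuous_const, (pde_cw t hy).2.1, (pde_cw t hy).2.2.1⟩)
    (fun t _ w => by
      obtain ⟨q1, q2⟩ := pde_m' hG hU hca t hy w
      obtain ⟨b1, b2, -⟩ := pde_bds t hy w q1
      exact ⟨(pde_D hca q1).1, (pde_dx t hy w).1.sub_const _, (pde_dx t hy w).2,
        hmul (by positivity) q1 b1, hmul (by positivity) q1 b2, q2⟩) (mem_univ x)
  obtain ⟨y1, y2, -, y4⟩ := pde_two hf (D := fun y w => pde_Q x y w - Real.cos a) (D1 := fun y w => pde_Qy x y w)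
    (D2 := fun y w => pde_Qyy x y w) (S := fun _ => Real.sin a) (S1 := fun _ => 0) (S2 := fun _ => 0)
    (b := fun y => (1 / y + 2 / y ^ 2) * pde_k a) (m := fun y => 2 * pde_Q x y UpperHalfPlane.I * pde_k a)
    isOpen_Ioi (((continuousOn_const.div continuousOn_id fun t ht => ne_of_gt ht).add
      (continuousOn_const.div (continuousOn_id.pow 2) fun t ht => pow_ne_zero 2 (ne_of_gt ht))).mul continuousOn_const)
    ((continuousOn_const.mul fun t ht => (pde_dy x ht _).1.continuousAt.continuousWithinAt).mul continuousOn_const)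
    continuousOn_const (fun t _ => hconst t)
    (fun t ht => ⟨(pde_cw x ht).1.sub continuous_const, (pde_cw x ht).2.2.2.1, (pde_cw x ht).2.2.2.2⟩)
    (fun t ht w => by
      have ht' : 0 < t := ht
      obtain ⟨q1, q2⟩ := pde_m' hG hU hca x ht' w
      obtain ⟨-, -, b1, b2⟩ := pde_bds x ht' w q1
      exact ⟨(pde_D hca q1).1, (pde_dy x ht' w).1.sub_const _, (pde_dy x ht' w).2,
        hmul (by positivity) q1 b1, hmul (by positivity) q1 b2, q2⟩) hy
  refine ⟨a1.congr_of_eventuallyEq (Eventually.of_forall fun t => pde_F hG hU f t x hy), a2,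
    x1.congr_of_eventuallyEq (Eventually.of_forall fun t => pde_F hG hU f a t hy), x2,
    y1.congr_of_eventuallyEq (mem_of_superset (Ioi_mem_nhds hy) fun t ht => pde_F hG hU f a x ht), y2, ?_⟩
  rw [pde_F hG hU f a x hy]
  refine pde_sum a4 x4 y4 a3 _ fun w => ?_
  have h := congrArg (fun r : ℝ => (r : ℂ) * f w)
    (pde_id (pde_D hca (pde_m' hG hU hca x hy w).1).1 (pde_sq x hy w) (pde_lap x hy w))
  simp only [ofReal_add, ofReal_mul, ofReal_pow, ofReal_div, ofReal_ofNat, ofReal_zero, zero_mul] at h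
  linear_combination h

end

end Pool.Agent.Lib.E2
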