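import Pool.Agent.Lib.E2.PI1

/-!
The truncated period of the non-constant part of the Eisenstein series along a ray.
-/

namespace Pool.Agent.Lib.E2

noncomputable section

open Complex MeasureTheory Set Filter Topology
open scoped Real UpperHalfPlane

/-- the Eisenstein series minus the terms with a zero index -/
def piG (r : ℝ) (s : ℂ) (y : ℝ) : ℂ :=
  Vr r y s + Lam (2 * s - 1) * ((y / Real.cosh r : ℝ) : ℂ) ^ (1 - s) -
    Lam (2 * s) * ((1 / (y * Real.cosh r) : ℝ) : ℂ) ^ s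

theorem pi_g_eq (hZ : St_ZB1) (hU : St_UNF1) (hE : St_EIS1) (r : ℝ) {y : ℝ} (hy : 0 < y) {s : ℂ}
    (hs : 1 < s.re) :
    piG r s y = (π : ℂ) ^ (-s) * Gamma s / 2 * ∑' p, piC r y s p := by
  obtain ⟨h1, h2⟩ := pi_z_re hU r hy
  have h3 := (hE (piZ r y) s hs).2
  have h4 := hZ.2.2.2.2.2.1 (2 * s) (by simp; linarith)
  have e1 : -(2 * s) / 2 = -s := by ring
  have e2 : 2 * s / 2 = s := by ring
  rw [e1, e2] at h4
  rw [pi_split hU hE r hy hs]
  unfold Es at h3
  rw [h1, h2] at h3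
  unfold piG Vr
  linear_combination h3 - (((y / Real.cosh r : ℝ) : ℂ) ^ s +
    ((1 / (y * Real.cosh r) : ℝ) : ℂ) ^ s) * h4

theorem pi_g_inv (hE : St_EIS2) (r : ℝ) {y : ℝ} (hy : 0 < y) {s : ℂ} (h0 : s ≠ 0)
    (h1 : s ≠ 1 / 2) (h2 : s ≠ 1) : piG r s (1 / y) = piG r s y := by
  have h := (hE.2.2 r y hy).1 s h0 h1 h2
  have hc := (Real.cosh_pos r).ne'
  have e1 : 1 / y / Real.cosh r = 1 / (y * Real.cosh r) := by field_simp
  have e2 : 1 / (1 / y * Real.cosh r) = y / Real.cosh r := by field_simp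
  unfold piG
  rw [h, e1, e2]
  unfold Ct
  ring

theorem pi_vr_bd (hV : St_VB2) (r M : ℝ) : ∃ K : ℝ, ∀ y : ℝ, 1 ≤ y → ∀ s : ℂ,
    |s.re - 1 / 2| ≤ M → ‖Vr r y s / y‖ ≤ K * Real.exp (-(Real.cosh r)⁻¹ * y) := by
  obtain ⟨C, k, h⟩ := hV.2.2.2.1 M
  refine ⟨|C| * (1 + Real.cosh r) ^ k, fun y hy s hs => ?_⟩
  have hc := Real.cosh_pos r
  have hy0 : 0 < y := by linarith
  have hh : 0 < y / Real.cosh r := div_pos hy0 hc
  have hA : Adm 1 (y / Real.cosh r) ((y * Real.tanh r : ℝ) : ℂ) ((y / Real.cosh r : ℝ) : ℂ) := by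
    constructor
    · rw [Complex.norm_real, Real.norm_of_nonneg hh.le, div_one]
    · rw [ofReal_re, ofReal_im, abs_zero, one_mul, sub_zero]
  have h1 := h 1 ⟨one_pos, le_rfl⟩ _ hh _ _ s hA hs
  have h2 : 1 / (y / Real.cosh r) ≤ Real.cosh r := by
    rw [one_div_div, div_le_iff₀ hy0]
    nlinarith
  have h3 : Real.exp (-(1 * (y / Real.cosh r)) - 1 ^ 2 * |s.im| / 4) ≤
      Real.exp (-(Real.cosh r)⁻¹ * y) := by
    apply Real.exp_le_exp.2
    have := abs_nonneg s.im
    rw [div_eq_inv_mul y]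
    linarith
  have h4 : ‖Vr r y s‖ ≤ |C| * (1 + Real.cosh r) ^ k * Real.exp (-(Real.cosh r)⁻¹ * y) := by
    refine h1.trans ?_
    rw [one_pow, div_one]
    have := le_abs_self C
    gcongr
  rw [norm_div, Complex.norm_real, Real.norm_of_nonneg hy0.le]
  exact (div_le_self (norm_nonneg _) hy).trans h4

theorem pi_vr_meas (hV : St_VB2) (r : ℝ) (s : ℂ) :
    AEStronglyMeasurable (fun y : ℝ => Vr r y s / y) (volume.restrict (Ioi 1)) := by
  refine ContinuousOn.aestronglyMeasurable ?_ measurableSet_Ioi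
  have hc := Real.cosh_pos r
  refine ContinuousOn.div ?_ (by fun_prop) fun y hy => ?_
  · have hm : Continuous fun y : ℝ => ((((y * Real.tanh r : ℝ) : ℂ),
        ((y / Real.cosh r : ℝ) : ℂ), s) : ℂ × ℂ × ℂ) := by fun_prop
    have hmap : MapsTo (fun y : ℝ => ((((y * Real.tanh r : ℝ) : ℂ),
        ((y / Real.cosh r : ℝ) : ℂ), s) : ℂ × ℂ × ℂ)) (Ioi 1)
        {p : ℂ × ℂ × ℂ | |p.1.im| < p.2.1.re} := fun y hy => by
      have : (1 : ℝ) < y := hy
      show |(((y * Real.tanh r : ℝ) : ℂ)).im| < (((y / Real.cosh r : ℝ) : ℂ)).re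
      rw [ofReal_re, ofReal_im, abs_zero]
      exact div_pos (by linarith) hc
    have h := hV.2.1.comp hm.continuousOn hmap
    simp only [Function.comp_def] at h
    unfold Vr
    exact h
  · have : (1 : ℝ) < y := hy
    exact ofReal_ne_zero.2 (by linarith)

theorem pi_exp_int (r K : ℝ) :
    IntegrableOn (fun y : ℝ => K * Real.exp (-(Real.cosh r)⁻¹ * y)) (Ioi 1) :=
  (exp_neg_integrableOn_Ioi 1 (inv_pos.2 (Real.cosh_pos r))).const_mul K

theorem pi_vr_int (hV : St_VB2) (r : ℝ) (s : ℂ) :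
    IntegrableOn (fun y : ℝ => Vr r y s / y) (Ioi 1) := by
  obtain ⟨K, h⟩ := pi_vr_bd hV r |s.re - 1 / 2|
  refine Integrable.mono' (pi_exp_int r K) (pi_vr_meas hV r s) ?_
  filter_upwards [ae_restrict_mem measurableSet_Ioi] with y hy
  exact h y (le_of_lt hy) s le_rfl

theorem pi_diff (hP : St_PAR) (hV : St_VB2) (r : ℝ) : Differentiable ℂ (fun s => PIl r s) := by
  have h := (hP.1 ℝ (volume.restrict (Ioi 1)) (fun s y => Vr r y s / y) univ isOpen_univ
    (fun s _ => pi_vr_meas hV r s) ?_ ?_).1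
  · exact (differentiableOn_univ.1 h).const_mul 2
  · filter_upwards [ae_restrict_mem measurableSet_Ioi] with y hy
    have : (1 : ℝ) < y := hy
    refine DifferentiableOn.div_const ?_ _
    refine hV.2.2.1 univ (fun _ => ((y * Real.tanh r : ℝ) : ℂ))
      (fun _ => ((y / Real.cosh r : ℝ) : ℂ)) (fun c => c) isOpen_univ (differentiableOn_const _)
      (differentiableOn_const _) differentiableOn_id fun c _ => ?_
    rw [ofReal_re, ofReal_im, abs_zero]
    exact div_pos (by linarith) (Real.cosh_pos r)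
  · intro z _
    obtain ⟨K, h⟩ := pi_vr_bd hV r (|z.re - 1 / 2| + 1)
    refine ⟨1, one_pos, _, pi_exp_int r K, ?_⟩
    filter_upwards [ae_restrict_mem measurableSet_Ioi] with y hy w _ hw
    refine h y (le_of_lt hy) w ?_
    have h1 : |(w - z).re| ≤ ‖w - z‖ := abs_re_le_norm _
    rw [sub_re] at h1
    have h2 := abs_add_le (w.re - z.re) (z.re - 1 / 2)
    have e : w.re - z.re + (z.re - 1 / 2) = w.re - 1 / 2 := by ring
    rw [e] at h2
    linarith

theorem pi_g_div (r : ℝ) (s : ℂ) {y : ℝ} (hy : 0 < y) :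
    piG r s y / y = Vr r y s / y +
      Lam (2 * s - 1) * ((1 / Real.cosh r : ℝ) : ℂ) ^ (1 - s) * (y : ℂ) ^ (-s) -
      Lam (2 * s) * ((1 / Real.cosh r : ℝ) : ℂ) ^ s * (y : ℂ) ^ (-s - 1) := by
  have hc := Real.cosh_pos r
  have hy' : (y : ℂ) = exp (Real.log y : ℂ) := by
    rw [← ofReal_exp, Real.exp_log hy]
  have h1 : ((y / Real.cosh r : ℝ) : ℂ) ^ (1 - s) =
      ((1 / Real.cosh r : ℝ) : ℂ) ^ (1 - s) * (y : ℂ) ^ (-s) * exp (Real.log y : ℂ) := by
    rw [pi_cp (div_pos hy hc), pi_cp (one_div_pos.2 hc), pi_cp hy, ← Complex.exp_add,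
      ← Complex.exp_add, Real.log_div hy.ne' hc.ne', Real.log_div one_ne_zero hc.ne',
      Real.log_one]
    congr 1
    push_cast
    ring
  have h2 : ((1 / (y * Real.cosh r) : ℝ) : ℂ) ^ s =
      ((1 / Real.cosh r : ℝ) : ℂ) ^ s * (y : ℂ) ^ (-s - 1) * exp (Real.log y : ℂ) := by
    rw [pi_cp (one_div_pos.2 (mul_pos hy hc)), pi_cp (one_div_pos.2 hc), pi_cp hy,
      ← Complex.exp_add, ← Complex.exp_add, Real.log_div one_ne_zero (mul_pos hy hc).ne',
      Real.log_div one_ne_zero hc.ne', Real.log_one, Real.log_mul hy.ne' hc.ne']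
    congr 1
    push_cast
    ring
  rw [← hy'] at h1 h2
  have h0 : (y : ℂ) ≠ 0 := ofReal_ne_zero.2 hy.ne'
  unfold piG
  rw [h1, h2]
  field_simp

theorem pi_right (hJ : St_JB2) (hZ : St_ZB1) (hV : St_VB2) (hU : St_UNF1) (hE : St_EIS1)
    (hE2 : St_EIS2) (r : ℝ) {s : ℂ} (hs : 1 < s.re) :
    PIl r s = Pif s r + Zf (1 / Real.cosh r) s := by
  have hs0 : s ≠ 0 := fun h => by rw [h] at hs; norm_num at hs
  have hs1 : s ≠ 1 := fun h => by rw [h] at hs; norm_num at hs
  have hs2 : s ≠ 1 / 2 := fun h => by rw [h] at hs; norm_num at hs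
  have ha : (-s).re < -1 := by simp; linarith
  have hb : (-s - 1).re < -1 := by simp; linarith
  have i1 := pi_vr_int hV r s
  have i2 := (integrableOn_Ioi_cpow_of_lt ha one_pos).const_mul
    (Lam (2 * s - 1) * ((1 / Real.cosh r : ℝ) : ℂ) ^ (1 - s))
  have i3 := (integrableOn_Ioi_cpow_of_lt hb one_pos).const_mul
    (Lam (2 * s) * ((1 / Real.cosh r : ℝ) : ℂ) ^ s)
  have hEq : EqOn (fun y : ℝ => piG r s y / y) (fun y : ℝ => Vr r y s / y +
      Lam (2 * s - 1) * ((1 / Real.cosh r : ℝ) : ℂ) ^ (1 - s) * (y : ℂ) ^ (-s) -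
      Lam (2 * s) * ((1 / Real.cosh r : ℝ) : ℂ) ^ s * (y : ℂ) ^ (-s - 1)) (Ioi 1) :=
    fun y hy => pi_g_div r s (lt_trans one_pos hy)
  have i4 : IntegrableOn (fun y : ℝ => piG r s y / y) (Ioi 1) :=
    IntegrableOn.congr_fun ((i1.add i2).sub i3) hEq.symm measurableSet_Ioi
  have v1 : ∫ y in Ioi (1 : ℝ), piG r s y / y = (∫ y in Ioi (1 : ℝ), Vr r y s / y) +
      Lam (2 * s - 1) * ((1 / Real.cosh r : ℝ) : ℂ) ^ (1 - s) * (-1 / (-s + 1)) -
      Lam (2 * s) * ((1 / Real.cosh r : ℝ) : ℂ) ^ s * (-1 / (-s - 1 + 1)) := by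
    have i12 : Integrable (fun y : ℝ => Vr r y s / y +
        Lam (2 * s - 1) * ((1 / Real.cosh r : ℝ) : ℂ) ^ (1 - s) * (y : ℂ) ^ (-s))
        (volume.restrict (Ioi 1)) := i1.add i2
    rw [setIntegral_congr_fun measurableSet_Ioi hEq, integral_sub i12 i3,
      integral_add i1 i2, integral_const_mul, integral_const_mul,
      integral_Ioi_cpow_of_lt ha one_pos, integral_Ioi_cpow_of_lt hb one_pos]
    simp
  have hsm : ∀ v : ℝ, Real.exp v • (piG r s (Real.exp v) / (Real.exp v : ℝ)) =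
      piG r s (Real.exp v) := fun v => by
    have : ((Real.exp v : ℝ) : ℂ) ≠ 0 := ofReal_ne_zero.2 (Real.exp_pos v).ne'
    rw [Complex.real_smul]
    field_simp
  have v2 : ∫ v in Ioi (0 : ℝ), piG r s (Real.exp v) = ∫ y in Ioi (1 : ℝ), piG r s y / y := by
    have := integral_comp_exp_Ioi (fun y : ℝ => piG r s y / y) 0
    simp only [hsm, Real.exp_zero] at this
    exact this
  have i5 : IntegrableOn (fun v : ℝ => piG r s (Real.exp v)) (Ioi 0) := by
    have := integrableOn_comp_exp_Ioi (fun y : ℝ => piG r s y / y) 0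
    simp only [hsm, Real.exp_zero] at this
    exact this.2 i4
  have hev : ∀ v : ℝ, piG r s (Real.exp (-v)) = piG r s (Real.exp v) := fun v => by
    rw [Real.exp_neg, ← one_div]
    exact pi_g_inv hE2 r (Real.exp_pos v) hs0 hs2 hs1
  have i6 : IntegrableOn (fun v : ℝ => piG r s (Real.exp v)) (Iic 0) := by
    rw [← Measure.map_neg_eq_self (volume : Measure ℝ)]
    let m : MeasurableEmbedding fun x : ℝ => -x := (Homeomorph.neg ℝ).measurableEmbedding
    rw [m.integrableOn_map_iff]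
    simp only [Function.comp_def, hev, neg_preimage, neg_Iic, neg_zero]
    exact Iff.mpr integrableOn_Ici_iff_integrableOn_Ioi i5
  have v3 : ∫ v in Iic (0 : ℝ), piG r s (Real.exp v) =
      ∫ v in Ioi (0 : ℝ), piG r s (Real.exp v) := by
    have := integral_comp_neg_Iic 0 (fun v : ℝ => piG r s (Real.exp v))
    simp only [hev, neg_zero] at this
    exact this
  have v4 := intervalIntegral.integral_Iic_add_Ioi i6 i5
  have v5 : ∫ v : ℝ, piG r s (Real.exp v) = Pif s r := by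
    simp only [fun v : ℝ => pi_g_eq hZ hU hE r (Real.exp_pos v) hs]
    rw [integral_const_mul, pi_int hJ hU r hs]
    have h2 : (2 * π : ℂ) ^ (-s) = (2 : ℂ) ^ (-s) * (π : ℂ) ^ (-s) := by
      have := Complex.mul_cpow_ofReal_nonneg (zero_le_two) Real.pi_pos.le (-s)
      simpa using this
    unfold Pif
    rw [h2]
    ring
  rw [v3, v2, v1, v5] at v4
  have h1 : (1 : ℂ) - s ≠ 0 := sub_ne_zero.2 hs1.symm
  have e1 : -1 / (-s + 1) = -(1 / (1 - s)) := by
    rw [show -s + 1 = 1 - s by ring]; ring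
  have e2 : -1 / (-s - 1 + 1) = 1 / s := by
    rw [show -s - 1 + 1 = -s by ring]; field_simp
  rw [e1, e2] at v4
  unfold PIl Zf
  linear_combination v4

/-- the right half plane without `1/2` and `1` -/
def piU : Set ℂ := {s | 0 < s.re ∧ s ≠ 1 / 2 ∧ s ≠ 1}

theorem pi_u_open : IsOpen piU :=
  (isOpen_lt continuous_const continuous_re).inter (isOpen_ne.inter isOpen_ne)

theorem pi_u_conn : IsPreconnected piU := by
  have hA : IsPreconnected ({s : ℂ | 0 < s.re} ∩ {s : ℂ | 0 < s.im}) :=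
    ((convex_halfSpace_re_gt 0).inter (convex_halfSpace_im_gt 0)).isPreconnected
  have hB : IsPreconnected ({s : ℂ | 0 < s.re} ∩ {s : ℂ | s.im < 0}) :=
    ((convex_halfSpace_re_gt 0).inter (convex_halfSpace_im_lt 0)).isPreconnected
  have h1 : IsPreconnected ({s : ℂ | 0 < s.re} ∩ {s : ℂ | s.re < 1 / 2}) :=
    ((convex_halfSpace_re_gt 0).inter (convex_halfSpace_re_lt _)).isPreconnected
  have h2 : IsPreconnected ({s : ℂ | 1 / 2 < s.re} ∩ {s : ℂ | s.re < 1}) :=
    ((convex_halfSpace_re_gt _).inter (convex_halfSpace_re_lt _)).isPreconnected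
  have h3 : IsPreconnected {s : ℂ | 1 < s.re} := (convex_halfSpace_re_gt _).isPreconnected
  have u1 := IsPreconnected.union (2 + I) (by constructor <;> simp) (by simp) hA h3
  have u2 := IsPreconnected.union (2 - I) (Or.inr (by simp)) (by constructor <;> simp) u1 hB
  have u3 := IsPreconnected.union (1 / 4 + I) (Or.inl (Or.inl (by constructor <;> simp)))
    (by constructor <;> norm_num) u2 h1
  have u4 := IsPreconnected.union (3 / 4 + I)
    (Or.inl (Or.inl (Or.inl (by constructor <;> simp)))) (by constructor <;> norm_num) u3 h2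
  have e : piU = ((({s : ℂ | 0 < s.re} ∩ {s : ℂ | 0 < s.im} ∪ {s : ℂ | 1 < s.re}) ∪
      {s : ℂ | 0 < s.re} ∩ {s : ℂ | s.im < 0}) ∪ {s : ℂ | 0 < s.re} ∩ {s : ℂ | s.re < 1 / 2}) ∪
      {s : ℂ | 1 / 2 < s.re} ∩ {s : ℂ | s.re < 1} := by
    ext s
    simp only [piU, mem_ofPred_eq, mem_union, mem_inter_iff]
    constructor
    · rintro ⟨a, b, c⟩
      rcases lt_trichotomy 0 s.im with h | h | h
      · exact Or.inl (Or.inl (Or.inl (Or.inl ⟨a, h⟩)))
      · have b' : s.re ≠ 1 / 2 := fun hb => b (Complex.ext (by rw [hb]; norm_num) (by simp [← h]))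
        have c' : s.re ≠ 1 := fun hb => c (Complex.ext (by rw [hb]; norm_num) (by simp [← h]))
        rcases lt_or_gt_of_ne b' with h1 | h1
        · exact Or.inl (Or.inr ⟨a, h1⟩)
        · rcases lt_or_gt_of_ne c' with h2 | h2
          · exact Or.inr ⟨h1, h2⟩
          · exact Or.inl (Or.inl (Or.inl (Or.inr h2)))
      · exact Or.inl (Or.inl (Or.inr ⟨a, h⟩))
    · intro h
      refine ⟨?_, ?_, ?_⟩
      · rcases h with (((h | h) | h) | h) | h
        · exact h.1
        · linarith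
        · exact h.1
        · exact h.1
        · linarith [h.1]
      · rintro rfl
        norm_num at h
      · rintro rfl
        norm_num at h
  rw [e]
  exact u4

theorem pi_str (r : ℝ) : (r : ℂ) ∈ Str := by
  show |(r : ℂ).im| < π / 2
  rw [ofReal_im, abs_zero]
  exact half_pos Real.pi_pos

theorem pi_rhs_diff (hJ : St_JB1) (r : ℝ) :
    DifferentiableOn ℂ (fun s => Pif s r + Zf (1 / Real.cosh r) s) piU := by
  have hj : ∀ t : ℝ, DifferentiableOn ℂ (fun s => Jf s t) piU := fun t =>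
    hJ.2.2.1 piU (fun c => c) (fun _ => (t : ℂ)) pi_u_open differentiableOn_id
      (differentiableOn_const _) fun c hc => ⟨hc.1, pi_str t⟩
  have hj2 : DifferentiableOn ℂ (fun s => Jf s (-r)) piU := by
    simpa using hj (-r)
  have hp : ∀ c : ℂ, c ≠ 0 → ∀ f : ℂ → ℂ, Differentiable ℂ f →
      DifferentiableOn ℂ (fun s => c ^ f s) piU := fun c hc f hf =>
    (hf.const_cpow (Or.inl hc)).differentiableOn
  have hG : DifferentiableOn ℂ Gamma piU := fun s hs =>
    (differentiableAt_Gamma s fun m hm => by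
      have h := hs.1
      rw [hm] at h
      simp only [neg_re, natCast_re] at h
      linarith [Nat.cast_nonneg (α := ℝ) m]).differentiableWithinAt
  have hz : DifferentiableOn ℂ riemannZeta piU := fun s hs =>
    (differentiableAt_riemannZeta hs.2.2).differentiableWithinAt
  have hs0 : ∀ s ∈ piU, s ≠ 0 := fun s hs h => by
    have := hs.1
    rw [h] at this
    simp at this
  have hL1 : DifferentiableOn ℂ (fun s => Lam (2 * s)) piU := fun s hs => by
    have h1 : 2 * s ≠ 0 := mul_ne_zero two_ne_zero (hs0 s hs)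
    have h2 : 2 * s ≠ 1 := fun h => hs.2.1 (by linear_combination h / 2)
    exact ((differentiableAt_completedZeta h1 h2).comp s (by fun_prop)).differentiableWithinAt
  have hL2 : DifferentiableOn ℂ (fun s => Lam (2 * s - 1)) piU := fun s hs => by
    have h1 : 2 * s - 1 ≠ 0 := fun h => hs.2.1 (by linear_combination h / 2)
    have h2 : 2 * s - 1 ≠ 1 := fun h => hs.2.2 (by linear_combination h / 2)
    exact ((differentiableAt_completedZeta h1 h2).comp s (by fun_prop)).differentiableWithinAt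
  have hc : ((1 / Real.cosh r : ℝ) : ℂ) ≠ 0 :=
    ofReal_ne_zero.2 (one_div_pos.2 (Real.cosh_pos r)).ne'
  have h2p : (2 * π : ℂ) ≠ 0 := mul_ne_zero two_ne_zero (ofReal_ne_zero.2 Real.pi_pos.ne')
  unfold Pif Zf
  refine ((((hp _ h2p _ (by fun_prop)).mul hG).mul (hz.pow 2)).mul ((hj r).add hj2)).add
    (DifferentiableOn.add ?_ ?_)
  · exact (((hL1.const_mul 2).mul (hp _ hc _ differentiable_id))).div differentiableOn_id hs0
  · exact (((hL2.const_mul 2).mul (hp _ hc _ (by fun_prop)))).div (by fun_prop)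
      fun s hs => sub_ne_zero.2 hs.2.2.symm

theorem t_pi : T_PI := by
  intro hP hJ1 hJ2 hZ hV hU hE hE2 r s h0 h1 h2
  refine hP.2.2.1 (fun s => PIl r s) (fun s => Pif s r + Zf (1 / Real.cosh r) s) piU 2 3
    pi_u_open pi_u_conn (pi_diff hP hV r).differentiableOn (pi_rhs_diff hJ1 r) (by norm_num)
    (fun x hx => ?_) ⟨h0, h1, h2⟩
  have hx1 : 1 < (x : ℂ).re := by rw [ofReal_re]; linarith [hx.1]
  refine ⟨⟨by linarith, fun h => ?_, fun h => ?_⟩, pi_right hJ2 hZ hV hU hE hE2 r hx1⟩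
  · rw [h] at hx1; norm_num at hx1
  · rw [h] at hx1; norm_num at hx1

end

end Pool.Agent.Lib.E2
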