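import Pool.Agent.Lib.E2.Blue

/-! Plancherel formula along the ray. -/

namespace Pool.Agent.Lib.E2

noncomputable section

open Complex MeasureTheory Set Filter Topology
open scoped Real FourierTransform

namespace PL

theorem int_exp_abs {c : ℝ} (hc : 0 < c) : Integrable fun x : ℝ => Real.exp (-(c * |x|)) := by
  rw [← integrableOn_univ, ← Iic_union_Ioi (a := (0 : ℝ))]
  refine IntegrableOn.union ?_ ?_
  · refine (integrableOn_exp_mul_Iic hc 0).congr_fun (fun x hx => ?_) measurableSet_Iic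
    simp only [abs_of_nonpos (mem_Iic.1 hx), mul_neg, neg_neg]
  · refine (integrableOn_exp_mul_Ioi (neg_neg_of_pos hc) 0).congr_fun (fun x hx => ?_)
      measurableSet_Ioi
    simp only [abs_of_pos (mem_Ioi.1 hx), neg_mul]

theorem cov (F : ℝ → ℂ) : ∫ y in Ioi (1 : ℝ), F y / y = ∫ x in Ioi (0 : ℝ), F (Real.exp x) := by
  have h := integral_image_eq_integral_abs_deriv_smul (s := Ioi (0 : ℝ)) measurableSet_Ioi
    (fun x _ => (Real.hasDerivAt_exp x).hasDerivWithinAt) Real.exp_injective.injOn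
    (fun y : ℝ => F y / y)
  rw [Real.image_exp_Ioi, Real.exp_zero] at h
  rw [h]
  refine setIntegral_congr_fun measurableSet_Ioi fun x _ => ?_
  have h0 : ((Real.exp x : ℝ) : ℂ) ≠ 0 := ofReal_ne_zero.2 (Real.exp_pos x).ne'
  simp only [abs_of_pos (Real.exp_pos x), real_smul]
  field_simp

theorem split {H : ℝ → ℂ} (hH : Integrable H) :
    ∫ x, H x = ∫ x in Ioi (0 : ℝ), (H x + H (-x)) := by
  rw [integral_add hH.integrableOn hH.comp_neg.integrableOn,
    ← intervalIntegral.integral_Iic_add_Ioi (b := 0) hH.integrableOn hH.integrableOn, add_comm]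
  congr 1
  have := integral_comp_neg_Iic (0 : ℝ) fun x => H (-x)
  simpa only [neg_neg, neg_zero] using this

theorem planch {G L : ℝ → ℂ} {g : ℝ → ℝ} (hc : Continuous G) (hi : Integrable G)
    (he : ∀ x, G (-x) = G x) (hL : ∀ t : ℝ, ∫ x : ℝ, G x * exp (t * I * x) = L t)
    (hg : Integrable g) (hb : ∀ t, ‖L t‖ ≤ g t) :
    ∫ x, G x ^ 2 = (1 / (2 * π) : ℂ) * ∫ t : ℝ, L t * L (-t) := by
  have hp : (2 * π : ℝ) ≠ 0 := by positivity
  have hF : ∀ w : ℝ, 𝓕 G w = L (-(2 * π * w)) := fun w => by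
    rw [Real.fourier_real_eq_integral_exp_smul, ← hL]
    refine integral_congr_ae (Eventually.of_forall fun x => ?_)
    simp only [smul_eq_mul]
    rw [mul_comm]
    congr 2
    push_cast
    ring
  have hE : ∀ w : ℝ, 𝓕 G (-w) = 𝓕 G w := fun w => by
    rw [← Real.fourierInv_eq_fourier_neg, Real.fourierInv_eq_fourier_comp_neg]
    simp only [he]
  have hcF : Continuous (𝓕 G) := VectorFourier.fourierIntegral_continuous
    Real.continuous_fourierChar (innerSL ℝ).continuous₂ hi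
  have hiF : Integrable (𝓕 G) := by
    refine Integrable.mono' (hg.comp_mul_left' (R := -(2 * π)) (neg_ne_zero.2 hp))
      hcF.aestronglyMeasurable (Eventually.of_forall fun w => ?_)
    rw [hF, neg_mul]
    exact hb _
  have hinv : ∀ x, 𝓕 (𝓕 G) x = G x := fun x => by
    have := congrFun (hc.fourierInv_fourier_eq hi hiF) (-x)
    rwa [Real.fourierInv_eq_fourier_neg, neg_neg, he] at this
  have hfl : ∫ x, 𝓕 (𝓕 G) x • G x = ∫ w, 𝓕 G w • 𝓕 G w := by
    have h := VectorFourier.integral_fourierIntegral_smul_eq_flip (μ := volume) (ν := volume)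
      (L := innerₗ ℝ) Real.continuous_fourierChar (innerSL ℝ).continuous₂ hiF hi
    rw [flip_innerₗ] at h
    exact h
  have h1 : ∫ x, G x ^ 2 = ∫ w : ℝ, (fun t : ℝ => L t * L (-t)) (2 * π * w) := by
    calc ∫ x, G x ^ 2 = ∫ x, 𝓕 (𝓕 G) x • G x := by simp only [hinv, smul_eq_mul, sq]
      _ = ∫ w, 𝓕 G w • 𝓕 G w := hfl
      _ = _ := by
        refine integral_congr_ae (Eventually.of_forall fun w => ?_)
        simp only [smul_eq_mul]
        nth_rewrite 1 [← hE w]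
        rw [hF, hF, mul_neg, neg_neg]
  rw [h1, Measure.integral_comp_mul_left (fun t : ℝ => L t * L (-t)) (2 * π),
    abs_of_pos (by positivity), real_smul]
  push_cast
  rw [one_div]

theorem lin_le (l a : ℂ) (ha : a.re = 1 / 2) {x : ℝ} (hx : 0 ≤ x) :
    ‖(l - x) * exp (-(a * x))‖ ≤ (‖l‖ + 4) * Real.exp (-(1 / 4 * x)) := by
  have h1 : ‖exp (-(a * x))‖ = Real.exp (-(1 / 4 * x)) * Real.exp (-(1 / 4 * x)) := by
    rw [norm_exp, ← Real.exp_add]
    congr 1
    simp [ha]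
    ring
  have h2 : ‖l - x‖ ≤ ‖l‖ + x := by
    refine (norm_sub_le _ _).trans ?_
    rw [norm_real, Real.norm_of_nonneg hx]
  have h3 : Real.exp (-(1 / 4 * x)) ≤ 1 := Real.exp_le_one_iff.2 (by linarith)
  have h4 : x * Real.exp (-(1 / 4 * x)) ≤ 4 := by
    have h5 := Real.add_one_le_exp (1 / 4 * x)
    rw [Real.exp_neg, ← div_eq_mul_inv, div_le_iff₀ (Real.exp_pos _)]
    linarith
  have h6 := Real.exp_pos (-(1 / 4 * x))
  rw [norm_mul, h1, ← mul_assoc]
  refine mul_le_mul_of_nonneg_right ?_ h6.le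
  calc ‖l - x‖ * Real.exp (-(1 / 4 * x)) ≤ (‖l‖ + x) * Real.exp (-(1 / 4 * x)) :=
        mul_le_mul_of_nonneg_right h2 h6.le
    _ ≤ ‖l‖ + 4 := by nlinarith [norm_nonneg l]

theorem lin_int (l a : ℂ) (ha : a.re = 1 / 2) :
    IntegrableOn (fun x : ℝ => (l - x) * exp (-(a * x))) (Ioi 0) := by
  refine Integrable.mono' (((integrableOn_exp_mul_Ioi (a := -(1 / 4)) (by norm_num) 0)).const_mul
    (‖l‖ + 4)) (by fun_prop : Continuous fun x : ℝ => (l - x) * exp (-(a * x))).aestronglyMeasurable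
    ?_
  filter_upwards [ae_restrict_mem measurableSet_Ioi] with x hx
  rw [neg_mul]
  exact lin_le l a ha (le_of_lt hx)

theorem lin_val (l a : ℂ) (ha : a.re = 1 / 2) :
    ∫ x in Ioi (0 : ℝ), (l - x) * exp (-(a * x)) = l / a - 1 / a ^ 2 := by
  have h0 : a ≠ 0 := fun h => by rw [h] at ha; norm_num at ha
  have hd : ∀ x ∈ Ici (0 : ℝ), HasDerivAt (fun x : ℝ => -a⁻¹ * ((l - a⁻¹ - x) * exp (-(a * x))))
      ((l - x) * exp (-(a * x))) x := fun x _ => by
    have h1 : HasDerivAt (fun z : ℂ => -a⁻¹ * ((l - a⁻¹ - z) * exp (-(a * z))))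
        (-a⁻¹ * (-1 * exp (-(a * x)) + (l - a⁻¹ - x) * (exp (-(a * x)) * -(a * 1)))) (x : ℂ) :=
      (((hasDerivAt_id (x : ℂ)).const_sub (l - a⁻¹)).mul
        (((hasDerivAt_id (x : ℂ)).const_mul a).neg.cexp)).const_mul (-a⁻¹)
    have h2 : -a⁻¹ * (-1 * exp (-(a * x)) + (l - a⁻¹ - x) * (exp (-(a * x)) * -(a * 1))) =
        (l - x) * exp (-(a * x)) := by
      field_simp
      ring
    rw [h2] at h1
    exact h1.comp_ofReal
  have ht : Tendsto (fun x : ℝ => -a⁻¹ * ((l - a⁻¹ - x) * exp (-(a * x)))) atTop (𝓝 0) := by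
    have h1 : Tendsto (fun x : ℝ => (‖l - a⁻¹‖ + 4) * Real.exp (-(1 / 4 * x))) atTop (𝓝 0) := by
      have := (Real.tendsto_exp_neg_atTop_nhds_zero.comp
        (tendsto_id.const_mul_atTop (by norm_num : (0 : ℝ) < 1 / 4))).const_mul (‖l - a⁻¹‖ + 4)
      simpa using this
    have h2 : Tendsto (fun x : ℝ => (l - a⁻¹ - x) * exp (-(a * x))) atTop (𝓝 0) :=
      squeeze_zero_norm' ((eventually_ge_atTop 0).mono fun x hx => lin_le _ a ha hx) h1
    simpa using h2.const_mul (-a⁻¹)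
  rw [integral_Ioi_of_hasDerivAt_of_tendsto' hd (lin_int l a ha) ht]
  simp only [ofReal_zero, mul_zero, neg_zero, exp_zero]
  field_simp
  ring

theorem exp_cpow (x : ℝ) (w : ℂ) : ((Real.exp x : ℝ) : ℂ) ^ w = exp (x * w) := by
  rw [cpow_def_of_ne_zero (ofReal_ne_zero.2 (Real.exp_pos x).ne'), ← ofReal_log (Real.exp_pos x).le,
    Real.log_exp]

theorem Cm_exp (r x : ℝ) : Cm r (Real.exp x) =
    (√(1 / Real.cosh r) : ℝ) * ((el (1 / Real.cosh r) - x) * exp (-(1 / 2 * x))) := by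
  have hc : 0 < 1 / Real.cosh r := one_div_pos.2 (Real.cosh_pos r)
  have h1 : 1 / (Real.exp x * Real.cosh r) = Real.exp (Real.log (1 / Real.cosh r) - x) := by
    rw [Real.exp_sub, Real.exp_log hc]
    field_simp
  have h2 : √(1 / Real.cosh r) = Real.exp (Real.log (1 / Real.cosh r) * (1 / 2)) := by
    rw [Real.sqrt_eq_rpow, Real.rpow_def_of_pos hc]
  rw [Cm, Cc, h1, exp_cpow, ← ofReal_log (Real.exp_pos _).le, Real.log_exp, h2, el, ofReal_exp]
  push_cast
  rw [mul_left_comm, ← exp_add, mul_comm]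
  congr 1
  · ring
  · congr 1
    ring

theorem V_cont (h : St_VB2) (r : ℝ) : Continuous fun x : ℝ => Vr r (Real.exp x) (1 / 2) := by
  have h1 : Continuous fun x : ℝ => ((((Real.exp x * Real.tanh r : ℝ) : ℂ),
      ((Real.exp x / Real.cosh r : ℝ) : ℂ), (1 / 2 : ℂ)) : ℂ × ℂ × ℂ) := by fun_prop
  refine h.2.1.comp_continuous h1 fun x => ?_
  simp only [mem_ofPred_eq, ofReal_im, abs_zero, ofReal_re]
  exact div_pos (Real.exp_pos x) (Real.cosh_pos r)

theorem V_le (h : St_VB2) (r : ℝ) : ∃ K : ℝ, ∀ x : ℝ, 0 ≤ x →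
    ‖Vr r (Real.exp x) (1 / 2)‖ ≤ K * Real.exp (-(1 / Real.cosh r * x)) := by
  obtain ⟨C, k, hC⟩ := h.2.2.2.1 0
  have hc := Real.cosh_pos r
  refine ⟨|C| * (1 + Real.cosh r) ^ k, fun x hx => ?_⟩
  have hp : 0 < Real.exp x / Real.cosh r := div_pos (Real.exp_pos x) hc
  have h1 := hC 1 ⟨one_pos, le_rfl⟩ _ hp ((Real.exp x * Real.tanh r : ℝ) : ℂ)
    ((Real.exp x / Real.cosh r : ℝ) : ℂ) (1 / 2)
    ⟨by rw [norm_real, Real.norm_of_nonneg hp.le, div_one], by
      simp only [ofReal_im, abs_zero, ofReal_re, one_mul, sub_zero, le_refl]⟩ (by norm_num)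
  refine h1.trans ?_
  have h2 : 1 + x ≤ Real.exp x := by linarith [Real.add_one_le_exp x]
  have h3 : 1 / (Real.exp x / Real.cosh r) ≤ Real.cosh r := by
    rw [one_div_div, div_le_iff₀ (Real.exp_pos x)]
    nlinarith
  have h4 : 1 / Real.cosh r * x ≤ Real.exp x / Real.cosh r := by
    rw [one_div_mul_eq_div]
    exact div_le_div_of_nonneg_right (by linarith) hc.le
  have h5 : (1 / 2 : ℂ).im = 0 := by norm_num
  rw [one_pow, div_one, h5]
  refine mul_le_mul (mul_le_mul (le_abs_self C) ?_ (by positivity) (abs_nonneg C)) ?_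
    (Real.exp_pos _).le (by positivity)
  · exact pow_le_pow_left₀ (by positivity) (by linarith) k
  · rw [Real.exp_le_exp]
    simp only [one_mul, abs_zero, mul_zero, zero_div, sub_zero]
    linarith

theorem poly_le {b u : ℝ} (hb : 0 < b) (hu : 0 ≤ u) :
    (1 + u) ^ 5 ≤ (1 + 10 / b) ^ 5 * Real.exp (b / 2 * u) := by
  have h1 : 1 + u ≤ (1 + 10 / b) * Real.exp (b / 10 * u) := by
    have h2 := Real.add_one_le_exp (b / 10 * u)
    have h3 : 0 < 10 / b := by positivity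
    have h4 : 10 / b * (b / 10 * u) = u := by field_simp
    have h5 : 0 ≤ b / 10 * u := by positivity
    nlinarith
  calc (1 + u) ^ 5 ≤ ((1 + 10 / b) * Real.exp (b / 10 * u)) ^ 5 :=
        pow_le_pow_left₀ (by positivity) h1 5
    _ = _ := by
        rw [mul_pow, ← Real.exp_nat_mul]
        congr 2
        push_cast
        ring

theorem sk_eq (t : ℝ) : (1 / 2 + t * I : ℂ) = sk t := rfl

theorem Lw_le (hB : St_BET) (hN : St_NB) (hZ : St_ZB1) (r : ℝ) : ∃ K b : ℝ, 0 < b ∧ ∀ t : ℝ,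
    ‖Lw r (t * I)‖ ≤ K * Real.exp (-(b * |t|)) := by
  obtain ⟨C1, h1⟩ := hB.2.2.2.2.2.1
  obtain ⟨C2, a, ha, h2⟩ := hN.2.2.2.2.2 r
  obtain ⟨-, -, -, -, -, -, -, -, -, -, -, -, -, -, -, C3, h3⟩ := hZ
  have hb : 0 < π / 2 - a := sub_pos.2 ha
  refine ⟨(1 + |C3|) * |C1| * |C2| * (1 + 10 / (π / 2 - a)) ^ 5, (π / 2 - a) / 2, half_pos hb,
    fun t => ?_⟩
  have hre : (sk t).re = 1 / 2 := by simp [sk]
  have him : (sk t).im = t := by simp [sk]
  have ht := abs_nonneg t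
  have e1 : ‖riemannZeta (sk t) ^ 2‖ ≤ (1 + |C3|) * (1 + |t|) ^ 2 := by
    have h4 := h3 t
    have h5 : z4 t = (‖riemannZeta (sk t)‖ ^ 2) ^ 2 := by rw [z4]; ring
    have h6 : C3 * (1 + |t|) ^ 2 ≤ |C3| * (1 + |t|) ^ 2 :=
      mul_le_mul_of_nonneg_right (le_abs_self _) (by positivity)
    have h7 : 1 ≤ (1 + |t|) ^ 2 := one_le_pow₀ (by linarith)
    rw [norm_pow]
    nlinarith [sq_nonneg (‖riemannZeta (sk t)‖ ^ 2 - 1)]
  have e2 : ‖Gamma (sk t)‖ ≤ |C1| * (1 + |t|) ^ 3 * Real.exp (-(π / 2) * |t|) := by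
    have := h1 (sk t) (by rw [hre]; norm_num) (by rw [hre]; norm_num)
    rw [him] at this
    exact this.trans (by gcongr; exact le_abs_self _)
  have e3 : ‖(2 * π : ℂ) ^ (-sk t)‖ ≤ 1 := by
    have h4 : (2 * π : ℂ) = ((2 * π : ℝ) : ℂ) := by push_cast; ring
    rw [h4, norm_cpow_eq_rpow_re_of_pos (by positivity), neg_re, hre]
    exact Real.rpow_le_one_of_one_le_of_nonpos (by linarith [Real.pi_gt_three]) (by norm_num)
  have e4 : ‖(Real.cosh r : ℂ) ^ (t * I)‖ = 1 := by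
    rw [norm_cpow_eq_rpow_re_of_pos (Real.cosh_pos r)]
    simp
  have e5 : ‖Nf (sk t) r‖ ≤ |C2| * Real.exp (a * |t|) := by
    have := h2 (sk t) (by rw [hre]; norm_num) (by rw [hre]; norm_num)
    rw [him] at this
    exact this.trans (by gcongr; exact le_abs_self _)
  have e6 := poly_le hb ht
  have e7 : Real.exp ((π / 2 - a) / 2 * |t|) * (Real.exp (-(π / 2) * |t|) * Real.exp (a * |t|)) =
      Real.exp (-((π / 2 - a) / 2 * |t|)) := by
    rw [← Real.exp_add, ← Real.exp_add]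
    congr 1
    ring
  rw [Lw, sk_eq, norm_mul, norm_mul, norm_mul, norm_mul, e4, mul_one]
  calc ‖riemannZeta (sk t) ^ 2‖ * ‖Gamma (sk t)‖ * ‖(2 * π : ℂ) ^ (-sk t)‖ * ‖Nf (sk t) r‖
      ≤ ((1 + |C3|) * (1 + |t|) ^ 2) * (|C1| * (1 + |t|) ^ 3 * Real.exp (-(π / 2) * |t|)) * 1 *
        (|C2| * Real.exp (a * |t|)) := by gcongr
    _ = (1 + |C3|) * |C1| * |C2| * (1 + |t|) ^ 5 *
        (Real.exp (-(π / 2) * |t|) * Real.exp (a * |t|)) := by ring
    _ ≤ (1 + |C3|) * |C1| * |C2| * ((1 + 10 / (π / 2 - a)) ^ 5 *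
        Real.exp ((π / 2 - a) / 2 * |t|)) *
        (Real.exp (-(π / 2) * |t|) * Real.exp (a * |t|)) := by gcongr
    _ = _ := by rw [← e7]; ring

theorem Lw_mul (hB : St_BET) (hZ : St_ZB1) (r t : ℝ) :
    Lw r (t * I) * Lw r ((-t : ℝ) * I) = (z4 t : ℂ) * wf r t := by
  have h1 := (hB.2.2.2.2.2.2 t).1
  obtain ⟨-, -, -, -, -, -, -, -, -, -, -, -, -, -, h2, -⟩ := hZ
  replace h2 := h2 t
  have hp : (2 * π : ℂ) ≠ 0 := mul_ne_zero two_ne_zero (ofReal_ne_zero.2 Real.pi_ne_zero)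
  have hc : (Real.cosh r : ℂ) ≠ 0 := ofReal_ne_zero.2 (Real.cosh_pos r).ne'
  have h3 : (2 * π : ℂ) ^ (-sk t) * (2 * π : ℂ) ^ (-sk (-t)) = (2 * π : ℂ)⁻¹ := by
    rw [← cpow_add _ _ hp, ← cpow_neg_one]
    congr 1
    simp only [sk]
    push_cast
    ring
  have h4 : (Real.cosh r : ℂ) ^ (t * I) * (Real.cosh r : ℂ) ^ ((-t : ℝ) * I) = 1 := by
    rw [← cpow_add _ _ hc, ← cpow_zero (Real.cosh r : ℂ)]
    congr 1
    push_cast
    ring
  have h5 : ((Real.cosh (π * t) : ℝ) : ℂ) ≠ 0 := ofReal_ne_zero.2 (Real.cosh_pos _).ne'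
  have h6 : (π : ℂ) ≠ 0 := ofReal_ne_zero.2 Real.pi_ne_zero
  rw [Lw, Lw, sk_eq, sk_eq, wf]
  calc _ = (riemannZeta (sk t) ^ 2 * riemannZeta (sk (-t)) ^ 2) *
        (Gamma (sk t) * Gamma (sk (-t))) *
        ((2 * π : ℂ) ^ (-sk t) * (2 * π : ℂ) ^ (-sk (-t))) *
        ((Real.cosh r : ℂ) ^ (t * I) * (Real.cosh r : ℂ) ^ ((-t : ℝ) * I)) *
        (Nf (sk t) r * Nf (sk (-t)) r) := by ring
    _ = _ := by
        rw [h1, h2, h3, h4, ofReal_div, ofReal_mul, ofReal_ofNat]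
        field_simp

end PL

theorem t_pl : T_PL := by
  intro hB hN hZ hV _ hW r
  have hσ : 0 < 1 / Real.cosh r := one_div_pos.2 (Real.cosh_pos r)
  set s : ℂ := ((√(1 / Real.cosh r) : ℝ) : ℂ) with hs
  set l : ℂ := el (1 / Real.cosh r) with hl
  let v : ℝ → ℂ := fun x => Vr r (Real.exp x) (1 / 2)
  let c : ℝ → ℂ := fun x => s * ((l - x) * exp (-(1 / 2 * x)))
  have hvc : Continuous v := PL.V_cont hV r
  have hcc : Continuous c := by unfold c; fun_prop
  obtain ⟨K, hK⟩ := PL.V_le hV r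
  have hvi : Integrable fun x => v |x| :=
    Integrable.mono' ((PL.int_exp_abs hσ).const_mul K)
      (hvc.comp continuous_abs).aestronglyMeasurable
      (Eventually.of_forall fun x => hK _ (abs_nonneg x))
  have hci : Integrable fun x => c |x| := by
    refine Integrable.const_mul ?_ s
    refine Integrable.mono' ((PL.int_exp_abs (c := 1 / 4) (by norm_num)).const_mul (‖l‖ + 4))
      (Continuous.aestronglyMeasurable (by fun_prop))
      (Eventually.of_forall fun x => PL.lin_le l (1 / 2) (by norm_num) (abs_nonneg x))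
  have hn : ∀ t x : ℝ, ‖exp (t * I * x)‖ ≤ 1 := fun t x => by
    rw [norm_exp]
    simp
  have hm : ∀ {f : ℝ → ℂ}, Integrable f → ∀ t : ℝ, Integrable fun x : ℝ => f x * exp (t * I * x) :=
    fun hf t => hf.mul_bdd (Continuous.aestronglyMeasurable (by fun_prop))
      (Eventually.of_forall (hn t))
  have hL : ∀ t : ℝ, ∫ x : ℝ, (v |x| - c |x|) * exp (t * I * x) = Lw r (t * I) := fun t => by
    have e1 : ∫ x : ℝ, v |x| * exp (t * I * x) = Lw r (t * I) +
        s * (l / (1 / 2 - t * I) - 1 / (1 / 2 - t * I) ^ 2 + l / (1 / 2 + t * I) -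
          1 / (1 / 2 + t * I) ^ 2) := by
      rw [← hW r (t * I) (by norm_num) (fun h => by
        have := congrArg re h
        norm_num at this), PL.cov, PL.split (hm hvi t)]
      refine setIntegral_congr_fun measurableSet_Ioi fun x hx => ?_
      simp only [abs_neg, abs_of_pos (mem_Ioi.1 hx), PL.exp_cpow]
      rw [mul_add]
      congr 3
      · ring
      · push_cast
        ring
    have e2 : ∫ x : ℝ, c |x| * exp (t * I * x) =
        s * (l / (1 / 2 - t * I) - 1 / (1 / 2 - t * I) ^ 2 + l / (1 / 2 + t * I) -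
          1 / (1 / 2 + t * I) ^ 2) := by
      have a1 : (1 / 2 - t * I : ℂ).re = 1 / 2 := by norm_num
      have a2 : (1 / 2 + t * I : ℂ).re = 1 / 2 := by norm_num
      rw [PL.split (hm hci t), add_sub_assoc, ← PL.lin_val l _ a1, ← PL.lin_val l _ a2,
        ← integral_add (PL.lin_int l _ a1) (PL.lin_int l _ a2), ← integral_const_mul]
      refine setIntegral_congr_fun measurableSet_Ioi fun x hx => ?_
      simp only [abs_neg, abs_of_pos (mem_Ioi.1 hx), c]
      have b1 : exp (-((1 / 2 - t * I) * x)) = exp (-(1 / 2 * x)) * exp (t * I * x) := by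
        rw [← exp_add]
        congr 1
        ring
      have b2 : exp (-((1 / 2 + t * I) * x)) = exp (-(1 / 2 * x)) * exp (t * I * (-x : ℝ)) := by
        rw [← exp_add]
        congr 1
        push_cast
        ring
      rw [b1, b2]
      ring
    simp only [sub_mul]
    rw [integral_sub (hm hvi t) (hm hci t), e1, e2, add_sub_cancel_right]
  obtain ⟨K', b, hb, hK'⟩ := PL.Lw_le hB hN hZ r
  have hG : Continuous fun x => v |x| - c |x| := (hvc.sub hcc).comp continuous_abs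
  have hP := PL.planch (L := fun t : ℝ => Lw r (t * I)) hG (hvi.sub hci)
    (fun x => by simp only [abs_neg]) hL ((PL.int_exp_abs hb).const_mul K') hK'
  simp only [PL.Lw_mul hB hZ] at hP
  have hbd : ∀ x, ‖v |x| - c |x|‖ ≤ |K| + ‖s‖ * (‖l‖ + 4) := fun x => by
    have h1 := hK _ (abs_nonneg x)
    have h2 := PL.lin_le l (1 / 2) (by norm_num) (abs_nonneg x)
    have h3 : Real.exp (-(1 / Real.cosh r * |x|)) ≤ 1 :=
      Real.exp_le_one_iff.2 (neg_nonpos.2 (by positivity))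
    have h4 : Real.exp (-(1 / 4 * |x|)) ≤ 1 :=
      Real.exp_le_one_iff.2 (neg_nonpos.2 (by positivity))
    refine (norm_sub_le _ _).trans (add_le_add ?_ ?_)
    · refine h1.trans ((mul_le_mul_of_nonneg_right (le_abs_self K) (Real.exp_pos _).le).trans ?_)
      exact mul_le_of_le_one_right (abs_nonneg K) h3
    · rw [norm_mul]
      exact mul_le_mul_of_nonneg_left (h2.trans (mul_le_of_le_one_right (by positivity) h4))
        (norm_nonneg s)
  have hsq : Integrable fun x => (v |x| - c |x|) ^ 2 := by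
    simp only [sq]
    exact (hvi.sub hci).mul_bdd hG.aestronglyMeasurable (Eventually.of_forall hbd)
  rw [FF, ← hP, PL.split hsq, PL.cov fun y => (Vr r y (1 / 2) - Cm r y) ^ 2, ← integral_const_mul]
  refine setIntegral_congr_fun measurableSet_Ioi fun x hx => ?_
  simp only [abs_neg, abs_of_pos (mem_Ioi.1 hx), PL.Cm_exp, v, c]
  ring

end

end Pool.Agent.Lib.E2
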