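import Pool.Agent.Lib.E2.Blue

namespace Pool.Agent.Lib.E2

noncomputable section

open Complex MeasureTheory Set Filter Topology
open scoped Real UpperHalfPlane MatrixGroups ComplexConjugate Modular ENNReal InnerProductSpace

namespace POLAR

/-- `cosh (r/2)` -/
def sc (c : ℝ) : ℝ := √(1 + c ^ 2)

/-- `sinh r` -/
def uu (c : ℝ) : ℝ := 2 * c * sc c

/-- the real denominator -/
def DD (c b : ℝ) : ℝ := 1 + 2 * c ^ 2 + uu c * Real.cos b

theorem sc_pos (c : ℝ) : 0 < sc c := Real.sqrt_pos.2 (by positivity)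

theorem sc_sq (c : ℝ) : sc c ^ 2 = 1 + c ^ 2 := Real.sq_sqrt (by positivity)

theorem uu_sq (c : ℝ) : uu c ^ 2 = (1 + 2 * c ^ 2) ^ 2 - 1 := by
  rw [uu, mul_pow, sc_sq]; ring

theorem uu_pos {c : ℝ} (hc : 0 < c) : 0 < uu c := by
  have := sc_pos c
  unfold uu; positivity

theorem DD_pos (c b : ℝ) : 0 < DD c b := by
  have h1 : |uu c * Real.cos b| < 1 + 2 * c ^ 2 := by
    apply abs_lt_of_sq_lt_sq _ (by positivity)
    have h2 := Real.cos_sq_le_one b
    have h3 := uu_sq c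
    have h4 := sq_nonneg (uu c)
    rw [mul_pow]
    nlinarith
  have := (abs_lt.1 h1).1
  unfold DD
  linarith

theorem cpow_half (c : ℝ) : (1 + (c : ℂ) ^ 2) ^ (1 / 2 : ℂ) = (sc c : ℂ) := by
  rw [sc, Real.sqrt_eq_rpow, Complex.ofReal_cpow (by positivity)]
  push_cast
  rfl

theorem den_eq (c b : ℝ) : den c b = (DD c b : ℂ) := by
  rw [den, cpow_half, DD, uu]
  push_cast
  ring

/-- the polar map -/
def Ph (z : ℍ) (p : ℝ × ℝ) : ℝ × ℝ :=
  (z.re + z.im * (uu p.1 * Real.sin p.2 * (DD p.1 p.2)⁻¹), z.im * (DD p.1 p.2)⁻¹)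

theorem px_eq (z : ℍ) (c b : ℝ) : px z c b = ((Ph z (c, b)).1 : ℂ) := by
  rw [px, den_eq, cpow_half, Ph, uu]
  push_cast
  ring

theorem py_eq (z : ℍ) (c b : ℝ) : py z c b = ((Ph z (c, b)).2 : ℂ) := by
  rw [py, den_eq, Ph]
  push_cast
  ring

theorem ppt_eq (z : ℍ) (p : ℝ × ℝ) : ppt z p.1 p.2 = pt (Ph z p).1 (Ph z p).2 := by
  rw [ppt, px_eq, py_eq, ofReal_re, ofReal_re]

theorem Ph_pos (z : ℍ) (p : ℝ × ℝ) : 0 < (Ph z p).2 := mul_pos z.im_pos (inv_pos.2 (DD_pos _ _))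

theorem Ph_q (z : ℍ) (p : ℝ × ℝ) :
    1 + ((z.re - (Ph z p).1) ^ 2 + (z.im - (Ph z p).2) ^ 2) / (2 * z.im * (Ph z p).2) = 1 + 2 * p.1 ^ 2 := by
  have h1 := (DD_pos p.1 p.2).ne'
  have h2 := z.im_pos.ne'
  have h3 := uu_sq p.1
  have h4 := Real.sin_sq_add_cos_sq p.2
  have h5 : DD p.1 p.2 = 1 + 2 * p.1 ^ 2 + uu p.1 * Real.cos p.2 := rfl
  simp only [Ph]
  field_simp
  rw [h5]
  linear_combination (z.im ^ 2 * uu p.1 ^ 2) * h4 + z.im ^ 2 * h3

theorem cont_Ph (z : ℍ) : Continuous (Ph z) := by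
  have h1 : Continuous uu := by unfold uu sc; fun_prop
  have h2 : Continuous fun p : ℝ × ℝ => DD p.1 p.2 := by unfold DD; fun_prop
  have h3 : Continuous fun p : ℝ × ℝ => (DD p.1 p.2)⁻¹ := h2.inv₀ fun p => (DD_pos _ _).ne'
  unfold Ph
  fun_prop

theorem det_two (L : ℝ × ℝ →L[ℝ] ℝ × ℝ) :
    L.det = (L (1, 0)).1 * (L (0, 1)).2 - (L (0, 1)).1 * (L (1, 0)).2 := by
  rw [ContinuousLinearMap.det, ← LinearMap.det_toMatrix (Module.Basis.finTwoProd ℝ), Matrix.det_fin_two]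
  simp [LinearMap.toMatrix_apply]

theorem der_uu (c : ℝ) : HasDerivAt uu (2 * (1 + 2 * c ^ 2) / sc c) c := by
  have h1 : HasDerivAt (fun c : ℝ => 1 + c ^ 2) (2 * c) c := by
    simpa using (hasDerivAt_pow 2 c).const_add 1
  have h2 : HasDerivAt sc (2 * c / (2 * sc c)) c := h1.sqrt (by positivity)
  have h3 := ((hasDerivAt_id c).const_mul 2).mul h2
  refine h3.congr_deriv ?_
  have h4 := (sc_pos c).ne'
  have h5 := sc_sq c
  simp only [id]
  field_simp
  linear_combination h5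

theorem exists_der (z : ℍ) (p : ℝ × ℝ) : ∃ L : ℝ × ℝ →L[ℝ] ℝ × ℝ, HasFDerivAt (Ph z) L p ∧
    L.det = 4 * p.1 * (Ph z p).2 ^ 2 := by
  have hu := (der_uu p.1).comp_hasFDerivAt p (hasFDerivAt_fst (𝕜 := ℝ) (p := p))
  have hv0 : HasDerivAt (fun c : ℝ => 1 + 2 * c ^ 2) (4 * p.1) p.1 := by
    refine (((hasDerivAt_pow 2 p.1).const_mul 2).const_add 1).congr_deriv ?_
    simp; ring
  have hv := hv0.comp_hasFDerivAt p (hasFDerivAt_fst (𝕜 := ℝ) (p := p))
  have hc := (Real.hasDerivAt_cos p.2).comp_hasFDerivAt p (hasFDerivAt_snd (𝕜 := ℝ) (p := p))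
  have hs := (Real.hasDerivAt_sin p.2).comp_hasFDerivAt p (hasFDerivAt_snd (𝕜 := ℝ) (p := p))
  have hD : HasFDerivAt (fun p : ℝ × ℝ => DD p.1 p.2) _ p := hv.add (hu.mul hc)
  have hI := (hasDerivAt_inv (DD_pos p.1 p.2).ne').comp_hasFDerivAt p hD
  have hX := (((hu.mul hs).mul hI).const_mul z.im).const_add z.re
  have hY := hI.const_mul z.im
  refine ⟨_, hX.prodMk hY, ?_⟩
  rw [det_two]
  have h1 := (DD_pos p.1 p.2).ne'
  have h2 := (sc_pos p.1).ne'
  have h3 := sc_sq p.1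
  have h4 := Real.sin_sq_add_cos_sq p.2
  have h5 : DD p.1 p.2 = 1 + 2 * p.1 ^ 2 + uu p.1 * Real.cos p.2 := rfl
  have h6 : uu p.1 = 2 * p.1 * sc p.1 := rfl
  simp [Ph]
  field_simp
  rw [h5, h6]
  linear_combination (2 * (2 * p.1 * sc p.1) * (1 + 2 * p.1 ^ 2 + 2 * p.1 * sc p.1 * Real.cos p.2) *
    (1 + 2 * p.1 ^ 2)) * h4

/-- the parameter domain -/
def SS : Set (ℝ × ℝ) := Ioi 0 ×ˢ Ioo (-π) π

theorem meas_SS : MeasurableSet SS := measurableSet_Ioi.prod measurableSet_Ioo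

theorem inj (z : ℍ) : InjOn (Ph z) SS := by
  rintro ⟨c, b⟩ ⟨hc, hb⟩ ⟨c', b'⟩ ⟨hc', hb'⟩ h
  have hz := z.im_pos
  have hc0 : 0 < c := hc
  have hc0' : 0 < c' := hc'
  have h1 := Ph_q z (c, b)
  rw [h, Ph_q] at h1
  have h2 : c' = c := by
    have : c' ^ 2 = c ^ 2 := by simp only at h1; linarith
    exact (pow_left_inj₀ hc0'.le hc0.le two_ne_zero).1 this
  subst h2
  have hu := uu_pos hc0
  have h3 : DD c' b = DD c' b' := inv_injective (mul_left_cancel₀ hz.ne' (congrArg Prod.snd h))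
  have h4 : Real.cos b = Real.cos b' := by
    unfold DD at h3
    exact mul_left_cancel₀ hu.ne' (add_left_cancel h3)
  have h5 : Real.sin b = Real.sin b' := by
    have h6 := mul_left_cancel₀ hz.ne' (add_left_cancel (congrArg Prod.fst h))
    simp only [h3] at h6
    exact mul_left_cancel₀ hu.ne' (mul_right_cancel₀ (inv_pos.2 (DD_pos c' b')).ne' h6)
  have h7 : b = b' := by
    rw [← arg_cos_add_sin_mul_I (θ := b) (Ioo_subset_Ioc_self hb),
      ← arg_cos_add_sin_mul_I (θ := b') (Ioo_subset_Ioc_self hb'),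
      ← ofReal_cos, ← ofReal_sin, ← ofReal_cos, ← ofReal_sin, h4, h5]
  rw [h7]

theorem surj (z : ℍ) {x y : ℝ} (hy : 0 < y) (hx : x ≠ z.re) : (x, y) ∈ Ph z '' SS := by
  have hz := z.im_pos
  have hx2 : 0 < (x - z.re) ^ 2 := by
    have := sub_ne_zero.2 hx
    positivity
  set c : ℝ := √(((x - z.re) ^ 2 + (y - z.im) ^ 2) / (4 * y * z.im)) with hc
  have hc0 : 0 < c := Real.sqrt_pos.2 (by positivity)
  have hc2 : c ^ 2 = ((x - z.re) ^ 2 + (y - z.im) ^ 2) / (4 * y * z.im) := Real.sq_sqrt (by positivity)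
  have hu := uu_pos hc0
  set w : ℂ := ⟨z.im / y - (1 + 2 * c ^ 2), (x - z.re) / y⟩ with hw
  have hw2 : w.im ≠ 0 := div_ne_zero (sub_ne_zero.2 hx) hy.ne'
  have hw0 : w ≠ 0 := fun e => hw2 (by rw [e]; rfl)
  have hn : ‖w‖ = uu c := by
    refine (pow_left_inj₀ (norm_nonneg _) hu.le two_ne_zero).1 ?_
    rw [uu_sq, Complex.sq_norm, normSq_apply]
    simp only [hw]
    rw [hc2]
    field_simp
    ring
  have hcos : uu c * Real.cos (arg w) = z.im / y - (1 + 2 * c ^ 2) := by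
    rw [cos_arg hw0, hn]; field_simp; simp only [hw]; field_simp
  have hsin : uu c * Real.sin (arg w) = (x - z.re) / y := by
    rw [sin_arg, hn]; field_simp; simp only [hw]; field_simp
  have hD : DD c (arg w) = z.im / y := by rw [DD, hcos]; ring
  refine ⟨(c, arg w), ⟨hc0, neg_pi_lt_arg w, arg_lt_pi_iff.2 (Or.inr hw2)⟩, ?_⟩
  simp only [Ph, hD, hsin]
  refine Prod.ext ?_ ?_ <;> simp only <;> field_simp
  ring

theorem image_ae (z : ℍ) : Ph z '' SS =ᵐ[volume] (univ ×ˢ Ioi 0 : Set (ℝ × ℝ)) := by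
  have h0 : (volume : Measure (ℝ × ℝ)) ({z.re} ×ˢ univ) = 0 := by
    rw [Measure.volume_eq_prod, Measure.prod_prod]; simp
  rw [ae_eq_set]
  constructor
  · refine measure_mono_null ?_ measure_empty
    rintro _ ⟨⟨p, -, rfl⟩, hp⟩
    exact hp ⟨trivial, Ph_pos z p⟩
  · refine measure_mono_null ?_ h0
    rintro ⟨x, y⟩ ⟨⟨-, hy⟩, hp⟩
    by_contra hx
    exact hp (surj z hy fun e => hx ⟨e, trivial⟩)

/-- the derivative -/
def LL (z : ℍ) (p : ℝ × ℝ) : ℝ × ℝ →L[ℝ] ℝ × ℝ := (exists_der z p).choose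

theorem LL_der (z : ℍ) : ∀ p ∈ SS, HasFDerivWithinAt (Ph z) (LL z p) SS p :=
  fun p _ => (exists_der z p).choose_spec.1.hasFDerivWithinAt

theorem LL_det (z : ℍ) {p : ℝ × ℝ} (hp : p ∈ SS) : |(LL z p).det| = 4 * p.1 * (Ph z p).2 ^ 2 := by
  have h1 : 0 < p.1 := hp.1
  rw [LL, (exists_der z p).choose_spec.2, abs_of_nonneg (by positivity)]

theorem part1 (hG : St_GEO) (hU : St_UNF1) (z : ℍ) (c b : ℝ) :
    px z c b = ((ppt z c b).re : ℂ) ∧ py z c b = ((ppt z c b).im : ℂ) ∧ qd z (ppt z c b) = 1 + 2 * c ^ 2 := by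
  have h1 := hU.1 (Ph z (c, b)).1 _ (Ph_pos z (c, b))
  rw [← ppt_eq] at h1
  refine ⟨by rw [px_eq, h1.1], by rw [py_eq, h1.2], ?_⟩
  rw [hG.1, h1.1, h1.2]
  exact Ph_q z (c, b)

theorem part2 (hU : St_UNF1) (z : ℍ) : Continuous fun p : ℝ × ℝ => ppt z p.1 p.2 := by
  simp only [ppt_eq]
  exact hU.2.2.1.comp_continuous (cont_Ph z) fun p => ⟨trivial, Ph_pos z p⟩

theorem part3 (hU : St_UNF1) (z : ℍ) (f : ℍ → ℂ) :
    (Integrable f ↔ IntegrableOn (fun p : ℝ × ℝ => ((4 * p.1 : ℝ) : ℂ) * f (ppt z p.1 p.2)) SS) ∧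
    ∫ w, f w = ∫ p in SS, ((4 * p.1 : ℝ) : ℂ) * f (ppt z p.1 p.2) := by
  have h := hU.2.2.2.2.2.1 f
  have he : EqOn (fun p : ℝ × ℝ => |(LL z p).det| •
      (((1 / (Ph z p).2 ^ 2 : ℝ) : ℂ) * f (pt (Ph z p).1 (Ph z p).2)))
      (fun p : ℝ × ℝ => ((4 * p.1 : ℝ) : ℂ) * f (ppt z p.1 p.2)) SS := fun p hp => by
    have h1 := (Ph_pos z p).ne'
    simp only
    rw [LL_det z hp, ppt_eq, real_smul, ← mul_assoc, ← ofReal_mul]
    congr 2
    field_simp
  constructor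
  · rw [h.1, ← integrableOn_congr_set_ae (image_ae z),
      integrableOn_image_iff_integrableOn_abs_det_fderiv_smul volume meas_SS (LL_der z) (inj z)]
    exact integrableOn_congr_fun he meas_SS
  · rw [h.2, ← setIntegral_congr_set (image_ae z),
      integral_image_eq_integral_abs_det_fderiv_smul volume meas_SS (LL_der z) (inj z)]
    exact setIntegral_congr_fun meas_SS he

theorem rad_image : (fun c : ℝ => 1 + 2 * c ^ 2) '' Ioi 0 = Ioi 1 := by
  ext q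
  constructor
  · rintro ⟨c, hc, rfl⟩
    have : 0 < c := hc
    show 1 < 1 + 2 * c ^ 2
    have : 0 < c ^ 2 := by positivity
    linarith
  · intro hq
    have h1 : 0 < (q - 1) / 2 := by
      have : 1 < q := hq
      linarith
    refine ⟨√((q - 1) / 2), Real.sqrt_pos.2 h1, ?_⟩
    simp only
    rw [Real.sq_sqrt h1.le]
    ring

theorem rad_der : ∀ c ∈ Ioi (0 : ℝ), HasDerivWithinAt (fun c : ℝ => 1 + 2 * c ^ 2) (4 * c) (Ioi 0) c := by
  intro c _
  refine (((hasDerivAt_pow 2 c).const_mul 2).const_add 1).hasDerivWithinAt.congr_deriv ?_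
  simp; ring

theorem rad_inj : InjOn (fun c : ℝ => 1 + 2 * c ^ 2) (Ioi 0) := by
  intro a ha b hb h
  have : a ^ 2 = b ^ 2 := by simp only at h; linarith
  exact (pow_left_inj₀ (le_of_lt ha) (le_of_lt hb) two_ne_zero).1 this

theorem meas_qd (hG : St_GEO) (z : ℍ) : Measurable fun w => qd z w :=
  (hG.2.2.1.comp (Continuous.prodMk_right z)).measurable

theorem part4 (hG : St_GEO) (hU : St_UNF1) (z : ℍ) (k : ℝ → ℝ≥0∞) (hk : Measurable k) :
    ∫⁻ w, k (qd z w) = ENNReal.ofReal (2 * π) * ∫⁻ q in Ioi (1 : ℝ), k q := by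
  have hF : Measurable fun w => k (qd z w) := hk.comp (meas_qd hG z)
  have hm : Measurable fun p : ℝ × ℝ => k (qd z (pt p.1 p.2)) * ENNReal.ofReal (1 / p.2 ^ 2) :=
    (hF.comp hU.2.2.2.1).mul (by fun_prop)
  have h1 := setLIntegral_prod_symm (μ := (volume : Measure ℝ)) (ν := (volume : Measure ℝ)) (s := univ)
    (t := Ioi 0) _ hm.aemeasurable
  simp only [Measure.restrict_univ] at h1
  rw [hU.2.2.2.2.1 _ hF, ← h1, ← Measure.volume_eq_prod, ← setLIntegral_congr (image_ae z),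
    lintegral_image_eq_lintegral_abs_det_fderiv_mul volume meas_SS (LL_der z) (inj z),
    setLIntegral_congr_fun (g := fun p : ℝ × ℝ => (ENNReal.ofReal |4 * p.1| * k (1 + 2 * p.1 ^ 2)) * 1)
      meas_SS, SS, Measure.volume_eq_prod, ← Measure.prod_restrict,
    lintegral_prod_mul (f := fun c : ℝ => ENNReal.ofReal |4 * c| * k (1 + 2 * c ^ 2)) (g := fun _ => 1)
      (by fun_prop) aemeasurable_const, ← rad_image,
    lintegral_image_eq_lintegral_abs_deriv_mul measurableSet_Ioi rad_der rad_inj, mul_comm]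
  · congr 1
    rw [lintegral_one, Measure.restrict_apply_univ, Real.volume_Ioo]
    congr 1
    ring
  · intro p hp
    have h2 : 0 < p.1 := hp.1
    have h3 := (Ph_pos z p).ne'
    simp only
    rw [LL_det z hp, ← ppt_eq, (part1 hG hU z p.1 p.2).2.2, mul_one, mul_comm (k _), ← mul_assoc,
      ← ENNReal.ofReal_mul (by positivity), abs_of_pos (by positivity)]
    congr 2
    field_simp

theorem part5 (hG : St_GEO) (hU : St_UNF1) (z : ℍ) (k : ℝ → ℝ) (hi : IntegrableOn k (Ioi 1)) :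
    Integrable (fun w => k (qd z w)) ∧ ∫ w, k (qd z w) = 2 * π * ∫ q in Ioi (1 : ℝ), k q := by
  have h := part3 hU z fun w => (k (qd z w) : ℂ)
  have he : EqOn (fun p : ℝ × ℝ => ((4 * p.1 : ℝ) : ℂ) * (k (qd z (ppt z p.1 p.2)) : ℂ))
      (fun p : ℝ × ℝ => (((|4 * p.1| • k (1 + 2 * p.1 ^ 2)) * 1 : ℝ) : ℂ)) SS := fun p hp => by
    have h2 : 0 < p.1 := hp.1
    simp only
    rw [(part1 hG hU z p.1 p.2).2.2, abs_of_pos (by positivity), smul_eq_mul, mul_one, ofReal_mul (4 * p.1)]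
  rw [← rad_image, integrableOn_image_iff_integrableOn_abs_deriv_smul measurableSet_Ioi rad_der rad_inj] at hi
  constructor
  · have h1 : IntegrableOn (fun p : ℝ × ℝ => (|4 * p.1| • k (1 + 2 * p.1 ^ 2)) * 1) SS := by
      rw [IntegrableOn, SS, Measure.volume_eq_prod, ← Measure.prod_restrict]
      exact Integrable.mul_prod (g := fun _ : ℝ => (1 : ℝ)) hi (integrable_const 1)
    have h2 := h.1.2 ((integrableOn_congr_fun he meas_SS).2 h1.ofReal)
    simpa using h2.re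
  · have h3 : ∫ p in SS, (|4 * p.1| • k (1 + 2 * p.1 ^ 2)) * 1 = 2 * π * ∫ q in Ioi (1 : ℝ), k q := by
      rw [SS, Measure.volume_eq_prod,
        setIntegral_prod_mul (fun c : ℝ => |4 * c| • k (1 + 2 * c ^ 2)) (fun _ : ℝ => (1 : ℝ)), ← rad_image,
        integral_image_eq_integral_abs_deriv_smul measurableSet_Ioi rad_der rad_inj, mul_comm,
        setIntegral_const, smul_eq_mul, mul_one, Real.volume_real_Ioo_of_le (by linarith [Real.pi_pos])]
      ring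
    apply ofReal_injective
    refine integral_ofReal.symm.trans (h.2.trans ?_)
    rw [setIntegral_congr_fun meas_SS he, ← h3]
    exact integral_ofReal

end POLAR

theorem t_polar : T_POLAR := fun hG hU =>
  ⟨POLAR.part1 hG hU, POLAR.part2 hU, POLAR.part3 hU, POLAR.part4 hG hU,
    fun z k _ hi => POLAR.part5 hG hU z k hi⟩

end

end Pool.Agent.Lib.E2
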