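import Pool.Agent.Lib.E2.Blue

namespace Pool.Agent.Lib.E2

open ArithmeticFunction Finset
open scoped Classical

noncomputable section

/-- Indicator of the nonzero squares. -/
def ram1_sq : ArithmeticFunction ℕ := ⟨fun n => if n ≠ 0 ∧ IsSquare n then 1 else 0, by simp⟩

theorem ram1_apply (n : ℕ) : ram1_sq n = if n ≠ 0 ∧ IsSquare n then 1 else 0 := rfl

theorem ram1_mult : ram1_sq.IsMultiplicative := by
  refine ⟨by simp [ram1_apply], fun {m n} h => ?_⟩
  have key : ∀ {a b : ℕ}, a.Coprime b → IsSquare (a * b) → IsSquare a := fun {a b} h ⟨c, hc⟩ => by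
    obtain ⟨d, hd⟩ := exists_eq_pow_of_mul_eq_pow (a := a) (b := b) (c := c) (k := 2)
      (by rw [show GCDMonoid.gcd a b = 1 from h]; exact isUnit_one) (by rw [hc, sq])
    exact ⟨d, by rw [hd, sq]⟩
  simp only [ram1_apply]
  by_cases h1 : m ≠ 0 ∧ IsSquare m
  · by_cases h2 : n ≠ 0 ∧ IsSquare n
    · rw [if_pos h1, if_pos h2, if_pos ⟨mul_ne_zero h1.1 h2.1, h1.2.mul h2.2⟩, mul_one]
    · rw [if_neg h2, if_neg fun k => h2 ⟨right_ne_zero_of_mul k.1, key h.symm (mul_comm m n ▸ k.2)⟩,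
        mul_zero]
  · rw [if_neg h1, if_neg fun k => h1 ⟨left_ne_zero_of_mul k.1, key h k.2⟩, zero_mul]

theorem ram1_pp {p : ℕ} (hp : p.Prime) (i : ℕ) : ram1_sq (p ^ i) = if i % 2 = 0 then 1 else 0 := by
  rw [ram1_apply]
  refine if_congr ⟨fun ⟨h0, c, hc⟩ => ?_, fun h => ⟨pow_ne_zero _ hp.ne_zero, p ^ (i / 2), ?_⟩⟩ rfl rfl
  · have c0 : c ≠ 0 := fun e => h0 (by rw [hc, e])
    have := congrArg (fun n => n.factorization p) hc
    simp only [Nat.factorization_mul c0 c0, hp.factorization_pow, Finsupp.single_eq_same,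
      Finsupp.add_apply] at this
    omega
  · rw [← pow_add]
    congr 1
    omega

theorem ram1_conv (f g : ArithmeticFunction ℕ) {p : ℕ} (hp : p.Prime) (k : ℕ) :
    (f * g) (p ^ k) = ∑ i ∈ range (k + 1), f (p ^ i) * g (p ^ (k - i)) := by
  rw [mul_apply, Nat.sum_divisorsAntidiagonal (f := fun a b => f a * g b),
    Nat.sum_divisors_prime_pow hp]
  exact sum_congr rfl fun i hi => by
    rw [Nat.pow_div (Nat.lt_succ_iff.1 (mem_range.1 hi)) hp.pos]

theorem ram1_a (k : ℕ) : 6 * ∑ i ∈ range (k + 1), (if i % 2 = 0 then 1 else 0) * (k - i + 1) ^ 2 =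
    (k + 1) * (k + 2) * (k + 3) := by
  induction k using Nat.twoStepInduction with
  | zero => rfl
  | one => rfl
  | more k ih _ =>
    rw [sum_range_succ', sum_range_succ']
    have : ∀ i ∈ range (k + 1), (if (i + 1 + 1) % 2 = 0 then 1 else 0) * (k + 2 - (i + 1 + 1) + 1) ^ 2 =
        (if i % 2 = 0 then 1 else 0) * (k - i + 1) ^ 2 := fun i _ => by
      rw [show (i + 1 + 1) % 2 = i % 2 by omega, show k + 2 - (i + 1 + 1) = k - i by omega]
    rw [sum_congr rfl this, mul_add, mul_add, ih]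
    simp
    ring

theorem ram1_b (k : ℕ) : 6 * ∑ i ∈ range (k + 1), (i + 1) * (k - i + 1) =
    (k + 1) * (k + 2) * (k + 3) := by
  have h : ∀ k : ℕ, 2 * ∑ i ∈ range k, (i + 1) = k * (k + 1) := fun k => by
    induction k with
    | zero => simp
    | succ k ih => rw [sum_range_succ, mul_add, ih]; ring
  induction k with
  | zero => simp
  | succ k ih =>
    have : ∀ i ∈ range (k + 1), (i + 1) * (k + 1 - i + 1) = (i + 1) * (k - i + 1) + (i + 1) :=
      fun i hi => by
        rw [show k + 1 - i = k - i + 1 by have := mem_range.1 hi; omega]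
        ring
    rw [sum_range_succ, sum_congr rfl this, sum_add_distrib, Nat.sub_self]
    have := h (k + 1)
    nlinarith

theorem ram1_id : ram1_sq * (sigma 0).pmul (sigma 0) = zeta * zeta * (zeta * zeta) := by
  have e : (zeta * zeta : ArithmeticFunction ℕ) = sigma 0 := by
    rw [← zeta_mul_pow_eq_sigma, pow_zero_eq_zeta]
  rw [e]
  refine (IsMultiplicative.eq_iff_eq_on_prime_powers _ (ram1_mult.mul
    (isMultiplicative_sigma.pmul isMultiplicative_sigma)) _
    (isMultiplicative_sigma.mul isMultiplicative_sigma)).2 fun p k hp => ?_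
  rw [ram1_conv _ _ hp, ram1_conv _ _ hp]
  simp only [pmul_apply, sigma_zero_apply_prime_pow hp, ram1_pp hp, ← sq]
  have := ram1_a k
  have := ram1_b k
  omega

theorem ram1_sq_sum {s : ℂ} (hs : 1 < s.re) :
    LSeriesHasSum (fun n => (ram1_sq : ArithmeticFunction ℂ) n) s (riemannZeta (2 * s)) := by
  have h := LSeriesHasSum_zeta (s := 2 * s) (by simp; linarith)
  have hi : Function.Injective fun m : ℕ => m * m := fun a b e => Nat.mul_self_inj.1 e
  have e : (LSeries.term (fun n => (ram1_sq : ArithmeticFunction ℂ) n) s) ∘ (fun m : ℕ => m * m) =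
      LSeries.term (fun n => ((zeta n : ℕ) : ℂ)) (2 * s) := by
    funext m
    rcases eq_or_ne m 0 with rfl | h0
    · simp
    · rw [Function.comp, LSeries.term_of_ne_zero (mul_ne_zero h0 h0), LSeries.term_of_ne_zero h0,
        natCoe_apply, ram1_apply, if_pos ⟨mul_ne_zero h0 h0, m, rfl⟩, zeta_apply_ne h0, Nat.cast_mul,
        Complex.natCast_mul_natCast_cpow, two_mul, Complex.cpow_add _ _ (Nat.cast_ne_zero.2 h0)]
  refine (hi.hasSum_iff fun n hn => ?_).1 (e ▸ h)
  rcases eq_or_ne n 0 with rfl | h0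
  · rfl
  · rw [LSeries.term_of_ne_zero h0, natCoe_apply, ram1_apply,
      if_neg fun ⟨_, c, hc⟩ => hn ⟨c, hc.symm⟩, Nat.cast_zero, zero_div]

theorem t_ram1 : T_RAM1 := by
  intro s hs
  have hz : LSeriesHasSum (fun n => ((zeta : ArithmeticFunction ℕ) : ArithmeticFunction ℂ) n) s
      (riemannZeta s) := LSeriesHasSum_zeta hs
  have h4 := LSeriesHasSum_mul (LSeriesHasSum_mul hz hz) (LSeriesHasSum_mul hz hz)
  rw [← natCoe_mul, ← natCoe_mul, ← ram1_id] at h4
  set d : ArithmeticFunction ℕ := (sigma 0).pmul (sigma 0) with hd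
  have hle : ∀ n, d n ≤ (ram1_sq * d) n := fun n => by
    rcases eq_or_ne n 0 with rfl | h
    · simp
    rw [mul_apply]
    refine le_trans (le_of_eq ?_) (single_le_sum (f := fun x : ℕ × ℕ => ram1_sq x.1 * d x.2)
      (fun _ _ => Nat.zero_le _) (a := (1, n)) (by simp [h]))
    simp [ram1_apply]
  have hS : LSeriesSummable (fun n => (d : ArithmeticFunction ℂ) n) s :=
    Summable.of_norm (h4.LSeriesSummable.norm.of_nonneg_of_le (fun _ => norm_nonneg _) fun n =>
      LSeries.norm_term_le s (by simpa only [natCoe_apply, Complex.norm_natCast, Nat.cast_le] using hle n))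
  have e : ∀ n : ℕ, (((n + 1).divisors.card : ℕ) : ℂ) ^ 2 * ((n : ℂ) + 1) ^ (-s) =
      LSeries.term (fun n => (d : ArithmeticFunction ℂ) n) s (n + 1) := fun n => by
    rw [LSeries.term_of_ne_zero n.succ_ne_zero, Complex.cpow_neg, div_eq_mul_inv, natCoe_apply, hd,
      pmul_apply, sigma_zero_apply]
    push_cast
    ring
  simp only [e]
  refine ⟨(summable_nat_add_iff (f := fun n => ‖LSeries.term _ s n‖) 1).2 hS.norm, ?_⟩
  have h5 := LSeriesHasSum_mul (ram1_sq_sum hs) hS.LSeriesHasSum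
  rw [← natCoe_mul] at h5
  have h6 := hS.tsum_eq_zero_add
  rw [LSeries.term_zero, zero_add] at h6
  rw [← h6]
  refine (h5.unique h4).trans ?_
  ring

end

end Pool.Agent.Lib.E2
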