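import Pool.Agent.Lib.E2.Blue

namespace Pool.Agent.Lib.E2

noncomputable section

open Complex MeasureTheory Set Filter Topology
open scoped Real

namespace RAM2

lemma cpe {r : ℝ} (hr : 0 < r) (w : ℂ) : (r : ℂ) ^ w = exp (w * (Real.log r : ℂ)) := by
  rw [cpow_def_of_ne_zero (ofReal_ne_zero.2 hr.ne'), ofReal_log hr.le, mul_comm]

/-- the product index minus one -/
def NN (p : ℕ × ℕ) : ℕ := p.1 * p.2 + p.1 + p.2

lemma NN_succ (p : ℕ × ℕ) : NN p + 1 = (p.1 + 1) * (p.2 + 1) := by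
  unfold NN; ring

lemma fib (n : ℕ) : NN ⁻¹' {n} =
    ((n + 1).divisors.image fun d => (d - 1, (n + 1) / d - 1) : Finset (ℕ × ℕ)) := by
  ext p
  simp only [mem_preimage, mem_singleton_iff, Finset.coe_image, mem_image, Finset.mem_coe,
    Nat.mem_divisors]
  constructor
  · intro h
    have e : n + 1 = (p.1 + 1) * (p.2 + 1) := by rw [← h, NN_succ]
    refine ⟨p.1 + 1, ⟨⟨p.2 + 1, e⟩, by omega⟩, ?_⟩
    rw [e, Nat.mul_div_cancel_left _ (Nat.succ_pos _)]
    simp
  · rintro ⟨d, ⟨⟨c, hc⟩, -⟩, rfl⟩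
    have hd : 0 < d := Nat.pos_of_ne_zero fun h => by simp [h] at hc
    have hc0 : 0 < c := Nat.pos_of_ne_zero fun h => by simp [h] at hc
    have : NN (d - 1, (n + 1) / d - 1) + 1 = n + 1 := by
      rw [NN_succ, hc, Nat.mul_div_cancel_left _ hd]
      simp only
      rw [Nat.sub_add_cancel hd, Nat.sub_add_cancel hc0]
    omega

lemma regroup {E : Type*} [NormedAddCommGroup E] [CompleteSpace E] (g : ℕ → E) (a : E)
    (h : HasSum (fun p => g (NN p)) a) :
    HasSum (fun n => (n + 1).divisors.card • g n) a := by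
  have h1 := h.tsum_fiberwise NN
  have e : (fun n => (n + 1).divisors.card • g n) =
      fun c : ℕ => ∑' b : NN ⁻¹' {c}, g (NN b) := by
    funext n
    have e1 : (fun b : NN ⁻¹' {n} => g (NN b)) = fun _ => g n := by
      funext b
      have : NN b = n := b.2
      rw [this]
    rw [e1, fib, Finset.tsum_subtype' _ fun _ => g n, Finset.sum_const,
      Finset.card_image_of_injOn]
    intro d hd d' hd' hdd
    have h1 := Nat.pos_of_mem_divisors (Finset.mem_coe.1 hd)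
    have h2 := Nat.pos_of_mem_divisors (Finset.mem_coe.1 hd')
    have := congrArg Prod.fst hdd
    simp only at this
    omega
  rw [e]
  exact h1

lemma int_cos (k : ℤ) (hk : k ≠ 0) : ∫ x in (0 : ℝ)..1, Real.cos (2 * π * k * x) = 0 := by
  have hk' : (2 * π * k : ℝ) ≠ 0 :=
    mul_ne_zero (mul_ne_zero two_ne_zero Real.pi_ne_zero) (by exact_mod_cast hk)
  rw [intervalIntegral.integral_comp_mul_left (fun x => Real.cos x) hk', integral_cos]
  have : Real.sin (2 * π * k * 1) = 0 := by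
    have := Real.sin_int_mul_pi (2 * k)
    rw [← this]; congr 1; push_cast; ring
  simp only [this, mul_zero, Real.sin_zero, sub_zero, smul_zero]

lemma int_cc (n m : ℕ) : ∫ x in (0 : ℝ)..1,
    Real.cos (2 * π * (n + 1) * x) * Real.cos (2 * π * (m + 1) * x) = if n = m then 1 / 2 else 0 := by
  have e : (fun x : ℝ => Real.cos (2 * π * (n + 1) * x) * Real.cos (2 * π * (m + 1) * x)) =
      fun x => (1 / 2) * (Real.cos (2 * π * ((n - m : ℤ) : ℝ) * x) +
        Real.cos (2 * π * ((n + m + 2 : ℤ) : ℝ) * x)) := by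
    funext x
    have := Real.two_mul_cos_mul_cos (2 * π * (n + 1) * x) (2 * π * (m + 1) * x)
    have e1 : 2 * π * ((n - m : ℤ) : ℝ) * x = 2 * π * (n + 1) * x - 2 * π * (m + 1) * x := by
      push_cast; ring
    have e2 : 2 * π * ((n + m + 2 : ℤ) : ℝ) * x = 2 * π * (n + 1) * x + 2 * π * (m + 1) * x := by
      push_cast; ring
    rw [e1, e2, ← this]; ring
  rw [e, intervalIntegral.integral_const_mul, intervalIntegral.integral_add
    (Continuous.intervalIntegrable (by fun_prop) _ _) (Continuous.intervalIntegrable (by fun_prop) _ _),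
    int_cos (n + m + 2) (by omega)]
  split_ifs with h
  · subst h; simp
  · rw [int_cos (n - m) (by omega)]; simp

lemma parseval (c : ℕ → ℂ) (hc : Summable fun n => ‖c n‖) :
    ∫ x in (0 : ℝ)..1, (∑' n : ℕ, c n * (Real.cos (2 * π * (n + 1) * x) : ℝ)) ^ 2 =
      1 / 2 * ∑' n, c n ^ 2 := by
  set f : ℕ → ℝ → ℂ := fun n x => c n * (Real.cos (2 * π * (n + 1) * x) : ℝ) with hf
  have hb : ∀ n x, ‖f n x‖ ≤ ‖c n‖ := fun n x => by
    rw [hf]; simp only [norm_mul, norm_real, Real.norm_eq_abs]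
    exact mul_le_of_le_one_right (norm_nonneg _) (Real.abs_cos_le_one _)
  have hs : ∀ x, Summable fun n => ‖f n x‖ := fun x =>
    Summable.of_nonneg_of_le (fun _ => norm_nonneg _) (fun n => hb n x) hc
  have e : (fun x => (∑' n, f n x) ^ 2) = fun x => ∑' p : ℕ × ℕ, f p.1 x * f p.2 x := by
    funext x
    rw [sq, tsum_mul_tsum_of_summable_norm (hs x) (hs x)]
  have cf : ∀ n, Continuous (f n) := fun n => by rw [hf]; fun_prop
  have hI : ∀ p : ℕ × ℕ, Integrable (fun x => f p.1 x * f p.2 x) (volume.restrict (Ioc (0 : ℝ) 1)) :=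
    fun p => ((cf p.1).mul (cf p.2)).integrableOn_Ioc
  have hS : Summable fun p : ℕ × ℕ => ∫ x in Ioc (0 : ℝ) 1, ‖f p.1 x * f p.2 x‖ := by
    refine Summable.of_nonneg_of_le (fun p => integral_nonneg fun _ => norm_nonneg _) (fun p => ?_)
      (hc.mul_of_nonneg hc (fun _ => norm_nonneg _) fun _ => norm_nonneg _)
    have := norm_setIntegral_le_of_norm_le_const (μ := volume) (s := Ioc (0 : ℝ) 1)
      (f := fun x => ‖f p.1 x * f p.2 x‖) (C := ‖c p.1‖ * ‖c p.2‖) (by simp) fun x _ => by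
        rw [norm_norm, norm_mul]
        exact mul_le_mul (hb _ _) (hb _ _) (norm_nonneg _) (norm_nonneg _)
    simp only [Real.volume_real_Ioc, sub_zero, zero_le_one, sup_of_le_left, mul_one] at this
    exact (le_abs_self _).trans this
  change ∫ x in (0 : ℝ)..1, (∑' n, f n x) ^ 2 = _
  rw [e, intervalIntegral.integral_of_le zero_le_one, ← integral_tsum_of_summable_integral_norm hI hS]
  have e2 : ∀ p : ℕ × ℕ, ∫ x in Ioc (0 : ℝ) 1, f p.1 x * f p.2 x =
      c p.1 * c p.2 * ((if p.1 = p.2 then 1 / 2 else 0 : ℝ) : ℂ) := fun p => by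
    rw [← int_cc, intervalIntegral.integral_of_le zero_le_one, ← integral_complex_ofReal,
      ← integral_const_mul]
    refine integral_congr_ae (ae_of_all _ fun x => ?_)
    simp only [hf, ofReal_mul]
    ring
  simp only [e2]
  have inj : Function.Injective fun n : ℕ => (n, n) := fun a b h => congrArg Prod.fst h
  rw [← inj.tsum_eq, ← tsum_mul_left]
  · refine tsum_congr fun n => ?_
    simp only [if_true]
    push_cast
    ring
  · intro p hp
    by_cases h : p.1 = p.2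
    · exact ⟨p.1, Prod.ext rfl h⟩
    · simp [h] at hp

/-- the rotation -/
def rot : ℝ × ℝ →ₗ[ℝ] ℝ × ℝ :=
  Matrix.toLin (Module.Basis.finTwoProd ℝ) (Module.Basis.finTwoProd ℝ) !![1 / 2, 1 / 2; 1 / 2, -1 / 2]

lemma rot_apply (p : ℝ × ℝ) : rot p = ((p.1 + p.2) / 2, (p.1 - p.2) / 2) := by
  unfold rot
  rw [Matrix.toLin_finTwoProd_apply]
  refine Prod.ext ?_ ?_ <;> simp only <;> ring

lemma rot_det : LinearMap.det rot = -1 / 2 := by
  unfold rot
  rw [LinearMap.det_toLin, Matrix.det_fin_two_of]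
  ring

lemma rot_map : Measure.map rot (volume : Measure (ℝ × ℝ)) = (2 : NNReal) • volume := by
  rw [Measure.map_linearMap_addHaar_eq_smul_addHaar _ (by rw [rot_det]; norm_num), rot_det]
  have : |(-1 / 2 : ℝ)⁻¹| = 2 := by norm_num
  rw [this, ENNReal.smul_def]
  congr 1
  simp

lemma rot_int (H : ℝ × ℝ → ℂ) (hH : Integrable H) :
    Integrable (fun p => H (rot p)) ∧ ∫ p, H (rot p) = 2 * ∫ p, H p := by
  have hm : AEMeasurable rot (volume : Measure (ℝ × ℝ)) :=
    rot.continuous_of_finiteDimensional.measurable.aemeasurable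
  have h2 : Integrable H (Measure.map rot volume) := by
    rw [rot_map]; exact hH.smul_measure_nnreal
  refine ⟨(integrable_map_measure h2.1 hm).1 h2, ?_⟩
  rw [← integral_map hm h2.1, rot_map, integral_smul_nnreal_measure]
  simp [NNReal.smul_def]

lemma cosh_add_cosh (v w : ℝ) :
    Real.cosh v + Real.cosh w = 2 * (Real.cosh ((v + w) / 2) * Real.cosh ((v - w) / 2)) := by
  have h1 := Real.cosh_add ((v + w) / 2) ((v - w) / 2)
  have h2 := Real.cosh_sub ((v + w) / 2) ((v - w) / 2)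
  have e1 : (v + w) / 2 + (v - w) / 2 = v := by ring
  have e2 : (v + w) / 2 - (v - w) / 2 = w := by ring
  rw [e1] at h1
  rw [e2] at h2
  rw [h1, h2]; ring

lemma two_cosh (hB : St_BET) {s : ℂ} (hs : 0 < s.re) :
    Integrable (fun p : ℝ × ℝ => (1 / ((Real.cosh p.1 + Real.cosh p.2 : ℝ) : ℂ)) ^ s) ∧
    ∫ p : ℝ × ℝ, (1 / ((Real.cosh p.1 + Real.cosh p.2 : ℝ) : ℂ)) ^ s =
      2 ^ (1 - s) * bet (s / 2) ^ 2 := by
  obtain ⟨-, -, -, -, -, hi, he, -⟩ := hB.1 (s / 2) (by simp; linarith)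
  have e0 : -(2 * (s / 2)) = -s := by ring
  rw [e0] at hi he
  obtain ⟨h1, h2⟩ := rot_int
    (fun p => (Real.cosh p.1 : ℂ) ^ (-s) * (Real.cosh p.2 : ℂ) ^ (-s)) (hi.mul_prod hi)
  have e : (fun p : ℝ × ℝ => (1 / ((Real.cosh p.1 + Real.cosh p.2 : ℝ) : ℂ)) ^ s) =
      fun p => (2 : ℂ) ^ (-s) *
        ((Real.cosh (rot p).1 : ℂ) ^ (-s) * (Real.cosh (rot p).2 : ℂ) ^ (-s)) := by
    funext p
    rw [rot_apply, cosh_add_cosh]
    simp only
    have a := Real.cosh_pos ((p.1 + p.2) / 2)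
    have b := Real.cosh_pos ((p.1 - p.2) / 2)
    rw [← ofReal_one, ← ofReal_div, cpe (by positivity), cpe a, cpe b, ← ofReal_ofNat,
      cpe two_pos, ← exp_add, ← exp_add, one_div, Real.log_inv,
      Real.log_mul two_ne_zero (by positivity), Real.log_mul a.ne' b.ne']
    congr 1
    push_cast
    ring
  rw [e]
  refine ⟨h1.const_mul _, ?_⟩
  rw [integral_const_mul, h2, Measure.volume_eq_prod,
    integral_prod_mul (fun v : ℝ => (Real.cosh v : ℂ) ^ (-s)) fun v : ℝ => (Real.cosh v : ℂ) ^ (-s),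
    he, sub_eq_add_neg, cpow_add _ _ two_ne_zero, cpow_one]
  ring

lemma W_eq (u : ℝ) : Wf u =
    ∫ p : ℝ × ℝ, exp (-(((Real.cosh p.1 + Real.cosh p.2 : ℝ) : ℂ) * u)) := by
  unfold Wf Kb
  rw [sq, ← integral_prod_mul, ← Measure.volume_eq_prod]
  refine integral_congr_ae (ae_of_all _ fun p => ?_)
  simp only
  rw [← exp_add]
  congr 1
  push_cast
  ring

lemma mel_W (hB : St_BET) {s : ℂ} (hs : 0 < s.re) :
    MellinConvergent (fun u : ℝ => Wf u) s ∧
      mellin (fun u : ℝ => Wf u) s = 2 ^ (1 - s) * bet (s / 2) ^ 2 * Gamma s := by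
  set G : ℝ × (ℝ × ℝ) → ℂ := fun q =>
    (q.1 : ℂ) ^ (s - 1) * exp (-(((Real.cosh q.2.1 + Real.cosh q.2.2 : ℝ) : ℂ) * q.1)) with hG
  have hc : ∀ p : ℝ × ℝ, 0 < Real.cosh p.1 + Real.cosh p.2 := fun p =>
    add_pos (Real.cosh_pos _) (Real.cosh_pos _)
  have hm : Measurable G := by
    rw [hG]
    refine Measurable.mul ?_ (Continuous.measurable (by fun_prop))
    exact (measurable_ofReal.comp measurable_fst).pow_const _
  have hn : ∀ (p : ℝ × ℝ) (u : ℝ), u ∈ Ioi (0 : ℝ) → ‖G (u, p)‖ =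
      u ^ (s.re - 1) * Real.exp (-((Real.cosh p.1 + Real.cosh p.2) * u)) := fun p u hu => by
    rw [hG]
    simp only
    rw [norm_mul, norm_cpow_eq_rpow_re_of_pos hu, ← ofReal_mul, ← ofReal_neg, ← ofReal_exp,
      norm_real, Real.norm_of_nonneg (Real.exp_pos _).le, sub_re, one_re]
  have hI : Integrable G ((volume.restrict (Ioi (0 : ℝ))).prod (volume : Measure (ℝ × ℝ))) := by
    refine (integrable_prod_iff' hm.aestronglyMeasurable).2 ⟨ae_of_all _ fun p => ?_, ?_⟩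
    · have h1 := integrableOn_rpow_mul_exp_neg_mul_rpow (p := 1) (s := s.re - 1)
        (b := Real.cosh p.1 + Real.cosh p.2) (by linarith) one_pos (hc p)
      refine Integrable.mono' h1 (hm.comp measurable_prodMk_right).aestronglyMeasurable ?_
      refine (ae_restrict_iff' measurableSet_Ioi).2 (ae_of_all _ fun u hu => ?_)
      rw [hn p u hu, Real.rpow_one, neg_mul]
    · have h2 := ((two_cosh hB (s := (s.re : ℂ)) (by simpa using hs)).1.norm).mul_const
        (Real.Gamma s.re)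
      refine h2.congr (ae_of_all _ fun p => ?_)
      simp only
      rw [setIntegral_congr_fun measurableSet_Ioi (hn p),
        Real.integral_rpow_mul_exp_neg_mul_Ioi hs (hc p), ← ofReal_one, ← ofReal_div,
        norm_cpow_eq_rpow_re_of_pos (one_div_pos.2 (hc p)), ofReal_re]
  have e : ∀ u : ℝ, (u : ℂ) ^ (s - 1) • Wf u = ∫ p, G (u, p) := fun u => by
    rw [W_eq, smul_eq_mul, ← integral_const_mul]
  constructor
  · unfold MellinConvergent
    simp only [e]
    exact hI.integral_prod_left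
  · unfold mellin
    simp only [e]
    rw [integral_integral_swap (f := fun u p => G (u, p)) hI, ← (two_cosh hB hs).2,
      ← integral_mul_const]
    refine integral_congr_ae (ae_of_all _ fun p => ?_)
    exact integral_cpow_mul_exp_neg_mul_Ioi hs (hc p)

lemma cont_D (hV : St_VB2) : ContinuousOn (fun y : ℝ => Dd y) (Ioi 0) := by
  rw [continuousOn_iff_continuous_domRestrict]
  have h : Continuous (Function.uncurry fun (y : Ioi (0 : ℝ)) (x : ℝ) =>
      Vf x (y : ℝ) (1 / 2) ^ 2) := by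
    refine Continuous.pow ?_ 2
    refine hV.2.1.comp_continuous
      (f := fun q : Ioi (0 : ℝ) × ℝ => ((q.2 : ℂ), (((q.1 : ℝ) : ℂ), (1 / 2 : ℂ))))
      (by fun_prop) fun q => ?_
    change |(q.2 : ℂ).im| < ((q.1 : ℝ) : ℂ).re
    rw [ofReal_im, abs_zero, ofReal_re]
    exact q.1.2
  exact intervalIntegral.continuous_parametric_intervalIntegral_of_continuous' h 0 1

/-- the number of divisors -/
def dd (n : ℕ) : ℂ := (((n + 1).divisors.card : ℕ) : ℂ)

lemma Vt_eq (x y : ℝ) (p : ℕ × ℕ) : Vt x y (1 / 2) p =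
    Kb ((2 * π * (NN p + 1) * y : ℝ) : ℂ) 0 * (Real.cos (2 * π * (NN p + 1) * x) : ℝ) := by
  have e : ((NN p : ℝ) + 1) = ((p.1 : ℝ) + 1) * (p.2 + 1) := by
    exact_mod_cast congrArg (Nat.cast : ℕ → ℝ) (NN_succ p)
  unfold Vt
  rw [e, sub_self, cpow_zero, mul_one, mul_comm]
  push_cast
  rfl

lemma D_eq (hV : St_VB2) {y : ℝ} (hy : 0 < y) :
    Dd y / y = ∑' n : ℕ, 2 * dd n ^ 2 * Wf ((2 * π * (n + 1) * y : ℝ) : ℂ) := by
  set c : ℕ → ℂ := fun n => dd n * Kb ((2 * π * (n + 1) * y : ℝ) : ℂ) 0 with hc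
  have hs : ∀ x : ℝ, Summable fun p => ‖Vt x y (1 / 2) p‖ := fun x =>
    hV.1 x y (1 / 2) (by simpa using hy)
  have h0 : Summable fun n => ‖c n‖ := by
    have h1 := hs 0
    simp only [Vt_eq, mul_zero, Real.cos_zero, ofReal_one, mul_one] at h1
    have h2 := regroup (fun n : ℕ => ‖Kb ((2 * π * (n + 1) * y : ℝ) : ℂ) 0‖) _ h1.hasSum
    refine h2.summable.congr fun n => ?_
    rw [hc]
    simp only [dd, norm_mul, norm_natCast, nsmul_eq_mul]
  have h1 : ∀ x : ℝ, Vf x y (1 / 2) ^ 2 =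
      4 * y * (∑' n : ℕ, c n * (Real.cos (2 * π * (n + 1) * x) : ℝ)) ^ 2 := fun x => by
    have h2 := (hs x).of_norm.hasSum
    rw [funext (Vt_eq x y)] at h2
    have h3 := regroup (fun n : ℕ => Kb ((2 * π * (n + 1) * y : ℝ) : ℂ) 0 *
      (Real.cos (2 * π * (n + 1) * x) : ℝ)) _ h2
    unfold Vf
    simp only [Vt_eq]
    rw [← h3.tsum_eq, mul_pow, mul_pow, ← cpow_nat_mul]
    have e1 : ((2 : ℕ) : ℂ) * (1 / 2) = 1 := by norm_num
    rw [e1, cpow_one]
    have e2 : (fun n : ℕ => (n + 1).divisors.card • (Kb ((2 * π * (n + 1) * y : ℝ) : ℂ) 0 *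
        ((Real.cos (2 * π * (n + 1) * x) : ℝ) : ℂ))) =
        fun n : ℕ => c n * (Real.cos (2 * π * (n + 1) * x) : ℝ) := by
      funext n
      rw [hc, nsmul_eq_mul, ← mul_assoc]
      rfl
    rw [e2]
    ring
  unfold Dd
  simp only [h1]
  rw [intervalIntegral.integral_const_mul, parseval c h0]
  have hy' : (y : ℂ) ≠ 0 := ofReal_ne_zero.2 hy.ne'
  have e3 : (fun n : ℕ => 2 * dd n ^ 2 * Wf ((2 * π * (n + 1) * y : ℝ) : ℂ)) =
      fun n => 2 * c n ^ 2 := by
    funext n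
    rw [hc]
    unfold Wf
    ring
  rw [e3, tsum_mul_left]
  field_simp
  ring

lemma int_tsum {μ : Measure ℝ} (F : ℕ → ℝ → ℂ) (hF : ∀ n, Integrable (F n) μ)
    (hS : Summable fun n => ∫ y, ‖F n y‖ ∂μ)
    (hm : AEStronglyMeasurable (fun y => ∑' n, F n y) μ) :
    Integrable (fun y => ∑' n, F n y) μ := by
  refine ⟨hm, ?_⟩
  unfold HasFiniteIntegral
  calc ∫⁻ y, ‖∑' n, F n y‖ₑ ∂μ ≤ ∫⁻ y, ∑' n, ‖F n y‖ₑ ∂μ :=
        lintegral_mono fun y => enorm_tsum_le_tsum_enorm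
    _ = ∑' n, ∫⁻ y, ‖F n y‖ₑ ∂μ := lintegral_tsum fun n => (hF n).1.enorm
    _ = ∑' n, ENNReal.ofReal (∫ y, ‖F n y‖ ∂μ) :=
        tsum_congr fun n => (ofReal_integral_norm_eq_lintegral_enorm (hF n)).symm
    _ < ⊤ := by
        rw [← ENNReal.ofReal_tsum_of_nonneg (fun n => integral_nonneg fun _ => norm_nonneg _) hS]
        exact ENNReal.ofReal_lt_top

lemma norm_scale (f : ℝ → ℂ) (s : ℂ) {a : ℝ} (ha : 0 < a) :
    ∫ y in Ioi (0 : ℝ), ‖(y : ℂ) ^ (s - 1) • f (a * y)‖ =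
      a ^ (-s.re) * ∫ y in Ioi (0 : ℝ), ‖(y : ℂ) ^ (s - 1) • f y‖ := by
  have h := integral_comp_mul_left_Ioi (fun u : ℝ => ‖(u : ℂ) ^ (s - 1) • f u‖) 0 ha
  rw [mul_zero] at h
  have e : ∀ y ∈ Ioi (0 : ℝ), ‖(y : ℂ) ^ (s - 1) • f (a * y)‖ =
      a ^ (1 - s.re) * ‖((a * y : ℝ) : ℂ) ^ (s - 1) • f (a * y)‖ := fun y hy => by
    have hy' : 0 < y := hy
    rw [norm_smul, norm_smul, norm_cpow_eq_rpow_re_of_pos hy',
      norm_cpow_eq_rpow_re_of_pos (mul_pos ha hy'), Real.mul_rpow ha.le hy'.le, sub_re, one_re,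
      ← mul_assoc, ← mul_assoc, ← Real.rpow_add ha]
    simp
  rw [setIntegral_congr_fun measurableSet_Ioi e, integral_const_mul, h, smul_eq_mul, ← mul_assoc,
    ← Real.rpow_neg_one, ← Real.rpow_add ha]
  congr 2
  ring

lemma alg (hB : St_BET) (hZ : St_ZB1) (hR : St_RAM1) {s : ℂ} (hs : 1 < s.re) :
    2 * ((2 * π : ℝ) : ℂ) ^ (-s) * (2 ^ (1 - s) * bet (s / 2) ^ 2 * Gamma s) *
      ∑' n : ℕ, dd n ^ 2 * ((n : ℂ) + 1) ^ (-s) = Rf s := by
  obtain ⟨hx, -, -, hx0, -, hL, -⟩ := hZ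
  have r2 : (2 * s).re = 2 * s.re := by simp
  have s0 : 2 * s ≠ 0 := fun h => by rw [h, zero_re] at r2; linarith
  have s1 : 2 * s ≠ 1 := fun h => by rw [h, one_re] at r2; linarith
  have s1' : 2 * s - 1 ≠ 0 := sub_ne_zero.2 s1
  have hz : riemannZeta (2 * s) ≠ 0 := riemannZeta_ne_zero_of_one_lt_re (by rw [r2]; linarith)
  have hg : Gamma s ≠ 0 := Gamma_ne_zero_of_re_pos (by linarith)
  obtain ⟨-, -, -, -, hG, -⟩ := hB.1 (s / 2) (by simp; linarith)
  have e1 : 2 * (s / 2) = s := by ring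
  rw [e1] at hG
  have hS := (hR s hs).2
  have hS' : ∑' n : ℕ, dd n ^ 2 * ((n : ℂ) + 1) ^ (-s) = riemannZeta s ^ 4 / riemannZeta (2 * s) := by
    rw [eq_div_iff hz, mul_comm]; exact hS
  have e2 : 2 * s / 2 = s := by ring
  have e4 : Gamma (s / 2) ^ 4 = (2 ^ (1 - s) * Gamma s * bet (s / 2)) ^ 2 := by
    rw [← hG]; ring
  set P : ℂ := (π : ℂ) ^ (-s / 2) with hP
  have hP0 : P ≠ 0 := by rw [hP, cpe Real.pi_pos]; exact exp_ne_zero _
  have p1 : (π : ℂ) ^ (-(2 * s) / 2) = P ^ 2 := by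
    rw [hP, cpe Real.pi_pos, cpe Real.pi_pos, ← exp_nat_mul]
    congr 1; push_cast; ring
  have p2 : 2 * ((2 * π : ℝ) : ℂ) ^ (-s) = 2 ^ (1 - s) * P ^ 2 := by
    rw [← p1, sub_eq_add_neg, cpow_add _ _ two_ne_zero, cpow_one, mul_assoc, ofReal_mul,
      mul_cpow_ofReal_nonneg zero_le_two Real.pi_pos.le]
    have : -(2 * s) / 2 = -s := by ring
    rw [this, ofReal_ofNat]
  unfold Rf
  rw [hx _ s0 s1, hL s (by linarith), hL (2 * s) (by rw [r2]; linarith), hS', e2, p1, p2, mul_pow,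
    mul_pow, e4, ← hP]
  generalize riemannZeta (2 * s) = Z at hz ⊢
  generalize 2 * s - 1 = A at s1' ⊢
  generalize 2 * s = B at s0 ⊢
  field_simp

end RAM2

open RAM2 in
theorem t_ram2 : T_RAM2 := by
  intro hB _ hZ _ hV hR
  refine ⟨cont_D hV, fun s hs => ?_⟩
  obtain ⟨hW, hM⟩ := mel_W hB (s := s) (by linarith)
  have ha : ∀ n : ℕ, (0 : ℝ) < 2 * π * (n + 1) := fun n => by positivity
  set F : ℕ → ℝ → ℂ := fun n y =>
    2 * dd n ^ 2 * ((y : ℂ) ^ (s - 1) • Wf ((2 * π * (n + 1) * y : ℝ) : ℂ)) with hF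
  have hI : ∀ n, Integrable (F n) (volume.restrict (Ioi 0)) := fun n =>
    Integrable.const_mul ((MellinConvergent.comp_mul_left (f := fun u : ℝ => Wf u) (ha n)).2 hW) _
  have hn : ∀ n : ℕ, ‖((n : ℂ) + 1) ^ (-s)‖ = ((n : ℝ) + 1) ^ (-s.re) := fun n => by
    rw [← neg_re, ← norm_cpow_eq_rpow_re_of_pos (by positivity)]
    push_cast
    rfl
  have hS : Summable fun n => ∫ y in Ioi (0 : ℝ), ‖F n y‖ := by
    refine ((hR s hs).1.mul_left (2 * (2 * π) ^ (-s.re) *
      ∫ y in Ioi (0 : ℝ), ‖(y : ℂ) ^ (s - 1) • Wf y‖)).congr fun n => ?_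
    simp only [hF]
    simp only [norm_mul (2 * dd n ^ 2)]
    rw [integral_const_mul, norm_scale (fun u : ℝ => Wf u) s (ha n),
      Real.mul_rpow (by positivity) (by positivity : (0 : ℝ) ≤ n + 1), norm_mul, norm_mul, hn,
      Complex.norm_ofNat]
    unfold dd
    ring
  have e : ∀ y ∈ Ioi (0 : ℝ), ∑' n, F n y = (y : ℂ) ^ (s - 1) • (Dd y / y) := fun y hy => by
    rw [D_eq hV hy, smul_eq_mul, ← tsum_mul_left]
    refine tsum_congr fun n => ?_
    simp only [hF, smul_eq_mul]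
    ring
  have hc : ContinuousOn (fun y : ℝ => (y : ℂ) ^ (s - 1) • (Dd y / y)) (Ioi 0) := by
    refine ContinuousOn.mul (f := fun y : ℝ => (y : ℂ) ^ (s - 1)) (fun y hy => ?_) ((cont_D hV).div continuous_ofReal.continuousOn
      fun y hy => ofReal_ne_zero.2 (ne_of_gt hy))
    exact (continuousAt_ofReal_cpow_const y _ (Or.inr (ne_of_gt hy))).continuousWithinAt
  have ee : (fun y => ∑' n, F n y) =ᵐ[volume.restrict (Ioi 0)]
      fun y : ℝ => (y : ℂ) ^ (s - 1) • (Dd y / y) :=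
    (ae_restrict_iff' measurableSet_Ioi).2 (ae_of_all _ e)
  refine ⟨(int_tsum F hI hS ((hc.aestronglyMeasurable measurableSet_Ioi).congr ee.symm)).congr ee, ?_⟩
  unfold mellin
  rw [← integral_congr_ae ee, ← integral_tsum_of_summable_integral_norm hI hS, ← alg hB hZ hR hs,
    ← tsum_mul_left]
  refine tsum_congr fun n => ?_
  have h1 := mellin_comp_mul_left (fun u : ℝ => Wf u) s (ha n)
  rw [hM, ofReal_mul, mul_cpow_ofReal_nonneg (by positivity) (by positivity)] at h1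
  simp only [hF]
  rw [integral_const_mul]
  unfold mellin at h1
  rw [h1, smul_eq_mul]
  push_cast
  ring

end

end Pool.Agent.Lib.E2
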