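import Pool.Agent.Lib.E2.Blue

namespace Pool.Agent.Lib.E2

noncomputable section

open Complex MeasureTheory Set Filter Topology
open scoped Real UpperHalfPlane MatrixGroups

/-- dilation -/
def ray_dil (y : ℝ) (w : ℍ) : ℍ := pt (y * w.re) (y * w.im)

/-- the majorant along a ray -/
def ray_m (y : ℝ) : ℝ := if 1 < y then y ^ (-(5 / 4) : ℝ) else y ^ (-(3 / 4) : ℝ)

theorem ray_m_int : IntegrableOn ray_m (Ioi 0) ∧ ∫ y in Ioi (0 : ℝ), ray_m y = 8 := by
  have e1 : EqOn (fun y : ℝ => y ^ (-(3 / 4) : ℝ)) ray_m (Ioc 0 1) := fun y hy =>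
    (if_neg (not_lt.2 hy.2)).symm
  have e2 : EqOn (fun y : ℝ => y ^ (-(5 / 4) : ℝ)) ray_m (Ioi 1) := fun y hy =>
    (if_pos hy).symm
  have h1 : IntegrableOn ray_m (Ioc 0 1) :=
    IntegrableOn.congr_fun
      (intervalIntegral.intervalIntegrable_rpow' (a := 0) (b := 1) (by norm_num)).1 e1
      measurableSet_Ioc
  have h2 : IntegrableOn ray_m (Ioi 1) :=
    (integrableOn_Ioi_rpow_of_lt (by norm_num) one_pos).congr_fun e2 measurableSet_Ioi
  rw [← Ioc_union_Ioi_eq_Ioi zero_le_one]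
  refine ⟨h1.union h2, ?_⟩
  rw [setIntegral_union Ioc_disjoint_Ioi_same measurableSet_Ioi h1 h2,
    ← setIntegral_congr_fun measurableSet_Ioc e1, ← setIntegral_congr_fun measurableSet_Ioi e2,
    ← intervalIntegral.integral_of_le zero_le_one, integral_rpow (Or.inl (by norm_num)),
    integral_Ioi_rpow_of_lt (by norm_num) one_pos]
  norm_num

theorem ray_dil_co (hU : St_UNF1) {y : ℝ} (hy : 0 < y) (w : ℍ) :
    (ray_dil y w).re = y * w.re ∧ (ray_dil y w).im = y * w.im :=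
  hU.1 _ _ (mul_pos hy w.im_pos)

theorem ray_A {f : ℍ → ℂ} {A : ℝ} (hA : ∀ z, ‖f z‖ ≤ A * z.im ^ (-(1 / 4) : ℝ)) : 0 ≤ A := by
  have h := (norm_nonneg _).trans (hA UpperHalfPlane.I)
  simpa using h

theorem ray_bound (hU : St_UNF1) {f : ℍ → ℂ} {A : ℝ} (hi : Inv f)
    (hA : ∀ z, ‖f z‖ ≤ A * z.im ^ (-(1 / 4) : ℝ)) {w : ℍ} {B : ℝ} (h1 : 1 / w.im ≤ B)
    (h2 : (w.re ^ 2 + w.im ^ 2) / w.im ≤ B) {y : ℝ} (hy : 0 < y) :
    ‖f (ray_dil y w) / y‖ ≤ A * B ^ (1 / 4 : ℝ) * ray_m y := by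
  have hA0 := ray_A hA
  have hw := w.im_pos
  obtain ⟨e1, e2⟩ := ray_dil_co hU hy w
  have key : ∀ (t N : ℝ) (c : ℝ), 0 < N → N ≤ B → t = (y ^ c * N)⁻¹ →
      A * t ^ (-(1 / 4) : ℝ) / y ≤ A * B ^ (1 / 4 : ℝ) * y ^ (c / 4 - 1) := by
    intro t N c hN hB ht
    rw [ht, Real.inv_rpow (by positivity), ← Real.rpow_neg (by positivity), neg_neg,
      Real.mul_rpow (by positivity) hN.le, ← Real.rpow_mul hy.le, Real.rpow_sub hy, Real.rpow_one,
      mul_one_div]
    have : N ^ (1 / 4 : ℝ) ≤ B ^ (1 / 4 : ℝ) := Real.rpow_le_rpow hN.le hB (by norm_num)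
    calc A * (y ^ (c / 4) * N ^ (1 / 4 : ℝ)) / y
        ≤ A * (y ^ (c / 4) * B ^ (1 / 4 : ℝ)) / y := by gcongr
      _ = _ := by ring
  rw [norm_div, norm_real, Real.norm_eq_abs, abs_of_pos hy]
  unfold ray_m
  split_ifs with h
  · refine (div_le_div_of_nonneg_right (hA _) hy.le).trans ?_
    have := key (ray_dil y w).im (1 / w.im) (-1) (by positivity) h1
      (by rw [e2, Real.rpow_neg_one]; field_simp)
    rwa [show (-1 / 4 - 1 : ℝ) = -(5 / 4) by norm_num] at this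
  · rw [← hi ModularGroup.S]
    refine (div_le_div_of_nonneg_right (hA _) hy.le).trans ?_
    have := key (ModularGroup.S • ray_dil y w).im ((w.re ^ 2 + w.im ^ 2) / w.im) 1
      (by positivity) h2 (by
        rw [ModularGroup.im_smul_eq_div_normSq, ModularGroup.denom_S, normSq_apply,
          UpperHalfPlane.coe_re, UpperHalfPlane.coe_im, e1, e2, Real.rpow_one]
        have : 0 < w.re ^ 2 + w.im ^ 2 := by positivity
        field_simp)
    rwa [show (1 / 4 - 1 : ℝ) = -(3 / 4) by norm_num] at this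

theorem ray_meas (hU : St_UNF1) {f : ℍ → ℂ} (hf : Continuous f) :
    Measurable fun p : ℍ × ℝ => f (ray_dil p.2 p.1) / p.2 := by
  have h1 : Measurable fun p : ℍ × ℝ => ray_dil p.2 p.1 :=
    hU.2.2.2.1.comp (f := fun p : ℍ × ℝ => ((p.2 * p.1.re, p.2 * p.1.im) : ℝ × ℝ))
      ((measurable_snd.mul (UpperHalfPlane.continuous_re.measurable.comp measurable_fst)).prodMk
        (measurable_snd.mul (UpperHalfPlane.continuous_im.measurable.comp measurable_fst)))
  exact (hf.measurable.comp h1).div (measurable_ofReal.comp measurable_snd)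

theorem ray_int (hU : St_UNF1) {f : ℍ → ℂ} {A : ℝ} (hf : Continuous f) (hi : Inv f)
    (hA : ∀ z, ‖f z‖ ≤ A * z.im ^ (-(1 / 4) : ℝ)) {w : ℍ} {B : ℝ} (h1 : 1 / w.im ≤ B)
    (h2 : (w.re ^ 2 + w.im ^ 2) / w.im ≤ B) :
    IntegrableOn (fun y : ℝ => f (ray_dil y w) / y) (Ioi 0) ∧
      ∫ y in Ioi (0 : ℝ), ‖f (ray_dil y w) / y‖ ≤ 8 * A * B ^ (1 / 4 : ℝ) := by
  have hb : ∀ᵐ y ∂volume.restrict (Ioi (0 : ℝ)),
      ‖f (ray_dil y w) / y‖ ≤ A * B ^ (1 / 4 : ℝ) * ray_m y := by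
    filter_upwards [ae_restrict_mem measurableSet_Ioi] with y hy
    exact ray_bound hU hi hA h1 h2 hy
  have hm := ray_m_int.1.const_mul (A * B ^ (1 / 4 : ℝ))
  refine ⟨hm.mono' ((ray_meas hU hf).comp measurable_prodMk_left).aestronglyMeasurable hb, ?_⟩
  refine (integral_mono_of_nonneg (Eventually.of_forall fun _ => norm_nonneg _) hm hb).trans ?_
  rw [integral_const_mul, ray_m_int.2]
  exact le_of_eq (by ring)

theorem ray_q (hG : St_GEO) (w : ℍ) : 1 / w.im ≤ 2 * qd UpperHalfPlane.I w ∧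
    (w.re ^ 2 + w.im ^ 2) / w.im ≤ 2 * qd UpperHalfPlane.I w := by
  have hw := w.im_pos
  have e : 2 * qd UpperHalfPlane.I w = 1 / w.im + (w.re ^ 2 + w.im ^ 2) / w.im := by
    rw [hG.1, UpperHalfPlane.I_re, UpperHalfPlane.I_im]
    field_simp
    ring
  have h1 : 0 < 1 / w.im := by positivity
  have h2 : 0 < (w.re ^ 2 + w.im ^ 2) / w.im := by positivity
  constructor <;> linarith

theorem ray_k (hP : St_POLAR) (z : ℍ) : Integrable fun w => qd z w ^ (-(5 / 4) : ℝ) :=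
  (hP.2.2.2.2 z (fun q => q ^ (-(5 / 4) : ℝ)) (by fun_prop)
    (integrableOn_Ioi_rpow_of_lt (by norm_num) one_pos)).1

theorem ray_qm (hG : St_GEO) (z : ℍ) : Measurable fun w => qd z w :=
  (hG.2.2.1.comp (Continuous.prodMk_right z)).measurable

theorem ray_pow {q D : ℝ} (hq : 1 ≤ q) (hD : 0 ≤ D) :
    q ^ (-(3 / 2) : ℝ) * (D * q) ^ (1 / 4 : ℝ) = D ^ (1 / 4 : ℝ) * q ^ (-(5 / 4) : ℝ) := by
  have h0 : 0 < q := by linarith
  rw [Real.mul_rpow hD h0.le, mul_left_comm, ← Real.rpow_add h0]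
  norm_num

theorem ray_cls (hG : St_GEO) (hU : St_UNF1) (hP : St_POLAR) {f : ℍ → ℂ} {A : ℝ}
    (hf : Continuous f) (hi : Inv f) (hA : ∀ z, ‖f z‖ ≤ A * z.im ^ (-(1 / 4) : ℝ)) :
    Cls (per f) := by
  have hm : StronglyMeasurable (per f) :=
    (ray_meas hU hf).stronglyMeasurable.integral_prod_right' (ν := volume.restrict (Ioi 0))
  refine ((ray_k hP UpperHalfPlane.I).const_mul (8 * A * 2 ^ (1 / 4 : ℝ))).mono'
    ((measurable_ofReal.comp ((ray_qm hG _).pow_const _)).mul hm.measurable).aestronglyMeasurable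
    (Eventually.of_forall fun w => ?_)
  have h1 := (hG.2.1 UpperHalfPlane.I w).1
  have h2 : ‖per f w‖ ≤ 8 * A * (2 * qd UpperHalfPlane.I w) ^ (1 / 4 : ℝ) :=
    (norm_integral_le_integral_norm _).trans (ray_int hU hf hi hA (ray_q hG w).1 (ray_q hG w).2).2
  rw [norm_mul, norm_real, Real.norm_eq_abs, abs_of_nonneg (by positivity), mul_assoc,
    ← ray_pow h1 zero_le_two, mul_left_comm]
  exact mul_le_mul_of_nonneg_left h2 (by positivity)

theorem ray_ka {a q : ℝ} (ha : a ∈ Ioo (0 : ℝ) π) (hq : 1 ≤ q) :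
    0 ≤ ka a q ∧ ka a q ≤ ((1 - Real.cos a) / 2) ^ (-(3 / 2) : ℝ) * q ^ (-(3 / 2) : ℝ) := by
  have h1 : Real.cos a < 1 := by
    have := Real.cos_lt_cos_of_nonneg_of_le_pi le_rfl ha.2.le ha.1
    rwa [Real.cos_zero] at this
  have h2 := Real.neg_one_le_cos a
  unfold ka
  refine ⟨Real.rpow_nonneg (by linarith) _, ?_⟩
  rw [← Real.mul_rpow (by linarith) (by linarith)]
  exact Real.rpow_le_rpow_of_nonpos (mul_pos (by linarith) (by linarith)) (by nlinarith)
    (by norm_num)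

theorem ray_lop (hG : St_GEO) (hU : St_UNF1) (f : ℍ → ℂ) (a : ℝ) (z : ℍ) {y : ℝ} (hy : 0 < y) :
    ∫ w : ℍ, (ka a (qd z w) : ℂ) * f (ray_dil y w) = Lop a f (ray_dil y z) := by
  obtain ⟨g, -, hg⟩ := hG.2.2.2.2.2.2.1 (pt 0 y)
  have e : ∀ w : ℍ, g • w = ray_dil y w := fun w => by
    rw [← hU.2.1 (g • w), (hg w).1, (hg w).2, (hU.1 0 y hy).1, (hU.1 0 y hy).2, zero_add]
    rfl
  obtain ⟨h1, -, h2⟩ := hG.2.2.2.2.1 g
  unfold Lop Rop
  rw [← (h2 fun w => (ka a (qd (ray_dil y z) w) : ℂ) * f w).1]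
  congr 1
  funext w
  rw [← e z, h1, e w]

theorem ray_eig (hG : St_GEO) (hU : St_UNF1) (hP : St_POLAR) {f : ℍ → ℂ} {A k : ℝ}
    (hf : Continuous f) (hi : Inv f) (he : Eig f k)
    (hA : ∀ z, ‖f z‖ ≤ A * z.im ^ (-(1 / 4) : ℝ)) : Eig (per f) k := by
  intro a ha z
  have hA0 := ray_A hA
  have hz := (hG.2.1 UpperHalfPlane.I z).1
  have hint : Integrable (Function.uncurry fun (w : ℍ) (y : ℝ) =>
      (ka a (qd z w) : ℂ) * (f (ray_dil y w) / y)) (volume.prod (volume.restrict (Ioi 0))) := by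
    have hk : Measurable fun w => ka a (qd z w) := by
      unfold ka
      exact ((ray_qm hG z).sub_const _).pow_const _
    refine (((ray_k hP z).const_mul (((1 - Real.cos a) / 2) ^ (-(3 / 2) : ℝ) * A *
      (4 * qd UpperHalfPlane.I z) ^ (1 / 4 : ℝ))).mul_prod ray_m_int.1).mono'
      ((measurable_ofReal.comp (hk.comp measurable_fst)).mul
        (ray_meas hU hf)).aestronglyMeasurable ?_
    have hae : ∀ᵐ p : ℍ × ℝ ∂(volume.prod (volume.restrict (Ioi (0 : ℝ)))), p.2 ∈ Ioi (0 : ℝ) :=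
      Measure.quasiMeasurePreserving_snd.ae (ae_restrict_mem measurableSet_Ioi)
    filter_upwards [hae] with p hp
    have h1 := (hG.2.1 z p.1).1
    obtain ⟨h2, h3⟩ := ray_ka ha h1
    have h4 := hG.2.2.2.1 UpperHalfPlane.I z p.1
    have h5 := ray_bound hU hi hA (B := 4 * qd UpperHalfPlane.I z * qd z p.1)
      ((ray_q hG p.1).1.trans (by linarith)) ((ray_q hG p.1).2.trans (by linarith)) hp
    simp only [Function.uncurry]
    rw [norm_mul, norm_real, Real.norm_eq_abs, abs_of_nonneg h2]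
    refine (mul_le_mul h3 h5 (norm_nonneg _) (h2.trans h3)).trans (le_of_eq ?_)
    have h6 := ray_pow h1 (D := 4 * qd UpperHalfPlane.I z) (by linarith)
    linear_combination ((1 - Real.cos a) / 2) ^ (-(3 / 2) : ℝ) * A * ray_m p.2 * h6
  have e1 : Lop a (per f) z = ∫ w : ℍ, ∫ y in Ioi (0 : ℝ),
      (ka a (qd z w) : ℂ) * (f (ray_dil y w) / y) := by
    unfold Lop Rop
    congr 1
    funext w
    rw [integral_const_mul]
    rfl
  rw [e1, integral_integral_swap hint, ← integral_const_mul]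
  unfold per
  rw [← integral_const_mul]
  refine setIntegral_congr_fun measurableSet_Ioi fun y hy => ?_
  have h1 := ray_lop hG hU f a z hy
  have h2 := he a ha (ray_dil y z)
  simp only [← mul_div_assoc]
  rw [integral_div, h1, ← mul_div_assoc, h2]
  rfl

theorem ray_inv (hU : St_UNF1) (f : ℍ → ℂ) (x : ℝ) {y : ℝ} (hy : 0 < y) :
    per f (pt x y) = per f (pt (x / y) 1) := by
  have hy' : (y : ℂ) ≠ 0 := by exact_mod_cast hy.ne'
  have h := integral_comp_mul_right_Ioi' (fun s : ℝ => f (pt (s * (x / y)) (s * 1)) / s) 0 hy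
  unfold per
  rw [(hU.1 x y hy).1, (hU.1 x y hy).2, (hU.1 (x / y) 1 one_pos).1, (hU.1 (x / y) 1 one_pos).2]
  rw [zero_mul] at h
  rw [← h, ← integral_smul]
  refine setIntegral_congr_fun measurableSet_Ioi fun s hs => ?_
  have hs' : (s : ℂ) ≠ 0 := by exact_mod_cast (ne_of_gt hs)
  have e : s * y * (x / y) = s * x := by field_simp
  simp only [e, mul_one, real_smul]
  push_cast
  field_simp

theorem ray_ode {ψ : ℍ → ℂ} {m : ℂ} (hL : LapEig ψ m)
    (hinv : ∀ x y : ℝ, 0 < y → ψ (pt x y) = ψ (pt (x / y) 1)) :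
    Ode (fun r => ψ (ray r)) (1 / 4 + m) := by
  obtain ⟨fx, fxx, fy, fyy, h⟩ := hL
  have hd : ∀ (x y : ℝ), 0 < y → HasDerivAt (fun y : ℝ => x / y) (-x / y ^ 2) y := fun x y hy => by
    have := (hasDerivAt_inv hy.ne').const_mul x
    refine (this.congr_deriv (by ring)).congr_of_eventuallyEq (Eventually.of_forall fun t => ?_)
    simp [div_eq_mul_inv]
  have h1 : ∀ x y : ℝ, 0 < y → fy x y = (-x / y ^ 2) • fx (x / y) 1 := fun x y hy => by
    refine (h x y hy).2.2.1.unique ?_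
    refine ((h (x / y) 1 one_pos).1.scomp y (hd x y hy)).congr_of_eventuallyEq ?_
    filter_upwards [lt_mem_nhds hy] with t ht
    exact hinv x t ht
  have h2 : ∀ x : ℝ, fyy x 1 = 2 * x * fx x 1 + x ^ 2 * fxx x 1 := fun x => by
    refine (h x 1 one_pos).2.2.2.1.unique ?_
    have a1 : HasDerivAt (fun y : ℝ => -x / y ^ 2) (2 * x) 1 := by
      have := ((hasDerivAt_pow 2 (1 : ℝ)).inv (by norm_num)).const_mul (-x)
      refine (this.congr_deriv (by norm_num; ring)).congr_of_eventuallyEq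
        (Eventually.of_forall fun t => ?_)
      simp [div_eq_mul_inv]
    have a2 := (h (x / 1) 1 one_pos).2.1.scomp 1 (hd x 1 one_pos)
    refine ((a1.smul a2).congr_deriv ?_).congr_of_eventuallyEq ?_
    · simp only [Function.comp_apply, div_one, one_pow, real_smul]
      push_cast
      ring
    · filter_upwards [lt_mem_nhds one_pos] with t ht
      exact h1 x t ht
  have e : (fun r => ψ (ray r)) = (fun x => ψ (pt x 1)) ∘ Real.sinh := by
    funext r
    have hc := Real.cosh_pos r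
    simp only [Function.comp_apply, ray]
    rw [hinv _ _ (by positivity), Real.tanh_eq_sinh_div_cosh]
    congr 2
    field_simp
  rw [e]
  refine ⟨fun r => Real.cosh r • fx (Real.sinh r) 1, fun r =>
    Real.cosh r • (Real.cosh r • fxx (Real.sinh r) 1) + Real.sinh r • fx (Real.sinh r) 1,
    fun r => ⟨(h _ 1 one_pos).1.scomp r (Real.hasDerivAt_sinh r),
      (Real.hasDerivAt_cosh r).smul ((h _ 1 one_pos).2.1.scomp r (Real.hasDerivAt_sinh r)), ?_⟩⟩
  have h3 := (h (Real.sinh r) 1 one_pos).2.2.2.2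
  rw [h2] at h3
  have h4 : ((Real.tanh r : ℝ) : ℂ) * (Real.cosh r : ℝ) = (Real.sinh r : ℝ) := by
    rw [← ofReal_mul, Real.tanh_eq_sinh_div_cosh, div_mul_cancel₀ _ (Real.cosh_pos r).ne']
  have h5 : ((Real.cosh r : ℝ) : ℂ) ^ 2 = ((Real.sinh r : ℝ) : ℂ) ^ 2 + 1 := by
    exact_mod_cast Real.cosh_sq r
  simp only [real_smul, Function.comp_apply]
  rw [ofReal_one] at h3
  linear_combination h3 + fx (Real.sinh r) 1 * h4 + fxx (Real.sinh r) 1 * h5

theorem t_ray : T_RAY := by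
  intro hG hU hP hE f k A hk hf hi he hA
  refine ⟨ray_ode (hE.2.2 _ k hk (ray_cls hG hU hP hf hi hA) (ray_eig hG hU hP hf hi he hA))
    fun x y hy => ray_inv hU f x hy, fun r => ?_⟩
  have hc := Real.cosh_pos r
  obtain ⟨e1, e2⟩ := hU.1 (Real.tanh r) (1 / Real.cosh r) (by positivity)
  refine ray_int hU hf hi hA (w := ray r) (le_of_eq ?_) (le_of_eq ?_)
  · unfold ray
    rw [e2, one_div_one_div]
  · unfold ray
    rw [e1, e2, Real.tanh_eq_sinh_div_cosh]
    field_simp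
    rw [Real.cosh_sq]

end

end Pool.Agent.Lib.E2
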