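import Pool.Agent.Lib.E2.MB

/-!
Block RB: the right side of the main identity is bounded on the positive real axis.
-/

namespace Pool.Agent.Lib.E2

open Complex MeasureTheory Set Filter Topology
open scoped Real

namespace RB

theorem poly_exp (x : ℝ) (t : ℝ) (hx : x = |t|) :
    (1 + x) ^ 2 * Real.exp (-x) ≤ 256 * (1 + t ^ 2)⁻¹ := by
  have hx0 : 0 ≤ x := hx ▸ abs_nonneg t
  have h1 : 1 + x ≤ 4 * Real.exp (x / 4) := by linarith [Real.add_one_le_exp (x / 4)]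
  have h2 : (1 + x) ^ 4 ≤ (4 * Real.exp (x / 4)) ^ 4 := by gcongr
  have h3 : (4 * Real.exp (x / 4)) ^ 4 = 256 * Real.exp x := by
    rw [mul_pow, ← Real.exp_nat_mul]; congr 2 <;> norm_num; ring
  have h4 : 1 + t ^ 2 ≤ (1 + x) ^ 2 := by rw [← sq_abs t, ← hx]; nlinarith
  have h5 : (1 + x) ^ 2 * (1 + t ^ 2) ≤ 256 * Real.exp x := by
    calc (1 + x) ^ 2 * (1 + t ^ 2) ≤ (1 + x) ^ 2 * (1 + x) ^ 2 := by gcongr
      _ = (1 + x) ^ 4 := by ring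
      _ ≤ _ := h3 ▸ h2
  rw [Real.exp_neg, ← div_eq_mul_inv, ← div_eq_mul_inv, div_le_div_iff₀ (Real.exp_pos x)
    (by positivity)]
  exact h5

theorem bc_bound (hZ : St_ZB1) (h3 : St_ZB3) : ∃ C : ℝ, 0 ≤ C ∧ ∀ t : ℝ,
    ‖Bc t‖ ≤ C * ((1 + |t|) ^ 2 * Real.exp (-(π / 2) * |t|)) := by
  obtain ⟨C, hC⟩ := h3.2.2.2.2.2.2.2.1
  obtain ⟨_, hz0, hze, _, D, hD⟩ := hZ.2.2.2.2.2.2.2.2.2.2.2
  refine ⟨2 * (|C| * |D|), by positivity, fun t => ?_⟩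
  have key : ∀ s : ℝ, |s| = |t| → ‖coef (sk s) * Pif (sk s) 0 * Cf t‖ ≤
      |C| * |D| * ((1 + |t|) ^ 2 * Real.exp (-(π / 2) * |t|)) := fun s hs => by
    have a1 := hC s t hs.symm
    have a2 : (1 + |s|) ^ (-(3 / 8) : ℝ) ≤ 1 :=
      Real.rpow_le_one_of_one_le_of_nonpos (by linarith [abs_nonneg s]) (by norm_num)
    have a3 : z4 s ≤ |D| * (1 + |s|) ^ 2 := (hD s).trans (by gcongr; exact le_abs_self D)
    have a4 := hz0 s
    have a5 : 0 ≤ (1 + |s|) ^ (-(3 / 8) : ℝ) := by positivity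
    calc _ ≤ _ := a1
      _ ≤ |C| * (|D| * (1 + |s|) ^ 2 * 1 * Real.exp (-(π / 2) * |s|)) := by
        gcongr
        exact le_abs_self C
      _ = _ := by rw [hs]; ring
  have b1 := key t rfl
  have b2 := key (-t) (abs_neg t)
  have b3 : ‖(1 / (4 * π) : ℂ)‖ ≤ 1 := by
    rw [norm_div, norm_one, norm_mul, norm_real, Real.norm_eq_abs, abs_of_pos Real.pi_pos,
      div_le_one (by simp [Real.pi_pos])]
    have : ‖(4 : ℂ)‖ = 4 := by simp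
    rw [this]; linarith [Real.pi_gt_three]
  have b4 : Bc t = (1 / (4 * π) : ℂ) *
      (coef (sk t) * Pif (sk t) 0 * Cf t + coef (sk (-t)) * Pif (sk (-t)) 0 * Cf t) := by
    unfold Bc; ring
  rw [b4, norm_mul]
  calc _ ≤ 1 * (‖coef (sk t) * Pif (sk t) 0 * Cf t‖ + ‖coef (sk (-t)) * Pif (sk (-t)) 0 * Cf t‖) := by
        gcongr
        exact norm_add_le _ _
    _ ≤ _ := by linarith

end RB

theorem t_rb : T_RB := by
  intro hJ hZ h3 hCJ hM ⟨ι, k, B, ⟨C1, n, hD, _⟩, hS⟩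
  obtain ⟨C, hC0, hC⟩ := MB.jf_bound hJ
  obtain ⟨E, hE0, hE⟩ := RB.bc_bound hZ h3
  have h1 : (1 : ℝ) ∈ Ioc (0 : ℝ) 1 := ⟨one_pos, le_rfl⟩
  refine ⟨(∑' i, ‖B i‖ * Real.exp ((π / 2 - 1) * |k i|)) * C +
    ∫ t : ℝ, E * C * (256 * (1 + t ^ 2)⁻¹), fun r hr => ?_⟩
  have hj : ∀ t : ℝ, ‖Jf (sk t) r‖ ≤ Real.exp ((π / 2 - 1) * |t|) * C := fun t => by
    have a1 := hC 1 h1 r (by simp; linarith [Real.pi_gt_three]) t
    have a2 : Real.exp (-(r : ℂ).re / 2) ≤ 1 := by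
      rw [Real.exp_le_one_iff, ofReal_re]; linarith
    calc _ ≤ _ := a1
      _ ≤ Real.exp ((π / 2 - 1) * |t|) * (C / 1 * 1) := by gcongr
      _ = _ := by ring
  rw [← hM r, hS r, hCJ r]
  refine (norm_add_le _ _).trans (add_le_add (MB.sum_bound hC0 (hD 1 h1).1 fun i => hj (k i)) ?_)
  refine norm_integral_le_of_norm_le
    ((integrable_inv_one_add_sq.const_mul 256).const_mul (E * C)) (ae_of_all _ fun t => ?_)
  have a3 : Real.exp (-(π / 2) * |t|) * Real.exp ((π / 2 - 1) * |t|) = Real.exp (-|t|) := by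
    rw [← Real.exp_add]; congr 1; ring
  calc ‖Bc t * Jf (sk t) r‖ = ‖Bc t‖ * ‖Jf (sk t) r‖ := norm_mul _ _
    _ ≤ E * ((1 + |t|) ^ 2 * Real.exp (-(π / 2) * |t|)) * (Real.exp ((π / 2 - 1) * |t|) * C) := by
        gcongr
        · exact hE t
        · exact hj t
    _ = E * C * ((1 + |t|) ^ 2 * Real.exp (-|t|)) := by rw [← a3]; ring
    _ ≤ _ := mul_le_mul_of_nonneg_left (RB.poly_exp _ t rfl) (by positivity)

end Pool.Agent.Lib.E2
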