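import Pool.Agent.Lib.E2.AVG1

/-! Sector asymptotics of the transform `Sf`. -/

namespace Pool.Agent.Lib.E2

open Complex MeasureTheory Set Filter Topology
open scoped Real ComplexConjugate

theorem sec_zero {Q : Polynomial ℂ} (h : Tendsto (fun x : ℝ => ‖Q.eval (x : ℂ)‖) atTop (𝓝 0)) :
    Q = 0 := by
  rcases le_or_gt Q.degree 0 with hd | hd
  · rw [Polynomial.eq_C_of_degree_le_zero hd] at h ⊢
    simp only [Polynomial.eval_C] at h
    rw [norm_eq_zero.1 (tendsto_nhds_unique tendsto_const_nhds h), map_zero]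
  · have h2 : Tendsto (fun x : ℝ => ‖(x : ℂ)‖) atTop atTop := by
      simpa using tendsto_abs_atTop_atTop
    exact absurd h (not_tendsto_nhds_of_tendsto_atTop (Polynomial.tendsto_norm_atTop Q hd h2) 0)

theorem sec_poly (Q : Polynomial ℂ) {ε : ℝ} (hε : 0 < ε) :
    ∃ C : ℝ, 0 ≤ C ∧ ∀ w : ℂ, ‖Q.eval w‖ ≤ C * Real.exp (ε * ‖w‖) := by
  induction Q using Polynomial.induction_on' with
  | add p q hp hq =>
    obtain ⟨C1, h1, hp⟩ := hp
    obtain ⟨C2, h2, hq⟩ := hq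
    refine ⟨C1 + C2, by positivity, fun w => ?_⟩
    rw [Polynomial.eval_add, add_mul]
    exact (norm_add_le _ _).trans (add_le_add (hp w) (hq w))
  | monomial n a =>
    refine ⟨‖a‖ * (n.factorial / ε ^ n), by positivity, fun w => ?_⟩
    rw [Polynomial.eval_monomial, norm_mul, norm_pow, mul_assoc]
    refine mul_le_mul_of_nonneg_left ?_ (norm_nonneg a)
    have := Real.pow_div_factorial_le_exp (ε * ‖w‖) (by positivity) n
    rw [mul_pow, div_le_iff₀ (by positivity)] at this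
    rw [div_mul_eq_mul_div, le_div_iff₀ (by positivity)]
    linarith

theorem sec_maj (hK : St_KB) (hZ : St_ZB1) : ∃ K : ℝ, 0 ≤ K ∧ ∀ ρ ∈ Ioc (0 : ℝ) 1, ∀ w : ℂ,
    ρ ≤ 2 * w.re → ∀ t : ℝ, 0 < t → ‖(z4 t : ℂ) * Wf (w * t)‖ ≤
      K / ρ ^ 2 * ‖w‖ ^ (-(1 / 2) : ℝ) * (t ^ ((1 / 2 : ℝ) - 1) * Real.exp (-(ρ / 2 * t))) := by
  obtain ⟨C, hC⟩ := hK.2.2.1 (1 / 4) ⟨by norm_num, by norm_num⟩
  obtain ⟨-, -, -, -, -, -, -, -, -, -, -, -, z0, -, -, D, hD⟩ := hZ
  have D0 : 0 ≤ D := by simpa using (z0 0).trans (hD 0)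
  refine ⟨16 * D * C ^ 2, by positivity, fun ρ hρ w hw t ht => ?_⟩
  have h0 := hρ.1
  have hre : (w * t).re = w.re * t := re_mul_ofReal _ _
  have h1 := hC (w * t) (by rw [hre]; exact mul_pos (by linarith) ht)
  have h2 : ‖Wf (w * t)‖ ≤ C ^ 2 * (‖w‖ ^ (-(1 / 2) : ℝ) * t ^ ((1 / 2 : ℝ) - 1)) *
      Real.exp (-(ρ * t)) := by
    rw [Wf, norm_pow]
    refine (pow_le_pow_left₀ (norm_nonneg _) h1 2).trans ?_
    rw [mul_pow, mul_pow, ← Real.rpow_natCast (‖w * t‖ ^ _), ← Real.rpow_mul (norm_nonneg _),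
      norm_mul, norm_real, Real.norm_of_nonneg ht.le, Real.mul_rpow (norm_nonneg _) ht.le,
      ← Real.exp_nat_mul, hre]
    norm_num
    refine mul_le_mul_of_nonneg_left (Real.exp_le_exp.2 ?_) (by positivity)
    nlinarith
  have h3 : z4 t ≤ D * (16 / ρ ^ 2 * Real.exp (ρ / 2 * t)) := by
    refine (hD t).trans (mul_le_mul_of_nonneg_left ?_ D0)
    have a1 := Real.add_one_le_exp (ρ / 4 * t)
    have a2 : ρ * (1 + t) ≤ 4 * Real.exp (ρ / 4 * t) := by nlinarith [hρ.2]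
    have a3 := pow_le_pow_left₀ (by positivity) a2 2
    rw [mul_pow, mul_pow, ← Real.exp_nat_mul] at a3
    rw [abs_of_pos ht, div_mul_eq_mul_div, le_div_iff₀ (by positivity),
      show ρ / 2 * t = (2 : ℕ) * (ρ / 4 * t) by push_cast; ring]
    linarith
  rw [norm_mul, norm_real, Real.norm_of_nonneg (z0 t)]
  refine (mul_le_mul h3 h2 (norm_nonneg _) (by positivity)).trans (le_of_eq ?_)
  rw [show -(ρ / 2 * t) = ρ / 2 * t + -(ρ * t) by ring, Real.exp_add]
  ring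

theorem sec_int {c : ℝ} (hc : 0 < c) :
    IntegrableOn (fun t : ℝ => t ^ ((1 / 2 : ℝ) - 1) * Real.exp (-(c * t))) (Ioi 0) := by
  refine Integrable.of_integral_ne_zero ?_
  rw [Real.integral_rpow_mul_exp_neg_mul_Ioi (by norm_num) hc]
  have := Real.Gamma_pos_of_pos (show (0 : ℝ) < 1 / 2 by norm_num)
  positivity

theorem sec_mem {z : ℂ} (hz : z ∈ RH) {t : ℝ} (ht : 0 < t) : z * t ∈ RH := by
  show 0 < (z * t).re
  rw [re_mul_ofReal]
  exact mul_pos hz ht

theorem sec_diff (hP : St_PAR) (hK : St_KB) (hZ : St_ZB1) : DifferentiableOn ℂ Sf RH := by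
  obtain ⟨K, K0, h⟩ := sec_maj hK hZ
  have hW : DifferentiableOn ℂ Wf RH := hK.2.1
  have hc : Continuous z4 := hZ.2.2.2.2.2.2.2.2.2.2.2.1
  refine (hP.1 ℝ (volume.restrict (Ioi 0)) (fun z t => (z4 t : ℂ) * Wf (z * t)) RH avg1_open
    (fun z hz => ContinuousOn.aestronglyMeasurable ?_ measurableSet_Ioi) ?_ fun z hz => ?_).1
  · exact (continuous_ofReal.comp hc).continuousOn.mul
      (hW.continuousOn.comp (by fun_prop) fun t ht => sec_mem hz ht)
  · refine (ae_restrict_iff' measurableSet_Ioi).2 (Eventually.of_forall fun t ht => ?_)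
    exact (hW.comp (differentiableOn_id.mul_const _) fun z hz => sec_mem hz ht).const_mul _
  · have h0 : 0 < z.re := hz
    have hρ : min z.re 1 ∈ Ioc (0 : ℝ) 1 := ⟨lt_min h0 one_pos, min_le_right _ _⟩
    refine ⟨z.re / 2, by linarith, _, (sec_int (half_pos hρ.1)).const_mul
      (K / min z.re 1 ^ 2 * (z.re / 2) ^ (-(1 / 2) : ℝ)),
      (ae_restrict_iff' measurableSet_Ioi).2 (Eventually.of_forall fun t ht w _ hw => ?_)⟩
    have h2 := (abs_re_le_norm (w - z)).trans hw.le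
    rw [sub_re, abs_le] at h2
    have ht' : 0 < t := ht
    refine (h _ hρ w (by linarith [min_le_left z.re 1, h2.1]) t ht).trans
      (mul_le_mul_of_nonneg_right (mul_le_mul_of_nonneg_left ?_ (by positivity)) (by positivity))
    exact Real.rpow_le_rpow_of_nonpos (by linarith) (by linarith [re_le_norm w, h2.1])
      (by norm_num)

theorem sec_big (hK : St_KB) (hZ : St_ZB1) : ∃ K : ℝ, 0 ≤ K ∧ ∀ ρ ∈ Ioc (0 : ℝ) 1, ∀ w : ℂ,
    ρ ≤ 2 * w.re → ‖Sf w‖ ≤ K / ρ ^ 3 * ‖w‖ ^ (-(1 / 2) : ℝ) := by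
  obtain ⟨K, K0, h⟩ := sec_maj hK hZ
  have hG := Real.Gamma_pos_of_pos (show (0 : ℝ) < 1 / 2 by norm_num)
  refine ⟨2 * K * Real.Gamma (1 / 2), by positivity, fun ρ hρ w hw => ?_⟩
  have h0 := hρ.1
  refine (norm_integral_le_of_norm_le ((sec_int (half_pos h0)).const_mul _)
    ((ae_restrict_iff' measurableSet_Ioi).2 (Eventually.of_forall fun t ht =>
      h ρ hρ w hw t ht))).trans ?_
  rw [integral_const_mul, Real.integral_rpow_mul_exp_neg_mul_Ioi (by norm_num) (half_pos h0)]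
  have h1 : (1 / (ρ / 2)) ^ (1 / 2 : ℝ) ≤ 2 / ρ := by
    rw [one_div_div]
    simpa using Real.rpow_le_rpow_of_exponent_le (x := 2 / ρ)
      ((one_le_div h0).2 (by linarith [hρ.2])) (show (1 / 2 : ℝ) ≤ 1 by norm_num)
  refine (mul_le_mul_of_nonneg_left (mul_le_mul_of_nonneg_right h1 hG.le)
    (by positivity)).trans (le_of_eq ?_)
  field_simp

theorem sec_geo {e : ℝ} (he : e ∈ Ioc (0 : ℝ) 1) {z : ℂ} (hz : z ∈ RH) (hez : e * ‖z‖ ≤ z.re)
    (h3 : ‖z‖ ≤ 1 / 3) (hi : z.im ≤ 0) : ∃ r : ℂ, Reg (e / 3) r ∧ th r = z := by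
  have z0 := avg1_ne hz
  have zp : 0 < ‖z‖ := norm_pos_iff.2 z0
  have h0 := he.1
  obtain ⟨X, hX⟩ : ∃ X, X = z⁻¹ := ⟨_, rfl⟩
  have hn : 0 < normSq z := normSq_pos.2 z0
  have X3 : 3 ≤ ‖X‖ := by
    rw [hX, norm_inv, le_inv_comm₀ (by norm_num) zp]; linarith
  have Xre : e * ‖X‖ ≤ X.re := by
    rw [hX, inv_re, norm_inv, normSq_eq_norm_sq, le_div_iff₀ (by positivity)]
    refine le_trans (le_of_eq ?_) hez
    field_simp
  have Xim : 0 ≤ X.im := by
    rw [hX, inv_im]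
    exact div_nonneg (by linarith) hn.le
  have Xp : 0 < X.re := lt_of_lt_of_le (by positivity) Xre
  obtain ⟨s, hs, sre⟩ : ∃ s : ℂ, s ^ 2 = X ^ 2 + 1 ∧ 0 ≤ s.re := by
    obtain ⟨s, hs⟩ := IsAlgClosed.exists_pow_nat_eq (X ^ 2 + 1) two_pos
    rcases le_total 0 s.re with h | h
    · exact ⟨s, hs, h⟩
    · exact ⟨-s, by rw [neg_sq, hs], by rw [neg_re]; linarith⟩
  have e1 : s.re * s.re - s.im * s.im = X.re * X.re - X.im * X.im + 1 := by
    simpa [sq] using congrArg re hs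
  have e2 : s.re * s.im = X.re * X.im := by
    have := congrArg im hs
    simp only [sq, mul_im, add_im, one_im] at this
    linarith
  have sim : 0 ≤ s.im := by
    by_contra hc
    have a1 : s.im < 0 := not_le.1 hc
    have a2 : s.re = 0 := by nlinarith [mul_nonneg Xp.le Xim]
    have a3 : X.im = 0 := by
      rw [a2, zero_mul] at e2
      exact (mul_eq_zero.1 e2.symm).resolve_left Xp.ne'
    rw [a2, a3] at e1
    nlinarith
  have sn : ‖s‖ ≤ 2 * ‖X‖ := by
    have a1 : ‖s‖ ^ 2 ≤ ‖X‖ ^ 2 + 1 := by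
      rw [← norm_pow, hs, ← norm_pow]
      exact (norm_add_le _ _).trans (by simp)
    nlinarith [norm_nonneg s]
  have w3 : ‖X‖ ≤ ‖X + s‖ := by
    refine (sq_le_sq₀ (norm_nonneg _) (norm_nonneg _)).1 ?_
    rw [Complex.sq_norm, Complex.sq_norm, normSq_apply, normSq_apply, add_re, add_im]
    nlinarith [mul_nonneg Xp.le sre, mul_nonneg Xim sim]
  have wp : 0 < ‖X + s‖ := by linarith
  have w0 : X + s ≠ 0 := norm_pos_iff.1 wp
  have a0 : 0 ≤ arg (X + s) := arg_nonneg_iff.2 (by rw [add_im]; linarith)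
  refine ⟨log (X + s), ⟨?_, by rwa [log_im], ?_⟩, ?_⟩
  · rw [log_re, Real.le_log_iff_exp_le wp]
    linarith [Real.exp_one_lt_d9]
  · rw [log_im]
    by_contra hc
    have a1 := Real.cos_lt_cos_of_nonneg_of_le_pi (x := π / 2 - e / 3)
      (by linarith [Real.pi_gt_three, he.2]) (arg_le_pi (X + s)) (not_le.1 hc)
    rw [Real.cos_pi_div_two_sub, cos_arg w0, div_lt_iff₀ wp, add_re] at a1
    have a2 := Real.sin_le (show 0 ≤ e / 3 by positivity)
    have a3 : ‖X + s‖ ≤ 3 * ‖X‖ := by linarith [norm_add_le X s]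
    have a4 : Real.sin (e / 3) * ‖X + s‖ ≤ e / 3 * (3 * ‖X‖) :=
      (mul_le_mul_of_nonneg_right a2 wp.le).trans (mul_le_mul_of_nonneg_left a3 (by positivity))
    linarith
  · have a1 : (X + s)⁻¹ = s - X := inv_eq_of_mul_eq_one_right (by linear_combination hs)
    rw [th, sinh, exp_neg, exp_log w0, a1, show (X + s - (s - X)) / 2 = X by ring, hX, inv_inv]

theorem sec_lip (Q : Polynomial ℂ) : ∃ C : ℝ, 0 ≤ C ∧ ∀ r y : ℂ, 1 ≤ r.re → |r.im| ≤ 2 →
    ‖y - r‖ ≤ 2 * Real.exp (-2 * r.re) → ‖Q.eval y - Q.eval r‖ ≤ C * Real.exp (-r.re / 2) := by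
  obtain ⟨C, C0, h⟩ := sec_poly Q.derivative one_pos
  refine ⟨C * Real.exp 4 * 2, by positivity, fun r y h1 h2 h3 => ?_⟩
  have a0 : Real.exp (-2 * r.re) ≤ 1 := Real.exp_le_one_iff.2 (by linarith)
  have a1 := (convex_closedBall r 2).norm_image_sub_le_of_norm_deriv_le (𝕜 := ℂ)
    (f := fun w => Q.eval w) (C := C * Real.exp (4 + r.re)) (x := r) (y := y)
    (fun u _ => Q.differentiable u) (fun u hu => by
      rw [Polynomial.deriv]
      refine (h u).trans (mul_le_mul_of_nonneg_left (Real.exp_le_exp.2 ?_) C0)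
      have b1 := mem_closedBall_iff_norm.1 hu
      have b2 := norm_sub_norm_le u r
      have b3 := norm_le_abs_re_add_abs_im r
      rw [abs_of_nonneg (by linarith : 0 ≤ r.re)] at b3
      linarith)
    (Metric.mem_closedBall_self (by norm_num)) (mem_closedBall_iff_norm.2 (by linarith))
  refine a1.trans ((mul_le_mul_of_nonneg_left h3 (by positivity)).trans ?_)
  have a2 : Real.exp r.re * Real.exp (-2 * r.re) ≤ Real.exp (-r.re / 2) := by
    rw [← Real.exp_add]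
    exact Real.exp_le_exp.2 (by linarith)
  rw [Real.exp_add]
  calc C * (Real.exp 4 * Real.exp r.re) * (2 * Real.exp (-2 * r.re))
      = C * Real.exp 4 * 2 * (Real.exp r.re * Real.exp (-2 * r.re)) := by ring
    _ ≤ _ := mul_le_mul_of_nonneg_left a2 (by positivity)

theorem sec_pow {C e : ℝ} (he : e ∈ Ioc (0 : ℝ) 1) (c : ℝ) (hc : 0 < c) {k m : ℕ} (h : k ≤ m) :
    C / (e / c) ^ k ≤ |C| * c ^ k / e ^ m := by
  have h0 := he.1
  rw [div_pow, div_div_eq_mul_div]
  exact div_le_div₀ (by positivity) (mul_le_mul_of_nonneg_right (le_abs_self C) (by positivity))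
    (by positivity) (pow_le_pow_of_le_one h0.le he.2 h)

theorem sec_half (hZ3 : St_ZB3) (hT : St_TH) (hW : St_WP) (hA : St_ASY) (hG : St_GLUE)
    (hM : St_MB) (h9 : Mom9) : ∃ (Q : Polynomial ℂ) (C : ℝ) (k : ℕ), 0 ≤ C ∧ ∀ e ∈ Ioc (0 : ℝ) 1,
      ∀ z ∈ RH, e * ‖z‖ ≤ z.re → ‖z‖ ≤ 1 / 3 → z.im ≤ 0 →
        ‖z * Sf z - Q.eval (log z)‖ ≤ C / e ^ k * ‖z‖ ^ (1 / 2 : ℝ) := by
  obtain ⟨Qw, hw⟩ := (hW 0).1
  obtain ⟨Qa, Ca, ka, ha⟩ := hA h9 0
  obtain ⟨ι, k, B, hD, hg⟩ := hG h9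
  obtain ⟨Cm, n, hm⟩ := hM ι k B hD (hZ3.2.2.2.2.2.2.2.2 h9)
  obtain ⟨Cl, l0, hl⟩ := sec_lip Qa
  refine ⟨Qw - Polynomial.C (π : ℂ) * Qa.comp (Polynomial.C (Real.log 2 : ℂ) - Polynomial.X),
    π * (|Cm| * 3 ^ n + |Ca| * 3 ^ ka + Cl), n + ka, by positivity, fun e he z hz hez h3 hi => ?_⟩
  obtain ⟨r, hr, rfl⟩ := sec_geo he hz hez h3 hi
  have h0 := he.1
  have he3 : e / 3 ∈ Ioc (0 : ℝ) 1 := ⟨by positivity, by linarith [he.2]⟩
  obtain ⟨t1, -, t3, -, t5, -, t7, -⟩ := hT _ he3 r hr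
  have hp : (π : ℂ) ≠ 0 := ofReal_ne_zero.2 Real.pi_ne_zero
  have b1 := ha _ he3 r hr
  have b2 := hm _ he3 r (by rw [abs_of_nonneg hr.2.1]; linarith [hr.2.2])
  rw [hg r t1] at b2
  have b3 := hl r (Real.log 2 - log (th r)) hr.1
    (by rw [abs_of_nonneg hr.2.1]; linarith [hr.2.2, Real.pi_lt_four])
    (by rw [← norm_neg]; refine le_trans (le_of_eq ?_) t7; congr 1; ring)
  have e1 : th r * Sf (th r) = -ET 0 (th r) + Qw.eval (log (th r)) := by
    rw [← (hw _ hz).2, Sf, ← integral_const_mul]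
    exact integral_congr_ae (Eventually.of_forall fun t => by ring)
  have e2 : th r * Sf (th r) - (Qw - Polynomial.C (π : ℂ) *
      Qa.comp (Polynomial.C (Real.log 2 : ℂ) - Polynomial.X)).eval (log (th r)) =
      π * (RR r - (RR r + ET 0 (th r) / π - Qa.eval r) +
        (Qa.eval (Real.log 2 - log (th r)) - Qa.eval r)) := by
    rw [e1]
    simp only [Polynomial.eval_sub, Polynomial.eval_mul, Polynomial.eval_C, Polynomial.eval_comp,
      Polynomial.eval_X]
    field_simp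
    ring
  have c1 : Real.exp (-r.re / 2) ≤ ‖th r‖ ^ (1 / 2 : ℝ) := by
    rw [show -r.re / 2 = -r.re * (1 / 2) by ring, Real.exp_mul]
    exact Real.rpow_le_rpow (Real.exp_pos _).le t5 (by norm_num)
  have c2 : Real.exp (-(3 / 5) * r.re) ≤ ‖th r‖ ^ (1 / 2 : ℝ) :=
    (Real.exp_le_exp.2 (by linarith [hr.1])).trans c1
  have d1 := b2.trans (mul_le_mul (sec_pow he 3 (by norm_num) (Nat.le_add_right n ka)) c1
    (by positivity) (by positivity))
  have d2 := b1.trans (mul_le_mul (sec_pow he 3 (by norm_num) (Nat.le_add_left ka n)) c2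
    (by positivity) (by positivity))
  have d3 := b3.trans (mul_le_mul (le_div_self l0 (pow_pos h0 (n + ka))
    (pow_le_one₀ h0.le he.2)) c1 (by positivity) (by positivity))
  rw [e2, norm_mul, norm_real, Real.norm_of_nonneg Real.pi_pos.le, mul_div_assoc, mul_assoc]
  refine mul_le_mul_of_nonneg_left ((norm_add_le _ _).trans ?_) Real.pi_pos.le
  refine (add_le_add ((norm_sub_le _ _).trans (add_le_add d1 d2)) d3).trans (le_of_eq ?_)
  ring

theorem sec_conj (z : ℂ) : Sf (conj z) = conj (Sf z) := by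
  have h : ∀ w : ℂ, Kb (conj w) 0 = conj (Kb w 0) := fun w => by
    rw [Kb, Kb, ← integral_conj]
    refine integral_congr_ae (Eventually.of_forall fun v => ?_)
    simp only [← exp_conj, map_add, map_mul, map_neg, conj_ofReal, map_zero]
  rw [Sf, Sf, ← integral_conj]
  refine integral_congr_ae (Eventually.of_forall fun t => ?_)
  simp only [Wf, map_mul, map_pow, conj_ofReal, ← h]

theorem sec_map (Q : Polynomial ℂ) (y : ℂ) :
    (Q.map (starRingEnd ℂ)).eval y = conj (Q.eval (conj y)) := by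
  rw [← Polynomial.eval₂_at_apply, conj_conj, Polynomial.eval_map]

theorem t_sec : T_SEC := by
  intro hP hK hZ hZ3 hT hW hA hG hM h9
  obtain ⟨Q, C, k, C0, h⟩ := sec_half hZ3 hT hW hA hG hM h9
  have h' : ∀ e ∈ Ioc (0 : ℝ) 1, ∀ z ∈ RH, e * ‖z‖ ≤ z.re → ‖z‖ ≤ 1 / 3 → 0 ≤ z.im →
      ‖z * Sf z - (Q.map (starRingEnd ℂ)).eval (log z)‖ ≤ C / e ^ k * ‖z‖ ^ (1 / 2 : ℝ) := by
    intro e he z hz hez h3 hi
    have a1 := h e he (conj z) (show 0 < (conj z).re from hz) (by rwa [norm_conj, conj_re])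
      (by rwa [norm_conj]) (by rw [conj_im]; linarith)
    rwa [sec_conj, log_conj z (slitPlane_arg_ne_pi (avg1_slit hz)), ← norm_conj, map_sub, ← map_mul,
      conj_conj, ← sec_map, norm_conj] at a1
  have hQ : Q.map (starRingEnd ℂ) = Q := by
    have a1 : (Q.map (starRingEnd ℂ) - Q).comp (-Polynomial.X) = 0 := by
      refine sec_zero (squeeze_zero' (g := fun x : ℝ => 2 * C * Real.exp (-x * (1 / 2)))
        (Eventually.of_forall fun x => norm_nonneg _) ?_ ?_)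
      · filter_upwards [eventually_ge_atTop 2] with x hx
        have p := Real.exp_pos (-x)
        have hz : ((Real.exp (-x) : ℝ) : ℂ) ∈ RH := show 0 < ((Real.exp (-x) : ℝ) : ℂ).re from p
        have hn : ‖((Real.exp (-x) : ℝ) : ℂ)‖ = Real.exp (-x) := by
          rw [norm_real, Real.norm_of_nonneg p.le]
        have h3 : ‖((Real.exp (-x) : ℝ) : ℂ)‖ ≤ 1 / 3 := by
          rw [hn, Real.exp_neg, one_div]
          exact inv_anti₀ (by norm_num) (by linarith [Real.add_one_le_exp x])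
        have b1 := h 1 ⟨one_pos, le_rfl⟩ _ hz (by rw [hn, one_mul, ofReal_re]) h3 (ofReal_im _).le
        have b2 := h' 1 ⟨one_pos, le_rfl⟩ _ hz (by rw [hn, one_mul, ofReal_re]) h3 (ofReal_im _).ge
        rw [← ofReal_log p.le, Real.log_exp, hn, one_pow, div_one, ← Real.exp_mul] at b1 b2
        have b3 := norm_sub_le_of_le b1 b2
        rw [sub_sub_sub_cancel_left] at b3
        simp only [Polynomial.eval_comp, Polynomial.eval_neg, Polynomial.eval_X,
          Polynomial.eval_sub, ← ofReal_neg]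
        linarith
      · have := (Real.tendsto_exp_atBot.comp (tendsto_neg_atTop_atBot.atBot_mul_const
          (show (0 : ℝ) < 1 / 2 by norm_num))).const_mul (2 * C)
        rwa [mul_zero] at this
    have a2 := congrArg (fun p => Polynomial.comp p (-Polynomial.X)) a1
    simp only [Polynomial.comp_neg_X_comp_neg_X, Polynomial.zero_comp] at a2
    exact sub_eq_zero.1 a2
  rw [hQ] at h'
  obtain ⟨K, K0, hb⟩ := sec_big hK hZ
  obtain ⟨D, D0, hD⟩ := sec_poly Q (show (0 : ℝ) < 1 / 2 by norm_num)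
  refine ⟨sec_diff hP hK hZ, Q, C + (|K| * 2 ^ 3 + D * Real.exp 4), k + 3,
    fun e he z hz hez => ?_⟩
  have h0 := he.1
  have z0 := avg1_ne hz
  have zp : 0 < ‖z‖ := norm_pos_iff.2 z0
  have er : ‖z‖ ^ (1 / 2 : ℝ) / ‖z‖ = ‖z‖ ^ (-(1 / 2) : ℝ) := by
    rw [← Real.rpow_sub_one zp.ne']; norm_num
  rcases le_total ‖z‖ (1 / 3) with h3 | h3
  · have a1 : ‖z * Sf z - Q.eval (log z)‖ ≤ C / e ^ k * ‖z‖ ^ (1 / 2 : ℝ) :=
      (le_total z.im 0).elim (h e he z hz hez h3) (h' e he z hz hez h3)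
    rw [show Sf z - Q.eval (log z) / z = (z * Sf z - Q.eval (log z)) / z by field_simp, norm_div]
    refine (div_le_div_of_nonneg_right a1 zp.le).trans ?_
    rw [mul_div_assoc, er]
    refine mul_le_mul_of_nonneg_right (div_le_div₀ (by positivity)
      (le_add_of_nonneg_right (by positivity)) (by positivity)
      (pow_le_pow_of_le_one h0.le he.2 (Nat.le_add_right k 3))) (by positivity)
  · have a1 := (hb (e / 2) ⟨by positivity, by linarith [he.2]⟩ z (by nlinarith)).trans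
      (mul_le_mul_of_nonneg_right (sec_pow he 2 two_pos (Nat.le_add_left 3 k)) (by positivity))
    have a2 : ‖log z‖ ≤ Real.log ‖z‖ + 8 := by
      have b1 := norm_le_abs_re_add_abs_im (log z)
      rw [log_re, log_im] at b1
      have b2 := abs_arg_le_pi z
      have b3 : -2 ≤ Real.log ‖z‖ := by
        rw [Real.le_log_iff_exp_le zp, Real.exp_neg]
        refine le_trans (inv_anti₀ (by norm_num) ?_) (le_trans (by norm_num) h3 : (3 : ℝ)⁻¹ ≤ _)
        linarith [Real.add_one_le_exp (2 : ℝ)]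
      have b4 : |Real.log ‖z‖| ≤ Real.log ‖z‖ + 4 := abs_le.2 ⟨by linarith, by linarith⟩
      linarith [Real.pi_lt_four]
    have a3 : ‖Q.eval (log z) / z‖ ≤ D * Real.exp 4 / e ^ (k + 3) * ‖z‖ ^ (-(1 / 2) : ℝ) := by
      have b1 : Real.exp (1 / 2 * ‖log z‖) ≤ Real.exp 4 * ‖z‖ ^ (1 / 2 : ℝ) := by
        rw [Real.rpow_def_of_pos zp, ← Real.exp_add]
        exact Real.exp_le_exp.2 (by linarith)
      rw [norm_div]
      refine (div_le_div_of_nonneg_right ((hD _).trans (mul_le_mul_of_nonneg_left b1 D0))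
        zp.le).trans ?_
      rw [← mul_assoc, mul_div_assoc, er]
      exact mul_le_mul_of_nonneg_right (le_div_self (by positivity) (pow_pos h0 _)
        (pow_le_one₀ h0.le he.2)) (by positivity)
    refine (norm_sub_le _ _).trans ((add_le_add a1 a3).trans ?_)
    rw [← add_mul, ← add_div]
    exact mul_le_mul_of_nonneg_right (div_le_div_of_nonneg_right (le_add_of_nonneg_left C0)
      (by positivity)) (by positivity)

end Pool.Agent.Lib.E2
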