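import Pool.Agent.Lib.E2.Blue

/-! Shifting a vertical line across one pole. -/

namespace Pool.Agent.Lib.E2

noncomputable section

open Complex MeasureTheory Set Filter Topology
open scoped Real

namespace SHP

/-- continuity on the closed strip away from `c` -/
def Ct (a b c : ℝ) (h : ℂ → ℂ) : Prop := ContinuousOn h ({z : ℂ | a ≤ z.re ∧ z.re ≤ b} \ {(c : ℂ)})

/-- an integrable majorant far from the real axis -/
def Bd (a b : ℝ) (h : ℂ → ℂ) : Prop :=
  ∃ g : ℝ → ℝ, Integrable g ∧ ∀ z : ℂ, a ≤ z.re → z.re ≤ b → 1 ≤ |z.im| → ‖h z‖ ≤ g z.im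

/-- the residue formula -/
def Phi (a b c d : ℝ) (h : ℂ → ℂ) : Prop :=
  I * (∫ y : ℝ, h (b + y * I)) - I * (∫ y : ℝ, h (a + y * I)) = ∮ z in C(c, d), h z

lemma maj {g : ℝ → ℝ} (hg : Integrable g) (M : ℝ) :
    Integrable (fun y => |g y| + (Icc (-1 : ℝ) 1).indicator (fun _ => |M|) y) :=
  hg.abs.add ((integrable_indicator_iff measurableSet_Icc).2 (integrableOn_const (by simp)))

lemma le_maj {g : ℝ → ℝ} {M x y : ℝ} (h1 : 1 ≤ |y| → x ≤ g y) (h2 : y ∈ Icc (-1 : ℝ) 1 → x ≤ M) :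
    x ≤ |g y| + (Icc (-1 : ℝ) 1).indicator (fun _ => |M|) y := by
  by_cases hy : y ∈ Icc (-1 : ℝ) 1
  · rw [indicator_of_mem hy]
    have := h2 hy
    have := le_abs_self M
    have := abs_nonneg (g y)
    linarith
  · rw [indicator_of_notMem hy, add_zero]
    refine (h1 ?_).trans (le_abs_self _)
    by_contra h
    exact hy (abs_le.1 (not_le.1 h).le)

variable {a b c d : ℝ}

lemma re_line (x y : ℝ) : ((x : ℂ) + y * I).re = x := by simp

lemma im_line (x y : ℝ) : ((x : ℂ) + y * I).im = y := by simp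

lemma ne_line {x : ℝ} (hx : x ≠ c) (y : ℝ) : (x : ℂ) + y * I ≠ c := by
  intro h
  have := congrArg re h
  rw [re_line, ofReal_re] at this
  exact hx this

lemma line_int {h : ℂ → ℂ} (h1 : Ct a b c h) (h2 : Bd a b h) {x : ℝ} (ha : a ≤ x) (hb : x ≤ b)
    (hx : x ≠ c) : Integrable (fun y : ℝ => h (x + y * I)) := by
  obtain ⟨g, hg, hb'⟩ := h2
  have hc : Continuous (fun y : ℝ => h (x + y * I)) :=
    h1.comp_continuous (by fun_prop) fun y =>
      ⟨⟨by rwa [re_line], by rwa [re_line]⟩, ne_line hx y⟩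
  obtain ⟨M, hM⟩ := (isCompact_Icc (a := (-1 : ℝ)) (b := 1)).exists_bound_of_continuousOn
    hc.continuousOn
  refine (maj hg M).mono' hc.aestronglyMeasurable (ae_of_all _ fun y => le_maj (fun hy => ?_) (hM y))
  have := hb' (x + y * I) (by rwa [re_line]) (by rwa [re_line]) (by rwa [im_line])
  rwa [im_line] at this

lemma ball_re {z : ℂ} (hz : z ∈ Metric.closedBall (c : ℂ) d) : c - d ≤ z.re ∧ z.re ≤ c + d := by
  have h1 : ‖z - c‖ ≤ d := mem_closedBall_iff_norm.1 hz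
  have h2 := abs_re_le_norm (z - c)
  rw [sub_re, ofReal_re] at h2
  have := abs_le.1 (h2.trans h1)
  constructor <;> linarith [this.1, this.2]

lemma sph (hd : 0 < d) (ha : a < c - d) (hb : c + d < b) {z : ℂ}
    (hz : z ∈ Metric.sphere (c : ℂ) d) : (a ≤ z.re ∧ z.re ≤ b) ∧ z ≠ c := by
  have := ball_re (Metric.sphere_subset_closedBall hz)
  refine ⟨⟨by linarith [this.1], by linarith [this.2]⟩, ?_⟩
  rintro rfl
  simp at hz
  linarith

lemma circ_int (hd : 0 < d) (ha : a < c - d) (hb : c + d < b) {h : ℂ → ℂ} (h1 : Ct a b c h) :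
    CircleIntegrable h c d :=
  ContinuousOn.circleIntegrable hd.le (h1.mono fun _ hz => sph hd ha hb hz)

lemma phi_add (hd : 0 < d) (ha : a < c - d) (hb : c + d < b) {h E k : ℂ → ℂ} {κ : ℂ}
    (e1 : Ct a b c E) (e2 : Bd a b E) (e3 : Phi a b c d E)
    (k1 : Ct a b c k) (k2 : Bd a b k) (k3 : Phi a b c d k)
    (hh : ∀ z : ℂ, a ≤ z.re → z.re ≤ b → z ≠ c → h z = κ * E z + k z) : Phi a b c d h := by
  have hl : ∀ x : ℝ, a ≤ x → x ≤ b → x ≠ c → ∫ y : ℝ, h (x + y * I) =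
      κ * (∫ y : ℝ, E (x + y * I)) + ∫ y : ℝ, k (x + y * I) := fun x h1 h2 h3 => by
    rw [← integral_const_mul, ← integral_add ((line_int e1 e2 h1 h2 h3).const_mul κ)
      (line_int k1 k2 h1 h2 h3)]
    exact integral_congr_ae (ae_of_all _ fun y =>
      hh _ (by rwa [re_line]) (by rwa [re_line]) (ne_line h3 y))
  have hc : (∮ z in C(c, d), h z) = κ * (∮ z in C(c, d), E z) + ∮ z in C(c, d), k z := by
    have c1 : Ct a b c fun z => κ * E z := ContinuousOn.mul continuousOn_const e1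
    rw [← circleIntegral.integral_const_mul,
      ← circleIntegral.integral_add (circ_int hd ha hb c1) (circ_int hd ha hb k1)]
    exact circleIntegral.integral_congr hd.le fun z hz =>
      hh z (sph hd ha hb hz).1.1 (sph hd ha hb hz).1.2 (sph hd ha hb hz).2
  unfold Phi at e3 k3 ⊢
  rw [hl a le_rfl (by linarith) (by linarith), hl b (by linarith) le_rfl (by linarith), hc,
    ← e3, ← k3]
  ring

lemma bd_sub {h E k : ℂ → ℂ} {κ : ℂ} (h2 : Bd a b h) (e2 : Bd a b E)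
    (hh : ∀ z : ℂ, a ≤ z.re → z.re ≤ b → z ≠ c → h z = κ * E z + k z) : Bd a b k := by
  obtain ⟨g, hg, hb⟩ := h2
  obtain ⟨g', hg', hb'⟩ := e2
  refine ⟨fun y => g y + ‖κ‖ * g' y, hg.add (hg'.const_mul _), fun z h1 h2 h3 => ?_⟩
  have hz : z ≠ c := by
    rintro rfl
    simp at h3
    linarith
  have e : k z = h z - κ * E z := by rw [hh z h1 h2 hz]; ring
  rw [e]
  refine (norm_sub_le _ _).trans (add_le_add (hb z h1 h2 h3) ?_)
  rw [norm_mul]
  exact mul_le_mul_of_nonneg_left (hb' z h1 h2 h3) (norm_nonneg _)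

lemma bd_of {E : ℂ → ℂ} (K : ℝ) (hK : 0 ≤ K)
    (h : ∀ z : ℂ, 1 ≤ |z.im| → ‖E z‖ ≤ K * (|z.im|⁻¹ * |z.im|⁻¹)) : Bd a b E := by
  refine ⟨fun y => 2 * K * (1 + y ^ 2)⁻¹, integrable_inv_one_add_sq.const_mul _,
    fun z _ _ hz => (h z hz).trans ?_⟩
  have h1 : 1 ≤ z.im ^ 2 := by rw [← sq_abs]; nlinarith
  have h2 : |z.im|⁻¹ * |z.im|⁻¹ ≤ 2 * (1 + z.im ^ 2)⁻¹ := by
    rw [← mul_inv, abs_mul_abs_self, ← sq, ← div_eq_mul_inv, inv_eq_one_div,
      div_le_div_iff₀ (by linarith) (by linarith)]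
    linarith
  have := mul_le_mul_of_nonneg_left h2 hK
  show _ ≤ 2 * K * (1 + z.im ^ 2)⁻¹
  linarith

lemma inv_le (x : ℝ) {z : ℂ} (hz : 1 ≤ |z.im|) : ‖(z - x)⁻¹‖ ≤ |z.im|⁻¹ := by
  have h := abs_im_le_norm (z - x)
  rw [sub_im, ofReal_im, sub_zero] at h
  rw [norm_inv]
  exact inv_anti₀ (by linarith) h

lemma ct_inv : Ct a b c fun z => (z - c)⁻¹ :=
  ContinuousOn.inv₀ (by fun_prop) fun _ hz => sub_ne_zero.2 hz.2

/-! ### poles of order at least two -/

lemma tend {l : Filter ℝ} (hl : Tendsto (fun y : ℝ => |y|) l atTop) (s : ℝ) (m : ℕ) :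
    Tendsto (fun y : ℝ => ((s : ℂ) + y * I)⁻¹ ^ (m + 1)) l (𝓝 0) := by
  have h : Tendsto (fun y : ℝ => (s : ℂ) + y * I) l (Bornology.cobounded ℂ) := by
    rw [← tendsto_norm_atTop_iff_cobounded]
    refine tendsto_atTop_mono (fun y => ?_) hl
    have := abs_im_le_norm ((s : ℂ) + y * I)
    rwa [im_line] at this
  have := (tendsto_inv₀_cobounded.comp h).pow (m + 1)
  rwa [zero_pow (Nat.succ_ne_zero m)] at this

lemma pow_line {s : ℝ} (hs : s ≠ 0) (m : ℕ)
    (hi : Integrable fun y : ℝ => ((s : ℂ) + y * I)⁻¹ ^ (m + 2)) :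
    ∫ y : ℝ, ((s : ℂ) + y * I)⁻¹ ^ (m + 2) = 0 := by
  have hd : ∀ y : ℝ, HasDerivAt (fun y : ℝ => ((s : ℂ) + y * I)⁻¹ ^ (m + 1))
      (-((m + 1 : ℂ) * I) * ((s : ℂ) + y * I)⁻¹ ^ (m + 2)) y := fun y => by
    have h0 : (s : ℂ) + y * I ≠ 0 := by simpa using ne_line (c := 0) hs y
    have h1 : HasDerivAt (fun w : ℂ => ((s : ℂ) + w * I)⁻¹ ^ (m + 1))
        (-((m + 1 : ℂ) * I) * ((s : ℂ) + y * I)⁻¹ ^ (m + 2)) (y : ℂ) := by
      have := ((((hasDerivAt_id (y : ℂ)).mul_const I).const_add (s : ℂ)).fun_inv h0).fun_pow (m + 1)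
      refine this.congr_deriv ?_
      simp only [id, Nat.add_sub_cancel, div_eq_mul_inv, ← inv_pow]
      push_cast
      ring
    exact h1.comp_ofReal
  have := integral_of_hasDerivAt_of_tendsto hd (hi.const_mul _) (tend tendsto_abs_atBot_atTop s m)
    (tend tendsto_abs_atTop_atTop s m)
  rw [integral_const_mul, sub_zero, mul_eq_zero] at this
  refine this.resolve_left (neg_ne_zero.2 (mul_ne_zero ?_ I_ne_zero))
  exact_mod_cast Nat.succ_ne_zero m

lemma ct_pow (m : ℕ) : Ct a b c fun z => (z - c)⁻¹ ^ m := ContinuousOn.pow ct_inv m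

lemma bd_pow (m : ℕ) : Bd a b fun z => (z - c)⁻¹ ^ (m + 2) := by
  refine bd_of 1 zero_le_one fun z hz => ?_
  have h1 := inv_le c hz
  have h2 : |z.im|⁻¹ ≤ 1 := inv_le_one_of_one_le₀ hz
  rw [norm_pow, pow_add, sq]
  exact mul_le_mul (pow_le_one₀ (norm_nonneg _) (h1.trans h2))
    (mul_self_le_mul_self (norm_nonneg _) h1) (by positivity) zero_le_one

lemma shift_line (x c y : ℝ) : (x : ℂ) + y * I - c = ((x - c : ℝ) : ℂ) + y * I := by
  push_cast
  ring

lemma phi_pow (hd : 0 < d) (ha : a < c - d) (hb : c + d < b) (m : ℕ) :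
    Phi a b c d fun z => (z - c)⁻¹ ^ (m + 2) := by
  have hl : ∀ x : ℝ, a ≤ x → x ≤ b → x ≠ c →
      ∫ y : ℝ, ((x : ℂ) + y * I - c)⁻¹ ^ (m + 2) = 0 := fun x h1 h2 h3 => by
    have := line_int (ct_pow (m + 2)) (bd_pow m) h1 h2 h3
    simp_rw [shift_line] at this ⊢
    exact pow_line (sub_ne_zero.2 h3) m this
  have hc := circleIntegral.integral_sub_zpow_of_ne (n := -((m + 2 : ℕ) : ℤ)) (by omega)
    (c : ℂ) (c : ℂ) d
  simp_rw [zpow_neg, zpow_natCast, ← inv_pow] at hc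
  unfold Phi
  rw [hl a le_rfl (by linarith) (by linarith), hl b (by linarith) le_rfl (by linarith), hc]
  simp

/-! ### simple poles -/

lemma lor_eq {s : ℝ} (hs : s ≠ 0) (y : ℝ) : s / (s ^ 2 + y ^ 2) = s⁻¹ * (1 + (y / s) ^ 2)⁻¹ := by
  field_simp

lemma lor_int {s : ℝ} (hs : s ≠ 0) : Integrable fun y : ℝ => s / (s ^ 2 + y ^ 2) := by
  simp_rw [lor_eq hs]
  exact (integrable_inv_one_add_sq.comp_div hs).const_mul _

lemma lor_val {s : ℝ} (hs : s ≠ 0) : ∫ y : ℝ, s / (s ^ 2 + y ^ 2) = s⁻¹ * |s| * π := by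
  simp_rw [lor_eq hs]
  rw [integral_const_mul, Measure.integral_comp_div (fun x : ℝ => (1 + x ^ 2)⁻¹) s,
    integral_univ_inv_one_add_sq, smul_eq_mul, mul_assoc]

lemma inv_add {s : ℝ} (hs : s ≠ 0) (y : ℝ) :
    ((s : ℂ) + y * I)⁻¹ + ((s : ℂ) + ((-y : ℝ) : ℂ) * I)⁻¹ =
      2 * ((s / (s ^ 2 + y ^ 2) : ℝ) : ℂ) := by
  have h1 : (s : ℂ) + y * I ≠ 0 := by simpa using ne_line (c := 0) hs y
  have h2 : (s : ℂ) + ((-y : ℝ) : ℂ) * I ≠ 0 := by simpa using ne_line (c := 0) hs (-y)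
  have h3 : ((s : ℂ) + y * I) * ((s : ℂ) + ((-y : ℝ) : ℂ) * I) = (s : ℂ) ^ 2 + (y : ℂ) ^ 2 := by
    push_cast
    linear_combination (-(y : ℂ) ^ 2) * I_mul_I
  rw [inv_add_inv h1 h2, h3]
  push_cast
  ring

lemma one_line {s t : ℝ} (hs : s ≠ 0) (ht : t ≠ 0)
    (hi : Integrable fun y : ℝ => ((s : ℂ) + y * I)⁻¹ - ((t : ℂ) + y * I)⁻¹) :
    ∫ y : ℝ, (((s : ℂ) + y * I)⁻¹ - ((t : ℂ) + y * I)⁻¹) =
      ((s⁻¹ * |s| * π - t⁻¹ * |t| * π : ℝ) : ℂ) := by
  have h1 := integral_neg_eq_self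
    (fun y : ℝ => ((s : ℂ) + y * I)⁻¹ - ((t : ℂ) + y * I)⁻¹) (volume : Measure ℝ)
  have h2 := integral_add hi hi.comp_neg
  have h3 : ∀ y : ℝ, ((s : ℂ) + y * I)⁻¹ - ((t : ℂ) + y * I)⁻¹ +
      (((s : ℂ) + ((-y : ℝ) : ℂ) * I)⁻¹ - ((t : ℂ) + ((-y : ℝ) : ℂ) * I)⁻¹) =
      2 * ((s / (s ^ 2 + y ^ 2) - t / (t ^ 2 + y ^ 2) : ℝ) : ℂ) := fun y => by
    rw [ofReal_sub]
    linear_combination inv_add hs y - inv_add ht y
  simp_rw [h3] at h2
  rw [h1, integral_const_mul, integral_complex_ofReal, integral_sub (lor_int hs) (lor_int ht),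
    lor_val hs, lor_val ht] at h2
  linear_combination (-1 / 2) * h2

lemma ne_far {z : ℂ} (hz : z.re ≤ b) : z - ((b + 1 : ℝ) : ℂ) ≠ 0 := by
  intro h
  have := congrArg re h
  rw [sub_re, ofReal_re, zero_re] at this
  linarith

lemma ct_one : Ct a b c fun z => (z - c)⁻¹ - (z - ((b + 1 : ℝ) : ℂ))⁻¹ :=
  ContinuousOn.sub ct_inv (ContinuousOn.inv₀ (by fun_prop) fun _ hz => ne_far hz.1.2)

lemma bd_one (e : ℝ) : Bd a b fun z => (z - c)⁻¹ - (z - e)⁻¹ := by
  refine bd_of |c - e| (abs_nonneg _) fun z hz => ?_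
  have hn : ∀ x : ℝ, z - x ≠ 0 := fun x h => by
    have := congrArg im h
    rw [sub_im, ofReal_im, sub_zero, zero_im] at this
    rw [this] at hz
    norm_num at hz
  have e1 : (z - c)⁻¹ - (z - e)⁻¹ = ((c - e : ℝ) : ℂ) * ((z - c)⁻¹ * (z - e)⁻¹) := by
    have := hn c
    have := hn e
    push_cast
    field_simp
    ring
  rw [e1, norm_mul, norm_mul, norm_real, Real.norm_eq_abs]
  exact mul_le_mul_of_nonneg_left
    (mul_le_mul (inv_le c hz) (inv_le e hz) (norm_nonneg _) (by positivity)) (abs_nonneg _)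

lemma sg_pos {s : ℝ} (hs : 0 < s) : s⁻¹ * |s| = 1 := by
  rw [abs_of_pos hs, inv_mul_cancel₀ hs.ne']

lemma sg_neg {s : ℝ} (hs : s < 0) : s⁻¹ * |s| = -1 := by
  rw [abs_of_neg hs, mul_neg, inv_mul_cancel₀ hs.ne]

lemma phi_one (hd : 0 < d) (ha : a < c - d) (hb : c + d < b) :
    Phi a b c d fun z => (z - c)⁻¹ - (z - ((b + 1 : ℝ) : ℂ))⁻¹ := by
  have hl : ∀ x : ℝ, a ≤ x → x ≤ b → x ≠ c →
      ∫ y : ℝ, (((x : ℂ) + y * I - c)⁻¹ - ((x : ℂ) + y * I - ((b + 1 : ℝ) : ℂ))⁻¹) =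
        (((x - c)⁻¹ * |x - c| * π + π : ℝ) : ℂ) := fun x h1 h2 h3 => by
    have := line_int ct_one (bd_one (b + 1)) h1 h2 h3
    simp_rw [shift_line] at this ⊢
    rw [one_line (sub_ne_zero.2 h3) (by linarith) this, sg_neg (s := x - (b + 1)) (by linarith)]
    congr 1
    ring
  have h0 : (∮ z in C(c, d), (z - ((b + 1 : ℝ) : ℂ))⁻¹) = 0 := by
    have hn : ∀ z ∈ Metric.closedBall (c : ℂ) d, z - ((b + 1 : ℝ) : ℂ) ≠ 0 := fun z hz =>
      ne_far (by linarith [(ball_re hz).2])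
    exact circleIntegral_eq_zero_of_differentiable_on_off_countable hd.le countable_empty
      (ContinuousOn.inv₀ (by fun_prop) hn) fun z hz =>
        DifferentiableAt.inv (by fun_prop) (hn z (Metric.ball_subset_closedBall hz.1))
  have c2 : Ct a b c fun z => (z - ((b + 1 : ℝ) : ℂ))⁻¹ :=
    ContinuousOn.inv₀ (by fun_prop) fun _ hz => ne_far hz.1.2
  unfold Phi
  rw [hl a le_rfl (by linarith) (by linarith), hl b (by linarith) le_rfl (by linarith),
    circleIntegral.integral_sub (circ_int hd ha hb ct_inv) (circ_int hd ha hb c2), h0,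
    circleIntegral.integral_sub_center_inv _ hd.ne', sg_pos (s := b - c) (by linarith),
    sg_neg (s := a - c) (by linarith)]
  push_cast
  ring

/-! ### the induction -/

lemma phi_zero (H : St_SHIFT) (hd : 0 < d) (ha : a < c - d) (hb : c + d < b) {f : ℂ → ℂ}
    (h1 : DifferentiableOn ℂ f {z | a < z.re ∧ z.re < b})
    (h2 : ContinuousOn f {z | a ≤ z.re ∧ z.re ≤ b}) (h3 : Bd a b f) : Phi a b c d f := by
  obtain ⟨g, hg, hb'⟩ := h3
  have hK : IsCompact (Icc a b ×ℂ Icc (-1 : ℝ) 1) := isCompact_Icc.reProdIm isCompact_Icc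
  obtain ⟨M, hM⟩ := hK.exists_bound_of_continuousOn (h2.mono fun z hz => hz.1)
  have hs := H.2.1 f a b _ (by linarith) h1 h2 (maj hg M) fun z h4 h5 =>
    le_maj (hb' z h4 h5) fun hy => hM z ⟨⟨h4, h5⟩, hy⟩
  have hsub : Metric.closedBall (c : ℂ) d ⊆ {z : ℂ | a < z.re ∧ z.re < b} := fun z hz =>
    ⟨by linarith [(ball_re hz).1], by linarith [(ball_re hz).2]⟩
  have ho : IsOpen {z : ℂ | a < z.re ∧ z.re < b} :=
    (isOpen_lt continuous_const continuous_re).inter (isOpen_lt continuous_re continuous_const)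
  have h0 : (∮ z in C(c, d), f z) = 0 :=
    circleIntegral_eq_zero_of_differentiable_on_off_countable hd.le countable_empty
      (h1.continuousOn.mono hsub) fun z hz =>
        h1.differentiableAt (ho.mem_nhds (hsub (Metric.ball_subset_closedBall hz.1)))
  unfold Phi
  rw [hs, h0, sub_self]

lemma ct_div {f h : ℂ → ℂ} {n : ℕ} (h2 : ContinuousOn f {z | a ≤ z.re ∧ z.re ≤ b})
    (hh : ∀ z : ℂ, a ≤ z.re → z.re ≤ b → z ≠ c → h z = f z / (z - c) ^ n) : Ct a b c h :=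
  ContinuousOn.congr (ContinuousOn.div (h2.mono sdiff_subset) (by fun_prop)
    fun _ hz => pow_ne_zero n (sub_ne_zero.2 hz.2)) fun z hz => hh z hz.1.1 hz.1.2 hz.2

lemma main (H : St_SHIFT) (hd : 0 < d) (ha : a < c - d) (hb : c + d < b) (n : ℕ) :
    ∀ f h : ℂ → ℂ, DifferentiableOn ℂ f {z | a < z.re ∧ z.re < b} →
      ContinuousOn f {z | a ≤ z.re ∧ z.re ≤ b} →
      (∀ z : ℂ, a ≤ z.re → z.re ≤ b → z ≠ c → h z = f z / (z - c) ^ n) → Bd a b h →
      Phi a b c d h := by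
  have ho : IsOpen {z : ℂ | a < z.re ∧ z.re < b} :=
    (isOpen_lt continuous_const continuous_re).inter (isOpen_lt continuous_re continuous_const)
  have hc : {z : ℂ | a < z.re ∧ z.re < b} ∈ 𝓝 (c : ℂ) :=
    ho.mem_nhds ⟨by rw [ofReal_re]; linarith, by rw [ofReal_re]; linarith⟩
  have hc' : {z : ℂ | a ≤ z.re ∧ z.re ≤ b} ∈ 𝓝 (c : ℂ) :=
    mem_of_superset hc fun z hz => ⟨hz.1.le, hz.2.le⟩
  induction n with
  | zero =>
    intro f h h1 h2 hh h3
    have e : ∀ z : ℂ, a ≤ z.re → z.re ≤ b → z ≠ c → h z = 0 * (z - c)⁻¹ ^ (0 + 2) + f z :=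
      fun z k1 k2 k3 => by rw [hh z k1 k2 k3]; simp
    have h4 := bd_sub h3 (bd_pow 0) e
    exact phi_add hd ha hb (ct_pow _) (bd_pow 0) (phi_pow hd ha hb 0) (h2.mono sdiff_subset) h4
      (phi_zero H hd ha hb h1 h2 h4) e
  | succ n ih =>
    intro f h h1 h2 hh h3
    have d1 := (differentiableOn_dslope hc).2 h1
    have d2 := (continuousOn_dslope hc').2 ⟨h2, h1.differentiableAt hc⟩
    have d3 : ∀ z : ℂ, f z = f c + (z - c) * dslope f c z := fun z => by
      have := sub_smul_dslope f (c : ℂ) z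
      rw [smul_eq_mul] at this
      rw [this]
      ring
    rcases n with _ | m
    · have k1 : DifferentiableOn ℂ (fun z => dslope f c z + f c * (z - ((b + 1 : ℝ) : ℂ))⁻¹)
          {z | a < z.re ∧ z.re < b} :=
        d1.add (DifferentiableOn.const_mul
          (DifferentiableOn.inv (by fun_prop) fun z hz => ne_far hz.2.le) _)
      have k2 : ContinuousOn (fun z => dslope f c z + f c * (z - ((b + 1 : ℝ) : ℂ))⁻¹)
          {z | a ≤ z.re ∧ z.re ≤ b} :=
        d2.add (continuousOn_const.mul (ContinuousOn.inv₀ (by fun_prop) fun z hz => ne_far hz.2))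
      have e : ∀ z : ℂ, a ≤ z.re → z.re ≤ b → z ≠ c → h z =
          f c * ((z - c)⁻¹ - (z - ((b + 1 : ℝ) : ℂ))⁻¹) +
            (dslope f c z + f c * (z - ((b + 1 : ℝ) : ℂ))⁻¹) := fun z l1 l2 l3 => by
        have := sub_ne_zero.2 l3
        rw [hh z l1 l2 l3, d3 z, zero_add, pow_one, add_div, mul_div_cancel_left₀ _ this,
          div_eq_mul_inv]
        ring
      have h4 := bd_sub h3 (bd_one (b + 1)) e
      exact phi_add hd ha hb ct_one (bd_one (b + 1)) (phi_one hd ha hb) (k2.mono sdiff_subset) h4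
        (ih _ _ k1 k2 (fun z _ _ _ => by simp) h4) e
    · have e : ∀ z : ℂ, a ≤ z.re → z.re ≤ b → z ≠ c → h z =
          f c * (z - c)⁻¹ ^ (m + 2) + dslope f c z / (z - c) ^ (m + 1) := fun z l1 l2 l3 => by
        have := sub_ne_zero.2 l3
        rw [hh z l1 l2 l3, d3 z, inv_pow]
        generalize z - (c : ℂ) = w at this ⊢
        field_simp
        ring
      have h4 := bd_sub h3 (bd_pow m) e
      exact phi_add hd ha hb (ct_pow _) (bd_pow m) (phi_pow hd ha hb m)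
        (ct_div d2 fun _ _ _ _ => rfl) h4 (ih _ _ d1 d2 (fun _ _ _ _ => rfl) h4) e

/-! ### the polynomial -/

lemma iter_exp (c r : ℂ) (k : ℕ) :
    iteratedDeriv k (fun z : ℂ => exp ((z - c) * r)) = fun z => r ^ k * exp ((z - c) * r) := by
  induction k with
  | zero => simp
  | succ k ih =>
    rw [iteratedDeriv_succ, ih]
    funext z
    have := ((((hasDerivAt_id z).sub_const c).mul_const r).cexp).const_mul (r ^ k)
    simp only [id] at this
    rw [this.deriv]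
    ring

lemma poly (h f : ℂ → ℂ) (n : ℕ) (c : ℂ) (d : ℝ) (hd : 0 < d)
    (hf : ∀ z ∈ Metric.closedBall c d, DifferentiableAt ℂ f z)
    (hh : ∀ z ∈ Metric.sphere c d, h z = f z / (z - c) ^ n) :
    ∃ Q : Polynomial ℂ, ∀ r : ℂ, (∮ z in C(c, d), h z * exp ((z - c) * r)) = Q.eval r := by
  have hF : ∀ r : ℂ, ∀ z ∈ Metric.closedBall c d,
      DifferentiableAt ℂ (fun z => f z * exp ((z - c) * r)) z := fun r z hz =>
    (hf z hz).mul (by fun_prop)
  have e : ∀ r : ℂ, (∮ z in C(c, d), h z * exp ((z - c) * r)) =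
      ∮ z in C(c, d), (1 / (z - c) ^ n) • (f z * exp ((z - c) * r)) := fun r =>
    circleIntegral.integral_congr hd.le fun z hz => by
      simp only [hh z hz, smul_eq_mul]
      ring
  have c1 : ∀ r : ℂ, ContinuousOn (fun z => f z * exp ((z - c) * r)) (Metric.closedBall c d) :=
    fun r z hz => (hF r z hz).continuousAt.continuousWithinAt
  rcases n with _ | m
  · refine ⟨0, fun r => ?_⟩
    rw [e, Polynomial.eval_zero]
    simp only [pow_zero, div_one, one_smul]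
    exact circleIntegral_eq_zero_of_differentiable_on_off_countable hd.le countable_empty (c1 r)
      fun z hz => hF r z (Metric.ball_subset_closedBall hz.1)
  · have ha : AnalyticAt ℂ f c :=
      DifferentiableOn.analyticAt (s := Metric.closedBall c d)
        (fun z hz => (hf z hz).differentiableWithinAt) (Metric.closedBall_mem_nhds c hd)
    refine ⟨∑ i ∈ Finset.range (m + 1), Polynomial.C (2 * π * I / m.factorial *
      (m.choose i * iteratedDeriv i f c)) * Polynomial.X ^ (m - i), fun r => ?_⟩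
    rw [e, circleIntegral_one_div_sub_center_pow_smul_of_differentiable_on_off_countable hd m
      countable_empty (c1 r) fun z hz => hF r z (Metric.ball_subset_closedBall hz.1),
      iteratedDeriv_fun_mul ha.contDiffAt (by fun_prop), Polynomial.eval_finsetSum, smul_eq_mul,
      Finset.mul_sum]
    refine Finset.sum_congr rfl fun i _ => ?_
    rw [iter_exp]
    simp only [sub_self, zero_mul, exp_zero, mul_one, Polynomial.eval_mul, Polynomial.eval_C,
      Polynomial.eval_pow, Polynomial.eval_X]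
    ring

end SHP

open SHP in
theorem t_shp : T_SHP := fun H =>
  ⟨fun h f n a b c d g hd ha hb h1 h2 hh hg h3 =>
    ⟨line_int (ct_div h2 hh) ⟨g, hg, h3⟩ le_rfl (by linarith) (by linarith),
      line_int (ct_div h2 hh) ⟨g, hg, h3⟩ (by linarith) le_rfl (by linarith),
      main H hd ha hb n f h h1 h2 hh ⟨g, hg, h3⟩⟩, poly⟩

end

end Pool.Agent.Lib.E2
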