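import Pool.Agent.Lib.E2.Blue

namespace Pool.Agent.Lib.E2

noncomputable section

open Complex MeasureTheory Set Filter Topology
open scoped Real UpperHalfPlane MatrixGroups ComplexConjugate Modular

theorem sing1_c2 (v : ℝ) : 1 + v ^ 2 / 2 ≤ Real.cosh v := by
  have h1 : |v| / 2 ≤ Real.sinh (|v| / 2) := Real.self_le_sinh_iff.2 (by positivity)
  have h2 := Real.cosh_two_mul (|v| / 2)
  have h3 := Real.cosh_sq (|v| / 2)
  rw [mul_div_cancel₀ _ two_ne_zero, Real.cosh_abs] at h2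
  have h4 : (|v| / 2) ^ 2 ≤ Real.sinh (|v| / 2) ^ 2 := pow_le_pow_left₀ (by positivity) h1 2
  rw [div_pow, sq_abs] at h4
  linarith

theorem sing1_c4 (v : ℝ) : Real.exp |v| / 2 ≤ Real.cosh v := by
  rw [← Real.cosh_abs, Real.cosh_eq]
  linarith [Real.exp_pos (-|v|)]

theorem sing1_pt {e s v P : ℝ} (he : e ∈ Ioc (0 : ℝ) 1) (hs : 0 < s) (hs1 : s ≤ 1)
    (hP : Real.cosh v - Real.cos e ≤ P) :
    0 < P ∧ P ^ (-(1 / 2) : ℝ) ≤ s / e ^ 2 * (1 + (v / e) ^ 2)⁻¹ + 24 / s * (1 + v ^ 2)⁻¹ := by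
  have he0 := he.1
  have h1 := Real.cos_le_one_sub_mul_cos_sq (x := e)
    (by rw [abs_of_pos he0]; linarith [he.2, Real.pi_gt_three])
  have h2 : 1 / 5 ≤ 2 / π ^ 2 := by
    rw [div_le_div_iff₀ (by norm_num) (by positivity)]
    nlinarith [Real.pi_lt_d2, Real.pi_pos]
  have h3 : 1 / 5 * e ^ 2 ≤ 2 / π ^ 2 * e ^ 2 := mul_le_mul_of_nonneg_right h2 (sq_nonneg e)
  have h4 := sing1_c2 v
  have hW : 0 < v ^ 2 + e ^ 2 := by positivity
  have h5 : (v ^ 2 + e ^ 2) / 5 ≤ P := by nlinarith [sq_nonneg v]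
  have hP0 : 0 < P := lt_of_lt_of_le (by positivity) h5
  refine ⟨hP0, ?_⟩
  obtain ⟨y, hy⟩ : ∃ y : ℝ, y = P ^ (-(1 / 2) : ℝ) := ⟨_, rfl⟩
  have hy0 : 0 < y := hy ▸ Real.rpow_pos_of_pos hP0 _
  have hy2 : y ^ 2 * P = 1 := by
    rw [hy, ← Real.rpow_natCast, ← Real.rpow_mul hP0.le, ← Real.rpow_add_one hP0.ne']
    norm_num
  have e1 : s / e ^ 2 * (1 + (v / e) ^ 2)⁻¹ = s / (v ^ 2 + e ^ 2) := by
    field_simp
    ring
  rw [← hy, e1]
  rcases le_total (v ^ 2) 1 with hv | hv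
  · have a1 : y ^ 2 * (v ^ 2 + e ^ 2) ≤ 5 := by nlinarith [sq_nonneg y]
    have a2 : 12 / s ≤ 24 / s * (1 + v ^ 2)⁻¹ := by
      rw [← div_eq_mul_inv, div_div, div_le_div_iff₀ hs (by positivity)]
      nlinarith
    have a3 : y ≤ s / (v ^ 2 + e ^ 2) + 12 / s := by
      rw [div_add_div _ _ hW.ne' hs.ne', le_div_iff₀ (by positivity)]
      have a4 := mul_le_mul_of_nonneg_right a1 hW.le
      nlinarith [sq_nonneg (s - y * (v ^ 2 + e ^ 2)), sq_nonneg s]
    linarith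
  · have a1 := Real.pow_div_factorial_le_exp _ (abs_nonneg v) 4
    have a2 : |v| ^ 4 = (v ^ 2) ^ 2 := by rw [← sq_abs v]; ring
    rw [a2] at a1
    norm_num [Nat.factorial] at a1
    have a3 := sing1_c4 v
    have a4 : (v ^ 2) ^ 2 / 144 ≤ P := by linarith [Real.cos_le_one e]
    have a5 : (y * v ^ 2) ^ 2 ≤ 12 ^ 2 := by nlinarith [sq_nonneg y]
    have a6 : y * v ^ 2 ≤ 12 := (abs_le_of_sq_le_sq' a5 (by norm_num)).2
    have a7 : y ≤ 24 / s * (1 + v ^ 2)⁻¹ := by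
      rw [← div_eq_mul_inv, div_div, le_div_iff₀ (by positivity)]
      have a8 : y * (1 + v ^ 2) ≤ 24 := by nlinarith
      nlinarith [mul_pos hy0 (by positivity : 0 < 1 + v ^ 2)]
    have a9 : 0 ≤ s / (v ^ 2 + e ^ 2) := by positivity
    linarith

theorem sing1_sinh (e : ℝ) : I * sinh (rh e) = -(Real.cos e : ℂ) := by
  rw [rh, mul_comm I ((π / 2 - e : ℝ) : ℂ), Complex.sinh_mul_I, ← Complex.ofReal_sin,
    Real.sin_pi_div_two_sub]
  linear_combination (Real.cos e : ℂ) * I_mul_I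

theorem sing1_N {e : ℝ} (he : e ∈ Ioc (0 : ℝ) 1) (t : ℝ) :
    ‖Nf (sk t) (rh e)‖ ≤ 50 * π / √e := by
  have he0 := he.1
  have hs : 0 < √e := Real.sqrt_pos.2 he0
  have hs1 : √e ≤ 1 := Real.sqrt_le_one.2 he.2
  have i1 : Integrable fun v : ℝ => √e / e ^ 2 * (1 + (v / e) ^ 2)⁻¹ :=
    (integrable_inv_one_add_sq.comp_div he0.ne').const_mul _
  have i2 : Integrable fun v : ℝ => 24 / √e * (1 + v ^ 2)⁻¹ :=
    integrable_inv_one_add_sq.const_mul _
  have hc : 0 ≤ Real.cos e := Real.cos_nonneg_of_neg_pi_div_two_le_of_le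
    (by linarith [Real.pi_pos]) (by linarith [he.2, Real.pi_gt_three])
  have hre : (-sk t).re = -(1 / 2) := by simp [sk]
  refine (norm_integral_le_of_norm_le ((i1.add i2).const_mul 2)
    (Eventually.of_forall fun v => ?_)).trans (le_of_eq ?_)
  · obtain ⟨a1, a2⟩ := sing1_pt (v := v) he hs hs1 le_rfl
    obtain ⟨a3, a4⟩ := sing1_pt (v := v) (P := Real.cosh v + Real.cos e) he hs hs1 (by linarith)
    rw [sing1_sinh, ← sub_eq_add_neg, sub_neg_eq_add, ← ofReal_sub, ← ofReal_add]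
    refine (norm_add_le _ _).trans ?_
    rw [norm_cpow_eq_rpow_re_of_pos a1, norm_cpow_eq_rpow_re_of_pos a3, hre]
    simp only [Pi.add_apply]
    linarith
  · simp only [Pi.add_apply]
    rw [integral_const_mul, integral_add i1 i2, integral_const_mul, integral_const_mul,
      Measure.integral_comp_div (fun v : ℝ => (1 + v ^ 2)⁻¹) e, integral_univ_inv_one_add_sq,
      abs_of_pos he0, smul_eq_mul]
    have h1 : e = √e ^ 2 := (Real.sq_sqrt he0.le).symm
    generalize √e = s at h1 hs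
    subst h1
    field_simp
    ring

theorem sing1_w (t : ℝ) : (1 + |t|) ^ 2 / (2 * Real.cosh (π * t)) ≤ 72 * (1 + t ^ 2)⁻¹ := by
  have h1 := Real.pow_div_factorial_le_exp (1 + |t|) (by positivity) 4
  norm_num [Nat.factorial] at h1
  have h2 := sing1_c4 (π * t)
  have h3 : Real.exp (1 + |t|) ≤ 3 * Real.exp |π * t| := by
    rw [Real.exp_add, abs_mul, abs_of_pos Real.pi_pos]
    refine mul_le_mul (by linarith [Real.exp_one_lt_d9]) (Real.exp_le_exp.2 ?_)
      (Real.exp_pos _).le (by norm_num)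
    nlinarith [Real.pi_gt_three, abs_nonneg t]
  have h4 : 1 + t ^ 2 ≤ (1 + |t|) ^ 2 := by nlinarith [sq_abs t, abs_nonneg t]
  have h5 := Real.cosh_pos (π * t)
  rw [← div_eq_mul_inv, div_le_div_iff₀ (by positivity) (by positivity)]
  nlinarith [mul_le_mul_of_nonneg_left h4 (sq_nonneg (1 + |t|))]

theorem t_sing1 : T_SING1 := by
  intro _ hJB _ hZ hZ3
  obtain ⟨Cz, hCz⟩ := hZ.2.2.2.2.2.2.2.2.2.2.2.2.2.2.2
  have hz0 : ∀ t, 0 ≤ z4 t := hZ.2.2.2.2.2.2.2.2.2.2.2.2.1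
  obtain ⟨CJ, hCJ⟩ := hJB.2.2.2.1
  have hsp : ∀ s ∈ Metric.sphere (1 : ℂ) dl, |s.re - 1| ≤ 1 / 10 ∧ |s.im| ≤ 1 / 10 ∧ s ≠ 1 := by
    intro s hs
    rw [mem_sphere_iff_norm] at hs
    have h1 := abs_re_le_norm (s - 1)
    have h2 := abs_im_le_norm (s - 1)
    rw [hs] at h1 h2
    refine ⟨by simpa using h1.trans dl_le, by simpa using h2.trans dl_le, ?_⟩
    rintro rfl
    simp [dl_pos.ne] at hs
  have hcont : ContinuousOn (fun s : ℂ => coef s * ((2 * π : ℂ) ^ (-s) * Gamma s *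
      riemannZeta s ^ 2)) (Metric.sphere 1 dl) := by
    refine hZ3.2.2.2.1.mul fun s hs => ContinuousAt.continuousWithinAt ?_
    obtain ⟨h1, -, h3⟩ := hsp s hs
    have h4 : (2 * π : ℂ) ≠ 0 := by exact_mod_cast Real.two_pi_pos.ne'
    refine ((continuousAt_neg.const_cpow (Or.inl h4)).mul
      (Complex.differentiableAt_Gamma s fun m hm => ?_).continuousAt).mul
      ((differentiableAt_riemannZeta h3).continuousAt.pow 2)
    rw [hm] at h1
    have h5 := (abs_le.1 h1).1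
    simp only [neg_re, natCast_re] at h5
    linarith [(Nat.cast_nonneg m : (0 : ℝ) ≤ m)]
  obtain ⟨M, hM⟩ := (isCompact_sphere (1 : ℂ) dl).exists_bound_of_continuousOn hcont
  refine ⟨|Cz| * (50 * π) ^ 2 * 72 + |M| * (2 * (|CJ| * 3)), fun e he => ⟨?_, ?_⟩⟩
  · have he0 := he.1
    have hb : ∀ t : ℝ, ‖(z4 t : ℂ) * wf (rh e) t‖ ≤
        |Cz| * (50 * π) ^ 2 * 72 / e * (1 + t ^ 2)⁻¹ := fun t => by
      have h5 := Real.cosh_pos (π * t)
      have a1 : ‖Nf (sk t) (rh e)‖ * ‖Nf (sk (-t)) (rh e)‖ ≤ (50 * π) ^ 2 / e := by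
        refine (mul_le_mul (sing1_N he t) (sing1_N he (-t)) (norm_nonneg _)
          (by positivity)).trans (le_of_eq ?_)
        rw [div_mul_div_comm, Real.mul_self_sqrt he0.le, sq]
      have a2 : z4 t ≤ |Cz| * (1 + |t|) ^ 2 :=
        (hCz t).trans (mul_le_mul_of_nonneg_right (le_abs_self _) (sq_nonneg _))
      rw [wf, norm_mul, norm_div, norm_mul, Complex.norm_of_nonneg (hz0 t),
        Complex.norm_of_nonneg (by positivity)]
      calc z4 t * (‖Nf (sk t) (rh e)‖ * ‖Nf (sk (-t)) (rh e)‖ / (2 * Real.cosh (π * t)))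
          ≤ |Cz| * (1 + |t|) ^ 2 * ((50 * π) ^ 2 / e / (2 * Real.cosh (π * t))) := by gcongr
        _ = |Cz| * (50 * π) ^ 2 / e * ((1 + |t|) ^ 2 / (2 * Real.cosh (π * t))) := by ring
        _ ≤ |Cz| * (50 * π) ^ 2 / e * (72 * (1 + t ^ 2)⁻¹) := by gcongr; exact sing1_w t
        _ = _ := by ring
    have h1 := norm_integral_le_of_norm_le (integrable_inv_one_add_sq.const_mul _)
      (Eventually.of_forall hb)
    rw [integral_const_mul, integral_univ_inv_one_add_sq] at h1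
    have h2 : ‖(1 / (2 * π) : ℂ)‖ = 1 / (2 * π) := by simp [Real.pi_pos.le]
    rw [FF, norm_mul, h2]
    refine (mul_le_mul_of_nonneg_left h1 (by positivity)).trans ?_
    have h3 : 1 / (2 * π) * (|Cz| * (50 * π) ^ 2 * 72 / e * π) =
        |Cz| * (50 * π) ^ 2 * 36 / e := by
      field_simp
      ring
    rw [h3]
    refine div_le_div_of_nonneg_right ?_ he0.le
    have h4 : 0 ≤ |Cz| * (50 * π) ^ 2 := by positivity
    have h5 : 0 ≤ |M| * (2 * (|CJ| * 3)) := by positivity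
    linarith
  · have he0 := he.1
    have hp : 0 ≤ π / 2 - e := by linarith [he.2, Real.pi_gt_three]
    have hJ : ∀ s ∈ Metric.sphere (1 : ℂ) dl, ∀ r : ℂ, r.re = 0 → |r.im| = π / 2 - e →
        ‖Jf s r‖ ≤ |CJ| * 3 / e := fun s hs r r1 r2 => by
      obtain ⟨h1, h2, -⟩ := hsp s hs
      have h3 := abs_le.1 h1
      have h4 := hCJ s r (by linarith [h3.1]) (by linarith [h3.2])
        (by show |r.im| < π / 2; linarith)
      rw [r1, r2, mul_zero, sub_zero, sub_sub_cancel] at h4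
      have h5 : Real.exp (s.im * r.im) ≤ 3 := by
        refine (Real.exp_le_exp.2 ?_).trans (by linarith [Real.exp_one_lt_d9] : Real.exp 1 ≤ 3)
        refine (le_abs_self _).trans ?_
        rw [abs_mul, r2]
        nlinarith [Real.pi_lt_four, abs_nonneg s.im]
      have h6 : e ^ (-(1 / 2) : ℝ) ≤ e⁻¹ := by
        rw [← Real.rpow_neg_one]
        exact Real.rpow_le_rpow_of_exponent_ge he0 he.2 (by norm_num)
      rw [div_eq_mul_inv]
      exact h4.trans (mul_le_mul (mul_le_mul (le_abs_self _) h5 (Real.exp_pos _).le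
        (abs_nonneg _)) h6 (Real.rpow_nonneg he0.le _) (by positivity))
    have h1 := circleIntegral.norm_two_pi_i_inv_smul_integral_le_of_norm_le_const
      (f := fun s => coef s * Pif s (rh e)) (c := 1) (C := |M| * (2 * (|CJ| * 3)) / e) dl_pos.le
      fun s hs => by
        have a1 := hJ s hs (rh e) (by simp [rh]) (by simp [rh, abs_of_nonneg hp])
        have a2 := hJ s hs (-rh e) (by simp [rh]) (by
          rw [neg_im, abs_neg]; simp [rh, abs_of_nonneg hp])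
        rw [Pif, ← mul_assoc, norm_mul]
        refine (mul_le_mul ((hM s hs).trans (le_abs_self M))
          ((norm_add_le _ _).trans (add_le_add a1 a2)) (norm_nonneg _) (abs_nonneg _)).trans
          (le_of_eq ?_)
        ring
    rw [smul_eq_mul] at h1
    refine h1.trans ((mul_le_of_le_one_left (by positivity) (by linarith [dl_le])).trans
      (div_le_div_of_nonneg_right (le_add_of_nonneg_left (by positivity)) he0.le))

end

end Pool.Agent.Lib.E2
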