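import Pool.Agent.Lib.E2.Blue

/-! Lower bound for `T2` near the edge of the strip. -/

namespace Pool.Agent.Lib.E2

noncomputable section

open Complex MeasureTheory Set Filter Topology Metric
open scoped Real

lemma sing2_schwarz (G : ℂ → ℂ) (M : ℝ) (hG : DifferentiableOn ℂ G (ball 0 (1 / 5)))
    (h0 : G 0 = 1) (hM : ∀ u ∈ ball (0 : ℂ) (1 / 5), ‖G u‖ ≤ M) (u : ℂ)
    (hu : u ∈ ball (0 : ℂ) (1 / 5)) : ‖G u - 1‖ ≤ 5 * (M + 1) * ‖u‖ := by
  have h := dist_le_div_mul_dist_of_mapsTo_ball (R₂ := M + 1) hG (fun z hz => by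
    rw [mem_closedBall, h0, dist_eq_norm]
    exact (norm_sub_le _ _).trans (by rw [norm_one]; linarith [hM z hz])) hu
  rw [h0, dist_eq_norm, dist_zero_right] at h
  exact h.trans (le_of_eq (by ring))

lemma sing2_dcc (f : ℂ → ℂ) (hf : DifferentiableOn ℂ f (ball 0 (1 / 5))) (d : ℝ)
    (hd : d < 1 / 5) : DiffContOnCl ℂ f (ball 0 d) :=
  (hf.mono (closure_ball_subset_closedBall.trans (closedBall_subset_ball hd))).diffContOnCl

lemma sing2_iter (G : ℂ → ℂ) (K L : ℝ) (hG : DifferentiableOn ℂ G (ball 0 (1 / 5)))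
    (hK : ∀ u ∈ ball (0 : ℂ) (1 / 5), ‖G u - 1‖ ≤ K * ‖u‖) (hL : 10 ≤ L) (n : ℕ) :
    ‖iteratedDeriv n (fun u => exp (L * u) * G u) 0 - L ^ n‖ ≤
      n.factorial * (3 * K / L) * L ^ n := by
  have hL0 : 0 < L := by linarith
  have hρ : 1 / L < 1 / 5 := one_div_lt_one_div_of_lt (by norm_num) (by linarith)
  have he : Differentiable ℂ fun u : ℂ => exp (L * u) := by fun_prop
  have hg : DifferentiableOn ℂ (fun u => exp (L * u) * (G u - 1)) (ball 0 (1 / 5)) :=
    he.differentiableOn.mul (hG.sub_const 1)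
  have h1 : (fun u => exp (L * u) * G u) =
      fun u => exp (L * u) + exp (L * u) * (G u - 1) := by
    funext u; ring
  have h2 : ball (0 : ℂ) (1 / 5) ∈ 𝓝 (0 : ℂ) := ball_mem_nhds _ (by norm_num)
  rw [h1, iteratedDeriv_fun_add (he.analyticAt 0).contDiffAt (hg.analyticAt h2).contDiffAt,
    iteratedDeriv_cexp_const_mul]
  simp only [mul_zero, Complex.exp_zero, mul_one, add_sub_cancel_left]
  have h3 := norm_iteratedDeriv_le_of_forall_mem_sphere_norm_le (C := 3 * K / L) n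
    (by positivity : 0 < 1 / L) (sing2_dcc _ hg _ hρ) fun z hz => by
      have hz' : ‖z‖ = 1 / L := by simpa using hz
      have h4 := hK z (by rw [mem_ball, dist_zero_right, hz']; exact hρ)
      have h5 : ‖exp (L * z)‖ ≤ 3 := by
        refine (Complex.norm_exp_le_exp_norm _).trans ?_
        rw [norm_mul, hz', Complex.norm_real, Real.norm_eq_abs, abs_of_pos hL0,
          mul_one_div_cancel hL0.ne']
        linarith [Real.exp_one_lt_d9]
      rw [norm_mul]
      rw [hz'] at h4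
      calc _ ≤ 3 * (K * (1 / L)) := mul_le_mul h5 h4 (norm_nonneg _) (by norm_num)
        _ = _ := by ring
  refine h3.trans (le_of_eq ?_)
  rw [one_div, inv_pow, div_inv_eq_mul]

lemma sing2_res (f : ℂ → ℂ) (hf : DifferentiableOn ℂ f (ball 0 (1 / 5))) (a : ℂ) (d : ℝ)
    (hd0 : 0 < d) (hd : d < 1 / 5) :
    (2 * π * I : ℂ)⁻¹ * (∮ u in C(0, d), (a * ((1 / (u - 0) ^ (2 + 1)) • f u) +
      (1 / (u - 0) ^ (3 + 1)) • f u)) =
      a * iteratedDeriv 2 f 0 / 2 + iteratedDeriv 3 f 0 / 6 := by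
  have hc : ContinuousOn f (sphere 0 d) :=
    hf.continuousOn.mono (sphere_subset_closedBall.trans (closedBall_subset_ball hd))
  have hi : ∀ n : ℕ, ContinuousOn (fun u : ℂ => (1 / (u - 0) ^ n) • f u) (sphere 0 d) := fun n => by
    have h1 : ContinuousOn (fun u : ℂ => 1 / (u - 0) ^ n) (sphere 0 d) :=
      ContinuousOn.div (f := fun _ => 1) (g := fun u : ℂ => (u - 0) ^ n) continuousOn_const
        (by fun_prop) fun u hu => pow_ne_zero _ (sub_ne_zero.mpr (ne_of_mem_sphere hu hd0.ne'))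
    exact h1.smul hc
  have hj : ContinuousOn (fun u : ℂ => a * ((1 / (u - 0) ^ (2 + 1)) • f u)) (sphere 0 d) :=
    continuousOn_const.mul (hi _)
  rw [circleIntegral.integral_add (hj.circleIntegrable hd0.le)
    ((hi _).circleIntegrable hd0.le), circleIntegral.integral_const_mul,
    (sing2_dcc f hf d hd).circleIntegral_one_div_sub_center_pow_smul hd0 2,
    (sing2_dcc f hf d hd).circleIntegral_one_div_sub_center_pow_smul hd0 3]
  have := Complex.two_pi_I_ne_zero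
  simp only [smul_eq_mul, Nat.factorial]
  push_cast
  field_simp

lemma sing2_cosh (v : ℝ) : 1 + v ^ 2 / 2 ≤ Real.cosh v := by
  have h1 : Real.cosh v = 1 + 2 * Real.sinh (v / 2) ^ 2 := by
    have := Real.cosh_two_mul (v / 2)
    rw [Real.cosh_sq', mul_div_cancel₀ v two_ne_zero] at this
    linarith
  have h2 : |v / 2| ≤ |Real.sinh (v / 2)| := by
    rw [Real.abs_sinh]
    exact Real.self_le_sinh_iff.mpr (abs_nonneg _)
  have h3 := sq_le_sq.mpr h2
  nlinarith

lemma sing2_pt (s x v t : ℝ) (hs : 0 < s) (hx : (v ^ 2 + s ^ 2) / 2 ≤ x) (ht : |t| ≤ 1 / 5) :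
    x ^ (-(1 + t)) ≤ s ^ (-(1 + 2 * t)) * (4 * s⁻¹ * (1 + (v / s) ^ 2) ^ (-(4 / 5) : ℝ)) := by
  obtain ⟨t1, t2⟩ := abs_le.mp ht
  set w : ℝ := 1 + (v / s) ^ 2 with hw
  have hw1 : 1 ≤ w := le_add_of_nonneg_right (sq_nonneg _)
  have h1 : (v ^ 2 + s ^ 2) / 2 = s ^ 2 * (w * 2⁻¹) := by rw [hw]; field_simp; ring
  have h2 := Real.rpow_le_rpow_of_nonpos (by positivity) hx (by linarith : -(1 + t) ≤ 0)
  refine h2.trans ?_
  rw [h1, Real.mul_rpow (by positivity) (by positivity), Real.mul_rpow (by positivity) (by positivity)]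
  have h3 : (s ^ 2) ^ (-(1 + t)) = s ^ (-(1 + 2 * t)) * s⁻¹ := by
    rw [← Real.rpow_natCast, ← Real.rpow_mul hs.le, ← Real.rpow_neg_one, ← Real.rpow_add hs]
    congr 1
    push_cast
    ring
  have h4 : w ^ (-(1 + t)) ≤ w ^ (-(4 / 5) : ℝ) :=
    Real.rpow_le_rpow_of_exponent_le hw1 (by linarith)
  have h5 : (2⁻¹ : ℝ) ^ (-(1 + t)) ≤ 4 := by
    rw [Real.inv_rpow (by norm_num), ← Real.rpow_neg (by norm_num), neg_neg]
    calc (2 : ℝ) ^ (1 + t) ≤ 2 ^ ((2 : ℕ) : ℝ) :=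
          Real.rpow_le_rpow_of_exponent_le (by norm_num) (by push_cast; linarith)
      _ = 4 := by rw [Real.rpow_natCast]; norm_num
  have h6 : w ^ (-(1 + t)) * (2⁻¹ : ℝ) ^ (-(1 + t)) ≤ w ^ (-(4 / 5) : ℝ) * 4 :=
    mul_le_mul h4 h5 (by positivity) (by positivity)
  rw [h3]
  calc _ ≤ s ^ (-(1 + 2 * t)) * s⁻¹ * (w ^ (-(4 / 5) : ℝ) * 4) :=
        mul_le_mul_of_nonneg_left h6 (by positivity)
    _ = _ := by ring

lemma sing2_k : Integrable fun p : ℝ => (1 + p ^ 2) ^ (-(4 / 5) : ℝ) := by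
  have := integrable_rpow_neg_one_add_norm_sq (E := ℝ) (μ := volume) (r := 8 / 5)
    (by rw [Module.finrank_self]; norm_num)
  refine this.congr (Eventually.of_forall fun p => ?_)
  simp only [Real.norm_eq_abs, sq_abs]
  norm_num

lemma sing2_ch (e : ℝ) : cosh (rh e) = (Real.sin e : ℝ) := by
  unfold rh
  rw [mul_comm, Complex.cosh_mul_I, ← Complex.ofReal_cos, Real.cos_pi_div_two_sub]

lemma sing2_sh (e : ℝ) : I * sinh (rh e) = -(Real.cos e : ℝ) := by
  unfold rh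
  rw [mul_comm I (_ : ℝ), Complex.sinh_mul_I, ← Complex.ofReal_sin, Real.sin_pi_div_two_sub,
    mul_comm, mul_assoc, Complex.I_mul_I]
  ring

lemma sing2_N (s : ℂ) (e : ℝ) : Nf s (rh e) =
    ∫ v : ℝ, ((((Real.cosh v - Real.cos e : ℝ) : ℂ)) ^ (-s) +
      ((Real.cosh v + Real.cos e : ℝ) : ℂ) ^ (-s)) := by
  unfold Nf
  rw [sing2_sh]
  push_cast
  simp only [sub_neg_eq_add, ← sub_eq_add_neg]

lemma sing2_low (e v : ℝ) (hc : 0 ≤ Real.cos e) :
    (v ^ 2 + Real.sin e ^ 2) / 2 ≤ Real.cosh v - Real.cos e ∧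
      (v ^ 2 + Real.sin e ^ 2) / 2 ≤ Real.cosh v + Real.cos e := by
  have h1 := sing2_cosh v
  have h2 := Real.sin_sq_add_cos_sq e
  have h3 := Real.cos_le_one e
  constructor <;> nlinarith [sq_nonneg (1 - Real.cos e)]

lemma sing2_bd (e : ℝ) (hs : 0 < Real.sin e) (hc : 0 ≤ Real.cos e) (u : ℂ) (hu : ‖u‖ ≤ 1 / 5) :
    ‖exp (Real.log (Real.sin e) * (1 + 2 * u)) * Nf (1 + u) (rh e)‖ ≤
      8 * ∫ p : ℝ, (1 + p ^ 2) ^ (-(4 / 5) : ℝ) := by
  set s := Real.sin e with hse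
  have ht : |u.re| ≤ 1 / 5 := (Complex.abs_re_le_norm u).trans hu
  have hi := (sing2_k.comp_div hs.ne').const_mul (s ^ (-(1 + 2 * u.re)) * (8 * s⁻¹))
  have h1 : ‖Nf (1 + u) (rh e)‖ ≤ ∫ v : ℝ, s ^ (-(1 + 2 * u.re)) * (8 * s⁻¹) *
      (1 + (v / s) ^ 2) ^ (-(4 / 5) : ℝ) := by
    rw [sing2_N]
    refine norm_integral_le_of_norm_le hi (Eventually.of_forall fun v => ?_)
    obtain ⟨l1, l2⟩ := sing2_low e v hc
    have p0 : 0 < (v ^ 2 + s ^ 2) / 2 := by positivity
    refine (norm_add_le _ _).trans ?_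
    rw [Complex.norm_cpow_eq_rpow_re_of_pos (p0.trans_le l1),
      Complex.norm_cpow_eq_rpow_re_of_pos (p0.trans_le l2)]
    have r1 : (-(1 + u)).re = -(1 + u.re) := by simp
    rw [r1]
    have q1 := sing2_pt s _ v u.re hs l1 ht
    have q2 := sing2_pt s _ v u.re hs l2 ht
    linarith
  rw [integral_const_mul, Measure.integral_comp_div (fun p : ℝ => (1 + p ^ 2) ^ (-(4 / 5) : ℝ)) s,
    abs_of_pos hs, smul_eq_mul] at h1
  have h2 : ‖exp (Real.log s * (1 + 2 * u))‖ = s ^ (1 + 2 * u.re) := by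
    rw [Complex.norm_exp, Complex.re_ofReal_mul, Real.rpow_def_of_pos hs]
    simp
  rw [norm_mul, h2]
  refine (mul_le_mul_of_nonneg_left h1 (by positivity)).trans (le_of_eq ?_)
  rw [Real.rpow_neg hs.le]
  have : s ^ (1 + 2 * u.re) ≠ 0 := by positivity
  field_simp

lemma sing2_val (e : ℝ) (hs : 0 < Real.sin e) (hc : 0 ≤ Real.cos e)
    (hi : Integrable fun v : ℝ => ((Real.cosh v : ℂ) + I * sinh (rh e)) ^ (-1 : ℂ) +
      ((Real.cosh v : ℂ) - I * sinh (rh e)) ^ (-1 : ℂ)) :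
    Nf 1 (rh e) = (2 * π / Real.sin e : ℝ) := by
  set s := Real.sin e with hse
  have hd : ∀ v : ℝ, HasDerivAt (fun v : ℝ => ((2 / s * Real.arctan (Real.sinh v / s) : ℝ) : ℂ))
      (((Real.cosh v : ℂ) + I * sinh (rh e)) ^ (-1 : ℂ) +
        ((Real.cosh v : ℂ) - I * sinh (rh e)) ^ (-1 : ℂ)) v := fun v => by
    have h1 := ((((Real.hasDerivAt_sinh v).div_const s).arctan).const_mul (2 / s)).ofReal_comp
    refine h1.congr_deriv ?_
    obtain ⟨l1, l2⟩ := sing2_low e v hc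
    have p0 : 0 < (v ^ 2 + s ^ 2) / 2 := by positivity
    have p1 : Real.cosh v - Real.cos e ≠ 0 := (p0.trans_le l1).ne'
    have p2 : Real.cosh v + Real.cos e ≠ 0 := (p0.trans_le l2).ne'
    have h2 : 2 / s * (1 / (1 + (Real.sinh v / s) ^ 2) * (Real.cosh v / s)) =
        (Real.cosh v - Real.cos e)⁻¹ + (Real.cosh v + Real.cos e)⁻¹ := by
      have h3 : s ^ 2 + Real.sinh v ^ 2 =
          (Real.cosh v - Real.cos e) * (Real.cosh v + Real.cos e) := by
        have := Real.sin_sq_add_cos_sq e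
        have := Real.cosh_sq v
        nlinarith
      have h4 : 1 + (Real.sinh v / s) ^ 2 = (s ^ 2 + Real.sinh v ^ 2) / s ^ 2 := by field_simp
      rw [h4, h3]
      field_simp
      ring
    rw [h2, sing2_sh, Complex.cpow_neg_one, Complex.cpow_neg_one]
    push_cast
    simp only [sub_neg_eq_add, ← sub_eq_add_neg]
  have t1 : Tendsto (fun v : ℝ => Real.sinh v / s) atTop atTop :=
    (Real.sinhOrderIso.tendsto_atTop).atTop_div_const hs
  have t2 : Tendsto (fun v : ℝ => Real.sinh v / s) atBot atBot :=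
    (Real.sinhOrderIso.tendsto_atBot).atBot_div_const hs
  have t3 := (Complex.continuous_ofReal.tendsto _).comp
    (((Real.tendsto_arctan_atTop.mono_right nhdsWithin_le_nhds).comp t1).const_mul (2 / s))
  have t4 := (Complex.continuous_ofReal.tendsto _).comp
    (((Real.tendsto_arctan_atBot.mono_right nhdsWithin_le_nhds).comp t2).const_mul (2 / s))
  unfold Nf
  rw [integral_of_hasDerivAt_of_tendsto hd hi t4 t3, ← Complex.ofReal_sub]
  congr 1
  ring

/-- the factor which does not depend on `e` -/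
def sing2A (u : ℂ) : ℂ := (2 * π : ℂ) ^ (-1 - u) * Gamma (1 + u) * riemannZeta₁ (1 + u) ^ 2

lemma sing2_A (u : ℂ) (hu : ‖u‖ ≤ 1 / 5) : DifferentiableAt ℂ sing2A u := by
  have h1 : DifferentiableAt ℂ (fun u : ℂ => (2 * π : ℂ) ^ (-1 - u)) u :=
    DifferentiableAt.const_cpow (by fun_prop) (Or.inl (by simp))
  have h2 : DifferentiableAt ℂ (fun u : ℂ => Gamma (1 + u)) u := by
    refine (Complex.differentiableAt_Gamma _ fun m hm => ?_).comp u (by fun_prop)
    have h3 := congrArg Complex.re hm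
    have h4 := abs_le.mp ((Complex.abs_re_le_norm u).trans hu)
    simp only [add_re, one_re, neg_re, natCast_re] at h3
    have := (Nat.cast_nonneg m : (0 : ℝ) ≤ m)
    linarith [h4.1]
  have h3 : DifferentiableAt ℂ (fun u : ℂ => riemannZeta₁ (1 + u)) u :=
    (differentiable_riemannZeta₁ _).comp u (by fun_prop)
  exact (h1.mul h2).mul (h3.pow 2)

theorem t_sing2 : T_SING2 := by
  intro _ hN
  obtain ⟨hN1, -, hN3, -⟩ := hN
  have hpi := Real.pi_gt_three
  obtain ⟨M1, hM1⟩ := (isCompact_closedBall (0 : ℂ) (1 / 5)).exists_bound_of_continuousOn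
    (f := sing2A) fun u hu => (sing2_A u (by simpa using hu)).continuousAt.continuousWithinAt
  have hM10 : 0 ≤ M1 := (norm_nonneg _).trans (hM1 0 (by simp))
  set K0 : ℝ := ∫ p : ℝ, (1 + p ^ 2) ^ (-(4 / 5) : ℝ) with hK0
  have hK00 : 0 ≤ K0 := integral_nonneg fun p => by positivity
  set K : ℝ := 5 * (M1 * (8 * K0) + 1) with hK
  have hK1 : 0 ≤ K := by positivity
  set L0 : ℝ := 10 + 3 * (‖c0‖ + 3 * K * ‖c0‖ + 6 * K) with hL0
  have hL01 : 10 ≤ L0 := le_add_of_nonneg_right (by positivity)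
  refine ⟨Real.exp (-L0), Real.exp_pos _, fun e he => ?_⟩
  have he1 : e < 1 := he.2.trans (Real.exp_lt_one_iff.mpr (by linarith))
  have hs : 0 < Real.sin e := Real.sin_pos_of_pos_of_lt_pi he.1 (by linarith)
  have hc : 0 ≤ Real.cos e := Real.cos_nonneg_of_neg_pi_div_two_le_of_le (by linarith [he.1])
    (by linarith)
  have hse : Real.sin e ≤ e := Real.sin_le he.1.le
  have hr : rh e ∈ Str := by
    show |(rh e).im| < π / 2
    have : (rh e).im = π / 2 - e := by simp [rh]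
    rw [this, abs_lt]
    constructor <;> linarith [he.1]
  set L : ℝ := -Real.log (Real.sin e) with hL
  have hL1 : Real.log (1 / e) ≤ L := by
    rw [one_div, Real.log_inv, hL, neg_le_neg_iff]
    exact Real.log_le_log hs hse
  have hL2 : L0 < Real.log (1 / e) := by
    rw [one_div, Real.log_inv, lt_neg]
    exact (Real.log_lt_iff_lt_exp he.1).mpr he.2
  have hL3 : 10 ≤ L := by linarith
  set G : ℂ → ℂ := fun u => sing2A u *
    (exp (Real.log (Real.sin e) * (1 + 2 * u)) * Nf (1 + u) (rh e)) with hG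
  have hb : ∀ u ∈ ball (0 : ℂ) (1 / 5), ‖u‖ ≤ 1 / 5 := fun u hu => (mem_ball_zero_iff.mp hu).le
  have hGd : DifferentiableOn ℂ G (ball 0 (1 / 5)) := by
    refine DifferentiableOn.mul (fun u hu => (sing2_A u (hb u hu)).differentiableWithinAt)
      (DifferentiableOn.mul (by fun_prop) ?_)
    refine hN3 _ (fun u => 1 + u) (fun _ => rh e) isOpen_ball (by fun_prop) (by fun_prop)
      fun u hu => ⟨?_, hr⟩
    have h4 := abs_le.mp ((Complex.abs_re_le_norm u).trans (hb u hu))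
    show 0 < (1 + u).re
    rw [add_re, one_re]
    linarith [h4.1]
  have hsc : ((Real.sin e : ℝ) : ℂ) ≠ 0 := Complex.ofReal_ne_zero.mpr hs.ne'
  have hex : exp (Real.log (Real.sin e) : ℂ) = (Real.sin e : ℝ) := by
    rw [← Complex.ofReal_exp, Real.exp_log hs]
  have hG0 : G 0 = 1 := by
    have hi := hN1 1 (rh e) (by simp) hr
    have hpc : (π : ℂ) ≠ 0 := Complex.ofReal_ne_zero.mpr Real.pi_ne_zero
    simp only [hG, sing2A, add_zero, sub_zero, mul_zero, mul_one, Complex.Gamma_one,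
      riemannZeta₁_one, one_pow, Complex.cpow_neg_one]
    rw [sing2_val e hs hc (hi.1.add hi.2), hex, Complex.ofReal_div, Complex.ofReal_mul,
      Complex.ofReal_ofNat]
    field_simp
  have hGb : ∀ u ∈ ball (0 : ℂ) (1 / 5), ‖G u‖ ≤ M1 * (8 * K0) := fun u hu => by
    simp only [hG]
    rw [norm_mul]
    exact mul_le_mul (hM1 u (ball_subset_closedBall hu)) (sing2_bd e hs hc u (hb u hu))
      (norm_nonneg _) hM10
  have hS := sing2_schwarz G _ hGd hG0 hGb
  have i2 := sing2_iter G K L hGd hS hL3 2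
  have i3 := sing2_iter G K L hGd hS hL3 3
  have hf : DifferentiableOn ℂ (fun u => exp (L * u) * G u) (ball 0 (1 / 5)) :=
    DifferentiableOn.mul (by fun_prop) hGd
  have res := sing2_res _ hf (c0 + L) dl dl_pos (by linarith [dl_le])
  set a2 := iteratedDeriv 2 (fun u => exp (L * u) * G u) 0 with ha2
  set a3 := iteratedDeriv 3 (fun u => exp (L * u) * G u) 0 with ha3
  have hT : T2 (rh e) = 4 * ((Real.sin e : ℝ) : ℂ)⁻¹ * ((c0 + L) * a2 / 2 + a3 / 6) := by
    rw [← res]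
    unfold T2
    rw [mul_assoc (4 : ℂ), mul_assoc (4 : ℂ), mul_left_comm ((Real.sin e : ℝ) : ℂ)⁻¹,
      ← circleIntegral.integral_const_mul ((Real.sin e : ℝ) : ℂ)⁻¹]
    congr 2
    refine circleIntegral.integral_congr dl_pos.le fun u hu => ?_
    have hu0 : u ≠ 0 := ne_of_mem_sphere hu dl_pos.ne'
    have h1 : exp (u * Real.log (Real.sin e)) * (Real.sin e : ℝ) =
        exp (L * u) * exp (Real.log (Real.sin e) * (1 + 2 * u)) := by
      rw [← Complex.exp_add, ← congrArg (fun x => exp (u * Real.log (Real.sin e)) * x) hex,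
        ← Complex.exp_add, hL, Complex.ofReal_neg]
      congr 1
      ring
    have h2 : (L : ℂ) = -(Real.log (Real.sin e) : ℂ) := by rw [hL, Complex.ofReal_neg]
    simp only [hG, sing2A, smul_eq_mul, sub_zero]
    rw [sing2_ch, ← Complex.ofReal_log hs.le,
      riemannZeta_eq_inv_sub_mul (s := 1 + u) (by simpa using hu0), add_sub_cancel_left,
      eq_inv_mul_iff_mul_eq₀ hsc, sub_eq_add_neg c0, ← h2]
    have h3 : ∀ A B : ℂ, exp (L * u) * (A * (exp (Real.log (Real.sin e) * (1 + 2 * u)) * B)) =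
        exp (u * Real.log (Real.sin e)) * (Real.sin e : ℝ) * A * B := fun A B => by
      rw [h1]; ring
    rw [h3]
    field_simp
    ring
  have hL0' : 0 < L := by linarith
  have j2 : ‖a2 - L ^ 2‖ ≤ 6 * K * L := i2.trans (le_of_eq (by
    simp only [Nat.factorial]; push_cast; field_simp; ring))
  have j3 : ‖a3 - L ^ 3‖ ≤ 18 * K * L ^ 2 := i3.trans (le_of_eq (by
    simp only [Nat.factorial]; push_cast; field_simp; ring))
  have hdec : ((2 / 3 * L ^ 3 : ℝ) : ℂ) = ((c0 + L) * a2 / 2 + a3 / 6) -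
      (c0 * L ^ 2 / 2 + (c0 + L) * (a2 - L ^ 2) / 2 + (a3 - L ^ 3) / 6) := by
    push_cast; ring
  have hn := norm_sub_le ((c0 + L) * a2 / 2 + a3 / 6)
    (c0 * L ^ 2 / 2 + (c0 + L) * (a2 - L ^ 2) / 2 + (a3 - L ^ 3) / 6)
  rw [← hdec, Complex.norm_real, Real.norm_eq_abs, abs_of_pos (by positivity)] at hn
  have nL : ‖(L : ℂ)‖ = L := by rw [Complex.norm_real, Real.norm_eq_abs, abs_of_pos hL0']
  have e1 : ‖c0 * L ^ 2 / 2‖ ≤ ‖c0‖ * L ^ 2 := by
    rw [norm_div, norm_mul, norm_pow, nL, Complex.norm_ofNat]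
    exact half_le_self (by positivity)
  have e2 : ‖(c0 + L) * (a2 - L ^ 2) / 2‖ ≤ (3 * K * ‖c0‖ + 3 * K) * L ^ 2 := by
    rw [norm_div, norm_mul, Complex.norm_ofNat]
    have h1 : ‖c0 + L‖ ≤ (‖c0‖ + 1) * L := by
      refine (norm_add_le _ _).trans ?_
      rw [nL]
      nlinarith [norm_nonneg c0]
    have h2 := mul_le_mul h1 j2 (norm_nonneg _) (by positivity)
    linarith
  have e3 : ‖(a3 - L ^ 3) / 6‖ ≤ 3 * K * L ^ 2 := by
    rw [norm_div, Complex.norm_ofNat]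
    linarith
  have e4 := norm_add₃_le (a := c0 * L ^ 2 / 2) (b := (c0 + L) * (a2 - L ^ 2) / 2)
    (c := (a3 - L ^ 3) / 6)
  have e5 : 3 * (‖c0‖ + 3 * K * ‖c0‖ + 6 * K) * L ^ 2 ≤ L * L ^ 2 :=
    mul_le_mul_of_nonneg_right (by linarith) (by positivity)
  have e6 : L ^ 3 / 3 ≤ ‖(c0 + L) * a2 / 2 + a3 / 6‖ := by nlinarith
  have e7 : Real.log (1 / e) ^ 3 ≤ L ^ 3 := pow_le_pow_left₀ (by linarith) hL1 3
  rw [hT, norm_mul, norm_mul, norm_inv, Complex.norm_real, Real.norm_eq_abs, abs_of_pos hs,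
    Complex.norm_ofNat]
  have e8 : e⁻¹ ≤ (Real.sin e)⁻¹ := inv_anti₀ hs hse
  have e9 : 0 < e⁻¹ := inv_pos.mpr he.1
  calc Real.log (1 / e) ^ 3 / e ≤ e⁻¹ * L ^ 3 := by
        rw [div_eq_inv_mul]; exact mul_le_mul_of_nonneg_left e7 e9.le
    _ ≤ (Real.sin e)⁻¹ * (4 * ‖(c0 + L) * a2 / 2 + a3 / 6‖) :=
        mul_le_mul e8 (by nlinarith [pow_pos hL0' 3]) (by positivity) (by positivity)
    _ = _ := by ring

end

end Pool.Agent.Lib.E2
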