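import Pool.Agent.Lib.E2.EXP

namespace Pool.Agent.Lib.E2

noncomputable section

open Complex MeasureTheory Set Filter Topology
open scoped Real UpperHalfPlane MatrixGroups ComplexConjugate Modular

theorem spec_cf {C k u : ℝ} (hC : ∀ k : ℝ, ‖Cf k‖ * |k| ≤ C * (1 + |k|) ^ (3 / 2 : ℝ))
    (hk : 1 / 10 ≤ k) (hu : |u| = k) : ‖Cf u‖ ≤ 11 * |C| * (1 + k) := by
  have h1 := hC u
  rw [hu] at h1
  have h2 : (1 + k) ^ (3 / 2 : ℝ) ≤ (1 + k) ^ (2 : ℝ) :=
    Real.rpow_le_rpow_of_exponent_le (by linarith) (by norm_num)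
  rw [Real.rpow_two] at h2
  have h3 : C * (1 + k) ^ (3 / 2 : ℝ) ≤ |C| * (1 + k) ^ 2 :=
    mul_le_mul (le_abs_self C) h2 (Real.rpow_nonneg (by linarith) _) (abs_nonneg C)
  have h4 : |C| * (1 + k) ^ 2 ≤ 11 * |C| * (1 + k) * k := by
    have h5 : 0 ≤ |C| * (1 + k) * (10 * k - 1) :=
      mul_nonneg (mul_nonneg (abs_nonneg C) (by linarith)) (by linarith)
    nlinarith
  exact le_of_mul_le_mul_right (h1.trans (h3.trans h4)) (by linarith)

theorem t_spec : T_SPEC := by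
  intro hBET hJB hODE hMA _ hOPS hEIG hRAY hBES hCOEF hEXP
  obtain ⟨ι, φ, hB, hlam⟩ := hOPS
  have hk0 : ∀ i, ∃ k : ℝ, 1 / 10 ≤ k ∧ Eig (φ i) k := fun i => by
    obtain ⟨lam, hl⟩ := hlam i
    exact hEIG _ lam (hB.1 i).1 (hB.1 i).2.1 (hB.1 i).2.2 hl
  choose k hk using hk0
  have hE : EBasis φ k := ⟨hB, hk⟩
  obtain ⟨C, hcnt, hbd⟩ := hBES ι φ k hE
  obtain ⟨C1, n, hco⟩ := hCOEF ι φ k hE
  obtain ⟨C2, hC2⟩ := hBET.2.2.2.1
  obtain ⟨C3, hC3⟩ := hJB.2.2.2.1
  have : Countable ι := exp_count fun K hK => (hcnt K hK).1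
  have hkp : ∀ i, 0 < k i := fun i => by linarith [(hk i).1]
  have hR := fun i => hRAY (φ i) (k i) _ (hkp i) (hB.1 i).2.1 (hB.1 i).1.1.2.1 (hk i).2
    fun z => (hbd i z).2
  have hs := exp_sum (fun i => (hkp i).le) (hco 1 ⟨one_pos, le_rfl⟩).1
  have hper : ∀ r : ℝ, HasSum (fun i => ip (φ i) Fc * per (φ i) (ray r)) (Md r) := fun r => by
    have hi : ∀ i, Integrable (fun y : ℝ => ip (φ i) Fc *
        (φ i (pt (y * (ray r).re) (y * (ray r).im)) / y)) (volume.restrict (Ioi 0)) :=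
      fun i => ((hR i).2 r).1.const_mul _
    have hs' : Summable fun i => ∫ y in Ioi (0 : ℝ), ‖ip (φ i) Fc *
        (φ i (pt (y * (ray r).re) (y * (ray r).im)) / y)‖ := by
      refine Summable.of_nonneg_of_le (fun i => integral_nonneg fun z => norm_nonneg _)
        (fun i => ?_) (hs.mul_right (8 * C * Real.cosh r ^ (1 / 4 : ℝ)))
      simp only [norm_mul (ip (φ i) Fc)]
      rw [integral_const_mul, mul_assoc]
      refine mul_le_mul_of_nonneg_left (((hR i).2 r).2.trans (le_of_eq ?_)) (norm_nonneg _)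
      ring
    have h1 := hasSum_integral_of_summable_integral_norm hi hs'
    have h2 : ∀ y : ℝ, ∑' i, ip (φ i) Fc * (φ i (pt (y * (ray r).re) (y * (ray r).im)) / y) =
        Fc (pt (y * (ray r).re) (y * (ray r).im)) / y := fun y => by
      simp only [← mul_div_assoc]
      exact ((hEXP ι φ k hE _).div_const _).tsum_eq
    simp only [h2, integral_const_mul] at h1
    rw [(hMA r).1]
    exact h1
  obtain ⟨b, hb⟩ : ∃ b : ι → ℂ, ∀ i, b i = ip (φ i) Fc * per (φ i) (ray 0) := ⟨_, fun _ => rfl⟩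
  have hpf : ∀ r : ℝ, HasSum (fun i => b i * pf (k i) r) (Md r) := fun r => by
    have h1 := ((hper r).add (hper (-r))).div_const 2
    rw [(hMA r).2.1, add_self_div_two] at h1
    have h2 : ∀ i, (ip (φ i) Fc * per (φ i) (ray r) + ip (φ i) Fc * per (φ i) (ray (-r))) / 2 =
        b i * pf (k i) r := fun i => by
      have h3 := hODE (k i) (hkp i).ne' _ (hR i).1 r
      rw [hb, ← mul_add, h3]
      ring
    simp only [h2] at h1
    exact h1
  have hbn : ∀ i, ∀ u : ℝ, |u| = k i →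
      ‖b i * Cf u‖ ≤ 88 * |C| * |C2| * (‖ip (φ i) Fc‖ * (1 + k i) ^ 3) := fun i u hu => by
    have h1 : ‖per (φ i) (ray 0)‖ ≤ 8 * (|C| * (1 + k i) ^ 2) := by
      refine (norm_integral_le_integral_norm _).trans (((hR i).2 0).2.trans ?_)
      rw [Real.cosh_zero, Real.one_rpow, mul_one]
      gcongr
      exact le_abs_self C
    have h2 := spec_cf hC2 (hk i).1 hu
    have h3 := hkp i
    rw [hb, norm_mul, norm_mul]
    refine (mul_le_mul (mul_le_mul_of_nonneg_left h1 (norm_nonneg _)) h2 (norm_nonneg _)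
      (by positivity)).trans (le_of_eq ?_)
    ring
  have hsum : ∀ e ∈ Ioc (0 : ℝ) 1, ∀ v : ι → ℝ, (∀ i, |v i| = k i) →
      Summable (fun i => ‖b i * Cf (v i)‖ * Real.exp ((π / 2 - e) * |v i|)) ∧
      ∑' i, ‖b i * Cf (v i)‖ * Real.exp ((π / 2 - e) * |v i|) ≤
        88 * |C| * |C2| * (|C1| / e ^ n) := fun e he v hv => by
    have h1 : ∀ i, ‖b i * Cf (v i)‖ * Real.exp ((π / 2 - e) * |v i|) ≤ 88 * |C| * |C2| *
        (‖ip (φ i) Fc‖ * (1 + k i) ^ 3 * Real.exp ((π / 2 - e) * k i)) := fun i => by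
      rw [hv i, ← mul_assoc]
      exact mul_le_mul_of_nonneg_right (hbn i _ (hv i)) (Real.exp_pos _).le
    have h2 := (hco e he).1.mul_left (88 * |C| * |C2|)
    have h3 := Summable.of_nonneg_of_le (fun i => by positivity) h1 h2
    refine ⟨h3, (h3.tsum_le_tsum h1 h2).trans ?_⟩
    rw [tsum_mul_left]
    refine mul_le_mul_of_nonneg_left ((hco e he).2.trans ?_) (by positivity)
    exact div_le_div_of_nonneg_right (le_abs_self _) (pow_pos he.1 n).le
  have hv1 : ∀ i, |k i| = k i := fun i => abs_of_pos (hkp i)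
  have hv2 : ∀ i, |-k i| = k i := fun i => by rw [abs_neg, hv1]
  refine ⟨ι ⊕ ι, Sum.elim k fun i => -k i,
    Sum.elim (fun i => b i * Cf (k i)) fun i => b i * Cf (-k i),
    ⟨2 * (88 * |C| * |C2| * |C1|) + 2 * |C|, n + 4, fun e he => ?_, fun K hK => ?_⟩,
    fun r => ?_⟩
  · obtain ⟨a1, a2⟩ := hsum e he k hv1
    obtain ⟨a3, a4⟩ := hsum e he (fun i => -k i) hv2
    have h1 := HasSum.sum (f := fun j : ι ⊕ ι =>
      ‖Sum.elim (fun i => b i * Cf (k i)) (fun i => b i * Cf (-k i)) j‖ *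
        Real.exp ((π / 2 - e) * |Sum.elim k (fun i => -k i) j|)) a1.hasSum a3.hasSum
    refine ⟨h1.summable, ?_⟩
    rw [h1.tsum_eq]
    refine (add_le_add a2 a4).trans ?_
    have h2 : e ^ (n + 4) ≤ e ^ n := pow_le_pow_of_le_one he.1.le he.2 (by omega)
    have h3 : 0 < e ^ (n + 4) := pow_pos he.1 _
    have h4 : 88 * |C| * |C2| * (|C1| / e ^ n) + 88 * |C| * |C2| * (|C1| / e ^ n) =
        2 * (88 * |C| * |C2| * |C1|) / e ^ n := by ring
    rw [h4]
    exact div_le_div₀ (by positivity) (le_add_of_nonneg_right (by positivity)) h3 h2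
  · obtain ⟨a1, a2⟩ := hcnt K hK
    have h1 : {j : ι ⊕ ι | |Sum.elim k (fun i => -k i) j| ≤ K} =
        Sum.inl '' {i | k i ≤ K} ∪ Sum.inr '' {i | k i ≤ K} := by
      ext j
      rcases j with i | i
      · simp [hv1]
      · simp [hv1]
    rw [h1]
    refine ⟨(a1.image _).union (a1.image _), ?_⟩
    have h2 := Set.ncard_union_le (Sum.inl '' {i | k i ≤ K} : Set (ι ⊕ ι)) (Sum.inr '' {i | k i ≤ K})
    rw [Set.ncard_image_of_injective _ Sum.inl_injective,
      Set.ncard_image_of_injective _ Sum.inr_injective] at h2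
    have h3 : (((Sum.inl '' {i | k i ≤ K} ∪ Sum.inr '' {i | k i ≤ K} : Set (ι ⊕ ι)).ncard : ℕ) : ℝ) ≤
        ({i | k i ≤ K}.ncard : ℝ) + ({i | k i ≤ K}.ncard : ℝ) := by exact_mod_cast h2
    have h4 : K ^ 4 ≤ K ^ (n + 4) := pow_le_pow_right₀ hK (by omega)
    have h5 : C * K ^ 4 ≤ |C| * K ^ (n + 4) :=
      mul_le_mul (le_abs_self C) h4 (by positivity) (abs_nonneg C)
    have h6 : 0 ≤ 2 * (88 * |C| * |C2| * |C1|) * K ^ (n + 4) := by positivity
    rw [add_mul]
    linarith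
  · have hJ : ∀ v : ι → ℝ, (∀ i, |v i| = k i) →
        Summable fun i => b i * Cf (v i) * Jf (sk (v i)) r := fun v hv => by
      refine Summable.of_norm_bounded ((hsum 1 ⟨one_pos, le_rfl⟩ v hv).1.mul_right
        (C3 * Real.exp (-(1 / 2 * r)) * (π / 2) ^ (-(1 / 2) : ℝ))) fun i => ?_
      have e1 : (sk (v i)).re = 1 / 2 := by simp [sk]
      have h1 := hC3 (sk (v i)) r (by rw [e1]; norm_num) (by rw [e1]; norm_num)
        (by simp [Str, Real.pi_pos])
      rw [e1, ofReal_im, ofReal_re, mul_zero, zero_sub, abs_zero, sub_zero] at h1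
      have h2 : 1 ≤ Real.exp ((π / 2 - 1) * |v i|) :=
        Real.one_le_exp (mul_nonneg (by linarith [Real.pi_gt_three]) (abs_nonneg _))
      rw [norm_mul]
      exact mul_le_mul (le_mul_of_one_le_right (norm_nonneg _) h2) h1 (norm_nonneg _)
        (by positivity)
    have a1 := (hJ k hv1).hasSum
    have a2 := (hJ (fun i => -k i) hv2).hasSum
    have h1 := HasSum.sum (f := fun j : ι ⊕ ι =>
      Sum.elim (fun i => b i * Cf (k i)) (fun i => b i * Cf (-k i)) j *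
        Jf (sk (Sum.elim k (fun i => -k i) j)) r) a1 a2
    rw [h1.tsum_eq]
    refine (hpf r).unique ?_
    have h2 := a1.add a2
    simp only [pf, mul_add, ← mul_assoc]
    exact h2

end

end Pool.Agent.Lib.E2
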