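import Pool.Agent.Lib.E2.Blue

/-! Invariant integral operators: boundedness, symmetry and commutation. -/

namespace Pool.Agent.Lib.E2

noncomputable section

open Complex MeasureTheory Set Filter Topology
open scoped Real UpperHalfPlane MatrixGroups ComplexConjugate Modular ENNReal

namespace SYM

instance : SFinite muD := by unfold muD; infer_instance

instance : Countable SL(2, ℤ) := by
  unfold Matrix.SpecialLinearGroup Matrix; infer_instance

theorem meas_smul (hG : St_GEO) (g : SL(2, ℤ)) : Measurable fun w : ℍ => g • w :=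
  (hG.2.2.2.2.2.1 g).2.1.measurable

theorem meas_qd (hG : St_GEO) : Measurable fun p : ℍ × ℍ => qd p.1 p.2 := hG.2.2.1.measurable

/-- unfolding in either variable -/
theorem lswap (hG : St_GEO) (hU : St_UNF2) (F : ℍ × ℍ → ℝ≥0∞) (hF : Measurable F)
    (hi : ∀ (g : SL(2, ℤ)) z w, F (g • z, g • w) = F (z, w)) :
    ∫⁻ p, F p ∂(muD.prod volume) = ∫⁻ p, F p ∂(volume.prod muD) := by
  have h1 : ∀ g : SL(2, ℤ), Measurable fun p : ℍ × ℍ => F (p.1, g • p.2) := fun g =>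
    hF.comp (measurable_fst.prodMk ((meas_smul hG g).comp measurable_snd))
  have h2 : ∀ g : SL(2, ℤ), Measurable fun p : ℍ × ℍ => F (g • p.1, p.2) := fun g =>
    hF.comp (((meas_smul hG g).comp measurable_fst).prodMk measurable_snd)
  rw [lintegral_prod _ hF.aemeasurable, lintegral_prod_symm' _ hF,
    ← ENNReal.mul_right_inj (a := 2) (by simp) (by simp),
    ← lintegral_const_mul' _ _ (by simp), ← lintegral_const_mul' _ _ (by simp)]
  have e1 : ∀ z, 2 * ∫⁻ w, F (z, w) = ∑' g : SL(2, ℤ), ∫⁻ w, F (z, g • w) ∂muD := fun z =>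
    hU.1 _ (hF.comp measurable_prodMk_left)
  have e2 : ∀ w, 2 * ∫⁻ z, F (z, w) = ∑' g : SL(2, ℤ), ∫⁻ z, F (g • z, w) ∂muD := fun w =>
    hU.1 _ (hF.comp measurable_prodMk_right)
  simp only [e1, e2]
  rw [lintegral_tsum fun g => (h1 g).lintegral_prod_right'.aemeasurable,
    lintegral_tsum fun g => (h2 g).lintegral_prod_left'.aemeasurable,
    ← (Equiv.inv SL(2, ℤ)).tsum_eq]
  refine tsum_congr fun g => ?_
  rw [← lintegral_lintegral_swap (f := fun z w => F (g • z, w)) (h2 g).aemeasurable]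
  refine lintegral_congr fun z => lintegral_congr fun w => ?_
  rw [← hi g, Equiv.inv_apply, smul_inv_smul]

theorem map_eq (hG : St_GEO) (hU : St_UNF2) (F : ℍ × ℍ → ℂ) (hF : Measurable F)
    (hi : ∀ (g : SL(2, ℤ)) z w, F (g • z, g • w) = F (z, w)) :
    (muD.prod volume).map F = (volume.prod muD).map F := by
  ext s hs
  rw [Measure.map_apply hF hs, Measure.map_apply hF hs, ← lintegral_indicator_one (hF hs),
    ← lintegral_indicator_one (hF hs)]
  refine lswap hG hU _ (measurable_one.indicator (hF hs)) fun g z w => ?_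
  have : (g • z, g • w) ∈ F ⁻¹' s ↔ (z, w) ∈ F ⁻¹' s := by simp only [mem_preimage, hi]
  by_cases h : (z, w) ∈ F ⁻¹' s
  · rw [indicator_of_mem h, indicator_of_mem (this.2 h)]; rfl
  · rw [indicator_of_notMem h, indicator_of_notMem (mt this.1 h)]

theorem bswap (hG : St_GEO) (hU : St_UNF2) (F : ℍ × ℍ → ℂ) (hF : Measurable F)
    (hi : ∀ (g : SL(2, ℤ)) z w, F (g • z, g • w) = F (z, w)) :
    (Integrable F (muD.prod volume) ↔ Integrable F (volume.prod muD)) ∧
    ∫ p, F p ∂(muD.prod volume) = ∫ p, F p ∂(volume.prod muD) := by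
  have h := map_eq hG hU F hF hi
  have a1 := integrable_map_measure (μ := muD.prod volume) (g := fun x : ℂ => x)
    aestronglyMeasurable_id hF.aemeasurable
  have a2 := integrable_map_measure (μ := volume.prod muD) (g := fun x : ℂ => x)
    aestronglyMeasurable_id hF.aemeasurable
  have b1 := integral_map (μ := muD.prod volume) (f := fun x : ℂ => x) hF.aemeasurable
    aestronglyMeasurable_id
  have b2 := integral_map (μ := volume.prod muD) (f := fun x : ℂ => x) hF.aemeasurable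
    aestronglyMeasurable_id
  rw [h] at a1 b1
  exact ⟨a1.symm.trans a2, b1.symm.trans b2⟩

section op

variable {k : ℝ → ℝ} {f g : ℍ → ℂ}

/-- the total mass of the kernel -/
def KK (k : ℝ → ℝ) : ℝ≥0∞ := ENNReal.ofReal (2 * π) * ∫⁻ q in Ioi (1 : ℝ), ‖k q‖ₑ

theorem KK_lt (hk : IntegrableOn k (Ioi 1)) : KK k < ∞ :=
  ENNReal.mul_lt_top ENNReal.ofReal_lt_top hk.2

theorem mass (hP : St_POLAR) (hm : Measurable k) (z : ℍ) : ∫⁻ w, ‖k (qd z w)‖ₑ = KK k :=
  hP.2.2.2.1 z (fun q => ‖k q‖ₑ) hm.enorm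

theorem sq_fin (hf : Aut f) : ∫⁻ z, ‖f z‖ₑ ^ 2 ∂muD < ∞ := by
  have := lintegral_rpow_enorm_lt_top_of_eLpNorm_lt_top (by simp) (by simp) hf.2.2.2
  simpa using this

theorem fst_fin (hG : St_GEO) (hP : St_POLAR) (hm : Measurable k) (hk : IntegrableOn k (Ioi 1))
    (hf : Aut f) : ∫⁻ p, ‖k (qd p.1 p.2)‖ₑ * ‖f p.1‖ₑ ^ 2 ∂(muD.prod volume) < ∞ := by
  have h1 : Measurable fun p : ℍ × ℍ => ‖k (qd p.1 p.2)‖ₑ := (hm.comp (meas_qd hG)).enorm
  have h2 : Measurable fun p : ℍ × ℍ => ‖k (qd p.1 p.2)‖ₑ * ‖f p.1‖ₑ ^ 2 :=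
    h1.mul ((hf.1.comp measurable_fst).enorm.pow_const 2)
  rw [lintegral_prod _ h2.aemeasurable]
  have e : ∀ z : ℍ, ∫⁻ w, ‖k (qd z w)‖ₑ * ‖f z‖ₑ ^ 2 = KK k * ‖f z‖ₑ ^ 2 := fun z => by
    rw [← mass hP hm z]
    have h3 : Measurable fun w : ℍ => ‖k (qd z w)‖ₑ :=
      ((hm.comp (meas_qd hG)).comp measurable_prodMk_left).enorm
    exact lintegral_mul_const _ h3
  simp only [e]
  rw [lintegral_const_mul _ (hf.1.enorm.pow_const 2)]
  exact ENNReal.mul_lt_top (KK_lt hk) (sq_fin hf)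

theorem snd_fin (hG : St_GEO) (hU : St_UNF2) (hP : St_POLAR) (hm : Measurable k)
    (hk : IntegrableOn k (Ioi 1)) (hf : Aut f) :
    ∫⁻ p, ‖k (qd p.1 p.2)‖ₑ * ‖f p.2‖ₑ ^ 2 ∂(muD.prod volume) < ∞ := by
  have h1 : Measurable fun p : ℍ × ℍ => ‖k (qd p.1 p.2)‖ₑ := (hm.comp (meas_qd hG)).enorm
  have h2 : Measurable fun p : ℍ × ℍ => ‖k (qd p.1 p.2)‖ₑ * ‖f p.2‖ₑ ^ 2 :=
    h1.mul ((hf.1.comp measurable_snd).enorm.pow_const 2)
  rw [lswap hG hU _ h2 fun g z w => by
    simp only [(hG.2.2.2.2.2.1 g).1, hf.2.1 g w], ← lintegral_prod_swap]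
  refine lt_of_eq_of_lt (lintegral_congr fun p => ?_) (fst_fin hG hP hm hk hf)
  simp only [Prod.fst_swap, Prod.snd_swap, (hG.2.1 p.2 p.1).2]

theorem meas_rop (hG : St_GEO) (hm : Measurable k) (hf : Measurable f) : Measurable (Rop k f) :=
  (StronglyMeasurable.integral_prod_right' (ν := volume)
    (f := fun p : ℍ × ℍ => (k (qd p.1 p.2) : ℂ) * f p.2)
    ((measurable_ofReal.comp (hm.comp (meas_qd hG))).mul
      (hf.comp measurable_snd)).stronglyMeasurable).measurable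

theorem inv_rop (hG : St_GEO) (hf : Inv f) : Inv (Rop k f) := fun g z => by
  have h := hG.2.2.2.2.2.1 g
  unfold Rop
  rw [← (h.2.2 fun w => (k (qd (g • z) w) : ℂ) * f w).1]
  simp only [h.1, hf g]

theorem rop_sq (hG : St_GEO) (hP : St_POLAR) (hm : Measurable k) (hf : Measurable f) (z : ℍ) :
    ‖Rop k f z‖ₑ ^ 2 ≤ KK k * ∫⁻ w, ‖k (qd z w)‖ₑ * ‖f w‖ₑ ^ 2 := by
  have h1 : Measurable fun w : ℍ => ‖k (qd z w)‖ₑ :=
    ((hm.comp (meas_qd hG)).comp measurable_prodMk_left).enorm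
  have h2 := ENNReal.lintegral_mul_le_Lp_mul_Lq (volume : Measure ℍ) Real.HolderConjugate.two_two
    (f := fun w => ‖k (qd z w)‖ₑ ^ (1 / 2 : ℝ))
    (g := fun w => ‖k (qd z w)‖ₑ ^ (1 / 2 : ℝ) * ‖f w‖ₑ) (h1.pow_const _).aemeasurable
    ((h1.pow_const _).mul hf.enorm).aemeasurable
  have e1 : ∀ x : ℝ≥0∞, (x ^ (1 / 2 : ℝ)) ^ (2 : ℝ) = x := fun x => by
    rw [← ENNReal.rpow_mul]; simp
  have e2 : ∀ x : ℝ≥0∞, x ^ (1 / 2 : ℝ) * x ^ (1 / 2 : ℝ) = x := fun x => by
    rw [← sq, ← ENNReal.rpow_two, e1]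
  simp only [Pi.mul_apply, ← mul_assoc, e2, ENNReal.mul_rpow_of_nonneg _ _ zero_le_two, e1,
    mass hP hm] at h2
  have h3 : ‖Rop k f z‖ₑ ≤ ∫⁻ w, ‖k (qd z w)‖ₑ * ‖f w‖ₑ := by
    refine (enorm_integral_le_lintegral_enorm _).trans (le_of_eq (lintegral_congr fun w => ?_))
    rw [enorm_mul, ← ofReal_norm (k (qd z w) : ℂ), norm_real, ofReal_norm]
  refine (pow_le_pow_left' (h3.trans h2) 2).trans (le_of_eq ?_)
  rw [mul_pow, ← ENNReal.rpow_two, ← ENNReal.rpow_two, e1, e1]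
  simp only [ENNReal.rpow_two]

theorem aut_rop (hG : St_GEO) (hU : St_UNF2) (hP : St_POLAR) (hm : Measurable k)
    (hk : IntegrableOn k (Ioi 1)) (hf : Aut f) : Aut (Rop k f) := by
  have h0 := meas_rop hG hm hf.1
  refine ⟨h0, inv_rop hG hf.2.1, h0.aestronglyMeasurable, ?_⟩
  rw [eLpNorm_lt_top_iff_lintegral_rpow_enorm_lt_top (by simp) (by simp)]
  have h1 : Measurable fun p : ℍ × ℍ => ‖k (qd p.1 p.2)‖ₑ * ‖f p.2‖ₑ ^ 2 :=
    (hm.comp (meas_qd hG)).enorm.mul ((hf.1.comp measurable_snd).enorm.pow_const 2)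
  have h2 := snd_fin hG hU hP hm hk hf
  rw [lintegral_prod _ h1.aemeasurable] at h2
  refine lt_of_le_of_lt (lintegral_mono fun z => ?_) (lt_of_eq_of_lt
    (lintegral_const_mul' _ _ (KK_lt hk).ne) (ENNReal.mul_lt_top (KK_lt hk) h2))
  simpa using rop_sq hG hP hm hf.1 z

theorem ip_rop (hG : St_GEO) (hU : St_UNF2) (hP : St_POLAR) (hm : Measurable k)
    (hk : IntegrableOn k (Ioi 1)) (hf : Aut f) (hg : Aut g) :
    ip g (Rop k f) = ip (Rop k g) f := by
  set F : ℍ × ℍ → ℂ := fun p => conj (g p.1) * ((k (qd p.1 p.2) : ℂ) * f p.2) with hF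
  have h1 : Measurable fun p : ℍ × ℍ => k (qd p.1 p.2) := hm.comp (meas_qd hG)
  have hm' : Measurable F := (continuous_conj.measurable.comp (hg.1.comp measurable_fst)).mul
    ((measurable_ofReal.comp h1).mul (hf.1.comp measurable_snd))
  obtain ⟨h2, h3⟩ := bswap hG hU F hm' fun γ z w => by
    simp only [hF, (hG.2.2.2.2.2.1 γ).1, hf.2.1 γ w, hg.2.1 γ z]
  have h4 : Integrable F (muD.prod volume) := by
    have h5 : Measurable fun p : ℍ × ℍ => ‖k (qd p.1 p.2)‖ₑ * ‖g p.1‖ₑ ^ 2 :=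
      h1.enorm.mul ((hg.1.comp measurable_fst).enorm.pow_const 2)
    refine ⟨hm'.aestronglyMeasurable, lt_of_le_of_lt (lintegral_mono fun p => ?_) (lt_of_eq_of_lt
      (lintegral_add_left h5 _)
      (ENNReal.add_lt_top.2 ⟨fst_fin hG hP hm hk hg, snd_fin hG hU hP hm hk hf⟩))⟩
    have e : ‖F p‖ ≤ ‖k (qd p.1 p.2)‖ * ‖g p.1‖ ^ 2 + ‖k (qd p.1 p.2)‖ * ‖f p.2‖ ^ 2 := by
      simp only [hF, norm_mul, RCLike.norm_conj, norm_real]
      nlinarith [mul_nonneg (norm_nonneg (k (qd p.1 p.2))) (sq_nonneg (‖g p.1‖ - ‖f p.2‖)),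
        mul_nonneg (norm_nonneg (k (qd p.1 p.2)))
          (mul_nonneg (norm_nonneg (g p.1)) (norm_nonneg (f p.2)))]
    simp only [← ofReal_norm]
    rw [← ENNReal.ofReal_pow (norm_nonneg _), ← ENNReal.ofReal_pow (norm_nonneg _),
      ← ENNReal.ofReal_mul (norm_nonneg _), ← ENNReal.ofReal_mul (norm_nonneg _),
      ← ENNReal.ofReal_add (by positivity) (by positivity)]
    exact ENNReal.ofReal_le_ofReal e
  rw [integral_prod _ h4, integral_prod_symm _ (h2.1 h4)] at h3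
  unfold ip Rop
  simp only [← integral_const_mul, ← integral_conj, ← integral_mul_const]
  refine h3.trans (integral_congr_ae (Eventually.of_forall fun w => integral_congr_ae
    (Eventually.of_forall fun z => ?_)))
  simp only [hF, map_mul, conj_ofReal, (hG.2.1 z w).2]
  ring

end op

theorem ka_ok (a : ℝ) (ha : Real.cos a < 1) : Measurable (ka a) ∧ IntegrableOn (ka a) (Ioi 1) :=
  ⟨(measurable_id.sub_const _).pow_const _, by
    have h := integrableOn_add_rpow_Ioi_of_lt (a := -(3 / 2)) (c := 1) (m := -Real.cos a)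
      (by norm_num) (by simpa using ha)
    simp only [← sub_eq_add_neg] at h
    exact h⟩

theorem kw_ok (S : ℝ) : Measurable (kw S) ∧ IntegrableOn (kw S) (Ioi 1) := by
  have e : kw S = (Iio (1 + 2 * S ^ 2)).indicator fun q => (1 + 2 * S ^ 2 - q) ^ (-(1 / 2) : ℝ) := by
    funext q; simp only [kw, indicator, mem_Iio]
  rw [e]
  refine ⟨((measurable_id.const_sub _).pow_const _).indicator measurableSet_Iio, ?_⟩
  rw [IntegrableOn, integrable_indicator_iff measurableSet_Iio, IntegrableOn,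
    Measure.restrict_restrict measurableSet_Iio, inter_comm, Ioi_inter_Iio]
  have h := (intervalIntegral.intervalIntegrable_rpow' (a := 2 * S ^ 2) (b := 0)
    (r := -(1 / 2)) (by norm_num)).comp_sub_left (1 + 2 * S ^ 2)
  rw [add_sub_cancel_right, sub_zero,
    intervalIntegrable_iff_integrableOn_Ioo_of_le (by nlinarith [sq_nonneg S])] at h
  exact h

theorem ka_nonneg (hG : St_GEO) {a : ℝ} (z w : ℍ) : 0 ≤ ka a (qd z w) :=
  Real.rpow_nonneg (by linarith [(hG.2.1 z w).1, Real.cos_le_one a]) _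

theorem lop_lop (hG : St_GEO) (hU : St_UNF2) (hP : St_POLAR) (hK : St_KER2) {a b : ℝ}
    (ha : Real.cos a < 1) (hb : Real.cos b < 1) {f : ℍ → ℂ} (hf : Aut f) (z : ℍ) :
    Lop a (Lop b f) z = ∫ w, (∫ u, (ka a (qd z u) : ℂ) * (ka b (qd u w) : ℂ)) * f w := by
  have hn : Aut fun w => ((‖f w‖ : ℝ) : ℂ) :=
    ⟨measurable_ofReal.comp hf.1.norm, fun g w => by simp only [hf.2.1 g w],
      hf.2.2.norm.ofReal⟩
  have h1 := hK.2.2.1 _ (hK.2.1 _ (aut_rop hG hU hP (ka_ok b hb).1 (ka_ok b hb).2 hn)) a ha z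
  have hm : Measurable fun p : ℍ × ℍ =>
      (ka a (qd z p.1) : ℂ) * ((ka b (qd p.1 p.2) : ℂ) * f p.2) :=
    (measurable_ofReal.comp ((ka_ok a ha).1.comp ((meas_qd hG).comp
      (measurable_const.prodMk measurable_fst)))).mul
      ((measurable_ofReal.comp ((ka_ok b hb).1.comp (meas_qd hG))).mul (hf.1.comp measurable_snd))
  have h2 : Integrable (fun p : ℍ × ℍ =>
      (ka a (qd z p.1) : ℂ) * ((ka b (qd p.1 p.2) : ℂ) * f p.2)) (volume.prod volume) := by
    rw [integrable_prod_iff hm.aestronglyMeasurable]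
    refine ⟨Eventually.of_forall fun u =>
      (hK.2.2.1 _ (hK.2.1 _ hf) b hb u).const_mul (ka a (qd z u) : ℂ),
      h1.norm.congr (Eventually.of_forall fun u => ?_)⟩
    have e : Rop (ka b) (fun w => ((‖f w‖ : ℝ) : ℂ)) u = (∫ w, ka b (qd u w) * ‖f w‖ : ℝ) := by
      rw [← integral_complex_ofReal]; simp only [Rop, ofReal_mul]
    simp only [norm_mul, e, norm_real, integral_const_mul]
    rw [Real.norm_of_nonneg (integral_nonneg fun w => mul_nonneg (ka_nonneg hG u w) (norm_nonneg _))]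
    simp only [Real.norm_of_nonneg (ka_nonneg hG u _)]
  have h3 := integral_integral_swap (f := fun u w =>
    (ka a (qd z u) : ℂ) * ((ka b (qd u w) : ℂ) * f w)) h2
  simp only [Lop, Rop, ← integral_const_mul, ← integral_mul_const, mul_assoc]
  exact h3

end SYM

open SYM in
theorem t_sym : T_SYM := by
  intro hG _ hU hP hK
  refine ⟨fun k hm hk f hf => ⟨aut_rop hG hU hP hm hk hf, fun g hg => ip_rop hG hU hP hm hk hf hg⟩,
    ka_ok, kw_ok, fun f g hf hg h k z => integral_congr_ae ?_, fun a b ha hb f hf => ?_⟩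
  · filter_upwards [(hU.2.2.2.2.2.2 f g hf hg h).1] with w hw
    rw [hw]
  · funext z
    rw [lop_lop hG hU hP hK ha hb hf, lop_lop hG hU hP hK hb ha hf]
    refine integral_congr_ae (Eventually.of_forall fun w => ?_)
    obtain ⟨g, h1, h2⟩ := hG.2.2.2.2.2.2.2 z w
    have h := hG.2.2.2.2.1 g
    have e1 : ∀ u, qd z (g • u) = qd u w := fun u => by
      rw [← h2, h.1, (hG.2.1 w u).2]
    have e2 : ∀ u, qd (g • u) w = qd z u := fun u => by
      rw [← h1, h.1, (hG.2.1 u z).2]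
    beta_reduce
    rw [← (h.2.2 fun u => (ka a (qd z u) : ℂ) * (ka b (qd u w) : ℂ)).1]
    simp only [e1, e2, mul_comm]

end

end Pool.Agent.Lib.E2
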