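import Pool.Agent.Lib.E2.Blue2

/-!
Polynomial bound for the residue term `T3` on the real axis.
-/

namespace Pool.Agent.Lib.E2

noncomputable section

open Complex MeasureTheory Set Filter Topology Metric
open scoped Real

namespace T3B

def I0 : ℝ := ∫ u : ℝ, ((1 : ℝ) + ‖u‖ ^ 2) ^ (-(9 / 5 : ℝ) / 2)

theorem I0_nonneg : 0 ≤ I0 := integral_nonneg fun _ => by positivity

theorem normJ {s : ℂ} (hs : 9 / 10 ≤ s.re) (x : ℝ) {b : ℝ} (hb : 0 < b)
    (h : b ^ 2 ≤ 1 + Real.exp (-2 * x)) : ‖Jf s x‖ ≤ 2 * Real.exp (-s.re * x) * (I0 * b⁻¹) := by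
  have hi : Integrable fun u : ℝ => ((1 : ℝ) + ‖u‖ ^ 2) ^ (-(9 / 5 : ℝ) / 2) :=
    integrable_rpow_neg_one_add_norm_sq (by simp; norm_num)
  unfold Jf
  rw [norm_mul, norm_mul, norm_exp, I0, ← integral_mul_const]
  have e1 : (-s * x).re = -s.re * x := by simp
  rw [e1, Complex.norm_two]
  refine mul_le_mul_of_nonneg_left
    (norm_integral_le_of_norm_le (hi.mul_const _) (Eventually.of_forall fun u => ?_))
    (by positivity)
  have p1 : (0 : ℝ) < 1 + u ^ 2 := by positivity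
  have p2 : (0 : ℝ) < 1 + Real.exp (-2 * x) + u ^ 2 := by positivity
  have e2 : (1 + exp (-2 * (x : ℂ)) + (u : ℂ) ^ 2) = ((1 + Real.exp (-2 * x) + u ^ 2 : ℝ) : ℂ) := by
    push_cast; rfl
  rw [norm_mul, e2, norm_cpow_eq_rpow_re_of_pos p1, norm_cpow_eq_rpow_re_of_pos p2,
    Real.norm_eq_abs, sq_abs]
  have e3 : (-(1 / 2) : ℂ).re = -(1 / 2) := by simp
  have e4 : b⁻¹ = (b ^ 2) ^ (-(1 / 2) : ℝ) := by
    rw [← Real.rpow_two, ← Real.rpow_mul hb.le, ← Real.rpow_neg_one]; norm_num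
  rw [e3, e4]
  refine mul_le_mul (Real.rpow_le_rpow_of_exponent_le (by nlinarith [sq_nonneg u]) ?_)
    (Real.rpow_le_rpow_of_nonpos (by positivity) (by nlinarith [sq_nonneg u]) (by norm_num))
    (by positivity) (by positivity)
  rw [neg_re]; linarith

theorem normJJ {s : ℂ} {r : ℝ} (hr : 1 ≤ r) (hs : ‖s - 1‖ ≤ dl / r) :
    ‖Jf s r + Jf s (-r)‖ ≤ 2 * I0 + 2 * Real.exp 1 * I0 := by
  have h0 : 0 < r := by linarith
  have h1 : |s.re - 1| ≤ dl / r := by simpa using (abs_re_le_norm (s - 1)).trans hs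
  have h2 : dl / r ≤ 1 / 10 := (div_le_self dl_pos.le hr).trans dl_le
  have h3 : 9 / 10 ≤ s.re := by linarith [(abs_le.1 h1).1]
  have h4 : (s.re - 1) * r ≤ 1 := by
    have := (le_div_iff₀ h0).1 (abs_le.1 h1).2
    linarith [dl_le]
  have a1 := normJ h3 r one_pos (by linarith [Real.exp_pos (-2 * r)])
  have a2 := normJ h3 (-r) (Real.exp_pos r) (by
    rw [← Real.exp_nat_mul]
    have : ((2 : ℕ) : ℝ) * r = -2 * -r := by push_cast; ring
    rw [this]; linarith)
  have b1 : Real.exp (-s.re * r) ≤ 1 := Real.exp_le_one_iff.2 (by nlinarith)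
  have b2 : Real.exp (-s.re * -r) * (Real.exp r)⁻¹ ≤ Real.exp 1 := by
    rw [← Real.exp_neg, ← Real.exp_add]
    exact Real.exp_le_exp.2 (by linarith)
  have := I0_nonneg
  rw [ofReal_neg] at a2
  refine (norm_add_le _ _).trans (add_le_add (a1.trans ?_) (a2.trans ?_))
  · rw [inv_one, mul_one]; nlinarith
  · nlinarith

theorem re_pos {s : ℂ} (hs : s ∈ closedBall (1 : ℂ) dl) : 0 < s.re := by
  have h1 : |s.re - 1| ≤ dl := by simpa using (abs_re_le_norm (s - 1)).trans (mem_closedBall_iff_norm.1 hs)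
  linarith [(abs_le.1 h1).1, dl_le]

theorem diffJ (h : CurveAn Jf DS) (x : ℝ) {s : ℂ} (hs : 0 < s.re) :
    DifferentiableAt ℂ (fun s => Jf s x) s := by
  have ho : IsOpen {s : ℂ | 0 < s.re} := isOpen_lt continuous_const continuous_re
  refine (h _ (fun s => s) (fun _ => x) ho differentiableOn_id (differentiableOn_const _)
    fun c hc => ⟨hc, ?_⟩).differentiableAt (ho.mem_nhds hs)
  show |(x : ℂ).im| < π / 2
  simpa using Real.pi_pos

end T3B

open T3B in
theorem t_t3b : T_T3B := by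
  intro _ hJ hZ
  obtain ⟨f, hf, ef⟩ := hZ.2.2.1
  set G : ℂ → ℂ := fun s => f s * ((2 * π : ℂ) ^ (-s) * Gamma s * riemannZeta₁ s ^ 2) with hG
  have dG : ∀ s ∈ closedBall (1 : ℂ) dl, DifferentiableAt ℂ G s := fun s hs => by
    have h1 : DifferentiableAt ℂ (fun s : ℂ => (2 * π : ℂ) ^ (-s)) s :=
      differentiableAt_id.neg.const_cpow (Or.inl (by simp [Real.pi_ne_zero]))
    have h2 : DifferentiableAt ℂ Gamma s := differentiableAt_Gamma s fun m hm => by
      have := re_pos hs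
      rw [hm] at this
      simp at this
      linarith [(m.cast_nonneg : (0 : ℝ) ≤ m)]
    exact (hf s hs).mul ((h1.mul h2).mul ((differentiable_riemannZeta₁ s).pow 2))
  obtain ⟨M, hM⟩ := (isCompact_closedBall (1 : ℂ) dl).exists_bound_of_continuousOn
    (f := G) fun s hs => (dG s hs).continuousAt.continuousWithinAt
  have hM0 : 0 ≤ M := (norm_nonneg _).trans (hM 1 (mem_closedBall_self dl_pos.le))
  refine ⟨M * (2 * I0 + 2 * Real.exp 1 * I0) / dl ^ 4, fun r hr => ?_⟩
  have h0 : 0 < r := by linarith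
  have hρ : 0 < dl / r := div_pos dl_pos h0
  have hρ' : dl / r ≤ dl := div_le_self dl_pos.le hr
  set F : ℂ → ℂ := fun s => G s * (Jf s r + Jf s (-r)) / (s - 1) ^ 5 with hF
  have e : ∀ s ∈ closedBall (1 : ℂ) dl, s ≠ 1 → coef s * Pif s r = F s := fun s hs h1 => by
    have : s - 1 ≠ 0 := sub_ne_zero.2 h1
    rw [ef s hs h1, Pif, riemannZeta_eq_inv_sub_mul h1]
    simp only [hF, hG]
    field_simp
  have dF : ∀ s ∈ closedBall (1 : ℂ) dl, s ≠ 1 → DifferentiableAt ℂ F s := fun s hs h1 => by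
    have a1 := diffJ hJ.2.2.1 r (re_pos hs)
    have a2 := diffJ hJ.2.2.1 (-r) (re_pos hs)
    rw [ofReal_neg] at a2
    exact ((dG s hs).mul (a1.add a2)).div ((differentiableAt_id.sub_const 1).pow 5)
      (pow_ne_zero _ (sub_ne_zero.2 h1))
  have ne1 : ∀ {s : ℂ} {t : ℝ}, 0 < t → s ∉ ball (1 : ℂ) t → s ≠ 1 := fun ht hs h1 =>
    hs (h1 ▸ mem_ball_self ht)
  have e1 : (∮ s in C(1, dl), coef s * Pif s r) = ∮ s in C(1, dl), F s :=
    circleIntegral.integral_congr dl_pos.le fun s hs => e s (sphere_subset_closedBall hs)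
      (ne1 dl_pos fun h => by simp at hs h; rw [dist_eq_norm] at h; linarith)
  have e2 : (∮ s in C(1, dl), F s) = ∮ s in C(1, dl / r), F s :=
    circleIntegral_eq_of_differentiable_on_annulus_off_countable hρ hρ' countable_empty
      (fun s hs => (dF s hs.1 (ne1 hρ hs.2)).continuousAt.continuousWithinAt)
      fun s hs => dF s (ball_subset_closedBall hs.1.1)
        (ne1 hρ fun h => hs.1.2 (ball_subset_closedBall h))
  have b := circleIntegral.norm_two_pi_i_inv_smul_integral_le_of_norm_le_const (f := F) (c := 1)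
    (C := M * (2 * I0 + 2 * Real.exp 1 * I0) / (dl / r) ^ 5) hρ.le fun s hs => by
      have h1 : ‖s - 1‖ = dl / r := mem_sphere_iff_norm.1 hs
      have h2 := hM s (mem_closedBall_iff_norm.2 (h1.le.trans hρ'))
      have h3 := normJJ hr h1.le
      simp only [hF]
      rw [norm_div, norm_mul, norm_pow, h1]
      gcongr
  rw [T3, e1, e2]
  refine b.trans (le_of_eq ?_)
  have := dl_pos.ne'
  field_simp

end

end Pool.Agent.Lib.E2
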