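import Pool.Agent.Lib.E2.Blue2

namespace Pool.Agent.Lib.E2

noncomputable section

open MeasureTheory Set Filter Topology
open scoped Real

theorem taub_gb (m : ℕ) (x : ℝ) :
    (1 + |x|) ^ m ≤ Real.exp ((m : ℝ) ^ 2) * Real.exp (x ^ 2 / 4) := by
  have h1 : 1 + |x| ≤ Real.exp |x| := by linarith [Real.add_one_le_exp |x|]
  refine (pow_le_pow_left₀ (by positivity) h1 m).trans ?_
  rw [← Real.exp_nat_mul, ← Real.exp_add, Real.exp_le_exp, ← sq_abs x]
  nlinarith [sq_nonneg ((m : ℝ) - |x| / 2)]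

theorem taub_pb (Q : Polynomial ℝ) {a : ℝ} (ha : 0 < a) :
    ∃ C : ℝ, 0 ≤ C ∧ ∀ y : ℝ, 0 ≤ y → |Q.eval y| ≤ C * Real.exp (a * y) := by
  induction Q using Polynomial.induction_on' with
  | add p q hp hq =>
    obtain ⟨C, h0, hC⟩ := hp
    obtain ⟨D, h1, hD⟩ := hq
    refine ⟨C + D, by positivity, fun y hy => ?_⟩
    rw [Polynomial.eval_add, add_mul]
    exact (abs_add_le _ _).trans (add_le_add (hC y hy) (hD y hy))
  | monomial n c =>
    refine ⟨|c| * (n.factorial / a ^ n), by positivity, fun y hy => ?_⟩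
    rw [Polynomial.eval_monomial, abs_mul, mul_assoc, abs_of_nonneg (pow_nonneg hy n)]
    refine mul_le_mul_of_nonneg_left ?_ (abs_nonneg c)
    have h := Real.pow_div_factorial_le_exp (a * y) (mul_nonneg ha.le hy) n
    rw [div_le_iff₀ (by positivity), mul_pow] at h
    rw [div_mul_eq_mul_div, le_div_iff₀ (by positivity)]
    linarith

theorem taub_var (P : Polynomial ℝ) {a : ℝ} (ha : 0 < a) :
    ∃ C : ℝ, 0 ≤ C ∧ ∀ b t T : ℝ, t ∈ Icc 1 b → T ∈ Icc 1 b →
      |t * P.eval (Real.log t) - T * P.eval (Real.log T)| ≤ C * b ^ a * |t - T| := by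
  obtain ⟨C, h0, hC⟩ := taub_pb (P + Polynomial.derivative P) ha
  refine ⟨C, h0, fun b t T ht hT => ?_⟩
  have hd : ∀ x ∈ Icc 1 b, HasDerivWithinAt (fun t => t * P.eval (Real.log t))
      ((P + Polynomial.derivative P).eval (Real.log x)) (Icc 1 b) x := fun x hx => by
    have hx0 : x ≠ 0 := by linarith [hx.1] |> fun h : 0 < x => h.ne'
    have h1 := (hasDerivAt_id x).fun_mul ((P.hasDerivAt (Real.log x)).comp x (Real.hasDerivAt_log hx0))
    refine (h1.congr_deriv ?_).hasDerivWithinAt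
    simp only [Function.comp, id, Polynomial.eval_add]
    field_simp
  have := (convex_Icc 1 b).norm_image_sub_le_of_norm_hasDerivWithin_le (C := C * b ^ a) hd
    (fun x hx => by
      have hx0 : 0 < x := by linarith [hx.1]
      refine (hC _ (Real.log_nonneg hx.1)).trans (mul_le_mul_of_nonneg_left ?_ h0)
      rw [mul_comm, ← Real.rpow_def_of_pos hx0]
      exact Real.rpow_le_rpow hx0.le hx.2 ha.le) hT ht
  simpa using this

theorem taub_gauss {H : ℝ} (hH : 0 < H) (c : ℝ) :
    Integrable (fun t : ℝ => Real.exp (-(((t - c) / H) ^ 2 / 2))) ∧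
      ∫ t : ℝ, Real.exp (-(((t - c) / H) ^ 2 / 2)) ≤ 3 * H := by
  have e : (fun t : ℝ => Real.exp (-(((t - c) / H) ^ 2 / 2))) =
      fun t => Real.exp (-(1 / (2 * H ^ 2)) * (t - c) ^ 2) := funext fun t => by
    congr 1; field_simp
  have hb : 0 < 1 / (2 * H ^ 2) := by positivity
  rw [e]
  refine ⟨(integrable_exp_neg_mul_sq hb).comp_sub_right c, ?_⟩
  rw [integral_sub_right_eq_self (fun t : ℝ => Real.exp (-(1 / (2 * H ^ 2)) * t ^ 2)) c,
    integral_gaussian]
  refine Real.sqrt_le_iff.2 ⟨by positivity, ?_⟩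
  rw [div_le_iff₀ hb]
  have : (3 * H) ^ 2 * (1 / (2 * H ^ 2)) = 9 / 2 := by field_simp; norm_num
  rw [this]
  linarith [Real.pi_le_four]

theorem taub_core {E : ℝ → ℝ} {v H c A B : ℝ} (hH : 0 < H) (hc : 0 ≤ c) (hv : 0 ≤ v) (hA : 0 ≤ A)
    (hE : ContinuousOn E (Ioi 0))
    (h1 : ∀ t, 0 < t → |E t| ≤ B * Real.exp (((t - c) / H) ^ 2 / 2))
    (h2 : ∀ t, 0 < t → v ≤ E t + A * Real.exp (((t - c) / H) ^ 2 / 2)) :
    v * H ≤ 3 * (∫ t in Ioi (0 : ℝ), E t * Real.exp (-((t - c) / H) ^ 2)) + 9 * A * H := by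
  obtain ⟨g1, g2⟩ := taub_gauss hH c
  have ee : ∀ t : ℝ, Real.exp (((t - c) / H) ^ 2 / 2) * Real.exp (-((t - c) / H) ^ 2) =
      Real.exp (-(((t - c) / H) ^ 2 / 2)) := fun t => by
    rw [← Real.exp_add]; congr 1; ring
  have wc : Continuous fun t : ℝ => Real.exp (-((t - c) / H) ^ 2) := by fun_prop
  have wi : Integrable fun t : ℝ => Real.exp (-((t - c) / H) ^ 2) := by
    refine g1.mono' wc.aestronglyMeasurable (Eventually.of_forall fun t => ?_)
    rw [Real.norm_of_nonneg (Real.exp_pos _).le, Real.exp_le_exp]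
    nlinarith [sq_nonneg ((t - c) / H)]
  have Ei : IntegrableOn (fun t => E t * Real.exp (-((t - c) / H) ^ 2)) (Ioi 0) := by
    refine (g1.const_mul B).integrableOn.mono'
      ((hE.mul wc.continuousOn).aestronglyMeasurable measurableSet_Ioi) ?_
    refine (ae_restrict_iff' measurableSet_Ioi).2 (Eventually.of_forall fun t ht => ?_)
    rw [norm_mul, Real.norm_of_nonneg (Real.exp_pos _).le, ← ee, ← mul_assoc]
    exact mul_le_mul_of_nonneg_right (h1 t ht) (Real.exp_pos _).le
  have k1 : H / 3 ≤ ∫ t in Ioi (0 : ℝ), Real.exp (-((t - c) / H) ^ 2) := by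
    have a1 : ∫ _ in Ioc c (c + H), (1 / 3 : ℝ) ≤ ∫ t in Ioc c (c + H), Real.exp (-((t - c) / H) ^ 2) := by
      refine setIntegral_mono_on (by simp) wi.integrableOn measurableSet_Ioc fun t ht => ?_
      have b1 : ((t - c) / H) ^ 2 ≤ 1 :=
        pow_le_one₀ (div_nonneg (by linarith [ht.1]) hH.le) ((div_le_one hH).2 (by linarith [ht.2]))
      have b2 : Real.exp 1 ≤ 3 := by linarith [Real.exp_one_lt_d9]
      refine le_trans ?_ (Real.exp_le_exp.2 (neg_le_neg b1))
      rw [Real.exp_neg, one_div]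
      exact inv_anti₀ (Real.exp_pos _) b2
    have a2 : ∫ t in Ioc c (c + H), Real.exp (-((t - c) / H) ^ 2) ≤
        ∫ t in Ioi (0 : ℝ), Real.exp (-((t - c) / H) ^ 2) :=
      setIntegral_mono_set wi.integrableOn (Eventually.of_forall fun t => (Real.exp_pos _).le)
        (LE.le.eventuallyLE fun t ht => hc.trans_lt ht.1)
    simp only [integral_const, MeasurableSet.univ, measureReal_restrict_apply, univ_inter,
      Real.volume_real_Ioc, add_sub_cancel_left, max_eq_left hH.le, smul_eq_mul] at a1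
    linarith
  have k2 : ∫ t in Ioi (0 : ℝ), v * Real.exp (-((t - c) / H) ^ 2) ≤
      ∫ t in Ioi (0 : ℝ), (E t * Real.exp (-((t - c) / H) ^ 2) +
        A * Real.exp (-(((t - c) / H) ^ 2 / 2))) := by
    refine setIntegral_mono_on (wi.const_mul v).integrableOn (Ei.add (g1.const_mul A).integrableOn)
      measurableSet_Ioi fun t ht => ?_
    rw [← ee, ← mul_assoc, ← add_mul]
    exact mul_le_mul_of_nonneg_right (h2 t ht) (Real.exp_pos _).le
  rw [integral_add Ei (g1.const_mul A).integrableOn, integral_const_mul, integral_const_mul] at k2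
  have k3 : ∫ t in Ioi (0 : ℝ), Real.exp (-(((t - c) / H) ^ 2 / 2)) ≤ 3 * H :=
    (setIntegral_le_integral g1 (Eventually.of_forall fun t => (Real.exp_pos _).le)).trans g2
  nlinarith [mul_le_mul_of_nonneg_left k1 hv, mul_le_mul_of_nonneg_left k3 hA]

theorem taub_crude {E : ℝ → ℝ} {C₁ C₂ : ℝ} (h1 : ∀ t ∈ Ioc (0 : ℝ) 1, |E t| ≤ C₁ * t ^ (3 / 4 : ℝ))
    (h2 : ∀ t : ℝ, 1 ≤ t → |E t| ≤ C₂ * t ^ 3) :
    ∃ C : ℝ, 0 ≤ C ∧ ∀ t R : ℝ, 0 < t → t ≤ R → 1 ≤ R → |E t| ≤ C * R ^ 3 := by
  refine ⟨|C₁| + |C₂|, by positivity, fun t R ht hR h => ?_⟩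
  have hR3 : 1 ≤ R ^ 3 := one_le_pow₀ h
  have a1 := abs_nonneg C₁
  have a2 := abs_nonneg C₂
  rcases le_total t 1 with h3 | h3
  · have b1 : t ^ (3 / 4 : ℝ) ≤ 1 := Real.rpow_le_one ht.le h3 (by norm_num)
    have b2 : C₁ * t ^ (3 / 4 : ℝ) ≤ |C₁| * 1 :=
      mul_le_mul (le_abs_self _) b1 (Real.rpow_nonneg ht.le _) a1
    nlinarith [h1 t ⟨ht, h3⟩]
  · have b2 : C₂ * t ^ 3 ≤ |C₂| * R ^ 3 :=
      mul_le_mul (le_abs_self _) (pow_le_pow_left₀ ht.le hR 3) (by positivity) a2
    nlinarith [h2 t h3]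

theorem t_taub : T_TAUB := by
  intro hZ hD P K k hK
  have z0 : ∀ t, 0 ≤ z4 t := hZ.2.2.2.2.2.2.2.2.2.2.2.2.1
  obtain ⟨-, -, -, hm, hD⟩ := hD
  obtain ⟨hc, ⟨C₁, h1⟩, ⟨C₂, h2⟩, -⟩ := hD P
  have mono : Monotone mom := monotone_of_deriv_nonneg (fun t => (hm t).differentiableAt)
    fun t => by rw [(hm t).deriv]; exact z0 t
  obtain ⟨C, hC0, hC⟩ := taub_crude h1 h2
  obtain ⟨j, hj⟩ : ∃ j : ℕ, 16 * (k + 1) = j + 4 := ⟨16 * k + 12, by ring⟩
  have hn : (0 : ℝ) < 1 / ((j + 4 : ℕ) : ℝ) := by positivity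
  obtain ⟨V, hV0, hV⟩ := taub_var P hn
  set c₁ := Real.exp (((3 : ℕ) : ℝ) ^ 2) with hc₁
  set c₂ := Real.exp (((3 * (j + 4) : ℕ) : ℝ) ^ 2) with hc₂
  have c1 : 0 < c₁ := Real.exp_pos _
  have c2 : 0 < c₂ := Real.exp_pos _
  set M : ℝ := 3 * (|K| * 2 * 2 ^ (k + 1)) + 9 * (4 * V + 16 * C * c₁ * c₂) with hM
  have main : ∀ s : ℝ, 2 ≤ s → |err P (s ^ (j + 4))| ≤ M * s ^ (j + 2) := fun s hs => by
    have s0 : 0 < s := by linarith
    have s1 : 1 ≤ s := by linarith
    set T := s ^ (j + 4) with hT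
    set H := s ^ j with hH
    have H0 : 0 < H := pow_pos s0 j
    have H1 : 1 ≤ H := one_le_pow₀ s1
    have s3 : 8 ≤ s ^ 3 := by
      have := pow_le_pow_left₀ (by norm_num) hs 3
      linarith
    have TH : T = H * s * s ^ 3 := by rw [hT, hH]; ring
    have Hs : H ≤ H * s := le_mul_of_one_le_right H0.le s1
    have T8 : 8 * (H * s) ≤ T := by
      rw [TH, mul_comm]; exact mul_le_mul_of_nonneg_left s3 (by positivity)
    obtain ⟨u, hu, hu'⟩ : ∃ u : ℝ, (u = 1 ∨ u = -1) ∧ |err P T| = u * err P T := by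
      rcases le_total 0 (err P T) with h | h
      · exact ⟨1, Or.inl rfl, by rw [abs_of_nonneg h, one_mul]⟩
      · exact ⟨-1, Or.inr rfl, by rw [abs_of_nonpos h, neg_one_mul]⟩
    have ua : |u| = 1 := by rcases hu with rfl | rfl <;> simp
    set c := T + u * (H * s) with hcd
    have cl : H ≤ c := by rcases hu with rfl | rfl <;> linarith
    have cu : c ≤ 2 * T := by rcases hu with rfl | rfl <;> linarith
    have crude : ∀ t, 0 < t → |err P t| ≤ 8 * C * c₁ * T ^ 3 * Real.exp (((t - c) / H) ^ 2 / 4) :=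
      fun t ht => by
        have x0 := abs_nonneg ((t - c) / H)
        have a1 : t - c ≤ H * |(t - c) / H| := by
          rw [← div_le_iff₀' H0]; exact le_abs_self _
        have a2 : H * |(t - c) / H| ≤ 2 * T * |(t - c) / H| :=
          mul_le_mul_of_nonneg_right (by linarith) x0
        have a3 := hC t (2 * T * (1 + |(t - c) / H|)) ht (by linarith)
          (one_le_mul_of_one_le_of_one_le (by linarith) (by linarith))
        refine a3.trans ?_
        rw [mul_pow, mul_pow]
        have a4 := mul_le_mul_of_nonneg_left (taub_gb 3 ((t - c) / H))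
          (by positivity : 0 ≤ C * (2 ^ 3 * T ^ 3))
        rw [← hc₁] at a4
        linarith
    have key := taub_core (E := fun t => u * err P t) (v := |err P T|) (H := H) (c := c)
      (A := (4 * V + 16 * C * c₁ * c₂) * s ^ (j + 2)) (B := 8 * C * c₁ * T ^ 3) H0 (by linarith)
      (abs_nonneg _) (by positivity) (continuousOn_const.mul hc)
      (fun t ht => by
        rw [abs_mul, ua, one_mul]
        refine (crude t ht).trans (mul_le_mul_of_nonneg_left (Real.exp_le_exp.2 ?_) (by positivity))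
        nlinarith [sq_nonneg ((t - c) / H)])
      (fun t ht => by
        set x := (t - c) / H with hx
        have e1 : 1 ≤ Real.exp (x ^ 2 / 2) := Real.one_le_exp (by positivity)
        have e2 : 1 ≤ s ^ (j + 2) := one_le_pow₀ s1
        rcases le_total s |x| with h | h
        · have a1 : T ^ 3 ≤ c₂ * Real.exp (x ^ 2 / 4) := by
            refine le_trans ?_ (taub_gb (3 * (j + 4)) x)
            rw [hT, ← pow_mul, mul_comm]
            exact pow_le_pow_left₀ s0.le (by linarith) _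
          have a2 := crude t ht
          have a3 := crude T (by linarith)
          have a4 : Real.exp (((T - c) / H) ^ 2 / 4) ≤ Real.exp (x ^ 2 / 4) := by
            have : (T - c) / H = -(u * s) := by rw [hcd]; field_simp; ring
            rw [this, Real.exp_le_exp, neg_sq, ← sq_abs x, ← sq_abs (u * s), abs_mul, ua, one_mul,
              abs_of_pos s0]
            have := pow_le_pow_left₀ s0.le h 2
            linarith
          have a5 : 8 * C * c₁ * T ^ 3 * Real.exp (x ^ 2 / 4) ≤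
              8 * C * c₁ * c₂ * Real.exp (x ^ 2 / 2) := by
            have : Real.exp (x ^ 2 / 2) = Real.exp (x ^ 2 / 4) * Real.exp (x ^ 2 / 4) := by
              rw [← Real.exp_add]; congr 1; ring
            rw [this]
            have := mul_le_mul_of_nonneg_right (mul_le_mul_of_nonneg_left a1
              (by positivity : 0 ≤ 8 * C * c₁)) (Real.exp_pos (x ^ 2 / 4)).le
            linarith
          have a6 := mul_le_mul_of_nonneg_left a4 (by positivity : 0 ≤ 8 * C * c₁ * T ^ 3)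
          have a7 : -|err P t| ≤ u * err P t := by
            have := neg_abs_le (u * err P t)
            rwa [abs_mul, ua, one_mul] at this
          have a8 : 16 * C * c₁ * c₂ * Real.exp (x ^ 2 / 2) ≤
              (4 * V + 16 * C * c₁ * c₂) * s ^ (j + 2) * Real.exp (x ^ 2 / 2) := by
            refine mul_le_mul_of_nonneg_right ?_ (Real.exp_pos _).le
            exact le_trans (by linarith) (le_mul_of_one_le_right (by positivity) e2)
          linarith
        · have a1 : |t - c| ≤ H * s := by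
            rw [hx, abs_div, abs_of_pos H0, div_le_iff₀' H0] at h; exact h
          obtain ⟨b1, b2⟩ := abs_le.1 a1
          have a2 : |t - T| ≤ 2 * (H * s) := by
            rcases hu with rfl | rfl <;> exact abs_le.2 ⟨by linarith, by linarith⟩
          obtain ⟨b3, b4⟩ := abs_le.1 a2
          have a3 := hV (2 * T) t T ⟨by linarith, by linarith⟩ ⟨by linarith, by linarith⟩
          have a4 : (2 * T) ^ (1 / ((j + 4 : ℕ) : ℝ)) ≤ 2 * s := by
            have : 2 * T ≤ (2 * s) ^ (j + 4) := by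
              rw [mul_pow]
              exact mul_le_mul_of_nonneg_right (le_self_pow₀ one_le_two (by omega)) (by positivity)
            refine (Real.rpow_le_rpow (by linarith) this hn.le).trans (le_of_eq ?_)
            rw [one_div, Real.pow_rpow_inv_natCast (by linarith) (by omega)]
          have a5 : V * (2 * T) ^ (1 / ((j + 4 : ℕ) : ℝ)) * |t - T| ≤ V * (2 * s) * (2 * (H * s)) :=
            mul_le_mul (mul_le_mul_of_nonneg_left a4 hV0) a2 (abs_nonneg _) (by positivity)
          have a6 : V * (2 * s) * (2 * (H * s)) = 4 * V * s ^ (j + 2) := by rw [hH]; ring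
          have a7 : (4 * V + 16 * C * c₁ * c₂) * s ^ (j + 2) ≤
              (4 * V + 16 * C * c₁ * c₂) * s ^ (j + 2) * Real.exp (x ^ 2 / 2) :=
            le_mul_of_one_le_right (by positivity) e1
          have a8 : 0 ≤ 16 * C * c₁ * c₂ * s ^ (j + 2) := by positivity
          obtain ⟨d1, d2⟩ := abs_le.1 a3
          rw [hu']
          unfold err
          rcases hu with rfl | rfl
          · have := mono (show T ≤ t by linarith)
            linarith
          · have := mono (show t ≤ T by linarith)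
            linarith)
    have k1 : ∫ t in Ioi (0 : ℝ), u * err P t * Real.exp (-((t - c) / H) ^ 2) ≤
        |K| * 2 * 2 ^ (k + 1) * s ^ (j + 2) * H := by
      simp only [mul_assoc u]
      rw [integral_const_mul]
      refine (le_abs_self _).trans ?_
      rw [abs_mul, ua, one_mul]
      refine (hK c H H0 cl).trans ?_
      have a1 : √c ≤ 2 * s ^ (8 * (k + 1)) := by
        refine Real.sqrt_le_iff.2 ⟨by positivity, ?_⟩
        have : (2 * s ^ (8 * (k + 1))) ^ 2 = 4 * T := by rw [hT, ← hj]; ring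
        rw [this]; linarith
      have a2 : c / H ≤ 2 * s ^ 4 := by
        rw [div_le_iff₀ H0]
        have : 2 * s ^ 4 * H = 2 * T := by rw [TH]; ring
        linarith
      have a3 : (c / H) ^ (k + 1) ≤ (2 * s ^ 4) ^ (k + 1) :=
        pow_le_pow_left₀ (div_nonneg (by linarith) H0.le) a2 _
      have a4 : s ^ (8 * (k + 1)) * (s ^ 4) ^ (k + 1) ≤ s ^ (j + 2) := by
        rw [← pow_mul, ← pow_add]
        exact pow_le_pow_right₀ s1 (by omega)
      calc K * H * √c * (c / H) ^ (k + 1) ≤ |K| * H * (2 * s ^ (8 * (k + 1))) * (2 * s ^ 4) ^ (k + 1) :=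
            mul_le_mul (mul_le_mul (mul_le_mul_of_nonneg_right (le_abs_self K) H0.le) a1
              (Real.sqrt_nonneg _) (by positivity)) a3
              (pow_nonneg (div_nonneg (by linarith) H0.le) _) (by positivity)
        _ = |K| * 2 * 2 ^ (k + 1) * (s ^ (8 * (k + 1)) * (s ^ 4) ^ (k + 1)) * H := by
            rw [mul_pow]; ring
        _ ≤ _ := mul_le_mul_of_nonneg_right (mul_le_mul_of_nonneg_left a4 (by positivity)) H0.le
    refine le_of_mul_le_mul_right ?_ H0
    rw [hM]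
    linarith
  have lim : Tendsto (fun T : ℝ => T ^ (1 / ((j + 4 : ℕ) : ℝ))) atTop atTop := tendsto_rpow_atTop hn
  have lim2 : Tendsto (fun T : ℝ => M / (T ^ (1 / ((j + 4 : ℕ) : ℝ))) ^ 2) atTop (𝓝 0) :=
    tendsto_const_nhds.div_atTop ((tendsto_pow_atTop two_ne_zero).comp lim)
  refine squeeze_zero_norm' ?_ lim2
  filter_upwards [lim.eventually_ge_atTop 2, eventually_gt_atTop 0] with T h2 h0
  have e : (T ^ (1 / ((j + 4 : ℕ) : ℝ))) ^ (j + 4) = T := by
    rw [one_div, Real.rpow_inv_natCast_pow h0.le (by omega)]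
  have := main _ h2
  rw [e] at this
  set s := T ^ (1 / ((j + 4 : ℕ) : ℝ))
  have s0 : 0 < s := by linarith
  rw [norm_div, Real.norm_eq_abs, Real.norm_of_nonneg h0.le, div_le_div_iff₀ h0 (by positivity)]
  calc |err P T| * s ^ 2 ≤ M * s ^ (j + 2) * s ^ 2 := mul_le_mul_of_nonneg_right this (by positivity)
    _ = M * T := by rw [← e]; ring

end

end Pool.Agent.Lib.E2
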