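import Pool.Agent.Lib.E2.Blue

/-! Elementary bounds for `1 / sinh r` and `cosh r` in the region `Reg`. -/

namespace Pool.Agent.Lib.E2

noncomputable section

open Complex MeasureTheory Set Filter Topology
open scoped Real ComplexConjugate

namespace TH

lemma sinh_re' (r : ℂ) : (sinh r).re = Real.sinh r.re * Real.cos r.im := by
  conv_lhs => rw [← re_add_im r, Complex.sinh_add, Complex.sinh_mul_I, Complex.cosh_mul_I]
  simp [← ofReal_sinh, ← ofReal_cosh, ← ofReal_sin, ← ofReal_cos]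

lemma sinh_im' (r : ℂ) : (sinh r).im = Real.cosh r.re * Real.sin r.im := by
  conv_lhs => rw [← re_add_im r, Complex.sinh_add, Complex.sinh_mul_I, Complex.cosh_mul_I]
  simp [← ofReal_sinh, ← ofReal_cosh, ← ofReal_sin, ← ofReal_cos]

lemma cosh_re' (r : ℂ) : (cosh r).re = Real.cosh r.re * Real.cos r.im := by
  conv_lhs => rw [← re_add_im r, Complex.cosh_add, Complex.sinh_mul_I, Complex.cosh_mul_I]
  simp [← ofReal_sinh, ← ofReal_cosh, ← ofReal_sin, ← ofReal_cos]

lemma cosh_im' (r : ℂ) : (cosh r).im = Real.sinh r.re * Real.sin r.im := by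
  conv_lhs => rw [← re_add_im r, Complex.cosh_add, Complex.sinh_mul_I, Complex.cosh_mul_I]
  simp [← ofReal_sinh, ← ofReal_cosh, ← ofReal_sin, ← ofReal_cos]

lemma nsq_sinh (r : ℂ) : ‖sinh r‖ ^ 2 = Real.sinh r.re ^ 2 + Real.sin r.im ^ 2 := by
  rw [Complex.sq_norm, normSq_apply, sinh_re', sinh_im']
  have h1 := Real.cosh_sq r.re
  have h2 := Real.sin_sq_add_cos_sq r.im
  have h3 : Real.cos r.im ^ 2 = 1 - Real.sin r.im ^ 2 := by linarith
  calc _ = Real.sinh r.re ^ 2 * Real.cos r.im ^ 2 + Real.cosh r.re ^ 2 * Real.sin r.im ^ 2 := by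
        ring
    _ = _ := by rw [h1, h3]; ring

lemma nsq_cosh (r : ℂ) : ‖cosh r‖ ^ 2 = Real.sinh r.re ^ 2 + Real.cos r.im ^ 2 := by
  rw [Complex.sq_norm, normSq_apply, cosh_re', cosh_im']
  have h1 := Real.cosh_sq r.re
  have h2 := Real.sin_sq_add_cos_sq r.im
  have h3 : Real.sin r.im ^ 2 = 1 - Real.cos r.im ^ 2 := by linarith
  calc _ = Real.cosh r.re ^ 2 * Real.cos r.im ^ 2 + Real.sinh r.re ^ 2 * Real.sin r.im ^ 2 := by
        ring
    _ = _ := by rw [h1, h3]; ring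

lemma sandwich {N a t : ℝ} (hN : 0 ≤ N) (ha : 0 ≤ a) (ht : t ^ 2 ≤ 1)
    (h : N ^ 2 = Real.sinh a ^ 2 + t ^ 2) : Real.sinh a ≤ N ∧ N ≤ Real.cosh a := by
  have h1 := Real.cosh_sq a
  have hs : 0 ≤ Real.sinh a := Real.sinh_nonneg_iff.2 ha
  have hc : 0 < Real.cosh a := Real.cosh_pos a
  refine ⟨?_, ?_⟩
  · exact (pow_le_pow_iff_left₀ hs hN two_ne_zero).1 (by nlinarith [sq_nonneg t])
  · exact (pow_le_pow_iff_left₀ hN hc.le two_ne_zero).1 (by nlinarith)

lemma three_le {a : ℝ} (ha : 1 ≤ a) : 3 * Real.exp (-a) ≤ Real.exp a := by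
  have h1 : 2 ≤ Real.exp a := by linarith [Real.add_one_le_exp a]
  have h2 : Real.exp (-a) * Real.exp a = 1 := by rw [← Real.exp_add]; simp
  have h3 := Real.exp_pos (-a)
  nlinarith

lemma facts {a : ℝ} (ha : 1 ≤ a) : 1 ≤ Real.sinh a ∧ Real.exp a / 3 ≤ Real.sinh a ∧
    Real.cosh a ≤ Real.exp a ∧ Real.cosh a ≤ 2 * Real.sinh a := by
  have h3 := three_le ha
  have hp := Real.exp_pos (-a)
  refine ⟨ha.trans (Real.self_le_sinh_iff.2 (by linarith)), ?_, ?_, ?_⟩
  · rw [Real.sinh_eq]; linarith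
  · rw [Real.cosh_eq]; linarith
  · rw [Real.cosh_eq, Real.sinh_eq]; linarith

lemma log_part {r : ℂ} (ha : 1 ≤ r.re) (hb0 : 0 ≤ r.im) (hb : r.im ≤ π / 2) :
    ‖log (th r) - (Real.log 2 - r)‖ ≤ 2 * Real.exp (-2 * r.re) := by
  set w : ℂ := exp (-2 * r) with hw
  have hwn : ‖w‖ = Real.exp (-2 * r.re) := by
    rw [hw, Complex.norm_exp]; simp
  have hw2 : ‖w‖ ≤ 1 / 2 := by
    rw [hwn]
    have h1 : 2 ≤ Real.exp (2 * r.re) := by linarith [Real.add_one_le_exp (2 * r.re)]
    have h2 : Real.exp (-2 * r.re) * Real.exp (2 * r.re) = 1 := by rw [← Real.exp_add]; simp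
    nlinarith [Real.exp_pos (-2 * r.re)]
  have hL : ‖log (1 + -w)‖ ≤ 3 / 2 * ‖-w‖ :=
    norm_log_one_add_half_le_self (by rwa [norm_neg])
  rw [norm_neg] at hL
  have hne : (1 + -w) ≠ 0 := by
    intro h
    have : w = 1 := by linear_combination -h
    rw [this] at hw2
    norm_num at hw2
  have hth : th r = exp (Real.log 2 - r - log (1 + -w)) := by
    rw [exp_sub, exp_sub, exp_log hne, ← ofReal_exp, Real.exp_log two_pos, th]
    have he : exp r ≠ 0 := exp_ne_zero r
    have hs : sinh r = exp r * (1 + -w) / 2 := by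
      have : exp r * w = exp (-r) := by rw [hw, ← exp_add]; ring_nf
      rw [Complex.sinh, ← this]; ring
    rw [hs]
    push_cast
    field_simp
  have him : |(log (1 + -w)).im| ≤ 3 / 4 := (abs_im_le_norm _).trans (by linarith)
  have hpi := Real.pi_gt_three
  rw [abs_le] at him
  have hlog : log (th r) = Real.log 2 - r - log (1 + -w) := by
    rw [hth]
    apply log_exp
    · simp only [sub_im, ofReal_im]; linarith
    · simp only [sub_im, ofReal_im]; linarith
  rw [hlog]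
  have : (Real.log 2 : ℂ) - r - log (1 + -w) - (Real.log 2 - r) = -log (1 + -w) := by ring
  rw [this, norm_neg, ← hwn]
  linarith [norm_nonneg w]

end TH

open TH in
theorem t_th : T_TH := by
  intro e he r hr
  obtain ⟨he0, he1⟩ := he
  obtain ⟨ha, hb0, hb⟩ := hr
  have hpi := Real.pi_gt_three
  obtain ⟨f1, f2, f3, f4⟩ := facts ha
  obtain ⟨s1, s2⟩ := sandwich (norm_nonneg _) (by linarith) (Real.sin_sq_le_one r.im) (nsq_sinh r)
  obtain ⟨c1, c2⟩ := sandwich (norm_nonneg _) (by linarith) (Real.cos_sq_le_one r.im) (nsq_cosh r)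
  have hX : 0 < ‖sinh r‖ := by linarith
  have hcos : e / 2 ≤ Real.cos r.im := by
    have h1 : Real.cos (π / 2 - e) ≤ Real.cos r.im :=
      Real.cos_le_cos_of_nonneg_of_le_pi hb0 (by linarith) hb
    rw [Real.cos_pi_div_two_sub] at h1
    have h2 := Real.sin_gt_sub_cube he0
    have h3 : e ^ 3 ≤ e := by
      have : e ^ 2 ≤ 1 := by nlinarith
      nlinarith
    linarith
  have hn : ‖th r‖ = ‖sinh r‖⁻¹ := by rw [th, norm_inv]
  have hexp : Real.exp (-r.re) = (Real.exp r.re)⁻¹ := Real.exp_neg _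
  have hE := Real.exp_pos r.re
  refine ⟨?_, ?_, ?_, ?_, ?_, ?_, log_part ha hb0 (by linarith), ?_, ?_, by linarith,
    by linarith, ?_⟩
  · show |r.im| < π / 2
    rw [abs_lt]; constructor <;> linarith
  · rw [hn, th, inv_re, sinh_re', ← Complex.sq_norm, le_div_iff₀ (by positivity)]
    have : e / 4 * ‖sinh r‖⁻¹ * ‖sinh r‖ ^ 2 = e / 4 * ‖sinh r‖ := by field_simp
    rw [this]
    nlinarith
  · rw [hn]; positivity
  · rw [hn]; exact inv_le_one_of_one_le₀ (by linarith)
  · rw [hn, hexp]; exact inv_anti₀ hX (by linarith)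
  · rw [hn, hexp]
    have : 3 * (Real.exp r.re)⁻¹ = (Real.exp r.re / 3)⁻¹ := by field_simp
    rw [this]
    exact inv_anti₀ (by positivity) (by linarith)
  · rw [sinh_re']; exact mul_pos (by linarith) (by linarith)
  · rw [sinh_im']
    exact mul_nonneg (Real.cosh_pos _).le (Real.sin_nonneg_of_nonneg_of_le_pi hb0 (by linarith))
  · have h1 := norm_le_abs_re_add_abs_im (log (cosh r))
    rw [log_re, log_im] at h1
    have h2 := abs_arg_le_pi (cosh r)
    have h3 : 0 ≤ Real.log ‖cosh r‖ := Real.log_nonneg (by linarith)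
    have h4 : Real.log ‖cosh r‖ ≤ r.re := by
      rw [Real.log_le_iff_le_exp (by linarith)]; linarith
    rw [abs_of_nonneg h3] at h1
    linarith [Real.pi_lt_four]

end

end Pool.Agent.Lib.E2
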