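import Pool.Agent.Lib.E2.Blue

namespace Pool.Agent.Lib.E2

open Complex MeasureTheory Set Filter Topology
open scoped Real

theorem two_ii {g : ℝ → ℝ} (hg : ContinuousOn g (Ioi 0)) {a b : ℝ} (ha : 0 < a) (hb : 0 < b) :
    IntervalIntegrable g volume a b :=
  (hg.mono fun _ ht => lt_of_lt_of_le (lt_min ha hb) ht.1).intervalIntegrable

/-- from dyadic blocks to the cumulative integral -/
theorem two_cum {g : ℝ → ℝ} (hg : ContinuousOn g (Ioi 0)) (h0 : ∀ t, 0 ≤ g t) {A T2 : ℝ}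
    (hA : 0 ≤ A) (hT2 : 1 ≤ T2)
    (h : ∀ T : ℝ, 1 ≤ T → T ≤ T2 → ∫ t in T..2 * T, g t ≤ A * T ^ (3 / 2 : ℝ))
    {T : ℝ} (h1 : 1 ≤ T) (h2 : T ≤ T2) : ∫ t in (1 : ℝ)..T, g t ≤ A * T ^ (3 / 2 : ℝ) := by
  have base : ∀ T : ℝ, 1 ≤ T → T ≤ 2 → ∫ t in (1 : ℝ)..T, g t ≤ A * T ^ (3 / 2 : ℝ) := by
    intro T h1 h2
    have a := h 1 le_rfl hT2
    rw [Real.one_rpow, mul_one, mul_one] at a
    have b : ∫ t in (1 : ℝ)..T, g t ≤ ∫ t in (1 : ℝ)..2, g t :=
      intervalIntegral.integral_mono_interval le_rfl h1 h2 (ae_of_all _ h0)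
        (two_ii hg one_pos two_pos)
    have c : A * 1 ≤ A * T ^ (3 / 2 : ℝ) :=
      mul_le_mul_of_nonneg_left (Real.one_le_rpow h1 (by norm_num)) hA
    linarith
  have key : ∀ n : ℕ, ∀ T : ℝ, 1 ≤ T → T ≤ T2 → T ≤ 2 ^ n →
      ∫ t in (1 : ℝ)..T, g t ≤ A * T ^ (3 / 2 : ℝ) := by
    intro n
    induction n with
    | zero => exact fun T h1 _ h3 => base T h1 (by norm_num at h3; linarith)
    | succ n ih =>
      intro T h1 h2 h3
      rcases le_total T 2 with h4 | h4
      · exact base T h1 h4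
      · have a := ih (T / 2) (by linarith) (by linarith) (by rw [pow_succ] at h3; linarith)
        have b := h (T / 2) (by linarith) (by linarith)
        rw [show 2 * (T / 2) = T by ring] at b
        rw [← intervalIntegral.integral_add_adjacent_intervals (b := T / 2)
          (two_ii hg one_pos (by linarith)) (two_ii hg (by linarith) (by linarith))]
        have c : 2 * (T / 2) ^ (3 / 2 : ℝ) ≤ T ^ (3 / 2 : ℝ) := by
          rw [Real.div_rpow (by linarith) (by norm_num), mul_div_assoc', div_le_iff₀ (by positivity),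
            mul_comm]
          refine mul_le_mul_of_nonneg_left ?_ (by positivity)
          simpa using Real.rpow_le_rpow_of_exponent_le (x := 2) (y := 1) (z := 3 / 2)
            (by norm_num) (by norm_num)
        have := mul_le_mul_of_nonneg_left c hA
        linarith
  obtain ⟨n, hn⟩ := pow_unbounded_of_one_lt T (one_lt_two (α := ℝ))
  exact key n T h1 h2 hn.le

theorem two_gam {a l : ℝ} (ha : 0 < a) (hl : 0 < l) :
    IntegrableOn (fun t : ℝ => t ^ (a - 1) * Real.exp (-(l * t))) (Ioi 0) := by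
  have := integrableOn_rpow_mul_exp_neg_mul_rpow (s := a - 1) (p := 1) (b := l) (by linarith)
    one_pos hl
  simpa using this

theorem two_gam2 {a l T : ℝ} (ha : 0 < a) (hl : 0 < l) (hT : 1 ≤ T) :
    ∫ t in (1 : ℝ)..T, t ^ (a - 1) * Real.exp (-(l * t)) ≤ Real.Gamma a * l ^ (-a) := by
  rw [intervalIntegral.integral_of_le hT]
  refine (setIntegral_mono_set (two_gam ha hl) ?_ ?_).trans (le_of_eq ?_)
  · filter_upwards [ae_restrict_mem measurableSet_Ioi] with t ht
    have : 0 < t := ht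
    positivity
  · exact (Ioc_subset_Ioi_self.trans (Ioi_subset_Ioi zero_le_one)).eventuallyLE
  · rw [Real.integral_rpow_mul_exp_neg_mul_Ioi ha hl, one_div, Real.inv_rpow hl.le,
      ← Real.rpow_neg hl.le, mul_comm]

/-- integration by parts against the weight -/
theorem two_parts {b : ℝ} (hb : 1 ≤ b) (hb2 : b < 3 / 2) : ∃ K : ℝ, 0 ≤ K ∧ ∀ (g : ℝ → ℝ)
    (A T2 l : ℝ), ContinuousOn g (Ioi 0) → 0 ≤ A → 1 ≤ T2 → 0 < l →
    (∀ T : ℝ, 1 ≤ T → T ≤ T2 → ∫ t in (1 : ℝ)..T, g t ≤ A * T ^ (3 / 2 : ℝ)) →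
    ∫ t in (1 : ℝ)..T2, g t * (t ^ (-b) * Real.exp (-(l * t))) ≤ K * A * l ^ (b - 3 / 2) := by
  set a := 3 / 2 - b with ha
  have a0 : 0 < a := by linarith
  have g1 := (Real.Gamma_pos_of_pos a0).le
  have g2 := (Real.Gamma_pos_of_pos (show 0 < a + 1 by linarith)).le
  refine ⟨1 + b * Real.Gamma a + Real.Gamma (a + 1), by positivity,
    fun g A T2 l hg hA hT hl h => ?_⟩
  have pos : ∀ t ∈ uIcc (1 : ℝ) T2, 0 < t := fun t ht => by
    rw [uIcc_of_le hT] at ht; linarith [ht.1]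
  have d1 : ∀ t ∈ uIcc (1 : ℝ) T2, HasDerivAt (fun t : ℝ => t ^ (-b) * Real.exp (-(l * t)))
      (-(b * t ^ (-b - 1) * Real.exp (-(l * t)) + l * t ^ (-b) * Real.exp (-(l * t)))) t := by
    intro t ht
    have := (Real.hasDerivAt_rpow_const (p := -b) (Or.inl (pos t ht).ne')).mul
      (((hasDerivAt_id t).const_mul l).neg.exp)
    refine this.congr_deriv ?_
    simp only [id, Pi.neg_apply]
    ring
  have d2 : ∀ t ∈ uIcc (1 : ℝ) T2, HasDerivAt (fun T : ℝ => ∫ t in (1 : ℝ)..T, g t) (g t) t :=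
    fun t ht => intervalIntegral.integral_hasDerivAt_right (two_ii hg one_pos (pos t ht))
      (hg.stronglyMeasurableAtFilter isOpen_Ioi t (pos t ht))
      (hg.continuousAt (Ioi_mem_nhds (pos t ht)))
  have c1 : ∀ p : ℝ, ContinuousOn (fun t : ℝ => t ^ p) (Ioi 0) := fun p =>
    continuousOn_id.rpow_const fun t ht => Or.inl (ne_of_gt ht)
  have c2 : ContinuousOn (fun t : ℝ => Real.exp (-(l * t))) (Ioi 0) := by fun_prop
  have c3 : ContinuousOn (fun t : ℝ =>
      b * t ^ (-b - 1) * Real.exp (-(l * t)) + l * t ^ (-b) * Real.exp (-(l * t))) (Ioi 0) :=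
    (((c1 _).const_smul b).mul c2).add (((c1 _).const_smul l).mul c2)
  have T0 : 0 < T2 := by linarith
  have e := intervalIntegral.integral_mul_deriv_eq_deriv_mul d1 d2
    (two_ii c3.neg one_pos T0) (two_ii hg one_pos T0)
  simp only [mul_comm (g _)]
  rw [e, intervalIntegral.integral_same, mul_zero, sub_zero]
  have b1 : T2 ^ (-b) * Real.exp (-(l * T2)) * ∫ t in (1 : ℝ)..T2, g t ≤ A * l ^ (-a) := by
    have q : (l * T2) ^ a ≤ Real.exp (l * T2) := by
      have x0 : 0 < l * T2 := by positivity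
      rcases le_total (l * T2) 1 with x1 | x1
      · exact (Real.rpow_le_one x0.le x1 a0.le).trans (Real.one_le_exp x0.le)
      · refine (Real.rpow_le_rpow_of_exponent_le x1 (show a ≤ 1 by linarith)).trans ?_
        rw [Real.rpow_one]; linarith [Real.add_one_le_exp (l * T2)]
    have q2 : T2 ^ a * Real.exp (-(l * T2)) ≤ l ^ (-a) := by
      rw [Real.mul_rpow hl.le T0.le] at q
      rw [Real.exp_neg, Real.rpow_neg hl.le, ← div_eq_mul_inv, ← one_div,
        div_le_div_iff₀ (Real.exp_pos _) (by positivity)]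
      linarith
    calc _ ≤ T2 ^ (-b) * Real.exp (-(l * T2)) * (A * T2 ^ (3 / 2 : ℝ)) :=
          mul_le_mul_of_nonneg_left (h T2 hT le_rfl) (by positivity)
      _ = A * (T2 ^ a * Real.exp (-(l * T2))) := by
          rw [show a = -b + 3 / 2 by linarith, Real.rpow_add T0]; ring
      _ ≤ _ := mul_le_mul_of_nonneg_left q2 hA
  have cG : ContinuousOn (fun T : ℝ => ∫ t in (1 : ℝ)..T, g t) (uIcc 1 T2) :=
    fun t ht => (d2 t ht).continuousAt.continuousWithinAt
  have i1 : IntervalIntegrable (fun t : ℝ => t ^ (a - 1) * Real.exp (-(l * t))) volume 1 T2 :=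
    two_ii ((c1 (a - 1)).mul c2) one_pos T0
  have i2 : IntervalIntegrable (fun t : ℝ => t ^ (a + 1 - 1) * Real.exp (-(l * t))) volume 1 T2 :=
    two_ii ((c1 (a + 1 - 1)).mul c2) one_pos T0
  have b2 : -∫ t in (1 : ℝ)..T2, -(b * t ^ (-b - 1) * Real.exp (-(l * t)) +
      l * t ^ (-b) * Real.exp (-(l * t))) * ∫ s in (1 : ℝ)..t, g s ≤
      ∫ t in (1 : ℝ)..T2, (A * b * (t ^ (a - 1) * Real.exp (-(l * t))) +
        A * l * (t ^ (a + 1 - 1) * Real.exp (-(l * t)))) := by
    rw [← intervalIntegral.integral_neg]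
    refine intervalIntegral.integral_mono_on hT
      ((((c3.mono pos).neg.mul cG).neg).intervalIntegrable) ((i1.const_mul _).add (i2.const_mul _))
      fun t ht => ?_
    have t0 : 0 < t := by linarith [ht.1]
    have e1 : t ^ (a - 1) = t ^ (-b - 1) * t ^ (3 / 2 : ℝ) := by
      rw [← Real.rpow_add t0]; congr 1; linarith
    have e2 : t ^ (a + 1 - 1) = t ^ (-b) * t ^ (3 / 2 : ℝ) := by
      rw [← Real.rpow_add t0]; congr 1; linarith
    have := mul_le_mul_of_nonneg_left (h t ht.1 ht.2) (show 0 ≤ b * t ^ (-b - 1) *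
      Real.exp (-(l * t)) + l * t ^ (-b) * Real.exp (-(l * t)) by positivity)
    rw [e1, e2]
    linarith
  rw [intervalIntegral.integral_add (i1.const_mul _) (i2.const_mul _),
    intervalIntegral.integral_const_mul, intervalIntegral.integral_const_mul] at b2
  have b3 := mul_le_mul_of_nonneg_left (two_gam2 a0 hl hT) (show 0 ≤ A * b by positivity)
  have b4 := mul_le_mul_of_nonneg_left (two_gam2 (show 0 < a + 1 by linarith) hl hT)
    (show 0 ≤ A * l by positivity)
  have e3 : l * l ^ (-(a + 1)) = l ^ (-a) := by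
    rw [← Real.rpow_one_add' hl.le (by linarith)]; congr 1; ring
  have e4 : A * l * (Real.Gamma (a + 1) * l ^ (-(a + 1))) = A * Real.Gamma (a + 1) * l ^ (-a) := by
    rw [← e3]; ring
  rw [show b - 3 / 2 = -a by linarith]
  linarith

/-- growth conditions at `0` and at infinity -/
def two_Gr (g : ℝ → ℝ) (C : ℝ) : Prop := ContinuousOn g (Ioi 0) ∧ (∀ t, 0 ≤ g t) ∧
  (∀ t ∈ Ioc (0 : ℝ) 1, g t ≤ C * t ^ (3 / 4 : ℝ)) ∧ ∀ t : ℝ, 1 ≤ t → g t ≤ C * t

theorem two_wt {g : ℝ → ℝ} {C b l T2 : ℝ} (hg : two_Gr g C) (hb : 1 ≤ b) (hb2 : b ≤ 5 / 4)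
    (hl : 0 < l) (hT : 1 ≤ T2) :
    IntegrableOn (fun t => g t * (t ^ (-b) * Real.exp (-(l * t)))) (Ioi 0) ∧
    (1 ≤ l ^ 2 * T2 → ∫ t in Ioi (0 : ℝ), g t * (t ^ (-b) * Real.exp (-(l * t))) ≤
      3 * C + ∫ t in (1 : ℝ)..T2, g t * (t ^ (-b) * Real.exp (-(l * t)))) := by
  obtain ⟨h1, h2, h3, h4⟩ := hg
  have hC : 0 ≤ C := by simpa using (h2 1).trans (h4 1 le_rfl)
  set f : ℝ → ℝ := fun t => g t * (t ^ (-b) * Real.exp (-(l * t))) with hf
  have cf : ContinuousOn f (Ioi 0) := h1.mul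
    ((continuousOn_id.rpow_const fun t ht => Or.inl (ne_of_gt ht)).mul (by fun_prop))
  have f0 : ∀ t, 0 < t → 0 ≤ f t := fun t ht => mul_nonneg (h2 t) (by positivity)
  have m1 : IntegrableOn (fun t : ℝ => C * t ^ (-(1 / 2) : ℝ)) (Ioc 0 1) :=
    ((intervalIntegrable_iff_integrableOn_Ioc_of_le zero_le_one).1
      (intervalIntegral.intervalIntegrable_rpow' (by norm_num))).const_mul C
  have p1 : ∀ t ∈ Ioc (0 : ℝ) 1, f t ≤ C * t ^ (-(1 / 2) : ℝ) := fun t ht => by
    have t0 := ht.1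
    have a : Real.exp (-(l * t)) ≤ 1 := Real.exp_le_one_iff.2 (by nlinarith)
    have c : t ^ (3 / 4 : ℝ) * t ^ (-b) ≤ t ^ (-(1 / 2) : ℝ) := by
      rw [← Real.rpow_add t0]
      exact Real.rpow_le_rpow_of_exponent_ge t0 ht.2 (by linarith)
    calc f t ≤ C * t ^ (3 / 4 : ℝ) * (t ^ (-b) * 1) := by
          simp only [hf]; gcongr; exact h3 t ht
      _ = C * (t ^ (3 / 4 : ℝ) * t ^ (-b)) := by ring
      _ ≤ _ := by gcongr
  have p2 : ∀ t : ℝ, 1 ≤ t → f t ≤ C * Real.exp (-l * t) := fun t ht => by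
    have t0 : 0 < t := by linarith
    have c : t * t ^ (-b) ≤ 1 := by
      rw [Real.rpow_neg t0.le, ← div_eq_mul_inv, div_le_one (by positivity)]
      simpa using Real.rpow_le_rpow_of_exponent_le ht hb
    calc f t ≤ C * t * (t ^ (-b) * Real.exp (-(l * t))) := by
          simp only [hf]; gcongr; exact h4 t ht
      _ = C * (t * t ^ (-b)) * Real.exp (-l * t) := by rw [neg_mul]; ring
      _ ≤ C * 1 * Real.exp (-l * t) := by gcongr
      _ = _ := by ring
  have m2 : ∀ T : ℝ, IntegrableOn (fun t : ℝ => C * Real.exp (-l * t)) (Ioi T) := fun T =>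
    (exp_neg_integrableOn_Ioi T hl).const_mul C
  have i1 : IntegrableOn f (Ioc 0 1) := by
    refine m1.mono' ((cf.mono Ioc_subset_Ioi_self).aestronglyMeasurable measurableSet_Ioc) ?_
    filter_upwards [ae_restrict_mem measurableSet_Ioc] with t ht
    rw [Real.norm_of_nonneg (f0 t ht.1)]; exact p1 t ht
  have i2 : ∀ T : ℝ, 1 ≤ T → IntegrableOn f (Ioi T) := fun T hT => by
    refine (m2 T).mono' ((cf.mono (Ioi_subset_Ioi (by linarith))).aestronglyMeasurable
      measurableSet_Ioi) ?_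
    filter_upwards [ae_restrict_mem measurableSet_Ioi] with t ht
    have : T < t := ht
    rw [Real.norm_of_nonneg (f0 t (by linarith))]; exact p2 t (by linarith)
  have i0 : IntegrableOn f (Ioi 0) := by
    rw [← Ioc_union_Ioi_eq_Ioi (zero_le_one (α := ℝ))]
    exact i1.union (i2 1 le_rfl)
  refine ⟨i0, fun hl2 => ?_⟩
  have s1 : ∫ t in Ioi (0 : ℝ), f t = (∫ t in Ioc (0 : ℝ) 1, f t) + ∫ t in Ioi (1 : ℝ), f t := by
    rw [← setIntegral_union Ioc_disjoint_Ioi_same measurableSet_Ioi i1 (i2 1 le_rfl),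
      Ioc_union_Ioi_eq_Ioi zero_le_one]
  have s2 : ∫ t in Ioi (1 : ℝ), f t = (∫ t in (1 : ℝ)..T2, f t) + ∫ t in Ioi T2, f t := by
    rw [intervalIntegral.integral_of_le hT, ← setIntegral_union Ioc_disjoint_Ioi_same
      measurableSet_Ioi ((i2 1 le_rfl).mono_set Ioc_subset_Ioi_self) (i2 T2 hT),
      Ioc_union_Ioi_eq_Ioi hT]
  have b1 : ∫ t in Ioc (0 : ℝ) 1, f t ≤ 2 * C := by
    refine (setIntegral_mono_on i1 m1 measurableSet_Ioc p1).trans (le_of_eq ?_)
    rw [integral_const_mul, ← intervalIntegral.integral_of_le zero_le_one,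
      integral_rpow (Or.inl (by norm_num))]
    norm_num [mul_comm]
  have b2 : ∫ t in Ioi T2, f t ≤ C := by
    refine (setIntegral_mono_on (i2 T2 hT) (m2 T2) measurableSet_Ioi
      fun t ht => p2 t (hT.trans (le_of_lt ht))).trans ?_
    rw [integral_const_mul, integral_exp_mul_Ioi (by linarith)]
    refine mul_le_of_le_one_right hC ?_
    rw [neg_div_neg_eq, div_le_one hl, neg_mul, Real.exp_neg, inv_le_comm₀ (Real.exp_pos _) hl]
    have : l⁻¹ ≤ l * T2 := by rw [inv_le_iff_one_le_mul₀ hl]; nlinarith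
    linarith [Real.add_one_le_exp (l * T2)]
  rw [s1, s2]
  linarith

/-- the bound against the kernel -/
theorem two_ker (hKB : St_KB) : ∃ K : ℝ, 0 ≤ K ∧ ∀ (g : ℝ → ℝ) (C e : ℝ) (z : ℂ), two_Gr g C →
    0 < e → e ≤ 1 → 0 < ‖z‖ → ‖z‖ ≤ 1 → e * ‖z‖ ≤ z.re →
    IntegrableOn (fun t : ℝ => g t * ‖z ^ 2 * deriv Wf (z * t)‖) (Ioi 0) ∧
    ∀ A T2 : ℝ, 0 ≤ A → 1 ≤ T2 → 1 ≤ (2 * z.re) ^ 2 * T2 →
      (∀ T : ℝ, 1 ≤ T → T ≤ T2 → ∫ t in T..2 * T, g t ≤ A * T ^ (3 / 2 : ℝ)) →
      ∫ t in Ioi (0 : ℝ), g t * ‖z ^ 2 * deriv Wf (z * t)‖ ≤ K * (C + A) * √‖z‖ / √e := by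
  obtain ⟨-, hW, -, ⟨C1, h1⟩, -⟩ := hKB
  obtain ⟨K1, k1, p1⟩ := two_parts (b := 1) le_rfl (by norm_num)
  obtain ⟨K2, k2, p2⟩ := two_parts (b := 5 / 4) (by norm_num) (by norm_num)
  refine ⟨|C1| * (6 + K1 + K2), by positivity, fun g C e z hg he he1 z0 z1 z2 => ?_⟩
  set s := ‖z‖ with hs
  have zr : 0 < z.re := lt_of_lt_of_le (by positivity) z2
  set l := 2 * z.re with hl
  have l0 : 0 < l := by positivity
  have hC : 0 ≤ C := by simpa using (hg.2.1 1).trans (hg.2.2.2 1 le_rfl)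
  have ho : IsOpen {z : ℂ | 0 < z.re} := isOpen_lt continuous_const continuous_re
  have cW : ContinuousOn (fun t : ℝ => g t * ‖z ^ 2 * deriv Wf (z * t)‖) (Ioi 0) := by
    refine hg.1.mul (ContinuousOn.norm (continuousOn_const.mul ?_))
    refine (hW.deriv ho).continuousOn.comp (by fun_prop) fun t ht => ?_
    have : 0 < t := ht
    simp only [mem_ofPred_eq, mul_re, ofReal_re, ofReal_im, mul_zero, sub_zero]
    positivity
  set f1 : ℝ → ℝ := fun t => g t * (t ^ (-1 : ℝ) * Real.exp (-(l * t))) with hf1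
  set f2 : ℝ → ℝ := fun t => g t * (t ^ (-(5 / 4) : ℝ) * Real.exp (-(l * t))) with hf2
  have pw : ∀ t : ℝ, 0 < t → g t * ‖z ^ 2 * deriv Wf (z * t)‖ ≤
      |C1| * s * f1 t + |C1| * s ^ (3 / 4 : ℝ) * f2 t := by
    intro t t0
    have a := h1 (z * t) (by simp only [mul_re, ofReal_re, ofReal_im, mul_zero, sub_zero]; positivity)
    have n : ‖z * t‖ = s * t := by rw [norm_mul, norm_real, Real.norm_of_nonneg t0.le]
    have r : -2 * (z * t).re = -(l * t) := by
      simp only [mul_re, ofReal_re, ofReal_im, mul_zero, sub_zero, hl]; ring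
    rw [n, r, Real.mul_rpow z0.le t0.le, Real.mul_rpow z0.le t0.le] at a
    have e1 : s ^ 2 * s ^ (-1 : ℝ) = s := by rw [Real.rpow_neg_one]; field_simp
    have e2 : s ^ 2 * s ^ (-(5 / 4) : ℝ) = s ^ (3 / 4 : ℝ) := by
      rw [← Real.rpow_natCast, ← Real.rpow_add z0]; norm_num
    have g0 := hg.2.1 t
    rw [norm_mul, norm_pow]
    calc g t * (s ^ 2 * ‖deriv Wf (z * t)‖)
        ≤ g t * (s ^ 2 * (|C1| * (s ^ (-1 : ℝ) * t ^ (-1 : ℝ) +
          s ^ (-(5 / 4) : ℝ) * t ^ (-(5 / 4) : ℝ)) * Real.exp (-(l * t)))) := by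
          gcongr
          refine a.trans ?_
          gcongr
          exact le_abs_self _
      _ = |C1| * (s ^ 2 * s ^ (-1 : ℝ)) * f1 t + |C1| * (s ^ 2 * s ^ (-(5 / 4) : ℝ)) * f2 t := by
          simp only [hf1, hf2]; ring
      _ = _ := by rw [e1, e2]
  have i1 : IntegrableOn f1 (Ioi 0) := (two_wt hg le_rfl (by norm_num) l0 le_rfl).1
  have i2 : IntegrableOn f2 (Ioi 0) := (two_wt hg (by norm_num) le_rfl l0 le_rfl).1
  have i3 := (i1.const_mul (|C1| * s)).add (i2.const_mul (|C1| * s ^ (3 / 4 : ℝ)))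
  have i0 : IntegrableOn (fun t : ℝ => g t * ‖z ^ 2 * deriv Wf (z * t)‖) (Ioi 0) := by
    refine i3.mono' (cW.aestronglyMeasurable measurableSet_Ioi) ?_
    filter_upwards [ae_restrict_mem measurableSet_Ioi] with t ht
    rw [Real.norm_of_nonneg (mul_nonneg (hg.2.1 t) (norm_nonneg _))]
    exact pw t ht
  refine ⟨i0, fun A T2 hA hT hl2 h => ?_⟩
  have cum := fun T a b => two_cum hg.1 hg.2.1 hA hT h (T := T) a b
  have b1 : ∫ t in Ioi (0 : ℝ), f1 t ≤ 3 * C + K1 * A * l ^ (1 - 3 / 2 : ℝ) :=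
    ((two_wt hg le_rfl (by norm_num) l0 hT).2 hl2).trans
      (add_le_add le_rfl (p1 g A T2 l hg.1 hA hT l0 cum))
  have b2 : ∫ t in Ioi (0 : ℝ), f2 t ≤ 3 * C + K2 * A * l ^ (5 / 4 - 3 / 2 : ℝ) :=
    ((two_wt hg (by norm_num) le_rfl l0 hT).2 hl2).trans
      (add_le_add le_rfl (p2 g A T2 l hg.1 hA hT l0 cum))
  refine (setIntegral_mono_on i0 i3 measurableSet_Ioi pw).trans ?_
  rw [integral_add' (i1.const_mul _) (i2.const_mul _), integral_const_mul, integral_const_mul]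
  set y := √s / √e with hy
  have ey : y = s ^ (1 / 2 : ℝ) * e ^ (-(1 / 2) : ℝ) := by
    rw [hy, Real.sqrt_eq_rpow, Real.sqrt_eq_rpow, Real.rpow_neg he.le, div_eq_mul_inv]
  have es : 0 < e * s := by positivity
  have e0 : 1 ≤ e ^ (-(1 / 2) : ℝ) :=
    Real.one_le_rpow_of_pos_of_le_one_of_nonpos he he1 (by norm_num)
  have q0 : s ^ (1 / 2 : ℝ) ≤ y := by
    rw [ey]; exact le_mul_of_one_le_right (by positivity) e0
  have q1 : s ^ (3 / 4 : ℝ) ≤ y :=
    (Real.rpow_le_rpow_of_exponent_ge z0 z1 (by norm_num)).trans q0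
  have q2 : s ≤ y := by
    refine le_trans ?_ q0
    simpa using Real.rpow_le_rpow_of_exponent_ge z0 z1 (show (1 / 2 : ℝ) ≤ 1 by norm_num)
  have q3 : s * l ^ (1 - 3 / 2 : ℝ) ≤ y := by
    have : l ^ (1 - 3 / 2 : ℝ) ≤ (e * s) ^ (1 - 3 / 2 : ℝ) :=
      Real.rpow_le_rpow_of_nonpos es (by linarith) (by norm_num)
    refine (mul_le_mul_of_nonneg_left this z0.le).trans (le_of_eq ?_)
    rw [Real.mul_rpow he.le z0.le, ey, mul_left_comm, ← Real.rpow_one_add' z0.le (by norm_num),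
      mul_comm]
    norm_num
  have q4 : s ^ (3 / 4 : ℝ) * l ^ (5 / 4 - 3 / 2 : ℝ) ≤ y := by
    have : l ^ (5 / 4 - 3 / 2 : ℝ) ≤ (e * s) ^ (5 / 4 - 3 / 2 : ℝ) :=
      Real.rpow_le_rpow_of_nonpos es (by linarith) (by norm_num)
    refine (mul_le_mul_of_nonneg_left this (by positivity)).trans ?_
    rw [Real.mul_rpow he.le z0.le, ey, mul_left_comm, ← Real.rpow_add z0, mul_comm,
      show (3 / 4 + (5 / 4 - 3 / 2) : ℝ) = 1 / 2 by norm_num]
    exact mul_le_mul_of_nonneg_left (Real.rpow_le_rpow_of_exponent_ge he he1 (by norm_num))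
      (by positivity)
  have y0 : 0 ≤ y := by positivity
  have c1 := mul_le_mul_of_nonneg_left b1 z0.le
  have c2 := mul_le_mul_of_nonneg_left b2 (show 0 ≤ s ^ (3 / 4 : ℝ) by positivity)
  have d1 := mul_le_mul_of_nonneg_left q1 hC
  have d2 := mul_le_mul_of_nonneg_left q2 hC
  have d3 := mul_le_mul_of_nonneg_left q3 (mul_nonneg k1 hA)
  have d4 := mul_le_mul_of_nonneg_left q4 (mul_nonneg k2 hA)
  have d5 : 0 ≤ (K1 * C + K2 * C + 6 * A) * y := by positivity
  have fin : s * (∫ t in Ioi (0 : ℝ), f1 t) + s ^ (3 / 4 : ℝ) * (∫ t in Ioi (0 : ℝ), f2 t) ≤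
      (6 + K1 + K2) * (C + A) * y := by linarith
  have := mul_le_mul_of_nonneg_left fin (abs_nonneg C1)
  rw [mul_div_assoc, ← hy]
  linarith

theorem two_min (hKB : St_KB) : ∃ w : ℝ, 0 < w ∧ ∀ x ∈ Icc (1 : ℝ) 2, w ≤ ‖deriv Wf x‖ := by
  obtain ⟨-, hW, -, -, h2⟩ := hKB
  have ho : IsOpen {z : ℂ | 0 < z.re} := isOpen_lt continuous_const continuous_re
  have c : ContinuousOn (fun x : ℝ => ‖deriv Wf x‖) (Icc 1 2) :=
    ((hW.deriv ho).continuousOn.comp (by fun_prop) fun x hx => by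
      simp only [mem_ofPred_eq, ofReal_re]; linarith [hx.1]).norm
  obtain ⟨x, hx, h⟩ := isCompact_Icc.exists_isMinOn (nonempty_Icc.2 one_le_two) c
  refine ⟨_, norm_pos_iff.2 fun h0 => ?_, fun y hy => h hy⟩
  have := (h2 x (by linarith [hx.1])).2
  rw [h0] at this
  simp at this

theorem t_two : T_TWO := by
  rintro hKB hDY P u hP hu ⟨C3, x0, hx0, h3⟩
  obtain ⟨K, hK, hk⟩ := two_ker hKB
  obtain ⟨w, hw, hmin⟩ := two_min hKB
  obtain ⟨cE, ⟨Ca, ha⟩, -, hb⟩ := hDY.2.2.2.2 P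
  obtain ⟨Cb, hb⟩ := hb hP
  set C := |Ca| + |Cb| with hC
  have hC0 : 0 ≤ C := by positivity
  have gE : two_Gr (fun t => |err P t|) C := ⟨cE.abs, fun t => abs_nonneg _, fun t ht =>
    (ha t ht).trans (mul_le_mul_of_nonneg_right
      (by linarith [le_abs_self Ca, abs_nonneg Cb]) (Real.rpow_nonneg ht.1.le _)),
    fun t ht => (hb t ht).trans (mul_le_mul_of_nonneg_right
      (by linarith [le_abs_self Cb, abs_nonneg Ca]) (by linarith))⟩
  have ua : ∀ t, |u * err P t| = |err P t| := fun t => by rcases hu with rfl | rfl <;> simp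
  have ul : ∀ t, max (u * err P t) 0 ≤ |err P t| := fun t =>
    max_le ((le_abs_self _).trans (ua t).le) (abs_nonneg _)
  have gP : two_Gr (fun t => max (u * err P t) 0) C :=
    ⟨(continuousOn_const.mul cE).sup continuousOn_const, fun t => le_max_right _ _,
      fun t ht => (ul t).trans (gE.2.2.1 t ht), fun t ht => (ul t).trans (gE.2.2.2 t ht)⟩
  set K1 : ℝ := (2 * K * (C + 1) + |C3|) / w + 2 * C / x0 with hK1
  have k1 : 0 ≤ K1 := by positivity
  refine ⟨K * (C + K1), fun A T1 e z hA hT1 hyp he he1 z1 z2 z3 => ?_⟩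
  have step : ∀ T : ℝ, 1 ≤ T → T ≤ √T1 →
      ∫ t in T..2 * T, |err P t| ≤ K1 * A * T ^ (3 / 2 : ℝ) := by
    intro T hT hTT
    have T0 : 0 < T := by linarith
    have e32 : T ^ (3 / 2 : ℝ) = T * √T := by
      rw [Real.sqrt_eq_rpow, ← Real.rpow_one_add' T0.le (by norm_num)]; norm_num
    have sT : 1 ≤ √T := Real.one_le_sqrt.2 hT
    rcases le_or_gt (1 / T) x0 with hx | hx
    · set x := 1 / T with hxd
      have x1 : 0 < x := by positivity
      have x2 : x ≤ 1 := by rw [hxd, div_le_one T0]; exact hT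
      have nx : ‖(x : ℂ)‖ = x := by rw [norm_real, Real.norm_of_nonneg x1.le]
      set v : ℝ → ℝ := fun t => ‖(x : ℂ) ^ 2 * deriv Wf (x * t)‖ with hv
      obtain ⟨iE, -⟩ := hk _ C 1 x gE one_pos le_rfl (by rw [nx]; exact x1) (by rw [nx]; exact x2)
        (by rw [nx]; simp)
      obtain ⟨iP, bP⟩ := hk _ C 1 x gP one_pos le_rfl (by rw [nx]; exact x1) (by rw [nx]; exact x2)
        (by rw [nx]; simp)
      have bP := bP A T1 (by linarith) hT1 (by
        have : T ^ 2 ≤ T1 := (Real.le_sqrt T0.le (by linarith)).1 hTT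
        have e : (2 * x) ^ 2 * T ^ 2 = 4 := by rw [hxd]; field_simp; norm_num
        have := mul_le_mul_of_nonneg_left this (sq_nonneg (2 * x))
        rw [ofReal_re]; linarith) hyp
      rw [nx, Real.sqrt_one, div_one] at bP
      have hET : ET P x = ((-∫ t in Ioi (0 : ℝ), err P t * v t : ℝ) : ℂ) := by
        rw [← integral_neg, ← integral_complex_ofReal, ET]
        refine setIntegral_congr_fun measurableSet_Ioi fun t ht => ?_
        have t0 : 0 < t := ht
        obtain ⟨a, b⟩ := hKB.2.2.2.2 (x * t) (by positivity)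
        have e1 : deriv Wf (x * t) = ((deriv Wf (x * t)).re : ℂ) := by
          apply Complex.ext <;> simp_all
        rw [ofReal_mul] at b
        simp only [hv]
        rw [e1, ← ofReal_pow, ← ofReal_mul, norm_real, Real.norm_of_nonpos (by nlinarith)]
        simp
      have a1 : ∫ t in Ioi (0 : ℝ), u * err P t * v t =
          2 * (∫ t in Ioi (0 : ℝ), max (u * err P t) 0 * v t) -
            ∫ t in Ioi (0 : ℝ), |err P t| * v t := by
        rw [← integral_const_mul, ← integral_sub (iP.const_mul 2) iE]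
        refine setIntegral_congr_fun measurableSet_Ioi fun t _ => ?_
        rw [← ua t]
        rcases le_total (u * err P t) 0 with h | h
        · rw [max_eq_right h, abs_of_nonpos h]; ring
        · rw [max_eq_left h, abs_of_nonneg h]; ring
      have a2 : |∫ t in Ioi (0 : ℝ), u * err P t * v t| ≤ |C3| * √x := by
        have := h3 x x1 hx
        rw [hET, norm_real, norm_neg, Real.norm_eq_abs] at this
        simp only [mul_assoc]
        rw [integral_const_mul, abs_mul, show |u| = 1 by rcases hu with rfl | rfl <;> simp, one_mul]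
        exact this.trans (mul_le_mul_of_nonneg_right (le_abs_self _) (Real.sqrt_nonneg _))
      have a3 : x ^ 2 * w * ∫ t in T..2 * T, |err P t| ≤ ∫ t in Ioi (0 : ℝ), |err P t| * v t := by
        rw [← intervalIntegral.integral_const_mul, intervalIntegral.integral_of_le (by linarith)]
        have sub : Ioc T (2 * T) ⊆ Ioi 0 := fun t ht => T0.trans ht.1
        refine le_trans (setIntegral_mono_on ?_ (iE.mono_set sub) measurableSet_Ioc fun t ht => ?_)
          (setIntegral_mono_set iE (ae_of_all _ fun t => by positivity) sub.eventuallyLE)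
        · exact ((two_ii cE.abs T0 (by linarith)).const_mul _).1
        · rw [mul_comm]
          refine mul_le_mul_of_nonneg_left ?_ (abs_nonneg _)
          have := hmin (x * t) ⟨by rw [hxd, one_div_mul_eq_div, le_div_iff₀ T0]; linarith [ht.1],
            by rw [hxd, one_div_mul_eq_div, div_le_iff₀ T0]; linarith [ht.2]⟩
          rw [norm_mul, norm_pow, nx, ← ofReal_mul]
          gcongr
      have a4 : √x = x ^ 2 * T ^ (3 / 2 : ℝ) := by
        rw [e32, hxd, one_div, Real.sqrt_inv]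
        field_simp
        exact (Real.sq_sqrt T0.le).symm
      have a5 : x ^ 2 * w * ∫ t in T..2 * T, |err P t| ≤ (2 * K * (C + 1) + |C3|) * A * √x := by
        have := (abs_le.1 a2).1
        have s0 := Real.sqrt_nonneg x
        have b1 : K * C * √x * 1 ≤ K * C * √x * A := by gcongr
        have b2 : |C3| * √x * 1 ≤ |C3| * √x * A := by gcongr
        linarith
      rw [a4] at a5
      have a6 : w * ∫ t in T..2 * T, |err P t| ≤ (2 * K * (C + 1) + |C3|) * A * T ^ (3 / 2 : ℝ) :=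
        le_of_mul_le_mul_left (by linarith) (pow_pos x1 2)
      rw [← le_div_iff₀' hw] at a6
      refine a6.trans ?_
      have q1 : 0 ≤ 2 * C / x0 * A * T ^ (3 / 2 : ℝ) := by positivity
      have q2 : K1 * A * T ^ (3 / 2 : ℝ) = (2 * K * (C + 1) + |C3|) * A * T ^ (3 / 2 : ℝ) / w +
        2 * C / x0 * A * T ^ (3 / 2 : ℝ) := by rw [hK1]; ring
      linarith
    · have h1 : ‖∫ t in T..2 * T, |err P t|‖ ≤ (C * (2 * T)) * |2 * T - T| := by
        refine intervalIntegral.norm_integral_le_of_norm_le_const fun t ht => ?_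
        rw [uIoc_of_le (by linarith)] at ht
        rw [Real.norm_of_nonneg (abs_nonneg _)]
        exact (gE.2.2.2 t (by linarith [ht.1])).trans (mul_le_mul_of_nonneg_left ht.2 hC0)
      rw [abs_of_nonneg (show 0 ≤ 2 * T - T by linarith)] at h1
      refine ((le_abs_self _).trans h1).trans ?_
      have t1 : T ≤ 1 / x0 := by
        rw [lt_div_iff₀ T0] at hx; rw [le_div_iff₀ hx0]; linarith
      have t2 : 2 * C / x0 * 1 * (T * 1) ≤ K1 * A * (T * √T) := by
        have : 2 * C / x0 ≤ K1 := le_add_of_nonneg_left (by positivity)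
        gcongr
      have t3 : 2 * C * T * T ≤ 2 * C * T * (1 / x0) := by gcongr
      have t4 : 2 * C * T * (1 / x0) = 2 * C / x0 * 1 * (T * 1) := by ring
      rw [e32]
      linarith
  have T0 : 0 < T1 := by linarith
  have z0 : 0 < ‖z‖ := lt_of_lt_of_le (Real.rpow_pos_of_pos T0 _) z1
  obtain ⟨iE, bE⟩ := hk _ C e z gE he he1 z0 (z2.trans he1) z3
  have bE := bE (K1 * A) (√T1) (by positivity) (Real.one_le_sqrt.2 hT1) (by
    have a : (T1 ^ (-(1 / 8) : ℝ)) ^ 4 * √T1 = 1 := by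
      rw [← Real.rpow_natCast, ← Real.rpow_mul T0.le, Real.sqrt_eq_rpow, ← Real.rpow_add T0]
      norm_num
    have b : (T1 ^ (-(1 / 8) : ℝ)) ^ 4 ≤ ‖z‖ ^ 4 := pow_le_pow_left₀ (by positivity) z1 4
    have c : ‖z‖ ^ 2 ≤ 2 * z.re := by nlinarith
    have d : ‖z‖ ^ 4 ≤ (2 * z.re) ^ 2 := by
      rw [show ‖z‖ ^ 4 = (‖z‖ ^ 2) ^ 2 by ring]; exact pow_le_pow_left₀ (by positivity) c 2
    rw [← a]
    exact mul_le_mul_of_nonneg_right (b.trans d) (Real.sqrt_nonneg _)) step
  refine (norm_integral_le_integral_norm _).trans (le_trans (le_of_eq ?_) (bE.trans ?_))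
  · simp only [norm_mul, norm_real, Real.norm_eq_abs]
  · have h1 : K * C * 1 ≤ K * C * A := by gcongr
    have h2 : K * (C + K1 * A) ≤ K * (C + K1) * A := by linarith
    gcongr

end Pool.Agent.Lib.E2
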