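import Pool.Agent.Lib.E2.Blue

namespace Pool.Agent.Lib.E2

noncomputable section

open Complex MeasureTheory Set Filter Topology
open scoped Real UpperHalfPlane MatrixGroups Modular ENNReal NNReal

theorem unf1_coe {x y : ℝ} (hy : 0 < y) : ((pt x y : ℍ) : ℂ) = x + y * I := by
  have h : 0 < ((x : ℂ) + y * I).im := by simpa using hy
  rw [pt, UpperHalfPlane.ofComplex_apply_of_im_pos h]

theorem unf1_re {x y : ℝ} (hy : 0 < y) : (pt x y).re = x := by
  rw [← UpperHalfPlane.coe_re, unf1_coe hy]; simp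

theorem unf1_im {x y : ℝ} (hy : 0 < y) : (pt x y).im = y := by
  rw [← UpperHalfPlane.coe_im, unf1_coe hy]; simp

theorem unf1_pt (z : ℍ) : pt z.re z.im = z := by
  apply UpperHalfPlane.ext
  rw [unf1_coe z.im_pos]
  exact Complex.re_add_im (z : ℂ)

theorem unf1_cont : ContinuousOn (fun p : ℝ × ℝ => pt p.1 p.2) (univ ×ˢ Ioi 0) := by
  rw [UpperHalfPlane.isOpenEmbedding_coe.isInducing.continuousOn_iff]
  have h : ContinuousOn (fun p : ℝ × ℝ => (p.1 : ℂ) + p.2 * I) (univ ×ˢ Ioi 0) := by fun_prop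
  exact h.congr fun p hp => unf1_coe hp.2

theorem unf1_mH : MeasurableSet (univ ×ˢ Ioi 0 : Set (ℝ × ℝ)) :=
  MeasurableSet.univ.prod measurableSet_Ioi

theorem unf1_meas : Measurable (fun p : ℝ × ℝ => pt p.1 p.2) := by
  refine measurable_of_restrict_of_restrict_compl unf1_mH ?_ ?_
  · exact (continuousOn_iff_continuous_domRestrict.1 unf1_cont).measurable
  · have : (univ ×ˢ Ioi 0 : Set (ℝ × ℝ))ᶜ.domRestrict (fun p : ℝ × ℝ => pt p.1 p.2) =
        fun _ => UpperHalfPlane.ofComplex 0 := by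
      funext p
      have hp : p.1.2 ≤ 0 := not_lt.1 fun h => p.2 ⟨trivial, h⟩
      exact UpperHalfPlane.ofComplex_apply_eq_of_im_nonpos (by simpa using hp) (by simp)
    rw [this]
    exact measurable_const

/-- coordinates -/
def unf1_e (w : ℍ) : ℝ × ℝ := (w.re, w.im)

theorem unf1_emb : MeasurableEmbedding unf1_e :=
  measurableEquivRealProd.measurableEmbedding.comp UpperHalfPlane.measurableEmbedding_coe

theorem unf1_mp : MeasurePreserving unf1_e (volume.comap UpperHalfPlane.coe)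
    (volume.restrict (univ ×ˢ Ioi 0 : Set (ℝ × ℝ))) := by
  have h1 : MeasurePreserving UpperHalfPlane.coe (volume.comap UpperHalfPlane.coe)
      (volume.restrict (range UpperHalfPlane.coe)) :=
    ⟨UpperHalfPlane.measurable_coe, by rw [UpperHalfPlane.measurableEmbedding_coe.map_comap]⟩
  have h2 := volume_preserving_equiv_real_prod.restrict_preimage unf1_mH
  have h3 : measurableEquivRealProd ⁻¹' (univ ×ˢ Ioi 0 : Set (ℝ × ℝ)) =
      range UpperHalfPlane.coe := by
    ext z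
    constructor
    · intro hz
      exact ⟨⟨z, hz.2⟩, rfl⟩
    · rintro ⟨w, rfl⟩
      exact ⟨trivial, w.im_pos⟩
  rw [h3] at h2
  exact h2.comp h1

/-- the density -/
def unf1_d (z : ℍ) : ℝ≥0 := (1 / NNReal.mk z.im z.im_pos.le : ℝ≥0) ^ 2

theorem unf1_dc : Continuous unf1_d := by
  refine .pow (.div₀ continuous_const ?_ ?_) _
  · exact UpperHalfPlane.continuous_im.subtype_mk _
  · exact fun x => NNReal.ne_iff.mp x.im_ne_zero

theorem unf1_dv (z : ℍ) : (unf1_d z : ℝ) = 1 / z.im ^ 2 := by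
  simp [unf1_d]

theorem unf1_vol : (volume : Measure ℍ) =
    (volume.comap UpperHalfPlane.coe).withDensity fun z => (unf1_d z : ℝ≥0∞) := rfl

theorem unf1_lint (F : ℍ → ℝ≥0∞) (hF : Measurable F) :
    ∫⁻ w, F w = ∫⁻ y in Ioi (0 : ℝ), ∫⁻ x : ℝ, F (pt x y) * ENNReal.ofReal (1 / y ^ 2) := by
  have hG : Measurable fun p : ℝ × ℝ => F (pt p.1 p.2) * ENNReal.ofReal (1 / p.2 ^ 2) :=
    (hF.comp unf1_meas).mul (by fun_prop)
  rw [unf1_vol, lintegral_withDensity_eq_lintegral_mul _ unf1_dc.measurable.coe_nnreal_ennreal hF]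
  have h1 : ∀ w : ℍ, ((fun z => (unf1_d z : ℝ≥0∞)) * F) w =
      (fun p : ℝ × ℝ => F (pt p.1 p.2) * ENNReal.ofReal (1 / p.2 ^ 2)) (unf1_e w) := by
    intro w
    simp only [Pi.mul_apply, unf1_e, unf1_pt]
    rw [← unf1_dv, ENNReal.ofReal_coe_nnreal, mul_comm]
  rw [lintegral_congr h1, unf1_mp.lintegral_comp hG, Measure.volume_eq_prod,
    ← Measure.prod_restrict, Measure.restrict_univ, lintegral_prod_symm _ hG.aemeasurable]

theorem unf1_smul (f : ℍ → ℂ) : (fun w => unf1_d w • f w) =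
    (fun p : ℝ × ℝ => ((1 / p.2 ^ 2 : ℝ) : ℂ) * f (pt p.1 p.2)) ∘ unf1_e := by
  funext w
  simp only [Function.comp_apply, unf1_e, unf1_pt]
  rw [NNReal.smul_def, unf1_dv, Complex.real_smul]

theorem unf1_intg (f : ℍ → ℂ) :
    Integrable f ↔ IntegrableOn (fun p : ℝ × ℝ => ((1 / p.2 ^ 2 : ℝ) : ℂ) * f (pt p.1 p.2))
      (univ ×ˢ Ioi 0) := by
  rw [unf1_vol, integrable_withDensity_iff_integrable_smul unf1_dc.measurable, unf1_smul]
  exact unf1_mp.integrable_comp_emb unf1_emb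

theorem unf1_int (f : ℍ → ℂ) :
    ∫ w, f w = ∫ p in (univ ×ˢ Ioi 0 : Set (ℝ × ℝ)), ((1 / p.2 ^ 2 : ℝ) : ℂ) * f (pt p.1 p.2) := by
  rw [unf1_vol, integral_withDensity_eq_integral_smul unf1_dc.measurable, unf1_smul]
  exact unf1_mp.integral_comp unf1_emb
    (fun p : ℝ × ℝ => ((1 / p.2 ^ 2 : ℝ) : ℂ) * f (pt p.1 p.2))

theorem unf1_ms : MeasurableSet strip :=
  UpperHalfPlane.continuous_re.measurable (measurableSet_Ico (a := (0 : ℝ)) (b := 1))

theorem unf1_strip (f : ℍ → ℂ) (hf : IntegrableOn f strip) : ∫ w in strip, f w =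
    ∫ y in Ioi (0 : ℝ), ((1 / y ^ 2 : ℝ) : ℂ) * ∫ x in (0 : ℝ)..1, f (pt x y) := by
  have h1 := (unf1_intg _).1 ((integrable_indicator_iff unf1_ms).2 hf)
  rw [← integral_indicator unf1_ms, unf1_int]
  rw [IntegrableOn, Measure.volume_eq_prod, ← Measure.prod_restrict, Measure.restrict_univ] at h1
  rw [Measure.volume_eq_prod, ← Measure.prod_restrict, Measure.restrict_univ,
    integral_prod_symm _ h1]
  refine setIntegral_congr_fun measurableSet_Ioi fun y hy => ?_
  simp only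
  rw [integral_const_mul, intervalIntegral.integral_of_le zero_le_one, integral_Ioc_eq_integral_Ioo,
    ← integral_Ico_eq_integral_Ioo, ← integral_indicator measurableSet_Ico]
  congr 2
  funext x
  have : pt x y ∈ strip ↔ x ∈ Ico (0 : ℝ) 1 := by
    simp only [strip, mem_ofPred_eq, unf1_re hy, mem_Ico]
  by_cases hx : x ∈ Ico (0 : ℝ) 1
  · rw [indicator_of_mem hx, indicator_of_mem (this.2 hx)]
  · rw [indicator_of_notMem hx, indicator_of_notMem (fun h => hx (this.1 h))]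

theorem unf1_band (A : Set ℝ) (hA : MeasurableSet A) (h1 : volume A = 1) (u : ℝ → ℝ≥0∞)
    (hu : Measurable u) : ∫⁻ w in {w : ℍ | w.re ∈ A}, u w.im =
      ∫⁻ y in Ioi (0 : ℝ), u y * ENNReal.ofReal (1 / y ^ 2) := by
  have hm : MeasurableSet {w : ℍ | w.re ∈ A} := UpperHalfPlane.continuous_re.measurable hA
  have hu' : Measurable fun w : ℍ => u w.im := hu.comp UpperHalfPlane.continuous_im.measurable
  rw [← lintegral_indicator hm, unf1_lint _ (hu'.indicator hm)]
  refine setLIntegral_congr_fun measurableSet_Ioi fun y hy => ?_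
  have : ∀ x : ℝ, {w : ℍ | w.re ∈ A}.indicator (fun w => u w.im) (pt x y) *
      ENNReal.ofReal (1 / y ^ 2) =
      A.indicator (fun _ => u y * ENNReal.ofReal (1 / y ^ 2)) x := by
    intro x
    have h : pt x y ∈ {w : ℍ | w.re ∈ A} ↔ x ∈ A := by
      simp only [mem_ofPred_eq, unf1_re hy]
    by_cases hx : x ∈ A
    · rw [indicator_of_mem hx, indicator_of_mem (h.2 hx), unf1_im hy]
    · rw [indicator_of_notMem hx, indicator_of_notMem (fun h' => hx (h.1 h')), zero_mul]
  simp only [this]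
  rw [lintegral_indicator_const hA, h1, mul_one]

theorem unf1_him {w : ℍ} (hw : w ∈ 𝒟) : √3 / 2 ≤ w.im := by
  have h := ModularGroup.three_le_four_mul_im_sq_of_mem_fd hw
  have h2 : √3 ≤ 2 * w.im := by
    rw [Real.sqrt_le_left (by linarith [w.im_pos])]
    linarith
  linarith

theorem unf1_muD (u : ℝ → ℝ≥0∞) (hu : Measurable u) :
    ∫⁻ w, u w.im ∂muD ≤ ∫⁻ y in Ici (√3 / 2 : ℝ), u y * ENNReal.ofReal (1 / y ^ 2) := by
  have h1 : volume (Icc (-(1 / 2) : ℝ) (1 / 2)) = 1 := by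
    rw [Real.volume_Icc]; norm_num
  have h2 := unf1_band _ measurableSet_Icc h1 ((Ici (√3 / 2 : ℝ)).indicator u)
    (hu.indicator measurableSet_Ici)
  calc ∫⁻ w, u w.im ∂muD = ∫⁻ w in 𝒟, (Ici (√3 / 2 : ℝ)).indicator u w.im := by
        refine setLIntegral_congr_fun ModularGroup.isClosed_fd.measurableSet fun w hw => ?_
        exact (indicator_of_mem (unf1_him hw) u).symm
    _ ≤ ∫⁻ w in {w : ℍ | w.re ∈ Icc (-(1 / 2) : ℝ) (1 / 2)},
          (Ici (√3 / 2 : ℝ)).indicator u w.im :=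
        lintegral_mono_set fun w hw => abs_le.1 hw.2
    _ = ∫⁻ y in Ioi (0 : ℝ),
          (Ici (√3 / 2 : ℝ)).indicator (fun y => u y * ENNReal.ofReal (1 / y ^ 2)) y := by
        rw [h2]
        refine lintegral_congr fun y => ?_
        rw [indicator_mul_left]
    _ ≤ ∫⁻ y, (Ici (√3 / 2 : ℝ)).indicator (fun y => u y * ENNReal.ofReal (1 / y ^ 2)) y :=
        setLIntegral_le_lintegral _ _
    _ = _ := lintegral_indicator measurableSet_Ici _

theorem unf1_fin : IsFiniteMeasure muD := by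
  refine ⟨?_⟩
  have h := unf1_muD (fun _ => 1) measurable_const
  rw [lintegral_one] at h
  refine h.trans_lt ?_
  have hp : (0 : ℝ) < √3 / 2 := by positivity
  have hi : IntegrableOn (fun y : ℝ => 1 / y ^ 2) (Ici (√3 / 2 : ℝ)) := by
    rw [integrableOn_Ici_iff_integrableOn_Ioi]
    refine (integrableOn_Ioi_rpow_of_lt (a := -2) (by norm_num) hp).congr_fun ?_ measurableSet_Ioi
    intro y hy
    have hy0 : 0 < y := hp.trans hy
    simp only
    rw [Real.rpow_neg hy0.le, one_div]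
    norm_num
  simp only [one_mul]
  exact hi.lintegral_lt_top

theorem unf1_open : (volume : Measure ℍ).IsOpenPosMeasure := by
  have : (volume.comap UpperHalfPlane.coe).IsOpenPosMeasure :=
    Measure.IsOpenPosMeasure.comap _ UpperHalfPlane.isOpenEmbedding_coe
  refine Measure.AbsolutelyContinuous.isOpenPosMeasure (μ := volume.comap UpperHalfPlane.coe) ?_
  rw [unf1_vol]
  refine withDensity_absolutelyContinuous' unf1_dc.measurable.coe_nnreal_ennreal.aemeasurable ?_
  refine Eventually.of_forall fun w => ?_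
  have : (0 : ℝ) < unf1_d w := by
    rw [unf1_dv]
    have := w.im_pos
    positivity
  have h2 : unf1_d w ≠ 0 := by
    intro h
    rw [h] at this
    simp at this
  simpa using h2

theorem unf1_bd : (volume : Measure ℍ) (𝒟 \ 𝒟ᵒ) = 0 := by
  have hm : MeasurableSet (𝒟 \ 𝒟ᵒ) :=
    ModularGroup.isClosed_fd.measurableSet.diff ModularGroup.isOpen_fdo.measurableSet
  rw [← lintegral_indicator_one hm, unf1_lint _ (measurable_one.indicator hm)]
  refine (setLIntegral_congr_fun (g := fun _ => 0) measurableSet_Ioi fun y hy => ?_).trans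
    lintegral_zero
  have hfin : ({1 / 2, -(1 / 2), √(1 - y ^ 2), -√(1 - y ^ 2)} : Set ℝ).Finite := by simp
  have hae : ∀ᵐ x : ℝ, x ∉ ({1 / 2, -(1 / 2), √(1 - y ^ 2), -√(1 - y ^ 2)} : Set ℝ) :=
    hfin.countable.ae_notMem _
  refine (lintegral_congr_ae (g := fun _ => 0) ?_).trans lintegral_zero
  filter_upwards [hae] with x hx
  rw [indicator_of_notMem, zero_mul]
  rintro ⟨⟨h1, h2⟩, h3⟩
  apply h3
  simp only [mem_insert_iff, mem_singleton_iff, not_or] at hx
  obtain ⟨x1, x2, x3, x4⟩ := hx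
  refine ⟨lt_of_le_of_ne h1 fun h => ?_, lt_of_le_of_ne h2 fun h => ?_⟩
  · rw [unf1_coe hy, Complex.normSq_add_mul_I] at h
    have h4 : √(1 - y ^ 2) = |x| := by
      rw [show 1 - y ^ 2 = x ^ 2 by linarith, Real.sqrt_sq_eq_abs]
    rw [h4] at x3 x4
    rcases abs_choice x with h5 | h5
    · exact x3 h5.symm
    · exact x4 (by rw [h5, neg_neg])
  · rw [unf1_re hy] at h
    rcases abs_choice x with h5 | h5
    · exact x1 (h5 ▸ h)
    · exact x2 (by linarith)

theorem t_unf1 : T_UNF1 :=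
  ⟨fun _ _ hy => ⟨unf1_re hy, unf1_im hy⟩, unf1_pt, unf1_cont, unf1_meas, unf1_lint,
    fun f => ⟨unf1_intg f, unf1_int f⟩, unf1_ms, unf1_strip,
    fun u hu => ⟨unf1_band (Ico 0 1) measurableSet_Ico (by simp) u hu, unf1_muD u hu⟩,
    unf1_fin, unf1_open, unf1_bd⟩

end

end Pool.Agent.Lib.E2
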