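import Pool.Agent.Lib.E2.Blue

/-! Unfolding over the modular group and over the translations. -/

namespace Pool.Agent.Lib.E2

noncomputable section

open Complex MeasureTheory Set Filter Topology
open scoped Real UpperHalfPlane MatrixGroups ComplexConjugate Modular ENNReal

namespace Unf2

section abstr

variable {X ι : Type} [MeasurableSpace X] [Countable ι] {μ : Measure X}

/-- the measure identity behind unfolding -/
lemma sum_map (T : ι → X ≃ᵐ X) (hT : ∀ i, MeasurePreserving (T i) μ μ) {D : Set X} (hD : MeasurableSet D)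
    (c : ℝ≥0∞) (hc : ∀ᵐ w ∂μ, ∑' i, ((T i).symm ⁻¹' D).indicator (fun _ => (1 : ℝ≥0∞)) w = c) :
    Measure.sum (fun i => (μ.restrict D).map (T i)) = c • μ := by
  ext s hs
  have hm : ∀ i, MeasurableSet ((T i).symm ⁻¹' D) := fun i => (T i).symm.measurable hD
  have h1 : ∀ i, (μ.restrict D).map (T i) s =
      ∫⁻ w in s, ((T i).symm ⁻¹' D).indicator (fun _ => (1 : ℝ≥0∞)) w ∂μ := fun i => by
    rw [Measure.map_apply (T i).measurable hs, Measure.restrict_apply ((T i).measurable hs),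
      lintegral_indicator_const (hm i), one_mul, Measure.restrict_apply (hm i),
      ← (hT i).measure_preimage ((hm i).inter hs).nullMeasurableSet, preimage_inter, inter_comm]
    congr 2
    ext z
    simp
  rw [Measure.sum_apply _ hs, Measure.smul_apply, smul_eq_mul]
  simp only [h1]
  rw [← lintegral_tsum fun i => (measurable_const.indicator (hm i)).aemeasurable,
    lintegral_congr_ae (ae_restrict_of_ae hc), setLIntegral_const]

variable {T : ι → X ≃ᵐ X} {ν : Measure X} {c : ℝ≥0∞}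

omit [Countable ι] in
lemma lint (h : Measure.sum (fun i => ν.map (T i)) = c • μ) (F : X → ℝ≥0∞) :
    c * ∫⁻ w, F w ∂μ = ∑' i, ∫⁻ z, F (T i z) ∂ν := by
  rw [← smul_eq_mul, ← lintegral_smul_measure, ← h, lintegral_sum_measure]
  exact tsum_congr fun i => lintegral_map_equiv F (T i)

omit [Countable ι] in
lemma boch (h : Measure.sum (fun i => ν.map (T i)) = c • μ) (hc : c ≠ ∞) {f : X → ℂ} (hf : Integrable f μ) :
    HasSum (fun i => ∫ z, f (T i z) ∂ν) (c.toReal • ∫ w, f w ∂μ) := by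
  have h1 : Integrable f (Measure.sum fun i => ν.map (T i)) := by
    rw [h]; exact hf.smul_measure hc
  have h2 := hasSum_integral_measure h1
  rw [h, integral_smul_measure] at h2
  simpa only [integral_map_equiv] using h2

lemma boch2 (h : Measure.sum (fun i => ν.map (T i)) = (1 : ℝ≥0∞) • μ) {f : X → ℂ} (hf : Integrable f μ) :
    Integrable (fun z => ∑' i, f (T i z)) ν ∧ ∫ w, f w ∂μ = ∫ z, ∑' i, f (T i z) ∂ν := by
  have h1 : Integrable f (Measure.sum fun i => ν.map (T i)) := by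
    rw [h, one_smul]; exact hf
  have h2 : ∀ i, AEStronglyMeasurable (fun z => f (T i z)) ν := fun i =>
    ((integrable_map_equiv (T i) f).1 (h1.mono_measure (Measure.le_sum _ i))).1
  have h3 : ∑' i, ∫⁻ z, ‖f (T i z)‖ₑ ∂ν < ∞ := by
    rw [← lint h fun w => ‖f w‖ₑ, one_mul]
    exact hf.2
  refine ⟨⟨AEStronglyMeasurable.tsum h2, ?_⟩, ?_⟩
  · refine lt_of_le_of_lt (lintegral_mono fun z => enorm_tsum_le_tsum_enorm) ?_
    rwa [lintegral_tsum fun i => (h2 i).enorm]
  · rw [integral_tsum h2 h3.ne, (boch h ENNReal.one_ne_top hf).tsum_eq]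
    simp

lemma ae_of (h : Measure.sum (fun i => ν.map (T i)) = c • μ) (hc : c ≠ 0) {p : X → Prop}
    (hp : ∀ i, ∀ᵐ z ∂ν, p (T i z)) : ∀ᵐ w ∂μ, p w := by
  rw [← Measure.ae_ennreal_smul_measure_iff hc, ← h, Measure.ae_sum_iff]
  exact fun i => (T i).measurableEmbedding.ae_map_iff.2 (hp i)

end abstr

instance countSL : Countable SL(2, ℤ) :=
  (show Function.Injective fun (g : SL(2, ℤ)) (i j : Fin 2) => g i j from
    fun _ _ h => Matrix.SpecialLinearGroup.ext _ _ fun i j => congrFun (congrFun h i) j).countable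

/-- the action of an element of the modular group as a measurable equivalence -/
def eqv (hm : ∀ g : SL(2, ℤ), Measurable fun w : ℍ => g • w) (g : SL(2, ℤ)) : ℍ ≃ᵐ ℍ where
  toFun w := g • w
  invFun w := g⁻¹ • w
  left_inv w := inv_smul_smul g w
  right_inv w := smul_inv_smul g w
  measurable_toFun := hm g
  measurable_invFun := hm g⁻¹

lemma neg_ne (g : SL(2, ℤ)) : g ≠ -g := by
  intro h
  have h1 : (1 : SL(2, ℤ)) = -1 := by
    have := congrArg (fun x => g⁻¹ * x) h
    simpa using this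
  have h2 := congrArg (fun x : SL(2, ℤ) => x 0 0) h1
  simp at h2

lemma meas_fd : MeasurableSet (𝒟 : Set ℍ) := ModularGroup.isClosed_fd.measurableSet

lemma meas_fdo : MeasurableSet (𝒟ᵒ : Set ℍ) := ModularGroup.isOpen_fdo.measurableSet

lemma sum_fd (hp : ∀ g : SL(2, ℤ), MeasurePreserving (fun w : ℍ => g • w) volume volume)
    (h0 : (volume : Measure ℍ) (𝒟 \ 𝒟ᵒ) = 0) :
    Measure.sum (fun g => muD.map (eqv (fun g => (hp g).measurable) g)) = (2 : ℝ≥0∞) • (volume : Measure ℍ) := by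
  classical
  refine sum_map _ hp meas_fd 2 ?_
  have h1 : ∀ᵐ w : ℍ, ∀ g : SL(2, ℤ), g • w ∉ 𝒟 \ 𝒟ᵒ :=
    ae_all_iff.2 fun g => (hp g).quasiMeasurePreserving.ae (measure_eq_zero_iff_ae_notMem.1 h0)
  filter_upwards [h1] with w hw
  obtain ⟨g0, hg0⟩ := ModularGroup.exists_smul_mem_fd w
  have hg1 : g0 • w ∈ 𝒟ᵒ := by
    by_contra hn
    exact hw g0 ⟨hg0, hn⟩
  have hmem : ∀ g : SL(2, ℤ), w ∈ (eqv (fun g => (hp g).measurable) g).symm ⁻¹' 𝒟 ↔ g⁻¹ • w ∈ 𝒟 :=
    fun g => Iff.rfl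
  rw [tsum_eq_sum (s := {g0⁻¹, -g0⁻¹}), Finset.sum_pair (neg_ne _), indicator_of_mem, indicator_of_mem]
  · norm_num
  · rw [hmem, inv_neg, inv_inv, ModularGroup.SL_neg_smul]
    exact hg0
  · rw [hmem, inv_inv]
    exact hg0
  · intro g hg
    refine indicator_of_notMem (fun hin => hg ?_) _
    rw [hmem] at hin
    have h2 : (g⁻¹ * g0⁻¹) • g0 • w ∈ 𝒟 := by rwa [mul_smul, inv_smul_smul]
    rcases ModularGroup.eq_one_or_neg_one_of_mem_fdo_mem_fd hg1 h2 with h | h
    · have : g = g0⁻¹ := inv_mul_eq_one.1 h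
      simp [this]
    · have : g0⁻¹ = -g := by
        have := congrArg (fun x => g * x) h
        simpa using this
      simp [this]

lemma sum_strip (hp : ∀ g : SL(2, ℤ), MeasurePreserving (fun w : ℍ => g • w) volume volume)
    (hs : MeasurableSet strip) :
    Measure.sum (fun n : ℤ => ((volume : Measure ℍ).restrict strip).map
      (eqv (fun g => (hp g).measurable) (ModularGroup.T ^ n))) = (1 : ℝ≥0∞) • (volume : Measure ℍ) := by
  refine sum_map _ (fun n => hp _) hs 1 (Eventually.of_forall fun w => ?_)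
  have hmem : ∀ n : ℤ, w ∈ (eqv (fun g => (hp g).measurable) (ModularGroup.T ^ n)).symm ⁻¹' strip ↔
      ⌊w.re⌋ = n := fun n => by
    have h1 : (eqv (fun g => (hp g).measurable) (ModularGroup.T ^ n)).symm w = ModularGroup.T ^ (-n) • w := by
      rw [zpow_neg]; rfl
    rw [mem_preimage, h1, Int.floor_eq_iff]
    show 0 ≤ (ModularGroup.T ^ (-n) • w).re ∧ (ModularGroup.T ^ (-n) • w).re < 1 ↔ _
    rw [ModularGroup.re_T_zpow_smul]
    push_cast
    constructor <;> rintro ⟨h2, h3⟩ <;> constructor <;> linarith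
  rw [tsum_eq_single ⌊w.re⌋, indicator_of_mem ((hmem _).2 rfl)]
  intro n hn
  exact indicator_of_notMem (fun h => hn ((hmem n).1 h).symm) _

lemma ext (hm : ∀ g : SL(2, ℤ), Measurable fun w : ℍ => g • w) (h0 : (volume : Measure ℍ) (𝒟 \ 𝒟ᵒ) = 0)
    (f : ℍ → ℂ) (hf : MemLp f 2 muD) : ∃ g, Aut g ∧ g =ᵐ[muD] f := by
  classical
  set f' : ℍ → ℂ := hf.1.mk f with hf'
  have hfm : Measurable f' := hf.1.stronglyMeasurable_mk.measurable
  set G : ℍ → ℂ := fun z => 2⁻¹ * ∑' g : SL(2, ℤ), (𝒟ᵒ : Set ℍ).indicator f' (g • z) with hG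
  have hGm : Measurable G :=
    measurable_const.mul (Measurable.tsum fun g => (hfm.indicator meas_fdo).comp (hm g))
  have hGo : ∀ z ∈ 𝒟ᵒ, G z = f' z := fun z hz => by
    simp only [hG]
    rw [tsum_eq_sum (s := {1, -1}), Finset.sum_pair (neg_ne _), ModularGroup.SL_neg_smul, one_smul,
      indicator_of_mem hz]
    · ring
    · intro g hg
      refine indicator_of_notMem (fun hin => hg ?_) _
      rcases ModularGroup.eq_one_or_neg_one_of_mem_fdo_mem_fdo hz hin with h | h <;> simp [h]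
  have hae : G =ᵐ[muD] f := by
    have h1 : ∀ᵐ z ∂muD, z ∉ 𝒟 \ 𝒟ᵒ := ae_restrict_of_ae (measure_eq_zero_iff_ae_notMem.1 h0)
    have h2 : ∀ᵐ z ∂muD, z ∈ 𝒟 := ae_restrict_mem meas_fd
    filter_upwards [h1, h2, hf.1.ae_eq_mk] with z hz1 hz2 hz3
    rw [hGo z (by by_contra hn; exact hz1 ⟨hz2, hn⟩), hz3]
  refine ⟨G, ⟨hGm, fun g z => ?_, (memLp_congr_ae hae).2 hf⟩, hae⟩
  simp only [hG]
  rw [← (Equiv.mulRight g).tsum_eq fun k : SL(2, ℤ) => (𝒟ᵒ : Set ℍ).indicator f' (k • z)]
  simp only [Equiv.coe_mulRight, mul_smul]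

end Unf2

open Unf2 in
theorem t_unf2 : T_UNF2 := by
  intro hG hU
  obtain ⟨-, -, -, -, -, hZ, -⟩ := hG
  obtain ⟨-, -, -, -, -, -, hs, -, -, -, hop, h0⟩ := hU
  have hp : ∀ g : SL(2, ℤ), MeasurePreserving (fun w : ℍ => g • w) volume volume := fun g => (hZ g).2.1
  have hD := sum_fd hp h0
  have hS := sum_strip hp hs
  have he : ∀ (n : ℤ) (w : ℍ), eqv (fun g => (hp g).measurable) (ModularGroup.T ^ n) w = (n : ℝ) +ᵥ w :=
    fun n w => UpperHalfPlane.modular_T_zpow_smul w n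
  refine ⟨fun F _ => lint hD F, fun f hf => ?_, fun F hF => ?_, fun f hf => ?_, fun f hf n w => ?_,
    ext (fun g => (hp g).measurable) h0, fun f g hf hg hfg => ?_⟩
  · have h1 := boch hD ENNReal.ofNat_ne_top hf
    have h2 : (2 : ℝ≥0∞).toReal • ∫ w, f w = 2 * ∫ w, f w := by simp
    rw [h2] at h1
    exact h1
  · have h1 := lint hS F
    rw [one_mul, ← lintegral_tsum (f := fun (n : ℤ) z => F (eqv (fun g => (hp g).measurable) (ModularGroup.T ^ n) z))
      fun n => (hF.comp (MeasurableEquiv.measurable _)).aemeasurable] at h1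
    simpa only [he] using h1
  · have h1 := boch2 hS hf
    have h2 : (fun z => ∑' n : ℤ, f (eqv (fun g => (hp g).measurable) (ModularGroup.T ^ n) z)) =
        fun z => ∑' n : ℤ, f ((n : ℝ) +ᵥ z) := funext fun z => tsum_congr fun n => congrArg f (he n z)
    rw [h2] at h1
    exact h1
  · rw [← UpperHalfPlane.modular_T_zpow_smul, hf]
  · have h1 : f =ᵐ[volume] g := by
      refine ae_of hD two_ne_zero fun k => ?_
      filter_upwards [hfg] with z hz
      exact (hf k z).trans (hz.trans (hg k z).symm)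
    exact ⟨h1, fun hcf hcg => (hcf.ae_eq_iff_eq volume hcg).1 h1⟩

end

end Pool.Agent.Lib.E2
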