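import Pool.Agent.Lib.E2.Blue

namespace Pool.Agent.Lib.E2

noncomputable section

open Complex MeasureTheory Set Filter Topology
open scoped Real

namespace VB1

theorem int_abs : Integrable (fun t : ℝ => Real.exp (-|t|)) := by
  have h1 : IntegrableOn (fun t : ℝ => Real.exp (-|t|)) (Ioi 0) :=
    (integrableOn_exp_neg_Ioi 0).congr_fun
      (fun t ht => by simp only [abs_of_pos (show (0 : ℝ) < t from ht)]) measurableSet_Ioi
  have h2 : IntegrableOn (fun t : ℝ => Real.exp (-|t|)) (Iic 0) :=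
    (integrableOn_exp_Iic 0).congr_fun
      (fun t ht => by simp only [abs_of_nonpos (show t ≤ (0 : ℝ) from ht), neg_neg])
      measurableSet_Iic
  have := h2.union h1
  rwa [Iic_union_Ioi, integrableOn_univ] at this

theorem core {a : ℝ} (ha : 0 < a) (k : ℕ) (v : ℝ) :
    Real.exp (-a * Real.cosh v) ≤
      Real.exp (-a / 2) * (k.factorial * (4 / a) ^ k) * Real.exp (-(k * |v|)) := by
  have h1 : 1 ≤ Real.cosh v := Real.one_le_cosh v
  have h2 : Real.exp |v| / 2 ≤ Real.cosh v := by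
    rw [← Real.cosh_abs, Real.cosh_eq]
    have := Real.exp_pos (-|v|)
    linarith
  have hx : 0 ≤ a / 4 * Real.exp |v| := by positivity
  have h3 := Real.pow_div_factorial_le_exp _ hx k
  have hk : (0 : ℝ) < k.factorial := by exact_mod_cast k.factorial_pos
  have h4 : Real.exp (-(a / 4 * Real.exp |v|)) ≤ k.factorial * (4 / a) ^ k * Real.exp (-(k * |v|)) := by
    have e1 : (a / 4 * Real.exp |v|) ^ k * ((4 / a) ^ k * Real.exp (-(k * |v|))) = 1 := by
      rw [mul_pow, ← Real.exp_nat_mul, Real.exp_neg]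
      have : (a / 4) ^ k * (4 / a) ^ k = 1 := by
        rw [← mul_pow]
        have : a / 4 * (4 / a) = 1 := by field_simp
        rw [this, one_pow]
      have h5 := (Real.exp_pos (k * |v|)).ne'
      calc (a / 4) ^ k * Real.exp (k * |v|) * ((4 / a) ^ k * (Real.exp (k * |v|))⁻¹)
          = ((a / 4) ^ k * (4 / a) ^ k) * (Real.exp (k * |v|) * (Real.exp (k * |v|))⁻¹) := by ring
        _ = 1 := by rw [this, mul_inv_cancel₀ h5, one_mul]
    rw [div_le_iff₀ hk] at h3
    have hp : 0 < (4 / a) ^ k * Real.exp (-(k * |v|)) := by positivity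
    have h6 : 1 ≤ Real.exp (a / 4 * Real.exp |v|) * k.factorial *
        ((4 / a) ^ k * Real.exp (-(k * |v|))) := by
      rw [← e1]
      exact mul_le_mul_of_nonneg_right h3 hp.le
    rw [Real.exp_neg, inv_eq_one_div, div_le_iff₀ (Real.exp_pos _)]
    calc (1 : ℝ) ≤ _ := h6
      _ = _ := by ring
  calc Real.exp (-a * Real.cosh v)
      ≤ Real.exp (-a / 2) * Real.exp (-(a / 4 * Real.exp |v|)) := by
        rw [← Real.exp_add, Real.exp_le_exp]
        nlinarith
    _ ≤ Real.exp (-a / 2) * (k.factorial * (4 / a) ^ k * Real.exp (-(k * |v|))) :=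
        mul_le_mul_of_nonneg_left h4 (Real.exp_pos _).le
    _ = _ := by ring

theorem re_cosh (z w : ℂ) : (z * cosh w).re =
    z.re * (Real.cosh w.re * Real.cos w.im) - z.im * (Real.sinh w.re * Real.sin w.im) := by
  have h : cosh w = Real.cosh w.re * Real.cos w.im + Real.sinh w.re * Real.sin w.im * I := by
    conv_lhs => rw [← re_add_im w]
    rw [cosh_add, cosh_mul_I, sinh_mul_I]
    push_cast
    ring
  rw [h]
  simp only [mul_re, add_re, add_im, mul_im, ofReal_re, ofReal_im, I_re, I_im]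
  ring

theorem bnd {z n w : ℂ} {u a b : ℝ} {k : ℕ} (hu1 : u ≤ 1) (ha : 0 < a) (hb : 0 ≤ b)
    (hab : a + b ≤ z.re * Real.cos u - |z.im| * Real.sin u) (hn : |n.re| + 1 ≤ k)
    (hw : |w.im| ≤ u) :
    ‖exp (-z * cosh w + n * w)‖ ≤
      Real.exp (-b - a / 2 - n.im * w.im) * (k.factorial * (4 / a) ^ k) * Real.exp (-|w.re|) := by
  have hu0 : 0 ≤ u := (abs_nonneg _).trans hw
  have hpi := Real.pi_gt_three
  have hsu : 0 ≤ Real.sin u := Real.sin_nonneg_of_nonneg_of_le_pi hu0 (by linarith)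
  have hcu : 0 < Real.cos u := Real.cos_pos_of_mem_Ioo ⟨by linarith, by linarith⟩
  have hz : 0 ≤ z.re := by
    by_contra h
    push Not at h
    have := mul_nonneg (abs_nonneg z.im) hsu
    nlinarith
  have hc : Real.cos u ≤ Real.cos w.im := by
    rw [← Real.cos_abs w.im]
    exact Real.cos_le_cos_of_nonneg_of_le_pi (abs_nonneg _) (by linarith) hw
  have hs : |Real.sin w.im| ≤ Real.sin u := by
    have h1 : Real.sin |w.im| ≤ Real.sin u :=
      Real.sin_le_sin_of_le_of_le_pi_div_two (by linarith [abs_nonneg w.im]) (by linarith) hw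
    have h2 : 0 ≤ Real.sin |w.im| :=
      Real.sin_nonneg_of_nonneg_of_le_pi (abs_nonneg _) (by linarith)
    rcases abs_cases w.im with h | h
    · rw [h.1] at h1 h2
      rwa [abs_of_nonneg h2]
    · rw [h.1, Real.sin_neg] at h1 h2
      rw [abs_of_nonpos (by linarith)]
      exact h1
  have hch : 1 ≤ Real.cosh w.re := Real.one_le_cosh _
  have hsh : |Real.sinh w.re| ≤ Real.cosh w.re := by
    rw [abs_le]
    have h1 := Real.sinh_lt_cosh w.re
    have h2 := Real.sinh_lt_cosh (-w.re)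
    rw [Real.sinh_neg, Real.cosh_neg] at h2
    constructor <;> linarith
  have h1 : z.im * (Real.sinh w.re * Real.sin w.im) ≤ |z.im| * Real.sin u * Real.cosh w.re := by
    calc z.im * (Real.sinh w.re * Real.sin w.im)
        ≤ |z.im * (Real.sinh w.re * Real.sin w.im)| := le_abs_self _
      _ = |z.im| * (|Real.sinh w.re| * |Real.sin w.im|) := by rw [abs_mul, abs_mul]
      _ ≤ |z.im| * (Real.cosh w.re * Real.sin u) := by gcongr
      _ = _ := by ring
  have h2 : z.re * Real.cos u * Real.cosh w.re ≤ z.re * (Real.cosh w.re * Real.cos w.im) := by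
    calc z.re * Real.cos u * Real.cosh w.re = z.re * (Real.cosh w.re * Real.cos u) := by ring
      _ ≤ _ := by gcongr
  have h3 : (a + b) * Real.cosh w.re ≤
      (z.re * Real.cos u - |z.im| * Real.sin u) * Real.cosh w.re := by gcongr
  have h4 : b + a * Real.cosh w.re ≤ (z * cosh w).re := by
    rw [re_cosh]
    nlinarith
  have h5 : n.re * w.re ≤ (k - 1) * |w.re| := by
    calc n.re * w.re ≤ |n.re * w.re| := le_abs_self _
      _ = |n.re| * |w.re| := abs_mul _ _
      _ ≤ _ := by gcongr; linarith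
  have h6 := core ha k w.re
  rw [norm_exp]
  have e1 : (-z * cosh w + n * w).re = -(z * cosh w).re + (n.re * w.re - n.im * w.im) := by
    rw [neg_mul, add_re, neg_re, mul_re n w]
  calc Real.exp (-z * cosh w + n * w).re
      ≤ Real.exp (-a * Real.cosh w.re) * Real.exp (-b - n.im * w.im + (k - 1) * |w.re|) := by
        rw [← Real.exp_add, Real.exp_le_exp, e1]
        linarith
    _ ≤ Real.exp (-a / 2) * (k.factorial * (4 / a) ^ k) * Real.exp (-(k * |w.re|)) *
        Real.exp (-b - n.im * w.im + (k - 1) * |w.re|) :=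
        mul_le_mul_of_nonneg_right h6 (Real.exp_pos _).le
    _ = (k.factorial * (4 / a) ^ k) * (Real.exp (-a / 2) * Real.exp (-(k * |w.re|)) *
        Real.exp (-b - n.im * w.im + (k - 1) * |w.re|)) := by ring
    _ = (k.factorial * (4 / a) ^ k) * (Real.exp (-b - a / 2 - n.im * w.im) *
        Real.exp (-|w.re|)) := by
        rw [← Real.exp_add, ← Real.exp_add, ← Real.exp_add]
        congr 2
        ring
    _ = _ := by ring

theorem bnd0 {z n : ℂ} {a : ℝ} {k : ℕ} (ha : 0 < a) (haz : a ≤ z.re) (hn : |n.re| + 1 ≤ k)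
    (v : ℝ) : ‖exp (-z * Real.cosh v + n * v)‖ ≤
      (k.factorial * (4 / a) ^ k) * Real.exp (-|v|) := by
  have h := bnd (z := z) (n := n) (w := v) (u := 0) (a := a) (b := 0) (k := k) zero_le_one ha le_rfl
    (by simpa using haz) hn (by simp)
  rw [ofReal_re, ofReal_im, ← ofReal_cosh] at h
  refine h.trans ?_
  have : Real.exp (-0 - a / 2 - n.im * 0) ≤ 1 := by
    rw [Real.exp_le_one_iff]
    linarith
  have hp : 0 ≤ (k.factorial * (4 / a) ^ k : ℝ) * Real.exp (-|v|) := by positivity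
  calc _ = Real.exp (-0 - a / 2 - n.im * 0) *
        ((k.factorial * (4 / a) ^ k : ℝ) * Real.exp (-|v|)) := by ring
    _ ≤ 1 * ((k.factorial * (4 / a) ^ k : ℝ) * Real.exp (-|v|)) :=
        mul_le_mul_of_nonneg_right this hp
    _ = _ := one_mul _

theorem loc {z0 n0 : ℂ} (h0 : 0 < z0.re) : ∃ g : ℝ → ℝ, Integrable g ∧ ∀ z n : ℂ,
    ‖z - z0‖ ≤ z0.re / 2 → ‖n - n0‖ ≤ 1 → ∀ v : ℝ, ‖exp (-z * Real.cosh v + n * v)‖ ≤ g v := by
  obtain ⟨k, hk⟩ := exists_nat_ge (|n0.re| + 2)
  refine ⟨fun v => (k.factorial * (4 / (z0.re / 2)) ^ k) * Real.exp (-|v|),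
    int_abs.const_mul _, fun z n hz hn v => bnd0 (by positivity) ?_ ?_ v⟩
  · have := (abs_re_le_norm (z - z0)).trans hz
    rw [sub_re, abs_le] at this
    linarith [this.1]
  · have h1 := (abs_re_le_norm (n - n0)).trans hn
    rw [sub_re] at h1
    have h2 := abs_sub_abs_le_abs_sub n.re n0.re
    linarith

theorem p1 (z n : ℂ) (hz : 0 < z.re) :
    Integrable (fun v : ℝ => exp (-z * Real.cosh v + n * v)) := by
  obtain ⟨g, hg, h⟩ := loc (z0 := z) (n0 := n) hz
  exact hg.mono' (by fun_prop) (Eventually.of_forall fun v =>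
    h z n (by simp; positivity) (by simp) v)

theorem p2 : ContinuousOn (fun p : ℂ × ℂ => Kb p.1 p.2) {p | 0 < p.1.re} := by
  intro p hp
  have hp' : 0 < p.1.re := hp
  obtain ⟨g, hg, h⟩ := loc (z0 := p.1) (n0 := p.2) hp'
  refine ContinuousAt.continuousWithinAt ?_
  unfold Kb
  refine continuousAt_of_dominated (bound := g) (Eventually.of_forall fun q => by fun_prop) ?_ hg
    (Eventually.of_forall fun v => by fun_prop)
  have e1 : ∀ᶠ q : ℂ × ℂ in 𝓝 p, ‖q.1 - p.1‖ ≤ p.1.re / 2 := by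
    have c : ContinuousAt (fun q : ℂ × ℂ => ‖q.1 - p.1‖) p := by fun_prop
    exact (c.eventually_lt continuousAt_const (by simp; positivity)).mono fun q hq => hq.le
  have e2 : ∀ᶠ q : ℂ × ℂ in 𝓝 p, ‖q.2 - p.2‖ ≤ 1 := by
    have c : ContinuousAt (fun q : ℂ × ℂ => ‖q.2 - p.2‖) p := by fun_prop
    exact (c.eventually_lt continuousAt_const (by simp)).mono fun q hq => hq.le
  filter_upwards [e1, e2] with q h1 h2
  exact Eventually.of_forall fun v => h _ _ h1 h2 v

theorem p3 (hP : St_PAR) : CurveAn Kb {p | 0 < p.1.re} := by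
  intro U X Y hU hX hY hD
  refine (hP.1 ℝ volume (fun c v => exp (-X c * Real.cosh v + Y c * v)) U hU
    (fun z _ => by fun_prop) (Eventually.of_forall fun v => by fun_prop) fun c hc => ?_).1
  have h0 : 0 < (X c).re := hD c hc
  obtain ⟨g, hg, h⟩ := loc (z0 := X c) (n0 := Y c) h0
  have cX : ContinuousAt X c := (hX.continuousOn.continuousAt (hU.mem_nhds hc))
  have cY : ContinuousAt Y c := (hY.continuousOn.continuousAt (hU.mem_nhds hc))
  obtain ⟨r1, hr1, h1⟩ := Metric.continuousAt_iff.1 cX ((X c).re / 2) (by positivity)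
  obtain ⟨r2, hr2, h2⟩ := Metric.continuousAt_iff.1 cY 1 one_pos
  refine ⟨min r1 r2, lt_min hr1 hr2, g, hg, Eventually.of_forall fun v w _ hw => h _ _ ?_ ?_ v⟩
  · rw [← dist_eq_norm] at hw ⊢
    exact (h1 (hw.trans_le (min_le_left _ _))).le
  · rw [← dist_eq_norm] at hw ⊢
    exact (h2 (hw.trans_le (min_le_right _ _))).le

theorem shift (hS : St_SHIFT) {z n : ℂ} {u a b : ℝ} {k : ℕ} (hu1 : u ≤ 1) (ha : 0 < a) (hb : 0 ≤ b)
    (hab : a + b ≤ z.re * Real.cos u - |z.im| * Real.sin u) (hn : |n.re| + 1 ≤ k)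
    {s t : ℝ} (hst : s ≤ t) (hs : |s| ≤ u) (ht : |t| ≤ u) :
    ∫ x : ℝ, exp (-z * cosh (x + s * I) + n * (x + s * I)) =
      ∫ x : ℝ, exp (-z * cosh (x + t * I) + n * (x + t * I)) := by
  refine hS.1 (fun w => exp (-z * cosh w + n * w)) s t
    (fun x => Real.exp (|n.im| * u) * (k.factorial * (4 / a) ^ k) * Real.exp (-|x|)) hst
    (by fun_prop) (by fun_prop) (int_abs.const_mul _) fun w h1 h2 => ?_
  have hw : |w.im| ≤ u := by
    rw [abs_le] at hs ht ⊢
    constructor <;> linarith [hs.1, ht.2]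
  refine (bnd hu1 ha hb hab hn hw).trans ?_
  have : -(n.im * w.im) ≤ |n.im| * u := by
    calc -(n.im * w.im) ≤ |n.im * w.im| := neg_le_abs _
      _ = |n.im| * |w.im| := abs_mul _ _
      _ ≤ _ := by gcongr
  gcongr
  linarith

theorem p4 (hS : St_SHIFT) (M : ℝ) : ∃ (C : ℝ) (k : ℕ), ∀ (z n : ℂ) (u a b : ℝ), 0 ≤ u → u ≤ 1 →
    0 < a → 0 ≤ b → a + b ≤ z.re * Real.cos u - |z.im| * Real.sin u → |n.re| ≤ M →
    ‖Kb z n‖ ≤ C * (1 + 1 / a) ^ k * Real.exp (-b - a / 2 - u * |n.im|) := by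
  obtain ⟨k, hk⟩ := exists_nat_ge (M + 1)
  refine ⟨k.factorial * 4 ^ k * ∫ x : ℝ, Real.exp (-|x|), k,
    fun z n u a b hu0 hu1 ha hb hab hn => ?_⟩
  have hn' : |n.re| + 1 ≤ k := by linarith
  have hau : |u| ≤ u := by rw [abs_of_nonneg hu0]
  have han : |-u| ≤ u := by rw [abs_neg, abs_of_nonneg hu0]
  have ha0 : |(0 : ℝ)| ≤ u := by simpa using hu0
  obtain ⟨s, hs, hsn, he⟩ : ∃ s : ℝ, |s| ≤ u ∧ n.im * s = u * |n.im| ∧
      Kb z n = ∫ x : ℝ, exp (-z * cosh (x + s * I) + n * (x + s * I)) := by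
    have e0 : Kb z n = ∫ x : ℝ, exp (-z * cosh (x + (0 : ℝ) * I) + n * (x + (0 : ℝ) * I)) := by
      unfold Kb
      simp
    rcases le_total 0 n.im with h | h
    · exact ⟨u, hau, by rw [abs_of_nonneg h]; ring,
        e0.trans (shift hS hu1 ha hb hab hn' hu0 ha0 hau)⟩
    · exact ⟨-u, han, by rw [abs_of_nonpos h]; ring,
        e0.trans (shift hS hu1 ha hb hab hn' (by linarith) han ha0).symm⟩
  have hI : 0 ≤ ∫ x : ℝ, Real.exp (-|x|) := integral_nonneg fun x => (Real.exp_pos _).le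
  have h1 : ‖Kb z n‖ ≤ ∫ x : ℝ, Real.exp (-b - a / 2 - u * |n.im|) *
      (k.factorial * (4 / a) ^ k) * Real.exp (-|x|) := by
    rw [he]
    refine norm_integral_le_of_norm_le (int_abs.const_mul _) (Eventually.of_forall fun x => ?_)
    have h := bnd (z := z) (n := n) (w := x + s * I) hu1 ha hb hab hn' (by simpa using hs)
    have e1 : ((x : ℂ) + s * I).im = s := by simp
    have e2 : ((x : ℂ) + s * I).re = x := by simp
    rwa [e1, e2, hsn] at h
  rw [integral_const_mul] at h1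
  refine h1.trans ?_
  have h2 : (4 / a) ^ k ≤ 4 ^ k * (1 + 1 / a) ^ k := by
    rw [← mul_pow]
    have : 4 / a ≤ 4 * (1 + 1 / a) := by
      rw [mul_add, mul_one_div]
      linarith
    gcongr
  calc Real.exp (-b - a / 2 - u * |n.im|) * (k.factorial * (4 / a) ^ k) * ∫ x : ℝ, Real.exp (-|x|)
      ≤ Real.exp (-b - a / 2 - u * |n.im|) * (k.factorial * (4 ^ k * (1 + 1 / a) ^ k)) *
        ∫ x : ℝ, Real.exp (-|x|) := by gcongr
    _ = _ := by ring

end VB1

theorem t_vb1 : T_VB1 := fun hS hP => ⟨VB1.p1, VB1.p2, VB1.p3 hP, VB1.p4 hS⟩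

end

end Pool.Agent.Lib.E2
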