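import Pool.Agent.Lib.E2.Blue

/-! Convergence and bounds for the non-constant part of the Eisenstein series. -/

namespace Pool.Agent.Lib.E2

noncomputable section

open Complex MeasureTheory Set Filter Topology
open scoped Real

namespace VB2

/-- the product of the two indices -/
def NN (p : ℕ × ℕ) : ℕ := (p.1 + 1) * (p.2 + 1)

/-- the summable majorant -/
def ww (p : ℕ × ℕ) : ℝ := 1 / ((p.1 : ℝ) + 1) ^ 2 * (1 / ((p.2 : ℝ) + 1) ^ 2)

theorem NN_pos (p : ℕ × ℕ) : (1 : ℝ) ≤ NN p := by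
  have : 1 ≤ NN p := Nat.mul_pos (Nat.succ_pos _) (Nat.succ_pos _)
  exact_mod_cast this

theorem ww_eq (p : ℕ × ℕ) : ww p = 1 / (NN p : ℝ) ^ 2 := by
  unfold ww NN
  push_cast
  field_simp

theorem ww_nonneg (p : ℕ × ℕ) : 0 ≤ ww p := by unfold ww; positivity

theorem ww_sum : Summable ww := by
  have h : Summable fun n : ℕ => 1 / ((n : ℝ) + 1) ^ 2 := by
    have := (summable_nat_add_iff 1).2 (Real.summable_one_div_nat_pow.2 one_lt_two)
    simpa using this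
  exact h.mul_of_nonneg h (fun _ => by positivity) fun _ => by positivity

theorem Vt_eq (x y s : ℂ) (p : ℕ × ℕ) : Vt x y s p =
    cos (((2 * π * NN p : ℝ) : ℂ) * x) *
      ((((p.2 : ℝ) + 1) / ((p.1 : ℝ) + 1) : ℝ) : ℂ) ^ (s - 1 / 2) *
      Kb (((2 * π * NN p : ℝ) : ℂ) * y) (s - 1 / 2) := by
  have h : ((2 * π * NN p : ℝ) : ℂ) = 2 * π * ((p.1 + 1) * (p.2 + 1)) := by
    unfold NN
    push_cast
    rfl
  rw [h, Vt]

theorem norm_cos_le (w : ℂ) : ‖cos w‖ ≤ Real.exp |w.im| := by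
  have h1 : ‖exp (w * I)‖ ≤ Real.exp |w.im| := by
    rw [norm_exp]
    refine Real.exp_le_exp.2 ?_
    simp only [mul_re, I_re, I_im, mul_zero, mul_one, zero_sub]
    exact neg_le_abs _
  have h2 : ‖exp (-w * I)‖ ≤ Real.exp |w.im| := by
    rw [norm_exp]
    refine Real.exp_le_exp.2 ?_
    simp only [mul_re, I_re, I_im, mul_zero, mul_one, zero_sub, neg_im, neg_neg]
    exact le_abs_self _
  have h3 : cos w = (exp (w * I) + exp (-w * I)) / 2 := rfl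
  rw [h3, norm_div, Complex.norm_two]
  have := norm_add_le (exp (w * I)) (exp (-w * I))
  linarith

theorem ratio_le (p : ℕ × ℕ) {t M : ℝ} (h : |t| ≤ M) :
    (((p.2 : ℝ) + 1) / ((p.1 : ℝ) + 1)) ^ t ≤ (NN p : ℝ) ^ ⌈M⌉₊ := by
  have h1 : (0 : ℝ) < (p.1 : ℝ) + 1 := by positivity
  have h2 : (0 : ℝ) < (p.2 : ℝ) + 1 := by positivity
  have l1 : 0 ≤ Real.log ((p.1 : ℝ) + 1) := Real.log_nonneg (by simp)
  have l2 : 0 ≤ Real.log ((p.2 : ℝ) + 1) := Real.log_nonneg (by simp)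
  have e : Real.log (NN p : ℝ) = Real.log ((p.1 : ℝ) + 1) + Real.log ((p.2 : ℝ) + 1) := by
    unfold NN
    push_cast
    exact Real.log_mul h1.ne' h2.ne'
  rw [← Real.rpow_natCast, Real.rpow_def_of_pos (div_pos h2 h1),
    Real.rpow_def_of_pos (by linarith [NN_pos p]), Real.log_div h2.ne' h1.ne', e]
  refine Real.exp_le_exp.2 ((le_abs_self _).trans ?_)
  rw [abs_mul]
  exact mul_le_mul (abs_le.2 ⟨by linarith, by linarith⟩) (h.trans (Nat.le_ceil M)) (abs_nonneg _)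
    (by linarith)

theorem geom {m h : ℝ} {x y : ℂ} (hm : m ∈ Ioc (0 : ℝ) 1) (hh : 0 < h) (hA : Adm m h x y) :
    23 / 32 * (m * h) + |x.im| ≤
      y.re * Real.cos (m ^ 2 / 4) - |y.im| * Real.sin (m ^ 2 / 4) := by
  obtain ⟨m0, m1⟩ := hm
  obtain ⟨a1, a2⟩ := hA
  have hu0 : 0 ≤ m ^ 2 / 4 := by positivity
  have hu1 : m ^ 2 / 4 ≤ 1 / 4 := by nlinarith
  have c1 : 1 - (m ^ 2 / 4) ^ 2 / 2 ≤ Real.cos (m ^ 2 / 4) := Real.one_sub_sq_div_two_le_cos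
  have s1 : Real.sin (m ^ 2 / 4) ≤ m ^ 2 / 4 := Real.sin_le hu0
  have r0 : 0 ≤ y.re := by nlinarith [abs_nonneg x.im, mul_pos m0 hh]
  have r1 : y.re ≤ h / m := (re_le_norm y).trans a1
  have i1 : |y.im| ≤ h / m := (abs_im_le_norm y).trans a1
  have e : h / m * (m ^ 2 / 4) = m * h / 4 := by field_simp
  have k1 : |y.im| * Real.sin (m ^ 2 / 4) ≤ m * h / 4 := by
    rw [← e]
    exact (mul_le_mul_of_nonneg_left s1 (abs_nonneg _)).trans (mul_le_mul_of_nonneg_right i1 hu0)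
  have k2 : y.re * (m ^ 2 / 4) ≤ m * h / 4 := by
    rw [← e]
    exact mul_le_mul_of_nonneg_right r1 hu0
  have k3 : y.re * (m ^ 2 / 4) * (m ^ 2 / 4) ≤ m * h / 4 * (1 / 4) :=
    mul_le_mul k2 hu1 hu0 (by positivity)
  have k4 := mul_le_mul_of_nonneg_left c1 r0
  nlinarith

theorem decay {N τ : ℝ} (hN : 1 ≤ N) (hτ : 0 < τ) (K : ℕ) :
    N ^ K * Real.exp (-(2 * N * τ)) ≤
      ((K + 2).factorial * 2 ^ (K + 2)) * (1 + 1 / τ) ^ (K + 2) * Real.exp (-(3 / 2 * τ)) *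
        (1 / N ^ 2) := by
  have h0 : 0 < N := by linarith
  have h1 := Real.pow_div_factorial_le_exp (N * τ / 2) (by positivity) (K + 2)
  have hf : (0 : ℝ) < (K + 2).factorial := by positivity
  rw [div_le_iff₀ hf] at h1
  have h2 : Real.exp (-(2 * N * τ)) ≤ Real.exp (-(3 / 2 * τ)) * (Real.exp (N * τ / 2))⁻¹ := by
    rw [← Real.exp_neg, ← Real.exp_add]
    exact Real.exp_le_exp.2 (by nlinarith)
  have h3 : (Real.exp (N * τ / 2))⁻¹ ≤ (K + 2).factorial / (N * τ / 2) ^ (K + 2) := by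
    rw [le_div_iff₀ (by positivity), inv_mul_le_iff₀ (Real.exp_pos _)]
    exact h1
  have h4 : (1 / τ) ^ (K + 2) ≤ (1 + 1 / τ) ^ (K + 2) :=
    pow_le_pow_left₀ (by positivity) (by linarith) _
  calc N ^ K * Real.exp (-(2 * N * τ))
      ≤ N ^ K * (Real.exp (-(3 / 2 * τ)) * ((K + 2).factorial / (N * τ / 2) ^ (K + 2))) := by
        gcongr
        exact h2.trans (mul_le_mul_of_nonneg_left h3 (Real.exp_pos _).le)
    _ = ((K + 2).factorial * 2 ^ (K + 2)) * (1 / τ) ^ (K + 2) * Real.exp (-(3 / 2 * τ)) *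
        (1 / N ^ 2) := by
        rw [div_pow, mul_pow, one_div_pow]
        field_simp
        ring
    _ ≤ _ := by gcongr

theorem term (hV : St_VB1) (M : ℝ) : ∃ (C : ℝ) (k : ℕ), 0 ≤ C ∧ ∀ m ∈ Ioc (0 : ℝ) 1, ∀ h : ℝ,
    0 < h → ∀ x y s : ℂ, Adm m h x y → |s.re - 1 / 2| ≤ M → ∀ p, ‖Vt x y s p‖ ≤
      C * (1 + 1 / (m * h)) ^ k * Real.exp (-(3 / 2 * (m * h)) - m ^ 2 * |s.im| / 4) * ww p := by
  obtain ⟨C, k, hK⟩ := hV.2.2.2 M
  refine ⟨|C| * ((⌈M⌉₊ + 2).factorial * 2 ^ (⌈M⌉₊ + 2)), k + (⌈M⌉₊ + 2), by positivity,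
    fun m hm h hh x y s hA hs p => ?_⟩
  have hN := NN_pos p
  have hτ : 0 < m * h := mul_pos hm.1 hh
  have hg := geom hm hh hA
  have hπ := Real.pi_gt_three
  have hc : 0 < 2 * π * (NN p : ℝ) := by positivity
  have hre : (s - 1 / 2).re = s.re - 1 / 2 := by simp
  have him : (s - 1 / 2).im = s.im := by simp
  have h1 := hK (((2 * π * NN p : ℝ) : ℂ) * y) (s - 1 / 2) (m ^ 2 / 4) (4 * NN p * (m * h))
    (2 * π * NN p * |x.im|) (by positivity) (by nlinarith [hm.1, hm.2]) (by positivity)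
    (by positivity) (by
      rw [re_ofReal_mul, im_ofReal_mul, abs_mul, abs_of_pos hc]
      have a1 := mul_le_mul_of_nonneg_left hg hc.le
      have a2 : 0 ≤ (π - 3) * ((NN p : ℝ) * (m * h)) := by
        have : 0 ≤ π - 3 := by linarith
        positivity
      have a3 : 0 ≤ (NN p : ℝ) * (m * h) := by positivity
      nlinarith) (by rw [hre]; exact hs)
  have h2 := norm_cos_le (((2 * π * NN p : ℝ) : ℂ) * x)
  rw [im_ofReal_mul, abs_mul, abs_of_pos hc] at h2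
  have h3 : ‖((((p.2 : ℝ) + 1) / ((p.1 : ℝ) + 1) : ℝ) : ℂ) ^ (s - 1 / 2)‖ ≤ (NN p : ℝ) ^ ⌈M⌉₊ := by
    rw [norm_cpow_eq_rpow_re_of_pos (by positivity), hre]
    exact ratio_le p hs
  have h4 : (1 + 1 / (4 * (NN p : ℝ) * (m * h))) ^ k ≤ (1 + 1 / (m * h)) ^ k := by
    refine pow_le_pow_left₀ (by positivity) (add_le_add le_rfl ?_) _
    exact one_div_le_one_div_of_le hτ (by nlinarith)
  have h5 : ‖Kb (((2 * π * NN p : ℝ) : ℂ) * y) (s - 1 / 2)‖ ≤ |C| * (1 + 1 / (m * h)) ^ k *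
      Real.exp (-(2 * π * NN p * |x.im|) - 4 * NN p * (m * h) / 2 - m ^ 2 / 4 * |s.im|) := by
    rw [him] at h1
    refine h1.trans (mul_le_mul_of_nonneg_right ?_ (Real.exp_pos _).le)
    exact mul_le_mul (le_abs_self C) h4 (by positivity) (abs_nonneg C)
  have h6 := decay hN hτ ⌈M⌉₊
  have e1 : Real.exp (2 * π * NN p * |x.im|) *
      Real.exp (-(2 * π * NN p * |x.im|) - 4 * NN p * (m * h) / 2 - m ^ 2 / 4 * |s.im|) =
      Real.exp (-(2 * NN p * (m * h))) * Real.exp (-(m ^ 2 * |s.im| / 4)) := by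
    rw [← Real.exp_add, ← Real.exp_add]
    congr 1
    ring
  rw [Vt_eq, norm_mul, norm_mul, ww_eq, sub_eq_add_neg (-(3 / 2 * (m * h))), Real.exp_add]
  calc _ ≤ Real.exp (2 * π * NN p * |x.im|) * (NN p : ℝ) ^ ⌈M⌉₊ * (|C| * (1 + 1 / (m * h)) ^ k *
        Real.exp (-(2 * π * NN p * |x.im|) - 4 * NN p * (m * h) / 2 - m ^ 2 / 4 * |s.im|)) := by
        gcongr
    _ = |C| * (1 + 1 / (m * h)) ^ k * Real.exp (-(m ^ 2 * |s.im| / 4)) *
        ((NN p : ℝ) ^ ⌈M⌉₊ * Real.exp (-(2 * NN p * (m * h)))) := by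
        linear_combination (|C| * (1 + 1 / (m * h)) ^ k * (NN p : ℝ) ^ ⌈M⌉₊) * e1
    _ ≤ |C| * (1 + 1 / (m * h)) ^ k * Real.exp (-(m ^ 2 * |s.im| / 4)) *
        ((((⌈M⌉₊ + 2).factorial * 2 ^ (⌈M⌉₊ + 2)) * (1 + 1 / (m * h)) ^ (⌈M⌉₊ + 2) *
          Real.exp (-(3 / 2 * (m * h))) * (1 / (NN p : ℝ) ^ 2))) := by gcongr
    _ = _ := by ring

/-- the domain -/
def DD : Set (ℂ × ℂ × ℂ) := {p | |p.1.im| < p.2.1.re}

theorem loc {q : ℂ × ℂ × ℂ} (hq : q ∈ DD) : ∃ m ∈ Ioc (0 : ℝ) 1, ∃ M : ℝ,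
    ∀ᶠ p in 𝓝 q, p ∈ DD ∧ Adm m 1 p.1 p.2.1 ∧ |p.2.2.re - 1 / 2| ≤ M := by
  have hδ : 0 < q.2.1.re - |q.1.im| := sub_pos.2 hq
  have hm : 0 < min 1 (min ((q.2.1.re - |q.1.im|) / 2) (1 / (‖q.2.1‖ + 1))) := by positivity
  have m2 : min 1 (min ((q.2.1.re - |q.1.im|) / 2) (1 / (‖q.2.1‖ + 1))) ≤
      (q.2.1.re - |q.1.im|) / 2 := (min_le_right _ _).trans (min_le_left _ _)
  have m3 : min 1 (min ((q.2.1.re - |q.1.im|) / 2) (1 / (‖q.2.1‖ + 1))) ≤ 1 / (‖q.2.1‖ + 1) :=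
    (min_le_right _ _).trans (min_le_right _ _)
  refine ⟨_, ⟨hm, min_le_left _ _⟩, |q.2.2.re - 1 / 2| + 1, ?_⟩
  have c1 : Continuous fun p : ℂ × ℂ × ℂ => p.2.1.re - |p.1.im| := by fun_prop
  have c2 : Continuous fun p : ℂ × ℂ × ℂ => ‖p.2.1‖ := by fun_prop
  have c3 : Continuous fun p : ℂ × ℂ × ℂ => |p.2.2.re - 1 / 2| := by fun_prop
  filter_upwards [continuousAt_const.eventually_lt c1.continuousAt (half_lt_self hδ),
    c2.continuousAt.eventually_lt continuousAt_const (lt_add_one ‖q.2.1‖),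
    c3.continuousAt.eventually_lt continuousAt_const (lt_add_one |q.2.2.re - 1 / 2|)]
    with p a1 a2 a3
  refine ⟨show |p.1.im| < p.2.1.re by linarith, ⟨?_, by linarith⟩, a3.le⟩
  rw [le_div_iff₀ hm]
  rw [le_div_iff₀ (by positivity)] at m3
  nlinarith

theorem dom (hV : St_VB1) {q : ℂ × ℂ × ℂ} (hq : q ∈ DD) : ∃ B : ℝ,
    (∀ᶠ p in 𝓝 q, p ∈ DD ∧ ∀ i, ‖Vt p.1 p.2.1 p.2.2 i‖ ≤ B * ww i) ∧
    ∀ x : ℂ, |x.im| = |q.1.im| → ∀ i, ‖Vt x q.2.1 q.2.2 i‖ ≤ B * ww i := by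
  obtain ⟨m, hm, M, h⟩ := loc hq
  obtain ⟨C, k, hC, hT⟩ := term hV M
  have key : ∀ x y s : ℂ, Adm m 1 x y → |s.re - 1 / 2| ≤ M → ∀ i,
      ‖Vt x y s i‖ ≤ C * (1 + 1 / (m * 1)) ^ k * ww i := fun x y s a1 a2 i => by
    refine (hT m hm 1 one_pos x y s a1 a2 i).trans (mul_le_mul_of_nonneg_right ?_ (ww_nonneg i))
    have := hm.1
    refine mul_le_of_le_one_right (by positivity) (Real.exp_le_one_iff.2 ?_)
    have : 0 ≤ m ^ 2 * |s.im| / 4 := by positivity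
    linarith
  refine ⟨_, h.mono fun p hp => ⟨hp.1, key _ _ _ hp.2.1 hp.2.2⟩, fun x hx => ?_⟩
  obtain ⟨-, a1, a2⟩ := h.self_of_nhds
  exact key _ _ _ ⟨a1.1, by rw [hx]; exact a1.2⟩ a2

theorem re_pos {p : ℂ × ℂ × ℂ} (hp : p ∈ DD) : 0 < p.2.1.re := (abs_nonneg _).trans_lt hp

theorem arg_pos (i : ℕ × ℕ) {y : ℂ} (hy : 0 < y.re) :
    0 < (((2 * π * NN i : ℝ) : ℂ) * y).re := by
  rw [re_ofReal_mul]
  have := NN_pos i
  positivity

theorem ratio_ne (i : ℕ × ℕ) : ((((i.2 : ℝ) + 1) / ((i.1 : ℝ) + 1) : ℝ) : ℂ) ≠ 0 :=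
  ofReal_ne_zero.2 (by positivity)

theorem Vt_cont (hV : St_VB1) (i : ℕ × ℕ) :
    ContinuousOn (fun p : ℂ × ℂ × ℂ => Vt p.1 p.2.1 p.2.2 i) DD := by
  simp only [Vt_eq]
  refine (ContinuousOn.mul (Continuous.continuousOn (by fun_prop)) (Continuous.continuousOn
    (Continuous.const_cpow (by fun_prop) (Or.inl (ratio_ne i))))).mul ?_
  exact hV.2.1.comp (f := fun p : ℂ × ℂ × ℂ => (((2 * π * NN i : ℝ) : ℂ) * p.2.1, p.2.2 - 1 / 2))
    (Continuous.continuousOn (by fun_prop)) fun p hp => arg_pos i (re_pos hp)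

theorem cont (hV : St_VB1) : ContinuousOn (fun p : ℂ × ℂ × ℂ => Vf p.1 p.2.1 p.2.2) DD := by
  intro q hq
  obtain ⟨B, h, -⟩ := dom hV hq
  have h1 : ContinuousAt (fun p : ℂ × ℂ × ℂ => ∑' i, Vt p.1 p.2.1 p.2.2 i) q :=
    (continuousOn_tsum (fun i => (Vt_cont hV i).mono fun p hp => hp.1) (ww_sum.mul_left B)
      fun i p hp => hp.2 i).continuousAt h
  have h2 : ContinuousAt (fun p : ℂ × ℂ × ℂ => p.2.1 ^ (1 / 2 : ℂ)) q :=
    ContinuousAt.cpow (by fun_prop) continuousAt_const (Or.inl (re_pos hq))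
  exact ((continuousAt_const.mul h2).mul h1).continuousWithinAt

theorem diff (hV : St_VB1) (U : Set ℂ) (X Y S : ℂ → ℂ) (hU : IsOpen U) (hX : DifferentiableOn ℂ X U)
    (hY : DifferentiableOn ℂ Y U) (hS : DifferentiableOn ℂ S U)
    (hD : ∀ c ∈ U, |(X c).im| < (Y c).re) :
    DifferentiableOn ℂ (fun c => Vf (X c) (Y c) (S c)) U := by
  have hy : ∀ c ∈ U, 0 < (Y c).re := fun c hc => (abs_nonneg _).trans_lt (hD c hc)
  have ht : ∀ i, DifferentiableOn ℂ (fun c => Vt (X c) (Y c) (S c) i) U := fun i => by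
    simp only [Vt_eq]
    refine ((hX.const_mul _).ccos.mul ((hS.sub_const _).const_cpow (Or.inl (ratio_ne i)))).mul ?_
    exact hV.2.2.1 U _ _ hU (hY.const_mul _) (hS.sub_const _) fun c hc => arg_pos i (hy c hc)
  have h2 : DifferentiableOn ℂ (fun c => ∑' i, Vt (X c) (Y c) (S c) i) U := by
    intro c hc
    have hn := hU.mem_nhds hc
    obtain ⟨B, h, -⟩ := dom hV (q := (X c, Y c, S c)) (hD c hc)
    have hcont : ContinuousAt (fun c => (X c, Y c, S c)) c :=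
      (hX.continuousOn.continuousAt hn).prodMk
        ((hY.continuousOn.continuousAt hn).prodMk (hS.continuousOn.continuousAt hn))
    obtain ⟨W, hW, hWo, hcW⟩ := mem_nhds_iff.1 (inter_mem hn (hcont.eventually h))
    exact ((differentiableOn_tsum_of_summable_norm (ww_sum.mul_left B)
      (fun i => (ht i).mono fun z hz => (hW hz).1) hWo
      fun i z hz => (hW hz).2.2 i).differentiableAt (hWo.mem_nhds hcW)).differentiableWithinAt
  exact ((hY.cpow_const fun c hc => Or.inl (hy c hc)).const_mul 2).mul h2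

theorem bound (hV : St_VB1) (M : ℝ) : ∃ (C : ℝ) (k : ℕ), ∀ m ∈ Ioc (0 : ℝ) 1, ∀ h : ℝ, 0 < h →
    ∀ x y s : ℂ, Adm m h x y → |s.re - 1 / 2| ≤ M →
    ‖Vf x y s‖ ≤ C * (1 + 1 / h) ^ k / m ^ k * Real.exp (-(m * h) - m ^ 2 * |s.im| / 4) := by
  obtain ⟨C, k, hC, hT⟩ := term hV M
  refine ⟨2 * C * ∑' i, ww i, k + 1, fun m hm h hh x y s hA hs => ?_⟩
  have m0 := hm.1
  have hτ : 0 < m * h := mul_pos m0 hh
  have hS : 0 ≤ ∑' i, ww i := tsum_nonneg ww_nonneg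
  have h1 : ‖∑' i, Vt x y s i‖ ≤ C * (1 + 1 / (m * h)) ^ k *
      Real.exp (-(3 / 2 * (m * h)) - m ^ 2 * |s.im| / 4) * ∑' i, ww i :=
    tsum_of_norm_bounded (ww_sum.hasSum.mul_left _) (hT m hm h hh x y s hA hs)
  have h2 : ‖y ^ (1 / 2 : ℂ)‖ ≤ Real.exp (m * h / 2) / m := by
    rw [show (1 / 2 : ℂ) = ((1 / 2 : ℝ) : ℂ) by push_cast; rfl, norm_cpow_real,
      ← Real.sqrt_eq_rpow]
    refine Real.sqrt_le_iff.2 ⟨by positivity, hA.1.trans ?_⟩
    rw [div_pow, ← Real.exp_nat_mul, div_le_div_iff₀ m0 (by positivity)]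
    have a1 := Real.add_one_le_exp (((2 : ℕ) : ℝ) * (m * h / 2))
    have a2 : ((2 : ℕ) : ℝ) * (m * h / 2) = m * h := by push_cast; ring
    rw [a2] at a1 ⊢
    nlinarith
  have h3 : 1 + 1 / (m * h) ≤ (1 + 1 / h) / m := by
    rw [add_div, div_div, mul_comm h m]
    exact add_le_add (one_le_one_div m0 hm.2) le_rfl
  have h4 : 1 / m ≤ (1 + 1 / h) / m :=
    div_le_div_of_nonneg_right (le_add_of_nonneg_right (by positivity)) m0.le
  have e1 : Real.exp (m * h / 2) * Real.exp (-(3 / 2 * (m * h)) - m ^ 2 * |s.im| / 4) =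
      Real.exp (-(m * h) - m ^ 2 * |s.im| / 4) := by
    rw [← Real.exp_add]
    congr 1
    ring
  rw [Vf, norm_mul, norm_mul, Complex.norm_two]
  calc _ ≤ 2 * (Real.exp (m * h / 2) / m) * (C * (1 + 1 / (m * h)) ^ k *
        Real.exp (-(3 / 2 * (m * h)) - m ^ 2 * |s.im| / 4) * ∑' i, ww i) := by gcongr
    _ = (2 * C * ∑' i, ww i) * ((1 + 1 / (m * h)) ^ k * (1 / m)) *
        Real.exp (-(m * h) - m ^ 2 * |s.im| / 4) := by
        rw [← e1]
        ring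
    _ ≤ (2 * C * ∑' i, ww i) * (((1 + 1 / h) / m) ^ k * ((1 + 1 / h) / m)) *
        Real.exp (-(m * h) - m ^ 2 * |s.im| / 4) := by gcongr
    _ = _ := by
        rw [← pow_succ, div_pow]
        ring

theorem per (x y s : ℂ) (i : ℕ × ℕ) : Vt (x + 1) y s i = Vt x y s i := by
  rw [Vt_eq, Vt_eq]
  have : ((2 * π * NN i : ℝ) : ℂ) * (x + 1) = ((2 * π * NN i : ℝ) : ℂ) * x + NN i * (2 * π) := by
    push_cast
    ring
  rw [this, Complex.cos_add_nat_mul_two_pi]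

theorem mean (hV : St_VB1) (y s : ℂ) (hy : 0 < y.re) : ∫ x in (0 : ℝ)..1, Vf x y s = 0 := by
  have hq : ((0 : ℂ), y, s) ∈ DD := by
    show |(0 : ℂ).im| < y.re
    simpa using hy
  obtain ⟨B, -, h⟩ := dom hV hq
  have hb : ∀ (x : ℝ) (i : ℕ × ℕ), ‖Vt x y s i‖ ≤ B * ww i := fun x => h x (by simp)
  have h1 := intervalIntegral.hasSum_integral_of_dominated_convergence (μ := volume) (a := 0)
    (b := 1) (F := fun i (x : ℝ) => Vt x y s i) (f := fun x : ℝ => ∑' i, Vt x y s i)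
    (fun i _ => B * ww i)
    (fun i => Continuous.aestronglyMeasurable (by simp only [Vt_eq]; fun_prop))
    (fun i => ae_of_all _ fun x _ => hb x i) (ae_of_all _ fun x _ => ww_sum.mul_left B)
    intervalIntegrable_const
    (ae_of_all _ fun x _ => (Summable.of_norm_bounded (ww_sum.mul_left B) (hb x)).hasSum)
  have h2 : ∀ i, ∫ x in (0 : ℝ)..1, Vt x y s i = 0 := fun i => by
    have hN := NN_pos i
    have hz : ((2 * π * NN i : ℝ) : ℂ) ≠ 0 := ofReal_ne_zero.2 (by positivity)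
    have e : ((2 * π * NN i : ℝ) : ℂ) * ((1 : ℝ) : ℂ) = ((2 * NN i : ℕ) : ℂ) * π := by
      push_cast
      ring
    simp only [Vt_eq]
    rw [intervalIntegral.integral_mul_const, intervalIntegral.integral_mul_const,
      integral_cos_mul_complex hz, e, Complex.sin_nat_mul_pi]
    simp
  simp only [h2] at h1
  simp only [Vf]
  rw [intervalIntegral.integral_const_mul, h1.unique hasSum_zero, mul_zero]

end VB2

open VB2 in
theorem t_vb2 : T_VB2 := fun hV =>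
  ⟨fun x y s h => by
      obtain ⟨B, -, hb⟩ := dom hV (q := (x, y, s)) h
      exact Summable.of_nonneg_of_le (fun _ => norm_nonneg _) (hb x rfl) (ww_sum.mul_left B),
    VB2.cont hV, VB2.diff hV, VB2.bound hV,
    fun x y s => ⟨by simp only [Vf, Vt_eq, mul_neg, Complex.cos_neg], by simp only [Vf, VB2.per]⟩,
    VB2.mean hV⟩

end

end Pool.Agent.Lib.E2
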