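import Pool.Agent.Lib.E2.Blue

/-! Block WAVE1: the wave operator on eigenfunctions, and its symmetry. -/

namespace Pool.Agent.Lib.E2

open Complex MeasureTheory Set Filter Topology
open scoped Real UpperHalfPlane ComplexConjugate

theorem wave1_kw (S q : ℝ) : kw S q = (√(1 + 2 * S ^ 2 - q))⁻¹ := by
  unfold kw
  split_ifs with h
  · rw [Real.rpow_neg (by linarith), Real.sqrt_eq_rpow]
  · rw [Real.sqrt_eq_zero_of_nonpos (by linarith), inv_zero]

theorem wave1_base : ∫ t : ℝ, (√(1 - t ^ 2))⁻¹ = π := by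
  have hd : ∀ x ∈ Ioo (-1 : ℝ) 1, HasDerivAt Real.arcsin (√(1 - x ^ 2))⁻¹ x := fun x hx => by
    simpa using Real.hasDerivAt_arcsin hx.1.ne' hx.2.ne
  have h1 := intervalIntegral.integral_eq_sub_of_hasDerivAt_of_le (by norm_num : (-1 : ℝ) ≤ 1)
    Real.continuous_arcsin.continuousOn hd
    ((intervalIntegrable_iff_integrableOn_Ioc_of_le (by norm_num)).2
      (intervalIntegral.integrableOn_deriv_of_nonneg Real.continuous_arcsin.continuousOn hd
        fun x _ => by positivity))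
  rw [intervalIntegral.integral_of_le (by norm_num),
    setIntegral_eq_integral_of_forall_compl_eq_zero] at h1
  · rw [h1, Real.arcsin_one, Real.arcsin_neg_one]; ring
  · intro x hx
    rw [Real.sqrt_eq_zero_of_nonpos, inv_zero]
    by_contra h
    exact hx ⟨by nlinarith, by nlinarith⟩

theorem wave1_scale {A B : ℝ} (hA : 0 < A) (hB : 0 < B) :
    ∫ u : ℝ, (√((A - u ^ 2) / B))⁻¹ = π * √B := by
  have hs : 0 < √A := Real.sqrt_pos.2 hA
  have h1 := Measure.integral_comp_mul_left (fun u : ℝ => (√((A - u ^ 2) / B))⁻¹) (√A)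
  have h2 : ∀ t : ℝ, (√((A - (√A * t) ^ 2) / B))⁻¹ = (√A)⁻¹ * √B * (√(1 - t ^ 2))⁻¹ := fun t => by
    rw [mul_pow, Real.sq_sqrt hA.le, ← mul_one_sub, Real.sqrt_div' _ hB.le, Real.sqrt_mul hA.le,
      inv_div, div_eq_mul_inv, mul_inv]
    ring
  simp only [h2] at h1
  rw [integral_const_mul, wave1_base, abs_of_pos (inv_pos.2 hs), smul_eq_mul, mul_assoc] at h1
  rw [← mul_left_cancel₀ (inv_pos.2 hs).ne' h1, mul_comm]

theorem wave1_int (hP : St_POLAR) (hS : St_SYM) {f : ℍ → ℂ} (hf : Continuous f) (S : ℝ) (z : ℍ) :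
    Integrable fun w => (kw S (qd z w) : ℂ) * f w := by
  have h1 := (hP.2.2.2.2 z (kw S) (hS.2.2.1 S).1 (hS.2.2.1 S).2).1
  obtain ⟨C, hC⟩ := (isCompact_closedBall z (1 + 2 * S ^ 2)).exists_bound_of_continuousOn
    hf.continuousOn
  refine (h1.norm.mul_const C).mono' (h1.ofReal.1.mul hf.aestronglyMeasurable)
    (Eventually.of_forall fun w => ?_)
  rw [norm_mul, Complex.norm_real]
  by_cases h : qd z w < 1 + 2 * S ^ 2
  · refine mul_le_mul_of_nonneg_left (hC w ?_) (norm_nonneg _)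
    rw [Metric.mem_closedBall, dist_comm]
    have h2 := Real.sinh_lt_cosh (dist z w)
    have h3 := Real.self_le_sinh_iff.2 (dist_nonneg (x := z) (y := w))
    unfold qd at h
    linarith
  · simp [kw, h]

theorem wave1_polar (hP : St_POLAR) (hS : St_SYM) {f : ℍ → ℂ} (hf : Continuous f) {S : ℝ}
    (h0 : 0 < S) (z : ℍ) : Rop (kw S) f z = (2 * √2 * S : ℝ) * Uop S f z := by
  obtain ⟨h1, h2⟩ := hP.2.2.1 z fun w => (kw S (qd z w) : ℂ) * f w
  have h3 := h1.1 (wave1_int hP hS hf S z)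
  rw [Rop, h2, Measure.volume_eq_prod, setIntegral_prod _ h3]
  have h4 := integral_comp_mul_left_Ioi' (fun c : ℝ => ∫ b in Ioo (-π) π,
    ((4 * c : ℝ) : ℂ) * ((kw S (qd z (ppt z c b)) : ℂ) * f (ppt z c b))) 0 h0
  rw [mul_zero] at h4
  have e : ∀ t b : ℝ, ((4 * (S * t) : ℝ) : ℂ) * ((kw S (qd z (ppt z (S * t) b)) : ℂ) *
      f (ppt z (S * t) b)) = (2 * √2 : ℝ) * (((t / √(1 - t ^ 2) : ℝ) : ℂ) * f (ppt z (S * t) b)) := by
    intro t b
    have a1 : 1 + 2 * S ^ 2 - (1 + 2 * (S * t) ^ 2) = S ^ 2 * (2 * (1 - t ^ 2)) := by ring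
    have a2 : 0 < √2 := by positivity
    have a3 : √2 * √2 = 2 := Real.mul_self_sqrt (by norm_num)
    rw [(hP.1 z (S * t) b).2.2, wave1_kw, a1, Real.sqrt_mul (sq_nonneg S), Real.sqrt_sq h0.le,
      Real.sqrt_mul (by norm_num), ← mul_assoc ((4 * (S * t) : ℝ) : ℂ), ← Complex.ofReal_mul,
      ← mul_assoc ((2 * √2 : ℝ) : ℂ), ← Complex.ofReal_mul]
    congr 2
    have a4 : (√2)⁻¹ = √2 / 2 := by field_simp; linarith
    rw [mul_inv, mul_inv, a4, div_eq_mul_inv t]
    field_simp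
    ring
  simp only [e] at h4
  simp only
  rw [← h4, setIntegral_eq_of_subset_of_forall_sdiff_eq_zero measurableSet_Ioi
    (Ioo_subset_Ioi_self : Ioo (0 : ℝ) 1 ⊆ Ioi 0), Uop]
  · simp only [integral_const_mul (((2 * √2 : ℝ) : ℂ))]
    rw [Complex.real_smul]
    push_cast
    ring
  · intro t ht
    have a1 : 1 ≤ t := not_lt.1 fun a => ht.2 ⟨ht.1, a⟩
    rw [Real.sqrt_eq_zero_of_nonpos (by nlinarith : 1 - t ^ 2 ≤ 0)]
    simp

theorem wave1_exp (T : ℝ) (w : ℂ) : ((Real.exp T : ℝ) : ℂ) ^ w = exp (T * w) := by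
  rw [cpow_def_of_ne_zero (ofReal_ne_zero.2 (Real.exp_pos T).ne'),
    ← ofReal_log (Real.exp_pos T).le, Real.log_exp]

theorem wave1_ys (hG : St_GEO) (hU : St_UNF1) (hP : St_POLAR) (hS : St_SYM) {k : ℝ} (hk : 0 < k)
    (hc : Continuous (Ys k)) {S : ℝ} (h0 : 0 < S) :
    Rop (kw S) (Ys k) UpperHalfPlane.I =
      (2 * √2 : ℝ) * ((π * Real.sin (2 * k * Real.arsinh S) / k : ℝ) : ℂ) := by
  set T := 2 * Real.arsinh S with hT
  have hT0 : 0 < T := by have := Real.arsinh_pos_iff.2 h0; positivity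
  have hE : Real.exp T + Real.exp (-T) = 2 * (1 + 2 * S ^ 2) := by
    have a1 := Real.cosh_eq T
    rw [hT, Real.cosh_two_mul, Real.cosh_sq, Real.sinh_arsinh, ← hT] at a1
    linarith
  have hE' : Real.exp T * Real.exp (-T) = 1 := by rw [← Real.exp_add]; simp
  have hle : Real.exp (-T) ≤ Real.exp T := Real.exp_le_exp.2 (by linarith)
  obtain ⟨h1, h2⟩ := hU.2.2.2.2.2.1 fun w => (kw S (qd UpperHalfPlane.I w) : ℂ) * Ys k w
  have h3 := h1.1 (wave1_int hP hS hc S _)
  rw [IntegrableOn, Measure.volume_eq_prod, ← Measure.prod_restrict, Measure.restrict_univ] at h3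
  rw [Rop, h2, Measure.volume_eq_prod, ← Measure.prod_restrict, Measure.restrict_univ,
    integral_prod_symm _ h3]
  have e : ∀ v ∈ Ioi (0 : ℝ), ∫ u : ℝ, ((1 / v ^ 2 : ℝ) : ℂ) *
      ((kw S (qd UpperHalfPlane.I (pt u v)) : ℂ) * Ys k (pt u v)) =
      ((1 / v ^ 2 : ℝ) : ℂ) * (v : ℂ) ^ sk k *
        ((∫ u : ℝ, (√(((Real.exp T - v) * (v - Real.exp (-T)) - u ^ 2) / (2 * v)))⁻¹ : ℝ) : ℂ) := by
    intro v hv
    have hv' : (0 : ℝ) < v := hv
    rw [← integral_complex_ofReal, ← integral_const_mul]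
    refine integral_congr_ae (Eventually.of_forall fun u => ?_)
    have a1 : 1 + 2 * S ^ 2 - qd UpperHalfPlane.I (pt u v) =
        ((Real.exp T - v) * (v - Real.exp (-T)) - u ^ 2) / (2 * v) := by
      rw [hG.1, (hU.1 u v hv).1, (hU.1 u v hv).2, UpperHalfPlane.I_re, UpperHalfPlane.I_im]
      field_simp
      linear_combination (-v) * hE + hE'
    simp only
    rw [wave1_kw, a1, Ys, (hU.1 u v hv).2]
    ring
  simp only
  rw [setIntegral_congr_fun measurableSet_Ioi e,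
    setIntegral_eq_of_subset_of_forall_sdiff_eq_zero measurableSet_Ioi
      (fun v (hv : v ∈ Ioo (Real.exp (-T)) (Real.exp T)) => (Real.exp_pos _).trans hv.1),
    setIntegral_congr_fun measurableSet_Ioo
      (g := fun v : ℝ => ((√2 * π : ℝ) : ℂ) * (v : ℂ) ^ (k * I - 1 : ℂ)), integral_const_mul,
    ← integral_Ioc_eq_integral_Ioo, ← intervalIntegral.integral_of_le hle, integral_cpow]
  · have hk' : (k : ℂ) ≠ 0 := ofReal_ne_zero.2 hk.ne'
    have a1 := Complex.two_sin (k * T)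
    have a2 : 2 * k * Real.arsinh S = k * T := by rw [hT]; ring
    rw [sub_add_cancel, wave1_exp, wave1_exp, a2]
    push_cast
    rw [show (T : ℂ) * (k * I) = k * T * I by ring, show (-T : ℂ) * (k * I) = -(k * T) * I by ring]
    generalize exp (-(k * T) * I) = A at a1 ⊢
    generalize exp (k * T * I) = B at a1 ⊢
    field_simp
    linear_combination (-I) * a1 - (A - B) * I_sq
  · refine Or.inr ⟨fun h => ?_, fun h => ?_⟩
    · have := congrArg Complex.im h
      simp at this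
      exact hk.ne' this
    · rw [uIcc_of_le hle] at h
      exact absurd h.1 (not_le.2 (Real.exp_pos _))
  · intro v hv
    have hv0 : 0 < v := (Real.exp_pos _).trans hv.1
    have hv1 : (v : ℂ) ≠ 0 := ofReal_ne_zero.2 hv0.ne'
    have a1 : (v : ℂ) ^ sk k = (v : ℂ) ^ (k * I - 1 : ℂ) * v * (√v : ℝ) := by
      rw [Real.sqrt_eq_rpow, ofReal_cpow hv0.le, show sk k = k * I - 1 + 1 + ((1 / 2 : ℝ) : ℂ) by
        rw [sk]; push_cast; ring, cpow_add _ _ hv1, cpow_add _ _ hv1, cpow_one]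
    have a2 : ((√v : ℝ) : ℂ) * (√v : ℝ) = v := by
      rw [← ofReal_mul, Real.mul_self_sqrt hv0.le]
    simp only
    rw [wave1_scale (mul_pos (sub_pos.2 hv.2) (sub_pos.2 hv.1)) (by positivity), a1,
      Real.sqrt_mul (by norm_num)]
    push_cast
    field_simp
    linear_combination (v : ℂ) ^ (k * I - 1 : ℂ) * a2
  · intro v hv
    have hv0 : (0 : ℝ) < v := hv.1
    have a1 : (Real.exp T - v) * (v - Real.exp (-T)) ≤ 0 := by
      by_contra h
      refine hv.2 ⟨?_, ?_⟩ <;> nlinarith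
    have a2 : ∀ u : ℝ, (√(((Real.exp T - v) * (v - Real.exp (-T)) - u ^ 2) / (2 * v)))⁻¹ = 0 :=
      fun u => by
        rw [Real.sqrt_eq_zero_of_nonpos, inv_zero]
        exact div_nonpos_of_nonpos_of_nonneg (by nlinarith [sq_nonneg u]) (by positivity)
    simp [a2]

theorem t_wave1 : T_WAVE1 := by
  intro hG hU hP hL hS hY hM
  have h2 : ((2 * √2 : ℝ) : ℂ) ≠ 0 := ofReal_ne_zero.2 (by positivity)
  refine ⟨fun f k S z hk hf hc he h0 => ?_, fun f g S hf hg cf cg h0 => ?_⟩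
  · obtain ⟨y1, y2, y3, y4⟩ := hY k hk
    have y0 : Ys k z ≠ 0 := fun h => ofReal_ne_zero.2 z.im_pos.ne' ((cpow_eq_zero_iff _ _).1 h).1
    obtain ⟨l1, l2⟩ := hL.2.2.2.2.1 f (Ys k) (-(f z / Ys k z)) hc y2
    have i1 := wave1_int hP hS hf S z
    have i2 := wave1_int hP hS y1 S z
    have m := hM _ z l1 (fun a ha => by
      have a1 : Real.cos a < 1 := by
        rw [← Real.cos_zero]
        exact Real.cos_lt_cos_of_nonneg_of_le_pi le_rfl ha.2.le ha.1
      have a2 : (Real.sin a : ℂ) ≠ 0 :=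
        ofReal_ne_zero.2 (Real.sin_pos_of_pos_of_lt_pi ha.1 ha.2).ne'
      refine mul_left_cancel₀ a2 ?_
      rw [l2 a a1 z, mul_add, mul_left_comm, he a ha z, y3 a ha z]
      field_simp
      ring) (kw S) (hS.2.2.1 S).1 (wave1_int hP hS (hf.add (continuous_const.mul y1)) S z)
    have e : Rop (kw S) (fun w => f w + -(f z / Ys k z) * Ys k w) z =
        Rop (kw S) f z + -(f z / Ys k z) * Rop (kw S) (Ys k) z := by
      unfold Rop
      rw [← integral_const_mul, ← integral_add i1 (i2.const_mul _)]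
      exact integral_congr_ae (Eventually.of_forall fun w => by ring)
    rw [e, y4, wave1_ys hG hU hP hS hk y1 h0, wave1_polar hP hS hf h0] at m
    refine mul_left_cancel₀ h2 ?_
    rw [ofReal_mul _ S] at m
    field_simp at m
    linear_combination m
  · have c0 : ((2 * √2 * S : ℝ) : ℂ) ≠ 0 := ofReal_ne_zero.2 (by positivity)
    have e : ∀ {f : ℍ → ℂ}, Continuous f →
        Uop S f = fun z => (((2 * √2 * S)⁻¹ : ℝ) : ℂ) * Rop (kw S) f z := fun hf => by
      ext z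
      rw [wave1_polar hP hS hf h0, ofReal_inv, inv_mul_cancel_left₀ c0]
    rw [e cf, e cg, ((hL.2.2.2.2.2.2.1 _ _).2.2.2 _).1, ((hL.2.2.2.2.2.2.1 _ _).2.2.2 _).2.1,
      conj_ofReal, (hS.1 _ (hS.2.2.1 S).1 (hS.2.2.1 S).2 f hf).2 g hg]

end Pool.Agent.Lib.E2
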