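import Pool.Agent.Lib.E2.Blue

/-!
Block WAVE2: analytic continuation of the wave operator.
-/

namespace Pool.Agent.Lib.E2

noncomputable section

open Complex MeasureTheory Set Filter Topology
open scoped Real UpperHalfPlane MatrixGroups ComplexConjugate Modular ENNReal InnerProductSpace

/-- clamp to the unit interval -/
def wave2_cl (t : ℝ) : ℝ := max 0 (min 1 t)

def wave2_D : Set ℂ := {c | ‖c‖ ^ 2 < 1 / 2}

def wave2_wt (t : ℝ) : ℝ := t / √(1 - t ^ 2)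

def wave2_nu : Measure (ℝ × ℝ) :=
  (volume.restrict (Ioo (0 : ℝ) 1)).prod (volume.restrict (Ioo (-π) π))

def wave2_H (S : ℂ) (z : ℍ) (p : ℝ × ℝ) : ℂ :=
  Ft (px z (S * wave2_cl p.1) p.2) (py z (S * wave2_cl p.1) p.2)

def wave2_G (S : ℂ) (z : ℍ) : ℂ := ∫ p, (wave2_wt p.1 : ℂ) * wave2_H S z p ∂wave2_nu

instance wave2_sf : SFinite wave2_nu := by
  unfold wave2_nu
  infer_instance

theorem wave2_cl_cont : Continuous wave2_cl := by
  unfold wave2_cl
  fun_prop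

theorem wave2_cl_norm (S : ℂ) (t : ℝ) : ‖S * wave2_cl t‖ ≤ ‖S‖ := by
  have h1 : 0 ≤ wave2_cl t := le_max_left _ _
  have h2 : wave2_cl t ≤ 1 := max_le zero_le_one (min_le_left _ _)
  rw [norm_mul, Complex.norm_real, Real.norm_eq_abs, abs_of_nonneg h1]
  exact mul_le_of_le_one_right (norm_nonneg _) h2

theorem wave2_cl_sq (S : ℂ) (t : ℝ) : ‖S * wave2_cl t‖ ^ 2 ≤ ‖S‖ ^ 2 :=
  pow_le_pow_left₀ (norm_nonneg _) (wave2_cl_norm S t) 2

theorem wave2_cl_mem {S : ℂ} (h : S ∈ wave2_D) (t : ℝ) : S * wave2_cl t ∈ wave2_D :=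
  lt_of_le_of_lt (wave2_cl_sq S t) h

theorem wave2_D_open : IsOpen wave2_D := isOpen_lt (by fun_prop) continuous_const

theorem wave2_D_eq : wave2_D = Metric.ball 0 (√(1 / 2)) := by
  ext c
  rw [mem_ball_zero_iff, Real.lt_sqrt (norm_nonneg _)]
  rfl

theorem wave2_D_conn : IsPreconnected wave2_D := by
  rw [wave2_D_eq]
  exact (convex_ball _ _).isPreconnected

theorem wave2_wt_meas : Measurable wave2_wt := by
  unfold wave2_wt
  fun_prop

theorem wave2_wt_int : Integrable (fun p : ℝ × ℝ => wave2_wt p.1) wave2_nu := by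
  have h : IntegrableOn wave2_wt (Ioc (0 : ℝ) 1) := by
    refine intervalIntegral.integrableOn_deriv_of_nonneg (g := fun t => -√(1 - t ^ 2))
      (by fun_prop) ?_ ?_
    · intro x hx
      have h1 : 1 - x ^ 2 ≠ 0 := by nlinarith [hx.1, hx.2]
      have h2 : HasDerivAt (fun t : ℝ => 1 - t ^ 2) (-(2 * x)) x := by
        simpa using (hasDerivAt_pow 2 x).const_sub 1
      have h3 := (h2.sqrt h1).fun_neg
      refine h3.congr_deriv ?_
      unfold wave2_wt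
      field_simp
    · intro x hx
      exact div_nonneg hx.1.le (Real.sqrt_nonneg _)
  exact Integrable.comp_fst (h.mono_set Ioo_subset_Ioc_self) _

theorem wave2_om (hA : St_ADM) (z : ℍ) {c : ℂ} (hc : c ∈ wave2_D) (b : ℝ) :
    (px z c b, py z c b) ∈ Om := by
  have h := (hA.1 z c b hc).2
  have h1 : 0 < (1 - 2 * ‖c‖ ^ 2) / 4 := by
    have : ‖c‖ ^ 2 < 1 / 2 := hc
    linarith
  have h2 := mul_pos h1 z.im_pos
  show |(px z c b).im| < (py z c b).re
  linarith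

theorem wave2_H_cont (hF : St_FC1) (hA : St_ADM) {S : ℂ} (hS : S ∈ wave2_D) :
    Continuous (fun q : ℍ × ℝ × ℝ => wave2_H S q.1 q.2) := by
  have h1 : Continuous (fun q : ℍ × ℝ × ℝ => (q.1, S * wave2_cl q.2.1, q.2.2)) := by
    have := wave2_cl_cont
    fun_prop
  have h2 : Continuous (fun q : ℍ × ℝ × ℝ =>
      (px q.1 (S * wave2_cl q.2.1) q.2.2, py q.1 (S * wave2_cl q.2.1) q.2.2)) := by
    have h3 := hA.2.2.comp_continuous h1 fun q => wave2_cl_mem hS q.2.1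
    simp only [Function.comp_def] at h3
    exact h3
  have h4 := hF.1.comp_continuous h2 fun q => wave2_om hA q.1 (wave2_cl_mem hS q.2.1) q.2.2
  simp only [Function.comp_def] at h4
  unfold wave2_H
  exact h4

theorem wave2_H_diff (hF : St_FC1) (hA : St_ADM) (z : ℍ) (p : ℝ × ℝ) :
    DifferentiableOn ℂ (fun S => wave2_H S z p) wave2_D := by
  have h1 : DifferentiableOn ℂ (fun S : ℂ => S * wave2_cl p.1) wave2_D := by fun_prop
  have h2 : MapsTo (fun S : ℂ => S * wave2_cl p.1) wave2_D wave2_D :=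
    fun S hS => wave2_cl_mem hS p.1
  exact hF.2.1 wave2_D _ _ wave2_D_open ((hA.2.1 z p.2).1.comp h1 h2)
    ((hA.2.1 z p.2).2.comp h1 h2) fun S hS => wave2_om hA z (wave2_cl_mem hS p.1) p.2

theorem wave2_H_bd (hF : St_FC1) (hA : St_ADM) : ∃ (C : ℝ) (k : ℕ), 0 ≤ C ∧
    ∀ (m : ℝ) (S : ℂ) (z : ℍ) (p : ℝ × ℝ), 0 < m → m ≤ (1 - 2 * ‖S‖ ^ 2) / 4 → 1 / 2 ≤ z.im →
      ‖wave2_H S z p‖ ≤ C / m ^ k := by
  obtain ⟨C, k, h⟩ := hF.2.2.1
  refine ⟨|C|, k, abs_nonneg _, fun m S z p hm hS hz => ?_⟩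
  have h1 := wave2_cl_sq S p.1
  have h2 : ‖S * wave2_cl p.1‖ ^ 2 < 1 / 2 := by linarith
  have h3 : m ≤ (1 - 2 * ‖S * wave2_cl p.1‖ ^ 2) / 4 := by linarith
  have h4 : 0 < (1 - 2 * ‖S * wave2_cl p.1‖ ^ 2) / 4 := by linarith
  have h5 := h _ ⟨h4, by nlinarith [sq_nonneg ‖S * wave2_cl p.1‖]⟩ z.im hz _ _ (hA.1 z _ p.2 h2)
  refine h5.trans ?_
  generalize (1 - 2 * ‖S * wave2_cl p.1‖ ^ 2) / 4 = m' at h3 h4
  have h6 : Real.exp (-(m' * z.im) / 2) ≤ 1 := by
    rw [Real.exp_le_one_iff]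
    have := mul_pos h4 z.im_pos
    linarith
  calc C / m' ^ k * Real.exp (-(m' * z.im) / 2) ≤ |C| / m' ^ k * 1 := by
        gcongr
        exact le_abs_self C
    _ ≤ |C| / m ^ k := by
        rw [mul_one]
        gcongr

theorem wave2_sm (hF : St_FC1) (hA : St_ADM) {S : ℂ} (hS : S ∈ wave2_D) :
    StronglyMeasurable (fun q : ℍ × ℝ × ℝ => (wave2_wt q.2.1 : ℂ) * wave2_H S q.1 q.2) := by
  have h1 : Measurable (fun q : ℍ × ℝ × ℝ => (wave2_wt q.2.1 : ℂ)) := by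
    have := wave2_wt_meas
    fun_prop
  exact (h1.mul (wave2_H_cont hF hA hS).measurable).stronglyMeasurable

theorem wave2_sm1 (hF : St_FC1) (hA : St_ADM) {S : ℂ} (hS : S ∈ wave2_D) (z : ℍ) :
    AEStronglyMeasurable (fun p : ℝ × ℝ => (wave2_wt p.1 : ℂ) * wave2_H S z p) wave2_nu :=
  ((wave2_sm hF hA hS).comp_measurable measurable_prodMk_left).aestronglyMeasurable

theorem wave2_G_sm (hF : St_FC1) (hA : St_ADM) {S : ℂ} (hS : S ∈ wave2_D) :
    StronglyMeasurable (wave2_G S) :=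
  (wave2_sm hF hA hS).integral_prod_right' (ν := wave2_nu)

theorem wave2_nb {S : ℂ} {z : ℍ} {B : ℝ} (h : ∀ p, ‖wave2_H S z p‖ ≤ B) (p : ℝ × ℝ) :
    ‖(wave2_wt p.1 : ℂ) * wave2_H S z p‖ ≤ ‖wave2_wt p.1‖ * B := by
  rw [norm_mul, Complex.norm_real]
  exact mul_le_mul_of_nonneg_left (h p) (norm_nonneg _)

theorem wave2_G_bd {S : ℂ} {z : ℍ} {B : ℝ} (h : ∀ p, ‖wave2_H S z p‖ ≤ B) :
    ‖wave2_G S z‖ ≤ (∫ p, ‖wave2_wt p.1‖ ∂wave2_nu) * B := by
  rw [← integral_mul_const]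
  exact norm_integral_le_of_norm_le (wave2_wt_int.norm.mul_const B)
    (Eventually.of_forall (wave2_nb h))

theorem wave2_loc {S : ℂ} (hS : S ∈ wave2_D) : ∃ r m : ℝ, 0 < r ∧ 0 < m ∧
    ∀ w : ℂ, ‖w - S‖ < r → m ≤ (1 - 2 * ‖w‖ ^ 2) / 4 := by
  have h1 : ‖S‖ ^ 2 < 1 / 2 := hS
  have h2 : ContinuousAt (fun w : ℂ => (1 - 2 * ‖w‖ ^ 2) / 4) S := by fun_prop
  have h3 : (1 - 2 * ‖S‖ ^ 2) / 8 < (fun w : ℂ => (1 - 2 * ‖w‖ ^ 2) / 4) S := by
    show _ < (1 - 2 * ‖S‖ ^ 2) / 4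
    linarith
  obtain ⟨r, hr, h⟩ := Metric.eventually_nhds_iff.1 (h2.eventually (lt_mem_nhds h3))
  exact ⟨r, (1 - 2 * ‖S‖ ^ 2) / 8, hr, by linarith, fun w hw => (h (by rwa [dist_eq_norm])).le⟩

theorem wave2_G_diff (hP : St_PAR) (hF : St_FC1) (hA : St_ADM) {z : ℍ} (hz : 1 / 2 ≤ z.im) :
    DifferentiableOn ℂ (fun S => wave2_G S z) wave2_D := by
  obtain ⟨C, k, -, hb⟩ := wave2_H_bd hF hA
  refine (hP.1 (ℝ × ℝ) wave2_nu (fun S p => (wave2_wt p.1 : ℂ) * wave2_H S z p) wave2_D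
    wave2_D_open (fun S hS => wave2_sm1 hF hA hS z)
    (Eventually.of_forall fun p => (wave2_H_diff hF hA z p).const_mul _) ?_).1
  intro S hS
  obtain ⟨r, m, hr, hm, h⟩ := wave2_loc hS
  exact ⟨r, hr, fun p => ‖wave2_wt p.1‖ * (C / m ^ k), wave2_wt_int.norm.mul_const _,
    Eventually.of_forall fun p w _ hw => wave2_nb (fun p => hb m w z p hm (h w hw) hz) p⟩

theorem wave2_ae : ∀ᵐ z ∂muD, 1 / 2 ≤ z.im := by
  filter_upwards [ae_restrict_mem ModularGroup.isClosed_fd.measurableSet] with z hz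
  have h1 := ModularGroup.three_le_four_mul_im_sq_of_mem_fd hz
  nlinarith [z.im_pos]

theorem wave2_Phi_diff (hP : St_PAR) (hF : St_FC1) (hU : St_UNF1) (hA : St_ADM) {f : ℍ → ℂ}
    (hf : Aut f) : DifferentiableOn ℂ (fun S => ip f (wave2_G S)) wave2_D := by
  obtain ⟨C, k, -, hb⟩ := wave2_H_bd hF hA
  have := hU.2.2.2.2.2.2.2.2.2.1
  have hc : Measurable fun z => conj (f z) := Complex.continuous_conj.measurable.comp hf.1
  refine (hP.1 ℍ muD (fun S z => conj (f z) * wave2_G S z) wave2_D wave2_D_open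
    (fun S hS => (hc.mul (wave2_G_sm hF hA hS).measurable).aestronglyMeasurable) ?_ ?_).1
  · filter_upwards [wave2_ae] with z hz
    exact (wave2_G_diff hP hF hA hz).const_mul _
  · intro S hS
    obtain ⟨r, m, hr, hm, h⟩ := wave2_loc hS
    refine ⟨r, hr, fun z => ‖f z‖ * ((∫ p, ‖wave2_wt p.1‖ ∂wave2_nu) * (C / m ^ k)),
      (hf.2.2.integrable one_le_two).norm.mul_const _, ?_⟩
    filter_upwards [wave2_ae] with z hz w _ hw
    rw [norm_mul, Complex.norm_conj]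
    exact mul_le_mul_of_nonneg_left (wave2_G_bd fun p => hb m w z p hm (h w hw) hz)
      (norm_nonneg _)

theorem wave2_real (hF : St_FC1) (hO : St_POLAR) (hA : St_ADM) {S : ℝ} (hS : (S : ℂ) ∈ wave2_D)
    {z : ℍ} (hz : 1 / 2 ≤ z.im) : wave2_G S z = Uop S Fc z := by
  obtain ⟨C, k, -, hb⟩ := wave2_H_bd hF hA
  have h1 : ‖(S : ℂ)‖ ^ 2 < 1 / 2 := hS
  have hi : Integrable (fun p : ℝ × ℝ => (wave2_wt p.1 : ℂ) * wave2_H S z p) wave2_nu :=
    (wave2_wt_int.norm.mul_const _).mono' (wave2_sm1 hF hA hS z)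
      (Eventually.of_forall (wave2_nb fun p => hb _ S z p (by linarith) le_rfl hz))
  unfold wave2_G Uop
  unfold wave2_nu at hi ⊢
  rw [integral_prod _ hi]
  refine setIntegral_congr_fun measurableSet_Ioo fun t ht => ?_
  refine integral_congr_ae (Eventually.of_forall fun b => ?_)
  have h2 : wave2_cl t = t := by
    unfold wave2_cl
    rw [min_eq_right ht.2.le, max_eq_right ht.1.le]
  have h3 := hO.1 z (S * t) b
  show (wave2_wt t : ℂ) * Ft (px z (S * wave2_cl t) b) (py z (S * wave2_cl t) b) =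
    (wave2_wt t : ℂ) * Ft (ppt z (S * t) b).re (ppt z (S * t) b).im
  rw [h2, ← Complex.ofReal_mul, h3.1, h3.2.1]

/-- complex inverse hyperbolic sine -/
def wave2_as (S : ℂ) : ℂ := log (S + (1 + S ^ 2) ^ (1 / 2 : ℂ))

theorem wave2_as_diff : DifferentiableOn ℂ wave2_as wave2_D := by
  intro S hS
  have h1 : ‖S‖ ^ 2 < 1 / 2 := hS
  have h2 : 0 < (1 + S ^ 2).re := by
    have h3 := Complex.abs_re_le_norm (S ^ 2)
    rw [norm_pow] at h3
    rw [add_re, one_re]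
    linarith [neg_abs_le (S ^ 2).re]
  have h3 : 1 + S ^ 2 ∈ slitPlane := Or.inl h2
  have h4 : ((1 + S ^ 2) ^ (1 / 2 : ℂ)) ^ 2 = 1 + S ^ 2 := by
    simp [one_div]
  have h5 : 0 ≤ ((1 + S ^ 2) ^ (1 / 2 : ℂ)).re := by
    rw [one_div, Complex.cpow_inv_two_re]
    exact Real.sqrt_nonneg _
  have h6 : S + (1 + S ^ 2) ^ (1 / 2 : ℂ) ∈ slitPlane := by
    generalize (1 + S ^ 2) ^ (1 / 2 : ℂ) = w at h4 h5
    by_contra hcon
    rw [mem_slitPlane_iff, not_or, not_lt, not_not] at hcon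
    have h7 : (S + w) * (2 * w - (S + w)) = 1 := by linear_combination h4
    generalize S + w = x at h7 hcon
    have h8 := congrArg Complex.re h7
    simp only [mul_re, sub_re, sub_im, hcon.2, zero_mul, sub_zero, one_re, re_ofNat,
      im_ofNat] at h8
    nlinarith [mul_nonneg (neg_nonneg.2 hcon.1) h5, sq_nonneg x.re]
  refine DifferentiableAt.differentiableWithinAt ?_
  exact (differentiableAt_id.add
    (((differentiableAt_id.pow 2).const_add 1).cpow_const h3)).clog h6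

theorem wave2_as_real (S : ℝ) (hS : 0 ≤ S) : wave2_as S = Real.arsinh S := by
  have h1 : (0 : ℝ) ≤ 1 + S ^ 2 := by positivity
  unfold wave2_as Real.arsinh
  rw [Complex.ofReal_log (by positivity), Real.sqrt_eq_rpow, Complex.ofReal_add,
    Complex.ofReal_cpow h1]
  push_cast
  rfl

theorem wave2_as_im {u : ℝ} (h1 : 0 ≤ u) (h2 : u ≤ π / 4) :
    wave2_as (I * Real.sin u) = u * I := by
  have hp := Real.pi_pos
  have hc : 0 ≤ Real.cos u := Real.cos_nonneg_of_mem_Icc ⟨by linarith, by linarith⟩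
  have h3 : 1 + (I * Real.sin u) ^ 2 = ((Real.cos u ^ 2 : ℝ) : ℂ) := by
    rw [Real.cos_sq', mul_pow, I_sq, Complex.ofReal_sub, Complex.ofReal_pow, Complex.ofReal_one]
    ring
  have h4 : ((Real.cos u ^ 2 : ℝ) : ℂ) ^ (1 / 2 : ℂ) = Real.cos u := by
    have h5 := Complex.ofReal_cpow (sq_nonneg (Real.cos u)) (1 / 2)
    rw [← Real.sqrt_eq_rpow, Real.sqrt_sq hc] at h5
    rw [h5]
    norm_num
  unfold wave2_as
  rw [h3, h4]
  have h6 : I * (Real.sin u : ℂ) + Real.cos u = exp (u * I) := by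
    rw [exp_mul_I, Complex.ofReal_sin, Complex.ofReal_cos]
    ring
  rw [h6, log_exp]
  · simp only [mul_im, ofReal_re, I_im, mul_one, ofReal_im, I_re, mul_zero, add_zero]
    linarith
  · simp only [mul_im, ofReal_re, I_im, mul_one, ofReal_im, I_re, mul_zero, add_zero]
    linarith

theorem wave2_id (hP : St_PAR) (hF : St_FC1) (hF2 : St_FC2) (hU : St_UNF1) (hO : St_POLAR)
    (hK : St_KER2) (hL : St_LIN) (hW : St_WAVE1) (hA : St_ADM) {f : ℍ → ℂ} {k : ℝ} (hk : 0 < k)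
    (hf : Aut f) (hc : Continuous f) (he : Eig f k) :
    EqOn (fun S => S * ip f (wave2_G S)) (fun S => π * sin (2 * k * wave2_as S) / k * ip f Fc)
      wave2_D := by
  refine hP.2.2.1 _ _ wave2_D 0 (1 / 2) wave2_D_open wave2_D_conn
    (differentiableOn_id.mul (wave2_Phi_diff hP hF hU hA hf))
    (((((wave2_as_diff.const_mul _).csin).const_mul _).div_const _).mul_const _) (by norm_num) ?_
  intro S hS
  have hD : (S : ℂ) ∈ wave2_D := by
    show ‖(S : ℂ)‖ ^ 2 < 1 / 2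
    rw [Complex.norm_real, Real.norm_eq_abs, sq_abs]
    nlinarith [hS.1, hS.2]
  refine ⟨hD, ?_⟩
  have h1 : ip f (wave2_G S) = ip f (Uop S Fc) := by
    refine integral_congr_ae ?_
    filter_upwards [wave2_ae] with z hz
    rw [wave2_real hF hO hA hD hz]
  have h2 := hW.2 Fc f S hF2.1.1 hf hF.2.2.2.2.2 hc hS.1
  have h3 := ((hL.2.2.2.2.2.2.1 (Uop S f) Fc).2.2.2 S).2.1
  have h4 := ((hL.2.2.2.2.2.2.1 f Fc).2.2.2
    ((π * Real.sin (2 * k * Real.arsinh S) / k : ℝ) : ℂ)).2.1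
  have h5 : (fun z => (S : ℂ) * Uop S f z) =
      fun z => ((π * Real.sin (2 * k * Real.arsinh S) / k : ℝ) : ℂ) * f z :=
    funext fun z => hW.1 f k S z hk hc (hK.2.1 f hf) he hS.1
  rw [conj_ofReal] at h3 h4
  show (S : ℂ) * ip f (wave2_G S) = π * sin (2 * k * wave2_as S) / k * ip f Fc
  rw [h1, h2, ← h3, h5, h4, wave2_as_real S hS.1.le]
  push_cast
  rfl

theorem t_wave2 : T_WAVE2 := by
  intro hP hF hF2 hU hO hK hL hW hA
  obtain ⟨C, k, hC, hb⟩ := wave2_H_bd hF hA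
  have := hU.2.2.2.2.2.2.2.2.2.1
  refine ⟨muD.real univ * ((∫ p, ‖wave2_wt p.1‖ ∂wave2_nu) * C * 8 ^ k) ^ 2, k * 2, ?_⟩
  intro e he
  have hp := Real.pi_pos
  have hp3 := Real.pi_gt_three
  have hp4 := Real.pi_lt_four
  have hn : ‖I * (Real.sin ((π / 2 - e) / 2) : ℂ)‖ ^ 2 = (1 - Real.sin e) / 2 := by
    rw [norm_mul, norm_I, one_mul, Complex.norm_real, Real.norm_eq_abs, sq_abs,
      Real.sin_sq_eq_half_sub, mul_div_cancel₀ _ two_ne_zero, Real.cos_pi_div_two_sub]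
    ring
  have hs : e / 2 ≤ Real.sin e := by
    refine le_trans ?_ (Real.mul_le_sin he.1.le (by linarith [he.2]))
    rw [div_mul_eq_mul_div, div_le_div_iff₀ two_pos hp]
    nlinarith [he.1]
  have hD : I * (Real.sin ((π / 2 - e) / 2) : ℂ) ∈ wave2_D := by
    show ‖I * (Real.sin ((π / 2 - e) / 2) : ℂ)‖ ^ 2 < 1 / 2
    rw [hn]
    linarith [he.1]
  have hbd : ∀ᵐ z ∂muD, ‖wave2_G (I * (Real.sin ((π / 2 - e) / 2) : ℂ)) z‖ ≤
      (∫ p, ‖wave2_wt p.1‖ ∂wave2_nu) * (C / (e / 8) ^ k) := by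
    filter_upwards [wave2_ae] with z hz
    exact wave2_G_bd fun p => hb _ _ z p (by linarith [he.1]) (by rw [hn]; linarith) hz
  refine ⟨wave2_G (I * (Real.sin ((π / 2 - e) / 2) : ℂ)),
    MemLp.of_bound (wave2_G_sm hF hA hD).aestronglyMeasurable _ hbd, ?_, ?_⟩
  · have h1 : n2 (wave2_G (I * (Real.sin ((π / 2 - e) / 2) : ℂ))) ≤
        ∫ _z : ℍ, ((∫ p, ‖wave2_wt p.1‖ ∂wave2_nu) * (C / (e / 8) ^ k)) ^ 2 ∂muD := by
      refine integral_mono_of_nonneg (Eventually.of_forall fun z => by positivity)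
        (integrable_const _) ?_
      filter_upwards [hbd] with z hz
      exact pow_le_pow_left₀ (norm_nonneg _) hz 2
    refine h1.trans (le_of_eq ?_)
    rw [integral_const, smul_eq_mul, pow_mul, div_pow]
    have := he.1.ne'
    field_simp
  · intro f kk hk hf hc hE
    have h1 := wave2_id hP hF hF2 hU hO hK hL hW hA hk hf hc hE hD
    have h2 := wave2_as_im (u := (π / 2 - e) / 2) (by linarith [he.2]) (by linarith [he.1])
    have h3 : 2 * (kk : ℂ) * ((((π / 2 - e) / 2 : ℝ) : ℂ) * I) =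
        ((kk * (π / 2 - e) : ℝ) : ℂ) * I := by
      push_cast
      ring
    have h4 := congrArg norm h1
    simp only [] at h4
    rw [h2, h3, sin_mul_I, ← Complex.ofReal_sinh, norm_mul, norm_mul, norm_mul, norm_div, norm_mul,
      norm_mul, norm_I, Complex.norm_real, Complex.norm_real, Complex.norm_real, Complex.norm_real,
      Real.norm_eq_abs, Real.norm_eq_abs, Real.norm_eq_abs, Real.norm_eq_abs, abs_of_pos hp,
      abs_of_pos hk, one_mul, mul_one] at h4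
    have h5 : 0 ≤ Real.sinh (kk * (π / 2 - e)) :=
      Real.sinh_nonneg_iff.2 (mul_nonneg hk.le (by linarith [he.2]))
    rw [abs_of_nonneg h5, mul_div_assoc] at h4
    have h6 := Real.abs_sin_le_one ((π / 2 - e) / 2)
    have h7 := mul_nonneg (norm_nonneg (ip f Fc)) (div_nonneg h5 hk.le)
    have h8 := norm_nonneg (ip f (wave2_G (I * (Real.sin ((π / 2 - e) / 2) : ℂ))))
    nlinarith

end

end Pool.Agent.Lib.E2
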