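import Pool.Agent.Lib.E2.Blue

/-!
Block WP: integration by parts against the kernel `z W(z t)`.
-/

namespace Pool.Agent.Lib.E2

noncomputable section

open Complex MeasureTheory Set Filter Topology

namespace WP

/-- growth class -/
def Good (f : ℝ → ℝ) : Prop :=
  ContinuousOn f (Ioi 0) ∧
    ∃ C : ℝ, 0 ≤ C ∧ ∀ t : ℝ, 0 < t → |f t| ≤ C * (t ^ (3 / 4 : ℝ) + t ^ (3 : ℝ))

theorem good_err (hDY : St_DY) (P : Polynomial ℝ) : Good (err P) := by
  obtain ⟨hc, ⟨C1, h1⟩, ⟨C2, h2⟩, -⟩ := hDY.2.2.2.2 P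
  refine ⟨hc, |C1| + |C2|, by positivity, fun t ht => ?_⟩
  have ha : 0 < t ^ (3 / 4 : ℝ) := Real.rpow_pos_of_pos ht _
  have hb : 0 < t ^ (3 : ℝ) := Real.rpow_pos_of_pos ht _
  have e1 := abs_nonneg C1
  have e2 := abs_nonneg C2
  rcases le_total t 1 with h | h
  · have h3 := h1 t ⟨ht, h⟩
    have h4 : C1 * t ^ (3 / 4 : ℝ) ≤ |C1| * t ^ (3 / 4 : ℝ) :=
      mul_le_mul_of_nonneg_right (le_abs_self _) ha.le
    nlinarith [mul_nonneg e1 hb.le, mul_nonneg e2 ha.le, mul_nonneg e2 hb.le]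
  · have h3 := h2 t h
    have h5 : t ^ (3 : ℝ) = t ^ 3 := by
      rw [← Real.rpow_natCast]; norm_num
    rw [← h5] at h3
    have h4 : C2 * t ^ (3 : ℝ) ≤ |C2| * t ^ (3 : ℝ) :=
      mul_le_mul_of_nonneg_right (le_abs_self _) hb.le
    nlinarith [mul_nonneg e1 hb.le, mul_nonneg e2 ha.le, mul_nonneg e1 ha.le]

theorem Good.sub {f g : ℝ → ℝ} (hf : Good f) (hg : Good g) : Good (fun t => f t - g t) := by
  obtain ⟨cf, C1, p1, h1⟩ := hf
  obtain ⟨cg, C2, p2, h2⟩ := hg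
  refine ⟨cf.sub cg, C1 + C2, by positivity, fun t ht => ?_⟩
  have := abs_sub (f t) (g t)
  have a1 := h1 t ht
  have a2 := h2 t ht
  linarith

theorem err_zero : err 0 = mom := by
  funext t; simp [err]

theorem good_mom (hDY : St_DY) : Good mom := err_zero ▸ good_err hDY 0

/-- the main term -/
def mt (P : Polynomial ℝ) (t : ℝ) : ℝ := t * P.eval (Real.log t)

theorem good_mt (hDY : St_DY) (P : Polynomial ℝ) : Good (mt P) := by
  have h := (good_mom hDY).sub (good_err hDY P)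
  have e : (fun t => mom t - err P t) = mt P := by
    funext t; simp [err, mt]
  rwa [e] at h

theorem int_pe {s c : ℝ} (hs : -1 < s) (hc : 0 < c) :
    IntegrableOn (fun t : ℝ => t ^ s * Real.exp (-c * t)) (Ioi 0) := by
  have h := integrableOn_rpow_mul_exp_neg_mul_rpow (p := 1) hs one_pos hc
  simpa only [Real.rpow_one] using h

/-- the majorant -/
def maj (c t : ℝ) : ℝ :=
  (t ^ (3 / 4 : ℝ) + t ^ (3 : ℝ)) * ((t ^ (-1 : ℝ) + t ^ (-(5 / 4) : ℝ)) * Real.exp (-c * t))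

theorem int_maj {c : ℝ} (hc : 0 < c) : IntegrableOn (maj c) (Ioi 0) := by
  have h1 := int_pe (s := -(1 / 4)) (by norm_num) hc
  have h2 := int_pe (s := -(1 / 2)) (by norm_num) hc
  have h3 := int_pe (s := 2) (by norm_num) hc
  have h4 := int_pe (s := 7 / 4) (by norm_num) hc
  refine IntegrableOn.congr_fun (((h1.add h2).add h3).add h4) (fun t ht => ?_) measurableSet_Ioi
  have ht' : 0 < t := ht
  have e1 : t ^ (-(1 / 4) : ℝ) = t ^ (3 / 4 : ℝ) * t ^ (-1 : ℝ) := by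
    rw [← Real.rpow_add ht']; norm_num
  have e2 : t ^ (-(1 / 2) : ℝ) = t ^ (3 / 4 : ℝ) * t ^ (-(5 / 4) : ℝ) := by
    rw [← Real.rpow_add ht']; norm_num
  have e3 : t ^ (2 : ℝ) = t ^ (3 : ℝ) * t ^ (-1 : ℝ) := by
    rw [← Real.rpow_add ht']; norm_num
  have e4 : t ^ (7 / 4 : ℝ) = t ^ (3 : ℝ) * t ^ (-(5 / 4) : ℝ) := by
    rw [← Real.rpow_add ht']; norm_num
  simp only [Pi.add_apply, maj]
  rw [e1, e2, e3, e4]; ring

theorem norm_ge {c t : ℝ} {z : ℂ} (hz : c ≤ z.re) (ht : 0 < t) : c * t ≤ ‖z * t‖ := by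
  have h1 : (z * t).re ≤ ‖z * t‖ := re_le_norm _
  have h2 : (z * t).re = z.re * t := by simp
  nlinarith

theorem bound_dW (hKB : St_KB) {c : ℝ} (hc : 0 < c) : ∃ C : ℝ, 0 ≤ C ∧ ∀ z : ℂ, c ≤ z.re →
    ∀ t : ℝ, 0 < t →
      ‖deriv Wf (z * t)‖ ≤ C * ((t ^ (-1 : ℝ) + t ^ (-(5 / 4) : ℝ)) * Real.exp (-c * t)) := by
  obtain ⟨C, hC⟩ := hKB.2.2.2.1
  have ha : 0 < c ^ (-1 : ℝ) := Real.rpow_pos_of_pos hc _
  have hb : 0 < c ^ (-(5 / 4) : ℝ) := Real.rpow_pos_of_pos hc _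
  refine ⟨|C| * (c ^ (-1 : ℝ) + c ^ (-(5 / 4) : ℝ)), by positivity, fun z hz t ht => ?_⟩
  have hre : (z * t).re = z.re * t := by simp
  have hpos : 0 < (z * t).re := by rw [hre]; nlinarith
  have h := hC _ hpos
  have hct : 0 < c * t := mul_pos hc ht
  have n1 : ‖z * t‖ ^ (-1 : ℝ) ≤ c ^ (-1 : ℝ) * t ^ (-1 : ℝ) := by
    rw [← Real.mul_rpow hc.le ht.le]
    exact Real.rpow_le_rpow_of_nonpos hct (norm_ge hz ht) (by norm_num)
  have n2 : ‖z * t‖ ^ (-(5 / 4) : ℝ) ≤ c ^ (-(5 / 4) : ℝ) * t ^ (-(5 / 4) : ℝ) := by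
    rw [← Real.mul_rpow hc.le ht.le]
    exact Real.rpow_le_rpow_of_nonpos hct (norm_ge hz ht) (by norm_num)
  have n3 : Real.exp (-2 * (z * t).re) ≤ Real.exp (-c * t) := by
    apply Real.exp_le_exp.2
    rw [hre]; nlinarith
  have ta : 0 < t ^ (-1 : ℝ) := Real.rpow_pos_of_pos ht _
  have tb : 0 < t ^ (-(5 / 4) : ℝ) := Real.rpow_pos_of_pos ht _
  have n4 : ‖z * t‖ ^ (-1 : ℝ) + ‖z * t‖ ^ (-(5 / 4) : ℝ) ≤
      (c ^ (-1 : ℝ) + c ^ (-(5 / 4) : ℝ)) * (t ^ (-1 : ℝ) + t ^ (-(5 / 4) : ℝ)) := by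
    nlinarith [mul_pos ha tb, mul_pos hb ta]
  have n5 : 0 ≤ ‖z * t‖ ^ (-1 : ℝ) + ‖z * t‖ ^ (-(5 / 4) : ℝ) := by positivity
  calc ‖deriv Wf (z * t)‖
      ≤ C * (‖z * t‖ ^ (-1 : ℝ) + ‖z * t‖ ^ (-(5 / 4) : ℝ)) * Real.exp (-2 * (z * t).re) := h
    _ ≤ |C| * (‖z * t‖ ^ (-1 : ℝ) + ‖z * t‖ ^ (-(5 / 4) : ℝ)) * Real.exp (-2 * (z * t).re) := by
        gcongr
        exact le_abs_self _
    _ ≤ |C| * ((c ^ (-1 : ℝ) + c ^ (-(5 / 4) : ℝ)) * (t ^ (-1 : ℝ) + t ^ (-(5 / 4) : ℝ))) *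
        Real.exp (-c * t) := by gcongr
    _ = _ := by ring

theorem bound_W (hKB : St_KB) {z : ℂ} (hz : 0 < z.re) : ∃ C : ℝ, 0 ≤ C ∧
    ∀ t : ℝ, 0 < t → ‖z * Wf (z * t)‖ ≤ C * (t ^ (-(1 / 2) : ℝ) * Real.exp (-z.re * t)) := by
  obtain ⟨C, hC⟩ := hKB.2.2.1 (1 / 4) ⟨by norm_num, by norm_num⟩
  have ha : 0 < z.re ^ (-(1 / 2) : ℝ) := Real.rpow_pos_of_pos hz _
  refine ⟨‖z‖ * (C ^ 2 * z.re ^ (-(1 / 2) : ℝ)), by positivity, fun t ht => ?_⟩
  have hre : (z * t).re = z.re * t := by simp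
  have hpos : 0 < (z * t).re := by rw [hre]; positivity
  have h := hC _ hpos
  have hct : 0 < z.re * t := mul_pos hz ht
  have hn : 0 < ‖z * t‖ := lt_of_lt_of_le hct (norm_ge le_rfl ht)
  have n1 : ‖z * t‖ ^ (-(1 / 2) : ℝ) ≤ z.re ^ (-(1 / 2) : ℝ) * t ^ (-(1 / 2) : ℝ) := by
    rw [← Real.mul_rpow hz.le ht.le]
    exact Real.rpow_le_rpow_of_nonpos hct (norm_ge le_rfl ht) (by norm_num)
  have n2 : (‖z * t‖ ^ (-(1 / 4) : ℝ)) ^ 2 = ‖z * t‖ ^ (-(1 / 2) : ℝ) := by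
    rw [sq, ← Real.rpow_add hn]; norm_num
  have n3 : Real.exp (-(z * t).re) ^ 2 ≤ Real.exp (-z.re * t) := by
    rw [sq, ← Real.exp_add]
    apply Real.exp_le_exp.2
    rw [hre]; nlinarith
  have n4 : ‖Wf (z * t)‖ ≤ C ^ 2 * (z.re ^ (-(1 / 2) : ℝ) * t ^ (-(1 / 2) : ℝ)) *
      Real.exp (-z.re * t) := by
    calc ‖Wf (z * t)‖ = ‖Kb (z * t) 0‖ ^ 2 := by rw [Wf, norm_pow]
      _ ≤ (C * ‖z * t‖ ^ (-(1 / 4) : ℝ) * Real.exp (-(z * t).re)) ^ 2 :=
          pow_le_pow_left₀ (norm_nonneg _) h 2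
      _ = C ^ 2 * ‖z * t‖ ^ (-(1 / 2) : ℝ) * Real.exp (-(z * t).re) ^ 2 := by
          rw [← n2]; ring
      _ ≤ _ := by gcongr
  rw [norm_mul]
  calc ‖z‖ * ‖Wf (z * t)‖ ≤ ‖z‖ * (C ^ 2 * (z.re ^ (-(1 / 2) : ℝ) * t ^ (-(1 / 2) : ℝ)) *
      Real.exp (-z.re * t)) := by gcongr
    _ = _ := by ring

theorem isOpen_U : IsOpen {z : ℂ | 0 < z.re} := isOpen_lt continuous_const continuous_re

theorem meas_k {f : ℝ → ℝ} (hf : ContinuousOn f (Ioi 0)) (a z : ℂ) :
    AEStronglyMeasurable (fun t : ℝ => (f t : ℂ) * (a * deriv Wf (z * t)))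
      (volume.restrict (Ioi 0)) := by
  have h1 : AEStronglyMeasurable (fun t : ℝ => (f t : ℂ)) (volume.restrict (Ioi 0)) :=
    (continuous_ofReal.comp_continuousOn hf).aestronglyMeasurable measurableSet_Ioi
  have h2 : Measurable (fun t : ℝ => a * deriv Wf (z * t)) :=
    measurable_const.mul ((measurable_deriv Wf).comp (measurable_const.mul measurable_ofReal))
  exact h1.mul h2.aestronglyMeasurable

theorem bound_k (hKB : St_KB) {f : ℝ → ℝ} (hf : Good f) {c : ℝ} (hc : 0 < c) (R : ℝ) :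
    ∃ C : ℝ, ∀ z : ℂ, c ≤ z.re → ‖z‖ ≤ R → ∀ t : ℝ, 0 < t →
      ‖(f t : ℂ) * (z ^ 2 * deriv Wf (z * t))‖ ≤ C * maj c t := by
  obtain ⟨C, pC, hC⟩ := bound_dW hKB hc
  obtain ⟨-, D, pD, hD⟩ := hf
  refine ⟨D * (R ^ 2 * C), fun z hz hR t ht => ?_⟩
  rw [norm_mul, norm_mul, norm_pow, norm_real, Real.norm_eq_abs]
  have h1 := hD t ht
  have h2 := hC z hz t ht
  have h3 : ‖z‖ ^ 2 ≤ R ^ 2 := pow_le_pow_left₀ (norm_nonneg _) hR 2
  calc |f t| * (‖z‖ ^ 2 * ‖deriv Wf (z * t)‖)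
      ≤ (D * (t ^ (3 / 4 : ℝ) + t ^ (3 : ℝ))) *
        (R ^ 2 * (C * ((t ^ (-1 : ℝ) + t ^ (-(5 / 4) : ℝ)) * Real.exp (-c * t)))) := by gcongr
    _ = _ := by rw [maj]; ring

theorem int_k (hKB : St_KB) {f : ℝ → ℝ} (hf : Good f) {z : ℂ} (hz : 0 < z.re) :
    IntegrableOn (fun t : ℝ => (f t : ℂ) * (z ^ 2 * deriv Wf (z * t))) (Ioi 0) := by
  obtain ⟨C, hC⟩ := bound_k hKB hf hz ‖z‖
  refine Integrable.mono' ((int_maj hz).const_mul C) (meas_k hf.1 _ _) ?_
  refine (ae_restrict_iff' measurableSet_Ioi).2 (Eventually.of_forall fun t ht => ?_)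
  exact hC z le_rfl le_rfl t ht

theorem diff_k (hPAR : St_PAR) (hKB : St_KB) {f : ℝ → ℝ} (hf : Good f) :
    DifferentiableOn ℂ (fun z : ℂ => ∫ t in Ioi (0 : ℝ), (f t : ℂ) * (z ^ 2 * deriv Wf (z * t)))
      {z | 0 < z.re} := by
  have hd : DifferentiableOn ℂ (deriv Wf) {z : ℂ | 0 < z.re} := hKB.2.1.deriv isOpen_U
  refine (hPAR.1 ℝ (volume.restrict (Ioi 0))
    (fun z t => (f t : ℂ) * (z ^ 2 * deriv Wf (z * t))) {z | 0 < z.re} isOpen_U
    (fun z _ => meas_k hf.1 _ _) ?_ ?_).1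
  · refine (ae_restrict_iff' measurableSet_Ioi).2 (Eventually.of_forall fun t ht => ?_)
    have ht' : 0 < t := ht
    refine (differentiableOn_const _).mul ((differentiableOn_id.pow 2).mul ?_)
    refine hd.comp (differentiableOn_id.mul_const _) (fun z hz => ?_)
    have hz' : 0 < z.re := hz
    show 0 < (z * t).re
    have : (z * t).re = z.re * t := by simp
    rw [this]; positivity
  · intro z hz
    have hz' : 0 < z.re := hz
    obtain ⟨C, hC⟩ := bound_k hKB hf (half_pos hz') (‖z‖ + z.re / 2)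
    refine ⟨z.re / 2, half_pos hz', fun t => C * maj (z.re / 2) t,
      (int_maj (half_pos hz')).const_mul C, ?_⟩
    refine (ae_restrict_iff' measurableSet_Ioi).2 (Eventually.of_forall fun t ht => ?_)
    intro w _ hw
    refine hC w ?_ ?_ t ht
    · have h1 : |(w - z).re| ≤ ‖w - z‖ := abs_re_le_norm _
      have h2 : (w - z).re = w.re - z.re := sub_re _ _
      have h3 := neg_abs_le (w - z).re
      linarith
    · have h1 : ‖w‖ ≤ ‖z‖ + ‖w - z‖ := by
        have := norm_add_le z (w - z)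
        simpa using this
      linarith

theorem int_z4 (hKB : St_KB) (hZ : St_ZB1) {z : ℂ} (hz : 0 < z.re) :
    IntegrableOn (fun t : ℝ => (z4 t : ℂ) * (z * Wf (z * t))) (Ioi 0) := by
  obtain ⟨hcont, hnn, -, -, D, hD⟩ := hZ.2.2.2.2.2.2.2.2.2.2.2
  obtain ⟨C, pC, hC⟩ := bound_W hKB hz
  have h1 := int_pe (s := -(1 / 2)) (by norm_num) hz
  have h2 := int_pe (s := 3 / 2) (by norm_num) hz
  refine Integrable.mono' ((h1.add h2).const_mul (2 * |D| * C)) ?_ ?_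
  · refine ContinuousOn.aestronglyMeasurable ?_ measurableSet_Ioi
    refine (continuous_ofReal.comp hcont).continuousOn.mul (continuousOn_const.mul ?_)
    refine hKB.2.1.continuousOn.comp (continuous_const.mul continuous_ofReal).continuousOn
      (fun t ht => ?_)
    have ht' : 0 < t := ht
    show 0 < (z * t).re
    have : (z * t).re = z.re * t := by simp
    rw [this]; positivity
  · refine (ae_restrict_iff' measurableSet_Ioi).2 (Eventually.of_forall fun t ht => ?_)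
    have ht' : 0 < t := ht
    rw [norm_mul, norm_real, Real.norm_eq_abs, abs_of_nonneg (hnn t)]
    have a1 : z4 t ≤ |D| * (2 * (1 + t ^ 2)) := by
      have b1 := hD t
      rw [abs_of_pos ht'] at b1
      have b2 : (1 + t) ^ 2 ≤ 2 * (1 + t ^ 2) := by nlinarith [sq_nonneg (1 - t)]
      calc z4 t ≤ D * (1 + t) ^ 2 := b1
        _ ≤ |D| * (1 + t) ^ 2 := by gcongr; exact le_abs_self _
        _ ≤ _ := by gcongr
    have e1 : t ^ (3 / 2 : ℝ) = t ^ 2 * t ^ (-(1 / 2) : ℝ) := by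
      rw [← Real.rpow_natCast, ← Real.rpow_add ht']; norm_num
    calc z4 t * ‖z * Wf (z * t)‖
        ≤ (|D| * (2 * (1 + t ^ 2))) * (C * (t ^ (-(1 / 2) : ℝ) * Real.exp (-z.re * t))) := by
          gcongr
          exact hC t ht'
      _ = _ := by simp only [Pi.add_apply]; rw [e1]; ring

theorem parts (hKB : St_KB) (hZ : St_ZB1) (hDY : St_DY) {z : ℂ} (hz : 0 < z.re) :
    ∫ t in Ioi (0 : ℝ), (z4 t : ℂ) * (z * Wf (z * t)) =
      -∫ t in Ioi (0 : ℝ), (mom t : ℂ) * (z ^ 2 * deriv Wf (z * t)) := by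
  obtain ⟨C, pC, hC⟩ := bound_W hKB hz
  obtain ⟨-, D, pD, hD⟩ := good_mom hDY
  have hb : ∀ t : ℝ, 0 < t → ‖(mom t : ℂ) * (z * Wf (z * t))‖ ≤
      D * C * (t ^ (1 / 4 : ℝ) * Real.exp (-z.re * t) + t ^ (5 / 2 : ℝ) * Real.exp (-z.re * t)) := by
    intro t ht
    rw [norm_mul, norm_real, Real.norm_eq_abs]
    have e1 : t ^ (1 / 4 : ℝ) = t ^ (3 / 4 : ℝ) * t ^ (-(1 / 2) : ℝ) := by
      rw [← Real.rpow_add ht]; norm_num
    have e2 : t ^ (5 / 2 : ℝ) = t ^ (3 : ℝ) * t ^ (-(1 / 2) : ℝ) := by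
      rw [← Real.rpow_add ht]; norm_num
    calc |mom t| * ‖z * Wf (z * t)‖ ≤ (D * (t ^ (3 / 4 : ℝ) + t ^ (3 : ℝ))) *
          (C * (t ^ (-(1 / 2) : ℝ) * Real.exp (-z.re * t))) := by
          gcongr
          · exact hD t ht
          · exact hC t ht
      _ = _ := by rw [e1, e2]; ring
  have hu : ∀ x ∈ Ioi (0 : ℝ), HasDerivAt (fun t : ℝ => (mom t : ℂ)) ((z4 x : ℝ) : ℂ) x :=
    fun x _ => (hDY.2.2.2.1 x).ofReal_comp
  have hv : ∀ x ∈ Ioi (0 : ℝ), HasDerivAt (fun t : ℝ => z * Wf (z * t))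
      (z ^ 2 * deriv Wf (z * x)) x := by
    intro x hx
    have hx' : 0 < x := hx
    have hm : 0 < (z * x).re := by
      have : (z * x).re = z.re * x := by simp
      rw [this]; positivity
    have h1 : HasDerivAt Wf (deriv Wf (z * x)) (z * x) :=
      (hKB.2.1.differentiableAt (isOpen_U.mem_nhds hm)).hasDerivAt
    have h2 : HasDerivAt (fun w : ℂ => z * Wf (z * w)) (z * (deriv Wf (z * x) * (z * 1))) x :=
      (h1.comp (x : ℂ) ((hasDerivAt_id (x : ℂ)).const_mul z)).const_mul z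
    have h3 := h2.comp_ofReal
    have e : z * (deriv Wf (z * x) * (z * 1)) = z ^ 2 * deriv Wf (z * x) := by ring
    rw [e] at h3
    exact h3
  have h0 : Tendsto ((fun t : ℝ => (mom t : ℂ)) * fun t : ℝ => z * Wf (z * t)) (𝓝[>] 0)
      (𝓝 0) := by
    have hc : Continuous (fun t : ℝ => D * C *
        (t ^ (1 / 4 : ℝ) * Real.exp (-z.re * t) + t ^ (5 / 2 : ℝ) * Real.exp (-z.re * t))) := by
      have c1 : Continuous (fun t : ℝ => t ^ (1 / 4 : ℝ)) :=
        Real.continuous_rpow_const (by norm_num)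
      have c2 : Continuous (fun t : ℝ => t ^ (5 / 2 : ℝ)) :=
        Real.continuous_rpow_const (by norm_num)
      have c3 : Continuous (fun t : ℝ => Real.exp (-z.re * t)) := by fun_prop
      exact continuous_const.mul ((c1.mul c3).add (c2.mul c3))
    have ht := (hc.tendsto 0).mono_left (nhdsWithin_le_nhds (s := Ioi 0))
    have e : D * C * ((0 : ℝ) ^ (1 / 4 : ℝ) * Real.exp (-z.re * 0) +
        (0 : ℝ) ^ (5 / 2 : ℝ) * Real.exp (-z.re * 0)) = 0 := by
      rw [Real.zero_rpow (by norm_num), Real.zero_rpow (by norm_num)]; ring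
    rw [e] at ht
    refine squeeze_zero_norm' ?_ ht
    filter_upwards [self_mem_nhdsWithin] with t ht' using hb t ht'
  have hi : Tendsto ((fun t : ℝ => (mom t : ℂ)) * fun t : ℝ => z * Wf (z * t)) atTop
      (𝓝 0) := by
    have ht := ((tendsto_rpow_mul_exp_neg_mul_atTop_nhds_zero (1 / 4) _ hz).add
      (tendsto_rpow_mul_exp_neg_mul_atTop_nhds_zero (5 / 2) _ hz)).const_mul (D * C)
    rw [add_zero, mul_zero] at ht
    refine squeeze_zero_norm' ?_ ht
    filter_upwards [eventually_gt_atTop (0 : ℝ)] with t ht' using hb t ht'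
  have h := integral_Ioi_mul_deriv_eq_deriv_mul hu hv (int_k hKB (good_mom hDY) hz)
    (int_z4 hKB hZ hz) h0 hi
  rw [h]; ring

theorem subst_k (f : ℝ → ℝ) {x : ℝ} (hx : 0 < x) :
    ∫ t in Ioi (0 : ℝ), (f t : ℂ) * ((x : ℂ) ^ 2 * deriv Wf (x * t)) =
      ∫ u in Ioi (0 : ℝ), ((x * f (u / x) : ℝ) : ℂ) * ((1 : ℂ) ^ 2 * deriv Wf (1 * u)) := by
  have h := integral_comp_mul_left_Ioi'
    (fun u : ℝ => ((x * f (u / x) : ℝ) : ℂ) * ((1 : ℂ) ^ 2 * deriv Wf (1 * u))) 0 hx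
  rw [mul_zero] at h
  rw [← h, ← integral_smul]
  refine integral_congr_ae (Eventually.of_forall fun t => ?_)
  have e : x * t / x = t := by field_simp
  simp only [e, real_smul, one_mul, one_pow]
  push_cast
  ring

theorem taylor_sum (P : Polynomial ℝ) (a b : ℝ) : P.eval (a - b) =
    ∑ i ∈ Finset.range (P.natDegree + 1), (Polynomial.hasseDeriv i P).eval a * (-b) ^ i := by
  have h1 := Polynomial.taylor_eval a P (-b)
  have h2 := Polynomial.eval_eq_sum_range' (p := Polynomial.taylor a P) (n := P.natDegree + 1)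
    (by rw [Polynomial.natDegree_taylor]; omega) (-b)
  rw [show a - b = -b + a by ring, ← h1, h2]
  simp only [Polynomial.taylor_coeff]

theorem main_poly (hPAR : St_PAR) (hKB : St_KB) (hDY : St_DY) (P : Polynomial ℝ) :
    ∃ Q : Polynomial ℂ, ∀ z : ℂ, 0 < z.re →
      ∫ t in Ioi (0 : ℝ), (mt P t : ℂ) * (z ^ 2 * deriv Wf (z * t)) = Q.eval (log z) := by
  set a : ℕ → ℂ := fun i => ∫ u in Ioi (0 : ℝ),
    (mt (Polynomial.hasseDeriv i P) u : ℂ) * ((1 : ℂ) ^ 2 * deriv Wf (1 * u)) with ha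
  set Q : Polynomial ℂ :=
    ∑ i ∈ Finset.range (P.natDegree + 1), Polynomial.C (a i) * (-Polynomial.X) ^ i with hQ
  refine ⟨Q, fun z hz => ?_⟩
  have hd : DifferentiableOn ℂ (fun z : ℂ => Q.eval (log z)) {z | 0 < z.re} := by
    intro w hw
    have hw' : w ∈ slitPlane := Or.inl hw
    exact (Q.differentiableAt.comp w (differentiableAt_log hw')).differentiableWithinAt
  refine hPAR.2.2.1 _ _ {z | 0 < z.re} 1 2 isOpen_U (convex_halfSpace_re_gt 0).isPreconnected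
    (diff_k hPAR hKB (good_mt hDY P)) hd (by norm_num) (fun x hx => ?_) hz
  have hx0 : 0 < x := by linarith [hx.1]
  refine ⟨by simpa using hx0, ?_⟩
  show ∫ t in Ioi (0 : ℝ), (mt P t : ℂ) * ((x : ℂ) ^ 2 * deriv Wf (x * t)) = Q.eval (log x)
  rw [subst_k _ hx0, ← ofReal_log hx0.le, hQ, Polynomial.eval_finsetSum]
  have hi : ∀ i ∈ Finset.range (P.natDegree + 1), Integrable (fun u : ℝ =>
      (mt (Polynomial.hasseDeriv i P) u : ℂ) * ((1 : ℂ) ^ 2 * deriv Wf (1 * u)) *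
        (-(Real.log x : ℂ)) ^ i) (volume.restrict (Ioi 0)) := fun i _ =>
    Integrable.mul_const (int_k hKB (good_mt hDY _) (z := 1) (by simp)) _
  have e : ∀ i ∈ Finset.range (P.natDegree + 1),
      (Polynomial.C (a i) * (-Polynomial.X) ^ i).eval (Real.log x : ℂ) = ∫ u in Ioi (0 : ℝ),
      (mt (Polynomial.hasseDeriv i P) u : ℂ) * ((1 : ℂ) ^ 2 * deriv Wf (1 * u)) *
        (-(Real.log x : ℂ)) ^ i := by
    intro i _
    rw [integral_mul_const]
    simp only [Polynomial.eval_mul, Polynomial.eval_C, Polynomial.eval_pow, Polynomial.eval_neg,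
      Polynomial.eval_X, ha]
  rw [Finset.sum_congr rfl e, ← integral_finsetSum _ hi]
  refine setIntegral_congr_fun measurableSet_Ioi (fun u hu => ?_)
  have hu' : 0 < u := hu
  have e1 : x * mt P (u / x) = ∑ i ∈ Finset.range (P.natDegree + 1),
      mt (Polynomial.hasseDeriv i P) u * (-Real.log x) ^ i := by
    rw [mt, Real.log_div hu'.ne' hx0.ne', taylor_sum, ← mul_assoc,
      show x * (u / x) = u by field_simp, Finset.mul_sum]
    refine Finset.sum_congr rfl (fun i _ => ?_)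
    rw [mt]; ring
  show ((x * mt P (u / x) : ℝ) : ℂ) * ((1 : ℂ) ^ 2 * deriv Wf (1 * u)) = _
  rw [e1]
  push_cast
  rw [Finset.sum_mul]
  refine Finset.sum_congr rfl (fun i _ => ?_)
  ring

theorem le_pows {u : ℝ} (hu : 0 < u) : u ≤ u ^ (3 / 4 : ℝ) + u ^ (3 : ℝ) := by
  have ha : 0 < u ^ (3 / 4 : ℝ) := Real.rpow_pos_of_pos hu _
  have hb : 0 < u ^ (3 : ℝ) := Real.rpow_pos_of_pos hu _
  rcases le_total u 1 with h | h
  · have := Real.rpow_le_rpow_of_exponent_ge hu h (show (3 / 4 : ℝ) ≤ 1 by norm_num)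
    rw [Real.rpow_one] at this
    linarith
  · have := Real.rpow_le_rpow_of_exponent_le h (show (1 : ℝ) ≤ 3 by norm_num)
    rw [Real.rpow_one] at this
    linarith

theorem lim_ET (hKB : St_KB) (hDY : St_DY) {P : Polynomial ℝ} (hP : IsMain P) :
    Tendsto (fun x : ℝ => ET P x) (𝓝[>] 0) (𝓝 0) := by
  obtain ⟨hc, ⟨C1, h1⟩, -, h2⟩ := hDY.2.2.2.2 P
  obtain ⟨C2, h2⟩ := h2 hP
  obtain ⟨C, pC, hC⟩ := bound_dW hKB (c := 1) one_pos
  have key : Tendsto (fun x : ℝ => ∫ u in Ioi (0 : ℝ),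
      ((x * err P (u / x) : ℝ) : ℂ) * ((1 : ℂ) ^ 2 * deriv Wf (1 * u))) (𝓝[>] 0)
      (𝓝 (∫ u in Ioi (0 : ℝ), (0 : ℂ))) := by
    refine tendsto_integral_filter_of_dominated_convergence
      (fun u => (|C1| + |C2|) * C * maj 1 u) ?_ ?_ ((int_maj one_pos).const_mul _) ?_
    · filter_upwards [self_mem_nhdsWithin] with x hx
      have hx' : 0 < x := hx
      refine meas_k (f := fun u => x * err P (u / x)) ?_ _ _
      refine continuousOn_const.mul (hc.comp (continuous_id.div_const x).continuousOn ?_)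
      intro u hu
      exact div_pos hu hx'
    · have hm : Ioo (0 : ℝ) 1 ∈ 𝓝[>] (0 : ℝ) := Ioo_mem_nhdsGT one_pos
      filter_upwards [hm] with x hx
      refine (ae_restrict_iff' measurableSet_Ioi).2 (Eventually.of_forall fun u hu => ?_)
      have hu' : 0 < u := hu
      have hux : 0 < u / x := div_pos hu' hx.1
      have ha : 0 < u ^ (3 / 4 : ℝ) := Real.rpow_pos_of_pos hu' _
      have hb : 0 < u ^ (3 : ℝ) := Real.rpow_pos_of_pos hu' _
      have e1 := abs_nonneg C1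
      have e2 := abs_nonneg C2
      have b1 : |x * err P (u / x)| ≤ (|C1| + |C2|) * (u ^ (3 / 4 : ℝ) + u ^ (3 : ℝ)) := by
        rw [abs_mul, abs_of_pos hx.1]
        rcases le_total (u / x) 1 with h | h
        · have d1 := h1 _ ⟨hux, h⟩
          have d2 : x * (u / x) ^ (3 / 4 : ℝ) ≤ u ^ (3 / 4 : ℝ) := by
            rw [Real.div_rpow hu'.le hx.1.le]
            have d3 : x ≤ x ^ (3 / 4 : ℝ) := by
              have := Real.rpow_le_rpow_of_exponent_ge hx.1 hx.2.le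
                (show (3 / 4 : ℝ) ≤ 1 by norm_num)
              rwa [Real.rpow_one] at this
            have d4 : 0 < x ^ (3 / 4 : ℝ) := Real.rpow_pos_of_pos hx.1 _
            rw [← mul_div_assoc, div_le_iff₀ d4]
            nlinarith
          have d5 : 0 < (u / x) ^ (3 / 4 : ℝ) := Real.rpow_pos_of_pos hux _
          calc x * |err P (u / x)| ≤ x * (|C1| * (u / x) ^ (3 / 4 : ℝ)) := by
                refine mul_le_mul_of_nonneg_left (d1.trans ?_) hx.1.le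
                exact mul_le_mul_of_nonneg_right (le_abs_self _) d5.le
            _ = |C1| * (x * (u / x) ^ (3 / 4 : ℝ)) := by ring
            _ ≤ |C1| * u ^ (3 / 4 : ℝ) := mul_le_mul_of_nonneg_left d2 e1
            _ ≤ _ := by nlinarith [mul_nonneg e1 hb.le, mul_nonneg e2 ha.le, mul_nonneg e2 hb.le]
        · have d1 := h2 _ h
          have d2 := le_pows hu'
          calc x * |err P (u / x)| ≤ x * (|C2| * (u / x)) := by
                refine mul_le_mul_of_nonneg_left (d1.trans ?_) hx.1.le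
                exact mul_le_mul_of_nonneg_right (le_abs_self _) hux.le
            _ = |C2| * u := by field_simp [hx.1.ne']
            _ ≤ |C2| * (u ^ (3 / 4 : ℝ) + u ^ (3 : ℝ)) := mul_le_mul_of_nonneg_left d2 e2
            _ ≤ _ := by nlinarith [mul_nonneg e1 hb.le, mul_nonneg e1 ha.le]
      have b2 := hC 1 (by simp) u hu'
      rw [norm_mul, norm_real, Real.norm_eq_abs, one_pow, one_mul]
      calc |x * err P (u / x)| * ‖deriv Wf (1 * u)‖
          ≤ ((|C1| + |C2|) * (u ^ (3 / 4 : ℝ) + u ^ (3 : ℝ))) *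
            (C * ((u ^ (-1 : ℝ) + u ^ (-(5 / 4) : ℝ)) * Real.exp (-1 * u))) := by gcongr
        _ = _ := by rw [maj]; ring
    · refine (ae_restrict_iff' measurableSet_Ioi).2 (Eventually.of_forall fun u hu => ?_)
      have hu' : 0 < u := hu
      have t1 : Tendsto (fun x : ℝ => u / x) (𝓝[>] 0) atTop := by
        simp only [div_eq_mul_inv]
        exact tendsto_inv_nhdsGT_zero.const_mul_atTop hu'
      have t2 := (hP.comp t1).const_mul u
      rw [mul_zero] at t2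
      have t3 : Tendsto (fun x : ℝ => x * err P (u / x)) (𝓝[>] 0) (𝓝 0) := by
        refine t2.congr' ?_
        filter_upwards [self_mem_nhdsWithin] with x hx
        have hx' : 0 < x := hx
        simp only [Function.comp]
        field_simp
      have t4 := ((continuous_ofReal.tendsto 0).comp t3).mul_const
        ((1 : ℂ) ^ 2 * deriv Wf (1 * u))
      rw [ofReal_zero, zero_mul] at t4
      exact t4
  rw [integral_zero] at key
  refine key.congr' ?_
  filter_upwards [self_mem_nhdsWithin] with x hx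
  exact (subst_k (err P) hx).symm

end WP

theorem t_wp : T_WP := by
  intro hPAR hKB hZ hDY P
  refine ⟨?_, fun hP => WP.lim_ET hKB hDY hP⟩
  obtain ⟨Q, hQ⟩ := WP.main_poly hPAR hKB hDY P
  refine ⟨-Q, fun z hz => ⟨WP.int_z4 hKB hZ hz, ?_⟩⟩
  rw [WP.parts hKB hZ hDY hz, Polynomial.eval_neg, ← hQ z hz, ET, ← neg_add,
    ← integral_add (WP.int_k hKB (WP.good_err hDY P) hz) (WP.int_k hKB (WP.good_mt hDY P) hz)]
  congr 1
  refine integral_congr_ae (Eventually.of_forall fun t => ?_)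
  simp only [err, WP.mt]
  push_cast
  ring

end

end Pool.Agent.Lib.E2
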