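import Pool.Agent.Lib.E2.Blue

/-! The function `(Im w)^(1/2 + i k)` is an eigenfunction of all invariant integral operators. -/

namespace Pool.Agent.Lib.E2

noncomputable section

open Complex MeasureTheory Set Filter Topology
open scoped Real UpperHalfPlane

namespace YS

lemma cts (k : ℝ) : Continuous (Ys k) := by
  unfold Ys
  refine Continuous.cpow (by fun_prop) continuous_const fun w => ?_
  exact ofReal_mem_slitPlane.2 w.im_pos

lemma norm_Ys (k : ℝ) (w : ℍ) : ‖Ys k w‖ = w.im ^ (1 / 2 : ℝ) := by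
  rw [Ys, norm_cpow_eq_rpow_re_of_pos w.im_pos]
  congr 1
  simp [sk]

lemma mult (hG : St_GEO) (k : ℝ) (u : ℝ → ℝ) (z : ℍ) :
    Rop u (Ys k) z = Rop u (Ys k) UpperHalfPlane.I * Ys k z := by
  obtain ⟨g, g1, g2⟩ := hG.2.2.2.2.2.2.1 z
  obtain ⟨q1, -, q2⟩ := hG.2.2.2.2.1 g
  unfold Rop
  rw [← (q2 fun w => (u (qd z w) : ℂ) * Ys k w).1, ← integral_mul_const]
  refine integral_congr_ae (Eventually.of_forall fun w => ?_)
  have e : qd z (g • w) = qd UpperHalfPlane.I w := by rw [← q1 UpperHalfPlane.I w, g1]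
  simp only [e, Ys, (g2 w).2]
  rw [ofReal_mul, mul_cpow_ofReal_nonneg z.im_pos.le w.im_pos.le]
  ring

lemma cls (hG : St_GEO) (hU : St_UNF1) (k : ℝ) : Cls (Ys k) := by
  unfold Cls
  rw [(hU.2.2.2.2.2.1 _).1]
  have hq : Continuous fun w : ℍ => qd UpperHalfPlane.I w := by
    unfold qd
    fun_prop
  have hm : Measurable fun w : ℍ =>
      ((qd UpperHalfPlane.I w ^ (-(3 / 2) : ℝ) : ℝ) : ℂ) * Ys k w :=
    (measurable_ofReal.comp (hq.measurable.pow_const _)).mul (cts k).measurable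
  have hi : Integrable (fun p : ℝ × ℝ => (1 + ‖p‖ ^ 2) ^ (-(3 : ℝ) / 2)) :=
    integrable_rpow_neg_one_add_norm_sq (by simp; norm_num)
  refine Integrable.mono' ((hi.const_mul ((2 : ℝ) ^ (3 / 2 : ℝ))).integrableOn)
    (Measurable.aestronglyMeasurable ?_) ?_
  · exact (measurable_ofReal.comp (by fun_prop)).mul (hm.comp hU.2.2.2.1)
  · refine (ae_restrict_iff' (MeasurableSet.univ.prod measurableSet_Ioi)).2
      (Eventually.of_forall fun p hp => ?_)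
    have hy : 0 < p.2 := hp.2
    obtain ⟨e1, e2⟩ := hU.1 p.1 p.2 hy
    have eq : qd UpperHalfPlane.I (pt p.1 p.2) = (1 + (p.1 ^ 2 + p.2 ^ 2)) / (2 * p.2) := by
      rw [hG.1, e1, e2]
      simp only [UpperHalfPlane.I_re, UpperHalfPlane.I_im]
      field_simp
      ring
    have hA : 0 < 1 + (p.1 ^ 2 + p.2 ^ 2) := by positivity
    rw [norm_mul, norm_mul, norm_Ys, e2, eq, norm_real, norm_real,
      Real.norm_of_nonneg (by positivity), Real.norm_of_nonneg (by positivity),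
      Real.div_rpow hA.le (by positivity), Real.mul_rpow (by norm_num) hy.le]
    have h3 : p.2 ^ (1 / 2 : ℝ) = p.2 ^ 2 * p.2 ^ (-(3 / 2) : ℝ) := by
      rw [← Real.rpow_natCast, ← Real.rpow_add hy]; norm_num
    have h4 : (2 : ℝ) ^ (3 / 2 : ℝ) = ((2 : ℝ) ^ (-(3 / 2) : ℝ))⁻¹ := by
      rw [Real.rpow_neg (by norm_num), inv_inv]
    have h5 : 0 < p.2 ^ (-(3 / 2) : ℝ) := Real.rpow_pos_of_pos hy _
    have h6 : 0 < (2 : ℝ) ^ (-(3 / 2) : ℝ) := Real.rpow_pos_of_pos (by norm_num) _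
    have h7 : 1 / p.2 ^ 2 * ((1 + (p.1 ^ 2 + p.2 ^ 2)) ^ (-(3 / 2) : ℝ) /
        ((2 : ℝ) ^ (-(3 / 2) : ℝ) * p.2 ^ (-(3 / 2) : ℝ)) * p.2 ^ (1 / 2 : ℝ)) =
        (2 : ℝ) ^ (3 / 2 : ℝ) * (1 + (p.1 ^ 2 + p.2 ^ 2)) ^ (-(3 / 2) : ℝ) := by
      rw [h3, h4]
      field_simp
    rw [h7]
    refine mul_le_mul_of_nonneg_left ?_ (by positivity)
    rw [show (-(3 : ℝ) / 2) = -(3 / 2) by ring]
    refine Real.rpow_le_rpow_of_nonpos (by positivity) ?_ (by norm_num)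
    have : ‖p‖ ^ 2 ≤ p.1 ^ 2 + p.2 ^ 2 := by
      rw [Prod.norm_def, Real.norm_eq_abs, Real.norm_eq_abs]
      rcases le_total |p.1| |p.2| with h | h
      · rw [max_eq_right h, sq_abs]; nlinarith [sq_nonneg p.1]
      · rw [max_eq_left h, sq_abs]; nlinarith [sq_nonneg p.2]
    linarith

lemma dpow (s : ℂ) {y : ℝ} (hy : 0 < y) :
    HasDerivAt (fun y : ℝ => (y : ℂ) ^ s) (s * (y : ℂ) ^ (s - 1)) y := by
  have := ((hasDerivAt_id (y : ℂ)).cpow_const (c := s)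
    (ofReal_mem_slitPlane.2 hy)).comp_ofReal
  simpa using this

lemma sq_eq (hU : St_UNF1) {k : ℝ} {m : ℂ} (h : LapEig (Ys k) m) : m = k ^ 2 := by
  obtain ⟨fx, fxx, fy, fyy, h⟩ := h
  have ev : ∀ x y : ℝ, 0 < y → Ys k (pt x y) = (y : ℂ) ^ sk k := fun x y hy => by
    rw [Ys, (hU.1 x y hy).2]
  have a1 : ∀ x, fx x 1 = 0 := fun x => by
    have := (h x 1 one_pos).1
    simp only [ev _ 1 one_pos] at this
    exact this.unique (hasDerivAt_const _ _)
  have a2 : fxx 0 1 = 0 := by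
    have := (h 0 1 one_pos).2.1
    simp only [a1] at this
    exact this.unique (hasDerivAt_const _ _)
  have a3 : ∀ y, 0 < y → fy 0 y = sk k * (y : ℂ) ^ (sk k - 1) := fun y hy => by
    refine (h 0 y hy).2.2.1.unique ((dpow (sk k) hy).congr_of_eventuallyEq ?_)
    filter_upwards [Ioi_mem_nhds hy] with t ht using ev 0 t ht
  have a4 : fyy 0 1 = sk k * ((sk k - 1) * ((1 : ℝ) : ℂ) ^ (sk k - 1 - 1)) := by
    refine (h 0 1 one_pos).2.2.2.1.unique
      (((dpow (sk k - 1) one_pos).const_mul (sk k)).congr_of_eventuallyEq ?_)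
    filter_upwards [Ioi_mem_nhds (one_pos : (0 : ℝ) < 1)] with t ht using a3 t ht
  have a5 := (h 0 1 one_pos).2.2.2.2
  rw [a2, a4, ev 0 1 one_pos] at a5
  simp only [ofReal_one, one_cpow, one_pow, mul_one, one_mul, zero_add, sk] at a5
  linear_combination a5 - (k : ℂ) ^ 2 * I_sq

lemma hf_eq (h0 : St_EIG0) {n c l : ℂ} {k a : ℝ} (hk : 0 < k) (hn : n ^ 2 = k ^ 2)
    (h1 : l = c * sh n (π - a)) (h2 : c * sh n π = (4 * √2 * π : ℝ)) : l = hf k a := by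
  rw [h0.2.1 n k _ hk hn] at h1 h2
  have hs : 0 < Real.sinh (k * π) := Real.sinh_pos_iff.2 (mul_pos hk Real.pi_pos)
  have hs' : ((Real.sinh (k * π) : ℝ) : ℂ) ≠ 0 := ofReal_ne_zero.2 hs.ne'
  have hk' : (k : ℂ) ≠ 0 := ofReal_ne_zero.2 hk.ne'
  rw [h1, hf, ofReal_div, ofReal_div, ofReal_mul (4 * √2 * π), ← h2, ofReal_div]
  field_simp

end YS

open YS in
theorem t_ys : T_YS := by
  intro hG hU h0 k hk
  refine ⟨cts k, cls hG hU k, fun a ha z => ?_, mult hG k⟩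
  have hl : ∀ a z, Lop a (Ys k) z = Lop a (Ys k) UpperHalfPlane.I * Ys k z := fun a z =>
    mult hG k (ka a) z
  obtain ⟨n, c, e0, e1, e2, -⟩ := h0.1 (Ys k) (fun a => Lop a (Ys k) UpperHalfPlane.I) (cts k)
    (cls hG hU k) ⟨UpperHalfPlane.I, by simp [Ys]⟩ fun a _ z => hl a z
  rw [hl a z, ← mul_assoc, hf_eq h0 hk (sq_eq hU e0) (e1 a ha) e2]

end

end Pool.Agent.Lib.E2
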