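import Pool.Agent.Lib.E2.Blue
import Pool.Agent.Lib.MP_6073f3_nt.Z.Growth

/-! Functional equation and bounds for zeta. -/

namespace Pool.Agent.Lib.E2

open Complex MeasureTheory Set Filter Topology
open scoped Real ComplexConjugate

theorem zb1_xi {s : ℂ} (h0 : s ≠ 0) (h1 : s ≠ 1) : xi s = s * (s - 1) * Lam s := by
  have h2 : 1 - s ≠ 0 := sub_ne_zero.2 h1.symm
  rw [xi, Lam, completedRiemannZeta_eq]
  field_simp
  ring

theorem zb1_xi_sym (s : ℂ) : xi (1 - s) = xi s := by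
  rw [xi, xi, completedRiemannZeta₀_one_sub]
  ring

theorem zb1_lam_sym (s : ℂ) : Lam (1 - s) = Lam s := completedRiemannZeta_one_sub s

theorem zb1_lam {s : ℂ} (hs : 0 < s.re) : Lam s = Gammaℝ s * riemannZeta s := by
  have h0 : s ≠ 0 := fun h => by simp [h] at hs
  have h1 := Gammaℝ_ne_zero_of_re_pos hs
  rw [riemannZeta_def_of_ne_zero h0, Lam]
  field_simp

theorem zb1_xi_ne {s : ℂ} (hs : 1 ≤ s.re) : xi s ≠ 0 := by
  rcases eq_or_ne s 1 with rfl | h1
  · simp [xi]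
  · have h0 : s ≠ 0 := fun h => by rw [h, zero_re] at hs; linarith
    rw [zb1_xi h0 h1, zb1_lam (by linarith)]
    exact mul_ne_zero (mul_ne_zero h0 (sub_ne_zero.2 h1))
      (mul_ne_zero (Gammaℝ_ne_zero_of_re_pos (by linarith)) (riemannZeta_ne_zero_of_one_le_re hs))

theorem zb1_coef_sym (s : ℂ) : coef (1 - s) = coef s := by
  have e1 : xi (2 * (1 - s)) = xi (2 * s - 1) := by rw [← zb1_xi_sym]; congr 1; ring
  have e2 : xi (2 * (1 - s) - 1) = xi (2 * s) := by rw [← zb1_xi_sym]; congr 1; ring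
  rw [coef, coef, Rf, Rf, e1, e2, zb1_lam_sym]
  simp only [div_eq_mul_inv]
  ring

theorem zb1_coef_lam {s : ℂ} (h0 : s ≠ 1 / 2) (h1 : s ≠ 1) (h : xi (2 * s - 1) ≠ 0) :
    coef s * Lam (2 * s - 1) = Rf s := by
  have e := zb1_xi (s := 2 * s - 1) (fun a => h0 (by linear_combination a / 2))
    (fun a => h1 (by linear_combination a / 2))
  rw [coef, div_mul_eq_mul_div, div_eq_iff h, e]
  ring

theorem zb1_one {s : ℂ} (hs : s ≠ 1) : (s - 1) * riemannZeta s = riemannZeta₁ s := by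
  rw [riemannZeta_eq_inv_sub_mul hs, ← mul_assoc, mul_inv_cancel₀ (sub_ne_zero.2 hs), one_mul]

theorem zb1_up {e : ℝ} (he : e ∈ Ioc (0 : ℝ) (1 / 2)) : ∃ C : ℝ, ∀ s : ℂ, 1 - e ≤ s.re → s ≠ 1 →
    ‖(s - 1) * riemannZeta s‖ ≤ C * (1 + ‖s‖) ^ (1 + e) := by
  obtain ⟨C, hC, h⟩ := RankZero.g_zeta0' he.1 he.2
  refine ⟨1 + C, fun s hs h1 => ?_⟩
  have hp : 0 < 1 + ‖s‖ := by positivity
  have h2 : 1 ≤ (1 + ‖s‖) ^ (1 + e) :=
    Real.one_le_rpow (by linarith [norm_nonneg s]) (by linarith [he.1])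
  have h3 : ‖s - 1‖ ≤ 1 + ‖s‖ := (norm_sub_le _ _).trans (by simp [add_comm])
  have h4 := h s hs
  rw [add_comm ‖s‖] at h4
  rw [zb1_one h1, riemannZeta₁]
  refine (norm_add_le _ _).trans ?_
  rw [norm_one, norm_mul, add_mul, one_mul]
  refine add_le_add h2 ((mul_le_mul h3 h4 (norm_nonneg _) hp.le).trans (le_of_eq ?_))
  rw [Real.rpow_add hp, Real.rpow_one]
  ring

theorem zb1_341 {s : ℂ} (hs : 1 < s.re) :
    1 ≤ ‖riemannZeta s.re‖ ^ 3 * ‖riemannZeta s‖ ^ 4 * ‖riemannZeta (s + I * s.im)‖ := by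
  have h := (1 : DirichletCharacter ℂ 1).norm_LFunction_product_ge_one (x := s.re - 1)
    (by linarith) s.im
  have e1 : (1 : ℂ) + (s.re - 1 : ℝ) = (s.re : ℂ) := by push_cast; ring
  have e2 : (s.re : ℂ) + I * s.im = s := by rw [mul_comm]; exact re_add_im s
  have e3 : (s.re : ℂ) + 2 * I * s.im = s + I * s.im := by linear_combination e2
  rw [e1, e2, e3, DirichletCharacter.LFunctionTrivChar, DirichletCharacter.LFunction_modOne_eq,
    DirichletCharacter.LFunction_modOne_eq, norm_mul, norm_mul, norm_pow, norm_pow] at h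
  exact h

theorem zb1_lip {δ B : ℝ} (hδ : 0 < δ) (hδ1 : δ ≤ 1) {s : ℂ} (hs : 1 ≤ s.re)
    (hB : ∀ w : ℂ, 1 - δ ≤ w.re → ‖w‖ ≤ ‖s‖ + 2 → ‖riemannZeta₀ w‖ ≤ B) {x : ℝ} (hx : 0 ≤ x)
    (hx1 : x ≤ 1) : ‖riemannZeta₀ (s + x) - riemannZeta₀ s‖ ≤ B / δ * x := by
  have hK : Convex ℝ ({w : ℂ | 1 ≤ w.re} ∩ Metric.closedBall s 1) :=
    (convex_halfSpace_re_ge _).inter (convex_closedBall _ _)
  have h := hK.norm_image_sub_le_of_norm_deriv_le (𝕜 := ℂ) (f := riemannZeta₀) (C := B / δ)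
    (x := s) (y := s + x) (fun u _ => differentiable_riemannZeta₀ u) (fun u hu => by
      refine Complex.norm_deriv_le_of_forall_mem_sphere_norm_le hδ
        differentiable_riemannZeta₀.diffContOnCl fun z hz => hB z ?_ ?_
      · have h1 := (abs_re_le_norm (z - u)).trans (mem_sphere_iff_norm.1 hz).le
        have h2 : 1 ≤ u.re := hu.1
        rw [sub_re, abs_le] at h1
        linarith [h1.1]
      · have h1 := norm_sub_norm_le z u
        have h2 := norm_sub_norm_le u s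
        have h3 := mem_closedBall_iff_norm.1 hu.2
        have h4 := mem_sphere_iff_norm.1 hz
        linarith)
    ⟨hs, Metric.mem_closedBall_self zero_le_one⟩
    ⟨by simp only [mem_ofPred_eq, add_re, ofReal_re]; linarith, by
      rw [mem_closedBall_iff_norm, add_sub_cancel_left, norm_real, Real.norm_of_nonneg hx]
      exact hx1⟩
  rwa [add_sub_cancel_left, norm_real, Real.norm_of_nonneg hx] at h

theorem zb1_far {δ B : ℝ} (hδ : 0 < δ) (hδ1 : δ ≤ 1) (hB1 : 1 ≤ B) {s : ℂ} (hs : 1 ≤ s.re)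
    (hs4 : s.re ≤ 4) (ht : 1 ≤ |s.im|)
    (hB : ∀ w : ℂ, 1 - δ ≤ w.re → ‖w‖ ≤ 6 + 2 * |s.im| → ‖riemannZeta₀ w‖ ≤ B) :
    1 / (128 * (2 * B / δ) ^ 4) ≤ ‖riemannZeta s‖ := by
  have hn : ‖s‖ ≤ 4 + |s.im| := by
    have := norm_le_abs_re_add_abs_im s
    rw [abs_of_nonneg (by linarith : 0 ≤ s.re)] at this
    linarith
  have hBδ : B ≤ B / δ := le_div_self (by linarith) hδ hδ1
  obtain ⟨D, hD⟩ : ∃ D, D = 2 * B / δ := ⟨_, rfl⟩
  have hD2 : D = 2 * (B / δ) := by rw [hD]; ring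
  rw [← hD]
  have hD1 : 2 ≤ D := by linarith
  obtain ⟨x, hx⟩ : ∃ x, x = 1 / (128 * D ^ 5) := ⟨_, rfl⟩
  have hx0 : 0 < x := by rw [hx]; positivity
  have hxD : x * (128 * D ^ 5) = 1 := by rw [hx]; field_simp
  have hD5 : D ≤ D ^ 5 := le_self_pow₀ (by linarith) (by norm_num)
  have hx1 : x * D ≤ 1 := by nlinarith
  have hx2 : x ≤ 1 := by nlinarith
  have inv1 : ∀ w : ℂ, 1 ≤ |w.im| → 1 ≤ ‖w - 1‖ := fun w hw => by
    have := abs_im_le_norm (w - 1)
    rw [sub_im, one_im, sub_zero] at this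
    linarith
  have ne1 : ∀ w : ℂ, 1 ≤ |w.im| → w ≠ 1 := fun w hw h => by
    rw [h] at hw; norm_num at hw
  have a1 : ‖riemannZeta ((s + x).re : ℝ)‖ ≤ 2 / x := by
    have hre : (s + x).re = s.re + x := by simp
    have h1 : (((s + x).re : ℝ) : ℂ) ≠ 1 := fun h => by
      have := congrArg re h
      rw [ofReal_re, hre, one_re] at this
      linarith
    rw [riemannZeta_eq_inv_sub_add h1]
    refine (norm_add_le _ _).trans ?_
    have h2 := hB ((s + x).re : ℝ) (by rw [ofReal_re, hre]; linarith) (by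
      rw [norm_real, hre, Real.norm_of_nonneg (by linarith)]; linarith)
    have h3 : ‖((((s + x).re : ℝ) : ℂ) - 1)⁻¹‖ ≤ 1 / x := by
      rw [norm_inv, ← ofReal_one, ← ofReal_sub, norm_real, hre, Real.norm_of_nonneg (by linarith),
        one_div]
      exact inv_anti₀ hx0 (by linarith)
    have h4 : B ≤ 1 / x := by rw [le_div_iff₀ hx0]; nlinarith
    calc _ ≤ 1 / x + 1 / x := add_le_add h3 (h2.trans h4)
      _ = 2 / x := by ring
  have a2 : ‖riemannZeta (s + x + I * (s + x).im)‖ ≤ D := by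
    have hi : (s + x + I * (s + x).im).im = 2 * s.im := by simp; ring
    have hr : (s + x + I * (s + x).im).re = s.re + x := by simp
    have h1 : 1 ≤ |(s + x + I * (s + x).im).im| := by rw [hi, abs_mul, abs_two]; linarith
    rw [riemannZeta_eq_inv_sub_add (ne1 _ h1)]
    refine (norm_add_le _ _).trans ?_
    have h2 := hB (s + x + I * (s + x).im) (by rw [hr]; linarith) (by
      refine (norm_le_abs_re_add_abs_im _).trans ?_
      rw [hi, hr, abs_mul, abs_two, abs_of_nonneg (by linarith)]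
      linarith)
    have h3 := inv_le_one_of_one_le₀ (inv1 _ h1)
    rw [norm_inv]
    linarith
  have a3 : 2 * D * x ≤ ‖riemannZeta (s + x)‖ := by
    by_contra hc
    have h1 := zb1_341 (s := s + x) (by simp only [add_re, ofReal_re]; linarith)
    have h2 : ‖riemannZeta (s + x)‖ ^ 4 < (2 * D * x) ^ 4 :=
      pow_lt_pow_left₀ (not_le.1 hc) (norm_nonneg _) (by norm_num)
    have h3 : ‖riemannZeta ((s + x).re : ℝ)‖ ^ 3 * ‖riemannZeta (s + x)‖ ^ 4 *
        ‖riemannZeta (s + x + I * (s + x).im)‖ ≤ (2 / x) ^ 3 * ‖riemannZeta (s + x)‖ ^ 4 * D := by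
      gcongr
    have h4 : (2 / x) ^ 3 * ‖riemannZeta (s + x)‖ ^ 4 * D < (2 / x) ^ 3 * (2 * D * x) ^ 4 * D := by
      gcongr
    have e : (2 / x) ^ 3 * (2 * D * x) ^ 4 * D = x * (128 * D ^ 5) := by field_simp; ring
    linarith
  have a4 : ‖riemannZeta (s + x) - riemannZeta s‖ ≤ D * x := by
    have hi : 1 ≤ |(s + x).im| := by simpa using ht
    have h1 := zb1_lip hδ hδ1 hs (fun w h1 h2 => hB w h1 (by linarith)) hx0.le hx2
    have p1 := inv1 _ hi
    have p2 := inv1 _ ht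
    have n1 : s + x - 1 ≠ 0 := sub_ne_zero.2 (ne1 _ hi)
    have n2 : s - 1 ≠ 0 := sub_ne_zero.2 (ne1 _ ht)
    have h2 : ‖(s + x - 1)⁻¹ - (s - 1)⁻¹‖ ≤ x := by
      rw [show (s + x - 1)⁻¹ - (s - 1)⁻¹ = -x * ((s + x - 1)⁻¹ * (s - 1)⁻¹) by field_simp; ring,
        norm_mul, norm_mul, norm_neg, norm_real, Real.norm_of_nonneg hx0.le, norm_inv, norm_inv]
      exact mul_le_of_le_one_right hx0.le (mul_le_one₀ (inv_le_one_of_one_le₀ p1) (by positivity)
        (inv_le_one_of_one_le₀ p2))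
    rw [riemannZeta_eq_inv_sub_add (ne1 _ hi), riemannZeta_eq_inv_sub_add (ne1 _ ht),
      add_sub_add_comm]
    refine (norm_add_le _ _).trans ?_
    nlinarith
  have a5 := norm_sub_norm_le (riemannZeta (s + x)) (riemannZeta s)
  have e : 1 / (128 * D ^ 4) = D * x := by rw [hx]; field_simp
  rw [e]
  linarith

theorem zb1_low : ∃ c : ℝ, 0 < c ∧ ∀ s : ℂ, 1 ≤ s.re → s.re ≤ 4 → s ≠ 1 →
    c * (1 + |s.im|) ^ (63 / 64 : ℝ) ≤ ‖(s - 1) * riemannZeta s‖ := by
  obtain ⟨C, hC, h⟩ := RankZero.g_zeta0' (ε := 1 / 256) (by norm_num) (by norm_num)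
  have hK : IsCompact (Icc (1 : ℝ) 4 ×ℂ Icc (-1 : ℝ) 1) := isCompact_Icc.reProdIm isCompact_Icc
  obtain ⟨m, hm, hm'⟩ := hK.exists_forall_le' (f := fun s => ‖riemannZeta₁ s‖) (a := 0)
    differentiable_riemannZeta₁.continuous.norm.continuousOn fun s hs => by
      rcases eq_or_ne s 1 with rfl | h1
      · simp
      · rw [← zb1_one h1]
        exact norm_pos_iff.2 (mul_ne_zero (sub_ne_zero.2 h1)
          (riemannZeta_ne_zero_of_one_le_re hs.1.1))
  refine ⟨min (m / 2) (1 / (256 * (3584 * C) ^ 4)), by positivity, fun s h1 h4 hs => ?_⟩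
  have hY : 1 ≤ 1 + |s.im| := by linarith [abs_nonneg s.im]
  have hY0 : 0 < 1 + |s.im| := by linarith
  rcases le_total |s.im| 1 with ht | ht
  · have a1 : (1 + |s.im|) ^ (63 / 64 : ℝ) ≤ 2 := by
      refine (Real.rpow_le_rpow_of_exponent_le hY (by norm_num : (63 / 64 : ℝ) ≤ 1)).trans ?_
      rw [Real.rpow_one]; linarith
    have a2 := hm' s ⟨⟨h1, h4⟩, abs_le.1 ht⟩
    rw [zb1_one hs]
    refine (mul_le_mul (min_le_left _ _) a1 (by positivity) (by positivity)).trans ?_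
    linarith
  · have hq : 1 ≤ (1 + |s.im|) ^ (1 / 256 : ℝ) := Real.one_le_rpow hY (by norm_num)
    have a1 := zb1_far (δ := 1 / 256) (B := 7 * C * (1 + |s.im|) ^ (1 / 256 : ℝ)) (by norm_num)
      (by norm_num) (by nlinarith) h1 h4 ht fun w hw hw' => by
        refine (h w hw).trans ?_
        have b1 : (‖w‖ + 1) ^ (1 / 256 : ℝ) ≤ (7 * (1 + |s.im|)) ^ (1 / 256 : ℝ) :=
          Real.rpow_le_rpow (by positivity) (by linarith) (by norm_num)
        have b2 : (7 : ℝ) ^ (1 / 256 : ℝ) ≤ 7 := by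
          simpa using Real.rpow_le_rpow_of_exponent_le (x := 7) (by norm_num)
            (by norm_num : (1 / 256 : ℝ) ≤ 1)
        rw [Real.mul_rpow (by norm_num) hY0.le] at b1
        calc C * (‖w‖ + 1) ^ (1 / 256 : ℝ) ≤ C * (7 * (1 + |s.im|) ^ (1 / 256 : ℝ)) :=
              mul_le_mul_of_nonneg_left (b1.trans (mul_le_mul_of_nonneg_right b2 (by positivity)))
                (by linarith)
          _ = _ := by ring
    have a2 : (1 + |s.im|) / 2 ≤ ‖s - 1‖ := by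
      have := abs_im_le_norm (s - 1)
      rw [sub_im, one_im, sub_zero] at this
      linarith
    have e1 : ((1 + |s.im|) ^ (1 / 256 : ℝ)) ^ 4 * (1 + |s.im|) ^ (63 / 64 : ℝ) = 1 + |s.im| := by
      rw [← Real.rpow_natCast, ← Real.rpow_mul hY0.le, ← Real.rpow_add hY0]
      norm_num
    rw [norm_mul]
    refine (mul_le_mul_of_nonneg_right (min_le_right _ _) (by positivity)).trans
      (le_trans (le_of_eq ?_) (mul_le_mul a2 a1 (by positivity) (norm_nonneg _)))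
    generalize (1 + |s.im|) ^ (1 / 256 : ℝ) = q at e1 hq
    generalize (1 + |s.im|) ^ (63 / 64 : ℝ) = p at e1
    rw [← e1]
    field_simp
    ring

theorem zb1_sk_ne (t : ℝ) : sk t ≠ 1 := fun h => by
  have := congrArg re h
  norm_num [sk] at this

theorem zb1_sk_neg (t : ℝ) : sk (-t) = conj (sk t) := by
  apply Complex.ext <;> simp [sk]

theorem zb1_z4_cont : Continuous z4 := by
  refine (Continuous.norm ?_).pow 4
  refine continuous_iff_continuousAt.2 fun t => ?_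
  refine ContinuousAt.comp (g := riemannZeta) (f := sk)
    (differentiableAt_riemannZeta (zb1_sk_ne t)).continuousAt ?_
  unfold sk
  fun_prop

theorem zb1_z4_le : ∃ C : ℝ, ∀ t, z4 t ≤ C * (1 + |t|) ^ 2 := by
  obtain ⟨C, hC, h⟩ := RankZero.g_zeta0' (ε := 1 / 2) (by norm_num) le_rfl
  refine ⟨(2 + 2 * C) ^ 4, fun t => ?_⟩
  have hY : 1 ≤ 1 + |t| := by linarith [abs_nonneg t]
  have hq : 1 ≤ √(1 + |t|) := Real.one_le_sqrt.2 hY
  have h1 := h (sk t) (by norm_num [sk])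
  have h2 : ‖sk t‖ + 1 ≤ 2 ^ 2 * (1 + |t|) := by
    have := norm_le_abs_re_add_abs_im (sk t)
    norm_num [sk] at this ⊢
    linarith [abs_nonneg t]
  have h3 : (‖sk t‖ + 1) ^ (1 / 2 : ℝ) ≤ 2 * √(1 + |t|) := by
    rw [← Real.sqrt_eq_rpow]
    refine (Real.sqrt_le_sqrt h2).trans (le_of_eq ?_)
    rw [Real.sqrt_mul (by norm_num), Real.sqrt_sq (by norm_num)]
  have h4 : ‖(sk t - 1)⁻¹‖ ≤ 2 := by
    have := abs_re_le_norm (sk t - 1)
    norm_num [sk] at this
    rw [norm_inv]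
    refine inv_le_of_inv_le₀ (by norm_num) ?_
    norm_num [sk]
    exact this
  have h5 : ‖riemannZeta (sk t)‖ ≤ (2 + 2 * C) * √(1 + |t|) := by
    rw [riemannZeta_eq_inv_sub_add (zb1_sk_ne t)]
    refine (norm_add_le _ _).trans ?_
    nlinarith [mul_le_mul_of_nonneg_left h3 (by linarith : 0 ≤ C)]
  refine (pow_le_pow_left₀ (norm_nonneg _) h5 4).trans (le_of_eq ?_)
  rw [mul_pow, show √(1 + |t|) ^ 4 = (√(1 + |t|) ^ 2) ^ 2 by ring, Real.sq_sqrt (by linarith)]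

theorem t_zb1 : T_ZB1 := by
  refine ⟨fun s => zb1_xi, zb1_xi_sym, zb1_lam_sym, fun s => zb1_xi_ne, fun s hs => ?_,
    fun s hs => ?_, zb1_coef_sym, fun s => zb1_coef_lam, fun s h0 h1 h => ?_, fun e => zb1_up,
    zb1_low, zb1_z4_cont, fun t => by unfold z4; positivity, fun t => ?_, fun t => ?_, zb1_z4_le⟩
  · rw [← zb1_xi_sym]
    exact zb1_xi_ne (by simp only [sub_re, one_re]; linarith)
  · rw [zb1_lam hs, Gammaℝ_def]
  · have e : 2 * (1 - s) - 1 = 1 - 2 * s := by ring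
    have := zb1_coef_lam (s := 1 - s) (fun a => h1 (by linear_combination -a))
      (fun a => h0 (by linear_combination -a)) (by rwa [e, zb1_xi_sym])
    rwa [e, zb1_lam_sym, zb1_coef_sym] at this
  · rw [z4, z4, zb1_sk_neg, riemannZeta_conj, norm_conj]
  · rw [zb1_sk_neg, riemannZeta_conj, ← mul_pow, mul_conj, z4, normSq_eq_norm_sq]
    push_cast
    ring

end Pool.Agent.Lib.E2
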