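import Pool.Agent.Lib.E2.Blue

/-! The convexity bound for the completed zeta function on the critical line. -/

namespace Pool.Agent.Lib.E2

noncomputable section

open Complex MeasureTheory Set Filter Topology
open scoped Real

namespace ZB2

theorem norm_le (s : ℂ) (h0 : 0 ≤ s.re) (h1 : s.re ≤ 1) : ‖s‖ ≤ 1 + |s.im| := by
  have := norm_le_abs_re_add_abs_im s
  rw [abs_of_nonneg h0] at this
  linarith

theorem xi_norm (hZ : St_ZB1) (s : ℂ) (h0 : 0 < s.re) (h1 : s ≠ 1) :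
    ‖xi s‖ ≤ ‖s‖ * ‖Gamma (s / 2)‖ * ‖(s - 1) * riemannZeta s‖ := by
  have hs : s ≠ 0 := fun h => by simp [h] at h0
  have e : xi s = (π : ℂ) ^ (-s / 2) * (s * Gamma (s / 2) * ((s - 1) * riemannZeta s)) := by
    rw [hZ.1 s hs h1, hZ.2.2.2.2.2.1 s h0]
    ring
  have hp : ‖(π : ℂ) ^ (-s / 2)‖ ≤ 1 := by
    rw [norm_cpow_eq_rpow_re_of_pos Real.pi_pos]
    refine Real.rpow_le_one_of_one_le_of_nonpos (by linarith [Real.pi_gt_three]) ?_
    simp only [div_ofNat_re, neg_re]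
    linarith
  rw [e, norm_mul, norm_mul, norm_mul]
  exact mul_le_of_le_one_left (by positivity) hp

theorem edge (hB : St_BET) (hZ : St_ZB1) {e : ℝ} (he : e ∈ Ioc (0 : ℝ) (1 / 2)) :
    ∃ C : ℝ, 0 ≤ C ∧ ∀ s : ℂ, s.re = 1 →
      ‖xi s‖ ≤ C * (1 + |s.im|) ^ (2 + e) * Real.exp (-(π / 4) * |s.im|) := by
  obtain ⟨C, hC⟩ := hZ.2.2.2.2.2.2.2.2.2.1 e he
  refine ⟨1 + 12 * |C|, by positivity, fun s hs => ?_⟩
  by_cases h1 : s = 1
  · subst h1
    simp [xi]
  set t := s.im with ht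
  have hn := norm_le s (by linarith) hs.le
  have e2 : s / 2 = sk (t / 2) := by
    apply Complex.ext <;> simp [sk, hs, ht]
  have hG : ‖Gamma (s / 2)‖ ≤ 3 * Real.exp (-(π / 4) * |t|) := by
    refine le_of_pow_le_pow_left₀ two_ne_zero (by positivity) ?_
    rw [e2, (hB.2.2.2.2.2.2 (t / 2)).2, mul_pow, ← Real.exp_nat_mul,
      div_le_iff₀ (Real.cosh_pos _), ← Real.cosh_abs, Real.cosh_eq]
    have a1 : |π * (t / 2)| = π / 2 * |t| := by
      rw [abs_mul, abs_div, abs_of_pos Real.pi_pos, abs_two]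
      ring
    have a2 : Real.exp (((2 : ℕ) : ℝ) * (-(π / 4) * |t|)) * Real.exp (π / 2 * |t|) = 1 := by
      rw [← Real.exp_add, ← Real.exp_zero]
      congr 1
      push_cast
      ring
    rw [a1]
    have a3 : 0 < Real.exp (((2 : ℕ) : ℝ) * (-(π / 4) * |t|)) * Real.exp (-(π / 2 * |t|)) := by
      positivity
    nlinarith [Real.pi_lt_four]
  have hz : ‖(s - 1) * riemannZeta s‖ ≤ |C| * (4 * (1 + |t|) ^ (1 + e)) := by
    refine (hC s (by linarith [he.1]) h1).trans (mul_le_mul (le_abs_self C) ?_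
      (by positivity) (abs_nonneg C))
    calc (1 + ‖s‖) ^ (1 + e) ≤ (2 * (1 + |t|)) ^ (1 + e) :=
          Real.rpow_le_rpow (by positivity) (by linarith [abs_nonneg t]) (by linarith [he.1])
      _ = 2 ^ (1 + e) * (1 + |t|) ^ (1 + e) := Real.mul_rpow (by norm_num) (by positivity)
      _ ≤ 2 ^ (2 : ℝ) * (1 + |t|) ^ (1 + e) := by
          gcongr
          · norm_num
          · linarith [he.2]
      _ = _ := by norm_num
  have e3 : (1 + |t|) ^ (2 + e) = (1 + |t|) * (1 + |t|) ^ (1 + e) := by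
    rw [show 2 + e = 1 + (1 + e) by ring, Real.rpow_add (by positivity), Real.rpow_one]
  calc ‖xi s‖ ≤ ‖s‖ * ‖Gamma (s / 2)‖ * ‖(s - 1) * riemannZeta s‖ :=
        xi_norm hZ s (by linarith) h1
    _ ≤ (1 + |t|) * (3 * Real.exp (-(π / 4) * |t|)) * (|C| * (4 * (1 + |t|) ^ (1 + e))) := by
        gcongr
    _ = 12 * |C| * (1 + |t|) ^ (2 + e) * Real.exp (-(π / 4) * |t|) := by rw [e3]; ring
    _ ≤ _ := by gcongr; linarith

theorem grow (hB : St_BET) (hZ : St_ZB1) : ∃ C : ℝ, 0 ≤ C ∧ ∀ s : ℂ, 0 < s.re → s.re < 1 →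
    ‖xi s‖ ≤ C * (1 + |s.im|) ^ 6 := by
  obtain ⟨C, hC⟩ := hZ.2.2.2.2.2.2.2.2.2.1 (1 / 2) (by norm_num)
  obtain ⟨D, hD⟩ := hB.2.2.2.2.2.1
  have key : ∀ s : ℂ, 1 / 2 ≤ s.re → s.re < 1 → ‖xi s‖ ≤ 4 * |C| * |D| * (1 + |s.im|) ^ 6 := by
    intro s h0 h1
    have hs : s ≠ 1 := fun h => by simp [h] at h1
    have hn := norm_le s (by linarith) h1.le
    set t := s.im with ht
    have ha := abs_nonneg t
    have hG : ‖Gamma (s / 2)‖ ≤ |D| * (1 + |t|) ^ 3 := by
      have := hD (s / 2) (by simp only [div_ofNat_re]; linarith) (by simp only [div_ofNat_re]; linarith)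
      refine this.trans ?_
      have a1 : |(s / 2).im| ≤ |t| := by
        simp only [div_ofNat_im, abs_div, abs_two]
        linarith
      have a2 : Real.exp (-(π / 2) * |(s / 2).im|) ≤ 1 :=
        Real.exp_le_one_iff.2 (mul_nonpos_of_nonpos_of_nonneg (by linarith [Real.pi_pos])
          (abs_nonneg _))
      calc _ ≤ |D| * (1 + |t|) ^ 3 * 1 := by
            refine mul_le_mul (mul_le_mul (le_abs_self D) (by gcongr) (by positivity)
              (abs_nonneg D)) a2 (by positivity) (by positivity)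
        _ = _ := mul_one _
    have hz : ‖(s - 1) * riemannZeta s‖ ≤ |C| * (2 * (1 + |t|)) ^ 2 := by
      refine (hC s (by linarith) hs).trans (mul_le_mul (le_abs_self C) ?_
        (by positivity) (abs_nonneg C))
      calc (1 + ‖s‖) ^ (1 + 1 / 2 : ℝ) ≤ (2 * (1 + |t|)) ^ (1 + 1 / 2 : ℝ) :=
            Real.rpow_le_rpow (by positivity) (by linarith) (by norm_num)
        _ ≤ (2 * (1 + |t|)) ^ ((2 : ℕ) : ℝ) :=
            Real.rpow_le_rpow_of_exponent_le (by linarith) (by norm_num)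
        _ = _ := Real.rpow_natCast _ _
    calc ‖xi s‖ ≤ ‖s‖ * ‖Gamma (s / 2)‖ * ‖(s - 1) * riemannZeta s‖ :=
          xi_norm hZ s (by linarith) hs
      _ ≤ (1 + |t|) * (|D| * (1 + |t|) ^ 3) * (|C| * (2 * (1 + |t|)) ^ 2) := by gcongr
      _ = _ := by ring
  refine ⟨4 * |C| * |D|, by positivity, fun s h0 h1 => ?_⟩
  rcases le_total (1 / 2) s.re with h | h
  · exact key s h h1
  · have := key (1 - s) (by simp only [sub_re, one_re]; linarith)
      (by simp only [sub_re, one_re]; linarith)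
    rw [hZ.2.1 s] at this
    simpa using this

theorem gauss (s : ℂ) (r : ℝ) (h0 : 0 ≤ s.re) (h1 : s.re ≤ 1) :
    ‖exp ((s - sk r) ^ 2)‖ ≤ Real.exp (1 - |s.im - r| ^ 2) := by
  rw [norm_exp, sq_abs]
  refine Real.exp_le_exp.2 ?_
  simp [sq, sk]
  nlinarith

theorem shift {e t r : ℝ} (he : e ∈ Ioc (0 : ℝ) (1 / 2)) :
    (1 + |t|) ^ (2 + e) * Real.exp (-(π / 4) * |t|) * Real.exp (1 - |t - r| ^ 2) ≤
      Real.exp 5 * ((1 + |r|) ^ (2 + e) * Real.exp (-(π / 4) * |r|)) := by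
  set u := |t - r| with hu
  have u0 : 0 ≤ u := abs_nonneg _
  have a1 : |t| ≤ |r| + u := by
    have := abs_add_le r (t - r)
    simpa using this
  have a2 : |r| ≤ |t| + u := by
    have := abs_sub t (t - r)
    simpa using this
  have b1 : (1 + |t|) ^ (2 + e) ≤ (1 + |r|) ^ (2 + e) * Real.exp (3 * u) := by
    calc (1 + |t|) ^ (2 + e) ≤ ((1 + |r|) * Real.exp u) ^ (2 + e) := by
          refine Real.rpow_le_rpow (by positivity) ?_ (by linarith [he.1])
          nlinarith [Real.add_one_le_exp u, abs_nonneg r]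
      _ = (1 + |r|) ^ (2 + e) * Real.exp (u * (2 + e)) := by
          rw [Real.mul_rpow (by positivity) (by positivity), ← Real.exp_mul]
      _ ≤ _ := mul_le_mul_of_nonneg_left (Real.exp_le_exp.2 (by nlinarith [he.2]))
          (by positivity)
  have b2 : Real.exp (3 * u) * Real.exp (-(π / 4) * |t|) * Real.exp (1 - u ^ 2) ≤
      Real.exp 5 * Real.exp (-(π / 4) * |r|) := by
    rw [← Real.exp_add, ← Real.exp_add, ← Real.exp_add]
    refine Real.exp_le_exp.2 ?_
    nlinarith [Real.pi_lt_four, Real.pi_pos, sq_nonneg (u - 2)]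
  calc _ ≤ (1 + |r|) ^ (2 + e) * Real.exp (3 * u) * Real.exp (-(π / 4) * |t|) *
        Real.exp (1 - u ^ 2) := by gcongr
    _ = (1 + |r|) ^ (2 + e) *
        (Real.exp (3 * u) * Real.exp (-(π / 4) * |t|) * Real.exp (1 - u ^ 2)) := by ring
    _ ≤ (1 + |r|) ^ (2 + e) * (Real.exp 5 * Real.exp (-(π / 4) * |r|)) := by gcongr
    _ = _ := by ring

end ZB2

theorem t_zb2 : T_ZB2 := by
  intro hB hZ e he
  have he' : min e (1 / 2) ∈ Ioc (0 : ℝ) (1 / 2) := ⟨lt_min he (by norm_num), min_le_right _ _⟩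
  set a := min e (1 / 2) with ha
  obtain ⟨C, hC0, hC⟩ := ZB2.edge hB hZ he'
  obtain ⟨D, hD0, hD⟩ := ZB2.grow hB hZ
  refine ⟨8 * (C * Real.exp 5), fun r => ?_⟩
  set M := C * (Real.exp 5 * ((1 + |r|) ^ (2 + a) * Real.exp (-(π / 4) * |r|))) with hM
  have hed : ∀ s : ℂ, 0 ≤ s.re → s.re ≤ 1 →
      ‖xi s‖ ≤ C * (1 + |s.im|) ^ (2 + a) * Real.exp (-(π / 4) * |s.im|) →
      ‖xi s * exp ((s - sk r) ^ 2)‖ ≤ M := by
    intro s h0 h1 h
    rw [norm_mul]
    calc _ ≤ C * (1 + |s.im|) ^ (2 + a) * Real.exp (-(π / 4) * |s.im|) *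
          Real.exp (1 - |s.im - r| ^ 2) :=
          mul_le_mul h (ZB2.gauss s r h0 h1) (norm_nonneg _) (by positivity)
      _ = C * ((1 + |s.im|) ^ (2 + a) * Real.exp (-(π / 4) * |s.im|) *
          Real.exp (1 - |s.im - r| ^ 2)) := by ring
      _ ≤ M := mul_le_mul_of_nonneg_left (ZB2.shift he') hC0
  have key : ‖xi (sk r) * exp ((sk r - sk r) ^ 2)‖ ≤ M := by
    refine PhragmenLindelof.vertical_strip (f := fun s => xi s * exp ((s - sk r) ^ 2))
      (a := 0) (b := 1) (xi_diff.mul (by fun_prop)).diffContOnCl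
      ⟨1, by linarith [Real.pi_gt_three], 6, ?_⟩ (fun z hz => hed z hz.ge (by linarith) ?_)
      (fun z hz => hed z (by linarith) hz.le (hC z hz)) (by simp [sk]) (by simp [sk]; norm_num)
    · refine Asymptotics.IsBigO.of_bound (D * Real.exp 1) (eventually_inf_principal.2
        (Eventually.of_forall fun s hs => ?_))
      have h0 : 0 < s.re := hs.1
      have h1 : s.re < 1 := hs.2
      rw [norm_mul, Real.norm_eq_abs, abs_of_pos (Real.exp_pos _), one_mul]
      have b1 : (1 + |s.im|) ^ 6 ≤ Real.exp (6 * Real.exp |s.im|) := by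
        calc (1 + |s.im|) ^ 6 ≤ Real.exp (Real.exp |s.im|) ^ 6 := by
              gcongr
              linarith [Real.add_one_le_exp |s.im|, Real.add_one_le_exp (Real.exp |s.im|)]
          _ = _ := by rw [← Real.exp_nat_mul]; norm_num
      have b2 : ‖exp ((s - sk r) ^ 2)‖ ≤ Real.exp 1 :=
        (ZB2.gauss s r h0.le h1.le).trans (Real.exp_le_exp.2 (by linarith [sq_nonneg |s.im - r|]))
      calc _ ≤ D * Real.exp (6 * Real.exp |s.im|) * Real.exp 1 :=
            mul_le_mul ((hD s h0 h1).trans (by gcongr)) b2 (norm_nonneg _) (by positivity)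
        _ = _ := by ring
    · have := hC (1 - z) (by simp [hz])
      rw [hZ.2.1 z] at this
      simpa using this
  have s0 : sk r ≠ 0 := fun h => by simpa [sk] using congrArg re h
  have s1 : sk r ≠ 1 := fun h => by
    have := congrArg re h
    simp [sk] at this
  have e1 : sk r * (sk r - 1) = ((-(1 / 4 + r ^ 2) : ℝ) : ℂ) := by
    unfold sk
    push_cast
    linear_combination (r : ℂ) ^ 2 * I_sq
  rw [sub_self, zero_pow two_ne_zero, exp_zero, mul_one, hZ.1 _ s0 s1, norm_mul, e1, norm_real,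
    Real.norm_eq_abs, abs_neg, abs_of_pos (by positivity)] at key
  have hp : 0 < (1 + |r|) ^ 2 := by positivity
  have e2 : (1 + |r|) ^ (2 + a) = (1 + |r|) ^ 2 * (1 + |r|) ^ a := by
    rw [Real.rpow_add (by positivity)]
    norm_num
  have b3 : (1 + |r|) ^ a ≤ (1 + |r|) ^ e :=
    Real.rpow_le_rpow_of_exponent_le (by linarith [abs_nonneg r]) (min_le_left _ _)
  refine le_of_mul_le_mul_left ?_ hp
  calc (1 + |r|) ^ 2 * ‖Lam (sk r)‖ ≤ 8 * ((1 / 4 + r ^ 2) * ‖Lam (sk r)‖) := by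
        rw [← mul_assoc]
        gcongr
        nlinarith [sq_abs r, sq_nonneg (|r| - 1)]
    _ ≤ 8 * M := by gcongr
    _ = (1 + |r|) ^ 2 * (8 * (C * Real.exp 5) * (1 + |r|) ^ a * Real.exp (-(π / 4) * |r|)) := by
        rw [hM, e2]
        ring
    _ ≤ _ := by gcongr

end

end Pool.Agent.Lib.E2
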