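import Pool.Agent.Lib.E2.Blue

/-!
Bounds for `Rf`, `coef` and the density of the continuous spectrum.
-/

namespace Pool.Agent.Lib.E2

noncomputable section

open Complex MeasureTheory Set Filter Topology
open scoped Real

theorem zb3_re (t : ℝ) : (sk t).re = 1 / 2 := by simp [sk]

theorem zb3_im (t : ℝ) : (sk t).im = t := by simp [sk]

theorem zb3_pi : (π : ℂ) ≠ 0 := ofReal_ne_zero.2 Real.pi_pos.ne'

theorem zb3_sq (hB : St_BET) (hZ : St_ZB1) {s : ℂ} (hs : 0 < s.re) :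
    Lam s ^ 2 = (π : ℂ) ^ (-s) * 2 ^ (1 - s) * Gamma s * bet (s / 2) * riemannZeta s ^ 2 := by
  have h1 := (hB.1 (s / 2) (by simp; linarith)).2.2.2.2.1
  have e : 2 * (s / 2) = s := by ring
  rw [e] at h1
  have h2 : (π : ℂ) ^ (-s) = (π : ℂ) ^ (-s / 2) * (π : ℂ) ^ (-s / 2) := by
    rw [← cpow_add _ _ zb3_pi]
    congr 1
    ring
  rw [hZ.2.2.2.2.2.1 s hs, mul_pow, mul_pow, h1, h2]
  ring

theorem zb3_two (hZ : St_ZB1) {s : ℂ} (hs : 0 < s.re) :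
    Lam (2 * s) = (π : ℂ) ^ (-s) * Gamma s * riemannZeta (2 * s) := by
  have h4 := hZ.2.2.2.2.2.1 (2 * s) (by simp; linarith)
  have e1 : -(2 * s) / 2 = -s := by ring
  have e2 : 2 * s / 2 = s := by ring
  rwa [e1, e2] at h4

theorem zb3_pif (hB : St_BET) (hJ : St_JB2) (hZ : St_ZB1) {s : ℂ} (hs : 0 < s.re) :
    Pif s 0 = Lam s ^ 2 := by
  have h2 : (2 * π : ℂ) ^ (-s) = (2 : ℂ) ^ (-s) * (π : ℂ) ^ (-s) := by
    have := Complex.mul_cpow_ofReal_nonneg (zero_le_two) Real.pi_pos.le (-s)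
    simpa using this
  have h3 : (2 : ℂ) ^ (1 - s) = 2 * 2 ^ (-s) := by
    rw [sub_eq_add_neg, cpow_add _ _ two_ne_zero, cpow_one]
  unfold Pif
  rw [zb3_sq hB hZ hs, neg_zero, (hJ s hs).2.2.1, h2, h3]
  ring

/-- `Lam s ^ 2 / Lam (2 s)` -/
def zbA (s : ℂ) : ℂ := 2 ^ (1 - s) * bet (s / 2) * riemannZeta s ^ 2 / riemannZeta (2 * s)

theorem zb3_lam_ne (hZ : St_ZB1) {s : ℂ} (hs : 1 ≤ s.re) (h1 : s ≠ 1) : Lam s ≠ 0 := fun h => by
  have h0 : s ≠ 0 := fun h => by rw [h] at hs; norm_num at hs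
  have := hZ.2.2.2.1 s hs
  rw [hZ.1 s h0 h1, h, mul_zero] at this
  exact this rfl

theorem zb3_A (hB : St_BET) (hZ : St_ZB1) {s : ℂ} (hs : 1 / 2 ≤ s.re) :
    Lam s ^ 2 / Lam (2 * s) = zbA s := by
  have h0 : 0 < s.re := by linarith
  have h1 : riemannZeta (2 * s) ≠ 0 := riemannZeta_ne_zero_of_one_le_re (by simp; linarith)
  have h2 : Gamma s ≠ 0 := Gamma_ne_zero_of_re_pos h0
  have h3 : (π : ℂ) ^ (-s) ≠ 0 := by rw [Ne, cpow_eq_zero_iff]; simp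
  rw [zb3_sq hB hZ h0, zb3_two hZ h0, zbA]
  field_simp

theorem zb3_rf (hB : St_BET) (hZ : St_ZB1) {s : ℂ} (hs : 1 / 2 ≤ s.re) (h1 : s ≠ 1 / 2) :
    Rf s = Lam s ^ 2 * zbA s := by
  have h0 : s ≠ 0 := fun h => by rw [h] at hs; norm_num at hs
  have h2 : 2 * s ≠ 1 := fun h => h1 (by linear_combination h / 2)
  have h3 : 2 * s - 1 ≠ 0 := sub_ne_zero.2 h2
  have h4 := zb3_lam_ne hZ (s := 2 * s) (by simp; linarith) h2
  rw [← zb3_A hB hZ hs, Rf, hZ.1 _ (mul_ne_zero two_ne_zero h0) h2]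
  field_simp

theorem zb3_coef (hB : St_BET) (hZ : St_ZB1) {t : ℝ} (ht : t ≠ 0) :
    coef (sk t) = zbA (sk t) * zbA (sk (-t)) := by
  have h1 : sk t ≠ 1 / 2 := fun h => ht (by simpa [zb3_im] using congrArg Complex.im h)
  have h2 : sk t ≠ 1 := fun h => by
    have := congrArg Complex.re h
    rw [zb3_re] at this
    norm_num at this
  have e : sk (-t) = 1 - sk t := by unfold sk; push_cast; ring
  have h3 : xi (2 * sk t - 1) ≠ 0 := hZ.2.2.2.2.1 _ (by simp [zb3_re])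
  have h4 := hZ.2.2.2.2.2.2.2.1 (sk t) h1 h2 h3
  have h5 : Lam (2 * sk t - 1) = Lam (2 * sk (-t)) := by
    rw [← hZ.2.2.1 (2 * sk t - 1), e]
    congr 1
    ring
  have h6 : 2 * sk (-t) ≠ 1 := fun h => h1 (by rw [e] at h; linear_combination -h / 2)
  have h7 := zb3_lam_ne hZ (s := 2 * sk (-t)) (by simp [zb3_re]) h6
  have h8 : Lam (sk (-t)) = Lam (sk t) := by rw [e, hZ.2.2.1]
  rw [h5, zb3_rf hB hZ (zb3_re t).ge h1] at h4
  rw [← zb3_A hB hZ (zb3_re (-t)).ge, h8, eq_div_of_mul_eq h7 h4]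
  ring

theorem zb3_A_bd (hB : St_BET) (hZ : St_ZB1) : ∃ K : ℝ, 0 ≤ K ∧ ∀ s : ℂ, 1 / 2 ≤ s.re → s.re ≤ 2 →
    s ≠ 1 / 2 → ‖zbA s‖ ≤ K * ‖riemannZeta s‖ ^ 2 * ‖2 * s - 1‖ *
      (1 + |s.im|) ^ (-(95 / 64) : ℝ) := by
  obtain ⟨C, hC⟩ := hB.2.2.1
  obtain ⟨c, hc, h⟩ := hZ.2.2.2.2.2.2.2.2.2.2.1
  refine ⟨2 * (|C| * (1 / 2 : ℝ) ^ (-(1 / 2) : ℝ)) * c⁻¹, by positivity, fun s h1 h2 h3 => ?_⟩
  have hT : 0 < 1 + |s.im| := by positivity
  have a1 : ‖(2 : ℂ) ^ (1 - s)‖ ≤ 2 := by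
    have : (2 : ℂ) = ((2 : ℝ) : ℂ) := by norm_num
    rw [this, norm_cpow_eq_rpow_re_of_pos two_pos]
    calc (2 : ℝ) ^ (1 - s).re ≤ 2 ^ (1 : ℝ) :=
          Real.rpow_le_rpow_of_exponent_le one_le_two (by simp; linarith)
      _ = 2 := Real.rpow_one 2
  have a2 : ‖bet (s / 2)‖ ≤
      |C| * (1 / 2 : ℝ) ^ (-(1 / 2) : ℝ) * (1 + |s.im|) ^ (-(1 / 2) : ℝ) := by
    refine (hC (s / 2) (by simp; linarith) (by simp; linarith)).trans ?_
    rw [mul_assoc, ← Real.mul_rpow (by norm_num) hT.le]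
    refine mul_le_mul (le_abs_self C) ?_ (by positivity) (abs_nonneg C)
    refine Real.rpow_le_rpow_of_nonpos (by positivity) ?_ (by norm_num)
    have : |(s / 2).im| = |s.im| / 2 := by simp [abs_div]
    rw [this]
    linarith
  have a3 : ‖riemannZeta (2 * s)‖⁻¹ ≤ ‖2 * s - 1‖ * (c⁻¹ * (1 + |s.im|) ^ (-(63 / 64) : ℝ)) := by
    have h4 := h (2 * s) (by simp; linarith) (by simp; linarith)
      fun h => h3 (by linear_combination h / 2)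
    have h5 : (1 + |s.im|) ^ (63 / 64 : ℝ) ≤ (1 + |(2 * s).im|) ^ (63 / 64 : ℝ) := by
      refine Real.rpow_le_rpow hT.le ?_ (by norm_num)
      have : |(2 * s).im| = 2 * |s.im| := by simp [abs_mul]
      rw [this]
      linarith [abs_nonneg s.im]
    have h6 : 0 < ‖riemannZeta (2 * s)‖ :=
      norm_pos_iff.2 (riemannZeta_ne_zero_of_one_le_re (by simp; linarith))
    have h7 : 0 < c * (1 + |s.im|) ^ (63 / 64 : ℝ) := by positivity
    rw [Real.rpow_neg hT.le, ← mul_inv, ← div_eq_mul_inv, le_div_iff₀ h7, inv_mul_le_iff₀ h6,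
      mul_comm ‖riemannZeta (2 * s)‖, ← norm_mul]
    exact (mul_le_mul_of_nonneg_left h5 hc.le).trans h4
  have a4 : (1 + |s.im|) ^ (-(95 / 64) : ℝ) =
      (1 + |s.im|) ^ (-(1 / 2) : ℝ) * (1 + |s.im|) ^ (-(63 / 64) : ℝ) := by
    rw [← Real.rpow_add hT]
    norm_num
  rw [zbA, norm_div, norm_mul, norm_mul, norm_pow, div_eq_mul_inv, a4]
  calc _ ≤ 2 * (|C| * (1 / 2 : ℝ) ^ (-(1 / 2) : ℝ) * (1 + |s.im|) ^ (-(1 / 2) : ℝ)) *
        ‖riemannZeta s‖ ^ 2 * (‖2 * s - 1‖ * (c⁻¹ * (1 + |s.im|) ^ (-(63 / 64) : ℝ))) := by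
        gcongr
    _ = _ := by ring

theorem zb3_poly (n : ℕ) : ∃ K : ℝ, ∀ t : ℝ, 0 ≤ t → (1 + t) ^ n ≤ K * Real.exp (t / 2) := by
  refine ⟨2 ^ n * n.factorial * Real.exp (1 / 2), fun t ht => ?_⟩
  have h := Real.pow_div_factorial_le_exp ((1 + t) / 2) (by linarith) n
  have h1 : (0 : ℝ) < n.factorial := by exact_mod_cast n.factorial_pos
  rw [div_le_iff₀ h1, div_pow, div_le_iff₀ (by positivity), add_div, Real.exp_add] at h
  linarith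

theorem zb3_one (hB : St_BET) (hZ : St_ZB1) : ∃ C : ℝ, ∀ s : ℂ, 1 / 2 ≤ s.re → s.re ≤ 2 →
    1 ≤ |s.im| → ‖Rf s‖ ≤ C * Real.exp (-|s.im|) := by
  obtain ⟨K, hK, hA⟩ := zb3_A_bd hB hZ
  obtain ⟨C1, h1⟩ := hB.2.2.1
  obtain ⟨C2, h2⟩ := hB.2.2.2.2.2.1
  obtain ⟨C3, h3⟩ := hZ.2.2.2.2.2.2.2.2.2.1 (1 / 2) ⟨by norm_num, le_rfl⟩
  obtain ⟨K1, h4⟩ := zb3_poly 12
  refine ⟨2 * |C2| * |C1| * (9 * |C3|) ^ 4 * K * 3 * K1, fun s a1 a2 a3 => ?_⟩
  set T := 1 + |s.im| with hT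
  have hT1 : 1 ≤ T := by linarith
  have hne : s ≠ 1 / 2 := fun h => by rw [h] at a3; norm_num at a3
  have hne1 : s ≠ 1 := fun h => by rw [h] at a3; norm_num at a3
  have hn : ‖s‖ ≤ 2 + |s.im| := by
    have := Complex.norm_le_abs_re_add_abs_im s
    rw [abs_of_nonneg (by linarith : 0 ≤ s.re)] at this
    linarith
  have b1 : ‖(π : ℂ) ^ (-s)‖ ≤ 1 := by
    rw [norm_cpow_eq_rpow_re_of_pos Real.pi_pos]
    exact Real.rpow_le_one_of_one_le_of_nonpos (by linarith [Real.pi_gt_three])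
      (by simp; linarith)
  have b2 : ‖(2 : ℂ) ^ (1 - s)‖ ≤ 2 := by
    have : (2 : ℂ) = ((2 : ℝ) : ℂ) := by norm_num
    rw [this, norm_cpow_eq_rpow_re_of_pos two_pos]
    calc (2 : ℝ) ^ (1 - s).re ≤ 2 ^ (1 : ℝ) :=
          Real.rpow_le_rpow_of_exponent_le one_le_two (by simp; linarith)
      _ = 2 := Real.rpow_one 2
  have b3 : ‖Gamma s‖ ≤ |C2| * T ^ 3 * Real.exp (-(π / 2) * |s.im|) := by
    refine (h2 s (by linarith) (by linarith)).trans ?_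
    have := le_abs_self C2
    gcongr
  have b4 : ‖bet (s / 2)‖ ≤ |C1| := by
    refine (h1 (s / 2) (by simp; linarith) (by simp; linarith)).trans ?_
    have h5 : (1 + |(s / 2).im|) ^ (-(1 / 2) : ℝ) ≤ 1 :=
      Real.rpow_le_one_of_one_le_of_nonpos (by linarith [abs_nonneg (s / 2).im]) (by norm_num)
    calc _ ≤ |C1| * 1 := mul_le_mul (le_abs_self C1) h5 (by positivity) (abs_nonneg _)
      _ = _ := mul_one _
  have b5 : ‖riemannZeta s‖ ≤ 9 * |C3| * T ^ 2 := by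
    have h5 := h3 s (by linarith) hne1
    have h6 : 1 ≤ ‖s - 1‖ := by
      have := abs_im_le_norm (s - 1)
      simp only [sub_im, one_im, sub_zero] at this
      linarith
    have h7 : (1 + ‖s‖) ^ (1 + 1 / 2 : ℝ) ≤ (3 * T) ^ 2 := by
      calc (1 + ‖s‖) ^ (1 + 1 / 2 : ℝ) ≤ (1 + ‖s‖) ^ (2 : ℝ) :=
            Real.rpow_le_rpow_of_exponent_le (by linarith [norm_nonneg s]) (by norm_num)
        _ = (1 + ‖s‖) ^ 2 := Real.rpow_two _
        _ ≤ (3 * T) ^ 2 := by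
            gcongr
            linarith
    rw [norm_mul] at h5
    calc ‖riemannZeta s‖ ≤ ‖s - 1‖ * ‖riemannZeta s‖ := le_mul_of_one_le_left (norm_nonneg _) h6
      _ ≤ |C3| * (3 * T) ^ 2 :=
          h5.trans (mul_le_mul (le_abs_self C3) h7 (by positivity) (abs_nonneg _))
      _ = _ := by ring
  have b6 : ‖2 * s - 1‖ ≤ 3 * T := by
    have := Complex.norm_le_abs_re_add_abs_im (2 * s - 1)
    have e1 : (2 * s - 1).re = 2 * s.re - 1 := by simp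
    have e2 : |(2 * s - 1).im| = 2 * |s.im| := by simp [abs_mul]
    rw [e1, e2, abs_of_nonneg (by linarith)] at this
    linarith
  have b7 : T ^ (-(95 / 64) : ℝ) ≤ 1 := Real.rpow_le_one_of_one_le_of_nonpos hT1 (by norm_num)
  have b8 : ‖zbA s‖ ≤ K * (9 * |C3| * T ^ 2) ^ 2 * (3 * T) * 1 := by
    refine (hA s a1 a2 hne).trans ?_
    gcongr
  have b9 : Real.exp (|s.im| / 2) * Real.exp (-(π / 2) * |s.im|) ≤ Real.exp (-|s.im|) := by
    rw [← Real.exp_add]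
    refine Real.exp_le_exp.2 ?_
    nlinarith [Real.pi_gt_three]
  have b10 := h4 |s.im| (abs_nonneg _)
  have hK1 : 0 ≤ K1 := by
    have := h4 0 le_rfl
    simp at this
    linarith
  rw [zb3_rf hB hZ a1 hne, zb3_sq hB hZ (by linarith)]
  simp only [norm_mul, norm_pow]
  calc _ ≤ 1 * 2 * (|C2| * T ^ 3 * Real.exp (-(π / 2) * |s.im|)) * |C1| *
        (9 * |C3| * T ^ 2) ^ 2 * (K * (9 * |C3| * T ^ 2) ^ 2 * (3 * T) * 1) := by gcongr
    _ = 2 * |C2| * |C1| * (9 * |C3|) ^ 4 * K * 3 * (T ^ 12 * Real.exp (-(π / 2) * |s.im|)) := by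
        ring
    _ ≤ 2 * |C2| * |C1| * (9 * |C3|) ^ 4 * K * 3 *
        (K1 * Real.exp (|s.im| / 2) * Real.exp (-(π / 2) * |s.im|)) := by gcongr
    _ = 2 * |C2| * |C1| * (9 * |C3|) ^ 4 * K * 3 * K1 *
        (Real.exp (|s.im| / 2) * Real.exp (-(π / 2) * |s.im|)) := by ring
    _ ≤ _ := by gcongr

/-- `(s - 1) ^ 4 Rf s` -/
def zbF (s : ℂ) : ℂ := xi s ^ 4 / s ^ 4 * (2 * s * (2 * s - 1)) / xi (2 * s)

theorem zb3_F_diff (hZ : St_ZB1) {s : ℂ} (hs : 1 / 2 ≤ s.re) : DifferentiableAt ℂ zbF s := by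
  have h0 : s ≠ 0 := fun h => by rw [h] at hs; norm_num at hs
  have h1 : xi (2 * s) ≠ 0 := hZ.2.2.2.1 _ (by simp; linarith)
  have h2 := xi_diff
  unfold zbF
  exact DifferentiableAt.div (by fun_prop (disch := exact pow_ne_zero _ h0)) (by fun_prop) h1

theorem zb3_F_eq (hZ : St_ZB1) {s : ℂ} (hs : 1 / 2 ≤ s.re) (h1 : s ≠ 1) :
    Rf s = zbF s / (s - 1) ^ 4 := by
  have h0 : s ≠ 0 := fun h => by rw [h] at hs; norm_num at hs
  have h2 : s - 1 ≠ 0 := sub_ne_zero.2 h1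
  have h3 : xi (2 * s) ≠ 0 := hZ.2.2.2.1 _ (by simp; linarith)
  rw [Rf, zbF, hZ.1 s h0 h1]
  field_simp

theorem zb3_ball {s : ℂ} (hs : s ∈ Metric.closedBall (1 : ℂ) dl) : 1 / 2 ≤ s.re := by
  rw [mem_closedBall_iff_norm] at hs
  have h1 := abs_re_le_norm (s - 1)
  rw [sub_re, one_re] at h1
  have h2 := neg_abs_le (s.re - 1)
  linarith [dl_le]

theorem zb3_three (hZ : St_ZB1) :
    (∀ s ∈ Metric.closedBall (1 : ℂ) dl,
      DifferentiableAt ℂ (fun s => zbF s * ((2 * s - 1) * 2) / xi (2 * s - 1)) s) ∧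
    ∀ s ∈ Metric.closedBall (1 : ℂ) dl, s ≠ 1 →
      coef s = zbF s * ((2 * s - 1) * 2) / xi (2 * s - 1) / (s - 1) ^ 3 := by
  have h2 := xi_diff
  refine ⟨fun s hs => ?_, fun s hs h1 => ?_⟩
  · have h3 := zb3_F_diff hZ (zb3_ball hs)
    exact DifferentiableAt.div (by fun_prop) (by fun_prop) (dl_ne (mem_closedBall_iff_norm.1 hs))
  · have h3 : s - 1 ≠ 0 := sub_ne_zero.2 h1
    have h4 := dl_ne (mem_closedBall_iff_norm.1 hs)
    rw [coef, zb3_F_eq hZ (zb3_ball hs) h1]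
    field_simp

theorem zb3_sk_cont : Continuous sk := by
  unfold sk
  fun_prop

theorem zb3_sk_ne (t : ℝ) : sk t ≠ 1 ∧ sk t ≠ 0 := by
  constructor <;> intro h <;> have := congrArg Complex.re h <;> rw [zb3_re] at this <;>
    norm_num at this

theorem zb3_five (hZ : St_ZB1) : Continuous (fun t : ℝ => coef (sk t)) := by
  have h1 : Continuous fun t => zbF (sk t) := continuous_iff_continuousAt.2 fun t =>
    (zb3_F_diff hZ (zb3_re t).ge).continuousAt.comp zb3_sk_cont.continuousAt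
  have h2 := xi_diff.continuous
  have h3 := zb3_sk_cont
  have e : (fun t : ℝ => coef (sk t)) = fun t => zbF (sk t) / (sk t - 1) ^ 4 *
      ((2 * sk t - 1) * (2 * sk t - 2)) / xi (2 * sk t - 1) := by
    funext t
    rw [coef, zb3_F_eq hZ (zb3_re t).ge (zb3_sk_ne t).1]
  rw [e]
  refine Continuous.div (Continuous.mul (h1.div (by fun_prop) fun t =>
    pow_ne_zero _ (sub_ne_zero.2 (zb3_sk_ne t).1)) (by fun_prop)) (by fun_prop) fun t => ?_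
  exact hZ.2.2.2.2.1 _ (by simp [zb3_re])

theorem zb3_coef_bd (hB : St_BET) (hZ : St_ZB1) : ∃ K : ℝ, 0 ≤ K ∧ ∀ t : ℝ,
    ‖coef (sk t)‖ ≤ K * z4 t * |t| ^ 2 * (1 + |t|) ^ (-(95 / 32) : ℝ) := by
  obtain ⟨K, hK, hA⟩ := zb3_A_bd hB hZ
  refine ⟨4 * K ^ 2, by positivity, fun t => ?_⟩
  by_cases ht : t = 0
  · subst ht
    have : 2 * sk 0 - 1 = 0 := by unfold sk; push_cast; ring
    simp [coef, this]
  have hT : 0 < 1 + |t| := by positivity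
  have h1 : ∀ u : ℝ, u ≠ 0 → ‖zbA (sk u)‖ ≤ K * ‖riemannZeta (sk u)‖ ^ 2 * (2 * |u|) *
      (1 + |u|) ^ (-(95 / 64) : ℝ) := fun u hu => by
    have h2 := hA (sk u) (zb3_re u).ge (by rw [zb3_re]; norm_num)
      fun h => hu (by simpa [zb3_im] using congrArg Complex.im h)
    have h3 : 2 * sk u - 1 = ((2 * u : ℝ) : ℂ) * I := by unfold sk; push_cast; ring
    rw [h3, norm_mul, norm_I, mul_one, Complex.norm_real, Real.norm_eq_abs, abs_mul, abs_two,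
      zb3_im] at h2
    exact h2
  have h2 := h1 t ht
  have h3 := h1 (-t) (neg_ne_zero.2 ht)
  rw [abs_neg] at h3
  have h4 : ‖riemannZeta (sk t)‖ ^ 2 * ‖riemannZeta (sk (-t))‖ ^ 2 = z4 t := by
    rw [← norm_pow, ← norm_pow, ← norm_mul, hZ.2.2.2.2.2.2.2.2.2.2.2.2.2.2.1 t, Complex.norm_real,
      Real.norm_of_nonneg (hZ.2.2.2.2.2.2.2.2.2.2.2.2.1 t)]
  have h5 : (1 + |t|) ^ (-(95 / 32) : ℝ) =
      (1 + |t|) ^ (-(95 / 64) : ℝ) * (1 + |t|) ^ (-(95 / 64) : ℝ) := by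
    rw [← Real.rpow_add hT]
    norm_num
  rw [zb3_coef hB hZ ht, norm_mul, ← h4, h5]
  calc _ ≤ (K * ‖riemannZeta (sk t)‖ ^ 2 * (2 * |t|) * (1 + |t|) ^ (-(95 / 64) : ℝ)) *
        (K * ‖riemannZeta (sk (-t))‖ ^ 2 * (2 * |t|) * (1 + |t|) ^ (-(95 / 64) : ℝ)) := by
        gcongr
    _ = _ := by ring

theorem zb3_six (hB : St_BET) (hZ : St_ZB1) :
    ∃ C : ℝ, ∀ t : ℝ, ‖coef (sk t)‖ ≤ C * (1 + |t|) ^ 3 := by
  obtain ⟨K, hK, h⟩ := zb3_coef_bd hB hZ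
  obtain ⟨C, hC⟩ := hZ.2.2.2.2.2.2.2.2.2.2.2.2.2.2.2
  refine ⟨K * |C|, fun t => (h t).trans ?_⟩
  have hT : 1 ≤ 1 + |t| := by linarith [abs_nonneg t]
  have h1 : z4 t ≤ |C| * (1 + |t|) ^ 2 :=
    (hC t).trans (mul_le_mul_of_nonneg_right (le_abs_self C) (by positivity))
  have h2 : |t| ^ 2 * (1 + |t|) ^ (-(95 / 32) : ℝ) ≤ 1 + |t| := by
    calc _ ≤ (1 + |t|) ^ 2 * (1 + |t|) ^ (-1 : ℝ) := by
          gcongr
          · linarith
          · norm_num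
      _ = 1 + |t| := by
          rw [Real.rpow_neg_one]
          field_simp
  calc _ = K * z4 t * (|t| ^ 2 * (1 + |t|) ^ (-(95 / 32) : ℝ)) := by ring
    _ ≤ K * (|C| * (1 + |t|) ^ 2) * (1 + |t|) := by gcongr
    _ = _ := by ring

theorem zb3_eight (hB : St_BET) (hJ : St_JB2) (hZ : St_ZB1) (hZ2 : St_ZB2) :
    ∃ C : ℝ, 0 ≤ C ∧ ∀ t u : ℝ, |u| = |t| → ‖coef (sk t) * Pif (sk t) 0 * Cf u‖ ≤
      C * (z4 t * (1 + |t|) ^ (-(3 / 8) : ℝ) * Real.exp (-(π / 2) * |t|)) := by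
  obtain ⟨K, hK, h⟩ := zb3_coef_bd hB hZ
  obtain ⟨C1, h1⟩ := hZ2 (1 / 32) (by norm_num)
  obtain ⟨C2, h2⟩ := hB.2.2.2.1
  refine ⟨K * C1 ^ 2 * |C2|, by positivity, fun t u hu => ?_⟩
  have hT : 1 ≤ 1 + |t| := by linarith [abs_nonneg t]
  have hT0 : 0 < 1 + |t| := by positivity
  have hz := hZ.2.2.2.2.2.2.2.2.2.2.2.2.1 t
  have a1 : ‖Pif (sk t) 0‖ ≤ (C1 * (1 + |t|) ^ (1 / 32 : ℝ) * Real.exp (-(π / 4) * |t|)) ^ 2 := by
    rw [zb3_pif hB hJ hZ (by rw [zb3_re]; norm_num), norm_pow]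
    exact pow_le_pow_left₀ (norm_nonneg _) (h1 t) 2
  have a2 : ‖Cf u‖ * |t| ≤ |C2| * (1 + |t|) ^ (3 / 2 : ℝ) := by
    have := h2 u
    rw [hu] at this
    exact this.trans (mul_le_mul_of_nonneg_right (le_abs_self C2) (by positivity))
  have a3 : Real.exp (-(π / 4) * |t|) ^ 2 = Real.exp (-(π / 2) * |t|) := by
    rw [← Real.exp_nat_mul]
    congr 1
    push_cast
    ring
  have a4 : (1 + |t|) * (1 + |t|) ^ (-(95 / 32) : ℝ) * ((1 + |t|) ^ (1 / 32 : ℝ)) ^ 2 *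
      (1 + |t|) ^ (3 / 2 : ℝ) ≤ (1 + |t|) ^ (-(3 / 8) : ℝ) := by
    rw [sq, ← Real.rpow_add hT0, ← Real.rpow_one_add' hT0.le (by norm_num), ← Real.rpow_add hT0,
      ← Real.rpow_add hT0]
    exact Real.rpow_le_rpow_of_exponent_le hT (by norm_num)
  have a5 : |t| ≤ 1 + |t| := by linarith
  rw [norm_mul, norm_mul]
  calc _ ≤ K * z4 t * |t| ^ 2 * (1 + |t|) ^ (-(95 / 32) : ℝ) *
        (C1 * (1 + |t|) ^ (1 / 32 : ℝ) * Real.exp (-(π / 4) * |t|)) ^ 2 * ‖Cf u‖ := by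
        gcongr
        exact h t
    _ = K * C1 ^ 2 * z4 t * Real.exp (-(π / 4) * |t|) ^ 2 * (|t| * (1 + |t|) ^ (-(95 / 32) : ℝ) *
        ((1 + |t|) ^ (1 / 32 : ℝ)) ^ 2 * (‖Cf u‖ * |t|)) := by ring
    _ ≤ K * C1 ^ 2 * z4 t * Real.exp (-(π / 4) * |t|) ^ 2 *
        ((1 + |t|) * (1 + |t|) ^ (-(95 / 32) : ℝ) * ((1 + |t|) ^ (1 / 32 : ℝ)) ^ 2 *
          (|C2| * (1 + |t|) ^ (3 / 2 : ℝ))) := by gcongr
    _ = K * C1 ^ 2 * |C2| * (z4 t * ((1 + |t|) * (1 + |t|) ^ (-(95 / 32) : ℝ) *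
        ((1 + |t|) ^ (1 / 32 : ℝ)) ^ 2 * (1 + |t|) ^ (3 / 2 : ℝ)) *
          Real.exp (-(π / 2) * |t|)) := by
        rw [a3]
        ring
    _ ≤ _ := by gcongr

theorem zb3_nine (hB : St_BET) (hJ : St_JB2) (hZ : St_ZB1) (hZ2 : St_ZB2) (hD : St_DY)
    (hM : Mom9) : ContB := by
  obtain ⟨C, hC, h⟩ := zb3_eight hB hJ hZ hZ2
  obtain ⟨C1, h1⟩ := hD.2.1 hM (3 / 8) ⟨by norm_num, by norm_num⟩
  have hL : Continuous fun t => Pif (sk t) 0 := by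
    have e : (fun t => Pif (sk t) 0) = fun t => Lam (sk t) ^ 2 :=
      funext fun t => zb3_pif hB hJ hZ (by rw [zb3_re]; norm_num)
    rw [e]
    exact (continuous_iff_continuousAt.2 fun t =>
      (differentiableAt_completedZeta (zb3_sk_ne t).2 (zb3_sk_ne t).1).continuousAt.comp
        zb3_sk_cont.continuousAt).pow 2
  have hc := (zb3_five hZ).mul hL
  have hm : Measurable Bc :=
    ((hc.add (hc.comp continuous_neg)).measurable.const_mul _).mul hB.2.2.2.2.1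
  have hb : ∀ e t : ℝ, ‖Bc t‖ * Real.exp ((π / 2 - e) * |t|) ≤
      2 * C * (z4 t * (1 + |t|) ^ (-(3 / 8) : ℝ) * Real.exp (-e * |t|)) := fun e t => by
    have a1 := h t t rfl
    have a2 := h (-t) t (abs_neg t).symm
    rw [abs_neg, hZ.2.2.2.2.2.2.2.2.2.2.2.2.2.1 t] at a2
    have a3 : ‖(1 / (4 * π) : ℂ)‖ ≤ 1 := by
      rw [norm_div, norm_one, norm_mul, Complex.norm_real, Real.norm_of_nonneg Real.pi_pos.le]
      refine div_le_one_of_le₀ ?_ (by positivity)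
      simp only [Complex.norm_ofNat]
      linarith [Real.pi_gt_three]
    have a4 : ‖Bc t‖ ≤
        2 * C * (z4 t * (1 + |t|) ^ (-(3 / 8) : ℝ) * Real.exp (-(π / 2) * |t|)) := by
      rw [Bc, mul_assoc, norm_mul, add_mul]
      refine (mul_le_of_le_one_left (norm_nonneg _) a3).trans ((norm_add_le _ _).trans ?_)
      linarith
    have a5 : Real.exp (-e * |t|) =
        Real.exp (-(π / 2) * |t|) * Real.exp ((π / 2 - e) * |t|) := by
      rw [← Real.exp_add]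
      congr 1
      ring
    rw [a5]
    calc _ ≤ 2 * C * (z4 t * (1 + |t|) ^ (-(3 / 8) : ℝ) * Real.exp (-(π / 2) * |t|)) *
          Real.exp ((π / 2 - e) * |t|) := by gcongr
      _ = _ := by ring
  refine ⟨hm, 2 * C * C1, fun e he => ?_⟩
  obtain ⟨i1, i2⟩ := h1 e he
  have i3 := i1.const_mul (2 * C)
  have i4 : Integrable (fun t : ℝ => ‖Bc t‖ * Real.exp ((π / 2 - e) * |t|)) := by
    refine i3.mono' (hm.norm.mul (by fun_prop)).aestronglyMeasurable (ae_of_all _ fun t => ?_)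
    rw [Real.norm_of_nonneg (by positivity)]
    exact hb e t
  refine ⟨i4, (integral_mono i4 i3 (hb e)).trans ?_⟩
  have e1 : (3 / 8 - 9 / 8 : ℝ) = -(3 / 4) := by norm_num
  rw [e1] at i2
  rw [integral_const_mul, mul_assoc (2 * C)]
  exact mul_le_mul_of_nonneg_left i2 (by positivity)

theorem t_zb3 : T_ZB3 := by
  intro hB hJ hZ hZ2 hD
  obtain ⟨C, -, h8⟩ := zb3_eight hB hJ hZ hZ2
  obtain ⟨h3, h4⟩ := zb3_three hZ
  refine ⟨zb3_one hB hZ, ⟨zbF, fun s hs => zb3_F_diff hZ hs, fun s hs h1 => zb3_F_eq hZ hs h1⟩,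
    ⟨_, h3, h4⟩, ?_, zb3_five hZ, zb3_six hB hZ, fun s hs => zb3_pif hB hJ hZ hs, ⟨C, h8⟩,
    zb3_nine hB hJ hZ hZ2 hD⟩
  have hne : ∀ s ∈ Metric.sphere (1 : ℂ) dl, s ≠ 1 := fun s hs h => by
    rw [h, Metric.mem_sphere, dist_self] at hs
    exact dl_pos.ne hs
  refine ContinuousOn.congr (f := fun s =>
    zbF s * ((2 * s - 1) * 2) / xi (2 * s - 1) / (s - 1) ^ 3) (fun s hs => ?_)
    fun s hs => h4 s (Metric.sphere_subset_closedBall hs) (hne s hs)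
  have h5 : ContinuousAt (fun s : ℂ => (s - 1) ^ 3) s := by fun_prop
  have h6 := (h3 s (Metric.sphere_subset_closedBall hs)).continuousAt.div h5
    (pow_ne_zero 3 (sub_ne_zero.2 (hne s hs)))
  exact h6.continuousWithinAt

end

end Pool.Agent.Lib.E2
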