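import Pool.Agent.Lib.E2.SHIFT
import Pool.Agent.Lib.E2.SHP
import Pool.Agent.Lib.E2.PAR
import Pool.Agent.Lib.E2.BET
import Pool.Agent.Lib.E2.JB1
import Pool.Agent.Lib.E2.JB2
import Pool.Agent.Lib.E2.JB3
import Pool.Agent.Lib.E2.ODE
import Pool.Agent.Lib.E2.KB
import Pool.Agent.Lib.E2.NB
import Pool.Agent.Lib.E2.ABS0
import Pool.Agent.Lib.E2.ABS1
import Pool.Agent.Lib.E2.ABS2
import Pool.Agent.Lib.E2.ABS3
import Pool.Agent.Lib.E2.ZB1
import Pool.Agent.Lib.E2.ZB2
import Pool.Agent.Lib.E2.DY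
import Pool.Agent.Lib.E2.ZB3
import Pool.Agent.Lib.E2.CJ
import Pool.Agent.Lib.E2.VB1
import Pool.Agent.Lib.E2.VB2
import Pool.Agent.Lib.E2.EIS1
import Pool.Agent.Lib.E2.UNF1
import Pool.Agent.Lib.E2.EIS2
import Pool.Agent.Lib.E2.RAM1
import Pool.Agent.Lib.E2.RAM2
import Pool.Agent.Lib.E2.CONST
import Pool.Agent.Lib.E2.CONST2
import Pool.Agent.Lib.E2.FC1
import Pool.Agent.Lib.E2.FC2
import Pool.Agent.Lib.E2.PI
import Pool.Agent.Lib.E2.LW
import Pool.Agent.Lib.E2.PL
import Pool.Agent.Lib.E2.T2I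
import Pool.Agent.Lib.E2.MA1
import Pool.Agent.Lib.E2.MAINR
import Pool.Agent.Lib.E2.GEO
import Pool.Agent.Lib.E2.UNF2
import Pool.Agent.Lib.E2.POLAR
import Pool.Agent.Lib.E2.KER1
import Pool.Agent.Lib.E2.KER2
import Pool.Agent.Lib.E2.LIN
import Pool.Agent.Lib.E2.SYM
import Pool.Agent.Lib.E2.KER3
import Pool.Agent.Lib.E2.PDE
import Pool.Agent.Lib.E2.AI
import Pool.Agent.Lib.E2.EIG0
import Pool.Agent.Lib.E2.YS
import Pool.Agent.Lib.E2.MOM
import Pool.Agent.Lib.E2.HILB
import Pool.Agent.Lib.E2.OPS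
import Pool.Agent.Lib.E2.EIG
import Pool.Agent.Lib.E2.WAVE1
import Pool.Agent.Lib.E2.ADM
import Pool.Agent.Lib.E2.WAVE2
import Pool.Agent.Lib.E2.RAY
import Pool.Agent.Lib.E2.BES
import Pool.Agent.Lib.E2.COEF
import Pool.Agent.Lib.E2.EXP
import Pool.Agent.Lib.E2.SPEC
import Pool.Agent.Lib.E2.AN
import Pool.Agent.Lib.E2.TH
import Pool.Agent.Lib.E2.INF2
import Pool.Agent.Lib.E2.INF3
import Pool.Agent.Lib.E2.FWA
import Pool.Agent.Lib.E2.FWB
import Pool.Agent.Lib.E2.WP
import Pool.Agent.Lib.E2.ASY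
import Pool.Agent.Lib.E2.SING1
import Pool.Agent.Lib.E2.SING2
import Pool.Agent.Lib.E2.TWO
import Pool.Agent.Lib.E2.GLUE
import Pool.Agent.Lib.E2.FIN
import Pool.Agent.Lib.E2.T3B
import Pool.Agent.Lib.E2.RB
import Pool.Agent.Lib.E2.M4
import Pool.Agent.Lib.E2.MB
import Pool.Agent.Lib.E2.SEC
import Pool.Agent.Lib.E2.AVG1
import Pool.Agent.Lib.E2.AVG2
import Pool.Agent.Lib.E2.AVG3
import Pool.Agent.Lib.E2.LAP
import Pool.Agent.Lib.E2.GAU
import Pool.Agent.Lib.E2.TAUB
import Pool.Agent.Lib.E2.DEG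
import Pool.Agent.Lib.E2.Cor

namespace Pool.Agent.Lib.E2

theorem all_shift : St_SHIFT := t_shift
theorem all_shp : St_SHP := t_shp all_shift
theorem all_par : St_PAR := t_par
theorem all_bet : St_BET := t_bet
theorem all_jb1 : St_JB1 := t_jb1 all_par all_bet
theorem all_jb2 : St_JB2 := t_jb2 all_bet
theorem all_jb3 : St_JB3 := t_jb3 all_shift all_bet
theorem all_ode : St_ODE := t_ode all_bet all_jb1 all_jb2
theorem all_kb : St_KB := t_kb all_shift all_par
theorem all_nb : St_NB := t_nb all_par all_bet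
theorem all_abs0 : St_ABS0 := t_abs0 all_par all_bet all_jb1
theorem all_abs1 : St_ABS1 := t_abs1 all_bet all_jb3 all_abs0
theorem all_abs2 : St_ABS2 := t_abs2 all_par
theorem all_abs3 : St_ABS3 := t_abs3 all_jb3 all_abs0 all_abs1 all_abs2
theorem all_zb1 : St_ZB1 := t_zb1
theorem all_zb2 : St_ZB2 := t_zb2 all_bet all_zb1
theorem all_dy : St_DY := t_dy all_zb1
theorem all_zb3 : St_ZB3 := t_zb3 all_bet all_jb2 all_zb1 all_zb2 all_dy
theorem all_cj : St_CJ := t_cj all_bet all_jb1 all_jb2 all_ode all_zb1 all_zb3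
theorem all_vb1 : St_VB1 := t_vb1 all_shift all_par
theorem all_vb2 : St_VB2 := t_vb2 all_vb1
theorem all_eis1 : St_EIS1 := t_eis1 all_zb1 all_vb1 all_vb2
theorem all_unf1 : St_UNF1 := t_unf1
theorem all_eis2 : St_EIS2 := t_eis2 all_par all_zb1 all_vb2 all_unf1 all_eis1
theorem all_ram1 : St_RAM1 := t_ram1
theorem all_ram2 : St_RAM2 := t_ram2 all_bet all_kb all_zb1 all_vb1 all_vb2 all_ram1
theorem all_const : St_CONST := t_const all_shp all_zb1 all_zb3 all_ram2
theorem all_const2 : St_CONST2 := t_const2 all_shp all_zb1 all_zb3 all_const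
theorem all_fc1 : St_FC1 := t_fc1 all_par all_zb3 all_vb2
theorem all_fc2 : St_FC2 := t_fc2 all_zb3 all_vb2 all_eis2 all_const all_fc1 all_unf1
theorem all_pi : St_PI := t_pi all_par all_jb1 all_jb2 all_zb1 all_vb2 all_unf1 all_eis1 all_eis2
theorem all_lw : St_LW := t_lw all_par all_nb all_zb1 all_vb1 all_vb2 all_eis2
theorem all_pl : St_PL := t_pl all_bet all_nb all_zb1 all_vb2 all_eis2 all_lw
theorem all_t2i : St_T2I := t_t2i all_par all_nb all_vb2 all_lw
theorem all_ma1 : St_MA1 := t_ma1 all_zb3 all_vb2 all_unf1 all_fc1 all_fc2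
theorem all_mainr : St_MAINR := t_mainr all_const2 all_pi all_pl all_t2i all_ma1
theorem all_geo : St_GEO := t_geo
theorem all_unf2 : St_UNF2 := t_unf2 all_geo all_unf1
theorem all_polar : St_POLAR := t_polar all_geo all_unf1
theorem all_ker1 : St_KER1 := t_ker1 all_unf1 all_unf2
theorem all_ker2 : St_KER2 := t_ker2 all_geo all_unf1 all_unf2 all_ker1
theorem all_lin : St_LIN := t_lin all_unf1 all_ker2
theorem all_sym : St_SYM := t_sym all_geo all_unf1 all_unf2 all_polar all_ker2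
theorem all_ker3 : St_KER3 := t_ker3 all_geo all_unf1 all_unf2 all_ker1 all_ker2 all_sym
theorem all_pde : St_PDE := t_pde all_geo all_unf1 all_ker2
theorem all_ai : St_AI := t_ai all_geo all_polar all_ker2
theorem all_eig0 : St_EIG0 := t_eig0 all_unf1 all_pde all_ai
theorem all_ys : St_YS := t_ys all_geo all_unf1 all_eig0
theorem all_mom : St_MOM := t_mom all_geo all_polar all_ker2
theorem all_hilb : St_HILB := t_hilb
theorem all_ops : St_OPS := t_ops all_unf1 all_unf2 all_ker2 all_lin all_sym all_ker3 all_pde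
    all_hilb
theorem all_eig : St_EIG := t_eig all_ker2 all_lin all_sym all_ker3 all_eig0
theorem all_wave1 : St_WAVE1 := t_wave1 all_geo all_unf1 all_polar all_lin all_sym all_ys all_mom
theorem all_adm : St_ADM := t_adm
theorem all_wave2 : St_WAVE2 := t_wave2 all_par all_fc1 all_fc2 all_unf1 all_polar all_ker2
    all_lin all_wave1 all_adm
theorem all_ray : St_RAY := t_ray all_geo all_unf1 all_polar all_eig0
theorem all_bes : St_BES := t_bes all_unf1 all_ker2 all_lin all_ker3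
theorem all_coef : St_COEF := t_coef all_lin all_wave2 all_bes
theorem all_exp : St_EXP := t_exp all_fc1 all_fc2 all_unf1 all_ker2 all_lin all_ai all_bes
    all_coef
theorem all_spec : St_SPEC := t_spec all_bet all_jb1 all_ode all_ma1 all_unf1 all_ops all_eig
    all_ray all_bes all_coef all_exp
theorem all_an : St_AN := t_an all_par all_jb1 all_nb all_zb1 all_zb3
theorem all_th : St_TH := t_th
theorem all_inf2 : St_INF2 := t_inf2 all_nb all_th
theorem all_inf3 : St_INF3 := t_inf3 all_shp all_bet all_jb1 all_zb3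
theorem all_fwa : St_FWA := t_fwa all_bet all_vb1
theorem all_fwb : St_FWB := t_fwb all_kb all_nb all_th all_fwa
theorem all_wp : St_WP := t_wp all_par all_kb all_zb1 all_dy
theorem all_asy : St_ASY := t_asy all_nb all_zb1 all_dy all_th all_inf2 all_inf3 all_fwb all_wp
theorem all_sing1 : St_SING1 := t_sing1 all_bet all_jb1 all_nb all_zb1 all_zb3
theorem all_sing2 : St_SING2 := t_sing2 all_bet all_nb
theorem all_two : St_TWO := t_two all_kb all_dy
theorem all_glue : St_GLUE := t_glue all_par all_abs0 all_zb3 all_cj all_mainr all_spec all_an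
theorem all_t3b : St_T3B := t_t3b all_bet all_jb1 all_zb3
theorem all_rb : St_RB := t_rb all_jb1 all_zb1 all_zb3 all_cj all_mainr all_spec
theorem all_m4 : St_M4 := t_m4 all_kb all_nb all_zb1 all_dy all_vb1 all_inf2 all_fwb all_t3b
    all_rb
theorem all_mb : St_MB := t_mb all_jb1
theorem all_sec : St_SEC := t_sec all_par all_kb all_zb1 all_zb3 all_th all_wp all_asy all_glue
    all_mb
theorem all_avg1 : St_AVG1 := t_avg1 all_par
theorem all_avg2 : St_AVG2 := t_avg2 all_par all_bet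
theorem all_avg3 : St_AVG3 := t_avg3 all_par all_bet all_zb1 all_vb1
theorem all_lap : St_LAP := t_lap all_par all_zb1 all_dy
theorem all_gau : St_GAU := t_gau all_dy
theorem all_taub : St_TAUB := t_taub all_zb1 all_dy
theorem all_deg : St_DEG := t_deg all_zb1

theorem core : Core := t_fin all_abs0 all_abs3 all_dy all_zb3 all_th all_wp all_asy all_sing1
    all_sing2 all_two all_glue

theorem exi : Exi :=
  exi_of all_m4 all_sec all_avg1 all_avg2 all_avg3 all_lap all_gau all_taub all_deg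

end Pool.Agent.Lib.E2
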