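import Pool.Agent.Lib.E2.T2I

/-! Mellin transform of the non-constant part along a ray. -/

namespace Pool.Agent.Lib.E2

noncomputable section

open Complex MeasureTheory Set Filter Topology
open scoped Real

namespace LW

lemma lap_int {a b : ℝ} (ha : 0 < a) (hb : 0 < b) :
    IntegrableOn (fun t : ℝ => t ^ (a - 1) * Real.exp (-(b * t))) (Ioi 0) := by
  refine Integrable.of_integral_ne_zero ?_
  rw [Real.integral_rpow_mul_exp_neg_mul_Ioi ha hb]
  have := Real.Gamma_pos_of_pos ha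
  positivity

lemma lap_norm (a : ℝ) (z : ℂ) {t : ℝ} (ht : 0 < t) :
    ‖(t : ℂ) ^ ((a : ℂ) - 1) * exp (-(z * t))‖ = t ^ (a - 1) * Real.exp (-(z.re * t)) := by
  rw [norm_mul, norm_cpow_eq_rpow_re_of_pos ht, norm_exp]
  simp

lemma lap_meas (a : ℝ) (z : ℂ) :
    Measurable fun t : ℝ => (t : ℂ) ^ ((a : ℂ) - 1) * exp (-(z * t)) := by
  have h1 : Measurable fun t : ℝ => (t : ℂ) ^ ((a : ℂ) - 1) :=
    Complex.measurable_ofReal.pow_const _
  exact h1.mul (by fun_prop)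

lemma lap_cint {a : ℝ} (ha : 0 < a) {z : ℂ} (hz : 0 < z.re) :
    IntegrableOn (fun t : ℝ => (t : ℂ) ^ ((a : ℂ) - 1) * exp (-(z * t))) (Ioi 0) := by
  refine Integrable.mono' (lap_int ha hz) (lap_meas a z).aestronglyMeasurable ?_
  filter_upwards [ae_restrict_mem measurableSet_Ioi] with t ht
  exact (lap_norm a z ht).le

lemma lap (hP : St_PAR) {a : ℝ} (ha : 0 < a) {z : ℂ} (hz : 0 < z.re) :
    ∫ t in Ioi (0 : ℝ), (t : ℂ) ^ ((a : ℂ) - 1) * exp (-(z * t)) =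
      z ^ (-(a : ℂ)) * Gamma a := by
  have hU : IsOpen {z : ℂ | 0 < z.re} := isOpen_lt continuous_const continuous_re
  have h1 := (hP.1 ℝ (volume.restrict (Ioi 0))
    (fun z t => (t : ℂ) ^ ((a : ℂ) - 1) * exp (-(z * t))) {z : ℂ | 0 < z.re} hU
    (fun z _ => (lap_meas a z).aestronglyMeasurable)
    (ae_of_all _ fun t => Differentiable.differentiableOn (by fun_prop)) ?_).1
  · refine hP.2.2.1 _ (fun z => z ^ (-(a : ℂ)) * Gamma a) _ 1 2 hU
      (convex_halfSpace_re_gt 0).isPreconnected h1 ?_ one_lt_two (fun x hx => ?_) hz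
    · refine DifferentiableOn.mul_const (fun z hz => ?_) _
      exact (differentiableAt_id.cpow_const (Or.inl hz)).differentiableWithinAt
    · have hx0 : 0 < x := by linarith [hx.1]
      refine ⟨by simpa using hx0, ?_⟩
      rw [integral_cpow_mul_exp_neg_mul_Ioi (by simpa using ha) hx0, one_div, cpow_neg,
        inv_cpow _ _ (arg_ofReal_of_nonneg hx0.le ▸ Real.pi_pos.ne)]
  · intro z hz
    have hz' : 0 < z.re / 2 := half_pos hz
    refine ⟨z.re / 2, hz', _, lap_int ha hz', ?_⟩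
    filter_upwards [ae_restrict_mem measurableSet_Ioi] with t ht w _ hw
    have ht' : (0 : ℝ) < t := ht
    rw [lap_norm a w ht]
    have h1 := abs_lt.1 ((abs_re_le_norm _).trans_lt hw)
    rw [sub_re] at h1
    have h2 : z.re / 2 * t ≤ w.re * t := mul_le_mul_of_nonneg_right (by linarith [h1.1]) ht'.le
    have h3 := Real.rpow_pos_of_pos ht' (a - 1)
    exact mul_le_mul_of_nonneg_left (Real.exp_le_exp.2 (by linarith)) h3.le

/-- scale -/
def be (r : ℝ) : ℝ := 2 * π / Real.cosh r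

lemma be_pos (r : ℝ) : 0 < be r := div_pos Real.two_pi_pos (Real.cosh_pos r)

/-- the profile of one term -/
def ph (r t : ℝ) : ℂ := cos ((be r * Real.sinh r * t : ℝ) : ℂ) * Kb ((be r * t : ℝ) : ℂ) 0

def zp (r v : ℝ) : ℂ := be r * ((Real.cosh v : ℂ) + I * sinh r)

def zm (r v : ℝ) : ℂ := be r * ((Real.cosh v : ℂ) - I * sinh r)

lemma zp_re (r v : ℝ) : (zp r v).re = be r * Real.cosh v := by
  unfold zp
  rw [← ofReal_sinh, re_ofReal_mul, add_re, ofReal_re, I_mul_re, ofReal_im, neg_zero, add_zero]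

lemma zm_re (r v : ℝ) : (zm r v).re = be r * Real.cosh v := by
  unfold zm
  rw [← ofReal_sinh, re_ofReal_mul, sub_re, ofReal_re, I_mul_re, ofReal_im, neg_zero, sub_zero]

/-- the integrand in two variables -/
def HH (r a t v : ℝ) : ℂ := ((t : ℂ) ^ ((a : ℂ) - 1) * exp (-(zp r v * t)) +
  (t : ℂ) ^ ((a : ℂ) - 1) * exp (-(zm r v * t))) / 2

lemma hh_eq (r a t : ℝ) : (t : ℂ) ^ ((a : ℂ) - 1) * ph r t = ∫ v, HH r a t v := by
  unfold ph Kb
  rw [← integral_const_mul, ← integral_const_mul]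
  refine integral_congr_ae (ae_of_all _ fun v => ?_)
  have e1 : exp (-(zp r v * t)) = exp (-((be r * Real.sinh r * t : ℝ) : ℂ) * I) *
      exp (-((be r * t : ℝ) : ℂ) * Real.cosh v + 0 * v) := by
    rw [← exp_add]
    congr 1
    unfold zp
    push_cast
    ring
  have e2 : exp (-(zm r v * t)) = exp (((be r * Real.sinh r * t : ℝ) : ℂ) * I) *
      exp (-((be r * t : ℝ) : ℂ) * Real.cosh v + 0 * v) := by
    rw [← exp_add]
    congr 1
    unfold zm
    push_cast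
    ring
  simp only [HH]
  rw [e1, e2, Complex.cos]
  ring

lemma cosh_ge (v : ℝ) : (1 + v ^ 2) / 2 ≤ Real.cosh v := by
  have h5 : 1 + v ^ 2 / 2 ≤ Real.cosh v := by
    have h6 := Real.cosh_two_mul (v / 2)
    have h7 : (v / 2) ^ 2 ≤ Real.sinh (v / 2) ^ 2 := by
      rw [sq_le_sq, Real.abs_sinh]
      exact Real.self_le_sinh_iff.2 (abs_nonneg _)
    have h8 := Real.cosh_sq (v / 2)
    rw [show 2 * (v / 2) = v by ring] at h6
    nlinarith
  linarith

/-- the majorant -/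
def GG (r a : ℝ) (p : ℝ × ℝ) : ℝ := p.1 ^ (a - 1) * Real.exp (-(be r * Real.cosh p.2 * p.1))

lemma gg_int (r : ℝ) {a : ℝ} (ha : 1 ≤ a) :
    Integrable (GG r a) ((volume.restrict (Ioi (0 : ℝ))).prod volume) := by
  have ha0 : 0 < a := by linarith
  have hb : ∀ v, 0 < be r * Real.cosh v := fun v => mul_pos (be_pos r) (Real.cosh_pos v)
  have hm : Measurable (GG r a) := by
    unfold GG
    exact (measurable_fst.pow_const _).mul (by fun_prop)
  rw [integrable_prod_iff' hm.aestronglyMeasurable]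
  refine ⟨ae_of_all _ fun v => lap_int ha0 (hb v), ?_⟩
  have e : (fun v : ℝ => ∫ t in Ioi (0 : ℝ), ‖GG r a (t, v)‖) =
      fun v => (1 / (be r * Real.cosh v)) ^ a * Real.Gamma a := by
    funext v
    rw [← Real.integral_rpow_mul_exp_neg_mul_Ioi ha0 (hb v)]
    refine setIntegral_congr_fun measurableSet_Ioi fun t ht => ?_
    have ht' : (0 : ℝ) < t := ht
    exact Real.norm_of_nonneg (by unfold GG; positivity)
  rw [e]
  have hG := Real.Gamma_pos_of_pos ha0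
  have hbe := be_pos r
  refine Integrable.mono' (integrable_inv_one_add_sq.const_mul
    ((1 / be r) ^ a * 2 * Real.Gamma a)) (Continuous.aestronglyMeasurable ?_)
    (ae_of_all _ fun v => ?_)
  · refine Continuous.mul (Continuous.rpow_const ?_ fun v => Or.inr ha0.le) continuous_const
    exact continuous_const.div (by fun_prop) fun v => (hb v).ne'
  · have hc := Real.cosh_pos v
    have h1 : (1 / Real.cosh v) ^ a ≤ 1 / Real.cosh v := by
      have := Real.rpow_le_rpow_of_exponent_ge (x := 1 / Real.cosh v) (by positivity)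
        ((div_le_one hc).2 (Real.one_le_cosh v)) ha
      rwa [Real.rpow_one] at this
    have h2 : 1 / Real.cosh v ≤ 2 * (1 + v ^ 2)⁻¹ := by
      rw [← div_eq_mul_inv, div_le_div_iff₀ hc (by positivity)]
      linarith [cosh_ge v]
    rw [Real.norm_of_nonneg (by positivity), ← one_div_mul_one_div,
      Real.mul_rpow (by positivity) (by positivity)]
    calc _ ≤ (1 / be r) ^ a * (2 * (1 + v ^ 2)⁻¹) * Real.Gamma a := by
          gcongr
          exact h1.trans h2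
      _ = _ := by ring

lemma hh_int (r : ℝ) {a : ℝ} (ha : 1 ≤ a) :
    Integrable (Function.uncurry (HH r a)) ((volume.restrict (Ioi (0 : ℝ))).prod volume) := by
  have hm : Measurable (Function.uncurry (HH r a)) := by
    have h1 : Measurable fun p : ℝ × ℝ => (p.1 : ℂ) ^ ((a : ℂ) - 1) :=
      (Complex.measurable_ofReal.comp measurable_fst).pow_const _
    have h2 : Continuous fun p : ℝ × ℝ => exp (-(zp r p.2 * p.1)) := by
      unfold zp
      fun_prop
    have h3 : Continuous fun p : ℝ × ℝ => exp (-(zm r p.2 * p.1)) := by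
      unfold zm
      fun_prop
    exact ((h1.mul h2.measurable).add (h1.mul h3.measurable)).div_const 2
  refine Integrable.mono' (gg_int r ha) hm.aestronglyMeasurable ?_
  have h0 : ∀ᵐ p : ℝ × ℝ ∂((volume.restrict (Ioi (0 : ℝ))).prod volume), p.1 ∈ Ioi (0 : ℝ) :=
    Measure.quasiMeasurePreserving_fst.ae (ae_restrict_mem measurableSet_Ioi)
  filter_upwards [h0] with p hp
  have h1 := lap_norm a (zp r p.2) hp
  have h2 := lap_norm a (zm r p.2) hp
  rw [zp_re] at h1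
  rw [zm_re] at h2
  show ‖HH r a p.1 p.2‖ ≤ _
  unfold HH GG
  rw [norm_div, Complex.norm_ofNat, div_le_iff₀ two_pos]
  refine (norm_add_le _ _).trans ?_
  rw [h1, h2]
  linarith

lemma scal {b : ℝ} (hb : 0 < b) {z : ℂ} (hz : z ≠ 0) (s : ℂ) :
    (b * z) ^ s = (b : ℂ) ^ s * z ^ s := by
  have h0 : (b : ℂ) ≠ 0 := ofReal_ne_zero.2 hb.ne'
  rw [cpow_def_of_ne_zero (mul_ne_zero h0 hz), log_ofReal_mul hb hz, pi_cp hb,
    cpow_def_of_ne_zero hz, ← exp_add, add_mul]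

lemma ph_mellin (hP : St_PAR) (r : ℝ) {a : ℝ} (ha : 1 ≤ a) :
    IntegrableOn (fun t : ℝ => (t : ℂ) ^ ((a : ℂ) - 1) * ph r t) (Ioi 0) ∧
    ∫ t in Ioi (0 : ℝ), (t : ℂ) ^ ((a : ℂ) - 1) * ph r t =
      (be r : ℂ) ^ (-(a : ℂ)) * Gamma a / 2 * Nf a r := by
  have ha0 : 0 < a := by linarith
  simp only [hh_eq]
  refine ⟨(hh_int r ha).integral_prod_left, ?_⟩
  rw [integral_integral_swap (hh_int r ha), Nf, ← integral_const_mul]
  refine integral_congr_ae (ae_of_all _ fun v => ?_)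
  have hb : 0 < be r * Real.cosh v := mul_pos (be_pos r) (Real.cosh_pos v)
  have h1 : 0 < (zp r v).re := by rw [zp_re]; exact hb
  have h2 : 0 < (zm r v).re := by rw [zm_re]; exact hb
  have n1 : (Real.cosh v : ℂ) + I * sinh r ≠ 0 := fun h => by
    rw [zp, h] at h1
    simp at h1
  have n2 : (Real.cosh v : ℂ) - I * sinh r ≠ 0 := fun h => by
    rw [zm, h] at h2
    simp at h2
  simp only [HH]
  rw [integral_div, integral_add (lap_cint ha0 h1) (lap_cint ha0 h2), lap hP ha0 h1,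
    lap hP ha0 h2, zp, zm, scal (be_pos r) n1, scal (be_pos r) n2]
  ring

/-- the product of the two indices -/
def NN (p : ℕ × ℕ) : ℝ := ((p.1 : ℝ) + 1) * ((p.2 : ℝ) + 1)

lemma nn_pos (p : ℕ × ℕ) : 0 < NN p := by
  unfold NN
  positivity

lemma vt_eq (r y : ℝ) (p : ℕ × ℕ) :
    Vt (y * Real.tanh r : ℝ) (y / Real.cosh r : ℝ) (1 / 2) p = ph r (NN p * y) := by
  have hc : (Real.cosh r : ℂ) ≠ 0 := ofReal_ne_zero.2 (Real.cosh_pos r).ne'
  unfold Vt ph
  rw [sub_self, cpow_zero, mul_one]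
  have e1 : (2 * π * (((p.1 : ℂ) + 1) * ((p.2 : ℂ) + 1)) * ((y * Real.tanh r : ℝ) : ℂ)) =
      ((be r * Real.sinh r * (NN p * y) : ℝ) : ℂ) := by
    rw [Real.tanh_eq_sinh_div_cosh, be, NN]
    simp only [ofReal_mul, ofReal_div, ofReal_add, ofReal_natCast, ofReal_one, ofReal_ofNat]
    ring
  have e2 : (2 * π * (((p.1 : ℂ) + 1) * ((p.2 : ℂ) + 1)) * ((y / Real.cosh r : ℝ) : ℂ)) =
      ((be r * (NN p * y) : ℝ) : ℂ) := by
    rw [be, NN]
    simp only [ofReal_mul, ofReal_div, ofReal_add, ofReal_natCast, ofReal_one, ofReal_ofNat]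
    ring
  rw [e1, e2]

lemma term_eq (r a : ℝ) {b : ℝ} (hb : 0 < b) {y : ℝ} (hy : 0 < y) :
    (y : ℂ) ^ ((a : ℂ) - 1) * ph r (b * y) =
      (b : ℂ) ^ (1 - (a : ℂ)) * (((b * y : ℝ) : ℂ) ^ ((a : ℂ) - 1) * ph r (b * y)) := by
  have h0 : (b : ℂ) ≠ 0 := ofReal_ne_zero.2 hb.ne'
  rw [ofReal_mul, mul_cpow_ofReal_nonneg hb.le hy.le, ← mul_assoc, ← mul_assoc,
    ← cpow_add _ _ h0]
  simp

lemma sum_mellin (hP : St_PAR) (r : ℝ) {a : ℝ} (ha : 1 < a) :
    ∫ y in Ioi (0 : ℝ), ∑' p : ℕ × ℕ, (y : ℂ) ^ ((a : ℂ) - 1) * ph r (NN p * y) =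
      riemannZeta a ^ 2 * ((be r : ℂ) ^ (-(a : ℂ)) * Gamma a / 2 * Nf a r) := by
  obtain ⟨hi, hv⟩ := ph_mellin hP r ha.le
  set g : ℝ → ℂ := fun t : ℝ => (t : ℂ) ^ ((a : ℂ) - 1) * ph r t with hg
  have eq : ∀ p : ℕ × ℕ, EqOn (fun y : ℝ => (y : ℂ) ^ ((a : ℂ) - 1) * ph r (NN p * y))
      (fun y : ℝ => (NN p : ℂ) ^ (1 - (a : ℂ)) * g (NN p * y)) (Ioi 0) :=
    fun p y hy => term_eq r a (nn_pos p) hy
  have i1 : ∀ p : ℕ × ℕ, IntegrableOn
      (fun y : ℝ => (y : ℂ) ^ ((a : ℂ) - 1) * ph r (NN p * y)) (Ioi 0) := fun p => by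
    have h := (integrableOn_Ioi_comp_mul_left_iff g 0 (nn_pos p)).2 (by rw [mul_zero]; exact hi)
    exact IntegrableOn.congr_fun (h.const_mul _) (eq p).symm measurableSet_Ioi
  have s1 : Summable fun n : ℕ => ((n : ℝ) + 1) ^ (-a) := by
    have := (summable_nat_add_iff 1).2 (Real.summable_nat_rpow_inv.2 ha)
    refine this.congr fun n => ?_
    rw [Real.rpow_neg (by positivity)]
    push_cast
    rfl
  have nv : ∀ p : ℕ × ℕ, ∫ y in Ioi (0 : ℝ), ‖(y : ℂ) ^ ((a : ℂ) - 1) * ph r (NN p * y)‖ =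
      ((p.1 : ℝ) + 1) ^ (-a) * ((p.2 : ℝ) + 1) ^ (-a) * ∫ y in Ioi (0 : ℝ), ‖g y‖ := fun p => by
    have h1 : EqOn (fun y : ℝ => ‖(y : ℂ) ^ ((a : ℂ) - 1) * ph r (NN p * y)‖)
        (fun y : ℝ => NN p ^ (1 - a) * ‖g (NN p * y)‖) (Ioi 0) := fun y hy => by
      have := eq p hy
      simp only at this ⊢
      rw [this, norm_mul, norm_cpow_eq_rpow_re_of_pos (nn_pos p)]
      simp
    rw [setIntegral_congr_fun measurableSet_Ioi h1, integral_const_mul,
      integral_comp_mul_left_Ioi (fun t => ‖g t‖) 0 (nn_pos p), mul_zero, smul_eq_mul,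
      ← mul_assoc, ← Real.mul_rpow (by positivity) (by positivity)]
    congr 1
    rw [← Real.rpow_neg_one, ← Real.rpow_add (nn_pos p)]
    unfold NN
    congr 1
    ring
  have s2 : Summable fun p : ℕ × ℕ =>
      ∫ y in Ioi (0 : ℝ), ‖(y : ℂ) ^ ((a : ℂ) - 1) * ph r (NN p * y)‖ := by
    simp only [nv]
    exact (s1.mul_of_nonneg s1 (fun n => by positivity) (fun n => by positivity)).mul_right _
  rw [← integral_tsum_of_summable_integral_norm i1 s2]
  have tv : ∀ p : ℕ × ℕ, ∫ y in Ioi (0 : ℝ), (y : ℂ) ^ ((a : ℂ) - 1) * ph r (NN p * y) =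
      (1 / ((p.1 : ℂ) + 1) ^ (a : ℂ) * (1 / ((p.2 : ℂ) + 1) ^ (a : ℂ))) *
        ∫ y in Ioi (0 : ℝ), g y := fun p => by
    have h0 : (NN p : ℂ) ≠ 0 := ofReal_ne_zero.2 (nn_pos p).ne'
    rw [setIntegral_congr_fun measurableSet_Ioi (eq p), integral_const_mul,
      integral_comp_mul_left_Ioi g 0 (nn_pos p), mul_zero, real_smul, ← mul_assoc]
    congr 1
    rw [ofReal_inv, ← cpow_neg_one, ← cpow_add _ _ h0, show 1 - (a : ℂ) + -1 = -a by ring, NN,
      ofReal_mul, mul_cpow_ofReal_nonneg (by positivity) (by positivity), cpow_neg, cpow_neg]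
    push_cast
    ring
  simp only [tv]
  have s3 : Summable fun n : ℕ => ‖1 / ((n : ℂ) + 1) ^ (a : ℂ)‖ := by
    refine s1.congr fun n => ?_
    have e : ((n : ℂ) + 1) = (((n : ℝ) + 1 : ℝ) : ℂ) := by push_cast; rfl
    rw [e, norm_div, norm_one, norm_cpow_eq_rpow_re_of_pos (by positivity), ofReal_re,
      Real.rpow_neg (by positivity), one_div]
  rw [tsum_mul_right, ← tsum_mul_tsum_of_summable_norm s3 s3,
    ← zeta_eq_tsum_one_div_nat_add_one_cpow (by simpa using ha), hv, sq]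

/-- the full Mellin transform for real `w > 1/2` -/
lemma full (hP : St_PAR) (r : ℝ) {w : ℝ} (hw : 1 / 2 < w) :
    ∫ y in Ioi (0 : ℝ), Vr r y (1 / 2) * (y : ℂ) ^ (w : ℂ) / y = Lw r w := by
  have hc := Real.cosh_pos r
  have h := sum_mellin hP r (a := 1 / 2 + w) (by linarith)
  have e : EqOn (fun y : ℝ => Vr r y (1 / 2) * (y : ℂ) ^ (w : ℂ) / y)
      (fun y : ℝ => 2 * (Real.cosh r : ℂ) ^ (-(1 / 2) : ℂ) * ∑' p : ℕ × ℕ,
        (y : ℂ) ^ (((1 / 2 + w : ℝ) : ℂ) - 1) * ph r (NN p * y)) (Ioi 0) := fun y hy => by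
    have hy' : (0 : ℝ) < y := hy
    have h1 : ((y / Real.cosh r : ℝ) : ℂ) ^ (1 / 2 : ℂ) * (y : ℂ) ^ (w : ℂ) / y =
        (Real.cosh r : ℂ) ^ (-(1 / 2) : ℂ) * (y : ℂ) ^ (((1 / 2 + w : ℝ) : ℂ) - 1) := by
      rw [div_eq_iff (ofReal_ne_zero.2 hy'.ne')]
      nth_rewrite 3 [← T2I.exp_lg hy']
      rw [pi_cp (div_pos hy' hc), pi_cp hc, pi_cp hy', pi_cp hy', ← exp_add, ← exp_add,
        ← exp_add, Real.log_div hy'.ne' hc.ne', T2I.lg]
      congr 1
      push_cast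
      ring
    simp only [Vr, Vf, vt_eq]
    rw [tsum_mul_left]
    linear_combination (2 * ∑' p : ℕ × ℕ, ph r (NN p * y)) * h1
  rw [setIntegral_congr_fun measurableSet_Ioi e, integral_const_mul, h, Lw]
  have e2 : ((1 / 2 + w : ℝ) : ℂ) = 1 / 2 + w := by push_cast; rfl
  have e3 : (2 * π : ℂ) = ((2 * π : ℝ) : ℂ) := by push_cast; rfl
  have e4 : (Real.cosh r : ℂ) ^ (-(1 / 2) : ℂ) * (be r : ℂ) ^ (-(1 / 2 + w : ℂ)) =
      (2 * π : ℂ) ^ (-(1 / 2 + w : ℂ)) * (Real.cosh r : ℂ) ^ (w : ℂ) := by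
    rw [e3, pi_cp hc, pi_cp hc, pi_cp (be_pos r), pi_cp Real.two_pi_pos, ← exp_add, ← exp_add,
      be, Real.log_div Real.two_pi_pos.ne' hc.ne']
    congr 1
    push_cast
    ring
  rw [e2]
  linear_combination (riemannZeta (1 / 2 + w) ^ 2 * Gamma (1 / 2 + w) * Nf (1 / 2 + w) r) * e4

end LW

end

end Pool.Agent.Lib.E2
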