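import Pool.Agent.Lib.E2.LIN

/-! Block OPS: an orthonormal basis of joint eigenfunctions of the operators `Lop a`. -/

namespace Pool.Agent.Lib.E2

open Complex MeasureTheory Set Filter Topology
open scoped Real UpperHalfPlane ComplexConjugate InnerProductSpace

namespace OPS

open LIN

theorem cusp_mul (hK : St_KER2) {f : ℍ → ℂ} (c : ℂ) (hf : Cusp f) : Cusp fun z => c * f z := by
  simpa using cusp_add hK c cusp_zero hf

/-- the classes of cusp forms -/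
def CS (hK : St_KER2) : Submodule ℂ (Lp ℂ 2 muD) where
  carrier := {F | ∃ f, Cusp f ∧ f =ᵐ[muD] F}
  zero_mem' := ⟨fun _ => 0, cusp_zero, (Lp.coeFn_zero ℂ 2 muD).symm⟩
  add_mem' := by
    rintro F G ⟨f, hf, h1⟩ ⟨g, hg, h2⟩
    refine ⟨_, cusp_add hK 1 hf hg, ?_⟩
    filter_upwards [h1, h2, Lp.coeFn_add F G] with z h1 h2 h3
    rw [h3, Pi.add_apply, h1, h2, one_mul]
  smul_mem' := by
    rintro c F ⟨f, hf, h1⟩
    refine ⟨_, cusp_mul hK c hf, ?_⟩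
    filter_upwards [h1, Lp.coeFn_smul c F] with z h1 h3
    rw [h3, Pi.smul_apply, h1, smul_eq_mul]

theorem toLp_eq {f : ℍ → ℂ} (hf : MemLp f 2 muD) {F : Lp ℂ 2 muD} (h : f =ᵐ[muD] F) :
    hf.toLp f = F := Lp.ext (hf.coeFn_toLp.trans h)

theorem closed (hU : St_UNF2) (hK : St_KER2) : IsClosed (CS hK : Set (Lp ℂ 2 muD)) := by
  refine isClosed_of_closure_subset fun F hF => ?_
  obtain ⟨g, hg, h1⟩ := hU.2.2.2.2.2.1 F (Lp.memLp F)
  refine ⟨g, ⟨hg, fun C u hu => ?_⟩, h1⟩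
  have key : ∀ G ∈ CS hK, ‖∫ w in strip, u w.im * g w‖ ^ 2 ≤ 20 * C ^ 2 * ‖F - G‖ ^ 2 := by
    rintro G ⟨f, hf, h2⟩
    have h3 := aut_add (-1) hg hf.1
    have h4 := (hK.1 _ h3 C u hu).2
    have h5 : ∀ w : ℍ, u w.im * (g w + -1 * f w) = u w.im * g w - u w.im * f w := fun w => by ring
    simp only [h5] at h4
    rw [integral_sub (hK.1 g hg C u hu).1 (hK.1 f hf.1 C u hu).1, hf.2 C u hu, sub_zero,
      n2_eq h3.2.2, toLp_eq (F := F - G)] at h4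
    · exact h4
    · filter_upwards [h1, h2, Lp.coeFn_sub F G] with z h1 h2 h3
      rw [h3, Pi.sub_apply, h1, h2]; ring
  have hc : IsClosed {G : Lp ℂ 2 muD |
      ‖∫ w in strip, u w.im * g w‖ ^ 2 ≤ 20 * C ^ 2 * ‖F - G‖ ^ 2} :=
    isClosed_le continuous_const (by fun_prop)
  have h6 : ‖∫ w in strip, u w.im * g w‖ ^ 2 ≤ 20 * C ^ 2 * ‖F - F‖ ^ 2 := closure_minimal key hc hF
  simpa using h6

variable {hK : St_KER2}

/-- `f` represents `F` -/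
def Rp (f : ℍ → ℂ) (F : CS hK) : Prop := Cusp f ∧ f =ᵐ[muD] (F : Lp ℂ 2 muD)

theorem exists_rp (F : CS hK) : ∃ f, Rp f F := F.2

theorem rp_exists {f : ℍ → ℂ} (hf : Cusp f) : ∃ F : CS hK, Rp f F :=
  ⟨⟨hf.1.2.2.toLp f, f, hf, hf.1.2.2.coeFn_toLp.symm⟩, hf, hf.1.2.2.coeFn_toLp.symm⟩

variable {f g : ℍ → ℂ} {F G : CS hK}

theorem Rp.ext (h : Rp f F) (h' : Rp f G) : F = G := Subtype.ext (Lp.ext (h.2.symm.trans h'.2))

theorem Rp.ip (h : Rp f F) (h' : Rp g G) : ip f g = ⟪F, G⟫_ℂ := by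
  rw [ip_eq h.1.1.2.2 h'.1.1.2.2, toLp_eq _ h.2, toLp_eq _ h'.2]
  rfl

theorem Rp.one (h : Rp f F) (h1 : ‖F‖ = 1) : E2.ip f f = 1 :=
  (h.ip h).trans ((inner_self_eq_norm_sq_to_K (𝕜 := ℂ) F).trans (by rw [h1]; simp))

theorem Rp.n2 (h : Rp f F) : n2 f = ‖F‖ ^ 2 := by
  rw [n2_eq h.1.1.2.2, toLp_eq _ h.2]
  rfl

theorem Rp.add (h : Rp f F) (h' : Rp g G) : Rp (fun z => f z + 1 * g z) (F + G) := by
  refine ⟨cusp_add hK 1 h.1 h'.1, ?_⟩
  filter_upwards [h.2, h'.2, Lp.coeFn_add (F : Lp ℂ 2 muD) G] with z h1 h2 h3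
  rw [Submodule.coe_add, h3, Pi.add_apply, h1, h2, one_mul]

theorem Rp.smul (h : Rp f F) (c : ℂ) : Rp (fun z => c * f z) (c • F) := by
  refine ⟨cusp_mul hK c h.1, ?_⟩
  filter_upwards [h.2, Lp.coeFn_smul c (F : Lp ℂ 2 muD)] with z h1 h3
  rw [Submodule.coe_smul, h3, Pi.smul_apply, h1, smul_eq_mul]

theorem Rp.cls (h : Rp f F) : Cls f := hK.2.1 f h.1.1

theorem Rp.lop (hS : St_SYM) (h : Rp f F) (h' : Rp g F) (a : ℝ) : Lop a f = Lop a g :=
  funext fun z => hS.2.2.2.1 f g h.1.1.2.1 h'.1.1.2.1 (h.2.trans h'.2.symm) _ z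

theorem Rp.eq (hU : St_UNF2) (h : Rp f F) (h' : Rp g F) (hf : Continuous f) (hg : Continuous g) :
    f = g :=
  (hU.2.2.2.2.2.2 f g h.1.1.2.1 h'.1.1.2.1 (h.2.trans h'.2.symm)).2 hf hg

theorem lop_mul (hK : St_KER2) (hf : Cls f) (c : ℂ) {a : ℝ} (ha : Real.cos a < 1) :
    Lop a (fun z => c * f z) = fun z => c * Lop a f z := by
  funext z
  have := lop_add hK c (hK.2.1 _ cusp_zero.1) hf ha z
  simpa [Lop, Rop] using this

theorem bb_nonneg (z : ℍ) : 0 ≤ bb z.im := by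
  have := z.im_pos
  unfold bb
  positivity

theorem int_le (hK : St_KER2) {s : ℍ → ℝ} {A : ℝ} (hA : 0 ≤ A) (h0 : ∀ z, 0 ≤ s z)
    (h : ∀ z, s z ≤ A * bb z.im) : ∫ z, s z ∂muD ≤ A * 27 := by
  refine (integral_mono_of_nonneg (Eventually.of_forall h0) (hK.2.2.2.1.const_mul A)
    (Eventually.of_forall h)).trans ?_
  rw [integral_const_mul]
  exact mul_le_mul_of_nonneg_left hK.2.2.2.2 hA

theorem exists_T (hS : St_SYM) (h3 : St_KER3) {a : ℝ} (ha : Real.cos a < 1) :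
    ∃ T : CS hK →L[ℂ] CS hK, ∀ f F, Rp f F → Rp (Lop a f) (T F) := by
  choose r hr using exists_rp (hK := hK)
  choose t ht using fun F => rp_exists (hK := hK) (h3 (r F) (hr F).1 a ha).2
  have key : ∀ f F, Rp f F → Rp (Lop a f) (t F) := fun f F h => by
    rw [h.lop hS (hr F)]; exact ht F
  have hA : 0 ≤ (2 / (1 - Real.cos a)) ^ 3 := pow_nonneg (div_nonneg zero_le_two (by linarith)) 3
  refine ⟨LinearMap.mkContinuous
    { toFun := t, map_add' := fun F G => ?_, map_smul' := fun c F => ?_ }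
    √((2 / (1 - Real.cos a)) ^ 3 * 27) fun F => ?_, key⟩
  · refine (key _ _ ((hr F).add (hr G))).ext ?_
    rw [funext (lop_add hK 1 (hr F).cls (hr G).cls ha)]
    exact (ht F).add (ht G)
  · refine (key _ _ ((hr F).smul c)).ext ?_
    rw [lop_mul hK (hr F).cls c ha]
    exact (ht F).smul c
  · refine (sq_le_sq₀ (norm_nonneg _) (by positivity)).1 ?_
    show ‖t F‖ ^ 2 ≤ _
    rw [mul_pow, Real.sq_sqrt (by positivity), ← (ht F).n2, mul_right_comm]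
    refine int_le hK (by positivity) (fun z => by positivity) fun z => ?_
    rw [mul_right_comm, ← (hr F).n2]
    exact (h3 _ (hr F).1 a ha).1 z

theorem hs (hL : St_LIN) (h3 : St_KER3) {a : ℝ} (ha : Real.cos a < 1) {T : CS hK →L[ℂ] CS hK}
    (hT : ∀ f F, Rp f F → Rp (Lop a f) (T F)) (n : ℕ) (e : Fin n → CS hK) (he : Orthonormal ℂ e) :
    ∑ i, ‖T (e i)‖ ^ 2 ≤ (2 / (1 - Real.cos a)) ^ 3 * 27 := by
  choose r hr using fun i => exists_rp (e i)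
  have hA : 0 ≤ (2 / (1 - Real.cos a)) ^ 3 := pow_nonneg (div_nonneg zero_le_two (by linarith)) 3
  have h1 : ∑ i, ‖T (e i)‖ ^ 2 = ∫ z, ∑ i, ‖Lop a (r i) z‖ ^ 2 ∂muD := by
    rw [integral_finsetSum _ fun i _ =>
      (memLp_two_iff_integrable_sq_norm (hT _ _ (hr i)).1.1.2.2.1).1 (hT _ _ (hr i)).1.1.2.2]
    exact Finset.sum_congr rfl fun i _ => (hT _ _ (hr i)).n2.symm
  rw [h1]
  refine int_le hK hA (fun z => Finset.sum_nonneg fun i _ => by positivity) fun z => ?_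
  have h4 := (h3 _ (hL.2.2.1 _ Finset.univ (fun i => conj (Lop a (r i) z)) r fun i _ => (hr i).1)
    a ha).1 z
  rw [(lop_sum hK _ _ _ fun i _ => (hr i).cls).2 a ha z, (hL.2.2.2.2.2.2.2.2 _ Finset.univ r
    (fun i _ => ⟨(hr i).1.1.2.2, (hr i).one (he.1 i)⟩)
    fun i _ j _ hij => ((hr i).ip (hr j)).trans (he.2 hij)).1] at h4
  simp only [conj_mul', RCLike.norm_conj, ← ofReal_pow, ← ofReal_sum, norm_real, Real.norm_eq_abs,
    sq_abs] at h4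
  have h5 : 0 ≤ ∑ i, ‖Lop a (r i) z‖ ^ 2 := Finset.sum_nonneg fun i _ => by positivity
  rcases h5.eq_or_lt with h6 | h6
  · rw [← h6]; exact mul_nonneg hA (bb_nonneg z)
  · rw [sq] at h4
    exact le_of_mul_le_mul_right h4 h6

end OPS

open OPS LIN in
theorem t_ops : T_OPS := by
  intro _ hU hK hL hS h3 hP hH
  have hc : ∀ a : Ioc (0 : ℝ) π, Real.cos a < 1 := fun a =>
    (Real.cos_lt_cos_of_nonneg_of_le_pi le_rfl a.2.2 a.2.1).trans_eq Real.cos_zero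
  have := (closed hU hK).completeSpace_coe
  choose T hT using fun a => exists_T (hK := hK) hS h3 (hc a)
  obtain ⟨s, h1, h2, h4⟩ := hH (CS hK) _ T
    (fun a x y => by
      obtain ⟨f, hf⟩ := exists_rp x
      obtain ⟨g, hg⟩ := exists_rp y
      rw [← (hT a _ _ hf).ip hg, ← hf.ip (hT a _ _ hg)]
      exact ((hS.1 _ (hS.2.1 a (hc a)).1 (hS.2.1 a (hc a)).2 g hg.1.1).2 f hf.1.1).symm)
    (fun a b x => by
      obtain ⟨f, hf⟩ := exists_rp x
      refine (hT a _ _ (hT b _ _ hf)).ext ?_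
      rw [hS.2.2.2.2 a b (hc a) (hc b) f hf.1.1]
      exact hT b _ _ (hT a _ _ hf))
    fun a => ⟨_, hs hL h3 (hc a) (hT a)⟩
  have key : ∀ v : s, ∃ φ, Rp φ (v : CS hK) ∧ Continuous φ := fun v => by
    obtain ⟨h5, a, h6⟩ := h2 v v.2
    obtain ⟨l, hl⟩ := h5 a
    obtain ⟨f, hf⟩ := exists_rp (v : CS hK)
    have h7 := (hT a _ _ hf).smul l⁻¹
    rw [hl, inv_smul_smul₀ fun h => h6 (by rw [hl, h, zero_smul])] at h7
    exact ⟨_, h7, continuous_const.mul ((hP f hf.cls).1 a (hc a))⟩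
  choose φ hφ hφc using key
  refine ⟨s, φ, ⟨fun i => ⟨(hφ i).1, hφc i, (hφ i).one (h1.1 i)⟩,
    fun i j hij => ((hφ i).ip (hφ j)).trans (h1.2 hij),
    fun f hf h a ha z => ?_⟩, fun i => ?_⟩
  · obtain ⟨F, hF⟩ := rp_exists (hK := hK) hf
    have h5 := hT ⟨a, ha.1, ha.2.le⟩ _ _ hF
    rw [h4 F (fun w hw => ((hφ ⟨w, hw⟩).ip hF).symm.trans (h _)) _] at h5
    have h6 : Rp (fun _ => 0) (0 : CS hK) := ⟨cusp_zero, (Lp.coeFn_zero ℂ 2 muD).symm⟩
    exact congrFun (h5.eq hU h6 ((hP f hF.cls).1 a (hc ⟨a, ha.1, ha.2.le⟩)) continuous_const) z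
  · choose l hl using (h2 i i.2).1
    classical
    refine ⟨fun a => if h : a ∈ Ioc (0 : ℝ) π then l ⟨a, h⟩ else 0, fun a ha z => ?_⟩
    have h5 := hT ⟨a, ha⟩ _ _ (hφ i)
    rw [hl] at h5
    simp only [dif_pos ha]
    exact congrFun (h5.eq hU ((hφ i).smul _) ((hP _ (hφ i).cls).1 a (hc ⟨a, ha⟩))
      (continuous_const.mul (hφc i))) z

end Pool.Agent.Lib.E2
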