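import Pool.Agent.Lib.E2.Blue

/-! Block PDE, part 1: differentiation under the integral for kernels `D ^ (-3/2) * R`. -/

namespace Pool.Agent.Lib.E2

noncomputable section

open Complex MeasureTheory Set Filter Topology
open scoped Real UpperHalfPlane

/-- the weight of the class `Cls` -/
def pde_w (w : ℍ) : ℝ := qd UpperHalfPlane.I w ^ (-(3 / 2) : ℝ)

theorem pde_q_one (z w : ℍ) : 1 ≤ qd z w := Real.one_le_cosh _

theorem pde_q_cont (z : ℍ) : Continuous (qd z) := by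
  unfold qd
  fun_prop

theorem pde_w_pos (w : ℍ) : 0 < pde_w w :=
  Real.rpow_pos_of_pos (by linarith [pde_q_one UpperHalfPlane.I w]) _

theorem pde_w_cont : Continuous pde_w :=
  (pde_q_cont _).rpow_const fun w => Or.inl (by linarith [pde_q_one UpperHalfPlane.I w])

theorem pde_meas {f : ℍ → ℂ} (hf : Cls f) : AEStronglyMeasurable f volume := by
  have h1 : AEStronglyMeasurable (fun w : ℍ => (((pde_w w)⁻¹ : ℝ) : ℂ)) volume :=
    (continuous_ofReal.comp (pde_w_cont.inv₀ fun w => (pde_w_pos w).ne')).aestronglyMeasurable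
  refine (h1.mul hf.aestronglyMeasurable).congr (Eventually.of_forall fun w => ?_)
  have := (pde_w_pos w).ne'
  show (((pde_w w)⁻¹ : ℝ) : ℂ) * ((pde_w w : ℝ) * f w) = f w
  rw [← mul_assoc, ← ofReal_mul, inv_mul_cancel₀ this, ofReal_one, one_mul]

theorem pde_bint {f : ℍ → ℂ} (hf : Cls f) (C : ℝ) : Integrable (fun w => C * pde_w w * ‖f w‖) := by
  refine (hf.norm.const_mul C).congr (Eventually.of_forall fun w => ?_)
  show C * ‖((pde_w w : ℝ) : ℂ) * f w‖ = C * pde_w w * ‖f w‖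
  rw [norm_mul, norm_real, Real.norm_of_nonneg (pde_w_pos w).le, mul_assoc]

theorem pde_km {f : ℍ → ℂ} (hf : Cls f) {G : ℍ → ℝ} (hG : Continuous G) :
    AEStronglyMeasurable (fun w => (G w : ℂ) * f w) volume :=
  (continuous_ofReal.comp hG).aestronglyMeasurable.mul (pde_meas hf)

theorem pde_nb {f : ℍ → ℂ} {g C : ℝ} {w : ℍ} (h : |g| ≤ C * pde_w w) :
    ‖(g : ℂ) * f w‖ ≤ C * pde_w w * ‖f w‖ := by
  rw [norm_mul, norm_real, Real.norm_eq_abs]
  exact mul_le_mul_of_nonneg_right h (norm_nonneg _)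

theorem pde_int {f : ℍ → ℂ} (hf : Cls f) {G : ℍ → ℝ} (hG : Continuous G) {C : ℝ}
    (h : ∀ w, |G w| ≤ C * pde_w w) : Integrable (fun w => (G w : ℂ) * f w) :=
  (pde_bint hf C).mono' (pde_km hf hG) (Eventually.of_forall fun w => pde_nb (h w))

theorem pde_hd {f : ℍ → ℂ} (hf : Cls f) {G G' : ℝ → ℍ → ℝ} {U : Set ℝ} (hU : IsOpen U) {c c' : ℝ → ℝ}
    (hc' : ContinuousOn c' U) (hG : ∀ t ∈ U, Continuous (G t)) (hG' : ∀ t ∈ U, Continuous (G' t))
    (hb : ∀ t ∈ U, ∀ w, |G t w| ≤ c t * pde_w w) (hb' : ∀ t ∈ U, ∀ w, |G' t w| ≤ c' t * pde_w w)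
    (hd : ∀ t ∈ U, ∀ w, HasDerivAt (fun t => G t w) (G' t w) t) {t : ℝ} (ht : t ∈ U) :
    HasDerivAt (fun t => ∫ w, (G t w : ℂ) * f w) (∫ w, (G' t w : ℂ) * f w) t := by
  have hn := hU.mem_nhds ht
  have h1 : ∀ᶠ s in 𝓝 t, c' s < c' t + 1 :=
    (hc'.continuousAt hn).eventually (gt_mem_nhds (lt_add_one _))
  refine (hasDerivAt_integral_of_dominated_loc_of_deriv_le (s := U ∩ {s | c' s < c' t + 1})
    (F := fun t w => (G t w : ℂ) * f w) (F' := fun t w => (G' t w : ℂ) * f w)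
    (bound := fun w => (c' t + 1) * pde_w w * ‖f w‖) (inter_mem hn h1)
    (mem_of_superset hn fun s hs => pde_km hf (hG s hs)) (pde_int hf (hG t ht) (hb t ht))
    (pde_km hf (hG' t ht)) (Eventually.of_forall fun w s hs => pde_nb ?_) (pde_bint hf _)
    (Eventually.of_forall fun w s hs => (hd s hs.1 w).ofReal_comp.mul_const _)).2
  exact (hb' s hs.1 w).trans (mul_le_mul_of_nonneg_right (le_of_lt hs.2) (pde_w_pos w).le)

theorem pde_pow_le {D m : ℝ} {w : ℍ} (hD : 0 < D) (h : qd UpperHalfPlane.I w ≤ m * D) :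
    D ^ (-(3 / 2) : ℝ) ≤ |m| ^ (3 / 2 : ℝ) * pde_w w := by
  have hq : 0 < qd UpperHalfPlane.I w := by linarith [pde_q_one UpperHalfPlane.I w]
  have hm : 0 < m := (mul_pos_iff_of_pos_right hD).1 (hq.trans_le h)
  have h1 : qd UpperHalfPlane.I w / m ≤ D := by rw [div_le_iff₀ hm]; linarith
  have h2 := Real.rpow_le_rpow_of_nonpos (div_pos hq hm) h1 (z := -(3 / 2)) (by norm_num)
  rw [Real.div_rpow hq.le hm.le, Real.rpow_neg hm.le, div_inv_eq_mul] at h2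
  rw [abs_of_pos hm, mul_comm]
  exact h2

theorem pde_der {D R : ℝ → ℝ} {D' R' t : ℝ} (hD : HasDerivAt D D' t) (hR : HasDerivAt R R' t) (h : 0 < D t) :
    HasDerivAt (fun t => D t ^ (-(3 / 2) : ℝ) * R t)
      (D t ^ (-(3 / 2) : ℝ) * (R' - 3 / 2 * R t * (D' / D t))) t := by
  refine ((hD.rpow_const (p := -(3 / 2)) (Or.inl h.ne')).mul hR).congr_deriv ?_
  rw [Real.rpow_sub_one h.ne']
  field_simp
  ring

def pde_K0 (D S : ℝ) : ℝ := D ^ (-(3 / 2) : ℝ) * S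

def pde_K1 (D D1 S S1 : ℝ) : ℝ := D ^ (-(3 / 2) : ℝ) * (S1 - 3 / 2 * S * (D1 / D))

def pde_K2 (D D1 D2 S S1 S2 : ℝ) : ℝ := D ^ (-(3 / 2) : ℝ) *
  (S2 - 3 * S1 * (D1 / D) + 15 / 4 * S * (D1 / D) ^ 2 - 3 / 2 * S * (D2 / D))

theorem pde_kb {D m R B : ℝ} {w : ℍ} (hD : 0 < D) (h : qd UpperHalfPlane.I w ≤ m * D) (hR : |R| ≤ B) :
    |D ^ (-(3 / 2) : ℝ) * R| ≤ |m| ^ (3 / 2 : ℝ) * B * pde_w w := by
  rw [abs_mul, abs_of_nonneg (Real.rpow_nonneg hD.le _), mul_right_comm]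
  exact mul_le_mul (pde_pow_le hD h) hR (abs_nonneg _)
    (mul_nonneg (Real.rpow_nonneg (abs_nonneg _) _) (pde_w_pos w).le)

theorem pde_ratio {D X b : ℝ} (hD : 0 < D) (h : |X| ≤ b * D) : |X / D| ≤ b := by
  rw [abs_div, abs_of_pos hD, div_le_iff₀ hD]
  exact h

theorem pde_two {f : ℍ → ℂ} (hf : Cls f) {D D1 D2 : ℝ → ℍ → ℝ} {S S1 S2 b m : ℝ → ℝ} {U : Set ℝ}
    (hU : IsOpen U) (hb : ContinuousOn b U) (hm : ContinuousOn m U) (hS2 : ContinuousOn S2 U)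
    (hS : ∀ t ∈ U, HasDerivAt S (S1 t) t ∧ HasDerivAt S1 (S2 t) t)
    (hc : ∀ t ∈ U, Continuous (D t) ∧ Continuous (D1 t) ∧ Continuous (D2 t))
    (h : ∀ t ∈ U, ∀ w, 0 < D t w ∧ HasDerivAt (fun t => D t w) (D1 t w) t ∧
      HasDerivAt (fun t => D1 t w) (D2 t w) t ∧ |D1 t w| ≤ b t * D t w ∧ |D2 t w| ≤ b t * D t w ∧
      qd UpperHalfPlane.I w ≤ m t * D t w) {t : ℝ} (ht : t ∈ U) :
    HasDerivAt (fun t => ∫ w, (pde_K0 (D t w) (S t) : ℂ) * f w)
      (∫ w, (pde_K1 (D t w) (D1 t w) (S t) (S1 t) : ℂ) * f w) t ∧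
    HasDerivAt (fun t => ∫ w, (pde_K1 (D t w) (D1 t w) (S t) (S1 t) : ℂ) * f w)
      (∫ w, (pde_K2 (D t w) (D1 t w) (D2 t w) (S t) (S1 t) (S2 t) : ℂ) * f w) t ∧
    Integrable (fun w => (pde_K0 (D t w) (S t) : ℂ) * f w) ∧
    Integrable (fun w => (pde_K2 (D t w) (D1 t w) (D2 t w) (S t) (S1 t) (S2 t) : ℂ) * f w) := by
  have cS : ContinuousOn S U := fun t ht => (hS t ht).1.continuousAt.continuousWithinAt
  have cS1 : ContinuousOn S1 U := fun t ht => (hS t ht).2.continuousAt.continuousWithinAt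
  have cm : ContinuousOn (fun t => |m t| ^ (3 / 2 : ℝ)) U :=
    hm.abs.rpow_const fun _ _ => Or.inr (by norm_num)
  have cE : ∀ t ∈ U, Continuous fun w => D t w ^ (-(3 / 2) : ℝ) := fun t ht =>
    (hc t ht).1.rpow_const fun w => Or.inl (h t ht w).1.ne'
  have c1 : ∀ t ∈ U, Continuous fun w => D1 t w / D t w := fun t ht =>
    (hc t ht).2.1.div (hc t ht).1 fun w => (h t ht w).1.ne'
  have c2 : ∀ t ∈ U, Continuous fun w => D2 t w / D t w := fun t ht =>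
    (hc t ht).2.2.div (hc t ht).1 fun w => (h t ht w).1.ne'
  have k0 : ∀ t ∈ U, Continuous fun w => pde_K0 (D t w) (S t) := fun t ht => (cE t ht).mul continuous_const
  have k1 : ∀ t ∈ U, Continuous fun w => pde_K1 (D t w) (D1 t w) (S t) (S1 t) := fun t ht =>
    (cE t ht).mul (continuous_const.sub (continuous_const.mul (c1 t ht)))
  have k2 : ∀ t ∈ U, Continuous fun w => pde_K2 (D t w) (D1 t w) (D2 t w) (S t) (S1 t) (S2 t) := fun t ht =>
    (cE t ht).mul (((continuous_const.sub (continuous_const.mul (c1 t ht))).add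
      (continuous_const.mul ((c1 t ht).pow 2))).sub (continuous_const.mul (c2 t ht)))
  have b0 : ∀ t ∈ U, ∀ w, |pde_K0 (D t w) (S t)| ≤ |m t| ^ (3 / 2 : ℝ) * |S t| * pde_w w := fun t ht w =>
    pde_kb (h t ht w).1 (h t ht w).2.2.2.2.2 le_rfl
  have b1 : ∀ t ∈ U, ∀ w, |pde_K1 (D t w) (D1 t w) (S t) (S1 t)| ≤
      |m t| ^ (3 / 2 : ℝ) * (|S1 t| + 3 / 2 * |S t| * b t) * pde_w w := fun t ht w => by
    refine pde_kb (h t ht w).1 (h t ht w).2.2.2.2.2 ((abs_sub _ _).trans ?_)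
    have := pde_ratio (h t ht w).1 (h t ht w).2.2.2.1
    rw [abs_mul, abs_mul, abs_of_pos (by norm_num : (0 : ℝ) < 3 / 2)]
    gcongr
  have b2 : ∀ t ∈ U, ∀ w, |pde_K2 (D t w) (D1 t w) (D2 t w) (S t) (S1 t) (S2 t)| ≤
      |m t| ^ (3 / 2 : ℝ) * (|S2 t| + 3 * |S1 t| * b t + 15 / 4 * |S t| * b t ^ 2 + 3 / 2 * |S t| * b t) *
        pde_w w := fun t ht w => by
    refine pde_kb (h t ht w).1 (h t ht w).2.2.2.2.2 ((abs_sub _ _).trans ?_)
    have r1 := pde_ratio (h t ht w).1 (h t ht w).2.2.2.1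
    have r2 := pde_ratio (h t ht w).1 (h t ht w).2.2.2.2.1
    refine add_le_add ((abs_add_le _ _).trans (add_le_add ((abs_sub _ _).trans ?_) ?_)) ?_
    · rw [abs_mul, abs_mul, abs_of_pos (by norm_num : (0 : ℝ) < 3)]
      gcongr
    · rw [abs_mul, abs_mul, abs_pow, abs_of_pos (by norm_num : (0 : ℝ) < 15 / 4)]
      gcongr
    · rw [abs_mul, abs_mul, abs_of_pos (by norm_num : (0 : ℝ) < 3 / 2)]
      gcongr
  refine ⟨pde_hd hf hU (cm.mul (cS1.abs.add ((continuousOn_const.mul cS.abs).mul hb))) k0 k1 b0 b1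
      (fun t ht w => pde_der (h t ht w).2.1 (hS t ht).1 (h t ht w).1) ht,
    pde_hd hf hU (cm.mul (((hS2.abs.add ((continuousOn_const.mul cS1.abs).mul hb)).add
      ((continuousOn_const.mul cS.abs).mul (hb.pow 2))).add ((continuousOn_const.mul cS.abs).mul hb)))
      k1 k2 b1 b2 (fun t ht w => ?_) ht, pde_int hf (k0 t ht) (b0 t ht), pde_int hf (k2 t ht) (b2 t ht)⟩
  obtain ⟨h0, d1, d2, -⟩ := h t ht w
  have hR := (hS t ht).2.sub (((hS t ht).1.const_mul (3 / 2)).mul (d2.div d1 h0.ne'))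
  refine (pde_der d1 hR h0).congr_deriv ?_
  unfold pde_K2
  congr 1
  simp only [Pi.sub_apply, Pi.mul_apply, Pi.div_apply]
  field_simp
  ring

end

end Pool.Agent.Lib.E2
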