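import Pool.Agent.Lib.E2.Blue

/-!
Lattice sums along the ray: the terms with both indices nonzero integrate to `Pif`.
-/

namespace Pool.Agent.Lib.E2

noncomputable section

open Complex MeasureTheory Set Filter Topology
open scoped Real UpperHalfPlane

theorem pi_cp {x : ℝ} (hx : 0 < x) (s : ℂ) : (x : ℂ) ^ s = exp ((Real.log x : ℂ) * s) := by
  rw [cpow_def_of_ne_zero (ofReal_ne_zero.2 hx.ne'), ofReal_log hx.le]

/-- `|n|^(-s)` -/
def piA (s : ℂ) (n : ℤ) : ℂ := ((|(n : ℝ)| : ℝ) : ℂ) ^ (-s)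

theorem pi_a_zero {s : ℂ} (hs : s ≠ 0) : piA s 0 = 0 := by
  simp [piA, zero_cpow (neg_ne_zero.2 hs)]

theorem pi_a_neg (s : ℂ) (n : ℤ) : piA s (-n) = piA s n := by
  simp [piA]

theorem pi_a_sum {s : ℂ} (hs : 1 < s.re) : HasSum (piA s) (2 * riemannZeta s) := by
  have h := (HurwitzZeta.hasSum_int_hurwitzZetaEven 0 hs).mul_left 2
  have e : HurwitzZeta.hurwitzZetaEven ((0 : ℝ) : UnitAddCircle) = riemannZeta := by
    rw [← HurwitzZeta.hurwitzZetaEven_zero]; rfl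
  rw [e] at h
  refine h.congr_fun fun n => ?_
  simp only [piA, add_zero, cpow_neg, one_div]
  ring

/-- the point of modulus `y` on the ray -/
def piZ (r y : ℝ) : ℍ := pt (y * Real.tanh r) (y / Real.cosh r)

theorem pi_z_re (hU : St_UNF1) (r : ℝ) {y : ℝ} (hy : 0 < y) :
    (piZ r y).re = y * Real.tanh r ∧ (piZ r y).im = y / Real.cosh r :=
  hU.1 _ _ (div_pos hy (Real.cosh_pos r))

theorem pi_lat (hU : St_UNF1) (r : ℝ) {y : ℝ} (hy : 0 < y) (s : ℂ) (p : ℤ × ℤ) :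
    lat (piZ r y) s p = (((y / Real.cosh r) /
      ((p.1 : ℝ) ^ 2 * y ^ 2 + 2 * (p.1 * p.2 * Real.tanh r) * y + (p.2 : ℝ) ^ 2) : ℝ) : ℂ) ^ s := by
  obtain ⟨h1, h2⟩ := pi_z_re hU r hy
  have h3 : ‖(p.1 : ℂ) * (piZ r y : ℂ) + p.2‖ ^ 2 =
      (p.1 : ℝ) ^ 2 * y ^ 2 + 2 * (p.1 * p.2 * Real.tanh r) * y + (p.2 : ℝ) ^ 2 := by
    rw [Complex.sq_norm, Complex.normSq_apply]
    simp only [add_re, mul_re, intCast_re, intCast_im, UpperHalfPlane.coe_re,
      UpperHalfPlane.coe_im, add_im, mul_im, h1, h2, zero_mul, sub_zero, add_zero]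
    have hc := (Real.cosh_pos r).ne'
    have hq := Real.cosh_sq r
    rw [Real.tanh_eq_sinh_div_cosh]
    field_simp
    linear_combination (-((p.1 : ℝ) ^ 2 * y ^ 2)) * hq
  unfold lat
  rw [h3, h2]

/-- the terms with both indices nonzero -/
def piC (r y : ℝ) (s : ℂ) (p : ℤ × ℤ) : ℂ :=
  if p.1 ≠ 0 ∧ p.2 ≠ 0 then lat (piZ r y) s p else 0

theorem pi_div_sq {x : ℝ} (hx : 0 < x) (s : ℂ) {n : ℤ} (hn : n ≠ 0) :
    ((x / (n : ℝ) ^ 2 : ℝ) : ℂ) ^ s = (x : ℂ) ^ s * piA (2 * s) n := by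
  have h0 : (n : ℝ) ≠ 0 := Int.cast_ne_zero.2 hn
  have h1 : 0 < |(n : ℝ)| := abs_pos.2 h0
  have h2 : 0 < (n : ℝ) ^ 2 := by positivity
  unfold piA
  rw [pi_cp (div_pos hx h2), pi_cp hx, pi_cp h1, ← Complex.exp_add, Real.log_div hx.ne' h2.ne',
    Real.log_pow, Real.log_abs]
  congr 1
  push_cast
  ring

theorem pi_split (hU : St_UNF1) (hE : St_EIS1) (r : ℝ) {y : ℝ} (hy : 0 < y) {s : ℂ}
    (hs : 1 < s.re) :
    ∑' p, piC r y s p = ∑' p, lat (piZ r y) s p -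
      ((y / Real.cosh r : ℝ) : ℂ) ^ s * (2 * riemannZeta (2 * s)) -
      ((1 / (y * Real.cosh r) : ℝ) : ℂ) ^ s * (2 * riemannZeta (2 * s)) := by
  have hs0 : s ≠ 0 := fun h => by rw [h] at hs; norm_num at hs
  have hs2 : 1 < (2 * s).re := by simp; linarith
  have hs20 : 2 * s ≠ 0 := mul_ne_zero two_ne_zero hs0
  have hc := Real.cosh_pos r
  have h0 := ((hE (piZ r y) s hs).1.of_norm).hasSum
  have h1 : HasSum (fun p : ℤ × ℤ => if p.1 = 0 then
      ((y / Real.cosh r : ℝ) : ℂ) ^ s * piA (2 * s) p.2 else 0)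
      (((y / Real.cosh r : ℝ) : ℂ) ^ s * (2 * riemannZeta (2 * s))) := by
    have hi : Function.Injective (fun n : ℤ => ((0 : ℤ), n)) := fun a b h => (Prod.ext_iff.1 h).2
    rw [← hi.hasSum_iff]
    · refine ((pi_a_sum hs2).mul_left _).congr_fun fun n => ?_
      simp
    · rintro ⟨m, n⟩ h
      have : m ≠ 0 := fun hm => h ⟨n, by simp [hm]⟩
      simp [this]
  have h2 : HasSum (fun p : ℤ × ℤ => if p.2 = 0 then
      ((1 / (y * Real.cosh r) : ℝ) : ℂ) ^ s * piA (2 * s) p.1 else 0)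
      (((1 / (y * Real.cosh r) : ℝ) : ℂ) ^ s * (2 * riemannZeta (2 * s))) := by
    have hi : Function.Injective (fun n : ℤ => (n, (0 : ℤ))) := fun a b h => (Prod.ext_iff.1 h).1
    rw [← hi.hasSum_iff]
    · refine ((pi_a_sum hs2).mul_left _).congr_fun fun n => ?_
      simp
    · rintro ⟨m, n⟩ h
      have : n ≠ 0 := fun hm => h ⟨m, by simp [hm]⟩
      simp [this]
  refine (((h0.sub h1).sub h2).congr_fun ?_).tsum_eq
  rintro ⟨m, n⟩
  unfold piC
  by_cases hm : m = 0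
  · by_cases hn : n = 0
    · subst hm; subst hn
      rw [pi_lat hU r hy]
      simp [pi_a_zero hs20, zero_cpow hs0]
    · subst hm
      rw [pi_lat hU r hy]
      simp only [ne_eq, not_true_eq_false, false_and, if_false, if_true, hn, Int.cast_zero,
        sub_zero]
      rw [← pi_div_sq (div_pos hy hc) s hn]
      simp
  · by_cases hn : n = 0
    · subst hn
      rw [pi_lat hU r hy]
      simp only [ne_eq, not_true_eq_false, and_false, if_false, if_true, hm, Int.cast_zero,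
        sub_zero]
      rw [← pi_div_sq (by positivity) s hm]
      have hm' : (m : ℝ) ≠ 0 := Int.cast_ne_zero.2 hm
      have : y / Real.cosh r / ((m : ℝ) ^ 2 * y ^ 2 + 2 * (m * 0 * Real.tanh r) * y + 0 ^ 2) =
          1 / (y * Real.cosh r) / (m : ℝ) ^ 2 := by
        simp only [mul_zero, zero_mul, add_zero, ne_eq, OfNat.ofNat_ne_zero, not_false_eq_true,
          zero_pow]
        field_simp
      rw [this, sub_self]
    · simp [hm, hn]

/-- the signed parameter -/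
def piT (r : ℝ) (p : ℤ × ℤ) : ℝ := if 0 < p.1 * p.2 then r else -r

/-- the integrand of `Jf` -/
def piH (s : ℂ) (t v : ℝ) : ℂ := ((Real.cosh v * Real.cosh t + Real.sinh t : ℝ) : ℂ) ^ (-s)

theorem pi_pos (t v : ℝ) : 0 < Real.cosh v * Real.cosh t + Real.sinh t := by
  have h1 := Real.one_le_cosh v
  have h2 := Real.cosh_pos t
  have h3 := Real.cosh_add_sinh t
  have h4 := Real.exp_pos t
  nlinarith

theorem pi_alg {E M N C S : ℝ} (hE : 0 < E) (hM : 0 < M) (hN : 0 < N) (hC : 0 < C)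
    (hD : 0 < (E + E⁻¹) / 2 * C + S) :
    (E * (N / M) / C) / (M ^ 2 * (E * (N / M)) ^ 2 + 2 * (M * N * (S / C)) * (E * (N / M)) + N ^ 2)
      = 1 / (2 * (M * N) * ((E + E⁻¹) / 2 * C + S)) := by
  have h1 : M ^ 2 * (E * (N / M)) ^ 2 + 2 * (M * N * (S / C)) * (E * (N / M)) + N ^ 2 =
      (2 * E * N ^ 2 / C) * ((E + E⁻¹) / 2 * C + S) := by
    field_simp
    ring
  rw [h1]
  generalize (E + E⁻¹) / 2 * C + S = D at hD
  field_simp

theorem pi_c_eq (hU : St_UNF1) (r v : ℝ) {s : ℂ} (hs : s ≠ 0) (p : ℤ × ℤ) :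
    piC r (Real.exp v) s p = (2 : ℂ) ^ (-s) * (piA s p.1 * piA s p.2) *
      piH s (piT r p) (v - Real.log (|(p.2 : ℝ)| / |(p.1 : ℝ)|)) := by
  obtain ⟨m, n⟩ := p
  unfold piC
  by_cases hm : m = 0
  · simp [hm, pi_a_zero hs]
  by_cases hn : n = 0
  · simp [hn, pi_a_zero hs]
  rw [if_pos ⟨hm, hn⟩, pi_lat hU r (Real.exp_pos v)]
  have hM : 0 < |(m : ℝ)| := abs_pos.2 (Int.cast_ne_zero.2 hm)
  have hN : 0 < |(n : ℝ)| := abs_pos.2 (Int.cast_ne_zero.2 hn)
  set w := v - Real.log (|(n : ℝ)| / |(m : ℝ)|) with hw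
  set t := piT r (m, n) with ht
  have hv : Real.exp v = Real.exp w * (|(n : ℝ)| / |(m : ℝ)|) := by
    rw [hw, Real.exp_sub, Real.exp_log (div_pos hN hM)]
    field_simp
  have hct : Real.cosh t = Real.cosh r := by
    rw [ht]; unfold piT; split_ifs <;> simp
  have hst : (m : ℝ) * n * Real.tanh r = |(m : ℝ)| * |(n : ℝ)| * (Real.sinh t / Real.cosh t) := by
    rw [hct, ← abs_mul, ht, Real.tanh_eq_sinh_div_cosh]
    unfold piT
    split_ifs with h
    · have : (0 : ℝ) < (m : ℝ) * n := by exact_mod_cast h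
      rw [abs_of_pos this]
    · have : (m : ℝ) * n ≤ 0 := by exact_mod_cast not_lt.1 h
      rw [abs_of_nonpos this, Real.sinh_neg]
      ring
  have hcw : Real.cosh w = (Real.exp w + (Real.exp w)⁻¹) / 2 := by
    rw [Real.cosh_eq, Real.exp_neg]
  have hD := pi_pos t w
  have key : Real.exp v / Real.cosh r / ((m : ℝ) ^ 2 * Real.exp v ^ 2 +
      2 * (m * n * Real.tanh r) * Real.exp v + (n : ℝ) ^ 2) =
      1 / (2 * (|(m : ℝ)| * |(n : ℝ)|) * (Real.cosh w * Real.cosh t + Real.sinh t)) := by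
    rw [hst, ← sq_abs (m : ℝ), ← sq_abs (n : ℝ), hv, ← hct, hcw]
    exact pi_alg (Real.exp_pos w) hM hN (Real.cosh_pos t) (hcw ▸ hD)
  simp only
  rw [key]
  unfold piA piH
  have h2 : (2 : ℂ) = ((2 : ℝ) : ℂ) := by norm_num
  rw [h2, pi_cp (by positivity), pi_cp two_pos, pi_cp hM, pi_cp hN, pi_cp hD, ← Complex.exp_add,
    ← Complex.exp_add, ← Complex.exp_add, one_div, Real.log_inv,
    Real.log_mul (by positivity) hD.ne', Real.log_mul two_ne_zero (by positivity),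
    Real.log_mul hM.ne' hN.ne']
  congr 1
  push_cast
  ring

theorem pi_int (hJ : St_JB2) (hU : St_UNF1) (r : ℝ) {s : ℂ} (hs : 1 < s.re) :
    ∫ v : ℝ, ∑' p, piC r (Real.exp v) s p =
      2 * (2 : ℂ) ^ (-s) * riemannZeta s ^ 2 * (Jf s r + Jf s (-r)) := by
  have hs0 : s ≠ 0 := fun h => by rw [h] at hs; norm_num at hs
  have hJ1 := (hJ s (by linarith)).1
  have ha := pi_a_sum hs
  have han : Summable fun n => ‖piA s n‖ := summable_norm_iff.2 ha.summable
  have hp : HasSum (fun p : ℤ × ℤ => piA s p.1 * piA s p.2)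
      (2 * riemannZeta s * (2 * riemannZeta s)) :=
    ha.mul ha (summable_mul_of_summable_norm han han)
  have hpn : Summable fun p : ℤ × ℤ => ‖piA s p.1 * piA s p.2‖ := summable_norm_iff.2 hp.summable
  have hI : ∀ p : ℤ × ℤ, Integrable (fun v : ℝ => piC r (Real.exp v) s p) := fun p => by
    simp only [pi_c_eq hU r _ hs0 p]
    exact ((hJ1 (piT r p)).1.comp_sub_right _).const_mul _
  have hV : ∀ p : ℤ × ℤ, ∫ v : ℝ, piC r (Real.exp v) s p =
      (2 : ℂ) ^ (-s) * (piA s p.1 * piA s p.2) * Jf s (piT r p) := fun p => by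
    simp only [pi_c_eq hU r _ hs0 p]
    rw [integral_const_mul, integral_sub_right_eq_self (piH s (piT r p)), (hJ1 (piT r p)).2]
    rfl
  have hS : Summable fun p : ℤ × ℤ => ∫ v : ℝ, ‖piC r (Real.exp v) s p‖ := by
    refine Summable.of_nonneg_of_le (fun p => integral_nonneg fun _ => norm_nonneg _)
      (fun p => ?_) (hpn.mul_right (‖(2 : ℂ) ^ (-s)‖ *
        ((∫ v, ‖piH s r v‖) + ∫ v, ‖piH s (-r) v‖)))
    simp only [pi_c_eq hU r _ hs0 p, norm_mul]
    rw [integral_const_mul, integral_sub_right_eq_self (fun v => ‖piH s (piT r p) v‖)]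
    have h1 : 0 ≤ ∫ v, ‖piH s r v‖ := integral_nonneg fun _ => norm_nonneg _
    have h2 : 0 ≤ ∫ v, ‖piH s (-r) v‖ := integral_nonneg fun _ => norm_nonneg _
    have h3 : ∫ v, ‖piH s (piT r p) v‖ ≤ (∫ v, ‖piH s r v‖) + ∫ v, ‖piH s (-r) v‖ := by
      unfold piT
      split_ifs <;> linarith
    calc _ ≤ ‖(2 : ℂ) ^ (-s)‖ * (‖piA s p.1‖ * ‖piA s p.2‖) *
          ((∫ v, ‖piH s r v‖) + ∫ v, ‖piH s (-r) v‖) := by gcongr
      _ = _ := by ring
  have hH := hasSum_integral_of_summable_integral_norm hI hS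
  simp only [hV] at hH
  let e : ℤ × ℤ ≃ ℤ × ℤ := (Equiv.refl ℤ).prodCongr (Equiv.neg ℤ)
  have hH2 := (e.hasSum_iff.2 hH)
  have hH3 := hH.add hH2
  have hH4 := (hp.mul_left ((2 : ℂ) ^ (-s))).mul_right (Jf s r + Jf s (-r))
  have hH5 : HasSum (fun p : ℤ × ℤ => (2 : ℂ) ^ (-s) * (piA s p.1 * piA s p.2) *
      (Jf s r + Jf s (-r))) _ := hH3.congr_fun (by
    rintro ⟨m, n⟩
    simp only [Function.comp, e, Equiv.prodCongr_apply, Prod.map, Equiv.refl_apply,
      Equiv.neg_apply, pi_a_neg]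
    by_cases hm : m = 0
    · simp [hm, pi_a_zero hs0]
    by_cases hn : n = 0
    · simp [hn, pi_a_zero hs0]
    have hmn : m * n ≠ 0 := mul_ne_zero hm hn
    unfold piT
    simp only [mul_neg]
    rcases lt_or_gt_of_ne hmn with h | h
    · rw [if_neg (by omega), if_pos (by omega)]
      push_cast
      ring
    · rw [if_pos h, if_neg (by omega)]
      push_cast
      ring)
  have := hH5.unique hH4
  linear_combination (1 / 2 : ℂ) * this

end

end Pool.Agent.Lib.E2
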