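import Pool.Agent.Lib.E2.Blue

/-!
Shifting and rotating lines of integration.
-/

namespace Pool.Agent.Lib.E2

noncomputable section

open Complex MeasureTheory Set Filter Topology
open scoped Real

namespace SHIFT

theorem lim_zero (V : ℝ → ℂ) (g : ℝ → ℝ) (K : ℝ) (l : Filter ℝ) (L : ℂ)
    (hl : ∀ s ∈ l, volume s = ⊤) (hg : Integrable g) (hb : ∀ x, ‖V x‖ ≤ K * g x)
    (ht : Tendsto V l (𝓝 L)) : L = 0 := by
  by_contra h
  have hL : 0 < ‖L‖ := norm_pos_iff.2 h
  have h1 : ∀ᶠ x in l, ‖L‖ / 2 < ‖V x‖ := ht.norm.eventually (lt_mem_nhds (by linarith))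
  have h2 : {x | ‖L‖ / 2 ≤ K * g x} ∈ l := h1.mono fun x hx => le_trans hx.le (hb x)
  have h3 := (hg.const_mul K).measure_ge_lt_top (ε := ‖L‖ / 2) (by linarith)
  exact h3.ne (hl _ h2)

theorem top_inf : ∀ s ∈ (atTop : Filter ℝ), volume s = ⊤ := by
  intro s hs
  obtain ⟨R, hR⟩ := mem_atTop_sets.1 hs
  have : volume (Ici R) ≤ volume s := measure_mono fun x hx => hR x hx
  rw [Real.volume_Ici] at this
  exact top_le_iff.1 this

theorem bot_inf : ∀ s ∈ (atBot : Filter ℝ), volume s = ⊤ := by
  intro s hs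
  obtain ⟨R, hR⟩ := mem_atBot_sets.1 hs
  have : volume (Iic R) ≤ volume s := measure_mono fun x hx => hR x hx
  rw [Real.volume_Iic] at this
  exact top_le_iff.1 this

theorem one (f : ℂ → ℂ) (a b : ℝ) (g : ℝ → ℝ) (hab : a ≤ b)
    (hd : DifferentiableOn ℂ f {z | a < z.im ∧ z.im < b})
    (hc : ContinuousOn f {z | a ≤ z.im ∧ z.im ≤ b})
    (hg : Integrable g) (hb : ∀ z : ℂ, a ≤ z.im → z.im ≤ b → ‖f z‖ ≤ g z.re) :
    ∫ x : ℝ, f (x + a * I) = ∫ x : ℝ, f (x + b * I) := by
  have hcont : ∀ y : ℝ, a ≤ y → y ≤ b → Continuous fun x : ℝ => f (x + y * I) := by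
    intro y h1 h2
    refine hc.comp_continuous (by fun_prop) fun x => ?_
    simp [h1, h2]
  have hint : ∀ y : ℝ, a ≤ y → y ≤ b → Integrable fun x : ℝ => f (x + y * I) := by
    intro y h1 h2
    refine hg.mono' (hcont y h1 h2).aestronglyMeasurable (Eventually.of_forall fun x => ?_)
    have := hb (x + y * I) (by simpa using h1) (by simpa using h2)
    simpa using this
  set D : ℝ → ℂ := fun x => f (x + a * I) - f (x + b * I) with hD
  have hDi : Integrable D := (hint a le_rfl hab).sub (hint b hab le_rfl)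
  set V : ℝ → ℂ := fun x => ∫ y in a..b, f (x + y * I) with hV
  have hVb : ∀ x, ‖V x‖ ≤ (b - a) * g x := by
    intro x
    have := intervalIntegral.norm_integral_le_of_norm_le_const (a := a) (b := b) (C := g x)
      (f := fun y : ℝ => f (x + y * I)) (fun y hy => by
        rw [uIoc_of_le hab] at hy
        have := hb (x + y * I) (by simpa using hy.1.le) (by simpa using hy.2)
        simpa using this)
    rw [abs_of_nonneg (by linarith)] at this
    simpa [hV, mul_comm] using this
  have rect : ∀ x1 x2 : ℝ, (∫ x in x1..x2, D x) + I * V x2 - I * V x1 = 0 := by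
    intro x1 x2
    have h := integral_boundary_rect_eq_zero_of_continuousOn_of_differentiableOn f
      (x1 + a * I) (x2 + b * I) (hc.mono fun z hz => by
        have := hz.2
        simp [uIcc_of_le hab] at this
        exact this) (hd.mono fun z hz => by
        have := hz.2
        simp [min_eq_left hab, max_eq_right hab] at this
        exact this)
    simp only [add_re, ofReal_re, mul_re, I_re, mul_zero, ofReal_im, I_im, mul_one, sub_self,
      add_zero, add_im, mul_im, zero_add, smul_eq_mul] at h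
    rw [hD, intervalIntegral.integral_sub (hint a le_rfl hab).intervalIntegrable
      (hint b hab le_rfl).intervalIntegrable]
    exact h
  have h1 : V 0 + I * ∫ x in Ioi (0 : ℝ), D x = 0 := by
    refine lim_zero V g (b - a) atTop _ top_inf hg hVb ?_
    have ht := intervalIntegral_tendsto_integral_Ioi 0 hDi.integrableOn tendsto_id
    have : V = fun x => V 0 + I * ∫ t in (0 : ℝ)..x, D t := by
      funext x
      have := rect 0 x
      linear_combination (-I) * this + (V x - V 0) * I_mul_I
    rw [this]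
    simp only [intervalIntegral.integral_same, mul_zero, add_zero]
    exact (ht.const_mul I).const_add _
  have h2 : V 0 - I * ∫ x in Iic (0 : ℝ), D x = 0 := by
    refine lim_zero V g (b - a) atBot _ bot_inf hg hVb ?_
    have ht := intervalIntegral_tendsto_integral_Iic 0 hDi.integrableOn tendsto_id
    have : V = fun x => V 0 - I * ∫ t in x..(0 : ℝ), D t := by
      funext x
      have := rect x 0
      linear_combination I * this + (V x - V 0) * I_mul_I
    rw [this]
    simp only [intervalIntegral.integral_same, mul_zero, sub_zero]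
    exact (ht.const_mul I).const_sub _
  have h3 : (∫ x in Iic (0 : ℝ), D x) + ∫ x in Ioi (0 : ℝ), D x = ∫ x, D x :=
    intervalIntegral.integral_Iic_add_Ioi hDi.integrableOn hDi.integrableOn
  have h4 : ∫ x, D x = 0 := by
    have : I * ∫ x, D x = 0 := by rw [← h3]; linear_combination h1 - h2
    exact (mul_eq_zero.1 this).resolve_left I_ne_zero
  rw [hD, integral_sub (hint a le_rfl hab) (hint b hab le_rfl)] at h4
  exact sub_eq_zero.1 h4

theorem two (f : ℂ → ℂ) (a b : ℝ) (g : ℝ → ℝ) (hab : a ≤ b)
    (hd : DifferentiableOn ℂ f {z | a < z.re ∧ z.re < b})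
    (hc : ContinuousOn f {z | a ≤ z.re ∧ z.re ≤ b})
    (hg : Integrable g) (hb : ∀ z : ℂ, a ≤ z.re → z.re ≤ b → ‖f z‖ ≤ g z.im) :
    ∫ y : ℝ, f (a + y * I) = ∫ y : ℝ, f (b + y * I) := by
  have h := one (fun z => f (I * z)) (-b) (-a) g (by linarith)
    (hd.comp (by fun_prop) fun z hz => by
      simp only [mem_ofPred_eq, mul_re, I_re, zero_mul, I_im, one_mul, zero_sub] at hz ⊢
      constructor <;> linarith [hz.1, hz.2])
    (hc.comp (by fun_prop) fun z hz => by
      simp only [mem_ofPred_eq, mul_re, I_re, zero_mul, I_im, one_mul, zero_sub] at hz ⊢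
      constructor <;> linarith [hz.1, hz.2])
    hg (fun z h1 h2 => by
      have := hb (I * z) (by simp; linarith) (by simp; linarith)
      simpa using this)
  have e : ∀ c x : ℝ, I * ((x : ℂ) + ((-c : ℝ) : ℂ) * I) = c + x * I := by
    intro c x
    push_cast
    linear_combination (-(c : ℂ)) * I_mul_I
  simp only [e] at h
  exact h.symm

theorem subst (h : ℝ → ℂ) :
    ∫ t in Ioi (0 : ℝ), h t = ∫ x : ℝ, h (Real.exp x) * (Real.exp x : ℂ) := by
  have := integral_image_eq_integral_abs_deriv_smul (s := univ) (f := Real.exp) (f' := Real.exp)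
    MeasurableSet.univ (fun x _ => (Real.hasDerivAt_exp x).hasDerivWithinAt)
    Real.exp_injective.injOn h
  rw [image_univ, Real.range_exp, Measure.restrict_univ] at this
  rw [this]
  refine integral_congr_ae (Eventually.of_forall fun x => ?_)
  simp only [abs_of_pos (Real.exp_pos x), real_smul]
  ring

theorem maj (C a b : ℝ) (ha : a < 1) (hab : 1 < a + b) :
    Integrable fun x : ℝ => C * Real.exp x ^ (-a) * (1 + Real.exp x) ^ (-b) * Real.exp x := by
  have hb : 0 < b := by linarith
  have hcont : Continuous fun x : ℝ =>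
      C * Real.exp x ^ (-a) * (1 + Real.exp x) ^ (-b) * Real.exp x := by
    refine ((continuous_const.mul (Real.continuous_exp.rpow_const fun x =>
      Or.inl (Real.exp_pos x).ne')).mul ((continuous_const.add Real.continuous_exp).rpow_const
        fun x => Or.inl ?_)).mul Real.continuous_exp
    have := Real.exp_pos x
    exact (show (0 : ℝ) < 1 + Real.exp x by positivity).ne'
  have hn : ∀ x : ℝ, ‖C * Real.exp x ^ (-a) * (1 + Real.exp x) ^ (-b) * Real.exp x‖ =
      |C| * Real.exp ((1 - a) * x) * (1 + Real.exp x) ^ (-b) := by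
    intro x
    have hx := Real.exp_pos x
    have e : Real.exp ((1 - a) * x) = Real.exp x ^ (-a) * Real.exp x := by
      rw [← Real.exp_mul, ← Real.exp_add]; congr 1; ring
    rw [e, Real.norm_eq_abs, abs_mul, abs_mul, abs_mul, abs_of_pos hx,
      abs_of_pos (Real.rpow_pos_of_pos hx _), abs_of_pos (Real.rpow_pos_of_pos (by positivity) _)]
    ring
  rw [← integrableOn_univ, ← Iic_union_Ioi (a := (0 : ℝ))]
  refine IntegrableOn.union ?_ ?_
  · refine ((integrableOn_exp_mul_Iic (a := 1 - a) (by linarith) 0).const_mul |C|).mono'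
      hcont.aestronglyMeasurable (Eventually.of_forall fun x => ?_)
    rw [hn]
    have hx := Real.exp_pos x
    have : (1 + Real.exp x) ^ (-b) ≤ 1 :=
      Real.rpow_le_one_of_one_le_of_nonpos (by linarith) (by linarith)
    exact mul_le_of_le_one_right (by positivity) this
  · refine ((integrableOn_exp_mul_Ioi (a := 1 - a - b) (by linarith) 0).const_mul |C|).mono'
      hcont.aestronglyMeasurable (Eventually.of_forall fun x => ?_)
    rw [hn]
    have hx := Real.exp_pos x
    have h1 : (1 + Real.exp x) ^ (-b) ≤ Real.exp x ^ (-b) :=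
      Real.rpow_le_rpow_of_nonpos hx (by linarith) (by linarith)
    have e : Real.exp ((1 - a - b) * x) = Real.exp ((1 - a) * x) * Real.exp x ^ (-b) := by
      rw [← Real.exp_mul, ← Real.exp_add]; congr 1; ring
    rw [e, ← mul_assoc]
    exact mul_le_mul_of_nonneg_left h1 (by positivity)

theorem three (f : ℂ → ℂ) (p C a b : ℝ) (ha : a < 1) (hab : 1 < a + b)
    (hd : ∀ t u : ℝ, 0 < t → u ∈ uIcc 0 p → DifferentiableAt ℂ f (t * exp (u * I)))
    (hb : ∀ t u : ℝ, 0 < t → u ∈ uIcc 0 p →
      ‖f (t * exp (u * I))‖ ≤ C * t ^ (-a) * (1 + t) ^ (-b)) :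
    ∫ t in Ioi (0 : ℝ), f t = ∫ t in Ioi (0 : ℝ), f (t * exp (p * I)) * exp (p * I) := by
  have e : ∀ z : ℂ, exp z = (Real.exp z.re : ℂ) * exp (z.im * I) := by
    intro z
    conv_lhs => rw [← re_add_im z]
    rw [exp_add, ofReal_exp]
  have hF : ∀ z : ℂ, min 0 p ≤ z.im → z.im ≤ max 0 p →
      DifferentiableAt ℂ (fun w => f (exp w) * exp w) z := by
    intro z h1 h2
    have h := hd (Real.exp z.re) z.im (Real.exp_pos _) ⟨h1, h2⟩
    rw [← e] at h
    exact (h.comp z differentiableAt_exp).mul differentiableAt_exp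
  have key := one (fun w => f (exp w) * exp w) (min 0 p) (max 0 p) _ min_le_max
    (fun z hz => (hF z hz.1.le hz.2.le).differentiableWithinAt)
    (fun z hz => (hF z hz.1 hz.2).continuousAt.continuousWithinAt)
    (maj C a b ha hab) (fun z h1 h2 => by
      have h := hb (Real.exp z.re) z.im (Real.exp_pos _) ⟨h1, h2⟩
      rw [← e] at h
      rw [norm_mul, norm_exp]
      exact mul_le_mul_of_nonneg_right h (Real.exp_pos _).le)
  have k0 : ∫ t in Ioi (0 : ℝ), f t =
      ∫ x : ℝ, f (exp (x + ((0 : ℝ) : ℂ) * I)) * exp (x + ((0 : ℝ) : ℂ) * I) := by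
    rw [subst]
    simp
  have kp : ∫ t in Ioi (0 : ℝ), f (t * exp (p * I)) * exp (p * I) =
      ∫ x : ℝ, f (exp (x + p * I)) * exp (x + p * I) := by
    rw [subst]
    refine integral_congr_ae (Eventually.of_forall fun x => ?_)
    simp only [exp_add, ofReal_exp]
    ring
  rw [k0, kp]
  rcases le_total 0 p with h | h
  · rw [min_eq_left h, max_eq_right h] at key
    exact key
  · rw [min_eq_right h, max_eq_left h] at key
    exact key.symm

end SHIFT

theorem t_shift : T_SHIFT := ⟨SHIFT.one, SHIFT.two, SHIFT.three⟩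

end

end Pool.Agent.Lib.E2
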