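import Pool.Agent.Lib.E2.PI

/-! The cross term of the non-constant part with the constant terms. -/

namespace Pool.Agent.Lib.E2

noncomputable section

open Complex MeasureTheory Set Filter Topology
open scoped Real

namespace T2I

/-- `log y` as a complex number -/
def lg (y : ℝ) : ℂ := (Real.log y : ℝ)

/-- `sqrt sigma` -/
def sq (r : ℝ) : ℂ := (√(1 / Real.cosh r) : ℝ)

lemma sig_pos (r : ℝ) : 0 < 1 / Real.cosh r := one_div_pos.2 (Real.cosh_pos r)

lemma sq_eq (r : ℝ) : sq r = exp (-(lg (Real.cosh r)) / 2) := by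
  have h := sig_pos r
  unfold sq lg
  rw [Real.sqrt_eq_rpow, Real.rpow_def_of_pos h, one_div, Real.log_inv, ofReal_exp]
  congr 1
  push_cast
  ring

lemma sq_sq (r : ℝ) : sq r * sq r = (1 / Real.cosh r : ℝ) := by
  unfold sq
  rw [← ofReal_mul, Real.mul_self_sqrt (sig_pos r).le]

lemma el_eq (r : ℝ) : el (1 / Real.cosh r) = c0 - lg (Real.cosh r) := by
  unfold el lg
  rw [one_div, Real.log_inv]
  push_cast
  ring

lemma cp_eq (r : ℝ) {y : ℝ} (hy : 0 < y) :
    Cp r y = sq r * (exp (lg y / 2) * (el (1 / Real.cosh r) + lg y)) := by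
  have hc := Real.cosh_pos r
  have h : 0 < y / Real.cosh r := div_pos hy hc
  unfold Cp Cc
  rw [pi_cp h, ← ofReal_log h.le, Real.log_div hy.ne' hc.ne', sq_eq, el_eq, ← mul_assoc, ← exp_add]
  unfold lg
  push_cast
  congr 1
  · congr 1
    ring
  · ring

lemma cm_eq (r : ℝ) {y : ℝ} (hy : 0 < y) :
    Cm r y = sq r * (exp (-(lg y / 2)) * (el (1 / Real.cosh r) - lg y)) := by
  have hc := Real.cosh_pos r
  have h : 0 < 1 / (y * Real.cosh r) := by positivity
  unfold Cm Cc
  rw [pi_cp h, ← ofReal_log h.le, one_div (y * Real.cosh r), Real.log_inv,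
    Real.log_mul hy.ne' hc.ne', sq_eq, el_eq, ← mul_assoc, ← exp_add]
  unfold lg
  push_cast
  congr 1
  · congr 1
    ring
  · ring

lemma lg_cont : ContinuousOn lg (Ioi 1) :=
  continuous_ofReal.comp_continuousOn (Real.continuousOn_log.mono fun y hy => by
    have : (1 : ℝ) < y := hy
    exact ne_of_gt (by linarith))

lemma lg_norm {y : ℝ} (hy : 1 ≤ y) : ‖lg y‖ = Real.log y := by
  unfold lg
  rw [norm_real, Real.norm_of_nonneg (Real.log_nonneg hy)]

lemma exp_lg {y : ℝ} (hy : 0 < y) : exp (lg y) = y := by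
  unfold lg
  rw [← ofReal_exp, Real.exp_log hy]

lemma exp_le {y : ℝ} (hy : 1 ≤ y) {w : ℂ} (n : ℕ) (hw : w.re ≤ n) : ‖exp (w * lg y)‖ ≤ y ^ n := by
  have h0 := Real.log_nonneg hy
  unfold lg
  rw [norm_exp, re_mul_ofReal]
  calc _ ≤ Real.exp (n * Real.log y) := Real.exp_le_exp.2 (mul_le_mul_of_nonneg_right hw h0)
    _ = y ^ n := by rw [Real.exp_nat_mul, Real.exp_log (by linarith)]

lemma maj (r K : ℝ) :
    IntegrableOn (fun y : ℝ => K * Real.exp (-(Real.cosh r)⁻¹ * y) * y ^ 2) (Ioi 1) := by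
  have hs : 0 < (Real.cosh r)⁻¹ := inv_pos.2 (Real.cosh_pos r)
  set s := (Real.cosh r)⁻¹
  have h := (exp_neg_integrableOn_Ioi 1 (half_pos hs)).const_mul (|K| * (8 / s ^ 2))
  refine Integrable.mono' h (Continuous.aestronglyMeasurable (by fun_prop)) ?_
  filter_upwards [ae_restrict_mem measurableSet_Ioi] with y hy
  have hy' : (1 : ℝ) < y := hy
  have h1 := Real.pow_div_factorial_le_exp (s / 2 * y) (by positivity) 2
  have h2 : y ^ 2 ≤ 8 / s ^ 2 * Real.exp (s / 2 * y) := by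
    rw [div_mul_eq_mul_div, le_div_iff₀ (by positivity)]
    norm_num [Nat.factorial] at h1
    nlinarith
  have h3 : Real.exp (-s * y) * Real.exp (s / 2 * y) = Real.exp (-(s / 2) * y) := by
    rw [← Real.exp_add]
    congr 1
    ring
  rw [norm_mul, norm_mul, Real.norm_eq_abs, Real.norm_of_nonneg (Real.exp_pos _).le,
    Real.norm_of_nonneg (by positivity), ← h3]
  calc _ ≤ |K| * Real.exp (-s * y) * (8 / s ^ 2 * Real.exp (s / 2 * y)) := by gcongr
    _ = _ := by ring

lemma w_bd (hV : St_VB2) (r : ℝ) : ∃ K : ℝ, 0 ≤ K ∧ ∀ y : ℝ, 1 ≤ y →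
    ‖Vr r y (1 / 2) / y‖ ≤ K * Real.exp (-(Real.cosh r)⁻¹ * y) := by
  obtain ⟨K, h⟩ := pi_vr_bd hV r 0
  refine ⟨|K|, abs_nonneg _, fun y hy => (h y hy (1 / 2) (by norm_num)).trans ?_⟩
  exact mul_le_mul_of_nonneg_right (le_abs_self K) (Real.exp_pos _).le

lemma w_int (hV : St_VB2) (r : ℝ) {f : ℝ → ℂ} (C : ℝ)
    (hm : AEStronglyMeasurable f (volume.restrict (Ioi 1)))
    (hf : ∀ y : ℝ, 1 ≤ y → ‖f y‖ ≤ C * y ^ 2) :
    IntegrableOn (fun y : ℝ => Vr r y (1 / 2) / y * f y) (Ioi 1) := by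
  obtain ⟨K, hK, h⟩ := w_bd hV r
  refine Integrable.mono' (maj r (K * C)) ((pi_vr_meas hV r _).mul hm) ?_
  filter_upwards [ae_restrict_mem measurableSet_Ioi] with y hy
  rw [norm_mul]
  calc _ ≤ K * Real.exp (-(Real.cosh r)⁻¹ * y) * (C * y ^ 2) :=
        mul_le_mul (h y (le_of_lt hy)) (hf y (le_of_lt hy)) (norm_nonneg _) (by positivity)
    _ = _ := by ring

lemma e_int (hV : St_VB2) (r : ℝ) {w : ℂ} (hw : w.re ≤ 1) (a b : ℂ) :
    IntegrableOn (fun y : ℝ => Vr r y (1 / 2) / y * (exp (w * lg y) * (a + b * lg y))) (Ioi 1) := by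
  refine w_int hV r (‖a‖ + ‖b‖) (ContinuousOn.aestronglyMeasurable ?_ measurableSet_Ioi)
    fun y hy => ?_
  · exact (continuousOn_const.mul lg_cont).cexp.mul
      (continuousOn_const.add (continuousOn_const.mul lg_cont))
  · have h1 := exp_le hy 1 (w := w) (by simpa using hw)
    have h2 : ‖a + b * lg y‖ ≤ (‖a‖ + ‖b‖) * y := by
      refine (norm_add_le _ _).trans ?_
      rw [norm_mul, lg_norm hy]
      have := Real.log_le_self (x := y) (by linarith)
      have := mul_le_mul_of_nonneg_left this (norm_nonneg b)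
      have := mul_le_mul_of_nonneg_left hy (norm_nonneg a)
      linarith
    rw [norm_mul]
    calc _ ≤ y ^ 1 * ((‖a‖ + ‖b‖) * y) := mul_le_mul h1 h2 (norm_nonneg _) (by positivity)
      _ = _ := by ring

lemma int_cp (hV : St_VB2) (r : ℝ) :
    IntegrableOn (fun y : ℝ => Vr r y (1 / 2) * Cp r y / y) (Ioi 1) := by
  refine IntegrableOn.congr_fun ((e_int hV r (w := 1 / 2) (by norm_num)
    (el (1 / Real.cosh r)) 1).const_mul (sq r)) (fun y hy => ?_) measurableSet_Ioi
  have : (1 : ℝ) < y := hy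
  rw [cp_eq r (by linarith), show lg y / 2 = 1 / 2 * lg y by ring]
  ring

lemma int_cm (hV : St_VB2) (r : ℝ) :
    IntegrableOn (fun y : ℝ => Vr r y (1 / 2) * Cm r y / y) (Ioi 1) := by
  refine IntegrableOn.congr_fun ((e_int hV r (w := -(1 / 2)) (by norm_num)
    (el (1 / Real.cosh r)) (-1)).const_mul (sq r)) (fun y hy => ?_) measurableSet_Ioi
  have : (1 : ℝ) < y := hy
  rw [cm_eq r (by linarith), show -(lg y / 2) = -(1 / 2) * lg y by ring]
  ring

lemma int_sq (hV : St_VB2) (r : ℝ) :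
    IntegrableOn (fun y : ℝ => Vr r y (1 / 2) ^ 2 / y) (Ioi 1) := by
  obtain ⟨K, hK, h⟩ := w_bd hV r
  have := w_int hV r (f := fun y => Vr r y (1 / 2) / y * y) K
    ((pi_vr_meas hV r _).mul (Continuous.aestronglyMeasurable continuous_ofReal)) fun y hy => by
      have h1 : Real.exp (-(Real.cosh r)⁻¹ * y) ≤ 1 := by
        rw [Real.exp_le_one_iff, neg_mul, neg_nonpos]
        have := Real.cosh_pos r
        positivity
      have h2 := (h y hy).trans (mul_le_mul_of_nonneg_left h1 hK)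
      rw [norm_mul, norm_real, Real.norm_of_nonneg (by linarith)]
      calc _ ≤ K * 1 * y ^ 2 := mul_le_mul h2 (by nlinarith) (by linarith) (by positivity)
        _ = _ := by ring
  refine IntegrableOn.congr_fun this (fun y hy => ?_) measurableSet_Ioi
  have h1 : (1 : ℝ) < y := hy
  have h2 : (y : ℂ) ≠ 0 := ofReal_ne_zero.2 (by linarith)
  field_simp

/-! ### the square of the small constant term -/

lemma cm_sq (r : ℝ) {y : ℝ} (hy : 0 < y) : Cm r y ^ 2 / y =
    (1 / Real.cosh r : ℝ) * ((el (1 / Real.cosh r) - lg y) ^ 2 / (y : ℂ) ^ 2) := by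
  have h0 : (y : ℂ) ≠ 0 := ofReal_ne_zero.2 hy.ne'
  have h1 : exp (-(lg y / 2)) ^ 2 = (y : ℂ)⁻¹ := by
    rw [← exp_nat_mul, ← exp_lg hy, ← exp_neg]
    congr 1
    push_cast
    ring
  rw [cm_eq r hy, mul_pow, mul_pow, h1, _root_.sq, sq_sq]
  field_simp

lemma a_int (l : ℂ) : IntegrableOn (fun y : ℝ => (l - lg y) ^ 2 / (y : ℂ) ^ 2) (Ioi 1) := by
  have h := (integrableOn_Ioi_rpow_of_lt (a := -(3 / 2)) (by norm_num) one_pos).const_mul
    ((‖l‖ + 4) ^ 2)
  refine Integrable.mono' h (ContinuousOn.aestronglyMeasurable ?_ measurableSet_Ioi) ?_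
  · refine ((continuousOn_const.sub lg_cont).pow 2).div (by fun_prop) fun y hy => ?_
    have h1 : (1 : ℝ) < y := hy
    exact pow_ne_zero 2 (ofReal_ne_zero.2 (by linarith))
  · filter_upwards [ae_restrict_mem measurableSet_Ioi] with y hy
    have h1 : (1 : ℝ) < y := hy
    have h0 : 0 < y := by linarith
    have h2 := Real.log_le_rpow_div h0.le (ε := 1 / 4) (by norm_num)
    have h3 : 1 ≤ y ^ (1 / 4 : ℝ) := Real.one_le_rpow h1.le (by norm_num)
    have h4 : ‖l - lg y‖ ≤ (‖l‖ + 4) * y ^ (1 / 4 : ℝ) := by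
      refine (norm_sub_le _ _).trans ?_
      rw [lg_norm h1.le]
      have := mul_le_mul_of_nonneg_left h3 (norm_nonneg l)
      linarith
    have h5 : (y ^ (1 / 4 : ℝ)) ^ 2 / y ^ 2 = y ^ (-(3 / 2) : ℝ) := by
      rw [← Real.rpow_natCast, ← Real.rpow_mul h0.le, ← Real.rpow_natCast, ← Real.rpow_sub h0]
      norm_num
    rw [norm_div, norm_pow, norm_pow, norm_real, Real.norm_of_nonneg h0.le, ← h5, ← mul_div_assoc,
      ← mul_pow]
    gcongr

lemma a_val (l : ℂ) :
    ∫ y in Ioi (1 : ℝ), (l - lg y) ^ 2 / (y : ℂ) ^ 2 = l ^ 2 - 2 * l + 2 := by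
  have hd : ∀ y ∈ Ici (1 : ℝ), HasDerivAt
      (fun y : ℝ => -((l - lg y) ^ 2 - 2 * (l - lg y) + 2) / (y : ℂ))
      ((l - lg y) ^ 2 / (y : ℂ) ^ 2) y := fun y hy => by
    have h1 : (1 : ℝ) ≤ y := hy
    have h0 : (y : ℂ) ≠ 0 := ofReal_ne_zero.2 (by linarith)
    have d1 : HasDerivAt lg ((y⁻¹ : ℝ) : ℂ) y := (Real.hasDerivAt_log (by linarith)).ofReal_comp
    have d2 : HasDerivAt (fun y : ℝ => (y : ℂ)) ((1 : ℝ) : ℂ) y := (hasDerivAt_id y).ofReal_comp
    have d3 := d1.const_sub l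
    have := ((((d3.fun_pow 2).fun_sub (d3.const_mul 2)).add_const 2).fun_neg).fun_div d2 h0
    refine this.congr_deriv ?_
    push_cast
    field_simp
    ring
  have t : ∀ n : ℕ, Tendsto (fun y : ℝ => lg y ^ n / (y : ℂ)) atTop (𝓝 0) := fun n => by
    have := (continuous_ofReal.tendsto 0).comp
      (Real.tendsto_pow_log_div_mul_add_atTop 1 0 n one_ne_zero)
    refine this.congr fun y => ?_
    simp [lg]
  have ht : Tendsto (fun y : ℝ => -((l - lg y) ^ 2 - 2 * (l - lg y) + 2) / (y : ℂ)) atTop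
      (𝓝 0) := by
    have := (((t 0).const_mul (-(l ^ 2 - 2 * l + 2))).add ((t 1).const_mul (2 * l - 2))).sub (t 2)
    simp only [mul_zero, add_zero, sub_zero] at this
    refine this.congr fun y => ?_
    ring
  rw [integral_Ioi_of_hasDerivAt_of_tendsto' hd (a_int l) ht]
  simp [lg]

/-! ### the Mellin transform near `u = 0` -/

/-- the integrand -/
def F (r : ℝ) (u : ℂ) (y : ℝ) : ℂ :=
  Vr r y (1 / 2) / y * (exp ((1 / 2 + u) * lg y) + exp (-(1 / 2 + u) * lg y))

/-- the transform -/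
def Psi (r : ℝ) (u : ℂ) : ℂ := ∫ y in Ioi (1 : ℝ), F r u y

lemma f_der (r : ℝ) (y : ℝ) (u : ℂ) : HasDerivAt (fun u => F r u y)
    (Vr r y (1 / 2) / y * (exp ((1 / 2 + u) * lg y) * lg y - exp (-(1 / 2 + u) * lg y) * lg y))
    u := by
  have d1 := (hasDerivAt_id u).const_add (1 / 2 : ℂ)
  have := (((d1.mul_const (lg y)).cexp).fun_add
    ((d1.fun_neg.mul_const (lg y)).cexp)).const_mul (Vr r y (1 / 2) / y)
  refine HasDerivAt.congr_deriv this ?_
  simp only [id]
  ring

lemma psi_par (hP : St_PAR) (hV : St_VB2) (r : ℝ) :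
    DifferentiableOn ℂ (Psi r) (Metric.ball 0 1) ∧ deriv (Psi r) 0 = ∫ y in Ioi (1 : ℝ),
      Vr r y (1 / 2) / y * (exp (1 / 2 * lg y) * lg y - exp (-(1 / 2) * lg y) * lg y) := by
  have h := hP.1 ℝ (volume.restrict (Ioi 1)) (F r) (Metric.ball 0 1) Metric.isOpen_ball
    (fun u _ => (pi_vr_meas hV r _).mul (ContinuousOn.aestronglyMeasurable
      ((continuousOn_const.mul lg_cont).cexp.add (continuousOn_const.mul lg_cont).cexp)
      measurableSet_Ioi))
    (ae_of_all _ fun y u _ => (f_der r y u).differentiableAt.differentiableWithinAt) ?_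
  · refine ⟨h.1, ((h.2 0 (Metric.mem_ball_self one_pos)).2).trans ?_⟩
    refine integral_congr_ae (ae_of_all _ fun y => ?_)
    simp only [(f_der r y 0).deriv, add_zero]
  · intro z _
    obtain ⟨K, hK, hb⟩ := w_bd hV r
    refine ⟨1, one_pos, _, maj r (K * 2), ?_⟩
    filter_upwards [ae_restrict_mem measurableSet_Ioi] with y hy u hu _
    have h1 : |u.re| ≤ 1 := (abs_re_le_norm u).trans (mem_ball_zero_iff.1 hu).le
    have h2 := abs_le.1 h1
    have e1 := exp_le (le_of_lt hy) 2 (w := 1 / 2 + u) (by simp; linarith [h2.2])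
    have e2 := exp_le (le_of_lt hy) 2 (w := -(1 / 2 + u)) (by simp; linarith [h2.1])
    unfold F
    rw [norm_mul]
    calc _ ≤ K * Real.exp (-(Real.cosh r)⁻¹ * y) * (y ^ 2 + y ^ 2) :=
          mul_le_mul (hb y (le_of_lt hy)) ((norm_add_le _ _).trans (add_le_add e1 e2))
            (norm_nonneg _) (by positivity)
      _ = _ := by ring

lemma psi_val (hP : St_PAR) (hV : St_VB2) (r : ℝ) :
    ∫ y in Ioi (1 : ℝ), Vr r y (1 / 2) * (Cp r y + Cm r y) / y =
      sq r * (el (1 / Real.cosh r) * Psi r 0 + deriv (Psi r) 0) := by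
  have i1 := e_int hV r (w := 1 / 2) (by norm_num)
  have i2 := e_int hV r (w := -(1 / 2)) (by norm_num)
  have j1 : IntegrableOn (fun y => el (1 / Real.cosh r) * F r 0 y) (Ioi 1) := by
    refine IntegrableOn.congr_fun (((i1 1 0).add (i2 1 0)).const_mul (el (1 / Real.cosh r)))
      (fun y _ => ?_) measurableSet_Ioi
    simp only [F, Pi.add_apply, add_zero]
    ring
  have j2 : IntegrableOn (fun y : ℝ => Vr r y (1 / 2) / y *
      (exp (1 / 2 * lg y) * lg y - exp (-(1 / 2) * lg y) * lg y)) (Ioi 1) := by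
    refine IntegrableOn.congr_fun ((i1 0 1).sub (i2 0 1)) (fun y _ => ?_) measurableSet_Ioi
    simp only [Pi.sub_apply]
    ring
  rw [(psi_par hP hV r).2, Psi, ← integral_const_mul, ← integral_add j1 j2, ← integral_const_mul]
  refine setIntegral_congr_fun measurableSet_Ioi fun y hy => ?_
  have : (1 : ℝ) < y := hy
  simp only [F, add_zero]
  rw [cp_eq r (by linarith), cm_eq r (by linarith), show -(lg y / 2) = -(1 / 2) * lg y by ring,
    show lg y / 2 = 1 / 2 * lg y by ring]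
  ring

lemma psi_lw (hL : St_LW) (r : ℝ) {u : ℂ} (h1 : ‖u‖ < 1) (h0 : u ≠ 0) :
    Psi r u = Lw r (1 / 2 + u) + sq r * (el (1 / Real.cosh r) / (-u) - 1 / (-u) ^ 2 +
      el (1 / Real.cosh r) / (1 + u) - 1 / (1 + u) ^ 2) := by
  have h2 := abs_lt.1 ((abs_re_le_norm u).trans_lt h1)
  have h := hL r (1 / 2 + u) (by simp; linarith [h2.1]) (by simpa using h0)
  rw [show (1 / 2 : ℂ) - (1 / 2 + u) = -u by ring, show (1 / 2 : ℂ) + (1 / 2 + u) = 1 + u by ring]
    at h
  rw [sq, ← h]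
  refine setIntegral_congr_fun measurableSet_Ioi fun y hy => ?_
  have : (1 : ℝ) < y := hy
  simp only [F]
  rw [pi_cp (by linarith), pi_cp (by linarith), mul_comm _ (1 / 2 + u), mul_comm _ (-(1 / 2 + u))]
  unfold lg
  ring

lemma circ (G : ℂ → ℂ) (l s : ℂ) {d : ℝ} (hd : 0 < d)
    (hG : ∀ u ∈ Metric.closedBall (0 : ℂ) d, DifferentiableAt ℂ G u) :
    (∮ u in C(0, d), (G u * (l / u + 1 / u ^ 2) + s * (l / u + 1 / u ^ 2) ^ 2)) =
      2 * π * I * (l * G 0 + deriv G 0) := by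
  have hne : ∀ u ∈ Metric.sphere (0 : ℂ) d, u ≠ 0 := fun u hu => by
    rintro rfl
    simp at hu
    linarith
  have cK : ContinuousOn (fun u : ℂ => l / u + 1 / u ^ 2) (Metric.sphere 0 d) :=
    (continuousOn_const.div continuousOn_id hne).add
      (continuousOn_const.div (by fun_prop) fun u hu => pow_ne_zero 2 (hne u hu))
  have cG : ContinuousOn G (Metric.closedBall 0 d) := fun u hu =>
    (hG u hu).continuousAt.continuousWithinAt
  have h0 : (∮ u in C(0, d), s * (l / u + 1 / u ^ 2) ^ 2) = 0 := by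
    refine circleIntegral.integral_eq_zero_of_hasDerivWithinAt
      (f := fun u => s * (-l ^ 2 * u⁻¹ - l * u⁻¹ ^ 2 - 1 / 3 * u⁻¹ ^ 3)) hd.le fun u hu => ?_
    have d1 := hasDerivAt_inv (hne u hu)
    have := (((d1.const_mul (-l ^ 2)).fun_sub ((d1.fun_pow 2).const_mul l)).fun_sub
      ((d1.fun_pow 3).const_mul (1 / 3))).const_mul s
    refine (this.congr_deriv ?_).hasDerivWithinAt
    have := hne u hu
    push_cast
    field_simp
    ring
  have h1 := circleIntegral_one_div_sub_center_pow_smul_of_differentiable_on_off_countable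
    (f := fun u => G u * (l * u + 1)) (c := 0) hd 1 countable_empty (cG.mul (by fun_prop))
    fun u hu => (hG u (Metric.ball_subset_closedBall hu.1)).mul (by fun_prop)
  have h2 : deriv (fun u => G u * (l * u + 1)) 0 = l * G 0 + deriv G 0 := by
    have := (hG 0 (Metric.mem_closedBall_self hd.le)).hasDerivAt.fun_mul
      (((hasDerivAt_id (0 : ℂ)).const_mul l).add_const 1)
    simp only [id] at this
    rw [this.deriv]
    ring
  rw [iteratedDeriv_one, h2] at h1
  have i1 : CircleIntegrable (fun u => G u * (l / u + 1 / u ^ 2)) 0 d :=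
    ContinuousOn.circleIntegrable hd.le ((cG.mono Metric.sphere_subset_closedBall).mul cK)
  have i2 : CircleIntegrable (fun u => s * (l / u + 1 / u ^ 2) ^ 2) 0 d :=
    ContinuousOn.circleIntegrable hd.le (continuousOn_const.mul (cK.pow 2))
  rw [circleIntegral.integral_add i1 i2, h0, add_zero]
  refine (circleIntegral.integral_congr hd.le fun u hu => ?_).trans (h1.trans (by simp))
  have := hne u hu
  simp only [sub_zero, smul_eq_mul]
  field_simp
  ring

lemma t2_eq (hP : St_PAR) (hV : St_VB2) (hL : St_LW) (r : ℝ) :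
    T2 r = 4 * (sq r * (el (1 / Real.cosh r) * Psi r 0 + deriv (Psi r) 0) -
      (1 / Real.cosh r : ℝ) * (el (1 / Real.cosh r) ^ 2 - 2 * el (1 / Real.cosh r) + 2)) := by
  have hc := Real.cosh_pos r
  have hlt : ∀ u ∈ Metric.closedBall (0 : ℂ) dl, ‖u‖ < 1 := fun u hu => by
    have := mem_closedBall_zero_iff.1 hu
    linarith [dl_le]
  have hps : ∀ u ∈ Metric.closedBall (0 : ℂ) dl, DifferentiableAt ℂ (Psi r) u := fun u hu =>
    (psi_par hP hV r).1.differentiableAt
      (Metric.isOpen_ball.mem_nhds (mem_ball_zero_iff.2 (hlt u hu)))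
  have h1u : ∀ u ∈ Metric.closedBall (0 : ℂ) dl, 1 + u ≠ 0 := fun u hu h => by
    have h1 := hlt u hu
    rw [show u = -1 by linear_combination h] at h1
    simp at h1
  set l := el (1 / Real.cosh r) with hl
  have dR : ∀ u ∈ Metric.closedBall (0 : ℂ) dl, HasDerivAt
      (fun u : ℂ => sq r * (Psi r u - sq r * (l * (1 + u)⁻¹ - (1 + u)⁻¹ ^ 2)))
      (sq r * (deriv (Psi r) u - sq r * (-l * (1 + u)⁻¹ ^ 2 + 2 * (1 + u)⁻¹ ^ 3))) u :=
    fun u hu => by
      have d1 := ((hasDerivAt_id u).const_add (1 : ℂ)).fun_inv (h1u u hu)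
      have := ((hps u hu).hasDerivAt.fun_sub
        (((d1.const_mul l).fun_sub (d1.fun_pow 2)).const_mul (sq r))).const_mul (sq r)
      refine HasDerivAt.congr_deriv this ?_
      simp only [id, div_eq_mul_inv, ← inv_pow]
      push_cast
      ring
  have h := circ _ l (sq r * sq r) dl_pos fun u hu => (dR u hu).differentiableAt
  rw [(dR 0 (Metric.mem_closedBall_self dl_pos.le)).deriv] at h
  have hlog : log (cosh (r : ℂ)) = lg (Real.cosh r) := by
    unfold lg
    rw [ofReal_log hc.le, ofReal_cosh]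
  unfold T2
  rw [circleIntegral.integral_congr dl_pos.le (g := fun u =>
    sq r * (Psi r u - sq r * (l * (1 + u)⁻¹ - (1 + u)⁻¹ ^ 2)) * (l / u + 1 / u ^ 2) +
      sq r * sq r * (l / u + 1 / u ^ 2) ^ 2) fun u hu => ?_, h, ← sq_sq]
  · have := two_pi_I_ne_zero
    generalize 2 * (π : ℂ) * I = p at this ⊢
    simp only [add_zero, inv_one]
    field_simp
    ring
  · have h0 : u ≠ 0 := by
      rintro rfl
      simp at hu
      linarith [dl_pos]
    have e : exp (u * lg (Real.cosh r)) = sq r * (Real.cosh r : ℂ) ^ (1 / 2 + u) := by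
      rw [sq_eq, pi_cp hc, ← exp_add]
      unfold lg
      congr 1
      ring
    simp only []
    rw [psi_lw hL r (hlt u (Metric.sphere_subset_closedBall hu)) h0, Lw, hlog, ← el_eq, ← hl, e,
      show (1 / 2 : ℂ) + (1 / 2 + u) = 1 + u by ring, show -(1 + u) = -1 - u by ring]
    simp only [div_eq_mul_inv, ← inv_pow, inv_neg]
    ring

end T2I

open T2I in
theorem t_t2i : T_T2I := fun hP _ hV hL r => by
  have e : EqOn (fun y : ℝ => ((1 / Real.cosh r : ℝ) : ℂ) *
      ((el (1 / Real.cosh r) - lg y) ^ 2 / (y : ℂ) ^ 2)) (fun y : ℝ => Cm r y ^ 2 / y) (Ioi 1) :=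
    fun y hy => (cm_sq r (lt_trans one_pos hy)).symm
  refine ⟨int_cp hV r, int_cm hV r, int_sq hV r,
    IntegrableOn.congr_fun ((a_int _).const_mul _) e measurableSet_Ioi, ?_, ?_⟩
  · rw [← setIntegral_congr_fun measurableSet_Ioi e, integral_const_mul, a_val]
  · rw [psi_val hP hV r, t2_eq hP hV hL r]
    ring

end

end Pool.Agent.Lib.E2
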